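import Mathlib

set_option autoImplicit false
set_option linter.unusedSectionVars false
open Set Cardinal Filter Topology

namespace Pool.Agent.H12.Asp

lemma refine_sets {I T α : Type} (hI : #I ≤ 𝔠) (hT : #T = 𝔠) (Φ : I → T → Set α)
    (h1 : ∀ i t, (Φ i t).Countable) (h2 : ∀ i a, {t | a ∈ Φ i t}.Countable) (D : Set α)
    (hD : D.Countable) : ∃ τ : I → T, (∀ i, Disjoint (Φ i (τ i)) D) ∧
      Pairwise fun i j => Disjoint (Φ i (τ i)) (Φ j (τ j)) := by
  obtain ⟨_, _, hw⟩ := exists_ord_eq_type_lt I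
  have step : ∀ (i : I) (σ : (j : I) → j < i → T), ∃ t : T, Disjoint (Φ i t) D ∧
      ∀ j (h : j < i), Disjoint (Φ i t) (Φ j (σ j h)) := by
    intro i σ
    set Z : Set α := D ∪ ⋃ j : Iio i, Φ j (σ j j.2) with hZ
    have c0 : ℵ₀ < 𝔠 := aleph0_lt_continuum
    have z1 : #Z < 𝔠 := by
      refine (mk_union_le _ _).trans_lt (add_lt_of_lt c0.le (hD.le_aleph0.trans_lt c0) ?_)
      refine (mk_iUnion_le _).trans_lt (mul_lt_of_lt c0.le ((mk_Iio_lt i hw).trans_le hI) ?_)
      exact (ciSup_le' fun j => (h1 _ _).le_aleph0).trans_lt c0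
    have z2 : #(⋃ a : Z, {t | a.1 ∈ Φ i t}) < 𝔠 := by
      refine (mk_iUnion_le _).trans_lt (mul_lt_of_lt c0.le z1 ?_)
      exact (ciSup_le' fun j => (h2 _ _).le_aleph0).trans_lt c0
    obtain ⟨t, ht⟩ : ∃ t, t ∉ ⋃ a : Z, {t | a.1 ∈ Φ i t} := by
      by_contra hc
      push Not at hc
      rw [eq_univ_of_forall hc, mk_univ, hT] at z2
      exact lt_irrefl _ z2
    simp only [mem_iUnion, not_exists, mem_ofPred_eq] at ht
    refine ⟨t, disjoint_left.2 fun a ha hd => ht ⟨a, Or.inl hd⟩ ha,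
      fun j h => disjoint_left.2 fun a ha hd => ht ⟨a, Or.inr (mem_iUnion.2 ⟨⟨j, h⟩, hd⟩)⟩ ha⟩
  choose g hg using step
  let τ : I → T := (wellFounded_lt (α := I)).fix g
  have hτ : ∀ i, τ i = g i fun j _ => τ j := fun i => WellFounded.fix_eq _ _ _
  refine ⟨τ, fun i => by rw [hτ]; exact (hg _ _).1, fun i j hij => ?_⟩
  rcases lt_or_gt_of_ne hij with h | h
  · have := (hg j fun k _ => τ k).2 i h
    rw [← hτ] at this; exact this.symm
  · have := (hg i fun k _ => τ k).2 j h
    rw [← hτ] at this; exact this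

/-- interval data along the binary tree -/
abbrev Data := List Bool → ℕ → ℝ × ℝ

/-- closed interval with given centre and radius -/
def iv (p : ℝ × ℝ) : Set ℝ := Icc (p.1 - p.2) (p.1 + p.2)

structure GoodD (J : Data) : Prop where
  disj : ∀ s n, n ≤ s.length → Disjoint (iv (J (false :: s) n)) (iv (J (true :: s) n))
  rad : ∀ b s n, n ≤ s.length → (J (b :: s) n).2 ≤ 1 / (s.length + 1)

/-- limit points along a branch -/
def lims (J : Data) (t : ℕ → Bool) : Set ℝ :=
  {a | ∃ n k₀, ∀ k ≥ k₀, a ∈ iv (J (PiNat.res t k) n)}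

lemma GoodD.c1 {J : Data} (h : GoodD J) (t : ℕ → Bool) : (lims J t).Countable := by
  have : lims J t = ⋃ n, ⋃ k₀, {a | ∀ k ≥ k₀, a ∈ iv (J (PiNat.res t k) n)} := by
    ext a; simp [lims]
  rw [this]
  refine countable_iUnion fun n => countable_iUnion fun k₀ => Set.Subsingleton.countable ?_
  intro a ha b hb
  have : ∀ᶠ k : ℕ in atTop, |a - b| ≤ 2 * (1 / ((k : ℝ) + 1)) := by
    filter_upwards [eventually_ge_atTop k₀, eventually_ge_atTop n] with k h1 h2
    have h3 := ha (k + 1) (by omega)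
    have h4 := hb (k + 1) (by omega)
    have h5 := h.rad (t k) (PiNat.res t k) n (by simpa using h2)
    simp only [PiNat.res_succ, iv, mem_Icc, PiNat.res_length] at h3 h4 h5
    rw [abs_le]; constructor <;> linarith [h3.1, h3.2, h4.1, h4.2]
  have t0 := (tendsto_one_div_add_atTop_nhds_zero_nat (𝕜 := ℝ)).const_mul 2
  have := ge_of_tendsto t0 this
  rw [mul_zero] at this
  exact sub_eq_zero.1 (abs_nonpos_iff.1 this)

lemma GoodD.c2 {J : Data} (h : GoodD J) (a : ℝ) : {t | a ∈ lims J t}.Countable := by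
  have : {t | a ∈ lims J t} = ⋃ n, ⋃ k₀, {t | ∀ k ≥ k₀, a ∈ iv (J (PiNat.res t k) n)} := by
    ext a; simp [lims]
  rw [this]
  refine countable_iUnion fun n => countable_iUnion fun k₀ => ?_
  refine MapsTo.countable_of_injOn (f := fun t => PiNat.res t (k₀ + n)) (mapsTo_univ _ _) ?_
    countable_univ
  intro t ht t' ht' he
  have key : ∀ m, PiNat.res t (k₀ + n + m) = PiNat.res t' (k₀ + n + m) := by
    intro m
    induction m with
    | zero => exact he
    | succ m ih =>
      have h1 := ht (k₀ + n + m + 1) (by omega)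
      have h2 := ht' (k₀ + n + m + 1) (by omega)
      have h3 := h.disj (PiNat.res t' (k₀ + n + m)) n (by simp; omega)
      rw [PiNat.res_succ] at h1 h2
      rw [ih] at h1
      change PiNat.res t (k₀ + n + m + 1) = PiNat.res t' (k₀ + n + m + 1)
      rw [PiNat.res_succ, PiNat.res_succ, ih]
      congr 1
      cases e : t (k₀ + n + m) <;> cases e' : t' (k₀ + n + m) <;> rw [e] at h1 <;>
        rw [e'] at h2
      · exact absurd h2 (disjoint_left.1 h3 h1)
      · exact absurd h1 (disjoint_left.1 h3 h2)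
  funext m
  exact PiNat.res_eq_res.1 (key (m + 1)) (by omega)

/-- the property of the splitting set -/
structure Bern (A : Set ℝ) : Prop where
  rat : ∀ q : ℚ, (q : ℝ) ∈ A
  out : ∀ J, GoodD J → ∃ t, Disjoint (lims J t) A
  ins : ∀ J, GoodD J → ∃ t, lims J t ⊆ A

lemma exists_bern : ∃ A, Bern A := by
  have hI : #({J : Data // GoodD J} × Bool) ≤ 𝔠 := by
    have : #Data = 𝔠 := by simp [Data, mk_real]
    have h2 := (mk_subtype_le GoodD).trans this.le
    simp only [mk_prod, lift_id, mk_fintype, Fintype.card_bool]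
    calc _ ≤ 𝔠 * 𝔠 := mul_le_mul' h2 (nat_lt_continuum 2).le
      _ = 𝔠 := continuum_mul_self
  obtain ⟨τ, h1, h2⟩ := refine_sets hI (T := ℕ → Bool) (by simp) (fun i => lims i.1.1)
    (fun i => i.1.2.c1) (fun i => i.1.2.c2) (range ((↑) : ℚ → ℝ)) (countable_range _)
  refine ⟨range ((↑) : ℚ → ℝ) ∪ ⋃ J : {J : Data // GoodD J}, lims J.1 (τ (J, true)),
    fun q => Or.inl ⟨q, rfl⟩, fun J hJ => ⟨τ (⟨J, hJ⟩, false), ?_⟩,
    fun J hJ => ⟨τ (⟨J, hJ⟩, true), fun a ha => Or.inr (mem_iUnion.2 ⟨⟨J, hJ⟩, ha⟩)⟩⟩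
  refine disjoint_union_right.2 ⟨h1 (⟨J, hJ⟩, false), disjoint_iUnion_right.2 fun K => ?_⟩
  exact h2 (i := (⟨J, hJ⟩, false)) (j := (K, true)) (by simp)

lemma nested {Z : Type*} [MetricSpace Z] [CompleteSpace Z] (c : ℕ → Z) (r : ℕ → ℝ)
    (h : ∀ k, dist (c (k + 1)) (c k) + r (k + 1) ≤ r k) (hr : Tendsto r atTop (𝓝 0)) :
    ∃ z, ∀ k, dist z (c k) ≤ r k := by
  have key : ∀ k m, dist (c (k + m)) (c k) + r (k + m) ≤ r k := by
    intro k m
    induction m with
    | zero => simp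
    | succ m ih =>
      have h1 := h (k + m)
      have h2 := dist_triangle (c (k + m + 1)) (c (k + m)) (c k)
      change dist (c (k + m + 1)) (c k) + r (k + m + 1) ≤ r k
      linarith
  have r0 : ∀ k, 0 ≤ r k := fun k => by
    refine le_of_tendsto hr ?_
    filter_upwards [eventually_ge_atTop k] with m hm
    obtain ⟨j, rfl⟩ := Nat.exists_eq_add_of_le hm
    linarith [key k j, dist_nonneg (x := c (k + j)) (y := c k)]
  have hb : ∀ k m, k ≤ m → dist (c k) (c m) ≤ r k := fun k m hm => by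
    obtain ⟨j, rfl⟩ := Nat.exists_eq_add_of_le hm
    rw [dist_comm]; linarith [key k j, r0 (k + j)]
  obtain ⟨z, hz⟩ := cauchySeq_tendsto_of_complete (cauchySeq_of_le_tendsto_0' r hb hr)
  refine ⟨z, fun k => le_of_tendsto (hz.dist (tendsto_const_nhds (x := c k))) ?_⟩
  filter_upwards [eventually_ge_atTop k] with m hm
  rw [dist_comm]; exact hb k m hm

/-- a binary tree of nodes built from a splitting rule -/
lemma tree {N : Type*} (R : N → ℕ → (Bool → N) → Prop) (n₀ : N)
    (h : ∀ x k, ∃ y, R x k y) : ∃ T : List Bool → N, T [] = n₀ ∧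
      ∀ s, R (T s) s.length fun b => T (b :: s) := by
  choose g hg using h
  exact ⟨fun s => List.rec n₀ (fun b s x => g x s.length b) s, rfl, fun s => hg _ _⟩

end Pool.Agent.H12.Asp
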