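import Pool.Agent.H12.Asp1

set_option autoImplicit false
set_option linter.unusedSectionVars false
open Set Filter Topology Metric

namespace Pool.Agent.H12.Asp

variable {Y : Type*} [NormedAddCommGroup Y] [NormedSpace ℝ Y]

structure Ctx (U : Set Y) (f : Y → ℝ) (L : ℝ) : Prop where
  op : IsOpen U
  conv : ConvexOn ℝ U f
  lip : ∀ x ∈ U, ∀ y ∈ U, |f x - f y| ≤ L * ‖x - y‖
  L0 : 0 ≤ L

/-- subgradients -/
def Sub (U : Set Y) (f : Y → ℝ) (x : Y) (ψ : Y →L[ℝ] ℝ) : Prop := ∀ z ∈ U, f x + ψ (z - x) ≤ f z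

/-- difference quotients -/
def dq (U : Set Y) (f : Y → ℝ) (x h : Y) : Set ℝ :=
  {q | ∃ t > 0, x + t • h ∈ U ∧ q = (f (x + t • h) - f x) / t}

variable {U : Set Y} {f : Y → ℝ} {L : ℝ}

lemma small {V : Set Y} (hV : IsOpen V) {x : Y} (hx : x ∈ V) (h : Y) :
    ∀ᶠ t : ℝ in 𝓝 0, x + t • h ∈ V := by
  have : Tendsto (fun t : ℝ => x + t • h) (𝓝 0) (𝓝 x) := by
    have c : Continuous fun t : ℝ => x + t • h := by fun_prop
    simpa using c.tendsto 0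
  exact this (hV.mem_nhds hx)

lemma small' {V : Set Y} (hV : IsOpen V) {x : Y} (hx : x ∈ V) (h : Y) :
    ∃ t : ℝ, 0 < t ∧ x + t • h ∈ V := by
  have h1 : ∀ᶠ t : ℝ in 𝓝[>] 0, x + t • h ∈ V := nhdsWithin_le_nhds (small hV hx h)
  obtain ⟨t, h2, h3⟩ := (h1.and self_mem_nhdsWithin).exists
  exact ⟨t, h3, h2⟩

lemma Ctx.q_le (c : Ctx U f L) {x h : Y} (_hx : x ∈ U) {t : ℝ} (ht : t ≠ 0) {h' : Y}
    (h1 : x + t • h ∈ U) (h2 : x + t • h' ∈ U) :
    |(f (x + t • h) - f x) / t - (f (x + t • h') - f x) / t| ≤ L * ‖h - h'‖ := by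
  have := c.lip _ h1 _ h2
  rw [add_sub_add_left_eq_sub, ← smul_sub, norm_smul, Real.norm_eq_abs] at this
  rw [← sub_div, sub_sub_sub_cancel_right, abs_div, div_le_iff₀ (abs_pos.2 ht)]
  linarith

lemma Ctx.dq_bd (c : Ctx U f L) {x h : Y} (hx : x ∈ U) {q : ℝ} (hq : q ∈ dq U f x h) :
    |q| ≤ L * ‖h‖ := by
  obtain ⟨t, ht, h1, rfl⟩ := hq
  simpa using c.q_le hx ht.ne' (h' := 0) h1 (by simpa using hx)

lemma Ctx.dq_ne (c : Ctx U f L) {x : Y} (hx : x ∈ U) (h : Y) : (dq U f x h).Nonempty := by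
  obtain ⟨t, ht, h1⟩ := small' c.op hx h
  exact ⟨_, t, ht, h1, rfl⟩

lemma Ctx.dq_bdd (c : Ctx U f L) {x : Y} (hx : x ∈ U) (h : Y) : BddBelow (dq U f x h) :=
  ⟨-(L * ‖h‖), fun _ hq => (abs_le.1 (c.dq_bd hx hq)).1⟩

lemma Ctx.norm_le (c : Ctx U f L) {x : Y} (hx : x ∈ U) {ψ : Y →L[ℝ] ℝ} (hψ : Sub U f x ψ) :
    ‖ψ‖ ≤ L := by
  have : ∀ h, ψ h ≤ L * ‖h‖ := fun h => by
    obtain ⟨t, ht, h1⟩ := small' c.op hx h
    have h2 := hψ _ h1
    have h3 := (abs_le.1 (c.dq_bd hx ⟨t, ht, h1, rfl⟩)).2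
    rw [add_sub_cancel_left, map_smul, smul_eq_mul] at h2
    rw [div_le_iff₀ ht] at h3
    nlinarith
  refine ψ.opNorm_le_bound c.L0 fun h => ?_
  have h1 := this (-h)
  rw [map_neg, norm_neg] at h1
  rw [Real.norm_eq_abs, abs_le]; constructor <;> linarith [this h]

lemma Ctx.exists_sub (c : Ctx U f L) {x : Y} (hx : x ∈ U) (h : Y) :
    ∃ ψ : Y →L[ℝ] ℝ, Sub U f x ψ ∧ ψ h = sInf (dq U f x h) := by
  set p : Y → ℝ := fun h => sInf (dq U f x h) with hp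
  have le : ∀ {h q}, q ∈ dq U f x h → p h ≤ q := fun hq => csInf_le (c.dq_bdd hx _) hq
  have ub : ∀ h, p h ≤ L * ‖h‖ := fun h => by
    obtain ⟨q, hq⟩ := c.dq_ne hx h
    exact (le hq).trans (abs_le.1 (c.dq_bd hx hq)).2
  have hom1 : ∀ a : ℝ, 0 < a → ∀ h, p (a • h) ≤ a * p h := by
    intro a ha h
    rw [← div_le_iff₀' ha]
    refine le_csInf (c.dq_ne hx h) ?_
    rintro _ ⟨t, ht, h1, rfl⟩
    have e : (t / a) • a • h = t • h := by rw [smul_smul, div_mul_cancel₀ _ ha.ne']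
    have := le (h := a • h) ⟨t / a, by positivity, by rwa [e], rfl⟩
    rw [e] at this
    rw [div_le_iff₀ ha]
    refine this.trans (le_of_eq ?_)
    field_simp
  have hom : ∀ a : ℝ, 0 < a → ∀ h, p (a • h) = a * p h := by
    intro a ha h
    refine le_antisymm (hom1 a ha h) ?_
    have := hom1 a⁻¹ (by positivity) (a • h)
    rw [inv_smul_smul₀ ha.ne'] at this
    rwa [← le_inv_mul_iff₀ ha]
  have add : ∀ h k, p (h + k) ≤ p h + p k := by
    intro h k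
    have : ∀ q ∈ dq U f x h, ∀ q' ∈ dq U f x k, p (h + k) ≤ q + q' := by
      rintro _ ⟨s, hs, h1, rfl⟩ _ ⟨t, ht, h2, rfl⟩
      have e : (t / (s + t)) • (x + s • h) + (s / (s + t)) • (x + t • k) =
          x + (s * t / (s + t)) • (h + k) := by
        have : t / (s + t) + s / (s + t) = 1 := by field_simp; ring
        rw [smul_add, smul_add, smul_smul, smul_smul, add_add_add_comm, ← add_smul, this, one_smul,
          smul_add]
        congr 3 <;> ring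
      have a1 : 0 ≤ t / (s + t) := by positivity
      have a2 : 0 ≤ s / (s + t) := by positivity
      have a3 : t / (s + t) + s / (s + t) = 1 := by field_simp; ring
      have m := c.conv.1 h1 h2 a1 a2 a3
      have i := c.conv.2 h1 h2 a1 a2 a3
      rw [e] at m i
      refine (le ⟨s * t / (s + t), by positivity, m, rfl⟩).trans ?_
      rw [div_le_iff₀ (by positivity)]
      simp only [smul_eq_mul] at i
      have : ((f (x + s • h) - f x) / s + (f (x + t • k) - f x) / t) * (s * t / (s + t)) =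
          t / (s + t) * f (x + s • h) + s / (s + t) * f (x + t • k) - f x := by
        field_simp; ring
      linarith
    have h1 : ∀ q' ∈ dq U f x k, p (h + k) - q' ≤ p h := fun q' hq' =>
      le_csInf (c.dq_ne hx h) fun q hq => by linarith [this q hq q' hq']
    have h2 : p (h + k) - p h ≤ p k := le_csInf (c.dq_ne hx k) fun q hq => by linarith [h1 q hq]
    linarith
  have p0 : p 0 = 0 := by
    have := hom 2 two_pos 0
    rw [smul_zero] at this; linarith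
  obtain ⟨g, hg1, hg2⟩ := exists_extension_of_le_sublinear
    (LinearPMap.mkSpanSingleton' h (p h) fun a ha => by
      rcases smul_eq_zero.1 ha with rfl | rfl <;> simp [p0]) p hom add (by
      rintro ⟨y, hy⟩
      obtain ⟨a, rfl⟩ := Submodule.mem_span_singleton.1 hy
      rw [LinearPMap.mkSpanSingleton'_apply]
      simp only [smul_eq_mul, RingHom.id_apply]
      rcases lt_trichotomy a 0 with ha | rfl | ha
      · have h1 := add (a • h) ((-a) • h)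
        rw [← add_smul, add_neg_cancel, zero_smul, p0, hom _ (neg_pos.2 ha)] at h1
        linarith
      · simp [p0]
      · rw [hom a ha])
  refine ⟨g.mkContinuous L fun y => ?_, fun z hz => ?_, ?_⟩
  · have h1 := (hg2 (-y)).trans (ub _)
    rw [map_neg, norm_neg] at h1
    rw [Real.norm_eq_abs, abs_le]; constructor <;> linarith [(hg2 y).trans (ub _)]
  · have h1 := (hg2 (z - x)).trans (le ⟨1, one_pos, by simpa using hz, rfl⟩)
    simp only [one_smul, add_sub_cancel, div_one] at h1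
    simp only [LinearMap.mkContinuous_apply]; linarith
  · have := hg1 ⟨h, Submodule.mem_span_singleton_self h⟩
    rw [LinearPMap.mkSpanSingleton'_apply_self] at this
    exact this

lemma Ctx.tendsto_dq (c : Ctx U f L) {x : Y} (hx : x ∈ U) (h : Y) :
    Tendsto (fun t : ℝ => (f (x + t • h) - f x) / t) (𝓝[>] 0) (𝓝 (sInf (dq U f x h))) := by
  rw [tendsto_order]
  constructor
  · intro a ha
    filter_upwards [nhdsWithin_le_nhds (small c.op hx h), self_mem_nhdsWithin] with t h1 h2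
    exact ha.trans_le (csInf_le (c.dq_bdd hx _) ⟨t, h2, h1, rfl⟩)
  · intro a ha
    obtain ⟨_, ⟨s, hs, h1, rfl⟩, h2⟩ := exists_lt_of_csInf_lt (c.dq_ne hx h) ha
    filter_upwards [Ioo_mem_nhdsGT hs] with t ht
    refine lt_of_le_of_lt ?_ h2
    have a1 : 0 ≤ t / s := (div_pos ht.1 hs).le
    have a2 : 0 ≤ 1 - t / s := by rw [sub_nonneg, div_le_one hs]; exact ht.2.le
    have i := c.conv.2 h1 hx a1 a2 (by ring)
    have e : (t / s) • (x + s • h) + (1 - t / s) • x = x + t • h := by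
      rw [smul_add, smul_smul, div_mul_cancel₀ _ hs.ne', add_right_comm, ← add_smul]; simp
    rw [e] at i
    simp only [smul_eq_mul] at i
    rw [div_le_iff₀ ht.1]
    have : (f (x + s • h) - f x) / s * t = t / s * f (x + s • h) + (1 - t / s) * f x - f x := by
      field_simp; ring
    linarith

lemma Ctx.gat (c : Ctx U f L) {x : Y} (hx : x ∈ U) {φ : Y →L[ℝ] ℝ}
    (hu : ∀ ψ, Sub U f x ψ → ψ = φ) (h : Y) :
    Tendsto (fun t : ℝ => (f (x + t • h) - f x) / t) (𝓝[≠] 0) (𝓝 (φ h)) := by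
  have e : ∀ h, sInf (dq U f x h) = φ h := fun h => by
    obtain ⟨ψ, h1, h2⟩ := c.exists_sub hx h
    rw [← h2, hu ψ h1]
  rw [← nhdsLT_sup_nhdsGT, tendsto_sup]
  refine ⟨?_, by simpa [e] using c.tendsto_dq hx h⟩
  have t1 := (c.tendsto_dq hx (-h)).neg
  rw [e, map_neg, neg_neg] at t1
  have t2 : Tendsto (fun t : ℝ => -t) (𝓝[<] 0) (𝓝[>] 0) := by
    simpa using tendsto_neg_nhdsLT_neg (a := (0 : ℝ))
  refine (t1.comp t2).congr fun t => ?_
  simp [div_neg]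

lemma Ctx.unif (c : Ctx U f L) {x : Y} (hx : x ∈ U) {φ : Y →L[ℝ] ℝ}
    (hu : ∀ ψ, Sub U f x ψ → ψ = φ) {K : Set Y} (hK : TotallyBounded K) :
    TendstoUniformlyOn (fun (t : ℝ) h => (f (x + t • h) - f x) / t) φ (𝓝[≠] 0) K := by
  have hφ : ‖φ‖ ≤ L := by
    obtain ⟨ψ, h1, -⟩ := c.exists_sub hx 0
    rw [← hu ψ h1]; exact c.norm_le hx h1
  rw [Metric.tendstoUniformlyOn_iff]
  intro ε hε
  have L0 := c.L0
  set δ := ε / 3 / (L + 1) with hδ
  have δ0 : 0 < δ := by positivity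
  have δ1 : L * δ ≤ ε / 3 := by
    rw [hδ, mul_div_assoc', div_le_iff₀ (by positivity)]; nlinarith
  obtain ⟨T, hT, hc⟩ := Metric.totallyBounded_iff.1 hK δ δ0
  obtain ⟨ρ, ρ0, hρ⟩ := Metric.isOpen_iff.1 c.op x hx
  obtain ⟨M, M0, hM⟩ := (hK.isBounded.union hT.isBounded).exists_pos_norm_le
  have e1 : ∀ᶠ t : ℝ in 𝓝[≠] 0, ∀ y ∈ T, dist (φ y) ((f (x + t • y) - f x) / t) < ε / 3 :=
    (hT.eventually_all).2 fun y _ => by
      have := Metric.tendsto_nhds.1 (c.gat hx hu y) (ε / 3) (by positivity)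
      simpa only [dist_comm] using this
  have e2 : ∀ᶠ t : ℝ in 𝓝[≠] 0, t ∈ ball (0 : ℝ) (ρ / M) :=
    nhdsWithin_le_nhds (ball_mem_nhds _ (by positivity))
  filter_upwards [e1, e2, self_mem_nhdsWithin] with t h1 h2 h3 h hh
  obtain ⟨y, hy, hd⟩ := mem_iUnion₂.1 (hc hh)
  have mem : ∀ z ∈ K ∪ T, x + t • z ∈ U := fun z hz => hρ (by
    rw [mem_ball_zero_iff, lt_div_iff₀ M0] at h2
    rw [mem_ball, dist_eq_norm, add_sub_cancel_left, norm_smul]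
    exact (mul_le_mul_of_nonneg_left (hM z hz) (norm_nonneg _)).trans_lt h2)
  have b1 := c.q_le hx h3 (mem h (Or.inl hh)) (mem y (Or.inr hy))
  have b2 := h1 y hy
  rw [mem_ball, dist_eq_norm] at hd
  have b3 : |φ h - φ y| ≤ L * ‖h - y‖ := by
    rw [← map_sub]
    exact (φ.le_opNorm _).trans (mul_le_mul_of_nonneg_right hφ (norm_nonneg _))
  have b4 : L * ‖h - y‖ ≤ L * δ := mul_le_mul_of_nonneg_left hd.le L0
  rw [Real.dist_eq] at b2 ⊢
  rw [abs_le] at b1 b3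
  rw [abs_lt] at b2 ⊢
  constructor <;> linarith [b1.1, b1.2, b2.1, b2.2, b3.1, b3.2]

/-- all subgradients at points of `V` -/
def SubOn (U : Set Y) (f : Y → ℝ) (V : Set Y) : Set (Y →L[ℝ] ℝ) := {ψ | ∃ x ∈ V, Sub U f x ψ}

lemma SubOn.mono {V V' : Set Y} (h : V' ⊆ V) : SubOn U f V' ⊆ SubOn U f V :=
  fun _ ⟨x, hx, hs⟩ => ⟨x, h hx, hs⟩

/-- nonempty open subsets -/
def Sm (V V' : Set Y) : Prop := IsOpen V' ∧ V'.Nonempty ∧ V' ⊆ V

lemma Sm.trans {V V' V'' : Set Y} (h : Sm V V') (h' : Sm V' V'') : Sm V V'' :=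
  ⟨h'.1, h'.2.1, h'.2.2.trans h.2.2⟩

lemma Ctx.minimal (c : Ctx U f L) {V : Set Y} (hV : Sm U V) {ψ₀ : Y →L[ℝ] ℝ}
    (h0 : ψ₀ ∈ SubOn U f V) {y : Y} {a : ℝ} (ha : a < ψ₀ y) :
    ∃ V', Sm V V' ∧ ∀ ψ ∈ SubOn U f V', a < ψ y := by
  obtain ⟨x, hx, hs⟩ := h0
  obtain ⟨t, ht, h1⟩ := small' hV.1 hx y
  have L0 := c.L0
  set δ := t * (ψ₀ y - a) / (2 * L + 1) with hδ
  have δ0 : 0 < δ := div_pos (mul_pos ht (sub_pos.2 ha)) (by positivity)
  refine ⟨V ∩ ball (x + t • y) δ, ⟨hV.1.inter isOpen_ball, ⟨_, h1, mem_ball_self δ0⟩,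
    inter_subset_left⟩, ?_⟩
  rintro ψ ⟨z, ⟨hz, hb⟩, hψ⟩
  have m1 := hs z (hV.2.2 hz)
  have m2 := hψ x (hV.2.2 hx)
  set w := z - (x + t • y) with hw
  rw [mem_ball, dist_eq_norm, ← hw] at hb
  have e1 : z - x = t • y + w := by rw [hw]; abel
  have e2 : x - z = -(t • y + w) := by rw [hw]; abel
  rw [e1, map_add, map_smul, smul_eq_mul] at m1
  rw [e2, map_neg, map_add, map_smul, smul_eq_mul] at m2
  have b : ∀ χ : Y →L[ℝ] ℝ, ‖χ‖ ≤ L → |χ w| ≤ L * δ := fun χ hχ =>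
    (χ.le_opNorm _).trans (mul_le_mul hχ hb.le (norm_nonneg _) L0)
  have b1 := abs_le.1 (b ψ₀ (c.norm_le (hV.2.2 hx) hs))
  have b2 := abs_le.1 (b ψ (c.norm_le (hV.2.2 hz) hψ))
  have e3 : δ * (2 * L + 1) = t * (ψ₀ y - a) := by rw [hδ]; field_simp
  have : t * a < t * ψ y := by nlinarith [b1.1, b1.2, b2.1, b2.2]
  exact lt_of_mul_lt_mul_left this ht.le

lemma Ctx.subOn_ne (c : Ctx U f L) {V : Set Y} (hV : Sm U V) : (SubOn U f V).Nonempty := by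
  obtain ⟨x, hx⟩ := hV.2.1
  obtain ⟨ψ, h, -⟩ := c.exists_sub (hV.2.2 hx) 0
  exact ⟨ψ, x, hx, h⟩

lemma Ctx.subOn_le (c : Ctx U f L) {V : Set Y} (hV : V ⊆ U) {ψ : Y →L[ℝ] ℝ}
    (h : ψ ∈ SubOn U f V) : ‖ψ‖ ≤ L := by
  obtain ⟨x, hx, hs⟩ := h
  exact c.norm_le (hV hx) hs

/-- lower semicontinuous quantities can be stabilised -/
lemma Ctx.stab (c : Ctx U f L) {V : Set Y} (hV : Sm U V) (G : (Y →L[ℝ] ℝ) → ℝ) (M : ℝ)
    (hb : ∀ ψ, ‖ψ‖ ≤ L → G ψ ≤ M)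
    (hl : ∀ ψ a, a < G ψ → ∃ y, a < ψ y ∧ ∀ χ, χ y ≤ G χ) {η : ℝ} (hη : 0 < η) :
    ∃ V', Sm V V' ∧ ∃ s, ∀ ψ ∈ SubOn U f V', s - η < G ψ ∧ G ψ ≤ s := by
  have bd : BddAbove (G '' SubOn U f V) := ⟨M, by
    rintro _ ⟨ψ, hψ, rfl⟩; exact hb ψ (c.subOn_le hV.2.2 hψ)⟩
  obtain ⟨_, ⟨ψ₀, h0, rfl⟩, h1⟩ := exists_lt_of_lt_csSup ((c.subOn_ne hV).image G)
    (sub_lt_self (sSup (G '' SubOn U f V)) hη)
  obtain ⟨y, h2, h3⟩ := hl ψ₀ _ h1
  obtain ⟨V', h4, h5⟩ := c.minimal hV h0 h2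
  exact ⟨V', h4, _, fun ψ hψ => ⟨(h5 ψ hψ).trans_le (h3 ψ),
    le_csSup bd ⟨ψ, SubOn.mono h4.2.2 hψ, rfl⟩⟩⟩

lemma Ctx.osc (c : Ctx U f L) {V : Set Y} (hV : Sm U V) (y : Y) {η : ℝ} (hη : 0 < η) :
    ∃ V', Sm V V' ∧ ∀ φ ∈ SubOn U f V', ∀ ψ ∈ SubOn U f V', |φ y - ψ y| ≤ η := by
  obtain ⟨V', h1, s, h2⟩ := c.stab hV (fun ψ => ψ y) (L * ‖y‖) (fun ψ hψ => (le_abs_self _).trans
    ((ψ.le_opNorm _).trans (mul_le_mul_of_nonneg_right hψ (norm_nonneg _))))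
    (fun ψ a ha => ⟨y, ha, fun _ => le_rfl⟩) hη
  refine ⟨V', h1, fun φ hφ ψ hψ => ?_⟩
  rw [abs_le]; constructor <;> linarith [(h2 φ hφ).1, (h2 φ hφ).2, (h2 ψ hψ).1, (h2 ψ hψ).2]

end Pool.Agent.H12.Asp
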