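import Pool.Agent.H12.Asp2

set_option autoImplicit false
set_option linter.unusedSectionVars false
open Set Filter Topology Metric

namespace Pool.Agent.H12.Asp

variable {Y : Type*} [NormedAddCommGroup Y] [NormedSpace ℝ Y]

/-- the vectors `e a` behave like indicator functions of half lines in the sup norm -/
def HV (A : Set ℝ) (e : ℝ → Y) : Prop :=
  ∀ (n : ℕ) (u : ℕ → ℝ), Monotone u → (∀ i, u i ∈ A) → ∀ ε : ℕ → ℝ, (∀ i, |ε i| ≤ 1) →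
    ‖∑ i ∈ Finset.range n, ε i • (e (u (i + 1)) - e (u i))‖ ≤ 1

/-- variation of a functional -/
noncomputable def VV (A : Set ℝ) (e : ℝ → Y) (ψ : Y →L[ℝ] ℝ) (s : Set ℝ) : ℝ :=
  (eVariationOn (fun a => ψ (e a)) (A ∩ s)).toReal

variable {A : Set ℝ} {e : ℝ → Y} {U : Set Y} {f : Y → ℝ} {L : ℝ}

lemma sum_edist (g : ℝ → ℝ) (n : ℕ) (u : ℕ → ℝ) :
    ∑ i ∈ Finset.range n, edist (g (u (i + 1))) (g (u i)) =
      ENNReal.ofReal (∑ i ∈ Finset.range n, |g (u (i + 1)) - g (u i)|) := by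
  rw [ENNReal.ofReal_sum_of_nonneg fun _ _ => abs_nonneg _]
  exact Finset.sum_congr rfl fun i _ => by rw [edist_dist, Real.dist_eq]

lemma signs (ψ : Y →L[ℝ] ℝ) (n : ℕ) (u : ℕ → ℝ) : ∃ ε : ℕ → ℝ, (∀ i, |ε i| ≤ 1) ∧
    ψ (∑ i ∈ Finset.range n, ε i • (e (u (i + 1)) - e (u i))) =
      ∑ i ∈ Finset.range n, |ψ (e (u (i + 1))) - ψ (e (u i))| := by
  refine ⟨fun i => if 0 ≤ ψ (e (u (i + 1))) - ψ (e (u i)) then 1 else -1, fun i => ?_, ?_⟩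
  · simp only; split_ifs <;> simp
  · rw [map_sum]
    refine Finset.sum_congr rfl fun i _ => ?_
    rw [map_smul, map_sub, smul_eq_mul]
    simp only
    split_ifs with h
    · rw [one_mul, abs_of_nonneg h]
    · rw [abs_of_neg (not_le.1 h)]; ring

lemma HV.ev_le (h : HV A e) (ψ : Y →L[ℝ] ℝ) (s : Set ℝ) :
    eVariationOn (fun a => ψ (e a)) (A ∩ s) ≤ ENNReal.ofReal ‖ψ‖ := by
  refine iSup_le ?_
  rintro ⟨n, u, hu, hs⟩
  rw [sum_edist (fun a => ψ (e a))]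
  obtain ⟨ε, h1, h2⟩ := signs (e := e) ψ n u
  refine ENNReal.ofReal_le_ofReal ?_
  simp only
  rw [← h2]
  exact (le_abs_self _).trans ((ψ.le_opNorm _).trans (mul_le_of_le_one_right (norm_nonneg _)
    (h n u hu (fun i => (hs i).1) ε h1)))

lemma HV.ev_ne (h : HV A e) (ψ : Y →L[ℝ] ℝ) (s : Set ℝ) :
    eVariationOn (fun a => ψ (e a)) (A ∩ s) ≠ ⊤ :=
  ne_top_of_le_ne_top ENNReal.ofReal_ne_top (h.ev_le ψ s)

lemma HV.V_le (h : HV A e) (ψ : Y →L[ℝ] ℝ) (s : Set ℝ) : VV A e ψ s ≤ ‖ψ‖ :=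
  ENNReal.toReal_le_of_le_ofReal (norm_nonneg _) (h.ev_le ψ s)

lemma V_nonneg (ψ : Y →L[ℝ] ℝ) (s : Set ℝ) : 0 ≤ VV A e ψ s := ENNReal.toReal_nonneg

lemma HV.V_mono (h : HV A e) (ψ : Y →L[ℝ] ℝ) {s t : Set ℝ} (hst : s ⊆ t) :
    VV A e ψ s ≤ VV A e ψ t :=
  ENNReal.toReal_mono (h.ev_ne ψ t) (eVariationOn.mono _ (inter_subset_inter_right _ hst))

lemma HV.abs_le (h : HV A e) (ψ : Y →L[ℝ] ℝ) {s : Set ℝ} {a b : ℝ} (ha : a ∈ A ∩ s)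
    (hb : b ∈ A ∩ s) : |ψ (e a) - ψ (e b)| ≤ VV A e ψ s := by
  have := ENNReal.toReal_mono (h.ev_ne ψ s) (eVariationOn.edist_le (fun a => ψ (e a)) ha hb)
  rwa [edist_dist, ENNReal.toReal_ofReal dist_nonneg, Real.dist_eq] at this

lemma HV.V_add (h : HV A e) (ψ : Y →L[ℝ] ℝ) {s t : Set ℝ} {d : ℝ} (hd : d ∈ A)
    (hs : IsGreatest s d) (ht : IsLeast t d) :
    VV A e ψ (s ∪ t) = VV A e ψ s + VV A e ψ t := by
  unfold VV
  have h1 : IsGreatest (A ∩ s) d := ⟨⟨hd, hs.1⟩, fun x hx => hs.2 hx.2⟩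
  have h2 : IsLeast (A ∩ t) d := ⟨⟨hd, ht.1⟩, fun x hx => ht.2 hx.2⟩
  rw [inter_union_distrib_left, eVariationOn.union _ h1 h2, ENNReal.toReal_add (h.ev_ne _ _) (h.ev_ne _ _)]

lemma HV.lsc (h : HV A e) (s : Set ℝ) (ψ : Y →L[ℝ] ℝ) (a : ℝ) (ha : a < VV A e ψ s) :
    ∃ y, a < ψ y ∧ ∀ χ : Y →L[ℝ] ℝ, χ y ≤ VV A e χ s := by
  rcases lt_or_ge a 0 with h0 | h0
  · exact ⟨0, by simpa using h0, fun χ => by simpa using V_nonneg χ s⟩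
  have h1 : ENNReal.ofReal a < eVariationOn (fun a => ψ (e a)) (A ∩ s) :=
    (ENNReal.ofReal_lt_iff_lt_toReal h0 (h.ev_ne _ _)).2 ha
  obtain ⟨⟨n, u, hu, hs⟩, h2⟩ := lt_iSup_iff.1 h1
  rw [sum_edist (fun a => ψ (e a)), ENNReal.ofReal_lt_ofReal_iff_of_nonneg h0] at h2
  obtain ⟨ε, h3, h4⟩ := signs (e := e) ψ n u
  refine ⟨_, by rw [h4]; exact h2, fun χ => ?_⟩
  have h5 := eVariationOn.sum_le (f := fun a => χ (e a)) (n := n) hu hs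
  rw [sum_edist (fun a => χ (e a)), ENNReal.ofReal_le_iff_le_toReal (h.ev_ne _ _)] at h5
  refine le_trans ?_ h5
  rw [map_sum]
  refine Finset.sum_le_sum fun i _ => ?_
  rw [map_smul, map_sub, smul_eq_mul]
  refine (le_abs_self _).trans ?_
  rw [abs_mul]
  exact mul_le_of_le_one_left (abs_nonneg _) (h3 i)

/-- the tail variation jumps across the levels `c`, `c + δ` at `a` -/
def Jump (A : Set ℝ) (e : ℝ → Y) (c δ : ℝ) (ψ : Y →L[ℝ] ℝ) (a : ℝ) : Prop :=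
  (∀ d ∈ A, d < a → c + δ ≤ VV A e ψ (Ici d)) ∧ ∀ d ∈ A, a < d → VV A e ψ (Ici d) ≤ c

/-- realised jump locations -/
def Loc (A : Set ℝ) (e : ℝ → Y) (c δ : ℝ) (S : Set (Y →L[ℝ] ℝ)) : Set ℝ :=
  {a | a ∈ A ∧ ∃ χ ∈ S, Jump A e c δ χ a}

/-- confinement of jumps -/
def Conf (A : Set ℝ) (e : ℝ → Y) (c δ η : ℝ) (S : Set (Y →L[ℝ] ℝ)) (J : Set ℝ) : Prop :=
  ∀ a ∈ Loc A e c δ S, a ∈ J ∨ ∀ φ ∈ S, ∀ ψ ∈ S, |φ (e a) - ψ (e a)| ≤ η

lemma Loc.mono {c δ : ℝ} {S S' : Set (Y →L[ℝ] ℝ)} (h : S' ⊆ S) : Loc A e c δ S' ⊆ Loc A e c δ S :=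
  fun _ ⟨h1, χ, h2, h3⟩ => ⟨h1, χ, h h2, h3⟩

lemma Conf.mono {c δ η η' : ℝ} {S S' : Set (Y →L[ℝ] ℝ)} {J : Set ℝ} (hc : Conf A e c δ η S J)
    (h : S' ⊆ S) (hη : η ≤ η') : Conf A e c δ η' S' J := fun a ha =>
  (hc a (Loc.mono h ha)).imp id fun h1 φ hφ ψ hψ => (h1 φ (h hφ) ψ (h hψ)).trans hη

section
variable (C : Ctx U f L) (hA : Bern A) (h : HV A e) {c δ : ℝ} (hδ : 0 < δ)
include C hA h hδ

lemma left_conf {V : Set Y} (hV : Sm U V) {a d : ℝ} (ha : a ∈ Loc A e c δ (SubOn U f V))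
    (hd : d < a) : ∃ V', Sm V V' ∧ ∀ b ∈ Loc A e c δ (SubOn U f V'), d ≤ b := by
  obtain ⟨-, χ, h1, h2⟩ := ha
  obtain ⟨q, q1, q2⟩ := exists_rat_btwn hd
  obtain ⟨y, y1, y2⟩ := h.lsc (Ici q) χ c (by linarith [h2.1 q (hA.rat q) q2])
  obtain ⟨V', h3, h4⟩ := C.minimal hV h1 y1
  refine ⟨V', h3, ?_⟩
  rintro b ⟨-, ψ, h5, h6⟩
  by_contra hb
  have := h6.2 q (hA.rat q) (by linarith)
  linarith [h4 ψ h5, y2 ψ]

lemma right_conf {V : Set Y} (hV : Sm U V) {s : ℝ}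
    (hs : ∀ ψ ∈ SubOn U f V, s - δ < VV A e ψ univ ∧ VV A e ψ univ ≤ s) {a d : ℝ}
    (ha : a ∈ Loc A e c δ (SubOn U f V))
    (hd : a < d) : ∃ V', Sm V V' ∧ ∀ b ∈ Loc A e c δ (SubOn U f V'), b ≤ d := by
  obtain ⟨-, χ, h1, h2⟩ := ha
  obtain ⟨q, q1, q2⟩ := exists_rat_btwn hd
  have ad : ∀ ψ, VV A e ψ univ = VV A e ψ (Iic q) + VV A e ψ (Ici q) := fun ψ => by
    rw [← h.V_add ψ (hA.rat q) isGreatest_Iic isLeast_Ici, Iic_union_Ici]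
  obtain ⟨y, y1, y2⟩ := h.lsc (Iic q) χ (s - δ - c)
    (by linarith [h2.2 q (hA.rat q) q1, ad χ, (hs χ h1).1])
  obtain ⟨V', h3, h4⟩ := C.minimal hV h1 y1
  refine ⟨V', h3, ?_⟩
  rintro b ⟨-, ψ, h5, h6⟩
  by_contra hb
  have := h6.1 q (hA.rat q) (by linarith)
  linarith [h4 ψ h5, y2 ψ, ad ψ, (hs ψ (SubOn.mono h3.2.2 h5)).2]

lemma confine {V : Set Y} (hV : Sm U V) (b : ℝ) : ∃ a ≠ b, ∀ η > 0, ∃ V', Sm V V' ∧
    Conf A e c δ η (SubOn U f V') (iv (a, η)) := by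
  obtain ⟨V₁, h1, s, hs⟩ := C.stab hV (fun ψ => VV A e ψ univ) L
    (fun ψ hψ => (h.V_le ψ _).trans hψ) (h.lsc univ) hδ
  obtain ⟨V₂, h2, b2⟩ : ∃ V₂, Sm V₁ V₂ ∧ BddAbove (Loc A e c δ (SubOn U f V₂)) := by
    rcases (Loc A e c δ (SubOn U f V₁)).eq_empty_or_nonempty with h0 | ⟨a, ha⟩
    · exact ⟨V₁, ⟨h1.1, h1.2.1, subset_rfl⟩, by rw [h0]; exact bddAbove_empty⟩
    · obtain ⟨V', h3, h4⟩ := right_conf C hA h hδ (hV.trans h1) hs ha (lt_add_one a)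
      exact ⟨V', h3, _, h4⟩
  obtain ⟨V₃, h3, b3⟩ : ∃ V₃, Sm V₂ V₃ ∧ BddBelow (Loc A e c δ (SubOn U f V₃)) := by
    rcases (Loc A e c δ (SubOn U f V₂)).eq_empty_or_nonempty with h0 | ⟨a, ha⟩
    · exact ⟨V₂, ⟨h2.1, h2.2.1, subset_rfl⟩, by rw [h0]; exact bddBelow_empty⟩
    · obtain ⟨V', h3, h4⟩ := left_conf C hA h hδ ((hV.trans h1).trans h2) ha (sub_one_lt a)
      exact ⟨V', h3, _, h4⟩
  have b4 := b2.mono (Loc.mono (SubOn.mono h3.2.2))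
  have h4 : Sm V V₃ := (h1.trans h2).trans h3
  have h5 : Sm U V₃ := hV.trans h4
  have hs3 : ∀ ψ ∈ SubOn U f V₃, s - δ < VV A e ψ univ ∧ VV A e ψ univ ≤ s :=
    fun ψ hψ => hs ψ (SubOn.mono (h2.trans h3).2.2 hψ)
  rcases (Loc A e c δ (SubOn U f V₃)).subsingleton_or_nontrivial with h0 | h0
  · refine ⟨b + 1, by simp, fun η hη => ?_⟩
    rcases h0.eq_empty_or_singleton with h6 | ⟨a, h6⟩
    · exact ⟨V₃, h4, fun a ha => by simp [h6] at ha⟩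
    · obtain ⟨V', h7, h8⟩ := C.osc h5 (e a) hη
      refine ⟨V', h4.trans h7, fun a' ha' => Or.inr ?_⟩
      have := Loc.mono (SubOn.mono h7.2.2) ha'
      rw [h6, mem_singleton_iff] at this
      rw [this]; exact h8
  · set S := Loc A e c δ (SubOn U f V₃) with hS
    have lt : sInf S < sSup S := by
      obtain ⟨x, hx, y, hy, hxy⟩ := h0.exists_lt
      exact ((csInf_le b3 hx).trans_lt hxy).trans_le (le_csSup b4 hy)
    by_cases hb : sSup S = b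
    · refine ⟨sInf S, by rw [← hb]; exact lt.ne, fun η hη => ?_⟩
      obtain ⟨a, ha, h6⟩ := exists_lt_of_csInf_lt h0.nonempty (lt_add_of_pos_right _ hη)
      obtain ⟨V', h7, h8⟩ := right_conf C hA h hδ h5 hs3 ha h6
      refine ⟨V', h4.trans h7, fun a' ha' => Or.inl ⟨?_, h8 a' ha'⟩⟩
      have := csInf_le b3 (Loc.mono (SubOn.mono h7.2.2) ha')
      simp only; linarith
    · refine ⟨sSup S, hb, fun η hη => ?_⟩
      obtain ⟨a, ha, h6⟩ := exists_lt_of_lt_csSup h0.nonempty (sub_lt_self _ hη)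
      obtain ⟨V', h7, h8⟩ := left_conf C hA h hδ h5 ha h6
      refine ⟨V', h4.trans h7, fun a' ha' => Or.inl ⟨h8 a' ha', ?_⟩⟩
      have := le_csSup b4 (Loc.mono (SubOn.mono h7.2.2) ha')
      simp only; linarith

lemma split1 {V : Bool → Set Y} (hV : ∀ b, Sm U (V b)) {η : ℝ} (hη : 0 < η) :
    ∃ (V' : Bool → Set Y) (J : Bool → ℝ × ℝ), (∀ b, Sm (V b) (V' b) ∧
      Conf A e c δ η (SubOn U f (V' b)) (iv (J b)) ∧ (J b).2 ≤ η) ∧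
      Disjoint (iv (J false)) (iv (J true)) := by
  obtain ⟨a₀, -, h0⟩ := confine C hA h hδ (c := c) (hV false) 0
  obtain ⟨a₁, hne, h1⟩ := confine C hA h hδ (c := c) (hV true) a₀
  have p : 0 < |a₁ - a₀| := abs_pos.2 (sub_ne_zero.2 hne)
  set θ := min η (|a₁ - a₀| / 3) with hθ
  have θ0 : 0 < θ := lt_min hη (by positivity)
  have θ1 : θ ≤ η := min_le_left _ _
  have θ2 : θ ≤ |a₁ - a₀| / 3 := min_le_right _ _
  obtain ⟨V₀, h2, h3⟩ := h0 θ θ0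
  obtain ⟨V₁, h4, h5⟩ := h1 θ θ0
  refine ⟨fun b => cond b V₁ V₀, fun b => cond b (a₁, θ) (a₀, θ), fun b => ?_, ?_⟩
  · cases b
    · exact ⟨h2, h3.mono subset_rfl θ1, θ1⟩
    · exact ⟨h4, h5.mono subset_rfl θ1, θ1⟩
  · refine disjoint_left.2 fun x hx hy => ?_
    simp only [iv, cond_false, cond_true, mem_Icc] at hx hy
    have : |a₁ - a₀| ≤ 2 * θ := by rw [abs_le]; constructor <;> linarith [hx.1, hx.2, hy.1, hy.2]
    linarith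

end

lemma splitm (C : Ctx U f L) (hA : Bern A) (h : HV A e) (c δ : ℕ → ℝ) (hδ : ∀ n, 0 < δ n)
    (w : ℕ → Y) {V : Bool → Set Y} (hV : ∀ b, Sm U (V b)) {η : ℝ} (hη : 0 < η) (m : ℕ) :
    ∃ (V' : Bool → Set Y) (J : Bool → ℕ → ℝ × ℝ), (∀ b, Sm (V b) (V' b)) ∧ ∀ n < m,
      (∀ b, Conf A e (c n) (δ n) η (SubOn U f (V' b)) (iv (J b n)) ∧ (J b n).2 ≤ η ∧
        ∀ φ ∈ SubOn U f (V' b), ∀ ψ ∈ SubOn U f (V' b), |φ (w n) - ψ (w n)| ≤ η) ∧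
      Disjoint (iv (J false n)) (iv (J true n)) := by
  induction m with
  | zero => exact ⟨V, fun _ _ => 0, fun b => ⟨(hV b).1, (hV b).2.1, subset_rfl⟩, by simp⟩
  | succ m ih =>
    obtain ⟨V₁, J, h1, h2⟩ := ih
    obtain ⟨V₂, K, h3, h4⟩ := split1 C hA h (hδ m) (c := c m) (fun b => (hV b).trans (h1 b)) hη
    choose V₃ h5 h6 using fun b => C.osc (((hV b).trans (h1 b)).trans (h3 b).1) (w m) hη
    refine ⟨V₃, fun b n => if n = m then K b else J b n,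
      fun b => ((h1 b).trans (h3 b).1).trans (h5 b), fun n hn => ?_⟩
    by_cases e : n = m
    · subst e
      simp only [if_true]
      exact ⟨fun b => ⟨(h3 b).2.1.mono (SubOn.mono (h5 b).2.2) le_rfl, (h3 b).2.2, h6 b⟩, h4⟩
    · simp only [if_neg e]
      have s : ∀ b, SubOn U f (V₃ b) ⊆ SubOn U f (V₁ b) := fun b =>
        SubOn.mono ((h3 b).1.trans (h5 b)).2.2
      obtain ⟨h7, h8⟩ := h2 n (by omega)
      exact ⟨fun b => ⟨(h7 b).1.mono (s b) le_rfl, (h7 b).2.1,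
        fun φ hφ ψ hψ => (h7 b).2.2 φ (s b hφ) ψ (s b hψ)⟩, h8⟩

lemma find_jump (hA : Bern A) (h : HV A e) {φ ψ : Y →L[ℝ] ℝ}
    (hq : ∀ q : ℚ, φ (e q) = ψ (e q)) {a : ℝ} (ha : a ∈ A) (hne : φ (e a) ≠ ψ (e a)) :
    ∃ χ, (χ = φ ∨ χ = ψ) ∧ ∃ (c : ℚ) (m : ℕ), Jump A e c (1 / (m + 1)) χ a := by
  set Δ := |φ (e a) - ψ (e a)| with hΔ
  have Δ0 : 0 < Δ := abs_pos.2 (sub_ne_zero.2 hne)
  have key : ∀ d d', d < a → a < d' → Δ ≤ VV A e φ (Icc d d') + VV A e ψ (Icc d d') := by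
    intro d d' h1 h2
    obtain ⟨q, q1, q2⟩ := exists_rat_btwn h1
    have m1 : a ∈ A ∩ Icc d d' := ⟨ha, h1.le, h2.le⟩
    have m2 : (q : ℝ) ∈ A ∩ Icc d d' := ⟨hA.rat q, q1.le, by linarith⟩
    have h3 := h.abs_le φ m1 m2
    have h4 := h.abs_le ψ m2 m1
    have := abs_sub_le (φ (e a)) (φ (e q)) (ψ (e a))
    rw [hq q] at this h3
    linarith
  obtain ⟨χ, hχ, hb⟩ : ∃ χ, (χ = φ ∨ χ = ψ) ∧
      ∀ d d', d < a → a < d' → Δ / 2 ≤ VV A e χ (Icc d d') := by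
    by_contra hc
    push Not at hc
    obtain ⟨d₁, d₁', h1, h2, h3⟩ := hc φ (Or.inl rfl)
    obtain ⟨d₂, d₂', h4, h5, h6⟩ := hc ψ (Or.inr rfl)
    have := key (max d₁ d₂) (min d₁' d₂') (max_lt h1 h4) (lt_min h2 h5)
    have h7 := h.V_mono φ (Icc_subset_Icc (le_max_left d₁ d₂) (min_le_left d₁' d₂'))
    have h8 := h.V_mono ψ (Icc_subset_Icc (le_max_right d₁ d₂) (min_le_right d₁' d₂'))
    linarith
  refine ⟨χ, hχ, ?_⟩
  set S := (fun d => VV A e χ (Ici d)) '' (A ∩ Ioi a) with hS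
  have ne : S.Nonempty := by
    obtain ⟨q, hq⟩ := exists_rat_gt a
    exact ⟨_, q, ⟨hA.rat q, hq⟩, rfl⟩
  have bd : BddAbove S := ⟨‖χ‖, by rintro _ ⟨d, -, rfl⟩; exact h.V_le _ _⟩
  obtain ⟨c, c1, c2⟩ := exists_rat_btwn (show sSup S < sSup S + Δ / 4 by linarith)
  obtain ⟨m, hm⟩ := exists_nat_one_div_lt (show 0 < Δ / 4 by linarith)
  refine ⟨c, m, fun d hd hda => ?_, fun d hd hda => ?_⟩
  · have : sSup S ≤ VV A e χ (Ici d) - Δ / 2 := by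
      refine csSup_le ne ?_
      rintro _ ⟨d', ⟨h1, h2⟩, rfl⟩
      have h3 : d ≤ d' := (hda.trans h2).le
      have := h.V_add χ h1 (isGreatest_Icc h3) isLeast_Ici
      rw [Icc_union_Ici_eq_Ici h3] at this
      have h4 := hb d d' hda h2
      simp only; linarith
    linarith
  · exact (le_csSup bd ⟨d, ⟨hd, hda⟩, rfl⟩).trans c1.le

theorem gds [CompleteSpace Y] (C : Ctx U f L) (hA : Bern A) (h : HV A e) (w : ℕ → Y)
    (hw : ∀ φ ψ : Y →L[ℝ] ℝ, (∀ a ∈ A, φ (e a) = ψ (e a)) → (∀ n, φ (w n) = ψ (w n)) → φ = ψ)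
    {W : Set Y} (hW : Sm U W) : ∃ z ∈ W, ∃ φ, ∀ ψ, Sub U f z ψ → ψ = φ := by
  obtain ⟨p, hp⟩ := exists_surjective_nat (ℚ × ℕ)
  obtain ⟨v, hv⟩ := exists_surjective_nat (ℚ ⊕ ℕ)
  set w' : ℕ → Y := fun n => Sum.elim (fun q : ℚ => e q) w (v n) with hw'
  set c : ℕ → ℝ := fun n => (p n).1 with hc
  set δ : ℕ → ℝ := fun n => 1 / ((p n).2 + 1) with hδ
  let N := {x : Y × ℝ × (ℕ → ℝ × ℝ) // 0 < x.2.1 ∧ closedBall x.1 x.2.1 ⊆ W}
  obtain ⟨x₀, hx₀⟩ := hW.2.1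
  obtain ⟨r₀, r0, hr₀⟩ := nhds_basis_closedBall.mem_iff.1 (hW.1.mem_nhds hx₀)
  obtain ⟨T, -, hT⟩ := tree (N := N) (fun x k y =>
    (∀ b, dist (y b).1.1 x.1.1 + (y b).1.2.1 ≤ x.1.2.1 ∧ (y b).1.2.1 ≤ 1 / (k + 1)) ∧ ∀ n ≤ k,
      (∀ b, Conf A e (c n) (δ n) (1 / (k + 1)) (SubOn U f (closedBall (y b).1.1 (y b).1.2.1))
        (iv ((y b).1.2.2 n)) ∧ ((y b).1.2.2 n).2 ≤ 1 / (k + 1) ∧
        ∀ φ ∈ SubOn U f (closedBall (y b).1.1 (y b).1.2.1),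
          ∀ ψ ∈ SubOn U f (closedBall (y b).1.1 (y b).1.2.1),
            |φ (w' n) - ψ (w' n)| ≤ 1 / (k + 1)) ∧
      Disjoint (iv ((y false).1.2.2 n)) (iv ((y true).1.2.2 n))) ⟨(x₀, r₀, 0), r0, hr₀⟩ (by
    rintro ⟨⟨x, r, J₀⟩, h1, h2⟩ k
    have hb : Sm U (ball x r) :=
      ⟨isOpen_ball, nonempty_ball.2 h1, ball_subset_closedBall.trans (h2.trans hW.2.2)⟩
    obtain ⟨V, J, h3, h4⟩ := splitm C hA h c δ (fun n => by positivity) w' (V := fun _ => ball x r)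
      (fun _ => hb) (Nat.one_div_pos_of_nat (n := k)) (k + 1)
    have : ∀ b, ∃ y ρ, 0 < ρ ∧ closedBall y ρ ⊆ V b ∧ dist y x + ρ ≤ r ∧ ρ ≤ 1 / (k + 1) := by
      intro b
      obtain ⟨y, hy⟩ := (h3 b).2.1
      obtain ⟨ρ, ρ0, hρ⟩ := nhds_basis_closedBall.mem_iff.1 ((h3 b).1.mem_nhds hy)
      have := mem_ball.1 ((h3 b).2.2 hy)
      refine ⟨y, min ρ (min (r - dist y x) (1 / (k + 1))),
        lt_min ρ0 (lt_min (by linarith) Nat.one_div_pos_of_nat),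
        (closedBall_subset_closedBall (min_le_left _ _)).trans hρ, ?_,
        (min_le_right _ _).trans (min_le_right _ _)⟩
      linarith [(min_le_right ρ _).trans (min_le_left (r - dist y x) (1 / ((k : ℝ) + 1)))]
    choose y ρ g1 g2 g3 g4 using this
    refine ⟨fun b => ⟨(y b, ρ b, J b), g1 b,
      (g2 b).trans ((h3 b).2.2.trans (ball_subset_closedBall.trans h2))⟩,
      fun b => ⟨g3 b, g4 b⟩, fun n hn => ?_⟩
    obtain ⟨h5, h6⟩ := h4 n (by omega)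
    exact ⟨fun b => ⟨(h5 b).1.mono (SubOn.mono (g2 b)) le_rfl, (h5 b).2.1, fun φ hφ ψ hψ =>
      (h5 b).2.2 φ (SubOn.mono (g2 b) hφ) ψ (SubOn.mono (g2 b) hψ)⟩, h6⟩)
  obtain ⟨t, ht⟩ := hA.out (fun s => (T s).1.2.2)
    ⟨fun s n hn => ((hT s).2 n hn).2, fun b s n hn => (((hT s).2 n hn).1 b).2.1⟩
  have hT' := fun k => hT (PiNat.res t k)
  simp only [PiNat.res_length] at hT'
  have t0 := tendsto_one_div_add_atTop_nhds_zero_nat (𝕜 := ℝ)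
  obtain ⟨z, hz⟩ := nested (fun k => (T (PiNat.res t k)).1.1) (fun k => (T (PiNat.res t k)).1.2.1)
    (fun k => ((hT' k).1 (t k)).1) (by
      rw [← tendsto_add_atTop_iff_nat 1]
      exact squeeze_zero (fun k => (T _).2.1.le) (fun k => ((hT' k).1 (t k)).2) t0)
  have hzW : z ∈ W := (T (PiNat.res t 0)).2.2 (hz 0)
  obtain ⟨φ, hφ, -⟩ := C.exists_sub (hW.2.2 hzW) 0
  refine ⟨z, hzW, φ, fun ψ hψ => ?_⟩
  have mem : ∀ {χ}, Sub U f z χ → ∀ k, χ ∈ SubOn U f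
      (closedBall (T (t k :: PiNat.res t k)).1.1 (T (t k :: PiNat.res t k)).1.2.1) :=
    fun hχ k => ⟨z, hz (k + 1), hχ⟩
  have e1 : ∀ n, ψ (w' n) = φ (w' n) := by
    intro n
    have : |ψ (w' n) - φ (w' n)| ≤ 0 := ge_of_tendsto t0 (by
      filter_upwards [eventually_ge_atTop n] with k hk
      exact (((hT' k).2 n hk).1 (t k)).2.2 ψ (mem hψ k) φ (mem hφ k))
    exact sub_eq_zero.1 (abs_nonpos_iff.1 this)
  refine hw ψ φ (fun a ha => ?_) fun n => ?_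
  · by_contra hne
    obtain ⟨χ, hχ, q, m, hj⟩ := find_jump hA h (fun q => by
      obtain ⟨n, hn⟩ := hv (Sum.inl q)
      simpa [hw', hn] using e1 n) ha hne
    obtain ⟨n, hn⟩ := hp (q, m)
    have hs : Sub U f z χ := by rcases hχ with rfl | rfl <;> assumption
    have hl := disjoint_right.1 ht ha
    simp only [lims, mem_ofPred_eq, not_exists, not_forall] at hl
    have : |ψ (e a) - φ (e a)| ≤ 0 := ge_of_tendsto_of_frequently t0 (by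
      rw [frequently_atTop]
      intro k₀
      obtain ⟨k, hk, hk'⟩ := hl n (max k₀ n + 1)
      obtain ⟨k, rfl⟩ : ∃ j, k = j + 1 := ⟨k - 1, by omega⟩
      have h1 : k₀ ≤ k := by have := le_max_left k₀ n; omega
      have h2 : n ≤ k := by have := le_max_right k₀ n; omega
      refine ⟨k, h1, ?_⟩
      rcases (((hT' k).2 n h2).1 (t k)).1 a ⟨ha, χ, mem hs k, by simpa [hc, hδ, hn] using hj⟩
        with h3 | h3
      · exact absurd h3 hk'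
      · exact h3 ψ (mem hψ k) φ (mem hφ k))
    exact hne (sub_eq_zero.1 (abs_nonpos_iff.1 this))
  · obtain ⟨k, hk⟩ := hv (Sum.inr n)
    simpa [hw', hk] using e1 k

end Pool.Agent.H12.Asp
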