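import Pool.Agent.H12.Asp3

set_option autoImplicit false
set_option linter.unusedSectionVars false
open Set Filter Topology Metric
open scoped ENNReal

namespace Pool.Agent.H12.Asp

abbrev BB := lp (fun _ : ℝ => ℝ) ∞

/-- indicator of a half line -/
noncomputable def e0 (a : ℝ) : BB := ⟨fun s => if a ≤ s then 1 else 0, memℓp_infty ⟨1, by
  rintro _ ⟨s, rfl⟩; simp only; split_ifs <;> simp⟩⟩

lemma e0_apply (a s : ℝ) : e0 a s = if a ≤ s then 1 else 0 := rfl

lemma abs_le_norm (x : BB) (s : ℝ) : |x s| ≤ ‖x‖ := lp.norm_apply_le_norm ENNReal.top_ne_zero x s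

lemma sub_le_dist (x y : BB) (s : ℝ) : |x s - y s| ≤ dist x y := by
  rw [dist_eq_norm]; exact abs_le_norm (x - y) s

/-- supremum functional -/
noncomputable def supf (x : BB) : ℝ := ⨆ s, x s

lemma le_supf (x : BB) (s : ℝ) : x s ≤ supf x :=
  le_ciSup ⟨‖x‖, by rintro _ ⟨s, rfl⟩; exact (le_abs_self _).trans (abs_le_norm x s)⟩ s

lemma supf_le {x : BB} {c : ℝ} (h : ∀ s, x s ≤ c) : supf x ≤ c := ciSup_le h

lemma supf_lip (x y : BB) : supf x ≤ supf y + dist x y := supf_le fun s => by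
  linarith [le_supf y s, (abs_le.1 (sub_le_dist x y s)).2]

lemma continuous_supf : Continuous supf :=
  (LipschitzWith.of_le_add supf_lip).continuous

lemma supf_conv (x y : BB) {a b : ℝ} (ha : 0 ≤ a) (hb : 0 ≤ b) :
    supf (a • x + b • y) ≤ a * supf x + b * supf y := supf_le fun s => by
  have : (a • x + b • y) s = a * x s + b * y s := rfl
  rw [this]
  exact add_le_add (mul_le_mul_of_nonneg_left (le_supf x s) ha)
    (mul_le_mul_of_nonneg_left (le_supf y s) hb)

variable (A : Set ℝ)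

/-- closed span of the half line indicators with end point in `A` -/
noncomputable def XX : Submodule ℝ BB := (Submodule.span ℝ (e0 '' A)).topologicalClosure

instance : CompleteSpace (XX A) :=
  (Submodule.isClosed_topologicalClosure _).completeSpace_coe

open Classical in
/-- the generating vectors -/
noncomputable def eX (a : ℝ) : XX A :=
  if h : a ∈ A then ⟨e0 a, Submodule.le_topologicalClosure _ (Submodule.subset_span ⟨a, h, rfl⟩)⟩
  else 0

variable {A}

lemma eX_coe {a : ℝ} (h : a ∈ A) : (eX A a : BB) = e0 a := by simp [eX, h]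

lemma hv_eX : HV A (eX A) := by
  intro n u hu hA ε hε
  rw [← Submodule.norm_coe]
  refine lp.norm_le_of_forall_le zero_le_one fun s => ?_
  have e : ((∑ i ∈ Finset.range n, ε i • (eX A (u (i + 1)) - eX A (u i)) : XX A) : BB) s =
      ∑ i ∈ Finset.range n, ε i * (e0 (u (i + 1)) s - e0 (u i) s) := by
    rw [Submodule.coe_sum, lp.coeFn_sum, Finset.sum_apply]
    refine Finset.sum_congr rfl fun i _ => ?_
    rw [Submodule.coe_smul, Submodule.coe_sub, eX_coe (hA _), eX_coe (hA _)]; rfl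
  rw [e, Real.norm_eq_abs]
  refine (Finset.abs_sum_le_sum_abs _ _).trans ?_
  have : ∀ i, |ε i * (e0 (u (i + 1)) s - e0 (u i) s)| ≤ e0 (u i) s - e0 (u (i + 1)) s := by
    intro i
    rw [abs_mul]
    refine (mul_le_of_le_one_left (abs_nonneg _) (hε i)).trans ?_
    have := hu (Nat.le_succ i)
    simp only [e0_apply]
    split_ifs with h1 h2 h2
    · simp
    · exact absurd (this.trans h1) h2
    · simp
    · simp
  refine (Finset.sum_le_sum fun i _ => this i).trans ?_
  rw [Finset.sum_range_sub' (fun i => e0 (u i) s)]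
  simp only [e0_apply]
  split_ifs <;> norm_num

lemma ext_eX {Z : Type*} [NormedAddCommGroup Z] [NormedSpace ℝ Z] {φ ψ : XX A →L[ℝ] Z}
    (h : ∀ a ∈ A, φ (eX A a) = ψ (eX A a)) : φ = ψ := by
  refine ContinuousLinearMap.ext_on (s := eX A '' A) ?_ (by rintro _ ⟨a, ha, rfl⟩; exact h a ha)
  rw [Subtype.dense_iff]
  have : Subtype.val '' (Submodule.span ℝ (eX A '' A) : Set (XX A)) =
      Submodule.span ℝ (e0 '' A) := by
    change ((Submodule.span ℝ (eX A '' A)).map (XX A).subtype : Set BB) = _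
    rw [Submodule.map_span, image_image]
    congr 2
    exact image_congr fun a ha => eX_coe ha
  exact subset_of_eq (congrArg closure this).symm

lemma right_cont (x : XX A) (s : ℝ) {ε : ℝ} (hε : 0 < ε) :
    ∃ η > 0, ∀ u ∈ Ico s (s + η), |(x : BB) u - (x : BB) s| ≤ ε := by
  have key : ∀ y ∈ Submodule.span ℝ (e0 '' A), ∀ᶠ u in 𝓝[≥] s, y u = y s := by
    intro y hy
    induction hy using Submodule.span_induction with
    | mem x hx =>
      obtain ⟨a, -, rfl⟩ := hx
      by_cases h : a ≤ s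
      · filter_upwards [self_mem_nhdsWithin] with u hu
        simp [e0_apply, h, h.trans hu]
      · filter_upwards [nhdsWithin_le_nhds (Iio_mem_nhds (not_le.1 h))] with u hu
        simp [e0_apply, h, not_le.2 (mem_Iio.1 hu)]
    | zero => exact Eventually.of_forall fun _ => rfl
    | add x y _ _ hx hy =>
      filter_upwards [hx, hy] with u h1 h2
      change x u + y u = x s + y s
      rw [h1, h2]
    | smul a x _ hx =>
      filter_upwards [hx] with u h1
      change a * x u = a * x s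
      rw [h1]
  obtain ⟨y, hy, hd⟩ := Metric.mem_closure_iff.1 x.2 (ε / 2) (by positivity)
  obtain ⟨b, hb, h⟩ := (nhdsGE_basis_Ico s).eventually_iff.1 (key y hy)
  refine ⟨b - s, sub_pos.2 hb, fun u hu => ?_⟩
  have h1 := h (x := u) (by simpa using hu)
  have h2 := abs_le.1 (sub_le_dist x y u)
  have h3 := abs_le.1 (sub_le_dist x y s)
  rw [abs_le]; constructor <;> linarith [h2.1, h2.2, h3.1, h3.2]

variable (A)

/-- index set: every algebraic functional, repeated uncountably often -/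
abbrev GG := (XX A →ₗ[ℝ] ℝ) × ℝ

/-- the first factor -/
def EE : Submodule ℝ (XX A × (GG A → ℝ)) where
  carrier := {p | {γ : GG A | p.2 γ ≠ γ.1 p.1}.Countable}
  zero_mem' := by simp
  add_mem' := by
    intro a b ha hb
    refine (Set.Countable.union ha hb).mono fun γ hγ => ?_
    by_contra hc
    simp only [mem_union, mem_ofPred_eq, not_or, not_not] at hc
    exact hγ (by simp [hc.1, hc.2])
  smul_mem' := by
    intro c a ha
    refine Set.Countable.mono (fun γ hγ => ?_) ha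
    intro hc
    exact hγ (by simp [hc])

variable {A}

open Classical in
/-- lifting with prescribed values on a countable set of coordinates -/
noncomputable def lift (S : Set (GG A)) (hS : S.Countable) (x : XX A) (v : GG A → ℝ) : EE A :=
  ⟨(x, fun γ => if γ ∈ S then v γ else γ.1 x), hS.mono fun γ hγ => by
    by_contra hc; exact hγ (by simp [hc])⟩

/-- basic closed boxes -/
def Box (x : EE A) (r : ℝ) (S : Finset (GG A)) : Set (EE A) :=
  {y | dist y.1.1 x.1.1 ≤ r ∧ ∀ γ ∈ S, dist (y.1.2 γ) (x.1.2 γ) ≤ r}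

lemma box_nhds (x : EE A) {r : ℝ} (hr : 0 < r) (S : Finset (GG A)) : Box x r S ∈ 𝓝 x := by
  have c1 : Continuous fun y : EE A => dist y.1.1 x.1.1 := by fun_prop
  refine inter_mem (c1.continuousAt.eventually (ge_mem_nhds (by simpa using hr))) ?_
  refine (eventually_all_finset S).2 fun γ _ => ?_
  have c2 : Continuous fun y : EE A => dist (y.1.2 γ) (x.1.2 γ) := by fun_prop
  exact c2.continuousAt.eventually (ge_mem_nhds (by simpa using hr))

lemma exists_box {x : EE A} {O : Set (EE A)} (h : O ∈ 𝓝 x) : ∃ r > 0, ∃ S, Box x r S ⊆ O := by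
  rw [nhds_subtype, mem_comap] at h
  obtain ⟨t, ht, hO⟩ := h
  obtain ⟨u, hu, v, hv, huv⟩ := mem_nhds_prod_iff.1 ht
  rw [nhds_pi, Filter.mem_pi] at hv
  obtain ⟨I, hI, w, hw, hIw⟩ := hv
  have e1 := eventually_closedBall_subset hu
  have e2 : ∀ᶠ r in 𝓝 (0 : ℝ), ∀ γ ∈ I, closedBall (x.1.2 γ) r ⊆ w γ :=
    (eventually_all_finite hI).2 fun γ _ => eventually_closedBall_subset (hw γ)
  have e3 : ∀ᶠ r in 𝓝[>] (0 : ℝ), _ := nhdsWithin_le_nhds (e1.and e2)
  obtain ⟨r, ⟨h1, h2⟩, h3⟩ := (e3.and self_mem_nhdsWithin).exists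
  exact ⟨r, h3, hI.toFinset, fun y hy => hO (huv ⟨h1 hy.1,
    hIw fun γ hγ => h2 γ hγ (hy.2 γ (hI.mem_toFinset.2 hγ))⟩)⟩

/-- nodes of the scheme -/
structure Nd (A : Set ℝ) where
  x : EE A
  r : ℝ
  S : Finset (GG A)
  c : ℝ
  ρ : ℝ
  r0 : 0 < r
  ρ0 : 0 < ρ
  inv : ∀ u ∈ Ioo (c - 2 * ρ) (c + 2 * ρ), supf x.1.1 - r / 4 ≤ (x.1.1 : BB) u

lemma nd_step (hA : Bern A) (N : Nd A) {O : Set (EE A)} (hO : IsOpen O) (hd : Dense O) {l η : ℝ}
    (h1 : N.c - N.ρ ≤ l) (h2 : l ≤ N.c) (hη : 0 < η) : ∃ M : Nd A, Box M.x M.r M.S ⊆ O ∧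
      dist M.x.1.1 N.x.1.1 + M.r ≤ N.r ∧ (∀ γ ∈ N.S, dist (M.x.1.2 γ) (N.x.1.2 γ) + M.r ≤ N.r) ∧
      N.S ⊆ M.S ∧ M.r ≤ η ∧ M.ρ ≤ η ∧ l < M.c - M.ρ ∧ M.c + M.ρ < l + N.ρ := by
  classical
  obtain ⟨x, r, S, c, ρ, r0, ρ0, inv⟩ := N
  simp only at h1 h2 ⊢
  obtain ⟨p, p1, p2⟩ := exists_rat_btwn (show l < l + ρ by linarith)
  obtain ⟨q, q1, q2⟩ := exists_rat_btwn p2
  set z : XX A := (r / 2) • (eX A p - eX A q) with hz
  have zs : ∀ s, (z : BB) s = if (p : ℝ) ≤ s ∧ s < q then r / 2 else 0 := by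
    intro s
    rw [hz, Submodule.coe_smul, Submodule.coe_sub, eX_coe (hA.rat p), eX_coe (hA.rat q)]
    change r / 2 * (e0 p s - e0 q s) = _
    simp only [e0_apply]
    by_cases a1 : (p : ℝ) ≤ s <;> by_cases a2 : (q : ℝ) ≤ s
    · simp [a1, a2]
    · simp [a1, a2]
    · exact absurd (q1.le.trans a2) a1
    · simp [a1, a2]
  have zn : ‖z‖ ≤ r / 2 := by
    rw [← Submodule.norm_coe]
    refine lp.norm_le_of_forall_le (by positivity) fun s => ?_
    rw [zs]; split_ifs
    · rw [Real.norm_eq_abs, abs_of_pos (by positivity)]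
    · simp; positivity
  set x' : EE A := x + lift S S.countable_toSet z 0 with hx'
  obtain ⟨y, hy2, hy1⟩ := hd.inter_nhds_nonempty (box_nhds x' (show 0 < r / 16 by positivity) S)
  obtain ⟨r₁, r1, S₁, hb⟩ := exists_box (hO.mem_nhds hy2)
  set r' := min r₁ (min (r / 16) η) with hr'
  have a0 : 0 < r' := lt_min r1 (lt_min (by positivity) hη)
  have a1 : r' ≤ r₁ := min_le_left _ _
  have a2 : r' ≤ r / 16 := (min_le_right _ _).trans (min_le_left _ _)
  have a3 : r' ≤ η := (min_le_right _ _).trans (min_le_right _ _)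
  have ys : ∀ s, |(y.1.1 : BB) s - ((x.1.1 : BB) s + (z : BB) s)| ≤ r / 16 := fun s =>
    (sub_le_dist (y.1.1 : BB) (x'.1.1 : BB) s).trans hy1.1
  obtain ⟨u₀, hu⟩ := exists_lt_of_lt_ciSup (f := fun s => (y.1.1 : BB) s)
    (show supf y.1.1 - r' / 8 < supf y.1.1 by linarith)
  have b1 : supf x.1.1 + 3 * r / 16 ≤ supf y.1.1 := by
    have h3 := inv p ⟨by linarith, by linarith⟩
    have h4 := (abs_le.1 (ys p)).1
    rw [zs, if_pos ⟨le_rfl, q1⟩] at h4
    linarith [le_supf y.1.1 p]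
  have b2 : (p : ℝ) ≤ u₀ ∧ u₀ < q := by
    by_contra hc
    have h4 := (abs_le.1 (ys u₀)).2
    rw [zs, if_neg hc] at h4
    linarith [le_supf x.1.1 u₀]
  obtain ⟨θ, θ0, hθ⟩ := right_cont y.1.1 u₀ (show 0 < r' / 8 by positivity)
  set τ := min θ (min (q - u₀) η) with hτ
  have t0 : 0 < τ := lt_min θ0 (lt_min (sub_pos.2 b2.2) hη)
  have t1 : τ ≤ θ := min_le_left _ _
  have t2 : τ ≤ q - u₀ := (min_le_right _ _).trans (min_le_left _ _)
  have t3 : τ ≤ η := (min_le_right _ _).trans (min_le_right _ _)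
  refine ⟨⟨y, r', S ∪ S₁, u₀ + τ / 2, τ / 4, a0, by positivity, fun u hu' => ?_⟩, ?_, ?_, ?_,
    Finset.subset_union_left, a3, by simp only; linarith, by simp only; linarith [b2.1],
    by simp only; linarith⟩
  · have := (abs_le.1 (hθ u ⟨by linarith [hu'.1], by linarith [hu'.2]⟩)).1
    linarith
  · exact fun w hw => hb ⟨hw.1.trans a1, fun γ hγ =>
      (hw.2 γ (Finset.mem_union_right _ hγ)).trans a1⟩
  · have h3 : dist x'.1.1 x.1.1 ≤ r / 2 := by
      change dist (x.1.1 + z) x.1.1 ≤ _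
      rwa [dist_eq_norm, add_sub_cancel_left]
    have := dist_triangle y.1.1 x'.1.1 x.1.1
    simp only; linarith [hy1.1]
  · intro γ hγ
    have h3 : x'.1.2 γ = x.1.2 γ := by simp [hx', lift, hγ]
    have := hy1.2 γ hγ
    rw [h3] at this
    simp only; linarith

theorem not_wa (hA : Bern A) {G : Set (EE A)} (hG : IsGδ G) (hd : Dense G) : ∃ x ∈ G, ∃ h : EE A,
    ∀ c : ℝ, ¬ Tendsto (fun t : ℝ => (supf (x + t • h).1.1 - supf x.1.1) / t) (𝓝[≠] 0) (𝓝 c) := by
  classical
  obtain ⟨O, hO, rfl⟩ := hG.eq_iInter_nat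
  obtain ⟨T, -, hT⟩ := tree (N := Nd A) (fun N k y => ∀ b, Box (y b).x (y b).r (y b).S ⊆ O k ∧
      dist (y b).x.1.1 N.x.1.1 + (y b).r ≤ N.r ∧
      (∀ γ ∈ N.S, dist ((y b).x.1.2 γ) (N.x.1.2 γ) + (y b).r ≤ N.r) ∧
      N.S ⊆ (y b).S ∧ (y b).r ≤ 1 / (k + 1) ∧ (y b).ρ ≤ 1 / (k + 1) ∧
      cond b N.c (N.c - N.ρ) < (y b).c - (y b).ρ ∧ (y b).c + (y b).ρ < cond b N.c (N.c - N.ρ) + N.ρ)
    ⟨0, 1, ∅, 0, 1, one_pos, one_pos, fun u _ => by
      have : supf ((0 : EE A).1.1) ≤ 0 := supf_le fun s => le_rfl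
      change _ ≤ (0 : ℝ); linarith⟩ (fun N k => by
      choose y hy using fun b : Bool => nd_step hA N (hO k) (hd.mono (iInter_subset O k))
        (l := cond b N.c (N.c - N.ρ)) (by cases b <;> simp [N.ρ0.le])
        (by cases b <;> simp [N.ρ0.le]) (Nat.one_div_pos_of_nat (n := k))
      exact ⟨y, hy⟩)
  obtain ⟨t, ht⟩ := hA.ins (fun s _ => ((T s).c, (T s).ρ)) ⟨fun s n _ => by
    refine disjoint_left.2 fun a h1 h2 => ?_
    have h3 := (hT s false).2.2.2.2.2.2.2
    have h4 := (hT s true).2.2.2.2.2.2.1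
    simp only [iv, mem_Icc, cond_false, cond_true] at h1 h2 h3 h4
    linarith [h1.2, h2.1], fun b s n _ => (hT s b).2.2.2.2.2.1⟩
  set N : ℕ → Nd A := fun k => T (PiNat.res t k) with hN
  have hT' := fun k => hT (PiNat.res t k) (t k)
  simp only [PiNat.res_length] at hT'
  have t0 := tendsto_one_div_add_atTop_nhds_zero_nat (𝕜 := ℝ)
  have tr : Tendsto (fun k => (N k).r) atTop (𝓝 0) := by
    rw [← tendsto_add_atTop_iff_nat 1]
    exact squeeze_zero (fun k => (N _).r0.le) (fun k => (hT' k).2.2.2.2.1) t0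
  obtain ⟨z, hz⟩ := nested (fun k => (N k).x.1.1) (fun k => (N k).r) (fun k => (hT' k).2.1) tr
  obtain ⟨a, ha⟩ := nested (fun k => (N k).c) (fun k => (N k).ρ) (fun k => by
      have h3 := (hT' k).2.2.2.2.2.2
      have h4 := (N (k + 1)).ρ0
      have h5 := (N k).ρ0
      rw [Real.dist_eq, ← le_sub_iff_add_le, abs_le]
      change cond (t k) (N k).c ((N k).c - (N k).ρ) < (N (k + 1)).c - (N (k + 1)).ρ ∧
        (N (k + 1)).c + (N (k + 1)).ρ < cond (t k) (N k).c ((N k).c - (N k).ρ) + (N k).ρ at h3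
      generalize t k = b at h3
      cases b <;> simp only [cond_false, cond_true] at h3 <;> constructor <;>
        linarith [h3.1, h3.2]) (by
      rw [← tendsto_add_atTop_iff_nat 1]
      exact squeeze_zero (fun k => (N _).ρ0.le) (fun k => (hT' k).2.2.2.2.2.1) t0)
  have ha' : ∀ k, (N k).c - (N k).ρ ≤ a ∧ a ≤ (N k).c + (N k).ρ := fun k => by
    have := ha k
    rw [Real.dist_eq, abs_le] at this
    constructor <;> linarith [this.1, this.2]
  have haA : a ∈ A := ht ⟨0, 0, fun k _ => ha' k⟩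
  have mono : Monotone fun k => (N k).S := monotone_nat_of_le_succ fun k => (hT' k).2.2.2.1
  have : ∀ γ : GG A, ∃ v : ℝ, ∀ k, γ ∈ (N k).S → dist v ((N k).x.1.2 γ) ≤ (N k).r := by
    intro γ
    by_cases h : ∃ k, γ ∈ (N k).S
    · obtain ⟨v, hv⟩ := nested (fun k => (N (k + Nat.find h)).x.1.2 γ)
        (fun k => (N (k + Nat.find h)).r) (fun k => by
          rw [Nat.add_right_comm]
          exact (hT' _).2.2.1 γ (mono (Nat.le_add_left _ _) (Nat.find_spec h)))
        ((tendsto_add_atTop_iff_nat _).2 tr)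
      refine ⟨v, fun k hk => ?_⟩
      have := hv (k - Nat.find h)
      rwa [Nat.sub_add_cancel (Nat.find_min' h hk)] at this
    · exact ⟨0, fun k hk => absurd ⟨k, hk⟩ h⟩
  choose v hv using this
  set x : EE A := lift (⋃ k, ((N k).S : Set (GG A)))
    (countable_iUnion fun k => (N k).S.countable_toSet) z v with hx
  have near : ∀ k, ∀ u ∈ Ioo ((N k).c - 2 * (N k).ρ) ((N k).c + 2 * (N k).ρ),
      supf z - 3 * (N k).r ≤ (z : BB) u := by
    intro k u hu
    have h1 := (N k).inv u hu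
    have h2 := supf_lip z (N k).x.1.1
    have h3 := (abs_le.1 (sub_le_dist z (N k).x.1.1 u)).1
    have h4 : dist (z : BB) (N k).x.1.1 ≤ (N k).r := hz k
    linarith [(N k).r0]
  have t3 : Tendsto (fun k => supf z - 3 * (N k).r) atTop (𝓝 (supf z)) := by
    simpa using (tr.const_mul 3).const_sub (supf z)
  refine ⟨x, mem_iInter.2 fun k => (hT' k).1 ⟨hz (k + 1), fun γ hγ => ?_⟩,
    lift ∅ countable_empty (eX A a) 0, fun c hc => ?_⟩
  · have : x.1.2 γ = v γ := if_pos (mem_iUnion.2 ⟨k + 1, hγ⟩)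
    rw [this]; exact hv γ (k + 1) hγ
  · have ev : ∀ (s u : ℝ), ((x + s • lift ∅ countable_empty (eX A a) 0).1.1 : BB) u =
        (z : BB) u + s * e0 a u := fun s u => by rw [← eX_coe haA]; rfl
    have h1 : 1 ≤ c := by
      refine ge_of_tendsto (hc.mono_left (nhdsGT_le_nhdsNE 0)) ?_
      filter_upwards [self_mem_nhdsWithin] with s hs
      rw [le_div_iff₀ hs]
      have h2 := le_supf (x + s • lift ∅ countable_empty (eX A a) 0).1.1 a
      rw [ev, e0_apply, if_pos le_rfl] at h2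
      have h3 : supf z ≤ (z : BB) a := le_of_tendsto' t3 fun k =>
        near k a ⟨by linarith [(ha' k).1, (N k).ρ0], by linarith [(ha' k).2, (N k).ρ0]⟩
      change _ ≤ _ - supf z
      linarith
    have h2 : c ≤ 0 := by
      refine le_of_tendsto (hc.mono_left (nhdsLT_le_nhdsNE 0)) ?_
      filter_upwards [self_mem_nhdsWithin] with s hs
      refine div_nonpos_of_nonneg_of_nonpos (sub_nonneg.2 ?_) (le_of_lt hs)
      refine le_of_tendsto' t3 fun k => ?_
      have h3 := le_supf (x + s • lift ∅ countable_empty (eX A a) 0).1.1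
        ((N k).c - 3 / 2 * (N k).ρ)
      rw [ev, e0_apply, if_neg (by linarith [(ha' k).1, (N k).ρ0])] at h3
      have := near k ((N k).c - 3 / 2 * (N k).ρ) ⟨by linarith [(N k).ρ0], by linarith [(N k).ρ0]⟩
      linarith
    linarith

end Pool.Agent.H12.Asp
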