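import Pool.Agent.H12.Asp4

set_option autoImplicit false
set_option linter.unusedSectionVars false
open Set Filter Topology Metric Bornology

namespace Pool.Agent.H12.Asp

section abs
variable {H : Type*} [AddCommGroup H] [Module ℝ H] [TopologicalSpace H] [IsTopologicalAddGroup H]
  [ContinuousSMul ℝ H] {Y : Type*} [NormedAddCommGroup Y] [NormedSpace ℝ Y]

lemma invariance {D : Set H} (hD : IsOpen D) {f : H → ℝ} (hf : ConvexOn ℝ D f) {x₀ n : H} {M : ℝ}
    (h0 : ∀ t : ℝ, x₀ + t • n ∈ D ∧ f (x₀ + t • n) ≤ M) {x : H} (hx : x ∈ D) :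
    x + n ∈ D ∧ f (x + n) = f x := by
  obtain ⟨ε, ε0, hε⟩ : ∃ ε : ℝ, 0 < ε ∧ x + ε • (x - x₀) ∈ D := by
    have : Tendsto (fun t : ℝ => x + t • (x - x₀)) (𝓝 0) (𝓝 x) := by
      have c : Continuous fun t : ℝ => x + t • (x - x₀) := by fun_prop
      simpa using c.tendsto 0
    have h1 : ∀ᶠ t : ℝ in 𝓝[>] 0, x + t • (x - x₀) ∈ D := nhdsWithin_le_nhds (this (hD.mem_nhds hx))
    obtain ⟨t, h2, h3⟩ := (h1.and self_mem_nhdsWithin).exists
    exact ⟨t, h3, h2⟩
  have key : ∀ t : ℝ, x + t • n ∈ D ∧ f (x + t • n) ≤ max (f (x + ε • (x - x₀))) M := by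
    intro t
    have a1 : 0 ≤ 1 / (1 + ε) := by positivity
    have a2 : 0 ≤ ε / (1 + ε) := by positivity
    have a3 : 1 / (1 + ε) + ε / (1 + ε) = 1 := by field_simp
    have e : (1 / (1 + ε)) • (x + ε • (x - x₀)) + (ε / (1 + ε)) • (x₀ + (t * (1 + ε) / ε) • n) =
        x + t • n := by
      have : (1 + ε) ≠ 0 := by positivity
      match_scalars <;> (field_simp; try ring)
    have h1 := h0 (t * (1 + ε) / ε)
    have m := hf.1 hε h1.1 a1 a2 a3
    have i := hf.le_max_of_mem_segment hε h1.1 ⟨_, _, a1, a2, a3, e⟩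
    rw [e] at m
    exact ⟨m, i.trans (max_le_max le_rfl h1.2)⟩
  set K := max (f (x + ε • (x - x₀))) M
  have le : ∀ s s' : ℝ, f (x + s' • n) ≤ f (x + s • n) := by
    intro s s'
    have : ∀ θ : ℝ, 0 < θ → θ ≤ 1 → f (x + s' • n) ≤ (1 - θ) * f (x + s • n) + θ * K := by
      intro θ θ0 θ1
      have i := hf.2 (key s).1 (key (s + (s' - s) / θ)).1 (sub_nonneg.2 θ1) θ0.le (by ring)
      have e : (1 - θ) • (x + s • n) + θ • (x + (s + (s' - s) / θ) • n) = x + s' • n := by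
        match_scalars <;> field_simp <;> ring
      rw [e] at i
      exact i.trans (add_le_add le_rfl (mul_le_mul_of_nonneg_left (key _).2 θ0.le))
    have c : Continuous fun θ : ℝ => (1 - θ) * f (x + s • n) + θ * K := by fun_prop
    have t := (c.tendsto 0).mono_left (nhdsWithin_le_nhds (s := Ioi 0))
    simp only [sub_zero, one_mul, zero_mul, add_zero] at t
    refine ge_of_tendsto t ?_
    filter_upwards [Ioc_mem_nhdsGT zero_lt_one] with θ hθ using this θ hθ.1 hθ.2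
  have h1 := le 0 1
  have h2 := le 1 0
  have h3 := (key 1).1
  simp only [one_smul, zero_smul, add_zero] at h1 h2 h3
  exact ⟨h3, le_antisymm h1 h2⟩

lemma sep_net (S : Set Y) {ε : ℝ} (hε : 0 < ε) :
    ∃ T ⊆ S, IsClosed T ∧ ∀ y ∈ S, ∃ z ∈ T, dist y z < ε := by
  obtain ⟨T, hT⟩ := zorn_subset {T : Set Y | T ⊆ S ∧ T.Pairwise fun x y => ε ≤ dist x y} (by
    intro c hc hch
    refine ⟨⋃₀ c, ⟨sUnion_subset fun t ht => (hc ht).1, ?_⟩, fun s hs => subset_sUnion_of_mem hs⟩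
    exact (pairwise_sUnion hch.directedOn).2 fun t ht => (hc ht).2)
  refine ⟨T, hT.prop.1, isClosed_of_pairwise_le_dist hε hT.prop.2, fun y hy => ?_⟩
  by_contra hc
  push Not at hc
  have : insert y T ⊆ T := hT.le_of_ge (y := insert y T) ⟨insert_subset hy hT.prop.1,
    hT.prop.2.insert fun z hz _ => ⟨hc z hz, by rw [dist_comm]; exact hc z hz⟩⟩ (subset_insert _ _)
  have := hc y (this (mem_insert _ _))
  rw [dist_self] at this; linarith

theorem asp_abs (q : H →L[ℝ] Y) (qo : IsOpenMap q) (qs : Function.Surjective q)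
    (hY : ∀ {U : Set Y} {g : Y → ℝ} {L : ℝ}, Ctx U g L → ∀ {W}, Sm U W →
      ∃ z ∈ W, ∃ φ, ∀ ψ, Sub U g z ψ → ψ = φ)
    (hB : ∀ B : Set H, IsVonNBounded ℝ B → TotallyBounded (q '' B))
    (F : ℕ → Set H) (F1 : ∀ m, IsClosed (F m)) (F2 : Monotone F) (F3 : ∀ x, ∃ m, x ∈ F m)
    (F4 : ∀ m x, ∀ W ∈ 𝓝 x, ∃ x' ∈ W, q x' = q x ∧ x' ∉ F m)
    {D : Set H} (hD : IsOpen D) {f : H → ℝ} (hf : ConvexOn ℝ D f) (hc : ContinuousOn f D)
    (hi : ∀ x ∈ D, ∀ n, q n = 0 → x + n ∈ D ∧ f (x + n) = f x) :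
    ∃ G ⊆ D, IsGδ G ∧ D ⊆ closure G ∧ ∀ x ∈ G, ∃ φ : H →L[ℝ] ℝ, ∀ B, IsVonNBounded ℝ B →
      TendstoUniformlyOn (fun (t : ℝ) h => (f (x + t • h) - f x) / t) φ (𝓝[≠] 0) B := by
  set g : Y → ℝ := fun y => f (Function.surjInv qs y) with hg
  have sat : ∀ x ∈ D, ∀ x', q x' = q x → x' ∈ D ∧ f x' = f x := fun x hx x' h => by
    simpa using hi x hx (x' - x) (by rw [map_sub, h, sub_self])
  have gq : ∀ x ∈ D, g (q x) = f x := fun x hx => (sat x hx _ (Function.surjInv_eq qs _)).2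
  have oD := qo D hD
  have cv : ConvexOn ℝ (q '' D) g := by
    refine ⟨hf.1.linear_image q.toLinearMap, ?_⟩
    rintro _ ⟨x, hx, rfl⟩ _ ⟨y, hy, rfl⟩ a b ha hb hab
    rw [← map_smul, ← map_smul, ← map_add, gq _ (hf.1 hx hy ha hb hab), gq x hx, gq y hy]
    exact hf.2 hx hy ha hb hab
  have cg : ContinuousOn g (q '' D) := by
    rintro _ ⟨x, hx, rfl⟩
    refine ContinuousAt.continuousWithinAt ?_
    rw [← (IsOpenQuotientMap.mk qs q.continuous qo).continuousAt_comp_iff]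
    refine (hc.continuousAt (hD.mem_nhds hx)).congr ?_
    filter_upwards [hD.mem_nhds hx] with y hy using (gq y hy).symm
  have ll := (cv.locallyLipschitzOn_iff_continuousOn oD).2 cg
  set S : Set Y := {y | ∃ φ : Y →L[ℝ] ℝ, ∀ K, TotallyBounded K →
    TendstoUniformlyOn (fun (t : ℝ) h => (g (y + t • h) - g y) / t) φ (𝓝[≠] 0) K} with hS
  have dS : ∀ y ∈ q '' D, ∀ r > 0, ∃ z ∈ S, dist z y < r := by
    intro y hy r hr
    obtain ⟨K, t, ht, hK⟩ := ll hy
    rw [nhdsWithin_eq_nhds.2 (oD.mem_nhds hy)] at ht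
    obtain ⟨ρ, ρ0, hρ⟩ := Metric.mem_nhds_iff.1
      (inter_mem (inter_mem ht (oD.mem_nhds hy)) (ball_mem_nhds y hr))
    have C : Ctx (ball y ρ) g K := ⟨isOpen_ball,
      cv.subset (fun z hz => (hρ hz).1.2) (convex_ball _ _), fun a ha b hb => by
        have := hK.dist_le_mul a (hρ ha).1.1 b (hρ hb).1.1
        rwa [Real.dist_eq, dist_eq_norm] at this, K.2⟩
    obtain ⟨z, hz, φ, hφ⟩ := hY C ⟨isOpen_ball, nonempty_ball.2 ρ0, subset_rfl⟩
    exact ⟨z, ⟨φ, fun K hK => C.unif hz hφ hK⟩, (hρ hz).2⟩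
  choose T T1 T2 T3 using fun n : ℕ => sep_net S (Nat.one_div_pos_of_nat (n := n) (α := ℝ))
  set P : ℕ → Set H := fun n => q ⁻¹' T n ∩ (F n)ᶜ with hP
  have e : ⋃ n, P n = ⋂ m, ((F m)ᶜ ∪ ⋃ n ∈ Iio m, P n) := by
    ext x
    simp only [mem_iUnion, mem_iInter, mem_union, mem_compl_iff, mem_Iio, exists_prop]
    constructor
    · rintro ⟨n, hn⟩ m
      rcases lt_or_ge n m with h | h
      · exact Or.inr ⟨n, h, hn⟩
      · exact Or.inl fun hx => hn.2 (F2 h hx)
    · intro h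
      obtain ⟨m, hm⟩ := F3 x
      obtain ⟨n, -, hn⟩ := (h m).resolve_left (not_not.2 hm)
      exact ⟨n, hn⟩
  refine ⟨D ∩ ⋃ n, P n, inter_subset_left, hD.isGδ.inter ?_, fun x hx => ?_, ?_⟩
  · rw [e]
    exact IsGδ.iInter fun m => (F1 m).isOpen_compl.isGδ.union (IsGδ.biUnion (finite_Iio m)
      fun n _ => (((T2 n).isGδ).preimage q.continuous).inter (F1 n).isOpen_compl.isGδ)
  · rw [_root_.mem_closure_iff]
    intro W hW hxW
    obtain ⟨r, r0, hr⟩ := Metric.isOpen_iff.1 (qo _ (hW.inter hD)) (q x) ⟨x, ⟨hxW, hx⟩, rfl⟩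
    obtain ⟨z, hz, hd⟩ := dS (q x) ⟨x, hx, rfl⟩ (r / 2) (by positivity)
    obtain ⟨n, hn⟩ := exists_nat_one_div_lt (show 0 < r / 2 by positivity)
    obtain ⟨z', h1, h2⟩ := T3 n z hz
    obtain ⟨x', h3, h4⟩ := hr (show z' ∈ ball (q x) r by
      rw [mem_ball]
      linarith [dist_triangle z' z (q x), dist_comm z z'])
    obtain ⟨x'', h5, h6, h7⟩ := F4 n x' _ ((hW.inter hD).mem_nhds h3)
    exact ⟨x'', h5.1, h5.2, mem_iUnion.2 ⟨n, by rw [hP]; exact ⟨by simp [h6, h4, h1], h7⟩⟩⟩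
  · rintro x ⟨hx, h⟩
    obtain ⟨n, hn, -⟩ := mem_iUnion.1 h
    obtain ⟨φ, hφ⟩ := T1 n hn
    refine ⟨φ.comp q, fun B hb => ?_⟩
    refine (((hφ _ (hB B hb)).comp q).mono (subset_preimage_image _ _)).congr ?_
    have h1 : {v | x + v ∈ D} ∈ 𝓝 (0 : H) :=
      (hD.preimage (continuous_const_add x)).mem_nhds (by simpa using hx)
    have h2 := hb.tendsto_smallSets_nhds.eventually (eventually_smallSets_subset.2 h1)
    filter_upwards [nhdsWithin_le_nhds h2] with t ht b hb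
    have h3 : x + t • b ∈ D := ht (smul_mem_smul_set hb)
    simp only [Function.comp_apply]
    rw [← map_smul, ← map_add, gq _ h3, gq x hx]

end abs

/-- the second factor: finitely supported sequences with the product topology -/
def FF : Submodule ℝ (ℕ → ℝ) where
  carrier := {v | ∀ᶠ n in atTop, v n = 0}
  zero_mem' := by simp
  add_mem' := by
    intro a b ha hb
    filter_upwards [ha, hb] with n h1 h2
    simp [h1, h2]
  smul_mem' := by
    intro c a ha
    filter_upwards [ha] with n h1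
    simp [h1]

variable {A : Set ℝ}

lemma fin_dim {B : Set (EE A)} (hB : IsVonNBounded ℝ B) :
    FiniteDimensional ℝ (Submodule.span ℝ ((fun x : EE A => x.1.1) '' B)) := by
  obtain ⟨b, h1, h2, h3⟩ := exists_linearIndependent ℝ ((fun x : EE A => x.1.1) '' B)
  by_cases hb : b.Finite
  · rw [← h2]; exact FiniteDimensional.span_of_finite ℝ hb
  exfalso
  let j := Set.Infinite.natEmbedding b hb
  have h4 : LinearIndependent ℝ fun n => (j n : XX A) := h3.comp j j.injective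
  obtain ⟨φ, hφ⟩ := LinearMap.exists_extend ((Module.Basis.span h4).constr ℝ fun n => (n : ℝ))
  have h5 : ∀ n, φ (j n) = n := fun n => by
    have := LinearMap.congr_fun hφ (Module.Basis.span h4 n)
    rw [Module.Basis.constr_basis] at this
    simpa using this
  choose x hx1 hx2 using fun n => h1 (j n).2
  have hc : (⋃ n, {γ : GG A | (x n).1.2 γ ≠ γ.1 (x n).1.1}).Countable :=
    countable_iUnion fun n => (x n).2
  obtain ⟨r, hr⟩ : ∃ r : ℝ, (φ, r) ∉ ⋃ n, {γ : GG A | (x n).1.2 γ ≠ γ.1 (x n).1.1} := by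
    by_contra h
    push Not at h
    have := hc.preimage_of_injOn (f := fun r : ℝ => ((φ, r) : GG A))
      fun a _ b _ hab => (Prod.ext_iff.1 hab).2
    exact not_countable_univ (this.mono fun r _ => h r)
  simp only [mem_iUnion, mem_ofPred_eq, not_exists, not_not] at hr
  let ev : EE A →L[ℝ] ℝ := (ContinuousLinearMap.proj (φ, r)).comp
    ((ContinuousLinearMap.snd ℝ _ _).comp (EE A).subtypeL)
  obtain ⟨M, hM⟩ := ((NormedSpace.isVonNBounded_iff ℝ).1 (hB.image ev)).exists_norm_le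
  obtain ⟨n, hn⟩ := exists_nat_gt M
  have := hM _ ⟨x n, hx1 n, rfl⟩
  have e : ev (x n) = n := by
    change (x n).1.2 (φ, r) = n
    rw [hr n]
    simp only at hx2 ⊢
    rw [hx2 n, h5]
  rw [e, Real.norm_natCast] at this
  linarith

lemma tb_fin {Y : Type*} [NormedAddCommGroup Y] [NormedSpace ℝ Y] {K : Set Y} (hK : IsBounded K)
    (h : FiniteDimensional ℝ (Submodule.span ℝ K)) : TotallyBounded K := by
  have := FiniteDimensional.proper_real (Submodule.span ℝ K)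
  have h1 : IsBounded ((↑) ⁻¹' K : Set (Submodule.span ℝ K)) :=
    (isometry_subtype_coe.antilipschitz).isBounded_preimage hK
  have h2 := (h1.isCompact_closure.totallyBounded.subset subset_closure).image
    uniformContinuous_subtype_val
  refine h2.subset fun y hy => ?_
  exact ⟨⟨y, Submodule.subset_span hy⟩, hy, rfl⟩

lemma tb_prod {Y Z : Type*} [PseudoMetricSpace Y] [PseudoMetricSpace Z] {K : Set Y} {L : Set Z}
    (hK : TotallyBounded K) (hL : TotallyBounded L) : TotallyBounded (K ×ˢ L) := by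
  rw [Metric.totallyBounded_iff] at *
  intro ε hε
  obtain ⟨s, h1, h2⟩ := hK ε hε
  obtain ⟨t, h3, h4⟩ := hL ε hε
  refine ⟨s ×ˢ t, h1.prod h3, fun x hx => ?_⟩
  obtain ⟨a, ha, h5⟩ := mem_iUnion₂.1 (h2 hx.1)
  obtain ⟨b, hb, h6⟩ := mem_iUnion₂.1 (h4 hx.2)
  exact mem_iUnion₂.2 ⟨(a, b), ⟨ha, hb⟩, by rw [← ball_prod_same]; exact ⟨h5, h6⟩⟩

theorem asp_prod (hA : Bern A) {D : Set (EE A × FF)} (hne : D.Nonempty) (hD : IsOpen D)
    {f : EE A × FF → ℝ} (hf : ConvexOn ℝ D f) (hc : ContinuousOn f D) :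
    ∃ G ⊆ D, IsGδ G ∧ D ⊆ closure G ∧ ∀ x ∈ G, ∃ φ : (EE A × FF) →L[ℝ] ℝ, ∀ B,
      IsVonNBounded ℝ B →
      TendstoUniformlyOn (fun (t : ℝ) h => (f (x + t • h) - f x) / t) φ (𝓝[≠] 0) B := by
  classical
  obtain ⟨x₀, hx₀⟩ := hne
  have h0 : D ∩ {x | f x ≤ f x₀ + 1} ∈ 𝓝 x₀ := inter_mem (hD.mem_nhds hx₀)
    ((hc.continuousAt (hD.mem_nhds hx₀)).eventually (ge_mem_nhds (lt_add_one _)))
  obtain ⟨u, hu, v, hv, huv⟩ := mem_nhds_prod_iff.1 h0
  obtain ⟨r, r0, S, hS⟩ := exists_box hu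
  rw [nhds_subtype, mem_comap] at hv
  obtain ⟨v', hv', hvv⟩ := hv
  rw [nhds_pi, Filter.mem_pi] at hv'
  obtain ⟨I, hI, w, hw, hIw⟩ := hv'
  obtain ⟨k, hk⟩ : ∃ k, ∀ i ∈ I, i < k := by
    obtain ⟨k, hk⟩ := hI.bddAbove
    exact ⟨k + 1, fun i hi => Nat.lt_succ_of_le (hk hi)⟩
  let q₁ : EE A →L[ℝ] XX A × (S → ℝ) :=
    { toFun := fun x => (x.1.1, fun γ => x.1.2 γ)
      map_add' := fun _ _ => rfl
      map_smul' := fun _ _ => rfl
      cont := by fun_prop }
  let q₂ : FF →L[ℝ] (Fin k → ℝ) :=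
    { toFun := fun x i => x.1 i
      map_add' := fun _ _ => rfl
      map_smul' := fun _ _ => rfl
      cont := continuous_pi fun i => (continuous_apply (i : ℕ)).comp continuous_subtype_val }
  let ex : (Fin k → ℝ) → FF := fun y => ⟨fun n => if h : n < k then y ⟨n, h⟩ else 0, by
    filter_upwards [eventually_ge_atTop k] with n hn
    simp [not_lt.2 hn]⟩
  have cex : Continuous ex := by
    refine Continuous.subtype_mk (continuous_pi fun n => ?_) _
    split_ifs <;> fun_prop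
  have qex : ∀ y, q₂ (ex y) = y := fun y => funext fun i => by simp [q₂, ex]
  have o2 : IsOpenMap q₂ := IsOpenMap.of_sections fun x =>
    ⟨fun y => x + ex (y - q₂ x), Continuous.continuousAt (by fun_prop), by
      ext n; simp [ex], fun y => by simp [qex]⟩
  have lf : ∀ (S₁ : Finset (GG A)) (y : XX A × (S → ℝ)), ∃ x : EE A, q₁ x = y ∧
      ∀ γ ∈ S₁, |x.1.2 γ| ≤ ‖y‖ := by
    intro S₁ y
    refine ⟨lift (↑(S ∪ S₁)) (S ∪ S₁).countable_toSet y.1
      fun γ => if h : γ ∈ S then y.2 ⟨γ, h⟩ else 0, ?_, fun γ hγ => ?_⟩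
    · refine Prod.ext rfl (funext fun γ => ?_)
      simp [q₁, lift]
    · simp only [lift, Finset.coe_union, mem_union, Finset.mem_coe, hγ, or_true, if_true]
      split_ifs with h
      · exact (norm_le_pi_norm y.2 ⟨γ, h⟩).trans (norm_snd_le y)
      · simp
  have o1 : IsOpenMap q₁ := by
    refine IsOpenMap.of_nhds_le fun x O hO => ?_
    obtain ⟨ρ, ρ0, S₁, h⟩ := exists_box (mem_map.1 hO)
    filter_upwards [closedBall_mem_nhds (q₁ x) ρ0] with y hy
    obtain ⟨z, h1, h2⟩ := lf S₁ (y - q₁ x)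
    rw [mem_closedBall, dist_eq_norm] at hy
    have : x + z ∈ Box x ρ S₁ := by
      refine ⟨?_, fun γ hγ => ?_⟩
      · change dist (x.1.1 + z.1.1) x.1.1 ≤ ρ
        rw [dist_eq_norm, add_sub_cancel_left]
        have : z.1.1 = (y - q₁ x).1 := congrArg Prod.fst h1
        rw [this]; exact (norm_fst_le _).trans hy
      · change dist (x.1.2 γ + z.1.2 γ) (x.1.2 γ) ≤ ρ
        rw [Real.dist_eq, add_sub_cancel_left]; exact (h2 γ hγ).trans hy
    have := h this
    rwa [mem_preimage, map_add, h1, add_sub_cancel] at this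
  refine asp_abs (q₁.prodMap q₂) (o1.prodMap o2) (Function.Surjective.prodMap (f := q₁)
      (fun y => (lf ∅ y).imp fun _ h => h.1) (fun y => ⟨_, qex y⟩)) ?_ ?_
    (fun m => {x | ∀ n ≥ m, x.2.1 n = 0}) ?_ ?_ ?_ ?_ hD hf hc ?_
  · intro U g L C W hW
    set d := TopologicalSpace.denseSeq ((S → ℝ) × (Fin k → ℝ)) with hd
    refine gds (e := fun a => ((eX A a, 0), 0)) C hA ?_ (fun n => ((0, (d n).1), (d n).2)) ?_ hW
    · intro n u hu hA ε hε
      refine le_trans (le_of_eq ?_) (hv_eX n u hu hA ε hε)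
      let ι : XX A →L[ℝ] (XX A × (S → ℝ)) × (Fin k → ℝ) :=
        (ContinuousLinearMap.inl ℝ _ _).comp (ContinuousLinearMap.inl ℝ _ _)
      have : ∑ i ∈ Finset.range n, ε i • ((((eX A (u (i + 1)), 0), 0) :
          (XX A × (S → ℝ)) × (Fin k → ℝ)) - ((eX A (u i), 0), 0)) =
          ι (∑ i ∈ Finset.range n, ε i • (eX A (u (i + 1)) - eX A (u i))) := by
        rw [map_sum]
        exact Finset.sum_congr rfl fun i _ => by rw [map_smul, map_sub]; rfl
      rw [this]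
      generalize ∑ i ∈ Finset.range n, ε i • (eX A (u (i + 1)) - eX A (u i)) = z
      simp [ι, Prod.norm_def]
    · intro φ ψ h1 h2
      let ι : XX A →L[ℝ] (XX A × (S → ℝ)) × (Fin k → ℝ) :=
        (ContinuousLinearMap.inl ℝ _ _).comp (ContinuousLinearMap.inl ℝ _ _)
      have e1 : φ.comp ι = ψ.comp ι := ext_eX h1
      have e2 : (fun z : (S → ℝ) × (Fin k → ℝ) => φ ((0, z.1), z.2)) =
          fun z => ψ ((0, z.1), z.2) :=
        (TopologicalSpace.denseRange_denseSeq _).equalizer (by fun_prop) (by fun_prop) (funext h2)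
      refine ContinuousLinearMap.ext fun y => ?_
      have : y = ι y.1.1 + ((0, y.1.2), y.2) := by simp [ι]
      rw [this, map_add, map_add, congrFun e2 (y.1.2, y.2)]
      congr 1
      exact DFunLike.congr_fun e1 _
  · intro B hB
    have b0 := (NormedSpace.isVonNBounded_iff ℝ).1 (hB.image (q₁.prodMap q₂))
    have t1 : TotallyBounded ((fun x : EE A => x.1.1) '' (Prod.fst '' B)) := by
      refine tb_fin ?_ (fin_dim (hB.image (ContinuousLinearMap.fst ℝ _ _)))
      refine b0.image_fst.image_fst.subset ?_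
      rintro _ ⟨_, ⟨x, hx, rfl⟩, rfl⟩
      exact ⟨_, ⟨_, ⟨x, hx, rfl⟩, rfl⟩, rfl⟩
    have t2 := b0.image_fst.image_snd.isCompact_closure.totallyBounded.subset subset_closure
    have t3 := b0.image_snd.isCompact_closure.totallyBounded.subset subset_closure
    refine (tb_prod (tb_prod t1 t2) t3).subset ?_
    rintro _ ⟨x, hx, rfl⟩
    exact ⟨⟨⟨_, ⟨x, hx, rfl⟩, rfl⟩, ⟨_, ⟨_, ⟨x, hx, rfl⟩, rfl⟩, rfl⟩⟩, ⟨_, ⟨x, hx, rfl⟩, rfl⟩⟩
  · intro m
    simp only [ofPred_forall]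
    exact isClosed_iInter fun n => isClosed_iInter fun _ =>
      isClosed_eq ((continuous_apply n).comp (continuous_subtype_val.comp continuous_snd))
        continuous_const
  · exact fun a b hab x hx n hn => hx n (hab.trans hn)
  · exact fun x => eventually_atTop.1 x.2.2
  · intro m x W hW
    let s : FF := ⟨Pi.single (m + k) 1, by
      filter_upwards [eventually_gt_atTop (m + k)] with n hn
      simp [hn.ne']⟩
    have c : Continuous fun t : ℝ => x + t • ((0, s) : EE A × FF) := by fun_prop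
    have h1 : ∀ᶠ t : ℝ in 𝓝 0, x + t • ((0, s) : EE A × FF) ∈ W :=
      (c.tendsto 0) (by simpa using hW)
    obtain ⟨t, h2, h3⟩ :=
      ((Set.countable_singleton (-(x.2.1 (m + k)))).dense_compl ℝ).inter_nhds_nonempty h1
    refine ⟨_, h3, ?_, fun h => h2 ?_⟩
    · rw [map_add, map_smul, add_eq_left]
      have : (q₁.prodMap q₂) (0, s) = 0 := by
        refine Prod.ext (map_zero q₁) (funext fun i => ?_)
        have : (i : ℕ) ≠ m + k := by omega
        simp [q₂, s, this]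
      rw [this, smul_zero]
    · have := h (m + k) (by omega)
      simp [s] at this
      rw [mem_singleton_iff]; linarith
  · intro x hx n hn
    refine invariance hD hf (x₀ := x₀) (M := f x₀ + 1) (fun t => huv ⟨hS ⟨?_, fun γ hγ => ?_⟩,
      hvv (hIw fun i hi => ?_)⟩) hx
    · have : n.1.1.1 = 0 := congrArg (fun y => y.1.1) hn
      change dist (x₀.1.1.1 + t • n.1.1.1) _ ≤ r
      simp [this, r0.le]
    · have : n.1.1.2 γ = 0 := congrArg (fun y => y.1.2 ⟨γ, hγ⟩) hn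
      change dist (x₀.1.1.2 γ + t * n.1.1.2 γ) _ ≤ r
      simp [this, r0.le]
    · have : n.2.1 i = 0 := congrArg (fun y => y.2 ⟨i, hk i hi⟩) hn
      change x₀.2.1 i + t * n.2.1 i ∈ _
      simpa [this] using mem_of_mem_nhds (hw i)

end Pool.Agent.H12.Asp
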