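import Mathlib

namespace Pool.Agent.H12.Avg

open MeasureTheory Filter Topology Finset

set_option linter.unusedSectionVars false

section

variable {Ω : Type*} [MeasurableSpace Ω]

/-- bounded measurable functions -/
def Bd (ψ : Ω → ℝ) : Prop := Measurable ψ ∧ ∃ C, ∀ ω, |ψ ω| ≤ C

lemma Bd.const (c : ℝ) : Bd fun _ : Ω => c := ⟨measurable_const, _, fun _ => le_rfl⟩

lemma Bd.add {ψ χ : Ω → ℝ} (h : Bd ψ) (h' : Bd χ) : Bd fun ω => ψ ω + χ ω := by
  obtain ⟨h1, C, h2⟩ := h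
  obtain ⟨h3, D, h4⟩ := h'
  exact ⟨h1.add h3, C + D, fun ω => (abs_add_le _ _).trans (add_le_add (h2 ω) (h4 ω))⟩

lemma Bd.mul {ψ χ : Ω → ℝ} (h : Bd ψ) (h' : Bd χ) : Bd fun ω => ψ ω * χ ω := by
  obtain ⟨h1, C, h2⟩ := h
  obtain ⟨h3, D, h4⟩ := h'
  exact ⟨h1.mul h3, C * D, fun ω => (abs_mul _ _).trans_le
    (mul_le_mul (h2 ω) (h4 ω) (abs_nonneg _) ((abs_nonneg _).trans (h2 ω)))⟩

lemma Bd.sub {ψ χ : Ω → ℝ} (h : Bd ψ) (h' : Bd χ) : Bd fun ω => ψ ω - χ ω := by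
  simpa [sub_eq_add_neg] using h.add ((Bd.const (-1)).mul h')

lemma Bd.sq {ψ : Ω → ℝ} (h : Bd ψ) : Bd fun ω => ψ ω ^ 2 := by
  simpa [_root_.sq] using h.mul h

lemma Bd.pos {ψ : Ω → ℝ} (h : Bd ψ) : Bd fun ω => max 0 (ψ ω) := by
  obtain ⟨h1, C, h2⟩ := h
  exact ⟨measurable_const.max h1, C, fun ω => by
    have := h2 ω; rw [abs_le] at this ⊢; constructor <;> simp <;> grind⟩

lemma Bd.comp {Ω' : Type*} [MeasurableSpace Ω'] {ψ : Ω → ℝ} (h : Bd ψ) {g : Ω' → Ω}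
    (hg : Measurable g) : Bd fun ω => ψ (g ω) :=
  ⟨h.1.comp hg, h.2.imp fun _ hC _ => hC _⟩

lemma Bd.sum {ι : Type*} (s : Finset ι) {ψ : ι → Ω → ℝ} (h : ∀ i, Bd (ψ i)) :
    Bd fun ω => ∑ i ∈ s, ψ i ω := by
  classical
  induction s using Finset.induction_on with
  | empty => simpa using Bd.const 0
  | insert a s ha ih => simpa [sum_insert ha] using (h a).add ih

lemma Bd.int {ψ : Ω → ℝ} (h : Bd ψ) (P : Measure Ω) [IsFiniteMeasure P] : Integrable ψ P := by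
  obtain ⟨h1, C, h2⟩ := h
  exact (integrable_const C).mono' h1.aestronglyMeasurable (.of_forall h2)

lemma Bd.integral {Ω' : Type*} [MeasurableSpace Ω'] {ψ : Ω × Ω' → ℝ} (h : Bd ψ) (κ : Measure Ω')
    [IsProbabilityMeasure κ] : Bd fun ω => ∫ y, ψ (ω, y) ∂κ := by
  obtain ⟨h1, C, h2⟩ := h
  exact ⟨(h1.stronglyMeasurable.integral_prod_right' (ν := κ)).measurable, C, fun ω => by
    simpa using norm_integral_le_of_norm_le_const (μ := κ) (f := fun y => ψ (ω, y))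
      (.of_forall fun y => h2 _)⟩

lemma Bd.ind {s : Set Ω} (hs : MeasurableSet s) : Bd (s.indicator fun _ => (1 : ℝ)) :=
  ⟨measurable_const.indicator hs, 1, fun ω => by by_cases h : ω ∈ s <;> simp [h]⟩

lemma sq_le {ψ : Ω → ℝ} (h : Bd ψ) (P : Measure Ω) [IsProbabilityMeasure P] (c : ℝ) :
    ∫ ω, (ψ ω - c) ^ 2 ∂P = ∫ ω, ψ ω ^ 2 ∂P - (∫ ω, ψ ω ∂P) ^ 2 + (∫ ω, ψ ω ∂P - c) ^ 2 := by
  have : ∀ ω, (ψ ω - c) ^ 2 = ψ ω ^ 2 - 2 * c * ψ ω + c ^ 2 := fun ω => by ring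
  simp only [this]
  rw [integral_add ((h.sq.sub ((Bd.const _).mul h)).int P) (integrable_const _),
    integral_sub (h.sq.int P) (((Bd.const _).mul h).int P), integral_const_mul]
  simp; ring

lemma markov {ψ : Ω → ℝ} (h : Bd ψ) (P : Measure Ω) [IsProbabilityMeasure P] (h0 : ∀ ω, 0 ≤ ψ ω)
    {c : ℝ} (hc : 0 < c) : P.real {ω | c < ψ ω} ≤ (∫ ω, ψ ω ∂P) / c := by
  rw [le_div_iff₀' hc]
  exact le_trans (mul_le_mul_of_nonneg_left (measureReal_mono (s₂ := {ω | c ≤ ψ ω})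
    (fun ω h => le_of_lt (α := ℝ) h) (measure_ne_top _ _)) hc.le)
    (mul_meas_ge_le_integral_of_nonneg (.of_forall h0) (h.int P) c)

end

variable {V Ω : Type*} [AddCommGroup V] [MeasurableSpace V] [Countable V]
  [DiscreteMeasurableSpace V] [MeasurableSpace Ω]

/-- a measure-preserving action -/
structure Act (P : Measure Ω) (S : V → Ω → Ω) : Prop where
  mp : ∀ y, MeasurePreserving (S y) P P
  add : ∀ x y ω, S (x + y) ω = S x (S y ω)
  zero : ∀ ω, S 0 ω = ω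

/-- averaging operator -/
noncomputable def Q (κ : Measure V) (S : V → Ω → Ω) (ψ : Ω → ℝ) (ω : Ω) : ℝ := ∫ y, ψ (S y ω) ∂κ

/-- squared norm -/
noncomputable def N (P : Measure Ω) (ψ : Ω → ℝ) : ℝ := ∫ ω, ψ ω ^ 2 ∂P

lemma N_nonneg (P : Measure Ω) (ψ : Ω → ℝ) : 0 ≤ N P ψ := integral_nonneg fun _ => sq_nonneg _

variable {P : Measure Ω} {S : V → Ω → Ω} {κ : Measure V} {ψ χ : Ω → ℝ}

lemma Bd.act (h : Bd ψ) (hS : ∀ y, Measurable (S y)) : Bd fun z : Ω × V => ψ (S z.2 z.1) :=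
  h.comp (measurable_from_prod_countable_left hS)

omit [Countable V] [AddCommGroup V] in
lemma Bd.slice (h : Bd ψ) (ω : Ω) : Bd fun y => ψ (S y ω) :=
  ⟨.of_discrete, h.2.imp fun _ hC _ => hC _⟩

variable [IsProbabilityMeasure κ]

lemma Bd.q (h : Bd ψ) (hS : ∀ y, Measurable (S y)) : Bd (Q κ S ψ) := (h.act hS).integral κ

lemma Bd.qi (h : Bd ψ) (hS : ∀ y, Measurable (S y)) (m : ℕ) : Bd ((Q κ S)^[m] ψ) := by
  induction m with
  | zero => exact h
  | succ m ih => rw [Function.iterate_succ_apply']; exact ih.q hS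

lemma Q_add (h : Bd ψ) (h' : Bd χ) : Q κ S (fun ω => ψ ω + χ ω) = fun ω => Q κ S ψ ω + Q κ S χ ω :=
  funext fun ω => integral_add ((h.slice ω).int κ) ((h'.slice ω).int κ)

lemma Q_sub (h : Bd ψ) (h' : Bd χ) : Q κ S (fun ω => ψ ω - χ ω) = fun ω => Q κ S ψ ω - Q κ S χ ω :=
  funext fun ω => integral_sub ((h.slice ω).int κ) ((h'.slice ω).int κ)

lemma Q_sum {ι : Type*} (s : Finset ι) {ψ : ι → Ω → ℝ} (h : ∀ i, Bd (ψ i)) :
    Q κ S (fun ω => ∑ i ∈ s, ψ i ω) = fun ω => ∑ i ∈ s, Q κ S (ψ i) ω :=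
  funext fun ω => integral_finsetSum _ fun i _ => ((h i).slice ω).int κ

lemma Q_mono (h : Bd ψ) (h' : Bd χ) (hle : ∀ ω, ψ ω ≤ χ ω) (ω : Ω) : Q κ S ψ ω ≤ Q κ S χ ω :=
  integral_mono ((h.slice ω).int κ) ((h'.slice ω).int κ) fun _ => hle _

lemma Qi_sub (hS : ∀ y, Measurable (S y)) (h : Bd ψ) (h' : Bd χ) (m : ℕ) :
    (Q κ S)^[m] (fun ω => ψ ω - χ ω) = fun ω => (Q κ S)^[m] ψ ω - (Q κ S)^[m] χ ω := by
  induction m with
  | zero => rfl
  | succ m ih => simp only [Function.iterate_succ_apply', ih, Q_sub (h.qi hS m) (h'.qi hS m)]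

lemma Qi_sum (hS : ∀ y, Measurable (S y)) {ι : Type*} (s : Finset ι) {ψ : ι → Ω → ℝ}
    (h : ∀ i, Bd (ψ i)) (m : ℕ) :
    (Q κ S)^[m] (fun ω => ∑ i ∈ s, ψ i ω) = fun ω => ∑ i ∈ s, (Q κ S)^[m] (ψ i) ω := by
  induction m with
  | zero => rfl
  | succ m ih => simp only [Function.iterate_succ_apply', ih, Q_sum s fun i => (h i).qi hS m]

omit [Countable V] [DiscreteMeasurableSpace V] [IsProbabilityMeasure κ] in
lemma Qi_shift (hS : Act P S) (ψ : Ω → ℝ) (x : V) (m : ℕ) :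
    (Q κ S)^[m] (fun ω => ψ (S x ω)) = fun ω => (Q κ S)^[m] ψ (S x ω) := by
  induction m with
  | zero => rfl
  | succ m ih =>
    funext ω
    simp only [Function.iterate_succ_apply', ih, Q, ← hS.add, add_comm]

lemma var_lower [DecidableEq V] {u : V → ℝ} (hu : Bd u) {x : V} (hx : x ≠ 0) {c : ℝ}
    (h0 : 2 * c ≤ κ.real {0}) (h1 : 2 * c ≤ κ.real {x}) (hc : 0 ≤ c) :
    (∫ y, u y ∂κ) ^ 2 + c * (u x - u 0) ^ 2 ≤ ∫ y, u y ^ 2 ∂κ := by
  have h2 := sq_le hu κ (∫ y, u y ∂κ)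
  set m := ∫ y, u y ∂κ
  have h3 := setIntegral_le_integral (s := ({0, x} : Finset V)) ((hu.sub (.const m)).sq.int κ)
    (.of_forall fun _ => sq_nonneg _)
  rw [setIntegral_finset _ ((hu.sub (.const m)).sq.int κ).integrableOn, sum_pair hx.symm] at h3
  simp only [smul_eq_mul] at h3
  nlinarith [mul_le_mul_of_nonneg_right h0 (sq_nonneg (u 0 - m)),
    mul_le_mul_of_nonneg_right h1 (sq_nonneg (u x - m)), mul_nonneg hc (sq_nonneg (u 0 + u x - 2 * m))]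

variable [IsProbabilityMeasure P]

omit [Countable V] [DiscreteMeasurableSpace V] [MeasurableSpace V] in
lemma int_shift (hS : Act P S) (h : Bd ψ) (y : V) : ∫ ω, ψ (S y ω) ∂P = ∫ ω, ψ ω ∂P := by
  conv_rhs => rw [← (hS.mp y).map_eq]
  rw [integral_map (hS.mp y).measurable.aemeasurable h.1.aestronglyMeasurable]

lemma int_Q_mul (hS : Act P S) (h : Bd ψ) (h' : Bd χ) :
    ∫ ω, Q κ S ψ ω * χ ω ∂P = ∫ y, ∫ ω, ψ (S y ω) * χ ω ∂P ∂κ := by
  simp only [Q, ← integral_mul_const]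
  exact integral_integral_swap (((h.act fun y => (hS.mp y).measurable).mul
    (h'.comp measurable_fst)).int _)

lemma int_Q (hS : Act P S) (h : Bd ψ) : ∫ ω, Q κ S ψ ω ∂P = ∫ ω, ψ ω ∂P := by
  simpa [int_shift hS h] using int_Q_mul (κ := κ) hS h (.const 1)

lemma N_Q [DecidableEq V] (hS : Act P S) (h : Bd ψ) {x : V} (hx : x ≠ 0) {c : ℝ}
    (h0 : 2 * c ≤ κ.real {0}) (h1 : 2 * c ≤ κ.real {x}) (hc : 0 ≤ c) :
    N P (Q κ S ψ) + c * N P (fun ω => ψ (S x ω) - ψ ω) ≤ N P ψ := by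
  have hm := fun y => (hS.mp y).measurable
  have h2 := (Bd.const c).mul ((h.comp (hm x)).sub h).sq
  rw [N, N, N, ← int_Q (κ := κ) hS h.sq, ← integral_const_mul,
    ← integral_add ((h.q hm).sq.int P) (h2.int P)]
  refine integral_mono (((h.q hm).sq.add h2).int P) ((h.sq.q hm).int P) fun ω => ?_
  have := var_lower (h.slice (S := S) ω) hx h0 h1 hc
  rw [hS.zero] at this
  exact this

lemma N_Q_le (hS : Act P S) (h : Bd ψ) : N P (Q κ S ψ) ≤ N P ψ := by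
  have hm := fun y => (hS.mp y).measurable
  rw [N, N, ← int_Q (κ := κ) hS h.sq]
  refine integral_mono ((h.q hm).sq.int P) ((h.sq.q hm).int P) fun ω => ?_
  have := sq_le (h.slice (S := S) ω) κ (Q κ S ψ ω)
  have h2 : 0 ≤ ∫ y, (ψ (S y ω) - Q κ S ψ ω) ^ 2 ∂κ := integral_nonneg fun _ => sq_nonneg _
  simp only [Q] at this h2 ⊢
  nlinarith

lemma N_Qi_le (hS : Act P S) (h : Bd ψ) (m : ℕ) : N P ((Q κ S)^[m] ψ) ≤ N P ψ := by
  induction m with
  | zero => exact le_rfl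
  | succ m ih =>
    rw [Function.iterate_succ_apply']
    exact (N_Q_le hS (h.qi (fun y => (hS.mp y).measurable) m)).trans ih

lemma sum_grad [DecidableEq V] (hS : Act P S) (h : Bd ψ) {x : V} (hx : x ≠ 0) {c : ℝ}
    (h0 : 2 * c ≤ κ.real {0}) (h1 : 2 * c ≤ κ.real {x}) (hc : 0 ≤ c) (n : ℕ) :
    c * ∑ m ∈ range n, N P ((Q κ S)^[m] fun ω => ψ (S x ω) - ψ ω) ≤ N P ψ := by
  have hm := fun y => (hS.mp y).measurable
  suffices c * ∑ m ∈ range n, N P ((Q κ S)^[m] fun ω => ψ (S x ω) - ψ ω) + N P ((Q κ S)^[n] ψ)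
    ≤ N P ψ by linarith [N_nonneg P ((Q κ S)^[n] ψ)]
  induction n with
  | zero => simp
  | succ n ih =>
    have := N_Q hS (h.qi (κ := κ) hm n) hx h0 h1 hc
    rw [sum_range_succ, Function.iterate_succ_apply', Qi_sub hm (h.comp (hm x)) h n,
      Qi_shift hS ψ x n]
    linarith

omit [IsProbabilityMeasure κ] in
lemma N_sub (h : Bd ψ) (h' : Bd χ) : N P (fun ω => ψ ω - χ ω) =
    ∫ ω, ψ ω * ψ ω ∂P - 2 * ∫ ω, ψ ω * χ ω ∂P + ∫ ω, χ ω * χ ω ∂P := by
  rw [← integral_const_mul, ← integral_sub ((h.mul h).int P) (((Bd.const 2).mul (h.mul h')).int P),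
    ← integral_add (((h.mul h).sub ((Bd.const 2).mul (h.mul h'))).int P) ((h'.mul h').int P)]
  exact integral_congr_ae (.of_forall fun ω => by ring)

lemma Q_sym (hS : Act P S) (hκ : κ.map Neg.neg = κ) (h : Bd ψ) (h' : Bd χ) :
    ∫ ω, Q κ S ψ ω * χ ω ∂P = ∫ ω, ψ ω * Q κ S χ ω ∂P := by
  simp only [mul_comm (ψ _)]
  rw [int_Q_mul hS h h', int_Q_mul hS h' h]
  conv_lhs => rw [← hκ]
  rw [integral_map Measurable.of_discrete.aemeasurable
    Measurable.of_discrete.aestronglyMeasurable]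
  congr 1
  funext y
  rw [← int_shift hS ((h.comp (hS.mp (-y)).measurable).mul h') y]
  simp [← hS.add, hS.zero, mul_comm]

lemma Qi_sym (hS : Act P S) (hκ : κ.map Neg.neg = κ) (h : Bd ψ) (k l : ℕ) :
    ∫ ω, (Q κ S)^[k] ψ ω * (Q κ S)^[l] ψ ω ∂P = ∫ ω, (Q κ S)^[k + l] ψ ω * ψ ω ∂P := by
  have hm := fun y => (hS.mp y).measurable
  induction l generalizing k with
  | zero => rfl
  | succ l ih =>
    rw [Function.iterate_succ_apply', ← Q_sym hS hκ (h.qi hm k) (h.qi hm l),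
      ← Function.iterate_succ_apply' (Q κ S), ih, Nat.succ_add_eq_add_succ]

lemma Q_pos (hS : Act P S) (h0 : 1 / 2 ≤ κ.real {0}) (h : Bd ψ) :
    0 ≤ ∫ ω, Q κ S ψ ω * ψ ω ∂P ∧ ∫ ω, Q κ S ψ ω * ψ ω ∂P ≤ ∫ ω, ψ ω * ψ ω ∂P := by
  have hm := fun y => (hS.mp y).measurable
  set n := ∫ ω, ψ ω * ψ ω ∂P with hn
  have hn0 : 0 ≤ n := integral_nonneg fun _ => mul_self_nonneg _
  have h1 : ∀ y, |∫ ω, ψ (S y ω) * ψ ω ∂P| ≤ n := fun y => by
    have h2 := N_sub (P := P) (h.comp (hm y)) h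
    have h3 := N_sub (P := P) (h.comp (hm y)) ((Bd.const (-1)).mul h)
    have h4 := int_shift hS (h.mul h) y
    simp only [neg_mul, one_mul, mul_neg, neg_neg, integral_neg] at h3
    rw [abs_le]
    constructor <;> linarith [N_nonneg P fun ω => ψ (S y ω) - ψ ω,
      N_nonneg P fun ω => ψ (S y ω) - -ψ ω]
  have h2 : Bd fun y => ∫ ω, ψ (S y ω) * ψ ω ∂P := ⟨.of_discrete, n, h1⟩
  rw [int_Q_mul hS h h]
  constructor
  · have h3 := (((Bd.ind (measurableSet_singleton (0 : V))).mul (.const (2 * n))).sub (.const n))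
    refine le_trans ?_ (integral_mono (h3.int κ) (h2.int κ) fun y => ?_)
    · rw [integral_sub (((Bd.ind (measurableSet_singleton (0 : V))).mul (.const (2 * n))).int κ)
        (integrable_const _), integral_mul_const, integral_indicator (measurableSet_singleton _)]
      simp only [integral_const, smul_eq_mul, mul_one, probReal_univ, one_mul,
        measureReal_restrict_apply_univ]
      nlinarith
    · by_cases hy : y = 0
      · simp [hy, hS.zero, ← hn]; linarith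
      · simpa [hy] using (abs_le.1 (h1 y)).1
  · simpa using integral_mono (h2.int κ) (integrable_const n) fun y => (abs_le.1 (h1 y)).2

lemma seq (hS : Act P S) (hκ : κ.map Neg.neg = κ) (h0 : 1 / 2 ≤ κ.real {0}) (h : Bd ψ)
    {a : ℕ → ℝ} (ha : a = fun k => ∫ ω, (Q κ S)^[k] ψ ω * ψ ω ∂P) :
    (∀ k, 0 ≤ a k) ∧ (∀ j, a (2 * j + 1) ≤ a (2 * j)) ∧
    ∀ k l, N P (fun ω => (Q κ S)^[k] ψ ω - (Q κ S)^[l] ψ ω) = a (k + k) - 2 * a (k + l) + a (l + l) := by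
  have hm := fun y => (hS.mp y).measurable
  have h1 : ∀ j, 0 ≤ a (2 * j + 1) ∧ a (2 * j + 1) ≤ a (2 * j) := fun j => by
    have := Q_pos hS h0 (h.qi (κ := κ) hm j)
    rw [← Function.iterate_succ_apply' (Q κ S), Qi_sym hS hκ h, Qi_sym hS hκ h,
      show j.succ + j = 2 * j + 1 by omega, ← two_mul] at this
    simpa [ha] using this
  refine ⟨fun k => ?_, fun j => (h1 j).2, fun k l => ?_⟩
  · rcases Nat.even_or_odd' k with ⟨j, rfl | rfl⟩
    · exact (h1 j).1.trans (h1 j).2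
    · exact (h1 j).1
  · rw [N_sub (h.qi hm k) (h.qi hm l), Qi_sym hS hκ h, Qi_sym hS hκ h, Qi_sym hS hκ h, ha]

lemma seq2 (hS : Act P S) (hκ : κ.map Neg.neg = κ) (h0 : 1 / 2 ≤ κ.real {0}) (h : Bd ψ)
    {a : ℕ → ℝ} (ha : a = fun k => ∫ ω, (Q κ S)^[k] ψ ω * ψ ω ∂P) (k : ℕ) :
    0 ≤ a (k + 2) - 2 * a (k + 1) + a k := by
  have hm := fun y => (hS.mp y).measurable
  have h1 := (seq hS hκ h0 ((h.q (κ := κ) hm).sub h) rfl).1 k
  have h2 := h.qi (κ := κ) hm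
  simp only [Qi_sub hm (h.q hm) h, ← Function.iterate_succ_apply] at h1
  have h3 : ∀ ω, ((Q κ S)^[k.succ] ψ ω - (Q κ S)^[k] ψ ω) * (Q κ S ψ ω - ψ ω) =
      ((Q κ S)^[k + 1] ψ ω * (Q κ S)^[1] ψ ω - (Q κ S)^[k + 1] ψ ω * ψ ω) -
      ((Q κ S)^[k] ψ ω * (Q κ S)^[1] ψ ω - (Q κ S)^[k] ψ ω * ψ ω) := fun ω => by
    simp only [Function.iterate_one]; ring
  simp only [h3] at h1
  rw [integral_sub ((((h2 _).mul (h2 _)).sub ((h2 _).mul h)).int P)
    ((((h2 _).mul (h2 _)).sub ((h2 _).mul h)).int P),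
    integral_sub (((h2 _).mul (h2 _)).int P) (((h2 _).mul h).int P),
    integral_sub (((h2 _).mul (h2 _)).int P) (((h2 _).mul h).int P),
    Qi_sym hS hκ h, Qi_sym hS hκ h] at h1
  simp only [ha]
  linarith

lemma gfun (hS : Act P S) (hκ : κ.map Neg.neg = κ) (h0 : 1 / 2 ≤ κ.real {0}) (h : Bd ψ) (n : ℕ) :
    ∫ ω, ∑ j ∈ range n, (j + 1 : ℝ) * ((Q κ S)^[j + 1] ψ ω - (Q κ S)^[j] ψ ω) ^ 2 ∂P ≤ N P ψ := by
  have hm := fun y => (hS.mp y).measurable
  have h2 := h.qi (κ := κ) hm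
  obtain ⟨a, ha⟩ : ∃ a : ℕ → ℝ, a = fun k => ∫ ω, (Q κ S)^[k] ψ ω * ψ ω ∂P := ⟨_, rfl⟩
  obtain ⟨h3, h4, h5⟩ := seq hS hκ h0 h ha
  have h6 := seq2 hS hκ h0 h ha
  rw [integral_finsetSum _ fun j _ => ((Bd.const _).mul ((h2 _).sub (h2 _)).sq).int P]
  simp only [integral_const_mul]
  have h7 : ∀ n : ℕ, ∑ j ∈ range n, (j + 1 : ℝ) * N P (fun ω => (Q κ S)^[j + 1] ψ ω -
      (Q κ S)^[j] ψ ω) ≤ a 0 - a (2 * n) - (2 * n) * (a (2 * n) - a (2 * n + 1)) := by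
    intro n
    induction n with
    | zero => simp
    | succ n ih =>
      have e1 := h6 (2 * n)
      have e2 := h6 (2 * n + 1)
      rw [sum_range_succ, h5, show n + 1 + (n + 1) = 2 * n + 2 by ring,
        show n + 1 + n = 2 * n + 1 by ring, ← two_mul, show 2 * (n + 1) = 2 * n + 2 by ring]
      push_cast
      nlinarith [mul_nonneg (Nat.cast_nonneg (α := ℝ) n) e1,
        mul_nonneg (Nat.cast_nonneg (α := ℝ) n) e2]
  refine (h7 n).trans ?_
  have : a 0 = N P ψ := by simp [ha, N, sq]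
  nlinarith [h3 (2 * n), mul_nonneg (Nat.cast_nonneg (α := ℝ) n) (sub_nonneg.2 (h4 n))]

/-- Garsia's majorant -/
noncomputable def Mx (κ : Measure V) (S : V → Ω → Ω) (u : Ω → ℝ) : ℕ → Ω → ℝ
  | 0 => fun _ => 0
  | n + 1 => fun ω => max 0 (u ω + Q κ S (Mx κ S u n) ω)

omit [IsProbabilityMeasure P] in
lemma Mx_bd (hS : Act P S) (h : Bd ψ) (n : ℕ) : Bd (Mx κ S ψ n) := by
  induction n with
  | zero => exact .const 0
  | succ n ih => exact (h.add (ih.q fun y => (hS.mp y).measurable)).pos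

omit [IsProbabilityMeasure P] in
lemma Mx_mono (hS : Act P S) (h : Bd ψ) (ω : Ω) : Monotone fun n => Mx κ S ψ n ω := by
  refine monotone_nat_of_le_succ fun n => ?_
  induction n generalizing ω with
  | zero => exact le_max_left _ _
  | succ n ih =>
    exact max_le_max le_rfl (add_le_add le_rfl (Q_mono (Mx_bd hS h _) (Mx_bd hS h _) ih ω))

lemma garsia (hS : Act P S) (h : Bd ψ) {l : ℝ} (hl : 0 < l) (n : ℕ) :
    P.real {ω | 0 < Mx κ S (fun ω => ψ ω ^ 2 - l ^ 2) n ω} ≤ N P ψ / l ^ 2 := by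
  have hm := fun y => (hS.mp y).measurable
  have hu := h.sq.sub (.const (l ^ 2))
  have hM := Mx_bd (κ := κ) hS hu
  have hs : MeasurableSet {ω | 0 < Mx κ S (fun ω => ψ ω ^ 2 - l ^ 2) n ω} :=
    measurableSet_lt measurable_const (hM n).1
  rw [le_div_iff₀ (by positivity), ← integral_indicator_one hs, ← integral_mul_const]
  have h1 := integral_mono (((Bd.ind hs).mul (.const (l ^ 2))).int P)
    ((h.sq.add (((hM n).q (κ := κ) hm).sub (hM n))).int P) fun ω => ?_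
  · rw [integral_add (h.sq.int P) ((((hM n).q hm).sub (hM n)).int P),
      integral_sub (((hM n).q hm).int P) ((hM n).int P), int_Q hS (hM n)] at h1
    rw [sub_self, add_zero] at h1
    exact h1
  · have h2 : 0 ≤ Q κ S (Mx κ S (fun ω => ψ ω ^ 2 - l ^ 2) n) ω :=
      integral_nonneg fun y => Mx_mono hS hu _ (Nat.zero_le n)
    by_cases hω : 0 < Mx κ S (fun ω => ψ ω ^ 2 - l ^ 2) n ω
    · cases n with
      | zero => simp [Mx] at hω
      | succ n =>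
        have h3 := Q_mono (κ := κ) (S := S) (hM n) (hM (n + 1))
          (fun ω => Mx_mono hS hu ω (Nat.le_succ n)) ω
        have h4 : Mx κ S (fun ω => ψ ω ^ 2 - l ^ 2) (n + 1) ω = ψ ω ^ 2 - l ^ 2 +
          Q κ S (Mx κ S (fun ω => ψ ω ^ 2 - l ^ 2) n) ω :=
          max_eq_right (le_of_lt (by simpa [Mx] using hω))
        beta_reduce
        rw [Set.indicator_of_mem (by exact hω)]
        linarith
    · beta_reduce
      rw [Set.indicator_of_notMem (by exact hω)]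
      nlinarith [sq_nonneg (ψ ω)]

omit [IsProbabilityMeasure P] in
lemma ces (hS : Act P S) (h : Bd ψ) (l : ℝ) {σ : ℝ} (hσ : σ ^ 2 = 1) (n : ℕ) (ω : Ω) :
    2 * l * σ * ∑ k ∈ range n, (Q κ S)^[k] ψ ω ≤
      Mx κ S (fun ω => ψ ω ^ 2 - l ^ 2) n ω + 2 * n * l ^ 2 := by
  have hm := fun y => (hS.mp y).measurable
  have hM := Mx_bd (κ := κ) hS (h.sq.sub (.const (l ^ 2)))
  induction n generalizing ω with
  | zero => simp [Mx]
  | succ n ih =>
    have h1 := Q_mono (κ := κ) (S := S) ((Bd.const _).mul (.sum _ (h.qi hm)))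
      ((hM n).add (.const _)) ih ω
    rw [Q_add (hM n) (.const _)] at h1
    simp only [Q, integral_const_mul, integral_const, probReal_univ, smul_eq_mul, one_mul] at h1
    have h2 := congrFun (Q_sum (κ := κ) (S := S) (range n) (h.qi (κ := κ) hm)) ω
    have h3 : ψ ω ^ 2 - l ^ 2 + Q κ S (Mx κ S (fun ω => ψ ω ^ 2 - l ^ 2) n) ω ≤
      Mx κ S (fun ω => ψ ω ^ 2 - l ^ 2) (n + 1) ω := le_max_right _ _
    rw [sum_range_succ']
    simp only [Function.iterate_succ_apply', ← h2, Function.iterate_zero, id]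
    simp only [Q] at h3 ⊢
    push_cast
    nlinarith [sq_nonneg (ψ ω - l * σ)]

lemma maximal (hS : Act P S) (hκ : κ.map Neg.neg = κ) (h0 : 1 / 2 ≤ κ.real {0}) (h : Bd ψ)
    {l : ℝ} (hl : 0 < l) (L : ℕ) :
    P.real {ω | ∃ n ≤ L, 2 * l < |(Q κ S)^[n] ψ ω|} ≤ 2 * N P ψ / l ^ 2 := by
  have hm := fun y => (hS.mp y).measurable
  have h2 := h.qi (κ := κ) hm
  have h3 := markov (Bd.sum (range L) fun j => (Bd.const (j + 1 : ℝ)).mul
    ((h2 (j + 1)).sub (h2 j)).sq) P (fun ω => by positivity) (pow_pos hl 2)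
  have h4 := div_le_div_of_nonneg_right (gfun hS hκ h0 h L) (sq_nonneg l)
  refine (measureReal_mono (fun ω hω => ?_) (measure_ne_top _ _)).trans ((measureReal_union_le _ _).trans
    ((add_le_add (garsia (κ := κ) hS h hl (L + 1)) (h3.trans h4)).trans_eq (by ring)))
  obtain ⟨n, hn, hω⟩ := hω
  by_contra hc
  simp only [Set.mem_union, Set.mem_ofPred_eq, not_or, not_lt] at hc
  have h5 := (Mx_mono (κ := κ) hS (h.sq.sub (.const (l ^ 2))) ω (Nat.succ_le_succ hn)).trans hc.1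
  have h6 := (sum_le_sum_of_subset_of_nonneg (range_subset_range.2 hn)
    fun _ _ _ => by positivity).trans hc.2
  have h7 : ∀ n : ℕ, (n + 1 : ℝ) * (Q κ S)^[n] ψ ω = ∑ k ∈ range (n + 1), (Q κ S)^[k] ψ ω +
      ∑ j ∈ range n, (j + 1 : ℝ) * ((Q κ S)^[j + 1] ψ ω - (Q κ S)^[j] ψ ω) := by
    intro n
    induction n with
    | zero => simp
    | succ n ih => rw [sum_range_succ _ (n + 1), sum_range_succ (fun j : ℕ => (j + 1 : ℝ) * _) n]; push_cast; linarith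
  have key : ∀ σ : ℝ, σ ^ 2 = 1 → σ * (Q κ S)^[n] ψ ω ≤ 2 * l := by
    intro σ hσ
    have h8 := ces (κ := κ) hS h l hσ (n + 1) ω
    have h9 : 2 * l * (n + 1) * σ * ∑ j ∈ range n, (j + 1 : ℝ) *
        ((Q κ S)^[j + 1] ψ ω - (Q κ S)^[j] ψ ω) ≤ (n + 1) ^ 2 * ∑ j ∈ range n, (j + 1 : ℝ) *
        ((Q κ S)^[j + 1] ψ ω - (Q κ S)^[j] ψ ω) ^ 2 + ∑ _j ∈ range n, (n + 1 : ℝ) * l ^ 2 := by
      rw [mul_sum, mul_sum, ← sum_add_distrib]
      refine sum_le_sum fun j hj => ?_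
      have : (j : ℝ) ≤ n := by exact_mod_cast (mem_range.1 hj).le
      generalize (Q κ S)^[j + 1] ψ ω - (Q κ S)^[j] ψ ω = x
      have e1 := mul_nonneg (by positivity : (0 : ℝ) ≤ j + 1) (sq_nonneg ((n + 1) * x - l * σ))
      have e2 : ((n + 1) * x - l * σ) ^ 2 = (n + 1) ^ 2 * x ^ 2 - 2 * l * (n + 1) * σ * x + l ^ 2 := by
        linear_combination l ^ 2 * hσ
      rw [e2] at e1
      nlinarith [mul_le_mul_of_nonneg_right this (sq_nonneg l)]
    have hn0 : (0 : ℝ) < n + 1 := by positivity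
    simp only [sum_const, card_range, nsmul_eq_mul] at h9
    push_cast at h8 h5
    refine le_of_mul_le_mul_left ?_ (by positivity : (0 : ℝ) < 2 * l * (n + 1) ^ 2)
    have h10 := congrArg (2 * l * (n + 1) * σ * ·) (h7 n)
    nlinarith [mul_le_mul_of_nonneg_left h6 (sq_nonneg (n + 1 : ℝ)),
      mul_le_mul_of_nonneg_left h8 hn0.le, mul_le_mul_of_nonneg_left h5 hn0.le, sq_nonneg l]
  have := key 1 (by simp)
  have := key (-1) (by simp)
  exact absurd hω (not_lt.2 (abs_le.2 ⟨by linarith, by linarith⟩))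

theorem stein (hS : Act P S) (hκ : κ.map Neg.neg = κ) (h0 : 1 / 2 ≤ κ.real {0}) (h : Bd ψ) :
    ∀ᵐ ω ∂P, ∃ L, Tendsto (fun n => (Q κ S)^[n] ψ ω) atTop (𝓝 L) := by
  have hm := fun y => (hS.mp y).measurable
  have h2 := h.qi (κ := κ) hm
  obtain ⟨a, ha⟩ : ∃ a : ℕ → ℝ, a = fun k => ∫ ω, (Q κ S)^[k] ψ ω * ψ ω ∂P := ⟨_, rfl⟩
  obtain ⟨h3, h4, h5⟩ := seq hS hκ h0 h ha
  have h6 : Antitone a := antitone_nat_of_succ_le fun k => by
    rcases Nat.even_or_odd' k with ⟨j, rfl | rfl⟩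
    · exact h4 j
    · have := h4 (j + 1)
      have := seq2 hS hκ h0 h ha (2 * j + 1)
      simp only [mul_add, mul_one, add_assoc] at *
      norm_num at *
      linarith
  have hb : BddBelow (Set.range a) := ⟨0, by rintro _ ⟨k, rfl⟩; exact h3 k⟩
  have h7 := (tendsto_atTop_ciInf h6 hb).sub_const (⨅ k, a k)
  rw [sub_self] at h7
  have h8 : ∀ k l m, m ≤ k → m ≤ l → N P (fun ω => (Q κ S)^[k] ψ ω - (Q κ S)^[l] ψ ω) ≤
      2 * (a m - ⨅ k, a k) := fun k l m hk hl => by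
    linarith [h5 k l, h6 (show m ≤ k + k by omega), h6 (show m ≤ l + l by omega),
      ciInf_le hb (k + l)]
  have h9 : ∀ l : ℝ, 0 < l → ∀ m L, P.real {ω | ∃ n ≤ L,
      5 * l < |(Q κ S)^[n + m] ψ ω - (Q κ S)^[m] ψ ω|} ≤ 4 * (a m - ⨅ k, a k) / l ^ 2 := by
    intro l hl m L
    have e0 := (h7.const_mul ((L + 1 : ℕ) * (2 / l ^ 2))).const_add (4 * (a m - ⨅ k, a k) / l ^ 2)
    rw [mul_zero, add_zero] at e0
    refine ge_of_tendsto e0 ?_
    filter_upwards [eventually_ge_atTop m] with K hK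
    have e1 := maximal hS hκ h0 ((h2 m).sub (h2 K)) hl L
    have e2 := measureReal_biUnion_finset_le (μ := P) (range (L + 1))
      fun n => {ω | l ^ 2 < ((Q κ S)^[n + K] ψ ω - (Q κ S)^[K] ψ ω) ^ 2}
    have e3 := e2.trans (sum_le_card_nsmul _ _ (2 / l ^ 2 * (a K - ⨅ k, a k)) fun n _ =>
      (markov ((h2 _).sub (h2 _)).sq P (fun _ => sq_nonneg _) (pow_pos hl 2)).trans
        ((div_le_div_of_nonneg_right (h8 _ _ K (by omega) le_rfl) (sq_nonneg l)).trans_eq (by ring)))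
    refine (measureReal_mono (fun ω hω => ?_) (measure_ne_top _ _)).trans
      ((measureReal_union_le _ _).trans (add_le_add (e1.trans ?_) (e3.trans_eq ?_)))
    · obtain ⟨n, hn, hω⟩ := hω
      by_contra hc
      simp only [Set.mem_union, Set.mem_ofPred_eq, not_or, not_lt, Set.mem_iUnion, not_exists,
        not_and, Qi_sub hm (h2 m) (h2 K), ← Function.iterate_add_apply, mem_range] at hc
      have a1 := abs_le.1 (hc.1 n hn)
      have a2 := abs_le.1 (hc.1 0 (by omega))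
      have a3 := abs_le.1 (abs_le_of_sq_le_sq (hc.2 n (by omega)) hl.le)
      simp only [zero_add] at a2
      exact absurd hω (not_lt.2 (abs_le.2 ⟨by linarith, by linarith⟩))
    · exact div_le_div_of_nonneg_right (by linarith [h8 m K m le_rfl hK]) (sq_nonneg l)
    · simp; ring
  have h10 : ∀ l : ℝ, 0 < l → ∀ᵐ ω ∂P, ∃ m, ∀ n,
      |(Q κ S)^[n + m] ψ ω - (Q κ S)^[m] ψ ω| ≤ 5 * l := by
    intro l hl
    rw [ae_iff]
    have e0 := ENNReal.tendsto_ofReal ((h7.const_mul 4).div_const (l ^ 2))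
    rw [mul_zero, zero_div, ENNReal.ofReal_zero] at e0
    refine le_antisymm (ge_of_tendsto' e0 fun m => ?_) bot_le
    refine (measure_mono (t := ⋃ L, {ω | ∃ n ≤ L, 5 * l < |(Q κ S)^[n + m] ψ ω -
      (Q κ S)^[m] ψ ω|}) fun ω hω => ?_).trans ?_
    · simp only [Set.mem_ofPred_eq, not_exists, not_forall, not_le] at hω
      obtain ⟨n, hn⟩ := hω m
      exact Set.mem_iUnion.2 ⟨n, n, le_rfl, hn⟩
    · rw [Monotone.measure_iUnion fun L L' hL ω hω => hω.imp fun n hn => ⟨hn.1.trans hL, hn.2⟩]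
      refine iSup_le fun L => ?_
      rw [← ofReal_measureReal]
      exact ENNReal.ofReal_le_ofReal (h9 l hl m L)
  filter_upwards [ae_all_iff.2 fun j : ℕ => h10 (1 / (j + 1)) (by positivity)] with ω hω
  refine cauchySeq_tendsto_of_complete (Metric.cauchySeq_iff'.2 fun ε hε => ?_)
  obtain ⟨j, hj⟩ := exists_nat_one_div_lt (show 0 < ε / 5 by positivity)
  obtain ⟨m, hm⟩ := hω j
  refine ⟨m, fun n hn => ?_⟩
  have := hm (n - m)
  rw [Nat.sub_add_cancel hn] at this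
  rw [Real.dist_eq]; linarith

end Pool.Agent.H12.Avg
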