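import Pool.Agent.H12.Avg1

namespace Pool.Agent.H12.Avg

open MeasureTheory ProbabilityTheory Filter Topology Finset
open scoped unitInterval ENNReal

set_option linter.unusedSectionVars false

variable {d : ℕ}

/-- vertices -/
abbrev Vx (d : ℕ) : Type := Fin d → ℤ

/-- edges: `(x, i)` joins `x` and `x + e_i` -/
abbrev Ed (d : ℕ) : Type := Vx d × Fin d

/-- second endpoint -/
def hi (e : Ed d) : Vx d := e.1 + Pi.single e.2 1

/-- incidence -/
def Inc (e : Ed d) (v : Vx d) : Prop := e.1 = v ∨ hi e = v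

/-- other endpoint -/
def oth (e : Ed d) (v : Vx d) : Vx d := e.1 + hi e - v

/-- clock data of one time block -/
abbrev Bl (d : ℕ) : Type := (Ed d → ℕ) × (Ed d × ℕ → I)

/-- rings at `v` before `s` -/
def Ev (b : Bl d) (s : ℝ) (v : Vx d) (a : Ed d × ℕ) : Prop :=
  Inc a.1 v ∧ a.2 < b.1 a.1 ∧ (b.2 a : ℝ) < s

/-- last ring at `v` before `s` -/
def IsLast (b : Bl d) (s : ℝ) (v : Vx d) (a : Ed d × ℕ) : Prop :=
  Ev b s v a ∧ ∀ a', Ev b s v a' → a' ≠ a → (b.2 a' : ℝ) < b.2 a

lemma IsLast.unique {b : Bl d} {s : ℝ} {v : Vx d} {a a' : Ed d × ℕ} (h : IsLast b s v a)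
    (h' : IsLast b s v a') : a = a' := by
  by_contra hc
  exact lt_asymm (h.2 a' h'.1 (Ne.symm hc)) (h'.2 a h.1 hc)

open Classical in
/-- backward walk with fuel -/
noncomputable def Xn : ℕ → Bl d → (ℕ → Bool) → ℝ → Vx d → Vx d
  | 0, _, _, _, v => v
  | n + 1, b, c, s, v => if h : ∃ a, IsLast b s v a then
      Xn n b (fun k => c (k + 1)) (b.2 h.choose) (if c 0 then v else oth h.choose.1 v) else v

lemma Xn_last {b : Bl d} {s : ℝ} {v : Vx d} {a : Ed d × ℕ} (h : IsLast b s v a) (n : ℕ)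
    (c : ℕ → Bool) : Xn (n + 1) b c s v =
      Xn n b (fun k => c (k + 1)) (b.2 a) (if c 0 then v else oth a.1 v) := by
  rw [Xn, dif_pos ⟨a, h⟩, (Exists.choose_spec ⟨a, h⟩).unique h]

lemma Xn_none {b : Bl d} {s : ℝ} {v : Vx d} (h : ¬ ∃ a, IsLast b s v a) (n : ℕ) (c : ℕ → Bool) :
    Xn n b c s v = v := by
  cases n with
  | zero => rfl
  | succ n => rw [Xn, dif_neg h]

open Classical in
/-- backward walk -/
noncomputable def X (b : Bl d) (c : ℕ → Bool) (s : ℝ) (v : Vx d) : Vx d :=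
  if h : ∃ y, ∀ᶠ n in atTop, Xn n b c s v = y then h.choose else v

lemma X_eq {b : Bl d} {c : ℕ → Bool} {s : ℝ} {v y : Vx d} (h : ∀ᶠ n in atTop, Xn n b c s v = y) :
    X b c s v = y := by
  have h0 : ∃ y, ∀ᶠ n in atTop, Xn n b c s v = y := ⟨y, h⟩
  rw [X, dif_pos h0]
  obtain ⟨n, h1, h2⟩ := (h0.choose_spec.and h).exists
  exact h1.symm.trans h2

lemma X_none {b : Bl d} {s : ℝ} {v : Vx d} (h : ¬ ∃ a, IsLast b s v a) (c : ℕ → Bool) :
    X b c s v = v := X_eq (.of_forall fun n => Xn_none h n c)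

section meas

variable {Θ : Type*} [MeasurableSpace Θ] {b : Θ → Bl d}

lemma meas_Ev (hb : Measurable b) {s : Θ → ℝ} {v : Θ → Vx d} (hs : Measurable s)
    (hv : Measurable v) (a : Ed d × ℕ) : Measurable fun θ => Ev (b θ) (s θ) (v θ) a :=
  ((Measurable.of_discrete (f := Inc a.1)).comp hv).and
    (((Measurable.of_discrete (f := fun k => a.2 < k)).comp (by fun_prop)).and
      (measurableSet_setOfPred.1 (measurableSet_lt (by fun_prop) hs)))

lemma meas_last (hb : Measurable b) {s : Θ → ℝ} {v : Θ → Vx d} (hs : Measurable s)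
    (hv : Measurable v) (a : Ed d × ℕ) : Measurable fun θ => IsLast (b θ) (s θ) (v θ) a :=
  (meas_Ev hb hs hv a).and (.forall fun a' => (meas_Ev hb hs hv a').imp (measurable_const.imp
    (measurableSet_setOfPred.1 (measurableSet_lt (by fun_prop) (by fun_prop)))))

lemma meas_Xn (hb : Measurable b) (n : ℕ) : ∀ {c : Θ → ℕ → Bool} {s : Θ → ℝ} {v : Θ → Vx d},
    Measurable c → Measurable s → Measurable v →
    Measurable fun θ => Xn n (b θ) (c θ) (s θ) (v θ) := by
  induction n with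
  | zero => exact fun _ _ hv => hv
  | succ n ih =>
    intro c s v hc hs hv
    refine measurable_to_countable' fun y => ?_
    have h1 : ∀ a : Ed d × ℕ, Measurable fun θ => Xn n (b θ) (fun k => c θ (k + 1)) ((b θ).2 a)
        (if c θ 0 then v θ else oth a.1 (v θ)) := fun a =>
      ih (by fun_prop) (by fun_prop) (.ite (((measurable_pi_apply 0).comp hc)
        (measurableSet_singleton true)) hv ((Measurable.of_discrete (f := oth a.1)).comp hv))
    have h2 := (Measurable.exists fun a => (meas_last hb hs hv a).and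
      ((Measurable.of_discrete (f := (· = y))).comp (h1 a))).or
      ((Measurable.exists fun a => meas_last hb hs hv a).not.and
        ((Measurable.of_discrete (f := (· = y))).comp hv))
    convert measurableSet_setOfPred.2 h2 using 1
    ext θ
    by_cases h : ∃ a, IsLast (b θ) (s θ) (v θ) a
    · obtain ⟨a, ha⟩ := h
      simp only [Set.mem_preimage, Set.mem_singleton_iff, Xn_last ha, Set.mem_ofPred_eq,
        Function.comp]
      exact ⟨fun h => Or.inl ⟨a, ha, h⟩, fun h => h.elim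
        (fun ⟨a', h1, h2⟩ => ha.unique h1 ▸ h2) fun h => absurd ⟨a, ha⟩ h.1⟩
    · simp only [Set.mem_preimage, Set.mem_singleton_iff, Xn_none h, Set.mem_ofPred_eq,
        Function.comp]
      exact ⟨fun h' => Or.inr ⟨h, h'⟩, fun h' => h'.elim
        (fun ⟨a', h1, _⟩ => absurd ⟨a', h1⟩ h) fun h => h.2⟩

lemma meas_X (hb : Measurable b) {c : Θ → ℕ → Bool} {s : Θ → ℝ} {v : Θ → Vx d}
    (hc : Measurable c) (hs : Measurable s) (hv : Measurable v) :
    Measurable fun θ => X (b θ) (c θ) (s θ) (v θ) := by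
  refine measurable_to_countable' fun y => ?_
  have h1 : ∀ y, Measurable fun θ => ∀ᶠ n in atTop, Xn n (b θ) (c θ) (s θ) (v θ) = y := fun y => by
    simp only [eventually_atTop]
    exact .exists fun N => .forall fun n => measurable_const.imp
      ((Measurable.of_discrete (f := (· = y))).comp (meas_Xn hb n hc hs hv))
  convert measurableSet_setOfPred.2 ((h1 y).or ((Measurable.exists h1).not.and
    ((Measurable.of_discrete (f := (· = y))).comp hv))) using 1
  ext θ
  simp only [Set.mem_preimage, Set.mem_singleton_iff, Set.mem_ofPred_eq, Function.comp]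
  by_cases h : ∃ y, ∀ᶠ n in atTop, Xn n (b θ) (c θ) (s θ) (v θ) = y
  · obtain ⟨y', hy⟩ := h
    exact ⟨fun h => Or.inl (by rw [← h, X_eq hy]; exact hy), fun h => h.elim X_eq
      fun h => absurd ⟨y', hy⟩ h.1⟩
  · rw [X, dif_neg h]
    exact ⟨fun h' => Or.inr ⟨h, h'⟩, fun h' => h'.elim (fun h1 => absurd ⟨y, h1⟩ h) fun h => h.2⟩

end meas

/-- reindexing a block -/
def rb (π : Ed d → Ed d) (b : Bl d) : Bl d := (fun e => b.1 (π e), fun a => b.2 (π a.1, a.2))

lemma X_cov (τ : Vx d ≃ Vx d) (π : Ed d ≃ Ed d) (h1 : ∀ e v, Inc (π e) (τ v) ↔ Inc e v)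
    (h2 : ∀ e v, τ (oth e v) = oth (π e) (τ v)) (b : Bl d) (c : ℕ → Bool) (s : ℝ) (v : Vx d) :
    τ (X (rb π b) c s v) = X b c s (τ v) := by
  have hE : ∀ s v a, Ev (rb π b) s v a ↔ Ev b s (τ v) (π a.1, a.2) := fun s v a => by
    simp only [Ev, h1, rb]
  have hL : ∀ s v a, IsLast (rb π b) s v a ↔ IsLast b s (τ v) (π a.1, a.2) := fun s v a => by
    refine and_congr (hE s v a) ⟨fun h a' ha' hne => ?_, fun h a' ha' hne => h _ ((hE _ _ _).1 ha')
      fun hc => hne (Prod.ext (π.injective (Prod.mk.inj hc).1) (Prod.mk.inj hc).2)⟩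
    simpa [rb] using h (π.symm a'.1, a'.2) ((hE _ _ _).2 (by simpa using ha'))
      fun hc => hne (by rw [← hc]; simp)
  have hn : ∀ n c s v, τ (Xn n (rb π b) c s v) = Xn n b c s (τ v) := by
    intro n
    induction n with
    | zero => exact fun _ _ _ => rfl
    | succ n ih =>
      intro c s v
      by_cases h : ∃ a, IsLast (rb π b) s v a
      · obtain ⟨a, ha⟩ := h
        rw [Xn_last ha, Xn_last ((hL _ _ _).1 ha), ih, apply_ite τ, h2]; rfl
      · rw [Xn_none h, Xn_none fun ⟨a, ha⟩ => h ⟨(π.symm a.1, a.2), (hL _ _ _).2 (by simpa using ha)⟩]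
  by_cases h : ∃ y, ∀ᶠ n in atTop, Xn n (rb π b) c s v = y
  · obtain ⟨y, hy⟩ := h
    rw [X_eq hy, X_eq (hy.mono fun n h => by rw [← hn, h])]
  · rw [X, dif_neg h, X, dif_neg fun ⟨y, hy⟩ => h ⟨τ.symm y, hy.mono fun n h => by
      rw [← h, ← hn, τ.symm_apply_apply]⟩]

/-- translation of edges -/
def tr (y : Vx d) : Ed d ≃ Ed d := (Equiv.addRight y).prodCongr (.refl _)

/-- reflection of edges -/
def rf : Ed d ≃ Ed d := Function.Involutive.toPerm (fun e => (-hi e, e.2)) fun e => by simp [hi]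

lemma hi_tr (y : Vx d) (e : Ed d) : hi (tr y e) = hi e + y := by
  simp [hi, tr, add_right_comm]

lemma X_tr (y : Vx d) (b : Bl d) (c : ℕ → Bool) (s : ℝ) (v : Vx d) :
    X (rb (tr y) b) c s v + y = X b c s (v + y) :=
  X_cov (Equiv.addRight y) (tr y) (fun e v => by simp only [Inc, hi_tr]; simp [tr])
    (fun e v => by simp only [oth, hi_tr]; simp [tr]; abel) b c s v

lemma X_rf (b : Bl d) (c : ℕ → Bool) (s : ℝ) : -X (rb rf b) c s 0 = X b c s 0 := by
  have h : ∀ e : Ed d, hi (rf e) = -e.1 := fun e => by simp [rf, hi]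
  simpa using X_cov (Equiv.neg _) rf (fun e v => by simp only [Inc, h]; simp [rf, or_comm])
    (fun e v => by simp only [oth, h]; simp [rf]; abel) b c s 0

/-- the edge at `w` in a direction -/
def edge (w : Vx d) (t : Fin d × Bool) : Ed d :=
  if t.2 then (w, t.1) else (w - Pi.single t.1 1, t.1)

lemma inc_edge (w : Vx d) (t : Fin d × Bool) : Inc (edge w t) w := by
  unfold edge Inc hi; split_ifs <;> simp

lemma Inc.ex {e : Ed d} {w : Vx d} (h : Inc e w) : ∃ t, edge w t = e := by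
  rcases h with rfl | rfl
  · exact ⟨(e.2, true), rfl⟩
  · exact ⟨(e.2, false), by simp [edge, hi]⟩

lemma Inc.cases {e : Ed d} {v w : Vx d} (h : Inc e v) (h' : Inc e w) : w = v ∨ w = oth e v := by
  rcases h with rfl | rfl <;> rcases h' with rfl | rfl <;> simp [oth]

lemma Inc.oth {e : Ed d} {v : Vx d} (h : Inc e v) : Inc e (oth e v) := by
  rcases h with rfl | rfl <;> simp [Avg.oth, Inc]

/-- end of a path -/
def pos (v : Vx d) : List (Fin d × Bool) → Vx d
  | [] => v
  | t :: l => oth (edge (pos v l) t) (pos v l)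

/-- edges of a path -/
def edges (v : Vx d) : List (Fin d × Bool) → List (Ed d)
  | [] => []
  | t :: l => edge (pos v l) t :: edges v l

/-- open trail -/
def Opn (K : Ed d → ℕ) (v : Vx d) (l : List (Fin d × Bool)) : Prop :=
  (edges v l).Nodup ∧ ∀ e ∈ edges v l, 0 < K e

/-- cluster -/
def Cl (K : Ed d → ℕ) (v : Vx d) : Set (Vx d) := pos v '' {l | Opn K v l}

lemma Cl_self (K : Ed d → ℕ) (v : Vx d) : v ∈ Cl K v := ⟨[], by simp [Opn, edges], rfl⟩

lemma Cl_edge {K : Ed d → ℕ} {v : Vx d} {e : Ed d} {w : Vx d} (hw : Inc e w) :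
    ∀ l, Opn K v l → e ∈ edges v l → w ∈ Cl K v
  | [], _, h => by simp [edges] at h
  | t :: l, h1, h2 => by
    have h3 : Opn K v l := ⟨(List.nodup_cons.1 h1.1).2, fun e he => h1.2 e (List.mem_cons_of_mem _ he)⟩
    rcases List.mem_cons.1 h2 with rfl | h2
    · rcases (inc_edge _ t).cases hw with rfl | rfl
      exacts [⟨l, h3, rfl⟩, ⟨t :: l, h1, rfl⟩]
    · exact Cl_edge hw l h3 h2

lemma Cl_oth {K : Ed d → ℕ} {v w : Vx d} {e : Ed d} (hw : w ∈ Cl K v) (he : Inc e w)
    (hK : 0 < K e) : oth e w ∈ Cl K v := by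
  obtain ⟨l, hl, rfl⟩ := hw
  by_cases h : e ∈ edges v l
  · exact Cl_edge he.oth l hl h
  · obtain ⟨t, rfl⟩ := he.ex
    exact ⟨t :: l, ⟨List.nodup_cons.2 ⟨h, hl.1⟩, List.forall_mem_cons.2 ⟨hK, hl.2⟩⟩, rfl⟩

lemma X_mem {b : Bl d} {v w : Vx d} (hw : w ∈ Cl b.1 v) (c : ℕ → Bool) (s : ℝ) :
    X b c s w ∈ Cl b.1 v := by
  have hn : ∀ n c s w, w ∈ Cl b.1 v → Xn n b c s w ∈ Cl b.1 v := by
    intro n
    induction n with
    | zero => exact fun _ _ _ h => h
    | succ n ih =>
      intro c s w hw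
      by_cases h : ∃ a, IsLast b s w a
      · obtain ⟨a, ha⟩ := h
        rw [Xn_last ha]
        refine ih _ _ _ ?_
        split_ifs
        exacts [hw, Cl_oth hw ha.1.1 (ha.1.2.1.trans_le' (Nat.zero_le _))]
      · rwa [Xn_none h]
  by_cases h : ∃ y, ∀ᶠ n in atTop, Xn n b c s w = y
  · obtain ⟨y, hy⟩ := h
    obtain ⟨n, h⟩ := hy.exists
    rw [X_eq hy, ← h]; exact hn _ _ _ _ hw
  · rwa [X, dif_neg h]

/-- all rings at `v` in the block -/
def rings (K : Ed d → ℕ) (v : Vx d) : Finset (Ed d × ℕ) :=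
  univ.biUnion fun t => (range (K (edge v t))).image fun j => (edge v t, j)

lemma mem_rings {K : Ed d → ℕ} {v : Vx d} {a : Ed d × ℕ} :
    a ∈ rings K v ↔ Inc a.1 v ∧ a.2 < K a.1 := by
  simp only [rings, mem_biUnion, mem_univ, true_and, mem_image, mem_range]
  constructor
  · rintro ⟨t, j, hj, rfl⟩; exact ⟨inc_edge _ _, hj⟩
  · rintro ⟨h1, h2⟩
    obtain ⟨t, ht⟩ := h1.ex
    exact ⟨t, a.2, ht ▸ h2, ht ▸ rfl⟩

/-- rings at `v` before `s` -/
noncomputable def evs (b : Bl d) (s : ℝ) (v : Vx d) : Finset (Ed d × ℕ) :=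
  (rings b.1 v).filter fun a => (b.2 a : ℝ) < s

lemma mem_evs {b : Bl d} {s : ℝ} {v : Vx d} {a : Ed d × ℕ} : a ∈ evs b s v ↔ Ev b s v a := by
  simp only [evs, mem_filter, mem_rings, Ev, and_assoc]

/-- good blocks -/
structure Good (b : Bl d) : Prop where
  inj : Function.Injective b.2
  pos : ∀ a, 0 < (b.2 a : ℝ) ∧ (b.2 a : ℝ) < 1
  fin : ∀ v, (Cl b.1 v).Finite

lemma Good.ind {b : Bl d} (hb : Good b) {P : ℝ → Vx d → Prop}
    (h : ∀ s v, (∀ a, Ev b s v a → P (b.2 a) v ∧ P (b.2 a) (oth a.1 v)) → P s v) (s : ℝ)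
    (v : Vx d) : P s v := by
  set A := (hb.fin v).toFinset.biUnion (rings b.1)
  suffices ∀ n s, #{a ∈ A | (b.2 a : ℝ) < s} = n → ∀ w ∈ Cl b.1 v, P s w from
    this _ s rfl v (Cl_self _ _)
  intro n
  induction n using Nat.strong_induction_on with
  | _ n ih =>
    rintro s rfl w hw
    refine h s w fun a ha => ?_
    have := ih _ (card_lt_card (s := {a' ∈ A | (b.2 a' : ℝ) < b.2 a}) ((ssubset_iff_of_subset
      (monotone_filter_right _ fun a' _ h' => h'.trans ha.2.2)).2 ⟨a, mem_filter.2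
        ⟨mem_biUnion.2 ⟨w, by simpa using hw, mem_rings.2 ⟨ha.1, ha.2.1⟩⟩, ha.2.2⟩, by simp⟩))
      (b.2 a) rfl
    exact ⟨this w hw, this _ (Cl_oth hw ha.1 (ha.2.1.trans_le' (Nat.zero_le _)))⟩

lemma Good.last {b : Bl d} (hb : Good b) {s : ℝ} {v : Vx d} (h : ¬ ∃ a, IsLast b s v a)
    (a : Ed d × ℕ) : ¬ Ev b s v a := fun ha => by
  obtain ⟨a', h1, h2⟩ := exists_max_image (evs b s v) (fun a => (b.2 a : ℝ)) ⟨a, mem_evs.2 ha⟩
  exact h ⟨a', mem_evs.1 h1, fun a'' h3 h4 => lt_of_le_of_ne (h2 _ (mem_evs.2 h3))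
    fun hc => h4 (hb.inj (Subtype.ext hc))⟩

lemma Good.X_last {b : Bl d} (hb : Good b) {s : ℝ} {v : Vx d} {a : Ed d × ℕ} (h : IsLast b s v a)
    (c : ℕ → Bool) :
    X b c s v = X b (fun k => c (k + 1)) (b.2 a) (if c 0 then v else oth a.1 v) := by
  have step : ∀ {s v a y} (c : ℕ → Bool), IsLast b s v a → (∀ᶠ n in atTop, Xn n b
      (fun k => c (k + 1)) (b.2 a) (if c 0 then v else oth a.1 v) = y) →
      ∀ᶠ n in atTop, Xn n b c s v = y := fun c h hy => by
    obtain ⟨N, hN⟩ := eventually_atTop.1 hy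
    filter_upwards [eventually_ge_atTop (N + 1)] with n hn
    obtain ⟨n, rfl⟩ : ∃ m, n = m + 1 := ⟨n - 1, by omega⟩
    rw [Xn_last h, hN n (by omega)]
  have conv : ∀ s v, ∀ c, ∃ y, ∀ᶠ n in atTop, Xn n b c s v = y := hb.ind fun s v ih c => by
    by_cases h : ∃ a, IsLast b s v a
    · obtain ⟨a, ha⟩ := h
      obtain ⟨y, hy⟩ : ∃ y, ∀ᶠ n in atTop, Xn n b (fun k => c (k + 1)) (b.2 a)
          (if c 0 then v else oth a.1 v) = y := by
        split_ifs
        exacts [(ih a ha.1).1 _, (ih a ha.1).2 _]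
      exact ⟨y, step c ha hy⟩
    · exact ⟨v, .of_forall fun n => Xn_none h n c⟩
  obtain ⟨y, hy⟩ := conv (b.2 a) (if c 0 then v else oth a.1 v) fun k => c (k + 1)
  rw [X_eq hy, X_eq (step c h hy)]

lemma split_mp {α : Type*} [MeasurableSpace α] (ν : Measure α) [IsProbabilityMeasure ν] :
    MeasurePreserving (fun z : α × (ℕ → α) => fun n => Nat.casesOn (motive := fun _ => α) n z.1 z.2)
      (ν.prod (Measure.infinitePi fun _ : ℕ => ν)) (Measure.infinitePi fun _ : ℕ => ν) := by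
  have hm : Measurable fun z : α × (ℕ → α) =>
      fun n => Nat.casesOn (motive := fun _ => α) n z.1 z.2 :=
    measurable_pi_lambda _ fun n => by cases n <;> simp only <;> fun_prop
  classical
  refine ⟨hm, Measure.eq_infinitePi _ fun s t ht => ?_⟩
  rw [Measure.map_apply hm (MeasurableSet.pi s.countable_toSet fun i _ => ht i)]
  have : (fun z : α × (ℕ → α) => fun n => Nat.casesOn (motive := fun _ => α) n z.1 z.2) ⁻¹'
      (Set.pi s t) = (if 0 ∈ s then t 0 else Set.univ) ×ˢ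
        Set.pi (s.preimage Nat.succ Nat.succ_injective.injOn) fun j => t (j + 1) := by
    ext z
    simp only [Set.mem_preimage, Set.mem_pi, mem_coe, Set.mem_prod, mem_preimage]
    refine ⟨fun h => ⟨?_, fun j hj => h _ hj⟩, fun h j hj => ?_⟩
    · split_ifs with h0
      exacts [h 0 h0, trivial]
    · cases j with
      | zero => have := h.1; rwa [if_pos hj] at this
      | succ j => exact h.2 j hj
  rw [this, Measure.prod_prod, Measure.infinitePi_pi _ fun j _ => ht _,
    prod_preimage' Nat.succ s _ fun j => ν (t j), ← prod_filter_not_mul_prod_filter s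
      (· ∈ Set.range Nat.succ)]
  congr 1
  split_ifs with h0
  · rw [show s.filter (· ∉ Set.range Nat.succ) = {0} by
      ext j; cases j <;> simp [h0], prod_singleton]
  · rw [show s.filter (· ∉ Set.range Nat.succ) = ∅ by
      ext j; cases j <;> simp [h0], prod_empty, measure_univ]

/-- fair coin -/
noncomputable def coin : Measure Bool := (2⁻¹ : ℝ≥0∞) • Measure.count

instance : IsProbabilityMeasure coin := ⟨by
  rw [coin, Measure.smul_apply, Measure.count_univ]; simp [ENNReal.inv_mul_cancel]⟩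

/-- fair coins -/
noncomputable def coins : Measure (ℕ → Bool) := Measure.infinitePi fun _ => coin

instance : IsProbabilityMeasure coins := by unfold coins; infer_instance

/-- value just before time `s` -/
noncomputable def F (u : Vx d → ℝ) (b : Bl d) (s : ℝ) (v : Vx d) : ℝ := ∫ c, u (X b c s v) ∂coins

lemma F_none {b : Bl d} {s : ℝ} {v : Vx d} (h : ¬ ∃ a, IsLast b s v a) (u : Vx d → ℝ) :
    F u b s v = u v := by simp [F, X_none h]

lemma Bd.X {u : Vx d → ℝ} (hu : Bd u) (b : Bl d) (s : ℝ) (v : Vx d) : Bd fun c => u (X b c s v) :=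
  hu.comp (meas_X measurable_const measurable_id measurable_const measurable_const)

lemma Good.F_last {b : Bl d} (hb : Good b) {s : ℝ} {v : Vx d} {a : Ed d × ℕ} (h : IsLast b s v a)
    {u : Vx d → ℝ} (hu : Bd u) :
    F u b s v = (F u b (b.2 a) v + F u b (b.2 a) (oth a.1 v)) / 2 := by
  have h1 := split_mp coin
  rw [F, coins, ← h1.map_eq, integral_map h1.measurable.aemeasurable
    (hu.X b s v).1.aestronglyMeasurable, integral_prod _ (((hu.X b s v).comp h1.measurable).int _),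
    integral_fintype (.of_finite)]
  simp only [hb.X_last h]
  simp [coin, F, coins, Measure.real]
  ring

lemma F_osc {u : Vx d → ℝ} (hu : Bd u) {b : Bl d} {v w : Vx d} (hw : w ∈ Cl b.1 v) {x r : ℝ}
    (h : ∀ y ∈ Cl b.1 v, |u y - x| ≤ r) (s : ℝ) : |F u b s w - x| ≤ r := by
  have := norm_integral_le_of_norm_le_const (μ := coins) (f := fun c => u (X b c s w) - x)
    (.of_forall fun c => h _ (X_mem hw c s))
  rw [integral_sub ((hu.X b s w).int _) (integrable_const _)] at this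
  simpa [F] using this

lemma Good.tele {b : Bl d} (hb : Good b) {u : Vx d → ℝ} (hu : Bd u) (s : ℝ) (v : Vx d) :
    F u b s v - u v = ∑ a ∈ evs b s v, (F u b (b.2 a) (oth a.1 v) - F u b (b.2 a) v) / 2 := by
  refine hb.ind (P := fun s v => F u b s v - u v =
    ∑ a ∈ evs b s v, (F u b (b.2 a) (oth a.1 v) - F u b (b.2 a) v) / 2) (fun s v ih => ?_) s v
  by_cases h : ∃ a, IsLast b s v a
  · obtain ⟨a, ha⟩ := h
    have : evs b s v = insert a (evs b (b.2 a) v) := by
      ext a'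
      simp only [mem_insert, mem_evs]
      refine ⟨fun h => or_iff_not_imp_left.2 fun hne => ⟨h.1, h.2.1, ha.2 a' h hne⟩, ?_⟩
      rintro (rfl | h)
      exacts [ha.1, ⟨h.1, h.2.1, h.2.2.trans ha.1.2.2⟩]
    rw [this, sum_insert (by simp [mem_evs, Ev]), ← (ih a ha.1).1, hb.F_last ha hu]
    ring
  · rw [F_none h, eq_empty_of_forall_notMem fun a ha => hb.last h a (mem_evs.1 ha)]
    simp

/-- flux through an edge -/
noncomputable def flux (u : Vx d → ℝ) (b : Bl d) (e : Ed d) (L : ℕ) : ℝ :=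
  ∑ j ∈ range L, if j < b.1 e then (F u b (b.2 (e, j)) (hi e) - F u b (b.2 (e, j)) e.1) / 2 else 0

lemma Good.div {b : Bl d} (hb : Good b) {u : Vx d → ℝ} (hu : Bd u) {L : ℕ}
    (hL : ∀ t, b.1 (edge 0 t) ≤ L) :
    F u b 1 0 - u 0 = -∑ i, (flux u b (-Pi.single i 1, i) L - flux u b (0, i) L) := by
  have h1 : ∀ (K : ℕ) (f : ℕ → ℝ), K ≤ L → ∑ j ∈ range L, (if j < K then f j else 0) =
      ∑ j ∈ range K, f j := fun K f h => by
    rw [← sum_filter]; congr 1; ext j; simp; omega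
  rw [hb.tele hu, evs, filter_true_of_mem fun a _ => (hb.pos a).2, rings, sum_biUnion,
    Fintype.sum_prod_type, ← sum_neg_distrib]
  · refine sum_congr rfl fun i _ => ?_
    have e1 := hL (i, true)
    have e2 := hL (i, false)
    simp only [edge, if_true, Bool.false_eq_true, if_false, zero_sub] at e1 e2
    rw [Fintype.sum_bool, sum_image fun _ _ _ _ h => (Prod.mk.inj h).2,
      sum_image fun _ _ _ _ h => (Prod.mk.inj h).2, flux, flux, h1 _ _ e1, h1 _ _ e2, neg_sub,
      sub_eq_add_neg, ← sum_neg_distrib]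
    simp only [edge, if_true, Bool.false_eq_true, if_false, zero_sub, oth, hi, zero_add, sub_zero,
      neg_add_cancel, add_zero]
    congr 1
    exact sum_congr rfl fun j _ => by ring
  · rintro ⟨i, x⟩ - ⟨j, y⟩ - hne
    simp only [Function.onFun, disjoint_left, mem_image]
    rintro _ ⟨k, -, rfl⟩ ⟨k', -, h⟩
    have h2 := (Prod.mk.inj h).1
    cases x <;> cases y <;> simp only [edge, if_true, Bool.false_eq_true, if_false, zero_sub,
      Prod.mk.injEq] at h2 <;> obtain ⟨h3, rfl⟩ := h2 <;> first | exact hne rfl |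
        simpa using congrFun h3 j

lemma flux_le {u : Vx d → ℝ} (hu : Bd u) {b : Bl d} {r : ℝ} (hr : 0 ≤ r)
    (h : ∀ y ∈ Cl b.1 0, |u y - u 0| ≤ r) (i : Fin d) (L : ℕ) :
    |flux u b (0, i) L| ≤ b.1 (0, i) * r := by
  refine (abs_sum_le_sum_abs _ _).trans ((sum_le_sum (g := fun j => if j < b.1 (0, i) then r else 0)
    fun j _ => ?_).trans ?_)
  · split_ifs with hj
    · have h1 := abs_le.1 (F_osc hu (Cl_self _ _) h (b.2 ((0, i), j)))
      have h2 := abs_le.1 (F_osc hu (Cl_oth (e := (0, i)) (Cl_self _ _) (Or.inl rfl) (by omega)) h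
        (b.2 ((0, i), j)))
      simp only [oth, zero_add, sub_zero] at h2
      rw [abs_le]; constructor <;> linarith
    · simp
  · rw [← sum_filter, sum_const, nsmul_eq_mul]
    gcongr
    exact (card_le_card (t := range (b.1 (0, i))) fun j hj => by
      simpa using (mem_filter.1 hj).2).trans (by simp)

lemma Good.F_one {b : Bl d} (hb : Good b) {i : Fin d} (h1 : b.1 (0, i) = 1)
    (h0 : ∀ e, e ≠ (0, i) → Inc e 0 ∨ Inc e (Pi.single i 1) → b.1 e = 0) {u : Vx d → ℝ}
    (hu : Bd u) : F u b 1 0 = (u 0 + u (Pi.single i 1)) / 2 := by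
  have h2 : ∀ {s v a}, v = 0 ∨ v = Pi.single i 1 → Ev b s v a → a = ((0, i), 0) := by
    intro s v a hv ha
    have h3 : a.1 = (0, i) := by
      by_contra hc
      have := h0 a.1 hc (by rcases hv with rfl | rfl; exacts [.inl ha.1, .inr ha.1])
      have := ha.2.1
      omega
    have := ha.2.1
    rw [h3, h1] at this
    exact Prod.ext h3 (by simpa using this)
  have h3 : ∀ v, v = 0 ∨ v = Pi.single i 1 → F u b (b.2 ((0, i), 0)) v = u v := fun v hv =>
    F_none (fun ⟨a, ha⟩ => by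
      have := ha.1.2.2; rw [h2 hv ha.1] at this; exact lt_irrefl _ this) u
  rw [hb.F_last (a := ((0, i), 0)) ⟨⟨Or.inl rfl, by simp [h1], (hb.pos _).2⟩,
    fun a ha hne => absurd (h2 (Or.inl rfl) ha) hne⟩ hu, h3 _ (Or.inl rfl),
    h3 _ (Or.inr (by simp [oth, hi]))]
  simp [oth, hi]

end Pool.Agent.H12.Avg
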