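import Pool.Agent.H12.Avg2

namespace Pool.Agent.H12.Avg

open MeasureTheory ProbabilityTheory Filter Topology Finset
open scoped unitInterval ENNReal

set_option linter.unusedSectionVars false

variable {d : ℕ}

/-- law of a block -/
noncomputable abbrev bl (d : ℕ) (ρ : Measure ℕ) : Measure (Bl d) :=
  (Measure.infinitePi fun _ => ρ).prod (Measure.infinitePi fun _ => volume)

/-- second moment -/
noncomputable def m2 (ρ : Measure ℕ) : ℝ≥0∞ := ∫⁻ k, (k : ℝ≥0∞) ^ 2 ∂ρ

/-- subcriticality -/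
structure Small (d : ℕ) (ρ : Measure ℕ) : Prop where
  m : 2 * d * (4 * m2 ρ) ≤ 2⁻¹
  m1 : m2 ρ ≤ 1
  h0 : ρ {0} ≠ 0
  h1 : ρ {1} ≠ 0

variable {ρ : Measure ℕ} [IsProbabilityMeasure ρ]

lemma rb_mp (π : Ed d ≃ Ed d) : MeasurePreserving (rb π) (bl d ρ) (bl d ρ) :=
  MeasurePreserving.prod (f := fun (K : Ed d → ℕ) e => K (π e))
    (g := fun (U : Ed d × ℕ → I) (a : Ed d × ℕ) => U (π a.1, a.2))
    ⟨by fun_prop, Measure.map_infinitePi_infinitePi_of_inj (P := fun _ => ρ) π.injective⟩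
    ⟨by fun_prop, Measure.map_infinitePi_infinitePi_of_inj (P := fun _ : Ed d × ℕ => volume)
      (f := fun a : Ed d × ℕ => (π a.1, a.2)) (π.prodCongr (.refl ℕ)).injective⟩

lemma prodK (s : Finset (Ed d)) :
    ∫⁻ b, ∏ e ∈ s, (b.1 e : ℝ≥0∞) ^ 2 ∂bl d ρ = m2 ρ ^ s.card := by
  rw [measurePreserving_fst.lintegral_comp (f := fun K : Ed d → ℕ => ∏ e ∈ s, (K e : ℝ≥0∞) ^ 2)
    (by fun_prop), lintegral_prod_eq_prod_lintegral_of_indepFun s _ (iIndepFun_infinitePi
      (X := fun _ (k : ℕ) => (k : ℝ≥0∞) ^ 2) fun _ => .of_discrete) (by fun_prop), ← prod_const]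
  exact prod_congr rfl fun e _ => (measurePreserving_eval_infinitePi (fun _ : Ed d => ρ) e).lintegral_comp
    (f := fun k : ℕ => (k : ℝ≥0∞) ^ 2) .of_discrete

open Classical in
/-- indicator of an open trail -/
noncomputable def op (K : Ed d → ℕ) (v : Vx d) (l : List (Fin d × Bool)) : ℝ≥0∞ :=
  if Opn K v l then 1 else 0

lemma meas_op (v : Vx d) (l : List (Fin d × Bool)) : Measurable fun K => op K v l :=
  .ite (measurableSet_setOfPred.2 (measurable_const.and (.forall fun e => measurable_const.imp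
    ((Measurable.of_discrete (f := fun k => 0 < k)).comp (measurable_pi_apply e)))))
    measurable_const measurable_const

lemma len_edges (v : Vx d) : ∀ l, (edges v l).length = l.length
  | [] => rfl
  | _ :: l => congrArg (· + 1) (len_edges v l)

lemma opn_le (h : Small d ρ) (t : Finset (Ed d)) (v : Vx d) (l : List (Fin d × Bool)) :
    ∫⁻ b, (∏ e ∈ t, (b.1 e : ℝ≥0∞) ^ 2) * op b.1 v l ∂bl d ρ ≤ m2 ρ ^ l.length := by
  by_cases hn : (edges v l).Nodup
  · refine (lintegral_mono fun b => ?_).trans ((prodK (t ∪ (edges v l).toFinset)).trans_le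
      (pow_le_pow_of_le_one bot_le h.m1 ?_))
    · unfold op
      split_ifs with ho
      · rw [mul_one]
        refine prod_le_prod_of_subset_of_one_le' subset_union_left fun e he he' => ?_
        exact one_le_pow₀ (by exact_mod_cast ho.2 e (by simpa [he'] using he))
      · simp
    · rw [← len_edges v, ← List.toFinset_card_of_nodup hn]
      exact card_le_card subset_union_right
  · simp [op, Opn, hn]

lemma sum_list {x : ℝ≥0∞} (hx : 2 * d * x ≤ 2⁻¹) :
    ∑' l : List (Fin d × Bool), x ^ l.length ≤ 2 := by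
  rw [← List.equivSigmaTuple.symm.tsum_eq, ENNReal.tsum_sigma', ← ENNReal.tsum_geometric_two]
  refine ENNReal.tsum_le_tsum fun n => le_trans (le_of_eq ?_) (pow_le_pow_left' hx n)
  simp [List.equivSigmaTuple, mul_pow, mul_comm]

lemma good_ae (h : Small d ρ) : ∀ᵐ b ∂bl d ρ, Good b := by
  have h1 : ∀ᵐ U ∂(Measure.infinitePi fun _ : Ed d × ℕ => (volume : Measure I)),
      Function.Injective U := by
    refine ae_all_iff.2 fun a => ae_all_iff.2 fun a' => ?_
    by_cases ha : a = a'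
    · exact .of_forall fun _ _ => ha
    have h2 := (indepFun_iff_map_prod_eq_prod_map_map (measurable_pi_apply a).aemeasurable
      (measurable_pi_apply a').aemeasurable).1
      ((iIndepFun_infinitePi (P := fun _ : Ed d × ℕ => (volume : Measure I))
        (X := fun _ u => u) fun _ => measurable_id).indepFun ha)
    rw [Measure.infinitePi_map_eval, Measure.infinitePi_map_eval] at h2
    have h3 : ∀ᵐ z ∂(volume : Measure I).prod (volume : Measure I), z.1 ≠ z.2 :=
      (Measure.ae_prod_iff_ae_ae (measurableSet_eq_fun measurable_fst measurable_snd).compl).2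
        (.of_forall fun x => by simp [ae_iff])
    rw [← h2] at h3
    exact (ae_of_ae_map (by fun_prop) h3).mono fun U hU he => absurd he hU
  have h2 : ∀ᵐ U ∂(Measure.infinitePi fun _ : Ed d × ℕ => (volume : Measure I)),
      ∀ a, 0 < (U a : ℝ) ∧ (U a : ℝ) < 1 := by
    refine ae_all_iff.2 fun a => (measurePreserving_eval_infinitePi
      (fun _ : Ed d × ℕ => (volume : Measure I)) a).quasiMeasurePreserving.ae
      (p := fun u : I => 0 < (u : ℝ) ∧ (u : ℝ) < 1) ?_
    have h3 : ∀ x : I, ∀ᵐ u : I, u ≠ x := fun x => by simp [ae_iff]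
    filter_upwards [h3 0, h3 1] with u h0 h1
    exact ⟨unitInterval.pos_iff_ne_zero.2 h0, unitInterval.lt_one_iff_ne_one.2 h1⟩
  have h3 : ∀ v, ∀ᵐ b ∂bl d ρ, (Cl b.1 v).Finite := fun v => by
    have hm : ∀ l, Measurable fun b : Bl d => op b.1 v l := fun l =>
      (meas_op v l).comp measurable_fst
    have h4 : ∫⁻ b, ∑' l, op b.1 v l ∂bl d ρ ≤ 2 := by
      rw [lintegral_tsum fun l => (hm l).aemeasurable]
      refine (ENNReal.tsum_le_tsum fun l => ?_).trans (sum_list (x := m2 ρ) (le_trans ?_ h.m))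
      · simpa using opn_le h ∅ v l
      · gcongr; exact le_mul_of_one_le_left bot_le (by norm_num)
    filter_upwards [ae_lt_top (.tsum hm) (ne_top_of_le_ne_top (by simp) h4)] with b hb
    refine Set.Finite.image _ ((ENNReal.finite_const_le_of_tsum_ne_top hb.ne one_ne_zero).subset
      fun l hl => ?_)
    simp [op, show Opn b.1 v l from hl]
  filter_upwards [measurePreserving_snd.quasiMeasurePreserving.ae h1,
    measurePreserving_snd.quasiMeasurePreserving.ae h2, ae_all_iff.2 h3] with b h1 h2 h3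
  exact ⟨h1, h2, h3⟩

/-- displacement law -/
noncomputable def kap (d : ℕ) (ρ : Measure ℕ) : Measure (Vx d) :=
  ((bl d ρ).prod coins).map fun z => X z.1 z.2 1 0

lemma meas_X0 : Measurable fun z : Bl d × (ℕ → Bool) => X z.1 z.2 1 0 :=
  meas_X measurable_fst measurable_snd measurable_const measurable_const

instance : IsProbabilityMeasure (kap d ρ) := Measure.isProbabilityMeasure_map meas_X0.aemeasurable

lemma kap_int {u : Vx d → ℝ} (hu : Bd u) : ∫ y, u y ∂kap d ρ = ∫ b, F u b 1 0 ∂bl d ρ := by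
  rw [kap, integral_map meas_X0.aemeasurable hu.1.aestronglyMeasurable,
    integral_prod _ ((hu.comp meas_X0).int _)]
  rfl

lemma kap_sym : (kap d ρ).map Neg.neg = kap d ρ := by
  have h := ((rb_mp (ρ := ρ) (rf (d := d))).prod (MeasurePreserving.id coins))
  rw [kap, Measure.map_map .of_discrete meas_X0]
  conv_lhs => rw [← h.map_eq]
  rw [Measure.map_map (Measurable.of_discrete.comp meas_X0) h.measurable]
  congr 1
  funext z
  exact X_rf _ _ _

lemma Bd.F {u : Vx d → ℝ} (hu : Bd u) : Bd fun b => F u b 1 0 := (hu.comp meas_X0).integral coins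

lemma F_nonneg {u : Vx d → ℝ} (hu : ∀ y, 0 ≤ u y) (b : Bl d) (s : ℝ) (v : Vx d) : 0 ≤ F u b s v :=
  integral_nonneg fun _ => hu _

lemma kap_ge {G : Set (Bl d)} (hG : MeasurableSet G) {x : Vx d} {c : ℝ}
    (h : ∀ᵐ b ∂bl d ρ, b ∈ G → c ≤ F (Set.indicator {x} fun _ => 1) b 1 0) :
    (bl d ρ).real G * c ≤ (kap d ρ).real {x} := by
  have hx := Bd.ind (measurableSet_singleton x)
  rw [← integral_indicator_one (measurableSet_singleton x), ← integral_indicator_one hG,
    ← integral_mul_const]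
  refine le_trans (integral_mono_ae (((Bd.ind hG).mul (.const c)).int _) (hx.F.int _)
    (h.mono fun b hb => ?_)) (kap_int hx).ge
  by_cases hb' : b ∈ G
  · simpa [hb'] using hb hb'
  · beta_reduce
    rw [Set.indicator_of_notMem hb', zero_mul]
    exact F_nonneg (Set.indicator_nonneg fun _ _ => zero_le_one) b 1 0

lemma kap_zero (h : Small d ρ) : 1 / 2 ≤ (kap d ρ).real {0} := by
  have hG : MeasurableSet {b : Bl d | ∑ t, (b.1 (edge 0 t) : ℝ≥0∞) ^ 2 < 1} :=
    measurableSet_lt (by fun_prop) measurable_const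
  refine le_trans ?_ (kap_ge hG (c := 1) (.of_forall fun b hb => ?_))
  · have h1 := mul_meas_ge_le_lintegral (μ := bl d ρ)
      (f := fun b => ∑ t, (b.1 (edge 0 t) : ℝ≥0∞) ^ 2) (by fun_prop) 1
    have h2 : ∀ e, ∫⁻ b, (b.1 e : ℝ≥0∞) ^ 2 ∂bl d ρ = m2 ρ := fun e => by simpa using prodK {e}
    rw [lintegral_finsetSum _ (by fun_prop), one_mul] at h1
    simp only [h2, sum_const, card_univ, Fintype.card_prod, Fintype.card_fin, Fintype.card_bool,
      nsmul_eq_mul] at h1
    have h3 := ENNReal.toReal_mono (by simp) (h1.trans (le_trans (by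
      push_cast; rw [mul_comm (d : ℝ≥0∞)]; gcongr
      exact le_mul_of_one_le_left bot_le (by norm_num)) h.m))
    have h4 := probReal_compl_eq_one_sub (μ := bl d ρ) hG
    simp only [Set.compl_ofPred, not_lt] at h4
    rw [← Measure.real, h4] at h3
    norm_num at h3 ⊢
    linarith
  · rw [F_none]
    · simp
    rintro ⟨a, ha⟩
    obtain ⟨t, ht⟩ := ha.1.1.ex
    refine not_le.2 hb (le_trans ?_ (single_le_sum (f := fun t => (b.1 (edge 0 t) : ℝ≥0∞) ^ 2)
      (fun _ _ => bot_le) (mem_univ t)))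
    exact one_le_pow₀ (by rw [ht]; exact_mod_cast ha.1.2.1.trans_le' (Nat.zero_le _))

/-- only the edge `(0, i)` rings near it -/
def Gi (i : Fin d) : Set (Bl d) := Prod.fst ⁻¹' Set.pi
  (univ.image (edge 0) ∪ univ.image (edge (Pi.single i 1)) : Finset _)
    fun e => {if e = (0, i) then 1 else 0}

lemma meas_Gi (i : Fin d) : MeasurableSet (Gi i) :=
  measurable_fst (.pi (countable_toSet _) fun _ _ => measurableSet_singleton _)

lemma Gi_pos (h : Small d ρ) : ∃ c : ℝ, 0 < c ∧ c ≤ 1 / 4 ∧ ∀ i, 4 * c ≤ (bl d ρ).real (Gi i) := by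
  have h1 : ∀ i, 0 < (bl d ρ).real (Gi i) := fun i => by
    refine ENNReal.toReal_pos ?_ (measure_ne_top _ _)
    rw [Gi, measurePreserving_fst.measure_preimage (MeasurableSet.pi (countable_toSet _)
      fun _ _ => measurableSet_singleton _).nullMeasurableSet,
      Measure.infinitePi_pi _ fun _ _ => measurableSet_singleton _]
    refine prod_ne_zero_iff.2 fun e _ => ?_
    split_ifs
    exacts [h.h1, h.h0]
  refine ⟨(∏ i, (bl d ρ).real (Gi i)) / 4, div_pos (prod_pos fun i _ => h1 i) four_pos, ?_,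
    fun i => ?_⟩
  · gcongr; exact prod_le_one (fun i _ => (h1 i).le) fun _ _ => measureReal_le_one
  · rw [mul_div_cancel₀ _ four_ne_zero, ← mul_prod_erase _ _ (mem_univ i)]
    exact mul_le_of_le_one_right (h1 i).le
      (prod_le_one (fun i _ => (h1 i).le) fun _ _ => measureReal_le_one)

lemma Gi_F {b : Bl d} (hb : Good b) {i : Fin d} (h : b ∈ Gi i) {u : Vx d → ℝ} (hu : Bd u) :
    F u b 1 0 = (u 0 + u (Pi.single i 1)) / 2 := by
  refine hb.F_one (by simpa using h (0, i) (by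
    simp only [coe_union, coe_image, Set.mem_union]; exact .inl ⟨(i, true), by simp, rfl⟩))
    (fun e he hi => ?_) hu
  simpa [he] using h e (by simpa using hi.imp Inc.ex Inc.ex)

lemma single_ne (i : Fin d) : (Pi.single i 1 : Vx d) ≠ 0 := fun h => by simpa using congrFun h i

lemma kap_e (h : Small d ρ) {c : ℝ} {i : Fin d} (hc : 4 * c ≤ (bl d ρ).real (Gi i)) :
    2 * c ≤ (kap d ρ).real {-Pi.single i 1} := by
  have h1 := kap_ge (meas_Gi i) (x := Pi.single i 1) (c := 1 / 2) ((good_ae h).mono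
    fun b hb hG => by rw [Gi_F hb hG (.ind (measurableSet_singleton _))]; simp [(single_ne i).symm])
  rw [← kap_sym, map_measureReal_apply .of_discrete (measurableSet_singleton _),
    show Neg.neg ⁻¹' {-Pi.single i 1} = {(Pi.single i 1 : Vx d)} by ext; simp]
  linarith

/-- translation of fields -/
def sh (y : Vx d) (φ : Vx d → ℝ) : Vx d → ℝ := fun v => φ (v + y)

/-- clipping -/
def cl (M : ℝ) (φ : Vx d → ℝ) : Vx d → ℝ := fun v => max (-M) (min M (φ v))

/-- clipped value at the origin -/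
def ev (M : ℝ) (φ : Vx d → ℝ) : ℝ := cl M φ 0

/-- one block of the dynamics -/
noncomputable def T (M : ℝ) (z : (Vx d → ℝ) × Bl d) : Vx d → ℝ := fun v => F (cl M z.1) z.2 1 v

/-- joint translation -/
def Sh (y : Vx d) (z : (Vx d → ℝ) × Bl d) : (Vx d → ℝ) × Bl d := (sh y z.1, rb (tr y) z.2)

variable {M : ℝ} {lam : Measure (Vx d → ℝ)} [IsProbabilityMeasure lam]

lemma meas_sh (y : Vx d) : Measurable (sh y) := by unfold sh; fun_prop

lemma act_sh (h : ∀ y, lam.map (sh y) = lam) : Act lam sh :=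
  ⟨fun y => ⟨meas_sh y, h y⟩, fun x y φ => by funext v; simp [sh, add_assoc],
    fun φ => by funext v; simp [sh]⟩

lemma act_Sh (h : Act lam sh) : Act (lam.prod (bl d ρ)) Sh :=
  ⟨fun y => (h.mp y).prod (rb_mp _), fun x y z => Prod.ext (h.add _ _ _)
    (by simp [Sh, rb, tr, Prod.map, add_assoc]), fun z => Prod.ext (h.zero _)
    (by simp [Sh, rb, tr, Prod.map])⟩

lemma cl_le (hM : 0 ≤ M) (φ : Vx d → ℝ) (v : Vx d) : |cl M φ v| ≤ M :=
  abs_le.2 ⟨le_max_left _ _, max_le (by linarith) (min_le_left _ _)⟩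

lemma cl_eq {φ : Vx d → ℝ} (h : ∀ v, |φ v| ≤ M) : cl M φ = φ := funext fun v => by
  rw [cl, min_eq_right (abs_le.1 (h v)).2, max_eq_right (abs_le.1 (h v)).1]

lemma bd_cl (hM : 0 ≤ M) (φ : Vx d → ℝ) : Bd (cl M φ) := ⟨.of_discrete, M, cl_le hM φ⟩

lemma bd_cl' (hM : 0 ≤ M) : Bd fun z : (Vx d → ℝ) × Vx d => cl M z.1 z.2 :=
  ⟨measurable_from_prod_countable_left fun v => by unfold cl; fun_prop, M, fun _ => cl_le hM _ _⟩

lemma bd_at (hM : 0 ≤ M) (v : Vx d) : Bd fun φ => cl M φ v :=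
  (bd_cl' hM).comp (measurable_id.prodMk measurable_const)

lemma bd_ev (hM : 0 ≤ M) : Bd (ev (d := d) M) := bd_at hM 0

lemma bd_F (hM : 0 ≤ M) {s : (Vx d → ℝ) × Bl d → ℝ} (hs : Measurable s) (v : Vx d) :
    Bd fun z : (Vx d → ℝ) × Bl d => F (cl M z.1) z.2 (s z) v :=
  Bd.integral (ψ := fun w : ((Vx d → ℝ) × Bl d) × (ℕ → Bool) =>
    cl M w.1.1 (X w.1.2 w.2 (s w.1) v)) ((bd_cl' hM).comp (measurable_fst.fst.prodMk
      (meas_X measurable_fst.snd measurable_snd (hs.comp measurable_fst) measurable_const))) coins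

lemma meas_T (hM : 0 ≤ M) : Measurable (T (d := d) M) :=
  measurable_pi_lambda _ fun v => (bd_F hM measurable_const v).1

lemma F_le (hM : 0 ≤ M) (φ : Vx d → ℝ) (b : Bl d) (s : ℝ) (v : Vx d) : |F (cl M φ) b s v| ≤ M := by
  simpa using F_osc (bd_cl hM φ) (Cl_self b.1 v) (x := 0) (fun y _ => by simpa using cl_le hM φ y) s

lemma ev_T (hM : 0 ≤ M) (z : (Vx d → ℝ) × Bl d) : ev M (T M z) = F (cl M z.1) z.2 1 0 := by
  rw [ev, cl_eq (φ := T M z) fun v => F_le hM _ _ _ v]; rfl

lemma F_tr (y : Vx d) (u : Vx d → ℝ) (b : Bl d) (s : ℝ) (v : Vx d) :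
    F (sh y u) (rb (tr y) b) s v = F u b s (v + y) := by simp only [F, sh, X_tr]

lemma T_sh (y : Vx d) (z : (Vx d → ℝ) × Bl d) : T M (Sh y z) = sh y (T M z) :=
  funext fun v => F_tr y (cl M z.1) z.2 1 v

lemma act_T (hM : 0 ≤ M) (h : Act lam sh) : Act ((lam.prod (bl d ρ)).map (T M)) sh := by
  have := Measure.isProbabilityMeasure_map (μ := lam.prod (bl d ρ)) (meas_T hM).aemeasurable
  refine act_sh fun y => ?_
  conv_rhs => rw [← ((act_Sh h).mp y).map_eq]
  rw [Measure.map_map (meas_sh y) (meas_T hM),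
    Measure.map_map (meas_T hM) ((act_Sh (ρ := ρ) h).mp y).measurable]
  congr 1
  exact funext fun z => (T_sh y z).symm

/-- energy -/
noncomputable def En (M : ℝ) (lam : Measure (Vx d → ℝ)) : ℝ :=
  ∑ i, N lam fun φ => cl M φ (Pi.single i 1) - cl M φ 0

lemma N_sub_le {Ω : Type*} [MeasurableSpace Ω] {P : Measure Ω} [IsProbabilityMeasure P]
    {ψ χ : Ω → ℝ} (h : Bd ψ) (h' : Bd χ) : N P (fun ω => ψ ω - χ ω) ≤ 2 * N P ψ + 2 * N P χ := by
  have h1 := (Bd.const 2).mul h.sq
  have h2 := (Bd.const 2).mul h'.sq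
  rw [N, N, N, ← integral_const_mul, ← integral_const_mul, ← integral_add (h1.int P) (h2.int P)]
  exact integral_mono ((h.sub h').sq.int P) ((h1.add h2).int P) fun ω => by
    nlinarith [sq_nonneg (ψ ω + χ ω)]

lemma path_N (hM : 0 ≤ M) (h : Act lam sh) : ∀ l : List (Fin d × Bool),
    N lam (fun φ => cl M φ (pos 0 l) - cl M φ 0) ≤ 4 ^ l.length * En M lam
  | [] => by
    have : 0 ≤ En M lam := sum_nonneg fun i _ => N_nonneg _ _
    simpa [N, pos] using this
  | t :: l => by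
    have h1 := path_N hM h l
    have h2 := N_sub_le (P := lam) ((bd_at hM (pos 0 l)).sub (bd_at hM 0))
      ((bd_at hM (pos 0 l)).sub (bd_at hM (pos 0 (t :: l))))
    have h3 : N lam (fun φ => cl M φ (pos 0 l) - cl M φ (pos 0 (t :: l))) ≤ En M lam := by
      refine le_trans (le_of_eq ?_) (single_le_sum (fun i _ => N_nonneg _ _) (mem_univ t.1))
      rw [N, N, ← int_shift h ((bd_at hM (Pi.single t.1 1)).sub (bd_at hM 0)).sq
        (edge (pos 0 l) t).1]
      refine integral_congr_ae (.of_forall fun φ => ?_)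
      obtain ⟨i, _ | _⟩ := t <;> simp [pos, oth, edge, hi, cl, sh, add_comm] <;> ring
    have h4 : (1 : ℝ) ≤ 4 ^ l.length := one_le_pow₀ (by norm_num)
    have h5 := (N_nonneg _ _).trans h3
    simp only [sub_sub_sub_cancel_left] at h2
    rw [List.length_cons, pow_succ]
    nlinarith

/-- oscillation bound on the cluster of the origin -/
noncomputable def O (M : ℝ) (z : (Vx d → ℝ) × Bl d) : ℝ≥0∞ :=
  ∑' l, ENNReal.ofReal ((cl M z.1 (pos 0 l) - cl M z.1 0) ^ 2) * op z.2.1 0 l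

lemma meas_O (hM : 0 ≤ M) : Measurable (O (d := d) M) :=
  .tsum fun l => ((((bd_at hM _).sub (bd_at hM 0)).sq.1.comp measurable_fst).ennreal_ofReal).mul
    ((meas_op 0 l).comp measurable_snd.fst)

lemma O_int (hM : 0 ≤ M) (h : Act lam sh) (hρ : Small d ρ) (t : Finset (Ed d)) :
    ∫⁻ z, (∏ e ∈ t, (z.2.1 e : ℝ≥0∞) ^ 2) * O M z ∂lam.prod (bl d ρ) ≤
      ENNReal.ofReal (2 * En M lam) := by
  have h1 := fun l => ((bd_at hM (pos 0 l)).sub (bd_at hM (0 : Vx d))).sq
  have h2 : ∀ l, Measurable fun b : Bl d => (∏ e ∈ t, (b.1 e : ℝ≥0∞) ^ 2) * op b.1 0 l :=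
    fun l => Measurable.mul (by fun_prop) ((meas_op 0 l).comp measurable_fst)
  simp only [O, ← ENNReal.tsum_mul_left, mul_left_comm (∏ e ∈ t, _)]
  rw [lintegral_tsum fun l => by exact (((h1 l).1.comp measurable_fst).ennreal_ofReal.mul
    ((h2 l).comp measurable_snd)).aemeasurable, ENNReal.ofReal_mul two_pos.le,
    ENNReal.ofReal_ofNat]
  refine le_trans (ENNReal.tsum_le_tsum fun l => ?_) (ENNReal.tsum_mul_right.trans_le
    (mul_le_mul_left (sum_list hρ.m) _))
  rw [lintegral_prod_mul (h1 l).1.ennreal_ofReal.aemeasurable (h2 l).aemeasurable,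
    ← ofReal_integral_eq_lintegral_ofReal ((h1 l).int _) (.of_forall fun _ => sq_nonneg _)]
  refine (mul_le_mul' (ENNReal.ofReal_le_ofReal (path_N hM h l)) (opn_le hρ t 0 l)).trans_eq ?_
  rw [ENNReal.ofReal_mul (by positivity), ENNReal.ofReal_pow (by norm_num), ENNReal.ofReal_ofNat]
  ring

lemma O_sq (hM : 0 ≤ M) (z : (Vx d → ℝ) × Bl d) {x : ℝ} {k : ℕ}
    (h : ∀ r, 0 ≤ r → (∀ y ∈ Cl z.2.1 0, |cl M z.1 y - cl M z.1 0| ≤ r) → |x| ≤ k * r) :
    ENNReal.ofReal (x ^ 2) ≤ (k : ℝ≥0∞) ^ 2 * O M z := by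
  by_cases hO : O M z = ⊤
  · rcases Nat.eq_zero_or_pos k with rfl | hk
    · have := h (M + M) (by linarith) fun y _ => (abs_sub _ _).trans
        (add_le_add (cl_le hM _ _) (cl_le hM _ _))
      simp_all
    · rw [hO, ENNReal.mul_top (by simp; omega)]; exact le_top
  · have h1 := h √(O M z).toReal (Real.sqrt_nonneg _) (by
      rintro _ ⟨l, hl, rfl⟩
      refine Real.abs_le_sqrt ((ENNReal.ofReal_le_iff_le_toReal hO).1 ?_)
      refine le_trans ?_ (ENNReal.le_tsum l)
      simp [op, show Opn z.2.1 0 l from hl])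
    rw [← ENNReal.ofReal_toReal hO, ← ENNReal.ofReal_natCast, ← ENNReal.ofReal_pow (by positivity),
      ← ENNReal.ofReal_mul (by positivity)]
    refine ENNReal.ofReal_le_ofReal ?_
    rw [← Real.sq_sqrt (x := (O M z).toReal) ENNReal.toReal_nonneg, ← mul_pow]
    exact sq_le_sq' (abs_le.1 h1).1 (abs_le.1 h1).2

lemma dissip (hM : 0 ≤ M) (h : Act lam sh) (hρ : Small d ρ) {c : ℝ}
    (hc : ∀ i, 4 * c ≤ (bl d ρ).real (Gi i)) :
    d * N ((lam.prod (bl d ρ)).map (T M)) (ev M) + c * En M lam ≤ d * N lam (ev M) := by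
  have h0 : ∀ x : ℝ, d * x = ∑ _i : Fin d, x := fun x => by simp
  rw [h0, h0 (N lam _), En, mul_sum, ← sum_add_distrib]
  refine sum_le_sum fun i _ => ?_
  have h1 := (bd_F (d := d) hM (s := fun _ => 1) measurable_const 0).sq
  have h2 := (Bd.const c).mul ((bd_at hM (Pi.single i 1)).sub (bd_at hM (0 : Vx d))).sq
  have h3 := h1.integral (bl d ρ)
  rw [N, N, N, ← int_Q (κ := kap d ρ) h (bd_ev hM).sq, integral_map (meas_T hM).aemeasurable
    (bd_ev hM).sq.1.aestronglyMeasurable]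
  simp only [ev_T hM]
  rw [integral_prod _ (h1.int _), ← integral_const_mul, ← integral_add (h3.int _) (h2.int _)]
  refine integral_mono ((h3.add h2).int _) (((bd_ev hM).sq.q meas_sh).int _) fun φ => ?_
  have hu := bd_cl hM φ
  have h4 := (Bd.ind (meas_Gi i)).mul (.const ((cl M φ (Pi.single i 1) - cl M φ 0) ^ 2 / 4))
  have h5 := integral_mono_ae (μ := bl d ρ) ((hu.F.sq.add h4).int _) (hu.sq.F.int _)
    ((good_ae hρ).mono fun b hb => ?_)
  · rw [integral_add (hu.F.sq.int _) (h4.int _), integral_mul_const, ← kap_int hu.sq,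
      integral_indicator (meas_Gi i)] at h5
    simp only [integral_const, smul_eq_mul, mul_one, measureReal_restrict_apply_univ] at h5
    simp only [Q, ev, cl, sh, zero_add] at h5 ⊢
    nlinarith [mul_le_mul_of_nonneg_right (hc i) (sq_nonneg (max (-M) (min M (φ (Pi.single i 1))) -
      max (-M) (min M (φ 0))))]
  · by_cases hG : b ∈ Gi i
    · simp only [Set.indicator_of_mem hG, Gi_F hb hG hu, Gi_F hb hG hu.sq]
      nlinarith
    · have h6 := sq_le (hu.X b 1 0) coins (F (cl M φ) b 1 0)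
      have h7 : 0 ≤ ∫ c, (cl M φ (X b c 1 0) - F (cl M φ) b 1 0) ^ 2 ∂coins :=
        integral_nonneg fun _ => sq_nonneg _
      simp only [Set.indicator_of_notMem hG, F] at h6 h7 ⊢
      nlinarith

end Pool.Agent.H12.Avg
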