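import Pool.Agent.H12.Avg3

namespace Pool.Agent.H12.Avg

open MeasureTheory ProbabilityTheory Filter Topology Finset
open scoped unitInterval ENNReal

set_option linter.unusedSectionVars false

variable {d : ℕ} {ρ : Measure ℕ} [IsProbabilityMeasure ρ] {M : ℝ}
  {lam : Measure (Vx d → ℝ)} [IsProbabilityMeasure lam]

/-- truncated flux -/
noncomputable def J (M : ℝ) (L : ℕ) (i : Fin d) (z : (Vx d → ℝ) × Bl d) : ℝ :=
  flux (cl M z.1) z.2 (0, i) L

lemma bd_J (hM : 0 ≤ M) (L : ℕ) (i : Fin d) : Bd (J M L i) := by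
  unfold J flux
  refine Bd.sum _ fun j => ?_
  have h1 := ((Bd.ind (s := {z : (Vx d → ℝ) × Bl d | j < z.2.1 (0, i)}) (measurableSet_lt
    measurable_const (by fun_prop))).mul (((bd_F hM (s := fun z => z.2.2 ((0, i), j)) (by fun_prop)
      (hi (0, i))).sub (bd_F hM (s := fun z => z.2.2 ((0, i), j)) (by fun_prop) 0)).mul
        (.const 2⁻¹)))
  convert h1 using 2 with z
  by_cases h : j < z.2.1 (0, i) <;> simp [h, div_eq_mul_inv]

lemma J_sh (L : ℕ) (i : Fin d) (y : Vx d) (z : (Vx d → ℝ) × Bl d) :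
    J M L i (Sh y z) = flux (cl M z.1) z.2 (y, i) L := by
  unfold J flux
  refine sum_congr rfl fun j _ => ?_
  have h1 := fun s v => F_tr y (cl M z.1) z.2 s v
  have h2 : cl M (sh y z.1) = sh y (cl M z.1) := rfl
  simp only [Sh, h2, h1]
  simp [rb, tr, hi, add_comm]

lemma N_J (hM : 0 ≤ M) (h : Act lam sh) (hρ : Small d ρ) (L : ℕ) (i : Fin d) :
    N (lam.prod (bl d ρ)) (J M L i) ≤ 2 * En M lam := by
  have h0 : 0 ≤ En M lam := sum_nonneg fun i _ => N_nonneg _ _
  rw [← ENNReal.ofReal_le_ofReal_iff (by positivity), N, ofReal_integral_eq_lintegral_ofReal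
    ((bd_J hM L i).sq.int _) (.of_forall fun _ => sq_nonneg _)]
  refine (lintegral_mono fun z => ?_).trans (O_int hM h hρ {(0, i)})
  rw [prod_singleton]
  exact O_sq hM z fun r hr h => flux_le (bd_cl hM _) hr h i L

lemma N_sum_le {Ω : Type*} [MeasurableSpace Ω] {P : Measure Ω} [IsProbabilityMeasure P]
    {ψ : Fin d → Ω → ℝ} (h : ∀ i, Bd (ψ i)) : N P (fun ω => ∑ i, ψ i ω) ≤ d * ∑ i, N P (ψ i) := by
  simp only [N]
  rw [← integral_finsetSum _ fun i _ => (h i).sq.int P, ← integral_const_mul]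
  exact integral_mono ((Bd.sum _ h).sq.int P) (((Bd.const _).mul (.sum _ fun i => (h i).sq)).int P)
    fun ω => by simpa using sq_sum_le_card_mul_sum_sq (s := univ) (f := fun i => ψ i ω)

lemma eta_sum (hM : 0 ≤ M) (h : Act lam sh) (hρ : Small d ρ) {c : ℝ} (hc0 : 0 < c)
    (hc1 : c ≤ 1 / 4) (hc : ∀ i, 4 * c ≤ (bl d ρ).real (Gi i)) (n : ℕ) :
    c * ∑ m ∈ range n, N (lam.prod (bl d ρ)) ((Q (kap d ρ) Sh)^[m] fun z =>
      ev M (T M z) - ev M z.1) ≤ 4 * d ^ 2 * En M lam := by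
  have hS := act_Sh (ρ := ρ) h
  have hm := fun y => (hS.mp y).measurable
  have hη : Bd fun z : (Vx d → ℝ) × Bl d => ev M (T M z) - ev M z.1 :=
    ((bd_ev hM).comp (meas_T hM)).sub ((bd_ev hM).comp measurable_fst)
  have hg := fun L (i : Fin d) => ((bd_J hM L i).comp (hm (-Pi.single i 1))).sub (bd_J hM L i)
  have hζ := fun L => Bd.sum univ (hg L)
  have h1 : Tendsto (fun L => N (lam.prod (bl d ρ)) fun z => ev M (T M z) - ev M z.1 +
      ∑ i, (J M L i (Sh (-Pi.single i 1) z) - J M L i z)) atTop (𝓝 0) := by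
    have hK : ∀ e, MemLp (fun z : (Vx d → ℝ) × Bl d => (z.2.1 e : ℝ)) 2 (lam.prod (bl d ρ)) := by
      intro e
      refine (memLp_two_iff_integrable_sq (Measurable.aestronglyMeasurable (by fun_prop))).2
        ⟨Measurable.aestronglyMeasurable (by fun_prop), ?_⟩
      have := measurePreserving_snd (μ := lam) (ν := bl d ρ) |>.lintegral_comp
        (f := fun b => ∏ e ∈ {e}, (b.1 e : ℝ≥0∞) ^ 2) (by fun_prop)
      rw [prodK] at this
      simp only [prod_singleton, card_singleton, pow_one] at this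
      simpa [HasFiniteIntegral, this] using hρ.m1.trans_lt ENNReal.one_lt_top
    have hB := ((memLp_const (M + M)).add (memLp_finsetSum univ fun (i : Fin d) _ =>
      ((hK (-Pi.single i 1, i)).mul_const M).add ((hK (0, i)).mul_const M))).integrable_sq
    have hf : ∀ (z : (Vx d → ℝ) × Bl d) e L, |flux (cl M z.1) z.2 e L| ≤ z.2.1 e * M := by
      intro z e L
      refine (abs_sum_le_sum_abs _ _).trans ((sum_le_sum
        (g := fun j => if j < z.2.1 e then M else 0) fun j _ => ?_).trans ?_)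
      · split_ifs with hj
        · have h1 := abs_le.1 (F_le hM z.1 z.2 (z.2.2 (e, j)) (hi e))
          have h2 := abs_le.1 (F_le hM z.1 z.2 (z.2.2 (e, j)) e.1)
          rw [abs_le]; constructor <;> linarith
        · simp
      · rw [← sum_filter, sum_const, nsmul_eq_mul]
        gcongr
        exact (card_le_card (t := range (z.2.1 e)) fun j hj => by
          simpa using (mem_filter.1 hj).2).trans (by simp)
    have := tendsto_integral_of_dominated_convergence (f := fun _ => (0 : ℝ)) _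
      (fun L => (hη.add (hζ L)).sq.1.aestronglyMeasurable) hB (fun L => .of_forall fun z => ?_) ?_
    · simpa [N] using this
    · rw [Real.norm_eq_abs, abs_pow]
      refine pow_le_pow_left₀ (abs_nonneg _) ((abs_add_le _ _).trans (add_le_add ((abs_sub _ _).trans
        (add_le_add (cl_le hM _ _) (cl_le hM _ _))) ((abs_sum_le_sum_abs _ _).trans
          (sum_le_sum fun i _ => (abs_sub _ _).trans (add_le_add ?_ (hf z _ L)))))) 2
      rw [J_sh]; exact hf z _ L
    · filter_upwards [measurePreserving_snd.quasiMeasurePreserving.ae (good_ae hρ)] with z hz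
      refine tendsto_const_nhds.congr' ?_
      filter_upwards [eventually_ge_atTop (univ.sup fun t => z.2.1 (edge 0 t))] with L hL
      have := hz.div (bd_cl hM z.1) fun t => (le_sup (f := fun t => z.2.1 (edge 0 t))
        (mem_univ t)).trans hL
      simp only [J_sh, ev_T hM]
      simp only [J, ev, this]
      simp
  have h2 := (h1.const_mul (c * (n * 2))).add_const (4 * d ^ 2 * En M lam)
  rw [mul_zero, zero_add] at h2
  refine ge_of_tendsto' h2 fun L => ?_
  have h3 : ∀ m, N (lam.prod (bl d ρ)) ((Q (kap d ρ) Sh)^[m] fun z => ev M (T M z) - ev M z.1) ≤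
      2 * N (lam.prod (bl d ρ)) (fun z => ev M (T M z) - ev M z.1 +
      ∑ i, (J M L i (Sh (-Pi.single i 1) z) - J M L i z)) + 2 * d * ∑ i, N (lam.prod (bl d ρ))
        ((Q (kap d ρ) Sh)^[m] fun z => J M L i (Sh (-Pi.single i 1) z) - J M L i z) := by
    intro m
    have e1 := N_sub_le (P := lam.prod (bl d ρ)) ((hη.add (hζ L)).qi (κ := kap d ρ) hm m)
      ((hζ L).qi (κ := kap d ρ) hm m)
    rw [← Qi_sub hm (hη.add (hζ L)) (hζ L), Qi_sum hm univ (hg L)] at e1
    simp only [add_sub_cancel_right] at e1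
    linarith [N_Qi_le (κ := kap d ρ) hS (hη.add (hζ L)) m,
      N_sum_le (P := lam.prod (bl d ρ)) fun i => (hg L i).qi (κ := kap d ρ) hm m]
  refine (mul_le_mul_of_nonneg_left (sum_le_sum fun m _ => h3 m) hc0.le).trans ?_
  rw [sum_add_distrib, sum_const, card_range, nsmul_eq_mul, ← mul_sum, sum_comm]
  have h4 := sum_le_card_nsmul univ _ _ fun (i : Fin d) _ => (sum_grad hS (bd_J hM L i)
    (neg_ne_zero.2 (single_ne i)) (by linarith [kap_zero hρ]) (kap_e hρ (hc i)) hc0.le n).trans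
      (N_J hM h hρ L i)
  rw [← mul_sum, card_univ, Fintype.card_fin, nsmul_eq_mul] at h4
  nlinarith [mul_le_mul_of_nonneg_left h4 (Nat.cast_nonneg (α := ℝ) d)]

lemma Qi_comp {Ω Ω' : Type*} {S : Vx d → Ω → Ω} {S' : Vx d → Ω' → Ω'} {g : Ω → Ω'}
    (h : ∀ y ω, g (S y ω) = S' y (g ω)) (κ : Measure (Vx d)) (ψ : Ω' → ℝ) (m : ℕ) :
    (Q κ S)^[m] (fun ω => ψ (g ω)) = fun ω => (Q κ S')^[m] ψ (g ω) := by
  induction m with
  | zero => rfl
  | succ m ih => funext ω; simp only [Function.iterate_succ_apply', ih, Q, h]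

lemma mean1 (hM : 0 ≤ M) (m : ℕ) (φ : Vx d → ℝ) :
    ∫ b, (Q (kap d ρ) sh)^[m] (ev M) (T M (φ, b)) ∂bl d ρ = (Q (kap d ρ) sh)^[m + 1] (ev M) φ := by
  induction m generalizing φ with
  | zero =>
    simp only [Function.iterate_zero, id, ev_T hM, ← kap_int (bd_cl hM φ)]
    simp [Q, ev, cl, sh]
  | succ m ih =>
    have h1 := ((bd_ev hM).qi (κ := kap d ρ) meas_sh m)
    have h2 : Measurable fun b => T M (φ, b) := (meas_T hM).comp measurable_prodMk_left
    simp only [Function.iterate_succ_apply' _ (m + 1), Function.iterate_succ_apply' _ m (ev M), Q]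
    rw [integral_integral_swap (((h1.act meas_sh).comp (h2.prodMap measurable_id)).int _)]
    congr 1
    funext y
    have h3 := ih (sh y φ)
    rw [Function.iterate_succ_apply'] at h3
    refine Eq.trans ?_ h3
    conv_rhs => rw [← (rb_mp (ρ := ρ) (tr y)).map_eq]
    rw [integral_map (rb_mp (ρ := ρ) (tr y)).measurable.aemeasurable
      (h1.comp (g := fun b => T M (sh y φ, b))
        ((meas_T hM).comp measurable_prodMk_left)).1.aestronglyMeasurable]
    simp only [← T_sh]; rfl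

/-- law of the clocks -/
noncomputable abbrev clk (d : ℕ) (ρ : Measure ℕ) : Measure (ℕ → Bl d) :=
  Measure.infinitePi fun _ => bl d ρ

/-- one step of the chain -/
noncomputable def Psi (M : ℝ) (ω : (Vx d → ℝ) × (ℕ → Bl d)) : (Vx d → ℝ) × (ℕ → Bl d) :=
  (T M (ω.1, ω.2 0), fun k => ω.2 (k + 1))

lemma meas_Psi (hM : 0 ≤ M) : Measurable (Psi (d := d) M) :=
  ((meas_T hM).comp (by fun_prop)).prodMk (by fun_prop)

lemma mean (hM : 0 ≤ M) (n : ℕ) (g : Vx d → ℝ) :
    ∫ z, ev M ((Psi M)^[n] (g, z)).1 ∂clk d ρ = (Q (kap d ρ) sh)^[n] (ev M) g := by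
  induction n generalizing g with
  | zero => simp
  | succ n ih =>
    have h1 := split_mp (bl d ρ)
    have h2 : Bd fun z => ev M ((Psi M)^[n + 1] (g, z)).1 :=
      (bd_ev hM).comp (((meas_Psi (d := d) hM).iterate (n + 1)).fst.comp measurable_prodMk_left)
    rw [clk, ← h1.map_eq, integral_map h1.measurable.aemeasurable h2.1.aestronglyMeasurable,
      integral_prod _ ((h2.comp h1.measurable).int _), ← mean1 hM]
    exact integral_congr_ae (.of_forall fun b => ih (T M (g, b)))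

lemma phi_mp : MeasurePreserving (fun w : ((Vx d → ℝ) × Bl d) × (ℕ → Bl d) => (w.1.1,
    fun n => Nat.casesOn (motive := fun _ => Bl d) n w.1.2 w.2))
    ((lam.prod (bl d ρ)).prod (clk d ρ)) (lam.prod (clk d ρ)) :=
  ((MeasurePreserving.id lam).prod (split_mp (bl d ρ))).comp (measurePreserving_prodAssoc _ _ _)

lemma T_mp (hM : 0 ≤ M) : MeasurePreserving (Prod.map (T M) id) ((lam.prod (bl d ρ)).prod (clk d ρ))
    (((lam.prod (bl d ρ)).map (T M)).prod (clk d ρ)) :=
  MeasurePreserving.prod ⟨meas_T hM, rfl⟩ (.id _)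

lemma Psi_mp (hM : 0 ≤ M) : MeasurePreserving (Psi M) (lam.prod (clk d ρ))
    (((lam.prod (bl d ρ)).map (T M)).prod (clk d ρ)) :=
  ⟨meas_Psi hM, by
    rw [← phi_mp.map_eq, Measure.map_map (meas_Psi hM) (phi_mp (ρ := ρ) (lam := lam)).measurable]
    exact (T_mp hM).map_eq⟩

/-- fluctuation -/
noncomputable def Y (M : ℝ) (ρ : Measure ℕ) (n : ℕ) (ω : (Vx d → ℝ) × (ℕ → Bl d)) : ℝ :=
  ev M ((Psi M)^[n] ω).1 - (Q (kap d ρ) sh)^[n] (ev M) ω.1

lemma bd_Y (hM : 0 ≤ M) (n : ℕ) : Bd (Y (d := d) M ρ n) :=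
  ((bd_ev hM).comp ((meas_Psi hM).iterate n).fst).sub
    (((bd_ev hM).qi meas_sh n).comp measurable_fst)

lemma Y_succ (hM : 0 ≤ M) (n : ℕ) : N (lam.prod (clk d ρ)) (Y M ρ (n + 1)) ≤
    N (((lam.prod (bl d ρ)).map (T M)).prod (clk d ρ)) (Y M ρ n) + N (lam.prod (bl d ρ))
      ((Q (kap d ρ) Sh)^[n] fun z => ev M (T M z) - ev M z.1) := by
  have h1 := phi_mp (ρ := ρ) (lam := lam)
  have h2 := T_mp (ρ := ρ) (lam := lam) hM
  have h3 := fun n => (bd_Y (d := d) (ρ := ρ) hM n).sq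
  have h4 := fun n => (bd_ev (d := d) hM).qi (κ := kap d ρ) meas_sh n
  have h5 := fun k => (((h4 n).comp (meas_T hM)).sub ((h4 k).comp measurable_fst)).sq
  have h6 : ∫ z, ((Q (kap d ρ) sh)^[n] (ev M) (T M z) - (Q (kap d ρ) sh)^[n + 1] (ev M) z.1) ^ 2
      ∂lam.prod (bl d ρ) ≤ N (lam.prod (bl d ρ))
        ((Q (kap d ρ) Sh)^[n] fun z => ev M (T M z) - ev M z.1) := by
    rw [Qi_sub (S := Sh) (fun y => (meas_sh y).prodMap (rb_mp (ρ := ρ) _).measurable)
      ((bd_ev hM).comp (meas_T hM)) ((bd_ev hM).comp measurable_fst), Qi_comp T_sh,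
      Qi_comp (S' := sh) (g := Prod.fst) fun _ _ => rfl, N, integral_prod _ ((h5 _).int _),
      integral_prod _ ((h5 _).int _)]
    refine integral_mono (((h5 _).integral _).int _) (((h5 _).integral _).int _) fun φ => ?_
    have h7 := fun c => sq_le ((h4 n).comp ((meas_T hM).comp (measurable_prodMk_left (x := φ))))
      (bl d ρ) c
    simp only [Function.comp] at h7
    simp only [h7, mean1 hM]
    nlinarith [sq_nonneg ((Q (kap d ρ) sh)^[n + 1] (ev M) φ - (Q (kap d ρ) sh)^[n] (ev M) φ)]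
  refine le_trans (le_of_eq ?_) (add_le_add le_rfl h6)
  rw [N, N, ← h1.map_eq, ← h2.map_eq, integral_map h1.measurable.aemeasurable
    (h3 _).1.aestronglyMeasurable, integral_map h2.measurable.aemeasurable
    (h3 _).1.aestronglyMeasurable, integral_prod _ (((h3 _).comp h1.measurable).int _),
    integral_prod _ (((h3 _).comp h2.measurable).int _), ← integral_add
      ((((h3 _).comp h2.measurable).integral _).int _) ((h5 _).int _)]
  refine integral_congr_ae (.of_forall fun w => ?_)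
  have h7 := fun c => sq_le ((bd_ev hM).comp (((meas_Psi (d := d) hM).iterate n).fst.comp
    (measurable_prodMk_left (x := T M w)))) (clk d ρ) c
  simp only [Function.comp, mean hM] at h7
  have e1 := h7 ((Q (kap d ρ) sh)^[n + 1] (ev M) w.1)
  have e2 := h7 ((Q (kap d ρ) sh)^[n] (ev M) (T M w))
  show ∫ z, (ev M ((Psi M)^[n] (T M w, z)).1 - (Q (kap d ρ) sh)^[n + 1] (ev M) w.1) ^ 2 ∂clk d ρ =
    ∫ z, (ev M ((Psi M)^[n] (T M w, z)).1 - (Q (kap d ρ) sh)^[n] (ev M) (T M w)) ^ 2 ∂clk d ρ + _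
  rw [e1, e2]; ring

lemma sums (hM : 0 ≤ M) (hρ : Small d ρ) {c : ℝ} (hc0 : 0 < c)
    (hc1 : c ≤ 1 / 4) (hc : ∀ i, 4 * c ≤ (bl d ρ).real (Gi i)) (n : ℕ) :
    ∀ (lam : Measure (Vx d → ℝ)) [IsProbabilityMeasure lam], Act lam sh →
      c ^ 2 * ∑ m ∈ range n, N (lam.prod (clk d ρ)) (Y M ρ m) ≤ 4 * d ^ 3 * N lam (ev M) ∧
      ∑ m ∈ range n, ∫⁻ ω, O M (((Psi M)^[m] ω).1, ((Psi M)^[m] ω).2 0) ∂lam.prod (clk d ρ) ≤
        ENNReal.ofReal (2 * d / c * N lam (ev M)) := by
  induction n with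
  | zero => exact fun lam _ _ => by simp; have := N_nonneg lam (ev M); positivity
  | succ n ih =>
    intro lam _ h
    have := Measure.isProbabilityMeasure_map (μ := lam.prod (bl d ρ)) (meas_T hM).aemeasurable
    obtain ⟨h1, h2⟩ := ih _ (act_T (ρ := ρ) hM h)
    have h3 := dissip hM h hρ hc
    constructor
    · have h4 := eta_sum hM h hρ hc0 hc1 hc n
      have h5 := sum_le_sum fun m (_ : m ∈ range n) => Y_succ (ρ := ρ) (lam := lam) hM m
      rw [sum_range_succ', show N _ (Y M ρ 0) = 0 by simp [N, Y], add_zero]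
      rw [sum_add_distrib] at h5
      nlinarith [mul_le_mul_of_nonneg_left h5 (sq_nonneg c), mul_le_mul_of_nonneg_left h4 hc0.le,
        mul_le_mul_of_nonneg_left h3 (by positivity : (0 : ℝ) ≤ 4 * d ^ 2)]
    · have h4 : ∀ m, Measurable fun ω : (Vx d → ℝ) × (ℕ → Bl d) =>
          O M (((Psi M)^[m] ω).1, ((Psi M)^[m] ω).2 0) := fun m => (meas_O hM).comp
        (((meas_Psi hM).iterate m).fst.prodMk ((measurable_pi_apply 0).comp
          ((meas_Psi hM).iterate m).snd))
      have h5 := ((MeasurePreserving.id lam).prod (measurePreserving_eval_infinitePi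
        (fun _ : ℕ => bl d ρ) 0)).lintegral_comp (meas_O hM)
      have h6 := O_int hM h hρ ∅
      simp only [prod_empty, one_mul] at h6
      simp only [← (Psi_mp hM).lintegral_comp (h4 _)] at h2
      have h7 : 0 ≤ En M lam := sum_nonneg fun i _ => N_nonneg _ _
      have h8 := N_nonneg ((lam.prod (bl d ρ)).map (T M)) (ev M)
      rw [sum_range_succ']
      refine (add_le_add h2 (h5.trans_le h6)).trans ?_
      rw [← ENNReal.ofReal_add (by positivity) (by positivity)]
      refine ENNReal.ofReal_le_ofReal ?_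
      rw [div_mul_eq_mul_div, div_mul_eq_mul_div, div_add' _ _ _ hc0.ne']
      gcongr
      linarith

lemma Psi_snd (n : ℕ) (ω : (Vx d → ℝ) × (ℕ → Bl d)) : ((Psi M)^[n] ω).2 = fun k => ω.2 (k + n) := by
  induction n with
  | zero => rfl
  | succ n ih => rw [Function.iterate_succ_apply', Psi, ih]; funext k; simp [add_assoc, add_comm 1]

theorem main (hM : 0 ≤ M) (hρ : Small d ρ) (h : Act lam sh) : ∀ᵐ ω ∂lam.prod (clk d ρ),
    (∃ L, Tendsto (fun n => ev M ((Psi M)^[n] ω).1) atTop (𝓝 L)) ∧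
    Tendsto (fun n => O M (((Psi M)^[n] ω).1, ω.2 n)) atTop (𝓝 0) := by
  obtain ⟨c, hc0, hc1, hc⟩ := Gi_pos hρ
  have h1 := fun n => sums hM hρ hc0 hc1 hc n lam h
  have h2 : ∀ {f : ℕ → (Vx d → ℝ) × (ℕ → Bl d) → ℝ≥0∞} {C : ℝ}, (∀ n, Measurable (f n)) →
      (∀ n, ∑ m ∈ range n, ∫⁻ ω, f m ω ∂lam.prod (clk d ρ) ≤ ENNReal.ofReal C) →
      ∀ᵐ ω ∂lam.prod (clk d ρ), Tendsto (fun n => f n ω) atTop (𝓝 0) := fun hf hC =>
    (ae_lt_top (.tsum hf) (by
      rw [lintegral_tsum fun n => (hf n).aemeasurable]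
      exact ne_top_of_le_ne_top ENNReal.ofReal_ne_top (ENNReal.tsum_le_of_sum_range_le hC))).mono
        fun ω hω => ENNReal.tendsto_atTop_zero_of_tsum_ne_top hω.ne
  have h3 := h2 (f := fun n ω => ENNReal.ofReal (Y M ρ n ω ^ 2))
    (C := 4 * d ^ 3 * N lam (ev M) / c ^ 2) (fun n => (bd_Y hM n).sq.1.ennreal_ofReal) fun n => by
      rw [sum_congr rfl fun m _ => (ofReal_integral_eq_lintegral_ofReal ((bd_Y hM m).sq.int _)
        (.of_forall fun _ => sq_nonneg _)).symm, ← ENNReal.ofReal_sum_of_nonneg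
          fun m _ => integral_nonneg fun _ => sq_nonneg _]
      exact ENNReal.ofReal_le_ofReal ((le_div_iff₀' (by positivity)).2 (h1 n).1)
  have h4 := h2 (fun m => (meas_O hM).comp (((meas_Psi hM).iterate m).fst.prodMk
    ((measurable_pi_apply 0).comp ((meas_Psi hM).iterate m).snd))) fun n => (h1 n).2
  filter_upwards [h3, h4, measurePreserving_fst.quasiMeasurePreserving.ae
    (stein h kap_sym (kap_zero hρ) (bd_ev hM))] with ω e1 e2 ⟨L, e3⟩
  refine ⟨⟨L, ?_⟩, by simpa [Psi_snd] using e2⟩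
  have e4 := (ENNReal.tendsto_toReal ENNReal.zero_ne_top).comp e1
  simp only [Function.comp_def, ENNReal.toReal_ofReal (sq_nonneg _), ENNReal.toReal_zero] at e4
  have e5 := (tendsto_zero_iff_abs_tendsto_zero _).2 (by
    simpa [Function.comp_def, Real.sqrt_sq_eq_abs] using e4.sqrt)
  simpa [Y] using e5.add e3

end Pool.Agent.H12.Avg
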