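import Pool.Agent.H12.Avg4

namespace Pool.Agent.H12.Avg

open MeasureTheory ProbabilityTheory Filter Topology Finset
open scoped unitInterval ENNReal NNReal

variable {d : ℕ} {M h : ℝ} {z : ℕ → Bl d} {g : Vx d → ℝ} {f : ℝ → Vx d → ℝ}

/-- the clock of `e` rings at time `t` -/
def Ring (h : ℝ) (z : ℕ → Bl d) (e : Ed d) (t : ℝ) : Prop :=
  ∃ k j : ℕ, j < (z k).1 e ∧ t = h * (k + ((z k).2 (e, j) : ℝ))

/-- no ring at `v` during `A` -/
def Quiet (h : ℝ) (z : ℕ → Bl d) (v : Vx d) (A : Set ℝ) : Prop :=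
  ∀ e, Inc e v → ∀ t ∈ A, ¬ Ring h z e t

/-- solutions of the dynamics -/
def Sol (h : ℝ) (z : ℕ → Bl d) (g : Vx d → ℝ) (f : ℝ → Vx d → ℝ) : Prop :=
  f 0 = g ∧ (∀ v s t, 0 ≤ s → s ≤ t → Quiet h z v (Set.Ioc s t) → f t v = f s v) ∧
  ∀ e s t, 0 ≤ s → s < t → Ring h z e t → Quiet h z e.1 (Set.Ioo s t) →
    Quiet h z (hi e) (Set.Ioo s t) →
    f t e.1 = (f s e.1 + f s (hi e)) / 2 ∧ f t (hi e) = (f s e.1 + f s (hi e)) / 2

lemma ring_blk (hh : 0 < h) (hz : ∀ k, Good (z k)) {e : Ed d} {t : ℝ} (hr : Ring h z e t) {k : ℕ}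
    {x y : ℝ} (hx : 0 ≤ x) (hy : y ≤ 1) (h1 : h * (k + x) < t) (h2 : t ≤ h * (k + y)) :
    ∃ j < (z k).1 e, t = h * (k + ((z k).2 (e, j) : ℝ)) ∧ x < (z k).2 (e, j) ∧
      ((z k).2 (e, j) : ℝ) ≤ y := by
  obtain ⟨k', j, hj, rfl⟩ := hr
  have h3 := lt_of_mul_lt_mul_left h1 hh.le
  have h4 := le_of_mul_le_mul_left h2 hh
  have h5 := (hz k').pos (e, j)
  have h6 : k < k' + 1 := by exact_mod_cast (by linarith : (k : ℝ) < k' + 1)
  have h7 : k' < k + 1 := by exact_mod_cast (by linarith : (k' : ℝ) < k + 1)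
  obtain rfl : k = k' := by omega
  exact ⟨j, hj, rfl, by linarith, by linarith⟩

lemma pick_below (A : Finset ℝ) {x u : ℝ} (h : x < u) :
    ∃ y, x ≤ y ∧ y < u ∧ ∀ a ∈ A, a < u → a ≤ y := by
  obtain ⟨y, h1, h2⟩ := exists_max_image (insert x (A.filter (· < u))) id ⟨x, by simp⟩
  refine ⟨y, h2 x (by simp), ?_, fun a ha hu => h2 a (by simp [ha, hu])⟩
  rcases mem_insert.1 h1 with rfl | h1
  exacts [h, (mem_filter.1 h1).2]

lemma pick_above (b : Bl d) (v : Vx d) {x : ℝ} (h : x < 1) : ∃ s, x < s ∧ s ≤ 1 ∧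
    ∀ a, Ev b s v a ↔ Inc a.1 v ∧ a.2 < b.1 a.1 ∧ (b.2 a : ℝ) ≤ x := by
  obtain ⟨y, h1, h2, h3⟩ := pick_below ((rings b.1 v).image fun a => -(b.2 a : ℝ)) (neg_lt_neg h)
  refine ⟨-y, by linarith, by linarith, fun a => and_congr_right fun h4 => and_congr_right fun h5 =>
    ⟨fun h6 => not_lt.1 fun h7 => ?_, fun h6 => by linarith⟩⟩
  linarith [h3 _ (mem_image_of_mem _ (mem_rings.2 ⟨h4, h5⟩)) (neg_lt_neg h7)]

lemma avg_oth {e : Ed d} {v : Vx d} (he : Inc e v) (u : Vx d → ℝ) :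
    u v + u (oth e v) = u e.1 + u (hi e) := by
  rcases he with rfl | rfl <;> simp [oth, add_comm]

lemma Sol.block (hh : 0 < h) (hz : ∀ k, Good (z k)) (hf : Sol h z g f) (k : ℕ)
    (hu : Bd (f (h * k))) (s : ℝ) (v : Vx d) : s ≤ 1 → ∀ x, 0 ≤ x → x < s →
      (∀ a, Ev (z k) s v a → ((z k).2 a : ℝ) ≤ x) → f (h * (k + x)) v = F (f (h * k)) (z k) s v := by
  refine (hz k).ind (P := fun s v => s ≤ 1 → ∀ x, 0 ≤ x → x < s →
    (∀ a, Ev (z k) s v a → ((z k).2 a : ℝ) ≤ x) → f (h * (k + x)) v = F (f (h * k)) (z k) s v)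
    (fun s v ih hs x h0 h1 h2 => ?_) s v
  by_cases hl : ∃ a, IsLast (z k) s v a
  · obtain ⟨a, ha⟩ := hl
    have hp := (hz k).pos a
    obtain ⟨y, y0, y1, y2⟩ := pick_below ((rings (z k).1 v ∪ rings (z k).1 (oth a.1 v)).image
      fun a => ((z k).2 a : ℝ)) hp.1
    have y3 : ∀ w, w = v ∨ w = oth a.1 v → ∀ a', Ev (z k) ((z k).2 a) w a' →
        ((z k).2 a' : ℝ) ≤ y := fun w hw a' h' => y2 _ (mem_image_of_mem _ (by
      rcases hw with rfl | rfl <;> simp [mem_rings, h'.1, h'.2.1])) h'.2.2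
    have y4 : ∀ w, Inc a.1 w → Quiet h z w (Set.Ioo (h * (k + y)) (h * (k + (z k).2 a))) := by
      intro w hw e he t ht hr
      obtain ⟨j, hj, rfl, h3, -⟩ := ring_blk hh hz hr y0 hp.2.le ht.1 ht.2.le
      exact not_le.2 h3 (y3 w (ha.1.1.cases hw) (e, j)
        ⟨he, hj, by linarith [lt_of_mul_lt_mul_left ht.2 hh.le]⟩)
    have h3 := hf.2.2 a.1 _ _ (by positivity) (by gcongr) ⟨k, a.2, ha.1.2.1, rfl⟩
      (y4 _ (.inl rfl)) (y4 _ (.inr rfl))
    rw [(hz k).F_last ha hu, ← (ih a ha.1).1 hp.2.le y y0 y1 (y3 _ (.inl rfl)),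
      ← (ih a ha.1).2 hp.2.le y y0 y1 (y3 _ (.inr rfl)), avg_oth ha.1.1,
      hf.2.1 v (h * (k + (z k).2 a)) _ (by have := hp.1; positivity) (by gcongr; exact h2 a ha.1)]
    · rcases ha.1.1 with rfl | rfl
      exacts [h3.1, h3.2]
    · intro e he t ht hr
      obtain ⟨j, hj, -, h4, h5⟩ := ring_blk hh hz hr hp.1.le (h1.le.trans hs) ht.1 ht.2
      by_cases hne : (e, j) = a
      · rw [hne] at h4; exact lt_irrefl _ h4
      · exact lt_asymm h4 (ha.2 _ ⟨he, hj, h5.trans_lt h1⟩ hne)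
  · rw [F_none hl]
    refine hf.2.1 v _ _ (by positivity) (by gcongr; linarith) fun e he t ht hr => ?_
    obtain ⟨j, hj, -, -, h5⟩ := ring_blk hh hz hr le_rfl (h1.le.trans hs) (by simpa using ht.1) ht.2
    exact (hz k).last hl (e, j) ⟨he, hj, h5.trans_lt h1⟩

lemma Psi_fst (k : ℕ) : ((Psi M)^[k + 1] (g, z)).1 = T M (((Psi M)^[k] (g, z)).1, z k) := by
  rw [Function.iterate_succ_apply', Psi, Psi_snd]; simp

lemma Psi_cl (hM : 0 ≤ M) (hg : ∀ v, |g v| ≤ M) (k : ℕ) :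
    cl M ((Psi M)^[k] (g, z)).1 = ((Psi M)^[k] (g, z)).1 := by
  cases k with
  | zero => exact cl_eq hg
  | succ k => rw [Psi_fst]; exact cl_eq fun v => F_le hM _ _ _ v

lemma Sol.grid (hh : 0 < h) (hz : ∀ k, Good (z k)) (hf : Sol h z g f) (hM : 0 ≤ M)
    (hg : ∀ v, |g v| ≤ M) (k : ℕ) : f (h * k) = cl M ((Psi M)^[k] (g, z)).1 := by
  induction k with
  | zero => simpa [cl_eq hg] using hf.1
  | succ k ih =>
    funext v
    obtain ⟨y, y0, y1, y2⟩ := pick_below ((rings (z k).1 v).image fun a => ((z k).2 a : ℝ)) one_pos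
    have y3 : ∀ a, Ev (z k) 1 v a → ((z k).2 a : ℝ) ≤ y := fun a ha =>
      y2 _ (mem_image_of_mem _ (mem_rings.2 ⟨ha.1, ha.2.1⟩)) ha.2.2
    rw [Psi_cl hM hg, Psi_fst, T, ← ih, ← hf.block hh hz k (ih ▸ bd_cl hM _) 1 v le_rfl y y0 y1 y3]
    push_cast
    refine hf.2.1 v _ _ (by positivity) (by gcongr) fun e he t ht hr => ?_
    obtain ⟨j, hj, -, h4, -⟩ := ring_blk hh hz hr y0 le_rfl ht.1 ht.2
    exact not_le.2 h4 (y3 (e, j) ⟨he, hj, ((hz k).pos _).2⟩)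

lemma decomp (hh : 0 < h) {t : ℝ} (ht : 0 ≤ t) :
    0 ≤ t / h - ⌊t / h⌋₊ ∧ t / h - ⌊t / h⌋₊ < 1 ∧ t = h * (⌊t / h⌋₊ + (t / h - ⌊t / h⌋₊)) :=
  ⟨sub_nonneg.2 (Nat.floor_le (by positivity)), by linarith [Nat.lt_floor_add_one (t / h)],
    by field_simp; ring⟩

lemma Sol.conv (hh : 0 < h) (hz : ∀ k, Good (z k)) (hf : Sol h z g f) (hM : 0 ≤ M)
    (hg : ∀ v, |g v| ≤ M) {L : ℝ} (h1 : Tendsto (fun n => ev M ((Psi M)^[n] (g, z)).1) atTop (𝓝 L))
    (h2 : Tendsto (fun n => O M (((Psi M)^[n] (g, z)).1, z n)) atTop (𝓝 0)) :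
    Tendsto (fun t => f t 0) atTop (𝓝 L) := by
  have h3 : Tendsto (fun t : ℝ => ⌊t / h⌋₊) atTop atTop :=
    tendsto_nat_floor_atTop.comp (tendsto_id.atTop_div_const hh)
  have h4 : Tendsto (fun t => ENNReal.ofReal ((f t 0 - ev M ((Psi M)^[⌊t / h⌋₊] (g, z)).1) ^ 2))
      atTop (𝓝 0) := by
    refine tendsto_of_tendsto_of_tendsto_of_le_of_le' tendsto_const_nhds (h2.comp h3)
      (.of_forall fun _ => bot_le) ?_
    filter_upwards [eventually_ge_atTop 0] with t ht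
    obtain ⟨x0, x1, x2⟩ := decomp hh ht
    obtain ⟨s, s0, s1, s2⟩ := pick_above (z ⌊t / h⌋₊) 0 x1
    have h5 := hf.grid hh hz hM hg ⌊t / h⌋₊
    have h6 := hf.block hh hz _ (h5 ▸ bd_cl hM _) s 0 s1 _ x0 s0 fun a ha => ((s2 a).1 ha).2.2
    rw [← x2, h5] at h6
    simpa [h6] using O_sq hM (((Psi M)^[⌊t / h⌋₊] (g, z)).1, z ⌊t / h⌋₊) (k := 1) fun r _ hr => by
      simpa [ev] using F_osc (bd_cl hM _) (Cl_self _ _) hr s
  have e4 := (ENNReal.tendsto_toReal ENNReal.zero_ne_top).comp h4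
  simp only [Function.comp_def, ENNReal.toReal_ofReal (sq_nonneg _), ENNReal.toReal_zero] at e4
  have e5 := (tendsto_zero_iff_abs_tendsto_zero _).2 (by
    simpa [Function.comp_def, Real.sqrt_sq_eq_abs] using e4.sqrt)
  simpa using e5.add (h1.comp h3)

lemma Good.F_congr {b : Bl d} (hb : Good b) {u : Vx d → ℝ} (hu : Bd u) {s s' : ℝ} {v : Vx d}
    (h : ∀ a, Ev b s v a ↔ Ev b s' v a) : F u b s v = F u b s' v := by
  have h1 : ∀ a, IsLast b s v a ↔ IsLast b s' v a := fun a => by simp only [IsLast, h]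
  by_cases hl : ∃ a, IsLast b s v a
  · obtain ⟨a, ha⟩ := hl
    rw [hb.F_last ha hu, hb.F_last ((h1 a).1 ha) hu]
  · rw [F_none hl, F_none (by simpa only [h1] using hl)]

lemma exists_sol (hh : 0 < h) (hz : ∀ k, Good (z k)) (hM : 0 ≤ M) (hg : ∀ v, |g v| ≤ M) :
    ∃ f, Sol h z g f := by
  have hp := fun (k : ℕ) v (x : ℝ) => (em (x < 1)).elim (fun hx => (pick_above (z k) v hx).imp
    fun s hs (_ : x < 1) => hs.2.2) fun hx => ⟨0, fun h => absurd h hx⟩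
  choose sg hsg using hp
  set φ := fun k => cl M ((Psi M)^[k] (g, z)).1 with hφ
  have hb : ∀ k, Bd (φ k) := fun k => bd_cl hM _
  set val := fun (k : ℕ) (x : ℝ) v => F (φ k) (z k) (sg k v x) v with hval
  have h0 : ∀ k v, val k 0 v = φ k v := fun k v => F_none (fun ⟨a, ha⟩ =>
    not_le.2 ((hz k).pos a).1 ((hsg k v 0 one_pos a).1 ha.1).2.2) _
  have hA : ∀ (k : ℕ) v x s, 0 ≤ x → x < 1 → x < s → s ≤ 1 →
      Quiet h z v (Set.Ioo (h * (k + x)) (h * (k + s))) → val k x v = F (φ k) (z k) s v := by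
    intro k v x s x0 x1 xs s1 hq
    refine (hz k).F_congr (hb k) fun a => (hsg k v x x1 a).trans (and_congr_right fun h1 =>
      and_congr_right fun h2 => ⟨fun h3 => h3.trans_lt xs, fun h3 => not_lt.1 fun h4 =>
        hq a.1 h1 _ ⟨by gcongr, by gcongr⟩ ⟨k, a.2, h2, rfl⟩⟩)
  have hB : ∀ (k : ℕ) v x y, x ≤ y → y < 1 →
      Quiet h z v (Set.Ioc (h * (k + x)) (h * (k + y))) → val k y v = val k x v := by
    intro k v x y xy y1 hq
    refine (hz k).F_congr (hb k) fun a => (hsg k v y y1 a).trans (Iff.trans (and_congr_right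
      fun h1 => and_congr_right fun h2 => ⟨fun h3 => not_lt.1 fun h4 =>
        hq a.1 h1 _ ⟨by gcongr, by gcongr⟩ ⟨k, a.2, h2, rfl⟩, fun h3 => h3.trans xy⟩)
      (hsg k v x (xy.trans_lt y1) a).symm)
  have hC : ∀ (n k : ℕ) v x, 0 ≤ x → x < 1 → Quiet h z v (Set.Ioo (h * (k + x))
      (h * ((k + n + 1 : ℕ) : ℝ))) → φ (k + n + 1) v = val k x v := by
    intro n
    have h1 : ∀ (k : ℕ) v x, 0 ≤ x → x < 1 → Quiet h z v (Set.Ioo (h * (k + x))
        (h * ((k + 1 : ℕ) : ℝ))) → φ (k + 1) v = val k x v := fun k v x x0 x1 hq => by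
      rw [hA k v x 1 x0 x1 x1 le_rfl (by simpa using hq)]
      simp only [hφ, Psi_cl hM hg, Psi_fst, T]
    induction n with
    | zero => exact h1
    | succ n ih =>
      intro k v x x0 x1 hq
      have hn : (0 : ℝ) ≤ n := Nat.cast_nonneg n
      rw [h1 _ v 0 le_rfl one_pos fun e he t ht => hq e he t
        ⟨lt_of_le_of_lt (mul_le_mul_of_nonneg_left (by push_cast; linarith) hh.le) ht.1, ht.2⟩, h0]
      exact ih k v x x0 x1 fun e he t ht => hq e he t ⟨ht.1, ht.2.trans_le (by gcongr; omega)⟩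
  have hD : ∀ v s t, 0 ≤ s → s ≤ t → Quiet h z v (Set.Ioc s t) →
      val ⌊t / h⌋₊ (t / h - ⌊t / h⌋₊) v = val ⌊s / h⌋₊ (s / h - ⌊s / h⌋₊) v := by
    intro v s t s0 st hq
    obtain ⟨x0, x1, x2⟩ := decomp hh s0
    obtain ⟨y0, y1, y2⟩ := decomp hh (s0.trans st)
    have h1 : ⌊s / h⌋₊ ≤ ⌊t / h⌋₊ := Nat.floor_mono (by gcongr)
    rw [x2, y2] at hq
    have h2 : (⌊s / h⌋₊ : ℝ) + (s / h - ⌊s / h⌋₊) ≤ ⌊t / h⌋₊ + (t / h - ⌊t / h⌋₊) := by
      simpa using div_le_div_of_nonneg_right st hh.le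
    generalize s / h - ⌊s / h⌋₊ = x, t / h - ⌊t / h⌋₊ = y at *
    generalize ⌊s / h⌋₊ = k, ⌊t / h⌋₊ = k' at *
    rcases h1.eq_or_lt with rfl | h1
    · exact hB k v x y (by linarith) y1 hq
    · obtain ⟨n, rfl⟩ := Nat.exists_eq_add_of_lt h1
      have hn : (0 : ℝ) ≤ n := Nat.cast_nonneg n
      rw [hB _ v 0 y y0 y1 fun e he t ht => hq e he t
        ⟨lt_of_le_of_lt (mul_le_mul_of_nonneg_left (by push_cast; linarith) hh.le) ht.1, ht.2⟩, h0,
        hC n k v x x0 x1 fun e he t ht => hq e he t ⟨ht.1, ht.2.le.trans (by gcongr; linarith)⟩]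
  refine ⟨fun t v => val ⌊t / h⌋₊ (t / h - ⌊t / h⌋₊) v, funext fun v => by
    simp [h0, hφ, cl_eq hg], hD, ?_⟩
  rintro e s _ s0 st ⟨k, j, hj, rfl⟩ q1 q2
  have hp := (hz k).pos (e, j)
  set u : ℝ := (((z k).2 (e, j) : I) : ℝ) with hu
  have fl : ∀ x : ℝ, 0 ≤ x → x < 1 → ⌊h * (k + x) / h⌋₊ = k ∧ h * (k + x) / h - k = x := by
    intro x x0 x1
    rw [mul_div_cancel_left₀ _ hh.ne']
    exact ⟨(Nat.floor_eq_iff (by positivity)).2 ⟨by linarith, by linarith⟩, by ring⟩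
  obtain ⟨x, x0, x1, x2⟩ : ∃ x, 0 ≤ x ∧ x < u ∧ s ≤ h * (k + x) :=
    ⟨max 0 (s / h - k), le_max_left _ _, max_lt hp.1 (by
      rw [sub_lt_iff_lt_add', div_lt_iff₀' hh]; exact st), by
        rw [← div_le_iff₀' hh]; linarith [le_max_right 0 (s / h - k)]⟩
  have h1 : ∀ w, Quiet h z w (Set.Ioo s (h * (k + u))) →
      F (φ k) (z k) u w = val ⌊s / h⌋₊ (s / h - ⌊s / h⌋₊) w := fun w hq => by
    rw [← hD w s _ s0 x2 fun e he t ht => hq e he t ⟨ht.1, ht.2.trans_lt (by gcongr)⟩,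
      (fl x x0 (x1.trans hp.2)).1, (fl x x0 (x1.trans hp.2)).2,
      hA k w x u x0 (x1.trans hp.2) x1 hp.2.le fun e he t ht => hq e he t ⟨x2.trans_lt ht.1, ht.2⟩]
  have h2 : ∀ v, Inc e v → val k u v = (F (φ k) (z k) u e.1 + F (φ k) (z k) u (hi e)) / 2 := by
    intro v hv
    rw [← avg_oth hv]
    refine (hz k).F_last (a := (e, j)) ⟨(hsg k v u hp.2 _).2 ⟨hv, hj, le_rfl⟩, fun a ha hne =>
      lt_of_le_of_ne ((hsg k v u hp.2 _).1 ha).2.2 fun hc => hne ((hz k).inj (Subtype.ext hc))⟩ (hb k)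
  simp only [(fl u hp.1.le hp.2).1, (fl u hp.1.le hp.2).2, ← h1 _ q1, ← h1 _ q2]
  exact ⟨h2 _ (.inl rfl), h2 _ (.inr rfl)⟩

lemma Sol.shift (hf : Sol h z g f) (y : Vx d) :
    Sol h (fun k => rb (tr y) (z k)) (sh y g) fun t => sh y (f t) := by
  have hq : ∀ v A, Quiet h (fun k => rb (tr y) (z k)) v A → Quiet h z (v + y) A := by
    intro v A hq e he t ht hr
    obtain ⟨e, rfl⟩ := (tr y).surjective e
    exact hq e (by simpa [Inc, hi_tr, show (tr y e).1 = e.1 + y from rfl] using he) t ht hr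
  refine ⟨by simp [hf.1], fun v s t h1 h2 h3 => hf.2.1 _ s t h1 h2 (hq _ _ h3),
    fun e s t h1 h2 h3 h4 h5 => ?_⟩
  have := hf.2.2 (tr y e) s t h1 h2 h3 (hq _ _ h4) (hi_tr y e ▸ hq _ _ h5)
  rwa [hi_tr] at this

lemma small {r : ℝ≥0} (h0 : 0 < r) (h1 : (r : ℝ) * (64 * (d + 1)) ≤ 1) :
    Small d (poissonMeasure r) := by
  have hd : (0 : ℝ) ≤ d := Nat.cast_nonneg d
  have hr : (0 : ℝ) < r := h0
  have h2 : m2 (poissonMeasure r) ≤ ENNReal.ofReal (4 * r) := by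
    have h3 : HasSum (fun n : ℕ => 2 * r * (2⁻¹ : ℝ) ^ n) (4 * r) := by
      have := hasSum_geometric_two.mul_left (2 * r : ℝ)
      rwa [one_div, show (2 * r * 2 : ℝ) = 4 * r by ring] at this
    rw [m2, lintegral_countable', tsum_eq_zero_add' ENNReal.summable, ← h3.tsum_eq,
      ENNReal.ofReal_tsum_of_nonneg (fun _ => by positivity) h3.summable]
    simp only [Nat.cast_zero, ne_eq, OfNat.ofNat_ne_zero, not_false_eq_true, zero_pow, zero_mul,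
      zero_add]
    refine ENNReal.tsum_le_tsum fun n => ?_
    rw [poissonMeasure_singleton, ← ENNReal.ofReal_natCast, ← ENNReal.ofReal_pow (by positivity),
      ← ENNReal.ofReal_mul (by positivity)]
    refine ENNReal.ofReal_le_ofReal ?_
    have h4 : ((n + 1 : ℕ) : ℝ) ^ 2 ≤ 2 * (n + 1).factorial := by
      have := Nat.self_le_factorial n
      have := Nat.factorial_pos n
      rw [Nat.factorial_succ]
      exact_mod_cast (by nlinarith : (n + 1) ^ 2 ≤ 2 * ((n + 1) * n.factorial))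
    have h5 : Real.exp (-r) ≤ 1 := Real.exp_le_one_iff.2 (by linarith)
    have h6 : (r : ℝ) ^ n ≤ 2⁻¹ ^ n := pow_le_pow_left₀ hr.le (by nlinarith) n
    calc _ ≤ 2 * ((n + 1).factorial : ℝ) * (1 * (2⁻¹ ^ n * r) / (n + 1).factorial) := by
          rw [pow_succ (r : ℝ)]; gcongr
      _ = _ := by field_simp
  refine ⟨(by gcongr : _ ≤ 2 * d * (4 * ENNReal.ofReal (4 * r))).trans ?_,
    h2.trans (ENNReal.ofReal_le_one.2 (by nlinarith)), ?_, ?_⟩
  · rw [← ENNReal.ofReal_ofNat 2, ← ENNReal.ofReal_ofNat 4, ← ENNReal.ofReal_natCast,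
      ← ENNReal.ofReal_inv_of_pos two_pos, ← ENNReal.ofReal_mul (by positivity),
      ← ENNReal.ofReal_mul (by positivity), ← ENNReal.ofReal_mul (by positivity)]
    exact ENNReal.ofReal_le_ofReal (by nlinarith)
  · exact fun h => by simpa [Measure.real, h] using poissonMeasure_real_singleton_pos 0 h0
  · exact fun h => by simpa [Measure.real, h] using poissonMeasure_real_singleton_pos 1 h0

theorem final {r : ℝ≥0} (h0 : 0 < r) (h1 : (r : ℝ) * (64 * (d + 1)) ≤ 1)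
    (lam : Measure (Vx d → ℝ)) [IsProbabilityMeasure lam] (hb : ∀ᵐ g ∂lam, ∀ v, |g v| ≤ M)
    (hs : ∀ y, lam.map (sh y) = lam) : ∀ᵐ ω ∂lam.prod (clk d (poissonMeasure r)),
      (∃ f, Sol r ω.2 ω.1 f) ∧ ∀ f, Sol r ω.2 ω.1 f → ∀ v, ∃ L,
        Tendsto (fun t => f t v) atTop (𝓝 L) := by
  have hM : 0 ≤ M := by obtain ⟨g, hg⟩ := hb.exists; exact (abs_nonneg _).trans (hg 0)
  have hρ := small h0 h1
  have h2 : ∀ᵐ z ∂clk d (poissonMeasure r), ∀ k, Good (z k) := ae_all_iff.2 fun k =>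
    (measurePreserving_eval_infinitePi (fun _ : ℕ => bl d (poissonMeasure r))
      k).quasiMeasurePreserving.ae (good_ae hρ)
  have h3 := (main hM hρ (act_sh hs)).and (measurePreserving_snd.quasiMeasurePreserving.ae h2)
  have h4 : ∀ y, MeasurePreserving (Prod.map (sh y) fun (z : ℕ → Bl d) k => rb (tr y) (z k))
      (lam.prod (clk d (poissonMeasure r))) (lam.prod (clk d (poissonMeasure r))) := fun y =>
    ((act_sh hs).mp y).prod ⟨measurable_pi_lambda _ fun k => (rb_mp (ρ := poissonMeasure r)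
      (tr y)).measurable.comp (measurable_pi_apply k), by
        rw [Measure.infinitePi_map_pi _ fun _ => (rb_mp (ρ := poissonMeasure r) (tr y)).measurable]
        simp only [(rb_mp (tr y)).map_eq]⟩
  filter_upwards [ae_all_iff.2 fun y => (h4 y).quasiMeasurePreserving.ae h3,
    measurePreserving_fst.quasiMeasurePreserving.ae hb,
    measurePreserving_snd.quasiMeasurePreserving.ae h2] with ω e1 e2 e3
  refine ⟨exists_sol h0 e3 hM e2, fun f hf v => ?_⟩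
  obtain ⟨⟨⟨L, e4⟩, e5⟩, e6⟩ := e1 v
  exact ⟨L, by simpa [sh] using (hf.shift v).conv h0 e6 hM (fun w => e2 _) e4 e5⟩

end Pool.Agent.H12.Avg
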