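import Mathlib

namespace Pool.Agent.H12.Boot

open MeasureTheory ProbabilityTheory
open scoped ENNReal

abbrev S := ℤ × ℤ
abbrev W := Fin 2 × Bool
abbrev V := S × W
abbrev L := Bool ⊕ W

def δ (s : ℤ) : L → S
  | .inl true => (s, 0)
  | .inl false => (0, -s)
  | .inr _ => (-s, s)

def Reach (s : ℤ) (c : Set V) : S → S → List L → Prop
  | x, y, [] => x = y
  | x, y, l :: w => (∀ i, l = .inr i → (x, i) ∈ c) ∧ Reach s c (x + δ s l) y w

def sites (s : ℤ) : S → List L → List S
  | _, [] => []
  | x, l :: w => x :: sites s (x + δ s l) w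

def marks (s : ℤ) : S → List L → List V
  | _, [] => []
  | x, .inl b :: w => marks s (x + δ s (.inl b)) w
  | x, .inr i :: w => (x, i) :: marks s (x + δ s (.inr i)) w

inductive Dead (s : ℤ) (c : Set V) : S → Prop
  | cl (x i) : (x, i) ∈ c → Dead s c x
  | st (x) : Dead s c (x + (s, 0)) → Dead s c (x + (0, s)) → Dead s c x

variable {s : ℤ} {c : Set V}

theorem reach_append {x y z : S} {w w' : List L} (h : Reach s c x y w) (h' : Reach s c y z w') :
    Reach s c x z (w ++ w') := by
  induction w generalizing x with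
  | nil => cases h; exact h'
  | cons l w ih => exact ⟨h.1, ih h.2⟩

theorem dead_reach {x : S} (h : Dead s c x) : ∃ w, Reach s c x (x + (-s, s)) w := by
  induction h with
  | cl x i h => exact ⟨[.inr i], fun j e => by cases e; exact h, rfl⟩
  | st x _ _ h1 h2 =>
    obtain ⟨w1, h1⟩ := h1
    obtain ⟨w2, h2⟩ := h2
    have e : x + (s, 0) + (-s, s) = x + (0, s) := by ext <;> simp
    rw [e] at h1
    have h3 : Reach s c (x + (0, s) + (-s, s)) (x + (-s, s)) [.inl false] := by
      refine ⟨fun _ e => (by cases e), ?_⟩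
      show _ = _
      ext <;> simp [δ]
    exact ⟨.inl true :: (w1 ++ (w2 ++ [.inl false])), fun _ e => (by cases e),
      reach_append h1 (reach_append h2 h3)⟩

theorem suffix {x y z : S} {w : List L} (h : Reach s c x y w) (hn : (sites s x w).Nodup)
    (hz : z ∈ sites s x w) : ∃ w', Reach s c z y w' ∧ (sites s z w').Nodup := by
  induction w generalizing x with
  | nil => cases hz
  | cons l w ih =>
    rcases List.mem_cons.1 hz with rfl | hz
    · exact ⟨_, h, hn⟩
    · exact ih h.2 (List.nodup_cons.1 hn).2 hz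

theorem erase {x y : S} {w : List L} (h : Reach s c x y w) :
    ∃ w', Reach s c x y w' ∧ (sites s x w').Nodup := by
  induction w generalizing x with
  | nil => exact ⟨[], h, List.nodup_nil⟩
  | cons l w ih =>
    obtain ⟨w', h1, h2⟩ := ih h.2
    by_cases e : x ∈ sites s (x + δ s l) w'
    · exact suffix h1 h2 e
    · exact ⟨l :: w', ⟨h.1, h1⟩, List.nodup_cons.2 ⟨e, h2⟩⟩

theorem marks_sites {x : S} {w : List L} {v : V} (h : v ∈ marks s x w) : v.1 ∈ sites s x w := by
  induction w generalizing x with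
  | nil => cases h
  | cons l w ih =>
    rcases l with b | i
    · exact List.mem_cons_of_mem _ (ih h)
    · rcases List.mem_cons.1 h with rfl | h
      · exact List.mem_cons_self
      · exact List.mem_cons_of_mem _ (ih h)

theorem marks_nodup {x : S} {w : List L} (h : (sites s x w).Nodup) : (marks s x w).Nodup := by
  induction w generalizing x with
  | nil => exact List.nodup_nil
  | cons l w ih =>
    obtain ⟨h1, h2⟩ := List.nodup_cons.1 h
    rcases l with b | i
    · exact ih h2
    · exact List.nodup_cons.2 ⟨fun e => h1 (marks_sites e), ih h2⟩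

theorem marks_mem {x y : S} {w : List L} (h : Reach s c x y w) : ∀ v ∈ marks s x w, v ∈ c := by
  induction w generalizing x with
  | nil => intro v hv; cases hv
  | cons l w ih =>
    rcases l with b | i
    · exact ih h.2
    · intro v hv
      rcases List.mem_cons.1 hv with rfl | hv
      · exact h.1 i rfl
      · exact ih h.2 v hv

theorem count {x y : S} {w : List L} (h : Reach s c x y w) :
    (y.2 - y.1) - (x.2 - x.1) = s * (3 * (marks s x w).length - w.length) := by
  induction w generalizing x with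
  | nil => cases h; simp [marks]
  | cons l w ih =>
    have := ih h.2
    rcases l with (_ | _) | i <;> simp [marks, δ] at this ⊢ <;> linarith

def E (s : ℤ) (w : List L) : Set (Set V) :=
  {c | (marks s 0 w).Nodup ∧ w.length ≤ 3 * (marks s 0 w).length ∧ ∀ v ∈ marks s 0 w, v ∈ c}

theorem dead_sub (hs : s ≠ 0) :
    {c | Dead s c 0} ⊆ ⋃ n : ℕ, ⋃ f : Fin (n + 1) → L, E s (List.ofFn f) := by
  intro c hc
  obtain ⟨w, hw⟩ := dead_reach hc
  obtain ⟨w, h1, h2⟩ := erase hw
  have h3 := count h1
  have h4 : (2 : ℤ) = 3 * (marks s 0 w).length - w.length := by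
    apply mul_left_cancel₀ hs
    rw [← h3]; simp; ring
  obtain ⟨n, hn⟩ : ∃ n, w.length = n + 1 := by
    cases w with
    | nil => simp [marks] at h4
    | cons l w => exact ⟨_, rfl⟩
  simp only [Set.mem_iUnion]
  refine ⟨n, fun i => w.get (i.cast hn.symm), ?_⟩
  rw [show List.ofFn (fun i : Fin (n + 1) => w.get (i.cast hn.symm)) = w from by
    rw [← List.ofFn_congr hn, List.ofFn_get]]
  exact ⟨marks_nodup h2, by omega, marks_mem h1⟩

theorem cyl (p : unitInterval) (t : Finset V) :
    setBernoulli Set.univ p {c | ∀ v ∈ t, v ∈ c} = (unitInterval.toNNReal p : ℝ≥0∞) ^ t.card := by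
  rw [setBernoulli_apply']
  have : (fun p : V → Prop ↦ {i | p i}) ⁻¹' {c | ∀ v ∈ t, v ∈ c} = Set.pi t fun _ => {True} := by
    ext; simp
  rw [this, Measure.infinitePi_pi _ (fun _ _ => by measurability)]
  simp

noncomputable def p0 : unitInterval := ⟨1 / 8000, by norm_num, by norm_num⟩

theorem p0_eq : (unitInterval.toNNReal p0 : ℝ≥0∞) = (20⁻¹ : ℝ≥0∞) ^ 3 := by
  have : unitInterval.toNNReal p0 = (20⁻¹ : NNReal) ^ 3 := NNReal.eq (by simp [p0]; norm_num)
  rw [this]; simp [ENNReal.inv_pow]

theorem E_le (w : List L) : setBernoulli Set.univ p0 (E s w) ≤ (20⁻¹ : ℝ≥0∞) ^ w.length := by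
  classical
  by_cases h : (marks s 0 w).Nodup ∧ w.length ≤ 3 * (marks s 0 w).length
  · refine (measure_mono (t := {c | ∀ v ∈ (marks s 0 w).toFinset, v ∈ c})
      fun c hc v hv => hc.2.2 v (List.mem_toFinset.1 hv)).trans ?_
    rw [cyl, p0_eq, ← pow_mul, List.toFinset_card_of_nodup h.1]
    exact pow_le_pow_right_of_le_one' (by simp) h.2
  · rw [show E s w = ∅ from Set.eq_empty_of_forall_notMem fun c hc => h ⟨hc.1, hc.2.1⟩]
    simp

theorem dead_le (hs : s ≠ 0) : setBernoulli Set.univ p0 {c | Dead s c 0} ≤ ENNReal.ofReal (3 / 7) := by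
  refine (measure_mono (dead_sub hs)).trans ((measure_iUnion_le _).trans ?_)
  have h1 : ∀ n : ℕ, setBernoulli Set.univ p0 (⋃ f : Fin (n + 1) → L, E s (List.ofFn f)) ≤
      ENNReal.ofReal (3 / 10 * (3 / 10) ^ n) := fun n => by
    refine (measure_iUnion_fintype_le _ _).trans ((Finset.sum_le_sum fun f _ => E_le _).trans ?_)
    simp only [List.length_ofFn, Finset.sum_const, Finset.card_univ, Fintype.card_fun,
      Fintype.card_sum, Fintype.card_bool, Fintype.card_prod, Fintype.card_fin, nsmul_eq_mul]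
    rw [Nat.cast_pow, ← mul_pow, ← pow_succ', ENNReal.ofReal_pow (by norm_num)]
    gcongr
    rw [ENNReal.ofReal_div_of_pos (by norm_num), ← div_eq_mul_inv]
    simp only [ENNReal.ofReal_ofNat]
    rw [ENNReal.div_le_iff (by simp) (by simp), div_eq_mul_inv, mul_assoc,
      show (20 : ℝ≥0∞) = 10 * 2 by norm_num, ← mul_assoc (10⁻¹ : ℝ≥0∞),
      ENNReal.inv_mul_cancel (by simp) (by simp)]
    norm_num
  refine (ENNReal.tsum_le_tsum h1).trans ?_
  have hs : Summable fun n : ℕ => (3 / 10 : ℝ) ^ n := summable_geometric_of_lt_one (by norm_num) (by norm_num)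
  rw [← ENNReal.ofReal_tsum_of_nonneg (fun n => by positivity) (hs.mul_left _), tsum_mul_left,
    tsum_geometric_of_lt_one (by norm_num) (by norm_num)]
  norm_num

theorem both_lt : setBernoulli Set.univ p0 ({c | Dead 1 c 0} ∪ {c | Dead (-1) c 0}) < 1 := by
  refine (measure_union_le _ _).trans_lt ((add_le_add (dead_le one_ne_zero)
    (dead_le (by norm_num))).trans_lt ?_)
  rw [← ENNReal.ofReal_add (by norm_num) (by norm_num)]
  exact ENNReal.ofReal_lt_one.2 (by norm_num)

end Pool.Agent.H12.Boot
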