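import Mathlib

/-! Stationary generalized Bratteli diagrams. -/

open MeasureTheory Set

namespace Pool.Agent.H12.Bratteli

variable {V : Type}

/-- an edge from `s` to `r`; there are `F r s` of them -/
structure Edge (F : V → V → ℕ) where
  s : V
  r : V
  k : Fin (F r s)

/-- edges carry the discrete sigma-algebra -/
instance (F : V → V → ℕ) : MeasurableSpace (Edge F) := ⊤

/-- infinite paths, with the sigma-algebra generated by the coordinates -/
abbrev Path (F : V → V → ℕ) : Type := {x : ℕ → Edge F // ∀ i, (x i).r = (x (i + 1)).s}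

/-- the cylinder of the initial segment of length `n` of `x` -/
def cyl {F : V → V → ℕ} (x : Path F) (n : ℕ) : Set (Path F) :=
  {y | (∀ i < n, y.1 i = x.1 i) ∧ (y.1 n).s = (x.1 n).s}

/-- tail-invariant measures -/
def TailInv {F : V → V → ℕ} (μ : Measure (Path F)) : Prop :=
  μ ≠ 0 ∧ ∀ (x x' : Path F) (n : ℕ), (x.1 n).s = (x'.1 n).s → μ (cyl x n) = μ (cyl x' n)

/-- every vertex meets finitely many edges, emits an edge and receives an edge -/
def IsDiagram (F : V → V → ℕ) : Prop :=
  ∀ v, {w | F v w ≠ 0}.Finite ∧ {w | F w v ≠ 0}.Finite ∧ (∃ w, F w v ≠ 0) ∧ ∃ w, F v w ≠ 0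

open Classical in
/-- entries of the powers of `F` -/
noncomputable def pw (F : V → V → ℕ) : ℕ → V → V → ℕ
  | 0, i, j => if i = j then 1 else 0
  | n + 1, i, j => ∑ᶠ k, F i k * pw F n k j

variable {F : V → V → ℕ}

instance : MeasurableSingletonClass (Edge F) := ⟨fun _ => trivial⟩

lemma meas_coord (i : ℕ) (S : Set (Edge F)) : MeasurableSet {y : Path F | y.1 i ∈ S} :=
  ((measurable_pi_apply i).comp measurable_subtype_coe) (show MeasurableSet S from trivial)

lemma meas_cyl (x : Path F) (n : ℕ) : MeasurableSet (cyl x n) := by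
  have : cyl x n = (⋂ i ∈ Iio n, {y : Path F | y.1 i ∈ ({x.1 i} : Set (Edge F))}) ∩
      {y : Path F | y.1 n ∈ {e : Edge F | e.s = (x.1 n).s}} := by
    ext y; simp [cyl]
  rw [this]
  exact (MeasurableSet.biInter (to_countable _) fun i _ => meas_coord i _).inter (meas_coord n _)

/-- the first `n` edges of `x` followed by the edges of `y` -/
def glue (x y : Path F) (n : ℕ) (h : (y.1 n).s = (x.1 n).s) : Path F :=
  ⟨fun i => if i < n then x.1 i else y.1 i, fun i => by
    beta_reduce
    rcases lt_trichotomy (i + 1) n with h1 | h1 | h1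
    · rw [if_pos (by omega), if_pos h1]; exact x.2 i
    · subst h1
      rw [if_pos (by omega), if_neg (by omega), h]; exact x.2 i
    · rw [if_neg (by omega), if_neg (by omega)]; exact y.2 i⟩

lemma glue_lt (x y : Path F) (n : ℕ) (h) {i : ℕ} (hi : i < n) : (glue x y n h).1 i = x.1 i :=
  if_pos hi

lemma glue_ge (x y : Path F) (n : ℕ) (h) {i : ℕ} (hi : n ≤ i) : (glue x y n h).1 i = y.1 i :=
  if_neg (by omega)

lemma glue_mem (x y : Path F) (n : ℕ) (h) : glue x y n h ∈ cyl x n :=
  ⟨fun _ hi => glue_lt x y n h hi, by rw [glue_ge x y n h le_rfl, h]⟩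

end Pool.Agent.H12.Bratteli
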