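import Mathlib

/-! Tools: sequences with prescribed frequencies, continued fractions with prescribed digits. -/

open Filter Topology MeasureTheory ProbabilityTheory Set

namespace Pool.Agent.H12.CFTools

open Classical in
lemma exists_freq {T : Type} [MeasurableSpace T] (μ : Measure T) [IsProbabilityMeasure μ]
    {ι : Type} [Countable ι] (A : ι → Set T) (hA : ∀ i, MeasurableSet (A i)) :
    ∃ t : ℕ → T, ∀ i, Tendsto
      (fun n : ℕ => (∑ j ∈ Finset.range n, if t j ∈ A i then (1 : ℝ) else 0) / n) atTop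
      (𝓝 (μ.real (A i))) := by
  let P : Measure (ℕ → T) := Measure.infinitePi fun _ => μ
  have key : ∀ i, ∀ᵐ ω ∂P, Tendsto
      (fun n : ℕ => (∑ j ∈ Finset.range n, if ω j ∈ A i then (1 : ℝ) else 0) / n) atTop
      (𝓝 (μ.real (A i))) := by
    intro i
    have hm : Measurable ((A i).indicator (1 : T → ℝ)) := measurable_one.indicator (hA i)
    have hid : ∀ j : ℕ, IdentDistrib (fun ω : ℕ → T => (A i).indicator (1 : T → ℝ) (ω j))
        ((A i).indicator (1 : T → ℝ)) P μ := fun j => by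
      have h1 : IdentDistrib (fun ω : ℕ → T => ω j) id P μ :=
        ⟨(measurable_pi_apply j).aemeasurable, aemeasurable_id, by
          rw [Measure.map_id]; exact Measure.infinitePi_map_eval _ j⟩
      exact h1.comp hm
    have hint : Integrable ((A i).indicator (1 : T → ℝ)) μ :=
      (integrable_const (1 : ℝ)).indicator (hA i)
    have h := strong_law_ae_real (μ := P) (fun j ω => (A i).indicator (1 : T → ℝ) (ω j))
      ((hid 0).integrable_iff.mpr hint)
      (fun j k hjk => (iIndepFun_infinitePi (X := fun _ => (A i).indicator (1 : T → ℝ))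
        (fun _ => hm)).indepFun hjk)
      (fun j => (hid j).trans (hid 0).symm)
    rw [(hid 0).integral_eq, integral_indicator_one (hA i)] at h
    simpa only [indicator, Pi.one_apply] using h
  exact (ae_all_iff.mpr key).exists

lemma exists_cf (d : ℕ → ℕ) (hd : ∀ n, 1 ≤ d n) :
    ∃ z : ℕ → ℝ, ∀ n, 1 < z n ∧ z n = d n + (z (n + 1))⁻¹ := by
  let F : (ℕ → ℝ) → ℕ → ℝ := fun x n => ((d n : ℝ) + x (n + 1))⁻¹
  let K : Set (ℕ → ℝ) := Set.pi univ fun _ => Icc 0 1
  have hd' : ∀ n, (1 : ℝ) ≤ d n := fun n => by exact_mod_cast hd n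
  have hF : ∀ x ∈ K, F x ∈ K := fun x hx n _ => by
    have := (hx (n + 1) trivial).1
    have h1 := hd' n
    exact ⟨by positivity, inv_le_one_of_one_le₀ (by linarith)⟩
  let S : ℕ → Set (ℕ → ℝ) := fun m => K ∩ ⋂ n ∈ Iio m, {x | x n * (d n + x (n + 1)) = 1}
  have hK : IsCompact K := isCompact_univ_pi fun _ => isCompact_Icc
  have hS : ∀ m, IsClosed (S m) := fun m =>
    hK.isClosed.inter (isClosed_biInter fun n _ => isClosed_eq (by fun_prop) (by fun_prop))
  have hne : ∀ m, (S m).Nonempty := by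
    intro m
    have h : ∀ k, k ≤ m → ∃ x ∈ K, ∀ n, m - k ≤ n → n < m → x n * (d n + x (n + 1)) = 1 := by
      intro k
      induction k with
      | zero => exact fun _ => ⟨0, fun _ _ => by simp, fun n h1 h2 => by omega⟩
      | succ k ih =>
        intro hk
        obtain ⟨x, hx, h⟩ := ih (by omega)
        refine ⟨Function.update x (m - (k + 1)) (F x (m - (k + 1))), fun n _ => ?_,
          fun n h1 h2 => ?_⟩
        · rcases eq_or_ne n (m - (k + 1)) with rfl | e
          · rw [Function.update_self]; exact hF x hx _ trivial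
          · rw [Function.update_of_ne e]; exact hx n trivial
        · rw [Function.update_of_ne (show n + 1 ≠ _ by omega)]
          rcases eq_or_ne n (m - (k + 1)) with rfl | e
          · rw [Function.update_self]
            have := (hx (m - (k + 1) + 1) trivial).1
            have h1 := hd' (m - (k + 1))
            exact inv_mul_cancel₀ (by linarith)
          · rw [Function.update_of_ne e]; exact h n (by omega) h2
    obtain ⟨x, hx, h⟩ := h m le_rfl
    exact ⟨x, hx, mem_iInter₂.mpr fun n hn => h n (by omega) hn⟩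
  obtain ⟨x, hx⟩ := IsCompact.nonempty_iInter_of_sequence_nonempty_isCompact_isClosed S
    (fun m y hy => ⟨hy.1, mem_iInter₂.mpr fun n hn =>
      mem_iInter₂.mp hy.2 n (lt_trans hn (Nat.lt_succ_self m))⟩) hne
    (hK.of_isClosed_subset (hS 0) inter_subset_left) hS
  have h1 : ∀ n, 0 ≤ x n := fun n => ((mem_iInter.mp hx 0).1 n trivial).1
  have h2 : ∀ n, x n * (d n + x (n + 1)) = 1 := fun n =>
    mem_iInter₂.mp (mem_iInter.mp hx (n + 1)).2 n (Nat.lt_succ_self n)
  have h3 : ∀ n, 0 < x n := fun n => (h1 n).lt_of_ne fun e => by simpa [← e] using h2 n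
  refine ⟨fun n => (x n)⁻¹, fun n => ?_⟩
  have h4 : (x n)⁻¹ = d n + x (n + 1) := (eq_inv_of_mul_eq_one_right (h2 n)).symm
  refine ⟨?_, by rw [inv_inv]; exact h4⟩
  beta_reduce
  rw [h4]
  linarith [hd' n, h3 (n + 1)]

/-- one step of the continued fraction algorithm -/
noncomputable def nxt (v : ℝ) : ℝ := (Int.fract v)⁻¹

lemma digit_eq (v : ℝ) (m : ℕ) (h : Int.fract (nxt^[m] v) ≠ 0) :
    (GenContFract.of v).partDens.get? m = some (⌊nxt^[m + 1] v⌋ : ℝ) := by
  induction m generalizing v with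
  | zero => exact GenContFract.partDen_eq_s_b (GenContFract.of_s_head h)
  | succ m ih =>
    have := ih (nxt v) h
    simp only [GenContFract.partDens, Stream'.Seq.map_get?] at this ⊢
    rw [GenContFract.of_s_succ]
    exact this

lemma fract_eq (a : ℕ) {u : ℝ} (h0 : 0 ≤ u) (h1 : u < 1) : Int.fract ((a : ℝ) + u) = u := by
  rw [Int.fract_natCast_add, Int.fract_eq_self.mpr ⟨h0, h1⟩]

lemma digit_cf {d : ℕ → ℕ} {z : ℕ → ℝ} (hz : ∀ n, 1 < z n ∧ z n = d n + (z (n + 1))⁻¹) (m : ℕ) :
    (GenContFract.of (z 0)⁻¹).partDens.get? m = some (d m : ℝ) := by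
  have h0 : ∀ n, 0 < (z n)⁻¹ := fun n => inv_pos.mpr (by linarith [(hz n).1])
  have h1 : ∀ n, (z n)⁻¹ < 1 := fun n => inv_lt_one_of_one_lt₀ (hz n).1
  have h : ∀ n, Int.fract (nxt^[n] (z 0)⁻¹) = (z n)⁻¹ := by
    intro n
    induction n with
    | zero => exact Int.fract_eq_self.mpr ⟨(h0 0).le, h1 0⟩
    | succ n ih =>
      rw [Function.iterate_succ_apply', nxt, ih, inv_inv, (hz n).2, fract_eq _ (h0 _).le (h1 _)]
  rw [digit_eq _ _ (by rw [h]; exact (h0 m).ne'), Function.iterate_succ_apply', nxt, h, inv_inv,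
    (hz m).2, Int.floor_natCast_add, Int.floor_eq_zero_iff.mpr ⟨(h0 _).le, h1 _⟩]
  simp

/-- index of the block containing a position -/
lemma exists_block (s : ℕ → ℕ) (h0 : s 0 = 0) (hs : StrictMono s) :
    ∃ J : ℕ → ℕ, ∀ n, s (J n) ≤ n ∧ n < s (J n + 1) := by
  have h : ∀ n, ∃ j, s j ≤ n ∧ n < s (j + 1) := by
    intro n
    induction n with
    | zero => exact ⟨0, h0.le, h0.ge.trans_lt (hs Nat.zero_lt_one)⟩
    | succ n ih =>
      obtain ⟨j, h1, h2⟩ := ih
      rcases eq_or_lt_of_le (Nat.succ_le_of_lt h2) with e | e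
      · exact ⟨j + 1, e.ge, lt_of_le_of_lt e.le (hs (Nat.lt_succ_self _))⟩
      · exact ⟨j, by omega, e⟩
  exact ⟨fun n => (h n).choose, fun n => (h n).choose_spec⟩

lemma interp (s : ℕ → ℕ) (h0 : s 0 = 0) (hs : StrictMono s) (B : ℕ)
    (hB : ∀ j, s (j + 1) ≤ s j + B) {l : ℝ} (hl : Tendsto (fun j => (s j : ℝ) / j) atTop (𝓝 l))
    (c : ℕ → ℕ) (hc : ∀ n, c n ≤ c (n + 1) ∧ c (n + 1) ≤ c n + 1) {γ : ℝ}
    (hγ : Tendsto (fun j => (c (s j) : ℝ) / j) atTop (𝓝 γ)) (hl0 : l ≠ 0) :
    Tendsto (fun n => (c n : ℝ) / n) atTop (𝓝 (γ / l)) := by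
  obtain ⟨J, hJ⟩ := exists_block s h0 hs
  have hJt : Tendsto J atTop atTop := by
    refine tendsto_atTop.mpr fun m => ?_
    filter_upwards [eventually_ge_atTop (s m)] with n hn
    have := hs.lt_iff_lt.mp (hn.trans_lt (hJ n).2)
    omega
  have hc2 : ∀ m k, c m ≤ c (m + k) ∧ c (m + k) ≤ c m + k := by
    intro m k
    induction k with
    | zero => simp
    | succ k ih => have := hc (m + k); rw [← add_assoc]; omega
  have gen : ∀ (u : ℕ → ℕ) (δ : ℝ), (∀ n, u (s (J n)) ≤ u n ∧ u n ≤ u (s (J n)) + B) →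
      Tendsto (fun j => (u (s j) : ℝ) / j) atTop (𝓝 δ) →
      Tendsto (fun n => (u n : ℝ) / J n) atTop (𝓝 δ) := by
    intro u δ hu hδ
    have h1 := hδ.comp hJt
    have h2 := (hδ.add (tendsto_const_div_atTop_nhds_zero_nat (B : ℝ))).comp hJt
    rw [add_zero] at h2
    refine tendsto_of_tendsto_of_tendsto_of_le_of_le h1 h2 (fun n => ?_) fun n => ?_
    · exact div_le_div_of_nonneg_right (Nat.cast_le.mpr (hu n).1) (Nat.cast_nonneg _)
    · simp only [Function.comp]
      rw [← add_div]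
      exact div_le_div_of_nonneg_right (by exact_mod_cast (hu n).2) (Nat.cast_nonneg _)
  have h1 := gen c γ (fun n => by
    obtain ⟨k, hk⟩ := Nat.exists_eq_add_of_le (hJ n).1
    have := hc2 (s (J n)) k
    have := hB (J n)
    have := (hJ n).2
    have h3 := hc2 (s (J n)) k
    rw [← hk] at h3
    omega) hγ
  have h2 := gen id l (fun n => by
    have := hB (J n)
    have := hJ n
    simp only [id]
    omega) hl
  refine (h1.div h2 hl0).congr' ?_
  filter_upwards [hJt.eventually_ge_atTop 1] with n hn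
  have : (J n : ℝ) ≠ 0 := by positivity
  simp only [Pi.div_apply, id]
  rw [div_div_div_cancel_right₀ this]

end Pool.Agent.H12.CFTools
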