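import Pool.Agent.H12.Avg1

set_option autoImplicit false
open MeasureTheory Filter Topology Real
open scoped ContDiff

namespace Pool.Agent.H12.Cell
open Pool.Agent.H12.Avg

lemma lemA (x : ℝ) {c : ℝ} (hc : |c| ≤ 1 / 4) : ∃ r, sin (x + c * sin x) = r * sin x ∧ 0 < r ∧
    r ≤ 1 + c * cos x - (c * sin x) ^ 2 / 8 := by
  have hk : |c * cos x| ≤ 1 / 4 := by
    rw [abs_mul]; nlinarith [abs_cos_le_one x, abs_nonneg c, abs_nonneg (cos x)]
  rw [abs_le] at hk
  by_cases hs : sin x = 0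
  · exact ⟨1 + c * cos x, by simp [hs], by linarith, by simp [hs]⟩
  set u := c * sin x with hu
  have hu1 : |u| ≤ 1 / 4 := by
    rw [hu, abs_mul]; nlinarith [abs_sin_le_one x, abs_nonneg c, abs_nonneg (sin x)]
  have hu2 : u ^ 2 ≤ 1 / 16 := by rw [← sq_abs]; nlinarith [abs_nonneg u]
  have h1 := abs_le.1 (cos_bound (x := u) (by linarith))
  have h4 : |u| ^ 4 = u ^ 2 * u ^ 2 := by rw [← sq_abs u]; ring
  have h2 : |cos x * (u - sin u) / sin x| ≤ u ^ 2 / 16 := by
    rw [abs_div, div_le_iff₀ (abs_pos.2 hs), abs_mul]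
    have h3 := abs_sub_sin_le u
    have h5 : |u| ^ 3 = u ^ 2 * (|c| * |sin x|) := by rw [← abs_mul, ← hu, ← sq_abs u]; ring
    have h6 : u ^ 2 * (|c| * |sin x|) ≤ u ^ 2 * (1 / 4 * |sin x|) := by gcongr
    have h7 : |cos x| * |u - sin u| ≤ 1 * |u - sin u| := by gcongr; exact abs_cos_le_one x
    have h8 : 0 ≤ u ^ 2 * |sin x| := by positivity
    nlinarith
  rw [abs_le] at h2
  refine ⟨cos u + c * cos x - cos x * (u - sin u) / sin x, ?_, ?_, ?_⟩
  · rw [sin_add]; field_simp; rw [hu]; ring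
  · nlinarith [sq_nonneg u]
  · nlinarith [sq_nonneg u]

lemma lemB (x : ℝ) {c : ℝ} (hc : |c| ≤ 1 / 4) :
    (c * sin x) ^ 2 / 2 ≤ c * (cos x - cos (x + c * sin x)) := by
  set u := c * sin x with hu
  have hu1 : |u| ≤ 1 / 4 := by
    rw [hu, abs_mul]; nlinarith [abs_sin_le_one x, abs_nonneg c, abs_nonneg (sin x)]
  have hk : |c * cos x| ≤ 1 / 4 := by
    rw [abs_mul]; nlinarith [abs_cos_le_one x, abs_nonneg c, abs_nonneg (cos x)]
  have e : c * (cos x - cos (x + u)) = c * cos x * (1 - cos u) + u ^ 2 - u * (u - sin u) := by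
    rw [cos_add, hu]; ring
  have h1 : 1 - cos u ≤ u ^ 2 / 2 := by linarith [one_sub_sq_div_two_le_cos (x := u)]
  have h2 : 0 ≤ 1 - cos u := by linarith [cos_le_one u]
  have h3 : u * (u - sin u) ≤ u ^ 2 / 8 := by
    refine (le_abs_self _).trans ?_
    rw [abs_mul, ← sq_abs u]
    have := abs_sub_sin_le u
    have h4 : |u| * |u - sin u| ≤ |u| * (|u| ^ 3 / 6) := by gcongr
    have h5 : |u| ^ 2 ≤ 1 / 16 := by nlinarith [abs_nonneg u]
    nlinarith [sq_nonneg (|u|)]
  rw [abs_le] at hk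
  rw [e]; nlinarith

noncomputable def F (p : ℝ × ℝ) : ℝ × ℝ :=
  (p.1 + cos p.2 / 4 * sin p.1, p.2 + -cos p.1 / 4 * sin p.2)

lemma q1 (y : ℝ) : |cos y / 4| ≤ 1 / 4 := by
  rw [abs_div, abs_of_pos (by norm_num : (0 : ℝ) < 4)]; gcongr; exact abs_cos_le_one y
lemma q2 (y : ℝ) : |-cos y / 4| ≤ 1 / 4 := by rw [neg_div, abs_neg]; exact q1 y

lemma F_smooth : ContDiff ℝ ω F := by unfold F; fun_prop

noncomputable def D (p : ℝ × ℝ) : ℝ × ℝ →L[ℝ] ℝ × ℝ :=
  (((1 + cos p.1 * cos p.2 / 4) • ContinuousLinearMap.fst ℝ ℝ ℝ -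
      (sin p.1 * sin p.2 / 4) • ContinuousLinearMap.snd ℝ ℝ ℝ)).prod
    ((sin p.1 * sin p.2 / 4) • ContinuousLinearMap.fst ℝ ℝ ℝ +
      (1 - cos p.1 * cos p.2 / 4) • ContinuousLinearMap.snd ℝ ℝ ℝ)

lemma D_apply (p w : ℝ × ℝ) : D p w =
    ((1 + cos p.1 * cos p.2 / 4) * w.1 - sin p.1 * sin p.2 / 4 * w.2,
      sin p.1 * sin p.2 / 4 * w.1 + (1 - cos p.1 * cos p.2 / 4) * w.2) := by
  simp [D]

lemma hasD (p : ℝ × ℝ) : HasFDerivAt F (D p) p := by
  have h1 := hasFDerivAt_fst (𝕜 := ℝ) (p := p)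
  have h2 := hasFDerivAt_snd (𝕜 := ℝ) (p := p)
  have := (h1.add ((h2.cos.const_mul (1 / 4)).mul h1.sin)).prodMk
    (h2.add ((h1.cos.const_mul (-1 / 4)).mul h2.sin))
  refine (this.congr_fderiv ?_).congr_of_eventuallyEq (.of_forall fun q => ?_)
  · ext <;> simp [D_apply] <;> ring
  · ext <;> simp only [F, Pi.add_apply, Pi.mul_apply] <;> ring

lemma det_D (p : ℝ × ℝ) : (D p).det =
    1 - (cos p.1 * cos p.2 / 4) ^ 2 + (sin p.1 * sin p.2 / 4) ^ 2 := by
  rw [ContinuousLinearMap.det, ← LinearMap.det_toMatrix (Module.Basis.finTwoProd ℝ),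
    Matrix.det_fin_two]
  simp [LinearMap.toMatrix_apply, D_apply, Module.Basis.finTwoProd]
  ring

lemma det_ne (p : ℝ × ℝ) : (D p).det ≠ 0 := by
  rw [det_D]
  have : (cos p.1 * cos p.2) ^ 2 ≤ 1 := by
    rw [mul_pow]; exact mul_le_one₀ (cos_sq_le_one _) (sq_nonneg _) (cos_sq_le_one _)
  nlinarith [sq_nonneg (sin p.1 * sin p.2 / 4)]

lemma lip (x y x' y' : ℝ) : |cos y * sin x - cos y' * sin x'| ≤ |x - x'| + |y - y'| := by
  have e : cos y * sin x - cos y' * sin x' = cos y * (sin x - sin x') + (cos y - cos y') * sin x' := by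
    ring
  rw [e]
  refine (abs_add_le _ _).trans (add_le_add ?_ ?_) <;> rw [abs_mul]
  · exact (mul_le_of_le_one_left (abs_nonneg _) (abs_cos_le_one _)).trans (abs_sin_sub_sin_le _ _)
  · exact (mul_le_of_le_one_right (abs_nonneg _) (abs_sin_le_one _)).trans (abs_cos_sub_cos_le _ _)

lemma approx : ApproximatesLinearOn F
    (ContinuousLinearEquiv.refl ℝ (ℝ × ℝ) : ℝ × ℝ →L[ℝ] ℝ × ℝ) Set.univ (1 / 2) := by
  intro p _ q _
  have h1 : |p.1 - q.1| ≤ ‖p - q‖ := norm_fst_le (p - q)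
  have h2 : |p.2 - q.2| ≤ ‖p - q‖ := norm_snd_le (p - q)
  have h3 := abs_le.1 (lip p.1 p.2 q.1 q.2)
  have h4 := abs_le.1 (lip p.2 p.1 q.2 q.1)
  rw [Prod.norm_def]
  apply max_le <;> simp [F, abs_le] <;> constructor <;> linarith

lemma exists_inv : ∃ G : ℝ × ℝ → ℝ × ℝ, ContDiff ℝ ω G ∧ Function.LeftInverse G F ∧
    Function.RightInverse G F := by
  let h := ApproximatesLinearOn.toHomeomorph F approx (Or.inr (by
    simp only [ContinuousLinearEquiv.refl_symm, ContinuousLinearEquiv.coe_refl,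
      ContinuousLinearMap.nnnorm_id, inv_one]; norm_num))
  have e : (h : ℝ × ℝ → ℝ × ℝ) = F := rfl
  refine ⟨h.symm, h.contDiff_symm
    (f₀' := fun p => (D p).toContinuousLinearEquivOfDetNeZero (det_ne p)) (fun p => ?_) ?_,
    h.symm_apply_apply, h.apply_symm_apply⟩
  · rw [e]; simpa using hasD p
  · rw [e]; exact F_smooth

abbrev T := AddCircle (2 * π) × AddCircle (2 * π)

noncomputable def S (a : AddCircle (2 * π)) : ℝ := Real.Angle.sin a
noncomputable def C (a : AddCircle (2 * π)) : ℝ := Real.Angle.cos a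
@[simp] lemma S_coe (x : ℝ) : S x = sin x := rfl
@[simp] lemma C_coe (x : ℝ) : C x = cos x := rfl
lemma cS : Continuous S := Real.Angle.continuous_sin
lemma cC : Continuous C := Real.Angle.continuous_cos

noncomputable def proj (p : ℝ × ℝ) : T := (p.1, p.2)

noncomputable def f (z : T) : T :=
  (z.1 + ((C z.2 / 4 * S z.1 : ℝ) : AddCircle (2 * π)),
    z.2 + ((-C z.1 / 4 * S z.2 : ℝ) : AddCircle (2 * π)))

lemma f_proj (p : ℝ × ℝ) : f (proj p) = proj (F p) := by
  simp only [f, proj, F, S_coe, C_coe, AddCircle.coe_add]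

lemma proj_surj : Function.Surjective proj := by
  rintro ⟨a, b⟩
  induction a using QuotientAddGroup.induction_on with | _ x => ?_
  induction b using QuotientAddGroup.induction_on with | _ y => ?_
  exact ⟨(x, y), rfl⟩

lemma f_inj : Function.Injective f := by
  obtain ⟨G, -, hG, -⟩ := exists_inv
  intro z z' h
  obtain ⟨p, rfl⟩ := proj_surj z
  obtain ⟨q, rfl⟩ := proj_surj z'
  rw [f_proj, f_proj, proj, proj, Prod.mk.injEq] at h
  obtain ⟨k, hk⟩ := Real.Angle.angle_eq_iff_two_pi_dvd_sub.1 h.1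
  obtain ⟨l, hl⟩ := Real.Angle.angle_eq_iff_two_pi_dvd_sub.1 h.2
  have : F p = F (q.1 + k * (2 * π), q.2 + l * (2 * π)) := by
    simp only [F, sin_add_int_mul_two_pi, cos_add_int_mul_two_pi] at hk hl ⊢
    ext <;> simp only <;> linarith
  rw [hG.injective this, proj, proj, Prod.mk.injEq]
  exact ⟨Real.Angle.angle_eq_iff_two_pi_dvd_sub.2 ⟨k, by ring⟩,
    Real.Angle.angle_eq_iff_two_pi_dvd_sub.2 ⟨l, by ring⟩⟩

lemma ae_eq_of_le {Ω : Type*} [MeasurableSpace Ω] {ρ : Measure Ω} [IsProbabilityMeasure ρ]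
    {g : Ω → Ω} (hg : MeasurePreserving g ρ ρ) {K : Ω → ℝ} (hK : Bd K) (h : ∀ x, K x ≤ K (g x)) :
    ∀ᵐ x ∂ρ, K x = K (g x) := by
  have := (integral_eq_iff_of_ae_le (hK.int ρ) ((hK.comp hg.measurable).int ρ) (.of_forall h)).1 (by
    conv_lhs => rw [← hg.map_eq]
    rw [integral_map hg.measurable.aemeasurable hK.1.aestronglyMeasurable])
  exact this

lemma bS : Bd S := ⟨cS.measurable, 1, fun a => by
  induction a using QuotientAddGroup.induction_on with | _ x => exact abs_sin_le_one x⟩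
lemma bC : Bd C := ⟨cC.measurable, 1, fun a => by
  induction a using QuotientAddGroup.induction_on with | _ x => exact abs_cos_le_one x⟩

lemma H_le (p : ℝ × ℝ) : (sin (F p).1 * sin (F p).2) ^ 2 ≤ (sin p.1 * sin p.2) ^ 2 ∧
    ((sin (F p).1 * sin (F p).2) ^ 2 = (sin p.1 * sin p.2) ^ 2 →
      sin p.1 = 0 ∨ sin p.2 = 0 ∨ F p = p) ∧
    (sin (F p).1 = 0 ↔ sin p.1 = 0) ∧ (sin (F p).2 = 0 ↔ sin p.2 = 0) := by
  obtain ⟨r, r1, r2, r3⟩ := lemA p.1 (q1 p.2)
  obtain ⟨s, s1, s2, s3⟩ := lemA p.2 (q2 p.1)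
  have e1 : sin (F p).1 = r * sin p.1 := r1
  have e2 : sin (F p).2 = s * sin p.2 := s1
  set u := cos p.2 / 4 * sin p.1 with hu
  set v := -cos p.1 / 4 * sin p.2 with hv
  have h1 : r + s ≤ 2 - (u ^ 2 + v ^ 2) / 8 := by linarith
  have h2 : r * s ≤ (r + s) / 2 := by nlinarith [sq_nonneg (r - s), sq_nonneg u, sq_nonneg v]
  have h3 := mul_pos r2 s2
  have e : (sin (F p).1 * sin (F p).2) ^ 2 = (r * s) ^ 2 * (sin p.1 * sin p.2) ^ 2 := by
    rw [e1, e2]; ring
  refine ⟨?_, fun h => ?_, by rw [e1]; simp [r2.ne'], by rw [e2]; simp [s2.ne']⟩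
  · rw [e]
    exact mul_le_of_le_one_left (sq_nonneg _) (by nlinarith [sq_nonneg u, sq_nonneg v])
  · by_contra hc
    push Not at hc
    rw [e] at h
    have h4 := mul_right_cancel₀ (pow_ne_zero 2 (mul_ne_zero hc.1 hc.2.1)) (h.trans (one_mul _).symm)
    have h5 : r * s = 1 := by nlinarith
    have h6 : u = 0 := by nlinarith [sq_nonneg u, sq_nonneg v]
    have h7 : v = 0 := by nlinarith [sq_nonneg u, sq_nonneg v]
    exact hc.2.2 (by ext <;> simp only [F, ← hu, ← hv, h6, h7, add_zero])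

open Classical in
lemma ae_fixed {ρ : Measure T} [IsProbabilityMeasure ρ] (hf : MeasurePreserving f ρ ρ) :
    ∀ᵐ z ∂ρ, ∀ p, proj p = z → F p = p := by
  have b1 := bS.comp (measurable_fst (α := AddCircle (2 * π)) (β := AddCircle (2 * π)))
  have b2 := bS.comp (measurable_snd (α := AddCircle (2 * π)) (β := AddCircle (2 * π)))
  have b3 := bC.comp (measurable_fst (α := AddCircle (2 * π)) (β := AddCircle (2 * π)))
  have b4 := bC.comp (measurable_snd (α := AddCircle (2 * π)) (β := AddCircle (2 * π)))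
  have k1 := ae_eq_of_le hf ((Bd.const (-1)).mul (b1.mul b2).sq) fun z => by
    obtain ⟨p, rfl⟩ := proj_surj z
    rw [f_proj]
    simpa [proj] using (H_le p).1
  have aux1 : ∀ p : ℝ × ℝ, sin p.1 = 0 → (-cos p.1 / 4 * sin p.2) ^ 2 * 2 ≤
      cos (F p).1 * cos (F p).2 - cos p.1 * cos p.2 := by
    intro p h
    have := lemB p.2 (q2 p.1)
    simp only [F, h, mul_zero, add_zero]; linarith
  have aux2 : ∀ p : ℝ × ℝ, sin p.2 = 0 → (cos p.2 / 4 * sin p.1) ^ 2 * 2 ≤
      cos p.1 * cos p.2 - cos (F p).1 * cos (F p).2 := by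
    intro p h
    have := lemB p.1 (q1 p.2)
    simp only [F, h, mul_zero, add_zero]; linarith
  have k2 := ae_eq_of_le hf ((Bd.ind (b1.1 (measurableSet_singleton 0))).mul (b3.mul b4))
    fun z => by
      obtain ⟨p, rfl⟩ := proj_surj z
      rw [f_proj]
      by_cases h : sin p.1 = 0
      · have := aux1 p h
        simp only [proj, Set.indicator, Set.mem_preimage, S_coe, Set.mem_singleton_iff, h,
          (H_le p).2.2.1.2 h, if_true, C_coe, one_mul]
        nlinarith [sq_nonneg (-cos p.1 / 4 * sin p.2)]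
      · simp [proj, Set.indicator, h, (H_le p).2.2.1]
  have k3 := ae_eq_of_le hf ((Bd.ind (b2.1 (measurableSet_singleton 0))).mul
    ((Bd.const (-1)).mul (b3.mul b4))) fun z => by
      obtain ⟨p, rfl⟩ := proj_surj z
      rw [f_proj]
      by_cases h : sin p.2 = 0
      · have := aux2 p h
        simp only [proj, Set.indicator, Set.mem_preimage, S_coe, Set.mem_singleton_iff, h,
          (H_le p).2.2.2.2 h, if_true, C_coe, one_mul]
        nlinarith [sq_nonneg (cos p.2 / 4 * sin p.1)]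
      · simp [proj, Set.indicator, h, (H_le p).2.2.2]
  filter_upwards [k1, k2, k3] with z h1 h2 h3
  rintro p rfl
  rw [f_proj] at h1 h2 h3
  rcases (H_le p).2.1 (by simp only [proj, S_coe] at h1; linarith) with h | h | h
  · have := aux1 p h
    simp only [proj, Set.indicator, Set.mem_preimage, S_coe, Set.mem_singleton_iff, h,
      (H_le p).2.2.1.2 h, if_true, C_coe, one_mul] at h2
    have h4 : -cos p.1 / 4 * sin p.2 = 0 := by nlinarith [sq_nonneg (-cos p.1 / 4 * sin p.2)]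
    ext <;> simp only [F, h, h4, mul_zero, add_zero]
  · have := aux2 p h
    simp only [proj, Set.indicator, Set.mem_preimage, S_coe, Set.mem_singleton_iff, h,
      (H_le p).2.2.2.2 h, if_true, C_coe, one_mul] at h3
    have h4 : cos p.2 / 4 * sin p.1 = 0 := by nlinarith [sq_nonneg (cos p.2 / 4 * sin p.1)]
    ext <;> simp only [F, h, h4, mul_zero, add_zero]
  · exact h

lemma fixed_cases {p : ℝ × ℝ} (h : F p = p) :
    (sin p.1 = 0 ∧ sin p.2 = 0) ∨ (sin p.1 ≠ 0 ∧ cos p.1 = 0 ∧ cos p.2 = 0) := by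
  have h1 : cos p.2 * sin p.1 = 0 := by have := congrArg Prod.fst h; simp only [F] at this; linarith
  have h2 : cos p.1 * sin p.2 = 0 := by have := congrArg Prod.snd h; simp only [F] at this; linarith
  have e1 := sin_sq_add_cos_sq p.1
  have e2 := sin_sq_add_cos_sq p.2
  by_cases hs : sin p.1 = 0
  · refine Or.inl ⟨hs, ?_⟩
    rcases mul_eq_zero.1 h2 with h | h
    · rw [hs, h] at e1; norm_num at e1
    · exact h
  · have h3 := (mul_eq_zero.1 h1).resolve_right hs
    refine Or.inr ⟨hs, ?_, h3⟩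
    rcases mul_eq_zero.1 h2 with h | h
    · exact h
    · rw [h3, h] at e2; norm_num at e2

lemma det_pow (A : ℝ × ℝ →L[ℝ] ℝ × ℝ) (n : ℕ) : (A ^ n).det = A.det ^ n := by
  simp [ContinuousLinearMap.det]

lemma saddle {p : ℝ × ℝ} (h1 : sin p.1 = 0) (h2 : sin p.2 = 0) (n : ℕ) :
    max 1 (max ‖D p ^ n‖ |(D p ^ n).det|) = (5 / 4) ^ n := by
  have e1 : cos p.1 ^ 2 = 1 := by have := sin_sq_add_cos_sq p.1; rw [h1] at this; linarith
  have e2 : cos p.2 ^ 2 = 1 := by have := sin_sq_add_cos_sq p.2; rw [h2] at this; linarith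
  have e3 : (cos p.1 * cos p.2) ^ 2 = 1 := by rw [mul_pow, e1, e2, one_mul]
  have hp : ∀ w, (D p ^ n) w = ((1 + cos p.1 * cos p.2 / 4) ^ n * w.1,
      (1 - cos p.1 * cos p.2 / 4) ^ n * w.2) := by
    induction n with
    | zero => simp
    | succ n ih =>
      intro w
      rw [pow_succ', mul_apply_eq_comp, ih, D_apply, h1]
      ext <;> simp only <;> ring
  have g1 : (1 : ℝ) ≤ (5 / 4) ^ n := one_le_pow₀ (by norm_num)
  have g2 : (3 / 4 : ℝ) ^ n ≤ (5 / 4) ^ n := by gcongr; norm_num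
  have hn : ‖D p ^ n‖ = (5 / 4) ^ n := by
    rcases sq_eq_one_iff.1 e3 with h | h
    all_goals
      rw [h] at hp
      generalize D p ^ n = A at hp
      norm_num at hp
      apply le_antisymm
      · apply ContinuousLinearMap.opNorm_le_bound _ (by positivity)
        rintro ⟨a, b⟩
        rw [hp, Prod.norm_def, Prod.norm_def]
        simp only [norm_mul, norm_pow, Real.norm_eq_abs]
        rw [abs_of_pos (by norm_num : (0 : ℝ) < 5 / 4), abs_of_pos (by norm_num : (0 : ℝ) < 3 / 4)]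
        apply max_le <;> gcongr <;> simp
      · have := A.le_opNorm (1, 1)
        rw [hp, Prod.norm_def, Prod.norm_def] at this
        simp only [norm_pow, Real.norm_eq_abs, mul_one, abs_one, max_self] at this
        rw [abs_of_pos (by norm_num : (0 : ℝ) < 5 / 4)] at this
        exact le_trans (by simp) this
  have hd : |(D p ^ n).det| ≤ (5 / 4) ^ n := by
    rw [det_pow, det_D, h1, div_pow, e3, abs_pow]
    gcongr; norm_num [abs_le]
  rw [hn, max_eq_left hd, max_eq_right g1]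

lemma centre {p : ℝ × ℝ} (h1 : cos p.1 = 0) (h2 : cos p.2 = 0) (n : ℕ) :
    (17 / 16) ^ n ≤ max 1 (max ‖D p ^ n‖ |(D p ^ n).det|) ∧
      max 1 (max ‖D p ^ n‖ |(D p ^ n).det|) ≤ 2 * (17 / 16) ^ n := by
  have e1 : sin p.1 ^ 2 = 1 := by have := sin_sq_add_cos_sq p.1; rw [h1] at this; linarith
  have e2 : sin p.2 ^ 2 = 1 := by have := sin_sq_add_cos_sq p.2; rw [h2] at this; linarith
  have e3 : (sin p.1 * sin p.2) ^ 2 = 1 := by rw [mul_pow, e1, e2, one_mul]
  have hd : |(D p ^ n).det| = (17 / 16) ^ n := by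
    rw [det_pow, det_D, h1, div_pow (sin _ * _), e3, abs_pow]
    norm_num
  have g1 : (1 : ℝ) ≤ (17 / 16) ^ n := one_le_pow₀ (by norm_num)
  have hq : ∀ w : ℝ × ℝ, ((D p ^ n) w).1 ^ 2 + ((D p ^ n) w).2 ^ 2 =
      (17 / 16) ^ n * (w.1 ^ 2 + w.2 ^ 2) := by
    clear hd g1
    induction n with
    | zero => simp
    | succ n ih =>
      intro w
      rw [pow_succ (D p), mul_apply_eq_comp, ih, D_apply, h1, pow_succ (17 / 16 : ℝ)]
      simp only
      have : ((1 + 0 * cos p.2 / 4) * w.1 - sin p.1 * sin p.2 / 4 * w.2) ^ 2 +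
          (sin p.1 * sin p.2 / 4 * w.1 + (1 - 0 * cos p.2 / 4) * w.2) ^ 2 =
          (1 + (sin p.1 * sin p.2) ^ 2 / 16) * (w.1 ^ 2 + w.2 ^ 2) := by ring
      rw [this, e3]; ring
  have hn : ‖D p ^ n‖ ≤ 2 * (17 / 16) ^ n := by
    apply ContinuousLinearMap.opNorm_le_bound _ (by positivity)
    intro w
    have a1 : w.1 ^ 2 ≤ ‖w‖ ^ 2 := by
      rw [← sq_abs]; gcongr; exact norm_fst_le w
    have a2 : w.2 ^ 2 ≤ ‖w‖ ^ 2 := by
      rw [← sq_abs]; gcongr; exact norm_snd_le w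
    have a3 : (17 / 16 : ℝ) ^ n * (w.1 ^ 2 + w.2 ^ 2) ≤ (2 * (17 / 16) ^ n * ‖w‖) ^ 2 := by
      have : (17 / 16 : ℝ) ^ n * (w.1 ^ 2 + w.2 ^ 2) ≤ (17 / 16) ^ n * (2 * ‖w‖ ^ 2) := by
        gcongr; linarith
      have h5 : 0 ≤ (17 / 16 : ℝ) ^ n * ‖w‖ ^ 2 := by positivity
      nlinarith
    rw [Prod.norm_def ((D p ^ n) w)]
    apply max_le <;> apply abs_le_of_sq_le_sq _ (by positivity) <;>
      nlinarith [hq w, sq_nonneg ((D p ^ n) w).1, sq_nonneg ((D p ^ n) w).2]
  rw [hd]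
  exact ⟨le_max_of_le_right (le_max_right _ _), max_le (by linarith) (max_le hn (by linarith))⟩

open Classical in
noncomputable def chi (z : T) : ℝ := if S z.1 = 0 then log (5 / 4) else log (17 / 16)

lemma chi_ge (z : T) : log (17 / 16) ≤ chi z := by
  unfold chi; split_ifs
  · exact log_le_log (by norm_num) (by norm_num)
  · rfl

lemma bchi : Bd chi :=
  ⟨Measurable.ite ((bS.1.comp measurable_fst) (measurableSet_singleton 0)) measurable_const
    measurable_const, |log (5 / 4)| + |log (17 / 16)|, fun z => by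
      unfold chi; split_ifs
      · linarith [abs_nonneg (log (17 / 16))]
      · linarith [abs_nonneg (log (5 / 4))]⟩

lemma expo {p : ℝ × ℝ} (h : F p = p) : Tendsto (fun n : ℕ =>
    log (max 1 (max ‖fderiv ℝ F^[n] p‖ |(fderiv ℝ F^[n] p).det|)) / n) atTop (𝓝 (chi (proj p))) := by
  simp only [((hasD p).iterate h _).fderiv]
  rcases fixed_cases h with ⟨h1, h2⟩ | ⟨h1, h2, h3⟩
  · simp only [saddle h1 h2, log_pow, chi, proj, S_coe, h1, if_true]
    refine tendsto_const_nhds.congr' ?_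
    filter_upwards [eventually_gt_atTop 0] with n hn
    field_simp
  · simp only [chi, proj, S_coe, h1, if_false]
    have l : Tendsto (fun n : ℕ => log 2 / n + log (17 / 16)) atTop (𝓝 (log (17 / 16))) := by
      simpa using (tendsto_const_div_atTop_nhds_zero_nat (log 2)).add_const (log (17 / 16))
    apply tendsto_of_tendsto_of_tendsto_of_le_of_le' tendsto_const_nhds l
    · filter_upwards [eventually_gt_atTop 0] with n hn
      rw [le_div_iff₀' (by exact_mod_cast hn), ← log_pow]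
      exact log_le_log (by positivity) (centre h2 h3 n).1
    · filter_upwards [eventually_gt_atTop 0] with n hn
      have hn' : (0 : ℝ) < n := by exact_mod_cast hn
      rw [div_le_iff₀' hn', mul_add, mul_div_cancel₀ _ hn'.ne', ← log_pow,
        ← log_mul (by norm_num) (by positivity)]
      exact log_le_log (lt_max_of_lt_left one_pos) (centre h2 h3 n).2

lemma block_le {Ω : Type*} [MeasurableSpace Ω] {ρ : Measure Ω} [IsProbabilityMeasure ρ]
    {g : Ω → Ω} (h : ∀ᵐ x ∂ρ, g x = x) {m : ℕ} (Q : Ω → Fin m) (n : ℕ) :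
    ∑ w : Fin (n + 1) → Fin m, negMulLog (ρ.real {x | ∀ i : Fin (n + 1), Q (g^[i] x) = w i})
      ≤ m := by
  classical
  calc _ ≤ ∑ w : Fin (n + 1) → Fin m,
        if w ∈ Finset.univ.image (fun (a : Fin m) (_ : Fin (n + 1)) => a) then (1 : ℝ) else 0 := by
        apply Finset.sum_le_sum; intro w _
        split_ifs with hw
        · exact (negMulLog_le_one_sub_self measureReal_nonneg).trans
            (sub_le_self _ measureReal_nonneg)
        · have : ρ {x | ∀ i : Fin (n + 1), Q (g^[i] x) = w i} = 0 := by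
            rw [measure_eq_zero_iff_ae_notMem]
            filter_upwards [h] with x hx hc
            apply hw
            refine Finset.mem_image.2 ⟨Q x, Finset.mem_univ _, funext fun i => ?_⟩
            rw [← hc i, Function.iterate_fixed hx]
          simp [Measure.real, this]
    _ ≤ m := by
        rw [← Finset.sum_filter, Finset.sum_const, nsmul_eq_mul, mul_one, Finset.filter_univ_mem]
        exact_mod_cast Finset.card_image_le.trans (by simp)

end Pool.Agent.H12.Cell
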