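import Mathlib

/-! Inverse automata, the subgroups of free groups they define, and their cogrowth series. -/
namespace Pool.Agent.H12.Cog1

open PowerSeries

section general
variable {α St : Type} [DecidableEq α] (δ : St → α × Bool → Option St)

def run (x : St) (L : List (α × Bool)) : Option St := L.foldlM δ x

def Inv : Prop := ∀ x a y, δ x a = some y → δ y (a.1, !a.2) = some x

omit [DecidableEq α] in
lemma run_nil (x : St) : run δ x [] = some x := rfl

omit [DecidableEq α] in
lemma run_cons (x : St) (a : α × Bool) (L : List (α × Bool)) :
    run δ x (a :: L) = (δ x a).bind fun y => run δ y L := rfl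

omit [DecidableEq α] in
lemma run_append (x : St) (L L' : List (α × Bool)) :
    run δ x (L ++ L') = (run δ x L).bind fun y => run δ y L' := by
  simp [run, List.foldlM_append]

variable {δ}

omit [DecidableEq α] in
lemma run_red (h : Inv δ) {L L' : List (α × Bool)} (hr : FreeGroup.Red L L') (x y : St)
    (hx : run δ x L = some y) : run δ x L' = some y := by
  induction hr with
  | refl => exact hx
  | tail _ hs ih =>
    obtain @⟨L1, L2, a, b⟩ := hs
    rw [run_append] at ih ⊢
    obtain ⟨z, hz, h1⟩ := Option.bind_eq_some_iff.1 ih
    rw [run_cons] at h1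
    obtain ⟨z', hz', h2⟩ := Option.bind_eq_some_iff.1 h1
    rw [run_cons, h _ _ _ hz'] at h2
    rw [hz]
    exact h2

omit [DecidableEq α] in
lemma run_inv (h : Inv δ) (L : List (α × Bool)) : ∀ x y : St, run δ x L = some y →
    run δ y (FreeGroup.invRev L) = some x := by
  induction L with
  | nil => intro x y hx; cases hx; rfl
  | cons a L ih =>
    intro x y hx
    rw [run_cons] at hx
    obtain ⟨z, hz, h1⟩ := Option.bind_eq_some_iff.1 hx
    have : FreeGroup.invRev (a :: L) = FreeGroup.invRev L ++ [(a.1, !a.2)] := by
      simp [FreeGroup.invRev]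
    rw [this, run_append, ih _ _ h1]
    show run δ z [_] = _
    rw [run_cons, h _ _ _ hz]
    rfl

/-- the subgroup of closed paths at `r` -/
def sub (h : Inv δ) (r : St) : Subgroup (FreeGroup α) where
  carrier := {g | run δ r g.toWord = some r}
  one_mem' := rfl
  mul_mem' := by
    intro a b ha hb
    simp only [Set.mem_ofPred_eq] at *
    rw [FreeGroup.toWord_mul]
    apply run_red h FreeGroup.reduce.red
    rw [run_append, ha]
    exact hb
  inv_mem' := by
    intro a ha
    simp only [Set.mem_ofPred_eq] at *
    rw [FreeGroup.toWord_inv]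
    exact run_inv h _ _ _ ha

variable [Fintype α]

open Classical in
noncomputable def S (δ : St → α × Bool → Option St) (r x : St) (n : ℕ) : Finset (List (α × Bool)) :=
  (List.finite_length_eq (α × Bool) n).toFinset.filter
    fun L => FreeGroup.IsReduced L ∧ run δ x L = some r

omit [DecidableEq α] in
lemma mem_S {r x : St} {n : ℕ} {L : List (α × Bool)} :
    L ∈ S δ r x n ↔ L.length = n ∧ FreeGroup.IsReduced L ∧ run δ x L = some r := by
  simp [S]

lemma card_sub (h : Inv δ) (r : St) (n : ℕ) :
    {g | g ∈ sub h r ∧ g.norm = n}.ncard = (S δ r r n).card := by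
  rw [← Set.ncard_coe_finset,
    ← Set.ncard_image_of_injective _ FreeGroup.toWord_injective]
  congr 1
  ext L
  simp only [Set.mem_image, Set.mem_ofPred_eq, Finset.mem_coe, mem_S]
  constructor
  · rintro ⟨g, ⟨h1, h2⟩, rfl⟩
    exact ⟨h2, FreeGroup.isReduced_toWord, h1⟩
  · rintro ⟨h1, h2, h3⟩
    have : (FreeGroup.mk L).toWord = L := by rw [FreeGroup.toWord_mk, h2.reduce_eq]
    refine ⟨FreeGroup.mk L, ⟨?_, ?_⟩, this⟩
    · show run δ r _ = _
      rw [this, h3]
    · show (FreeGroup.mk L).toWord.length = n
      rw [this, h1]

open Classical in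
theorem count (r : St) (V : St → Prop) (A : St → ℤ⟦X⟧) (F : St → α × Bool → ℤ⟦X⟧)
    (hV : ∀ x a y, V x → δ x a = some y → V y)
    (h1 : ∀ x, V x → A x = (if x = r then 1 else 0) + ∑ a, F x a)
    (h2 : ∀ x a y, V x → δ x a = some y → F x a = X * (A y - F y (a.1, !a.2)))
    (h3 : ∀ x a, V x → δ x a = none → F x a = 0) (n : ℕ) :
    ∀ x, V x → coeff n (A x) = (S δ r x n).card := by
  have step : ∀ n, (∀ x a, V x → coeff n (F x a) =
      ((S δ r x n).filter fun L => L.head? = some a).card) →
      ∀ x, V x → coeff n (A x) = (S δ r x n).card := by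
    intro n h x hx
    rw [h1 x hx, map_add, map_sum, Finset.card_eq_sum_card_fiberwise
      (f := fun L : List (α × Bool) => L.head?) (t := Finset.univ) (by simp), Fintype.sum_option]
    push_cast
    congr 1
    · by_cases e : x = r ∧ n = 0
      · obtain ⟨rfl, rfl⟩ := e
        have : ((S δ x x 0).filter fun L => L.head? = none) = {[]} := by
          ext L
          simp only [Finset.mem_filter, mem_S, List.head?_eq_none_iff, Finset.mem_singleton]
          constructor
          · exact fun h => h.2
          · rintro rfl; simp [run_nil]
        rw [this]; simp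
      · have : ((S δ r x n).filter fun L => L.head? = none) = ∅ := by
          ext L
          simp only [Finset.mem_filter, mem_S, List.head?_eq_none_iff, Finset.notMem_empty,
            iff_false]
          rintro ⟨⟨a, _, c⟩, rfl⟩
          exact e ⟨Option.some.inj c, a.symm⟩
        rw [this]
        split_ifs with h'
        · rw [coeff_one, if_neg (fun h'' => e ⟨h', h''⟩)]; simp
        · simp
    · exact Finset.sum_congr rfl fun a _ => h x a hx
  have main : ∀ n, ∀ x a, V x → coeff n (F x a) =
      ((S δ r x n).filter fun L => L.head? = some a).card := by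
    intro n
    induction n with
    | zero =>
      intro x a hx
      have : ((S δ r x 0).filter fun L => L.head? = some a) = ∅ := by
        ext L
        simp only [Finset.mem_filter, mem_S, List.length_eq_zero_iff, Finset.notMem_empty,
          iff_false]
        rintro ⟨⟨rfl, _⟩, h⟩
        simp at h
      rw [this]
      cases e : δ x a with
      | none => rw [h3 x a hx e]; simp
      | some y => rw [h2 x a y hx e]; simp
    | succ n ih =>
      intro x a hx
      cases e : δ x a with
      | none =>
        have : ((S δ r x (n + 1)).filter fun L => L.head? = some a) = ∅ := by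
          ext L
          simp only [Finset.mem_filter, mem_S, Finset.notMem_empty, iff_false]
          rintro ⟨⟨_, _, h⟩, h'⟩
          obtain ⟨L', rfl⟩ := List.head?_eq_some_iff.1 h'
          rw [run_cons, e] at h
          simp at h
        rw [this, h3 x a hx e]; simp
      | some y =>
        have hy := hV x a y hx e
        rw [h2 x a y hx e, coeff_succ_X_mul, map_sub, step n ih y hy, ih y _ hy]
        have : ((S δ r x (n + 1)).filter fun L => L.head? = some a) =
            ((S δ r y n).filter fun L => ¬ L.head? = some (a.1, !a.2)).image (List.cons a) := by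
          ext L
          simp only [Finset.mem_filter, mem_S, Finset.mem_image]
          constructor
          · rintro ⟨⟨b, c, d⟩, h'⟩
            obtain ⟨L', rfl⟩ := List.head?_eq_some_iff.1 h'
            rw [run_cons, e] at d
            refine ⟨L', ⟨⟨by simpa using b, List.IsChain.tail c, d⟩, fun h => ?_⟩, rfl⟩
            obtain ⟨L'', rfl⟩ := List.head?_eq_some_iff.1 h
            have := (FreeGroup.isReduced_cons_cons.1 c).1 rfl
            simp at this
          · rintro ⟨L', ⟨⟨b, c, d⟩, h'⟩, rfl⟩
            refine ⟨⟨by simp [b], ?_, by rw [run_cons, e]; exact d⟩, rfl⟩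
            cases L' with
            | nil => exact FreeGroup.IsReduced.singleton
            | cons a' L'' =>
              refine FreeGroup.isReduced_cons_cons.2 ⟨fun h => ?_, c⟩
              by_contra h''
              apply h'
              obtain ⟨a1, a2⟩ := a
              obtain ⟨b1, b2⟩ := a'
              simp only at h h''
              subst h
              cases a2 <;> cases b2 <;> simp_all
        rw [this, Finset.card_image_of_injective _ List.cons_injective,
          ← Finset.card_filter_add_card_filter_not (s := S δ r y n)
            (fun L => L.head? = some (a.1, !a.2))]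
        push_cast
        ring
  exact step n (main n)

end general

/-- states: vertices of the tree and inner points of loops -/
inductive St where
  | node (v : List ℕ) : St
  | mid (v : List ℕ) (j t : ℕ) : St

section tree
variable (M : ℕ) (B : List ℕ → ℕ) (K : List ℕ → ℕ → ℕ)

/-- transition on letters numbered by naturals -/
def dl : St → ℕ → Bool → Option St
  | .node v, j, true =>
    if M ≤ j then (if 2 ≤ K v j then some (.mid v j 1) else none)
    else if j < B v then some (.node (j :: v)) else none
  | .node v, j, false =>
    if M ≤ j then (if 2 ≤ K v j then some (.mid v j (K v j - 1)) else none)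
    else if v.head? = some j ∧ j < B v.tail then some (.node v.tail) else none
  | .mid v i t, j, true =>
    if j = i ∧ M ≤ j ∧ 0 < t ∧ t < K v j then
      (if t + 1 = K v j then some (.node v) else some (.mid v j (t + 1))) else none
  | .mid v i t, j, false =>
    if j = i ∧ M ≤ j ∧ 0 < t ∧ t < K v j then
      (if t = 1 then some (.node v) else some (.mid v j (t - 1))) else none

def dd (N : ℕ) (x : St) (a : Fin N × Bool) : Option St := dl M B K x a.1.val a.2

lemma dl_inv (x : St) (j : ℕ) (b : Bool) (y : St) (h : dl M B K x j b = some y) :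
    dl M B K y j (!b) = some x := by
  cases x with
  | node v =>
    cases b
    · simp only [dl] at h
      split_ifs at h with h1 h2 h3
      · cases h
        simp only [dl, Bool.not_false]
        rw [if_pos ⟨trivial, h1, by omega, by omega⟩, if_pos (by omega)]
      · cases h
        obtain ⟨v', rfl⟩ := List.head?_eq_some_iff.1 h3.1
        simp only [dl, Bool.not_false, List.tail_cons]
        rw [if_neg h1, if_pos (show j < B v' from h3.2)]
    · simp only [dl] at h
      split_ifs at h with h1 h2 h3
      · cases h
        simp only [dl, Bool.not_true]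
        rw [if_pos ⟨trivial, h1, by omega, by omega⟩, if_pos trivial]
      · cases h
        simp only [dl, Bool.not_true, List.tail_cons, List.head?_cons]
        rw [if_neg h1, if_pos ⟨trivial, h3⟩]
  | mid v i t =>
    cases b
    · simp only [dl] at h
      split_ifs at h with h1 h2
      · cases h
        obtain ⟨rfl, a, b, c⟩ := h1
        simp only [dl, Bool.not_false]
        rw [if_pos a, if_pos (by omega), h2]
      · cases h
        obtain ⟨rfl, a, b, c⟩ := h1
        simp only [dl, Bool.not_false]
        rw [if_pos ⟨trivial, a, by omega, by omega⟩, if_neg (by omega)]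
        congr 2; omega
    · simp only [dl] at h
      split_ifs at h with h1 h2
      · cases h
        obtain ⟨rfl, a, b, c⟩ := h1
        simp only [dl, Bool.not_true]
        rw [if_pos a, if_pos (by omega)]
        congr 2; omega
      · cases h
        obtain ⟨rfl, a, b, c⟩ := h1
        simp only [dl, Bool.not_true]
        rw [if_pos ⟨trivial, a, by omega, by omega⟩, if_neg (by omega)]
        congr 2

lemma dd_inv (N : ℕ) : Inv (dd M B K N) := fun x _ y h => dl_inv M B K x _ _ y h

/-- valid vertices -/
def valid : List ℕ → Prop
  | [] => True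
  | j :: v => valid v ∧ j < B v

def dep : St → ℕ
  | .node v => v.length
  | .mid v _ _ => v.length

lemma trunc (L : ℕ) (x : St) (j : ℕ) (b : Bool) (y : St) (h : dl M B K x j b = some y)
    (hx : dep x < L) :
    dl M (fun v => if v.length < L then B v else 0) K x j b = some y ∧ dep y ≤ dep x + 1 := by
  cases x with
  | node v =>
    simp only [dep] at hx
    cases b
    · have : v.tail.length < L := by simp; omega
      simp only [dl, if_pos this] at h ⊢
      refine ⟨h, ?_⟩
      split_ifs at h <;> cases h <;> simp [dep]
      omega
    · simp only [dl, if_pos hx] at h ⊢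
      refine ⟨h, ?_⟩
      split_ifs at h <;> cases h <;> simp [dep]
  | mid v i t =>
    cases b
    · simp only [dl] at h ⊢
      refine ⟨h, ?_⟩
      split_ifs at h <;> cases h <;> simp [dep]
    · simp only [dl] at h ⊢
      refine ⟨h, ?_⟩
      split_ifs at h <;> cases h <;> simp [dep]

lemma trunc_run (N L : ℕ) (w : List (Fin N × Bool)) : ∀ x y, run (dd M B K N) x w = some y →
    dep x + w.length ≤ L → run (dd M (fun v => if v.length < L then B v else 0) K N) x w = some y := by
  induction w with
  | nil => intro x y h _; exact h
  | cons a w ih =>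
    intro x y h hl
    rw [run_cons] at h ⊢
    obtain ⟨z, hz, h1⟩ := Option.bind_eq_some_iff.1 h
    simp only [List.length_cons] at hl
    obtain ⟨h2, h3⟩ := trunc M B K L x _ _ z hz (by omega)
    rw [dd, h2]
    exact ih z y h1 (by omega)

theorem not_fg (N : ℕ) (hM : 0 < M) (hN : M < N) (hB : ∀ d, 0 < B (List.replicate d 0))
    (hK : ∀ d, 2 ≤ K (List.replicate d 0) M) : ¬ (sub (dd_inv M B K N) (.node [])).FG := by
  rintro ⟨T, hT⟩
  let L := T.sup FreeGroup.norm
  have hle : sub (dd_inv M B K N) (.node []) ≤
      sub (dd_inv M (fun v => if v.length < L then B v else 0) K N) (.node []) := by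
    rw [← hT, Subgroup.closure_le]
    intro g hg
    have h1 : g ∈ sub (dd_inv M B K N) (.node []) := hT ▸ Subgroup.subset_closure hg
    exact trunc_run M B K N L _ _ _ h1
      (by rw [dep, List.length_nil, zero_add]; exact Finset.le_sup (f := FreeGroup.norm) hg)
  let a : Fin N := ⟨0, by omega⟩
  let c : Fin N := ⟨M, hN⟩
  have down : ∀ (B' : List ℕ → ℕ) (k d : ℕ), (∀ e < d + k, 0 < B' (List.replicate e 0)) →
      run (dd M B' K N) (.node (List.replicate d 0)) (List.replicate k (a, true)) =
        some (.node (List.replicate (d + k) 0)) := by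
    intro B' k
    induction k with
    | zero => intro d _; rfl
    | succ k ih =>
      intro d h
      rw [List.replicate_succ, run_cons]
      simp only [dd, dl, a]
      rw [if_neg (by omega), if_pos (h d (by omega))]
      have := ih (d + 1) (fun e he => h e (by omega))
      rw [show d + (k + 1) = d + 1 + k by omega]
      exact this
  have loop : ∀ (v : List ℕ) (k t : ℕ), 0 < t → t + (k + 1) = K v M →
      run (dd M B K N) (.mid v M t) (List.replicate (k + 1) (c, true)) = some (.node v) := by
    intro v k
    induction k with
    | zero =>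
      intro t h1 h2
      rw [List.replicate_succ, run_cons]
      simp only [dd, dl, c]
      rw [if_pos ⟨trivial, le_rfl, h1, by omega⟩, if_pos (by omega)]
      rfl
    | succ k ih =>
      intro t h1 h2
      rw [List.replicate_succ, run_cons]
      simp only [dd, dl, c]
      rw [if_pos ⟨trivial, le_rfl, h1, by omega⟩, if_neg (by omega)]
      exact ih (t + 1) (by omega) (by omega)
  obtain ⟨k, hk⟩ : ∃ k, K (List.replicate (L + 1) 0) M = k + 2 :=
    ⟨_, (Nat.sub_add_cancel (hK _)).symm⟩
  let w : List (Fin N × Bool) := List.replicate (L + 1) (a, true) ++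
    List.replicate (k + 2) (c, true) ++ List.replicate (L + 1) (a, false)
  have hac : a ≠ c := fun h => by
    have := congrArg Fin.val h
    simp only [a, c] at this
    omega
  have hw : FreeGroup.IsReduced w := by
    refine List.IsChain.append (List.IsChain.append
      (List.isChain_replicate_of_rel _ fun _ => rfl) (List.isChain_replicate_of_rel _ fun _ => rfl)
      ?_) (List.isChain_replicate_of_rel _ fun _ => rfl) ?_
    · intro x hx y hy _
      rw [List.eq_of_mem_replicate (List.mem_of_mem_getLast? hx),
        List.eq_of_mem_replicate (List.mem_of_mem_head? hy)]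
    · intro x hx y hy h
      rw [List.getLast?_append_of_ne_nil _ (by simp)] at hx
      rw [List.eq_of_mem_replicate (List.mem_of_mem_getLast? hx),
        List.eq_of_mem_replicate (List.mem_of_mem_head? hy)] at h
      exact absurd h.symm hac
  have hw' : (FreeGroup.mk w).toWord = w := by rw [FreeGroup.toWord_mk, hw.reduce_eq]
  have d1 := down B (L + 1) 0 (fun e _ => hB e)
  rw [zero_add] at d1
  have h1 : FreeGroup.mk w ∈ sub (dd_inv M B K N) (.node []) := by
    show run _ _ _ = _
    rw [hw', run_append, run_append]
    have d2 := run_inv (dd_inv M B K N) _ _ _ d1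
    have e : FreeGroup.invRev (List.replicate (L + 1) (a, true)) =
        List.replicate (L + 1) (a, false) := by simp [FreeGroup.invRev]
    rw [e] at d2
    have d3 : run (dd M B K N) (.node (List.replicate (L + 1) 0))
        (List.replicate (k + 2) (c, true)) = some (.node (List.replicate (L + 1) 0)) := by
      rw [List.replicate_succ (n := k + 1), run_cons]
      simp only [dd, dl, c]
      rw [if_pos le_rfl, if_pos (hK _)]
      exact loop _ k 1 (by omega) (by omega)
    rw [List.replicate_zero] at d1
    rw [d1, Option.bind_some, d3, Option.bind_some]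
    exact d2
  have h2 : run _ _ _ = _ := hle h1
  have d4 := down (fun v => if v.length < L then B v else 0) L 0 (fun e he => by
    simp only [List.length_replicate]
    rw [if_pos (by omega)]; exact hB e)
  rw [zero_add, List.replicate_zero] at d4
  rw [hw', run_append, run_append, List.replicate_succ', run_append, d4, Option.bind_some,
    run_cons] at h2
  simp only [dd, dl, a] at h2
  rw [if_neg (by omega), if_neg (by simp)] at h2
  simp at h2

variable (ψ σ G : List ℕ → ℤ⟦X⟧) (θ : ℕ → ℤ⟦X⟧)

noncomputable def An : List ℕ → ℤ⟦X⟧
  | [] => G []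
  | j :: v => G (j :: v) * X * (An v * (1 - X ^ 2 * σ (j :: v)))

noncomputable def Fl : St → ℕ → Bool → ℤ⟦X⟧
  | .node v, j, true =>
    if M ≤ j then (if 2 ≤ K v j then X ^ K v j * θ (K v j) * An σ G v else 0)
    else if j < B v then An σ G v * (X ^ 2 * σ (j :: v)) else 0
  | .node v, j, false =>
    if M ≤ j then (if 2 ≤ K v j then X ^ K v j * θ (K v j) * An σ G v else 0)
    else if v.head? = some j ∧ j < B v.tail then An σ G v * (1 - ψ v) else 0
  | .mid v i t, j, true =>
    if j = i ∧ M ≤ j ∧ 0 < t ∧ t < K v j then X ^ (K v j - t) * θ (K v j) * An σ G v else 0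
  | .mid v i t, j, false =>
    if j = i ∧ M ≤ j ∧ 0 < t ∧ t < K v j then X ^ t * θ (K v j) * An σ G v else 0

noncomputable def Al : St → ℤ⟦X⟧
  | .node v => An σ G v
  | .mid v i t => Fl M B K ψ σ G θ (.mid v i t) i true + Fl M B K ψ σ G θ (.mid v i t) i false

def Vl (N : ℕ) : St → Prop
  | .node v => valid B v
  | .mid v i _ => valid B v ∧ i < N

open Classical in
theorem series (M' : ℕ) (hθ : ∀ k, 2 ≤ k → (1 + X ^ k) * θ k = 1)
    (hB : ∀ v, valid B v → B v ≤ M)
    (hG : ∀ v, valid B v → G v * (1 - ψ v) = 1)
    (hσ : ∀ j v, valid B (j :: v) → ψ (j :: v) * (1 + (1 - X ^ 2) * σ (j :: v)) = σ (j :: v))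
    (hψ : ∀ v, valid B v → ψ v = ∑ j ∈ Finset.range (B v), X ^ 2 * σ (j :: v) +
      ∑ i ∈ Finset.range M', if 2 ≤ K v (M + i) then 2 * (X ^ K v (M + i) * θ (K v (M + i))) else 0)
    (n : ℕ) : coeff n (G []) =
      ({g | g ∈ sub (dd_inv M B K (M + M')) (.node []) ∧ g.norm = n}.ncard : ℤ) := by
  rw [card_sub]
  refine count (.node []) (Vl B (M + M')) (Al M B K ψ σ G θ)
    (fun x a => Fl M B K ψ σ G θ x a.1.val a.2) ?_ ?_ ?_ ?_ n (.node []) trivial
  · rintro x ⟨j, b⟩ y hx h
    cases x with
    | node v =>
      cases b <;> simp only [dd, dl] at h <;> split_ifs at h with h1 h2 h3 <;> cases h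
      · exact ⟨hx, j.2⟩
      · obtain ⟨v', rfl⟩ := List.head?_eq_some_iff.1 h3.1
        exact hx.1
      · exact ⟨hx, j.2⟩
      · exact ⟨hx, h3⟩
    | mid v i t =>
      cases b <;> simp only [dd, dl] at h <;> split_ifs at h with h1 h2 <;> cases h
      · exact hx.1
      · exact ⟨hx.1, j.2⟩
      · exact hx.1
      · exact ⟨hx.1, j.2⟩
  · intro x hx
    rw [Fintype.sum_prod_type]
    simp only [Fintype.sum_bool]
    rw [Fin.sum_univ_eq_sum_range
      (fun j => Fl M B K ψ σ G θ x j true + Fl M B K ψ σ G θ x j false)]
    cases x with
    | node v =>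
      have e1 : ∑ j ∈ Finset.range M, Fl M B K ψ σ G θ (.node v) j true =
          An σ G v * ∑ j ∈ Finset.range (B v), X ^ 2 * σ (j :: v) := by
        rw [Finset.mul_sum, ← Finset.sum_subset (Finset.range_mono (hB v hx))]
        · refine Finset.sum_congr rfl fun j hj => ?_
          have := Finset.mem_range.1 hj
          have := hB v hx
          simp only [Fl]
          rw [if_neg (by omega), if_pos (by omega)]
        · intro j h1 h2
          simp only [Finset.mem_range] at h1 h2
          simp only [Fl]
          rw [if_neg (by omega), if_neg h2]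
      have e2 : ∑ i ∈ Finset.range M', (Fl M B K ψ σ G θ (.node v) (M + i) true +
          Fl M B K ψ σ G θ (.node v) (M + i) false) = An σ G v * ∑ i ∈ Finset.range M',
          if 2 ≤ K v (M + i) then 2 * (X ^ K v (M + i) * θ (K v (M + i))) else 0 := by
        rw [Finset.mul_sum]
        refine Finset.sum_congr rfl fun i _ => ?_
        simp only [Fl, if_pos (Nat.le_add_right M i)]
        split_ifs <;> ring
      have e3 : (if St.node v = St.node [] then 1 else 0) +
          ∑ j ∈ Finset.range M, Fl M B K ψ σ G θ (.node v) j false = An σ G v * (1 - ψ v) := by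
        cases v with
        | nil =>
          rw [if_pos rfl, Finset.sum_eq_zero, add_zero]
          · exact (hG [] hx).symm
          · intro j hj
            have := Finset.mem_range.1 hj
            simp only [Fl]
            rw [if_neg (by omega), if_neg (by simp)]
        | cons i v =>
          have h1 := hB v hx.1
          have h2 := hx.2
          rw [if_neg (by simp), zero_add, Finset.sum_eq_single i]
          · simp only [Fl]
            rw [if_neg (by omega), if_pos ⟨rfl, h2⟩]
          · intro j hj hne
            have := Finset.mem_range.1 hj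
            simp only [Fl]
            rw [if_neg (by omega), if_neg (by simp [Ne.symm hne])]
          · intro h
            exact absurd (Finset.mem_range.2 (by omega)) h
      rw [Finset.sum_range_add, Finset.sum_add_distrib, e1, e2]
      simp only [Al]
      have := hψ v hx
      convert_to An σ G v = ((if St.node v = St.node [] then 1 else 0) +
          ∑ j ∈ Finset.range M, Fl M B K ψ σ G θ (.node v) j false) + An σ G v * ψ v
      · rw [this]
        split_ifs <;> ring
      · rw [e3]; ring
    | mid v i t =>
      rw [if_neg (by simp), zero_add, Finset.sum_eq_single i]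
      · rfl
      · intro j _ hne
        simp only [Fl]
        rw [if_neg (fun h => hne h.1), if_neg (fun h => hne h.1), add_zero]
      · intro h
        exact absurd (Finset.mem_range.2 hx.2) h
  · rintro x ⟨j, b⟩ y hx h
    cases x with
    | node v =>
      cases b <;> simp only [dd, dl] at h <;> split_ifs at h with h1 h2 h3 <;> cases h
      · simp only [Fl, Al, Bool.not_false, if_pos h1, if_pos h2]
        rw [if_pos ⟨trivial, h1, by omega, by omega⟩, if_pos ⟨trivial, h1, by omega, by omega⟩]
        obtain ⟨k, hk⟩ : ∃ k, K v j = k + 1 := ⟨K v j - 1, by omega⟩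
        rw [hk, Nat.add_sub_cancel]
        ring
      · obtain ⟨v', rfl⟩ := List.head?_eq_some_iff.1 h3.1
        simp only [Fl, Al, Bool.not_false, if_neg h1, List.tail_cons, An]
        rw [if_pos ⟨rfl, h3.2⟩, if_pos (show j.val < B v' from h3.2)]
        linear_combination (X * (An σ G v' * (1 - X ^ 2 * σ (j :: v')))) * hG _ hx
      · simp only [Fl, Al, Bool.not_true, if_pos h1, if_pos h2]
        rw [if_pos ⟨trivial, h1, by omega, by omega⟩, if_pos ⟨trivial, h1, by omega, by omega⟩]
        obtain ⟨k, hk⟩ : ∃ k, K v j = k + 1 := ⟨K v j - 1, by omega⟩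
        rw [hk, Nat.add_sub_cancel]
        ring
      · simp only [Fl, Al, Bool.not_true, if_neg h1, if_pos h3, List.tail_cons, An,
          List.head?_cons]
        rw [if_pos ⟨trivial, h3⟩]
        have a := hG (j :: v) ⟨hx, h3⟩
        have b := hσ j v ⟨hx, h3⟩
        linear_combination (-(X ^ 2 * An σ G v * σ (j :: v))) * a -
          (X ^ 2 * An σ G v * G (j :: v)) * b
    | mid v i t =>
      cases b <;> simp only [dd, dl] at h <;> split_ifs at h with h1 h2 <;> cases h
      · obtain ⟨rfl, a, b, c⟩ := h1
        subst h2
        simp only [Fl, Al, Bool.not_false, if_pos a]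
        rw [if_pos ⟨trivial, a, b, c⟩, if_pos (by omega)]
        linear_combination (X * An σ G v) * hθ (K v j) (by omega)
      · obtain ⟨rfl, a, b, c⟩ := h1
        simp only [Fl, Al, Bool.not_false]
        rw [if_pos ⟨trivial, a, b, c⟩, if_pos ⟨trivial, a, by omega, by omega⟩,
          if_pos ⟨trivial, a, by omega, by omega⟩]
        obtain ⟨k, rfl⟩ : ∃ k, t = k + 1 := ⟨t - 1, by omega⟩
        rw [Nat.add_sub_cancel]
        ring
      · obtain ⟨rfl, a, b, c⟩ := h1
        simp only [Fl, Al, Bool.not_true, if_pos a]
        rw [if_pos ⟨trivial, a, b, c⟩, if_pos (by omega), show K v j - t = 1 by omega]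
        linear_combination (X * An σ G v) * hθ (K v j) (by omega)
      · obtain ⟨rfl, a, b, c⟩ := h1
        simp only [Fl, Al, Bool.not_true]
        rw [if_pos ⟨trivial, a, b, c⟩, if_pos ⟨trivial, a, by omega, by omega⟩,
          if_pos ⟨trivial, a, by omega, by omega⟩,
          show K v j - t = (K v j - (t + 1)) + 1 by omega]
        ring
  · rintro x ⟨j, b⟩ hx h
    cases x with
    | node v =>
      cases b <;> simp only [dd, dl] at h <;> simp only [Fl] <;> split_ifs at h ⊢ <;> rfl
    | mid v i t =>
      cases b <;> simp only [dd, dl] at h <;> simp only [Fl] <;> split_ifs at h ⊢ <;> rfl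

end tree

end Pool.Agent.H12.Cog1
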