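import Mathlib
import Pool.Agent.H12.Cog1

/-! The greedy construction of a tree with loops having a prescribed rational cogrowth series. -/
namespace Pool.Agent.H12.Cog2

open PowerSeries Pool.Agent.H12.Cog1

noncomputable def th (k : ℕ) : ℤ⟦X⟧ := invOfUnit (1 + X ^ k) 1

lemma th_mul {k : ℕ} (hk : 2 ≤ k) : (1 + X ^ k) * th k = 1 :=
  mul_invOfUnit _ _ (by simp; omega)

lemma th_coeff {k : ℕ} (hk : 2 ≤ k) (n : ℕ) :
    coeff n (th k) = (if n = 0 then 1 else 0) - if k ≤ n then coeff (n - k) (th k) else 0 := by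
  have := congrArg (coeff n) (th_mul hk)
  rw [add_mul, one_mul, map_add, coeff_X_pow_mul', coeff_one] at this
  rw [← this]; ring

lemma th_bound {k : ℕ} (hk : 2 ≤ k) (n : ℕ) : |coeff n (th k)| ≤ 1 := by
  induction n using Nat.strong_induction_on with
  | _ n ih =>
    rw [th_coeff hk]
    split_ifs with h1 h2 h2
    · omega
    · simp
    · rw [zero_sub, abs_neg]; exact ih _ (by omega)
    · simp

def Qw (q : ℤ⟦X⟧) : Prop := coeff 0 q = 1 ∧ coeff 1 q = -100 ∧ ∀ n, 2 ≤ n → |coeff n q| ≤ 2 ^ n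

lemma conv {q e : ℤ⟦X⟧} (hq : Qw q) {E : ℤ} (he : ∀ k, |coeff k e| ≤ E) (n : ℕ) :
    |coeff n (q * e)| ≤ E * (100 + 2 ^ (n + 1)) := by
  have hE : 0 ≤ E := (abs_nonneg _).trans (he 0)
  have hs : ∀ n, ∑ i ∈ Finset.range (n + 1), |coeff i q| ≤ 100 + 2 ^ (n + 1) := by
    intro n
    induction n with
    | zero => simp only [zero_add, Finset.range_one, Finset.sum_singleton, hq.1]; norm_num
    | succ n ih =>
      rcases n with _ | n
      · simp only [Finset.sum_range_succ, Finset.range_zero, Finset.sum_empty, zero_add, hq.1,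
          hq.2.1]; norm_num
      · rw [Finset.sum_range_succ]
        have := hq.2.2 (n + 1 + 1) (by omega)
        rw [pow_succ 2 (n + 1 + 1)]
        linarith
  rw [coeff_mul, Finset.Nat.sum_antidiagonal_eq_sum_range_succ
    (fun i j => coeff i q * coeff j e)]
  calc _ ≤ ∑ i ∈ Finset.range (n + 1), |coeff i q * coeff (n - i) e| :=
        Finset.abs_sum_le_sum_abs _ _
    _ ≤ ∑ i ∈ Finset.range (n + 1), E * |coeff i q| := by
        refine Finset.sum_le_sum fun i _ => ?_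
        rw [abs_mul, mul_comm]
        exact mul_le_mul_of_nonneg_right (he _) (abs_nonneg _)
    _ ≤ _ := by rw [← Finset.mul_sum]; exact mul_le_mul_of_nonneg_left (hs n) hE

noncomputable def peel (m : ℕ) (ξ : ℤ⟦X⟧) : ℤ⟦X⟧ :=
  mk fun n => coeff (n + 1) (ξ - C (coeff 0 ξ) * th m)

lemma peel_eq {m : ℕ} (hm : 2 ≤ m) (ξ : ℤ⟦X⟧) : X * peel m ξ = ξ - C (coeff 0 ξ) * th m := by
  ext n
  cases n with
  | zero =>
    rw [coeff_zero_X_mul, map_sub, coeff_C_mul, th_coeff hm, if_pos rfl, if_neg (by omega)]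
    simp
  | succ n => rw [coeff_succ_X_mul, peel, coeff_mk]

lemma c0 {q : ℤ⟦X⟧} (hq : Qw q) (ξ : ℤ⟦X⟧) : coeff 0 (q * ξ) = coeff 0 ξ := by
  have := hq.1
  simp only [coeff_zero_eq_constantCoeff, map_mul] at this ⊢
  rw [this, one_mul]

lemma peel_bound {q ξ : ℤ⟦X⟧} (hq : Qw q) {m : ℕ} (hm : 2 ≤ m) (ha : 0 < coeff 0 ξ)
    (hp : ∀ n, 1 ≤ n → |coeff n (q * ξ)| ≤ 4 * coeff 0 ξ * 2 ^ n) :
    92 * coeff 0 ξ ≤ coeff 0 (peel m ξ) ∧ coeff 0 (peel m ξ) ≤ 108 * coeff 0 ξ ∧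
      ∀ n, 1 ≤ n → |coeff n (q * peel m ξ)| ≤ coeff 0 (peel m ξ) * 2 ^ n := by
  have key : ∀ n, coeff n (q * peel m ξ) =
      coeff (n + 1) (q * ξ) - coeff 0 ξ * coeff (n + 1) (q * th m) := by
    intro n
    rw [← coeff_succ_X_mul, mul_left_comm, peel_eq hm, mul_sub, map_sub, mul_left_comm,
      coeff_C_mul]
  have h1 : coeff 1 (q * th m) = -100 := by
    rw [coeff_mul, Finset.Nat.antidiagonal_succ]
    simp only [Finset.Nat.antidiagonal_zero, Finset.map_singleton, Finset.sum_cons,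
      Finset.sum_singleton, Function.Embedding.prodMap, Function.Embedding.coeFn_mk, Prod.map,
      Nat.succ_eq_add_one, zero_add, Function.Embedding.refl_apply]
    rw [hq.1, hq.2.1, th_coeff hm 1, th_coeff hm 0, if_neg (by omega), if_neg (by omega),
      if_pos rfl, if_neg (by omega)]
    simp
  have h2 := key 0
  rw [c0 hq, zero_add, h1] at h2
  have h3 := abs_le.1 (hp 1 le_rfl)
  have h4 : 92 * coeff 0 ξ ≤ coeff 0 (peel m ξ) := by linarith [h3.1]
  refine ⟨h4, by linarith [h3.2], fun n hn => ?_⟩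
  rw [key]
  have b1 := hp (n + 1) (by omega)
  have b2 := conv hq (th_bound hm) (n + 1)
  have b3 : (2 : ℤ) ≤ 2 ^ n := by
    calc (2 : ℤ) = 2 ^ 1 := by norm_num
      _ ≤ 2 ^ n := pow_le_pow_right₀ (by norm_num) hn
  have b4 := abs_sub (coeff (n + 1) (q * ξ)) (coeff 0 ξ * coeff (n + 1) (q * th m))
  rw [abs_mul, abs_of_pos ha] at b4
  have b5 := mul_le_mul_of_nonneg_left b2 ha.le
  rw [pow_succ, pow_succ] at b5
  rw [pow_succ] at b1
  nlinarith

lemma hermite (B : ℕ) (hB : 0 < B) (b : ℤ) : ∑ j ∈ Finset.range B, (b + j) / (B : ℤ) = b := by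
  have step : ∀ b : ℤ, ∑ j ∈ Finset.range B, (b + 1 + j) / (B : ℤ) =
      ∑ j ∈ Finset.range B, (b + j) / (B : ℤ) + 1 := by
    intro b
    have h1 := Finset.sum_range_succ (fun j : ℕ => (b + j) / (B : ℤ)) B
    have h2 := Finset.sum_range_succ' (fun j : ℕ => (b + j) / (B : ℤ)) B
    have h3 : (b + B) / (B : ℤ) = b / B + 1 := by
      rw [Int.add_ediv_of_dvd_right dvd_rfl, Int.ediv_self (by omega)]
    have h4 : ∑ j ∈ Finset.range B, (b + 1 + j) / (B : ℤ) =
        ∑ j ∈ Finset.range B, (b + (j + 1 : ℕ)) / (B : ℤ) :=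
      Finset.sum_congr rfl fun j _ => by congr 1; push_cast; ring
    simp only [Nat.cast_zero, add_zero] at h2
    linarith
  induction b using Int.induction_on with
  | zero =>
    refine Finset.sum_eq_zero fun j hj => ?_
    have := Finset.mem_range.1 hj
    exact Int.ediv_eq_zero_of_lt (by omega) (by omega)
  | succ n ih => rw [step, ih]
  | pred n ih =>
    have := step (-n - 1)
    rw [sub_add_cancel, ih] at this
    linarith

noncomputable def nb (ξ : ℤ⟦X⟧) : ℕ := (coeff 0 ξ / 100).toNat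

noncomputable def spl (ξ : ℤ⟦X⟧) (j : ℕ) : ℤ⟦X⟧ := mk fun n => (coeff n ξ + j) / (nb ξ : ℤ)

lemma spl_sum (ξ : ℤ⟦X⟧) (h : 0 < nb ξ) : ∑ j ∈ Finset.range (nb ξ), spl ξ j = ξ := by
  ext n
  rw [map_sum]
  simp only [spl, coeff_mk]
  exact hermite _ h _

lemma spl_bound {q ξ : ℤ⟦X⟧} (hq : Qw q) (ha : 10000 ≤ coeff 0 ξ)
    (hp : ∀ n, 1 ≤ n → |coeff n (q * ξ)| ≤ coeff 0 ξ * 2 ^ n) {j : ℕ} (hj : j < nb ξ) :
    100 ≤ coeff 0 (spl ξ j) ∧ coeff 0 (spl ξ j) ≤ 101 ∧
      ∀ n, |coeff n (q * spl ξ j)| ≤ 153 * 2 ^ n := by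
  have hB : (nb ξ : ℤ) = coeff 0 ξ / 100 := by rw [nb]; omega
  have hB0 : (0 : ℤ) < nb ξ := by omega
  have a1 : 100 ≤ coeff 0 (spl ξ j) := by
    rw [spl, coeff_mk, Int.le_ediv_iff_mul_le hB0]; omega
  have a2 : coeff 0 (spl ξ j) ≤ 101 := by
    rw [spl, coeff_mk, ← Int.lt_add_one_iff, Int.ediv_lt_iff_lt_mul hB0]; omega
  refine ⟨a1, a2, fun n => ?_⟩
  rcases Nat.eq_zero_or_pos n with rfl | hn
  · rw [c0 hq, abs_le]; constructor <;> omega
  have he : ∀ k, |coeff k (C (nb ξ : ℤ) * spl ξ j - ξ)| ≤ nb ξ := by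
    intro k
    rw [map_sub, coeff_C_mul, spl, coeff_mk]
    have h1 := Int.mul_ediv_add_emod (coeff k ξ + j) (nb ξ)
    have h2 := Int.emod_nonneg (coeff k ξ + j) hB0.ne'
    have h3 := Int.emod_lt_of_pos (coeff k ξ + j) hB0
    rw [abs_le]; constructor <;> omega
  have b2 := conv hq he n
  rw [mul_sub, map_sub, mul_left_comm, coeff_C_mul] at b2
  have b1 := hp n hn
  have b3 : (2 : ℤ) ≤ 2 ^ n := by
    calc (2 : ℤ) = 2 ^ 1 := by norm_num
      _ ≤ 2 ^ n := pow_le_pow_right₀ (by norm_num) hn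
  have b4 := abs_add_le ((nb ξ : ℤ) * coeff n (q * spl ξ j) - coeff n (q * ξ)) (coeff n (q * ξ))
  rw [sub_add_cancel, abs_mul, abs_of_pos hB0] at b4
  have b5 : coeff 0 ξ ≤ 101 * nb ξ := by omega
  rw [pow_succ] at b2
  refine le_of_mul_le_mul_left ?_ hB0
  nlinarith

noncomputable def x3 (m : ℕ) (ξ : ℤ⟦X⟧) : ℤ⟦X⟧ := peel (m + 2) (peel (m + 1) (peel m ξ))

noncomputable def xi : List ℕ → ℤ⟦X⟧
  | [] => mk fun n => 100 ^ (n + 1)
  | j :: v => spl (x3 (10 + v.length) (xi v)) j * invOfUnit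
      (1 + 2 * (1 - X ^ 2) * X ^ (10 + v.length + 1) * spl (x3 (10 + v.length) (xi v)) j) 1

noncomputable def B (v : List ℕ) : ℕ := nb (x3 (10 + v.length) (xi v))

def Inv (m : ℕ) (ξ : ℤ⟦X⟧) : Prop := ∃ q : ℤ⟦X⟧, coeff 0 q = 1 ∧ coeff 1 q = -100 ∧
  (∀ n, 2 ≤ n → 2 ^ m * |coeff n q| ≤ (2 ^ m - 1000) * 2 ^ n) ∧ 100 ≤ coeff 0 ξ ∧
  coeff 0 ξ ≤ 101 ∧ ∀ n, |coeff n (q * ξ)| ≤ 153 * 2 ^ n

lemma xi_nil : (1 - 100 * X) * xi [] = 100 := by
  ext n
  have h : (100 : ℤ⟦X⟧) = C 100 := rfl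
  rw [sub_mul, one_mul, mul_assoc, h, map_sub, coeff_C_mul, coeff_C]
  cases n with
  | zero => rw [coeff_zero_X_mul]; simp [xi]
  | succ n => rw [coeff_succ_X_mul]; simp [xi]; ring

lemma three {m : ℕ} (hm : 2 ≤ m) {ξ q : ℤ⟦X⟧} (hq : Qw q) (h4 : 100 ≤ coeff 0 ξ)
    (h5 : coeff 0 ξ ≤ 101) (h6 : ∀ n, |coeff n (q * ξ)| ≤ 153 * 2 ^ n) :
    0 ≤ coeff 0 (peel m ξ) ∧ coeff 0 (peel m ξ) ≤ 2000000 ∧
    0 ≤ coeff 0 (peel (m + 1) (peel m ξ)) ∧ coeff 0 (peel (m + 1) (peel m ξ)) ≤ 2000000 ∧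
    10000 ≤ coeff 0 (x3 m ξ) ∧ coeff 0 (x3 m ξ) ≤ 200000000 ∧
    ∀ n, 1 ≤ n → |coeff n (q * x3 m ξ)| ≤ coeff 0 (x3 m ξ) * 2 ^ n := by
  have p2 : ∀ n : ℕ, (0 : ℤ) < 2 ^ n := fun n => by positivity
  obtain ⟨a1, a2, a3⟩ := peel_bound hq hm (ξ := ξ) (by omega) fun n _ =>
    (h6 n).trans (by nlinarith [p2 n])
  obtain ⟨b1, b2, b3⟩ := peel_bound hq (m := m + 1) (ξ := peel m ξ) (by omega) (by omega)
    fun n hn => (a3 n hn).trans (by nlinarith [p2 n])
  obtain ⟨c1, c2, c3⟩ := peel_bound hq (m := m + 2) (ξ := peel (m + 1) (peel m ξ)) (by omega)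
    (by omega) fun n hn => (b3 n hn).trans (by nlinarith [p2 n])
  rw [x3]
  exact ⟨by omega, by omega, by omega, by omega, by omega, by omega, c3⟩

lemma Qw_of {m : ℕ} {q : ℤ⟦X⟧} (h1 : coeff 0 q = 1) (h2 : coeff 1 q = -100)
    (h3 : ∀ n, 2 ≤ n → 2 ^ m * |coeff n q| ≤ (2 ^ m - 1000) * 2 ^ n) : Qw q := by
  refine ⟨h1, h2, fun n hn => ?_⟩
  have p1 : (0 : ℤ) < 2 ^ n := by positivity
  refine le_of_mul_le_mul_left ((h3 n hn).trans ?_) (show (0 : ℤ) < 2 ^ m by positivity)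
  nlinarith

lemma unit_mul (m : ℕ) (s : ℤ⟦X⟧) : (1 + 2 * (1 - X ^ 2) * X ^ (m + 1) * s) *
    invOfUnit (1 + 2 * (1 - X ^ 2) * X ^ (m + 1) * s) 1 = 1 :=
  mul_invOfUnit _ _ (by simp)

lemma inv_all (v : List ℕ) (hv : valid B v) : Inv (10 + v.length) (xi v) := by
  induction v with
  | nil =>
    refine ⟨1 - 100 * X, by simp, ?_, ?_, by simp [xi], by simp [xi], ?_⟩
    · have h : (100 : ℤ⟦X⟧) = C 100 := rfl
      rw [map_sub, h, coeff_C_mul]; simp [coeff_one]
    · intro n hn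
      have h : (100 : ℤ⟦X⟧) = C 100 := rfl
      rw [map_sub, h, coeff_C_mul, coeff_one, coeff_X, if_neg (by omega), if_neg (by omega)]
      simp
    · intro n
      have h : (100 : ℤ⟦X⟧) = C 100 := rfl
      rw [xi_nil, h, coeff_C]
      split_ifs with h
      · subst h; norm_num
      · simp
  | cons j v ih =>
    obtain ⟨q, h1, h2, h3, h4, h5, h6⟩ := ih hv.1
    have hq := Qw_of h1 h2 h3
    obtain ⟨-, -, -, -, a1, -, a2⟩ := three (m := 10 + v.length) (by omega) hq h4 h5 h6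
    obtain ⟨b1, b2, b3⟩ := spl_bound hq a1 a2 hv.2
    rw [xi, List.length_cons, ← add_assoc]
    have hm : 10 ≤ 10 + v.length := by omega
    generalize 10 + v.length = m at *
    generalize spl (x3 m (xi v)) j = s at *
    have hu := unit_mul m s
    generalize invOfUnit (1 + 2 * (1 - X ^ 2) * X ^ (m + 1) * s) 1 = u at *
    have hu0 : coeff 0 (s * u) = coeff 0 s := by
      have := congrArg constantCoeff hu
      simp at this
      simp [this]
    have e : q * (1 + 2 * (1 - X ^ 2) * X ^ (m + 1) * s) =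
        q + C 2 * (X ^ (m + 1) * (q * s) - X ^ (m + 3) * (q * s)) := by
      have h : (C 2 : ℤ⟦X⟧) = 2 := rfl
      rw [h]; ring
    have hX : ∀ d n, 2 ^ d * |coeff n (X ^ d * (q * s))| ≤ 153 * 2 ^ n := by
      intro d n
      rw [coeff_X_pow_mul']
      split_ifs with h
      · obtain ⟨k, rfl⟩ := Nat.exists_eq_add_of_le h
        rw [Nat.add_sub_cancel_left, pow_add]
        have := b3 k
        have p1 : (0 : ℤ) < 2 ^ d := by positivity
        nlinarith
      · simp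
    refine ⟨q * (1 + 2 * (1 - X ^ 2) * X ^ (m + 1) * s), ?_, ?_, ?_, by omega, by omega, ?_⟩
    · rw [e, map_add, coeff_C_mul, map_sub, coeff_X_pow_mul', coeff_X_pow_mul', if_neg (by omega),
        if_neg (by omega), h1]
      simp
    · rw [e, map_add, coeff_C_mul, map_sub, coeff_X_pow_mul', coeff_X_pow_mul', if_neg (by omega),
        if_neg (by omega), h2]
      simp
    · intro n hn
      rw [e, map_add, coeff_C_mul, map_sub]
      have c1 := hX (m + 1) n
      have c2 := hX (m + 3) n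
      have c3 := h3 n hn
      generalize coeff n (X ^ (m + 1) * (q * s)) = y at *
      generalize coeff n (X ^ (m + 3) * (q * s)) = z at *
      have c4 : |coeff n q + 2 * (y - z)| ≤ |coeff n q| + 2 * (|y| + |z|) := by
        refine (abs_add_le _ _).trans ?_
        rw [abs_mul, abs_two]
        linarith [abs_sub y z]
      have p1 : (0 : ℤ) < 2 ^ m := by positivity
      have p2 : (0 : ℤ) < 2 ^ n := by positivity
      have c5 := mul_le_mul_of_nonneg_left c4 p1.le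
      have c6 := mul_nonneg p1.le (abs_nonneg z)
      rw [pow_add] at c1 c2 ⊢
      nlinarith
    · intro n
      have : q * (1 + 2 * (1 - X ^ 2) * X ^ (m + 1) * s) * (s * u) = q * s := by
        linear_combination (q * s) * hu
      rw [this]
      exact b3 n

noncomputable def K (v : List ℕ) (j : ℕ) : ℕ :=
  if j < 4000000 then (if (j : ℤ) - 2000000 < coeff 0 (xi v) then 10 + v.length else 0)
  else if j < 6000000 then
    (if (j : ℤ) - 4000000 < coeff 0 (peel (10 + v.length) (xi v)) then 10 + v.length + 1 else 0)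
  else if (j : ℤ) - 6000000 < coeff 0 (peel (10 + v.length + 1) (peel (10 + v.length) (xi v)))
    then 10 + v.length + 2 else 0

noncomputable def psi (v : List ℕ) : ℤ⟦X⟧ := 2 * X ^ (10 + v.length) * xi v

noncomputable def sig : List ℕ → ℤ⟦X⟧
  | [] => 0
  | j :: v => 2 * X ^ (10 + v.length + 1) * spl (x3 (10 + v.length) (xi v)) j

noncomputable def G (v : List ℕ) : ℤ⟦X⟧ := invOfUnit (1 - psi v) 1

lemma G_mul (v : List ℕ) : G v * (1 - psi v) = 1 := by
  rw [mul_comm]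
  exact mul_invOfUnit _ _ (by simp [psi])

lemma facts (v : List ℕ) (hv : valid B v) : 0 < B v ∧ B v ≤ 2000000 ∧ 100 ≤ coeff 0 (xi v) ∧
    coeff 0 (xi v) ≤ 101 ∧ 0 ≤ coeff 0 (peel (10 + v.length) (xi v)) ∧
    coeff 0 (peel (10 + v.length) (xi v)) ≤ 2000000 ∧
    0 ≤ coeff 0 (peel (10 + v.length + 1) (peel (10 + v.length) (xi v))) ∧
    coeff 0 (peel (10 + v.length + 1) (peel (10 + v.length) (xi v))) ≤ 2000000 := by
  obtain ⟨q, h1, h2, h3, h4, h5, h6⟩ := inv_all v hv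
  obtain ⟨a, b, c, d, e, f, -⟩ := three (m := 10 + v.length) (by omega) (Qw_of h1 h2 h3) h4 h5 h6
  rw [B, nb]
  exact ⟨by omega, by omega, h4, h5, a, b, c, d⟩

lemma sum_thr (M : ℕ) (a : ℤ) (h0 : 0 ≤ a) (h1 : a ≤ M) (f : ℤ⟦X⟧) (g : ℕ → ℤ⟦X⟧)
    (hg : ∀ i < M, g i = if (i : ℤ) < a then f else 0) :
    ∑ i ∈ Finset.range M, g i = C a * f := by
  obtain ⟨k, rfl⟩ := Int.eq_ofNat_of_zero_le h0
  rw [← Finset.sum_subset (Finset.range_mono (show k ≤ M by omega))]
  · rw [Finset.sum_congr rfl (g := fun _ => f)]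
    · simp
    · intro i hi
      have := Finset.mem_range.1 hi
      rw [hg i (by omega), if_pos (by omega)]
  · intro i h2 h3
    simp only [Finset.mem_range] at h2 h3
    rw [hg i h2, if_neg (by omega)]

lemma psi_eq (v : List ℕ) (hv : valid B v) :
    psi v = ∑ j ∈ Finset.range (B v), X ^ 2 * sig (j :: v) +
      ∑ i ∈ Finset.range (2000000 + 2000000 + 2000000), if 2 ≤ K v (2000000 + i) then
        2 * (X ^ K v (2000000 + i) * th (K v (2000000 + i))) else 0 := by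
  obtain ⟨a1, a2, a3, a4, a5, a6, a7, a8⟩ := facts v hv
  rw [Finset.sum_range_add, Finset.sum_range_add,
    sum_thr 2000000 _ (by omega) (show coeff 0 (xi v) ≤ (2000000 : ℕ) by omega)
      (2 * (X ^ (10 + v.length) * th (10 + v.length))),
    sum_thr 2000000 _ a5 a6 (2 * (X ^ (10 + v.length + 1) * th (10 + v.length + 1))),
    sum_thr 2000000 _ a7 a8 (2 * (X ^ (10 + v.length + 2) * th (10 + v.length + 2)))]
  · simp only [sig, ← mul_assoc]
    rw [← Finset.mul_sum, B, spl_sum _ a1, psi, x3]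
    have e1 := peel_eq (m := 10 + v.length) (by omega) (xi v)
    have e2 := peel_eq (m := 10 + v.length + 1) (by omega) (peel (10 + v.length) (xi v))
    have e3 := peel_eq (m := 10 + v.length + 2) (by omega)
      (peel (10 + v.length + 1) (peel (10 + v.length) (xi v)))
    linear_combination (-2 * X ^ (10 + v.length)) * e1 - (2 * X ^ (10 + v.length + 1)) * e2 -
      (2 * X ^ (10 + v.length + 2)) * e3
  all_goals
    intro i hi
    unfold K
    split_ifs <;> first | rfl | omega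

theorem final : ¬ (sub (dd_inv 2000000 B K (2000000 + (2000000 + 2000000 + 2000000)))
      (.node [])).FG ∧ ∃ F : ℤ⟦X⟧, (1 - 100 * X - 200 * X ^ 10) * F = 1 - 100 * X ∧
      ∀ n, coeff n F = ({g | g ∈ sub (dd_inv 2000000 B K (2000000 + (2000000 + 2000000 + 2000000)))
        (.node []) ∧ g.norm = n}.ncard : ℤ) := by
  have hv : ∀ d, valid B (List.replicate d 0) := by
    intro d
    induction d with
    | zero => trivial
    | succ d ih => exact ⟨ih, (facts _ ih).1⟩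
  refine ⟨not_fg _ _ _ _ (by omega) (by omega) (fun d => (facts _ (hv d)).1) fun d => ?_,
    G [], ?_, series _ B K psi sig G th _ (fun k hk => th_mul hk) (fun v hv => (facts v hv).2.1)
      (fun v _ => G_mul v) ?_ psi_eq⟩
  · have := (facts _ (hv d)).2.2.1
    unfold K
    rw [if_pos (by omega), if_pos (by omega)]
    omega
  · have h1 := G_mul []
    have h2 := xi_nil
    simp only [psi, List.length_nil, add_zero] at h1
    linear_combination (1 - 100 * X) * h1 + (2 * X ^ 10 * G []) * h2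
  · intro j v _
    have := unit_mul (10 + v.length) (spl (x3 (10 + v.length) (xi v)) j)
    rw [psi, xi, sig, List.length_cons, ← add_assoc]
    linear_combination (2 * X ^ (10 + v.length + 1) * spl (x3 (10 + v.length) (xi v)) j) * this

end Pool.Agent.H12.Cog2
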