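import Mathlib

namespace Pool.Agent.H12.Cok

open MeasureTheory Set Filter Topology
open scoped ENNReal

section Resample

variable {ι A : Type*} [Fintype ι] [DecidableEq ι] [MeasurableSpace A]
  (ν : Measure A) [IsProbabilityMeasure ν]

lemma resample (s : Finset ι) :
    MeasurePreserving (fun z : (ι → A) × (ι → A) => s.piecewise z.2 z.1)
      ((Measure.pi fun _ : ι => ν).prod (Measure.pi fun _ : ι => ν))
      (Measure.pi fun _ : ι => ν) := by
  have hm : Measurable (fun z : (ι → A) × (ι → A) => s.piecewise z.2 z.1) := by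
    refine measurable_pi_lambda _ fun i => ?_
    by_cases hi : i ∈ s
    · simp only [Finset.piecewise, hi, if_true]; fun_prop
    · simp only [Finset.piecewise, hi, if_false]; fun_prop
  refine ⟨hm, ?_⟩
  symm
  refine Measure.pi_eq fun t ht => ?_
  rw [Measure.map_apply hm (MeasurableSet.univ_pi ht)]
  have : (fun z : (ι → A) × (ι → A) => s.piecewise z.2 z.1) ⁻¹' (Set.pi univ t) =
      (Set.pi univ fun i => if i ∈ s then univ else t i) ×ˢ
        (Set.pi univ fun i => if i ∈ s then t i else univ) := by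
    ext z
    simp only [mem_preimage, Set.mem_pi, mem_univ, forall_true_left, mem_prod]
    constructor
    · intro h
      constructor
      · intro i
        have := h i
        by_cases hi : i ∈ s
        · simp [hi]
        · simpa [hi, Finset.piecewise] using this
      · intro i
        have := h i
        by_cases hi : i ∈ s
        · simpa [hi, Finset.piecewise] using this
        · simp [hi]
    · rintro ⟨h1, h2⟩ i
      by_cases hi : i ∈ s
      · simpa [hi, Finset.piecewise] using h2 i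
      · simpa [hi, Finset.piecewise] using h1 i
  rw [this, Measure.prod_prod, Measure.pi_pi, Measure.pi_pi, ← Finset.prod_mul_distrib]
  refine Finset.prod_congr rfl fun i _ => ?_
  by_cases hi : i ∈ s <;> simp [hi]

lemma resample_apply (s : Finset ι) {S : Set (ι → A)} (hS : MeasurableSet S) :
    (Measure.pi fun _ : ι => ν) S =
      ∫⁻ x, (Measure.pi fun _ : ι => ν) {y | s.piecewise y x ∈ S}
        ∂(Measure.pi fun _ : ι => ν) := by
  rw [← (resample ν s).measure_preimage hS.nullMeasurableSet,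
    Measure.prod_apply ((resample ν s).measurable hS)]
  rfl

end Resample

section Hit

variable {A : Type*} [AddCommGroup A] [MeasurableSpace A] [MeasurableAdd A]
  (ν : Measure A) [IsProbabilityMeasure ν] [ν.IsAddLeftInvariant]
  {p : ℕ} [Fact p.Prime] {n : ℕ}

omit [AddCommGroup A] [MeasurableAdd A] in
lemma meas_pre {E : Type*} [Finite E] (f : A → E) (hf : ∀ e, MeasurableSet (f ⁻¹' {e}))
    (S : Set E) : MeasurableSet (f ⁻¹' S) := by
  have : f ⁻¹' S = ⋃ e ∈ S, f ⁻¹' {e} := by ext; simp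
  rw [this]
  exact MeasurableSet.biUnion (Set.toFinite S).countable fun e _ => hf e

lemma hit_formula (f : A →+ (Fin n → ZMod p)) (hf : ∀ e, MeasurableSet (f ⁻¹' {e}))
    (U : Submodule (ZMod p) (Fin n → ZMod p)) :
    ν.real {a | f a ∈ U} =
      ((Nat.card (U.mkQ.toAddMonoidHom.comp f).range : ℕ) : ℝ)⁻¹ := by
  set ψ := U.mkQ.toAddMonoidHom.comp f with hψ
  have hker : (ψ.ker : Set A) = {a | f a ∈ U} := by
    ext a; simp [hψ]
  have hmeas : MeasurableSet (ψ.ker : Set A) := by
    rw [hker]; exact meas_pre f hf (U : Set _)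
  have : Finite ((Fin n → ZMod p) ⧸ U) := Finite.of_surjective _ U.mkQ_surjective
  have hidx : ψ.ker.index = Nat.card ψ.range := AddSubgroup.index_ker ψ
  have hpos : 0 < Nat.card ψ.range := Nat.card_pos
  have : ψ.ker.FiniteIndex := ⟨by rw [hidx]; exact hpos.ne'⟩
  have h := AddSubgroup.index_mul_measure ψ.ker hmeas ν
  rw [measure_univ, hidx, hker] at h
  have h2 := congrArg ENNReal.toReal h
  rw [ENNReal.toReal_mul, ENNReal.toReal_natCast, ENNReal.toReal_one] at h2
  have hp : (0 : ℝ) < (Nat.card ψ.range : ℕ) := by exact_mod_cast hpos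
  rw [Measure.real]
  field_simp
  linarith

lemma card_quot (U : Submodule (ZMod p) (Fin n → ZMod p)) :
    Nat.card ((Fin n → ZMod p) ⧸ U) = p ^ (n - Module.finrank (ZMod p) U) := by
  have : Finite ((Fin n → ZMod p) ⧸ U) := Finite.of_surjective _ U.mkQ_surjective
  have h := U.finrank_quotient_add_finrank
  rw [Module.finrank_fin_fun] at h
  rw [Module.natCard_eq_pow_finrank (K := ZMod p), Nat.card_zmod]
  congr 1
  omega

/-- `f` and `U` together fill the whole space. -/
def Fill (f : A →+ (Fin n → ZMod p)) (U : Submodule (ZMod p) (Fin n → ZMod p)) : Prop :=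
  ∀ e, ∃ a, e - f a ∈ U

omit [MeasurableSpace A] [MeasurableAdd A] in
lemma fill_iff (f : A →+ (Fin n → ZMod p)) (U : Submodule (ZMod p) (Fin n → ZMod p)) :
    Fill f U ↔ (U.mkQ.toAddMonoidHom.comp f).range = ⊤ := by
  rw [AddMonoidHom.range_eq_top]
  constructor
  · intro h q
    obtain ⟨e, rfl⟩ := U.mkQ_surjective q
    obtain ⟨a, ha⟩ := h e
    refine ⟨a, ?_⟩
    simp only [AddMonoidHom.coe_comp, Function.comp_apply, LinearMap.toAddMonoidHom_coe,
      Submodule.mkQ_apply]
    exact ((Submodule.Quotient.eq U).2 ha).symm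
  · intro h e
    obtain ⟨a, ha⟩ := h (U.mkQ e)
    refine ⟨a, ?_⟩
    simp only [AddMonoidHom.coe_comp, Function.comp_apply, LinearMap.toAddMonoidHom_coe,
      Submodule.mkQ_apply] at ha
    exact (Submodule.Quotient.eq U).1 ha.symm

lemma hit_eq (f : A →+ (Fin n → ZMod p)) (hf : ∀ e, MeasurableSet (f ⁻¹' {e}))
    (U : Submodule (ZMod p) (Fin n → ZMod p)) (h : Fill f U) :
    ν.real {a | f a ∈ U} = ((p : ℝ) ^ (n - Module.finrank (ZMod p) U))⁻¹ := by
  rw [hit_formula ν f hf U, (fill_iff f U).1 h, AddSubgroup.card_top, card_quot]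
  simp

lemma hit_ge (f : A →+ (Fin n → ZMod p)) (hf : ∀ e, MeasurableSet (f ⁻¹' {e}))
    (U : Submodule (ZMod p) (Fin n → ZMod p)) :
    ((p : ℝ) ^ (n - Module.finrank (ZMod p) U))⁻¹ ≤ ν.real {a | f a ∈ U} := by
  have : Finite ((Fin n → ZMod p) ⧸ U) := Finite.of_surjective _ U.mkQ_surjective
  rw [hit_formula ν f hf U]
  have hpos : 0 < Nat.card (U.mkQ.toAddMonoidHom.comp f).range := Nat.card_pos
  have hle : Nat.card (U.mkQ.toAddMonoidHom.comp f).range ≤ p ^ (n - Module.finrank (ZMod p) U) := by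
    rw [← card_quot]; exact AddSubgroup.card_le_card_addGroup _
  exact inv_anti₀ (by exact_mod_cast hpos) (by exact_mod_cast hle)

lemma hit_ge' (f : A →+ (Fin n → ZMod p)) (hf : ∀ e, MeasurableSet (f ⁻¹' {e}))
    (U : Submodule (ZMod p) (Fin n → ZMod p)) (h : ¬ Fill f U) :
    p * ((p : ℝ) ^ (n - Module.finrank (ZMod p) U))⁻¹ ≤ ν.real {a | f a ∈ U} := by
  have : Finite ((Fin n → ZMod p) ⧸ U) := Finite.of_surjective _ U.mkQ_surjective
  have hp : p.Prime := Fact.out
  rw [hit_formula ν f hf U]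
  set H := (U.mkQ.toAddMonoidHom.comp f).range with hH
  have hpos : 0 < Nat.card H := Nat.card_pos
  have hdvd : Nat.card H ∣ p ^ (n - Module.finrank (ZMod p) U) := by
    rw [← card_quot]; exact AddSubgroup.card_addSubgroup_dvd_card _
  obtain ⟨j, hj, hjH⟩ := (Nat.dvd_prime_pow hp).1 hdvd
  have hne : j ≠ n - Module.finrank (ZMod p) U := by
    intro e
    apply h
    rw [fill_iff, ← hH]
    apply AddSubgroup.eq_top_of_card_eq
    rw [hjH, card_quot, e]
  have hle : p * Nat.card H ≤ p ^ (n - Module.finrank (ZMod p) U) := by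
    rw [hjH, ← pow_succ']
    exact Nat.pow_le_pow_right hp.pos (by omega)
  have hp0 : (0 : ℝ) < p := by exact_mod_cast hp.pos
  have hle' : (p : ℝ) * (Nat.card H : ℕ) ≤ (p : ℝ) ^ (n - Module.finrank (ZMod p) U) := by
    exact_mod_cast hle
  have hc : (0 : ℝ) < (Nat.card H : ℕ) := by exact_mod_cast hpos
  rw [← div_eq_mul_inv, inv_eq_one_div, div_le_div_iff₀ (by positivity) hc]
  linarith

end Hit

section Steps

variable {ι A : Type*} [Fintype ι] [DecidableEq ι] [AddCommGroup A] [MeasurableSpace A]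
  [MeasurableAdd A] (ν : Measure A) [IsProbabilityMeasure ν] [ν.IsAddLeftInvariant]
  {p : ℕ} [Fact p.Prime] {n : ℕ} (φ : ι → A →+ (Fin n → ZMod p))

/-- span of the reductions of the columns in `J` -/
def V (x : ι → A) (J : Finset ι) : Submodule (ZMod p) (Fin n → ZMod p) :=
  Submodule.span (ZMod p) ((fun j => φ j (x j)) '' (J : Set ι))

/-- columns in `J` independent and their span satisfies `Q` -/
def Ev (J : Finset ι) (Q : Submodule (ZMod p) (Fin n → ZMod p) → Prop) : Set (ι → A) :=
  {x | LinearIndepOn (ZMod p) (fun j => φ j (x j)) (J : Set ι) ∧ Q (V φ x J)}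

omit [DecidableEq ι] [MeasurableAdd A] in
lemma meas_event (hφ : ∀ j e, MeasurableSet (φ j ⁻¹' {e}))
    (Q : (ι → Fin n → ZMod p) → Prop) :
    MeasurableSet {x : ι → A | Q (fun j => φ j (x j))} := by
  have : {x : ι → A | Q (fun j => φ j (x j))} =
      ⋃ w ∈ {w | Q w}, ⋂ j, (fun x : ι → A => x j) ⁻¹' (φ j ⁻¹' {w j}) := by
    ext x
    simp only [mem_ofPred_eq, mem_iUnion, mem_iInter, mem_preimage, mem_singleton_iff,
      exists_prop]
    constructor
    · intro h; exact ⟨_, h, fun j => rfl⟩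
    · rintro ⟨w, hw, h⟩
      have : (fun j => φ j (x j)) = w := funext h
      rwa [this]
  rw [this]
  exact MeasurableSet.biUnion (Set.toFinite _).countable fun w _ =>
    MeasurableSet.iInter fun j => measurable_pi_apply j (hφ j _)

omit [DecidableEq ι] [MeasurableAdd A] in
lemma meas_Ev (hφ : ∀ j e, MeasurableSet (φ j ⁻¹' {e})) (J : Finset ι)
    (Q : Submodule (ZMod p) (Fin n → ZMod p) → Prop) : MeasurableSet (Ev φ J Q) :=
  meas_event φ hφ fun w => LinearIndepOn (ZMod p) w (J : Set ι) ∧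
    Q (Submodule.span (ZMod p) (w '' (J : Set ι)))

omit [Fintype ι] [DecidableEq ι] [MeasurableSpace A] [MeasurableAdd A] in
lemma V_congr {x z : ι → A} {J : Finset ι} (h : ∀ j ∈ J, z j = x j) : V φ z J = V φ x J := by
  unfold V
  congr 1
  exact Set.image_congr fun j hj => by rw [h j hj]

omit [Fintype ι] [DecidableEq ι] [MeasurableSpace A] [MeasurableAdd A] in
lemma Ev_congr {x z : ι → A} {J : Finset ι} (h : ∀ j ∈ J, z j = x j)
    (Q : Submodule (ZMod p) (Fin n → ZMod p) → Prop) : z ∈ Ev φ J Q ↔ x ∈ Ev φ J Q := by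
  simp only [Ev, mem_ofPred_eq, V_congr φ h]
  refine and_congr_left fun _ => linearIndepOn_congr fun j hj => ?_
  simp only [h j hj]

omit [Fintype ι] [DecidableEq ι] [MeasurableSpace A] [MeasurableAdd A] in
lemma finrank_V {x : ι → A} {J : Finset ι}
    (h : LinearIndepOn (ZMod p) (fun j => φ j (x j)) (J : Set ι)) :
    Module.finrank (ZMod p) (V φ x J) = J.card := by
  have h1 := finrank_span_eq_card (R := ZMod p) h
  have : Set.range (fun j : (J : Set ι) => φ j (x j)) = (fun j => φ j (x j)) '' (J : Set ι) := by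
    ext; simp
  rw [this] at h1
  unfold V
  convert h1 using 1
  simp

omit [MeasurableAdd A] [ν.IsAddLeftInvariant] in
lemma step_eq (hφ : ∀ j e, MeasurableSet (φ j ⁻¹' {e})) (J : Finset ι) (k : ι) (hk : k ∉ J)
    (Q : Submodule (ZMod p) (Fin n → ZMod p) → Prop) :
    (Measure.pi fun _ : ι => ν) (Ev φ J Q ∩ Ev φ (insert k J) fun _ => True) =
      ∫⁻ x, (Ev φ J Q).indicator (fun x => ν {a | φ k a ∉ V φ x J}) x
        ∂(Measure.pi fun _ : ι => ν) := by
  rw [resample_apply ν {k} ((meas_Ev φ hφ _ _).inter (meas_Ev φ hφ _ _))]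
  refine lintegral_congr fun x => ?_
  have hag : ∀ y : ι → A, ∀ j ∈ J, ({k} : Finset ι).piecewise y x j = x j := by
    intro y j hj
    have : j ≠ k := fun e => hk (e ▸ hj)
    simp [Finset.piecewise, this]
  by_cases hx : x ∈ Ev φ J Q
  · rw [indicator_of_mem hx]
    have : {y : ι → A | ({k} : Finset ι).piecewise y x ∈
        Ev φ J Q ∩ Ev φ (insert k J) fun _ => True} =
        (fun y : ι → A => y k) ⁻¹' {a | φ k a ∉ V φ x J} := by
      ext y
      have h1 := (Ev_congr φ (hag y) Q).2 hx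
      simp only [mem_ofPred_eq, mem_inter_iff, h1, true_and, mem_preimage]
      simp only [Ev, mem_ofPred_eq, and_true, Finset.coe_insert]
      rw [linearIndepOn_insert (by simpa using hk)]
      have h2 : Submodule.span (ZMod p)
          ((fun j => φ j (({k} : Finset ι).piecewise y x j)) '' (J : Set ι)) = V φ x J :=
        V_congr φ (hag y)
      rw [h2]
      simp only [h1.1, true_and]
      simp [Finset.piecewise]
    rw [this]
    have hm : MeasurableSet {a | φ k a ∉ V φ x J} :=
      meas_pre (φ k) (hφ k) ((V φ x J : Set (Fin n → ZMod p))ᶜ)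
    exact (measurePreserving_eval (fun _ : ι => ν) k).measure_preimage hm.nullMeasurableSet
  · rw [indicator_of_notMem hx]
    have : {y : ι → A | ({k} : Finset ι).piecewise y x ∈
        Ev φ J Q ∩ Ev φ (insert k J) fun _ => True} = ∅ := by
      ext y
      have h1 := (Ev_congr φ (hag y) Q).not.2 hx
      simp [h1]
    rw [this, measure_empty]

omit [MeasurableAdd A] [ν.IsAddLeftInvariant] in
lemma compl_real (f : A →+ (Fin n → ZMod p)) (hf : ∀ e, MeasurableSet (f ⁻¹' {e}))
    (U : Submodule (ZMod p) (Fin n → ZMod p)) :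
    ν {a | f a ∉ U} = ENNReal.ofReal (1 - ν.real {a | f a ∈ U}) := by
  have h : {a | f a ∉ U} = {a | f a ∈ U}ᶜ := rfl
  have hm : MeasurableSet {a | f a ∈ U} := meas_pre f hf (U : Set (Fin n → ZMod p))
  rw [h, ← probReal_compl_eq_one_sub hm, ofReal_measureReal]

omit [MeasurableAdd A] [ν.IsAddLeftInvariant] in
lemma step_le (hφ : ∀ j e, MeasurableSet (φ j ⁻¹' {e})) (J : Finset ι) (k : ι) (hk : k ∉ J)
    (Q : Submodule (ZMod p) (Fin n → ZMod p) → Prop) (b : ℝ) (hb1 : b ≤ 1)
    (hb : ∀ x ∈ Ev φ J Q, b ≤ ν.real {a | φ k a ∈ V φ x J}) :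
    (Measure.pi fun _ : ι => ν).real (Ev φ J Q ∩ Ev φ (insert k J) fun _ => True) ≤
      (1 - b) * (Measure.pi fun _ : ι => ν).real (Ev φ J Q) := by
  have h : (Measure.pi fun _ : ι => ν) (Ev φ J Q ∩ Ev φ (insert k J) fun _ => True) ≤
      ENNReal.ofReal (1 - b) * (Measure.pi fun _ : ι => ν) (Ev φ J Q) := by
    rw [step_eq ν φ hφ J k hk Q, ← lintegral_indicator_const (meas_Ev φ hφ _ _)]
    refine lintegral_mono fun x => ?_
    by_cases hx : x ∈ Ev φ J Q
    · rw [indicator_of_mem hx, indicator_of_mem hx, compl_real ν _ (hφ k)]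
      exact ENNReal.ofReal_le_ofReal (by linarith [hb x hx])
    · rw [indicator_of_notMem hx, indicator_of_notMem hx]
  have h2 := ENNReal.toReal_mono (by finiteness) h
  rwa [ENNReal.toReal_mul, ENNReal.toReal_ofReal (by linarith)] at h2

omit [MeasurableAdd A] [ν.IsAddLeftInvariant] in
lemma step_exact (hφ : ∀ j e, MeasurableSet (φ j ⁻¹' {e})) (J : Finset ι) (k : ι) (hk : k ∉ J)
    (Q : Submodule (ZMod p) (Fin n → ZMod p) → Prop) (b : ℝ) (hb1 : b ≤ 1)
    (hb : ∀ x ∈ Ev φ J Q, ν.real {a | φ k a ∈ V φ x J} = b) :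
    (Measure.pi fun _ : ι => ν).real (Ev φ J Q ∩ Ev φ (insert k J) fun _ => True) =
      (1 - b) * (Measure.pi fun _ : ι => ν).real (Ev φ J Q) := by
  have h : (Measure.pi fun _ : ι => ν) (Ev φ J Q ∩ Ev φ (insert k J) fun _ => True) =
      ENNReal.ofReal (1 - b) * (Measure.pi fun _ : ι => ν) (Ev φ J Q) := by
    rw [step_eq ν φ hφ J k hk Q, ← lintegral_indicator_const (meas_Ev φ hφ _ _)]
    refine lintegral_congr fun x => ?_
    by_cases hx : x ∈ Ev φ J Q
    · rw [indicator_of_mem hx, indicator_of_mem hx, compl_real ν _ (hφ k), hb x hx]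
    · rw [indicator_of_notMem hx, indicator_of_notMem hx]
  have h2 := congrArg ENNReal.toReal h
  rwa [ENNReal.toReal_mul, ENNReal.toReal_ofReal (by linarith)] at h2

/-- finite Euler product -/
noncomputable def c (p r : ℕ) : ℝ := ∏ i ∈ Finset.range r, (1 - ((p : ℝ) ^ (i + 1))⁻¹)

lemma inv_pow_le (r : ℕ) : ((p : ℝ) ^ r)⁻¹ ≤ 1 := by
  have hp : p.Prime := Fact.out
  have : (1 : ℝ) ≤ p := by exact_mod_cast hp.one_le
  exact inv_le_one_of_one_le₀ (one_le_pow₀ this)

lemma c_pos (r : ℕ) : 0 < c p r := by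
  have hp : p.Prime := Fact.out
  have : (1 : ℝ) < p := by exact_mod_cast hp.one_lt
  refine Finset.prod_pos fun i _ => ?_
  have h2 : ((p : ℝ) ^ (i + 1))⁻¹ < 1 :=
    inv_lt_one_of_one_lt₀ (one_lt_pow₀ this (Nat.succ_ne_zero i))
  linarith

/-- independence event -/
abbrev D (J : Finset ι) : Set (ι → A) := Ev φ J fun _ => True

omit [Fintype ι] [MeasurableSpace A] [MeasurableAdd A] in
lemma D_insert_sub (J : Finset ι) (k : ι) : D φ (insert k J) ⊆ D φ J := fun _ hx =>
  ⟨hx.1.mono (by simp), trivial⟩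

lemma g_step (hφ : ∀ j e, MeasurableSet (φ j ⁻¹' {e})) (J : Finset ι) (k : ι) (hk : k ∉ J)
    (hJ : J.card < n) :
    (Measure.pi fun _ : ι => ν).real (D φ (insert k J)) * c p (n - (insert k J).card) ≤
      (Measure.pi fun _ : ι => ν).real (D φ J) * c p (n - J.card) := by
  have h := step_le ν φ hφ J k hk (fun _ => True) ((p : ℝ) ^ (n - J.card))⁻¹ (inv_pow_le _)
    (fun x hx => by have := hit_ge ν (φ k) (hφ k) (V φ x J); rwa [finrank_V φ hx.1] at this)
  rw [inter_eq_self_of_subset_right (D_insert_sub φ J k)] at h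
  rw [Finset.card_insert_of_notMem hk]
  obtain ⟨r, hr⟩ : ∃ r, n - J.card = r + 1 := ⟨n - J.card - 1, by omega⟩
  have hr' : n - (J.card + 1) = r := by omega
  rw [hr] at h ⊢
  rw [hr']
  have hc : c p (r + 1) = c p r * (1 - ((p : ℝ) ^ (r + 1))⁻¹) := Finset.prod_range_succ _ _
  rw [hc]
  have := c_pos (p := p) r
  nlinarith

lemma g_step_exact (hφ : ∀ j e, MeasurableSet (φ j ⁻¹' {e})) (J : Finset ι) (k : ι) (hk : k ∉ J)
    (hJ : J.card < n) (hs : Function.Surjective (φ k)) :
    (Measure.pi fun _ : ι => ν).real (D φ (insert k J)) * c p (n - (insert k J).card) =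
      (Measure.pi fun _ : ι => ν).real (D φ J) * c p (n - J.card) := by
  have h := step_exact ν φ hφ J k hk (fun _ => True) ((p : ℝ) ^ (n - J.card))⁻¹ (inv_pow_le _)
    (fun x hx => by
      have := hit_eq ν (φ k) (hφ k) (V φ x J) (fun e => by
        obtain ⟨a, rfl⟩ := hs e
        exact ⟨a, by simp⟩)
      rwa [finrank_V φ hx.1] at this)
  rw [inter_eq_self_of_subset_right (D_insert_sub φ J k)] at h
  rw [Finset.card_insert_of_notMem hk]
  obtain ⟨r, hr⟩ : ∃ r, n - J.card = r + 1 := ⟨n - J.card - 1, by omega⟩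
  have hr' : n - (J.card + 1) = r := by omega
  rw [hr] at h ⊢
  rw [hr']
  have hc : c p (r + 1) = c p r * (1 - ((p : ℝ) ^ (r + 1))⁻¹) := Finset.prod_range_succ _ _
  rw [hc, h]
  ring

lemma g_step_bad (hφ : ∀ j e, MeasurableSet (φ j ⁻¹' {e})) (J : Finset ι) (k : ι) (hk : k ∉ J)
    (r : ℕ) (hJ : J.card + (r + 1) = n) :
    (Measure.pi fun _ : ι => ν).real (D φ (insert k J)) * c p (n - (insert k J).card) ≤
      (Measure.pi fun _ : ι => ν).real (D φ J) * c p (n - J.card) -
      (Measure.pi fun _ : ι => ν).real (Ev φ J fun U => ¬ Fill (φ k) U) *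
        (((p : ℝ) ^ (r + 1))⁻¹ * c p r) := by
  have hp : p.Prime := Fact.out
  have hp2 : (2 : ℝ) ≤ p := by exact_mod_cast hp.two_le
  have hr : n - J.card = r + 1 := by omega
  have hr' : n - (J.card + 1) = r := by omega
  have h1 := step_le ν φ hφ J k hk (fun U => Fill (φ k) U) ((p : ℝ) ^ (r + 1))⁻¹ (inv_pow_le _)
    (fun x hx => by have := hit_ge ν (φ k) (hφ k) (V φ x J); rwa [finrank_V φ hx.1, hr] at this)
  have hb : (p : ℝ) * ((p : ℝ) ^ (r + 1))⁻¹ ≤ 1 := by
    have : (p : ℝ) * ((p : ℝ) ^ (r + 1))⁻¹ = ((p : ℝ) ^ r)⁻¹ := by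
      field_simp
      ring
    rw [this]; exact inv_pow_le _
  have h2 := step_le ν φ hφ J k hk (fun U => ¬ Fill (φ k) U) (p * ((p : ℝ) ^ (r + 1))⁻¹) hb
    (fun x hx => by
      have := hit_ge' ν (φ k) (hφ k) (V φ x J) hx.2; rwa [finrank_V φ hx.1, hr] at this)
  set P := Measure.pi fun _ : ι => ν
  have hsplit : P.real (D φ J) =
      P.real (Ev φ J fun U => Fill (φ k) U) + P.real (Ev φ J fun U => ¬ Fill (φ k) U) := by
    rw [← measureReal_union _ (meas_Ev φ hφ _ _)]
    · congr 1
      ext x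
      simp only [Ev, mem_ofPred_eq, and_true, mem_union]
      tauto
    · rw [Set.disjoint_left]
      intro x h1 h2
      exact h2.2 h1.2
  have hsub : P.real (D φ (insert k J)) ≤
      P.real ((Ev φ J fun U => Fill (φ k) U) ∩ D φ (insert k J)) +
      P.real ((Ev φ J fun U => ¬ Fill (φ k) U) ∩ D φ (insert k J)) := by
    refine le_trans (measureReal_mono ?_) (measureReal_union_le _ _)
    intro x hx
    have := (D_insert_sub φ J k hx).1
    by_cases hf : Fill (φ k) (V φ x J)
    · exact Or.inl ⟨⟨this, hf⟩, hx⟩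
    · exact Or.inr ⟨⟨this, hf⟩, hx⟩
  rw [Finset.card_insert_of_notMem hk, hr, hr', hsplit]
  have hc : c p (r + 1) = c p r * (1 - ((p : ℝ) ^ (r + 1))⁻¹) := Finset.prod_range_succ _ _
  rw [hc]
  have hc0 := c_pos (p := p) r
  set t := ((p : ℝ) ^ (r + 1))⁻¹
  have ht : 0 < t := by positivity
  set a := P.real (Ev φ J fun U => Fill (φ k) U)
  set b := P.real (Ev φ J fun U => ¬ Fill (φ k) U)
  have hb0 : 0 ≤ b := measureReal_nonneg
  have h3 : P.real (D φ (insert k J)) ≤ (1 - t) * a + (1 - 2 * t) * b := by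
    have : (1 - p * t) * b ≤ (1 - 2 * t) * b := by
      apply mul_le_mul_of_nonneg_right _ hb0
      nlinarith
    linarith
  have h4 := mul_le_mul_of_nonneg_right h3 hc0.le
  nlinarith

lemma g_anti (hφ : ∀ j e, MeasurableSet (φ j ⁻¹' {e})) (hn : Fintype.card ι ≤ n)
    (J T : Finset ι) (hJT : J ⊆ T) :
    (Measure.pi fun _ : ι => ν).real (D φ T) * c p (n - T.card) ≤
      (Measure.pi fun _ : ι => ν).real (D φ J) * c p (n - J.card) := by
  have key : ∀ S : Finset ι, Disjoint S J →
      (Measure.pi fun _ : ι => ν).real (D φ (S ∪ J)) * c p (n - (S ∪ J).card) ≤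
      (Measure.pi fun _ : ι => ν).real (D φ J) * c p (n - J.card) := by
    intro S
    induction S using Finset.induction_on with
    | empty => simp
    | insert k S hk ih =>
      intro hd
      rw [Finset.disjoint_insert_left] at hd
      have hk' : k ∉ S ∪ J := by simp [hk, hd.1]
      rw [Finset.insert_union]
      refine le_trans (g_step ν φ hφ _ k hk' ?_) (ih hd.2)
      have h1 := Finset.card_le_univ (insert k (S ∪ J))
      rw [Finset.card_insert_of_notMem hk'] at h1
      omega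
  have := key (T \ J) Finset.sdiff_disjoint
  rwa [Finset.sdiff_union_of_subset hJT] at this

omit [DecidableEq ι] [MeasurableAdd A] [ν.IsAddLeftInvariant] in
lemma D_empty : (Measure.pi fun _ : ι => ν).real (D φ ∅) = 1 := by
  have : D φ (∅ : Finset ι) = univ := by
    ext x; simp [Ev]
  rw [this, probReal_univ]

lemma g_exact (hφ : ∀ j e, MeasurableSet (φ j ⁻¹' {e})) (hn : Fintype.card ι = n)
    (hs : ∀ k, Function.Surjective (φ k)) :
    (Measure.pi fun _ : ι => ν).real (D φ Finset.univ) = c p n := by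
  have key : ∀ S : Finset ι,
      (Measure.pi fun _ : ι => ν).real (D φ S) * c p (n - S.card) = c p n := by
    intro S
    induction S using Finset.induction_on with
    | empty => simp [D_empty]
    | insert k S hk ih =>
      rw [g_step_exact ν φ hφ _ k hk ?_ (hs k), ih]
      have h1 := Finset.card_le_univ (insert k S)
      rw [Finset.card_insert_of_notMem hk] at h1
      omega
  have := key Finset.univ
  rw [Finset.card_univ, hn, Nat.sub_self] at this
  simpa [c] using this

lemma D_lower (hφ : ∀ j e, MeasurableSet (φ j ⁻¹' {e})) (hn : Fintype.card ι = n)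
    (J : Finset ι) :
    (Measure.pi fun _ : ι => ν).real (D φ Finset.univ) ≤
      (Measure.pi fun _ : ι => ν).real (D φ J) * c p (n - J.card) := by
  have := g_anti ν φ hφ hn.le J Finset.univ (Finset.subset_univ _)
  rw [Finset.card_univ, hn, Nat.sub_self] at this
  simpa [c] using this

lemma bad_upper (hφ : ∀ j e, MeasurableSet (φ j ⁻¹' {e})) (hn : Fintype.card ι = n)
    (J : Finset ι) (k : ι) (hk : k ∉ J) (r : ℕ) (hJ : J.card + (r + 1) = n) :
    (Measure.pi fun _ : ι => ν).real (Ev φ J fun U => ¬ Fill (φ k) U) *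
        (((p : ℝ) ^ (r + 1))⁻¹ * c p r) ≤
      c p n - (Measure.pi fun _ : ι => ν).real (D φ Finset.univ) := by
  have h1 := D_lower ν φ hφ hn (insert k J)
  have h2 := g_step_bad ν φ hφ J k hk r hJ
  have h3 := g_anti ν φ hφ hn.le ∅ J (Finset.empty_subset _)
  rw [D_empty] at h3
  simp only [Finset.card_empty, Nat.sub_zero, one_mul] at h3
  linarith

end Steps

end Pool.Agent.H12.Cok
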