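import Mathlib
import Pool.Agent.H12.Cok1

namespace Pool.Agent.H12.Cok

open MeasureTheory Set Filter Topology
open scoped ENNReal

variable {p : ℕ} [Fact p.Prime]

/-- reduction mod p of a vector -/
noncomputable def red (p : ℕ) [Fact p.Prime] (n : ℕ) : (Fin n → ℤ_[p]) →+ (Fin n → ZMod p) :=
  (PadicInt.toZMod (p := p)).toAddMonoidHom.compLeft (Fin n)

lemma red_apply {n : ℕ} (v : Fin n → ℤ_[p]) (i : Fin n) :
    red p n v i = PadicInt.toZMod (v i) := rfl

lemma toZMod_surj : Function.Surjective (PadicInt.toZMod (p := p)) :=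
  ZMod.ringHom_surjective _

lemma red_surj {n : ℕ} : Function.Surjective (red p n) := by
  intro e
  choose v hv using fun i => toZMod_surj (p := p) (e i)
  exact ⟨v, funext hv⟩

lemma red_smul {n : ℕ} (a : ℤ_[p]) (v : Fin n → ℤ_[p]) :
    red p n (a • v) = PadicInt.toZMod a • red p n v := by
  funext i; simp [red_apply]

lemma red_zero {n : ℕ} {v : Fin n → ℤ_[p]} (h : red p n v = 0) :
    ∃ w : Fin n → ℤ_[p], v = (p : ℤ_[p]) • w := by
  have : ∀ i, ∃ w : ℤ_[p], v i = p * w := by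
    intro i
    have h1 : v i ∈ RingHom.ker (PadicInt.toZMod (p := p)) := congrFun h i
    rw [PadicInt.ker_toZMod, PadicInt.maximalIdeal_eq_span_p, Ideal.mem_span_singleton] at h1
    exact h1
  choose w hw using this
  exact ⟨w, funext hw⟩

lemma p_mem : (p : ℤ_[p]) ∈ IsLocalRing.maximalIdeal ℤ_[p] := by
  rw [PadicInt.maximalIdeal_eq_span_p]; exact Ideal.mem_span_singleton_self _

lemma jac : IsLocalRing.maximalIdeal ℤ_[p] ≤ Ideal.jacobson ⊥ :=
  (IsLocalRing.jacobson_eq_maximalIdeal ⊥ bot_ne_top).ge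

lemma nak {n : ℕ} (S : Submodule ℤ_[p] (Fin n → ℤ_[p]))
    (h : ∀ e, ∃ s ∈ S, red p n s = e) : S = ⊤ := by
  rw [eq_top_iff]
  refine Submodule.le_of_le_smul_of_le_jacobson_bot (Module.Finite.fg_top) jac ?_
  intro v _
  obtain ⟨s, hs, hsv⟩ := h (red p n v)
  obtain ⟨w, hw⟩ := red_zero (v := v - s) (by rw [map_sub, hsv, sub_self])
  have : v = s + (p : ℤ_[p]) • w := by rw [← hw]; abel
  rw [this]
  exact Submodule.add_mem_sup hs (Submodule.smul_mem_smul p_mem trivial)

lemma lift_span {n : ℕ} (s : Set (Fin n → ℤ_[p])) {e : Fin n → ZMod p}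
    (he : e ∈ Submodule.span (ZMod p) (red p n '' s)) :
    ∃ v ∈ Submodule.span ℤ_[p] s, red p n v = e := by
  induction he using Submodule.span_induction with
  | mem x hx =>
    obtain ⟨v, hv, rfl⟩ := hx
    exact ⟨v, Submodule.subset_span hv, rfl⟩
  | zero => exact ⟨0, Submodule.zero_mem _, map_zero _⟩
  | add x y _ _ hx hy =>
    obtain ⟨v, hv, rfl⟩ := hx
    obtain ⟨w, hw, rfl⟩ := hy
    exact ⟨v + w, Submodule.add_mem _ hv hw, map_add _ _ _⟩
  | smul a x _ hx =>
    obtain ⟨v, hv, rfl⟩ := hx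
    obtain ⟨b, rfl⟩ := toZMod_surj a
    exact ⟨b • v, Submodule.smul_mem _ _ hv, red_smul _ _⟩

lemma red_span {n : ℕ} (s : Set (Fin n → ℤ_[p])) {v : Fin n → ℤ_[p]}
    (hv : v ∈ Submodule.span ℤ_[p] s) : red p n v ∈ Submodule.span (ZMod p) (red p n '' s) := by
  induction hv using Submodule.span_induction with
  | mem x hx => exact Submodule.subset_span ⟨x, hx, rfl⟩
  | zero => simp
  | add x y _ _ hx hy => rw [map_add]; exact Submodule.add_mem _ hx hy
  | smul a x _ hx => rw [red_smul]; exact Submodule.smul_mem _ _ hx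

lemma span_top_iff {n : ℕ} (v : Fin n → Fin n → ℤ_[p]) :
    Submodule.span ℤ_[p] (range v) = ⊤ ↔
      LinearIndependent (ZMod p) (fun j => red p n (v j)) := by
  have hr : red p n '' range v = range fun j => red p n (v j) := by
    rw [← Set.range_comp]; rfl
  constructor
  · intro h
    refine linearIndependent_of_top_le_span_of_card_eq_finrank ?_ (by simp)
    intro e _
    obtain ⟨w, rfl⟩ := red_surj e
    rw [← hr]
    exact red_span _ (by rw [h]; trivial)
  · intro h
    refine nak _ fun e => lift_span _ ?_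
    rw [hr, h.span_eq_top_of_card_eq_finrank' (by simp)]
    trivial

lemma exists_proj {ι : Type*} {n m : ℕ} (v : ι → Fin n → ℤ_[p]) (J : Finset ι)
    (hJ : J.card + m = n)
    (hU : Module.finrank (ZMod p)
      (Submodule.span (ZMod p) ((fun j => red p n (v j)) '' (J : Set ι))) = J.card) :
    ∃ π : (Fin n → ℤ_[p]) →ₗ[ℤ_[p]] (Fin m → ℤ_[p]), Function.Surjective π ∧
      LinearMap.ker π = Submodule.span ℤ_[p] (v '' (J : Set ι)) := by
  classical
  set U := Submodule.span (ZMod p) ((fun j => red p n (v j)) '' (J : Set ι)) with hUdef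
  have hq : Module.finrank (ZMod p) ((Fin n → ZMod p) ⧸ U) = m := by
    have h := U.finrank_quotient_add_finrank
    rw [Module.finrank_fin_fun, hU] at h
    omega
  let b := Module.finBasisOfFinrankEq (ZMod p) _ hq
  have : ∀ i, ∃ u : Fin n → ℤ_[p], U.mkQ (red p n u) = b i := fun i =>
    (U.mkQ_surjective.comp red_surj) (b i)
  choose u hu using this
  let A1 : (J → ℤ_[p]) →ₗ[ℤ_[p]] (Fin n → ℤ_[p]) :=
    Fintype.linearCombination ℤ_[p] (fun j : J => v j)
  let A2 : (Fin m → ℤ_[p]) →ₗ[ℤ_[p]] (Fin n → ℤ_[p]) := Fintype.linearCombination ℤ_[p] u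
  have hA1 : LinearMap.range A1 = Submodule.span ℤ_[p] (v '' (J : Set ι)) := by
    rw [Fintype.range_linearCombination]
    congr 1
    ext; simp
  let A := A1.coprod A2
  have hsurj : Function.Surjective A := by
    rw [← LinearMap.range_eq_top, LinearMap.range_coprod, hA1]
    refine nak _ fun e => ?_
    have h1 : ∀ i, ∃ a : ℤ_[p], PadicInt.toZMod a = b.repr (U.mkQ e) i := fun i =>
      toZMod_surj _
    choose a ha using h1
    have h2 : e - red p n (A2 a) ∈ U := by
      rw [← Submodule.Quotient.eq, ← Submodule.mkQ_apply, ← Submodule.mkQ_apply]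
      conv_lhs => rw [← b.sum_repr (U.mkQ e)]
      simp only [A2, Fintype.linearCombination_apply, map_sum, red_smul, map_smul, hu, ha]
    have h3 : (fun j => red p n (v j)) '' (J : Set ι) = red p n '' (v '' (J : Set ι)) := by
      rw [Set.image_image]
    rw [hUdef, h3] at h2
    obtain ⟨w, hw, hwe⟩ := lift_span _ h2
    refine ⟨w + A2 a, Submodule.add_mem_sup hw (LinearMap.mem_range_self _ _), ?_⟩
    rw [map_add, hwe]; abel
  have hinj : Function.Injective A := by
    have hrk : Module.finrank ℤ_[p] ((J → ℤ_[p]) × (Fin m → ℤ_[p])) =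
        Module.finrank ℤ_[p] (Fin n → ℤ_[p]) := by
      simp [Module.finrank_prod, hJ]
    let ε := LinearEquiv.ofFinrankEq _ _ hrk
    exact OrzechProperty.injective_of_surjective_of_injective ε.toLinearMap A ε.injective hsurj
  let B := LinearEquiv.ofBijective A ⟨hinj, hsurj⟩
  refine ⟨(LinearMap.snd ℤ_[p] _ _).comp B.symm.toLinearMap, ?_, ?_⟩
  · exact Prod.snd_surjective.comp B.symm.surjective
  · rw [← hA1]
    ext w
    obtain ⟨⟨a, a'⟩, rfl⟩ := B.surjective w
    simp only [LinearMap.mem_ker, LinearMap.coe_comp, Function.comp_apply, LinearEquiv.coe_coe,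
      LinearEquiv.symm_apply_apply, LinearMap.snd_apply, LinearMap.mem_range]
    constructor
    · rintro rfl
      exact ⟨a, by simp [B, A]⟩
    · rintro ⟨a'', h⟩
      have : B (a'', 0) = B (a, a') := by rw [← h]; simp [B, A]
      exact (Prod.ext_iff.1 (B.injective this)).2.symm

lemma fill_surj {ι : Type*} {n m : ℕ} (v : ι → Fin n → ℤ_[p]) (J : Finset ι)
    (π : (Fin n → ℤ_[p]) →ₗ[ℤ_[p]] (Fin m → ℤ_[p])) (hπ : Function.Surjective π)
    (hk : LinearMap.ker π = Submodule.span ℤ_[p] (v '' (J : Set ι)))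
    (T : (Fin n → ℤ_[p]) →ₗ[ℤ_[p]] (Fin n → ℤ_[p]))
    (hf : Fill ((red p n).comp T.toAddMonoidHom)
      (Submodule.span (ZMod p) ((fun j => red p n (v j)) '' (J : Set ι)))) :
    Function.Surjective (π.comp T) := by
  have htop : LinearMap.ker π ⊔ LinearMap.range T = ⊤ := by
    refine nak _ fun e => ?_
    obtain ⟨a, ha⟩ := hf e
    have h3 : (fun j => red p n (v j)) '' (J : Set ι) = red p n '' (v '' (J : Set ι)) := by
      rw [Set.image_image]
    rw [h3] at ha
    obtain ⟨w, hw, hwe⟩ := lift_span _ ha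
    refine ⟨w + T a, Submodule.add_mem_sup (hk ▸ hw) (LinearMap.mem_range_self _ _), ?_⟩
    rw [map_add, hwe]
    simp
  intro y
  obtain ⟨w, rfl⟩ := hπ y
  have : w ∈ LinearMap.ker π ⊔ LinearMap.range T := by rw [htop]; trivial
  obtain ⟨a, ha, b, ⟨b', rfl⟩, rfl⟩ := Submodule.mem_sup.1 this
  exact ⟨b', by simp [LinearMap.mem_ker.1 ha]⟩

lemma cok_transfer {R M N : Type*} [CommRing R] [AddCommGroup M] [AddCommGroup N] [Module R M]
    [Module R N] (π : M →ₗ[R] N) (hπ : Function.Surjective π) (S W : Submodule R M)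
    (S' : Submodule R N) (hS : S = W ⊔ LinearMap.ker π) (hS' : S' = W.map π) :
    Nonempty ((M ⧸ S) ≃ₗ[R] (N ⧸ S')) := by
  have hf : Function.Surjective (S'.mkQ.comp π) := S'.mkQ_surjective.comp hπ
  have hk : S = LinearMap.ker (S'.mkQ.comp π) := by
    rw [LinearMap.ker_comp, Submodule.ker_mkQ, hS', Submodule.comap_map_eq, hS]
  exact ⟨(Submodule.quotEquivOfEq _ _ hk).trans (LinearMap.quotKerEquivOfSurjective _ hf)⟩

lemma isOpen_span_eq {X ι : Type*} [TopologicalSpace X] [Fintype ι] {n : ℕ}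
    (f : X → ι → Fin n → ℤ_[p]) (hf : Continuous f) (S : Submodule ℤ_[p] (Fin n → ℤ_[p]))
    (e : ℕ) (hS : ∀ v, (p : ℤ_[p]) ^ e • v ∈ S) :
    IsOpen {x | Submodule.span ℤ_[p] (range (f x)) = S} := by
  rw [isOpen_iff_mem_nhds]
  intro x hx
  simp only [mem_ofPred_eq] at hx
  have hp : (0 : ℝ) < p := by exact_mod_cast (Fact.out : p.Prime).pos
  have hN : ∀ᶠ x' in 𝓝 x, ∀ j i, ‖f x' j i - f x j i‖ < (p : ℝ) ^ (-((e + 1 : ℕ) : ℤ)) := by
    refine eventually_all.2 fun j => eventually_all.2 fun i => ?_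
    have hc : Continuous fun x' => ‖f x' j i - f x j i‖ := by fun_prop
    refine hc.continuousAt.eventually_lt continuousAt_const ?_
    simp only [sub_self, norm_zero]
    positivity
  filter_upwards [hN] with x' hx'
  have h1 : ∀ j, ∃ w : Fin n → ℤ_[p], f x' j = f x j + (p : ℤ_[p]) • ((p : ℤ_[p]) ^ e • w) := by
    intro j
    have : ∀ i, ∃ w : ℤ_[p], f x' j i - f x j i = (p : ℤ_[p]) ^ (e + 1) * w := by
      intro i
      have := (PadicInt.norm_le_pow_iff_mem_span_pow _ _).1 (hx' j i).le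
      rwa [Ideal.mem_span_singleton] at this
    choose w hw using this
    refine ⟨w, funext fun i => ?_⟩
    have := hw i
    simp only [Pi.add_apply, Pi.smul_apply, smul_eq_mul]
    linear_combination this
  choose w hw using h1
  show Submodule.span ℤ_[p] (range (f x')) = S
  apply le_antisymm
  · rw [Submodule.span_le]
    rintro _ ⟨j, rfl⟩
    rw [hw j]
    exact S.add_mem (hx ▸ Submodule.subset_span ⟨j, rfl⟩) (S.smul_mem _ (hS _))
  · refine Submodule.le_of_le_smul_of_le_jacobson_bot (IsNoetherian.noetherian S) jac ?_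
    conv_lhs => rw [← hx]
    rw [Submodule.span_le]
    rintro _ ⟨j, rfl⟩
    have : f x j = f x' j + (p : ℤ_[p]) • (-((p : ℤ_[p]) ^ e • w j)) := by
      rw [hw j, smul_neg]; abel
    rw [this]
    exact Submodule.add_mem_sup (Submodule.subset_span ⟨j, rfl⟩)
      (Submodule.smul_mem_smul p_mem (S.neg_mem (hS _)))

lemma isOpen_cok {X ι : Type*} [TopologicalSpace X] [Fintype ι] {n : ℕ}
    (f : X → ι → Fin n → ℤ_[p]) (hf : Continuous f) (G : Type*) [AddCommGroup G]
    [Module ℤ_[p] G] (e : ℕ) (hG : ∀ g : G, (p : ℤ_[p]) ^ e • g = 0) :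
    IsOpen {x | Nonempty (((Fin n → ℤ_[p]) ⧸ Submodule.span ℤ_[p] (range (f x))) ≃ₗ[ℤ_[p]] G)} := by
  have : {x | Nonempty (((Fin n → ℤ_[p]) ⧸ Submodule.span ℤ_[p] (range (f x))) ≃ₗ[ℤ_[p]] G)} =
      ⋃ S ∈ {S : Submodule ℤ_[p] (Fin n → ℤ_[p]) |
        Nonempty (((Fin n → ℤ_[p]) ⧸ S) ≃ₗ[ℤ_[p]] G)},
        {x | Submodule.span ℤ_[p] (range (f x)) = S} := by
    ext x
    simp only [mem_ofPred_eq, mem_iUnion, exists_prop]
    constructor
    · intro h; exact ⟨_, h, rfl⟩
    · rintro ⟨S, h, rfl⟩; exact h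
  rw [this]
  refine isOpen_biUnion fun S hS => isOpen_span_eq f hf S e fun v => ?_
  obtain ⟨ε⟩ := hS
  rw [← Submodule.Quotient.mk_eq_zero, ← ε.map_eq_zero_iff, Submodule.Quotient.mk_smul,
    map_smul, hG]

lemma isOpen_red {n : ℕ} (e : Fin n → ZMod p) : IsOpen (red p n ⁻¹' {e}) := by
  obtain ⟨w, rfl⟩ := red_surj e
  have : red p n ⁻¹' {red p n w} = ⋂ i, {v | ‖v i - w i‖ < 1} := by
    ext v
    simp only [mem_preimage, mem_singleton_iff, mem_iInter, mem_ofPred_eq, funext_iff, red_apply]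
    refine forall_congr' fun i => ?_
    rw [← sub_eq_zero, ← map_sub, ← RingHom.mem_ker, PadicInt.ker_toZMod,
      IsLocalRing.mem_maximalIdeal, PadicInt.mem_nonunits]
  rw [this]
  exact isOpen_iInter_of_finite fun i => isOpen_lt (by fun_prop) continuous_const

lemma count_sur {R M G : Type*} [CommRing R] [AddCommGroup M] [AddCommGroup G] [Module R M]
    [Module R G] (S : Submodule R M) (e0 : (M ⧸ S) ≃ₗ[R] G) :
    Nat.card {F : M →ₗ[R] G // Function.Surjective F ∧ S = LinearMap.ker F} =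
      Nat.card (G ≃ₗ[R] G) := by
  symm
  refine Nat.card_eq_of_bijective (fun a => ⟨a.toLinearMap.comp (e0.toLinearMap.comp S.mkQ),
    a.surjective.comp (e0.surjective.comp S.mkQ_surjective), ?_⟩) ⟨?_, ?_⟩
  · ext v; simp
  · intro a b h
    have h1 := congrArg Subtype.val h
    ext g
    obtain ⟨v, rfl⟩ := (e0.surjective.comp S.mkQ_surjective) g
    exact LinearMap.congr_fun h1 v
  · rintro ⟨F, hF, hk⟩
    refine ⟨e0.symm.trans ((Submodule.quotEquivOfEq _ _ hk).trans
      (LinearMap.quotKerEquivOfSurjective _ hF)), ?_⟩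
    ext v
    simp

end Pool.Agent.H12.Cok
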