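import Mathlib
import Pool.Agent.H12.Cok2

namespace Pool.Agent.H12.Cok

open MeasureTheory Set Filter Topology
open scoped ENNReal

variable {p : ℕ} [Fact p.Prime] [MeasurableSpace ℤ_[p]] [BorelSpace ℤ_[p]]
  (μ : Measure ℤ_[p]) [IsProbabilityMeasure μ] [μ.IsAddHaarMeasure]

/-- law of the columns -/
noncomputable abbrev PP (n : ℕ) : Measure (Fin n → Fin n → ℤ_[p]) :=
  Measure.pi fun _ : Fin n => Measure.pi fun _ : Fin n => μ

instance haarCol (n : ℕ) : (Measure.pi fun _ : Fin n => μ).IsAddHaarMeasure := inferInstance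

instance haarPP (n : ℕ) : (PP μ n).IsAddHaarMeasure :=
  Measure.pi.isAddHaarMeasure (fun _ : Fin n => Measure.pi fun _ : Fin n => μ)

/-- cokernel event -/
def Ck {n : ℕ} (T : Fin n → (Fin n → ℤ_[p]) →ₗ[ℤ_[p]] (Fin n → ℤ_[p])) (G : Type*)
    [AddCommGroup G] [Module ℤ_[p] G] : Set (Fin n → Fin n → ℤ_[p]) :=
  {x | Nonempty (((Fin n → ℤ_[p]) ⧸ Submodule.span ℤ_[p] (range fun j => T j (x j))) ≃ₗ[ℤ_[p]] G)}

/-- reduced columns -/
noncomputable def ph {n : ℕ} (T : Fin n → (Fin n → ℤ_[p]) →ₗ[ℤ_[p]] (Fin n → ℤ_[p])) (j : Fin n) :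
    (Fin n → ℤ_[p]) →+ (Fin n → ZMod p) := (red p n).comp (T j).toAddMonoidHom

lemma ph_meas {n : ℕ} (T : Fin n → (Fin n → ℤ_[p]) →ₗ[ℤ_[p]] (Fin n → ℤ_[p])) (j : Fin n)
    (e : Fin n → ZMod p) : MeasurableSet (ph T j ⁻¹' {e}) :=
  ((isOpen_red e).preimage (T j).continuous_on_pi).measurableSet

lemma Ck_meas {n : ℕ} (T : Fin n → (Fin n → ℤ_[p]) →ₗ[ℤ_[p]] (Fin n → ℤ_[p])) (G : Type*)
    [AddCommGroup G] [Module ℤ_[p] G] (e : ℕ) (hG : ∀ g : G, (p : ℤ_[p]) ^ e • g = 0) :
    MeasurableSet (Ck T G) :=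
  (isOpen_cok (fun (x : Fin n → Fin n → ℤ_[p]) j => T j (x j))
    (continuous_pi fun j => (T j).continuous_on_pi.comp (continuous_apply j)) G e hG).measurableSet

omit [MeasurableSpace ℤ_[p]] [BorelSpace ℤ_[p]] in
lemma top_eq_D {n : ℕ} (T : Fin n → (Fin n → ℤ_[p]) →ₗ[ℤ_[p]] (Fin n → ℤ_[p])) :
    {x : Fin n → Fin n → ℤ_[p] | Submodule.span ℤ_[p] (range fun j => T j (x j)) = ⊤} =
      D (ph T) Finset.univ := by
  ext x
  simp only [mem_ofPred_eq, span_top_iff, Ev, and_true, Finset.coe_univ, linearIndepOn_univ_iff]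
  rfl

lemma top_prob (m : ℕ) :
    (PP μ m).real {x | Submodule.span ℤ_[p] (range x) = ⊤} = c p m := by
  have h := top_eq_D (p := p) (n := m) (fun _ => LinearMap.id)
  simp only [LinearMap.id_coe, id_eq] at h
  rw [h]
  exact g_exact _ _ (ph_meas _) (by simp) fun k => red_surj

lemma ker_prob {m : ℕ} {G : Type*} [AddCommGroup G] [Module ℤ_[p] G] [Finite G] (e : ℕ)
    (hG : ∀ g : G, (p : ℤ_[p]) ^ e • g = 0) (F : (Fin m → ℤ_[p]) →ₗ[ℤ_[p]] G)
    (hF : Function.Surjective F) :
    (PP μ m).real {x | Submodule.span ℤ_[p] (range x) = LinearMap.ker F} =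
      c p m / (Nat.card G : ℝ) ^ m := by
  have hp0 : (p : ℤ_[p]) ^ e ≠ 0 := pow_ne_zero _ (by exact_mod_cast (Fact.out : p.Prime).ne_zero)
  have hrk : Module.finrank ℤ_[p] (Fin m → ℤ_[p]) = Module.finrank ℤ_[p] (LinearMap.ker F) := by
    have h := (LinearMap.ker F).finrank_quotient_add_finrank
    have h0 : Module.finrank ℤ_[p] ((Fin m → ℤ_[p]) ⧸ LinearMap.ker F) = 0 := by
      rw [Module.finrank_eq_zero_iff]
      intro q
      refine ⟨_, hp0, ?_⟩
      obtain ⟨v, rfl⟩ := (LinearMap.ker F).mkQ_surjective q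
      rw [← map_smul, Submodule.mkQ_apply, Submodule.Quotient.mk_eq_zero, LinearMap.mem_ker,
        map_smul, hG]
    omega
  let ε := LinearEquiv.ofFinrankEq _ _ hrk
  let ι : (Fin m → ℤ_[p]) →ₗ[ℤ_[p]] (Fin m → ℤ_[p]) := (LinearMap.ker F).subtype.comp ε.toLinearMap
  have hι : Function.Injective ι := (LinearMap.ker F).injective_subtype.comp ε.injective
  have hr : LinearMap.range ι = LinearMap.ker F := by
    simp [ι, LinearMap.range_comp]
  let ιΩ : (Fin m → Fin m → ℤ_[p]) →+ (Fin m → Fin m → ℤ_[p]) :=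
    ι.toAddMonoidHom.compLeft (Fin m)
  have hc : Continuous ιΩ :=
    continuous_pi fun j => ι.continuous_on_pi.comp (continuous_apply j)
  have hi : Function.Injective ιΩ := fun x y h => funext fun j => hι (congrFun h j)
  have hemb : MeasurableEmbedding ιΩ := (hc.isClosedEmbedding hi).measurableEmbedding
  have hspan : ∀ y : Fin m → Fin m → ℤ_[p], Submodule.span ℤ_[p] (range (ιΩ y)) =
      (Submodule.span ℤ_[p] (range y)).map ι := by
    intro y
    rw [Submodule.map_span, ← Set.range_comp]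
    rfl
  have hset : {x | Submodule.span ℤ_[p] (range x) = LinearMap.ker F} =
      ιΩ '' {y | Submodule.span ℤ_[p] (range y) = ⊤} := by
    ext x
    simp only [mem_ofPred_eq, mem_image]
    constructor
    · intro hx
      have : ∀ j, ∃ y, ι y = x j := fun j => by
        have : x j ∈ LinearMap.range ι := by
          rw [hr, ← hx]; exact Submodule.subset_span ⟨j, rfl⟩
        exact this
      choose y hy using this
      have hxy : ιΩ y = x := funext hy
      refine ⟨y, ?_, hxy⟩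
      apply Submodule.map_injective_of_injective hι
      rw [← hspan, hxy, hx, Submodule.map_top, hr]
    · rintro ⟨y, hy, rfl⟩
      rw [hspan, hy, Submodule.map_top, hr]
  have hinv : ((PP μ m).comap ιΩ).IsAddLeftInvariant :=
    Measure.IsAddLeftInvariant.comap _ hemb
  have hfin : IsFiniteMeasure ((PP μ m).comap ιΩ) :=
    ⟨by rw [hemb.comap_apply]; exact measure_lt_top _ _⟩
  have hs := Measure.isAddLeftInvariant_eq_smul ((PP μ m).comap ιΩ) (PP μ m)
  set s := Measure.addHaarScalarFactor ((PP μ m).comap ιΩ) (PP μ m)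
  have h1 : ∀ B, (PP μ m) (ιΩ '' B) = s * (PP μ m) B := by
    intro B
    rw [← hemb.comap_apply, hs]
    rfl
  have hopen : MeasurableSet ((LinearMap.ker F).toAddSubgroup : Set (Fin m → ℤ_[p])) := by
    have : ((LinearMap.ker F).toAddSubgroup : Set (Fin m → ℤ_[p])) = range ι := by
      rw [← hr]; rfl
    rw [this]
    exact (isCompact_range ι.continuous_on_pi).isClosed.measurableSet
  have hidx : (LinearMap.ker F).toAddSubgroup.index = Nat.card G := by
    have h := AddSubgroup.index_ker F.toAddMonoidHom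
    rw [AddMonoidHom.range_eq_top.2 hF, AddSubgroup.card_top] at h
    exact h
  have hpos : 0 < Nat.card G := Nat.card_pos
  have : (LinearMap.ker F).toAddSubgroup.FiniteIndex := ⟨by rw [hidx]; exact hpos.ne'⟩
  have h2 := AddSubgroup.index_mul_measure _ hopen (Measure.pi fun _ : Fin m => μ)
  rw [hidx, measure_univ] at h2
  have h3 : ιΩ '' univ =
      Set.pi univ fun _ => ((LinearMap.ker F).toAddSubgroup : Set (Fin m → ℤ_[p])) := by
    ext x
    simp only [image_univ, mem_range, Set.mem_pi, mem_univ, forall_true_left]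
    constructor
    · rintro ⟨y, rfl⟩ j
      have : ι (y j) ∈ LinearMap.range ι := LinearMap.mem_range_self _ _
      rw [hr] at this
      exact this
    · intro h
      have : ∀ j, ∃ y, ι y = x j := fun j => by
        have : x j ∈ LinearMap.range ι := by rw [hr]; exact h j
        exact this
      choose y hy using this
      exact ⟨y, funext hy⟩
  have h4 := h1 univ
  rw [h3, Measure.pi_pi, measure_univ, mul_one, Finset.prod_const, Finset.card_univ,
    Fintype.card_fin] at h4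
  have h5 := congrArg ENNReal.toReal h2
  rw [ENNReal.toReal_mul, ENNReal.toReal_natCast, ENNReal.toReal_one] at h5
  have hpos' : (0 : ℝ) < (Nat.card G : ℕ) := by exact_mod_cast hpos
  have h6 := eq_inv_of_mul_eq_one_right h5
  rw [hset, Measure.real, h1, ENNReal.toReal_mul, ← h4, ENNReal.toReal_pow, h6, ← Measure.real,
    top_prob, inv_pow]
  ring

lemma FW {m : ℕ} {G : Type*} [AddCommGroup G] [Module ℤ_[p] G] [Finite G] (e : ℕ)
    (hG : ∀ g : G, (p : ℤ_[p]) ^ e • g = 0) :
    (Nat.card (G ≃ₗ[ℤ_[p]] G) : ℝ) * (PP μ m).real (Ck (fun _ => LinearMap.id) G) =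
      (Nat.card {F : (Fin m → ℤ_[p]) →ₗ[ℤ_[p]] G // Function.Surjective F} : ℝ) *
        (c p m / (Nat.card G : ℝ) ^ m) := by
  classical
  have : Finite ((Fin m → ℤ_[p]) →ₗ[ℤ_[p]] G) :=
    Finite.of_equiv _ ((Pi.basisFun ℤ_[p] (Fin m)).constr ℕ (M' := G)).toEquiv
  have := Fintype.ofFinite ((Fin m → ℤ_[p]) →ₗ[ℤ_[p]] G)
  set Sur := Finset.univ.filter fun F : (Fin m → ℤ_[p]) →ₗ[ℤ_[p]] G => Function.Surjective F
    with hSur
  have hA : ∀ F : (Fin m → ℤ_[p]) →ₗ[ℤ_[p]] G,
      MeasurableSet {x : Fin m → Fin m → ℤ_[p] | Submodule.span ℤ_[p] (range x) = LinearMap.ker F} :=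
    fun F => (isOpen_span_eq (fun x : Fin m → Fin m → ℤ_[p] => x) continuous_id _ e
      (fun v => by rw [LinearMap.mem_ker, map_smul, hG])).measurableSet
  have hC := Ck_meas (n := m) (fun _ => LinearMap.id) G e hG
  have hpt : ∀ x : Fin m → Fin m → ℤ_[p],
      ∑ F ∈ Sur, ({x : Fin m → Fin m → ℤ_[p] |
        Submodule.span ℤ_[p] (range x) = LinearMap.ker F}).indicator (1 : (Fin m → Fin m → ℤ_[p]) → ℝ) x =
      (Nat.card (G ≃ₗ[ℤ_[p]] G) : ℝ) * (Ck (fun _ => LinearMap.id) G).indicator 1 x := by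
    intro x
    by_cases hx : x ∈ Ck (fun _ => LinearMap.id) G
    · rw [indicator_of_mem hx]
      obtain ⟨e0⟩ := hx
      rw [← count_sur _ e0, Nat.card_eq_fintype_card, Fintype.card_subtype]
      simp only [indicator, mem_ofPred_eq, Pi.one_apply, mul_one, Finset.sum_boole, hSur,
        Finset.filter_filter]
      rfl
    · rw [indicator_of_notMem hx, mul_zero]
      refine Finset.sum_eq_zero fun F hF => indicator_of_notMem (fun h => hx ?_) _
      have hF' : Function.Surjective F := (Finset.mem_filter.1 hF).2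
      exact ⟨(Submodule.quotEquivOfEq _ _ h).trans (LinearMap.quotKerEquivOfSurjective _ hF')⟩
  have hint := congrArg (fun f => ∫ x, f x ∂(PP μ m)) (funext hpt)
  simp only at hint
  have hI : ∀ F : (Fin m → ℤ_[p]) →ₗ[ℤ_[p]] G, Integrable (({x : Fin m → Fin m → ℤ_[p] |
      Submodule.span ℤ_[p] (range x) = LinearMap.ker F}).indicator
      (1 : (Fin m → Fin m → ℤ_[p]) → ℝ)) (PP μ m) :=
    fun F => (integrable_const (1 : ℝ)).indicator (hA F)
  rw [integral_finsetSum _ (fun F _ => hI F),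
    integral_const_mul, integral_indicator_one hC] at hint
  rw [← hint, Finset.sum_congr rfl (fun F hF => by
    rw [integral_indicator_one (hA F), ker_prob μ e hG F (Finset.mem_filter.1 hF).2]),
    Finset.sum_const, nsmul_eq_mul, Nat.card_eq_fintype_card
      (α := {F : (Fin m → ℤ_[p]) →ₗ[ℤ_[p]] G // Function.Surjective F}), Fintype.card_subtype]

omit [MeasurableSpace ℤ_[p]] [BorelSpace ℤ_[p]] in
lemma sur_lim {G : Type*} [AddCommGroup G] [Module ℤ_[p] G] [Finite G] :
    Tendsto (fun m : ℕ =>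
      (Nat.card {F : (Fin m → ℤ_[p]) →ₗ[ℤ_[p]] G // Function.Surjective F} : ℝ) /
        (Nat.card G : ℝ) ^ m) atTop (𝓝 1) := by
  classical
  have := Fintype.ofFinite G
  set N := Nat.card G with hN
  have hpos : 0 < N := Nat.card_pos
  have hpos' : (0 : ℝ) < N := by exact_mod_cast hpos
  have key : ∀ m : ℕ,
      Nat.card {F : (Fin m → ℤ_[p]) →ₗ[ℤ_[p]] G // Function.Surjective F} ≤ N ^ m ∧
      N ^ m ≤ Nat.card {F : (Fin m → ℤ_[p]) →ₗ[ℤ_[p]] G // Function.Surjective F} +
        N * (N - 1) ^ m := by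
    intro m
    let Φ := ((Pi.basisFun ℤ_[p] (Fin m)).constr ℕ (M' := G)).toEquiv
    have h1 : Nat.card {F : (Fin m → ℤ_[p]) →ₗ[ℤ_[p]] G // Function.Surjective F} =
        (Finset.univ.filter fun g : Fin m → G => Function.Surjective (Φ g)).card := by
      rw [← Fintype.card_subtype, ← Nat.card_eq_fintype_card]
      exact Nat.card_congr (Φ.subtypeEquiv fun _ => Iff.rfl).symm
    have h2 : (Finset.univ : Finset (Fin m → G)).card = N ^ m := by
      simp [hN]
    rw [h1, ← h2]
    refine ⟨Finset.card_filter_le _ _, ?_⟩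
    rw [← Finset.card_filter_add_card_filter_not (fun g : Fin m → G => Function.Surjective (Φ g))]
    refine Nat.add_le_add_left ?_ _
    have hsub : (Finset.univ.filter fun g : Fin m → G => ¬ Function.Surjective (Φ g)) ⊆
        Finset.univ.biUnion fun a : G => Fintype.piFinset fun _ : Fin m => Finset.univ.erase a := by
      intro g hg
      have hg' := (Finset.mem_filter.1 hg).2
      simp only [Function.Surjective, not_forall, not_exists] at hg'
      obtain ⟨a, ha⟩ := hg'
      simp only [Finset.mem_biUnion, Finset.mem_univ, Fintype.mem_piFinset, Finset.mem_erase,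
        true_and, and_true]
      refine ⟨a, fun i h => ha (Pi.basisFun ℤ_[p] (Fin m) i) ?_⟩
      rw [← h]
      exact (Pi.basisFun ℤ_[p] (Fin m)).constr_basis ℕ g i
    refine (Finset.card_le_card hsub).trans (Finset.card_biUnion_le.trans ?_)
    simp [hN]
  have hlim : Tendsto (fun m : ℕ => 1 - (N : ℝ) * ((N - 1 : ℝ) / N) ^ m) atTop (𝓝 1) := by
    have h1 : (1 : ℝ) ≤ N := by exact_mod_cast hpos
    have := (tendsto_pow_atTop_nhds_zero_of_lt_one (r := (N - 1 : ℝ) / N)
      (div_nonneg (by linarith) hpos'.le) (by rw [div_lt_one hpos']; linarith)).const_mul (N : ℝ)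
    simpa using this.const_sub 1
  refine tendsto_of_tendsto_of_tendsto_of_le_of_le hlim tendsto_const_nhds (fun m => ?_) fun m => ?_
  · have h := (key m).2
    have h' : (N : ℝ) ^ m ≤
        (Nat.card {F : (Fin m → ℤ_[p]) →ₗ[ℤ_[p]] G // Function.Surjective F} : ℝ) +
        N * ((N : ℝ) - 1) ^ m := by
      have : ((N - 1 : ℕ) : ℝ) = (N : ℝ) - 1 := by rw [Nat.cast_sub hpos]; simp
      rw [← this]; exact_mod_cast h
    show _ ≤ _ / _
    rw [le_div_iff₀ (by positivity), div_pow, sub_mul, mul_assoc, div_mul_cancel₀ _ (by positivity)]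
    linarith
  · show _ / _ ≤ _
    rw [div_le_one (by positivity)]
    exact_mod_cast (key m).1

lemma cond_eq {n m : ℕ} (hmn : m ≤ n) (T : Fin n → (Fin n → ℤ_[p]) →ₗ[ℤ_[p]] (Fin n → ℤ_[p]))
    (G : Type*) [AddCommGroup G] [Module ℤ_[p] G] (e : ℕ) (hG : ∀ g : G, (p : ℤ_[p]) ^ e • g = 0)
    (x : Fin n → Fin n → ℤ_[p])
    (hx : x ∈ D (ph T) (Finset.univ.map (Fin.castLEEmb hmn))ᶜ)
    (hf : ∀ k : Fin m, Fill (ph T (Fin.castLE hmn k))
      (V (ph T) x (Finset.univ.map (Fin.castLEEmb hmn))ᶜ)) :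
    PP μ n {y | (Finset.univ.map (Fin.castLEEmb hmn)).piecewise y x ∈ Ck T G} =
      PP μ m (Ck (fun _ => LinearMap.id) G) := by
  set S := Finset.univ.map (Fin.castLEEmb hmn) with hS
  have hcard : Sᶜ.card + m = n := by
    rw [Finset.card_compl, hS, Finset.card_map]; simp; omega
  obtain ⟨π, hπ, hk⟩ := exists_proj (fun j => T j (x j)) Sᶜ hcard (finrank_V (ph T) hx.1)
  have hsur : ∀ k : Fin m, Function.Surjective (π.comp (T (Fin.castLE hmn k))) := fun k =>
    fill_surj _ _ π hπ hk _ (hf k)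
  let Ψ : (Fin n → Fin n → ℤ_[p]) →+ (Fin m → Fin m → ℤ_[p]) :=
    { toFun := fun y k => π (T (Fin.castLE hmn k) (y (Fin.castLE hmn k)))
      map_zero' := by funext k; simp
      map_add' := fun a b => by funext k; simp }
  have hc : Continuous Ψ := continuous_pi fun k =>
    (π.comp (T (Fin.castLE hmn k))).continuous_on_pi.comp (continuous_apply _)
  have hs : Function.Surjective Ψ := by
    intro w
    choose a ha using fun k => hsur k (w k)
    refine ⟨Function.extend (Fin.castLE hmn) a 0, funext fun k => ?_⟩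
    show π (T _ (Function.extend (Fin.castLE hmn) a 0 (Fin.castLE hmn k))) = w k
    rw [(Fin.castLE_injective hmn).extend_apply]
    exact ha k
  have hmp : MeasurePreserving Ψ (PP μ n) (PP μ m) :=
    AddMonoidHom.measurePreserving hc hs (by simp)
  rw [← hmp.measure_preimage (Ck_meas _ G e hG).nullMeasurableSet]
  congr 1
  ext y
  have hmem : ∀ k, Fin.castLE hmn k ∈ S := fun k => by simp [hS]
  obtain ⟨ε⟩ := cok_transfer π hπ
    (Submodule.span ℤ_[p] (range fun j => T j (S.piecewise y x j)))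
    (Submodule.span ℤ_[p] (range fun k => T (Fin.castLE hmn k) (y (Fin.castLE hmn k))))
    (Submodule.span ℤ_[p] (range (Ψ y))) (by
      rw [hk, ← Submodule.span_union]
      congr 1
      ext v
      simp only [mem_range, mem_union, mem_image, Finset.mem_coe, Finset.mem_compl]
      constructor
      · rintro ⟨j, rfl⟩
        by_cases hj : j ∈ S
        · left
          obtain ⟨k, -, rfl⟩ := Finset.mem_map.1 hj
          exact ⟨k, by rw [Finset.piecewise_eq_of_mem _ _ _ hj]; rfl⟩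
        · right
          exact ⟨j, hj, by rw [Finset.piecewise_eq_of_notMem _ _ _ hj]⟩
      · rintro (⟨k, rfl⟩ | ⟨j, hj, rfl⟩)
        · exact ⟨_, by rw [Finset.piecewise_eq_of_mem _ _ _ (hmem k)]⟩
        · exact ⟨j, by rw [Finset.piecewise_eq_of_notMem _ _ _ hj]⟩) (by
      rw [Submodule.map_span, ← Set.range_comp]
      rfl)
  exact ⟨fun ⟨a⟩ => ⟨ε.symm.trans a⟩, fun ⟨a⟩ => ⟨ε.trans a⟩⟩

lemma compare {n r : ℕ} (hmn : r + 1 ≤ n)
    (T : Fin n → (Fin n → ℤ_[p]) →ₗ[ℤ_[p]] (Fin n → ℤ_[p]))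
    (G : Type*) [AddCommGroup G] [Module ℤ_[p] G] (e : ℕ)
    (hG : ∀ g : G, (p : ℤ_[p]) ^ e • g = 0) :
    |(PP μ n).real (Ck T G) - (PP μ (r + 1)).real (Ck (fun _ => LinearMap.id) G)| ≤
      (1 - (PP μ n).real (D (ph T) Finset.univ) / c p (r + 1)) +
      (r + 1) * ((c p n - (PP μ n).real (D (ph T) Finset.univ)) /
        (((p : ℝ) ^ (r + 1))⁻¹ * c p r)) := by
  set S := Finset.univ.map (Fin.castLEEmb hmn) with hS
  have hcard : Sᶜ.card + (r + 1) = n := by
    rw [Finset.card_compl, hS, Finset.card_map]; simp; omega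
  have hmem : ∀ k, Fin.castLE hmn k ∉ Sᶜ := fun k => by simp [hS]
  set Bad : Set (Fin n → Fin n → ℤ_[p]) := (D (ph T) Sᶜ)ᶜ ∪
    ⋃ k : Fin (r + 1), Ev (ph T) Sᶜ fun U => ¬ Fill (ph T (Fin.castLE hmn k)) U with hBad
  have hBm : MeasurableSet Bad := (meas_Ev _ (ph_meas T) _ _).compl.union
    (MeasurableSet.iUnion fun k => meas_Ev _ (ph_meas T) _ _)
  have hgood : ∀ x, x ∉ Bad → PP μ n {y | S.piecewise y x ∈ Ck T G} =
      PP μ (r + 1) (Ck (fun _ => LinearMap.id) G) := by
    intro x hx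
    simp only [hBad, mem_union, mem_compl_iff, mem_iUnion, not_or, not_not, not_exists] at hx
    refine cond_eq μ hmn T G e hG x hx.1 fun k => ?_
    by_contra hf
    exact hx.2 k ⟨hx.1.1, hf⟩
  have hres := resample_apply (Measure.pi fun _ : Fin n => μ) S (Ck_meas T G e hG)
  have h1 : PP μ n (Ck T G) ≤ PP μ (r + 1) (Ck (fun _ => LinearMap.id) G) + PP μ n Bad := by
    rw [hres]
    calc _ ≤ ∫⁻ x, (PP μ (r + 1) (Ck (fun _ => LinearMap.id) G) + Bad.indicator 1 x) ∂(PP μ n) := by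
          refine lintegral_mono fun x => ?_
          by_cases hx : x ∈ Bad
          · rw [indicator_of_mem hx]
            exact le_trans prob_le_one le_add_self
          · exact (hgood x hx).le.trans le_self_add
      _ = _ := by
          rw [lintegral_add_left measurable_const, lintegral_const, measure_univ, mul_one,
            lintegral_indicator_one hBm]
  have h2 : PP μ (r + 1) (Ck (fun _ => LinearMap.id) G) ≤ PP μ n (Ck T G) + PP μ n Bad := by
    rw [hres, ← lintegral_indicator_one hBm,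
      ← lintegral_add_right _ (measurable_one.indicator hBm)]
    calc _ = ∫⁻ _, PP μ (r + 1) (Ck (fun _ => LinearMap.id) G) ∂(PP μ n) := by simp
      _ ≤ _ := by
          refine lintegral_mono fun x => ?_
          by_cases hx : x ∈ Bad
          · rw [indicator_of_mem hx]
            exact le_trans prob_le_one le_add_self
          · exact (hgood x hx).ge.trans le_self_add
  have h1' := ENNReal.toReal_mono (by finiteness) h1
  have h2' := ENNReal.toReal_mono (by finiteness) h2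
  rw [ENNReal.toReal_add (by finiteness) (by finiteness)] at h1' h2'
  have hp : (0 : ℝ) < p := by exact_mod_cast (Fact.out : p.Prime).pos
  have hδ : 0 < ((p : ℝ) ^ (r + 1))⁻¹ * c p r := mul_pos (by positivity) (c_pos r)
  have h3 : (PP μ n).real Bad ≤ (1 - (PP μ n).real (D (ph T) Finset.univ) / c p (r + 1)) +
      (r + 1) * ((c p n - (PP μ n).real (D (ph T) Finset.univ)) /
        (((p : ℝ) ^ (r + 1))⁻¹ * c p r)) := by
    refine (measureReal_union_le _ _).trans (add_le_add ?_ ?_)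
    · rw [probReal_compl_eq_one_sub (meas_Ev _ (ph_meas T) _ _)]
      have := D_lower (Measure.pi fun _ : Fin n => μ) (ph T) (ph_meas T) (by simp) Sᶜ
      have hr : n - Sᶜ.card = r + 1 := by omega
      rw [hr] at this
      have h := (div_le_iff₀ (c_pos (p := p) (r + 1))).2 this
      linarith
    · refine (measureReal_iUnion_fintype_le _).trans ?_
      refine (Finset.sum_le_card_nsmul _ _ ((c p n - (PP μ n).real (D (ph T) Finset.univ)) /
        (((p : ℝ) ^ (r + 1))⁻¹ * c p r)) fun k _ => ?_).trans (by simp)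
      rw [le_div_iff₀ hδ]
      exact bad_upper _ (ph T) (ph_meas T) (by simp) Sᶜ _ (hmem k) r hcard
  simp only [Measure.real] at h3 ⊢
  rw [abs_le]
  constructor <;> linarith

/-- infinite Euler product -/
noncomputable def cInf (p : ℕ) : ℝ := ∏' i : ℕ, (1 - ((p : ℝ) ^ (i + 1))⁻¹)

omit [MeasurableSpace ℤ_[p]] [BorelSpace ℤ_[p]] in
lemma c_lim : Tendsto (c p) atTop (𝓝 (cInf p)) ∧ cInf p ≠ 0 := by
  have hp : (1 : ℝ) < p := by exact_mod_cast (Fact.out : p.Prime).one_lt
  have hs : Summable fun i : ℕ => ‖-((p : ℝ) ^ (i + 1))⁻¹‖ := by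
    have := (summable_geometric_of_lt_one (r := (p : ℝ)⁻¹) (by positivity)
      (inv_lt_one_of_one_lt₀ hp)).mul_right (p : ℝ)⁻¹
    refine this.congr fun i => ?_
    rw [norm_neg, Real.norm_of_nonneg (by positivity), ← pow_succ, inv_pow]
  have hm := multipliable_one_add_of_summable hs
  have hz := tprod_one_add_ne_zero_of_summable (f := fun i : ℕ => -((p : ℝ) ^ (i + 1))⁻¹)
    (fun i => by
      have h2 : ((p : ℝ) ^ (i + 1))⁻¹ < 1 :=
        inv_lt_one_of_one_lt₀ (one_lt_pow₀ hp (Nat.succ_ne_zero i))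
      linarith) hs
  simp only [← sub_eq_add_neg] at hm hz
  exact ⟨hm.tendsto_prod_tprod_nat, hz⟩

theorem main (T : (n : ℕ) → Fin n → (Fin n → ℤ_[p]) →ₗ[ℤ_[p]] (Fin n → ℤ_[p]))
    (h : Tendsto (fun n => (PP μ n).real (D (ph (T n)) Finset.univ)) atTop (𝓝 (cInf p)))
    (G : Type*) [AddCommGroup G] [Module ℤ_[p] G] [Finite G] (e : ℕ)
    (hG : ∀ g : G, (p : ℤ_[p]) ^ e • g = 0) :
    Tendsto (fun n => (PP μ n).real (Ck (T n) G)) atTop
      (𝓝 ((Nat.card (G ≃ₗ[ℤ_[p]] G) : ℝ)⁻¹ * cInf p)) := by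
  have hfin : Finite (G ≃ₗ[ℤ_[p]] G) :=
    Finite.of_injective (fun a : G ≃ₗ[ℤ_[p]] G => (a : G → G)) DFunLike.coe_injective
  have hA : (0 : ℝ) < (Nat.card (G ≃ₗ[ℤ_[p]] G) : ℕ) := by
    have : Nonempty (G ≃ₗ[ℤ_[p]] G) := ⟨LinearEquiv.refl _ _⟩
    exact_mod_cast Nat.card_pos
  have hFW : Tendsto (fun m => (PP μ m).real (Ck (fun _ => LinearMap.id) G)) atTop
      (𝓝 ((Nat.card (G ≃ₗ[ℤ_[p]] G) : ℝ)⁻¹ * cInf p)) := by
    have := ((sur_lim (p := p) (G := G)).mul (c_lim (p := p)).1).const_mul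
      (Nat.card (G ≃ₗ[ℤ_[p]] G) : ℝ)⁻¹
    rw [one_mul] at this
    refine this.congr fun m => ?_
    have h := FW μ (m := m) e hG
    rw [inv_mul_eq_iff_eq_mul₀ hA.ne', h]
    ring
  have hc1 : Tendsto (fun m => 1 - cInf p / c p m) atTop (𝓝 0) := by
    have := ((tendsto_const_nhds (x := cInf p)).div (c_lim (p := p)).1 (c_lim (p := p)).2).const_sub 1
    rwa [div_self (c_lim (p := p)).2, sub_self] at this
  rw [Metric.tendsto_nhds]
  intro ε hε
  have e1 := (Metric.tendsto_nhds.1 hFW) (ε / 2) (by positivity)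
  have e2 := hc1.eventually (gt_mem_nhds (half_pos hε))
  obtain ⟨m, hm1, hm2, hm3⟩ := (e1.and (e2.and (eventually_ge_atTop 1))).exists
  obtain ⟨r, rfl⟩ : ∃ r, m = r + 1 := ⟨m - 1, by omega⟩
  have hl : Tendsto (fun n => (1 - (PP μ n).real (D (ph (T n)) Finset.univ) / c p (r + 1)) +
      (r + 1) * ((c p n - (PP μ n).real (D (ph (T n)) Finset.univ)) /
        (((p : ℝ) ^ (r + 1))⁻¹ * c p r))) atTop
      (𝓝 ((1 - cInf p / c p (r + 1)) + (r + 1) * ((cInf p - cInf p) /
        (((p : ℝ) ^ (r + 1))⁻¹ * c p r)))) :=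
    ((h.div_const _).const_sub 1).add ((((c_lim (p := p)).1.sub h).div_const _).const_mul _)
  rw [sub_self, zero_div, mul_zero, add_zero] at hl
  filter_upwards [hl.eventually (gt_mem_nhds hm2), eventually_ge_atTop (r + 1)] with n h1 h2
  have h3 := compare μ h2 (T n) G e hG
  rw [Real.dist_eq] at hm1 ⊢
  have := abs_sub_le ((PP μ n).real (Ck (T n) G))
    ((PP μ (r + 1)).real (Ck (fun _ => LinearMap.id) G))
    ((Nat.card (G ≃ₗ[ℤ_[p]] G) : ℝ)⁻¹ * cInf p)
  linarith

end Pool.Agent.H12.Cok
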