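import Mathlib

/-! Basics on `c₀`, finitely supported functionals and stabilization of convex functions. -/

set_option autoImplicit false

namespace Pool.Agent.H12.Comp

open Set Filter Topology Metric

/-- the space of null sequences -/
def X0 : Type := ZeroAtInftyContinuousMap ℕ ℝ

noncomputable instance : NormedAddCommGroup X0 :=
  inferInstanceAs (NormedAddCommGroup (ZeroAtInftyContinuousMap ℕ ℝ))

noncomputable instance : NormedSpace ℝ X0 :=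
  inferInstanceAs (NormedSpace ℝ (ZeroAtInftyContinuousMap ℕ ℝ))

instance : CompleteSpace X0 := inferInstanceAs (CompleteSpace (ZeroAtInftyContinuousMap ℕ ℝ))

abbrev Z0 : Type := StrongDual ℝ X0

noncomputable def co (i : ℕ) : Z0 :=
  LinearMap.mkContinuous ⟨⟨fun x : ZeroAtInftyContinuousMap ℕ ℝ => x i, fun _ _ => rfl⟩,
    fun _ _ => rfl⟩ 1 (fun x : ZeroAtInftyContinuousMap ℕ ℝ => by
      rw [one_mul]
      exact x.toBCF.norm_coe_le_norm i)

theorem abs_le_norm (x : X0) (i : ℕ) : |co i x| ≤ ‖x‖ :=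
  (ZeroAtInftyContinuousMap.toBCF x).norm_coe_le_norm i

theorem norm_le_of (x : X0) {C : ℝ} (h : ∀ i, |co i x| ≤ C) : ‖x‖ ≤ C :=
  (BoundedContinuousFunction.norm_le (f := ZeroAtInftyContinuousMap.toBCF x)
    (le_trans (abs_nonneg _) (h 0))).2 h

theorem ext0 {x y : X0} (h : ∀ i, co i x = co i y) : x = y := ZeroAtInftyContinuousMap.ext h

theorem lim0 (x : X0) : Tendsto (fun i => co i x) atTop (𝓝 0) := by
  have h := ZeroAtInftyContinuousMap.zero_at_infty' x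
  rw [cocompact_eq_atTop] at h
  exact h

noncomputable def ee (i : ℕ) : X0 :=
  (⟨⟨fun j => if j = i then 1 else 0, continuous_of_discreteTopology⟩, by
    rw [cocompact_eq_atTop]
    refine tendsto_const_nhds.congr' ?_
    filter_upwards [eventually_gt_atTop i] with j hj
    simp [hj.ne']⟩ : ZeroAtInftyContinuousMap ℕ ℝ)

theorem ee_apply (i j : ℕ) : co j (ee i) = if j = i then 1 else 0 := rfl

theorem norm_ee (i : ℕ) : ‖ee i‖ ≤ 1 := norm_le_of _ fun j => by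
  rw [ee_apply]; split_ifs <;> simp

noncomputable def PP (N : ℕ) : X0 →L[ℝ] X0 := ∑ i ∈ Finset.range N, (co i).smulRight (ee i)

theorem PP_eq (N : ℕ) (x : X0) : PP N x = ∑ i ∈ Finset.range N, co i x • ee i := by
  simp [PP]

theorem PP_apply (N : ℕ) (x : X0) (j : ℕ) : co j (PP N x) = if j < N then co j x else 0 := by
  rw [PP_eq, map_sum]
  simp [ee_apply]

theorem mix (N : ℕ) (x y : X0) : ‖PP N x + (y - PP N y)‖ ≤ max ‖x‖ ‖y‖ :=
  norm_le_of _ fun j => by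
    simp only [map_add, map_sub, PP_apply]
    split_ifs
    · simpa using Or.inl (abs_le_norm x j)
    · simpa using Or.inr (abs_le_norm y j)

theorem norm_tail (N : ℕ) (y : X0) : ‖y - PP N y‖ ≤ ‖y‖ := by
  simpa using mix N 0 y

theorem PP_PP1 {M N : ℕ} (h : M ≤ N) (x : X0) : PP M (PP N x) = PP M x := by
  refine ext0 fun j => ?_
  simp only [PP_apply]
  split_ifs with h1 h2
  · rfl
  · omega
  · rfl

theorem PP_PP2 {M N : ℕ} (h : M ≤ N) (x : X0) : PP N (PP M x) = PP M x := by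
  refine ext0 fun j => ?_
  simp only [PP_apply]
  split_ifs with h1 h2 h3
  · rfl
  · rfl
  · omega
  · rfl

theorem tail_small (x : X0) {ε : ℝ} (hε : 0 < ε) : ∃ M, ∀ N, M ≤ N → ‖x - PP N x‖ ≤ ε := by
  obtain ⟨M, hM⟩ := Metric.tendsto_atTop.1 (lim0 x) ε hε
  refine ⟨M, fun N hN => norm_le_of _ fun j => ?_⟩
  simp only [map_sub, PP_apply]
  split_ifs with h1
  · simpa using hε.le
  · have := hM j (by omega)
    rw [dist_zero_right, Real.norm_eq_abs] at this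
    simpa using this.le

/-- supported below `N` -/
def Lo (N : ℕ) (f : Z0) : Prop := ∀ x, f (PP N x) = f x

/-- supported from `N` on -/
def Hi (N : ℕ) (f : Z0) : Prop := ∀ x, f (PP N x) = 0

theorem Lo.mono {M N : ℕ} {f : Z0} (hf : Lo M f) (h : M ≤ N) : Lo N f := fun x => by
  rw [← hf, PP_PP1 h, hf]

theorem Hi.anti {M N : ℕ} {f : Z0} (hf : Hi N f) (h : M ≤ N) : Hi M f := fun x => by
  rw [← PP_PP2 h, hf]

theorem Lo.add {N : ℕ} {f g : Z0} (hf : Lo N f) (hg : Lo N g) : Lo N (f + g) := fun x => by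
  simp [hf x, hg x]

theorem Lo.smul {N : ℕ} {f : Z0} (hf : Lo N f) (a : ℝ) : Lo N (a • f) := fun x => by
  simp [hf x]

theorem Hi.add {N : ℕ} {f g : Z0} (hf : Hi N f) (hg : Hi N g) : Hi N (f + g) := fun x => by
  simp [hf x, hg x]

theorem Hi.smul {N : ℕ} {f : Z0} (hf : Hi N f) (a : ℝ) : Hi N (a • f) := fun x => by
  simp [hf x]

theorem exists_near (f : Z0) {η : ℝ} (hη : 0 < η) : ∃ x : X0, ‖x‖ ≤ 1 ∧ ‖f‖ - η ≤ f x := by
  obtain ⟨x, h1, h2⟩ := f.exists_lt_apply_of_lt_opNorm (show ‖f‖ - η < ‖f‖ by linarith)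
  rw [Real.norm_eq_abs] at h2
  rcases le_total 0 (f x) with h | h
  · exact ⟨x, h1.le, by rw [abs_of_nonneg h] at h2; exact h2.le⟩
  · exact ⟨-x, by rw [norm_neg]; exact h1.le, by rw [abs_of_nonpos h] at h2; simpa using h2.le⟩

theorem le_norm_mul (f : Z0) (x : X0) : f x ≤ ‖f‖ * ‖x‖ := (le_abs_self _).trans (f.le_opNorm x)

theorem norm_add_ge {N : ℕ} {f g : Z0} (hf : Lo N f) (hg : Hi N g) : ‖f‖ + ‖g‖ ≤ ‖f + g‖ := by
  refine le_of_forall_pos_le_add fun η hη => ?_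
  obtain ⟨x, hx, h1⟩ := exists_near f (half_pos hη)
  obtain ⟨y, hy, h2⟩ := exists_near g (half_pos hη)
  have h3 := le_norm_mul (f + g) (PP N x + (y - PP N y))
  have h4 := mul_le_of_le_one_right (norm_nonneg (f + g)) ((mix N x y).trans (max_le hx hy))
  simp only [add_apply, map_add, map_sub, hf x, hf y, hg x, hg y] at h3
  linarith

/-- compact sets of finitely supported functionals -/
def KK (N : ℕ) (R : ℝ) : Set Z0 :=
  (fun c : ℕ → ℝ => ∑ i ∈ Finset.range N, c i • co i) '' (Set.pi univ fun _ => Icc (-R) R)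

theorem KK_compact (N : ℕ) (R : ℝ) : IsCompact (KK N R) :=
  (isCompact_univ_pi fun _ => isCompact_Icc).image (by fun_prop)

theorem Lo_co {N i : ℕ} (h : i < N) : Lo N (co i) := fun x => by simp [PP_apply, h]

theorem Hi_co (N : ℕ) : Hi N (co N) := fun x => by simp [PP_apply]

theorem norm_co (N : ℕ) : ‖co N‖ = 1 := by
  apply le_antisymm
  · exact ContinuousLinearMap.opNorm_le_bound _ zero_le_one fun x => by simpa using abs_le_norm x N
  · have h1 := le_norm_mul (co N) (ee N)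
    have h2 := mul_le_of_le_one_right (norm_nonneg (co N)) (norm_ee N)
    simp only [ee_apply, if_true] at h1
    linarith

theorem KK_Lo {N : ℕ} {R : ℝ} {f : Z0} (h : f ∈ KK N R) : Lo N f := by
  obtain ⟨c, -, rfl⟩ := h
  intro x
  simp only [ContinuousLinearMap.sum_apply, smul_apply]
  exact Finset.sum_congr rfl fun i hi => by rw [Lo_co (Finset.mem_range.1 hi)]

theorem mem_KK {N : ℕ} {R : ℝ} {f : Z0} (h : Lo N f) (hR : ‖f‖ ≤ R) : f ∈ KK N R := by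
  refine ⟨fun i => f (ee i), fun i _ => ?_, ?_⟩
  · rw [mem_Icc, ← abs_le]
    exact (f.le_opNorm _).trans ((mul_le_of_le_one_right (norm_nonneg _) (norm_ee i)).trans hR)
  · ext x
    rw [← h x, PP_eq, map_sum]
    simp [mul_comm]

theorem exists_dense : ∃ d : ℕ → Z0, ∀ N f, Lo N f → f ∈ closure (range d) := by
  have h : TopologicalSpace.IsSeparable (⋃ N : ℕ, KK N N) :=
    TopologicalSpace.IsSeparable.iUnion fun N => (KK_compact N N).isSeparable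
  obtain ⟨c, hc, hs⟩ := h
  obtain ⟨d, hd⟩ := (hc.insert 0).exists_eq_range (insert_nonempty _ _)
  refine ⟨d, fun N f hf => ?_⟩
  obtain ⟨n, hn⟩ := exists_nat_ge ‖f‖
  rw [← hd]
  refine closure_mono (subset_insert _ _) (hs (mem_iUnion.2 ⟨max N n, mem_KK
    (hf.mono (le_max_left _ _)) (hn.trans ?_)⟩))
  exact_mod_cast le_max_right _ _

/-- normalized block sequences -/
structure Blk (g : ℕ → Z0) (M : ℕ → ℕ) : Prop where
  mono : StrictMono M
  norm : ∀ n, ‖g n‖ = 1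
  hi : ∀ n, Hi (M n) (g n)
  lo : ∀ n, Lo (M (n + 1)) (g n)

theorem Blk.comb {g : ℕ → Z0} {M : ℕ → ℕ} (h : Blk g M) {n m : ℕ} (hnm : n < m) {a b : ℝ}
    (hab : |a| + |b| = 1) : ‖a • g n + b • g m‖ = 1 ∧ Hi (M n) (a • g n + b • g m) ∧
      Lo (M (m + 1)) (a • g n + b • g m) := by
  refine ⟨le_antisymm ?_ ?_, ((h.hi n).smul a).add (((h.hi m).anti (h.mono hnm).le).smul b),
    (((h.lo n).mono (h.mono.monotone (by omega))).smul a).add ((h.lo m).smul b)⟩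
  · have := norm_add_le (a • g n) (b • g m)
    rwa [norm_smul, norm_smul, h.norm, h.norm, mul_one, mul_one, Real.norm_eq_abs,
      Real.norm_eq_abs, hab] at this
  · have := norm_add_ge ((h.lo n).smul a) (((h.hi m).anti (h.mono.monotone hnm)).smul b)
    rwa [norm_smul, norm_smul, h.norm, h.norm, mul_one, mul_one, Real.norm_eq_abs,
      Real.norm_eq_abs, hab] at this

/-- two point convexity -/
def Cvx (φ : Z0 → ℝ) : Prop :=
  ∀ (f g : Z0) (s t : ℝ), 0 ≤ s → 0 ≤ t → s + t = 1 → φ (s • f + t • g) ≤ s * φ f + t * φ g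

theorem Cvx.signed {φ : Z0 → ℝ} (h : Cvx φ) {x y : Z0} {A B a b : ℝ} (h1 : φ x ≤ A)
    (h2 : φ (-x) ≤ A) (h3 : φ y ≤ B) (h4 : φ (-y) ≤ B) (hab : |a| + |b| = 1) :
    φ (a • x + b • y) ≤ |a| * A + |b| * B := by
  obtain ⟨x', e1, k1⟩ : ∃ x', a • x = |a| • x' ∧ φ x' ≤ A := by
    rcases le_total 0 a with h | h
    · exact ⟨x, by rw [abs_of_nonneg h], h1⟩
    · exact ⟨-x, by rw [abs_of_nonpos h]; simp, h2⟩
  obtain ⟨y', e2, k2⟩ : ∃ y', b • y = |b| • y' ∧ φ y' ≤ B := by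
    rcases le_total 0 b with h | h
    · exact ⟨y, by rw [abs_of_nonneg h], h3⟩
    · exact ⟨-y, by rw [abs_of_nonpos h]; simp, h4⟩
  rw [e1, e2]
  exact (h _ _ _ _ (abs_nonneg a) (abs_nonneg b) hab).trans (add_le_add
    (mul_le_mul_of_nonneg_left k1 (abs_nonneg a)) (mul_le_mul_of_nonneg_left k2 (abs_nonneg b)))

theorem near_min (Φ : Z0 → ℝ) (C : ℝ) (hΦ : ∀ g, ‖g‖ ≤ 1 → |Φ g| ≤ C) :
    ∃ (g : ℕ → Z0) (M : ℕ → ℕ) (l : ℝ), Blk g M ∧ (∀ n, Φ (g n) ≤ l + 1 / ((n : ℝ) + 1)) ∧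
      ∀ η > 0, ∃ M₀, ∀ v N, ‖v‖ = 1 → Hi M₀ v → Lo N v → l - η ≤ Φ v := by
  let G : ℕ → Set Z0 := fun M => {v | ‖v‖ = 1 ∧ Hi M v ∧ ∃ N, Lo N v}
  have hne : ∀ M, (G M).Nonempty := fun M =>
    ⟨co M, norm_co M, Hi_co M, M + 1, Lo_co (Nat.lt_succ_self M)⟩
  have hbb : ∀ M, BddBelow (Φ '' G M) := fun M => ⟨-C, by
    rintro _ ⟨v, hv, rfl⟩
    exact (abs_le.1 (hΦ v hv.1.le)).1⟩
  let I : ℕ → ℝ := fun M => sInf (Φ '' G M)
  have hI : BddAbove (range I) := ⟨C, by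
    rintro _ ⟨M, rfl⟩
    obtain ⟨v, hv⟩ := hne M
    exact (csInf_le (hbb M) (mem_image_of_mem Φ hv)).trans (abs_le.1 (hΦ v hv.1.le)).2⟩
  have hw : ∀ M n : ℕ, ∃ v, ∃ N, M < N ∧ ‖v‖ = 1 ∧ Hi M v ∧ Lo N v ∧
      Φ v ≤ (⨆ M, I M) + 1 / ((n : ℝ) + 1) := by
    intro M n
    obtain ⟨_, ⟨v, ⟨h1, h2, N, h3⟩, rfl⟩, h⟩ := exists_lt_of_csInf_lt ((hne M).image Φ)
      (show I M < (⨆ M, I M) + 1 / ((n : ℝ) + 1) by
        linarith [le_ciSup hI M, Nat.one_div_pos_of_nat (α := ℝ) (n := n)])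
    exact ⟨v, max N (M + 1), by omega, h1, h2, h3.mono (le_max_left _ _), h.le⟩
  choose w σ hσ h1 h2 h3 h4 using hw
  let M : ℕ → ℕ := fun n => Nat.rec 0 (fun k m => σ m k) n
  refine ⟨fun n => w (M n) n, M, ⨆ M, I M, ⟨strictMono_nat_of_lt_succ fun n => hσ _ _,
    fun n => h1 _ _, fun n => h2 _ _, fun n => h3 _ _⟩, fun n => h4 _ _, fun η hη => ?_⟩
  obtain ⟨M₀, hM₀⟩ := exists_lt_of_lt_ciSup (show (⨆ M, I M) - η < ⨆ M, I M by linarith)
  exact ⟨M₀, fun v N k1 k2 k3 =>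
    hM₀.le.trans (csInf_le (hbb M₀) (mem_image_of_mem Φ ⟨k1, k2, N, k3⟩))⟩

theorem stab (φ : ℕ → Z0 → ℝ) (hc : ∀ k, Cvx (φ k)) (C : ℝ)
    (hb : ∀ k g, ‖g‖ ≤ 1 → |φ k g| ≤ C) :
    ∃ (u : ℕ → Z0) (M : ℕ → ℕ) (l : ℕ → ℝ), Blk u M ∧ ∀ k, ∀ η > 0, ∃ n₀, ∀ n m, n₀ ≤ n → n < m →
      ∀ a b : ℝ, |a| + |b| = 1 → |φ k (a • u n + b • u m) - l k| ≤ η := by
  let s : ℕ → Z0 → ℝ := fun k g => φ k g + φ k (-g)
  have hs : ∀ k g, ‖g‖ ≤ 1 → |s k g| ≤ 2 * C := fun k g hg => by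
    have h1 := hb k g hg
    have h2 := hb k (-g) (by rwa [norm_neg])
    exact (abs_add_le _ _).trans (by linarith)
  have hse : ∀ k g, s k (-g) = s k g := fun k g => by simp only [s, neg_neg, add_comm]
  have hsc : ∀ k, Cvx (s k) := fun k f g a b ha hb hab => by
    have h1 := hc k f g a b ha hb hab
    have h2 := hc k (-f) (-g) a b ha hb hab
    rw [smul_neg, smul_neg, ← neg_add] at h2
    simp only [s]
    linarith
  have hgeo : HasSum (fun k : ℕ => (1 / 2 : ℝ) ^ k * (2 * C)) (2 * (2 * C)) :=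
    hasSum_geometric_two.mul_right _
  have hbd : ∀ g, ‖g‖ ≤ 1 → ∀ k, ‖(1 / 2 : ℝ) ^ k * s k g‖ ≤ (1 / 2 : ℝ) ^ k * (2 * C) :=
    fun g hg k => by
      rw [norm_mul, Real.norm_of_nonneg (by positivity)]
      exact mul_le_mul_of_nonneg_left (hs k g hg) (by positivity)
  let Φ : Z0 → ℝ := fun g => ∑' k, (1 / 2 : ℝ) ^ k * s k g
  have hΦ : ∀ g, ‖g‖ ≤ 1 → HasSum (fun k => (1 / 2 : ℝ) ^ k * s k g) (Φ g) := fun g hg =>
    (Summable.of_norm_bounded hgeo.summable (hbd g hg)).hasSum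
  obtain ⟨g, M, l, hB, hup, hlow⟩ := near_min Φ (2 * (2 * C)) fun g hg =>
    tsum_of_norm_bounded hgeo (hbd g hg)
  obtain ⟨α, -, κ, hκ, hα⟩ := (isCompact_univ_pi (X := fun _ : ℕ => ℝ × ℝ)
    fun _ => (isCompact_Icc (a := -C) (b := C)).prod (isCompact_Icc (a := -C) (b := C))).tendsto_subseq
    (x := fun n k => (φ k (g n), φ k (-g n))) fun n k _ =>
      ⟨abs_le.1 (hb k _ (hB.norm n).le), abs_le.1 (hb k _ (by rw [norm_neg, hB.norm]))⟩
  let u : ℕ → Z0 := fun n => (1 / 2 : ℝ) • g (κ (2 * n)) + (-(1 / 2) : ℝ) • g (κ (2 * n + 1))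
  have hh : |(1 / 2 : ℝ)| + |(-(1 / 2) : ℝ)| = 1 := by norm_num [abs_of_nonneg]
  have hu := fun n => hB.comb (hκ (Nat.lt_succ_self (2 * n))) hh
  have hU : Blk u fun n => M (κ (2 * n)) :=
    ⟨fun a b hab => hB.mono (hκ (by omega)), fun n => (hu n).1, fun n => (hu n).2.1,
      fun n => (hu n).2.2.mono (hB.mono.monotone (hκ (by omega)))⟩
  refine ⟨u, _, fun k => ((α k).1 + (α k).2) / 2, hU, fun k η hη => ?_⟩
  have ht := (tendsto_pi_nhds.1 hα) k
  obtain ⟨n₁, hn₁⟩ := Metric.tendsto_atTop.1 ((continuous_fst.tendsto _).comp ht) (η / 4)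
    (by positivity)
  obtain ⟨n₂, hn₂⟩ := Metric.tendsto_atTop.1 ((continuous_snd.tendsto _).comp ht) (η / 4)
    (by positivity)
  have hw : (0 : ℝ) < (1 / 2) ^ k := by positivity
  obtain ⟨M₀, hM₀⟩ := hlow ((1 / 2) ^ k * η / 8) (by positivity)
  obtain ⟨n₃, hn₃⟩ := exists_nat_one_div_lt (show 0 < (1 / 2 : ℝ) ^ k * η / 8 by positivity)
  set n₀ := max (max n₁ n₂) (max M₀ n₃) with hn₀
  have e1 : ∀ j, n₀ ≤ j → |φ k (g (κ j)) - (α k).1| ≤ η / 4 ∧ |φ k (-g (κ j)) - (α k).2| ≤ η / 4 ∧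
      Φ (g (κ j)) ≤ l + (1 / 2) ^ k * η / 8 := by
    intro j hj
    refine ⟨(hn₁ j (by omega)).le, (hn₂ j (by omega)).le, (hup _).trans ?_⟩
    have : (1 : ℝ) / ((κ j : ℝ) + 1) ≤ 1 / ((n₃ : ℝ) + 1) :=
      Nat.one_div_le_one_div (le_trans (show n₃ ≤ j by omega) (hκ.id_le j))
    linarith
  have e2 : ∀ n, n₀ ≤ n → φ k (u n) ≤ ((α k).1 + (α k).2) / 2 + η / 4 ∧
      φ k (-u n) ≤ ((α k).1 + (α k).2) / 2 + η / 4 := by
    intro n hn
    obtain ⟨a1, a2, -⟩ := e1 (2 * n) (by omega)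
    obtain ⟨b1, b2, -⟩ := e1 (2 * n + 1) (by omega)
    rw [abs_le] at a1 a2 b1 b2
    have c1 := hc k (g (κ (2 * n))) (-g (κ (2 * n + 1))) (1 / 2) (1 / 2) (by norm_num)
      (by norm_num) (by norm_num)
    have c2 := hc k (-g (κ (2 * n))) (g (κ (2 * n + 1))) (1 / 2) (1 / 2) (by norm_num)
      (by norm_num) (by norm_num)
    have d1 : u n = (1 / 2 : ℝ) • g (κ (2 * n)) + (1 / 2 : ℝ) • -g (κ (2 * n + 1)) := by
      ext x; simp [u]
    have d2 : -u n = (1 / 2 : ℝ) • -g (κ (2 * n)) + (1 / 2 : ℝ) • g (κ (2 * n + 1)) := by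
      ext x; simp [u, add_comm]
    rw [← d1] at c1
    rw [← d2] at c2
    constructor <;> linarith
  refine ⟨n₀, fun n m hn hnm a b hab => ?_⟩
  obtain ⟨v1, v2, v3⟩ := hU.comb hnm hab
  have up1 := (hc k).signed (e2 n hn).1 (e2 n hn).2 (e2 m (by omega)).1 (e2 m (by omega)).2 hab
  have up2 := (hc k).signed (e2 n hn).1 (e2 n hn).2 (e2 m (by omega)).1 (e2 m (by omega)).2
    (a := -a) (b := -b) (by rwa [abs_neg, abs_neg])
  rw [show -a • u n + -b • u m = -(a • u n + b • u m) by ext x; simp [add_comm], abs_neg,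
    abs_neg] at up2
  rw [← add_mul, hab, one_mul] at up1 up2
  set v := a • u n + b • u m with hv
  have hgap : ∀ j, s j v ≤ |a| * (1 / 2 * s j (g (κ (2 * n))) + 1 / 2 * s j (g (κ (2 * n + 1))))
      + |b| * (1 / 2 * s j (g (κ (2 * m))) + 1 / 2 * s j (g (κ (2 * m + 1)))) := by
    intro j
    have q : ∀ n, s j (u n) ≤ 1 / 2 * s j (g (κ (2 * n))) + 1 / 2 * s j (g (κ (2 * n + 1))) := by
      intro n
      have := (hsc j).signed (x := g (κ (2 * n))) (y := g (κ (2 * n + 1))) le_rfl (hse _ _).le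
        le_rfl (hse _ _).le hh
      rwa [abs_neg, abs_of_nonneg (show (0 : ℝ) ≤ 1 / 2 by norm_num)] at this
    exact (hsc j).signed (q n) ((hse _ _).le.trans (q n)) (q m) ((hse _ _).le.trans (q m)) hab
  have hsum := ((((((hΦ _ (hB.norm (κ (2 * n))).le).mul_left (1 / 2)).add
    ((hΦ _ (hB.norm (κ (2 * n + 1))).le).mul_left (1 / 2))).mul_left |a|).add
    ((((hΦ _ (hB.norm (κ (2 * m))).le).mul_left (1 / 2)).add
    ((hΦ _ (hB.norm (κ (2 * m + 1))).le).mul_left (1 / 2))).mul_left |b|)).sub (hΦ v v1.le))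
  have hle := le_hasSum hsum k fun j _ => by
    have := mul_le_mul_of_nonneg_left (hgap j) (show (0 : ℝ) ≤ (1 / 2) ^ j by positivity)
    linarith
  have hv0 := hM₀ v _ v1 (v2.anti (le_trans (le_trans (show M₀ ≤ 2 * n by omega) (hκ.id_le (2 * n)))
    (hB.mono.id_le _))) v3
  obtain ⟨a1, a2, a3⟩ := e1 (2 * n) (by omega)
  obtain ⟨b1, b2, b3⟩ := e1 (2 * n + 1) (by omega)
  obtain ⟨c1, c2, c3⟩ := e1 (2 * m) (by omega)
  obtain ⟨d1, d2, d3⟩ := e1 (2 * m + 1) (by omega)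
  rw [abs_le] at a1 a2 b1 b2 c1 c2 d1 d2
  have t1 := mul_le_mul_of_nonneg_left (show 1 / 2 * Φ (g (κ (2 * n))) + 1 / 2 * Φ (g (κ (2 * n + 1)))
    ≤ l + (1 / 2) ^ k * η / 8 by linarith) (abs_nonneg a)
  have t2 := mul_le_mul_of_nonneg_left (show 1 / 2 * Φ (g (κ (2 * m))) + 1 / 2 * Φ (g (κ (2 * m + 1)))
    ≤ l + (1 / 2) ^ k * η / 8 by linarith) (abs_nonneg b)
  have t3 := mul_le_mul_of_nonneg_left (show (α k).1 + (α k).2 - η / 2 ≤
    1 / 2 * s k (g (κ (2 * n))) + 1 / 2 * s k (g (κ (2 * n + 1))) by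
      simp only [s]; linarith) (abs_nonneg a)
  have t4 := mul_le_mul_of_nonneg_left (show (α k).1 + (α k).2 - η / 2 ≤
    1 / 2 * s k (g (κ (2 * m))) + 1 / 2 * s k (g (κ (2 * m + 1))) by
      simp only [s]; linarith) (abs_nonneg b)
  have t5 : |a| * (l + (1 / 2) ^ k * η / 8) + |b| * (l + (1 / 2) ^ k * η / 8)
      = l + (1 / 2) ^ k * η / 8 := by rw [← add_mul, hab, one_mul]
  have t6 : |a| * ((α k).1 + (α k).2 - η / 2) + |b| * ((α k).1 + (α k).2 - η / 2)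
      = (α k).1 + (α k).2 - η / 2 := by rw [← add_mul, hab, one_mul]
  have t7 : (1 / 2 : ℝ) ^ k * ((α k).1 + (α k).2 - η / 2 - s k v) ≤ (1 / 2) ^ k * (η / 4) := by
    have := mul_le_mul_of_nonneg_left (add_le_add t3 t4) hw.le
    rw [t6] at this
    linarith
  have t8 := le_of_mul_le_mul_left t7 hw
  simp only [s] at t8
  rw [abs_le]
  constructor <;> linarith

end Pool.Agent.H12.Comp
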