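import Mathlib
import Pool.Agent.H12.Comp1

/-! The dual norm, its asymptotic behaviour and functionals with slowly decaying tails. -/

set_option autoImplicit false

namespace Pool.Agent.H12.Comp

open Set Filter Topology Metric

/-- the dual norm -/
noncomputable def psi (p : Seminorm ℝ X0) (f : Z0) : ℝ := sSup ((fun x => f x) '' {x | p x ≤ 1})

variable {p : Seminorm ℝ X0} {C : ℝ}

theorem ball_bd (hC0 : 0 < C) (hC : ∀ x, ‖x‖ ≤ C * p x) {x : X0} (hx : p x ≤ 1) : ‖x‖ ≤ C :=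
  (hC x).trans (mul_le_of_le_one_right hC0.le hx)

theorem le_psi (hC0 : 0 < C) (hC : ∀ x, ‖x‖ ≤ C * p x) (f : Z0) {x : X0} (hx : p x ≤ 1) :
    f x ≤ psi p f := by
  refine le_csSup ⟨‖f‖ * C, ?_⟩ (mem_image_of_mem (fun x => f x) hx)
  rintro _ ⟨y, hy, rfl⟩
  exact (le_norm_mul f y).trans (mul_le_mul_of_nonneg_left (ball_bd hC0 hC hy) (norm_nonneg _))

theorem psi_le {f : Z0} {t : ℝ} (h : ∀ x, p x ≤ 1 → f x ≤ t) : psi p f ≤ t := by
  refine csSup_le ⟨_, mem_image_of_mem _ (show (0 : X0) ∈ {x | p x ≤ 1} by simp)⟩ ?_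
  rintro _ ⟨y, hy, rfl⟩
  exact h y hy

theorem psi_near {f : Z0} {t : ℝ} (h : t < psi p f) : ∃ x, p x ≤ 1 ∧ t < f x := by
  by_contra hc
  push Not at hc
  exact absurd (psi_le hc) (not_le.2 h)

theorem psi_lip (hC0 : 0 < C) (hC : ∀ x, ‖x‖ ≤ C * p x) (f g : Z0) :
    psi p f ≤ psi p g + C * ‖f - g‖ := psi_le fun x hx => by
  have h1 := le_psi hC0 hC g hx
  have h2 := le_norm_mul (f - g) x
  have h3 := mul_le_mul_of_nonneg_left (ball_bd hC0 hC hx) (norm_nonneg (f - g))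
  rw [sub_apply] at h2
  linarith

theorem psi_cvx (hC0 : 0 < C) (hC : ∀ x, ‖x‖ ≤ C * p x) : Cvx (psi p) :=
  fun f g s t hs ht _ => psi_le fun x hx => by
    have h1 := mul_le_mul_of_nonneg_left (le_psi hC0 hC f hx) hs
    have h2 := mul_le_mul_of_nonneg_left (le_psi hC0 hC g hx) ht
    simp only [add_apply, smul_apply, smul_eq_mul]
    linarith

theorem psi_bd (hC0 : 0 < C) (hC : ∀ x, ‖x‖ ≤ C * p x) (f : Z0) : psi p f ≤ C * ‖f‖ :=
  psi_le fun x hx => by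
    have h2 := le_norm_mul f x
    have h3 := mul_le_mul_of_nonneg_left (ball_bd hC0 hC hx) (norm_nonneg f)
    linarith

theorem le_psi_mul (hC0 : 0 < C) (hC : ∀ x, ‖x‖ ≤ C * p x) (f : Z0) {x : X0} {s : ℝ} (hs : 0 < s)
    (hx : p x ≤ s) : f x ≤ s * psi p f := by
  have := le_psi hC0 hC f (x := s⁻¹ • x) (by
    rw [map_smul_eq_mul, Real.norm_of_nonneg (by positivity), inv_mul_le_iff₀ hs, mul_one]
    exact hx)
  rwa [map_smul, smul_eq_mul, inv_mul_le_iff₀ hs] at this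

theorem psi_smul (hC0 : 0 < C) (hC : ∀ x, ‖x‖ ≤ C * p x) (f : Z0) {t : ℝ} (ht : 0 < t) :
    psi p (t • f) = t * psi p f := by
  apply le_antisymm
  · exact psi_le fun x hx => by
      simpa using mul_le_mul_of_nonneg_left (le_psi hC0 hC f hx) ht.le
  · rw [← le_inv_mul_iff₀ ht]
    exact psi_le fun x hx => by
      rw [le_inv_mul_iff₀ ht]
      simpa using le_psi hC0 hC (t • f) hx

/-- two term combinations far out -/
def WW (u : ℕ → Z0) (n₀ : ℕ) : Set Z0 :=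
  {v | ∃ (n m : ℕ) (a b : ℝ), n₀ ≤ n ∧ n < m ∧ |a| + |b| = 1 ∧ v = a • u n + b • u m}

theorem WW_anti (u : ℕ → Z0) {a b : ℕ} (h : a ≤ b) : WW u b ⊆ WW u a := by
  rintro _ ⟨n, m, s, t, h1, h2, h3, rfl⟩
  exact ⟨n, m, s, t, h.trans h1, h2, h3, rfl⟩

theorem WW_self (u : ℕ → Z0) {a m : ℕ} (h : a < m) : u m ∈ WW u a :=
  ⟨a, m, 0, 1, le_rfl, h, by simp, by simp⟩

theorem WW_norm {u : ℕ → Z0} {M : ℕ → ℕ} (hu : Blk u M) {a : ℕ} {v : Z0} (h : v ∈ WW u a) :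
    ‖v‖ = 1 := by
  obtain ⟨n, m, s, t, -, h2, h3, rfl⟩ := h
  exact (hu.comb h2 h3).1

theorem stab2 (hC0 : 0 < C) (hC : ∀ x, ‖x‖ ≤ C * p x) :
    ∃ (u : ℕ → Z0) (M : ℕ → ℕ), Blk u M ∧ ∀ (N : ℕ) (R : ℝ), ∀ η > 0, ∃ n₀, ∀ f ∈ KK N R,
      ∀ s ∈ Icc (0 : ℝ) 1, ∀ v ∈ WW u n₀, ∀ v' ∈ WW u n₀,
        psi p (f + s • v) ≤ psi p (f + s • v') + η := by
  obtain ⟨d, hd⟩ := exists_dense
  obtain ⟨u, M, l, hu, h⟩ := stab (fun k g => psi p (d k + g) - psi p (d k))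
    (fun k f g s t hs ht hst => by
      have h1 := psi_cvx hC0 hC (d k + f) (d k + g) s t hs ht hst
      have h2 : s • (d k + f) + t • (d k + g) = d k + (s • f + t • g) := by
        have : t = 1 - s := by linarith
        subst this
        ext x; simp; ring
      have h3 : s * psi p (d k) + t * psi p (d k) = psi p (d k) := by rw [← add_mul, hst, one_mul]
      rw [h2] at h1
      linarith) C (fun k g hg => by
      have h1 := psi_lip hC0 hC (d k + g) (d k)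
      have h2 := psi_lip hC0 hC (d k) (d k + g)
      rw [norm_sub_rev] at h2
      rw [add_sub_cancel_left] at h1 h2
      have h3 := mul_le_of_le_one_right hC0.le hg
      rw [abs_le]
      constructor <;> linarith)
  refine ⟨u, M, hu, fun N R η hη => ?_⟩
  have pt : ∀ f, Lo N f → ∀ s : ℝ, 0 ≤ s → ∀ η > 0, ∃ n₀, ∀ v ∈ WW u n₀, ∀ v' ∈ WW u n₀,
      psi p (f + s • v) ≤ psi p (f + s • v') + η := by
    intro f hf s hs η hη
    rcases hs.eq_or_lt with rfl | hs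
    · exact ⟨0, fun v _ v' _ => by simpa using hη.le⟩
    obtain ⟨_, ⟨k, rfl⟩, hk⟩ := Metric.mem_closure_iff.1 (hd N _ (hf.smul s⁻¹))
      (η / s / 4 / C) (by positivity)
    rw [dist_eq_norm, lt_div_iff₀ hC0] at hk
    obtain ⟨n₀, hn₀⟩ := h k (η / s / 4) (by positivity)
    refine ⟨n₀, ?_⟩
    rintro _ ⟨n, m, a, b, h1, h2, h3, rfl⟩ _ ⟨n', m', a', b', h1', h2', h3', rfl⟩
    have k1 := hn₀ n m h1 h2 a b h3
    have k2 := hn₀ n' m' h1' h2' a' b' h3'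
    rw [abs_le] at k1 k2
    have e : ∀ v : Z0, f + s • v = s • (s⁻¹ • f + v) := fun v => by
      rw [smul_add, smul_inv_smul₀ hs.ne']
    rw [e, e, psi_smul hC0 hC _ hs, psi_smul hC0 hC _ hs]
    have k3 := psi_lip hC0 hC (s⁻¹ • f + (a • u n + b • u m)) (d k + (a • u n + b • u m))
    have k4 := psi_lip hC0 hC (d k + (a' • u n' + b' • u m')) (s⁻¹ • f + (a' • u n' + b' • u m'))
    rw [norm_sub_rev] at k4
    rw [add_sub_add_right_eq_sub] at k3 k4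
    have k5 : psi p (s⁻¹ • f + (a • u n + b • u m))
        ≤ psi p (s⁻¹ • f + (a' • u n' + b' • u m')) + η / s := by linarith
    have k6 := mul_le_mul_of_nonneg_left k5 hs.le
    rwa [mul_add, mul_div_cancel₀ _ hs.ne'] at k6
  have hK := (KK_compact N R).prod (isCompact_Icc (a := (0 : ℝ)) (b := 1))
  have key : ∃ n₀, ∀ q ∈ KK N R ×ˢ Icc (0 : ℝ) 1, ∀ v ∈ WW u n₀, ∀ v' ∈ WW u n₀,
      psi p (q.1 + q.2 • v) ≤ psi p (q.1 + q.2 • v') + η := by
    refine hK.induction_on (p := fun S => ∃ n₀, ∀ q ∈ S, ∀ v ∈ WW u n₀, ∀ v' ∈ WW u n₀,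
      psi p (q.1 + q.2 • v) ≤ psi p (q.1 + q.2 • v') + η) ⟨0, fun q hq => hq.elim⟩ ?_ ?_ ?_
    · rintro S T hST ⟨n₀, h⟩
      exact ⟨n₀, fun q hq => h q (hST hq)⟩
    · rintro S T ⟨a, ha⟩ ⟨b, hb⟩
      refine ⟨max a b, fun q hq v hv v' hv' => hq.elim (fun hq => ?_) fun hq => ?_⟩
      · exact ha q hq v (WW_anti u (le_max_left _ _) hv) v' (WW_anti u (le_max_left _ _) hv')
      · exact hb q hq v (WW_anti u (le_max_right _ _) hv) v' (WW_anti u (le_max_right _ _) hv')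
    · rintro ⟨f, s⟩ ⟨hf, hs⟩
      obtain ⟨n₀, hn₀⟩ := pt f (KK_Lo hf) s hs.1 (η / 2) (half_pos hη)
      refine ⟨ball (f, s) (η / 8 / C), mem_nhdsWithin_of_mem_nhds (ball_mem_nhds _ (by positivity)),
        n₀, ?_⟩
      rintro ⟨f', s'⟩ hq v hv v' hv'
      rw [mem_ball, Prod.dist_eq, max_lt_iff, dist_eq_norm, Real.dist_eq, lt_div_iff₀ hC0,
        lt_div_iff₀ hC0] at hq
      have e : ∀ w : Z0, ‖w‖ = 1 → ‖f' + s' • w - (f + s • w)‖ ≤ ‖f' - f‖ + |s' - s| := by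
        intro w hw
        have : f' + s' • w - (f + s • w) = (f' - f) + (s' - s) • w := by ext x; simp; ring
        rw [this]
        refine (norm_add_le _ _).trans ?_
        rw [norm_smul, hw, mul_one, Real.norm_eq_abs]
      have k1 := psi_lip hC0 hC (f' + s' • v) (f + s • v)
      have k2 := psi_lip hC0 hC (f + s • v') (f' + s' • v')
      rw [norm_sub_rev] at k2
      have k3 := mul_le_mul_of_nonneg_left (e v (WW_norm hu hv)) hC0.le
      have k4 := mul_le_mul_of_nonneg_left (e v' (WW_norm hu hv')) hC0.le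
      have k5 := hn₀ v hv v' hv'
      simp only at hq ⊢
      linarith [hq.1, hq.2]
  obtain ⟨n₀, h⟩ := key
  exact ⟨n₀, fun f hf s hs => h (f, s) ⟨hf, hs⟩⟩

/-- asymptotic flatness at scale `δ` -/
def PB (p : Seminorm ℝ X0) (δ : ℝ) : Prop :=
  ∀ x, p x ≤ 1 → ∀ η > 0, ∃ M, ∀ v : X0, ‖v‖ ≤ 1 → PP M v = 0 → p (x + δ • v) ≤ 1 + δ ^ 2 + η

theorem types (hC0 : 0 < C) (hC : ∀ x, ‖x‖ ≤ C * p x) :
    ∃ (u : ℕ → Z0) (M : ℕ → ℕ) (Λ : Z0 → ℝ → ℝ), Blk u M ∧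
      (∀ N f, Lo N f → ∀ s ∈ Icc (0 : ℝ) 1,
        Tendsto (fun m => psi p (f + s • u m)) atTop (𝓝 (Λ f s))) ∧
      ∀ N, ∀ η > 0, ∃ n, ∀ f, Lo N f → ‖f‖ ≤ 2 → ∀ a t : ℝ, 0 ≤ t → |a| + t ≤ 1 →
        |Λ (f + a • u n) t - Λ f (|a| + t)| ≤ η := by
  obtain ⟨u, M, hu, h⟩ := stab2 hC0 hC
  have hT : ∀ N f, Lo N f → ∀ s ∈ Icc (0 : ℝ) 1, Tendsto (fun m => psi p (f + s • u m)) atTop
      (𝓝 (limUnder atTop fun m => psi p (f + s • u m))) := by
    intro N f hf s hs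
    refine CauchySeq.tendsto_limUnder (Metric.cauchySeq_iff.2 fun ε hε => ?_)
    obtain ⟨n₀, hn₀⟩ := h N ‖f‖ (ε / 2) (half_pos hε)
    refine ⟨n₀ + 1, fun a ha b hb => ?_⟩
    have h1 := hn₀ f (mem_KK hf le_rfl) s hs _ (WW_self u ha) _ (WW_self u hb)
    have h2 := hn₀ f (mem_KK hf le_rfl) s hs _ (WW_self u hb) _ (WW_self u ha)
    rw [Real.dist_eq, abs_lt]
    constructor <;> linarith
  refine ⟨u, M, fun f s => limUnder atTop fun m => psi p (f + s • u m), hu, hT,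
    fun N η hη => ?_⟩
  obtain ⟨n, hn⟩ := h N 2 η hη
  refine ⟨n, fun f hf hf2 a t ht hat => ?_⟩
  have h0 : 0 ≤ |a| + t := by positivity
  have T1 := hT (max N (M (n + 1))) (f + a • u n) ((hf.mono (le_max_left _ _)).add
    (((hu.lo n).mono (le_max_right _ _)).smul a)) t ⟨ht, by linarith [abs_nonneg a]⟩
  have T2 := hT N f hf (|a| + t) ⟨h0, hat⟩
  refine le_of_tendsto (T1.sub T2).abs ?_
  filter_upwards [eventually_gt_atTop n] with m hm
  rcases h0.eq_or_lt with h1 | h1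
  · have h2 : t = 0 := by linarith [abs_nonneg a]
    have h3 : a = 0 := abs_eq_zero.1 (by linarith)
    subst h2 h3
    simpa using hη.le
  have hv : (a / (|a| + t)) • u n + (t / (|a| + t)) • u m ∈ WW u n :=
    ⟨n, m, _, _, le_rfl, hm, by
      rw [abs_div, abs_div, abs_of_pos h1, abs_of_nonneg ht, ← add_div, div_self h1.ne'], rfl⟩
  have e : f + a • u n + t • u m
      = f + (|a| + t) • ((a / (|a| + t)) • u n + (t / (|a| + t)) • u m) := by
    rw [smul_add, smul_smul, smul_smul, mul_div_cancel₀ _ h1.ne', mul_div_cancel₀ _ h1.ne',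
      add_assoc]
  have k1 := hn f (mem_KK hf hf2) _ ⟨h0, hat⟩ _ hv _ (WW_self u hm)
  have k2 := hn f (mem_KK hf hf2) _ ⟨h0, hat⟩ _ (WW_self u hm) _ hv
  rw [e, abs_le]
  constructor <;> linarith

theorem base_slope (hC0 : 0 < C) (hC : ∀ x, ‖x‖ ≤ C * p x) {u : ℕ → Z0} {M : ℕ → ℕ}
    (hu : Blk u M) {δ : ℝ} (hδ : 0 < δ) (hδ1 : δ ≤ 1) (hB : PB p δ) {N : ℕ} {f : Z0} (hf : Lo N f)
    (hf2 : ‖f‖ ≤ 2) {T L : ℝ} (hT : T ∈ Icc (0 : ℝ) 1)
    (hL : Tendsto (fun m => psi p (f + T • u m)) atTop (𝓝 L)) :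
    psi p f + δ * T - 3 * C * δ ^ 2 ≤ L := by
  refine le_of_forall_pos_le_add fun ε hε => ?_
  set η := ε / (3 * C + 3) with hη
  have hη0 : 0 < η := by positivity
  have hη1 : (3 * C + 3) * η = ε := by rw [hη]; field_simp
  obtain ⟨x, hx, h1⟩ := psi_near (show psi p f - η < psi p f by linarith)
  obtain ⟨M₁, hM₁⟩ := hB x hx η hη0
  obtain ⟨M₂, hM₂⟩ := tail_small x hη0
  rw [← sub_le_iff_le_add]
  refine ge_of_tendsto hL ?_
  filter_upwards [eventually_ge_atTop (max (max M₁ M₂) N)] with m hm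
  have hhi : Hi m (u m) := (hu.hi m).anti (hu.mono.id_le m)
  obtain ⟨v, hv, h2⟩ := exists_near (u m) hη0
  rw [hu.norm] at h2
  have h3 := hM₁ (v - PP m v) ((norm_tail m v).trans hv) (by
    rw [map_sub, PP_PP1 (by omega), sub_self])
  have h4 := le_psi_mul hC0 hC (f + T • u m) (by positivity) h3
  have h5 := psi_bd hC0 hC (f + T • u m)
  have h6 : ‖f + T • u m‖ ≤ 3 := by
    have := norm_add_le f (T • u m)
    rw [norm_smul, hu.norm, mul_one, Real.norm_of_nonneg hT.1] at this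
    linarith [hT.2]
  have h7 := le_norm_mul (u m) (-(x - PP m x))
  rw [hu.norm, one_mul, norm_neg, map_neg, map_sub, hhi x, sub_zero] at h7
  have h8 := hM₂ m (by omega)
  simp only [add_apply, smul_apply, map_add, map_smul, map_sub, smul_eq_mul, hhi v,
    hf.mono (show N ≤ m by omega) v, sub_self, sub_zero] at h4
  have h9 : psi p (f + T • u m) ≤ 3 * C := by nlinarith
  have k1 := mul_le_mul_of_nonneg_left h9 (show 0 ≤ δ ^ 2 + η by positivity)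
  have k2 := mul_le_mul_of_nonneg_left (show -η ≤ u m x by linarith) hT.1
  have k3 := mul_le_mul_of_nonneg_left h2 (mul_nonneg hδ.le hT.1)
  have k4 : T * η ≤ η := mul_le_of_le_one_left hη0.le hT.2
  have k5 : δ * (T * η) ≤ T * η := mul_le_of_le_one_left (mul_nonneg hT.1 hη0.le) hδ1
  nlinarith

end Pool.Agent.H12.Comp
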