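import Mathlib
import Pool.Agent.H12.Comp2

/-! Construction of a companion norm. -/

set_option autoImplicit false

namespace Pool.Agent.H12.Comp

open Set Filter Topology Metric

variable {p : Seminorm ℝ X0} {C : ℝ}

theorem rough (hC0 : 0 < C) (hC : ∀ x, ‖x‖ ≤ C * p x)
    (hB : ∀ ε > 0, ∃ δ, 0 < δ ∧ δ ≤ ε ∧ PB p δ) :
    ∃ K : X0 →L[ℝ] X0, ‖K‖ ≤ 1 / 2 ∧ ∀ (N : ℕ) (h : Z0), Lo N h → h ≠ 0 → ‖h‖ ≤ 1 →
      ∃ c > 0, ∀ t : ℝ, 0 < t → t ≤ 1 → ∀ M, ∃ v : Z0, ‖v‖ ≤ 1 ∧ Hi M v ∧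
        psi p (h + h.comp K) + c * t ≤ psi p (h + h.comp K + t • v) := by
  obtain ⟨u, M, Λ, hu, hT, hL⟩ := types hC0 hC
  let τ : ℕ → ℝ := fun j => (1 / 2) ^ j / 4
  have hτ0 : ∀ j, 0 < τ j := fun j => by positivity
  have hτs : HasSum τ (1 / 2) := by
    have := hasSum_geometric_two.div_const 4
    norm_num at this ⊢
    exact this
  have hτa : ∀ {i j}, i ≤ j → τ j ≤ τ i := fun h =>
    div_le_div_of_nonneg_right (pow_le_pow_of_le_one (by norm_num) (by norm_num) h) (by norm_num)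
  let θ : ℕ → ℝ := fun j => τ (Nat.pair j j)
  have hθ0 : ∀ j, 0 < θ j := fun j => hτ0 _
  have hθ1 : ∀ j, θ j ≤ 1 := fun j => (hτa (Nat.zero_le _)).trans (by norm_num [τ])
  choose γ hγ0 hγ1 hγ2 using fun j : ℕ => hB (θ j / (j + 1)) (by have := hθ0 j; positivity)
  let δ : ℕ → ℝ := fun j =>
    (Finset.range (j + 1)).inf' Finset.nonempty_range_add_one γ * (θ (j + 1) * (1 / 2) ^ j)
  have hδ0 : ∀ j, 0 < δ j := fun j =>
    mul_pos ((Finset.lt_inf'_iff _).2 fun i _ => hγ0 i) (by have := hθ0 (j + 1); positivity)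
  have hδ1 : ∀ i j, i ≤ j → δ j ≤ γ i * (θ (j + 1) * (1 / 2) ^ j) := fun i j h =>
    mul_le_mul_of_nonneg_right (Finset.inf'_le _ (Finset.mem_range.2 (by omega)))
      (by have := hθ0 (j + 1); positivity)
  choose ν hν using fun N j : ℕ => hL N (δ j) (hδ0 j)
  let B : ℕ → ℕ := fun j => Nat.rec 0 (fun k b => max (b + 1) (M (ν b k + 1))) j
  have hBs : ∀ j, B (j + 1) = max (B j + 1) (M (ν (B j) j + 1)) := fun _ => rfl
  have hBm : StrictMono B := strictMono_nat_of_lt_succ fun j => by rw [hBs]; omega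
  let g : ℕ → Z0 := fun j => u (ν (B j) j)
  have hg1 : ∀ j, ‖g j‖ = 1 := fun j => hu.norm _
  have hg2 : ∀ j, Lo (B (j + 1)) (g j) := fun j => (hu.lo _).mono (by rw [hBs]; omega)
  let k : ℕ → X0 →L[ℝ] X0 := fun j => τ j • (g j).smulRight (ee (Nat.unpair j).1)
  have hk : ∀ j, ‖k j‖ ≤ τ j := fun j => by
    refine ContinuousLinearMap.opNorm_le_bound _ (hτ0 j).le fun x => ?_
    have h1 := (g j).le_opNorm x
    rw [hg1, one_mul] at h1
    have h2 := norm_ee (Nat.unpair j).1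
    simp only [k, smul_apply, ContinuousLinearMap.smulRight_apply, norm_smul]
    rw [Real.norm_of_nonneg (hτ0 j).le]
    refine mul_le_mul_of_nonneg_left ?_ (hτ0 j).le
    exact (mul_le_of_le_one_right (norm_nonneg _) h2).trans h1
  have hks : Summable k := Summable.of_norm_bounded hτs.summable hk
  refine ⟨∑' j, k j, tsum_of_norm_bounded hτs hk, fun N h hN h0 h1 => ?_⟩
  let a : ℕ → ℝ := fun j => τ j * h (ee (Nat.unpair j).1)
  have ha : ∀ j, |a j| ≤ τ j := fun j => by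
    simp only [a, abs_mul, abs_of_pos (hτ0 j)]
    refine mul_le_of_le_one_right (hτ0 j).le ((h.le_opNorm _).trans ?_)
    exact mul_le_one₀ h1 (norm_nonneg _) (norm_ee _)
  have has : Summable fun j => |a j| :=
    Summable.of_nonneg_of_le (fun _ => abs_nonneg _) ha hτs.summable
  let f : ℕ → Z0 := fun j => h + ∑ i ∈ Finset.range j, a i • g i
  have hfs : ∀ j, f (j + 1) = f j + a j • g j := fun j => by
    simp only [f, Finset.sum_range_succ, add_assoc]
  have hflim : Tendsto f atTop (𝓝 (h + h.comp (∑' j, k j))) := by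
    have h2 := (hks.hasSum.mapL (ContinuousLinearMap.compL ℝ X0 X0 ℝ h)).tendsto_sum_nat
    refine (h2.const_add h).congr fun j => ?_
    simp only [f]
    congr 1
    refine Finset.sum_congr rfl fun i _ => ?_
    ext x
    simp [k, a]
    ring
  let T : ℕ → ℝ := fun j => ∑' i, |a (i + j)|
  have hTsum : ∀ j, ∑ i ∈ Finset.range j, |a i| + T j = ∑' i, |a i| := fun j =>
    has.sum_add_tsum_nat_add j
  have htot : ∑' i, |a i| ≤ 1 / 2 := hτs.tsum_eq ▸ has.tsum_le_tsum ha hτs.summable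
  have hT0 : ∀ j, 0 ≤ T j := fun j => tsum_nonneg fun _ => abs_nonneg _
  have hS0 : ∀ j, 0 ≤ ∑ i ∈ Finset.range j, |a i| := fun j =>
    Finset.sum_nonneg fun _ _ => abs_nonneg _
  have hT1 : ∀ j, T j ≤ 1 := fun j => by linarith [hTsum j, hS0 j]
  have hTs : ∀ j, T j = |a j| + T (j + 1) := fun j => by
    have h2 := hTsum j
    have h3 := hTsum (j + 1)
    rw [Finset.sum_range_succ] at h3
    linarith
  have hTlim : Tendsto T atTop (𝓝 0) := tendsto_sum_nat_add fun j => |a j|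
  have hf2 : ∀ j, ‖f j‖ ≤ 2 := fun j => by
    have h2 := norm_add_le h (∑ i ∈ Finset.range j, a i • g i)
    have h3 := norm_sum_le (Finset.range j) fun i => a i • g i
    simp only [norm_smul, hg1, mul_one, Real.norm_eq_abs] at h3
    linarith [hTsum j, hT0 j]
  have hfl : ∀ j, N ≤ j → Lo (B j) (f j) := by
    intro j hj x
    simp only [f, add_apply, ContinuousLinearMap.sum_apply, smul_apply]
    rw [hN.mono (hj.trans (hBm.id_le j)) x]
    congr 1
    exact Finset.sum_congr rfl fun i hi => by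
      rw [(hg2 i).mono (hBm.monotone (Finset.mem_range.1 hi)) x]
  obtain ⟨i₀, hi₀⟩ : ∃ i, h (ee i) ≠ 0 := by
    by_contra hc
    push Not at hc
    apply h0
    ext x
    rw [← hN x, PP_eq, map_sum]
    simp [hc]
  set β := |h (ee i₀)| with hβ
  have hβ0 : 0 < β := abs_pos.2 hi₀
  have hTβ : ∀ j, i₀ ≤ j → β * θ j ≤ T j := by
    intro j hj
    have h2 := ((summable_nat_add_iff j).2 has).le_tsum (Nat.pair i₀ j - j)
      fun _ _ => abs_nonneg _
    rw [Nat.sub_add_cancel (Nat.right_le_pair _ _)] at h2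
    refine le_trans ?_ h2
    simp only [a, Nat.unpair_pair, abs_mul, abs_of_pos (hτ0 _)]
    rw [mul_comm]
    refine mul_le_mul_of_nonneg_right (hτa ?_) hβ0.le
    rcases hj.eq_or_lt with rfl | hj
    · exact le_rfl
    · exact (Nat.pair_lt_pair_left _ hj).le
  obtain ⟨j₁, hj₁⟩ := exists_nat_ge (6 * C / β)
  obtain ⟨j₂, hj₂⟩ := exists_pow_lt_of_lt_one (show 0 < β / 16 by positivity)
    (show (1 / 2 : ℝ) < 1 by norm_num)
  set j₀ := max (max N i₀) (max j₁ j₂) with hj₀
  have hΛ0 : ∀ j, N ≤ j → Λ (f j) 0 = psi p (f j) := fun j hj =>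
    tendsto_nhds_unique (hT _ _ (hfl j hj) 0 ⟨le_rfl, zero_le_one⟩) (by simp)
  have hcv : ∀ j, N ≤ j → ∀ s r : ℝ, 0 ≤ s → s ≤ r → r ≤ 1 → 0 < r →
      r * Λ (f j) s ≤ (r - s) * Λ (f j) 0 + s * Λ (f j) r := by
    intro j hj s r h1 h2 h3 h4
    refine le_of_tendsto_of_tendsto' ((hT _ _ (hfl j hj) s ⟨h1, h2.trans h3⟩).const_mul r)
      (((hT _ _ (hfl j hj) 0 ⟨le_rfl, zero_le_one⟩).const_mul (r - s)).add
        ((hT _ _ (hfl j hj) r ⟨h4.le, h3⟩).const_mul s)) fun m => ?_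
    have h5 := psi_cvx hC0 hC (f j + (0 : ℝ) • u m) (f j + r • u m) ((r - s) / r) (s / r)
      (div_nonneg (by linarith) h4.le) (by positivity) (by field_simp; ring)
    have h6 : ((r - s) / r) • (f j + (0 : ℝ) • u m) + (s / r) • (f j + r • u m)
        = f j + s • u m := by
      ext x; simp; field_simp; ring
    rw [h6] at h5
    have h7 := mul_le_mul_of_nonneg_left h5 h4.le
    refine h7.trans (le_of_eq ?_)
    field_simp
  set G := γ j₀ with hG
  have hG0 : 0 < G := hγ0 j₀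
  have hTpos : ∀ j, j₀ ≤ j → 0 < T j := fun j hj =>
    lt_of_lt_of_le (mul_pos hβ0 (hθ0 j)) (hTβ j (by omega))
  have ind : ∀ j, j₀ ≤ j →
      (G / 4 + 4 * G / β * (1 / 2) ^ j) * T j ≤ Λ (f j) (T j) - Λ (f j) 0 := by
    intro j hj
    induction j, hj using Nat.le_induction with
    | base =>
      have hG1 : G * (j₀ + 1) ≤ θ j₀ := by
        have := hγ1 j₀
        rwa [le_div_iff₀ (by positivity)] at this
      have hj0 : (0 : ℝ) ≤ j₀ := Nat.cast_nonneg _
      have hG2 : G ≤ 1 := by nlinarith [hθ1 j₀]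
      have h2 := base_slope hC0 hC hu hG0 hG2 (hγ2 j₀) (hfl j₀ (by omega)) (hf2 j₀)
        ⟨hT0 j₀, hT1 j₀⟩ (hT _ _ (hfl j₀ (by omega)) _ ⟨hT0 j₀, hT1 j₀⟩)
      rw [hΛ0 j₀ (by omega)]
      have h3 : 6 * C ≤ β * (j₀ + 1) := by
        rw [div_le_iff₀ hβ0] at hj₁
        have : (j₁ : ℝ) ≤ j₀ := by exact_mod_cast (show j₁ ≤ j₀ by omega)
        nlinarith
      have h4 : 6 * C * G ≤ T j₀ := by
        have k1 := mul_le_mul_of_nonneg_right h3 hG0.le
        have k2 := mul_le_mul_of_nonneg_left hG1 hβ0.le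
        linarith [hTβ j₀ (by omega)]
      have h5 : 4 * G / β * (1 / 2) ^ j₀ ≤ G / 4 := by
        have k1 : (1 / 2 : ℝ) ^ j₀ ≤ β / 16 :=
          (pow_le_pow_of_le_one (by norm_num) (by norm_num) (by omega)).trans hj₂.le
        refine (mul_le_mul_of_nonneg_left k1 (by positivity)).trans (le_of_eq ?_)
        field_simp; ring
      have h6 := mul_le_mul_of_nonneg_right h5 (hT0 j₀)
      have h7 := mul_le_mul_of_nonneg_left h4 hG0.le
      nlinarith
    | succ j hj ih =>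
      have e1 := hν (B j) j (f j) (hfl j (by omega)) (hf2 j) (a j) (T (j + 1)) (hT0 _)
        (by rw [← hTs]; exact hT1 j)
      have e2 := hν (B j) j (f j) (hfl j (by omega)) (hf2 j) (a j) 0 le_rfl
        (by linarith [hTs j, hT1 j, hT0 (j + 1)])
      rw [← hTs] at e1
      rw [add_zero] at e2
      change |Λ (f j + a j • g j) _ - _| ≤ _ at e1 e2
      rw [← hfs, abs_le] at e1 e2
      have hp := hTpos j hj
      have e3 := hcv j (by omega) |a j| (T j) (abs_nonneg _) (by linarith [hTs j, hT0 (j + 1)])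
        (hT1 j) hp
      have e4 : (G / 4 + 4 * G / β * (1 / 2) ^ j) * T (j + 1) ≤ Λ (f j) (T j) - Λ (f j) |a j| := by
        refine le_of_mul_le_mul_left ?_ hp
        have k1 := mul_le_mul_of_nonneg_left ih (hT0 (j + 1))
        have k2 : |a j| = T j - T (j + 1) := by linarith [hTs j]
        rw [k2] at e3 ⊢
        nlinarith
      have e5 := hδ1 j₀ j hj
      have e6 : θ (j + 1) ≤ T (j + 1) / β := by
        rw [le_div_iff₀ hβ0, mul_comm]; exact hTβ _ (by omega)
      have e7 := mul_le_mul_of_nonneg_left (mul_le_mul_of_nonneg_right e6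
        (show (0 : ℝ) ≤ (1 / 2) ^ j by positivity)) hG0.le
      have e8 : (G / 4 + 4 * G / β * (1 / 2) ^ (j + 1)) * T (j + 1)
          = (G / 4 + 4 * G / β * (1 / 2) ^ j) * T (j + 1)
            - 2 * (G * (T (j + 1) / β * (1 / 2) ^ j)) := by
        rw [pow_succ]; field_simp; ring
      linarith [e1.1, e2.2]
  refine ⟨G / 8, by positivity, fun t ht ht1 M₀ => ?_⟩
  obtain ⟨j, ⟨k1, k2⟩, k3⟩ := (((eventually_ge_atTop j₀).and (hTlim.eventually (ge_mem_nhds ht))).and
    (Metric.tendsto_nhds.1 hflim (G * t / 32 / C) (by positivity))).exists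
  rw [dist_eq_norm, lt_div_iff₀ hC0] at k3
  have e1 : G / 4 * t ≤ Λ (f j) t - Λ (f j) 0 := by
    have hp := hTpos j k1
    refine le_of_mul_le_mul_left ?_ hp
    have e2 := hcv j (by omega) (T j) t hp.le k2 ht1 ht
    have e3 := mul_le_mul_of_nonneg_left (ind j k1) ht.le
    have e4 : 0 ≤ t * (4 * G / β * (1 / 2) ^ j * T j) := by positivity
    nlinarith
  rw [hΛ0 j (by omega)] at e1
  obtain ⟨m, m1, m2⟩ := ((eventually_ge_atTop M₀).and ((hT _ _ (hfl j (by omega)) t
    ⟨ht.le, ht1⟩).eventually (lt_mem_nhds (show Λ (f j) t - G * t / 16 < Λ (f j) t by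
      have : 0 < G * t := by positivity
      linarith)))).exists
  refine ⟨u m, (hu.norm m).le, (hu.hi m).anti (m1.trans (hu.mono.id_le m)), ?_⟩
  have l1 := psi_lip hC0 hC (h + h.comp (∑' j, k j)) (f j)
  have l2 := psi_lip hC0 hC (f j + t • u m) (h + h.comp (∑' j, k j) + t • u m)
  rw [norm_sub_rev] at l1
  rw [add_sub_add_right_eq_sub] at l2
  linarith

/-- a weak form of local uniform rotundity -/
def PA (p : Seminorm ℝ X0) (M : ℕ) (c : ℝ) : Prop :=
  ∃ η > 0, ∀ y z, p y ≤ 1 → p z ≤ 1 → ‖y - PP M y‖ ≤ c / 2 → c ≤ ‖z - PP M z‖ → p (y + z) ≤ 2 - η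

theorem lim_one {a c : ℝ} (h : ∀ t : ℝ, 0 ≤ t → t < 1 → t * a ≤ c) : a ≤ c := by
  have h1 : Tendsto (fun t : ℝ => t * a) (𝓝[<] 1) (𝓝 (1 * a)) :=
    ((continuous_id.mul continuous_const).tendsto 1).mono_left nhdsWithin_le_nhds
  rw [one_mul] at h1
  refine le_of_tendsto h1 ?_
  filter_upwards [Ioo_mem_nhdsLT (show (0 : ℝ) < 1 by norm_num)] with t ht
  exact h t ht.1.le ht.2

theorem companion (hC0 : 0 < C) (hC : ∀ x, ‖x‖ ≤ C * p x)
    (hA : ∀ M k : ℕ, PA p M (1 / ((k : ℝ) + 1))) (hB : ∀ ε > 0, ∃ δ, 0 < δ ∧ δ ≤ ε ∧ PB p δ) :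
    ∃ q : Seminorm ℝ X0, (∃ a b : ℝ, 0 < a ∧ 0 < b ∧ ∀ x, a * ‖x‖ ≤ q x ∧ q x ≤ b * ‖x‖) ∧
      ∀ x, 1 < p x → ∀ y, p y ≤ 1 → ∃ z, p z ≤ 1 ∧ q (x - z) < q (x - y) := by
  obtain ⟨K, hK, hr⟩ := rough hC0 hC hB
  let U := Units.oneSub (-K) (by rw [norm_neg]; linarith)
  have hU : ∀ x, (U : X0 →L[ℝ] X0) x = x + K x := fun x => by simp [U]
  have hUR : ∀ x, (U : X0 →L[ℝ] X0) ((↑U⁻¹ : X0 →L[ℝ] X0) x) = x := fun x => by
    rw [← ContinuousLinearMap.mul_apply, Units.mul_inv]; rfl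
  have hRU : ∀ x, (↑U⁻¹ : X0 →L[ℝ] X0) ((U : X0 →L[ℝ] X0) x) = x := fun x => by
    rw [← ContinuousLinearMap.mul_apply, Units.inv_mul]; rfl
  let q : Seminorm ℝ X0 := (normSeminorm ℝ X0).comp (U : X0 →L[ℝ] X0).toLinearMap
  have hq : ∀ x, q x = ‖(U : X0 →L[ℝ] X0) x‖ := fun _ => rfl
  have hKx : ∀ x, ‖K x‖ ≤ 1 / 2 * ‖x‖ := fun x =>
    (K.le_opNorm x).trans (mul_le_mul_of_nonneg_right hK (norm_nonneg _))
  have hq1 : ∀ x, 1 / 2 * ‖x‖ ≤ q x := fun x => by
    have := norm_sub_le (x + K x) (K x)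
    rw [add_sub_cancel_right] at this
    rw [hq, hU]
    linarith [hKx x]
  refine ⟨q, ⟨1 / 2, 3 / 2, by norm_num, by norm_num, fun x => ⟨hq1 x, ?_⟩⟩, fun x hx y hy => ?_⟩
  · rw [hq, hU]
    linarith [norm_add_le x (K x), hKx x]
  by_contra hc
  push Not at hc
  have hρ : 0 < q (x - y) := by
    refine lt_of_lt_of_le ?_ (hq1 _)
    have : x - y ≠ 0 := fun h => by rw [sub_eq_zero.1 h] at hx; linarith
    have := norm_pos_iff.2 this
    positivity
  have hqc : Continuous q := continuous_norm.comp (U : X0 →L[ℝ] X0).continuous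
  obtain ⟨φ, s, h1, h2⟩ := geometric_hahn_banach_open (s := q.ball x (q (x - y)))
    (t := p.closedBall 0 1) (q.convex_ball _ _) (by
      rw [Seminorm.ball]
      exact isOpen_lt (hqc.comp (continuous_id.sub continuous_const)) continuous_const)
    (p.convex_closedBall _ _) (Set.disjoint_left.2 fun z hz hz' => by
      rw [Seminorm.mem_ball, map_sub_rev] at hz
      rw [Seminorm.mem_closedBall_zero] at hz'
      exact absurd (hc z hz') (not_le.2 hz))
  simp only [Seminorm.mem_closedBall_zero] at h2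
  have h3 : ∀ w, q w < q (x - y) → φ x - φ w < s := fun w hw => by
    have := h1 (x - w) (by rw [Seminorm.mem_ball, sub_sub_cancel_left, map_neg_eq_map]; exact hw)
    rwa [map_sub] at this
  have h4 : φ y ≤ s := by
    have := lim_one (a := -φ (x - y)) (c := s - φ x) fun t ht ht1 => by
      have := h3 (t • (x - y)) (by
        rw [map_smul_eq_mul, Real.norm_of_nonneg ht]; exact mul_lt_of_lt_one_left hρ ht1)
      rw [map_smul, smul_eq_mul] at this
      linarith
    rw [map_sub] at this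
    linarith
  set w := (U : X0 →L[ℝ] X0) (x - y) with hw
  set h' : Z0 := (-φ).comp (↑U⁻¹ : X0 →L[ℝ] X0) with hh'
  have hw1 : h' w = φ y - φ x := by
    rw [hh', hw, ContinuousLinearMap.comp_apply, hRU]; simp
  have h5 : ∀ v, ‖v‖ < ‖w‖ → h' v < h' w := fun v hv => by
    have := h3 ((↑U⁻¹ : X0 →L[ℝ] X0) v) (by rw [hq, hUR]; exact hv)
    rw [hw1, hh', ContinuousLinearMap.comp_apply, neg_apply]
    linarith [h2 y hy]
  have hw0 : 0 < ‖w‖ := hρ
  obtain ⟨N, hN⟩ := tail_small w (half_pos hw0)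
  have h6 : ∀ v, ‖v‖ < ‖w‖ / 2 → h' (v - PP N v) ≤ 0 := by
    intro v hv
    have := lim_one (a := h' w) (c := h' w - h' (v - PP N v)) fun t ht ht1 => by
      have k1 := mix N (t • w) (t • (w - PP N w) + v)
      have k2 : PP N (t • w) + (t • (w - PP N w) + v - PP N (t • (w - PP N w) + v))
          = t • w + (v - PP N v) := by
        simp only [map_add, map_smul, map_sub, PP_PP1 le_rfl, sub_self, smul_zero, smul_sub]
        abel
      have k3 := norm_add_le (t • (w - PP N w)) v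
      rw [norm_smul, Real.norm_of_nonneg ht] at k3
      have k4 := mul_le_of_le_one_left (norm_nonneg (w - PP N w)) ht1.le
      have k5 := h5 (t • w + (v - PP N v)) (by
        rw [← k2]
        refine lt_of_le_of_lt k1 (max_lt ?_ (by linarith [hN N le_rfl]))
        rw [norm_smul, Real.norm_of_nonneg ht]
        exact mul_lt_of_lt_one_left hw0 ht1)
      rw [map_add, map_smul, smul_eq_mul] at k5
      linarith
    linarith
  have h7 : ∀ v, h' (v - PP N v) ≤ 0 := by
    intro v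
    have hr0 : 0 < ‖w‖ / 2 / (‖v‖ + 1) := by positivity
    have := h6 ((‖w‖ / 2 / (‖v‖ + 1)) • v) (by
      rw [norm_smul, Real.norm_of_nonneg hr0.le, div_mul_eq_mul_div, div_lt_iff₀ (by positivity)]
      nlinarith)
    rw [map_smul, ← smul_sub, map_smul, smul_eq_mul] at this
    by_contra hn
    exact absurd this (not_le.2 (mul_pos hr0 (not_le.1 hn)))
  have hLo : Lo N h' := fun v => by
    have k1 := h7 v
    have k2 := h7 (-v)
    simp only [map_sub, map_neg] at k1 k2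
    linarith
  have hne : h' ≠ 0 := fun h => by
    have := h5 0 (by simpa using hw0)
    rw [h] at this
    simp at this
  have hn0 : 0 < ‖h'‖ := norm_pos_iff.2 hne
  obtain ⟨c, hc0, hc1⟩ := hr N (‖h'‖⁻¹ • h') (hLo.smul _) (smul_ne_zero (inv_ne_zero hn0.ne') hne)
    (by rw [norm_smul, norm_inv, norm_norm, inv_mul_cancel₀ hn0.ne'])
  set h := ‖h'‖⁻¹ • h' + (‖h'‖⁻¹ • h').comp K with hh
  have h8 : ∀ z, h z = ‖h'‖⁻¹ * -φ z := fun z => by
    rw [hh, add_apply, ContinuousLinearMap.comp_apply, ← map_add, ← hU, smul_apply, hh',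
      ContinuousLinearMap.comp_apply, hRU]
    rfl
  have h9 : ∀ z, p z ≤ 1 → h z ≤ h y := fun z hz => by
    rw [h8, h8]
    exact mul_le_mul_of_nonneg_left (by linarith [h2 z hz]) (by positivity)
  have hψ : psi p h = h y := le_antisymm (psi_le h9) (le_psi hC0 hC h hy)
  have hpos : 0 < psi p h := by
    have k1 := h5 0 (by simpa using hw0)
    rw [map_zero, hw1] at k1
    have k2 := le_psi_mul hC0 hC h (x := x - y) (s := p (x - y) + 1) (by positivity) (by linarith)
    have k3 : 0 < h (x - y) := by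
      rw [h8, map_sub]; exact mul_pos (by positivity) (by linarith)
    by_contra hn
    have := mul_nonpos_of_nonneg_of_nonpos (show 0 ≤ p (x - y) + 1 by positivity) (not_lt.1 hn)
    linarith
  obtain ⟨k, hk⟩ := exists_nat_one_div_lt (half_pos hc0)
  obtain ⟨M, hM⟩ := tail_small y (show 0 < 1 / ((k : ℝ) + 1) / 2 by positivity)
  obtain ⟨η, hη, hA1⟩ := hA M k
  set t := min 1 (η * psi p h / C) with ht
  have ht0 : 0 < t := lt_min one_pos (by positivity)
  have ht1 : t * C ≤ η * psi p h := by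
    rw [← le_div_iff₀ hC0]; exact min_le_right _ _
  obtain ⟨v, v1, v2, v3⟩ := hc1 t ht0 (min_le_left _ _) M
  obtain ⟨z, z1, z2⟩ := psi_near (show psi p h + c / 2 * t < psi p (h + t • v) by
    have : 0 < c * t := by positivity
    linarith)
  rw [add_apply, smul_apply, smul_eq_mul] at z2
  have z3 := le_psi hC0 hC h z1
  have z4 : c / 2 < v z := lt_of_mul_lt_mul_left (a := t) (by linarith) ht0.le
  have z5 := le_norm_mul v (z - PP M z)
  rw [map_sub, v2 z, sub_zero] at z5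
  have z6 := mul_le_of_le_one_left (norm_nonneg (z - PP M z)) v1
  have z7 := hA1 y z hy z1 (hM M le_rfl) (by linarith)
  have z8 := le_norm_mul v z
  have z9 := mul_le_of_le_one_left (norm_nonneg z) v1
  have z10 := ball_bd hC0 hC z1
  have z11 := mul_le_mul_of_nonneg_left (show v z ≤ C by linarith) ht0.le
  have z12 : 0 < c / 2 * t := by positivity
  have z13 := le_psi_mul hC0 hC h (x := y + z) (s := 2 - η + c / 4 * t / psi p h) (by
    have := apply_nonneg p (y + z)
    have : 0 < c / 4 * t / psi p h := by positivity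
    linarith) (by
    have : 0 < c / 4 * t / psi p h := by positivity
    linarith)
  rw [map_add, add_mul, div_mul_cancel₀ _ hpos.ne'] at z13
  linarith

end Pool.Agent.H12.Comp
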