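import Mathlib
import Pool.Agent.H12.Comp3

/-! A Baire category argument in the space of equivalent norms of `c₀`. -/

set_option autoImplicit false

namespace Pool.Agent.H12.Comp

open Set Filter Topology Metric

/-- equivalent norms -/
def Eqv (p : Seminorm ℝ X0) : Prop :=
  ∃ a b : ℝ, 0 < a ∧ 0 < b ∧ ∀ x : X0, a * ‖x‖ ≤ p x ∧ p x ≤ b * ‖x‖

/-- uniform closeness -/
def Near (p q : Seminorm ℝ X0) (ε : ℝ) : Prop := ∀ x, |p x - q x| ≤ ε * ‖x‖

theorem Near.trans {p q r : Seminorm ℝ X0} {a b c : ℝ} (h1 : Near p q a) (h2 : Near q r b)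
    (h : a + b ≤ c) : Near p r c := fun x => by
  have k1 := abs_sub_le (p x) (q x) (r x)
  have k2 := mul_le_mul_of_nonneg_right h (norm_nonneg x)
  linarith [h1 x, h2 x]

theorem Near.mono {p q : Seminorm ℝ X0} {a c : ℝ} (h1 : Near p q a) (h : a ≤ c) : Near p q c :=
  fun x => (h1 x).trans (mul_le_mul_of_nonneg_right h (norm_nonneg x))

/-- properties with dense interior -/
def DI (P : Seminorm ℝ X0 → Prop) : Prop :=
  ∀ p, Eqv p → ∀ ε > 0, ∃ q, Eqv q ∧ ∃ s > 0, Near p q ε ∧ ∀ r, Eqv r → Near q r s → P r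

theorem DI.and {P Q : Seminorm ℝ X0 → Prop} (hP : DI P) (hQ : DI Q) : DI fun r => P r ∧ Q r := by
  intro p hp ε hε
  obtain ⟨q₁, h1, s₁, hs₁, n1, k1⟩ := hP p hp (ε / 2) (half_pos hε)
  obtain ⟨q₂, h2, s₂, hs₂, n2, k2⟩ := hQ q₁ h1 (min (s₁ / 2) (ε / 2)) (by positivity)
  refine ⟨q₂, h2, min s₂ (s₁ / 2), by positivity,
    n1.trans n2 (by linarith [min_le_right (s₁ / 2) (ε / 2)]), fun r hr hn => ⟨k1 r hr ?_, ?_⟩⟩
  · exact n2.trans hn (by linarith [min_le_left (s₁ / 2) (ε / 2), min_le_right s₂ (s₁ / 2)])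
  · exact k2 r hr (hn.mono (min_le_left _ _))

theorem baire (P : ℕ → Seminorm ℝ X0 → Prop) (hP : ∀ n, DI (P n)) : ∃ r, Eqv r ∧ ∀ n, P n r := by
  let S := {a : Seminorm ℝ X0 × ℝ // Eqv a.1 ∧ 0 < a.2}
  have step : ∀ (n : ℕ) (a : S), ∃ b : S, Near a.1.1 b.1.1 (a.1.2 / 2) ∧ b.1.2 ≤ a.1.2 / 2 ∧
      ∀ r, Eqv r → Near b.1.1 r b.1.2 → P n r := by
    rintro n ⟨⟨p, ε⟩, hp, hε⟩
    obtain ⟨q, h1, s, hs, n1, k1⟩ := hP n p hp (ε / 2) (half_pos hε)
    exact ⟨⟨(q, min s (ε / 2)), h1, lt_min hs (half_pos hε)⟩, n1, min_le_right _ _,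
      fun r hr hn => k1 r hr (hn.mono (min_le_left _ _))⟩
  choose F h1 h2 h3 using step
  let a₀ : S := ⟨(normSeminorm ℝ X0, 1 / 2), ⟨1, 1, one_pos, one_pos, fun x => by simp⟩,
    by norm_num⟩
  let a : ℕ → S := fun n => Nat.rec a₀ (fun k b => F k b) n
  have ha : ∀ n, a (n + 1) = F n (a n) := fun _ => rfl
  have hn : ∀ n m, n ≤ m → Near (a n).1.1 (a m).1.1 ((a n).1.2 - (a m).1.2) := by
    intro n m h
    induction m, h using Nat.le_induction with
    | base => intro x; simp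
    | succ m hm ih =>
      rw [ha]
      exact ih.trans (h1 m (a m)) (by linarith [h2 m (a m)])
  have hn' : ∀ n m, n ≤ m → Near (a n).1.1 (a m).1.1 (a n).1.2 := fun n m h =>
    (hn n m h).mono (by linarith [(a m).2.2])
  have hs : ∀ n, (a n).1.2 ≤ (1 / 2) ^ n := by
    intro n
    induction n with
    | zero => norm_num [a, a₀]
    | succ n ih => rw [ha, pow_succ]; linarith [h2 n (a n)]
  have hc : ∀ x, ∃ l, Tendsto (fun n => (a n).1.1 x) atTop (𝓝 l) := by
    intro x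
    refine cauchySeq_tendsto_of_complete (cauchySeq_of_le_geometric (1 / 2) ‖x‖ (by norm_num)
      fun n => ?_)
    rw [Real.dist_eq, mul_comm]
    exact ((hn' n (n + 1) (Nat.le_succ n)).mono (hs n)) x
  choose l hl using hc
  let r : Seminorm ℝ X0 := Seminorm.of l
    (fun x y => le_of_tendsto_of_tendsto' (hl (x + y)) ((hl x).add (hl y))
      fun n => map_add_le_add _ _ _)
    (fun t x => tendsto_nhds_unique (hl (t • x)) (((hl x).const_mul ‖t‖).congr
      fun n => (map_smul_eq_mul _ _ _).symm))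
  have hr : ∀ n, Near (a n).1.1 r (a n).1.2 := fun n x =>
    le_of_tendsto ((hl x).const_sub ((a n).1.1 x)).abs
      ((eventually_ge_atTop n).mono fun m hm => hn' n m hm x)
  have hE : Eqv r := ⟨1 / 2, 3 / 2, by norm_num, by norm_num, fun x => by
    have := hr 0 x
    change |‖x‖ - r x| ≤ 1 / 2 * ‖x‖ at this
    rw [abs_le] at this
    constructor <;> linarith [this.1, this.2]⟩
  exact ⟨r, hE, fun n => h3 n (a n) r hE (hr (n + 1))⟩

theorem DI_A (M : ℕ) {c : ℝ} (hc : 0 < c) (hc1 : c ≤ 1) : DI fun r => PA r M c := by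
  rintro p ⟨a, b, ha, hb, hp⟩ ε hε
  set e := min ε (2 / 3) with he
  have he0 : 0 < e := by positivity
  have he1 : e ≤ ε := min_le_left _ _
  set θ := e * c / 4 with hθ
  have hθ0 : 0 < θ := by positivity
  have hθ1 : θ ≤ 1 / 6 := by
    have h1 : e ≤ 2 / 3 := min_le_right _ _
    have h2 := mul_le_of_le_one_right he0.le hc1
    linarith
  let Q : Seminorm ℝ X0 := (normSeminorm ℝ X0).comp
    (ContinuousLinearMap.id ℝ X0 - PP M).toLinearMap
  let p₂ : Seminorm ℝ X0 := (1 - 3 * θ).toNNReal • p + e.toNNReal • Q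
  have hp₂ : ∀ x, p₂ x = (1 - 3 * θ) * p x + e * ‖x - PP M x‖ := fun x => by
    change ((1 - 3 * θ).toNNReal : ℝ) * p x + (e.toNNReal : ℝ) * ‖x - PP M x‖ = _
    rw [Real.coe_toNNReal _ (by linarith), Real.coe_toNNReal _ he0.le]
  have hq : ∀ x, (p ⊔ p₂) x = max (p x) (p₂ x) := fun _ => rfl
  have hup : ∀ x, (p ⊔ p₂) x ≤ p x + e * ‖x‖ := fun x => by
    have h1 := mul_le_mul_of_nonneg_left (norm_tail M x) he0.le
    have h2 := mul_nonneg hθ0.le (apply_nonneg p x)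
    rw [hq, hp₂]
    exact max_le (le_add_of_nonneg_right (by positivity)) (by linarith)
  have hlo : ∀ x, p x ≤ (p ⊔ p₂) x := fun x => le_max_left _ _
  refine ⟨p ⊔ p₂, ⟨a, b + e, ha, by positivity, fun x => ⟨(hp x).1.trans (hlo x), by
    linarith [hup x, (hp x).2]⟩⟩, min (a / 2) (θ * a / 20), by positivity, fun x => ?_,
    fun r _ hr => ⟨θ / 2, by positivity, fun y z hy hz h1 h2 => ?_⟩⟩
  · have := mul_le_mul_of_nonneg_right he1 (norm_nonneg x)
    have h0 : 0 ≤ ε * ‖x‖ := by positivity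
    rw [abs_le]
    constructor <;> linarith [hup x, hlo x]
  have k1 : ∀ x, r x ≤ 2 → |(p ⊔ p₂) x - r x| ≤ θ / 10 * (r x) := fun x _ => by
    have l1 := (hr.mono (min_le_left _ _)) x
    have l2 := (hr.mono (min_le_right _ _)) x
    have l3 : a * ‖x‖ ≤ 2 * r x := by
      rw [abs_le] at l1
      linarith [(hp x).1, hlo x, l1.2]
    have l4 := mul_le_mul_of_nonneg_left l3 hθ0.le
    linarith
  have k2 : ∀ x, r x ≤ 1 → p x ≤ 1 + θ / 10 ∧ p₂ x ≤ 1 + θ / 10 := fun x hx => by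
    have l1 := (abs_le.1 (k1 x (by linarith))).2
    have l2 := mul_le_of_le_one_right (show 0 ≤ θ / 10 by positivity) hx
    rw [← max_le_iff, ← hq]
    linarith
  have k3 := map_add_le_add r y z
  have k4 := (abs_le.1 (k1 (y + z) (by linarith))).1
  have k5 := mul_le_mul_of_nonneg_left (show r (y + z) ≤ 2 by linarith)
    (show 0 ≤ θ / 10 by positivity)
  obtain ⟨y1, y2⟩ := k2 y hy
  obtain ⟨z1, z2⟩ := k2 z hz
  have k6 : (p ⊔ p₂) (y + z) ≤ 2 - θ + 3 * (θ / 10) := by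
    rw [hq]
    refine max_le ?_ ?_
    · have l1 := map_add_le_add p y z
      rw [hp₂] at z2
      have l2 := mul_le_mul_of_nonneg_left h2 he0.le
      have l3 : p z ≤ 1 - θ + 2 * (θ / 10) := by
        refine le_of_mul_le_mul_left (a := 1 - 3 * θ) ?_ (by linarith)
        nlinarith
      linarith
    · have l1 := map_add_le_add p₂ y z
      have l2 := mul_le_mul_of_nonneg_left h1 he0.le
      have l3 := mul_le_mul_of_nonneg_left y1 (show 0 ≤ 1 - 3 * θ by linarith)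
      have l4 := hp₂ y
      nlinarith
  linarith

theorem DI_B {ε₀ : ℝ} (hε₀ : 0 < ε₀) : DI fun r => ∃ δ, 0 < δ ∧ δ ≤ ε₀ ∧ PB r δ := by
  rintro p ⟨a, b, ha, hb, hp⟩ ε hε
  set δ := min (min ε₀ 1) (min (ε / b ^ 2) (1 / b)) with hδ
  have hδ0 : 0 < δ := by positivity
  have hδ1 : δ ≤ ε₀ := (min_le_left _ _).trans (min_le_left _ _)
  have hδ2 : δ ≤ 1 := (min_le_left _ _).trans (min_le_right _ _)
  have hδ3 : δ * b ^ 2 ≤ ε := by
    rw [← le_div_iff₀ (by positivity)]; exact (min_le_right _ _).trans (min_le_left _ _)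
  have hδ4 : δ * b ≤ 1 := by
    rw [← le_div_iff₀ hb]; exact (min_le_right _ _).trans (min_le_right _ _)
  let F : X0 → X0 → ℝ := fun x y => max (p y) (‖x - y‖ / δ)
  have hF0 : ∀ x y, 0 ≤ F x y := fun x y => le_max_of_le_left (apply_nonneg _ _)
  have hbb : ∀ x, BddBelow (range (F x)) := fun x => ⟨0, by rintro _ ⟨y, rfl⟩; exact hF0 x y⟩
  let q : Seminorm ℝ X0 := Seminorm.ofSMulLE (fun x => ⨅ y, F x y)
    (le_antisymm ((ciInf_le (hbb 0) 0).trans (by simp [F])) (le_ciInf (hF0 0)))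
    (fun x x' => le_ciInf_add_ciInf fun y y' => (ciInf_le (hbb _) (y + y')).trans (max_le
      ((map_add_le_add p y y').trans (add_le_add (le_max_left _ _) (le_max_left _ _))) (by
        have h1 := norm_add_le (x - y) (x' - y')
        rw [show x - y + (x' - y') = x + x' - (y + y') by abel] at h1
        have h2 := div_le_div_of_nonneg_right h1 hδ0.le
        rw [add_div] at h2
        exact h2.trans (add_le_add (le_max_right _ _) (le_max_right _ _)))))
    (fun t x => by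
      rw [Real.mul_iInf_of_nonneg (norm_nonneg t)]
      refine le_ciInf fun y => (ciInf_le (hbb _) (t • y)).trans (le_of_eq ?_)
      simp only [F]
      rw [← smul_sub, norm_smul, map_smul_eq_mul, mul_max_of_nonneg _ _ (norm_nonneg t),
        mul_div_assoc])
  have hq1 : ∀ x y, q x ≤ F x y := fun x y => ciInf_le (hbb x) y
  have hq2 : ∀ x, q x ≤ p x := fun x => (hq1 x x).trans (by simp [F])
  have hq3 : ∀ x, p x ≤ (1 + δ * b) * q x := fun x => by
    rw [← div_le_iff₀' (by positivity)]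
    refine le_ciInf fun y => ?_
    rw [div_le_iff₀' (by positivity)]
    have h1 := map_add_le_add p y (x - y)
    rw [add_sub_cancel] at h1
    have h2 : ‖x - y‖ ≤ F x y * δ := by rw [← div_le_iff₀ hδ0]; exact le_max_right _ _
    have h3 : p y ≤ F x y := le_max_left _ _
    have h4 := mul_le_mul_of_nonneg_left h2 hb.le
    linarith [(hp (x - y)).2]
  have hq4 : ∀ x, a / 2 * ‖x‖ ≤ q x := fun x => by
    have := mul_le_mul_of_nonneg_right hδ4 (apply_nonneg q x)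
    linarith [hq3 x, (hp x).1]
  have hM : 0 < 8 / a + 1 := by positivity
  refine ⟨q, ⟨a / 2, b, by positivity, hb, fun x => ⟨hq4 x, (hq2 x).trans (hp x).2⟩⟩,
    min (a / 4) (δ ^ 2 / (8 / a + 1)), by positivity, fun x => ?_,
    fun r _ hr => ⟨δ, hδ0, hδ1, fun x hx η hη => ?_⟩⟩
  · have h1 := mul_le_mul_of_nonneg_left ((hq2 x).trans (hp x).2) (mul_nonneg hδ0.le hb.le)
    have h2 := mul_le_mul_of_nonneg_right hδ3 (norm_nonneg x)
    have h0 : 0 ≤ ε * ‖x‖ := by positivity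
    rw [abs_le]
    constructor <;> nlinarith [hq2 x, hq3 x]
  set s := δ ^ 2 / (8 / a + 1) with hs
  have hs0 : 0 < s := by positivity
  have hs1 : s * (8 / a + 1) = δ ^ 2 := by rw [hs]; field_simp
  have hx1 : ‖x‖ ≤ 4 / a := by
    have l1 := (abs_le.1 ((hr.mono (min_le_left _ _)) x)).2
    rw [le_div_iff₀ ha]
    linarith [hq4 x]
  have hr2 := hr.mono (min_le_right _ _)
  have hx2 : q x < 1 + s * (4 / a) + η / 2 := by
    have l1 := (abs_le.1 (hr2 x)).2
    have l2 := mul_le_mul_of_nonneg_left hx1 hs0.le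
    linarith
  obtain ⟨y, hy⟩ := exists_lt_of_ciInf_lt hx2
  simp only [F, max_lt_iff] at hy
  obtain ⟨M, hM1⟩ := tail_small (x - y) (show 0 < η / 2 * δ by positivity)
  refine ⟨M, fun v hv hv0 => ?_⟩
  have l1 := mix M (x - y) (x - y - PP M (x - y) + δ • v)
  have l2 : PP M (x - y) + (x - y - PP M (x - y) + δ • v - PP M (x - y - PP M (x - y) + δ • v))
      = x + δ • v - y := by
    simp only [map_add, map_smul, map_sub, PP_PP1 le_rfl, hv0, smul_zero]
    abel
  have l3 := norm_add_le (x - y - PP M (x - y)) (δ • v)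
  rw [norm_smul, Real.norm_of_nonneg hδ0.le] at l3
  have l4 := mul_le_of_le_one_right hδ0.le hv
  have l5 : 0 ≤ s * (4 / a) * δ := by positivity
  have l6 : q (x + δ • v) ≤ 1 + s * (4 / a) + η / 2 := by
    refine (hq1 _ y).trans (max_le hy.1.le ?_)
    rw [div_le_iff₀ hδ0, ← l2]
    refine l1.trans (max_le ((div_le_iff₀ hδ0).1 hy.2.le) ?_)
    linarith [hM1 M le_rfl]
  have l7 := (abs_le.1 (hr2 (x + δ • v))).1
  have l8 := norm_add_le x (δ • v)
  rw [norm_smul, Real.norm_of_nonneg hδ0.le] at l8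
  have l9 := mul_le_mul_of_nonneg_left (show ‖x + δ • v‖ ≤ 4 / a + 1 by linarith) hs0.le
  have l10 : s * (4 / a) + s * (4 / a + 1) = δ ^ 2 := by rw [← hs1]; ring
  linarith

theorem DI_F (F : Set (Seminorm ℝ X0)) (h : ∀ p : Seminorm ℝ X0, Eqv p → ∀ ε : ℝ, 0 < ε →
    ∃ q : Seminorm ℝ X0, Eqv q ∧ ∃ δ : ℝ, 0 < δ ∧ ∀ r : Seminorm ℝ X0, Eqv r →
      (⨆ x : Metric.closedBall (0 : X0) 1, |q (x : X0) - r (x : X0)|) < δ →
      ((⨆ x : Metric.closedBall (0 : X0) 1, |p (x : X0) - r (x : X0)|) < ε ∧ r ∉ F)) :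
    DI fun r => r ∉ F := by
  intro p hp ε hε
  obtain ⟨q, hq, δ, hδ, h1⟩ := h p hp ε hε
  refine ⟨q, hq, δ / 2, half_pos hδ, fun x => ?_, fun r hr hn => (h1 r hr ?_).2⟩
  · have h2 := (h1 q hq (by simpa using hδ)).1
    obtain ⟨a, b, -, hb, hp⟩ := hp
    obtain ⟨a', b', -, hb', hq⟩ := hq
    have h3 : BddAbove (range fun x : Metric.closedBall (0 : X0) 1 => |p (x : X0) - q (x : X0)|) := by
      refine ⟨b + b', ?_⟩
      rintro _ ⟨⟨x, hx⟩, rfl⟩
      rw [mem_closedBall_zero_iff] at hx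
      have k1 := mul_le_of_le_one_right hb.le hx
      have k2 := mul_le_of_le_one_right hb'.le hx
      simp only [abs_le]
      constructor <;> linarith [(hp x).2, (hq x).2, apply_nonneg p x, apply_nonneg q x]
    rcases eq_or_ne x 0 with rfl | hx
    · simp
    have hn : 0 < ‖x‖ := norm_pos_iff.2 hx
    have h4 := (le_ciSup h3 ⟨‖x‖⁻¹ • x, by
      rw [mem_closedBall_zero_iff, norm_smul, norm_inv, norm_norm, inv_mul_cancel₀ hn.ne']⟩).trans
      h2.le
    simp only [map_smul_eq_mul, norm_inv, norm_norm] at h4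
    rw [← mul_sub, abs_mul, abs_of_pos (inv_pos.2 hn), inv_mul_le_iff₀ hn, mul_comm] at h4
    exact h4
  · refine lt_of_le_of_lt (Real.iSup_le (fun x => ?_) (half_pos hδ).le) (half_lt_self hδ)
    exact (hn x).trans (mul_le_of_le_one_right (half_pos hδ).le (mem_closedBall_zero_iff.1 x.2))

theorem main (F : ℕ → Set (Seminorm ℝ X0)) (h : ∀ n, DI fun r => r ∉ F n) :
    ∃ p, Eqv p ∧ (∃ q : Seminorm ℝ X0, Eqv q ∧
      ∀ x, 1 < p x → ∀ y, p y ≤ 1 → ∃ z, p z ≤ 1 ∧ q (x - z) < q (x - y)) ∧ ∀ n, p ∉ F n := by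
  obtain ⟨p, hp, h1⟩ := baire (fun n r => r ∉ F n ∧
    (PA r (Nat.unpair n).1 (1 / (((Nat.unpair n).2 : ℝ) + 1)) ∧
      ∃ δ, 0 < δ ∧ δ ≤ 1 / ((n : ℝ) + 1) ∧ PB r δ)) fun n => (h n).and
    ((DI_A _ Nat.one_div_pos_of_nat (by
      rw [div_le_one (by positivity)]; linarith [Nat.cast_nonneg (α := ℝ) (Nat.unpair n).2])).and
      (DI_B Nat.one_div_pos_of_nat))
  refine ⟨p, hp, ?_, fun n => (h1 n).1⟩
  obtain ⟨a, b, ha, -, hp⟩ := hp
  refine companion (C := 1 / a) (by positivity) (fun x => ?_) (fun M k => ?_) fun ε hε => ?_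
  · rw [one_div, le_inv_mul_iff₀ ha]; exact (hp x).1
  · have := (h1 (Nat.pair M k)).2.1
    rwa [Nat.unpair_pair] at this
  · obtain ⟨n, hn⟩ := exists_nat_one_div_lt hε
    obtain ⟨δ, h2, h3, h4⟩ := (h1 n).2.2
    exact ⟨δ, h2, h3.trans hn.le, h4⟩

theorem nontriv : Nontrivial X0 := ⟨⟨ee 0, 0, fun h => by
  have := ee_apply 0 0
  rw [h] at this
  simp at this⟩⟩

end Pool.Agent.H12.Comp
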