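import Pool.Agent.H12.Asp1

set_option autoImplicit false
set_option linter.unusedSectionVars false
open Set Filter Topology Metric
open scoped ENNReal

namespace Pool.Agent.H12.Dent

section
variable {I : Type} [LinearOrder I] [NoMaxOrder I]

/-- nodes of the tree -/
abbrev Nd (I : Type) := I × (I → ℕ)

/-- extension order -/
def le (u v : Nd I) : Prop := u.1 ≤ v.1 ∧ ∀ b < u.1, u.2 b = v.2 b

lemma le_rfl' (u : Nd I) : le u u := ⟨le_rfl, fun _ _ => rfl⟩
lemma le_trans' {u v w : Nd I} (h : le u v) (h' : le v w) : le u w :=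
  ⟨h.1.trans h'.1, fun b hb => (h.2 b hb).trans (h'.2 b (hb.trans_le h.1))⟩

/-- successors -/
noncomputable def suc (u : Nd I) (n : ℕ) : Nd I :=
  ((exists_gt u.1).choose, Function.update u.2 u.1 n)

lemma lt_suc (u : Nd I) (n : ℕ) : u.1 < (suc u n).1 := (exists_gt u.1).choose_spec

lemma le_suc (u : Nd I) (n : ℕ) : le u (suc u n) :=
  ⟨(lt_suc u n).le, fun b hb => by simp [suc, hb.ne]⟩

lemma meet {u p s s' : Nd I} {n m : ℕ} (hnm : n ≠ m) (h : le (suc u n) s) (h' : le (suc u m) s')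
    (h1 : le p s) (h2 : le p s') : le p u := by
  have a1 : s.2 u.1 = n := by rw [← h.2 _ (lt_suc u n)]; simp [suc]
  have a2 : s'.2 u.1 = m := by rw [← h'.2 _ (lt_suc u m)]; simp [suc]
  have a3 : p.1 ≤ u.1 := by
    by_contra hc
    exact hnm (by rw [← a1, ← a2, ← h1.2 _ (not_le.1 hc), ← h2.2 _ (not_le.1 hc)])
  exact ⟨a3, fun b hb => (h1.2 b hb).trans
    ((le_trans' (le_suc u n) h).2 b (hb.trans_le a3)).symm⟩

abbrev XX (I : Type) := lp (fun _ : Nd I => ℝ) ∞

open Classical in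
/-- indicator of an initial segment -/
noncomputable def chi (u : Nd I) : XX I := ⟨fun p => if le p u then 1 else 0, memℓp_infty ⟨1, by
  rintro _ ⟨s, rfl⟩; simp only; split_ifs <;> simp⟩⟩

open Classical in
lemma chi_apply (u p : Nd I) : chi u p = if le p u then 1 else 0 := rfl

lemma norm_chi (u : Nd I) : ‖chi u‖ ≤ 1 :=
  lp.norm_le_of_forall_le zero_le_one fun p => by rw [chi_apply]; split_ifs <;> simp

/-- evaluation -/
noncomputable def ev (p : Nd I) : XX I →L[ℝ] ℝ :=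
  LinearMap.mkContinuous ⟨⟨fun x => x p, fun _ _ => rfl⟩, fun _ _ => rfl⟩ 1 fun x => by
    rw [one_mul]; exact lp.norm_apply_le_norm ENNReal.top_ne_zero x p

lemma norm_ev (p : Nd I) : ‖ev p‖ ≤ 1 := LinearMap.mkContinuous_norm_le _ zero_le_one _

lemma ev_apply (p : Nd I) (x : XX I) : ev p x = x p := rfl

lemma sub_le (f g : XX I →L[ℝ] ℝ) (u : Nd I) : |f (chi u) - g (chi u)| ≤ dist f g := by
  rw [dist_eq_norm]
  exact ((f - g).le_opNorm _).trans (mul_le_of_le_one_right (norm_nonneg _) (norm_chi u))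

lemma key (f : XX I →L[ℝ] ℝ) (u : Nd I) {δ : ℝ} (hδ : 0 < δ) :
    {n | ∃ s, le (suc u n) s ∧ δ ≤ |f (chi s) - f (chi u)|}.Finite := by
  classical
  by_contra h
  obtain ⟨N, hN⟩ := exists_nat_gt (‖f‖ / δ)
  obtain ⟨T, hT, hc⟩ := Set.Infinite.exists_subset_card_eq h N
  have : Nonempty (Nd I) := ⟨u⟩
  choose! s h1 h2 using fun n (hn : n ∈ T) => hT hn
  set ε : ℕ → ℝ := fun n => if 0 ≤ f (chi (s n)) - f (chi u) then 1 else -1 with hε
  have e1 : ∀ n, |ε n| = 1 := fun n => by simp only [hε]; split_ifs <;> simp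
  have nb : ‖∑ n ∈ T, ε n • (chi (s n) - chi u)‖ ≤ 1 := by
    refine lp.norm_le_of_forall_le zero_le_one fun p => ?_
    have e : (∑ n ∈ T, ε n • (chi (s n) - chi u)) p = ∑ n ∈ T, ε n * (chi (s n) p - chi u p) := by
      rw [lp.coeFn_sum, Finset.sum_apply]; rfl
    rw [e, Real.norm_eq_abs]
    by_cases hp : le p u
    · rw [Finset.sum_eq_zero]
      · simp
      · intro n hn
        simp [chi_apply, hp, le_trans' hp (le_trans' (le_suc u n) (h1 n hn))]
    by_cases hq : ∃ n ∈ T, le p (s n)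
    · obtain ⟨n, hn, hq⟩ := hq
      rw [Finset.sum_eq_single n]
      · simp [chi_apply, hp, hq, e1]
      · intro m hm hmn
        have : ¬ le p (s m) := fun h3 => hp (meet hmn (h1 m hm) (h1 n hn) h3 hq)
        simp [chi_apply, hp, this]
      · exact fun h => absurd hn h
    · push Not at hq
      rw [Finset.sum_eq_zero]
      · simp
      · intro n hn
        simp [chi_apply, hp, hq n hn]
  have lb : N * δ ≤ f (∑ n ∈ T, ε n • (chi (s n) - chi u)) := by
    rw [map_sum, ← hc, ← nsmul_eq_mul]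
    refine Finset.card_nsmul_le_sum _ _ _ fun n hn => (h2 n hn).trans (le_of_eq ?_)
    rw [map_smul, map_sub, smul_eq_mul]
    simp only [hε]
    split_ifs with h3
    · rw [one_mul, abs_of_nonneg h3]
    · rw [abs_of_neg (not_le.1 h3)]; ring
  have ub := (le_abs_self _).trans ((f.le_opNorm _).trans
    (mul_le_of_le_one_right (norm_nonneg _) nb))
  rw [div_lt_iff₀ hδ] at hN
  linarith

/-- the convex set -/
def KK (I : Type) [LinearOrder I] : Set (XX I) := closure (convexHull ℝ (range chi))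

lemma chi_mem (u : Nd I) : chi u ∈ KK I := subset_closure (subset_convexHull _ _ ⟨u, rfl⟩)

lemma KK_sub {C : Set (XX I)} (h1 : IsClosed C) (h2 : Convex ℝ C) (h : ∀ u, chi u ∈ C) :
    KK I ⊆ C := closure_minimal (convexHull_min (by rintro _ ⟨u, rfl⟩; exact h u) h2) h1

lemma not_dent (x : XX I) : KK I ⊆ closure (convexHull ℝ (KK I \ ball x (1 / 2))) := by
  refine KK_sub isClosed_closure (convex_convexHull _ _).closure fun u => ?_
  by_contra hc
  obtain ⟨f, c, h1, h2⟩ := geometric_hahn_banach_closed_point (convex_convexHull _ _).closure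
    isClosed_closure hc
  have fin := key f u (sub_pos.2 h2)
  have : ∀ n ∉ {n | ∃ s, le (suc u n) s ∧ f (chi u) - c ≤ |f (chi s) - f (chi u)|},
      chi (suc u n) ∈ ball x (1 / 2) := by
    intro n hn
    by_contra hb
    have h3 := h1 _ (subset_closure (subset_convexHull _ _ ⟨chi_mem (suc u n), hb⟩))
    exact hn ⟨_, le_rfl' _, by rw [abs_sub_comm]; exact le_trans (by linarith) (le_abs_self _)⟩
  obtain ⟨n, hn, m, hm, hnm⟩ := fin.infinite_compl.nontrivial
  have h3 := dist_triangle_right (chi (suc u n)) (chi (suc u m)) x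
  have h4 := mem_ball.1 (this n hn)
  have h5 := mem_ball.1 (this m hm)
  have h6 : |(chi (suc u n) - chi (suc u m)) (suc u n)| ≤ dist (chi (suc u n)) (chi (suc u m)) := by
    rw [dist_eq_norm]
    exact lp.norm_apply_le_norm ENNReal.top_ne_zero (chi (suc u n) - chi (suc u m)) _
  have h7 : ¬ le (suc u n) (suc u m) := fun h =>
    (lt_suc u n).not_ge (meet hnm (le_rfl' _) (le_rfl' _) (le_rfl' _) h).1
  have h8 : (chi (suc u n) - chi (suc u m)) (suc u n) = 1 := by
    change chi (suc u n) (suc u n) - chi (suc u m) (suc u n) = 1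
    simp [chi_apply, h7, le_rfl']
  rw [h8, abs_one] at h6
  linarith

lemma step {f : XX I →L[ℝ] ℝ} {r : ℝ} {u : Nd I} (r0 : 0 < r)
    (inv : ∀ s, le u s → ∀ p, f (chi p) - r / 4 ≤ f (chi s)) {O : Set (XX I →L[ℝ] ℝ)}
    (hO : IsOpen O) (hd : Dense O) {η : ℝ} (hη : 0 < η) :
    ∃ (g : XX I →L[ℝ] ℝ) (r' : ℝ) (u' : Nd I), (0 < r' ∧
      ∀ s, le u' s → ∀ p, g (chi p) - r' / 4 ≤ g (chi s)) ∧ closedBall g r' ⊆ O ∧
      dist g f + r' ≤ r ∧ r' ≤ η ∧ le u u' := by
  set f' := f + (r / 2) • ev u with hf'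
  obtain ⟨g, g1, g2⟩ := hd.inter_nhds_nonempty (closedBall_mem_nhds f' (show 0 < r / 16 by positivity))
  obtain ⟨r₁, r1, hb⟩ := nhds_basis_closedBall.mem_iff.1 (hO.mem_nhds g1)
  set r' := min r₁ (min (r / 16) η) with hr'
  have a0 : 0 < r' := lt_min r1 (lt_min (by positivity) hη)
  have a1 : r' ≤ r₁ := min_le_left _ _
  have a2 : r' ≤ r / 16 := (min_le_right _ _).trans (min_le_left _ _)
  have a3 : r' ≤ η := (min_le_right _ _).trans (min_le_right _ _)
  have bd : BddAbove (range fun p => g (chi p)) := ⟨‖g‖, by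
    rintro _ ⟨p, rfl⟩
    exact (le_abs_self _).trans ((g.le_opNorm _).trans
      (mul_le_of_le_one_right (norm_nonneg _) (norm_chi p)))⟩
  have : Nonempty (Nd I) := ⟨u⟩
  obtain ⟨p₀, hp⟩ := exists_lt_of_lt_ciSup (f := fun p => g (chi p))
    (show (⨆ p, g (chi p)) - r' / 8 < ⨆ p, g (chi p) by linarith)
  have gs : ∀ p, |g (chi p) - (f (chi p) + r / 2 * chi p u)| ≤ r / 16 := fun p =>
    (sub_le g f' p).trans g2
  have b : le u p₀ := by
    by_contra hc
    have h1 := (abs_le.1 (gs p₀)).2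
    have h2 := (abs_le.1 (gs u)).1
    rw [chi_apply, if_neg hc] at h1
    rw [chi_apply, if_pos (le_rfl' u)] at h2
    have h3 := inv u (le_rfl' u) p₀
    have h4 := le_ciSup bd u
    linarith
  obtain ⟨n, hn⟩ := (key g p₀ (show 0 < r' / 8 by positivity)).infinite_compl.nonempty
  refine ⟨g, r', suc p₀ n, ⟨a0, fun s hs p => ?_⟩, (closedBall_subset_closedBall a1).trans hb, ?_,
    a3, le_trans' b (le_suc _ _)⟩
  · have h1 : |g (chi s) - g (chi p₀)| < r' / 8 := not_le.1 fun h => hn ⟨s, hs, h⟩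
    have h4 := le_ciSup bd p
    linarith [(abs_lt.1 h1).1]
  · have h1 : dist f' f ≤ r / 2 := by
      rw [hf', dist_eq_norm, add_sub_cancel_left, norm_smul, Real.norm_eq_abs,
        abs_of_pos (by positivity)]
      exact mul_le_of_le_one_right (by positivity) (norm_ev u)
    linarith [dist_triangle g f' f, mem_closedBall.1 g2]

lemma not_meagre [Nonempty I] (hI : ∀ a : ℕ → I, ∃ b, ∀ n, a n ≤ b) :
    ¬ IsMeagre {f : XX I →L[ℝ] ℝ | ∃ x ∈ KK I, ∀ y ∈ KK I, f y ≤ f x} := by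
  classical
  intro h
  obtain ⟨G, h1, h2, h3⟩ := mem_residual.1 h
  obtain ⟨O, hO, rfl⟩ := h2.eq_iInter_nat
  let N := {x : (XX I →L[ℝ] ℝ) × ℝ × Nd I // 0 < x.2.1 ∧
    ∀ s, le x.2.2 s → ∀ p, x.1 (chi p) - x.2.1 / 4 ≤ x.1 (chi s)}
  have : ∀ (x : N) (k : ℕ), ∃ y : N, closedBall y.1.1 y.1.2.1 ⊆ O k ∧
      dist y.1.1 x.1.1 + y.1.2.1 ≤ x.1.2.1 ∧ y.1.2.1 ≤ 1 / (k + 1) ∧ le x.1.2.2 y.1.2.2 := by
    intro x k
    obtain ⟨g, r, u, a, b⟩ := step x.2.1 x.2.2 (hO k) (h3.mono (iInter_subset O k))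
      (Nat.one_div_pos_of_nat (n := k))
    exact ⟨⟨(g, r, u), a⟩, b⟩
  choose F hF using this
  let T : ℕ → N := fun k => Nat.rec ⟨(0, 1, (Classical.arbitrary I, 0)), one_pos, by simp⟩
    (fun k x => F x k) k
  have hT : ∀ k, closedBall (T (k + 1)).1.1 (T (k + 1)).1.2.1 ⊆ O k ∧
      dist (T (k + 1)).1.1 (T k).1.1 + (T (k + 1)).1.2.1 ≤ (T k).1.2.1 ∧
      (T (k + 1)).1.2.1 ≤ 1 / (k + 1) ∧ le (T k).1.2.2 (T (k + 1)).1.2.2 := fun k => hF _ _
  have tr : Tendsto (fun k => (T k).1.2.1) atTop (𝓝 0) := by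
    rw [← tendsto_add_atTop_iff_nat 1]
    exact squeeze_zero (fun k => (T (k + 1)).2.1.le) (fun k => (hT k).2.2.1)
      tendsto_one_div_add_atTop_nhds_zero_nat
  obtain ⟨f, hf⟩ := Asp.nested (fun k => (T k).1.1) (fun k => (T k).1.2.1)
    (fun k => (hT k).2.1) tr
  have mono : ∀ k m, k ≤ m → le (T k).1.2.2 (T m).1.2.2 := fun k m hkm =>
    Nat.le_induction (le_rfl' _) (fun m _ ih => le_trans' ih (hT m).2.2.2) m hkm
  obtain ⟨b, hb⟩ := hI fun k => (T k).1.2.2.1
  let v : Nd I := (b, fun c => if h : ∃ k, c < (T k).1.2.2.1 then (T h.choose).1.2.2.2 c else 0)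
  have hv : ∀ k, le (T k).1.2.2 v := fun k => ⟨hb k, fun c hc => by
    have h : ∃ k, c < (T k).1.2.2.1 := ⟨k, hc⟩
    simp only [v, dif_pos h]
    rcases le_total k h.choose with h4 | h4
    · exact (mono _ _ h4).2 c hc
    · exact ((mono _ _ h4).2 c h.choose_spec).symm⟩
  refine h1 (mem_iInter.2 fun k => (hT k).1 (hf (k + 1))) ⟨chi v, chi_mem v,
    KK_sub (C := {y | f y ≤ f (chi v)}) (isClosed_le f.continuous continuous_const)
      (convex_halfSpace_le f.toLinearMap.isLinear _) fun p => ?_⟩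
  have t3 : Tendsto (fun k => f (chi v) + 3 * (T k).1.2.1) atTop (𝓝 (f (chi v))) := by
    simpa using (tr.const_mul 3).const_add (f (chi v))
  refine ge_of_tendsto' t3 fun k => ?_
  have a1 := (T k).2.2 v (hv k) p
  have a2 := (abs_le.1 ((sub_le f (T k).1.1 p).trans (hf k))).2
  have a3 := (abs_le.1 ((sub_le f (T k).1.1 v).trans (hf k))).1
  linarith [(T k).2.1]

end

open Cardinal in
lemma exists_index : ∃ (I : Type) (_ : LinearOrder I), NoMaxOrder I ∧ Nonempty I ∧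
    ∀ a : ℕ → I, ∃ b, ∀ n, a n ≤ b := by
  obtain ⟨_, _, hw⟩ := exists_ord_eq_type_lt (ℵ₁ : Cardinal.{0}).out
  have c : ∀ i : (ℵ₁ : Cardinal.{0}).out, (Iic i).Countable := fun i => by
    rw [← Iio_insert]
    refine Set.Countable.insert _ (le_aleph0_iff_set_countable.1 (lt_aleph_one_iff.1 ?_))
    simpa using mk_Iio_lt i hw
  have key : ∀ a : ℕ → (ℵ₁ : Cardinal.{0}).out, ∃ b, ∀ n, a n < b := by
    intro a
    by_contra h
    push Not at h
    have : (univ : Set (ℵ₁ : Cardinal.{0}).out).Countable :=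
      (countable_iUnion fun n => c (a n)).mono fun b _ => mem_iUnion.2 (h b)
    simpa using lt_aleph_one_iff.2 (le_aleph0_iff_set_countable.2 this)
  exact ⟨_, inferInstance, ⟨fun i => (key fun _ => i).imp fun _ h => h 0⟩,
    mk_ne_zero_iff.1 (by simpa using (aleph_pos 1).ne'),
    fun a => (key a).imp fun _ h n => (h n).le⟩

end Pool.Agent.H12.Dent
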