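import Mathlib

/-! Positivity certificate for MP_2ee812_an, `n = 4` (dense polynomial arithmetic). -/

namespace Pool.Agent.H12.Exp4

def addL {α : Type} (f : α → α → α) : List α → List α → List α
  | [], q => q
  | a :: p, [] => a :: p
  | a :: p, b :: q => f a b :: addL f p q

def mulL {α : Type} (z : α) (f g : α → α → α) (p q : List α) : List α :=
  p.foldr (fun a r => addL f (q.map (g a)) (z :: r)) []

noncomputable def ev {α : Type} (e : α → ℝ) (x : ℝ) (p : List α) : ℝ :=
  p.foldr (fun a r => e a + x * r) 0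

theorem ev_add {α : Type} (e : α → ℝ) (x : ℝ) (f : α → α → α)
    (hf : ∀ a b, e (f a b) = e a + e b) : ∀ p q, ev e x (addL f p q) = ev e x p + ev e x q
  | [], q => by simp [addL, ev]
  | a :: p, [] => by simp [addL, ev]
  | a :: p, b :: q => by
    have := ev_add e x f hf p q
    simp only [addL, ev, List.foldr_cons, hf] at this ⊢
    rw [this]; ring

theorem ev_map {α : Type} (e : α → ℝ) (x : ℝ) (g : α → α → α)
    (hg : ∀ a b, e (g a b) = e a * e b) (a : α) : ∀ q : List α, ev e x (q.map (g a)) = e a * ev e x q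
  | [] => by simp [ev]
  | b :: q => by
    have := ev_map e x g hg a q
    simp only [ev, List.map_cons, List.foldr_cons, hg] at this ⊢
    rw [this]; ring

theorem ev_mul {α : Type} (e : α → ℝ) (x : ℝ) (z : α) (f g : α → α → α) (hz : e z = 0)
    (hf : ∀ a b, e (f a b) = e a + e b) (hg : ∀ a b, e (g a b) = e a * e b) (q : List α) :
    ∀ p, ev e x (mulL z f g p q) = ev e x p * ev e x q
  | [] => by simp [mulL, ev]
  | a :: p => by
    have h := ev_mul e x z f g hz hf hg q p
    have e1 : mulL z f g (a :: p) q = addL f (q.map (g a)) (z :: mulL z f g p q) := rfl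
    have e2 : ev e x (z :: mulL z f g p q) = e z + x * ev e x (mulL z f g p q) := rfl
    have e3 : ev e x (a :: p) = e a + x * ev e x p := rfl
    rw [e1, ev_add e x f hf, ev_map e x g hg, e2, e3, h, hz]; ring

theorem ev_nonneg {α : Type} (e : α → ℝ) (x : ℝ) (hx : 0 ≤ x) (t : α → Bool)
    (ht : ∀ a, t a = true → 0 ≤ e a) : ∀ p : List α, p.all t = true → 0 ≤ ev e x p
  | [], _ => le_rfl
  | a :: p, h => by
    rw [List.all_cons, Bool.and_eq_true] at h
    exact add_nonneg (ht a h.1) (mul_nonneg hx (ev_nonneg e x hx t ht p h.2))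

abbrev P := List (List (List ℤ))
def A1 : List ℤ → List ℤ → List ℤ := addL (· + ·)
def M1 : List ℤ → List ℤ → List ℤ := mulL 0 (· + ·) (· * ·)
def A2 := addL A1
def M2 := mulL [] A1 M1
def A : P → P → P := addL A2
def M : P → P → P := mulL [] A2 M2
noncomputable def V (x y z : ℝ) : P → ℝ := ev (ev (ev (fun n : ℤ => (n : ℝ)) z) y) x
def ok (p : P) : Bool := p.all fun q => q.all fun r => r.all fun n => decide (0 ≤ n)

theorem V_A (x y z : ℝ) (p q : P) : V x y z (A p q) = V x y z p + V x y z q :=
  ev_add _ _ _ (ev_add _ _ _ (ev_add _ _ _ fun _ _ => Int.cast_add _ _)) p q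

theorem V_M (x y z : ℝ) (p q : P) : V x y z (M p q) = V x y z p * V x y z q := by
  have a1 : ∀ a b, ev (fun n : ℤ => (n : ℝ)) z (A1 a b) =
      ev (fun n : ℤ => (n : ℝ)) z a + ev (fun n : ℤ => (n : ℝ)) z b :=
    ev_add (fun n : ℤ => (n : ℝ)) z (· + ·) fun _ _ => Int.cast_add _ _
  have m1 : ∀ a b, ev (fun n : ℤ => (n : ℝ)) z (M1 a b) =
      ev (fun n : ℤ => (n : ℝ)) z a * ev (fun n : ℤ => (n : ℝ)) z b := fun a b =>
    ev_mul (fun n : ℤ => (n : ℝ)) z 0 (· + ·) (· * ·) Int.cast_zero (fun _ _ => Int.cast_add _ _)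
      (fun _ _ => Int.cast_mul _ _) b a
  have a2 := ev_add (ev (fun n : ℤ => (n : ℝ)) z) y A1 a1
  have m2 := fun a b => ev_mul (ev (fun n : ℤ => (n : ℝ)) z) y [] A1 M1 rfl a1 m1 b a
  exact ev_mul (ev (ev (fun n : ℤ => (n : ℝ)) z) y) x [] A2 M2 rfl a2 m2 q p

theorem V_ok (x y z : ℝ) (hx : 0 ≤ x) (hy : 0 ≤ y) (hz : 0 ≤ z) (p : P) (h : ok p = true) :
    0 ≤ V x y z p :=
  ev_nonneg _ _ hx _ (ev_nonneg _ _ hy _ (ev_nonneg _ _ hz _ fun n hn => by
    exact_mod_cast of_decide_eq_true hn)) p h

def m1 : P := [[[-1]]]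
theorem V_m1 (x y z : ℝ) : V x y z m1 = -1 := by simp [V, ev, m1]
def N0 : List (List ℤ) := [[], [], [0, 0, 0, 0, 1, 4, 6, 4, 1], [0, 0, 0, 2, 12, 26, 26, 12, 2], [0, 0, 1, 12, 40, 58, 40, 12, 1], [0, 0, 4, 26, 58, 58, 26, 4], [0, 0, 6, 26, 40, 26, 6], [0, 0, 4, 12, 12, 4], [0, 0, 1, 2, 1]]
def N1 : List (List ℤ) := [[], [0, 0, 0, 0, 1, 4, 6, 4, 1], [0, 0, 0, 4, 24, 52, 52, 24, 4], [0, 0, 4, 40, 128, 184, 128, 40, 4], [0, 1, 24, 128, 272, 272, 128, 24, 1], [0, 4, 52, 184, 272, 184, 52, 4], [0, 6, 52, 128, 128, 52, 6], [0, 4, 24, 40, 24, 4], [0, 1, 4, 4, 1]]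
def N2 : List (List ℤ) := [[0, 0, 0, 0, 1, 4, 6, 4, 1], [0, 0, 0, 4, 24, 52, 52, 24, 4], [0, 0, 5, 52, 168, 242, 168, 52, 5], [0, 4, 52, 242, 494, 494, 242, 52, 4], [1, 24, 168, 494, 697, 494, 168, 24, 1], [4, 52, 242, 494, 494, 242, 52, 4], [6, 52, 168, 242, 168, 52, 6], [4, 24, 52, 52, 24, 4], [1, 4, 5, 4, 1]]
def N3 : List (List ℤ) := [[0, 0, 0, 2, 12, 26, 26, 12, 2], [0, 0, 4, 40, 128, 184, 128, 40, 4], [0, 4, 52, 242, 494, 494, 242, 52, 4], [2, 40, 242, 666, 922, 666, 242, 40, 2], [12, 128, 494, 922, 922, 494, 128, 12], [26, 184, 494, 666, 494, 184, 26], [26, 128, 242, 242, 128, 26], [12, 40, 52, 40, 12], [2, 4, 4, 2]]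
def N4 : List (List ℤ) := [[0, 0, 1, 12, 40, 58, 40, 12, 1], [0, 1, 24, 128, 272, 272, 128, 24, 1], [1, 24, 168, 494, 697, 494, 168, 24, 1], [12, 128, 494, 922, 922, 494, 128, 12], [40, 272, 697, 922, 697, 272, 40], [58, 272, 494, 494, 272, 58], [40, 128, 168, 128, 40], [12, 24, 24, 12], [1, 1, 1]]
def N5 : List (List ℤ) := [[0, 0, 4, 26, 58, 58, 26, 4], [0, 4, 52, 184, 272, 184, 52, 4], [4, 52, 242, 494, 494, 242, 52, 4], [26, 184, 494, 666, 494, 184, 26], [58, 272, 494, 494, 272, 58], [58, 184, 242, 184, 58], [26, 52, 52, 26], [4, 4, 4]]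
def N6 : List (List ℤ) := [[0, 0, 6, 26, 40, 26, 6], [0, 6, 52, 128, 128, 52, 6], [6, 52, 168, 242, 168, 52, 6], [26, 128, 242, 242, 128, 26], [40, 128, 168, 128, 40], [26, 52, 52, 26], [6, 6, 6]]
def N7 : List (List ℤ) := [[0, 0, 4, 12, 12, 4], [0, 4, 24, 40, 24, 4], [4, 24, 52, 52, 24, 4], [12, 40, 52, 40, 12], [12, 24, 24, 12], [4, 4, 4]]
def N8 : List (List ℤ) := [[0, 0, 1, 2, 1], [0, 1, 4, 4, 1], [1, 4, 5, 4, 1], [2, 4, 4, 2], [1, 1, 1]]
def N : P := [N0, N1, N2, N3, N4, N5, N6, N7, N8]
def E0 : List (List ℤ) := [[], [0, 0, 0, 1, 4, 6, 4, 1], [0, 0, 2, 12, 26, 26, 12, 2], [0, 1, 12, 40, 58, 40, 12, 1], [0, 4, 26, 58, 58, 26, 4], [0, 6, 26, 40, 26, 6], [0, 4, 12, 12, 4], [0, 1, 2, 1]]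
def E1 : List (List ℤ) := [[0, 0, 0, 1, 4, 6, 4, 1], [0, 0, 4, 24, 52, 52, 24, 4], [0, 4, 40, 128, 184, 128, 40, 4], [1, 24, 128, 272, 272, 128, 24, 1], [4, 52, 184, 272, 184, 52, 4], [6, 52, 128, 128, 52, 6], [4, 24, 40, 24, 4], [1, 4, 4, 1]]
def E2 : List (List ℤ) := [[0, 0, 2, 12, 26, 26, 12, 2], [0, 4, 40, 128, 184, 128, 40, 4], [2, 40, 204, 428, 428, 204, 40, 2], [12, 128, 428, 624, 428, 128, 12], [26, 184, 428, 428, 184, 26], [26, 128, 204, 128, 26], [12, 40, 40, 12], [2, 4, 2]]
def E3 : List (List ℤ) := [[0, 1, 12, 40, 58, 40, 12, 1], [1, 24, 128, 272, 272, 128, 24, 1], [12, 128, 428, 624, 428, 128, 12], [40, 272, 624, 624, 272, 40], [58, 272, 428, 272, 58], [40, 128, 128, 40], [12, 24, 12], [1, 1]]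
def E4 : List (List ℤ) := [[0, 4, 26, 58, 58, 26, 4], [4, 52, 184, 272, 184, 52, 4], [26, 184, 428, 428, 184, 26], [58, 272, 428, 272, 58], [58, 184, 184, 58], [26, 52, 26], [4, 4]]
def E5 : List (List ℤ) := [[0, 6, 26, 40, 26, 6], [6, 52, 128, 128, 52, 6], [26, 128, 204, 128, 26], [40, 128, 128, 40], [26, 52, 26], [6, 6]]
def E6 : List (List ℤ) := [[0, 4, 12, 12, 4], [4, 24, 40, 24, 4], [12, 40, 40, 12], [12, 24, 12], [4, 4]]
def E7 : List (List ℤ) := [[0, 1, 2, 1], [1, 4, 4, 1], [2, 4, 2], [1, 1]]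
def E : P := [E0, E1, E2, E3, E4, E5, E6, E7]
def T0 : List (List ℤ) := [[], [], [0, 0, 1]]
def T1 : List (List ℤ) := []
def T2 : List (List ℤ) := [[0, 0, 1], [], [1, 0, 1]]
def T : P := [T0, T1, T2]
def F0 : List (List ℤ) := [[], [], [0, 0, 0, 0, 0, 0, -1, -8, -28, -56, -70, -56, -28, -8, -1], [0, 0, 0, 0, 0, -4, -40, -172, -420, -644, -644, -420, -172, -40, -4], [0, 0, 0, 0, -6, -80, -436, -1316, -2470, -3032, -2470, -1316, -436, -80, -6], [0, 0, 0, -4, -80, -584, -2240, -5204, -7824, -7824, -5204, -2240, -584, -80, -4], [0, 0, -1, -40, -436, -2240, -6616, -12316, -15086, -12316, -6616, -2240, -436, -40, -1], [0, 0, -8, -172, -1316, -5204, -12316, -18680, -18680, -12316, -5204, -1316, -172, -8], [0, 0, -28, -420, -2470, -7824, -15086, -18680, -15086, -7824, -2470, -420, -28], [0, 0, -56, -644, -3032, -7824, -12316, -12316, -7824, -3032, -644, -56], [0, 0, -70, -644, -2470, -5204, -6616, -5204, -2470, -644, -70], [0, 0, -56, -420, -1316, -2240, -2240, -1316, -420, -56], [0, 0, -28, -172,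 -436, -584, -436, -172, -28], [0, 0, -8, -40, -80, -80, -40, -8], [0, 0, -1, -4, -6, -4, -1]]
def F1 : List (List ℤ) := [[], [0, 0, 0, 0, 0, 0, -2, -16, -56, -112, -140, -112, -56, -16, -2], [0, 0, 0, 0, 0, -12, -120, -516, -1260, -1932, -1932, -1260, -516, -120, -12], [0, 0, 0, 0, -26, -336, -1804, -5404, -10106, -12392, -10106, -5404, -1804, -336, -26], [0, 0, 0, -26, -464, -3224, -12068, -27694, -41420, -41420, -27694, -12068, -3224, -464, -26], [0, 0, -12, -336, -3224, -15624, -44816, -82264, -100344, -82264, -44816, -15624, -3224, -336, -12], [0, -2, -120, -1804, -12068, -44816, -102832, -153950, -153950, -102832, -44816, -12068, -1804, -120, -2], [0, -16, -516, -5404, -27694, -82264, -153950, -188952, -153950, -82264, -27694, -5404, -516, -16], [0, -56, -1260, -10106, -41420, -100344, -153950, -153950, -100344, -41420, -10106, -1260, -56], [0, -112, -1932, -12392, -41420, -82264, -102832, -82264, -41420, -12392, -1932, -112], [0, -140, -1932, -10106, -27694, -44816, -44816, -27694, -10106,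 -1932, -140], [0, -112, -1260, -5404, -12068, -15624, -12068, -5404, -1260, -112], [0, -56, -516, -1804, -3224, -3224, -1804, -516, -56], [0, -16, -120, -336, -464, -336, -120, -16], [0, -2, -12, -26, -26, -12, -2]]
def F2 : List (List ℤ) := [[0, 0, 0, 0, 0, 0, -1, -8, -28, -56, -70, -56, -28, -8, -1], [0, 0, 0, 0, 0, -12, -120, -516, -1260, -1932, -1932, -1260, -516, -120, -12], [0, 0, 0, 0, -40, -512, -2736, -8176, -15272, -18720, -15272, -8176, -2736, -512, -40], [0, 0, 0, -58, -992, -6752, -25004, -57062, -85140, -85140, -57062, -25004, -6752, -992, -58], [0, 0, -40, -992, -9008, -42448, -119968, -218608, -266064, -218608, -119968, -42448, -9008, -992, -40], [0, -12, -512, -6752, -42448, -152632, -344392, -511860, -511860, -344392, -152632, -42448, -6752, -512, -12], [-1, -120, -2736, -25004, -119968, -344392, -633792, -773962, -633792, -344392, -119968, -25004, -2736, -120, -1], [-8, -516, -8176, -57062, -218608, -511860, -773962, -773962, -511860, -218608, -57062, -8176, -516, -8], [-28,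 -1260, -15272, -85140, -266064, -511860, -633792, -511860, -266064, -85140, -15272, -1260, -28], [-56, -1932, -18720, -85140, -218608, -344392, -344392, -218608, -85140, -18720, -1932, -56], [-70, -1932, -15272, -57062, -119968, -152632, -119968, -57062, -15272, -1932, -70], [-56, -1260, -8176, -25004, -42448, -42448, -25004, -8176, -1260, -56], [-28, -516, -2736, -6752, -9008, -6752, -2736, -516, -28], [-8, -120, -512, -992, -992, -512, -120, -8], [-1, -12, -40, -58, -40, -12, -1]]
def F3 : List (List ℤ) := [[0, 0, 0, 0, 0, -4, -40, -172, -420, -644, -644, -420, -172, -40, -4], [0, 0, 0, 0, -26, -336, -1804, -5404, -10106, -12392, -10106, -5404, -1804, -336, -26], [0, 0, 0, -58, -992, -6752, -25004, -57062, -85140, -85140, -57062, -25004, -6752, -992, -58], [0, 0, -58, -1392, -12440, -58128, -163536, -297320, -361612, -297320, -163536, -58128, -12440, -1392, -58], [0, -26, -992, -12440, -76216, -270244, -605228, -896590, -896590, -605228, -270244, -76216, -12440, -992, -26], [-4, -336, -6752,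 -58128, -270244, -762600, -1391356, -1694584, -1391356, -762600, -270244, -58128, -6752, -336, -4], [-40, -1804, -25004, -163536, -605228, -1391356, -2086968, -2086968, -1391356, -605228, -163536, -25004, -1804, -40], [-172, -5404, -57062, -297320, -896590, -1694584, -2086968, -1694584, -896590, -297320, -57062, -5404, -172], [-420, -10106, -85140, -361612, -896590, -1391356, -1391356, -896590, -361612, -85140, -10106, -420], [-644, -12392, -85140, -297320, -605228, -762600, -605228, -297320, -85140, -12392, -644], [-644, -10106, -57062, -163536, -270244, -270244, -163536, -57062, -10106, -644], [-420, -5404, -25004, -58128, -76216, -58128, -25004, -5404, -420], [-172, -1804, -6752, -12440, -12440, -6752, -1804, -172], [-40, -336, -992, -1392, -992, -336, -40], [-4, -26, -58, -58, -26, -4]]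
def F4 : List (List ℤ) := [[0, 0, 0, 0, -6, -80, -436, -1316, -2470, -3032, -2470, -1316, -436, -80, -6], [0, 0, 0, -26, -464, -3224, -12068, -27694, -41420, -41420, -27694, -12068, -3224, -464, -26], [0, 0, -40, -992, -9008, -42448, -119968, -218608, -266064, -218608, -119968, -42448, -9008, -992, -40], [0, -26, -992, -12440, -76216, -270244, -605228, -896590, -896590, -605228, -270244, -76216, -12440, -992, -26], [-6, -464, -9008, -76216, -351000, -985296, -1792856, -2181788, -1792856, -985296, -351000, -76216, -9008, -464, -6], [-80, -3224, -42448, -270244, -985296, -2246760, -3357900, -3357900, -2246760, -985296, -270244, -42448, -3224, -80], [-436, -12068, -119968, -605228, -1792856, -3357900, -4123872, -3357900, -1792856, -605228, -119968, -12068, -436], [-1316, -27694, -218608, -896590, -2181788, -3357900, -3357900, -2181788, -896590, -218608, -27694, -1316], [-2470, -41420, -266064, -896590, -1792856, -2246760, -1792856, -896590, -266064, -41420, -2470], [-3032, -41420, -218608, -605228,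 -985296, -985296, -605228, -218608, -41420, -3032], [-2470, -27694, -119968, -270244, -351000, -270244, -119968, -27694, -2470], [-1316, -12068, -42448, -76216, -76216, -42448, -12068, -1316], [-436, -3224, -9008, -12440, -9008, -3224, -436], [-80, -464, -992, -992, -464, -80], [-6, -26, -40, -26, -6]]
def F5 : List (List ℤ) := [[0, 0, 0, -4, -80, -584, -2240, -5204, -7824, -7824, -5204, -2240, -584, -80, -4], [0, 0, -12, -336, -3224, -15624, -44816, -82264, -100344, -82264, -44816, -15624, -3224, -336, -12], [0, -12, -512, -6752, -42448, -152632, -344392, -511860, -511860, -344392, -152632, -42448, -6752, -512, -12], [-4, -336, -6752, -58128, -270244, -762600, -1391356, -1694584, -1391356, -762600, -270244, -58128, -6752, -336, -4], [-80, -3224, -42448, -270244, -985296, -2246760, -3357900, -3357900, -2246760, -985296, -270244, -42448, -3224, -80], [-584, -15624, -152632, -762600, -2246760, -4196232, -5148960, -4196232, -2246760, -762600, -152632, -15624, -584], [-2240, -44816, -344392, -1391356,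 -3357900, -5148960, -5148960, -3357900, -1391356, -344392, -44816, -2240], [-5204, -82264, -511860, -1694584, -3357900, -4196232, -3357900, -1694584, -511860, -82264, -5204], [-7824, -100344, -511860, -1391356, -2246760, -2246760, -1391356, -511860, -100344, -7824], [-7824, -82264, -344392, -762600, -985296, -762600, -344392, -82264, -7824], [-5204, -44816, -152632, -270244, -270244, -152632, -44816, -5204], [-2240, -15624, -42448, -58128, -42448, -15624, -2240], [-584, -3224, -6752, -6752, -3224, -584], [-80, -336, -512, -336, -80], [-4, -12, -12, -4]]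
def F6 : List (List ℤ) := [[0, 0, -1, -40, -436, -2240, -6616, -12316, -15086, -12316, -6616, -2240, -436, -40, -1], [0, -2, -120, -1804, -12068, -44816, -102832, -153950, -153950, -102832, -44816, -12068, -1804, -120, -2], [-1, -120, -2736, -25004, -119968, -344392, -633792, -773962, -633792, -344392, -119968, -25004, -2736, -120, -1], [-40, -1804, -25004, -163536, -605228, -1391356, -2086968, -2086968, -1391356, -605228, -163536, -25004, -1804, -40], [-436, -12068, -119968, -605228, -1792856, -3357900, -4123872, -3357900, -1792856, -605228, -119968, -12068, -436], [-2240, -44816, -344392, -1391356, -3357900, -5148960, -5148960, -3357900, -1391356, -344392, -44816, -2240], [-6616, -102832, -633792, -2086968, -4123872, -5148960, -4123872, -2086968, -633792, -102832, -6616], [-12316, -153950, -773962, -2086968, -3357900, -3357900, -2086968, -773962, -153950, -12316], [-15086, -153950, -633792, -1391356, -1792856, -1391356, -633792, -153950, -15086], [-12316, -102832, -344392, -605228, -605228,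 -344392, -102832, -12316], [-6616, -44816, -119968, -163536, -119968, -44816, -6616], [-2240, -12068, -25004, -25004, -12068, -2240], [-436, -1804, -2736, -1804, -436], [-40, -120, -120, -40], [-1, -2, -1]]
def F7 : List (List ℤ) := [[0, 0, -8, -172, -1316, -5204, -12316, -18680, -18680, -12316, -5204, -1316, -172, -8], [0, -16, -516, -5404, -27694, -82264, -153950, -188952, -153950, -82264, -27694, -5404, -516, -16], [-8, -516, -8176, -57062, -218608, -511860, -773962, -773962, -511860, -218608, -57062, -8176, -516, -8], [-172, -5404, -57062, -297320, -896590, -1694584, -2086968, -1694584, -896590, -297320, -57062, -5404, -172], [-1316, -27694, -218608, -896590, -2181788, -3357900, -3357900, -2181788, -896590, -218608, -27694, -1316], [-5204, -82264, -511860, -1694584, -3357900, -4196232, -3357900, -1694584, -511860, -82264, -5204], [-12316, -153950, -773962, -2086968, -3357900, -3357900, -2086968, -773962, -153950, -12316], [-18680, -188952, -773962, -1694584, -2181788, -1694584, -773962,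 -188952, -18680], [-18680, -153950, -511860, -896590, -896590, -511860, -153950, -18680], [-12316, -82264, -218608, -297320, -218608, -82264, -12316], [-5204, -27694, -57062, -57062, -27694, -5204], [-1316, -5404, -8176, -5404, -1316], [-172, -516, -516, -172], [-8, -16, -8]]
def F8 : List (List ℤ) := [[0, 0, -28, -420, -2470, -7824, -15086, -18680, -15086, -7824, -2470, -420, -28], [0, -56, -1260, -10106, -41420, -100344, -153950, -153950, -100344, -41420, -10106, -1260, -56], [-28, -1260, -15272, -85140, -266064, -511860, -633792, -511860, -266064, -85140, -15272, -1260, -28], [-420, -10106, -85140, -361612, -896590, -1391356, -1391356, -896590, -361612, -85140, -10106, -420], [-2470, -41420, -266064, -896590, -1792856, -2246760, -1792856, -896590, -266064, -41420, -2470], [-7824, -100344, -511860, -1391356, -2246760, -2246760, -1391356, -511860, -100344, -7824], [-15086, -153950, -633792, -1391356, -1792856, -1391356, -633792, -153950, -15086], [-18680, -153950, -511860, -896590, -896590,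 -511860, -153950, -18680], [-15086, -100344, -266064, -361612, -266064, -100344, -15086], [-7824, -41420, -85140, -85140, -41420, -7824], [-2470, -10106, -15272, -10106, -2470], [-420, -1260, -1260, -420], [-28, -56, -28]]
def F9 : List (List ℤ) := [[0, 0, -56, -644, -3032, -7824, -12316, -12316, -7824, -3032, -644, -56], [0, -112, -1932, -12392, -41420, -82264, -102832, -82264, -41420, -12392, -1932, -112], [-56, -1932, -18720, -85140, -218608, -344392, -344392, -218608, -85140, -18720, -1932, -56], [-644, -12392, -85140, -297320, -605228, -762600, -605228, -297320, -85140, -12392, -644], [-3032, -41420, -218608, -605228, -985296, -985296, -605228, -218608, -41420, -3032], [-7824, -82264, -344392, -762600, -985296, -762600, -344392, -82264, -7824], [-12316, -102832, -344392, -605228, -605228, -344392, -102832, -12316], [-12316, -82264, -218608, -297320, -218608, -82264, -12316], [-7824, -41420, -85140, -85140, -41420, -7824], [-3032, -12392, -18720, -12392, -3032], [-644, -1932, -1932, -644],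 [-56, -112, -56]]
def F10 : List (List ℤ) := [[0, 0, -70, -644, -2470, -5204, -6616, -5204, -2470, -644, -70], [0, -140, -1932, -10106, -27694, -44816, -44816, -27694, -10106, -1932, -140], [-70, -1932, -15272, -57062, -119968, -152632, -119968, -57062, -15272, -1932, -70], [-644, -10106, -57062, -163536, -270244, -270244, -163536, -57062, -10106, -644], [-2470, -27694, -119968, -270244, -351000, -270244, -119968, -27694, -2470], [-5204, -44816, -152632, -270244, -270244, -152632, -44816, -5204], [-6616, -44816, -119968, -163536, -119968, -44816, -6616], [-5204, -27694, -57062, -57062, -27694, -5204], [-2470, -10106, -15272, -10106, -2470], [-644, -1932, -1932, -644], [-70, -140, -70]]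
def F11 : List (List ℤ) := [[0, 0, -56, -420, -1316, -2240, -2240, -1316, -420, -56], [0, -112, -1260, -5404, -12068, -15624, -12068, -5404, -1260, -112], [-56, -1260, -8176, -25004, -42448, -42448, -25004, -8176, -1260, -56], [-420, -5404, -25004, -58128, -76216, -58128, -25004, -5404, -420], [-1316, -12068, -42448, -76216, -76216, -42448, -12068, -1316], [-2240, -15624, -42448, -58128, -42448, -15624, -2240], [-2240, -12068, -25004, -25004, -12068, -2240], [-1316, -5404, -8176, -5404, -1316], [-420, -1260, -1260, -420], [-56, -112, -56]]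
def F12 : List (List ℤ) := [[0, 0, -28, -172, -436, -584, -436, -172, -28], [0, -56, -516, -1804, -3224, -3224, -1804, -516, -56], [-28, -516, -2736, -6752, -9008, -6752, -2736, -516, -28], [-172, -1804, -6752, -12440, -12440, -6752, -1804, -172], [-436, -3224, -9008, -12440, -9008, -3224, -436], [-584, -3224, -6752, -6752, -3224, -584], [-436, -1804, -2736, -1804, -436], [-172, -516, -516, -172], [-28, -56, -28]]
def F13 : List (List ℤ) := [[0, 0, -8, -40, -80, -80, -40, -8], [0, -16, -120, -336, -464, -336, -120, -16], [-8, -120, -512, -992, -992, -512, -120, -8], [-40, -336, -992, -1392, -992, -336, -40], [-80, -464, -992, -992, -464, -80], [-80, -336, -512, -336, -80], [-40, -120, -120, -40], [-8, -16, -8]]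
def F14 : List (List ℤ) := [[0, 0, -1, -4, -6, -4, -1], [0, -2, -12, -26, -26, -12, -2], [-1, -12, -40, -58, -40, -12, -1], [-4, -26, -58, -58, -26, -4], [-6, -26, -40, -26, -6], [-4, -12, -12, -4], [-1, -2, -1]]
def F : P := [F0, F1, F2, F3, F4, F5, F6, F7, F8, F9, F10, F11, F12, F13, F14]
theorem okN : ok N = true := by decide +kernel
theorem okF : ok (A (M E E) F) = true ∧ ok (M (A (M E E) F) m1) = true := by
  constructor <;> decide +kernel
theorem okR : ok (A (M N N) (M F T)) = true := by decide +kernel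

theorem main1 (x y z : ℝ) (hx : 0 < x) (hy : 0 < y) (hz : 0 < z) :
    √((x ^ 2)⁻¹ + (y ^ 2)⁻¹ + (z ^ 2)⁻¹ + 1) ≤
    (x)⁻¹ + (y)⁻¹ + (z)⁻¹ + (1)⁻¹ - (x + y)⁻¹ - (x + z)⁻¹ - (x + 1)⁻¹ - (y + z)⁻¹ - (y + 1)⁻¹ - (z + 1)⁻¹ + (x + y + z)⁻¹ + (x + y + 1)⁻¹ + (x + z + 1)⁻¹ + (y + z + 1)⁻¹ - (x + y + z + 1)⁻¹ := by
  have hN := V_ok x y z hx.le hy.le hz.le _ okN
  have hR := V_ok x y z hx.le hy.le hz.le _ okR
  have hEe : V x y z E = (x + y) * (x + z) * (x + 1) * (y + z) * (y + 1) * (z + 1) * (x + y + z) * (x + y + 1) * (x + z + 1) * (y + z + 1) * (x + y + z + 1) := by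
    simp only [V, ev, E, E0, E1, E2, E3, E4, E5, E6, E7, List.foldr]; push_cast; ring
  have hE : 0 < V x y z E := by rw [hEe]; positivity
  have hF : V x y z F = -(V x y z E * V x y z E) := by
    have h1 := V_ok x y z hx.le hy.le hz.le _ okF.1
    have h2 := V_ok x y z hx.le hy.le hz.le _ okF.2
    rw [V_M, V_m1] at h2
    rw [V_A, V_M] at h1 h2
    linarith
  have hS : (x)⁻¹ + (y)⁻¹ + (z)⁻¹ + (1)⁻¹ - (x + y)⁻¹ - (x + z)⁻¹ - (x + 1)⁻¹ - (y + z)⁻¹ - (y + 1)⁻¹ - (z + 1)⁻¹ + (x + y + z)⁻¹ + (x + y + 1)⁻¹ + (x + z + 1)⁻¹ + (y + z + 1)⁻¹ - (x + y + z + 1)⁻¹ = V x y z N / (x * y * z * V x y z E) := by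
    rw [hEe]
    field_simp
    simp only [V, ev, N, N0, N1, N2, N3, N4, N5, N6, N7, N8, List.foldr]; push_cast; ring
  have hT : V x y z T = y ^ 2 * z ^ 2 + x ^ 2 * z ^ 2 + x ^ 2 * y ^ 2 + x ^ 2 * y ^ 2 * z ^ 2 := by
    simp only [V, ev, T, T0, T1, T2, List.foldr]; push_cast; ring
  rw [V_A, V_M, V_M, hF, hT] at hR
  rw [hS, Real.sqrt_le_left (by positivity), div_pow, le_div_iff₀ (by positivity)]
  have e : ((x ^ 2)⁻¹ + (y ^ 2)⁻¹ + (z ^ 2)⁻¹ + 1) * (x * y * z * V x y z E) ^ 2
      = V x y z E * V x y z E *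
        (y ^ 2 * z ^ 2 + x ^ 2 * z ^ 2 + x ^ 2 * y ^ 2 + x ^ 2 * y ^ 2 * z ^ 2) := by
    field_simp
  rw [e]; nlinarith

theorem main (a b c d : ℝ) (ha : 0 < a) (hb : 0 < b) (hc : 0 < c) (hd : 0 < d) :
    √((a ^ 2)⁻¹ + (b ^ 2)⁻¹ + (c ^ 2)⁻¹ + (d ^ 2)⁻¹) ≤
    a⁻¹ + b⁻¹ + c⁻¹ + d⁻¹ - (a + b)⁻¹ - (a + c)⁻¹ - (a + d)⁻¹ - (b + c)⁻¹ - (b + d)⁻¹ - (c + d)⁻¹
      + (a + b + c)⁻¹ + (a + b + d)⁻¹ + (a + c + d)⁻¹ + (b + c + d)⁻¹ - (a + b + c + d)⁻¹ := by
  obtain ⟨x, rfl⟩ : ∃ x, a = d * x := ⟨a / d, by field_simp⟩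
  obtain ⟨y, rfl⟩ : ∃ y, b = d * y := ⟨b / d, by field_simp⟩
  obtain ⟨z, rfl⟩ : ∃ z, c = d * z := ⟨c / d, by field_simp⟩
  have hx := (mul_pos_iff_of_pos_left hd).1 ha
  have hy := (mul_pos_iff_of_pos_left hd).1 hb
  have hz := (mul_pos_iff_of_pos_left hd).1 hc
  have h := mul_le_mul_of_nonneg_left (main1 x y z hx hy hz) (inv_pos.2 hd).le
  have e1 : (((d * x) ^ 2)⁻¹ + ((d * y) ^ 2)⁻¹ + ((d * z) ^ 2)⁻¹ + (d ^ 2)⁻¹)
      = d⁻¹ ^ 2 * ((x ^ 2)⁻¹ + (y ^ 2)⁻¹ + (z ^ 2)⁻¹ + 1) := by field_simp
  rw [e1, Real.sqrt_mul (by positivity), Real.sqrt_sq (by positivity)]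
  refine h.trans_eq ?_
  have k : ∀ t, d * t + d = d * (t + 1) := fun t => by ring
  simp only [← mul_add, k, mul_inv]
  ring

end Pool.Agent.H12.Exp4
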