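import Mathlib

/-! Fourier coefficients of `(2 - 2 cos θ) ^ ε` and the quadratic form they define on integer
sequences. -/

open Real Finset Filter Topology MeasureTheory

namespace Pool.Agent.H12.FI

noncomputable def w (ε θ : ℝ) : ℝ := (2 - 2 * cos θ) ^ ε

noncomputable def D (ε t : ℝ) : ℝ := ∫ θ in (-π)..π, w ε θ * cos (t * θ)

variable {ε : ℝ}

lemma base_nonneg (θ : ℝ) : 0 ≤ 2 - 2 * cos θ := by linarith [cos_le_one θ]

lemma w_nonneg (θ : ℝ) : 0 ≤ w ε θ := rpow_nonneg (base_nonneg θ) _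

lemma w_cont (hε : 0 < ε) : Continuous (w ε) :=
  (by fun_prop : Continuous fun θ => 2 - 2 * cos θ).rpow_const fun _ => Or.inr hε.le

lemma D_int (hε : 0 < ε) (t : ℝ) :
    IntervalIntegrable (fun θ => w ε θ * cos (t * θ)) volume (-π) π :=
  ((w_cont hε).mul (by fun_prop)).intervalIntegrable _ _

lemma D_neg (t : ℝ) : D ε (-t) = D ε t := by simp [D]

lemma D_zero_nonneg : 0 ≤ D ε 0 :=
  intervalIntegral.integral_nonneg (by linarith [pi_pos]) fun θ _ => by simpa using w_nonneg θ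

lemma D_rec (hε : 0 < ε) (n : ℕ) : (n + 1 + ε) * D ε (n + 1) = (n - ε) * D ε n := by
  have key := integral_eq_of_hasDerivAt_off_countable_of_le
    (fun θ => w ε θ * sin (θ / 2) * cos ((n + 1 / 2) * θ))
    (fun θ => (n + 1 + ε) / 2 * (w ε θ * cos ((n + 1) * θ)) - (n - ε) / 2 * (w ε θ * cos (n * θ)))
    (a := -π) (b := π) (by linarith [pi_pos]) (Set.countable_singleton 0)
    (((w_cont hε).mul (by fun_prop)).mul (by fun_prop)).continuousOn ?_
    (((D_int hε _).const_mul _).sub ((D_int hε _).const_mul _))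
  · rw [intervalIntegral.integral_sub ((D_int hε _).const_mul _) ((D_int hε _).const_mul _),
      intervalIntegral.integral_const_mul, intervalIntegral.integral_const_mul] at key
    have h1 : cos ((n + 1 / 2) * π) = 0 := by
      rw [show (n + 1 / 2 : ℝ) * π = n * π + π / 2 by ring, cos_add_pi_div_two, sin_nat_mul_pi,
        neg_zero]
    simp only [mul_neg, cos_neg, h1, mul_zero, sub_zero] at key
    unfold D
    linarith
  · rintro θ ⟨⟨h1, h2⟩, h3⟩
    have hs : sin (θ / 2) ≠ 0 := fun h => h3 (by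
      have := (sin_eq_zero_iff_of_lt_of_lt (x := θ / 2) (by linarith [pi_pos])
        (by linarith [pi_pos])).1 h
      simp only [Set.mem_singleton_iff]; linarith)
    have hc : cos θ = 1 - 2 * sin (θ / 2) ^ 2 := by
      have := cos_two_mul (θ / 2)
      rw [show 2 * (θ / 2) = θ by ring] at this
      nlinarith [sin_sq_add_cos_sq (θ / 2)]
    have hsn : sin θ = 2 * sin (θ / 2) * cos (θ / 2) := by
      rw [← sin_two_mul]; congr 1; ring
    have hb : 2 - 2 * cos θ ≠ 0 := by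
      have := pow_pos (abs_pos.2 hs) 2
      rw [sq_abs] at this
      rw [hc]; linarith
    have d1 : HasDerivAt (w ε) (2 * sin θ * ε * (2 - 2 * cos θ) ^ (ε - 1)) θ := by
      have := (((hasDerivAt_cos θ).const_mul 2).const_sub 2).rpow_const (p := ε) (Or.inl hb)
      convert this using 1
      · rfl
      · ring
    have d2 : HasDerivAt (fun θ : ℝ => sin (θ / 2)) (cos (θ / 2) * (1 / 2)) θ :=
      ((hasDerivAt_id θ).div_const 2).sin
    have d3 : HasDerivAt (fun θ : ℝ => cos ((n + 1 / 2) * θ))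
        (-sin ((n + 1 / 2) * θ) * ((n + 1 / 2) * 1)) θ :=
      ((hasDerivAt_id θ).const_mul _).cos
    refine ((d1.mul d2).mul d3).congr_deriv ?_
    have e1 : (2 - 2 * cos θ) ^ (ε - 1) = w ε θ / (4 * sin (θ / 2) ^ 2) := by
      rw [rpow_sub_one hb, w]; congr 1; rw [hc]; ring
    have e2 : cos ((n + 1) * θ) = cos ((n + 1 / 2) * θ) * cos (θ / 2) -
        sin ((n + 1 / 2) * θ) * sin (θ / 2) := by rw [← cos_add]; congr 1; ring
    have e3 : cos (n * θ) = cos ((n + 1 / 2) * θ) * cos (θ / 2) +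
        sin ((n + 1 / 2) * θ) * sin (θ / 2) := by rw [← cos_sub]; congr 1; ring
    simp only [Pi.mul_apply]
    rw [e1, e2, e3, hsn]
    field_simp
    ring

/-- `a n = - D (n + 1)` -/
noncomputable def a (ε : ℝ) (n : ℕ) : ℝ := -D ε (n + 1)

lemma a_nonneg (hε : 0 < ε) (h1 : ε ≤ 1) (n : ℕ) : 0 ≤ a ε n := by
  induction n with
  | zero =>
    have := D_rec hε 0
    have h2 := D_zero_nonneg (ε := ε)
    simp only [a, Nat.cast_zero, zero_add, zero_sub] at this ⊢
    nlinarith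
  | succ n ih =>
    have := D_rec hε (n + 1)
    simp only [a, Nat.cast_add, Nat.cast_one] at this ih ⊢
    have h2 : (0 : ℝ) ≤ n := n.cast_nonneg
    by_contra h3
    nlinarith

lemma a_anti (hε : 0 < ε) (h1 : ε ≤ 1) : Antitone (a ε) :=
  antitone_nat_of_succ_le fun n => by
    have := D_rec hε (n + 1)
    have h3 := a_nonneg hε h1 n
    simp only [a, Nat.cast_add, Nat.cast_one] at this h3 ⊢
    have h2 : (0 : ℝ) ≤ n := n.cast_nonneg
    by_contra h4
    nlinarith

lemma a_sum (hε : 0 < ε) (h1 : ε ≤ 1) (L : ℕ) : 2 * ∑ n ∈ range L, a ε n ≤ D ε 0 := by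
  have key : ∀ L : ℕ, ε * (D ε 0 - 2 * ∑ n ∈ range L, a ε n) = (L + 1 + ε) * a ε L := by
    intro L
    induction L with
    | zero =>
      have := D_rec hε 0
      simp only [a, Nat.cast_zero, zero_add, zero_sub, range_zero, sum_empty] at this ⊢
      linarith
    | succ L ih =>
      have := D_rec hε (L + 1)
      rw [sum_range_succ]
      simp only [a, Nat.cast_add, Nat.cast_one] at this ih ⊢
      linarith
  have h2 := key L
  have h3 : 0 ≤ (L + 1 + ε) * a ε L := mul_nonneg (by positivity) (a_nonneg hε h1 L)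
  by_contra h4
  nlinarith

lemma a_tendsto (hε : 0 < ε) (h1 : ε ≤ 1) : Tendsto (a ε) atTop (𝓝 0) :=
  (summable_of_sum_range_le (c := D ε 0 / 2) (a_nonneg hε h1) fun L => by
    linarith [a_sum hε h1 L]).tendsto_atTop_zero

lemma D_one (hε : 0 < ε) : D (ε + 1) 0 = 2 * D ε 0 + 2 * a ε 0 := by
  simp only [a, D, Nat.cast_zero, zero_add]
  rw [← intervalIntegral.integral_const_mul, mul_neg, ← intervalIntegral.integral_const_mul,
    ← sub_eq_add_neg,
    ← intervalIntegral.integral_sub ((D_int hε _).const_mul _) ((D_int hε _).const_mul _)]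
  refine intervalIntegral.integral_congr fun θ _ => ?_
  simp only [w, zero_mul, cos_zero, one_mul, mul_one]
  rw [rpow_add_one' (base_nonneg θ) (by positivity)]
  ring

/-- autocorrelation -/
noncomputable def r (β : ℤ → ℝ) (m : ℤ) : ℝ := ∑' i, β i * β (i + m)

lemma r_neg (β : ℤ → ℝ) (m : ℤ) : r β (-m) = r β m := by
  rw [r, r, ← (Equiv.addRight m).tsum_eq]
  simp [mul_comm]

lemma quad {β : ℤ → ℝ} {N : ℕ} (hβ : ∀ i ∉ Ico (0 : ℤ) N, β i = 0) (F : ℤ → ℝ)
    (hF : ∀ m, F (-m) = F m) :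
    ∑ i ∈ Ico (0 : ℤ) N, ∑ j ∈ Ico (0 : ℤ) N, β i * β j * F (j - i) =
      F 0 * r β 0 + 2 * ∑ n ∈ range N, F (n + 1) * r β (n + 1) := by
  have h1 : ∀ i ∈ Ico (0 : ℤ) N, ∑ j ∈ Ico (0 : ℤ) N, β i * β j * F (j - i) =
      ∑ m ∈ Icc (-N : ℤ) N, F m * (β i * β (i + m)) := fun i hi => by
    have e1 : ∑' j, β i * β j * F (j - i) = ∑ j ∈ Ico (0 : ℤ) N, β i * β j * F (j - i) :=
      tsum_eq_sum fun j hj => by simp [hβ j hj]
    have e2 : ∑' m, F m * (β i * β (i + m)) = ∑ m ∈ Icc (-N : ℤ) N, F m * (β i * β (i + m)) :=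
      tsum_eq_sum fun m hm => by
        rw [hβ (i + m) (by simp only [mem_Ico, mem_Icc] at *; omega)]; simp
    rw [← e1, ← e2, ← (Equiv.addLeft i).tsum_eq]
    simp [mul_comm]
  have h2 : ∀ m, r β m = ∑ i ∈ Ico (0 : ℤ) N, β i * β (i + m) := fun m =>
    tsum_eq_sum fun i hi => by simp [hβ i hi]
  rw [sum_congr rfl h1, sum_comm]
  simp only [← mul_sum, ← h2]
  rw [sum_Icc_of_even_eq_range (f := fun m => F m * r β m) (fun m => by simp [hF, r_neg]),
    sum_range_succ']
  simp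
  ring

noncomputable def V (β : ℤ → ℝ) (n : ℤ) : ℝ := ∑' i, (β i - β (i - n)) ^ 2

lemma V_summable {β : ℤ → ℝ} {N : ℕ} (hβ : ∀ i ∉ Ico (0 : ℤ) N, β i = 0) (n : ℤ) :
    Summable fun i => (β i - β (i - n)) ^ 2 :=
  summable_of_ne_finset_zero (s := Icc (-|n|) (N + |n|)) fun i hi => by
    have := le_abs_self n
    have := neg_abs_le n
    rw [hβ i (by simp only [mem_Ico, mem_Icc] at *; omega),
      hβ (i - n) (by simp only [mem_Ico, mem_Icc] at *; omega)]
    simp

lemma V_eq {β : ℤ → ℝ} {N : ℕ} (hβ : ∀ i ∉ Ico (0 : ℤ) N, β i = 0) (n : ℤ) :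
    V β n = 2 * r β 0 - 2 * r β n := by
  have s1 : ∀ m, Summable fun i => β i * β (i + m) := fun m =>
    summable_of_ne_finset_zero (s := Ico (0 : ℤ) N) fun i hi => by simp [hβ i hi]
  have s2 : Summable fun i => β (i - n) * β (i - n + 0) :=
    (Equiv.subRight n).summable_iff.2 (s1 0)
  have e2 : ∑' i, β (i - n) * β (i - n + 0) = r β 0 :=
    (Equiv.subRight n).tsum_eq fun i => β i * β (i + 0)
  have : V β n = ∑' i, ((β i * β (i + 0) + β (i - n) * β (i - n + 0)) - 2 * (β i * β (i + -n))) :=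
    tsum_congr fun i => by simp only [add_zero, ← sub_eq_add_neg]; ring
  rw [this, ((s1 0).add s2).tsum_sub ((s1 _).mul_left 2), (s1 0).tsum_add s2, e2, tsum_mul_left,
    ← r, ← r, r_neg]
  ring

end Pool.Agent.H12.FI
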