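import Pool.Agent.H12.FI1

/-! Lower bounds for `∑ (β i - β (i - n)) ^ 2` for integer sequences with sign patterns. -/

open Finset

namespace Pool.Agent.H12.FI

def cast (β : ℤ → ℤ) (i : ℤ) : ℝ := β i

def Supp (β : ℤ → ℤ) (N : ℕ) : Prop := ∀ i ∉ Ico (0 : ℤ) N, β i = 0

noncomputable def LA (β : ℤ → ℤ) (N : ℕ) (n : ℤ) : ℕ := #{i ∈ Ico (0 : ℤ) N | 0 < β i ∧ β (i - n) ≤ 0}

noncomputable def LC (β : ℤ → ℤ) (N : ℕ) (n : ℤ) : ℕ := #{i ∈ Ico (0 : ℤ) N | β i * β (i - n) < 0}

variable {β : ℤ → ℤ} {N : ℕ}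

lemma Supp.cast (h : Supp β N) : ∀ i ∉ Ico (0 : ℤ) N, cast β i = 0 := fun i hi => by
  simp [FI.cast, h i hi]

lemma Supp.neg (h : Supp β N) : Supp (-β) N := fun i hi => by simp [h i hi]

lemma Supp.mem (h : Supp β N) {i : ℤ} (hi : β i ≠ 0) : i ∈ Ico (0 : ℤ) N := by
  by_contra h1; exact hi (h i h1)

lemma V_neg (n : ℤ) : V (cast (-β)) n = V (cast β) n :=
  tsum_congr fun i => by simp only [cast, Pi.neg_apply, Int.cast_neg]; ring

lemma pointwise (x y : ℤ) : 2 * (if 0 < x ∧ y ≤ 0 then 1 else 0) +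
    2 * (if 0 < -x ∧ -y ≤ 0 then 1 else 0) + 2 * (if x * y < 0 then 1 else 0) ≤
    (x - y) ^ 2 + ((if x ≠ 0 then 1 else 0) - if y ≠ 0 then 1 else 0) := by
  rcases lt_trichotomy x 0 with hx | rfl | hx <;> rcases lt_trichotomy y 0 with hy | rfl | hy
  · rw [if_neg (by omega), if_neg (by omega), if_neg (by nlinarith), if_pos (by omega),
      if_pos (by omega)]
    nlinarith [sq_nonneg (x - y)]
  · simp [hx, hx.ne, not_lt.2 hx.le]; nlinarith
  · rw [if_neg (by omega), if_pos (by omega), if_pos (by nlinarith), if_pos (by omega),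
      if_pos (by omega)]
    nlinarith
  · simp [hy.ne]; exact Int.one_le_abs hy.ne
  · simp
  · simp [hy.ne']; exact Int.one_le_abs hy.ne'
  · rw [if_pos (by omega), if_neg (by omega), if_pos (by nlinarith), if_pos (by omega),
      if_pos (by omega)]
    nlinarith
  · simp [hx, hx.ne', not_lt.2 hx.le]; nlinarith
  · rw [if_neg (by omega), if_neg (by omega), if_neg (by nlinarith), if_pos (by omega),
      if_pos (by omega)]
    nlinarith [sq_nonneg (x - y)]

lemma V_lower (h : Supp β N) (n : ℤ) :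
    2 * (LA β N n : ℝ) + 2 * LA (-β) N n + 2 * LC β N n ≤ V (cast β) n := by
  let g : ℤ → ℝ := fun i => if β i ≠ 0 then 1 else 0
  have s1 : Summable g := summable_of_ne_finset_zero (s := Ico (0 : ℤ) N) fun i hi => by
    simp [g, h i hi]
  have s2 : Summable fun i => g (i - n) := (Equiv.subRight n).summable_iff.2 s1
  have e2 : ∑' i, g (i - n) = ∑' i, g i := (Equiv.subRight n).tsum_eq g
  have s3 := V_summable h.cast n
  have h1 : V (cast β) n = ∑' i, ((cast β i - cast β (i - n)) ^ 2 + (g i - g (i - n))) := by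
    rw [s3.tsum_add (s1.sub s2), s1.tsum_sub s2, e2, V]
    ring
  have h2 : ∀ i, 2 * (if 0 < β i ∧ β (i - n) ≤ 0 then 1 else 0) +
      2 * (if 0 < -β i ∧ -β (i - n) ≤ 0 then 1 else 0) +
      2 * (if β i * β (i - n) < 0 then 1 else 0) ≤
      (cast β i - cast β (i - n)) ^ 2 + (g i - g (i - n)) := fun i => by
    have := pointwise (β i) (β (i - n))
    simp only [cast, g]
    exact_mod_cast this
  rw [h1]
  refine le_trans ?_ ((s3.add (s1.sub s2)).sum_le_tsum (Ico (0 : ℤ) N) fun i _ =>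
    le_trans (by positivity) (h2 i))
  refine le_trans (le_of_eq ?_) (sum_le_sum fun i _ => h2 i)
  simp only [sum_add_distrib, ← mul_sum, LA, LC, card_filter, Pi.neg_apply]
  push_cast
  rfl

lemma least (h : Supp β N) {P : ℤ → Prop} (hP : ∃ z, P z ∧ 0 < β z) :
    ∃ x, (P x ∧ 0 < β x) ∧ ∀ z, P z ∧ 0 < β z → x ≤ z :=
  Int.exists_least_of_bdd ⟨0, fun _ hz => (mem_Ico.1 (h.mem hz.2.ne')).1⟩ hP

lemma LA_one (h : Supp β N) (hp : ∃ x, 0 < β x) (k : ℕ) : 1 ≤ LA β N (k + 1) := by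
  obtain ⟨x, h1, h2⟩ := least h (P := fun _ => True) (by simpa using hp)
  refine card_pos.2 ⟨x, mem_filter.2 ⟨h.mem h1.2.ne', h1.2, ?_⟩⟩
  by_contra h3
  have := h2 _ ⟨trivial, not_le.1 h3⟩
  omega

lemma LA_two_of (h : Supp β N) {n x y : ℤ} (hxy : x ≠ y) (hx : 0 < β x) (hy : 0 < β y)
    (hx' : β (x - n) ≤ 0) (hy' : β (y - n) ≤ 0) : 2 ≤ LA β N n :=
  one_lt_card.2 ⟨x, mem_filter.2 ⟨h.mem hx.ne', hx, hx'⟩, y, mem_filter.2 ⟨h.mem hy.ne', hy, hy'⟩,
    hxy⟩

lemma two_least (h : Supp β N) {p q : ℤ} (hpq : p ≠ q) (hp : 0 < β p) (hq : 0 < β q) :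
    ∃ (x : ℤ) (g : ℕ), 0 < β x ∧ (∀ z, 0 < β z → x ≤ z) ∧ (∀ z, 0 < β z → z ≠ x → x + g + 1 ≤ z) ∧
      0 < β (x + g + 1) ∧ ∀ k : ℕ, k ≠ g → 2 ≤ LA β N (k + 1) := by
  obtain ⟨x, h1, h2⟩ := least h (P := fun _ => True) ⟨p, trivial, hp⟩
  obtain ⟨y, h3, h4⟩ := least h (P := fun z => z ≠ x) (by
    by_cases h3 : p = x
    · exact ⟨q, by omega, hq⟩
    · exact ⟨p, h3, hp⟩)
  have h5 := h2 y ⟨trivial, h3.2⟩
  have h6 := h3.1
  obtain ⟨g, hg⟩ : ∃ g : ℕ, y = x + g + 1 := ⟨(y - x - 1).toNat, by omega⟩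
  refine ⟨x, g, h1.2, fun z hz => h2 z ⟨trivial, hz⟩, fun z hz hx => hg ▸ h4 z ⟨hx, hz⟩,
    hg ▸ h3.2, fun k hk => LA_two_of h h3.1.symm h1.2 h3.2 ?_ ?_⟩
  · by_contra h7
    have := h2 _ ⟨trivial, not_le.1 h7⟩
    omega
  · by_contra h7
    have := h4 (y - (k + 1)) ⟨by omega, not_le.1 h7⟩
    omega

lemma pattern_LA (h : Supp β N) {p q s : ℤ} (hpq : p < q) (hqs : q < s) (hp : 0 < β p)
    (hq : β q < 0) (hs : 0 < β s) : ∃ g : ℕ, (∀ k : ℕ, k ≠ g → 2 ≤ LA β N (k + 1)) ∧
      (2 ≤ LA β N (g + 1) ∨ ∃ m : ℕ, m < g ∧ 1 ≤ LC β N (m + 1)) := by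
  obtain ⟨x, g, h1, h2, h3, h4, h5⟩ := two_least h (by omega : p ≠ s) hp hs
  refine ⟨g, h5, ?_⟩
  have hx := h2 p hp
  by_cases h6 : q ≤ x + g + 1
  · have h7 : q ≠ x + g + 1 := by rintro rfl; omega
    obtain ⟨m, hm⟩ : ∃ m : ℕ, q = x + m + 1 := ⟨(q - x - 1).toNat, by omega⟩
    refine Or.inr ⟨m, by omega, card_pos.2 ⟨q, mem_filter.2 ⟨h.mem hq.ne, ?_⟩⟩⟩
    rw [show q - (m + 1) = x by omega]
    nlinarith
  · obtain ⟨z, h7, h8⟩ := least h (P := fun z => q < z) ⟨s, hqs, hs⟩
    have h9 := h7.1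
    by_cases h10 : β (z - (g + 1)) ≤ 0
    · refine Or.inl (LA_two_of h (x := x) (y := z) (by omega) h1 h7.2 ?_ h10)
      by_contra h11
      have := h2 _ (not_le.1 h11)
      omega
    · have h11 : ¬ q < z - (g + 1) := fun h11 => by
        have := h8 _ ⟨h11, not_le.1 h10⟩
        omega
      have h12 : q ≠ z - (g + 1) := by rintro rfl; omega
      obtain ⟨m, hm⟩ : ∃ m : ℕ, z = q + m + 1 := ⟨(z - q - 1).toNat, by omega⟩
      refine Or.inr ⟨m, by omega, card_pos.2 ⟨z, mem_filter.2 ⟨h.mem h7.2.ne', ?_⟩⟩⟩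
      rw [show z - (m + 1) = q by omega]
      nlinarith [h7.2]

lemma V_two (h : Supp β N) (h0 : ∃ x, β x ≠ 0) (k : ℕ) : 2 ≤ V (cast β) (k + 1) := by
  have h1 := V_lower h (k + 1)
  obtain ⟨x, hx⟩ := h0
  have h2 : 1 ≤ LA β N (k + 1) + LA (-β) N (k + 1) + LC β N (k + 1) := by
    rcases lt_or_gt_of_ne hx with h2 | h2
    · have := LA_one h.neg ⟨x, by simpa using h2⟩ k; omega
    · have := LA_one h ⟨x, h2⟩ k; omega
  have h3 : (1 : ℝ) ≤ LA β N (k + 1) + LA (-β) N (k + 1) + LC β N (k + 1) := by exact_mod_cast h2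
  linarith

lemma V_four (h : Supp β N) (hp : ∃ x, 0 < β x) (hm : ∃ x, β x < 0) (k : ℕ) :
    4 ≤ V (cast β) (k + 1) := by
  have h1 := V_lower h (k + 1)
  have h2 : 2 ≤ LA β N (k + 1) + LA (-β) N (k + 1) + LC β N (k + 1) := by
    have := LA_one h.neg (by simpa using hm) k
    have := LA_one h hp k
    omega
  have h3 : (2 : ℝ) ≤ LA β N (k + 1) + LA (-β) N (k + 1) + LC β N (k + 1) := by exact_mod_cast h2
  linarith

lemma V_eight (h : Supp β N) (hsum : ∑ i ∈ Ico (0 : ℤ) N, β i = 0) {p q s : ℤ} (hpq : p < q)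
    (hqs : q < s) (hp : 0 < β p) (hq : β q < 0) (hs : 0 < β s) :
    (∃ K : ℕ, ∀ k : ℕ, K ≤ k → 8 ≤ V (cast β) (k + 1)) ∧ ∀ a : ℕ → ℝ, (∀ n, 0 ≤ a n) → Antitone a →
      ∀ L, -(2 * a 0) ≤ ∑ k ∈ range L, a k * (V (cast β) (k + 1) - 8) := by
  by_cases hone : ∀ z, β z < 0 → z = q
  · have h1 : β q ≤ -2 := by
      have h2 : ∑ i ∈ {p, q, s}, β i ≤ ∑ i ∈ Ico (0 : ℤ) N, β i := by
        refine sum_le_sum_of_subset_of_nonneg ?_ fun i _ hi => ?_
        · intro i hi
          simp only [mem_insert, mem_singleton] at hi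
          rcases hi with rfl | rfl | rfl
          · exact h.mem hp.ne'
          · exact h.mem hq.ne
          · exact h.mem hs.ne'
        · by_contra h3
          exact hi (by simp [hone i (not_le.1 h3)])
      rw [sum_insert (by simp; omega), sum_insert (by simp; omega), sum_singleton] at h2
      omega
    have h2 : ∀ k : ℕ, 8 ≤ V (cast β) (k + 1) := fun k => by
      refine le_trans ?_ ((V_summable h.cast _).sum_le_tsum {q, q + (k + 1)} fun _ _ => sq_nonneg _)
      rw [sum_insert (by simp; omega), sum_singleton, add_sub_cancel_right]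
      have h3 : 0 ≤ β (q - (k + 1)) := by
        by_contra h3
        have := hone _ (not_le.1 h3); omega
      have h4 : 0 ≤ β (q + (k + 1)) := by
        by_contra h4
        have := hone _ (not_le.1 h4); omega
      have h5 : 8 ≤ (β q - β (q - (k + 1))) ^ 2 + (β (q + (k + 1)) - β q) ^ 2 := by nlinarith
      simp only [cast]
      exact_mod_cast h5
    refine ⟨⟨0, fun k _ => h2 k⟩, fun a ha _ L => le_trans (by linarith [ha 0])
      (sum_nonneg fun k _ => mul_nonneg (ha k) (by linarith [h2 k]))⟩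
  · push Not at hone
    obtain ⟨z, hz, hzq⟩ := hone
    obtain ⟨-, g', -, -, -, -, h1⟩ := two_least h.neg hzq (by simpa using hz) (by simpa using hq)
    obtain ⟨g, h2, h3⟩ := pattern_LA h hpq hqs hp hq hs
    have hA := LA_one h ⟨p, hp⟩
    have hB := LA_one h.neg ⟨q, by simpa using hq⟩
    have key : ∀ k c : ℕ, c ≤ LA β N (k + 1) + LA (-β) N (k + 1) + LC β N (k + 1) →
        2 * (c : ℝ) ≤ V (cast β) (k + 1) := fun k c hc => by
      have h4 := V_lower h (k + 1)
      have h5 : (c : ℝ) ≤ LA β N (k + 1) + LA (-β) N (k + 1) + LC β N (k + 1) := by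
        exact_mod_cast hc
      linarith
    refine ⟨⟨g + g' + 1, fun k hk => ?_⟩, fun a ha ha' L => ?_⟩
    · have := key k 4 (by have := h1 k (by omega); have := h2 k (by omega); omega)
      norm_num at this ⊢
      exact this
    · have e : ∀ j : ℕ, ∑ k ∈ range L, a k * (if k = j then 2 else 0) =
          if j < L then 2 * a j else 0 := fun j => by
        simp [mul_comm]
      have h4 : (if g' < L then 2 * a g' else 0) ≤ 2 * a 0 := by
        have := ha' (Nat.zero_le g')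
        have := ha 0
        split_ifs <;> linarith
      rcases h3 with h3 | ⟨m, h3, h5⟩
      · have h6 : ∀ k ∈ range L, -(a k * (if k = g' then 2 else 0)) ≤
            a k * (V (cast β) (k + 1) - 8) := fun k _ => by
          rw [← mul_neg]
          refine mul_le_mul_of_nonneg_left ?_ (ha k)
          have h7 : 2 ≤ LA β N (k + 1) := by
            by_cases h7 : k = g
            · exact h7 ▸ h3
            · exact h2 k h7
          split_ifs with h8
          · have := key k 3 (by have := hB k; omega)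
            push_cast at this; linarith
          · have := key k 4 (by have := h1 k h8; omega)
            push_cast at this; linarith
        have h7 := sum_le_sum h6
        rw [sum_neg_distrib, e] at h7
        linarith
      · have h6 : ∀ k ∈ range L, a k * (if k = m then 2 else 0) - a k * (if k = g' then 2 else 0)
            - a k * (if k = g then 2 else 0) ≤ a k * (V (cast β) (k + 1) - 8) := fun k _ => by
          rw [← mul_sub, ← mul_sub]
          refine mul_le_mul_of_nonneg_left ?_ (ha k)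
          have := hA k
          have := hB k
          by_cases h7 : k = m
          · subst h7
            have := h2 k h3.ne
            rw [if_pos rfl, if_neg h3.ne]
            split_ifs with h8
            · have := key k 4 (by omega)
              push_cast at this; linarith
            · have := key k 5 (by have := h1 k h8; omega)
              push_cast at this; linarith
          · rw [if_neg h7]
            split_ifs with h8 h9 h9
            · have := key k 2 (by omega)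
              push_cast at this; linarith
            · have := key k 3 (by have := h2 k h9; omega)
              push_cast at this; linarith
            · have := key k 3 (by have := h1 k h8; omega)
              push_cast at this; linarith
            · have := key k 4 (by have := h1 k h8; have := h2 k h9; omega)
              push_cast at this; linarith
        have h7 := sum_le_sum h6
        rw [sum_sub_distrib, sum_sub_distrib, e, e, e] at h7
        have h8 : (if g < L then 2 * a g else 0) ≤ if m < L then 2 * a m else 0 := by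
          have := ha' h3.le
          have := ha m
          split_ifs <;> first | linarith | omega
        linarith

lemma signs (h0 : ∃ x, β x ≠ 0) (h : Supp β N) (hsum : ∑ i ∈ Ico (0 : ℤ) N, β i = 0) :
    (∃ x, 0 < β x) ∧ ∃ x, β x < 0 := by
  obtain ⟨x, hx⟩ := h0
  constructor
  · by_contra h1
    push Not at h1
    exact hx ((sum_eq_zero_iff_of_nonpos fun i _ => h1 i).1 hsum x (h.mem hx))
  · by_contra h1
    push Not at h1
    exact hx ((sum_eq_zero_iff_of_nonneg fun i _ => h1 i).1 hsum x (h.mem hx))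

lemma pattern_aux (h : Supp β N) (hsum : ∑ i ∈ Ico (0 : ℤ) N, β i = 0)
    (hmom : ∑ i ∈ Ico (0 : ℤ) N, i * β i = 0) {x y : ℤ} (hxy : x < y) (hx : 0 < β x)
    (hy : ∀ z, β z < 0 → y ≤ z) : ∃ s, y < s ∧ 0 < β s := by
  by_contra h1
  push Not at h1
  have h2 : ∑ i ∈ Ico (0 : ℤ) N, (i - y) * β i = 0 := by
    simp only [sub_mul, sum_sub_distrib, ← mul_sum, hsum, hmom]; simp
  have h3 := (sum_eq_zero_iff_of_nonpos fun i _ => ?_).1 h2 x (h.mem hx.ne')
  · nlinarith
  · rcases lt_trichotomy i y with h4 | h4 | h4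
    · have : 0 ≤ β i := by
        by_contra h5
        have := hy i (not_le.1 h5); omega
      nlinarith
    · simp [h4]
    · nlinarith [h1 i h4]

lemma V_main (h0 : ∃ x, β x ≠ 0) (h : Supp β N) (hsum : ∑ i ∈ Ico (0 : ℤ) N, β i = 0)
    (hmom : ∑ i ∈ Ico (0 : ℤ) N, i * β i = 0) :
    (∃ K : ℕ, ∀ k : ℕ, K ≤ k → 8 ≤ V (cast β) (k + 1)) ∧ ∀ a : ℕ → ℝ, (∀ n, 0 ≤ a n) → Antitone a →
      ∀ L, -(2 * a 0) ≤ ∑ k ∈ range L, a k * (V (cast β) (k + 1) - 8) := by
  obtain ⟨hp, hm⟩ := signs h0 h hsum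
  obtain ⟨x, h1, h2⟩ := least h (P := fun _ => True) (by simpa using hp)
  obtain ⟨y, h3, h4⟩ := least h.neg (P := fun _ => True) (by simpa using hm)
  simp only [true_and, Pi.neg_apply, Left.neg_pos_iff] at h1 h2 h3 h4
  rcases lt_trichotomy x y with h5 | h5 | h5
  · obtain ⟨s, h6, h7⟩ := pattern_aux h hsum hmom h5 h1 h4
    exact V_eight h hsum h5 h6 h1 h3 h7
  · subst h5; omega
  · have hs' : ∑ i ∈ Ico (0 : ℤ) N, (-β) i = 0 := by simp [hsum]
    obtain ⟨s, h6, h7⟩ := pattern_aux h.neg hs' (by simp [hmom]) h5 (by simpa using h3)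
      (by simpa using h2)
    have := V_eight h.neg hs' h5 h6 (by simpa using h3) (by simpa using h1) h7
    simpa only [V_neg] using this

lemma r_zero_ge (h : Supp β N) {c : ℝ} (hc : ∃ K : ℕ, ∀ k : ℕ, K ≤ k → 2 * c ≤ V (cast β) (k + 1)) :
    c ≤ r (cast β) 0 := by
  obtain ⟨K, hK⟩ := hc
  have h1 := hK (K + N) (by omega)
  have h2 : r (cast β) ((K + N : ℕ) + 1) = 0 := by
    rw [r, ← tsum_zero (β := ℤ) (L := .unconditional ℤ)]
    refine tsum_congr fun i => ?_
    by_cases hi : i ∈ Ico (0 : ℤ) N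
    · rw [h.cast (i + _) (by simp only [mem_Ico] at *; omega), mul_zero]
    · rw [h.cast i hi, zero_mul]
  rw [V_eq h.cast, h2] at h1
  linarith

lemma quad_ge {ε : ℝ} (hε : 0 < ε) (h1 : ε ≤ 1) (h : Supp β N) {c e : ℝ} (hc : c ≤ r (cast β) 0)
    (he : -e ≤ ∑ k ∈ range N, a ε k * (V (cast β) (k + 1) - 2 * c)) :
    c * D ε 0 - e ≤ ∑ i ∈ Ico (0 : ℤ) N, ∑ j ∈ Ico (0 : ℤ) N,
      cast β i * cast β j * D ε ((j - i : ℤ) : ℝ) := by
  rw [quad h.cast (fun m : ℤ => D ε m) fun m => by simp [D_neg]]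
  have h2 := a_sum hε h1 N
  have h3 : ∑ k ∈ range N, a ε k * (V (cast β) (k + 1) - 2 * c) =
      (r (cast β) 0 - c) * (2 * ∑ k ∈ range N, a ε k) +
        2 * ∑ n ∈ range N, D ε ((n + 1 : ℤ) : ℝ) * r (cast β) (n + 1) := by
    simp only [mul_sum, ← sum_add_distrib, V_eq h.cast, a]
    refine sum_congr rfl fun k _ => ?_
    push_cast
    ring
  simp only [Int.cast_zero]
  nlinarith [mul_le_mul_of_nonneg_left h2 (sub_nonneg.2 hc)]

end Pool.Agent.H12.FI
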