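import Mathlib

/-! A finite fibre of a finite type map onto a normal base has at most as many points as a
generic fibre. -/

open Polynomial TensorProduct

namespace Pool.Agent.H12.FibreCount

lemma finite_of_points {k F : Type} [Field k] [CommRing F] [Algebra k F] [Algebra.FiniteType k F]
    [Algebra k ℂ] (h : Finite (F →ₐ[k] ℂ)) : Module.Finite k F := by
  have hJ : IsJacobsonRing F := isJacobsonRing_of_finiteType (A := k)
  have hmax : ∀ M : Ideal F, M.IsMaximal → ∃ χ : F →ₐ[k] ℂ, RingHom.ker χ = M := by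
    intro M hM
    let := Ideal.Quotient.field M
    have : Module.Finite k (F ⧸ M) := finite_of_finite_type_of_isJacobsonRing k (F ⧸ M)
    let σ : (F ⧸ M) →ₐ[k] ℂ := IsAlgClosed.lift
    refine ⟨σ.comp (Ideal.Quotient.mkₐ k M), ?_⟩
    ext x
    simp [RingHom.mem_ker, Ideal.Quotient.eq_zero_iff_mem]
  have hfin : {M : Ideal F | M.IsMaximal}.Finite :=
    (Set.finite_range fun χ : F →ₐ[k] ℂ => RingHom.ker χ).subset fun M hM => hmax M hM
  rw [Module.finite_iff_isArtinianRing, isArtinianRing_iff_isNoetherianRing_krullDimLE_zero]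
  refine ⟨Algebra.FiniteType.isNoetherianRing k F, Ring.krullDimLE_zero_iff.mpr fun P hP => ?_⟩
  have h1 : P.jacobson = P := hJ.out hP.isRadical
  have h2 : {J : Ideal F | P ≤ J ∧ J.IsMaximal}.Finite := hfin.subset fun J hJ => hJ.2
  have h3 : h2.toFinset.inf id ≤ P := by
    rw [Finset.inf_id_eq_sInf, Set.Finite.coe_toFinset]
    exact h1.le
  obtain ⟨J, hJ1, hJ2⟩ := hP.inf_le'.mp h3
  have h4 := (h2.mem_toFinset.mp hJ1)
  rw [le_antisymm h4.1 hJ2]
  exact h4.2

variable {R A : Type} [CommRing R] [CommRing A] [Algebra R A]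

/-- ring homomorphisms to the complex numbers that extend `φ` -/
def Pts (A : Type) [CommRing A] [Algebra R A] (φ : R →+* ℂ) : Set (A →+* ℂ) :=
  {ψ | ψ.comp (algebraMap R A) = φ}

lemma zm [Algebra.FiniteType R A] {φ : R →+* ℂ} (h : (Pts A φ).Finite) {ψ : A →+* ℂ}
    (hψ : ψ ∈ Pts A φ) : ∃ r, ψ r ≠ 0 ∧ IsIntegral R r ∧ ∀ x, ∃ m, IsIntegral R (r ^ m * x) := by
  let p := RingHom.ker φ
  have : p.IsPrime := RingHom.ker_isPrime φ
  have : (RingHom.ker ψ).IsPrime := RingHom.ker_isPrime ψ
  have : (RingHom.ker ψ).LiesOver p := ⟨by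
    ext x
    rw [Ideal.under_def, Ideal.mem_comap, RingHom.mem_ker, RingHom.mem_ker, ← hψ]; rfl⟩
  let φ' : p.ResidueField →+* ℂ := Ideal.ResidueField.lift p φ le_rfl
    fun x hx => IsUnit.mk0 _ hx
  let : Algebra p.ResidueField ℂ := φ'.toAlgebra
  let : Algebra R ℂ := φ.toAlgebra
  have : IsScalarTower R p.ResidueField ℂ := IsScalarTower.of_algebraMap_eq fun x =>
    (Ideal.ResidueField.lift_algebraMap p φ _ _ x).symm
  have hfin : Finite (p.Fiber A →ₐ[p.ResidueField] ℂ) := by
    have := h.to_subtype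
    refine Finite.of_injective (β := Pts A φ) (fun χ =>
      ⟨χ.toRingHom.comp Algebra.TensorProduct.includeRight.toRingHom, RingHom.ext fun x => ?_⟩)
      fun χ χ' e => ?_
    · exact ((χ.restrictScalars R).comp Algebra.TensorProduct.includeRight).commutes x
    · apply Algebra.TensorProduct.ext (Subsingleton.elim _ _)
      exact AlgHom.ext fun x => RingHom.congr_fun (congrArg Subtype.val e) x
  have := finite_of_points hfin
  let ψ' : A →ₐ[R] ℂ := ⟨ψ, fun x => RingHom.congr_fun hψ x⟩
  let χ : p.Fiber A →ₐ[p.ResidueField] ℂ :=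
    Algebra.TensorProduct.lift (Algebra.ofId _ _) ψ' fun _ _ => Commute.all _ _
  have : (RingHom.ker χ).IsPrime := RingHom.ker_isPrime χ
  have : Algebra.QuasiFiniteAt R (RingHom.ker ψ) :=
    .of_quasiFiniteAt_residueField p _ (RingHom.ker χ) (by
      ext x
      simp [RingHom.mem_ker, χ, ψ'])
  exact Algebra.zariskisMainProperty_iff.mp
    (Algebra.ZariskisMainProperty.of_finiteType (R := R) (RingHom.ker ψ))

lemma count [IsDomain R] [IsDomain A] [IsIntegrallyClosed R] [Algebra ℚ R] [Algebra ℚ A]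
    [Algebra.FiniteType R A] (hinj : Function.Injective (algebraMap R A)) {φ φ' : R →+* ℂ}
    (h : (Pts A φ).Finite) (h' : Function.Injective φ') :
    (Pts A φ).encard ≤ (Pts A φ').encard := by
  rcases (Pts A φ).eq_empty_or_nonempty with e | ⟨ψ₀, h₀⟩
  · simp [e]
  have : FaithfulSMul R A := (faithfulSMul_iff_algebraMap_injective R A).mpr hinj
  have halg : Algebra.IsAlgebraic R A := ⟨fun x => by
    obtain ⟨r, h1, h2, h3⟩ := zm h h₀
    obtain ⟨m, hm⟩ := h3 x
    have : r ≠ 0 := fun e => h1 (by rw [e, map_zero])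
    exact IsAlgebraic.of_mul (mem_nonZeroDivisors_of_ne_zero (pow_ne_zero m this))
      (h2.pow m).isAlgebraic hm.isAlgebraic⟩
  -- an integral element separating the points
  obtain ⟨a, ha, hsep⟩ : ∃ a : A, IsIntegral R a ∧ Set.InjOn (fun ψ : A →+* ℂ => ψ a) (Pts A φ) := by
    have := h.to_subtype
    let B : Submodule ℚ A := ((integralClosure R A).restrictScalars ℚ).toSubmodule
    let W : {z : Pts A φ × Pts A φ // z.1 ≠ z.2} → Submodule ℚ B := fun z =>
      (LinearMap.eqLocus z.1.1.1.toRatAlgHom.toLinearMap z.1.2.1.toRatAlgHom.toLinearMap).comap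
        B.subtype
    obtain ⟨a, ha⟩ := Submodule.exists_forall_notMem_of_forall_ne_top W fun z hz => by
      apply z.2
      have key : ∀ b, IsIntegral R b → z.1.1.1 b = z.1.2.1 b := fun b hb =>
        (hz.ge (Submodule.mem_top (x := (⟨b, hb⟩ : B))) :)
      obtain ⟨r, h1, h2, h3⟩ := zm h z.1.1.2
      refine Subtype.ext (RingHom.ext fun x => ?_)
      obtain ⟨m, hm⟩ := h3 x
      have h4 := key _ hm
      rw [map_mul, map_mul, map_pow, map_pow, ← key r h2] at h4
      exact mul_left_cancel₀ (pow_ne_zero m h1) h4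
    refine ⟨a.1, a.2, fun ψ h1 ψ' h2 e => ?_⟩
    by_contra hne
    exact ha ⟨(⟨ψ, h1⟩, ⟨ψ', h2⟩), fun e' => hne (congrArg Subtype.val e')⟩ e
  have up : (Pts A φ).encard ≤ (minpoly R a).natDegree := by
    let : Algebra R ℂ := φ.toAlgebra
    rw [← hsep.encard_image]
    have h1 : (fun ψ : A →+* ℂ => ψ a) '' Pts A φ ⊆ (minpoly R a).rootSet ℂ := by
      rintro _ ⟨ψ, hψ, rfl⟩
      let ψ' : A →ₐ[R] ℂ := ⟨ψ, fun x => RingHom.congr_fun hψ x⟩
      rw [(minpoly.monic ha).mem_rootSet]
      change aeval (ψ' a) _ = 0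
      rw [aeval_algHom_apply, minpoly.aeval, map_zero]
    refine (Set.encard_le_encard h1).trans ?_
    rw [← (rootSet_finite _ _).cast_ncard_eq, Nat.cast_le]
    exact ncard_rootSet_le _ _
  refine up.trans ?_
  let K := FractionRing R
  let L := FractionRing A
  let : Algebra K L := FractionRing.liftAlgebra R L
  let : Algebra K ℂ := (IsFractionRing.lift h' : K →+* ℂ).toAlgebra
  have : CharZero R := algebraRat.charZero R
  have : Algebra.IsAlgebraic K L := inferInstance
  have h1 := minpoly.isIntegrallyClosed_eq_field_fractions K L ha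
  have h2 := Algebra.IsAlgebraic.range_eval_eq_rootSet_minpoly (F := K) ℂ (algebraMap A L a)
  have h3 := card_rootSet_eq_natDegree (K := ℂ)
    (minpoly.irreducible (Algebra.IsIntegral.isIntegral (R := K) (algebraMap A L a))).separable
    (IsAlgClosed.splits _)
  have h4 : (minpoly K (algebraMap A L a)).natDegree = (minpoly R a).natDegree := by
    rw [h1, (minpoly.monic ha).natDegree_map]
  rw [← h4, ← h3, Set.coe_fintypeCard, ← h2]
  refine le_trans (Set.encard_le_encard ?_)
    (Set.encard_image_le (fun ψ : A →+* ℂ => ψ a) (Pts A φ'))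
  rintro _ ⟨σ, rfl⟩
  refine ⟨σ.toRingHom.comp (algebraMap A L), RingHom.ext fun x => ?_, rfl⟩
  change σ (algebraMap A L (algebraMap R A x)) = φ' x
  rw [← IsScalarTower.algebraMap_apply, IsScalarTower.algebraMap_apply R K L, σ.commutes]
  exact IsFractionRing.lift_algebraMap h' x

end Pool.Agent.H12.FibreCount
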