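import Mathlib

/-! The flat mapping torus of `T^4` with monodromy `diag(B, B⁻¹)`, `B = [[2,1],[1,1]]`. -/

open scoped Manifold ContDiff Topology
open Set Filter

namespace Pool.Agent.H12.Flat

abbrev E : Type := Fin 5 → ℝ

noncomputable def T : E ≃L[ℝ] E :=
  LinearEquiv.toContinuousLinearEquiv
    { toFun := fun z => ![2 * z 0 + z 1, z 0 + z 1, z 2 - z 3, 2 * z 3 - z 2, z 4]
      invFun := fun z => ![z 0 - z 1, 2 * z 1 - z 0, 2 * z 2 + z 3, z 2 + z 3, z 4]
      map_add' := by intro a b; ext i; fin_cases i <;> simp <;> ring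
      map_smul' := by intro c a; ext i; fin_cases i <;> simp <;> ring
      left_inv := by intro a; ext i; fin_cases i <;> simp <;> ring
      right_inv := by intro a; ext i; fin_cases i <;> simp <;> ring }

lemma T_apply (z : E) : T z = ![2 * z 0 + z 1, z 0 + z 1, z 2 - z 3, 2 * z 3 - z 2, z 4] := rfl
lemma T_inv_apply (z : E) :
    (T⁻¹ : E ≃L[ℝ] E) z = ![z 0 - z 1, 2 * z 1 - z 0, 2 * z 2 + z 3, z 2 + z 3, z 4] := rfl

lemma mul_apply (A B : E ≃L[ℝ] E) (z : E) : (A * B) z = A (B z) := rfl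
lemma one_apply (z : E) : (1 : E ≃L[ℝ] E) z = z := rfl

lemma zpow_ind (P : E → E → Prop) (h0 : ∀ z, P z z) (h1 : ∀ z w, P z w → P z (T w))
    (h2 : ∀ z w, P z w → P z ((T⁻¹ : E ≃L[ℝ] E) w)) (n : ℤ) (z : E) : P z ((T ^ n) z) := by
  induction n using Int.induction_on with
  | zero => simpa [one_apply] using h0 z
  | succ n ih => rw [add_comm, zpow_add, zpow_one, mul_apply]; exact h1 _ _ ih
  | pred n ih =>
    rw [sub_eq_add_neg, add_comm, zpow_add, zpow_neg_one, mul_apply]; exact h2 _ _ ih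

noncomputable def pr (i : Fin 5) : E →L[ℝ] ℝ := ContinuousLinearMap.proj i
lemma pr_apply (i : Fin 5) (z : E) : pr i z = z i := rfl

/-- The flat metric `2 dx dy + dt²`. -/
noncomputable def G0 : E →L[ℝ] E →L[ℝ] ℝ :=
  (pr 0).smulRight (pr 2) + (pr 2).smulRight (pr 0) + (pr 1).smulRight (pr 3) +
    (pr 3).smulRight (pr 1) + (pr 4).smulRight (pr 4)

lemma G0_apply (u v : E) :
    G0 u v = u 0 * v 2 + u 2 * v 0 + u 1 * v 3 + u 3 * v 1 + u 4 * v 4 := by
  simp [G0, pr_apply]

lemma G0_symm (u v : E) : G0 u v = G0 v u := by simp only [G0_apply]; ring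

lemma G0_nondeg (u : E) (h : ∀ v, G0 u v = 0) : u = 0 := by
  have h0 := h (Pi.single 0 1)
  have h1 := h (Pi.single 1 1)
  have h2 := h (Pi.single 2 1)
  have h3 := h (Pi.single 3 1)
  have h4 := h (Pi.single 4 1)
  simp [G0_apply] at h0 h1 h2 h3 h4
  ext i; fin_cases i <;> simp [*]

lemma G0_T (n : ℤ) (u v : E) : G0 ((T ^ n) u) ((T ^ n) v) = G0 u v := by
  induction n using Int.induction_on with
  | zero => simp [one_apply]
  | succ n ih =>
    rw [add_comm, zpow_add, zpow_one, mul_apply, mul_apply, ← ih]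
    simp [G0_apply, T_apply]; ring
  | pred n ih =>
    rw [sub_eq_add_neg, add_comm, zpow_add, zpow_neg_one, mul_apply, mul_apply, ← ih]
    simp [G0_apply, T_inv_apply]; ring

/-- The nilpotent endomorphism. -/
noncomputable def A0 : E →ₗ[ℝ] E where
  toFun z := ![-2 * z 2 + z 3, z 2 + 2 * z 3, 0, 0, 0]
  map_add' := by intro a b; ext i; fin_cases i <;> simp <;> ring
  map_smul' := by intro c a; ext i; fin_cases i <;> simp <;> ring

lemma A0_apply (z : E) : A0 z = ![-2 * z 2 + z 3, z 2 + 2 * z 3, 0, 0, 0] := rfl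

lemma A0_T (n : ℤ) (u : E) : A0 ((T ^ n) u) = (T ^ n) (A0 u) := by
  induction n using Int.induction_on with
  | zero => simp [one_apply]
  | succ n ih =>
    rw [add_comm, zpow_add, zpow_one, mul_apply, mul_apply, ← ih]
    ext i; fin_cases i <;> simp [A0_apply, T_apply] <;> ring
  | pred n ih =>
    rw [sub_eq_add_neg, add_comm, zpow_add, zpow_neg_one, mul_apply, mul_apply, ← ih]
    ext i; fin_cases i <;> simp [A0_apply, T_inv_apply] <;> ring

lemma T_four (n : ℤ) (z : E) : (T ^ n) z 4 = z 4 :=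
  zpow_ind (fun z w => w 4 = z 4) (fun _ => rfl) (fun z w h => by simpa [T_apply] using h)
    (fun z w h => by simpa [T_inv_apply] using h) n z

def cst (m : Fin 5 → ℤ) : E := fun i => (m i : ℝ)

lemma T_int (n : ℤ) (m : Fin 5 → ℤ) : ∃ m', (T ^ n) (cst m) = cst m' := by
  have := zpow_ind (fun z w => (∃ m, z = cst m) → ∃ m', w = cst m') (fun _ h => h)
    (fun z w h hz => by
      obtain ⟨m, rfl⟩ := h hz
      refine ⟨![2 * m 0 + m 1, m 0 + m 1, m 2 - m 3, 2 * m 3 - m 2, m 4], ?_⟩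
      ext i; fin_cases i <;> simp [T_apply, cst])
    (fun z w h hz => by
      obtain ⟨m, rfl⟩ := h hz
      refine ⟨![m 0 - m 1, 2 * m 1 - m 0, 2 * m 2 + m 3, m 2 + m 3, m 4], ?_⟩
      ext i; fin_cases i <;> simp [T_inv_apply, cst]) n (cst m)
  exact this ⟨m, rfl⟩

lemma eig (ℓ : E → ℝ) (c : ℝ) (hc : c ≠ 0) (h : ∀ z, ℓ (T z) = c * ℓ z) (n : ℤ) (z : E) :
    ℓ ((T ^ n) z) = c ^ n * ℓ z := by
  induction n using Int.induction_on with
  | zero => simp [one_apply]
  | succ n ih =>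
    rw [add_comm, zpow_add, zpow_one, mul_apply, h, ih, zpow_add₀ hc, zpow_one]; ring
  | pred n ih =>
    have h' : ∀ z, ℓ ((T⁻¹ : E ≃L[ℝ] E) z) = c⁻¹ * ℓ z := by
      intro z
      have := h ((T⁻¹ : E ≃L[ℝ] E) z)
      rw [← mul_apply, mul_inv_cancel, one_apply] at this
      rw [this]; field_simp
    rw [sub_eq_add_neg, add_comm, zpow_add, zpow_neg_one, mul_apply, h', ih, zpow_add₀ hc,
      zpow_neg_one]; ring

lemma eigA (a : ℝ) (ha : a ^ 2 = a + 1) (z : E) :
    a * T z 0 + T z 1 = a ^ 2 * (a * z 0 + z 1) := by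
  simp only [T_apply]; simp
  linear_combination (-(z 0) * (a + 1) - z 1) * ha

lemma eigB (a b : ℝ) (ha : a ^ 2 = a + 1) (h1 : a + b = 1) (h2 : a * b = -1) (z : E) :
    b * T z 2 + T z 3 = a ^ 2 * (b * z 2 + z 3) := by
  simp only [T_apply]; simp
  linear_combination (-(b * z 2) - z 3) * ha - z 2 * h2 - z 3 * h1

open Real in
lemma eig1 (n : ℤ) (z : E) : goldenRatio * (T ^ n) z 0 + (T ^ n) z 1
    = (goldenRatio ^ 2) ^ n * (goldenRatio * z 0 + z 1) := by
  exact eig (fun z => goldenRatio * z 0 + z 1) _ (pow_ne_zero _ goldenRatio_ne_zero)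
    (eigA _ goldenRatio_sq) n z

open Real in
lemma fixed (n : ℤ) (hn : n ≠ 0) (z : E) (h : (T ^ n) z = z) :
    z 0 = 0 ∧ z 1 = 0 ∧ z 2 = 0 ∧ z 3 = 0 := by
  have hφ := goldenRatio_sq
  have hψ := goldenConj_sq
  have p1 : (1 : ℝ) < goldenRatio ^ 2 := by nlinarith [one_lt_goldenRatio]
  have p2 : goldenConj ^ 2 < 1 := by nlinarith [goldenConj_neg]
  have p3 : 0 < goldenConj ^ 2 := by nlinarith [goldenConj_neg]
  have n1 : (goldenRatio ^ 2) ^ n ≠ 1 := by
    rw [Ne, zpow_eq_one_iff_right₀ (by positivity) p1.ne']; exact hn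
  have n2 : (goldenConj ^ 2) ^ n ≠ 1 := by
    rw [Ne, zpow_eq_one_iff_right₀ p3.le p2.ne]; exact hn
  have e1 := eig1 n z
  have e2 := eig (fun z => goldenConj * z 0 + z 1) _ p3.ne' (eigA _ hψ) n z
  have e3 := eig (fun z => goldenConj * z 2 + z 3) (goldenRatio ^ 2) (by positivity)
    (eigB _ _ hφ goldenRatio_add_goldenConj goldenRatio_mul_goldenConj) n z
  have e4 := eig (fun z => goldenRatio * z 2 + z 3) (goldenConj ^ 2) p3.ne'
    (eigB _ _ hψ (by rw [add_comm]; exact goldenRatio_add_goldenConj) goldenConj_mul_goldenRatio) n z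
  simp only [h] at e1 e2 e3 e4
  have k : ∀ a c : ℝ, c ≠ 1 → a = c * a → a = 0 := by
    intro a c hc ha
    have : (1 - c) * a = 0 := by linarith
    exact (mul_eq_zero.mp this).resolve_left (sub_ne_zero.mpr hc.symm)
  have f1 := k _ _ n1 e1
  have f2 := k _ _ n2 e2
  have f3 := k _ _ n1 e3
  have f4 := k _ _ n2 e4
  have d : goldenRatio - goldenConj ≠ 0 := by
    have := goldenConj_neg
    have := goldenRatio_pos
    linarith
  have g0 : z 0 = 0 := by
    have : (goldenRatio - goldenConj) * z 0 = 0 := by linarith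
    exact (mul_eq_zero.mp this).resolve_left d
  have g2 : z 2 = 0 := by
    have : (goldenRatio - goldenConj) * z 2 = 0 := by linarith
    exact (mul_eq_zero.mp this).resolve_left d
  rw [g0] at f1
  rw [g2] at f3
  exact ⟨g0, by linarith, g2, by linarith⟩

/-- The deck group. -/
def Γ : Subgroup (Equiv.Perm E) where
  carrier := {γ | ∃ m : Fin 5 → ℤ, ∀ z, γ z = (T ^ m 4) z + cst m}
  one_mem' := ⟨0, fun z => by ext i; simp [one_apply, cst]⟩
  mul_mem' := by
    rintro a b ⟨m, hm⟩ ⟨k, hk⟩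
    obtain ⟨k', hk'⟩ := T_int (m 4) k
    have h4 : k' 4 = k 4 := by
      have := T_four (m 4) (cst k)
      rw [hk'] at this
      simpa [cst] using this
    refine ⟨m + k', fun z => ?_⟩
    rw [Equiv.Perm.mul_apply, hm, hk, map_add, hk', Pi.add_apply, h4, zpow_add, mul_apply]
    ext i; simp [cst]; ring
  inv_mem' := by
    rintro a ⟨m, hm⟩
    obtain ⟨k', hk'⟩ := T_int (-m 4) m
    have h4 : k' 4 = m 4 := by
      have := T_four (-m 4) (cst m)
      rw [hk'] at this
      simpa [cst] using this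
    refine ⟨-k', fun z => ?_⟩
    rw [Equiv.Perm.inv_eq_iff_eq, hm, Pi.neg_apply, h4]
    have : cst (-k') = -(T ^ (-m 4)) (cst m) := by
      rw [hk']; ext i; simp [cst]
    rw [this, ← sub_eq_add_neg, ← map_sub, ← mul_apply, ← zpow_add]
    simp [one_apply]

noncomputable def el (m : Fin 5 → ℤ) : Γ :=
  ⟨(T ^ m 4).toEquiv.trans (Equiv.addRight (cst m)), m, fun _ => rfl⟩

lemma el_smul (m : Fin 5 → ℤ) (z : E) : el m • z = (T ^ m 4) z + cst m := rfl

lemma smul_eq (γ : Γ) : ∃ m : Fin 5 → ℤ, ∀ z : E, γ • z = (T ^ m 4) z + cst m := γ.2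

instance : ContinuousConstSMul Γ E where
  continuous_const_smul γ := by
    obtain ⟨m, hm⟩ := smul_eq γ
    simp only [hm]
    fun_prop

instance : IsCancelSMul Γ E := by
  rw [isCancelSMul_iff_eq_one_of_smul_eq]
  intro γ z h
  obtain ⟨m, hm⟩ := smul_eq γ
  rw [hm] at h
  have h4 : m 4 = 0 := by
    have := congrFun h 4
    rw [Pi.add_apply, T_four] at this
    simpa [cst] using this
  rw [h4, zpow_zero, one_apply] at h
  have h0 : cst m = 0 := by simpa using h
  apply Subtype.ext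
  ext1 w
  have := hm w
  rw [h4, h0, zpow_zero, one_apply, add_zero] at this
  exact this

instance : ProperlyDiscontinuousSMul Γ E where
  finite_disjoint_inter_image := by
    intro K L hK hL
    obtain ⟨R, hR⟩ := (hK.union hL).isBounded.exists_norm_le
    let C : ℤ → ℤ := fun n => ⌈R + ‖((T ^ n : E ≃L[ℝ] E) : E →L[ℝ] E)‖ * R⌉
    have hfin : (⋃ n ∈ Icc (-⌈2 * R⌉) ⌈2 * R⌉,
        el '' Icc (fun _ => -C n) (fun _ => C n)).Finite :=
      (finite_Icc _ _).biUnion fun n _ => (finite_Icc _ _).image _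
    refine hfin.subset ?_
    rintro γ ⟨_, ⟨z, hz, rfl⟩, hw⟩
    obtain ⟨m, hm⟩ := smul_eq γ
    have a1 := hR z (Or.inl hz)
    have a2 := hR _ (Or.inr hw)
    simp only [hm] at a2
    have a3 : ‖cst m‖ ≤ R + ‖((T ^ m 4 : E ≃L[ℝ] E) : E →L[ℝ] E)‖ * R := by
      have b1 := norm_sub_le ((T ^ m 4) z + cst m) ((T ^ m 4) z)
      rw [add_sub_cancel_left] at b1
      have b2 := ((T ^ m 4 : E ≃L[ℝ] E) : E →L[ℝ] E).le_opNorm z
      have b3 := mul_le_mul_of_nonneg_left a1 (norm_nonneg ((T ^ m 4 : E ≃L[ℝ] E) : E →L[ℝ] E))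
      simp only [ContinuousLinearEquiv.coe_coe] at b2
      linarith
    have a4 : |(m 4 : ℝ)| ≤ 2 * R := by
      have b1 := (norm_le_pi_norm ((T ^ m 4) z + cst m) 4).trans a2
      have b2 := (norm_le_pi_norm z 4).trans a1
      rw [Pi.add_apply, T_four] at b1
      simp only [cst, Real.norm_eq_abs, abs_le] at b1 b2 ⊢
      constructor <;> linarith [b1.1, b1.2, b2.1, b2.2]
    have cl : ∀ (a : ℤ) (x : ℝ), |(a : ℝ)| ≤ x → -⌈x⌉ ≤ a ∧ a ≤ ⌈x⌉ := by
      intro a x h
      have := Int.le_ceil x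
      rw [abs_le] at h
      constructor
      · have : ((-⌈x⌉ : ℤ) : ℝ) ≤ a := by push_cast; linarith [h.1]
        exact_mod_cast this
      · have : (a : ℝ) ≤ ((⌈x⌉ : ℤ) : ℝ) := by linarith [h.2]
        exact_mod_cast this
    refine mem_biUnion (cl _ _ a4) ⟨m, ⟨fun i => ?_, fun i => ?_⟩, ?_⟩
    · exact (cl _ _ ((norm_le_pi_norm (cst m) i).trans a3)).1
    · exact (cl _ _ ((norm_le_pi_norm (cst m) i).trans a3)).2
    · apply Subtype.ext
      ext1 w
      exact (hm w).symm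

/-- The manifold. -/
def M : Type := MulAction.orbitRel.Quotient Γ E

instance : TopologicalSpace M := inferInstanceAs (TopologicalSpace (MulAction.orbitRel.Quotient Γ E))

def p : E → M := Quotient.mk (MulAction.orbitRel Γ E)

lemma p_cov : IsCoveringMap p :=
  (isQuotientCoveringMap_quotientMk_of_properlyDiscontinuousSMul (G := Γ) (E := E)).isCoveringMap

lemma p_surj : Function.Surjective p := Quotient.mk_surjective

lemma p_eq {z w : E} : p z = p w ↔ ∃ γ : Γ, γ • w = z := by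
  have : p z = p w ↔ (MulAction.orbitRel Γ E) z w := Quotient.eq
  rw [this, MulAction.orbitRel_apply]; rfl

lemma p_smul (γ : Γ) (z : E) : p (γ • z) = p z := p_eq.mpr ⟨γ, rfl⟩

instance : T2Space M := inferInstanceAs (T2Space (Quotient (MulAction.orbitRel Γ E)))

instance : ConnectedSpace M := p_surj.connectedSpace p_cov.continuous

instance : CompactSpace M := by
  constructor
  have : p '' Icc (0 : E) 1 = univ := by
    rw [eq_univ_iff_forall]
    intro x
    obtain ⟨z, rfl⟩ := p_surj x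
    let m : Fin 5 → ℤ := fun i => -⌊(T ^ (-⌊z 4⌋)) z i⌋
    have h4 : m 4 = -⌊z 4⌋ := by simp only [m, T_four]
    refine ⟨el m • z, ?_, p_smul _ _⟩
    rw [el_smul, h4]
    constructor <;> intro i
    · have := Int.floor_le ((T ^ (-⌊z 4⌋)) z i)
      simp only [Pi.add_apply, cst, m, Pi.zero_apply]; push_cast; linarith
    · have := Int.lt_floor_add_one ((T ^ (-⌊z 4⌋)) z i)
      simp only [Pi.add_apply, cst, m, Pi.one_apply]; push_cast; linarith
  rw [← this]
  exact isCompact_Icc.image p_cov.continuous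

lemma exists_chart (x : M) : ∃ c : OpenPartialHomeomorph M E, x ∈ c.source ∧ ⇑c.symm = p := by
  obtain ⟨z, rfl⟩ := p_surj x
  obtain ⟨e, hz, he⟩ := p_cov.isLocalHomeomorph z
  refine ⟨e.symm, ?_, he.symm⟩
  rw [he]; exact e.map_source hz

noncomputable instance : ChartedSpace E M where
  atlas := {c | ⇑c.symm = p}
  chartAt x := (exists_chart x).choose
  mem_chart_source x := (exists_chart x).choose_spec.1
  chart_mem_atlas x := (exists_chart x).choose_spec.2

lemma atlas_symm {e : OpenPartialHomeomorph M E} (he : e ∈ atlas E M) : ⇑e.symm = p := he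

lemma locAff {e : OpenPartialHomeomorph M E} (he : e ∈ atlas E M) {z : E} (hz : p z ∈ e.source) :
    ∃ m : Fin 5 → ℤ, (fun w => e (p w)) =ᶠ[𝓝 z] fun w => (T ^ m 4) w + cst m := by
  have h1 : p (e (p z)) = p z := by
    have := e.left_inv hz
    rwa [atlas_symm he] at this
  obtain ⟨γ, hγ⟩ := p_eq.mp h1
  obtain ⟨m, hm⟩ := smul_eq γ
  refine ⟨m, ?_⟩
  have h2 : ∀ᶠ w in 𝓝 z, γ • w ∈ e.target := by
    apply (continuous_const_smul γ).continuousAt.eventually_mem
    rw [hγ]
    exact e.open_target.mem_nhds (e.map_source hz)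
  filter_upwards [h2] with w hw
  rw [← hm, ← p_smul γ w, ← atlas_symm he]
  exact e.right_inv hw

instance : IsManifold 𝓘(ℝ, E) ∞ M := by
  apply isManifold_of_contDiffOn
  intro e e' he he' y hy
  simp only [mfld_simps] at hy ⊢
  have h1 : p y ∈ e'.source := by rw [← atlas_symm he]; exact hy.2
  obtain ⟨m, hm⟩ := locAff he' h1
  apply ContDiffAt.contDiffWithinAt
  rw [atlas_symm he]
  refine ContDiffAt.congr_of_eventuallyEq ?_ hm
  exact ((T ^ m 4).contDiff.add contDiff_const).contDiffAt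

end Pool.Agent.H12.Flat
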