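import Pool.Agent.H12.PRDef
import Pool.Agent.H12.Flat1

/-! Derivative computations on the flat mapping torus. -/

open scoped Manifold ContDiff Topology
open Set Filter

namespace Pool.Agent.H12.Flat
open Pool.Agent.H12.PR

section
variable {N N' N'' : Type} [TopologicalSpace N] [ChartedSpace E N] [TopologicalSpace N']
  [ChartedSpace E N'] [TopologicalSpace N''] [ChartedSpace E N'']

noncomputable def D (f : N → N') (x : N) : E →L[ℝ] E := mfderiv 𝓘(ℝ, E) 𝓘(ℝ, E) f x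

abbrev MD (f : N → N') (x : N) : Prop := MDifferentiableAt 𝓘(ℝ, E) 𝓘(ℝ, E) f x

lemma push_eq (e : OpenPartialHomeomorph N E) (y u : E) : push e y u = D e.symm y u := rfl
lemma coord_eq (e : OpenPartialHomeomorph N E) (x : N) (v : E) : coord e x v = D e x v := rfl

lemma D_comp {g : N' → N''} {f : N → N'} {x : N} (hg : MD g (f x)) (hf : MD f x) (u : E) :
    D (g ∘ f) x u = D g (f x) (D f x u) := by
  have := mfderiv_comp x hg hf
  exact congrArg (fun L : E →L[ℝ] E => L u) this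

lemma D_congr {g f : N → N'} {x : N} (h : f =ᶠ[𝓝 x] g) : D f x = D g x := h.mfderiv_eq

lemma D_E (f : E → E) (x : E) : D f x = fderiv ℝ f x := mfderiv_eq_fderiv

end

lemma exists_chart' (z : E) : ∃ e ∈ atlas E M, z ∈ e.target := by
  obtain ⟨e, hz, he⟩ := p_cov.isLocalHomeomorph z
  exact ⟨e.symm, he.symm, hz⟩

lemma p_md (z : E) : MD p z := by
  obtain ⟨e, he, hz⟩ := exists_chart' z
  rw [← atlas_symm he]
  exact mdifferentiableAt_atlas_symm he hz

lemma aff_deriv (m : Fin 5 → ℤ) (z : E) :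
    HasFDerivAt (fun w => (T ^ m 4) w + cst m) ((T ^ m 4 : E ≃L[ℝ] E) : E →L[ℝ] E) z :=
  (T ^ m 4).hasFDerivAt.add_const _

lemma Dp_eq (z : E) : ∃ m : Fin 5 → ℤ, chartAt E (p z) (p z) = (T ^ m 4) z + cst m ∧
    ∀ u, D p z u = (T ^ m 4) u := by
  obtain ⟨m, hm⟩ := locAff (chart_mem_atlas E (p z)) (mem_chart_source E (p z))
  refine ⟨m, hm.eq_of_nhds, fun u => ?_⟩
  have : HasMFDerivAt 𝓘(ℝ, E) 𝓘(ℝ, E) p z ((T ^ m 4 : E ≃L[ℝ] E) : E →L[ℝ] E) := by
    refine ⟨p_cov.continuous.continuousAt, ?_⟩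
    simp only [writtenInExtChartAt, mfld_simps]
    rw [hasFDerivWithinAt_univ]
    exact (aff_deriv m z).congr_of_eventuallyEq hm
  exact congrArg (fun L : E →L[ℝ] E => L u) this.mfderiv

lemma De_Dp {e : OpenPartialHomeomorph M E} (he : e ∈ atlas E M) {z : E} (hz : p z ∈ e.source)
    {m : Fin 5 → ℤ} (hm : (fun w => e (p w)) =ᶠ[𝓝 z] fun w => (T ^ m 4) w + cst m) (u : E) :
    D e (p z) (D p z u) = (T ^ m 4) u := by
  rw [← D_comp (mdifferentiableAt_atlas he hz) (p_md z), D_E]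
  have := ((aff_deriv m z).congr_of_eventuallyEq hm).fderiv
  exact congrArg (fun L : E →L[ℝ] E => L u) this

lemma De_Dp' {e : OpenPartialHomeomorph M E} (he : e ∈ atlas E M) {y : E} (hy : y ∈ e.target)
    (u : E) : D e (p y) (D p y u) = u := by
  have h1 : p y ∈ e.source := by rw [← atlas_symm he]; exact e.map_target hy
  have h2 : (fun w => e (p w)) =ᶠ[𝓝 y] fun w => (T ^ (0 : Fin 5 → ℤ) 4) w + cst 0 := by
    filter_upwards [e.open_target.mem_nhds hy] with w hw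
    rw [← atlas_symm he, e.right_inv hw]
    ext i; simp [cst, one_apply]
  simpa [one_apply] using De_Dp he h1 h2 u

lemma Dp_smul (m : Fin 5 → ℤ) (z u : E) : D p ((T ^ m 4) z + cst m) ((T ^ m 4) u) = D p z u := by
  have h1 : p ∘ (fun w => (T ^ m 4) w + cst m) = p := by
    funext w; exact p_smul (el m) w
  have h2 := D_comp (g := p) (f := fun w => (T ^ m 4) w + cst m) (x := z) (p_md _)
    (aff_deriv m z).differentiableAt.mdifferentiableAt u
  rw [h1, D_E, (aff_deriv m z).fderiv] at h2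
  exact h2.symm

noncomputable def gM : Form E M := fun _ => (G0.toLinearMap₁₂ : E →ₗ[ℝ] E →ₗ[ℝ] ℝ)

lemma gM_apply (x : M) (u v : E) : gM x u v = G0 u v := rfl

lemma gLoc_gM {e : OpenPartialHomeomorph M E} (he : e ∈ atlas E M) (u v : E) :
    gLoc gM e u v = fun _ => G0 u v := by
  funext y
  obtain ⟨m, -, hm⟩ := Dp_eq y
  show G0 (D e.symm y u) (D e.symm y v) = _
  rw [atlas_symm he, hm, hm, G0_T]

lemma chr_gM {e : OpenPartialHomeomorph M E} (he : e ∈ atlas E M) (y u v w : E) :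
    chr gM e y u v w = 0 := by
  simp [chr, gLoc_gM he]

lemma gM_metric : IsMetric gM :=
  ⟨fun _ u v => G0_symm u v, fun _ u h => G0_nondeg u h, fun e he u v => by
    rw [gLoc_gM he]; exact contDiffOn_const⟩

/-- Christoffel symbols of a flat metric in curvilinear coordinates. -/
lemma chr_flat {N : Type} [TopologicalSpace N] [ChartedSpace E N] (g : Form E N)
    (e : OpenPartialHomeomorph N E) (ψ : E → E) (y : E) (hψ : ContDiffAt ℝ 2 ψ y)
    (hg : ∀ u v, gLoc g e u v =ᶠ[𝓝 y] fun y => G0 (fderiv ℝ ψ y u) (fderiv ℝ ψ y v)) (u v w : E) :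
    chr g e y u v w = G0 (fderiv ℝ (fderiv ℝ ψ) y u v) (fderiv ℝ ψ y w) := by
  have h1 : DifferentiableAt ℝ (fderiv ℝ ψ) y :=
    (hψ.fderiv_right (m := 1) (by norm_num)).differentiableAt one_ne_zero
  have h2 : ∀ a, HasFDerivAt (fun y => fderiv ℝ ψ y a)
      ((ContinuousLinearMap.apply ℝ E a).comp (fderiv ℝ (fderiv ℝ ψ) y)) y :=
    fun a => (ContinuousLinearMap.apply ℝ E a).hasFDerivAt.comp y h1.hasFDerivAt
  have h3 : ∀ a b c, fderiv ℝ (gLoc g e a b) y c =
      G0 (fderiv ℝ ψ y a) (fderiv ℝ (fderiv ℝ ψ) y c b) +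
        G0 (fderiv ℝ (fderiv ℝ ψ) y c a) (fderiv ℝ ψ y b) := by
    intro a b c
    rw [((G0.hasFDerivAt_of_bilinear (h2 a) (h2 b)).congr_of_eventuallyEq (hg a b)).fderiv]
    simp
  have hs := hψ.isSymmSndFDerivAt (by simp)
  unfold chr
  rw [h3, h3, h3, hs.eq v u, hs.eq w u, hs.eq w v, G0_symm (fderiv ℝ ψ y v),
    G0_symm (fderiv ℝ ψ y u)]
  ring

end Pool.Agent.H12.Flat
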