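import Mathlib

/-! Weak compactness tools and Kadec's Frechet smooth renorming of separable reflexive spaces. -/

set_option autoImplicit false

namespace Pool.Agent.H12.Fre

open Set Filter Topology Metric

theorem wlim {E : Type} [NormedAddCommGroup E] [NormedSpace ℝ E] (φ : ℕ → StrongDual ℝ E) (R : ℝ)
    (hR : ∀ n, ‖φ n‖ ≤ R) :
    ∃ ψ : StrongDual ℝ E, ∀ (e : E) (t : ℝ), (∀ᶠ n in atTop, φ n e ≤ t) → ψ e ≤ t := by
  let U : Ultrafilter ℕ := Ultrafilter.of atTop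
  obtain ⟨ψ, -, hψ'⟩ := (WeakDual.isCompact_closedBall (0 : StrongDual ℝ E) R).ultrafilter_le_nhds
    (U.map fun n => StrongDual.toWeakDual (φ n)) (by
      rw [le_principal_iff]
      exact Ultrafilter.mem_map.2 (Filter.univ_mem' fun n => by simpa using hR n))
  refine ⟨WeakDual.toStrongDual ψ, fun e t ht => ?_⟩
  have hev : Tendsto (fun n => φ n e) U (𝓝 (ψ e)) :=
    ((WeakDual.eval_continuous e).tendsto ψ).comp hψ'
  exact le_of_tendsto hev (ht.filter_mono (Ultrafilter.of_le atTop))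

variable {X : Type} [NormedAddCommGroup X] [NormedSpace ℝ X]

theorem nestedX (hX : Function.Surjective (NormedSpace.inclusionInDoubleDual ℝ X))
    (K : ℕ → Set X) (hK : Antitone K) (hne : ∀ n, (K n).Nonempty) (hcl : ∀ n, IsClosed (K n))
    (hcv : ∀ n, Convex ℝ (K n)) (R : ℝ) (hR : ∀ x ∈ K 0, ‖x‖ ≤ R) : ∃ x, ∀ n, x ∈ K n := by
  choose a ha using hne
  obtain ⟨ψ, hψ⟩ := wlim (fun n => NormedSpace.inclusionInDoubleDual ℝ X (a n)) R fun n =>
    le_trans (NormedSpace.double_dual_bound ℝ X _) (hR _ (hK (Nat.zero_le n) (ha n)))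
  obtain ⟨x, rfl⟩ := hX ψ
  refine ⟨x, fun m => by_contra fun hx => ?_⟩
  obtain ⟨f, u, h1, h2⟩ := geometric_hahn_banach_closed_point (hcv m) (hcl m) hx
  have := hψ f u ((eventually_ge_atTop m).mono fun n hn => (h1 _ (hK hn (ha n))).le)
  exact absurd this (not_le.2 h2)

theorem nestedZ (hX : Function.Surjective (NormedSpace.inclusionInDoubleDual ℝ X))
    (K : ℕ → Set (StrongDual ℝ X)) (hK : Antitone K) (hne : ∀ n, (K n).Nonempty)
    (hcl : ∀ n, IsClosed (K n)) (hcv : ∀ n, Convex ℝ (K n)) (R : ℝ)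
    (hR : ∀ x ∈ K 0, ‖x‖ ≤ R) : ∃ x, ∀ n, x ∈ K n := by
  choose a ha using hne
  obtain ⟨ψ, hψ⟩ := wlim a R fun n => hR _ (hK (Nat.zero_le n) (ha n))
  refine ⟨ψ, fun m => by_contra fun hx => ?_⟩
  obtain ⟨f, u, h1, h2⟩ := geometric_hahn_banach_closed_point (hcv m) (hcl m) hx
  obtain ⟨x, rfl⟩ := hX f
  have := hψ x u ((eventually_ge_atTop m).mono fun n hn => (h1 _ (hK hn (ha n))).le)
  exact absurd this (not_le.2 h2)

/-- Spaces in which nested closed convex bounded sets meet. -/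
def Nest (E : Type) [NormedAddCommGroup E] [NormedSpace ℝ E] : Prop :=
  ∀ (K : ℕ → Set E), Antitone K → (∀ n, (K n).Nonempty) → (∀ n, IsClosed (K n)) →
    (∀ n, Convex ℝ (K n)) → ∀ R : ℝ, (∀ x ∈ K 0, ‖x‖ ≤ R) → ∃ x, ∀ n, x ∈ K n

theorem nestY (hX : Function.Surjective (NormedSpace.inclusionInDoubleDual ℝ X))
    (Y : Submodule ℝ X) (hY : IsClosed (Y : Set X)) : Nest Y := by
  intro K hK hne hcl hcv R hR
  obtain ⟨x, hx⟩ := nestedX hX (fun n => Subtype.val '' K n) (fun m n h => image_mono (hK h))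
    (fun n => (hne n).image _) (fun n => hY.isClosedMap_subtype_val _ (hcl n))
    (fun n => (hcv n).linear_image Y.subtype) R (by
      rintro _ ⟨y, hy, rfl⟩
      exact hR y hy)
  obtain ⟨y, -, rfl⟩ := hx 0
  refine ⟨y, fun n => ?_⟩
  obtain ⟨y', hy', e⟩ := hx n
  rwa [← Subtype.val_injective e]

theorem Nest.exists_min {E : Type} [NormedAddCommGroup E] [NormedSpace ℝ E] (hE : Nest E)
    {K : Set E} (hne : K.Nonempty) (hcl : IsClosed K) {g : E → ℝ} (hg : Continuous g)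
    (hcv : ∀ t, Convex ℝ {y | y ∈ K ∧ g y ≤ t}) (hbd : ∀ t, ∃ R, ∀ y ∈ K, g y ≤ t → ‖y‖ ≤ R)
    (m : ℝ) (hm : ∀ y ∈ K, m ≤ g y) : ∃ y ∈ K, ∀ y' ∈ K, g y ≤ g y' := by
  have hb : BddBelow (g '' K) := ⟨m, by rintro _ ⟨y, hy, rfl⟩; exact hm y hy⟩
  set μ := sInf (g '' K) with hμ
  obtain ⟨R, hR⟩ := hbd (μ + 1 / ((0 : ℕ) + 1 : ℝ))
  obtain ⟨y, hy⟩ := hE (fun n => {y | y ∈ K ∧ g y ≤ μ + 1 / ((n : ℝ) + 1)})
    (fun a b hab y hy => ⟨hy.1, le_trans hy.2 (by
      have : (1 : ℝ) / ((b : ℝ) + 1) ≤ 1 / ((a : ℝ) + 1) := Nat.one_div_le_one_div hab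
      linarith)⟩)
    (fun n => by
      obtain ⟨_, ⟨y, hy, rfl⟩, h⟩ := exists_lt_of_csInf_lt (hne.image g)
        (show μ < μ + 1 / ((n : ℝ) + 1) by linarith [Nat.one_div_pos_of_nat (α := ℝ) (n := n)])
      exact ⟨y, hy, h.le⟩)
    (fun n => hcl.inter (isClosed_le hg continuous_const)) (fun n => hcv _) R
    (fun y hy => hR y hy.1 hy.2)
  refine ⟨y, (hy 0).1, fun y' hy' => le_trans ?_ (csInf_le hb (mem_image_of_mem g hy'))⟩
  refine le_of_forall_pos_le_add fun ε hε => ?_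
  obtain ⟨n, hn⟩ := exists_nat_one_div_lt hε
  linarith [(hy n).2]

/-- One-sided first order estimate. -/
def UD {E : Type} [NormedAddCommGroup E] [NormedSpace ℝ E] (p : E → ℝ) (x : E)
    (ψ : E →L[ℝ] ℝ) : Prop :=
  ∀ ε > 0, ∃ δ > 0, ∀ h : E, ‖h‖ < δ → p (x + h) ≤ p x + ψ h + ε * ‖h‖

theorem UD.diff {E : Type} [NormedAddCommGroup E] [NormedSpace ℝ E] {p : Seminorm ℝ E} {x : E}
    {ψ : E →L[ℝ] ℝ} (h : UD p x ψ) : DifferentiableAt ℝ p x := by
  refine HasFDerivAt.differentiableAt (f' := ψ) ?_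
  rw [hasFDerivAt_iff_isLittleO_nhds_zero, Asymptotics.isLittleO_iff]
  intro c hc
  obtain ⟨δ, hδ, h1⟩ := h c hc
  filter_upwards [ball_mem_nhds (0 : E) hδ] with v hv
  rw [mem_ball_zero_iff] at hv
  have h2 := h1 v hv
  have h3 := h1 (-v) (by rwa [norm_neg])
  rw [map_neg, norm_neg] at h3
  have h4 : p ((2 : ℝ) • x) ≤ p (x + v) + p (x + -v) := by
    have : (2 : ℝ) • x = (x + v) + (x + -v) := by rw [two_smul]; abel
    rw [this]
    exact map_add_le_add p _ _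
  rw [map_smul_eq_mul, Real.norm_two] at h4
  rw [Real.norm_eq_abs, abs_le]
  constructor <;> linarith

theorem UD.of_diff {E : Type} [NormedAddCommGroup E] [NormedSpace ℝ E] {p : E → ℝ} {x : E}
    (h : DifferentiableAt ℝ p x) : UD p x (fderiv ℝ p x) := by
  have h1 := h.hasFDerivAt
  rw [hasFDerivAt_iff_isLittleO_nhds_zero, Asymptotics.isLittleO_iff] at h1
  intro ε hε
  obtain ⟨δ, hδ, h2⟩ := Metric.eventually_nhds_iff.1 (h1 hε)
  refine ⟨δ, hδ, fun v hv => ?_⟩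
  have := h2 (y := v) (by rwa [dist_zero_right])
  rw [Real.norm_eq_abs, abs_le] at this
  linarith [this.2]

theorem dual_sep [TopologicalSpace.SeparableSpace X]
    (hX : Function.Surjective (NormedSpace.inclusionInDoubleDual ℝ X)) :
    TopologicalSpace.SeparableSpace (StrongDual ℝ X) := by
  have : Nonempty X := ⟨0⟩
  choose g hg1 hg2 using fun y : X => exists_dual_vector'' ℝ y
  simp only [RCLike.ofReal_real_eq_id, id] at hg2
  let S : Submodule ℝ (StrongDual ℝ X) :=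
    Submodule.span ℝ (range fun n => g (TopologicalSpace.denseSeq X n))
  have hS : TopologicalSpace.IsSeparable (S : Set (StrongDual ℝ X)) :=
    (countable_range _).isSeparable.span
  rw [← TopologicalSpace.isSeparable_univ_iff]
  refine hS.closure.mono fun z _ => by_contra fun hz => ?_
  obtain ⟨f, u, h1, h2⟩ := geometric_hahn_banach_closed_point (S.convex.closure) isClosed_closure hz
  obtain ⟨x, rfl⟩ := hX f
  have h0 : ∀ w ∈ S, w x = 0 := by
    intro w hw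
    by_contra hne
    have := h1 ((u / w x) • w) (subset_closure (S.smul_mem _ hw))
    rw [NormedSpace.dual_def] at this
    simp [div_mul_cancel₀ _ hne] at this
  have hx : x = 0 := by
    rw [← norm_le_zero_iff]
    refine le_of_forall_pos_le_add fun ε hε => ?_
    obtain ⟨n, hn⟩ := (TopologicalSpace.denseRange_denseSeq X).exists_dist_lt x (half_pos hε)
    set y := TopologicalSpace.denseSeq X n with hy
    have e1 : g y x = 0 := h0 _ (Submodule.subset_span ⟨n, rfl⟩)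
    have e2 : g y (y - x) ≤ ‖y - x‖ := (le_abs_self _).trans (((g y).le_opNorm _).trans
      (mul_le_of_le_one_left (norm_nonneg _) (hg1 y)))
    rw [map_sub, e1, hg2, sub_zero] at e2
    rw [dist_comm, dist_eq_norm] at hn
    have e3 : ‖x‖ ≤ ‖y‖ + ‖y - x‖ := by
      have := norm_sub_le y (y - x)
      rwa [sub_sub_cancel] at this
    linarith
  have h3 := h1 0 (subset_closure S.zero_mem)
  rw [hx] at h2 h3
  simp at h2 h3
  linarith

section kadec

variable {Z : Type} [NormedAddCommGroup Z] [NormedSpace ℝ Z]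

noncomputable def rho (d : ℕ → Z) (n : ℕ) (z : Z) : ℝ :=
  ‖(Submodule.Quotient.mk z : Z ⧸ (Submodule.span ℝ {d n}))‖

noncomputable def QQ (d : ℕ → Z) (N : ℕ) (z : Z) : ℝ :=
  ‖z‖ ^ 2 + ∑ n ∈ Finset.range N, (1 / 2 : ℝ) ^ n * rho d n z ^ 2

theorem rho_nonneg (d : ℕ → Z) (n : ℕ) (z : Z) : 0 ≤ rho d n z := norm_nonneg _

theorem rho_le (d : ℕ → Z) (n : ℕ) (z : Z) : rho d n z ≤ ‖z‖ := Submodule.Quotient.norm_mk_le _ z

theorem rho_add (d : ℕ → Z) (n : ℕ) (a b : Z) : rho d n (a + b) ≤ rho d n a + rho d n b := by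
  unfold rho
  rw [Submodule.Quotient.mk_add]
  exact norm_add_le _ _

theorem rho_smul (d : ℕ → Z) (n : ℕ) (t : ℝ) (a : Z) : rho d n (t • a) = |t| * rho d n a := by
  unfold rho
  rw [Submodule.Quotient.mk_smul, norm_smul, Real.norm_eq_abs]

theorem rho_cont (d : ℕ → Z) (n : ℕ) : Continuous (rho d n) :=
  continuous_norm.comp continuous_quot_mk

theorem rho_near (d : ℕ → Z) (n : ℕ) (z : Z) : rho d n z ≤ ‖z - d n‖ := by
  have : (Submodule.Quotient.mk z : Z ⧸ (Submodule.span ℝ {d n}))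
      = Submodule.Quotient.mk (z - d n) := by
    rw [Submodule.Quotient.eq, sub_sub_cancel]
    exact Submodule.mem_span_singleton_self _
  unfold rho
  rw [this]
  exact Submodule.Quotient.norm_mk_le _ _

theorem rho_lt (d : ℕ → Z) (n : ℕ) (z : Z) {ε : ℝ} (hε : 0 < ε) :
    ∃ t : ℝ, ‖z - t • d n‖ < rho d n z + ε := by
  obtain ⟨m, h1, h2⟩ := Submodule.Quotient.norm_mk_lt
    (Submodule.Quotient.mk z : Z ⧸ (Submodule.span ℝ {d n})) hε
  rw [eq_comm, Submodule.Quotient.eq, Submodule.mem_span_singleton] at h1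
  obtain ⟨t, ht⟩ := h1
  exact ⟨t, by rwa [ht, sub_sub_cancel]⟩

theorem QQ_smul (d : ℕ → Z) (N : ℕ) (t : ℝ) (z : Z) : QQ d N (t • z) = t ^ 2 * QQ d N z := by
  unfold QQ
  rw [norm_smul, mul_add, Finset.mul_sum, mul_pow, Real.norm_eq_abs, sq_abs]
  congr 1
  refine Finset.sum_congr rfl fun n _ => ?_
  rw [rho_smul, mul_pow, sq_abs]
  ring

theorem sq_cvx {a b c s t : ℝ} (hc : 0 ≤ c) (hs : 0 ≤ s) (ht : 0 ≤ t) (hst : s + t = 1)
    (h : c ≤ s * a + t * b) : c ^ 2 ≤ s * a ^ 2 + t * b ^ 2 - s * t * (a - b) ^ 2 := by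
  have h1 : c ^ 2 ≤ (s * a + t * b) ^ 2 := pow_le_pow_left₀ hc h 2
  have h2 : t = 1 - s := by linarith
  subst h2
  nlinarith

theorem QQ_cvx (d : ℕ → Z) (N : ℕ) (a b : Z) {s t : ℝ} (hs : 0 ≤ s) (ht : 0 ≤ t)
    (hst : s + t = 1) :
    QQ d N (s • a + t • b) ≤ s * QQ d N a + t * QQ d N b - s * t * ((‖a‖ - ‖b‖) ^ 2
      + ∑ n ∈ Finset.range N, (1 / 2 : ℝ) ^ n * (rho d n a - rho d n b) ^ 2) := by
  unfold QQ
  have h1 := sq_cvx (norm_nonneg (s • a + t • b)) hs ht hst (a := ‖a‖) (b := ‖b‖) (by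
    have := norm_add_le (s • a) (t • b)
    rwa [norm_smul, norm_smul, Real.norm_of_nonneg hs, Real.norm_of_nonneg ht] at this)
  have h2 : ∑ n ∈ Finset.range N, (1 / 2 : ℝ) ^ n * rho d n (s • a + t • b) ^ 2
      ≤ ∑ n ∈ Finset.range N, (s * ((1 / 2 : ℝ) ^ n * rho d n a ^ 2)
        + t * ((1 / 2 : ℝ) ^ n * rho d n b ^ 2)
        - s * t * ((1 / 2 : ℝ) ^ n * (rho d n a - rho d n b) ^ 2)) := by
    refine Finset.sum_le_sum fun n _ => ?_
    have h3 := sq_cvx (rho_nonneg d n (s • a + t • b)) hs ht hst (a := rho d n a)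
      (b := rho d n b) (by
        have := rho_add d n (s • a) (t • b)
        rwa [rho_smul, rho_smul, abs_of_nonneg hs, abs_of_nonneg ht] at this)
    have h4 := mul_le_mul_of_nonneg_left h3 (show (0 : ℝ) ≤ (1 / 2) ^ n by positivity)
    linarith
  rw [Finset.sum_sub_distrib, Finset.sum_add_distrib, ← Finset.mul_sum, ← Finset.mul_sum,
    ← Finset.mul_sum] at h2
  linarith

theorem QQ_mono (d : ℕ → Z) {N M : ℕ} (h : N ≤ M) (z : Z) : QQ d N z ≤ QQ d M z := by
  unfold QQ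
  have := Finset.sum_le_sum_of_subset_of_nonneg (Finset.range_mono h)
    (f := fun n => (1 / 2 : ℝ) ^ n * rho d n z ^ 2) (fun _ _ _ => by positivity)
  linarith

theorem QQ_le (d : ℕ → Z) (N : ℕ) (z : Z) : QQ d N z ≤ 3 * ‖z‖ ^ 2 := by
  unfold QQ
  have h1 : ∑ n ∈ Finset.range N, (1 / 2 : ℝ) ^ n * rho d n z ^ 2
      ≤ ∑ n ∈ Finset.range N, (1 / 2 : ℝ) ^ n * ‖z‖ ^ 2 :=
    Finset.sum_le_sum fun n _ => mul_le_mul_of_nonneg_left
      (pow_le_pow_left₀ (rho_nonneg d n z) (rho_le d n z) 2) (by positivity)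
  rw [← Finset.sum_mul] at h1
  have h2 := sum_geometric_two_le N
  nlinarith [sq_nonneg ‖z‖]

def CC (d : ℕ → Z) : Set Z := {z | ∀ N, QQ d N z ≤ 1}

theorem CC_norm {d : ℕ → Z} {z : Z} (h : z ∈ CC d) : ‖z‖ ≤ 1 := by
  have := h 0
  simp only [QQ, Finset.range_zero, Finset.sum_empty, add_zero] at this
  nlinarith [norm_nonneg z]

theorem CC_of_norm (d : ℕ → Z) {z : Z} (h : ‖z‖ ≤ 1 / 2) : z ∈ CC d := fun N => by
  have := QQ_le d N z
  nlinarith [norm_nonneg z]

theorem CC_neg {d : ℕ → Z} {z : Z} (h : z ∈ CC d) : -z ∈ CC d := fun N => by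
  have := QQ_smul d N (-1) z
  rw [neg_one_smul] at this
  rw [this]
  linarith [h N]

theorem CC_closed (d : ℕ → Z) : IsClosed (CC d) := by
  have : CC d = ⋂ N, {z | QQ d N z ≤ 1} := by ext z; simp [CC]
  rw [this]
  refine isClosed_iInter fun N => isClosed_le ?_ continuous_const
  unfold QQ
  have := rho_cont d
  fun_prop

theorem CC_convex (d : ℕ → Z) : Convex ℝ (CC d) := by
  intro a ha b hb s t hs ht hst N
  have h1 := QQ_cvx d N a b hs ht hst
  have h2 : 0 ≤ s * t * ((‖a‖ - ‖b‖) ^ 2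
      + ∑ n ∈ Finset.range N, (1 / 2 : ℝ) ^ n * (rho d n a - rho d n b) ^ 2) := by positivity
  nlinarith [ha N, hb N]

/-- Strong exposure. -/
theorem CC_expose {d : ℕ → Z} (hd : DenseRange d) (f : Z →L[ℝ] ℝ) {z₀ : Z} (h0 : z₀ ∈ CC d)
    (hmax : ∀ z ∈ CC d, f z ≤ f z₀) (hpos : 0 < f z₀) {ε : ℝ} (hε : 0 < ε) :
    ∃ δ > 0, ∀ z ∈ CC d, f z₀ - δ ≤ f z → ‖z - z₀‖ ≤ ε := by
  have hf : 0 < ‖f‖ + 1 := by positivity
  set η := min (min (ε / 9) (f z₀ / (9 * (‖f‖ + 1)))) 1 with hη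
  have hη0 : 0 < η := lt_min (lt_min (by positivity) (by positivity)) one_pos
  have hη1 : 9 * η ≤ ε := by
    have : η ≤ ε / 9 := le_trans (min_le_left _ _) (min_le_left _ _)
    linarith
  have hη2 : (‖f‖ + 1) * (9 * η) ≤ f z₀ := by
    have : η ≤ f z₀ / (9 * (‖f‖ + 1)) := le_trans (min_le_left _ _) (min_le_right _ _)
    rw [le_div_iff₀ (by positivity)] at this
    linarith
  have hη3 : η ≤ 1 := min_le_right _ _
  obtain ⟨n, hn⟩ := hd.exists_dist_lt z₀ hη0
  rw [dist_eq_norm] at hn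
  set γ := (1 / 2 : ℝ) ^ n * η ^ 2 / 4 with hγ
  have hw0 : (0 : ℝ) < (1 / 2) ^ n := by positivity
  have hw1 : ((1 : ℝ) / 2) ^ n ≤ 1 := pow_le_one₀ (by norm_num) (by norm_num)
  have hγ0 : 0 < γ := by positivity
  have hγ1 : γ ≤ 1 := by
    have : η ^ 2 ≤ 1 := pow_le_one₀ hη0.le hη3
    rw [hγ]; nlinarith
  refine ⟨γ / 2 * f z₀, by positivity, fun z hz hfz => ?_⟩
  have key : |‖z‖ - ‖z₀‖| ≤ η ∧ |rho d n z - rho d n z₀| ≤ η := by
    by_contra hc
    have hgap : ∀ N, n + 1 ≤ N → 4 * γ ≤ (‖z‖ - ‖z₀‖) ^ 2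
        + ∑ k ∈ Finset.range N, (1 / 2 : ℝ) ^ k * (rho d k z - rho d k z₀) ^ 2 := by
      intro N hN
      have h1 : (1 / 2 : ℝ) ^ n * (rho d n z - rho d n z₀) ^ 2
          ≤ ∑ k ∈ Finset.range N, (1 / 2 : ℝ) ^ k * (rho d k z - rho d k z₀) ^ 2 :=
        Finset.single_le_sum (f := fun k => (1 / 2 : ℝ) ^ k * (rho d k z - rho d k z₀) ^ 2)
          (fun _ _ => by positivity) (Finset.mem_range.2 hN)
      have h2 : 0 ≤ (1 / 2 : ℝ) ^ n * (rho d n z - rho d n z₀) ^ 2 := by positivity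
      rw [not_and_or, not_le, not_le] at hc
      rcases hc with hc | hc
      · have h3 : η ^ 2 ≤ (‖z‖ - ‖z₀‖) ^ 2 := by
          rw [← sq_abs (‖z‖ - ‖z₀‖)]; exact pow_le_pow_left₀ hη0.le hc.le 2
        rw [hγ]; nlinarith [sq_nonneg η]
      · have h3 : η ^ 2 ≤ (rho d n z - rho d n z₀) ^ 2 := by
          rw [← sq_abs (rho d n z - rho d n z₀)]; exact pow_le_pow_left₀ hη0.le hc.le 2
        have h4 := mul_le_mul_of_nonneg_left h3 hw0.le
        rw [hγ]; nlinarith [sq_nonneg (‖z‖ - ‖z₀‖)]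
    have hm : (1 + γ / 2) • ((1 / 2 : ℝ) • z + (1 / 2 : ℝ) • z₀) ∈ CC d := by
      intro N
      have h1 := QQ_mono d (le_max_left N (n + 1)) ((1 / 2 : ℝ) • z + (1 / 2 : ℝ) • z₀)
      have h2 := QQ_cvx d (max N (n + 1)) z z₀ (s := 1 / 2) (t := 1 / 2) (by norm_num)
        (by norm_num) (by norm_num)
      have h3 := hgap _ (le_max_right N (n + 1))
      have h4 : QQ d N ((1 / 2 : ℝ) • z + (1 / 2 : ℝ) • z₀) ≤ 1 - γ := by
        linarith [hz (max N (n + 1)), h0 (max N (n + 1))]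
      rw [QQ_smul]
      have h5 := mul_le_mul_of_nonneg_left h4 (sq_nonneg (1 + γ / 2))
      nlinarith [sq_nonneg γ, mul_nonneg hγ0.le (sq_nonneg γ)]
    have h6 := hmax _ hm
    simp only [map_smul, map_add, smul_eq_mul] at h6
    have h7 : (1 + γ / 2) * (f z₀ - γ / 4 * f z₀) ≤ f z₀ := by
      refine le_trans (mul_le_mul_of_nonneg_left (by linarith) (by linarith)) h6
    have h8 : 0 < γ * f z₀ := mul_pos hγ0 hpos
    nlinarith
  obtain ⟨k1, k2⟩ := key
  rw [abs_le] at k1 k2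
  obtain ⟨t, ht⟩ := rho_lt d n z hη0
  have r0 := rho_near d n z₀
  have a1 : ‖z - t • d n‖ ≤ 3 * η := by linarith
  have a2 := abs_norm_sub_norm_le z (t • d n)
  have a3 := abs_norm_sub_norm_le z₀ (d n)
  rw [abs_le] at a2 a3
  rw [norm_smul, Real.norm_eq_abs] at a2
  rcases le_total 0 t with h | h
  · rw [abs_of_nonneg h] at a2
    have a4 : ‖t • d n - d n‖ ≤ 5 * η := by
      have : t • d n - d n = (t - 1) • d n := by rw [sub_smul, one_smul]
      rw [this, norm_smul, Real.norm_eq_abs, ← abs_of_nonneg (norm_nonneg (d n)), ← abs_mul,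
        abs_le]
      constructor <;> nlinarith
    have e : z - z₀ = (z - t • d n) + (t • d n - d n) - (z₀ - d n) := by abel
    have b1 := norm_sub_le ((z - t • d n) + (t • d n - d n)) (z₀ - d n)
    have b2 := norm_add_le (z - t • d n) (t • d n - d n)
    rw [e]
    linarith
  · exfalso
    rw [abs_of_nonpos h] at a2
    have a4 : ‖t • d n + d n‖ ≤ 5 * η := by
      have : t • d n + d n = (t + 1) • d n := by rw [add_smul, one_smul]
      rw [this, norm_smul, Real.norm_eq_abs, ← abs_of_nonneg (norm_nonneg (d n)), ← abs_mul,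
        abs_le]
      constructor <;> nlinarith
    have e : z + z₀ = (z - t • d n) + (t • d n + d n) + (z₀ - d n) := by abel
    have b1 := norm_add_le ((z - t • d n) + (t • d n + d n)) (z₀ - d n)
    have b2 := norm_add_le (z - t • d n) (t • d n + d n)
    rw [← e] at b1
    have b3 : f (z + z₀) ≤ ‖f‖ * (9 * η) := (le_abs_self _).trans ((f.le_opNorm _).trans
      (mul_le_mul_of_nonneg_left (by linarith) (norm_nonneg _)))
    rw [map_add] at b3
    nlinarith

end kadec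

/-- Kadec's theorem. -/
theorem kadec [TopologicalSpace.SeparableSpace X]
    (hX : Function.Surjective (NormedSpace.inclusionInDoubleDual ℝ X)) :
    ∃ S : Seminorm ℝ X, (∀ x, ‖x‖ / 2 ≤ S x) ∧ (∀ x, S x ≤ ‖x‖) ∧
      ∀ x, x ≠ 0 → ∃ ψ, UD S x ψ := by
  have := dual_sep hX
  have : Nonempty (StrongDual ℝ X) := ⟨0⟩
  set d := TopologicalSpace.denseSeq (StrongDual ℝ X) with hd
  have hdd : DenseRange d := TopologicalSpace.denseRange_denseSeq _
  have hN : Nest (StrongDual ℝ X) := fun K h1 h2 h3 h4 R h5 => nestedZ hX K h1 h2 h3 h4 R h5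
  have hle : ∀ x : X, ∀ z ∈ CC d, z x ≤ ‖x‖ := fun x z hz => (le_abs_self _).trans
    ((z.le_opNorm x).trans (mul_le_of_le_one_left (norm_nonneg _) (CC_norm hz)))
  have hex : ∀ x : X, ∃ z ∈ CC d, ∀ z' ∈ CC d, z' x ≤ z x := by
    intro x
    obtain ⟨z, hz, h⟩ := hN.exists_min (K := CC d) ⟨0, CC_of_norm d (by simp)⟩ (CC_closed d)
      (g := fun z => -(z x)) (by fun_prop) (fun t => by
        intro a ha b hb s r hs hr hsr
        refine ⟨CC_convex d ha.1 hb.1 hs hr hsr, ?_⟩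
        have h1 := mul_le_mul_of_nonneg_left ha.2 hs
        have h2 := mul_le_mul_of_nonneg_left hb.2 hr
        have h3 : s * t + r * t = t := by rw [← add_mul, hsr, one_mul]
        simp only [ContinuousLinearMap.add_apply, ContinuousLinearMap.smul_apply, smul_eq_mul]
        linarith)
      (fun t => ⟨1, fun y hy _ => CC_norm hy⟩) (-‖x‖) (fun y hy => neg_le_neg (hle x y hy))
    exact ⟨z, hz, fun z' hz' => neg_le_neg_iff.1 (h z' hz')⟩
  choose z hz hmax using hex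
  have hsm : ∀ (a : ℝ) (x : X), z (a • x) (a • x) ≤ ‖a‖ * z x x := by
    intro a x
    rw [map_smul, smul_eq_mul, Real.norm_eq_abs]
    rcases le_total 0 a with h | h
    · rw [abs_of_nonneg h]
      exact mul_le_mul_of_nonneg_left (hmax x _ (hz _)) h
    · rw [abs_of_nonpos h]
      have := hmax x _ (CC_neg (hz (a • x)))
      rw [ContinuousLinearMap.neg_apply] at this
      nlinarith
  let S : Seminorm ℝ X := Seminorm.ofSMulLE (fun x => z x x) (by simp) (fun a b => by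
    rw [map_add]
    exact add_le_add (hmax a _ (hz _)) (hmax b _ (hz _))) hsm
  have hS : ∀ x, S x = z x x := fun _ => rfl
  have hlow : ∀ x, ‖x‖ / 2 ≤ S x := by
    intro x
    obtain ⟨g, hg1, hg2⟩ := exists_dual_vector'' ℝ x
    simp only [RCLike.ofReal_real_eq_id, id] at hg2
    have := hmax x ((1 / 2 : ℝ) • g) (CC_of_norm d (by
      rw [norm_smul, Real.norm_of_nonneg (by norm_num)]; linarith))
    rw [ContinuousLinearMap.smul_apply, smul_eq_mul, hg2] at this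
    rw [hS]
    linarith
  refine ⟨S, hlow, fun x => hle x _ (hz x), fun x hx => ⟨z x, fun ε hε => ?_⟩⟩
  have hpos : 0 < z x x := lt_of_lt_of_le (half_pos (norm_pos_iff.2 hx)) (hlow x)
  obtain ⟨δ, hδ, h⟩ := CC_expose hdd (NormedSpace.inclusionInDoubleDual ℝ X x) (hz x)
    (fun w hw => hmax x w hw) hpos hε
  refine ⟨δ / 2, half_pos hδ, fun v hv => ?_⟩
  have h1 := hmax (x + v) _ (hz x)
  have h2 := hle v _ (hz (x + v))
  have h3 := hle v _ (CC_neg (hz x))
  rw [ContinuousLinearMap.neg_apply] at h3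
  simp only [map_add] at h1
  have h4 := h _ (hz (x + v)) (by
    simp only [NormedSpace.dual_def]
    linarith)
  have h5 : (z (x + v) - z x) v ≤ ε * ‖v‖ := (le_abs_self _).trans
    (((z (x + v) - z x).le_opNorm v).trans (mul_le_mul_of_nonneg_right h4 (norm_nonneg _)))
  rw [ContinuousLinearMap.sub_apply] at h5
  have h6 := hmax x _ (hz (x + v))
  rw [hS, hS, map_add]
  linarith

end Pool.Agent.H12.Fre
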