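import Mathlib
import Pool.Agent.H12.Fre1

/-! Extension of Frechet smooth norms from a closed subspace of a reflexive space. -/

set_option autoImplicit false

namespace Pool.Agent.H12.Fre

open Set Filter Topology Metric

variable {X : Type} [NormedAddCommGroup X] [NormedSpace ℝ X] {Y : Submodule ℝ X}

noncomputable def Th (S : Seminorm ℝ X) (N : Seminorm ℝ Y) (y : Y) (s : ℝ) : ℝ :=
  sSup ((fun e : Y => N (y + e)) '' {e | S e ≤ s})

variable {S : Seminorm ℝ X} {N : Seminorm ℝ Y} {K : ℝ}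

theorem le_Th (hK : 0 ≤ K) (hb : ∀ e : Y, N e ≤ K * S e) (y : Y) {s : ℝ} {e : Y} (he : S e ≤ s) :
    N (y + e) ≤ Th S N y s := by
  refine le_csSup ⟨N y + K * s, ?_⟩ (mem_image_of_mem (fun e : Y => N (y + e)) he)
  rintro _ ⟨v, hv, rfl⟩
  have h1 := map_add_le_add N y v
  have h2 := mul_le_mul_of_nonneg_left (show S v ≤ s from hv) hK
  linarith [hb v]

theorem Th_le {y : Y} {s t : ℝ} (hs : 0 ≤ s) (h : ∀ e : Y, S e ≤ s → N (y + e) ≤ t) :
    Th S N y s ≤ t := by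
  refine csSup_le ⟨_, mem_image_of_mem _ (show (0 : Y) ∈ {e : Y | S e ≤ s} by simpa using hs)⟩ ?_
  rintro _ ⟨v, hv, rfl⟩
  exact h v hv

theorem Th_add (hK : 0 ≤ K) (hb : ∀ e : Y, N e ≤ K * S e) (y₁ y₂ : Y) {s s₁ s₂ : ℝ} (h : 0 ≤ s)
    (h₁ : 0 ≤ s₁) (h₂ : 0 ≤ s₂) (hs : s ≤ s₁ + s₂) :
    Th S N (y₁ + y₂) s ≤ Th S N y₁ s₁ + Th S N y₂ s₂ := by
  refine Th_le h fun e he => ?_
  obtain ⟨e₁, e₂, rfl, k₁, k₂⟩ : ∃ e₁ e₂ : Y, e = e₁ + e₂ ∧ S e₁ ≤ s₁ ∧ S e₂ ≤ s₂ := by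
    rcases eq_or_lt_of_le (add_nonneg h₁ h₂) with h0 | h0
    · exact ⟨e, 0, by simp, by linarith, by simpa using h₂⟩
    · have hse : S e / (s₁ + s₂) ≤ 1 := by rw [div_le_one h0]; linarith
      refine ⟨(s₁ / (s₁ + s₂)) • e, (s₂ / (s₁ + s₂)) • e, ?_, ?_, ?_⟩
      · rw [← add_smul, ← add_div, div_self h0.ne', one_smul]
      · rw [Submodule.coe_smul, map_smul_eq_mul, Real.norm_of_nonneg (by positivity),
          div_mul_eq_mul_div, mul_div_assoc]
        exact mul_le_of_le_one_right h₁ hse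
      · rw [Submodule.coe_smul, map_smul_eq_mul, Real.norm_of_nonneg (by positivity),
          div_mul_eq_mul_div, mul_div_assoc]
        exact mul_le_of_le_one_right h₂ hse
  have e : y₁ + y₂ + (e₁ + e₂) = (y₁ + e₁) + (y₂ + e₂) := by abel
  rw [e]
  exact le_trans (map_add_le_add N _ _) (add_le_add (le_Th hK hb y₁ k₁) (le_Th hK hb y₂ k₂))

theorem Th_up (hK : 0 ≤ K) (hb : ∀ e : Y, N e ≤ K * S e) (y : Y) {s : ℝ} (hs : 0 ≤ s) :
    Th S N y s ≤ N y + K * s := by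
  refine Th_le hs fun v hv => ?_
  have h1 := map_add_le_add N y v
  have h2 := mul_le_mul_of_nonneg_left hv hK
  linarith [hb v]

theorem Th_smul (hK : 0 ≤ K) (hb : ∀ e : Y, N e ≤ K * S e) (a : ℝ) (y : Y) {s : ℝ} (hs : 0 ≤ s) :
    Th S N (a • y) (‖a‖ * s) ≤ ‖a‖ * Th S N y s := by
  rcases eq_or_ne a 0 with rfl | ha
  · have := Th_up hK hb (0 : Y) le_rfl
    simpa using this
  refine Th_le (by positivity) fun e he => ?_
  have hn : 0 < ‖a‖ := norm_pos_iff.2 ha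
  have e1 : a • y + e = a • (y + a⁻¹ • e) := by rw [smul_add, smul_inv_smul₀ ha]
  rw [e1, map_smul_eq_mul]
  refine mul_le_mul_of_nonneg_left (le_Th hK hb y ?_) hn.le
  rw [Submodule.coe_smul, map_smul_eq_mul, norm_inv, inv_mul_le_iff₀ hn]
  exact he

theorem Th_lip (hK : 0 ≤ K) (hb : ∀ e : Y, N e ≤ K * S e) (y : Y) {s s' r : ℝ} (hs : 0 ≤ s)
    (hs' : 0 ≤ s') (hr : 0 ≤ r) (h : s' ≤ s + r) : Th S N y s' ≤ Th S N y s + K * r := by
  have h1 := Th_add hK hb y 0 hs' hs hr h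
  have h2 := Th_up hK hb (0 : Y) hr
  rw [add_zero] at h1
  rw [map_zero] at h2
  linarith

/-- The joint seminorm. -/
noncomputable def GG (hK : 0 ≤ K) (hb : ∀ e : Y, N e ≤ K * S e) : Seminorm ℝ (X × Y) :=
  Seminorm.ofSMulLE (fun q => Th S N q.2 (S (q.1 - q.2)))
    (by
      apply le_antisymm
      · have := Th_up hK hb (0 : Y) le_rfl
        simpa using this
      · have := le_Th hK hb (0 : Y) (e := 0) (s := 0) (by simp)
        simpa using this)
    (fun a b => by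
      refine Th_add hK hb a.2 b.2 (apply_nonneg _ _) (apply_nonneg _ _) (apply_nonneg _ _) ?_
      have : (a + b).1 - ((a + b).2 : X) = (a.1 - a.2) + (b.1 - b.2) := by
        simp only [Prod.fst_add, Prod.snd_add, Submodule.coe_add]; abel
      rw [this]
      exact map_add_le_add S _ _)
    (fun r a => by
      have : (r • a).1 - ((r • a).2 : X) = r • (a.1 - a.2) := by
        simp only [Prod.smul_fst, Prod.smul_snd, Submodule.coe_smul, smul_sub]
      simp only [this, map_smul_eq_mul]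
      exact Th_smul hK hb r a.2 (apply_nonneg _ _))

theorem GG_apply (hK : 0 ≤ K) (hb : ∀ e : Y, N e ≤ K * S e) (x : X) (y : Y) :
    GG hK hb (x, y) = Th S N y (S (x - y)) := rfl

theorem ud_out (hK : 0 ≤ K) (hb : ∀ e : Y, N e ≤ K * S e) (p : Seminorm ℝ X)
    (hp : ∀ x y, p x ≤ GG hK hb (x, y)) {x : X} {y : Y} (hxy : GG hK hb (x, y) ≤ p x)
    (hpos : 0 < p x) {φ : X →L[ℝ] ℝ} (hφ : UD S (x - y) φ) : ∃ ψ, UD p x ψ := by
  have h0 : ∀ ε > 0, ∃ δ > 0, ∀ h : X, ‖h‖ < δ → φ h = 0 → p (x + h) ≤ p x + ε * ‖h‖ := by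
    intro ε hε
    obtain ⟨δ, hδ, h1⟩ := hφ (ε / (K + 1)) (by positivity)
    refine ⟨δ, hδ, fun h hh hz => ?_⟩
    have h2 := h1 h hh
    rw [hz, add_zero] at h2
    have h3 := Th_lip hK hb y (apply_nonneg S _) (apply_nonneg S _) (by positivity) h2
    have h4 := hp (x + h) y
    rw [GG_apply] at h4 hxy
    rw [show x - y + h = x + h - y by abel] at h3
    have h5 : K * (ε / (K + 1) * ‖h‖) ≤ ε * ‖h‖ := by
      rw [← mul_assoc]
      refine mul_le_mul_of_nonneg_right ?_ (norm_nonneg _)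
      rw [mul_div_assoc', div_le_iff₀ (by positivity)]
      nlinarith
    linarith
  have hx : φ x ≠ 0 := by
    intro hz
    have hn : 0 < ‖x‖ + 1 := by positivity
    obtain ⟨δ, hδ, h1⟩ := h0 (p x / (‖x‖ + 1)) (by positivity)
    have ht : 0 < δ / (‖x‖ + 1) := by positivity
    have h2 := h1 ((δ / (‖x‖ + 1)) • x) (by
      rw [norm_smul, Real.norm_of_nonneg ht.le, div_mul_eq_mul_div, div_lt_iff₀ hn]
      nlinarith) (by rw [map_smul, hz, smul_zero])
    rw [show x + (δ / (‖x‖ + 1)) • x = (1 + δ / (‖x‖ + 1)) • x by rw [add_smul, one_smul],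
      map_smul_eq_mul, norm_smul, Real.norm_of_nonneg ht.le,
      Real.norm_of_nonneg (by positivity)] at h2
    have h3 : p x / (‖x‖ + 1) * ‖x‖ < p x := by
      rw [div_mul_eq_mul_div, div_lt_iff₀ hn]; nlinarith
    nlinarith
  refine ⟨(p x / φ x) • φ, fun ε hε => ?_⟩
  set L := ‖φ‖ / |φ x| with hL
  have hL0 : 0 ≤ L := by positivity
  have hM : 0 < 1 + L * ‖x‖ := by positivity
  obtain ⟨δ, hδ, h1⟩ := h0 (ε / (1 + L * ‖x‖)) (by positivity)
  refine ⟨min (1 / (2 * (L + 1))) (δ / (2 * (1 + L * ‖x‖))), by positivity, fun h hh => ?_⟩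
  have hh1 : ‖h‖ < 1 / (2 * (L + 1)) := lt_of_lt_of_le hh (min_le_left _ _)
  have hh2 : ‖h‖ < δ / (2 * (1 + L * ‖x‖)) := lt_of_lt_of_le hh (min_le_right _ _)
  rw [lt_div_iff₀ (by positivity)] at hh1 hh2
  set a := φ h / φ x with ha
  have ha1 : |a| ≤ L * ‖h‖ := by
    rw [ha, abs_div, hL, div_mul_eq_mul_div]
    exact div_le_div_of_nonneg_right (φ.le_opNorm h) (abs_nonneg _)
  have ha2 : 1 / 2 ≤ 1 + a := by
    have := neg_abs_le a
    nlinarith [norm_nonneg h]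
  have ha3 : 0 < 1 + a := by linarith
  have hw : ‖h - a • x‖ ≤ (1 + L * ‖x‖) * ‖h‖ := by
    have h2 := norm_sub_le h (a • x)
    rw [norm_smul, Real.norm_eq_abs] at h2
    have h3 := mul_le_mul_of_nonneg_right ha1 (norm_nonneg x)
    nlinarith
  have hn : ‖(1 + a)⁻¹ • (h - a • x)‖ = (1 + a)⁻¹ * ‖h - a • x‖ := by
    rw [norm_smul, Real.norm_of_nonneg (by positivity)]
  have h2 := h1 ((1 + a)⁻¹ • (h - a • x)) (by
    rw [hn, inv_mul_lt_iff₀ ha3]
    nlinarith) (by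
    rw [map_smul, map_sub, map_smul, smul_eq_mul, smul_eq_mul, ha, div_mul_cancel₀ _ hx]
    simp)
  have e : x + h = (1 + a) • (x + (1 + a)⁻¹ • (h - a • x)) := by
    rw [smul_add, smul_inv_smul₀ ha3.ne', add_smul, one_smul]; abel
  rw [e, map_smul_eq_mul, Real.norm_of_nonneg ha3.le]
  have h3 := mul_le_mul_of_nonneg_left h2 ha3.le
  rw [hn] at h3
  have h4 : (1 + a) * (p x + ε / (1 + L * ‖x‖) * ((1 + a)⁻¹ * ‖h - a • x‖))
      = p x + a * p x + ε / (1 + L * ‖x‖) * ‖h - a • x‖ := by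
    field_simp
  have h5 : ε / (1 + L * ‖x‖) * ‖h - a • x‖ ≤ ε * ‖h‖ := by
    rw [div_mul_eq_mul_div, div_le_iff₀ hM]
    nlinarith
  have h6 : ((p x / φ x) • φ) h = a * p x := by
    rw [ContinuousLinearMap.smul_apply, smul_eq_mul, ha]; ring
  linarith

theorem ud_in (hK : 0 ≤ K) (hb : ∀ e : Y, N e ≤ K * S e) (p : Seminorm ℝ X)
    (hp : ∀ x y, p x ≤ GG hK hb (x, y)) (hpN : ∀ y : Y, N y ≤ p y) (hY : Nest Y)
    (hS1 : ∀ x, ‖x‖ / 2 ≤ S x) (hS2 : ∀ x, S x ≤ ‖x‖) (hS3 : ∀ x, x ≠ 0 → ∃ ψ, UD S x ψ)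
    {x : Y} {u : Y →L[ℝ] ℝ} (hu : UD N x u) : ∃ ψ, UD p x ψ := by
  have hSc : Continuous S := Seminorm.continuous_of_le (q := normSeminorm ℝ X) continuous_norm hS2
  have hcv : Convex ℝ {e : Y | S e ≤ 1} := by
    intro a ha b hb s r hs hr hsr
    have h1 := map_add_le_add S (s • (a : X)) (r • (b : X))
    rw [map_smul_eq_mul, map_smul_eq_mul, Real.norm_of_nonneg hs, Real.norm_of_nonneg hr] at h1
    have h2 := mul_le_mul_of_nonneg_left (show S a ≤ 1 from ha) hs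
    have h3 := mul_le_mul_of_nonneg_left (show S b ≤ 1 from hb) hr
    show S ((s • a + r • b : Y) : X) ≤ 1
    rw [Submodule.coe_add, Submodule.coe_smul, Submodule.coe_smul]
    linarith
  have hnb : ∀ e : Y, S e ≤ 1 → ‖e‖ ≤ 2 := fun e he => by
    have := hS1 e
    rw [Submodule.coe_norm]
    linarith
  obtain ⟨e₀, he₀, hmax⟩ := hY.exists_min (K := {e : Y | S e ≤ 1}) ⟨0, by simp⟩
    (isClosed_le (hSc.comp continuous_subtype_val) continuous_const)
    (g := fun e => -(u e)) (by fun_prop) (fun t => by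
      intro a ha b hb s r hs hr hsr
      refine ⟨hcv ha.1 hb.1 hs hr hsr, ?_⟩
      have h1 := mul_le_mul_of_nonneg_left ha.2 hs
      have h2 := mul_le_mul_of_nonneg_left hb.2 hr
      have h3 : s * t + r * t = t := by rw [← add_mul, hsr, one_mul]
      simp only [map_add, map_smul, smul_eq_mul]
      linarith)
    (fun t => ⟨2, fun y hy _ => hnb y hy⟩) (-(‖u‖ * 2)) (fun y hy => neg_le_neg
      ((le_abs_self _).trans ((u.le_opNorm y).trans
        (mul_le_mul_of_nonneg_left (hnb y hy) (norm_nonneg _)))))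
  replace he₀ : S e₀ ≤ 1 := he₀
  set μ := u e₀ with hμ
  have hμ0 : 0 ≤ μ := by
    have := hmax 0 (by simp)
    simpa using this
  have hue : ∀ e : Y, u e ≤ μ * S e := by
    intro e
    rcases eq_or_ne e 0 with rfl | he
    · simp
    have hpos : 0 < S e := lt_of_lt_of_le (half_pos (norm_pos_iff.2 (by simpa using he))) (hS1 e)
    have := hmax ((S e)⁻¹ • e) (by
      show S (((S e)⁻¹ • e : Y) : X) ≤ 1
      rw [Submodule.coe_smul, map_smul_eq_mul, Real.norm_of_nonneg (by positivity),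
        inv_mul_cancel₀ hpos.ne'])
    simp only [map_smul, smul_eq_mul, neg_le_neg_iff] at this
    rw [inv_mul_le_iff₀ hpos] at this
    linarith
  obtain ⟨ψ, hψ⟩ : ∃ ψ : X →L[ℝ] ℝ, ∀ ε > 0, ∃ δ > 0, ∀ h : X, ‖h‖ < δ →
      μ * S (e₀ + h) ≤ μ + ψ h + ε * ‖h‖ := by
    rcases eq_or_ne e₀ 0 with h0 | h0
    · have : μ = 0 := by rw [hμ, h0, map_zero]
      exact ⟨0, fun ε hε => ⟨1, one_pos, fun h _ => by rw [this]; simp; positivity⟩⟩
    obtain ⟨φ, hφ⟩ := hS3 e₀ (by simpa using h0)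
    refine ⟨μ • φ, fun ε hε => ?_⟩
    obtain ⟨δ, hδ, h1⟩ := hφ (ε / (μ + 1)) (by positivity)
    refine ⟨δ, hδ, fun h hh => ?_⟩
    have h2 := mul_le_mul_of_nonneg_left (h1 h hh) hμ0
    have h3 := mul_le_mul_of_nonneg_left he₀ hμ0
    have h5 : μ * (ε / (μ + 1) * ‖h‖) ≤ ε * ‖h‖ := by
      rw [← mul_assoc]
      refine mul_le_mul_of_nonneg_right ?_ (norm_nonneg _)
      rw [mul_div_assoc', div_le_iff₀ (by positivity)]
      nlinarith
    rw [ContinuousLinearMap.smul_apply, smul_eq_mul]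
    nlinarith
  refine ⟨ψ, fun ε hε => ?_⟩
  obtain ⟨δ₁, hδ₁, h1⟩ := hψ (ε / 2) (half_pos hε)
  set L := 2 / δ₁ with hL
  have hL0 : 0 < L := by positivity
  have hM : 0 < 2 + 4 * L := by positivity
  obtain ⟨δ₂, hδ₂, h2⟩ := hu (ε / 2 / (2 + 4 * L)) (by positivity)
  refine ⟨δ₂ / (2 + 4 * L), by positivity, fun h hh => ?_⟩
  rcases eq_or_ne h 0 with rfl | h0
  · simp
  have hn : 0 < ‖h‖ := norm_pos_iff.2 h0
  rw [lt_div_iff₀ hM] at hh
  set l := L * ‖h‖ with hl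
  have hl0 : 0 < l := by positivity
  have h3 := hp (x + h) (x - l • e₀)
  rw [GG_apply] at h3
  have e1 : (x : X) + h - ((x - l • e₀ : Y) : X) = l • ((e₀ : X) + l⁻¹ • h) := by
    rw [smul_add, smul_inv_smul₀ hl0.ne', Submodule.coe_sub, Submodule.coe_smul]; abel
  have hn2 : ‖l⁻¹ • h‖ = l⁻¹ * ‖h‖ := by rw [norm_smul, Real.norm_of_nonneg (by positivity)]
  have h4 := h1 (l⁻¹ • h) (by
    rw [hn2, inv_mul_lt_iff₀ hl0, hl, hL]
    have : 2 / δ₁ * ‖h‖ * δ₁ = 2 * ‖h‖ := by field_simp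
    linarith)
  have h5 := mul_le_mul_of_nonneg_left h4 hl0.le
  rw [hn2, map_smul, smul_eq_mul] at h5
  have h6 : l * (μ + l⁻¹ * ψ h + ε / 2 * (l⁻¹ * ‖h‖)) = l * μ + ψ h + ε / 2 * ‖h‖ := by
    field_simp
  set s := S (l • ((e₀ : X) + l⁻¹ • h)) with hs
  have hs1 : s = l * S ((e₀ : X) + l⁻¹ • h) := by
    rw [hs, map_smul_eq_mul, Real.norm_of_nonneg hl0.le]
  have hs2 : s ≤ l + ‖h‖ := by
    rw [hs, smul_add, smul_inv_smul₀ hl0.ne']
    have k1 := map_add_le_add S (l • (e₀ : X)) h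
    rw [map_smul_eq_mul, Real.norm_of_nonneg hl0.le] at k1
    have k2 := mul_le_mul_of_nonneg_left he₀ hl0.le
    linarith [hS2 h]
  rw [e1] at h3
  refine le_trans h3 (Th_le (apply_nonneg _ _) fun e he => ?_)
  have k0 : ‖e - l • e₀‖ ≤ (2 + 4 * L) * ‖h‖ := by
    have k1 := norm_sub_le e (l • e₀)
    rw [norm_smul, Real.norm_of_nonneg hl0.le] at k1
    have k2 := mul_le_mul_of_nonneg_left (hnb e₀ he₀) hl0.le
    have k3 := hS1 e
    rw [← Submodule.coe_norm] at k3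
    nlinarith
  have k4 := h2 (e - l • e₀) (by linarith)
  rw [show x - l • e₀ + e = x + (e - l • e₀) by abel]
  rw [map_sub, map_smul, smul_eq_mul] at k4
  have k5 : ε / 2 / (2 + 4 * L) * ‖e - l • e₀‖ ≤ ε / 2 * ‖h‖ := by
    rw [div_mul_eq_mul_div, div_le_iff₀ hM]
    nlinarith
  have k6 := mul_le_mul_of_nonneg_left he hμ0
  have k7 := hue e
  have k8 := hpN x
  rw [← hs, hs1] at k6
  rw [← hμ] at k4
  linarith

theorem main [TopologicalSpace.SeparableSpace X]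
    (hX : Function.Surjective (NormedSpace.inclusionInDoubleDual ℝ X))
    (Y : Submodule ℝ X) (hY : IsClosed (Y : Set X)) (N : Seminorm ℝ Y)
    (hN : ∃ c C : ℝ, 0 < c ∧ 0 < C ∧ ∀ y : Y, c * ‖y‖ ≤ N y ∧ N y ≤ C * ‖y‖)
    (hd : ∀ y : Y, y ≠ 0 → DifferentiableAt ℝ (⇑N) y) :
    ∃ M : Seminorm ℝ X,
      (∃ c C : ℝ, 0 < c ∧ 0 < C ∧ ∀ x : X, c * ‖x‖ ≤ M x ∧ M x ≤ C * ‖x‖) ∧
      (∀ x : X, x ≠ 0 → DifferentiableAt ℝ (⇑M) x) ∧
      ∀ y : Y, M (y : X) = N y := by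
  obtain ⟨S, hS1, hS2, hS3⟩ := kadec hX
  obtain ⟨c, C, hc, hC, hcC⟩ := hN
  by_cases h0 : ∀ y : Y, y = 0
  · refine ⟨S, ⟨1 / 2, 1, by norm_num, one_pos, fun x => ⟨by linarith [hS1 x],
      by linarith [hS2 x]⟩⟩, fun x hx => (hS3 x hx).elim fun ψ h => h.diff, fun y => ?_⟩
    rw [h0 y]; simp
  push Not at h0
  obtain ⟨e₁, he₁⟩ := h0
  have hK : 0 ≤ 2 * C := by positivity
  have hb : ∀ e : Y, N e ≤ 2 * C * S e := fun e => by
    have h1 := (hcC e).2
    have h2 := hS1 e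
    rw [← Submodule.coe_norm] at h2
    nlinarith
  have hYN := nestY hX Y hY
  set G := GG hK hb with hG
  have g1 : ∀ (x : X) (y : Y), c * ‖y‖ ≤ G (x, y) := fun x y => by
    have := le_Th hK hb y (e := 0) (s := S (x - y)) (by simp)
    rw [add_zero] at this
    exact le_trans (hcC y).1 this
  have g2 : ∀ (x : X) (y : Y), c * S (x - y) ≤ G (x, y) := fun x y => by
    have hpos : 0 < S e₁ := lt_of_lt_of_le (half_pos (norm_pos_iff.2 (by simpa using he₁)))
      (hS1 e₁)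
    set e : Y := (S (x - y) / S e₁) • e₁ with he
    have h1 : S e = S (x - y) := by
      rw [he, Submodule.coe_smul, map_smul_eq_mul, Real.norm_of_nonneg (by positivity),
        div_mul_cancel₀ _ hpos.ne']
    have h2 := le_Th hK hb y h1.le
    have h3 := le_Th hK hb y (e := -e) (s := S (x - y)) (by simpa using h1.le)
    have h4 := map_sub_le_add N (y + e) (y + -e)
    rw [show y + e - (y + -e) = (2 : ℝ) • e by rw [two_smul]; abel, map_smul_eq_mul,
      Real.norm_two] at h4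
    have h5 := (hcC e).1
    have h6 := mul_le_mul_of_nonneg_left (hS2 e) hc.le
    rw [← Submodule.coe_norm] at h6
    rw [hG, GG_apply, ← h1]
    rw [← h1] at h2 h3
    linarith
  have g3 : ∀ (x : X) (y : Y), G (x, y) ≤ N y + 2 * C * S (x - y) := fun x y =>
    Th_up hK hb y (apply_nonneg _ _)
  have hGc : Continuous G := by
    refine Seminorm.continuous_of_le (q := (5 * C).toNNReal • normSeminorm ℝ (X × Y)) ?_ ?_
    · exact continuous_norm.const_smul _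
    · rintro ⟨x, y⟩
      have h1 := g3 x y
      have h2 := (hcC y).2
      have h3 := hS2 (x - y)
      have h4 := norm_sub_le x y
      rw [← Submodule.coe_norm] at h4
      have h5 : ‖x‖ ≤ ‖(x, y)‖ := norm_fst_le (x, y)
      have h6 : ‖y‖ ≤ ‖(x, y)‖ := norm_snd_le (x, y)
      show G (x, y) ≤ ((5 * C).toNNReal : ℝ) * ‖(x, y)‖
      rw [Real.coe_toNNReal _ (by positivity)]
      nlinarith
  have hex : ∀ x : X, ∃ y : Y, ∀ y', G (x, y) ≤ G (x, y') := by
    intro x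
    obtain ⟨y, -, h⟩ := hYN.exists_min (K := univ) univ_nonempty isClosed_univ
      (g := fun y => G (x, y)) (by fun_prop) (fun t => by
        intro a ha b hb s r hs hr hsr
        refine ⟨mem_univ _, ?_⟩
        have h1 := mul_le_mul_of_nonneg_left ha.2 hs
        have h2 := mul_le_mul_of_nonneg_left hb.2 hr
        have h3 : s * t + r * t = t := by rw [← add_mul, hsr, one_mul]
        have h4 := map_add_le_add G (s • (x, a)) (r • (x, b))
        rw [map_smul_eq_mul, map_smul_eq_mul, Real.norm_of_nonneg hs, Real.norm_of_nonneg hr,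
          show s • (x, a) + r • (x, b) = (x, s • a + r • b) by
            rw [Prod.smul_mk, Prod.smul_mk, Prod.mk_add_mk, ← add_smul, hsr, one_smul]] at h4
        linarith)
      (fun t => ⟨t / c, fun y _ hy => by
        rw [le_div_iff₀ hc]; linarith [g1 x y]⟩) 0 (fun y _ => apply_nonneg _ _)
    exact ⟨y, fun y' => h y' (mem_univ _)⟩
  choose y₀ hy₀ using hex
  let p : Seminorm ℝ X := Seminorm.ofSMulLE (fun x => G (x, y₀ x))
    (le_antisymm ((hy₀ 0 0).trans (map_zero G).le) (apply_nonneg _ _))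
    (fun a b => (hy₀ (a + b) (y₀ a + y₀ b)).trans (map_add_le_add G (a, y₀ a) (b, y₀ b)))
    (fun r a => (hy₀ (r • a) (r • y₀ a)).trans (map_smul_eq_mul G r (a, y₀ a)).le)
  have hp : ∀ x, p x = G (x, y₀ x) := fun _ => rfl
  have hlow : ∀ x, c / 3 * ‖x‖ ≤ p x := fun x => by
    have h1 := g1 x (y₀ x)
    have h2 := g2 x (y₀ x)
    have h3 := mul_le_mul_of_nonneg_left (hS1 (x - y₀ x)) hc.le
    have h4 := norm_add_le (x - y₀ x) (y₀ x)
    rw [sub_add_cancel, ← Submodule.coe_norm] at h4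
    have h5 := mul_le_mul_of_nonneg_left h4 hc.le
    rw [hp]
    linarith
  have hpN : ∀ y : Y, N y ≤ p y := fun y => by
    have := le_Th hK hb (y₀ y) (e := y - y₀ y) (s := S (y - y₀ y)) (by simp)
    rw [add_sub_cancel] at this
    exact this
  refine ⟨p, ⟨c / 3, 2 * C, by positivity, by positivity, fun x => ⟨hlow x, ?_⟩⟩,
    fun x hx => ?_, fun y => le_antisymm ?_ (hpN y)⟩
  · have h1 := (hy₀ x 0).trans (g3 x 0)
    have h2 := mul_le_mul_of_nonneg_left (hS2 x) hK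
    simp only [map_zero, Submodule.coe_zero, sub_zero, zero_add] at h1
    rw [hp]
    linarith
  · by_cases hxY : x ∈ Y
    · obtain ⟨ψ, h⟩ := ud_in hK hb p (fun x y => hy₀ x y) hpN hYN hS1 hS2 hS3 (x := ⟨x, hxY⟩)
        (UD.of_diff (hd _ (by simpa using hx)))
      exact h.diff
    · obtain ⟨φ, hφ⟩ := hS3 (x - y₀ x) (fun h => hxY (by rw [sub_eq_zero.1 h]; exact (y₀ x).2))
      obtain ⟨ψ, h⟩ := ud_out hK hb p (fun x y => hy₀ x y) (hp x).ge
        (lt_of_lt_of_le (by have := norm_pos_iff.2 hx; positivity) (hlow x)) hφ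
      exact h.diff
  · have h1 := (hy₀ y y).trans (g3 y y)
    rw [hp]
    simpa using h1

end Pool.Agent.H12.Fre
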