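import Mathlib

/-! A smooth supremum of finitely supported weighted sums of coordinate functionals. -/

open Filter Topology Finset Asymptotics

namespace Pool.Agent.H12.GE

noncomputable def q (t : ℝ) : ℝ := max t 0 ^ 2

lemma q_deriv (t : ℝ) : HasDerivAt q (2 * max t 0) t := by
  rcases lt_trichotomy t 0 with h | rfl | h
  · rw [max_eq_right h.le, mul_zero]
    refine (hasDerivAt_const t (0 : ℝ)).congr_of_eventuallyEq ?_
    filter_upwards [gt_mem_nhds h] with s hs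
    simp [q, hs.le]
  · rw [max_self, mul_zero, hasDerivAt_iff_isLittleO_nhds_zero]
    refine IsBigO.trans_isLittleO (IsBigO.of_bound 1 (Eventually.of_forall fun s => ?_))
      (isLittleO_pow_id (𝕜 := ℝ) one_lt_two)
    rcases le_total s 0 with h | h <;> simp [q, h]
    positivity
  · rw [max_eq_left h.le]
    have := hasDerivAt_pow 2 t
    norm_num at this
    refine this.congr_of_eventuallyEq ?_
    filter_upwards [lt_mem_nhds h] with s hs
    simp [q, hs.le]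

lemma q_diff : Differentiable ℝ q := fun t => (q_deriv t).differentiableAt

lemma q_nonneg (t : ℝ) : 0 ≤ q t := sq_nonneg _

lemma q_mono : Monotone q := fun s t h => by
  unfold q; gcongr

lemma q_zero {t : ℝ} (h : t ≤ 0) : q t = 0 := by simp [q, h]

lemma le_of_q {t β : ℝ} (hβ : 0 ≤ β) (h : q t ≤ β ^ 2) : t ≤ β :=
  (le_max_left t 0).trans (abs_le_of_sq_le_sq' h hβ).2

noncomputable def ψ (δ t : ℝ) : ℝ := √(q (t - δ) + δ ^ 2) - δ

lemma ψ_diff {δ : ℝ} (hδ : 0 < δ) : Differentiable ℝ (ψ δ) := by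
  refine (Differentiable.sqrt ((q_diff.comp (differentiable_id.sub_const δ)).add_const _)
    fun t => ?_).sub_const _
  have := q_nonneg (t - δ)
  positivity

lemma ψ_zero {δ t : ℝ} (hδ : 0 < δ) (h : t ≤ δ) : ψ δ t = 0 := by
  simp [ψ, q_zero (sub_nonpos.2 h), hδ.le]

lemma ψ_nonneg {δ : ℝ} (t : ℝ) : 0 ≤ ψ δ t :=
  sub_nonneg.2 (Real.le_sqrt_of_sq_le (by linarith [q_nonneg (t - δ)]))

lemma ψ_le {δ : ℝ} (hδ : 0 < δ) (t : ℝ) : ψ δ t ≤ max t 0 := by
  have h1 : max (t - δ) 0 ≤ max t 0 := max_le_max (by linarith) le_rfl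
  have h2 := le_max_right (t - δ) 0
  rw [ψ, sub_le_iff_le_add, Real.sqrt_le_left (by positivity), q]
  nlinarith

lemma ψ_ge {δ : ℝ} (hδ : 0 < δ) (t : ℝ) : max t 0 - 2 * δ ≤ ψ δ t := by
  have h1 : max (t - δ) 0 ≤ √(q (t - δ) + δ ^ 2) :=
    Real.le_sqrt_of_sq_le (by rw [q]; nlinarith)
  have h2 : max t 0 ≤ max (t - δ) 0 + δ :=
    max_le (by linarith [le_max_left (t - δ) 0]) (by linarith [le_max_right (t - δ) 0])
  rw [ψ]; linarith

lemma ψ_lip (δ s t : ℝ) : ψ δ s ≤ ψ δ t + |s - t| := by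
  have h1 : max (s - δ) 0 ≤ max (t - δ) 0 + |s - t| :=
    max_le (by linarith [le_max_left (t - δ) 0, le_abs_self (s - t)])
      (by linarith [le_max_right (t - δ) 0, abs_nonneg (s - t)])
  have h2 : max (t - δ) 0 ≤ √(q (t - δ) + δ ^ 2) := Real.le_sqrt_of_sq_le (by rw [q]; nlinarith)
  have h3 := Real.sq_sqrt (show 0 ≤ q (t - δ) + δ ^ 2 by linarith [q_nonneg (t - δ), sq_nonneg δ])
  have h4 : √(q (s - δ) + δ ^ 2) ≤ √(q (t - δ) + δ ^ 2) + |s - t| := by
    rw [Real.sqrt_le_left (by positivity)]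
    have h5 : q (s - δ) ≤ (max (t - δ) 0 + |s - t|) ^ 2 := by
      unfold q; gcongr
    have h6 : q (t - δ) = max (t - δ) 0 ^ 2 := rfl
    nlinarith [mul_le_mul_of_nonneg_right h2 (abs_nonneg (s - t))]
  rw [ψ, ψ]; linarith

variable {X : Type} [NormedAddCommGroup X] [NormedSpace ℝ X]

lemma implicit {Φ : X × ℝ → ℝ} {F : X → ℝ} {x : X} {b C : ℝ} (hF : LipschitzWith 1 F)
    (h1 : DifferentiableAt ℝ Φ (x, F x)) (h2 : HasDerivAt (fun s => Φ (x, s)) b (F x))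
    (hb : b ≠ 0) (h3 : ∀ᶠ y in 𝓝 x, Φ (y, F y) = C) : DifferentiableAt ℝ F x := by
  obtain ⟨L, hL⟩ := h1
  have h4 : L (0, 1) = b := by
    have := hL.comp_hasDerivAt (F x) ((hasDerivAt_const (F x) x).prodMk (hasDerivAt_id (F x)))
    exact this.unique h2
  have h5 : Tendsto (fun y => (y, F y)) (𝓝 x) (𝓝 (x, F x)) :=
    (continuous_id.prodMk hF.continuous).continuousAt
  have h0 : ((fun x' => x' - (x, F x)) ∘ fun y => (y, F y)) =O[𝓝 x] fun y => y - x :=
    IsBigO.of_bound 1 (Eventually.of_forall fun y => by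
      have := hF.dist_le_mul y x
      simp only [dist_eq_norm, NNReal.coe_one, one_mul] at this
      simpa [Prod.norm_def] using this)
  have h6 := (hL.isLittleO.comp_tendsto h5).trans_isBigO h0
  refine ⟨-b⁻¹ • L.comp (ContinuousLinearMap.inl ℝ X ℝ), ?_⟩
  rw [hasFDerivAt_iff_isLittleO]
  refine (h6.const_mul_left (-b⁻¹)).congr' ?_ EventuallyEq.rfl
  filter_upwards [h3] with y hy
  have h7 : L ((y, F y) - (x, F x)) = L (y - x, 0) + (F y - F x) * b := by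
    rw [← h4, ← smul_eq_mul, ← map_smul, ← map_add]
    simp
  simp only [Function.comp_apply, hy, h3.self_of_nhds, h7]
  simp
  field_simp
  ring

variable {Γ : Type} (F : Γ → X →L[ℝ] ℝ) (a : Γ → ℝ) (δ : ℝ)

def Adm (τ : Finset Γ) : Prop := ∀ z, ∑ γ ∈ τ, a γ * |F γ z| ≤ ‖z‖

noncomputable def g (τ : Finset Γ) (x : X) : ℝ := ∑ γ ∈ τ, (a γ * ψ δ (F γ x) - δ)

def SS (x : X) : Set ℝ :=
  {s | ∀ T : Finset (Finset Γ), (∀ τ ∈ T, Adm F a τ) → ∑ τ ∈ T, q (g F a δ τ x - s) ≤ (δ / 2) ^ 2}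

noncomputable def M (x : X) : ℝ := sInf (SS F a δ x)

variable {F a δ}

lemma Adm.mono (ha : ∀ γ, 0 ≤ a γ) {τ σ : Finset Γ} (h : Adm F a τ) (hs : σ ⊆ τ) : Adm F a σ :=
  fun z => (sum_le_sum_of_subset_of_nonneg hs fun γ _ _ => mul_nonneg (ha γ) (abs_nonneg _)).trans
    (h z)

lemma adm_empty : Adm F a ∅ := fun z => by simp

lemma SS_ge (hδ : 0 < δ) {x : X} {s : ℝ} (hs : s ∈ SS F a δ x) {τ : Finset Γ} (h : Adm F a τ) :
    g F a δ τ x - δ / 2 ≤ s := by
  have := hs {τ} (by simpa using h)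
  rw [sum_singleton] at this
  linarith [le_of_q (by positivity) this]

lemma SS_bdd (hδ : 0 < δ) (x : X) : BddBelow (SS F a δ x) := ⟨_, fun _ hs => SS_ge hδ hs adm_empty⟩

lemma mem_SS {x : X} {s : ℝ} (h : ∀ τ, Adm F a τ → g F a δ τ x ≤ s) : s ∈ SS F a δ x :=
  fun T hT => by
    rw [sum_eq_zero fun τ hτ => q_zero (sub_nonpos.2 (h τ (hT τ hτ)))]
    positivity

lemma norm_mem (ha : ∀ γ, 0 ≤ a γ) (hδ : 0 < δ) (x : X) : ‖x‖ ∈ SS F a δ x :=
  mem_SS fun τ h => le_trans (sum_le_sum fun γ _ => by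
    have h1 := (ψ_le hδ (F γ x)).trans (max_le (le_abs_self _) (abs_nonneg _))
    linarith [mul_le_mul_of_nonneg_left h1 (ha γ)]) (h x)

lemma M_le (hδ : 0 < δ) {x : X} {s : ℝ} (h : s ∈ SS F a δ x) : M F a δ x ≤ s :=
  csInf_le (SS_bdd hδ x) h

lemma le_M (ha : ∀ γ, 0 ≤ a γ) (hδ : 0 < δ) (x : X) {τ : Finset Γ} (h : Adm F a τ) :
    g F a δ τ x - δ / 2 ≤ M F a δ x :=
  le_csInf ⟨_, norm_mem ha hδ x⟩ fun _ hs => SS_ge hδ hs h

lemma M_lip (ha : ∀ γ, 0 ≤ a γ) (hδ : 0 < δ) : LipschitzWith 1 (M F a δ) := by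
  refine LipschitzWith.of_le_add fun x y => ?_
  rw [← sub_le_iff_le_add]
  refine le_csInf ⟨_, norm_mem ha hδ y⟩ fun s hs => ?_
  rw [sub_le_iff_le_add]
  refine M_le hδ fun T hT => le_trans (sum_le_sum fun τ hτ => q_mono ?_) (hs T hT)
  have h1 := hT τ hτ (x - y)
  have h2 : g F a δ τ x ≤ g F a δ τ y + ∑ γ ∈ τ, a γ * |F γ (x - y)| := by
    rw [g, g, ← sum_add_distrib]
    refine sum_le_sum fun γ _ => ?_
    rw [map_sub]
    nlinarith [mul_le_mul_of_nonneg_left (ψ_lip δ (F γ x) (F γ y)) (ha γ)]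
  rw [dist_eq_norm]
  linarith

lemma M_diff (ha : ∀ γ, 0 ≤ a γ) (hδ : 0 < δ) {x : X} (B : Finset Γ)
    (hB : ∀ᶠ y in 𝓝 x, ∀ γ ∉ B, F γ y ≤ δ) : DifferentiableAt ℝ (M F a δ) x := by
  classical
  let T := B.powerset.filter (Adm F a)
  let Φ : X × ℝ → ℝ := fun p => ∑ τ ∈ T, q (g F a δ τ p.1 - p.2)
  have hg : ∀ τ, Differentiable ℝ (g F a δ τ) := fun τ =>
    Differentiable.fun_sum fun γ _ =>
      (((ψ_diff hδ).comp (F γ).differentiable).const_mul _).sub_const _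
  have hΦ : Differentiable ℝ Φ := Differentiable.fun_sum fun τ _ =>
    q_diff.comp (((hg τ).comp differentiable_fst).sub differentiable_snd)
  have h3 : ∀ᶠ y in 𝓝 x, Φ (y, M F a δ y) = (δ / 2) ^ 2 := by
    filter_upwards [hB] with y hy
    have hc : Continuous fun s => Φ (y, s) := hΦ.continuous.comp (by fun_prop)
    have e : SS F a δ y = {s | Φ (y, s) ≤ (δ / 2) ^ 2} := by
      ext s
      refine ⟨fun hs => hs T fun τ hτ => (mem_filter.1 hτ).2, fun hs T' hT' => le_trans ?_ hs⟩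
      rw [← sum_filter_ne_zero]
      refine sum_le_sum_of_subset_of_nonneg (fun τ hτ => ?_) fun _ _ _ => q_nonneg _
      obtain ⟨hτ, h⟩ := mem_filter.1 hτ
      refine mem_filter.2 ⟨mem_powerset.2 ?_, hT' τ hτ⟩
      by_contra h1
      obtain ⟨γ, h2, h3⟩ := not_subset.1 h1
      have h4 : τ ∩ B ∈ T := mem_filter.2 ⟨mem_powerset.2 inter_subset_right,
        (hT' τ hτ).mono ha inter_subset_left⟩
      have h5 := le_of_q (by positivity) ((single_le_sum (f := fun τ => q (g F a δ τ y - s))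
        (fun _ _ => q_nonneg _) h4).trans hs)
      have h6 : g F a δ τ y = g F a δ (τ ∩ B) y + ∑ γ ∈ τ \ B, (a γ * ψ δ (F γ y) - δ) :=
        (sum_inter_add_sum_sdiff _ _ _).symm
      have h7 : ∑ γ ∈ τ \ B, (a γ * ψ δ (F γ y) - δ) ≤ -δ := by
        rw [sum_congr rfl fun γ hγ => by rw [ψ_zero hδ (hy γ (mem_sdiff.1 hγ).2)]]
        have : (1 : ℝ) ≤ #(τ \ B) := by exact_mod_cast card_pos.2 ⟨γ, mem_sdiff.2 ⟨h2, h3⟩⟩
        simp
        nlinarith
      exact h (q_zero (by linarith))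
    have h1 : M F a δ y ∈ SS F a δ y :=
      (e ▸ isClosed_le hc continuous_const : IsClosed (SS F a δ y)).csInf_mem
        ⟨_, norm_mem ha hδ y⟩ (SS_bdd hδ y)
    rw [e] at h1
    refine le_antisymm h1 (not_lt.1 fun h2 => ?_)
    obtain ⟨s, h3, h4⟩ := (((hc.tendsto _).eventually (gt_mem_nhds h2)).filter_mono
      (nhdsWithin_le_nhds (s := Set.Iio (M F a δ y)))).and self_mem_nhdsWithin |>.exists
    exact absurd (M_le hδ (e ▸ h3.le : s ∈ SS F a δ y)) (not_le.2 h4)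
  refine implicit (b := ∑ τ ∈ T, 2 * max (g F a δ τ x - M F a δ x) 0 * (-1)) (M_lip ha hδ)
    (hΦ _) ?_ (fun h => ?_) h3
  · exact HasDerivAt.fun_sum fun τ _ =>
      (q_deriv _).comp (M F a δ x) ((hasDerivAt_id' (M F a δ x)).const_sub (g F a δ τ x))
  · have h1 := (sum_eq_zero_iff_of_nonpos fun τ _ => by
      linarith [le_max_right (g F a δ τ x - M F a δ x) 0]).1 h
    have h2 := h3.self_of_nhds
    simp only [Φ] at h2
    rw [sum_eq_zero fun τ hτ => by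
      have := h1 τ hτ
      rw [q, show max (g F a δ τ x - M F a δ x) 0 = 0 by linarith]; simp] at h2
    exact absurd h2 (by positivity)

end Pool.Agent.H12.GE
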