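import Pool.Agent.H12.GE1

/-! Bi-Lipschitz maps into `ℓ∞` with differentiable coordinates, for spaces with a long
unconditional basis of size at most continuum. -/

open Filter Topology Finset
open scoped ENNReal

namespace Pool.Agent.H12.GE

variable {X : Type} [NormedAddCommGroup X] [NormedSpace ℝ X] {Γ : Type}

noncomputable def dl (k : ℕ) : ℝ := 1 / ((k : ℝ) + 1)

lemma dl_pos (k : ℕ) : 0 < dl k := Nat.one_div_pos_of_nat

lemma dl_le (k : ℕ) : dl k ≤ 1 := by
  rw [dl, div_le_one (by positivity)]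
  linarith [k.cast_nonneg (α := ℝ)]

noncomputable def wt (ι : Γ → ℝ) (n k : ℕ) (α : ℤ →₀ ℕ) (γ : Γ) : ℝ := α ⌊n * ι γ⌋ * dl k

lemma wt_nonneg (ι : Γ → ℝ) (n k : ℕ) (α : ℤ →₀ ℕ) (γ : Γ) : 0 ≤ wt ι n k α γ :=
  mul_nonneg (Nat.cast_nonneg _) (dl_pos k).le

lemma separate {ι : Γ → ℝ} (hι : Function.Injective ι) (B : Finset Γ) :
    ∃ n : ℕ, ∀ γ ∈ B, ∀ β ∈ B, ⌊n * ι γ⌋ = ⌊n * ι β⌋ → γ = β := by
  refine Eventually.exists (f := atTop) ((eventually_all_finset B).2 fun γ _ =>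
    (eventually_all_finset B).2 fun β _ => ?_)
  by_cases h : γ = β
  · simp [h]
  · have h1 : 0 < |ι γ - ι β| := abs_pos.2 (sub_ne_zero.2 (hι.ne h))
    filter_upwards [(tendsto_natCast_atTop_atTop.atTop_mul_const h1).eventually_ge_atTop 1]
      with n hn h2
    have := Int.abs_sub_lt_one_of_floor_eq_floor h2
    rw [← mul_sub, abs_mul, Nat.abs_cast] at this
    linarith

lemma core {ι : Γ → ℝ} (hι : Function.Injective ι) {G : Γ → X →L[ℝ] ℝ} {x y : X} {R : ℝ}
    (hy : Tendsto (fun γ => G γ y) cofinite (𝓝 0))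
    (hR : ∀ n k α, M G (wt ι n k α) (dl k) x - M G (wt ι n k α) (dl k) y ≤ R)
    {b : Γ → ℝ} (hb : ∀ γ, 0 ≤ b γ) {τ : Finset Γ} (hτ : Adm G b τ) :
    ∑ γ ∈ τ, b γ * (max (G γ x) 0 - max (G γ y) 0) ≤ R := by
  classical
  have key : ∀ k, ∑ γ ∈ τ, b γ * (max (G γ x) 0 - max (G γ y) 0) ≤ R + dl k *
      (∑ γ ∈ τ, (|max (G γ x) 0 - max (G γ y) 0| + 2 * b γ + 1) + 1 / 2) := fun k => by
    have hδ := dl_pos k
    have hf := eventually_cofinite.1 (hy.eventually (gt_mem_nhds hδ))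
    obtain ⟨n, hn⟩ := separate hι (τ ∪ hf.toFinset)
    obtain ⟨α, hα⟩ : ∃ α : ℤ →₀ ℕ, α = ∑ γ ∈ τ, Finsupp.single ⌊n * ι γ⌋ ⌊b γ / dl k⌋₊ := ⟨_, rfl⟩
    have h1 : ∀ γ ∈ τ, wt ι n k α γ = ⌊b γ / dl k⌋₊ * dl k := fun γ hγ => by
      rw [wt, hα, Finsupp.finsetSum_apply, sum_eq_single_of_mem γ hγ fun β hβ h =>
        Finsupp.single_eq_of_ne fun h' => h (hn γ (mem_union_left _ hγ) β (mem_union_left _ hβ)
          h').symm, Finsupp.single_eq_same]
    have h2 : ∀ γ ∈ τ, wt ι n k α γ ≤ b γ := fun γ hγ => by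
      rw [h1 γ hγ, ← le_div_iff₀ hδ]
      exact Nat.floor_le (div_nonneg (hb γ) hδ.le)
    have h3 : ∀ γ ∈ τ, b γ - dl k ≤ wt ι n k α γ := fun γ hγ => by
      have := (Nat.lt_floor_add_one (b γ / dl k)).le
      rw [div_le_iff₀ hδ] at this
      rw [h1 γ hγ]; linarith
    have h4 : ∀ γ ∉ τ, wt ι n k α γ * ψ (dl k) (G γ y) = 0 := fun γ hγ => by
      by_cases h : G γ y < dl k
      · rw [ψ_zero hδ h.le, mul_zero]
      · rw [wt, hα, Finsupp.finsetSum_apply, sum_eq_zero fun β hβ =>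
          Finsupp.single_eq_of_ne fun h' => hγ (hn γ (mem_union_right _ (by simpa using h)) β
            (mem_union_left _ hβ) h' ▸ hβ)]
        simp
    have ha := wt_nonneg ι n k α
    have h5 := le_M ha hδ x (τ := τ) fun z => le_trans (sum_le_sum fun γ hγ =>
      mul_le_mul_of_nonneg_right (h2 γ hγ) (abs_nonneg _)) (hτ z)
    have h6 : M G (wt ι n k α) (dl k) y ≤ ∑ γ ∈ τ, wt ι n k α γ * ψ (dl k) (G γ y) := by
      refine M_le hδ (mem_SS fun σ _ => ?_)
      refine (sum_le_sum fun γ _ => sub_le_self _ hδ.le).trans ?_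
      rw [← sum_filter_ne_zero]
      refine sum_le_sum_of_subset_of_nonneg (fun γ hγ => ?_)
        fun γ _ _ => mul_nonneg (ha γ) (ψ_nonneg _)
      by_contra h
      exact (mem_filter.1 hγ).2 (h4 γ h)
    have h7 : ∑ γ ∈ τ, b γ * (max (G γ x) 0 - max (G γ y) 0) ≤
        ∑ γ ∈ τ, ((wt ι n k α γ * ψ (dl k) (G γ x) - dl k) - wt ι n k α γ * ψ (dl k) (G γ y) +
          dl k * (|max (G γ x) 0 - max (G γ y) 0| + 2 * b γ + 1)) := sum_le_sum fun γ hγ => by
      have e1 := mul_le_mul_of_nonneg_left (ψ_ge hδ (G γ x)) (ha γ)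
      have e2 := mul_le_mul_of_nonneg_left (ψ_le hδ (G γ y)) (ha γ)
      have e3 := mul_le_mul_of_nonneg_left (le_abs_self (max (G γ x) 0 - max (G γ y) 0))
        (sub_nonneg.2 (h2 γ hγ))
      have e4 := mul_le_mul_of_nonneg_right (show b γ - wt ι n k α γ ≤ dl k by linarith [h3 γ hγ])
        (abs_nonneg (max (G γ x) 0 - max (G γ y) 0))
      have e5 := mul_le_mul_of_nonneg_left (h2 γ hγ) hδ.le
      nlinarith
    rw [sum_add_distrib, sum_sub_distrib, ← mul_sum] at h7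
    have h8 := hR n k α
    rw [g] at h5
    linarith
  have := (tendsto_one_div_add_atTop_nhds_zero_nat (𝕜 := ℝ)).mul_const
    (∑ γ ∈ τ, (|max (G γ x) 0 - max (G γ y) 0| + 2 * b γ + 1) + 1 / 2)
  have h1 := this.const_add R
  rw [zero_mul, add_zero] at h1
  exact ge_of_tendsto' h1 key

noncomputable def sF (F : Γ → X →L[ℝ] ℝ) (s : Bool) (γ : Γ) : X →L[ℝ] ℝ :=
  if s then F γ else -F γ

lemma sF_abs (F : Γ → X →L[ℝ] ℝ) (s : Bool) (γ : Γ) (z : X) : |sF F s γ z| = |F γ z| := by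
  cases s <;> simp [sF]

theorem embed {ι : Γ → ℝ} (hι : Function.Injective ι) {F : Γ → X →L[ℝ] ℝ} {u : Γ → X} {K : ℝ}
    (hK : 0 < K) (hu : ∀ γ, ‖u γ‖ = 1) (hP : ∀ (τ : Finset Γ) z, ‖∑ γ ∈ τ, F γ z • u γ‖ ≤ K * ‖z‖)
    (hs : ∀ z, HasSum (fun γ => F γ z • u γ) z) :
    ∃ (φ : X → lp (fun _ : ℕ => ℝ) ∞) (K L : NNReal), LipschitzWith K φ ∧ AntilipschitzWith L φ ∧
      ∀ (j : ℕ) (x : X), DifferentiableAt ℝ (fun y => φ y j) x := by
  classical
  have h1 : ∀ γ z, |F γ z| ≤ K * ‖z‖ := fun γ z => by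
    simpa [norm_smul, hu] using hP {γ} z
  have h2 : ∀ s z, Tendsto (fun γ => sF F s γ z) cofinite (𝓝 0) := fun s z => by
    rw [tendsto_zero_iff_abs_tendsto_zero]
    have := (hs z).summable.tendsto_cofinite_zero.norm
    simp only [norm_smul, hu, mul_one, norm_zero, Real.norm_eq_abs] at this
    exact this.congr fun γ => (sF_abs F s γ z).symm
  obtain ⟨e, he⟩ := exists_surjective_nat (ℕ × ℕ × (ℤ →₀ ℕ) × Bool)
  let c : ℕ × ℕ × (ℤ →₀ ℕ) × Bool → X → ℝ := fun p =>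
    M (sF F p.2.2.2) (wt ι p.1 p.2.1 p.2.2.1) (dl p.2.1)
  have hc : ∀ p, LipschitzWith 1 (c p) := fun p => M_lip (wt_nonneg _ _ _ _) (dl_pos _)
  let φ : X → lp (fun _ : ℕ => ℝ) ∞ := fun x => ⟨fun j => c (e j) x, memℓp_infty ⟨‖x‖ + 1, by
    rintro _ ⟨j, rfl⟩
    have h3 := M_le (dl_pos (e j).2.1) (norm_mem (F := sF F (e j).2.2.2)
      (wt_nonneg ι (e j).1 (e j).2.1 (e j).2.2.1) (dl_pos _) x)
    have h4 := le_M (F := sF F (e j).2.2.2) (wt_nonneg ι (e j).1 (e j).2.1 (e j).2.2.1)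
      (dl_pos (e j).2.1) x adm_empty
    have h5 := dl_le (e j).2.1
    have h6 := norm_nonneg x
    simp only [g, sum_empty] at h4
    exact abs_le.2 ⟨by simp only [c]; linarith, by simp only [c]; linarith⟩⟩⟩
  refine ⟨φ, 1, ⟨8 * K, by positivity⟩, LipschitzWith.of_dist_le_mul fun x y => ?_,
    AntilipschitzWith.of_le_mul_dist fun x y => ?_, fun j x => ?_⟩
  · rw [dist_eq_norm]
    exact lp.norm_le_of_forall_le' _ fun j => (hc (e j)).dist_le_mul x y
  · obtain ⟨R, hR⟩ : ∃ R, R = dist (φ x) (φ y) := ⟨_, rfl⟩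
    have h3 : ∀ p, |c p x - c p y| ≤ R := fun p => by
      obtain ⟨j, rfl⟩ := he p
      rw [hR, dist_eq_norm]
      exact lp.norm_apply_le_norm ENNReal.top_ne_zero (φ x - φ y) j
    obtain ⟨f, hf1, hf2⟩ := exists_dual_vector'' ℝ (x - y)
    let b : Γ → ℝ := fun γ => |f (u γ)| / (2 * K)
    have hb : ∀ γ, 0 ≤ b γ := fun γ => by positivity
    have h4 : ∀ (τ : Finset Γ) z, |∑ γ ∈ τ, F γ z * f (u γ)| ≤ K * ‖z‖ := fun τ z => by
      have := f.le_of_opNorm_le_of_le hf1 (hP τ z)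
      simpa using this
    have h5 : ∀ s τ, Adm (sF F s) b τ := fun s τ z => by
      simp only [sF_abs, b, div_mul_eq_mul_div, ← sum_div, ← abs_mul]
      rw [div_le_iff₀ (by positivity), ← sum_filter_add_sum_filter_not τ
        fun γ => 0 ≤ F γ z * f (u γ)]
      have e1 := (le_abs_self _).trans (h4 (τ.filter fun γ => 0 ≤ F γ z * f (u γ)) z)
      have e2 := (neg_le_abs _).trans (h4 (τ.filter fun γ => ¬ 0 ≤ F γ z * f (u γ)) z)
      rw [← sum_neg_distrib] at e2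
      rw [sum_congr rfl fun γ hγ => by rw [mul_comm, abs_of_nonneg (mem_filter.1 hγ).2],
        sum_congr (s₁ := τ.filter fun γ => ¬ 0 ≤ F γ z * f (u γ)) rfl fun γ hγ => by
          rw [mul_comm, abs_of_neg (not_le.1 (mem_filter.1 hγ).2)]]
      linarith
    have h6 : ∀ s τ, ∑ γ ∈ τ, b γ * |max (sF F s γ x) 0 - max (sF F s γ y) 0| ≤ 2 * R :=
      fun s τ => by
      rw [← sum_filter_add_sum_filter_not τ fun γ => max (sF F s γ y) 0 ≤ max (sF F s γ x) 0]
      have e1 := core hι (h2 s y) (fun n k α => (le_abs_self _).trans (h3 (n, k, α, s))) hb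
        (h5 s (τ.filter fun γ => max (sF F s γ y) 0 ≤ max (sF F s γ x) 0))
      have e2 := core hι (h2 s x) (fun n k α => (le_abs_self _).trans
        ((abs_sub_comm _ _).trans_le (h3 (n, k, α, s)))) hb
        (h5 s (τ.filter fun γ => ¬ max (sF F s γ y) 0 ≤ max (sF F s γ x) 0))
      rw [sum_congr rfl fun γ hγ => by rw [abs_of_nonneg (sub_nonneg.2 (mem_filter.1 hγ).2)],
        sum_congr (s₁ := τ.filter fun γ => ¬ max (sF F s γ y) 0 ≤ max (sF F s γ x) 0) rfl
          fun γ hγ => by rw [abs_of_neg (sub_neg.2 (not_le.1 (mem_filter.1 hγ).2)), neg_sub]]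
      linarith
    have h7 : ∀ τ : Finset Γ, f (∑ γ ∈ τ, F γ (x - y) • u γ) ≤ 8 * K * R := fun τ => by
      have e1 : f (∑ γ ∈ τ, F γ (x - y) • u γ) ≤ ∑ γ ∈ τ, 2 * K *
          (b γ * |max (sF F true γ x) 0 - max (sF F true γ y) 0| +
            b γ * |max (sF F false γ x) 0 - max (sF F false γ y) 0|) := by
        rw [map_sum]
        refine sum_le_sum fun γ _ => ?_
        have e2 : |F γ (x - y)| ≤ |max (sF F true γ x) 0 - max (sF F true γ y) 0| +
            |max (sF F false γ x) 0 - max (sF F false γ y) 0| := by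
          refine le_trans (le_of_eq ?_) (abs_sub _ _)
          have e3 := max_zero_sub_max_neg_zero_eq_self (F γ x)
          have e4 := max_zero_sub_max_neg_zero_eq_self (F γ y)
          simp only [sF, if_true, map_sub, Bool.false_eq_true, if_false,
            _root_.neg_apply]
          congr 1
          linarith
        have e3 : 2 * K * b γ = |f (u γ)| := by simp only [b]; field_simp
        rw [← mul_add, ← mul_assoc, e3, map_smul, smul_eq_mul, mul_comm]
        exact ((le_abs_self _).trans_eq (abs_mul _ _)).trans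
          (mul_le_mul_of_nonneg_left e2 (abs_nonneg _))
      rw [← mul_sum, sum_add_distrib] at e1
      nlinarith [h6 true τ, h6 false τ]
    have h8 := le_of_tendsto' ((f.continuous.tendsto _).comp (hs (x - y))) h7
    rw [hf2] at h8
    rw [dist_eq_norm, ← hR]
    exact h8
  · have hδ := dl_pos (e j).2.1
    have hf := eventually_cofinite.1 ((h2 (e j).2.2.2 x).eventually (gt_mem_nhds (half_pos hδ)))
    refine M_diff (wt_nonneg _ _ _ _) hδ hf.toFinset ?_
    filter_upwards [Metric.ball_mem_nhds x (show 0 < dl (e j).2.1 / 2 / K by positivity)]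
      with y hy γ hγ
    have e1 : sF F (e j).2.2.2 γ x < dl (e j).2.1 / 2 := by simpa using hγ
    have e2 := (le_abs_self _).trans ((sF_abs F (e j).2.2.2 γ (y - x)).trans_le (h1 γ (y - x)))
    rw [mem_ball_iff_norm, lt_div_iff₀ hK] at hy
    rw [map_sub] at e2
    linarith

theorem main [CompleteSpace X] {D : Set X} (hD : Dense D) (hc : Cardinal.mk D = Cardinal.continuum)
    (e : Γ → X) (f : Γ → X →L[ℝ] ℝ) (h1 : ∀ i, f i (e i) = 1) (h2 : ∀ i j, i ≠ j → f i (e j) = 0)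
    (hs : ∀ x, HasSum (fun γ => f γ x • e γ) x) :
    ∃ (φ : X → lp (fun _ : ℕ => ℝ) ∞) (K L : NNReal), LipschitzWith K φ ∧ AntilipschitzWith L φ ∧
      ∀ (j : ℕ) (x : X), DifferentiableAt ℝ (fun y => φ y j) x := by
  classical
  have he : ∀ γ, ‖e γ‖ ≠ 0 := fun γ h => by
    have := h1 γ
    rw [norm_eq_zero.1 h, map_zero] at this
    exact zero_ne_one this
  obtain ⟨C, hC⟩ := banach_steinhaus (g := fun τ : Finset Γ => ∑ γ ∈ τ, (f γ).smulRight (e γ))
    fun x => by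
      obtain ⟨s, h⟩ := summable_iff_vanishing_norm.1 (hs x).summable 1 one_pos
      refine ⟨∑ γ ∈ s, ‖f γ x • e γ‖ + 1, fun τ => ?_⟩
      simp only [_root_.sum_apply, ContinuousLinearMap.smulRight_apply]
      rw [← sum_inter_add_sum_sdiff τ s]
      exact (norm_add_le _ _).trans (add_le_add ((norm_sum_le _ _).trans
        (sum_le_sum_of_subset_of_nonneg inter_subset_right fun _ _ _ => norm_nonneg _))
        (h _ sdiff_disjoint).le)
  have hC0 : 0 ≤ C := (norm_nonneg _).trans (hC ∅)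
  let F : Γ → X →L[ℝ] ℝ := fun γ => ‖e γ‖ • f γ
  let u : Γ → X := fun γ => ‖e γ‖⁻¹ • e γ
  have hFu : ∀ γ z, F γ z • u γ = f γ z • e γ := fun γ z => by
    simp only [F, u, _root_.smul_apply, smul_smul, smul_eq_mul]
    congr 1
    field_simp [he γ]
  have hu : ∀ γ, ‖u γ‖ = 1 := fun γ => by simp [u, norm_smul, he γ]
  have hP : ∀ (τ : Finset Γ) z, ‖∑ γ ∈ τ, F γ z • u γ‖ ≤ (C + 1) * ‖z‖ := fun τ z => by
    have := (∑ γ ∈ τ, (f γ).smulRight (e γ)).le_of_opNorm_le (hC τ) z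
    simp only [_root_.sum_apply, ContinuousLinearMap.smulRight_apply] at this
    simp only [hFu]
    nlinarith [norm_nonneg z]
  choose d hd1 hd2 using fun γ => Metric.dense_iff.1 hD (u γ) (1 / 2 / (C + 1)) (by positivity)
  have hd : Function.Injective fun γ => (⟨d γ, hd2 γ⟩ : D) := fun γ β h => by
    by_contra h3
    have h4 : d γ = d β := congrArg Subtype.val h
    have h5 := hP {γ} (u γ - u β)
    have h6 : F γ (u γ - u β) = 1 := by simp [F, u, h1, h2 γ β h3, he γ]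
    have h7 := dist_triangle_left (u γ) (u β) (d γ)
    have h8 := hd1 γ
    have h9 := hd1 β
    rw [← h4] at h9
    rw [Metric.mem_ball, lt_div_iff₀ (by positivity)] at h8 h9
    rw [sum_singleton, h6, one_smul, hu, ← dist_eq_norm] at h5
    nlinarith
  obtain ⟨j⟩ := Cardinal.eq.1 (hc.trans Cardinal.mk_real.symm)
  exact embed (j.injective.comp hd) (by positivity) hu hP fun z => by simpa only [hFu] using hs z

end Pool.Agent.H12.GE
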