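import Mathlib

/-! Correspondences, distortion and the Gromov-Hausdorff distance through correspondences. -/

open Set Metric

namespace Pool.Agent.H12.GHCorr

/-- both projections of `R` are onto -/
def IsCorr {X Y : Type} (R : Set (X × Y)) : Prop :=
  (∀ x, ∃ y, (x, y) ∈ R) ∧ ∀ y, ∃ x, (x, y) ∈ R

/-- the distortion of a relation -/
noncomputable def dis {X Y : Type} [MetricSpace X] [MetricSpace Y] (R : Set (X × Y)) : ℝ :=
  sSup {t | ∃ p ∈ R, ∃ q ∈ R, t = |dist p.1 q.1 - dist p.2 q.2|}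

/-- half the infimum of the distortions of all correspondences -/
noncomputable def dGH (X Y : Type) [MetricSpace X] [MetricSpace Y] : ℝ :=
  (1 / 2) * sInf {t | ∃ R : Set (X × Y), IsCorr R ∧ t = dis R}

/-- an optimal correspondence -/
def Optimal {X Y : Type} [MetricSpace X] [MetricSpace Y] (R : Set (X × Y)) : Prop :=
  IsCorr R ∧ (1 / 2) * dis R = dGH X Y

/-- the image of `R` under the projection to the coordinates `i`, `j` -/
def proj {X : Fin 3 → Type} (R : Set (∀ i, X i)) (i j : Fin 3) : Set (X i × X j) :=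
  (fun x => (x i, x j)) '' R

section
variable {X Y : Type} [MetricSpace X] [MetricSpace Y]

lemma dis_nonneg (R : Set (X × Y)) : 0 ≤ dis R := by
  apply Real.sSup_nonneg
  rintro _ ⟨p, _, q, _, rfl⟩
  exact abs_nonneg _

lemma dis_le {R : Set (X × Y)} {c : ℝ} (hc : 0 ≤ c)
    (h : ∀ p ∈ R, ∀ q ∈ R, |dist p.1 q.1 - dist p.2 q.2| ≤ c) : dis R ≤ c := by
  apply Real.sSup_le _ hc
  rintro _ ⟨p, hp, q, hq, rfl⟩
  exact h p hp q hq

lemma le_dis [Finite X] [Finite Y] {R : Set (X × Y)} {p q : X × Y} (hp : p ∈ R) (hq : q ∈ R) :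
    |dist p.1 q.1 - dist p.2 q.2| ≤ dis R := by
  apply le_csSup
  · apply Set.Finite.bddAbove
    apply (Set.finite_range
      (fun z : (X × Y) × (X × Y) => |dist z.1.1 z.2.1 - dist z.1.2 z.2.2|)).subset
    rintro _ ⟨p, _, q, _, rfl⟩
    exact ⟨(p, q), rfl⟩
  · exact ⟨p, hp, q, hq, rfl⟩

lemma dGH_le {R : Set (X × Y)} (hR : IsCorr R) : dGH X Y ≤ (1 / 2) * dis R := by
  have : sInf {t | ∃ R : Set (X × Y), IsCorr R ∧ t = dis R} ≤ dis R := by
    apply csInf_le
    · refine ⟨0, ?_⟩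
      rintro _ ⟨S, _, rfl⟩
      exact dis_nonneg S
    · exact ⟨R, hR, rfl⟩
  unfold dGH
  linarith

lemma optimal_of {R : Set (X × Y)} (hR : IsCorr R)
    (h : ∀ S : Set (X × Y), IsCorr S → dis R ≤ dis S) : Optimal R := by
  refine ⟨hR, le_antisymm ?_ (dGH_le hR)⟩
  have : dis R ≤ sInf {t | ∃ R : Set (X × Y), IsCorr R ∧ t = dis R} := by
    refine le_csInf ⟨dis R, R, hR, rfl⟩ ?_
    rintro _ ⟨S, hS, rfl⟩
    exact h S hS
  unfold dGH
  linarith

lemma Optimal.le {R S : Set (X × Y)} (hR : Optimal R) (hS : IsCorr S) : dis R ≤ dis S := by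
  have := dGH_le hS
  have := hR.2
  linarith

end

end Pool.Agent.H12.GHCorr
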