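import Mathlib

/-! Torus averages of analytic functions on Reinhardt domains. -/

open MeasureTheory Filter Topology Set Metric Function UnitAddTorus
open scoped ComplexConjugate

namespace Pool.Agent.H12.HK

variable {n : ℕ}

abbrev Tn (n : ℕ) : Type := UnitAddTorus (Fin n)

noncomputable def mT (n : ℕ) : Measure (Tn n) := Measure.pi fun _ => AddCircle.haarAddCircle

instance : IsProbabilityMeasure (mT n) := by unfold mT; infer_instance
instance : (mT n).IsAddLeftInvariant := by unfold mT; infer_instance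

noncomputable def rot (θ : Tn n) (z : Fin n → ℂ) : Fin n → ℂ := fun j => fourier 1 (θ j) * z j

noncomputable def mon (γ : Fin n → ℤ) (z : Fin n → ℂ) : ℂ := ∏ j, z j ^ γ j

def Star (n : ℕ) : Set (Fin n → ℂ) := {z | ∀ j, z j ≠ 0}

def Inv (S : Set (Fin n → ℂ)) : Prop := ∀ θ, ∀ z ∈ S, rot θ z ∈ S

lemma f1_add (a b : UnitAddCircle) : fourier 1 (a + b) = fourier 1 a * fourier 1 b := by
  simp [fourier_one, AddCircle.toCircle_add]

lemma f1_norm (a : UnitAddCircle) : ‖fourier 1 a‖ = 1 := Circle.norm_coe _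

lemma f1_zpow (a : UnitAddCircle) (k : ℤ) : fourier 1 a ^ k = fourier k a := by
  rw [fourier_one, fourier_apply, AddCircle.toCircle_zsmul, Circle.coe_zpow]

lemma rot_rot (a b : Tn n) (z : Fin n → ℂ) : rot a (rot b z) = rot (a + b) z := by
  funext j; simp only [rot, Pi.add_apply, f1_add, mul_assoc]

lemma rot_zero (z : Fin n → ℂ) : rot 0 z = z := by funext j; simp [rot]

lemma rot_norm (θ : Tn n) (z : Fin n → ℂ) (j : Fin n) : ‖rot θ z j‖ = ‖z j‖ := by
  rw [rot, norm_mul, f1_norm, one_mul]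

lemma rot_dist (θ : Tn n) (z w : Fin n → ℂ) : dist (rot θ z) (rot θ w) ≤ dist z w :=
  (dist_pi_le_iff dist_nonneg).2 fun j => by
    rw [dist_eq_norm, rot, rot, ← mul_sub, norm_mul, f1_norm, one_mul, ← dist_eq_norm]
    exact dist_le_pi_dist z w j

lemma rot_cont : Continuous fun p : Tn n × (Fin n → ℂ) => rot p.1 p.2 :=
  continuous_pi fun j => by unfold rot; fun_prop

lemma mon_rot (γ : Fin n → ℤ) (θ : Tn n) (z : Fin n → ℂ) :
    mon γ (rot θ z) = mFourier γ θ * mon γ z := by
  simp only [mon, rot, mul_zpow, f1_zpow, Finset.prod_mul_distrib]; rfl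

lemma mF_norm (γ : Fin n → ℤ) (θ : Tn n) : ‖mFourier γ θ‖ = 1 := by
  change ‖∏ j, fourier (γ j) (θ j)‖ = 1
  rw [norm_prod]; exact Finset.prod_eq_one fun j _ => Circle.norm_coe _

lemma mF_add (γ : Fin n → ℤ) (a b : Tn n) : mFourier γ (a + b) = mFourier γ a * mFourier γ b := by
  have h := mon_rot γ (a + b) 1
  rw [← rot_rot, mon_rot, mon_rot] at h
  simpa [mon] using h.symm

lemma mon_add (α β : Fin n → ℤ) {z : Fin n → ℂ} (hz : z ∈ Star n) :
    mon (α + β) z = mon α z * mon β z := by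
  simp only [mon, Pi.add_apply, zpow_add₀ (hz _), Finset.prod_mul_distrib]

lemma mon_ne (α : Fin n → ℤ) {z : Fin n → ℂ} (hz : z ∈ Star n) : mon α z ≠ 0 :=
  Finset.prod_ne_zero_iff.2 fun j _ => zpow_ne_zero _ (hz j)

lemma mon_update (γ : Fin n → ℤ) (y : Fin n → ℂ) (j : Fin n) (s : ℂ) :
    mon γ (update y j s) = s ^ γ j * ∏ i ∈ Finset.univ.erase j, y i ^ γ i := by
  rw [mon, ← Finset.mul_prod_erase _ _ (Finset.mem_univ j), update_self]
  congr 1
  exact Finset.prod_congr rfl fun i hi => by rw [update_of_ne (Finset.ne_of_mem_erase hi)]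

lemma mon_an (γ : Fin n → ℤ) {z : Fin n → ℂ} (h : ∀ j, γ j < 0 → z j ≠ 0) :
    AnalyticAt ℂ (mon γ) z := by
  refine Finset.analyticAt_fun_prod _ fun j _ => ?_
  have h1 : AnalyticAt ℂ (fun z : Fin n → ℂ => z j) z :=
    (ContinuousLinearMap.proj (R := ℂ) (φ := fun _ : Fin n => ℂ) j).analyticAt z
  rcases le_or_gt 0 (γ j) with hj | hj
  · exact h1.fun_zpow_nonneg hj
  · exact h1.fun_zpow (h j hj)

lemma mon_cont (γ : Fin n → ℤ) : ContinuousOn (mon γ) (Star n) := fun _ hz =>
  (mon_an γ fun j _ => hz j).continuousAt.continuousWithinAt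

lemma star_open : IsOpen (Star n) := by
  rw [Star, setOf_forall]
  exact isOpen_iInter_of_finite fun j => isOpen_ne_fun (continuous_apply j) continuous_const

lemma star_ae : ∀ᵐ z : Fin n → ℂ, z ∈ Star n :=
  ae_all_iff.2 fun j => Measure.ae_eval_ne (fun _ : Fin n => (volume : Measure ℂ)) j 0

lemma star_dense {S : Set (Fin n → ℂ)} {z : Fin n → ℂ} (h : S ∈ 𝓝 z) : ∃ w ∈ S, w ∈ Star n := by
  by_contra hn
  push Not at hn
  exact (Measure.measure_pos_of_mem_nhds volume h).ne' (measure_mono_null hn star_ae)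

lemma rot_mp (θ : Tn n) : MeasurePreserving (rot θ) :=
  volume_preserving_pi (f := fun j (s : ℂ) => fourier 1 (θ j) * s) fun j => by
    have := (rotation (AddCircle.toCircle (θ j))).measurePreserving
    simpa only [fourier_one] using! this

lemma int_rot {S : Set (Fin n → ℂ)} (hS : Inv S) (θ : Tn n) (g : (Fin n → ℂ) → ℂ) :
    ∫ z in S, g (rot θ z) = ∫ z in S, g z := by
  have me : ∀ θ : Tn n, Measurable (rot θ) := fun θ => (rot_mp θ).measurable
  let e : (Fin n → ℂ) ≃ᵐ (Fin n → ℂ) :=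
    ⟨⟨rot θ, rot (-θ), fun z => by rw [rot_rot, neg_add_cancel, rot_zero],
      fun z => by rw [rot_rot, add_neg_cancel, rot_zero]⟩, me θ, me (-θ)⟩
  have h := (rot_mp θ).setIntegral_preimage_emb e.measurableEmbedding g S
  rwa [show rot θ ⁻¹' S = S from Set.ext fun z => ⟨fun hz => by
    simpa only [rot_rot, neg_add_cancel, rot_zero] using hS (-θ) _ hz, hS θ z⟩] at h

noncomputable def U (u : (Fin n → ℂ) → ℂ) (γ : Fin n → ℤ) (z : Fin n → ℂ) : ℂ :=
  ∫ θ, mFourier (-γ) θ * u (rot θ z) ∂mT n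

lemma U_rot (u : (Fin n → ℂ) → ℂ) (γ : Fin n → ℤ) (a : Tn n) (z : Fin n → ℂ) :
    U u γ (rot a z) = mFourier γ a * U u γ z := by
  rw [U, U, ← integral_add_left_eq_self (fun θ => mFourier (-γ) θ * u (rot θ z)) a,
    ← integral_const_mul]
  refine integral_congr_ae (ae_of_all _ fun θ => ?_)
  have : mFourier γ a * mFourier (-γ) a = 1 := by rw [← mFourier_add, add_neg_cancel, mFourier_zero]; rfl
  simp only [rot_rot, mF_add, add_comm θ a, ← mul_assoc, this, one_mul]

variable {Ω : Set (Fin n → ℂ)} {u : (Fin n → ℂ) → ℂ}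

lemma U_diff (hI : Inv Ω) (hu : AnalyticOnNhd ℂ u Ω) (γ : Fin n → ℤ) (y : Fin n → ℂ) (j : Fin n)
    {D : Set ℂ} (hD : IsOpen D) (hy : ∀ s ∈ D, update y j s ∈ Ω) :
    DifferentiableOn ℂ (fun s => U u γ (update y j s)) D := by
  intro s0 hs0
  obtain ⟨ε, hε, hε'⟩ := nhds_basis_closedBall.mem_iff.1 (hD.mem_nhds hs0)
  have c1 : Continuous fun p : ℂ × Tn n => rot p.2 (update y j p.1) :=
    rot_cont.comp (continuous_snd.prodMk (continuous_const.update j continuous_fst))
  have c2 : Continuous fun θ : Tn n => rot θ (Pi.single j 1) :=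
    rot_cont.comp (continuous_id.prodMk continuous_const)
  have c3 : ContinuousOn (fun p : ℂ × Tn n => mFourier (-γ) p.2 *
      fderiv ℂ u (rot p.2 (update y j p.1)) (rot p.2 (Pi.single j 1))) (closedBall s0 ε ×ˢ univ) :=
    ((mFourier (-γ)).continuous.comp continuous_snd).continuousOn.mul
      ((hu.fderiv.continuousOn.comp c1.continuousOn fun p hp => hI _ _ (hy _ (hε' hp.1))).clm_apply
        (c2.comp continuous_snd).continuousOn)
  obtain ⟨C, hC⟩ := ((isCompact_closedBall s0 ε).prod isCompact_univ).exists_bound_of_continuousOn c3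
  have c4 : ∀ s ∈ D, Continuous fun θ : Tn n => mFourier (-γ) θ * u (rot θ (update y j s)) :=
    fun s hs => (mFourier (-γ)).continuous.mul (hu.continuousOn.comp_continuous
      (c1.comp (continuous_const.prodMk continuous_id)) fun θ => hI _ _ (hy s hs))
  refine (hasDerivAt_integral_of_dominated_loc_of_deriv_le (μ := mT n) (bound := fun _ => C)
    (F := fun s θ => mFourier (-γ) θ * u (rot θ (update y j s)))
    (F' := fun s θ => mFourier (-γ) θ * fderiv ℂ u (rot θ (update y j s)) (rot θ (Pi.single j 1)))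
    (closedBall_mem_nhds s0 hε)
    (mem_of_superset (hD.mem_nhds hs0) fun s hs => (c4 s hs).aestronglyMeasurable)
    ((c4 s0 hs0).integrable_of_hasCompactSupport (HasCompactSupport.of_compactSpace _))
    (c3.comp_continuous (continuous_const.prodMk continuous_id)
      fun θ => ⟨mem_closedBall_self hε.le, trivial⟩).aestronglyMeasurable
    (ae_of_all _ fun θ s hs => hC (s, θ) ⟨hs, trivial⟩) (integrable_const C)
    (ae_of_all _ fun θ s hs => ?_)).2.differentiableAt.differentiableWithinAt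
  refine ((hu _ (hI θ _ (hy s (hε' hs)))).differentiableAt.hasFDerivAt.comp_hasDerivAt s
    (hasDerivAt_pi.2 fun i => ?_)).const_mul _
  exact ((hasDerivAt_pi.1 (hasDerivAt_update y j s)) i).const_mul _

lemma U_line (hI : Inv Ω) (hu : AnalyticOnNhd ℂ u Ω) (γ : Fin n → ℤ) (y : Fin n → ℂ) (j : Fin n)
    {a : ℂ} {r : ℝ} (hy : ∀ s ∈ ball a r, update y j s ∈ Ω) {s s0 : ℂ} (hs : s ∈ ball a r)
    (hs0 : s0 ∈ ball a r) (h : s ≠ 0) (h0 : s0 ≠ 0) :
    U u γ (update y j s) * s0 ^ γ j = U u γ (update y j s0) * s ^ γ j := by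
  set φ := fun s => U u γ (update y j s) with hφ
  have an : AnalyticOnNhd ℂ φ (ball a r) :=
    (U_diff hI hu γ y j isOpen_ball hy).analyticOnNhd isOpen_ball
  obtain ⟨p, q, hpq⟩ : ∃ p q : ℕ, γ j = p - q := ⟨(γ j).toNat, (-γ j).toNat, by omega⟩
  have key : ∀ x : ℂ, x ≠ 0 → (φ x * s0 ^ γ j = φ s0 * x ^ γ j ↔
      φ x * x ^ q * s0 ^ p - φ s0 * s0 ^ q * x ^ p = 0) := fun x hx => by
    rw [hpq, zpow_sub₀ h0, zpow_sub₀ hx, zpow_natCast, zpow_natCast, zpow_natCast, zpow_natCast,
      ← mul_div_assoc, ← mul_div_assoc, div_eq_div_iff (pow_ne_zero _ h0) (pow_ne_zero _ hx),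
      sub_eq_zero]
    constructor <;> intro h <;> linear_combination h
  have an2 : AnalyticOnNhd ℂ (fun x => φ x * x ^ q * s0 ^ p - φ s0 * s0 ^ q * x ^ p) (ball a r) :=
    fun x hx => by have := an x hx; fun_prop
  refine (key s h).2 (an2.eqOn_zero_of_preconnected_of_frequently_eq_zero
    (convex_ball a r).isPreconnected hs0 ?_ hs)
  have e : ∀ t : ℝ, fourier 1 (t : UnitAddCircle) = Complex.exp (2 * Real.pi * Complex.I * t) :=
    fun t => by rw [fourier_coe_apply]; simp
  have hd : HasDerivAt (fun t : ℝ => fourier 1 (t : UnitAddCircle) * s0)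
      (2 * Real.pi * Complex.I * s0) 0 := by
    simp only [e]
    have := ((Complex.ofRealCLM.hasDerivAt (x := (0 : ℝ))).const_mul
      (2 * Real.pi * Complex.I)).cexp.mul_const s0
    simpa using this
  have hT := hd.tendsto_nhdsNE (by simp [h0, Real.pi_ne_zero])
  simp only [QuotientAddGroup.mk_zero, fourier_eval_zero, one_mul] at hT
  refine hT.frequently (Frequently.of_forall fun t => (key _ (mul_ne_zero
    (by rw [e]; exact Complex.exp_ne_zero _) h0)).1 ?_)
  have h1 : update y j (fourier 1 (t : UnitAddCircle) * s0) =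
      rot (Pi.single j (t : UnitAddCircle)) (update y j s0) := by
    funext i
    by_cases hi : i = j
    · subst hi; simp [rot]
    · simp [rot, hi]
  have h2 : mFourier γ (Pi.single j (t : UnitAddCircle) : Tn n) = fourier 1 (t : UnitAddCircle) ^ γ j := by
    change ∏ i, fourier (γ i) ((Pi.single j (t : UnitAddCircle) : Tn n) i) = _
    rw [Finset.prod_eq_single j (fun i _ hi => by simp [hi]) (by simp), Pi.single_eq_same, f1_zpow]
  simp only [hφ, h1, U_rot, h2, mul_zpow]
  ring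

lemma U_ball (hI : Inv Ω) (hu : AnalyticOnNhd ℂ u Ω) (γ : Fin n → ℤ) {x : Fin n → ℂ} {r : ℝ}
    (hr : 0 < r) (hb : ball x r ⊆ Ω) {z w : Fin n → ℂ} (hz : z ∈ ball x r) (hw : w ∈ ball x r)
    (hz' : z ∈ Star n) (hw' : w ∈ Star n) : U u γ w / mon γ w = U u γ z / mon γ z := by
  classical
  rw [ball_pi _ hr] at hz hw hb
  have : ∀ S : Finset (Fin n), U u γ (S.piecewise w z) / mon γ (S.piecewise w z) =
      U u γ z / mon γ z := fun S => by
    induction S using Finset.induction_on with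
    | empty => simp
    | insert j S hj ih =>
      set y := S.piecewise w z with hy
      have hyb : ∀ i, y i ∈ ball (x i) r ∧ y i ≠ 0 := fun i => by
        rw [hy, Finset.piecewise]; split_ifs
        exacts [⟨hw i trivial, hw' i⟩, ⟨hz i trivial, hz' i⟩]
      have h1 := U_line hI hu γ y j (a := x j) (r := r) (fun s hs => hb fun i _ => by
        by_cases hi : i = j
        · subst hi; simpa using hs
        · simpa [hi] using (hyb i).1) (hw j trivial) (hyb j).1 (hw' j) (hyb j).2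
      rw [Finset.piecewise_insert, ← ih, ← hy]
      conv_rhs => rw [← update_eq_self j y]
      rw [mon_update, mon_update, ← div_div, ← div_div,
        (div_eq_div_iff (zpow_ne_zero _ (hw' j)) (zpow_ne_zero _ (hyb j).2)).2 h1]
  simpa using this Finset.univ

lemma U_mon (ho : IsOpen Ω) (hc : IsPreconnected Ω) (hI : Inv Ω) (hu : AnalyticOnNhd ℂ u Ω)
    (γ : Fin n → ℤ) : ∃ c, ∀ z ∈ Ω, z ∈ Star n → U u γ z = c * mon γ z := by
  rcases Ω.eq_empty_or_nonempty with rfl | ⟨x0, hx0⟩
  · simp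
  obtain ⟨w0, hw0, hw0'⟩ := star_dense (ho.mem_nhds hx0)
  set F := fun z => U u γ z / mon γ z with hF
  have loc : ∀ x ∈ Ω, ∃ c, ∀ᶠ z in 𝓝 x, z ∈ Star n → F z = c := fun x hx => by
    obtain ⟨r, hr, hb⟩ := Metric.isOpen_iff.1 ho x hx
    obtain ⟨w, hw, hw'⟩ := star_dense (ball_mem_nhds x hr)
    exact ⟨F w, mem_of_superset (ball_mem_nhds x hr) fun z hz hz' =>
      U_ball hI hu γ hr hb hw hz hw' hz'⟩
  have := hc.subset_left_of_subset_union (u := interior {z | z ∈ Star n → F z = F w0})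
    (v := interior {z | z ∈ Star n → F z ≠ F w0}) isOpen_interior isOpen_interior
    (Set.disjoint_left.2 fun x h1 h2 => by
      obtain ⟨w, hw, hw'⟩ := star_dense (inter_mem (mem_interior_iff_mem_nhds.1 h1)
        (mem_interior_iff_mem_nhds.1 h2))
      exact hw.2 hw' (hw.1 hw'))
    (fun x hx => by
      obtain ⟨c, hc⟩ := loc x hx
      by_cases h : c = F w0
      · exact Or.inl (mem_interior_iff_mem_nhds.2 (h ▸ hc))
      · exact Or.inr (mem_interior_iff_mem_nhds.2 (hc.mono fun z hz hz' => by rwa [hz hz'])))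
    (by
      obtain ⟨c, hc⟩ := loc w0 hw0
      exact ⟨w0, hw0, mem_interior_iff_mem_nhds.2 ((hc.self_of_nhds hw0').symm ▸ hc)⟩)
  exact ⟨F w0, fun z hz hz' => (div_eq_iff (mon_ne γ hz')).1 (interior_subset (this hz) hz')⟩

lemma pairing (hI : Inv Ω) (hu : AnalyticOnNhd ℂ u Ω) {γ : Fin n → ℤ} {c : ℂ}
    (hc : ∀ z ∈ Ω, z ∈ Star n → U u γ z = c * mon γ z) {K : Set (Fin n → ℂ)} (hK : IsCompact K)
    (hKI : Inv K) (hKΩ : K ⊆ Ω) (hKs : K ⊆ Star n) {ρ : (Fin n → ℂ) → ℂ} (hρ : ContinuousOn ρ K)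
    (hρI : ∀ θ z, ρ (rot θ z) = ρ z) :
    ∫ z in K, conj (mon γ z) * ρ z * u z = c * ∫ z in K, conj (mon γ z) * ρ z * mon γ z := by
  set g := fun z => conj (mon γ z) * ρ z * u z with hg
  have gc : ContinuousOn g K := ((Complex.continuous_conj.comp_continuousOn
    ((mon_cont γ).mono hKs)).mul hρ).mul (hu.continuousOn.mono hKΩ)
  have hi : Integrable (uncurry fun (θ : Tn n) z => g (rot θ z)) ((mT n).prod (volume.restrict K)) := by
    rw [← Measure.restrict_univ (μ := mT n), Measure.prod_restrict]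
    exact (gc.comp rot_cont.continuousOn fun p hp => hKI _ _ hp.2).integrableOn_compact
      (isCompact_univ.prod hK)
  have h1 := integral_integral_swap hi
  simp only [int_rot hKI _ g, integral_const, probReal_univ, one_smul] at h1
  rw [h1, ← integral_const_mul]
  refine setIntegral_congr_fun hK.measurableSet fun z hz => ?_
  have h2 := hc z (hKΩ hz) (hKs hz)
  simp only [hg, mon_rot, hρI, map_mul, ← mFourier_neg]
  rw [show c * (conj (mon γ z) * ρ z * mon γ z) = conj (mon γ z) * ρ z * (c * mon γ z) by ring, ← h2,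
    U, ← integral_const_mul]
  exact integral_congr_ae (ae_of_all _ fun θ => by ring)

lemma const_of (hI : Inv Ω) (hu : AnalyticOnNhd ℂ u Ω) {z : Fin n → ℂ} (hz : z ∈ Ω)
    (h : ∀ γ, γ ≠ 0 → U u γ z = 0) : u z = U u 0 z := by
  let f : C(Tn n, ℂ) := ⟨fun θ => u (rot θ z), hu.continuousOn.comp_continuous
    (rot_cont.comp (continuous_id.prodMk continuous_const)) fun θ => hI _ _ hz⟩
  have e : ∀ γ, mFourierCoeff f γ = U u γ z := fun γ => rfl
  have h1 := hasSum_mFourier_series_apply_of_summable (f := f)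
    (hasSum_single 0 fun γ hγ => by rw [e, h γ hγ]).summable 0
  have h2 := hasSum_single (f := fun i => mFourierCoeff f i • mFourier i (0 : Tn n)) 0
    fun γ hγ => by rw [e, h γ hγ, zero_smul]
  have h3 := h1.unique h2
  rw [e, mFourier_zero] at h3
  simpa [f, rot_zero] using h3

end Pool.Agent.H12.HK
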