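import Mathlib

/-! Two abstract lemmas: Hilbert-Schmidt sums and moment lines. -/

open Filter Topology Finset
open scoped InnerProductSpace ENNReal

namespace Pool.Agent.H12.HK

lemma par {E ι : Type*} [NormedAddCommGroup E] [InnerProductSpace ℂ E] (b : HilbertBasis ι ℂ E)
    (x : E) : ∑' j, ENNReal.ofReal (‖⟪b j, x⟫_ℂ‖ ^ 2) = ENNReal.ofReal (‖x‖ ^ 2) := by
  have h := Complex.reCLM.hasSum (b.hasSum_inner_mul_inner x x)
  have e : ∀ j, Complex.reCLM (⟪x, b j⟫_ℂ * ⟪b j, x⟫_ℂ) = ‖⟪b j, x⟫_ℂ‖ ^ 2 := fun j => by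
    rw [← inner_conj_symm x (b j), Complex.conj_mul', Complex.reCLM_apply]; norm_cast
  have e2 : Complex.reCLM ⟪x, x⟫_ℂ = ‖x‖ ^ 2 := inner_self_eq_norm_sq (𝕜 := ℂ) x
  simp only [e, e2] at h
  rw [← ENNReal.ofReal_tsum_of_nonneg (fun _ => by positivity) h.summable, h.tsum_eq]

lemma hs_bound {E F ι κ : Type*} [NormedAddCommGroup E] [InnerProductSpace ℂ E]
    [NormedAddCommGroup F] [InnerProductSpace ℂ F] [CompleteSpace F] (b : HilbertBasis ι ℂ E)
    (T : E →L[ℂ] F) (hT : Summable fun k => ‖T (b k)‖ ^ 2) {e : κ → E} (he : Orthonormal ℂ e) :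
    Summable fun i => ‖T (e i)‖ ^ 2 := by
  have : CompleteSpace E := b.repr.toIsometryEquiv.completeSpace
  obtain ⟨w, c, -⟩ := exists_hilbertBasis ℂ F
  refine summable_of_sum_le (c := ∑' k, ‖T (b k)‖ ^ 2) (fun _ => by positivity) fun s => ?_
  rw [← ENNReal.ofReal_le_ofReal_iff (tsum_nonneg fun _ => by positivity),
    ENNReal.ofReal_tsum_of_nonneg (fun _ => by positivity) hT,
    ENNReal.ofReal_sum_of_nonneg fun _ _ => by positivity]
  simp only [← par c]
  rw [← Summable.tsum_finsetSum fun _ _ => ENNReal.summable, ENNReal.tsum_comm]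
  refine ENNReal.tsum_le_tsum fun j => ?_
  have e1 : ∀ x, ‖⟪c j, T x⟫_ℂ‖ = ‖⟪x, T.adjoint (c j)⟫_ℂ‖ := fun x => by
    rw [ContinuousLinearMap.adjoint_inner_right, norm_inner_symm]
  simp only [e1]
  rw [par b, ← ENNReal.ofReal_sum_of_nonneg fun _ _ => by positivity]
  exact ENNReal.ofReal_le_ofReal (he.sum_inner_products_le _)

lemma geo {p q ε A : ℝ} (hp : 0 < p) (hpq : p < q) (hε : 0 < ε) (h : ∀ k : ℕ, ε * q ^ k ≤ A * p ^ k) :
    False := by
  have h1 := tendsto_pow_atTop_atTop_of_one_lt ((one_lt_div hp).2 hpq)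
  obtain ⟨k, hk⟩ := (h1.eventually_gt_atTop (A / ε)).exists
  rw [div_pow, div_lt_div_iff₀ hε (by positivity)] at hk
  linarith [h k]

lemma line (P : ℤ → Prop) (a τ : ℤ → ℝ) (m M σ : ℝ) (hm : 0 < m) (ha : ∀ k, P k → 0 < a k)
    (p0 : P 0) (p1 : P (-1))
    (F1 : ∀ k, P k → P (k - 1) → P (k + 1) ∧ a (k + 1) / a k ≤ a k / a (k - 1) + τ k)
    (F2 : ∀ k, P k → ¬ P (k - 1) → P (k + 1) → a (k + 1) / a k ≤ τ k)
    (G1 : ∃ ε : ℝ, 0 < ε ∧ ∀ k : ℕ, P k → ε * M ^ k ≤ a k)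
    (G2 : ∃ ε : ℝ, 0 < ε ∧ ∀ k : ℕ, P (-k) → ε * m⁻¹ ^ k ≤ a (-k))
    (hσ : ∀ s : Finset ℤ, ∑ k ∈ s, τ k ≤ σ) (hτ : ∀ k, 0 ≤ τ k) : M - m ≤ σ := by
  classical
  by_contra hn
  push Not at hn
  set η := (M - m - σ) / 2 with hη
  have hη0 : 0 < η := by linarith
  have up : ∀ k : ℕ, P k ∧ P (k - 1) := fun k => by
    induction k with
    | zero => exact ⟨p0, by simpa using p1⟩
    | succ k ih => push_cast; exact ⟨(F1 k ih.1 ih.2).1, by simpa using ih.1⟩
  have up' : ∀ k : ℤ, 0 ≤ k → P k := fun k hk => by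
    obtain ⟨j, rfl⟩ := Int.eq_ofNat_of_zero_le hk; exact (up j).1
  obtain ⟨k0, hk0, hP, hr⟩ : ∃ k0 : ℤ, k0 ≤ 0 ∧ (∀ k, k0 ≤ k → P k) ∧
      a (k0 + 1) / a k0 ≤ m + η + τ k0 := by
    by_cases hall : ∀ k, P k
    · by_contra hc
      push Not at hc
      obtain ⟨ε, hε, hG⟩ := G2
      have h1 : ∀ k : ℕ, a (-k) ≤ a 0 * (m + η)⁻¹ ^ k := fun k => by
        induction k with
        | zero => simp
        | succ k ih =>
          have h2 := hc (-(k + 1 : ℕ)) (by omega) fun j _ => hall j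
          rw [lt_div_iff₀ (ha _ (hall _)), show -((k + 1 : ℕ) : ℤ) + 1 = -k by push_cast; ring] at h2
          have h3 := mul_nonneg (hτ (-(k + 1 : ℕ))) (ha _ (hall (-(k + 1 : ℕ)))).le
          rw [pow_succ, ← mul_assoc, le_mul_inv_iff₀ (by linarith)]
          nlinarith
      exact geo (p := (m + η)⁻¹) (q := m⁻¹) (by positivity) ((inv_lt_inv₀ (by linarith) hm).2
        (by linarith)) hε fun k => (hG k (hall _)).trans (h1 k)
    · push Not at hall
      obtain ⟨k1, h1, h2⟩ := Int.exists_greatest_of_bdd (P := fun k => ¬ P k)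
        ⟨0, fun k hk => by by_contra h; exact hk (up' k (by omega))⟩ hall
      have h3 : ∀ k, k1 + 1 ≤ k → P k := fun k hk => by
        by_contra h; have := h2 k h; omega
      refine ⟨k1 + 1, by by_contra h; exact h1 (up' k1 (by omega)), h3, ?_⟩
      have := F2 (k1 + 1) (h3 _ le_rfl) (by simpa using h1) (h3 _ (by omega))
      linarith
  have h4 : ∀ k, k0 ≤ k → a (k + 1) / a k ≤ m + η + ∑ i ∈ Icc k0 k, τ i := fun k hk => by
    induction k, hk using Int.le_induction with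
    | base => simpa using hr
    | succ k hk ih =>
      have := (F1 (k + 1) (hP _ (by omega)) (hP _ (by omega))).2
      rw [← insert_Icc_right_eq_Icc_add_one (by omega), sum_insert (by simp)]
      rw [add_sub_cancel_right] at this
      linarith
  obtain ⟨ε, hε, hG⟩ := G1
  have hσ0 : 0 ≤ σ := by simpa using hσ ∅
  have h5 : ∀ k : ℕ, a k ≤ a 0 * (M - η) ^ k := fun k => by
    induction k with
    | zero => simp
    | succ k ih =>
      have h6 := (h4 k (by omega)).trans (add_le_add_right (hσ _) _)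
      rw [div_le_iff₀ (ha _ (up k).1), show m + η + σ = M - η by linarith] at h6
      push_cast
      rw [pow_succ, ← mul_assoc]
      nlinarith
  exact geo (p := M - η) (q := M) (by linarith) (by linarith) hε fun k => (hG k (up k).1).trans (h5 k)

end Pool.Agent.H12.HK
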