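import Pool.Agent.H12.HK1
import Pool.Agent.H12.HK2

/-! Moments of monomials on Reinhardt domains. -/

open MeasureTheory Filter Topology Set Metric Function UnitAddTorus
open scoped ComplexConjugate InnerProductSpace

namespace Pool.Agent.H12.HK

variable {n : ℕ} {Ω : Set (Fin n → ℂ)}

noncomputable def q (α : Fin n → ℤ) (z : Fin n → ℂ) : ℝ := ‖mon α z‖ ^ 2

lemma q_nonneg (α : Fin n → ℤ) (z : Fin n → ℂ) : 0 ≤ q α z := sq_nonneg _
lemma q_pos (α : Fin n → ℤ) {z : Fin n → ℂ} (hz : z ∈ Star n) : 0 < q α z :=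
  pow_pos (norm_pos_iff.2 (mon_ne α hz)) 2
lemma q_add (α β : Fin n → ℤ) {z : Fin n → ℂ} (hz : z ∈ Star n) : q (α + β) z = q α z * q β z := by
  rw [q, mon_add _ _ hz, norm_mul, mul_pow, q, q]
lemma q_rot (α : Fin n → ℤ) (θ : Tn n) (z : Fin n → ℂ) : q α (rot θ z) = q α z := by
  rw [q, mon_rot, norm_mul, mF_norm, one_mul, q]
lemma q_cont (α : Fin n → ℤ) : ContinuousOn (q α) (Star n) := (mon_cont α).norm.pow 2
lemma q_eq (α : Fin n → ℤ) (z : Fin n → ℂ) : conj (mon α z) * mon α z = (q α z : ℂ) := by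
  rw [Complex.conj_mul', q]; norm_cast

def Kx (Ω : Set (Fin n → ℂ)) (m : ℕ) : Set (Fin n → ℂ) :=
  {z | (∀ w, w ∉ Ω → 1 / ((m : ℝ) + 1) ≤ dist w z) ∧ ∀ j, 1 / ((m : ℝ) + 1) ≤ ‖z j‖}

lemma Kx_sub (m : ℕ) : Kx Ω m ⊆ Ω := fun z hz => by
  by_contra h
  have := hz.1 z h
  rw [dist_self] at this
  exact absurd this (not_le.2 Nat.one_div_pos_of_nat)

lemma Kx_star (m : ℕ) : Kx Ω m ⊆ Star n := fun _ hz j =>
  norm_pos_iff.1 (Nat.one_div_pos_of_nat.trans_le (hz.2 j))

lemma Kx_compact (hb : Bornology.IsBounded Ω) (m : ℕ) : IsCompact (Kx Ω m) := by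
  refine isCompact_of_isClosed_isBounded ?_ (hb.subset (Kx_sub m))
  simp only [Kx, ofPred_and, ofPred_forall]
  exact (isClosed_iInter fun w => isClosed_iInter fun _ => isClosed_le continuous_const
    (by fun_prop)).inter (isClosed_iInter fun j => isClosed_le continuous_const (by fun_prop))

lemma Kx_inv (hI : Inv Ω) (m : ℕ) : Inv (Kx Ω m) := fun θ z hz =>
  ⟨fun w hw => by
    have h1 := hz.1 (rot (-θ) w) fun h => hw (by
      simpa only [rot_rot, add_neg_cancel, rot_zero] using hI θ _ h)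
    have h2 := rot_dist (-θ) w (rot θ z)
    rw [rot_rot, neg_add_cancel, rot_zero] at h2
    exact h1.trans h2, fun j => by rw [rot_norm]; exact hz.2 j⟩

lemma Kx_cover (ho : IsOpen Ω) (hb : Bornology.IsBounded Ω) :
    AECover (volume.restrict Ω) atTop (Kx Ω) := by
  refine ⟨?_, fun m => (Kx_compact hb m).measurableSet⟩
  filter_upwards [ae_restrict_mem ho.measurableSet, ae_restrict_of_ae star_ae] with z hz hz'
  obtain ⟨r, hr, hb⟩ := Metric.isOpen_iff.1 ho z hz
  have h := tendsto_one_div_add_atTop_nhds_zero_nat (𝕜 := ℝ)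
  filter_upwards [h.eventually (ge_mem_nhds hr), eventually_all.2 fun j =>
    h.eventually (ge_mem_nhds (norm_pos_iff.2 (hz' j)))] with m h1 h2
  exact ⟨fun w hw => h1.trans (not_lt.1 fun h => hw (hb h)), h2⟩

lemma no_axis (ho : IsOpen Ω) {α : Fin n → ℤ} (h : IntegrableOn (q α) Ω) {z : Fin n → ℂ}
    (hz : z ∈ Ω) (j : Fin n) (hj : α j < 0) : z j ≠ 0 := by
  intro h0
  have hc : Continuous fun w : Fin n → ℂ => update w j 0 := continuous_id.update j continuous_const
  obtain ⟨w, hw, hw'⟩ := star_dense (hc.continuousAt.preimage_mem_nhds (x := z)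
    (ho.mem_nhds (by rwa [← h0, update_eq_self])))
  set x := update w j 0 with hx
  set G : (Fin n → ℂ) → ℂ := fun y => mon α (update y j 1) with hG
  have hs : update x j 1 ∈ Star n := fun i => by
    by_cases hi : i = j
    · subst hi; simp
    · simpa [hx, hi] using hw' i
  have hGc : ContinuousAt G x := (mon_an α fun i _ => hs i).continuousAt.comp
    (f := fun y : Fin n → ℂ => update y j 1) (continuous_id.update j continuous_const).continuousAt
  have hc0 : 0 < ‖G x‖ := norm_pos_iff.2 (mon_ne α hs)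
  obtain ⟨s, hs0, hs'⟩ := nhds_basis_ball.eventually_iff.1
    ((hGc.norm.eventually (lt_mem_nhds (half_lt_self hc0))).and (ho.mem_nhds hw))
  set B := fun ρ : ℝ => Set.pi univ fun i => ball (x i) (update (fun _ => s) j ρ i) with hB
  set V := ∏ i ∈ Finset.univ.erase j, volume.real (ball (x i) s) with hV
  have hV0 : 0 < V := Finset.prod_pos fun i _ => ENNReal.toReal_pos
    (measure_ball_pos _ _ hs0).ne' measure_ball_lt_top.ne
  have hfin : ∀ ρ, volume (B ρ) ≠ ⊤ := fun ρ => by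
    rw [hB, volume_pi_pi]; exact ENNReal.prod_ne_top fun i _ => measure_ball_lt_top.ne
  have hvol : ∀ ρ, 0 < ρ → volume.real (B ρ) = ρ ^ 2 * Real.pi * V := fun ρ hρ => by
    rw [measureReal_def, hB, volume_pi_pi, ENNReal.toReal_prod,
      ← Finset.mul_prod_erase _ _ (Finset.mem_univ j), update_self, Complex.volume_ball]
    congr 1
    · simp [hρ.le]
    · exact Finset.prod_congr rfl fun i hi => by rw [update_of_ne (Finset.ne_of_mem_erase hi)]; rfl
  have h1 : Tendsto ((volume.restrict Ω) ∘ B) (𝓝[>] 0) (𝓝 0) := by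
    have h2 : Tendsto (fun ρ : ℝ => ENNReal.ofReal (ρ ^ 2 * Real.pi * V)) (𝓝[>] 0) (𝓝 0) := by
      have : Continuous fun ρ : ℝ => ENNReal.ofReal (ρ ^ 2 * Real.pi * V) :=
        ENNReal.continuous_ofReal.comp (by fun_prop)
      simpa using (this.tendsto 0).mono_left (nhdsWithin_le_nhds (s := Ioi 0))
    refine tendsto_of_tendsto_of_tendsto_of_le_of_le' tendsto_const_nhds h2
      (Eventually.of_forall fun _ => zero_le) ?_
    filter_upwards [self_mem_nhdsWithin] with ρ hρ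
    rw [← hvol ρ hρ, ofReal_measureReal (hfin ρ)]
    exact Measure.restrict_apply_le _ _
  have h3 := ge_of_tendsto (b := (‖G x‖ / 2) ^ 2 * Real.pi * V)
    (Integrable.tendsto_setIntegral_nhds_zero h h1) (by
    filter_upwards [Ioo_mem_nhdsGT (lt_min hs0 one_pos)] with ρ hρ
    have hρ1 := lt_min_iff.1 hρ.2
    have hBb : B ρ ⊆ ball x s := by
      rw [ball_pi _ hs0]
      refine pi_mono fun i _ => ball_subset_ball ?_
      by_cases hi : i = j
      · subst hi; simpa using hρ1.1.le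
      · simp [hi]
    have hBΩ : B ρ ⊆ Ω := fun y hy => (hs' (hBb hy)).2
    rw [Measure.restrict_restrict_of_subset hBΩ]
    have h4 : ∫ _ in B ρ, (‖G x‖ / 2 / ρ) ^ 2 ≤ ∫ y in B ρ, q α y := by
      refine setIntegral_mono_ae_restrict (integrableOn_const (hfin ρ)) (h.mono_set hBΩ) ?_
      filter_upwards [ae_restrict_mem (MeasurableSet.univ_pi fun i => measurableSet_ball),
        ae_restrict_of_ae star_ae] with y hy hy'
      have h5 : ‖y j‖ < ρ := by simpa [hx] using hy j trivial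
      have h6 : mon α y = y j ^ α j * G y := by
        conv_lhs => rw [← update_eq_self j y]
        simp only [hG, mon_update, one_zpow, one_mul]
      have h7 := (hs' (hBb hy)).1
      have h8 : 0 < ‖y j‖ := norm_pos_iff.2 (hy' j)
      have h9 : ρ⁻¹ ≤ ‖y j‖ ^ α j := ((inv_le_inv₀ hρ.1 h8).2 h5.le).trans (by
        rw [← zpow_neg_one]; exact zpow_le_zpow_right_of_le_one₀ h8 (by linarith) (by omega))
      refine pow_le_pow_left₀ (by have := hρ.1; positivity) ?_ 2
      rw [h6, norm_mul, norm_zpow, div_eq_inv_mul _ ρ]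
      exact mul_le_mul h9 h7.le (by positivity) (by positivity)
    rw [setIntegral_const, hvol ρ hρ.1, smul_eq_mul] at h4
    refine le_trans (le_of_eq ?_) h4
    have := hρ.1.ne'
    field_simp)
  have : 0 < (‖G x‖ / 2) ^ 2 * Real.pi * V := by have := Real.pi_pos; positivity
  linarith

lemma int_pos {O : Set (Fin n → ℂ)} (hO : IsOpen O) (hne : O.Nonempty) {α : Fin n → ℤ}
    (h : IntegrableOn (q α) O) : 0 < ∫ z in O, q α z := by
  rw [setIntegral_pos_iff_support_of_nonneg_ae (ae_of_all _ (q_nonneg α)) h]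
  obtain ⟨z, hz⟩ := hne
  obtain ⟨w, hw, hw'⟩ := star_dense (hO.mem_nhds hz)
  exact (Measure.measure_pos_of_mem_nhds volume ((star_open.inter hO).mem_nhds ⟨hw', hw⟩)).trans_le
    (measure_mono fun y hy => ⟨(q_pos α hy.1).ne', hy.2⟩)

lemma growth (ho : IsOpen Ω) {α δ : Fin n → ℤ} (h : IntegrableOn (q α) Ω) {x : Fin n → ℂ}
    (hx : x ∈ Ω) (hx' : x ∈ Star n) {l : ℝ} (hl0 : 0 ≤ l) (hl : l < q δ x) :
    ∃ ε : ℝ, 0 < ε ∧ ∀ k : ℕ, IntegrableOn (q (α + (k : ℤ) • δ)) Ω →
      ε * l ^ k ≤ ∫ z in Ω, q (α + (k : ℤ) • δ) z := by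
  have hO : IsOpen (Ω ∩ (Star n ∩ q δ ⁻¹' Ioi l)) :=
    ho.inter ((q_cont δ).isOpen_inter_preimage star_open isOpen_Ioi)
  refine ⟨_, int_pos hO ⟨x, hx, hx', hl⟩ (h.mono_set inter_subset_left), fun k hk => ?_⟩
  refine le_trans ?_ (setIntegral_mono_set hk (ae_of_all _ (q_nonneg _))
    (inter_subset_left (t := Star n ∩ q δ ⁻¹' Ioi l)).eventuallyLE)
  rw [← integral_mul_const]
  refine setIntegral_mono_on ((h.mono_set inter_subset_left).mul_const _)
    (hk.mono_set inter_subset_left) hO.measurableSet fun z hz => ?_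
  clear hk
  induction k with
  | zero => simp
  | succ k ih =>
    rw [Nat.cast_succ, add_smul, one_smul, ← add_assoc, q_add _ δ hz.2.1, pow_succ, ← mul_assoc]
    exact mul_le_mul ih (le_of_lt hz.2.2) hl0 (q_nonneg _ _)

lemma two_pts (ho : IsOpen Ω) (hne : Ω.Nonempty) {β : Fin n → ℤ} {i : Fin n} (hi : β i ≠ 0) :
    ∃ x ∈ Ω, ∃ y ∈ Ω, x ∈ Star n ∧ y ∈ Star n ∧ q β x < q β y := by
  obtain ⟨z0, hz0⟩ := hne
  obtain ⟨z, hz, hz'⟩ := star_dense (ho.mem_nhds hz0)
  have hc : Continuous fun s : ℝ => update z i (s * z i) := continuous_const.update i (by fun_prop)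
  obtain ⟨s, hs, hs1⟩ := (((hc.tendsto' 1 z (by simp)).eventually (ho.mem_nhds hz)).filter_mono
    (nhdsWithin_le_nhds (s := Ioi 1))).and self_mem_nhdsWithin |>.exists
  have hs1' : 1 < s := hs1
  have hst : update z i (s * z i) ∈ Star n := fun k => by
    by_cases hk : k = i
    · subst hk; simpa using ⟨by linarith, hz' k⟩
    · simpa [hk] using hz' k
  have e : q β (update z i (s * z i)) = (s ^ β i) ^ 2 * q β z := by
    conv_rhs => rw [← update_eq_self i z]
    simp only [q, mon_update, mul_zpow, norm_mul, norm_zpow, Complex.norm_real,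
      Real.norm_of_nonneg (by linarith : 0 ≤ s)]
    ring
  have hp := q_pos β hz'
  have h0 : 0 < s ^ β i := zpow_pos (by linarith) _
  rcases hi.lt_or_gt with h | h
  · have := zpow_lt_one_of_neg₀ hs1' h
    exact ⟨_, hs, z, hz, hst, hz', by rw [e]; exact mul_lt_of_lt_one_left hp (by nlinarith)⟩
  · have := one_lt_zpow₀ hs1' h
    exact ⟨z, hz, _, hs, hz', hst, by rw [e]; exact lt_mul_of_one_lt_left hp (by nlinarith)⟩

lemma int_nonneg_exp (hb : Bornology.IsBounded Ω) {α : Fin n → ℤ} (h : ∀ j, 0 ≤ α j) :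
    IntegrableOn (q α) Ω :=
  (ContinuousOn.integrableOn_compact hb.isCompact_closure fun z _ =>
    ((mon_an α fun j hj => absurd (h j) (not_le.2 hj)).continuousAt.norm.pow 2).continuousWithinAt).mono_set
    subset_closure

lemma orth (hI : Inv Ω) {α γ : Fin n → ℤ} (h : α ≠ γ) :
    ∫ z in Ω, conj (mon α z) * mon γ z = 0 := by
  obtain ⟨j, hj⟩ := Function.ne_iff.1 h
  have hj' : γ j - α j ≠ 0 := sub_ne_zero.2 hj.symm
  set θ : Tn n := Pi.single j ((1 / 2 / (γ j - α j : ℤ) : ℝ) : UnitAddCircle) with hθ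
  have h1 := int_rot hI θ fun z => conj (mon α z) * mon γ z
  have h2 : mFourier (-α) θ * mFourier γ θ = -1 := by
    rw [← mFourier_add]
    change ∏ i, fourier ((-α + γ) i) (θ i) = _
    rw [Finset.prod_eq_single j (fun i _ hi => by simp [hθ, hi]) (by simp), hθ, Pi.single_eq_same]
    have := fourier_add_half_inv_index hj' one_pos (0 : UnitAddCircle)
    rw [zero_add, fourier_eval_zero] at this
    rw [← this]; congr 2; simp; ring
  have h3 : ∀ z, conj (mon α (rot θ z)) * mon γ (rot θ z) = -(conj (mon α z) * mon γ z) := fun z => by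
    rw [mon_rot, mon_rot, map_mul, ← mFourier_neg]; linear_combination (conj (mon α z) * mon γ z) * h2
  simp only [h3, integral_neg] at h1
  exact CharZero.neg_eq_self_iff.1 h1

lemma inner_eq {f g : Lp ℂ 2 (volume.restrict Ω)} {F G : (Fin n → ℂ) → ℂ}
    (hf : f =ᵐ[volume.restrict Ω] F) (hg : g =ᵐ[volume.restrict Ω] G) :
    ⟪f, g⟫_ℂ = ∫ z in Ω, conj (F z) * G z := by
  rw [L2.inner_def]
  refine integral_congr_ae ?_
  filter_upwards [hf, hg] with z h1 h2
  rw [h1, h2]; simp [mul_comm]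

lemma exists_ind {K : Set (Fin n → ℂ)} (hK : IsCompact K) (hKΩ : K ⊆ Ω) {φ : (Fin n → ℂ) → ℂ}
    (hφ : ContinuousOn φ K) : ∃ W : Lp ℂ 2 (volume.restrict Ω),
      ((‖W‖ ^ 2 : ℝ) : ℂ) = ∫ z in K, conj (φ z) * φ z ∧ ∀ (g : Lp ℂ 2 (volume.restrict Ω))
        (G : (Fin n → ℂ) → ℂ), g =ᵐ[volume.restrict Ω] G → ⟪W, g⟫_ℂ = ∫ z in K, conj (φ z) * G z := by
  have h : MemLp (K.indicator φ) 2 (volume.restrict Ω) := by
    rw [memLp_indicator_iff_restrict hK.measurableSet, Measure.restrict_restrict_of_subset hKΩ,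
      memLp_two_iff_integrable_sq_norm (hφ.aestronglyMeasurable hK.measurableSet)]
    exact (hφ.norm.pow 2).integrableOn_compact hK
  have h2 : ∀ (g : Lp ℂ 2 (volume.restrict Ω)) (G : (Fin n → ℂ) → ℂ), g =ᵐ[volume.restrict Ω] G →
      ⟪h.toLp _, g⟫_ℂ = ∫ z in K, conj (φ z) * G z := fun g G hg => by
    rw [inner_eq h.coeFn_toLp hg, ← Measure.restrict_restrict_of_subset hKΩ,
      ← integral_indicator hK.measurableSet]
    refine integral_congr_ae (ae_of_all _ fun z => ?_)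
    by_cases hz : z ∈ K <;> simp [hz]
  refine ⟨h.toLp _, ?_, h2⟩
  rw [Complex.ofReal_pow, show ((‖h.toLp _‖ : ℝ) : ℂ) ^ 2 = ⟪h.toLp _, h.toLp _⟫_ℂ from
    (inner_self_eq_norm_sq_to_K (𝕜 := ℂ) (h.toLp _)).symm, h2 _ _ h.coeFn_toLp]
  exact setIntegral_congr_fun hK.measurableSet fun z hz => by simp [hz]

end Pool.Agent.H12.HK
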