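import Pool.Agent.H12.HK3

/-! No nonzero Hilbert-Schmidt Hankel operator with conjugate holomorphic symbol on a bounded
Reinhardt domain of dimension at least two. -/

open MeasureTheory Filter Topology Set Metric Function
open scoped ComplexConjugate InnerProductSpace

namespace Pool.Agent.H12.HK4

variable {n : ℕ}

/-- `L²(Ω)` for Lebesgue measure. -/
abbrev L2 (Ω : Set (Fin n → ℂ)) : Type := Lp ℂ 2 (volume.restrict Ω)

/-- The Bergman space `A²(Ω)`: classes in `L²(Ω)` of holomorphic functions. -/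
def Bergman (Ω : Set (Fin n → ℂ)) : Submodule ℂ (L2 Ω) where
  carrier := {g | ∃ u, AnalyticOnNhd ℂ u Ω ∧ g =ᵐ[volume.restrict Ω] u}
  add_mem' := fun {f g} ⟨u, hu, h⟩ ⟨v, hv, h'⟩ => ⟨u + v, hu.add hv, (Lp.coeFn_add f g).trans (h.add h')⟩
  zero_mem' := ⟨0, analyticOnNhd_const, Lp.coeFn_zero _ _ _⟩
  smul_mem' := fun c g ⟨u, hu, h⟩ => ⟨c • u, hu.const_smul, (Lp.coeFn_smul c g).trans (h.const_smul c)⟩

/-- `Ω` is invariant under the coordinate rotations. -/
def Reinhardt (Ω : Set (Fin n → ℂ)) : Prop :=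
  ∀ z ∈ Ω, ∀ θ : Fin n → ℝ, (fun j => Complex.exp (θ j * Complex.I) * z j) ∈ Ω

/-- `conj f * g` is square integrable. -/
def InDom (Ω : Set (Fin n → ℂ)) (f : (Fin n → ℂ) → ℂ) (g : Bergman Ω) : Prop :=
  MemLp (fun z => conj (f z) * (g : L2 Ω) z) 2 (volume.restrict Ω)

/-- The Hankel operator with symbol `conj f` is densely defined and `T` extends it: on the domain,
`T g` is the component of `conj f * g` orthogonal to `A²(Ω)`. -/
def IsHankel (Ω : Set (Fin n → ℂ)) (f : (Fin n → ℂ) → ℂ) (T : Bergman Ω →L[ℂ] L2 Ω) : Prop :=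
  Dense {g | InDom Ω f g} ∧
    ∀ (g : Bergman Ω) (h : InDom Ω f g), MemLp.toLp _ h - T g ∈ Bergman Ω ∧ T g ∈ (Bergman Ω)ᗮ

/-- `T` is Hilbert-Schmidt. -/
def IsHS (Ω : Set (Fin n → ℂ)) (T : Bergman Ω →L[ℂ] L2 Ω) : Prop :=
  ∃ (ι : Type) (b : HilbertBasis ι ℂ (Bergman Ω)), Summable fun k => ‖T (b k)‖ ^ 2

open Pool.Agent.H12.HK

variable {Ω : Set (Fin n → ℂ)} {f : (Fin n → ℂ) → ℂ} {T : Bergman Ω →L[ℂ] L2 Ω}

lemma inv_of (h : Reinhardt Ω) : Pool.Agent.H12.HK.Inv Ω := fun θ z hz => by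
  choose x hx using fun j => QuotientAddGroup.mk_surjective (θ j)
  convert h z hz fun j => 2 * Real.pi * x j using 1
  funext j
  rw [rot, ← hx j, fourier_coe_apply]
  congr 2; push_cast; ring

lemma exists_vec (ho : IsOpen Ω) : ∃ v : (Fin n → ℤ) → Bergman Ω, ∀ α,
    (IntegrableOn (q α) Ω → (v α : L2 Ω) =ᵐ[volume.restrict Ω] mon α) ∧
      (¬ IntegrableOn (q α) Ω → v α = 0) := by
  have : ∀ α, ∃ v : Bergman Ω, (IntegrableOn (q α) Ω → (v : L2 Ω) =ᵐ[volume.restrict Ω] mon α) ∧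
      (¬ IntegrableOn (q α) Ω → v = 0) := fun α => by
    by_cases h : IntegrableOn (q α) Ω
    · have an : AnalyticOnNhd ℂ (mon α) Ω := fun z hz => mon_an α (no_axis ho h hz)
      have hm : MemLp (mon α) 2 (volume.restrict Ω) := (memLp_two_iff_integrable_sq_norm
        (an.continuousOn.aestronglyMeasurable ho.measurableSet)).2 h
      exact ⟨⟨hm.toLp _, _, an, hm.coeFn_toLp⟩, fun _ => hm.coeFn_toLp, fun h' => absurd h h'⟩
    · exact ⟨0, fun h' => absurd h' h, fun _ => rfl⟩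
  choose v hv using this
  exact ⟨v, hv⟩

lemma keyI (ho : IsOpen Ω) (hc : IsPreconnected Ω) (hI : Pool.Agent.H12.HK.Inv Ω) (hf : AnalyticOnNhd ℂ f Ω)
    (hT : IsHankel Ω f T) {β γ : Fin n → ℤ} {c : ℂ}
    (hβ : ∀ z ∈ Ω, z ∈ Star n → U f β z = c * mon β z) {K : Set (Fin n → ℂ)} (hK : IsCompact K)
    (hKI : Pool.Agent.H12.HK.Inv K) (hKΩ : K ⊆ Ω) (hKs : K ⊆ Star n) (h0 : 0 < ∫ z in K, q γ z) {e : Bergman Ω}
    (he : (e : L2 Ω) =ᵐ[volume.restrict Ω] mon (γ + β)) :
    ‖c‖ ^ 2 * ((∫ z in K, q (γ + β + β) z) - (∫ z in K, q (γ + β) z) ^ 2 / ∫ z in K, q γ z) ≤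
      ‖T e‖ ^ 2 := by
  set A0 := ∫ z in K, q γ z with hA0
  set A1 := ∫ z in K, q (γ + β) z with hA1
  set A2 := ∫ z in K, q (γ + β + β) z with hA2
  set t := A1 / A0 with ht
  have ht' : t * A0 = A1 := div_mul_cancel₀ _ h0.ne'
  have qc : ∀ α, ContinuousOn (q α) K := fun α => (q_cont α).mono hKs
  have qi : ∀ α, IntegrableOn (q α) K := fun α => (qc α).integrableOn_compact hK
  have I3 : ∀ (x y w : ℝ) (F : (Fin n → ℂ) → ℂ), (∀ z ∈ K, F z =
      ((x * q γ z + y * (q γ z * q β z) + w * (q γ z * q β z * q β z) : ℝ) : ℂ)) →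
      ∫ z in K, F z = ((x * A0 + y * A1 + w * A2 : ℝ) : ℂ) := fun x y w F hF => by
    rw [setIntegral_congr_fun hK.measurableSet (g := fun z =>
      ((x * q γ z + y * q (γ + β) z + w * q (γ + β + β) z : ℝ) : ℂ)) fun z hz => by
        simp only [hF z hz, q_add _ _ (hKs hz)], integral_complex_ofReal,
      integral_add (f := fun z => x * q γ z + y * q (γ + β) z)
        (((qi _).const_mul _).add ((qi _).const_mul _)) ((qi _).const_mul _),
      integral_add ((qi _).const_mul _) ((qi _).const_mul _), integral_const_mul,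
      integral_const_mul, integral_const_mul]
  set ρ : (Fin n → ℂ) → ℂ := fun z => ((q β z - t : ℝ) : ℂ) with hρ
  have ρc : ContinuousOn ρ K :=
    Complex.continuous_ofReal.comp_continuousOn ((qc β).sub continuousOn_const)
  have mc := (mon_cont γ).mono hKs
  obtain ⟨w, hw, hw'⟩ := exists_ind hK hKΩ (mc.mul ρc)
  obtain ⟨W, -, hW'⟩ := exists_ind hK hKΩ ((mc.mul ρc).mul (hf.continuousOn.mono hKΩ))
  have cρ : ∀ z, conj (ρ z) = ρ z := fun z => Complex.conj_ofReal _
  have h1 : (fun g : Bergman Ω => ⟪w, T g⟫_ℂ) = fun g : Bergman Ω => ⟪W, (g : L2 Ω)⟫_ℂ := by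
    refine Continuous.ext_on hT.1 (by fun_prop) (by fun_prop) fun g hg => ?_
    obtain ⟨u, hu, hu'⟩ := (hT.2 g hg).1
    obtain ⟨d, hd⟩ := U_mon ho hc hI hu γ
    have h2 := hw' _ _ hu'
    have h3 := pairing hI hu hd hK hKI hKΩ hKs ρc fun θ z => by simp only [hρ, q_rot]
    rw [I3 (-t) 1 0 (fun z => conj (mon γ z) * ρ z * mon γ z) fun z _ => by
      rw [mul_right_comm, q_eq, hρ]; push_cast; ring, show -t * A0 + 1 * A1 + 0 * A2 = 0 by linarith,
      Complex.ofReal_zero, mul_zero] at h3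
    simp only [Pi.mul_apply, map_mul, cρ] at h2
    rw [h3, inner_sub_right, sub_eq_zero, hw' _ _ (MemLp.coeFn_toLp hg)] at h2
    rw [← h2, hW' _ _ EventuallyEq.rfl]
    simp only [Pi.mul_apply, map_mul, mul_assoc]
  have h4 : ⟪w, T e⟫_ℂ = ⟪W, (e : L2 Ω)⟫_ℂ := congrFun h1 e
  have h5 := pairing hI hf hβ hK hKI hKΩ hKs (ρ := fun z => (q γ z : ℂ) * ρ z)
    ((Complex.continuous_ofReal.comp_continuousOn (qc γ)).mul ρc) fun θ z => by simp only [hρ, q_rot]
  rw [I3 0 (-t) 1 (fun z => conj (mon β z) * ((q γ z : ℂ) * ρ z) * mon β z) fun z _ => by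
    rw [mul_right_comm, q_eq, hρ]; push_cast; ring] at h5
  rw [I3 (t ^ 2) (-2 * t) 1 _ fun z _ => by
    rw [Pi.mul_apply, map_mul, cρ, mul_mul_mul_comm, q_eq, hρ]; push_cast; ring,
    Complex.ofReal_inj] at hw
  have h6 : conj ⟪W, (e : L2 Ω)⟫_ℂ = c * ((0 * A0 + -t * A1 + 1 * A2 : ℝ) : ℂ) := by
    rw [hW' _ _ he, ← integral_conj, ← h5]
    refine setIntegral_congr_fun hK.measurableSet fun z hz => ?_
    simp only [Pi.mul_apply, map_mul, cρ, Complex.conj_conj, mon_add _ _ (hKs hz), ← q_eq]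
    ring
  have e1 : A2 - A1 ^ 2 / A0 = ‖w‖ ^ 2 := by
    rw [hw, show A1 ^ 2 / A0 = t * A1 by rw [ht]; ring]; linear_combination -t * ht'
  have e2 : 0 * A0 + -t * A1 + 1 * A2 = ‖w‖ ^ 2 := by rw [hw]; linear_combination -t * ht'
  have h7 := norm_inner_le_norm (𝕜 := ℂ) w (T e)
  rw [h4, ← Complex.norm_conj, h6, e2, norm_mul, Complex.norm_real,
    Real.norm_of_nonneg (sq_nonneg _)] at h7
  rw [e1, ← mul_pow]
  refine pow_le_pow_left₀ (by positivity) ?_ 2
  rcases (norm_nonneg w).eq_or_lt with h | h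
  · rw [← h, mul_zero]; exact norm_nonneg _
  · exact le_of_mul_le_mul_left (by nlinarith) h

lemma coeff_zero (hn : 2 ≤ n) (ho : IsOpen Ω) (hc : IsConnected Ω) (hb : Bornology.IsBounded Ω)
    (hI : Pool.Agent.H12.HK.Inv Ω) (hf : AnalyticOnNhd ℂ f Ω) (hT : IsHankel Ω f T) (hs : IsHS Ω T) {β : Fin n → ℤ}
    (hβ0 : β ≠ 0) {c : ℂ} (hβ : ∀ z ∈ Ω, z ∈ Star n → U f β z = c * mon β z) : c = 0 := by
  by_contra hc0
  have hc1 : 0 < ‖c‖ ^ 2 := by positivity
  obtain ⟨v, hv⟩ := exists_vec ho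
  set a : (Fin n → ℤ) → ℝ := fun α => ∫ z in Ω, q α z with ha
  have apos : ∀ α, IntegrableOn (q α) Ω → 0 < a α := fun α h => int_pos ho hc.nonempty h
  set N : (Fin n → ℤ) → ℝ := fun α => ‖T (v α)‖ ^ 2 / ‖c‖ ^ 2 with hN
  have cov := Kx_cover ho hb
  set A : (Fin n → ℤ) → ℕ → ℝ := fun α m => ∫ z in Kx Ω m, q α z ∂volume.restrict Ω with hA
  have key : ∀ γ m, IntegrableOn (q (γ + β)) Ω → 0 < A γ m →
      A (γ + β + β) m ≤ N (γ + β) + A (γ + β) m ^ 2 / A γ m := fun γ m h h0 => by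
    simp only [hA, Measure.restrict_restrict_of_subset (Kx_sub m)] at h0 ⊢
    have := keyI ho hc.isPreconnected hI hf hT hβ (Kx_compact hb m) (Kx_inv hI m) (Kx_sub m)
      (Kx_star m) h0 ((hv _).1 h)
    rw [← sub_le_iff_le_add, hN, le_div_iff₀ hc1]; linarith
  have lim : ∀ α, IntegrableOn (q α) Ω → Tendsto (A α) atTop (𝓝 (a α)) := fun α h =>
    cov.integral_tendsto_of_countably_generated h
  have bdd : ∀ α (B : ℝ), (∀ᶠ m in atTop, A α m ≤ B) → IntegrableOn (q α) Ω := fun α B h =>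
    cov.integrable_of_integral_norm_bounded B (fun m => by
      rw [IntegrableOn, Measure.restrict_restrict_of_subset (Kx_sub m)]
      exact ((q_cont α).mono (Kx_star m)).integrableOn_compact (Kx_compact hb m))
      (by simpa only [Real.norm_of_nonneg (q_nonneg _ _)] using h)
  have F1 : ∀ γ, IntegrableOn (q (γ + β)) Ω → IntegrableOn (q γ) Ω →
      IntegrableOn (q (γ + β + β)) Ω ∧ a (γ + β + β) ≤ N (γ + β) + a (γ + β) ^ 2 / a γ := by
    intro γ h1 h0
    have l1 := (((lim _ h1).pow 2).div (lim _ h0) (apos _ h0).ne').const_add (N (γ + β))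
    have l2 := ((lim _ h0).eventually (lt_mem_nhds (apos _ h0))).mono fun m hm => key γ m h1 hm
    have h2 := bdd (γ + β + β) _ ((l2.and (l1.eventually (ge_mem_nhds (lt_add_one _)))).mono
      fun m hm => hm.1.trans hm.2)
    exact ⟨h2, le_of_tendsto_of_tendsto (lim _ h2) l1 l2⟩
  have F2 : ∀ γ, IntegrableOn (q (γ + β)) Ω → ¬ IntegrableOn (q γ) Ω →
      IntegrableOn (q (γ + β + β)) Ω → a (γ + β + β) ≤ N (γ + β) := by
    intro γ h1 h0 h2
    refine le_of_forall_pos_le_add fun δ hδ => ?_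
    have l0 : ∃ᶠ m in atTop, (a (γ + β) ^ 2 + 1) / δ < A γ m := by
      by_contra hn
      exact h0 (bdd γ _ ((not_frequently.1 hn).mono fun m hm => not_lt.1 hm))
    have l1 := ((lim _ h1).pow 2).eventually (ge_mem_nhds (lt_add_one _))
    refine isClosed_Iic.mem_of_frequently_of_tendsto ((l0.and_eventually l1).mono fun m hm => ?_)
      (lim _ h2)
    have p0 : 0 < A γ m := lt_trans (by positivity) hm.1
    refine (key γ m h1 p0).trans (add_le_add_right ?_ _)
    rw [div_le_iff₀ p0]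
    have := (div_lt_iff₀ hδ).1 hm.1
    linarith [hm.2]
  have hsum : Summable fun α => N α / a α := by
    obtain ⟨ι, b, hb'⟩ := hs
    have ortn : Orthonormal ℂ fun α : {α // IntegrableOn (q α) Ω} =>
        (((√(a α))⁻¹ : ℝ) : ℂ) • v α := by
      classical
      refine orthonormal_iff_ite.2 fun α γ => ?_
      rw [Submodule.coe_inner, Submodule.coe_smul, Submodule.coe_smul, inner_smul_left,
        inner_smul_right, inner_eq ((hv _).1 α.2) ((hv _).1 γ.2)]
      split_ifs with h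
      · subst h
        simp only [q_eq, integral_complex_ofReal, Complex.conj_ofReal]
        have := Real.mul_self_sqrt (apos _ α.2).le
        have h2 := (Real.sqrt_pos.2 (apos _ α.2)).ne'
        norm_cast
        change _ * (_ * a α) = 1
        rw [← this]; field_simp
        rw [Real.sqrt_sq (Real.sqrt_nonneg _)]
      · rw [orth hI fun h' => h (Subtype.ext h'), mul_zero, mul_zero]
    have s0 := (hs_bound b T hb' ortn).div_const (‖c‖ ^ 2)
    have s1 : Summable ((fun α => N α / a α) ∘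
        (Subtype.val : {α // IntegrableOn (q α) Ω} → Fin n → ℤ)) := by
      refine s0.congr fun α => ?_
      have h3 : T ((((√(a α))⁻¹ : ℝ) : ℂ) • v α) = (((√(a α))⁻¹ : ℝ) : ℂ) • T (v α) :=
        T.map_smul _ _
      rw [h3, norm_smul, mul_pow, Complex.norm_real, Real.norm_eq_abs, sq_abs, inv_pow,
        Real.sq_sqrt (apos _ α.2).le, Function.comp_apply, hN]
      ring
    have s2 : ∀ α ∉ range (Subtype.val : {α // IntegrableOn (q α) Ω} → Fin n → ℤ),
        (fun α => N α / a α) α = 0 := fun α hα => by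
      have h4 : v α = 0 := (hv α).2 fun h => hα ⟨⟨α, h⟩, rfl⟩
      simp only [hN, h4, map_zero, norm_zero]
      simp
    exact (Function.Injective.summable_iff Subtype.val_injective s2).1 s1
  obtain ⟨i, hi⟩ := Function.ne_iff.1 hβ0
  have : Nontrivial (Fin n) := Fin.nontrivial_iff_two_le.2 hn
  obtain ⟨j, hj⟩ := exists_ne i
  obtain ⟨x, hx, y, hy, hx', hy', hxy⟩ := two_pts ho hc.nonempty hi
  obtain ⟨m, hm1, hm2⟩ := exists_between hxy
  obtain ⟨M, hM1, hM2⟩ := exists_between hm2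
  have hm0 : 0 < m := (q_pos β hx').trans hm1
  set α : ℕ → Fin n → ℤ := fun L k => |β k| + if k = j then L else 0 with hα
  have inj : Injective fun p : ℕ × ℤ => α p.1 + p.2 • β := fun p p' h => by
    have h1 := congrFun h i
    have h2 := congrFun h j
    simp only [hα, Pi.add_apply, Pi.smul_apply, smul_eq_mul, if_neg hj.symm, if_true] at h1 h2
    have h3 : p.2 = p'.2 := mul_right_cancel₀ hi (by linarith)
    rw [h3] at h2
    exact Prod.ext (by omega) h3
  have s2 := hsum.comp_injective inj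
  obtain ⟨L, hL⟩ := (s2.prod.tendsto_atTop_zero.eventually (gt_mem_nhds (sub_pos.2 hM1))).exists
  have τ0 : ∀ α, 0 ≤ N α / a α := fun α =>
    div_nonneg (by rw [hN]; positivity) (integral_nonneg (q_nonneg α))
  have e1 : ∀ k : ℤ, α L + k • β = α L + (k - 1) • β + β := fun k => by module
  have e2 : ∀ k : ℤ, α L + (k + 1) • β = α L + (k - 1) • β + β + β := fun k => by module
  have p0 : IntegrableOn (q (α L)) Ω := int_nonneg_exp hb fun k => by
    simp only [hα]; have := abs_nonneg (β k); split_ifs <;> omega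
  refine absurd (line (fun k => IntegrableOn (q (α L + k • β)) Ω) (fun k => a (α L + k • β))
    (fun k => N (α L + k • β) / a (α L + k • β)) m M _ hm0 (fun k => apos _) (by simpa using p0)
    (int_nonneg_exp hb fun k => ?_) (fun k h1 h0 => ?_) (fun k h1 h0 h2 => ?_)
    (growth ho p0 hy hy' (by linarith) hM2) ?_
    (fun s => (s2.prod_factor L).sum_le_tsum s fun k _ => τ0 _) fun k => τ0 _) (not_le.2 hL)
  · simp only [hα, Pi.add_apply, Pi.smul_apply, smul_eq_mul]
    have := le_abs_self (β k); split_ifs <;> omega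
  · have p := apos _ h1
    rw [e2, div_le_iff₀ p, add_mul, div_mul_cancel₀ _ p.ne', div_mul_eq_mul_div, ← sq, add_comm (_ / _)]
    rw [e1] at h1
    rw [e1 k]
    exact F1 _ h1 h0
  · refine div_le_div_of_nonneg_right ?_ (apos _ h1).le
    rw [e2] at h2 ⊢
    rw [e1] at h1
    rw [e1 k]
    exact F2 _ h1 h0 h2
  · have h1 : q (-β) x * q β x = 1 := by rw [← q_add _ _ hx']; simp [q, mon]
    have := growth ho (δ := -β) p0 hx hx' (inv_pos.2 hm0).le (by
      rw [eq_inv_of_mul_eq_one_left h1]; exact (inv_lt_inv₀ hm0 (q_pos β hx')).2 hm1)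
    simpa only [smul_neg, neg_smul] using this

theorem main (n : ℕ) (hn : 2 ≤ n) (Ω : Set (Fin n → ℂ)) (ho : IsOpen Ω) (hc : IsConnected Ω)
    (hb : Bornology.IsBounded Ω) (hR : Reinhardt Ω) (f : (Fin n → ℂ) → ℂ)
    (hf : AnalyticOnNhd ℂ f Ω) (T : Bergman Ω →L[ℂ] L2 Ω) (hT : IsHankel Ω f T) (hs : IsHS Ω T) :
    T = 0 := by
  have hI := inv_of hR
  obtain ⟨c, hc0⟩ := U_mon ho hc.isPreconnected hI hf 0
  have h1 : ∀ z ∈ Ω, z ∈ Star n → f z = c := fun z hz hz' => by
    have h0 := const_of hI hf hz fun γ hγ => by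
      obtain ⟨d, hd⟩ := U_mon ho hc.isPreconnected hI hf γ
      rw [hd z hz hz', coeff_zero hn ho hc hb hI hf hT hs hγ hd, zero_mul]
    rw [h0, hc0 z hz hz']
    simp [mon]
  refine ContinuousLinearMap.coe_inj.1 (LinearMap.ext (congrFun (Continuous.ext_on hT.1 T.continuous
    continuous_zero fun g hg => ?_)))
  have h2 : MemLp.toLp _ hg = conj c • (g : L2 Ω) := by
    refine Lp.ext ((MemLp.coeFn_toLp hg).trans (EventuallyEq.trans ?_ (Lp.coeFn_smul _ _).symm))
    filter_upwards [ae_restrict_mem ho.measurableSet, ae_restrict_of_ae star_ae] with z hz hz'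
    simp [h1 z hz hz']
  have h3 := (Bergman Ω).sub_mem ((Bergman Ω).smul_mem (conj c) g.2) (h2 ▸ (hT.2 g hg).1)
  rw [sub_sub_cancel] at h3
  exact inner_self_eq_zero.1 ((hT.2 g hg).2 _ h3)

end Pool.Agent.H12.HK4
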