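import Mathlib

namespace Pool.Agent.H12.Helly

theorem nak {κ ι : Type} [Fintype κ] (Y : ι → Submodule ℤ (κ → ℤ)) (p : ℕ) (hp : p.Prime) :
    ∃ (S : Finset ι) (n : ℤ), S.card ≤ Fintype.card κ ∧ (p : ℤ) ∣ n - 1 ∧
      ∀ y ∈ ⨆ i, Y i, n • y ∈ ⨆ i ∈ S, Y i := by
  classical
  have : Fact p.Prime := ⟨hp⟩
  set W := ⨆ i, Y i with hW
  let e := (Module.finBasis ℤ W).equivFun
  let ρ : W →+ (Fin (Module.finrank ℤ W) → ZMod p) :=
    { toFun := fun y j => (e y j : ZMod p)
      map_zero' := by ext; simp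
      map_add' := fun a b => by ext; simp }
  obtain ⟨b, b1, b2, b3⟩ := exists_linearIndependent (ZMod p) {x | ∃ i, ∃ y : W, y.1 ∈ Y i ∧ ρ y = x}
  choose f g hg1 hg2 using fun x : b => b1 x.2
  let _ : Fintype b := Fintype.ofFinite b
  have hc : Fintype.card b ≤ Fintype.card κ := by
    have h1 := b3.fintype_card_le_finrank
    have h2 := Submodule.finrank_le W
    simp only [Module.finrank_fintype_fun_eq_card, Fintype.card_fin] at h1 h2
    exact h1.trans h2
  let S := Finset.univ.image f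
  have key : ∀ x ∈ Submodule.span (ZMod p) b, ∃ z : W, z.1 ∈ ⨆ i ∈ S, Y i ∧ ρ z = x := by
    intro x hx
    induction hx using Submodule.span_induction with
    | mem x hx =>
      exact ⟨g ⟨x, hx⟩, (le_iSup₂_of_le (f := fun i (_ : i ∈ S) => Y i) (f ⟨x, hx⟩)
        (Finset.mem_image_of_mem _ (Finset.mem_univ _)) le_rfl) (hg1 _), hg2 _⟩
    | zero => exact ⟨0, zero_mem _, map_zero _⟩
    | add x y _ _ hx hy =>
      obtain ⟨z, h1, rfl⟩ := hx
      obtain ⟨w, h2, rfl⟩ := hy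
      exact ⟨z + w, add_mem h1 h2, map_add _ _ _⟩
    | smul c x _ hx =>
      obtain ⟨z, h1, rfl⟩ := hx
      refine ⟨c.val • z, nsmul_mem h1 _, ?_⟩
      rw [map_nsmul, ← Nat.cast_smul_eq_nsmul (ZMod p), ZMod.natCast_zmod_val]
  have key2 : ∀ y (hy : y ∈ W), ρ ⟨y, hy⟩ ∈ Submodule.span (ZMod p) b := by
    intro y hy
    rw [b2]
    induction hy using Submodule.iSup_induction' with
    | mem i x hx => exact Submodule.subset_span ⟨i, _, hx, rfl⟩
    | zero => exact (map_zero ρ).symm ▸ zero_mem _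
    | add x y hx hy h1 h2 => exact (map_add ρ ⟨x, hx⟩ ⟨y, hy⟩).symm ▸ add_mem h1 h2
  obtain ⟨n, h1, h2⟩ := Submodule.exists_sub_one_mem_and_smul_le_of_fg_of_le_sup
    (I := Ideal.span {(p : ℤ)}) (N := ⨆ i ∈ S, Y i) (N' := W) (P := W)
    (IsNoetherian.noetherian W) le_rfl (by
      intro y hy
      obtain ⟨z, z1, z2⟩ := key _ (key2 y hy)
      have : ∀ j, ∃ c, e (⟨y, hy⟩ - z) j = p * c := fun j => by
        have := congrFun (show ρ (⟨y, hy⟩ - z) = 0 by rw [map_sub, z2, sub_self]) j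
        exact (ZMod.intCast_zmod_eq_zero_iff_dvd _ p).1 this
      choose c hc using this
      have h3 : (⟨y, hy⟩ - z : W) = (p : ℤ) • e.symm c := by
        apply e.injective
        rw [map_smul, e.apply_symm_apply]
        exact funext hc
      have h4 : y = z + (p : ℤ) • (e.symm c : κ → ℤ) := by
        have := congrArg Subtype.val h3
        simp only [AddSubgroupClass.coe_sub, SetLike.val_smul] at this
        rw [← this]; abel
      rw [h4]
      exact Submodule.add_mem_sup z1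
        (Submodule.smul_mem_smul (Ideal.mem_span_singleton_self _) (e.symm c).2))
  exact ⟨S, n, (Finset.card_image_le.trans (by simp)).trans hc, Ideal.mem_span_singleton.1 h1,
    fun y hy => h2 (Submodule.smul_mem_pointwise_smul y n W hy)⟩

theorem core {κ ι D : Type} [Fintype κ] [AddCommGroup D] (hD : Module.Baer ℤ D)
    (Y : ι → Submodule ℤ (κ → ℤ)) (φ : ι → (κ → ℤ) →ₗ[ℤ] D)
    (h : ∀ S : Finset ι, S.card ≤ 1 + Fintype.card κ →
      ∃ ψ : (κ → ℤ) →ₗ[ℤ] D, ∀ i ∈ S, ∀ y ∈ Y i, ψ y = φ i y) :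
    ∃ ψ : (κ → ℤ) →ₗ[ℤ] D, ∀ i, ∀ y ∈ Y i, ψ y = φ i y := by
  classical
  let gr : ι → Submodule ℤ ((κ → ℤ) × D) := fun i => (Y i).map (LinearMap.id.prod (φ i))
  have key : ∀ d, (0, d) ∈ ⨆ i, gr i → d = 0 := by
    intro d hd
    by_contra h0
    obtain ⟨p, hp, hpo⟩ := Nat.exists_prime_and_dvd (n := addOrderOf d)
      (fun e => h0 (AddMonoid.addOrderOf_eq_one_iff.1 e))
    obtain ⟨S, n, h1, h2, h3⟩ := nak Y p hp
    obtain ⟨ψ', h4⟩ := h S (by omega)
    have h5 : ∀ x ∈ ⨆ i, gr i, ψ' (n • x.1) = n • x.2 := by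
      intro x hx
      induction hx using Submodule.iSup_induction' with
      | mem j x hx =>
        obtain ⟨y, hy, rfl⟩ := hx
        obtain ⟨ψ, h6⟩ := h (insert j S) ((Finset.card_insert_le _ _).trans (by omega))
        have h7 : (⨆ i ∈ S, Y i) ≤ LinearMap.ker (ψ' - ψ) := iSup₂_le fun i hi z hz => by
          simp [h4 i hi z hz, h6 i (Finset.mem_insert_of_mem hi) z hz]
        have h8 := h7 (h3 y (Submodule.mem_iSup_of_mem j hy))
        rw [LinearMap.mem_ker, LinearMap.sub_apply, sub_eq_zero] at h8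
        show ψ' (n • y) = n • φ j y
        rw [h8, map_smul, h6 j (Finset.mem_insert_self _ _) y hy]
      | zero => simp
      | add x y _ _ hx hy => rw [Prod.fst_add, Prod.snd_add, smul_add, smul_add, map_add, hx, hy]
    have h6 : n • d = 0 := by simpa using (h5 _ hd).symm
    have h7 : (p : ℤ) ∣ n := (Int.natCast_dvd_natCast.2 hpo).trans
      (addOrderOf_dvd_iff_zsmul_eq_zero.2 h6)
    have h8 : (p : ℤ) ∣ 1 := by simpa using dvd_sub h7 h2
    exact hp.one_lt.ne' (by simpa using Int.natCast_dvd.1 h8)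
  obtain ⟨ψ, hψ⟩ := hD.extension_property ((LinearMap.fst ℤ _ _).comp (⨆ i, gr i).subtype)
    (by
      rw [← LinearMap.ker_eq_bot, eq_bot_iff]
      rintro ⟨⟨a, d⟩, hx⟩ h1
      have : a = 0 := h1
      subst this
      exact Subtype.ext (Prod.ext rfl (key d hx)))
    ((LinearMap.snd ℤ _ _).comp (⨆ i, gr i).subtype)
  exact ⟨ψ, fun i y hy => LinearMap.congr_fun hψ
    ⟨(y, φ i y), Submodule.mem_iSup_of_mem i ⟨y, hy, rfl⟩⟩⟩

theorem ded {α H K : Type} [Monoid H] [Field K] (s : Finset α) (c : α → K) (ψ : α → (H →* K))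
    (h : ∀ x, ∑ d ∈ s, c d * ψ d x = 0) (τ : α → K) (hτ : ∀ d e, ψ d = ψ e → τ d = τ e) :
    ∑ d ∈ s, c d * τ d = 0 := by
  classical
  have h1 := linearIndependent_iff'.1 (linearIndependent_monoidHom H K) (s.image ψ)
    (fun φ => ∑ d ∈ s with ψ d = φ, c d) (by
      funext x
      rw [Finset.sum_apply, Pi.zero_apply, ← h x,
        ← Finset.sum_fiberwise_of_maps_to (fun d hd => Finset.mem_image_of_mem ψ hd)]
      refine Finset.sum_congr rfl fun φ _ => ?_
      rw [Pi.smul_apply, smul_eq_mul, Finset.sum_mul]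
      exact Finset.sum_congr rfl fun d hd => by rw [(Finset.mem_filter.1 hd).2])
  rw [← Finset.sum_fiberwise_of_maps_to (fun d hd => Finset.mem_image_of_mem ψ hd)]
  refine Finset.sum_eq_zero fun φ hφ => ?_
  obtain ⟨e, -, rfl⟩ := Finset.mem_image.1 hφ
  rw [← zero_mul (τ e), ← h1 _ hφ, Finset.sum_mul]
  exact Finset.sum_congr rfl fun d hd => by rw [hτ d e (Finset.mem_filter.1 hd).2]

theorem baer (K : Type) [Field K] [IsAlgClosed K] : Module.Baer ℤ (Additive Kˣ) := by
  let _ : DivisibleBy (Additive Kˣ) ℕ := divisibleByOfSMulRightSurj _ _ fun {n} hn x => by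
    obtain ⟨z, hz⟩ := IsAlgClosed.exists_pow_nat_eq (x.toMul : K) (Nat.pos_of_ne_zero hn)
    have : z ≠ 0 := by rintro rfl; exact x.toMul.ne_zero (by rw [← hz, zero_pow hn])
    exact ⟨Additive.ofMul (Units.mk0 z this), Additive.toMul.injective (Units.ext (by simpa using hz))⟩
  let _ := AddGroup.divisibleByIntOfDivisibleByNat (Additive Kˣ)
  exact Module.Baer.of_divisible _

end Pool.Agent.H12.Helly
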