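import Mathlib

/-! A strict form of Young's convolution inequality for the exponents `4/3, 4/3, 2`. -/

set_option autoImplicit false

namespace Pool.Agent.H12.Hilb

open Set MeasureTheory Filter Topology
open scoped NNReal ENNReal

theorem amgm (x k θ : ℝ≥0) (hθ : 0 < θ) :
    x ^ 3 * k ≤ θ / 2 * x ^ 4 + 1 / (2 * θ) * (x ^ 2 * k ^ 2) := by
  rw [← NNReal.coe_le_coe]
  push_cast
  have h : (0 : ℝ) < θ := hθ
  have e : (θ : ℝ) / 2 * x ^ 4 + 1 / (2 * θ) * (x ^ 2 * k ^ 2) - x ^ 3 * k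
      = (θ * x ^ 2 - x * k) ^ 2 / (2 * θ) := by field_simp; ring
  have : 0 ≤ ((θ : ℝ) * x ^ 2 - x * k) ^ 2 / (2 * θ) := by positivity
  linarith

theorem near (a b c : ℝ≥0) (hc : c ≤ 1) :
    c * b ^ 4 + 12 * (a ^ 2 * b ^ 2) ≤ 6 / 5 * (c * a ^ 4) + 6 * (a ^ 4 + b ^ 4) := by
  rw [← NNReal.coe_le_coe]
  push_cast
  have h1 : (c : ℝ) ≤ 1 := hc
  have h0 : (0 : ℝ) ≤ c := c.2
  have h2 : 0 ≤ (c : ℝ) * (6 * (a : ℝ) ^ 2 - 5 * b ^ 2) ^ 2 := by positivity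
  have h3 : 0 ≤ (1 - (c : ℝ)) * ((a : ℝ) ^ 2 - b ^ 2) ^ 2 := mul_nonneg (by linarith) (sq_nonneg _)
  nlinarith

section

variable {α β : ℝ → ℝ≥0}

noncomputable def AA (α β : ℝ → ℝ≥0) (n : ℕ) (h : ℝ) : ℝ≥0∞ :=
  ∫⁻ t, ((α (t + h) * β t : ℝ≥0) : ℝ≥0∞) ^ n

theorem AA_meas (hα : Measurable α) (hβ : Measurable β) (n : ℕ) : Measurable (AA α β n) :=
  Measurable.lintegral_prod_right' (f := fun w : ℝ × ℝ =>
    ((α (w.2 + w.1) * β w.2 : ℝ≥0) : ℝ≥0∞) ^ n) (by fun_prop)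

theorem step1 (hα : Measurable α) (hβ : Measurable β) (k θ : ℝ≥0) (hθ : 0 < θ) (h : ℝ) :
    AA α β 3 h * k ≤ ((θ / 2 : ℝ≥0) : ℝ≥0∞) * AA α β 4 h
      + ((1 / (2 * θ) : ℝ≥0) : ℝ≥0∞) * (AA α β 2 h * (k : ℝ≥0∞) ^ 2) := by
  unfold AA
  rw [← lintegral_mul_const _ (by fun_prop), ← lintegral_mul_const _ (by fun_prop),
    ← lintegral_const_mul _ (by fun_prop), ← lintegral_const_mul _ (by fun_prop),
    ← lintegral_add_left (by fun_prop)]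
  refine lintegral_mono fun t => ?_
  have := ENNReal.coe_le_coe.2 (amgm (α (t + h) * β t) k θ hθ)
  simpa only [ENNReal.coe_add, ENNReal.coe_mul, ENNReal.coe_pow] using this

theorem step3 (hα : Measurable α) (hβ : Measurable β) (h1 : ∫⁻ t, (α t : ℝ≥0∞) ^ 4 ≤ 1)
    (h2 : ∫⁻ t, (β t : ℝ≥0∞) ^ 4 ≤ 1) (h : ℝ) : AA α β 2 h ≤ 1 := by
  have e : ∫⁻ t, (α (t + h) : ℝ≥0∞) ^ 4 = ∫⁻ t, (α t : ℝ≥0∞) ^ 4 :=
    lintegral_add_right_eq_self (fun t => (α t : ℝ≥0∞) ^ 4) h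
  have h3 : 2 * AA α β 2 h ≤ 2 * 1 := by
    calc 2 * AA α β 2 h ≤ ∫⁻ t, ((α (t + h) : ℝ≥0∞) ^ 4 + (β t : ℝ≥0∞) ^ 4) := by
          unfold AA
          rw [← lintegral_const_mul _ (by fun_prop)]
          refine lintegral_mono fun t => ?_
          have : 2 * (α (t + h) * β t) ^ 2 ≤ α (t + h) ^ 4 + β t ^ 4 := by
            rw [← NNReal.coe_le_coe]
            push_cast
            nlinarith [sq_nonneg ((α (t + h) : ℝ) ^ 2 - (β t) ^ 2)]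
          have := ENNReal.coe_le_coe.2 this
          simpa only [ENNReal.coe_add, ENNReal.coe_mul, ENNReal.coe_pow, ENNReal.coe_ofNat]
            using this
      _ ≤ 2 * 1 := by
          rw [lintegral_add_left (by fun_prop), e, two_mul]
          exact add_le_add h1 h2
  exact (ENNReal.mul_le_mul_iff_right (by norm_num) (by norm_num)).1 h3

noncomputable def cc (α : ℝ → ℝ≥0) (W : Set ℝ) (t : ℝ) : ℝ≥0∞ :=
  ∫⁻ s, W.indicator (1 : ℝ → ℝ≥0∞) (s - t) * (α s : ℝ≥0∞) ^ 4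

theorem cc_meas (hα : Measurable α) {W : Set ℝ} (hW : MeasurableSet W) : Measurable (cc α W) :=
  Measurable.lintegral_prod_right' (f := fun w : ℝ × ℝ =>
    W.indicator (1 : ℝ → ℝ≥0∞) (w.2 - w.1) * (α w.2 : ℝ≥0∞) ^ 4)
    (((measurable_one.indicator hW).comp (by fun_prop)).mul (by fun_prop))

theorem ind_meas (hα : Measurable α) {W : Set ℝ} (hW : MeasurableSet W) (t : ℝ) :
    Measurable fun s => W.indicator (1 : ℝ → ℝ≥0∞) (s - t) * (α s : ℝ≥0∞) ^ 4 :=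
  ((measurable_one.indicator hW).comp (by fun_prop)).mul (by fun_prop)

theorem mass_eq (hα : Measurable α) (hβ : Measurable β) {W : Set ℝ} (hW : MeasurableSet W) :
    ∫⁻ h in W, AA α β 4 h = ∫⁻ t, cc α W t * (β t : ℝ≥0∞) ^ 4 := by
  unfold AA
  rw [lintegral_lintegral_swap (by fun_prop)]
  refine lintegral_congr fun t => ?_
  unfold cc
  rw [← lintegral_mul_const _ (ind_meas hα hW t), ← lintegral_indicator hW,
    ← lintegral_add_left_eq_self (μ := volume) (fun s => W.indicator (1 : ℝ → ℝ≥0∞) (s - t)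
      * (α s : ℝ≥0∞) ^ 4 * (β t : ℝ≥0∞) ^ 4) t]
  refine lintegral_congr fun h => ?_
  rw [add_sub_cancel_left]
  by_cases hh : h ∈ W
  · simp [hh, mul_pow]
  · simp [hh]

theorem cc_le (h1 : ∫⁻ t, (α t : ℝ≥0∞) ^ 4 ≤ 1) (W : Set ℝ) (t : ℝ) : cc α W t ≤ 1 := by
  refine le_trans (lintegral_mono fun s => ?_) h1
  by_cases hh : s - t ∈ W <;> simp [hh]

theorem step2 (hα : Measurable α) (hβ : Measurable β) (h1 : ∫⁻ t, (α t : ℝ≥0∞) ^ 4 ≤ 1)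
    (h2 : ∫⁻ t, (β t : ℝ≥0∞) ^ 4 ≤ 1) {W : Set ℝ} (hW : MeasurableSet W) :
    ∫⁻ h in W, AA α β 4 h ≤ 1 := by
  rw [mass_eq hα hβ hW]
  refine le_trans (lintegral_mono fun t => ?_) h2
  exact mul_le_of_le_one_left' (cc_le h1 W t)

theorem step4a (hα : Measurable α) (hβ : Measurable β) (h1 : ∫⁻ t, (α t : ℝ≥0∞) ^ 4 ≤ 1)
    (h2 : ∫⁻ t, (β t : ℝ≥0∞) ^ 4 ≤ 1) {W : Set ℝ} (hW : MeasurableSet W) (h : ℝ) :
    (∫⁻ h in W, AA α β 4 h) + 12 * AA α β 2 h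
      ≤ ((6 / 5 : ℝ≥0) : ℝ≥0∞) * (∫⁻ t, cc α W (t - h) * (α t : ℝ≥0∞) ^ 4) + 12 := by
  have hc := cc_meas hα hW
  have e : ∫⁻ t, (α (t + h) : ℝ≥0∞) ^ 4 = ∫⁻ t, (α t : ℝ≥0∞) ^ 4 :=
    lintegral_add_right_eq_self (fun t => (α t : ℝ≥0∞) ^ 4) h
  have e2 : ∫⁻ t, cc α W (t - h) * (α t : ℝ≥0∞) ^ 4
      = ∫⁻ t, cc α W t * (α (t + h) : ℝ≥0∞) ^ 4 := by
    rw [← lintegral_add_right_eq_self _ h]
    simp only [add_sub_cancel_right]
  have e3 : (6 : ℝ≥0∞) * ∫⁻ t, ((α (t + h) : ℝ≥0∞) ^ 4 + (β t : ℝ≥0∞) ^ 4) ≤ 12 := by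
    rw [lintegral_add_left (by fun_prop), e]
    calc _ ≤ (6 : ℝ≥0∞) * (1 + 1) := mul_le_mul_right (add_le_add h1 h2) _
      _ = 12 := by norm_num
  refine le_trans ?_ (add_le_add_right e3 _)
  rw [mass_eq hα hβ hW, e2]
  unfold AA
  rw [← lintegral_const_mul _ (by fun_prop), ← lintegral_const_mul _ (by fun_prop),
    ← lintegral_const_mul _ (by fun_prop), ← lintegral_add_left (by fun_prop),
    ← lintegral_add_left (by fun_prop)]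
  refine lintegral_mono fun t => ?_
  have h3 := cc_le h1 W t
  lift cc α W t to ℝ≥0 using (ne_top_of_le_ne_top ENNReal.one_ne_top h3) with c
  have := near (α (t + h)) (β t) c (by exact_mod_cast h3)
  rw [← mul_pow] at this
  exact_mod_cast this

theorem step4 (hα : Measurable α) (hβ : Measurable β) (h1 : ∫⁻ t, (α t : ℝ≥0∞) ^ 4 ≤ 1)
    (h2 : ∫⁻ t, (β t : ℝ≥0∞) ^ 4 ≤ 1) (R h₁ h₂ : ℝ) (hh : 2 * R < h₂ - h₁)
    (g1 : 1 ≤ AA α β 2 h₁ + ((1 / 300 : ℝ≥0) : ℝ≥0∞))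
    (g2 : 1 ≤ AA α β 2 h₂ + ((1 / 300 : ℝ≥0) : ℝ≥0∞)) :
    ∫⁻ h in Icc (-R) R, AA α β 4 h ≤ ((16 / 25 : ℝ≥0) : ℝ≥0∞) := by
  have hW : MeasurableSet (Icc (-R) R) := measurableSet_Icc
  have hc := cc_meas hα hW
  have a1 := step4a hα hβ h1 h2 hW h₁
  have a2 := step4a hα hβ h1 h2 hW h₂
  have a3 : (∫⁻ t, cc α (Icc (-R) R) (t - h₁) * (α t : ℝ≥0∞) ^ 4)
      + (∫⁻ t, cc α (Icc (-R) R) (t - h₂) * (α t : ℝ≥0∞) ^ 4) ≤ 1 := by
    rw [← lintegral_add_left (by fun_prop)]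
    refine le_trans (lintegral_mono fun t => ?_) h1
    rw [← add_mul]
    refine mul_le_of_le_one_left' ?_
    unfold cc
    rw [← lintegral_add_left (ind_meas hα hW _)]
    refine le_trans (lintegral_mono fun s => ?_) h1
    by_cases c1 : s - (t - h₁) ∈ Icc (-R) R
    · have c2 : s - (t - h₂) ∉ Icc (-R) R := fun c2 => by linarith [c1.1, c2.2]
      simp [c1, c2]
    · by_cases c2 : s - (t - h₂) ∈ Icc (-R) R <;> simp [c1, c2]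
  have b0 := step2 hα hβ h1 h2 hW
  have b1 := step3 hα hβ h1 h2 h₁
  have b2 := step3 hα hβ h1 h2 h₂
  lift ∫⁻ h in Icc (-R) R, AA α β 4 h to ℝ≥0 using (ne_top_of_le_ne_top ENNReal.one_ne_top b0)
    with M
  lift AA α β 2 h₁ to ℝ≥0 using (ne_top_of_le_ne_top ENNReal.one_ne_top b1) with B₁
  lift AA α β 2 h₂ to ℝ≥0 using (ne_top_of_le_ne_top ENNReal.one_ne_top b2) with B₂
  lift ∫⁻ t, cc α (Icc (-R) R) (t - h₁) * (α t : ℝ≥0∞) ^ 4 to ℝ≥0 using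
    (ne_top_of_le_ne_top ENNReal.one_ne_top (le_trans le_self_add a3)) with M₁
  lift ∫⁻ t, cc α (Icc (-R) R) (t - h₂) * (α t : ℝ≥0∞) ^ 4 to ℝ≥0 using
    (ne_top_of_le_ne_top ENNReal.one_ne_top (le_trans le_add_self a3)) with M₂
  have a1' : (M : ℝ) + 12 * B₁ ≤ 6 / 5 * M₁ + 12 := by exact_mod_cast a1
  have a2' : (M : ℝ) + 12 * B₂ ≤ 6 / 5 * M₂ + 12 := by exact_mod_cast a2
  have a3' : (M₁ : ℝ) + M₂ ≤ 1 := by exact_mod_cast a3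
  have g1' : (1 : ℝ) ≤ B₁ + 1 / 300 := by exact_mod_cast g1
  have g2' : (1 : ℝ) ≤ B₂ + 1 / 300 := by exact_mod_cast g2
  have : (M : ℝ) ≤ 16 / 25 := by linarith
  exact_mod_cast this

theorem piece (hα : Measurable α) (hβ : Measurable β) {k : ℝ → ℝ≥0} (hk : Measurable k)
    (W : Set ℝ) (θ : ℝ≥0) (hθ : 0 < θ) :
    ∫⁻ h in W, AA α β 3 h * k h ≤ ((θ / 2 : ℝ≥0) : ℝ≥0∞) * (∫⁻ h in W, AA α β 4 h)
      + ((1 / (2 * θ) : ℝ≥0) : ℝ≥0∞) * ∫⁻ h in W, AA α β 2 h * (k h : ℝ≥0∞) ^ 2 := by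
  have m2 := AA_meas hα hβ 2
  have m4 := AA_meas hα hβ 4
  rw [← lintegral_const_mul _ (by fun_prop), ← lintegral_const_mul _ (by fun_prop),
    ← lintegral_add_left (by fun_prop)]
  exact lintegral_mono fun h => step1 hα hβ (k h) θ hθ h

end

theorem core {k : ℝ → ℝ≥0} (hk : Measurable k) (hk0 : ∀ h, 0 < k h) {σ : ℝ≥0} (hσ : 0 < σ)
    (hP : ∫⁻ h, (k h : ℝ≥0∞) ^ 2 ≤ ((σ ^ 2 : ℝ≥0) : ℝ≥0∞)) :
    ∃ C : ℝ≥0, 0 < C ∧ C < σ ∧ ∀ α β : ℝ → ℝ≥0, Measurable α → Measurable β →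
      ∫⁻ t, (α t : ℝ≥0∞) ^ 4 ≤ 1 → ∫⁻ t, (β t : ℝ≥0∞) ^ 4 ≤ 1 →
      ∫⁻ h, AA α β 3 h * k h ≤ C := by
  have hfin : ∀ W : Set ℝ, ∫⁻ h in W, (k h : ℝ≥0∞) ^ 2 ≤ ((σ ^ 2 : ℝ≥0) : ℝ≥0∞) := fun W =>
    le_trans (setLIntegral_le_lintegral _ _) hP
  obtain ⟨R, hR0, hR⟩ : ∃ R : ℝ, 0 ≤ R ∧
      ∫⁻ h in (Icc (-R) R)ᶜ, (k h : ℝ≥0∞) ^ 2 ≤ ((σ ^ 2 / 100 : ℝ≥0) : ℝ≥0∞) := by
    let ν : Measure ℝ := volume.withDensity fun h => (k h : ℝ≥0∞) ^ 2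
    have hν : ∀ W : Set ℝ, MeasurableSet W → ν W = ∫⁻ h in W, (k h : ℝ≥0∞) ^ 2 :=
      fun W hW => withDensity_apply _ hW
    have h1 := tendsto_measure_iInter_atTop (μ := ν) (s := fun n : ℕ => (Icc (-(n : ℝ)) n)ᶜ)
      (fun n => measurableSet_Icc.compl.nullMeasurableSet)
      (fun m n hmn => compl_subset_compl.2 (Icc_subset_Icc (by simpa using hmn)
        (by simpa using hmn)))
      ⟨0, by rw [hν _ measurableSet_Icc.compl]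
             exact ne_top_of_le_ne_top ENNReal.coe_ne_top (hfin _)⟩
    have h2 : (⋂ n : ℕ, (Icc (-(n : ℝ)) n)ᶜ) = ∅ := by
      refine eq_empty_of_forall_notMem fun x hx => ?_
      obtain ⟨n, hn⟩ := exists_nat_ge |x|
      exact mem_iInter.1 hx n (abs_le.1 hn)
    rw [h2, measure_empty] at h1
    have h3 : (0 : ℝ≥0∞) < ((σ ^ 2 / 100 : ℝ≥0) : ℝ≥0∞) := by
      exact_mod_cast (by positivity : (0 : ℝ≥0) < σ ^ 2 / 100)
    obtain ⟨n, hn⟩ := (h1.eventually (gt_mem_nhds h3)).exists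
    refine ⟨n, Nat.cast_nonneg n, ?_⟩
    rw [← hν _ measurableSet_Icc.compl]
    exact hn.le
  have hpos : ∀ a : ℝ, 0 < ∫⁻ h in Icc a (a + 1), (k h : ℝ≥0∞) ^ 2 := by
    intro a
    rw [setLIntegral_pos_iff (by fun_prop)]
    have : (Function.support fun h => (k h : ℝ≥0∞) ^ 2) = univ := by
      refine eq_univ_of_forall fun h => ?_
      simpa using (hk0 h).ne'
    rw [this, univ_inter]
    simp
  obtain ⟨m, hm0, hm1, hm2⟩ : ∃ m : ℝ≥0, 0 < m ∧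
      (m : ℝ≥0∞) ≤ ∫⁻ h in Icc (-R - 2) (-R - 2 + 1), (k h : ℝ≥0∞) ^ 2 ∧
      (m : ℝ≥0∞) ≤ ∫⁻ h in Icc (R + 1) (R + 1 + 1), (k h : ℝ≥0∞) ^ 2 := by
    obtain ⟨m, h1, h2⟩ := ENNReal.lt_iff_exists_nnreal_btwn.1
      (lt_min (hpos (-R - 2)) (hpos (R + 1)))
    exact ⟨m, by exact_mod_cast h1, (lt_min_iff.1 h2).1.le, (lt_min_iff.1 h2).2.le⟩
  have hσ' : (0 : ℝ) < σ := hσ
  have hm' : (0 : ℝ) < m := hm0
  refine ⟨max (9 / 10 * σ) (σ - m / (600 * σ)), lt_max_of_lt_left (by positivity),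
    max_lt ?_ (tsub_lt_self hσ (by positivity)), fun α β hα hβ h1 h2 => ?_⟩
  · rw [← NNReal.coe_lt_coe]
    push_cast
    linarith
  have m2 := AA_meas hα hβ 2
  have hB : ∀ W : Set ℝ, ∫⁻ h in W, AA α β 2 h * (k h : ℝ≥0∞) ^ 2
      ≤ ∫⁻ h in W, (k h : ℝ≥0∞) ^ 2 := fun W =>
    lintegral_mono fun h => mul_le_of_le_one_left' (step3 hα hβ h1 h2 h)
  have case2 : ∀ I : Set ℝ, MeasurableSet I → (m : ℝ≥0∞) ≤ ∫⁻ h in I, (k h : ℝ≥0∞) ^ 2 →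
      (∀ h ∈ I, AA α β 2 h + ((1 / 300 : ℝ≥0) : ℝ≥0∞) ≤ 1) →
      ∫⁻ h, AA α β 3 h * k h ≤ ((σ - m / (600 * σ) : ℝ≥0) : ℝ≥0∞) := by
    intro I hI hmI hBI
    have p1 := piece hα hβ hk univ σ hσ
    have p2 := step2 hα hβ h1 h2 MeasurableSet.univ
    rw [Measure.restrict_univ] at p1 p2
    have p3 : (∫⁻ h, AA α β 2 h * (k h : ℝ≥0∞) ^ 2) + ((1 / 300 : ℝ≥0) : ℝ≥0∞) * m
        ≤ ((σ ^ 2 : ℝ≥0) : ℝ≥0∞) := by
      refine le_trans ?_ hP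
      rw [← lintegral_add_compl _ hI, ← lintegral_add_compl (fun h => (k h : ℝ≥0∞) ^ 2) hI,
        add_right_comm]
      refine add_le_add (le_trans (add_le_add_right (mul_le_mul_right hmI _) _) ?_) (hB _)
      rw [← lintegral_const_mul _ (by fun_prop), ← lintegral_add_left (by fun_prop)]
      refine setLIntegral_mono (by fun_prop) fun h hh => ?_
      rw [← add_mul]
      exact mul_le_of_le_one_left' (hBI h hh)
    lift ∫⁻ h, AA α β 2 h * (k h : ℝ≥0∞) ^ 2 to ℝ≥0 using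
      (ne_top_of_le_ne_top ENNReal.coe_ne_top (le_trans le_self_add p3)) with X
    refine le_trans p1 (le_trans (add_le_add_left (mul_le_mul_right p2 _) _) ?_)
    have p4 : (X : ℝ) + 1 / 300 * m ≤ σ ^ 2 := by exact_mod_cast p3
    have p5 : σ / 2 * 1 + 1 / (2 * σ) * X ≤ σ - m / (600 * σ) := by
      refine le_tsub_of_add_le_right ?_
      rw [← NNReal.coe_le_coe]
      push_cast
      have : (σ : ℝ) / 2 * 1 + 1 / (2 * σ) * X + m / (600 * σ)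
          = σ / 2 + (X + 1 / 300 * m) / (2 * σ) := by field_simp; ring
      rw [this]
      have : ((X : ℝ) + 1 / 300 * m) / (2 * σ) ≤ σ / 2 := by
        rw [div_le_iff₀ (by positivity)]; nlinarith
      linarith
    exact_mod_cast p5
  by_cases c1 : ∀ h ∈ Icc (-R - 2) (-R - 2 + 1), AA α β 2 h + ((1 / 300 : ℝ≥0) : ℝ≥0∞) ≤ 1
  · exact le_trans (case2 _ measurableSet_Icc hm1 c1) (by exact_mod_cast le_max_right _ _)
  by_cases c2 : ∀ h ∈ Icc (R + 1) (R + 1 + 1), AA α β 2 h + ((1 / 300 : ℝ≥0) : ℝ≥0∞) ≤ 1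
  · exact le_trans (case2 _ measurableSet_Icc hm2 c2) (by exact_mod_cast le_max_right _ _)
  push Not at c1 c2
  obtain ⟨h₁, i1, g1⟩ := c1
  obtain ⟨h₂, i2, g2⟩ := c2
  have q1 := step4 hα hβ h1 h2 R h₁ h₂ (by linarith [i1.2, i2.1]) g1.le g2.le
  have q2 := step2 hα hβ h1 h2 (measurableSet_Icc (a := -R) (b := R)).compl
  have q3 := piece hα hβ hk (Icc (-R) R) (5 / 4 * σ) (by positivity)
  have q4 := piece hα hβ hk (Icc (-R) R)ᶜ (σ / 10) (by positivity)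
  rw [← lintegral_add_compl _ (measurableSet_Icc (a := -R) (b := R))]
  refine le_trans (add_le_add
    (le_trans q3 (add_le_add (mul_le_mul_right q1 _)
      (mul_le_mul_right (le_trans (hB _) (hfin _)) _)))
    (le_trans q4 (add_le_add (mul_le_mul_right q2 _)
      (mul_le_mul_right (le_trans (hB _) hR) _)))) ?_
  have q5 : 5 / 4 * σ / 2 * (16 / 25) + 1 / (2 * (5 / 4 * σ)) * σ ^ 2
      + (σ / 10 / 2 * 1 + 1 / (2 * (σ / 10)) * (σ ^ 2 / 100)) = 9 / 10 * σ := by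
    rw [← NNReal.coe_inj]
    push_cast
    field_simp
    ring
  have q6 := le_trans q5.le (le_max_left (9 / 10 * σ) (σ - m / (600 * σ)))
  exact_mod_cast q6

end Pool.Agent.H12.Hilb
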