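import Pool.Agent.H12.Hilb1

/-! The Hilbert-type inequality with `p = q = 4/3` holds with a constant below `√π`. -/

set_option autoImplicit false

namespace Pool.Agent.H12.Hilb

open Set MeasureTheory Filter Topology
open scoped NNReal ENNReal

theorem homog {k : ℝ → ℝ≥0} (hk : Measurable k) {C : ℝ≥0} (hC : 0 < C)
    (h : ∀ α β : ℝ → ℝ≥0, Measurable α → Measurable β →
      ∫⁻ t, (α t : ℝ≥0∞) ^ 4 ≤ 1 → ∫⁻ t, (β t : ℝ≥0∞) ^ 4 ≤ 1 →
      ∫⁻ h, AA α β 3 h * k h ≤ C)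
    (α β : ℝ → ℝ≥0) (hα : Measurable α) (hβ : Measurable β) :
    ∫⁻ h, AA α β 3 h * k h ≤ C * (∫⁻ t, (α t : ℝ≥0∞) ^ 4) ^ (3 / 4 : ℝ)
      * (∫⁻ t, (β t : ℝ≥0∞) ^ 4) ^ (3 / 4 : ℝ) := by
  by_cases ha0 : ∫⁻ t, (α t : ℝ≥0∞) ^ 4 = 0
  · have : ∀ h, AA α β 3 h = 0 := by
      intro h
      have e : ∫⁻ t, (α (t + h) : ℝ≥0∞) ^ 4 = 0 :=
        (lintegral_add_right_eq_self (fun t => (α t : ℝ≥0∞) ^ 4) h).trans ha0
      rw [lintegral_eq_zero_iff (by fun_prop)] at e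
      unfold AA
      rw [lintegral_eq_zero_iff (by fun_prop)]
      filter_upwards [e] with t ht
      have : α (t + h) = 0 := by simpa using ht
      simp [this]
    simp [this]
  by_cases hb0 : ∫⁻ t, (β t : ℝ≥0∞) ^ 4 = 0
  · have : ∀ h, AA α β 3 h = 0 := by
      intro h
      have e := hb0
      rw [lintegral_eq_zero_iff (by fun_prop)] at e
      unfold AA
      rw [lintegral_eq_zero_iff (by fun_prop)]
      filter_upwards [e] with t ht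
      have : β t = 0 := by simpa using ht
      simp [this]
    simp [this]
  have hC' : (C : ℝ≥0∞) ≠ 0 := by exact_mod_cast hC.ne'
  have hp : (0 : ℝ) < 3 / 4 := by norm_num
  by_cases hat : ∫⁻ t, (α t : ℝ≥0∞) ^ 4 = ⊤
  · rw [hat, ENNReal.top_rpow_of_pos hp, ENNReal.mul_top hC', ENNReal.top_mul]
    · exact le_top
    · exact (ENNReal.rpow_pos_of_nonneg (pos_iff_ne_zero.2 hb0) hp.le).ne'
  by_cases hbt : ∫⁻ t, (β t : ℝ≥0∞) ^ 4 = ⊤
  · rw [hbt, ENNReal.top_rpow_of_pos hp, ENNReal.mul_top]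
    · exact le_top
    · exact mul_ne_zero hC' (ENNReal.rpow_pos_of_nonneg (pos_iff_ne_zero.2 ha0) hp.le).ne'
  obtain ⟨a, ha⟩ : ∃ a : ℝ≥0, ∫⁻ t, (α t : ℝ≥0∞) ^ 4 = a := ⟨_, (ENNReal.coe_toNNReal hat).symm⟩
  obtain ⟨b, hb⟩ : ∃ b : ℝ≥0, ∫⁻ t, (β t : ℝ≥0∞) ^ 4 = b := ⟨_, (ENNReal.coe_toNNReal hbt).symm⟩
  have ha1 : a ≠ 0 := fun e => ha0 (by rw [ha, e]; rfl)
  have hb1 : b ≠ 0 := fun e => hb0 (by rw [hb, e]; rfl)
  have r4 : ∀ a : ℝ≥0, (a ^ (1 / 4 : ℝ)) ^ 4 = a := fun a => by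
    rw [← NNReal.rpow_natCast, ← NNReal.rpow_mul]; norm_num
  have r3 : ∀ a : ℝ≥0, (a ^ (1 / 4 : ℝ)) ^ 3 = a ^ (3 / 4 : ℝ) := fun a => by
    rw [← NNReal.rpow_natCast, ← NNReal.rpow_mul]; norm_num
  set ρ := a ^ (1 / 4 : ℝ) with hρ
  set τ := b ^ (1 / 4 : ℝ) with hτ
  have hρ0 : ρ ≠ 0 := fun e => ha1 (by rw [← r4 a, ← hρ, e]; norm_num)
  have hτ0 : τ ≠ 0 := fun e => hb1 (by rw [← r4 b, ← hτ, e]; norm_num)
  have nrm : ∀ (α : ℝ → ℝ≥0) (a ρ : ℝ≥0), Measurable α → ∫⁻ t, (α t : ℝ≥0∞) ^ 4 = a →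
      ρ ^ 4 = a → ρ ≠ 0 → ∫⁻ t, ((ρ⁻¹ * α t : ℝ≥0) : ℝ≥0∞) ^ 4 ≤ 1 := by
    intro α a ρ hα ha h4 h0
    simp only [ENNReal.coe_mul, mul_pow]
    rw [lintegral_const_mul _ (by fun_prop), ha, ← h4, ← ENNReal.coe_pow, ← ENNReal.coe_mul,
      ← mul_pow, inv_mul_cancel₀ h0, one_pow, ENNReal.coe_one]
  have key := h (fun t => ρ⁻¹ * α t) (fun t => τ⁻¹ * β t) (by fun_prop) (by fun_prop)
    (nrm α a ρ hα ha (r4 a) hρ0) (nrm β b τ hβ hb (r4 b) hτ0)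
  have m3 := AA_meas (α := fun t => ρ⁻¹ * α t) (β := fun t => τ⁻¹ * β t) (by fun_prop)
    (by fun_prop) 3
  have e : ∀ h, AA α β 3 h = ((ρ ^ 3 * τ ^ 3 : ℝ≥0) : ℝ≥0∞) *
      AA (fun t => ρ⁻¹ * α t) (fun t => τ⁻¹ * β t) 3 h := by
    intro h
    unfold AA
    rw [← lintegral_const_mul _ (by fun_prop)]
    refine lintegral_congr fun t => ?_
    rw [← ENNReal.coe_pow, ← ENNReal.coe_pow, ← ENNReal.coe_mul]
    congr 1
    field_simp
  simp_rw [e, mul_assoc]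
  rw [lintegral_const_mul _ (by fun_prop), ha, hb, ← ENNReal.coe_rpow_of_nonneg _ hp.le,
    ← ENNReal.coe_rpow_of_nonneg _ hp.le, ← r3 a, ← r3 b, mul_comm (C : ℝ≥0∞),
    ← ENNReal.coe_mul]
  exact mul_le_mul_right key _

theorem subst_exp (c : ℝ) (hc : 0 < c) (H : ℝ → ℝ≥0∞) :
    ∫⁻ x in Ioi (0 : ℝ), H x
      = ∫⁻ s, ENNReal.ofReal (c * Real.exp (c * s)) * H (Real.exp (c * s)) := by
  have h1 : (fun s => Real.exp (c * s)) '' univ = Ioi 0 := by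
    ext x
    constructor
    · rintro ⟨s, -, rfl⟩; exact Real.exp_pos _
    · intro hx
      exact ⟨Real.log x / c, trivial, by
        simp only; rw [mul_div_cancel₀ _ hc.ne', Real.exp_log hx]⟩
  rw [← h1, lintegral_image_eq_lintegral_abs_deriv_mul MeasurableSet.univ
    (f' := fun s => c * Real.exp (c * s)), Measure.restrict_univ]
  · refine lintegral_congr fun s => ?_
    rw [abs_of_pos (by positivity)]
  · intro s _
    have := ((hasDerivAt_id s).const_mul c).exp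
    simp only [id, mul_one] at this
    rw [mul_comm c]
    exact this.hasDerivWithinAt
  · intro s _ t _ hst
    exact mul_left_cancel₀ hc.ne' (Real.exp_injective hst)

noncomputable def kk (h : ℝ) : ℝ≥0 := Real.toNNReal (2 * Real.exp h / √(1 + Real.exp (4 * h)))

theorem kk_meas : Measurable kk := by unfold kk; fun_prop

theorem kk_pos (h : ℝ) : 0 < kk h := Real.toNNReal_pos.2 (by positivity)

theorem kk_int : ∫⁻ h, (kk h : ℝ≥0∞) ^ 2 ≤ ((NNReal.sqrt NNReal.pi ^ 2 : ℝ≥0) : ℝ≥0∞) := by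
  have h1 := subst_exp 2 (by norm_num) fun y => ENNReal.ofReal (2 * (1 + y ^ 2)⁻¹)
  have h2 : ∫⁻ y in Ioi (0 : ℝ), ENNReal.ofReal (2 * (1 + y ^ 2)⁻¹) = ENNReal.ofReal Real.pi := by
    rw [← ofReal_integral_eq_lintegral_ofReal
      (integrable_inv_one_add_sq.const_mul 2).integrableOn
      (Eventually.of_forall fun y => by positivity), integral_const_mul,
      integral_Ioi_inv_one_add_sq, Real.arctan_zero]
    congr 1
    ring
  rw [NNReal.sq_sqrt]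
  refine le_of_eq ?_
  rw [← ENNReal.ofReal_coe_nnreal, NNReal.coe_real_pi, ← h2, h1]
  refine lintegral_congr fun h => ?_
  rw [← ENNReal.ofReal_mul (by positivity), kk, ← ENNReal.ofReal,
    ← ENNReal.ofReal_pow (by positivity)]
  congr 1
  have e1 : Real.exp (2 * h) = Real.exp h ^ 2 := by rw [← Real.exp_nat_mul]; norm_num
  have e2 : Real.exp (4 * h) = Real.exp h ^ 4 := by rw [← Real.exp_nat_mul]; norm_num
  rw [div_pow, Real.sq_sqrt (by positivity), e1, e2]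
  field_simp

noncomputable def tr (f : ℝ → ℝ≥0) (s : ℝ) : ℝ≥0 :=
  Real.toNNReal (√2 * Real.exp s) * f (Real.exp (4 * s)) ^ (1 / 3 : ℝ)

theorem tr_meas {f : ℝ → ℝ≥0} (hf : Measurable f) : Measurable (tr f) := by
  unfold tr; fun_prop

theorem tr_int (f : ℝ → ℝ≥0) :
    ∫⁻ t, (tr f t : ℝ≥0∞) ^ 4 = ∫⁻ x in Ioi (0 : ℝ), (f x : ℝ≥0∞) ^ (4 / 3 : ℝ) := by
  rw [subst_exp 4 (by norm_num)]
  refine lintegral_congr fun s => ?_
  rw [tr, ENNReal.coe_mul, mul_pow, ← ENNReal.ofReal, ← ENNReal.ofReal_pow (by positivity),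
    ENNReal.coe_rpow_of_nonneg _ (by norm_num), ← ENNReal.rpow_natCast, ← ENNReal.rpow_mul]
  have e2 : Real.exp (4 * s) = Real.exp s ^ 4 := by rw [← Real.exp_nat_mul]; norm_num
  have e3 : (√2 * Real.exp s) ^ 4 = 4 * Real.exp (4 * s) := by
    rw [e2, mul_pow, show (√2 : ℝ) ^ 4 = (√2 ^ 2) ^ 2 by ring, Real.sq_sqrt (by norm_num)]
    norm_num
  rw [e3]
  norm_num

theorem tr_form {f g : ℝ → ℝ≥0} (hf : Measurable f) (hg : Measurable g) :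
    ∫⁻ y in Ioi (0 : ℝ), ∫⁻ x in Ioi (0 : ℝ),
      (f x : ℝ≥0∞) * g y * ENNReal.ofReal ((x + y) ^ (-(1 / 2) : ℝ))
      = ∫⁻ h, AA (tr f) (tr g) 3 h * kk h := by
  have m1 := tr_meas hf
  have m2 := tr_meas hg
  have m3 := kk_meas
  have e1 : ∫⁻ h, AA (tr f) (tr g) 3 h * kk h
      = ∫⁻ t, ∫⁻ h, ((tr f (t + h) * tr g t : ℝ≥0) : ℝ≥0∞) ^ 3 * kk h := by
    rw [lintegral_lintegral_swap (by fun_prop)]
    refine lintegral_congr fun h => ?_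
    unfold AA
    rw [lintegral_mul_const _ (by fun_prop)]
  rw [e1, subst_exp 4 (by norm_num)]
  refine lintegral_congr fun t => ?_
  rw [subst_exp 4 (by norm_num), ← lintegral_const_mul _ (by fun_prop),
    ← lintegral_add_left_eq_self (μ := volume) _ t]
  refine lintegral_congr fun h => ?_
  have c3 : ∀ a : ℝ≥0, (a ^ (1 / 3 : ℝ)) ^ 3 = a := fun a => by
    rw [← NNReal.rpow_natCast, ← NNReal.rpow_mul]; norm_num
  simp only [tr, kk, ENNReal.ofReal]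
  rw [← ENNReal.coe_pow]
  simp only [← ENNReal.coe_mul, mul_pow, c3]
  congr 1
  rw [← NNReal.coe_inj]
  push_cast
  rw [Real.coe_toNNReal _ (by positivity), Real.coe_toNNReal _ (by positivity),
    Real.coe_toNNReal _ (by positivity), Real.coe_toNNReal _ (by positivity),
    Real.coe_toNNReal _ (by positivity), Real.coe_toNNReal _ (by positivity)]
  have e4 : ∀ s : ℝ, Real.exp (4 * s) = Real.exp s ^ 4 := fun s => by
    rw [← Real.exp_nat_mul]; norm_num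
  generalize (f (Real.exp (4 * (t + h))) : ℝ) = F
  generalize (g (Real.exp (4 * t)) : ℝ) = G
  rw [e4, e4, e4, Real.exp_add]
  have hu := Real.exp_pos t
  have hv := Real.exp_pos h
  generalize Real.exp t = u at *
  generalize Real.exp h = v at *
  have e5 : ((u * v) ^ 4 + u ^ 4) ^ (-(1 / 2) : ℝ) = (u ^ 2 * √(1 + v ^ 4))⁻¹ := by
    rw [Real.rpow_neg (by positivity), ← Real.sqrt_eq_rpow]
    congr 1
    rw [show (u * v) ^ 4 + u ^ 4 = (u ^ 2) ^ 2 * (1 + v ^ 4) by ring,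
      Real.sqrt_mul (by positivity), Real.sqrt_sq (by positivity)]
  have e6 : (√2 : ℝ) ^ 6 = 8 := by
    rw [show (√2 : ℝ) ^ 6 = (√2 ^ 2) ^ 3 by ring, Real.sq_sqrt (by norm_num)]; norm_num
  have hs : 0 < √(1 + v ^ 4) := by positivity
  rw [e5]
  have : (√2 * (u * v)) ^ 3 * F * ((√2 * u) ^ 3 * G) = (√2 : ℝ) ^ 6 * (u ^ 6 * v ^ 3 * F * G) := by
    ring
  rw [this, e6]
  field_simp
  ring

theorem integral_form : ∃ C : ℝ≥0, 0 < C ∧ C < NNReal.sqrt NNReal.pi ∧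
    ∀ f g : ℝ → ℝ≥0, Measurable f → Measurable g →
      ∫⁻ y in Ioi (0 : ℝ), ∫⁻ x in Ioi (0 : ℝ),
        (f x : ℝ≥0∞) * g y * ENNReal.ofReal ((x + y) ^ (-(1 / 2) : ℝ))
      ≤ C * (∫⁻ x in Ioi (0 : ℝ), (f x : ℝ≥0∞) ^ (4 / 3 : ℝ)) ^ (3 / 4 : ℝ)
        * (∫⁻ x in Ioi (0 : ℝ), (g x : ℝ≥0∞) ^ (4 / 3 : ℝ)) ^ (3 / 4 : ℝ) := by
  obtain ⟨C, h0, h1, h2⟩ := core kk_meas kk_pos (NNReal.sqrt_pos.2 NNReal.pi_pos) kk_int
  refine ⟨C, h0, h1, fun f g hf hg => ?_⟩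
  rw [tr_form hf hg, ← tr_int, ← tr_int]
  exact homog kk_meas h0 h2 _ _ (tr_meas hf) (tr_meas hg)

theorem split (H : ℝ → ℝ≥0∞) :
    ∫⁻ x in Ioi (0 : ℝ), H x = ∑' m : ℕ, ∫⁻ x in Ioc (m : ℝ) (m + 1), H x := by
  rw [← lintegral_iUnion (fun _ => measurableSet_Ioc)]
  · congr 2
    ext x
    simp only [mem_Ioi, mem_iUnion, mem_Ioc]
    constructor
    · intro hx
      have h1 : 1 ≤ ⌈x⌉₊ := Nat.one_le_ceil_iff.2 hx
      refine ⟨⌈x⌉₊ - 1, ?_, ?_⟩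
      · rw [Nat.cast_pred h1]; linarith [Nat.ceil_lt_add_one hx.le]
      · rw [Nat.cast_pred h1]; linarith [Nat.le_ceil x]
    · rintro ⟨m, h, -⟩
      exact lt_of_le_of_lt (Nat.cast_nonneg m) h
  · intro m n hmn
    rw [Function.onFun, Ioc_disjoint_Ioc]
    rcases lt_or_gt_of_ne hmn with h | h
    · have : (m : ℝ) + 1 ≤ n := by exact_mod_cast h
      exact le_trans (min_le_left _ _) (le_trans this (le_max_right _ _))
    · have : (n : ℝ) + 1 ≤ m := by exact_mod_cast h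
      exact le_trans (min_le_right _ _) (le_trans this (le_max_left _ _))

noncomputable def st (a : ℕ → ℝ≥0) (x : ℝ) : ℝ≥0 := a (⌈x⌉₊ - 1)

theorem st_meas (a : ℕ → ℝ≥0) : Measurable (st a) :=
  (measurable_from_nat (f := fun n => a (n - 1))).comp Nat.measurable_ceil

theorem st_eq (a : ℕ → ℝ≥0) {m : ℕ} {x : ℝ} (hx : x ∈ Ioc (m : ℝ) (m + 1)) : st a x = a m := by
  have : ⌈x⌉₊ = m + 1 := by
    rw [Nat.ceil_eq_iff (by omega)]
    push_cast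
    simpa using hx
  rw [st, this, Nat.add_sub_cancel]

theorem st_int (a : ℕ → ℝ≥0) (p : ℝ) :
    ∫⁻ x in Ioi (0 : ℝ), (st a x : ℝ≥0∞) ^ p = ∑' m, (a m : ℝ≥0∞) ^ p := by
  rw [split]
  refine tsum_congr fun m => ?_
  rw [setLIntegral_congr_fun measurableSet_Ioc (g := fun _ => (a m : ℝ≥0∞) ^ p)
    (fun x hx => by simp only [st_eq a hx])]
  simp

theorem st_form (a b : ℕ → ℝ≥0) :
    ∑' n : ℕ, ∑' m : ℕ, (a m : ℝ≥0∞) * b n *
        ENNReal.ofReal ((((m : ℝ) + 1) + ((n : ℝ) + 1)) ^ (-(1 / 2) : ℝ))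
      ≤ ∫⁻ y in Ioi (0 : ℝ), ∫⁻ x in Ioi (0 : ℝ),
        (st a x : ℝ≥0∞) * st b y * ENNReal.ofReal ((x + y) ^ (-(1 / 2) : ℝ)) := by
  have low : ∀ (m : ℕ) (c : ℝ≥0∞) (H : ℝ → ℝ≥0∞), (∀ x ∈ Ioc (m : ℝ) (m + 1), c ≤ H x) →
      c ≤ ∫⁻ x in Ioc (m : ℝ) (m + 1), H x := by
    intro m c H h
    refine le_trans ?_ (setLIntegral_mono' measurableSet_Ioc h)
    simp
  rw [split]
  refine ENNReal.tsum_le_tsum fun n => low n _ _ fun y hy => ?_
  rw [split]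
  refine ENNReal.tsum_le_tsum fun m => low m _ _ fun x hx => ?_
  rw [st_eq a hx, st_eq b hy]
  refine mul_le_mul_right (ENNReal.ofReal_le_ofReal ?_) _
  have h1 : (0 : ℝ) < x := lt_of_le_of_lt (Nat.cast_nonneg m) hx.1
  have h2 : (0 : ℝ) < y := lt_of_le_of_lt (Nat.cast_nonneg n) hy.1
  exact Real.rpow_le_rpow_of_nonpos (by linarith) (by linarith [hx.2, hy.2]) (by norm_num)

end Pool.Agent.H12.Hilb
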