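import Mathlib

namespace Pool.Agent.H12.Hom1

universe u

open Function

theorem triv {G H X : Type u} [Group G] [Group H] [Infinite X]
    (hX : Cardinal.mk G ≤ Cardinal.mk X) (b : H →* G) (hb : Injective b) :
    ∃ e : H × X ≃ G × X, ∀ h h' x, e (h * h', x) = ((e (h, x)).1 * b h', (e (h, x)).2) := by
  have hq : Cardinal.mk ((G ⧸ b.range) × X) = Cardinal.mk X := by
    simp only [Cardinal.mk_prod, Cardinal.lift_id]
    exact Cardinal.mul_eq_right (Cardinal.aleph0_le_mk X)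
      ((Cardinal.mk_quotient_le (α := G)).trans hX) (Cardinal.mk_ne_zero _)
  obtain ⟨c⟩ := Cardinal.eq.1 hq
  let f : H × X → G × X := fun p => ((c.symm p.2).1.out * b p.1, (c.symm p.2).2)
  have hf : Bijective f := by
    constructor
    · rintro ⟨h, x⟩ ⟨h', x'⟩ e
      simp only [f, Prod.mk.injEq] at e
      obtain ⟨e1, e2⟩ := e
      have e3 : (c.symm x).1 = (c.symm x').1 := by
        have := congrArg (fun g : G => (g : G ⧸ b.range)) e1
        rwa [QuotientGroup.mk_mul_of_mem _ (⟨h, rfl⟩ : b h ∈ b.range),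
          QuotientGroup.mk_mul_of_mem _ (⟨h', rfl⟩ : b h' ∈ b.range), QuotientGroup.out_eq',
          QuotientGroup.out_eq'] at this
      have e4 : x = x' := c.symm.injective (Prod.ext e3 e2)
      subst e4
      rw [hb (mul_left_cancel e1)]
    · rintro ⟨g, x⟩
      obtain ⟨⟨_, h, rfl⟩, e⟩ := QuotientGroup.mk_out_eq_mul b.range g
      refine ⟨(h⁻¹, c ((g : G ⧸ b.range), x)), ?_⟩
      simp [f, e]
  exact ⟨Equiv.ofBijective f hf, fun h h' x => by simp [f, mul_assoc]⟩

variable {K : Type u} [CommRing K]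

/-- right translation on functions -/
def tau (K : Type u) [CommRing K] (G X I : Type u) [Group G] [AddCommGroup I] [Module K I] :
    Representation K G (G × X → I) where
  toFun g := LinearMap.funLeft K I fun p => (p.1 * g, p.2)
  map_one' := by ext; simp [LinearMap.funLeft]
  map_mul' a b := by ext; simp [LinearMap.funLeft, mul_assoc]

theorem tau_apply {G X I : Type u} [Group G] [AddCommGroup I] [Module K I] (g : G)
    (m : G × X → I) (p : G × X) : tau K G X I g m p = m (p.1 * g, p.2) := rfl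

theorem extend {G H X I W : Type u} [Group G] [Group H] [AddCommGroup I] [Module K I]
    [Module.Injective K I] [AddCommGroup W] [Module K W] (b₁ b₂ : H →* G)
    (e : H × X ≃ G × X) (he : ∀ h h' x, e (h * h', x) = ((e (h, x)).1 * b₂ h', (e (h, x)).2))
    (a₁ a₂ : W →ₗ[K] (G × X → I)) (ha : Injective a₁)
    (hc : ∀ h w, ∃ w', tau K G X I (b₁ h) (a₁ w) = a₁ w' ∧ tau K G X I (b₂ h) (a₂ w) = a₂ w') :
    ∃ f : (G × X → I) →ₗ[K] (G × X → I), (∀ w, f (a₁ w) = a₂ w) ∧
      ∀ h m, f (tau K G X I (b₁ h) m) = tau K G X I (b₂ h) (f m) := by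
  have : ∀ x : X, ∃ ψ : (G × X → I) →ₗ[K] I, ∀ w, ψ (a₁ w) = a₂ w (e (1, x)) := fun x =>
    Module.Injective.out a₁ ha ((LinearMap.proj (e (1, x))).comp a₂)
  choose ψ hψ using this
  refine ⟨LinearMap.pi fun p => (ψ (e.symm p).2).comp (tau K G X I (b₁ (e.symm p).1)), ?_, ?_⟩
  · intro w
    funext p
    obtain ⟨⟨h, x⟩, rfl⟩ := e.surjective p
    obtain ⟨w', h1, h2⟩ := hc h w
    simp only [LinearMap.pi_apply, Equiv.symm_apply_apply, LinearMap.comp_apply]
    rw [h1, hψ, ← h2, tau_apply, ← he, one_mul]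
  · intro h' m
    funext p
    obtain ⟨⟨h, x⟩, rfl⟩ := e.surjective p
    rw [tau_apply, ← he]
    simp only [LinearMap.pi_apply, Equiv.symm_apply_apply, LinearMap.comp_apply, map_mul]
    rfl

structure Rp (K : Type u) [CommRing K] where
  G : Type u
  V : Type u
  [gG : Group G]
  [aV : AddCommGroup V]
  [mV : Module K V]
  ρ : Representation K G V

attribute [instance] Rp.gG Rp.aV Rp.mV

structure Good (R R' : Rp K) (ι : R.G →* R'.G) (j : R.V →ₗ[K] R'.V) : Prop where
  i1 : Injective ι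
  i2 : Injective j
  cp : ∀ g v, j (R.ρ g v) = R'.ρ (ι g) (j v)
  ex : ∀ (H W : Type u) [Group H] [AddCommGroup W] [Module K W] (b₁ b₂ : H →* R.G)
    (a₁ a₂ : W →ₗ[K] R.V), Injective b₁ → Injective b₂ → Injective a₁ → Injective a₂ →
    (∀ h w, ∃ w', R.ρ (b₁ h) (a₁ w) = a₁ w' ∧ R.ρ (b₂ h) (a₂ w) = a₂ w') →
    ∃ t : R'.G, (∀ w, R'.ρ t (j (a₁ w)) = j (a₂ w)) ∧ ∀ h, t * ι (b₁ h) * t⁻¹ = ι (b₂ h)

theorem step (R : Rp K) : ∃ (R' : Rp K) (ι : R.G →* R'.G) (j : R.V →ₗ[K] R'.V), Good R R' ι j := by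
  obtain ⟨⟨I, hI, i, hi⟩⟩ := CategoryTheory.EnoughInjectives.presentation (ModuleCat.of K R.V)
  have : Module.Injective K I := Module.injective_module_of_injective_object K I
  have hi' : Injective i.hom := (ModuleCat.mono_iff_injective i).1 hi
  let X := R.G ⊕ ULift.{u} ℕ
  have hX : Cardinal.mk R.G ≤ Cardinal.mk X := Cardinal.mk_le_of_injective Sum.inl_injective
  let M := R.G × X → I
  let τ := tau K R.G X I
  let J : R.V →ₗ[K] M := LinearMap.pi fun p => i.hom.comp (R.ρ p.1)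
  have hJ : Injective J := fun v w h => by
    have := congrFun h (1, Sum.inl 1)
    simpa [J] using hi' this
  have hJc : ∀ g v, J (R.ρ g v) = τ g (J v) := fun g v => by
    funext p
    show i.hom (R.ρ p.1 (R.ρ g v)) = i.hom (R.ρ (p.1 * g) v)
    rw [map_mul]; rfl
  let ρ' : Representation K (Equiv.Perm (R.G × X) × ((M × M) ≃ₗ[K] (M × M))) (M × M) :=
    { toFun := fun p => p.2.toLinearMap
      map_one' := rfl
      map_mul' := fun _ _ => rfl }
  let π : R.G →* Equiv.Perm (R.G × X) :=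
    { toFun := fun g => Equiv.prodCongr (Equiv.mulRight g⁻¹) (Equiv.refl _)
      map_one' := by ext <;> simp
      map_mul' := fun a b => by ext <;> simp [mul_assoc] }
  let τ' : R.G →* ((M × M) ≃ₗ[K] (M × M)) :=
    { toFun := fun g => LinearEquiv.ofLinearMap ((τ g).prodMap (τ g)) ((τ g⁻¹).prodMap (τ g⁻¹))
        (by rw [LinearMap.prodMap_comp, ← Module.End.mul_eq_comp, ← map_mul]; simp; rfl)
        (by rw [LinearMap.prodMap_comp, ← Module.End.mul_eq_comp, ← map_mul]; simp; rfl)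
      map_one' := by ext <;> simp
      map_mul' := fun a b => by ext <;> simp }
  have hτ' : ∀ g m, τ' g m = (τ g m.1, τ g m.2) := fun _ _ => rfl
  refine ⟨⟨_, _, ρ'⟩, π.prod τ', (LinearMap.inl K M M).comp J, ?_, ?_, ?_, ?_⟩
  · intro a b h
    have := congrArg (fun p => (p.1 (1, Sum.inl 1)).1) h
    simpa [π] using this
  · exact LinearMap.inl_injective.comp hJ
  · intro g v
    show (J (R.ρ g v), 0) = τ' g (J v, 0)
    rw [hτ', hJc, map_zero]
  · intro H W _ _ _ b₁ b₂ a₁ a₂ hb₁ hb₂ ha₁ ha₂ hc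
    obtain ⟨e₁, he₁⟩ := triv hX b₁ hb₁
    obtain ⟨e₂, he₂⟩ := triv hX b₂ hb₂
    obtain ⟨f, hf1, hf2⟩ := extend b₁ b₂ e₂ he₂ (J.comp a₁) (J.comp a₂) (hJ.comp ha₁) (by
      intro h w
      obtain ⟨w', h1, h2⟩ := hc h w
      exact ⟨w', by simp only [LinearMap.comp_apply]; rw [← h1, hJc],
        by simp only [LinearMap.comp_apply]; rw [← h2, hJc]⟩)
    obtain ⟨g, hg1, hg2⟩ := extend b₂ b₁ e₁ he₁ (J.comp a₂) (J.comp a₁) (hJ.comp ha₂) (by
      intro h w
      obtain ⟨w', h1, h2⟩ := hc h w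
      exact ⟨w', by simp only [LinearMap.comp_apply]; rw [← h2, hJc],
        by simp only [LinearMap.comp_apply]; rw [← h1, hJc]⟩)
    let s : M ≃ₗ[K] M := LinearEquiv.funCongrLeft K I (e₂.symm.trans e₁)
    have hs : ∀ h m, s (τ (b₁ h) m) = τ (b₂ h) (s m) := by
      intro h' m
      funext p
      obtain ⟨⟨h, x⟩, rfl⟩ := e₂.surjective p
      rw [tau_apply, ← he₂]
      show m ((e₁ (e₂.symm (e₂ (h, x)))).1 * b₁ h', (e₁ (e₂.symm (e₂ (h, x)))).2) =
        m (e₁ (e₂.symm (e₂ (h * h', x))))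
      rw [e₂.symm_apply_apply, e₂.symm_apply_apply, he₁]
    let A : (M × M) ≃ₗ[K] (M × M) :=
      { toFun := fun p => (s p.2 + f p.1, s (p.1 - g (s p.2 + f p.1)))
        invFun := fun p => (s.symm p.2 + g p.1, s.symm (p.1 - f (s.symm p.2 + g p.1)))
        map_add' := fun p q => by
          simp only [Prod.fst_add, Prod.snd_add, map_add, map_sub, Prod.mk_add_mk, Prod.mk.injEq]
          constructor <;> abel
        map_smul' := fun c p => by
          simp [smul_add, smul_sub]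
        left_inv := fun p => by simp
        right_inv := fun p => by simp }
    have hA : ∀ p, A p = (s p.2 + f p.1, s (p.1 - g (s p.2 + f p.1))) := fun _ => rfl
    refine ⟨(e₁.symm.trans e₂, A), fun w => ?_, fun h => ?_⟩
    · show A (J (a₁ w), 0) = (J (a₂ w), 0)
      have h1 := hf1 w
      have h2 := hg1 w
      simp only [LinearMap.comp_apply] at h1 h2
      simp [hA, h1, h2]
    · rw [mul_inv_eq_iff_eq_mul]
      refine Prod.ext ?_ ?_
      · refine Equiv.ext fun p => ?_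
        obtain ⟨⟨h', x⟩, rfl⟩ := e₁.surjective p
        show e₂ (e₁.symm ((e₁ (h', x)).1 * (b₁ h)⁻¹, (e₁ (h', x)).2)) =
          ((e₂ (e₁.symm (e₁ (h', x)))).1 * (b₂ h)⁻¹, (e₂ (e₁.symm (e₁ (h', x)))).2)
        rw [← map_inv, ← he₁, e₁.symm_apply_apply, e₁.symm_apply_apply, he₂, map_inv]
      · refine LinearEquiv.ext fun p => ?_
        show A (τ' (b₁ h) p) = τ' (b₂ h) (A p)
        rw [hτ', hτ', hA, hA]
        simp only [hs, hf2, τ, ← map_add, hg2, ← map_sub]

end Pool.Agent.H12.Hom1
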