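import Mathlib
import Pool.Agent.H12.Hom1

namespace Pool.Agent.H12.Hom2

universe u

open Function Pool.Agent.H12.Hom1

variable {K : Type u} [CommRing K]

noncomputable def nx (R : Rp K) : Rp K := (step R).choose
noncomputable def ni (R : Rp K) : R.G →* (nx R).G := (step R).choose_spec.choose
noncomputable def nj (R : Rp K) : R.V →ₗ[K] (nx R).V := (step R).choose_spec.choose_spec.choose
theorem good (R : Rp K) : Good R (nx R) (ni R) (nj R) :=
  (step R).choose_spec.choose_spec.choose_spec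

noncomputable def sq (R : Rp K) : ℕ → Rp K
  | 0 => R
  | n + 1 => nx (sq R n)

variable (R : Rp K)

noncomputable def fg (i j : ℕ) (h : i ≤ j) : (sq R i).G →* (sq R j).G :=
  Nat.leRec (motive := fun j _ => (sq R i).G →* (sq R j).G) (MonoidHom.id _)
    (fun k _ φ => (ni (sq R k)).comp φ) h

noncomputable def fv (i j : ℕ) (h : i ≤ j) : (sq R i).V →ₗ[K] (sq R j).V :=
  Nat.leRec (motive := fun j _ => (sq R i).V →ₗ[K] (sq R j).V) LinearMap.id
    (fun k _ φ => (nj (sq R k)).comp φ) h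

theorem fg_self (i : ℕ) (x) : fg R i i le_rfl x = x := by rw [fg, Nat.leRec_self]; rfl
theorem fv_self (i : ℕ) (x) : fv R i i le_rfl x = x := by rw [fv, Nat.leRec_self]; rfl
theorem fg_succ (i j : ℕ) (h : i ≤ j) (h' : i ≤ j + 1) (x) :
    fg R i (j + 1) h' x = ni (sq R j) (fg R i j h x) := by
  rw [fg, Nat.leRec_succ _ _ h]; rfl
theorem fv_succ (i j : ℕ) (h : i ≤ j) (h' : i ≤ j + 1) (x) :
    fv R i (j + 1) h' x = nj (sq R j) (fv R i j h x) := by
  rw [fv, Nat.leRec_succ _ _ h]; rfl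

instance : DirectedSystem (fun i => (sq R i).G) (fg R · · ·) where
  map_self := fg_self R
  map_map k j i hij hjk x := by
    induction k, hjk using Nat.le_induction with
    | base => rw [fg_self]
    | succ k hjk ih => rw [fg_succ R j k hjk, ih, fg_succ R i k (hij.trans hjk)]

instance : DirectedSystem (fun i => (sq R i).V) (fv R · · ·) where
  map_self := fv_self R
  map_map k j i hij hjk x := by
    induction k, hjk using Nat.le_induction with
    | base => rw [fv_self]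
    | succ k hjk ih => rw [fv_succ R j k hjk, ih, fv_succ R i k (hij.trans hjk)]

theorem fg_inj (i j : ℕ) (h : i ≤ j) : Injective (fg R i j h) := by
  induction j, h using Nat.le_induction with
  | base => intro x y e; rwa [fg_self, fg_self] at e
  | succ k h ih => intro x y e; rw [fg_succ R i k h, fg_succ R i k h] at e; exact ih ((good _).i1 e)

theorem fv_inj (i j : ℕ) (h : i ≤ j) : Injective (fv R i j h) := by
  induction j, h using Nat.le_induction with
  | base => intro x y e; rwa [fv_self, fv_self] at e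
  | succ k h ih => intro x y e; rw [fv_succ R i k h, fv_succ R i k h] at e; exact ih ((good _).i2 e)

theorem f_cp (i j : ℕ) (h : i ≤ j) (g v) :
    fv R i j h ((sq R i).ρ g v) = (sq R j).ρ (fg R i j h g) (fv R i j h v) := by
  induction j, h using Nat.le_induction with
  | base => rw [fg_self, fv_self, fv_self]
  | succ k h ih => rw [fg_succ R i k h, fv_succ R i k h, fv_succ R i k h, ih, (good _).cp]; rfl

def LG := DirectLimit (fun i => (sq R i).G) (fg R)
def LV := DirectLimit (fun i => (sq R i).V) (fv R)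

noncomputable instance : Group (LG R) :=
  inferInstanceAs (Group (DirectLimit (fun i => (sq R i).G) (fg R)))
noncomputable instance : AddCommGroup (LV R) :=
  inferInstanceAs (AddCommGroup (DirectLimit (fun i => (sq R i).V) (fv R)))
noncomputable instance : Module K (LV R) :=
  inferInstanceAs (Module K (DirectLimit (fun i => (sq R i).V) (fv R)))

noncomputable def og (i : ℕ) : (sq R i).G →* LG R :=
  MonoidHom.mk' (fun x => (⟦⟨i, x⟩⟧ : DirectLimit (fun i => (sq R i).G) (fg R)))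
    fun x y => (DirectLimit.mul_def (f := fg R) i x y).symm

noncomputable def ov (i : ℕ) : (sq R i).V →ₗ[K] LV R :=
  DirectLimit.Module.of K ℕ (fun i => (sq R i).V) (fv R) i

theorem og_inj (i : ℕ) : Injective (og R i) := DirectLimit.mk_injective (fg R) (fg_inj R) i
theorem ov_inj (i : ℕ) : Injective (ov R i) := DirectLimit.mk_injective (fv R) (fv_inj R) i
theorem og_f (i j : ℕ) (h : i ≤ j) (x) : og R j (fg R i j h x) = og R i x :=
  DirectLimit.mk_apply (F := fun i => (sq R i).G) (f := fg R) i j x h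
theorem ov_f (i j : ℕ) (h : i ≤ j) (x) : ov R j (fv R i j h x) = ov R i x :=
  DirectLimit.mk_apply (F := fun i => (sq R i).V) (f := fv R) i j x h
theorem og_ex (z : LG R) : ∃ i, ∀ j, i ≤ j → ∃ x, og R j x = z := by
  obtain ⟨i, x, rfl⟩ := DirectLimit.exists_eq_mk (fg R) z
  exact ⟨i, fun j h => ⟨_, og_f R i j h x⟩⟩
theorem ov_ex (z : LV R) : ∃ i, ∀ j, i ≤ j → ∃ x, ov R j x = z := by
  obtain ⟨i, x, rfl⟩ := DirectLimit.exists_eq_mk (fv R) z
  exact ⟨i, fun j h => ⟨_, ov_f R i j h x⟩⟩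

noncomputable def act : LG R → LV R → LV R :=
  DirectLimit.map₂ (fg R) (fv R) (fv R) (fun i g v => (sq R i).ρ g v) (f_cp R)

theorem act_def (i g v) : act R (og R i g) (ov R i v) = ov R i ((sq R i).ρ g v) :=
  DirectLimit.map₂_def (fg R) (fv R) (fv R) (fun i g v => (sq R i).ρ g v) (f_cp R) i g v

noncomputable def lρ : Representation K (LG R) (LV R) where
  toFun g :=
    { toFun := act R g
      map_add' := fun v w => by
        obtain ⟨i, hi⟩ := og_ex R g
        obtain ⟨j, hj⟩ := ov_ex R v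
        obtain ⟨k, hk⟩ := ov_ex R w
        obtain ⟨g, rfl⟩ := hi (i + j + k) (by omega)
        obtain ⟨v, rfl⟩ := hj (i + j + k) (by omega)
        obtain ⟨w, rfl⟩ := hk (i + j + k) (by omega)
        rw [← map_add, act_def, act_def, act_def, map_add, map_add]
      map_smul' := fun c v => by
        obtain ⟨i, hi⟩ := og_ex R g
        obtain ⟨j, hj⟩ := ov_ex R v
        obtain ⟨g, rfl⟩ := hi (i + j) (by omega)
        obtain ⟨v, rfl⟩ := hj (i + j) (by omega)
        rw [← map_smul, act_def, act_def, map_smul, map_smul]; rfl }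
  map_one' := by
    refine LinearMap.ext fun v => ?_
    obtain ⟨j, hj⟩ := ov_ex R v
    obtain ⟨v, rfl⟩ := hj j le_rfl
    simp only [LinearMap.coe_mk, AddHom.coe_mk]
    rw [← map_one (og R j), act_def, map_one]; rfl
  map_mul' g h := by
    refine LinearMap.ext fun v => ?_
    obtain ⟨i, hi⟩ := og_ex R g
    obtain ⟨j, hj⟩ := og_ex R h
    obtain ⟨k, hk⟩ := ov_ex R v
    obtain ⟨g, rfl⟩ := hi (i + j + k) (by omega)
    obtain ⟨h, rfl⟩ := hj (i + j + k) (by omega)
    obtain ⟨v, rfl⟩ := hk (i + j + k) (by omega)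
    simp only [LinearMap.coe_mk, AddHom.coe_mk, Module.End.mul_apply]
    rw [← map_mul, act_def, act_def, act_def, map_mul]; rfl

theorem lρ_def (i g v) : lρ R (og R i g) (ov R i v) = ov R i ((sq R i).ρ g v) := act_def R i g v

theorem fin_ex {α : Type*} (P : ℕ → α → Prop) (h : ∀ z, ∃ i, ∀ j, i ≤ j → P j z) (s : Finset α) :
    ∃ i, ∀ j, i ≤ j → ∀ z ∈ s, P j z := by
  choose f hf using h
  exact ⟨s.sup f, fun j hj z hz => hf z j ((Finset.le_sup hz).trans hj)⟩

theorem stage (H : Subgroup (LG R)) (hH : H.FG) (s : Finset (LV R)) :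
    ∃ i, ∀ j, i ≤ j → H ≤ (og R j).range ∧
      Submodule.span K {x | ∃ h ∈ H, ∃ v ∈ s, x = lρ R h v} ≤ LinearMap.range (ov R j) := by
  obtain ⟨t, rfl⟩ := hH
  obtain ⟨i, hi⟩ := fin_ex _ (og_ex R) t
  obtain ⟨k, hk⟩ := fin_ex _ (ov_ex R) s
  refine ⟨i + k, fun j hj => ?_⟩
  have h1 : Subgroup.closure (t : Set (LG R)) ≤ (og R j).range :=
    (Subgroup.closure_le _).2 fun z hz => hi j (by omega) z hz
  refine ⟨h1, Submodule.span_le.2 ?_⟩
  rintro _ ⟨h, hh, v, hv, rfl⟩
  obtain ⟨g, rfl⟩ := h1 hh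
  obtain ⟨v, rfl⟩ := hk j (by omega) v hv
  exact ⟨_, (lρ_def R j g v).symm⟩

theorem pullG {H G G' : Type*} [Group H] [Group G] [Group G'] (f : G →* G') (hf : Injective f)
    (g : H →* G') (h : ∀ x, g x ∈ f.range) : ∃ b : H →* G, ∀ x, f (b x) = g x :=
  ⟨(MonoidHom.ofInjective hf).symm.toMonoidHom.comp (g.codRestrict _ h), fun _ =>
    MonoidHom.apply_ofInjective_symm hf _⟩

theorem pullV {W V V' : Type*} [AddCommGroup W] [AddCommGroup V] [AddCommGroup V'] [Module K W]
    [Module K V] [Module K V'] (f : V →ₗ[K] V') (hf : Injective f)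
    (g : W →ₗ[K] V') (h : ∀ x, g x ∈ LinearMap.range f) : ∃ b : W →ₗ[K] V, ∀ x, f (b x) = g x :=
  ⟨(LinearEquiv.ofInjective f hf).symm.toLinearMap.comp (g.codRestrict _ h), fun _ =>
    LinearEquiv.ofInjective_symm_apply f (h := hf) _⟩

theorem homog (H₁ H₂ : Subgroup (LG R)) (W₁ W₂ : Submodule K (LV R)) (h₁ : H₁.FG) (h₂ : H₂.FG)
    (s₁ s₂ : Finset (LV R))
    (e₁ : W₁ = Submodule.span K {x | ∃ h ∈ H₁, ∃ v ∈ s₁, x = lρ R h v})
    (e₂ : W₂ = Submodule.span K {x | ∃ h ∈ H₂, ∃ v ∈ s₂, x = lρ R h v})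
    (hW : ∀ h ∈ H₁, ∀ w ∈ W₁, lρ R h w ∈ W₁)
    (α : W₁ ≃ₗ[K] W₂) (β : H₁ ≃* H₂)
    (hc : ∀ (h : H₁) (w w' : W₁), (w' : LV R) = lρ R h w → (α w' : LV R) = lρ R (β h) (α w)) :
    ∃ t : LG R, (∀ w : W₁, lρ R t w = α w) ∧ ∀ h : H₁, t * h * t⁻¹ = β h := by
  obtain ⟨i, hi⟩ := stage R H₁ h₁ s₁
  obtain ⟨j, hj⟩ := stage R H₂ h₂ s₂
  obtain ⟨p1, p2⟩ := hi (i + j) (by omega)
  obtain ⟨p3, p4⟩ := hj (i + j) (by omega)
  rw [← e₁] at p2
  rw [← e₂] at p4
  generalize i + j = n at p1 p2 p3 p4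
  obtain ⟨b₁, q1⟩ := pullG _ (og_inj R n) H₁.subtype fun x => p1 x.2
  obtain ⟨b₂, q2⟩ := pullG _ (og_inj R n) (H₂.subtype.comp β.toMonoidHom) fun x => p3 (β x).2
  obtain ⟨a₁, q3⟩ := pullV _ (ov_inj R n) W₁.subtype fun x => p2 x.2
  obtain ⟨a₂, q4⟩ := pullV _ (ov_inj R n) (W₂.subtype.comp α.toLinearMap) fun x => p4 (α x).2
  have q1' : ∀ x, og R n (b₁ x) = x := q1
  have q2' : ∀ x, og R n (b₂ x) = β x := q2
  have q3' : ∀ x, ov R n (a₁ x) = x := q3
  have q4' : ∀ x, ov R n (a₂ x) = α x := q4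
  obtain ⟨t, t1, t2⟩ := (good (sq R n)).ex H₁ W₁ b₁ b₂ a₁ a₂
    (fun x y e => Subtype.ext (by rw [← q1', ← q1', e]))
    (fun x y e => β.injective (Subtype.ext (by rw [← q2', ← q2', e])))
    (fun x y e => Subtype.ext (by rw [← q3', ← q3', e]))
    (fun x y e => α.injective (Subtype.ext (by rw [← q4', ← q4', e])))
    (fun h w => ⟨⟨_, hW h h.2 w w.2⟩,
      ov_inj R n (by rw [← lρ_def, q1', q3', q3']),
      ov_inj R n (by rw [← lρ_def, q2', q4', q4', hc h w ⟨_, hW h h.2 w w.2⟩ rfl])⟩)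
  have r1 : ∀ x, og R (n + 1) (ni (sq R n) x) = og R n x := fun x => by
    rw [← og_f R n (n + 1) (by omega), fg_succ R n n le_rfl, fg_self]
  have r2 : ∀ x, ov R (n + 1) (nj (sq R n) x) = ov R n x := fun x => by
    rw [← ov_f R n (n + 1) (by omega), fv_succ R n n le_rfl, fv_self]
  refine ⟨og R (n + 1) t, fun w => ?_, fun h => ?_⟩
  · rw [← q3', ← q4', ← r2, ← r2, lρ_def, ← t1]; rfl
  · rw [← q1', ← q2', ← r1, ← r1, ← t2, ← map_inv, ← map_mul, ← map_mul]; rfl

end Pool.Agent.H12.Hom2
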