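import Mathlib

set_option autoImplicit false
open scoped InnerProductSpace
open Filter Topology

namespace Pool.Agent.H12.Join1

abbrev H := lp (fun _ : ℕ => ℝ) 2

lemma mem_of_sq {x : ℕ → ℝ} (h : Summable fun n => x n ^ 2) : Memℓp x 2 := by
  apply memℓp_gen
  simpa using h

lemma sq_summable (x : H) : Summable fun n => x n ^ 2 := by
  have := (lp.memℓp x).summable (by norm_num)
  simpa using this

lemma inner_eq (x y : H) : ⟪x, y⟫_ℝ = ∑' n, x n * y n := by
  rw [lp.inner_eq_tsum]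
  congr 1; ext n; simp [mul_comm]

lemma summable_mul (x y : H) : Summable fun n => x n * y n := by
  have := lp.summable_inner (𝕜 := ℝ) x y
  refine this.congr fun n => ?_
  simp [mul_comm]

def shf (x : ℕ → ℝ) : ℕ → ℝ
  | 0 => 0
  | n + 1 => x n

noncomputable def S0 : H →ₗ[ℝ] H where
  toFun x := ⟨shf x, mem_of_sq (by
    rw [← summable_nat_add_iff 1]; simpa [shf] using sq_summable x)⟩
  map_add' x y := by
    ext n; cases n <;> simp [shf]
  map_smul' c x := by
    ext n; cases n <;> simp [shf]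

lemma S0_zero (x : H) : S0 x 0 = 0 := rfl
lemma S0_succ (x : H) (n : ℕ) : S0 x (n + 1) = x n := rfl

lemma inner_S0 (x y : H) : ⟪S0 x, y⟫_ℝ = ∑' n, x n * y (n + 1) := by
  rw [inner_eq, (summable_mul _ _).tsum_eq_zero_add]
  simp [S0_zero, S0_succ]

noncomputable def S : H →ₗᵢ[ℝ] H := S0.isometryOfInner (by
  intro x y
  rw [inner_S0, inner_eq]; simp [S0_succ])

lemma S_apply (x : H) : S x = S0 x := rfl

lemma pow_succ_apply (j : ℕ) (x : H) : (S ^ (j + 1)) x = S ((S ^ j) x) := by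
  rw [pow_succ']; rfl

lemma pow_add_apply (i j : ℕ) (x : H) : (S ^ (i + j)) x = (S ^ i) ((S ^ j) x) := by
  rw [pow_add]; rfl

lemma pow_coord (j : ℕ) (x : H) (n : ℕ) : (S ^ j) x (n + j) = x n := by
  induction j with
  | zero => simp
  | succ j ih => rw [pow_succ_apply, S_apply, ← add_assoc, S0_succ, ih]

lemma inner_pow (j : ℕ) (x y : H) : ⟪(S ^ j) x, y⟫_ℝ = ∑' n, x n * y (n + j) := by
  induction j generalizing x with
  | zero => simp [inner_eq]
  | succ j ih =>
    rw [pow_add_apply, pow_one, ih, S_apply]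
    have hs : Summable fun n => S0 x n * y (n + j) := by
      have h2 : Summable fun n => y (n + j) ^ 2 := (summable_nat_add_iff j).2 (sq_summable y)
      exact summable_mul (S0 x) ⟨fun n => y (n + j), mem_of_sq h2⟩
    rw [hs.tsum_eq_zero_add]
    simp only [S0_zero, S0_succ, zero_mul, zero_add]
    congr 1; ext n; rw [show n + 1 + j = n + (j + 1) by omega]

lemma coord_eq (x : H) (k : ℕ) : ⟪x, lp.single 2 k (1 : ℝ)⟫_ℝ = x k := by
  rw [lp.inner_single_right]; simp

lemma wander (d : H) (hd : d 0 ≠ 0) : ∃ w : H, ‖w‖ = 1 ∧ (∀ j, ⟪(S ^ (j + 1)) w, w⟫_ℝ = 0) ∧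
    ∀ y : H, (∀ j, ⟪(S ^ j) d, y⟫_ℝ = 0) → ∀ j, ⟪(S ^ j) w, y⟫_ℝ = 0 := by
  set M0 : Submodule ℝ H := Submodule.span ℝ (Set.range fun j => (S ^ (j + 1)) d) with hM0
  set M : Submodule ℝ H := M0.topologicalClosure with hM
  have hgen : ∀ j, (S ^ (j + 1)) d ∈ M := fun j =>
    M0.le_topologicalClosure (Submodule.subset_span ⟨j, rfl⟩)
  have hmin : ∀ K : Submodule ℝ H, IsClosed (K : Set H) → (∀ j, (S ^ (j + 1)) d ∈ K) → M ≤ K := by
    intro K hK h
    apply Submodule.topologicalClosure_minimal _ _ hK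
    rw [Submodule.span_le]
    rintro _ ⟨j, rfl⟩; exact h j
  have hcl : IsClosed (M : Set H) := M0.isClosed_topologicalClosure
  have : CompleteSpace M := hcl.completeSpace_coe
  have hS : ∀ i, ∀ x ∈ M, (S ^ i) x ∈ M := by
    intro i
    have := hmin (M.comap (S ^ i).toLinearMap) (hcl.preimage (S ^ i).continuous) (by
      intro j
      show (S ^ i) ((S ^ (j + 1)) d) ∈ M
      rw [← pow_add_apply, ← add_assoc]; exact hgen _)
    intro x hx; exact this hx
  have hperp : ∀ y : H, (∀ j, ⟪(S ^ (j + 1)) d, y⟫_ℝ = 0) → ∀ x ∈ M, ⟪x, y⟫_ℝ = 0 := by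
    intro y hy
    have := hmin (ℝ ∙ y)ᗮ (Submodule.isClosed_orthogonal _) (by
      intro j
      rw [Submodule.mem_orthogonal_singleton_iff_inner_left]; exact hy j)
    intro x hx
    exact Submodule.mem_orthogonal_singleton_iff_inner_left.1 (this hx)
  set p : H := M.starProjection d with hp
  have hpM : p ∈ M := M.starProjection_apply_mem d
  have hw : d - p ∈ Mᗮ := M.sub_starProjection_mem_orthogonal d
  have hp0 : p 0 = 0 := by
    rw [← coord_eq]
    apply hperp _ _ p hpM
    intro j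
    rw [coord_eq, pow_succ_apply, S_apply, S0_zero]
  have hne : d - p ≠ 0 := by
    intro h
    have : (d - p) 0 = 0 := by rw [h]; rfl
    simp [hp0] at this
    exact hd this
  have hn : 0 < ‖d - p‖ := norm_pos_iff.2 hne
  refine ⟨‖d - p‖⁻¹ • (d - p), ?_, ?_, ?_⟩
  · rw [norm_smul, norm_inv, norm_norm, inv_mul_cancel₀ hn.ne']
  · intro j
    have h1 : (S ^ (j + 1)) (d - p) ∈ M := by
      rw [map_sub]; exact M.sub_mem (hgen j) (hS _ _ hpM)
    rw [map_smul, inner_smul_left, inner_smul_right,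
      (Submodule.mem_orthogonal _ _).1 hw _ h1]
    simp
  · intro y hy j
    rw [map_smul, inner_smul_left, map_sub, inner_sub_left, hy j,
      hperp y (fun j => hy (j + 1)) _ (hS j _ hpM)]
    simp

lemma orth_pow {w : H} (h1 : ‖w‖ = 1) (h : ∀ j, ⟪(S ^ (j + 1)) w, w⟫_ℝ = 0) (i j : ℕ) :
    ⟪(S ^ i) w, (S ^ j) w⟫_ℝ = if i = j then 1 else 0 := by
  rcases lt_trichotomy i j with hij | rfl | hij
  · obtain ⟨k, rfl⟩ := Nat.exists_eq_add_of_lt hij
    rw [if_neg hij.ne, add_assoc, pow_add_apply, LinearIsometry.inner_map_map, real_inner_comm, h]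
  · rw [if_pos rfl, LinearIsometry.inner_map_map, real_inner_self_eq_norm_sq, h1]; simp
  · obtain ⟨k, rfl⟩ := Nat.exists_eq_add_of_lt hij
    rw [if_neg hij.ne', add_assoc, pow_add_apply, LinearIsometry.inner_map_map, h]

lemma head_big {w : H} (h1 : ‖w‖ = 1) : ∀ᶠ K in atTop, 3 / 4 < ∑ k ∈ Finset.range K, w k ^ 2 := by
  have h := (sq_summable w).hasSum.tendsto_sum_nat
  have : ∑' n, w n ^ 2 = 1 := by
    have := inner_eq w w
    rw [real_inner_self_eq_norm_sq, h1] at this
    simp only [sq]; linarith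
  rw [this] at h
  exact h.eventually (lt_mem_nhds (by norm_num))

lemma head_shift (w : H) (K L j : ℕ) (hj : j < L) :
    ∑ k ∈ Finset.range K, w k ^ 2 ≤ ∑ k ∈ Finset.range (L + K), ((S ^ j) w k) ^ 2 := by
  calc ∑ k ∈ Finset.range K, w k ^ 2
      = ∑ k ∈ (Finset.range K).map (addRightEmbedding j), ((S ^ j) w k) ^ 2 := by
        rw [Finset.sum_map]; simp [pow_coord]
    _ ≤ _ := by
        apply Finset.sum_le_sum_of_subset_of_nonneg
        · intro k hk
          simp only [Finset.mem_map, Finset.mem_range, addRightEmbedding_apply] at hk ⊢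
          obtain ⟨a, ha, rfl⟩ := hk; omega
        · intros; positivity

theorem no_orth (d e : ℕ → ℝ) (hd : Summable fun n => d n ^ 2) (he : Summable fun n => e n ^ 2)
    (hd0 : d 0 ≠ 0) (he0 : e 0 ≠ 0) (h1 : ∀ i, ∑' k, d (k + i) * e k = 0)
    (h2 : ∀ j, ∑' k, d k * e (k + j) = 0) : False := by
  set D : H := ⟨d, mem_of_sq hd⟩
  set E : H := ⟨e, mem_of_sq he⟩
  have hDE : ∀ i j, ⟪(S ^ i) D, (S ^ j) E⟫_ℝ = 0 := by
    intro i j
    rcases le_total i j with hij | hij
    · obtain ⟨k, rfl⟩ := Nat.exists_eq_add_of_le hij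
      rw [pow_add_apply, LinearIsometry.inner_map_map, real_inner_comm, inner_pow, ← h1 k]
      congr 1; ext n; exact mul_comm _ _
    · obtain ⟨k, rfl⟩ := Nat.exists_eq_add_of_le hij
      rw [pow_add_apply, LinearIsometry.inner_map_map, inner_pow, ← h2 k]
  obtain ⟨w, hw1, hw2, hw3⟩ := wander D hd0
  obtain ⟨u, hu1, hu2, hu3⟩ := wander E he0
  have hwu : ∀ i j, ⟪(S ^ i) w, (S ^ j) u⟫_ℝ = 0 := by
    intro i j
    rw [real_inner_comm]
    apply hu3
    intro j
    rw [real_inner_comm]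
    exact hw3 _ (fun i => hDE i j) i
  set v : Bool × ℕ → H := fun q => (S ^ q.2) (if q.1 then w else u) with hv
  have hon : Orthonormal ℝ v := by
    rw [orthonormal_iff_ite]
    rintro ⟨b, i⟩ ⟨c, j⟩
    cases b <;> cases c
    · simpa [hv] using orth_pow hu1 hu2 i j
    · simp only [hv]; rw [real_inner_comm]; simpa using hwu j i
    · simpa [hv] using hwu i j
    · simpa [hv] using orth_pow hw1 hw2 i j
  obtain ⟨K, hK1, hK2⟩ := ((head_big hw1).and (head_big hu1)).exists
  set L := 2 * K + 1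
  have hB : ∀ k, ∑ q ∈ (Finset.univ : Finset Bool) ×ˢ Finset.range L, (v q k) ^ 2 ≤ 1 := by
    intro k
    have := hon.sum_inner_products_le (s := (Finset.univ : Finset Bool) ×ˢ Finset.range L)
      (lp.single 2 k (1 : ℝ))
    simp only [coord_eq, Real.norm_eq_abs, sq_abs] at this
    rwa [lp.norm_single (by norm_num), norm_one, one_pow] at this
  have hA : ∑ q ∈ (Finset.univ : Finset Bool) ×ˢ Finset.range L, (3 / 4 : ℝ) ≤
      ∑ q ∈ (Finset.univ : Finset Bool) ×ˢ Finset.range L,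
        ∑ k ∈ Finset.range (L + K), (v q k) ^ 2 := by
    apply Finset.sum_le_sum
    rintro ⟨b, j⟩ hq
    have hj : j < L := by simpa using hq
    cases b
    · exact hK2.le.trans (by simpa [hv] using head_shift u K L j hj)
    · exact hK1.le.trans (by simpa [hv] using head_shift w K L j hj)
  rw [Finset.sum_comm] at hA
  have hC := hA.trans (Finset.sum_le_sum fun k _ => hB k)
  simp [L] at hC
  linarith

end Pool.Agent.H12.Join1
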