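import Pool.Agent.H12.Avg1
import Pool.Agent.H12.Join1

set_option autoImplicit false
set_option linter.unusedSectionVars false
open MeasureTheory Filter Topology Finset

namespace Pool.Agent.H12.Join2
open Pool.Agent.H12.Avg

variable {X : Type*} [MeasurableSpace X]

def pr (a : ℕ → X → ℝ) (A : Finset ℕ) (x : X) : ℝ := ∏ s ∈ A, a s x

structure MD (μ : Measure X) (a : ℕ → X → ℝ) : Prop where
  meas : ∀ s, Measurable (a s)
  le : ∀ s x, |a s x| ≤ 1
  orth : ∀ k (A B : Finset ℕ), (∀ s ∈ A, k < s) → (∀ s ∈ B, k < s) →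
    ∫ x, a k x * (pr a A x * pr a B x) ∂μ = 0

variable {μ : Measure X} {a : ℕ → X → ℝ}

lemma MD.bd (h : MD μ a) (s : ℕ) : Bd (a s) := ⟨h.meas s, 1, h.le s⟩

lemma pr_le (h : ∀ s x, |a s x| ≤ 1) (A : Finset ℕ) (x : X) : |pr a A x| ≤ 1 := by
  rw [pr, abs_prod]
  exact prod_le_one (fun _ _ => abs_nonneg _) fun s _ => h s x

lemma MD.bd_pr (h : MD μ a) (A : Finset ℕ) : Bd (pr a A) :=
  ⟨Finset.measurable_prod _ fun s _ => h.meas s, 1, pr_le h.le A⟩

lemma pr_empty (x : X) : pr a ∅ x = 1 := by simp [pr]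
lemma pr_single (s : ℕ) (x : X) : pr a {s} x = a s x := by simp [pr]

lemma MD.shift (h : MD μ a) (i : ℕ) : MD μ fun s => a (s + i) where
  meas s := h.meas _
  le s := h.le _
  orth k A B hA hB := by
    have := h.orth (k + i) (A.map (addRightEmbedding i)) (B.map (addRightEmbedding i))
      (by simpa using hA) (by simpa using hB)
    simpa [pr] using this

lemma MD.mean (h : MD μ a) {A : Finset ℕ} (hA : A.Nonempty) : ∫ x, pr a A x ∂μ = 0 := by
  have := h.orth (A.min' hA) (A.erase (A.min' hA)) ∅ (fun s hs => by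
    rw [mem_erase] at hs
    exact lt_of_le_of_ne (A.min'_le s hs.2) hs.1.symm) (by simp)
  simp only [pr_empty, mul_one] at this
  rw [← this]
  congr 1; ext x
  rw [pr, pr, mul_prod_erase _ (fun s => a s x) (A.min'_mem hA)]

variable [IsProbabilityMeasure μ]

lemma MD.dual (h : MD μ a) (S : Finset ℕ) (c : Finset ℕ → ℝ) :
    ∫ x, (∑ A ∈ S.powerset, c A * pr a A x) ^ 2 ∂μ ≤ ∑ A ∈ S.powerset, c A ^ 2 := by
  induction S using Finset.induction_on_min generalizing c with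
  | empty => simp [pr_empty]
  | insert k S hk ih =>
    have hkS : k ∉ S := fun hm => lt_irrefl _ (hk k hm)
    have hb : ∀ c : Finset ℕ → ℝ, Bd fun x => ∑ A ∈ S.powerset, c A * pr a A x :=
      fun c => Bd.sum _ fun A => (Bd.const _).mul (h.bd_pr A)
    set P1 : X → ℝ := fun x => ∑ A ∈ S.powerset, c A * pr a A x with hP1
    set P2 : X → ℝ := fun x => ∑ A ∈ S.powerset, c (insert k A) * pr a A x with hP2
    have e1 : ∀ x, ∑ A ∈ (insert k S).powerset, c A * pr a A x = P1 x + a k x * P2 x := by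
      intro x
      rw [sum_powerset_insert hkS, hP2, mul_sum]
      congr 1
      apply sum_congr rfl
      intro A hA
      have : k ∉ A := fun hm => hkS (mem_powerset.1 hA hm)
      rw [pr, prod_insert this, pr]; ring
    have e2 : ∫ x, a k x * (P1 x * P2 x) ∂μ = 0 := by
      have : ∀ x, a k x * (P1 x * P2 x) = ∑ A ∈ S.powerset, ∑ B ∈ S.powerset,
          c A * c (insert k B) * (a k x * (pr a A x * pr a B x)) := by
        intro x
        rw [hP1, hP2, sum_mul_sum, mul_sum]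
        apply sum_congr rfl; intro A _
        rw [mul_sum]; apply sum_congr rfl; intro B _; ring
      simp only [this]
      have hi : ∀ A B, Bd fun x => c A * c (insert k B) * (a k x * (pr a A x * pr a B x)) :=
        fun A B => (Bd.const _).mul ((h.bd k).mul ((h.bd_pr A).mul (h.bd_pr B)))
      rw [integral_finsetSum _ fun A _ => (Bd.sum _ (hi A)).int μ]
      apply sum_eq_zero; intro A hA
      rw [integral_finsetSum _ fun B _ => (hi A B).int μ]
      apply sum_eq_zero; intro B hB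
      rw [integral_const_mul, h.orth k A B (fun s hs => hk s (mem_powerset.1 hA hs))
        (fun s hs => hk s (mem_powerset.1 hB hs)), mul_zero]
    simp only [e1]
    rw [sum_powerset_insert hkS]
    have b1 : Bd P1 := hb _
    have b2 : Bd P2 := hb _
    calc ∫ x, (P1 x + a k x * P2 x) ^ 2 ∂μ
        ≤ ∫ x, (P1 x ^ 2 + 2 * (a k x * (P1 x * P2 x)) + P2 x ^ 2) ∂μ := by
          apply integral_mono ((b1.add ((h.bd k).mul b2)).sq.int μ)
            (((b1.sq.add ((Bd.const 2).mul ((h.bd k).mul (b1.mul b2)))).add b2.sq).int μ)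
          intro x
          have h1 : a k x ^ 2 ≤ 1 := by
            have := h.le k x; rw [abs_le] at this; nlinarith
          have := mul_le_mul_of_nonneg_right h1 (sq_nonneg (P2 x))
          simp only; nlinarith
      _ = ∫ x, P1 x ^ 2 ∂μ + ∫ x, P2 x ^ 2 ∂μ := by
          rw [integral_add ((b1.sq.add ((Bd.const 2).mul ((h.bd k).mul (b1.mul b2)))).int μ)
            (b2.sq.int μ), integral_add (b1.sq.int μ)
            (((Bd.const 2).mul ((h.bd k).mul (b1.mul b2))).int μ), integral_const_mul, e2]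
          simp
      _ ≤ _ := add_le_add (ih c) (ih fun A => c (insert k A))

lemma MD.bessel (h : MD μ a) (S : Finset ℕ) {Φ : X → ℝ} (hΦ : Bd Φ) :
    ∑ A ∈ S.powerset, (∫ x, Φ x * pr a A x ∂μ) ^ 2 ≤ ∫ x, Φ x ^ 2 ∂μ := by
  set c : Finset ℕ → ℝ := fun A => ∫ x, Φ x * pr a A x ∂μ with hc
  set P : X → ℝ := fun x => ∑ A ∈ S.powerset, c A * pr a A x with hP
  have b1 : Bd P := Bd.sum _ fun A => (Bd.const _).mul (h.bd_pr A)
  have e1 : ∫ x, Φ x * P x ∂μ = ∑ A ∈ S.powerset, c A ^ 2 := by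
    have : ∀ x, Φ x * P x = ∑ A ∈ S.powerset, c A * (Φ x * pr a A x) := by
      intro x; rw [hP, mul_sum]; apply sum_congr rfl; intros; ring
    simp only [this]
    rw [integral_finsetSum _ fun A _ => ((Bd.const _).mul (hΦ.mul (h.bd_pr A))).int μ]
    apply sum_congr rfl; intro A _
    rw [integral_const_mul, sq]
  have e2 : 0 ≤ ∫ x, (Φ x ^ 2 - 2 * (Φ x * P x) + P x ^ 2) ∂μ :=
    integral_nonneg fun x => by simp only [Pi.zero_apply]; nlinarith [sq_nonneg (Φ x - P x)]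
  rw [integral_add ((hΦ.sq.sub ((Bd.const 2).mul (hΦ.mul b1))).int μ) (b1.sq.int μ),
    integral_sub (hΦ.sq.int μ) (((Bd.const 2).mul (hΦ.mul b1)).int μ), integral_const_mul, e1] at e2
  have := h.dual S c
  linarith

lemma sq_int_le {Φ : X → ℝ} (hm : Measurable Φ) (h : ∀ x, |Φ x| ≤ 1) : ∫ x, Φ x ^ 2 ∂μ ≤ 1 := by
  calc ∫ x, Φ x ^ 2 ∂μ ≤ ∫ _, (1 : ℝ) ∂μ := by
        apply integral_mono ((Bd.sq ⟨hm, 1, h⟩).int μ) (integrable_const _)
        intro x; have := h x; rw [abs_le] at this; simp only; nlinarith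
    _ = 1 := by simp

omit [IsProbabilityMeasure μ] in
lemma expand (S : Finset ℕ) (u v : Finset ℕ → ℝ) {ε : ℝ} (h0 : 0 ≤ ε) (h1 : ε ≤ 1)
    (hu : ∑ A ∈ S.powerset, u A ^ 2 ≤ 1) (hv : ∑ A ∈ S.powerset, v A ^ 2 ≤ 1) :
    |∑ A ∈ S.powerset, ε ^ A.card * (u A * v A) - u ∅ * v ∅ - ε * ∑ s ∈ S, u {s} * v {s}|
      ≤ ε ^ 2 := by
  have e1 : ∑ A ∈ S.powerset, ε ^ A.card * (u A * v A) =
      ∑ A ∈ S.powerset, ((if A.card = 0 then u A * v A else 0) +
        (if A.card = 1 then ε * (u A * v A) else 0) +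
        (if 2 ≤ A.card then ε ^ A.card * (u A * v A) else 0)) := by
    apply sum_congr rfl; intro A _
    rcases Nat.lt_or_ge A.card 2 with h | h
    · interval_cases hA : A.card <;> simp
    · rw [if_neg (by omega), if_neg (by omega), if_pos h]; simp
  have e2 : ∑ A ∈ S.powerset, (if A.card = 0 then u A * v A else 0) = u ∅ * v ∅ := by
    simp [card_eq_zero]
  have e3 : ∑ A ∈ S.powerset, (if A.card = 1 then ε * (u A * v A) else 0) =
      ε * ∑ s ∈ S, u {s} * v {s} := by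
    rw [← sum_filter, ← powersetCard_eq_filter, powersetCard_one, sum_map, mul_sum]; rfl
  rw [e1, sum_add_distrib, sum_add_distrib, e2, e3]
  have : ∀ p q r : ℝ, p + q + r - p - q = r := by intros; ring
  rw [this]
  refine (abs_sum_le_sum_abs _ _).trans ?_
  calc _ ≤ ∑ A ∈ S.powerset, ε ^ 2 * ((u A ^ 2 + v A ^ 2) / 2) := by
        apply sum_le_sum; intro A _
        split_ifs with h
        · rw [abs_mul, abs_of_nonneg (pow_nonneg h0 _)]
          apply mul_le_mul (pow_le_pow_of_le_one h0 h1 h) _ (abs_nonneg _) (sq_nonneg _)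
          rw [abs_le]; constructor <;> nlinarith [sq_nonneg (u A - v A), sq_nonneg (u A + v A)]
        · simp only [abs_zero]; positivity
    _ = ε ^ 2 * ((∑ A ∈ S.powerset, u A ^ 2 + ∑ A ∈ S.powerset, v A ^ 2) / 2) := by
        rw [← mul_sum, ← sum_div, sum_add_distrib]
    _ ≤ ε ^ 2 * 1 := by gcongr; linarith
    _ = _ := mul_one _

omit [IsProbabilityMeasure μ] in
lemma riesz_expand (S : Finset ℕ) (ε : ℝ) (p q : ℕ → ℝ) :
    ∏ s ∈ S, (1 + ε * (p s * q s)) =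
      ∑ A ∈ S.powerset, ε ^ A.card * ((∏ s ∈ A, p s) * ∏ s ∈ A, q s) := by
  rw [prod_one_add]
  apply sum_congr rfl; intro A _
  rw [prod_mul_distrib, prod_const, prod_mul_distrib]

omit [IsProbabilityMeasure μ] in
lemma riesz_nonneg (S : Finset ℕ) {ε : ℝ} (h0 : 0 ≤ ε) (h1 : ε ≤ 1) {p q : ℕ → ℝ}
    (hp : ∀ s, |p s| ≤ 1) (hq : ∀ s, |q s| ≤ 1) : 0 ≤ ∏ s ∈ S, (1 + ε * (p s * q s)) := by
  apply prod_nonneg; intro s _
  have : |ε * (p s * q s)| ≤ 1 := by
    rw [abs_mul, abs_mul, abs_of_nonneg h0]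
    exact mul_le_one₀ h1 (by positivity) (mul_le_one₀ (hp s) (abs_nonneg _) (hq s))
  rw [abs_le] at this; linarith

variable {Y : Type*} [MeasurableSpace Y] {ν : Measure Y} [IsProbabilityMeasure ν]
  {b : ℕ → Y → ℝ}

/-- The Riesz product. -/
def R (a : ℕ → X → ℝ) (b : ℕ → Y → ℝ) (ε : ℝ) (n : ℕ) (p : X × Y) : ℝ :=
  ∏ s ∈ range n, (1 + ε * (a s p.1 * b s p.2))

lemma bd_R (ha : MD μ a) (hb : MD ν b) (ε : ℝ) (n : ℕ) : Bd (R a b ε n) := by
  have : R a b ε n = fun p => ∑ A ∈ (range n).powerset,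
      ε ^ A.card * (pr a A p.1 * pr b A p.2) := by
    ext p; exact riesz_expand _ _ _ _
  rw [this]
  exact Bd.sum _ fun A => (Bd.const _).mul
    (((ha.bd_pr A).comp measurable_fst).mul ((hb.bd_pr A).comp measurable_snd))

lemma int_R (ha : MD μ a) (hb : MD ν b) (ε : ℝ) (n : ℕ) {Φ : X → ℝ} {Ψ : Y → ℝ} (hΦ : Bd Φ)
    (hΨ : Bd Ψ) : ∫ p, R a b ε n p * (Φ p.1 * Ψ p.2) ∂(μ.prod ν) =
      ∑ A ∈ (range n).powerset,
        ε ^ A.card * ((∫ x, Φ x * pr a A x ∂μ) * ∫ y, Ψ y * pr b A y ∂ν) := by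
  have : ∀ p : X × Y, R a b ε n p * (Φ p.1 * Ψ p.2) = ∑ A ∈ (range n).powerset,
      ε ^ A.card * ((Φ p.1 * pr a A p.1) * (Ψ p.2 * pr b A p.2)) := by
    intro p
    rw [R, riesz_expand, sum_mul]
    apply sum_congr rfl; intro A _
    simp only [pr]; ring
  simp only [this]
  rw [integral_finsetSum _ fun A _ => ((Bd.const _).mul
    (((hΦ.mul (ha.bd_pr A)).comp measurable_fst).mul
      ((hΨ.mul (hb.bd_pr A)).comp measurable_snd))).int _]
  apply sum_congr rfl; intro A _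
  rw [integral_const_mul, integral_prod_mul (fun x => Φ x * pr a A x) (fun y => Ψ y * pr b A y)]

/-- The coupling with Riesz product density. -/
noncomputable def cpl (μ : Measure X) (ν : Measure Y) (a : ℕ → X → ℝ) (b : ℕ → Y → ℝ) (ε : ℝ)
    (n : ℕ) : Measure (X × Y) :=
  (μ.prod ν).withDensity fun p => ((R a b ε n p).toNNReal : ENNReal)

lemma int_cpl (ha : MD μ a) (hb : MD ν b) {ε : ℝ} (h0 : 0 ≤ ε) (h1 : ε ≤ 1) (n : ℕ)
    (g : X × Y → ℝ) : ∫ p, g p ∂(cpl μ ν a b ε n) = ∫ p, R a b ε n p * g p ∂(μ.prod ν) := by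
  rw [cpl, integral_withDensity_eq_integral_smul (bd_R ha hb ε n).1.real_toNNReal]
  congr 1; ext p
  have : 0 ≤ R a b ε n p := riesz_nonneg _ h0 h1 (fun s => ha.le s _) (fun s => hb.le s _)
  rw [NNReal.smul_def, Real.coe_toNNReal _ this, smul_eq_mul]

lemma fin_cpl (ha : MD μ a) (hb : MD ν b) (ε : ℝ) (n : ℕ) : IsFiniteMeasure (cpl μ ν a b ε n) :=
  isFiniteMeasure_withDensity_ofReal ((bd_R ha hb ε n).int _).2

lemma int_fst (ha : MD μ a) (hb : MD ν b) {ε : ℝ} (h0 : 0 ≤ ε) (h1 : ε ≤ 1) (n : ℕ)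
    {Φ : X → ℝ} (hΦ : Bd Φ) : ∫ p, Φ p.1 ∂(cpl μ ν a b ε n) = ∫ x, Φ x ∂μ := by
  have := int_R ha hb ε n hΦ (Bd.const 1)
  simp only [mul_one, one_mul] at this
  rw [int_cpl ha hb h0 h1, this, sum_eq_single ∅]
  · simp [pr_empty]
  · intro A _ hA
    rw [hb.mean (nonempty_iff_ne_empty.2 hA)]; simp
  · simp

lemma int_snd (ha : MD μ a) (hb : MD ν b) {ε : ℝ} (h0 : 0 ≤ ε) (h1 : ε ≤ 1) (n : ℕ)
    {Ψ : Y → ℝ} (hΨ : Bd Ψ) : ∫ p, Ψ p.2 ∂(cpl μ ν a b ε n) = ∫ y, Ψ y ∂ν := by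
  have := int_R ha hb ε n (Bd.const 1) hΨ
  simp only [one_mul] at this
  rw [int_cpl ha hb h0 h1, this, sum_eq_single ∅]
  · simp [pr_empty]
  · intro A _ hA
    rw [ha.mean (nonempty_iff_ne_empty.2 hA)]; simp
  · simp

lemma map_eq_of {Z W : Type*} [MeasurableSpace Z] [MeasurableSpace W] {π : Measure Z}
    [IsFiniteMeasure π] {κ : Measure W} [IsFiniteMeasure κ] {f : Z → W} (hf : Measurable f)
    (h : ∀ Φ : W → ℝ, Bd Φ → ∫ p, Φ (f p) ∂π = ∫ x, Φ x ∂κ) : π.map f = κ := by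
  ext s hs
  have := h _ (Bd.ind hs)
  rw [integral_indicator_const _ hs] at this
  have e : (fun p => s.indicator (fun _ => (1 : ℝ)) (f p)) =
      (f ⁻¹' s).indicator fun _ => (1 : ℝ) := by
    ext p; by_cases hp : f p ∈ s <;> simp [hp]
  rw [e, integral_indicator_const _ (hf hs)] at this
  rw [Measure.map_apply hf hs]
  simp only [smul_eq_mul, mul_one] at this
  exact (measureReal_eq_measureReal_iff (measure_ne_top _ _) (measure_ne_top _ _)).1 this

lemma cpl_fst (ha : MD μ a) (hb : MD ν b) {ε : ℝ} (h0 : 0 ≤ ε) (h1 : ε ≤ 1) (n : ℕ) :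
    (cpl μ ν a b ε n).map Prod.fst = μ := by
  have := fin_cpl ha hb ε n
  exact map_eq_of measurable_fst fun Φ hΦ => int_fst ha hb h0 h1 n hΦ

lemma cpl_snd (ha : MD μ a) (hb : MD ν b) {ε : ℝ} (h0 : 0 ≤ ε) (h1 : ε ≤ 1) (n : ℕ) :
    (cpl μ ν a b ε n).map Prod.snd = ν := by
  have := fin_cpl ha hb ε n
  exact map_eq_of measurable_snd fun Φ hΦ => int_snd ha hb h0 h1 n hΦ

lemma cov_est (ha : MD μ a) (hb : MD ν b) {ε : ℝ} (h0 : 0 ≤ ε) (h1 : ε ≤ 1) (n : ℕ)
    {Φ : X → ℝ} {Ψ : Y → ℝ} (hΦ : Measurable Φ) (hΨ : Measurable Ψ) (hΦ1 : ∀ x, |Φ x| ≤ 1)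
    (hΨ1 : ∀ y, |Ψ y| ≤ 1) :
    |∑ A ∈ (range n).powerset,
        ε ^ A.card * ((∫ x, Φ x * pr a A x ∂μ) * ∫ y, Ψ y * pr b A y ∂ν)
      - (∫ x, Φ x ∂μ) * (∫ y, Ψ y ∂ν) -
      ε * ∑ s ∈ range n, (∫ x, Φ x * a s x ∂μ) * ∫ y, Ψ y * b s y ∂ν| ≤ ε ^ 2 := by
  have := expand (range n) (fun A => ∫ x, Φ x * pr a A x ∂μ) (fun A => ∫ y, Ψ y * pr b A y ∂ν)
    h0 h1 ((ha.bessel _ ⟨hΦ, 1, hΦ1⟩).trans (sq_int_le hΦ hΦ1))
    ((hb.bessel _ ⟨hΨ, 1, hΨ1⟩).trans (sq_int_le hΨ hΨ1))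
  simpa [pr_empty, pr_single] using this

lemma MD.summable (h : MD μ a) {Φ : X → ℝ} (hΦ : Bd Φ) :
    Summable fun s => (∫ x, Φ x * a s x ∂μ) ^ 2 := by
  apply summable_of_sum_range_le (c := ∫ x, Φ x ^ 2 ∂μ) (fun _ => sq_nonneg _)
  intro n
  refine le_trans ?_ (h.bessel (range n) hΦ)
  calc ∑ s ∈ range n, (∫ x, Φ x * a s x ∂μ) ^ 2
      = ∑ A ∈ (range n).map ⟨fun s => ({s} : Finset ℕ), singleton_injective⟩,
          (∫ x, Φ x * pr a A x ∂μ) ^ 2 := by
        rw [sum_map]; simp [pr_single]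
    _ ≤ _ := by
        apply sum_le_sum_of_subset_of_nonneg
        · intro A hA
          simp only [Finset.mem_map, mem_range, Function.Embedding.coeFn_mk] at hA
          obtain ⟨s, hs, rfl⟩ := hA
          simpa using hs
        · intros; positivity

end Pool.Agent.H12.Join2
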