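import Pool.Agent.H12.Join2

set_option autoImplicit false
set_option linter.unusedSectionVars false
open MeasureTheory Filter Topology Finset BoundedContinuousFunction

namespace Pool.Agent.H12.Join3
open Pool.Agent.H12.Avg Pool.Agent.H12.Join2

section
variable {X : Type*} [MeasurableSpace X]

structure Inn (μ : Measure X) (T : X → X) (φ : X → ℝ) (a : ℕ → X → ℝ) (d : ℕ → ℝ) : Prop where
  md : MD μ a
  meas : Measurable φ
  le : ∀ x, |φ x| ≤ 1
  mean : ∫ x, φ x ∂μ = 0
  corr : ∀ t s, ∫ x, φ (T^[t] x) * a s x ∂μ = if t ≤ s then d (s - t) else 0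
  d0 : d 0 ≠ 0

variable {Y : Type*} [MeasurableSpace Y] {μ : Measure X} {ν : Measure Y}
  [IsProbabilityMeasure μ] [IsProbabilityMeasure ν] {T : X → X} {U : Y → Y}
  {φ : X → ℝ} {ψ : Y → ℝ} {a : ℕ → X → ℝ} {b : ℕ → Y → ℝ} {d e : ℕ → ℝ}

lemma Inn.summable (h : Inn μ T φ a d) : Summable fun s => d s ^ 2 := by
  have := h.md.summable ⟨h.meas, 1, h.le⟩
  refine this.congr fun s => ?_
  have := h.corr 0 s
  simp only [Function.iterate_zero, id_eq, zero_le, if_true, Nat.sub_zero] at this
  rw [this]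

lemma exists_shift (ha : Inn μ T φ a d) (hb : Inn ν U ψ b e) :
    ∃ i j, (i = 0 ∨ j = 0) ∧ ∃ C ≠ 0,
      Tendsto (fun n => ∑ k ∈ range n, d (k + i) * e (k + j)) atTop (𝓝 C) := by
  have hs : ∀ i j, Summable fun k => d (k + i) * e (k + j) := by
    intro i j
    have h1 := (summable_nat_add_iff i).2 ha.summable
    have h2 := (summable_nat_add_iff j).2 hb.summable
    exact Join1.summable_mul ⟨_, Join1.mem_of_sq h1⟩ ⟨_, Join1.mem_of_sq h2⟩
  by_contra hc
  push Not at hc
  apply Join1.no_orth d e ha.summable hb.summable ha.d0 hb.d0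
  · intro i
    by_contra h
    exact hc i 0 (Or.inr rfl) _ h (hs i 0).hasSum.tendsto_sum_nat
  · intro j
    by_contra h
    exact hc 0 j (Or.inl rfl) _ h (hs 0 j).hasSum.tendsto_sum_nat

lemma first_order (ha : Inn μ T φ a d) (hb : Inn ν U ψ b e) {i j : ℕ} (hij : i = 0 ∨ j = 0)
    (N t : ℕ) : ∑ s ∈ range N, (∫ x, φ (T^[t] x) * a (s + i) x ∂μ) *
      ∫ y, ψ (U^[t] y) * b (s + j) y ∂ν = ∑ k ∈ range (N - t), d (k + i) * e (k + j) := by
  have : ∀ s, (∫ x, φ (T^[t] x) * a (s + i) x ∂μ) * ∫ y, ψ (U^[t] y) * b (s + j) y ∂ν =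
      if t ≤ s then d (s - t + i) * e (s - t + j) else 0 := by
    intro s
    rw [ha.corr, hb.corr]
    by_cases h : t ≤ s
    · rw [if_pos h, if_pos (by omega), if_pos (by omega), show s + i - t = s - t + i by omega,
        show s + j - t = s - t + j by omega]
    · rw [if_neg h]
      rcases hij with rfl | rfl
      · rw [if_neg (by omega), zero_mul]
      · rw [if_neg (c := t ≤ s + 0) (by omega), mul_zero]
  simp only [this]
  rw [← sum_filter]
  have e : (range N).filter (fun s => t ≤ s) = Ico t N := by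
    ext s; simp [and_comm]
  rw [e, sum_Ico_eq_sum_range]
  apply sum_congr rfl; intro k _; simp

lemma cesaro_rev {u : ℕ → ℝ} {C : ℝ} (h : Tendsto u atTop (𝓝 C)) :
    Tendsto (fun n : ℕ => (n : ℝ)⁻¹ * ∑ t ∈ range n, u (n - t)) atTop (𝓝 C) := by
  have h1 : Tendsto (fun n => u (n + 1)) atTop (𝓝 C) := (tendsto_add_atTop_iff_nat 1).2 h
  refine h1.cesaro.congr fun n => ?_
  congr 1
  rw [← sum_range_reflect]
  apply sum_congr rfl; intro t ht
  rw [mem_range] at ht
  congr 1; omega

/-- the averaged correlation in the Riesz product expansion -/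
lemma avg_est (hT : MeasurePreserving T μ μ) (hU : MeasurePreserving U ν ν)
    (ha : Inn μ T φ a d) (hb : Inn ν U ψ b e) {i j : ℕ} (hij : i = 0 ∨ j = 0)
    {ε : ℝ} (h0 : 0 ≤ ε) (h1 : ε ≤ 1) (n : ℕ) (hn : 0 < n) :
    |(n : ℝ)⁻¹ * ∑ t ∈ range n, ∑ A ∈ (range n).powerset, ε ^ A.card *
        ((∫ x, φ (T^[t] x) * pr (fun s => a (s + i)) A x ∂μ) *
          ∫ y, ψ (U^[t] y) * pr (fun s => b (s + j)) A y ∂ν) -
      ε * ((n : ℝ)⁻¹ * ∑ t ∈ range n, ∑ k ∈ range (n - t), d (k + i) * e (k + j))| ≤ ε ^ 2 := by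
  have hn' : (0 : ℝ) < n := by exact_mod_cast hn
  rw [mul_left_comm, ← mul_sub, mul_sum, ← sum_sub_distrib, abs_mul, abs_of_pos (inv_pos.2 hn'),
    inv_mul_le_iff₀ hn']
  refine (abs_sum_le_sum_abs _ _).trans ?_
  calc _ ≤ ∑ _t ∈ range n, ε ^ 2 := by
        apply sum_le_sum; intro t _
        have := cov_est (ha.md.shift i) (hb.md.shift j) h0 h1 n
          (ha.meas.comp (hT.iterate t).measurable) (hb.meas.comp (hU.iterate t).measurable)
          (fun x => ha.le _) (fun y => hb.le _)
        have m : ∫ x, φ (T^[t] x) ∂μ = 0 := by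
          rw [← ha.mean]
          conv_rhs => rw [← (hT.iterate t).map_eq]
          rw [integral_map (hT.iterate t).measurable.aemeasurable ha.meas.aestronglyMeasurable]
        simp only [Function.comp_apply] at this
        rwa [m, zero_mul, sub_zero, first_order ha hb hij] at this
    _ = _ := by simp

end

section
variable {X Y : Type*} [MeasurableSpace X] [TopologicalSpace X] [PolishSpace X] [BorelSpace X]
  [MeasurableSpace Y] [TopologicalSpace Y] [PolishSpace Y] [BorelSpace Y]
  {μ : Measure X} {ν : Measure Y} [IsProbabilityMeasure μ] [IsProbabilityMeasure ν]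
  {T : X → X} {U : Y → Y}

lemma limit_joining (hT : MeasurePreserving T μ μ) (hU : MeasurePreserving U ν ν)
    (cT : Continuous T) (cU : Continuous U) (π : ℕ → Measure (X × Y))
    (h1 : ∀ n, (π n).map Prod.fst = μ) (h2 : ∀ n, (π n).map Prod.snd = ν)
    (g : X × Y →ᵇ ℝ) {C : Set ℝ} (hC : IsClosed C)
    (h : ∀ᶠ n : ℕ in atTop, (n : ℝ)⁻¹ * ∑ t ∈ range n,
      ∫ p, g ((Prod.map T U)^[t] p) ∂(π n) ∈ C) :
    ∃ ξ : Measure (X × Y), IsProbabilityMeasure ξ ∧ MeasurePreserving (Prod.map T U) ξ ξ ∧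
      ξ.map Prod.fst = μ ∧ ξ.map Prod.snd = ν ∧ ∫ p, g p ∂ξ ∈ C := by
  set F := Prod.map T U with hF
  have cF : Continuous F := cT.prodMap cU
  have hp : ∀ n, IsProbabilityMeasure (π n) := fun n => by
    constructor
    have : (π n).map Prod.fst Set.univ = 1 := by rw [h1]; simp
    rwa [Measure.map_apply measurable_fst MeasurableSet.univ] at this
  set m : ℕ → Measure (X × Y) := fun n =>
    ((n + 1 : ℕ) : ENNReal)⁻¹ • ∑ t ∈ range (n + 1), (π (n + 1)).map (F^[t]) with hm
  have hmp : ∀ n, IsProbabilityMeasure (m n) := fun n => by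
    constructor
    have := hp (n + 1)
    have e : ∀ t, (π (n + 1)).map (F^[t]) Set.univ = 1 := fun t => by
      rw [Measure.map_apply (cF.iterate t).measurable MeasurableSet.univ]; simp
    simp only [hm, Measure.smul_apply, Measure.coe_finsetSum, Finset.sum_apply, e, sum_const,
      card_range, nsmul_eq_mul, mul_one, smul_eq_mul]
    exact ENNReal.inv_mul_cancel (by simp) (by simp)
  have hint : ∀ n (f : X × Y → ℝ), Bd f → ∫ p, f p ∂(m n) =
      ((n + 1 : ℕ) : ℝ)⁻¹ * ∑ t ∈ range (n + 1), ∫ p, f (F^[t] p) ∂(π (n + 1)) := by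
    intro n f hf
    have := hp (n + 1)
    rw [hm]
    simp only
    rw [integral_smul_measure, integral_finsetSum_measure fun t _ => hf.int _]
    simp only [ENNReal.toReal_inv, ENNReal.toReal_natCast, smul_eq_mul]
    congr 1
    apply sum_congr rfl; intro t _
    rw [integral_map (cF.iterate t).measurable.aemeasurable hf.1.aestronglyMeasurable]
  have bc : ∀ {Z : Type _} [MeasurableSpace Z] [TopologicalSpace Z] [BorelSpace Z] (f : Z →ᵇ ℝ),
      Bd (f : Z → ℝ) := fun f => ⟨f.continuous.measurable, ‖f‖, f.norm_coe_le_norm⟩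
  have hm1 : ∀ n, (m n).map Prod.fst = μ := by
    intro n
    have := hmp n
    apply map_eq_of measurable_fst
    intro Φ hΦ
    rw [hint n _ (hΦ.comp measurable_fst)]
    have : ∀ t, ∫ p, Φ (F^[t] p).1 ∂(π (n + 1)) = ∫ x, Φ x ∂μ := by
      intro t
      conv_rhs => rw [← (hT.iterate t).map_eq, ← h1 (n + 1)]
      rw [Measure.map_map (hT.iterate t).measurable measurable_fst,
        integral_map ((hT.iterate t).measurable.comp measurable_fst).aemeasurable
          hΦ.1.aestronglyMeasurable]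
      simp [hF, Prod.map_iterate]
    simp only [this, sum_const, card_range, nsmul_eq_mul]
    rw [inv_mul_cancel_left₀ (by positivity)]
  have hm2 : ∀ n, (m n).map Prod.snd = ν := by
    intro n
    have := hmp n
    apply map_eq_of measurable_snd
    intro Φ hΦ
    rw [hint n _ (hΦ.comp measurable_snd)]
    have : ∀ t, ∫ p, Φ (F^[t] p).2 ∂(π (n + 1)) = ∫ x, Φ x ∂ν := by
      intro t
      conv_rhs => rw [← (hU.iterate t).map_eq, ← h2 (n + 1)]
      rw [Measure.map_map (hU.iterate t).measurable measurable_snd,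
        integral_map ((hU.iterate t).measurable.comp measurable_snd).aemeasurable
          hΦ.1.aestronglyMeasurable]
      simp [hF, Prod.map_iterate]
    simp only [this, sum_const, card_range, nsmul_eq_mul]
    rw [inv_mul_cancel_left₀ (by positivity)]
  set M : ℕ → ProbabilityMeasure (X × Y) := fun n => ⟨m n, hmp n⟩ with hM
  have htight : IsTightMeasureSet
      {((ρ : ProbabilityMeasure (X × Y)) : Measure (X × Y)) | ρ ∈ Set.range M} := by
    apply IsTightMeasureSet.prodMk
    · refine (isTightMeasureSet_singleton (μ := μ)).subset ?_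
      rintro _ ⟨_, ⟨_, ⟨n, rfl⟩, rfl⟩, rfl⟩
      exact hm1 n
    · refine (isTightMeasureSet_singleton (μ := ν)).subset ?_
      rintro _ ⟨_, ⟨_, ⟨n, rfl⟩, rfl⟩, rfl⟩
      exact hm2 n
  obtain ⟨ξ, -, hξ⟩ := (isCompact_closure_of_isTightMeasureSet htight).ultrafilter_le_nhds
    ((hyperfilter ℕ).map M) (by
      rw [le_principal_iff, Ultrafilter.mem_coe, Ultrafilter.mem_map]
      exact Filter.univ_mem' fun n => subset_closure ⟨n, rfl⟩)
  have hlim : Tendsto M (hyperfilter ℕ) (𝓝 ξ) := hξ
  rw [ProbabilityMeasure.tendsto_iff_forall_integral_tendsto] at hlim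
  have hle : (hyperfilter ℕ : Filter ℕ) ≤ atTop := Nat.hyperfilter_le_atTop
  refine ⟨ξ, inferInstance, ⟨cF.measurable, ?_⟩, ?_, ?_, ?_⟩
  · have := Measure.isProbabilityMeasure_map (μ := (ξ : Measure (X × Y)))
      cF.measurable.aemeasurable
    apply ext_of_forall_integral_eq_of_IsFiniteMeasure
    intro f
    rw [integral_map cF.measurable.aemeasurable f.continuous.aestronglyMeasurable]
    have l1 := hlim (f.compContinuous ⟨F, cF⟩)
    have l2 := hlim f
    have l3 : Tendsto (fun n => ∫ p, f (F p) ∂(m n) - ∫ p, f p ∂(m n)) atTop (𝓝 0) := by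
      have hb : ∀ n, |∫ p, f (F p) ∂(m n) - ∫ p, f p ∂(m n)| ≤ 2 * ‖f‖ * (1 / ((n : ℝ) + 1)) := by
        intro n
        have := hp (n + 1)
        rw [hint n _ ((bc f).comp cF.measurable), hint n _ (bc f), ← mul_sub, ← sum_sub_distrib]
        have e := sum_range_sub (fun t => ∫ p, f (F^[t] p) ∂(π (n + 1))) (n + 1)
        simp only [Function.iterate_succ_apply'] at e
        rw [e, abs_mul, abs_of_nonneg (by positivity), mul_comm]
        have b : ∀ G : X × Y → X × Y, |∫ p, f (G p) ∂(π (n + 1))| ≤ ‖f‖ := fun G => by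
          simpa using norm_integral_le_of_norm_le_const (μ := π (n + 1)) (f := fun p => f (G p))
            (.of_forall fun p => f.norm_coe_le_norm _)
        have := (abs_sub _ _).trans (add_le_add (b fun p => F (F^[n] p)) (b (F^[0])))
        push_cast
        rw [one_div]
        gcongr
        linarith
      have : Tendsto (fun n : ℕ => 2 * ‖f‖ * (1 / ((n : ℝ) + 1))) atTop (𝓝 0) := by
        simpa using tendsto_one_div_add_atTop_nhds_zero_nat.const_mul (2 * ‖f‖)
      exact squeeze_zero_norm hb this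
    have := tendsto_nhds_unique (l1.sub l2) (l3.mono_left hle)
    exact sub_eq_zero.1 this
  · have := Measure.isProbabilityMeasure_map (μ := (ξ : Measure (X × Y)))
      (measurable_fst (α := X) (β := Y)).aemeasurable
    apply ext_of_forall_integral_eq_of_IsFiniteMeasure
    intro f
    rw [integral_map measurable_fst.aemeasurable f.continuous.aestronglyMeasurable]
    have l1 := hlim (f.compContinuous ⟨Prod.fst, continuous_fst⟩)
    have : ∀ n, ∫ p, f p.1 ∂(m n) = ∫ x, f x ∂μ := fun n => by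
      rw [← hm1 n, integral_map measurable_fst.aemeasurable f.continuous.aestronglyMeasurable]
    exact tendsto_nhds_unique l1 (tendsto_const_nhds.congr fun n => (this n).symm)
  · have := Measure.isProbabilityMeasure_map (μ := (ξ : Measure (X × Y)))
      (measurable_snd (α := X) (β := Y)).aemeasurable
    apply ext_of_forall_integral_eq_of_IsFiniteMeasure
    intro f
    rw [integral_map measurable_snd.aemeasurable f.continuous.aestronglyMeasurable]
    have l1 := hlim (f.compContinuous ⟨Prod.snd, continuous_snd⟩)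
    have : ∀ n, ∫ p, f p.2 ∂(m n) = ∫ x, f x ∂ν := fun n => by
      rw [← hm2 n, integral_map measurable_snd.aemeasurable f.continuous.aestronglyMeasurable]
    exact tendsto_nhds_unique l1 (tendsto_const_nhds.congr fun n => (this n).symm)
  · apply hC.mem_of_tendsto (hlim g)
    apply hle
    have := (tendsto_add_atTop_nat 1).eventually h
    filter_upwards [this] with n hn
    show ∫ p, g p ∂(m n) ∈ C
    rw [hint n _ (bc g)]; exact hn

theorem dependent (hT : MeasurePreserving T μ μ) (hU : MeasurePreserving U ν ν)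
    (cT : Continuous T) (cU : Continuous U) {φ : X → ℝ} {ψ : Y → ℝ} (cφ : Continuous φ)
    (cψ : Continuous ψ) {a : ℕ → X → ℝ} {b : ℕ → Y → ℝ} {d e : ℕ → ℝ}
    (ha : Inn μ T φ a d) (hb : Inn ν U ψ b e) :
    ∃ ξ : Measure (X × Y), IsProbabilityMeasure ξ ∧ MeasurePreserving (Prod.map T U) ξ ξ ∧
      ξ.map Prod.fst = μ ∧ ξ.map Prod.snd = ν ∧ ∫ p, φ p.1 * ψ p.2 ∂ξ ≠ 0 := by
  obtain ⟨i, j, hij, C, hC, hlim⟩ := exists_shift ha hb
  have hC' : 0 < |C| := abs_pos.2 hC
  set ε := min 1 (|C| / 4) with hε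
  have h0 : 0 < ε := lt_min one_pos (by positivity)
  have h1 : ε ≤ 1 := min_le_left _ _
  have h2 : ε ≤ |C| / 4 := min_le_right _ _
  set g : X × Y →ᵇ ℝ := BoundedContinuousFunction.ofNormedAddCommGroup
    (fun p => φ p.1 * ψ p.2) (by fun_prop) 1 (fun p => by
      rw [Real.norm_eq_abs, abs_mul]
      exact mul_le_one₀ (ha.le _) (abs_nonneg _) (hb.le _)) with hg
  obtain ⟨ξ, p1, p2, p3, p4, p5⟩ := limit_joining hT hU cT cU
    (fun n => cpl μ ν (fun s => a (s + i)) (fun s => b (s + j)) ε n)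
    (fun n => cpl_fst (ha.md.shift i) (hb.md.shift j) h0.le h1 n)
    (fun n => cpl_snd (ha.md.shift i) (hb.md.shift j) h0.le h1 n) g
    (C := {r | ε * (|C| / 4) ≤ |r|}) (isClosed_le continuous_const continuous_abs) (by
      have l := (cesaro_rev hlim).eventually (Metric.ball_mem_nhds C (half_pos hC'))
      filter_upwards [l, eventually_gt_atTop 0] with n hn hn0
      have est := avg_est hT hU ha hb hij h0.le h1 n hn0
      have ee : ∀ t, ∫ p, g ((Prod.map T U)^[t] p) ∂(cpl μ ν (fun s => a (s + i))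
          (fun s => b (s + j)) ε n) = ∑ A ∈ (range n).powerset, ε ^ A.card *
        ((∫ x, φ (T^[t] x) * pr (fun s => a (s + i)) A x ∂μ) *
          ∫ y, ψ (U^[t] y) * pr (fun s => b (s + j)) A y ∂ν) := by
        intro t
        rw [int_cpl (ha.md.shift i) (hb.md.shift j) h0.le h1,
          ← int_R (ha.md.shift i) (hb.md.shift j) ε n
            ((Bd.comp ⟨ha.meas, 1, ha.le⟩ (hT.iterate t).measurable))
            ((Bd.comp ⟨hb.meas, 1, hb.le⟩ (hU.iterate t).measurable))]
        simp [hg, Prod.map_iterate]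
      simp only [ee]
      rw [Real.dist_eq] at hn
      set P := (n : ℝ)⁻¹ * ∑ t ∈ range n, ∑ k ∈ range (n - t), d (k + i) * e (k + j)
      have q1 : |C| / 2 ≤ |P| := by
        have := abs_sub_abs_le_abs_sub C P
        rw [abs_sub_comm] at this; linarith
      rw [abs_sub_comm] at est
      have q2 := (abs_sub_abs_le_abs_sub _ _).trans est
      rw [abs_mul, abs_of_pos h0] at q2
      nlinarith)
  refine ⟨ξ, p1, p2, p3, p4, ?_⟩
  intro h
  have : ∫ p, g p ∂ξ = 0 := h
  rw [this] at p5
  simp only [Set.mem_ofPred_eq, abs_zero] at p5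
  have : 0 < ε * (|C| / 4) := by positivity
  linarith

end

end Pool.Agent.H12.Join3
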