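import Pool.Agent.H12.Join3

set_option autoImplicit false
set_option linter.unusedSectionVars false
open MeasureTheory Filter Topology Finset
open scoped symmDiff

namespace Pool.Agent.H12.Join4
open Pool.Agent.H12.Avg Pool.Agent.H12.Join2 Pool.Agent.H12.Join3

section
variable {X Z : Type*} [MeasurableSpace X] [MeasurableSpace Z] {μ : Measure X}
  [IsProbabilityMeasure μ] {T : X → X} {S : Z → Z} {π : X → Z}

lemma transfer (hπ : Measurable π) (hS : MeasurePreserving S (μ.map π) (μ.map π)) {G : Z → ℝ}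
    (hG : Measurable G) (k : ℕ) : ∫ x, G (S^[k] (π x)) ∂μ = ∫ z, G z ∂(μ.map π) := by
  conv_rhs => rw [← (hS.iterate k).map_eq]
  rw [Measure.map_map (hS.iterate k).measurable hπ,
    integral_map ((hS.iterate k).measurable.comp hπ).aemeasurable hG.aestronglyMeasurable]
  rfl

lemma factor_mp (hπ : Measurable π) (hT : MeasurePreserving T μ μ) (mS : Measurable S)
    (hc : ∀ x, π (T x) = S (π x)) : MeasurePreserving S (μ.map π) (μ.map π) := by
  refine ⟨mS, ?_⟩
  rw [Measure.map_map mS hπ]
  conv_rhs => rw [← hT.map_eq, Measure.map_map hπ hT.measurable]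
  congr 1; ext x; simp [hc]

lemma bd_prod {ι : Type*} (s : Finset ι) {ψ : ι → Z → ℝ} (h : ∀ i, Bd (ψ i)) :
    Bd fun ω => ∏ i ∈ s, ψ i ω := by
  classical
  induction s using Finset.induction_on with
  | empty => simpa using Bd.const 1
  | insert a s ha ih => simpa [prod_insert ha] using (h a).mul ih

lemma inn_of (hπ : Measurable π) (hS : MeasurePreserving S (μ.map π) (μ.map π))
    (hc : ∀ x, π (T x) = S (π x)) {α φ : Z → ℝ} (mα : Measurable α) (lα : ∀ z, |α z| ≤ 1)
    (oα : ∀ g, Bd g → ∫ z, α z * g (S z) ∂(μ.map π) = 0) (mφ : Measurable φ)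
    (lφ : ∀ z, |φ z| ≤ 1) (eφ : ∫ z, φ z ∂(μ.map π) = 0)
    (cφ : ∫ z, φ z * α z ∂(μ.map π) ≠ 0) :
    Inn μ T (fun x => φ (π x)) (fun s x => α (S^[s] (π x)))
      (fun k => ∫ z, φ z * α (S^[k] z) ∂(μ.map π)) := by
  have mS := hS.measurable
  have bα : Bd α := ⟨mα, 1, lα⟩
  have bφ : Bd φ := ⟨mφ, 1, lφ⟩
  have hit : ∀ t x, π (T^[t] x) = S^[t] (π x) := by
    intro t
    induction t with
    | zero => intro x; rfl
    | succ t ih => intro x; rw [Function.iterate_succ_apply', Function.iterate_succ_apply', hc, ih]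
  refine ⟨⟨fun s => mα.comp ((mS.iterate s).comp hπ), fun s x => lα _, ?_⟩, mφ.comp hπ,
    fun x => lφ _, ?_, ?_, by simpa using cφ⟩
  · intro k A B hA hB
    set g : Z → ℝ := fun z => (∏ s ∈ A, α (S^[s - (k + 1)] z)) * ∏ s ∈ B, α (S^[s - (k + 1)] z)
    have bg : Bd g := (bd_prod _ fun s => bα.comp (mS.iterate _)).mul
      (bd_prod _ fun s => bα.comp (mS.iterate _))
    rw [← oα g bg, ← transfer hπ hS (bα.mul (bg.comp mS)).1 k]
    congr 1; ext x
    have e : ∀ s, k < s → S^[s - (k + 1)] (S (S^[k] (π x))) = S^[s] (π x) := by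
      intro s hs
      rw [← Function.iterate_succ_apply' S k, ← Function.iterate_add_apply]
      congr 1; omega
    simp only [pr, g]
    congr 2
    · exact prod_congr rfl fun s hs => by rw [e s (hA s hs)]
    · exact prod_congr rfl fun s hs => by rw [e s (hB s hs)]
  · have := transfer hπ hS mφ 0
    simp only [Function.iterate_zero, id_eq] at this
    rw [this, eφ]
  · intro t s
    split_ifs with h
    · rw [← transfer hπ hS (bφ.mul (bα.comp (mS.iterate _))).1 t]
      congr 1; ext x
      rw [hit, ← Function.iterate_add_apply, Nat.sub_add_cancel h]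
    · have bg : Bd fun z => φ (S^[t - (s + 1)] z) := bφ.comp (mS.iterate _)
      rw [← oα _ bg, ← transfer hπ hS (bα.mul (bg.comp mS)).1 s]
      congr 1; ext x
      rw [hit, mul_comm, ← Function.iterate_succ_apply' S s, ← Function.iterate_add_apply]
      congr 3; omega

lemma innov {ρ : Measure Z} [IsProbabilityMeasure ρ] (hS : MeasurePreserving S ρ ρ) {E : Set Z}
    (hE : MeasurableSet E) (h : ¬ ∃ B, MeasurableSet B ∧ E =ᵐ[ρ] S ⁻¹' B) :
    ∃ α : Z → ℝ, Measurable α ∧ (∀ z, |α z| ≤ 1) ∧
      (∀ g, Bd g → ∫ z, α z * g (S z) ∂ρ = 0) ∧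
      ∫ z, (E.indicator (fun _ => (1 : ℝ)) z - ρ.real E) * α z ∂ρ ≠ 0 := by
  have mS := hS.measurable
  set κ := (ρ.restrict E).map S with hκ
  have hle : κ ≤ ρ := by
    conv_rhs => rw [← hS.map_eq]
    exact Measure.map_mono Measure.restrict_le_self mS
  set h0 : Z → ℝ := fun z => min (κ.rnDeriv ρ z).toReal 1 with hh0
  have bh : Bd h0 := ⟨(Measure.measurable_rnDeriv _ _).ennreal_toReal.min measurable_const, 1,
    fun z => by
      rw [abs_le]; exact ⟨le_min (by linarith [ENNReal.toReal_nonneg (a := κ.rnDeriv ρ z)])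
        (by norm_num), min_le_right _ _⟩⟩
  have hae : h0 =ᵐ[ρ] fun z => (κ.rnDeriv ρ z).toReal := by
    filter_upwards [Measure.rnDeriv_le_one_of_le hle] with z hz
    apply min_eq_left
    simpa using ENNReal.toReal_mono ENNReal.one_ne_top hz
  have bI := Bd.ind hE
  set α : Z → ℝ := fun z => E.indicator (fun _ => (1 : ℝ)) z - h0 (S z) with hα
  have bα : Bd α := bI.sub (bh.comp mS)
  have oα : ∀ g, Bd g → ∫ z, α z * g (S z) ∂ρ = 0 := by
    intro g bg
    have e1 : ∫ z, h0 (S z) * g (S z) ∂ρ = ∫ z, g z ∂κ := by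
      rw [← integral_toReal_rnDeriv_mul (Measure.absolutelyContinuous_of_le hle),
        ← integral_map (f := fun z => h0 z * g z) mS.aemeasurable
          (bh.mul bg).1.aestronglyMeasurable, hS.map_eq]
      apply integral_congr_ae
      filter_upwards [hae] with z hz
      rw [hz]
    have e2 : ∫ z, E.indicator (fun _ => (1 : ℝ)) z * g (S z) ∂ρ = ∫ z, g z ∂κ := by
      rw [hκ, integral_map mS.aemeasurable bg.1.aestronglyMeasurable, ← integral_indicator hE]
      congr 1; ext z; by_cases hz : z ∈ E <;> simp [hz]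
    simp only [hα, sub_mul]
    rw [integral_sub ((bI.mul (bg.comp mS)).int ρ) (((bh.comp mS).mul (bg.comp mS)).int ρ),
      e1, e2, sub_self]
  refine ⟨α, bα.1, fun z => ?_, oα, fun hz => h ?_⟩
  · have h1 : 0 ≤ h0 (S z) := le_min ENNReal.toReal_nonneg zero_le_one
    have h2 : h0 (S z) ≤ 1 := min_le_right _ _
    rw [abs_le]
    by_cases hz : z ∈ E <;> simp [hα, hz] <;> constructor <;> linarith
  · have e : ∀ z, α z ^ 2 = (E.indicator (fun _ => (1 : ℝ)) z - ρ.real E) * α z -
        α z * (h0 (S z) - ρ.real E) := by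
      intro z; simp only [hα]; ring
    have e2 : ∫ z, α z ^ 2 ∂ρ = 0 := by
      simp only [e]
      rw [integral_sub (((bI.sub (Bd.const _)).mul bα).int ρ)
        ((bα.mul ((bh.comp mS).sub (Bd.const _))).int ρ), hz,
        oα (fun z => h0 z - ρ.real E) (bh.sub (Bd.const _)), sub_self]
    rw [integral_eq_zero_iff_of_nonneg (fun z => sq_nonneg _) (bα.sq.int ρ)] at e2
    refine ⟨h0 ⁻¹' {1}, bh.1 (measurableSet_singleton _), ?_⟩
    filter_upwards [e2] with z hz
    have : E.indicator (fun _ => (1 : ℝ)) z = h0 (S z) := by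
      have := pow_eq_zero_iff (two_ne_zero) |>.1 hz
      exact sub_eq_zero.1 this
    apply propext
    show z ∈ E ↔ h0 (S z) = 1
    rw [← this]
    by_cases hz : z ∈ E <;> simp [hz]

lemma int_fin {W : Type*} [Fintype W] [MeasurableSpace W] [MeasurableSingletonClass W]
    {U : X → W} (hU : Measurable U) (F : W → ℝ) :
    ∫ x, F (U x) ∂μ = ∑ w, μ.real {x | U x = w} * F w := by
  have := Measure.isProbabilityMeasure_map (μ := μ) hU.aemeasurable
  rw [← integral_map hU.aemeasurable (measurable_of_finite F).aestronglyMeasurable,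
    integral_fintype (Integrable.of_finite)]
  apply sum_congr rfl; intro w _
  rw [map_measureReal_apply hU (measurableSet_singleton _), smul_eq_mul]; rfl

lemma gibbs {W : Type*} [Fintype W] [MeasurableSpace W] [MeasurableSingletonClass W]
    {U : X → W} (hU : Measurable U) {q : W → ℝ} (h0 : ∀ w, 0 < q w) (h1 : ∑ w, q w ≤ 1) :
    ∑ w, Real.negMulLog (μ.real {x | U x = w}) ≤ ∫ x, -Real.log (q (U x)) ∂μ := by
  rw [int_fin hU fun w => -Real.log (q w)]
  have e := int_fin (μ := μ) hU fun _ => 1
  simp only [integral_const, probReal_univ, smul_eq_mul, mul_one] at e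
  have : ∀ w, Real.negMulLog (μ.real {x | U x = w}) ≤
      μ.real {x | U x = w} * -Real.log (q w) + (q w - μ.real {x | U x = w}) := by
    intro w
    have hp0 : 0 ≤ μ.real {x | U x = w} := measureReal_nonneg
    generalize μ.real {x | U x = w} = p at hp0
    rcases hp0.eq_or_lt with hp | hp
    · rw [← hp]; simpa using (h0 w).le
    · have := Real.log_le_sub_one_of_pos (div_pos (h0 w) hp)
      rw [Real.log_div (h0 w).ne' hp.ne'] at this
      have h2 := mul_le_mul_of_nonneg_left this hp.le
      rw [mul_sub p (q w / p), mul_div_cancel₀ _ hp.ne'] at h2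
      rw [Real.negMulLog]; nlinarith
  refine (sum_le_sum fun w _ => this w).trans ?_
  rw [sum_add_distrib, sum_sub_distrib]; linarith

end

/-- the left shift -/
def sh {Λ : Type*} (x : ℕ → Λ) : ℕ → Λ := fun n => x (n + 1)

lemma meas_sh {Λ : Type*} [MeasurableSpace Λ] : Measurable (sh : (ℕ → Λ) → ℕ → Λ) :=
  measurable_pi_lambda _ fun _ => measurable_pi_apply _

lemma sh_iter {Λ : Type*} (k : ℕ) (x : ℕ → Λ) (n : ℕ) : sh^[k] x n = x (n + k) := by
  induction k generalizing n with
  | zero => rfl
  | succ k ih => rw [Function.iterate_succ_apply', sh, ih]; congr 1; omega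

lemma approx_cyl {Λ : Type*} [MeasurableSpace Λ] (ρ : Measure (ℕ → Λ)) [IsProbabilityMeasure ρ]
    {B : Set (ℕ → Λ)} (hB : MeasurableSet B) {κ : ℝ} (hκ : 0 < κ) :
    ∃ C : Set (ℕ → Λ), MeasurableSet C ∧ ρ.real (C ∆ B) ≤ κ ∧
      ∃ k, ∀ z z', (∀ t < k, z t = z' t) → z ∈ C → z' ∈ C := by
  obtain ⟨C, hC, h⟩ := exists_measure_symmDiff_lt_of_generateFrom_isSetRing (μ := ρ)
    isSetRing_measurableCylinders ⟨{Set.univ}, by simp, by simpa using univ_mem_measurableCylinders (fun _ : ℕ => Λ),
      by simp⟩ generateFrom_measurableCylinders.symm hB (ENNReal.ofReal_pos.2 hκ)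
  refine ⟨C, MeasurableSet.of_mem_measurableCylinders hC, ?_, ?_⟩
  · exact ENNReal.toReal_le_of_le_ofReal hκ.le h.le
  · obtain ⟨s, S, -, rfl⟩ := (mem_measurableCylinders _).1 hC
    refine ⟨s.sup id + 1, fun z z' hz h => ?_⟩
    rw [mem_cylinder] at h ⊢
    convert h using 1
    ext i
    exact (hz i (Nat.lt_succ_of_le (le_sup (f := id) i.2))).symm

/-- approximate a finite family of sets that a.e. describe the fibres of `U` by a window map -/
lemma approx_fun {X Λ W : Type*} [MeasurableSpace X] [MeasurableSpace Λ] [Fintype W] [Nonempty W]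
    {μ : Measure X} [IsProbabilityMeasure μ] {π : X → ℕ → Λ} (hπ : Measurable π) {U : X → W}
    (h : ∀ w, ∃ B, MeasurableSet B ∧ {x | U x = w} =ᵐ[μ] π ⁻¹' B) {κ : ℝ} (hκ : 0 < κ) :
    ∃ g : (ℕ → Λ) → W, ∃ k, (∀ z z', (∀ t < k, z t = z' t) → g z = g z') ∧
      μ.real {x | U x ≠ g (π x)} ≤ κ := by
  classical
  choose B hB hU using h
  have := Measure.isProbabilityMeasure_map (μ := μ) hπ.aemeasurable
  have hc : (0 : ℝ) < Fintype.card W := by exact_mod_cast Fintype.card_pos
  choose C hC hCB k hk using fun w => approx_cyl (μ.map π) (hB w) (div_pos hκ hc)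
  refine ⟨fun z => if h : ∃ w, z ∈ C w then h.choose else Classical.arbitrary W,
    univ.sup k, fun z z' hz => ?_, ?_⟩
  · have : ∀ w, z ∈ C w ↔ z' ∈ C w := fun w =>
      ⟨hk w z z' fun t ht => hz t (ht.trans_le (le_sup (mem_univ w))),
       hk w z' z fun t ht => (hz t (ht.trans_le (le_sup (mem_univ w)))).symm⟩
    simp only [this]
  · calc _ ≤ μ.real (⋃ w, π ⁻¹' (C w ∆ B w)) := by
          apply ENNReal.toReal_mono (measure_ne_top _ _)
          apply measure_mono_ae
          filter_upwards [ae_all_iff.2 hU] with x hx hne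
          by_contra hcon
          apply hne
          have hw : ∀ w, π x ∈ C w ↔ U x = w := by
            intro w
            have h1 : π x ∉ C w ∆ B w := fun h => hcon (Set.mem_iUnion.2 ⟨w, h⟩)
            have h2 : U x = w ↔ π x ∈ B w := iff_of_eq (hx w)
            rw [Set.mem_symmDiff] at h1
            tauto
          have hex : ∃ w, π x ∈ C w := ⟨U x, (hw _).2 rfl⟩
          simp only [dif_pos hex]
          exact (hw _).1 hex.choose_spec
      _ ≤ ∑ w, μ.real (π ⁻¹' (C w ∆ B w)) := measureReal_iUnion_fintype_le _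
      _ ≤ ∑ _w : W, κ / Fintype.card W := by
          apply sum_le_sum; intro w _
          rw [← map_measureReal_apply hπ ((hC w).symmDiff (hB w))]; exact hCB w
      _ = κ := by simp; field_simp

lemma meas_window {Λ W : Type*} [MeasurableSpace Λ] [Countable Λ] [MeasurableSingletonClass Λ]
    [MeasurableSpace W] {g : (ℕ → Λ) → W} {k : ℕ}
    (h : ∀ z z', (∀ t < k, z t = z' t) → g z = g z') : Measurable g := by
  by_cases hne : Nonempty Λ
  · have : g = (fun u : Fin k → Λ => g fun t => if h : t < k then u ⟨t, h⟩ else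
        Classical.arbitrary Λ) ∘ fun z i => z i := by
      ext z; apply h; intro t ht; simp [ht]
    rw [this]
    exact (measurable_of_countable _).comp (measurable_pi_lambda _ fun _ => measurable_pi_apply _)
  · have : IsEmpty (ℕ → Λ) := ⟨fun z => hne ⟨z 0⟩⟩
    exact measurable_of_empty _

section
variable {W : Type*} [Fintype W] [DecidableEq W] [Nonempty W]

/-- cheap sub-probability concentrated near a predicted value -/
noncomputable def rr (η : ℝ) (a b : W) : ℝ := if a = b then 1 - η else η / Fintype.card W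

lemma card_pos' : (1 : ℝ) ≤ Fintype.card W := by exact_mod_cast Fintype.card_pos

lemma rr_low {η : ℝ} (h0 : 0 < η) (h1 : η ≤ 1 / 2) (a b : W) : η / Fintype.card W ≤ rr η a b := by
  rw [rr]; split_ifs
  · have := div_le_self h0.le (card_pos' (W := W)); linarith
  · rfl

lemma rr_pos {η : ℝ} (h0 : 0 < η) (h1 : η ≤ 1 / 2) (a b : W) : 0 < rr η a b :=
  (div_pos h0 (one_pos.trans_le card_pos')).trans_le (rr_low h0 h1 a b)

lemma rr_le {η : ℝ} (h0 : 0 < η) (h1 : η ≤ 1 / 2) (a b : W) : rr η a b ≤ 1 := by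
  rw [rr]; split_ifs
  · linarith
  · have := div_le_self h0.le (card_pos' (W := W)); linarith

lemma rr_sum {η : ℝ} (h0 : 0 < η) (b : W) : ∑ a, rr η a b ≤ 1 := by
  have hc := one_pos.trans_le (card_pos' (W := W))
  calc ∑ a, rr η a b ≤ ∑ a, ((if a = b then 1 - η else 0) + η / Fintype.card W) := by
        apply sum_le_sum; intro a _
        rw [rr]; split_ifs
        · have := div_pos h0 hc; linarith
        · simp
    _ = 1 := by rw [sum_add_distrib]; simp; field_simp; ring

lemma rr_cost {δ : ℝ} (hδ : 0 < δ) : ∃ η κ L : ℝ, 0 < η ∧ η ≤ 1 / 2 ∧ 0 < κ ∧ 0 ≤ L ∧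
    (∀ a b : W, -Real.log (rr η a b) ≤ L) ∧
    ∀ {X : Type} [MeasurableSpace X] (μ : Measure X) [IsProbabilityMeasure μ] (U V : X → W),
      MeasurableSet {x | U x ≠ V x} → μ.real {x | U x ≠ V x} ≤ κ →
      Bd (fun x => -Real.log (rr η (U x) (V x))) ∧
      ∫ x, -Real.log (rr η (U x) (V x)) ∂μ ≤ δ := by
  set η := min (1 / 2) (δ / 4)
  have h0 : 0 < η := lt_min (by norm_num) (by positivity)
  have h1 : η ≤ 1 / 2 := min_le_left _ _
  have h2 : η ≤ δ / 4 := min_le_right _ _
  have hc := one_pos.trans_le (card_pos' (W := W))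
  set L := -Real.log (η / Fintype.card W) with hL
  have hL0 : 0 ≤ L := by
    have := div_le_self h0.le (card_pos' (W := W))
    exact neg_nonneg.2 (Real.log_nonpos (div_pos h0 hc).le (by linarith))
  have hl : -Real.log (1 - η) ≤ δ / 2 := by
    have h3 := Real.one_sub_inv_le_log_of_pos (x := 1 - η) (by linarith)
    have h4 : (1 - η)⁻¹ ≤ 1 + 2 * η := by
      rw [inv_le_iff_one_le_mul₀ (by linarith)]; nlinarith
    linarith
  refine ⟨η, δ / (2 * (L + 1)), L, h0, h1, by positivity, hL0, fun a b => ?_, ?_⟩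
  · exact neg_le_neg (Real.log_le_log (div_pos h0 hc) (rr_low h0 h1 a b))
  · intro X _ μ _ U V hm hμ
    have e : ∀ x, -Real.log (rr η (U x) (V x)) = -Real.log (1 - η) +
        (L + Real.log (1 - η)) * {x | U x ≠ V x}.indicator (fun _ => (1 : ℝ)) x := by
      intro x
      by_cases h : U x = V x <;> simp [rr, h, hL]
    simp only [e]
    refine ⟨(Bd.const _).add ((Bd.const _).mul (Bd.ind hm)), ?_⟩
    rw [integral_add (integrable_const _) (((Bd.const _).mul (Bd.ind hm)).int μ),
      integral_const_mul, integral_indicator_const _ hm]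
    simp only [integral_const, probReal_univ, smul_eq_mul, mul_one, one_mul]
    have h5 : Real.log (1 - η) ≤ 0 := Real.log_nonpos (by linarith) (by linarith)
    have h6 : 0 ≤ μ.real {x | U x ≠ V x} := measureReal_nonneg
    have h7 : (L + 1) * μ.real {x | U x ≠ V x} ≤ δ / 2 := by
      calc _ ≤ (L + 1) * (δ / (2 * (L + 1))) := by gcongr
        _ = δ / 2 := by field_simp
    nlinarith

/-- extension of a finite word -/
noncomputable def ext {n : ℕ} (w : Fin n → W) : ℕ → W :=
  fun t => if h : t < n then w ⟨t, h⟩ else Classical.arbitrary W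

noncomputable def qq (η : ℝ) (g : (ℕ → W) → W) {n : ℕ} (w : Fin n → W) : ℝ :=
  ∏ t ∈ range n, rr η (sh^[t] (ext w) 0) (g (sh (sh^[t] (ext w))))

lemma qq_sum {η : ℝ} (h0 : 0 < η) (h1 : η ≤ 1 / 2) (g : (ℕ → W) → W) (n : ℕ) :
    ∑ w : Fin n → W, qq η g w ≤ 1 := by
  induction n with
  | zero => simp [qq]
  | succ n ih =>
    rw [← (Fin.consEquiv fun _ => W).sum_comp, Fintype.sum_prod_type, sum_comm]
    refine le_trans (sum_le_sum fun w _ => ?_) ih
    have e : ∀ a, sh (ext ((Fin.consEquiv fun _ => W) (a, w))) = ext w := by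
      intro a; funext t
      by_cases ht : t < n
      · simp only [sh, ext, ht, Nat.add_lt_add_iff_right, dif_pos]
        exact Fin.cons_succ (α := fun _ => W) a w ⟨t, ht⟩
      · simp [sh, ext, ht]
    have e2 : ∀ a, qq η g ((Fin.consEquiv fun _ => W) (a, w)) = qq η g w * rr η a (g (ext w)) := by
      intro a
      rw [qq, prod_range_succ']
      simp only [Function.iterate_succ_apply, e, Function.iterate_zero, id_eq]
      rfl
    simp only [e2]
    rw [← mul_sum]
    exact mul_le_of_le_one_right (prod_nonneg fun _ _ => (rr_pos h0 h1 _ _).le) (rr_sum h0 _)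

end

lemma code {W : Type} [Fintype W] [DecidableEq W] [Nonempty W] [MeasurableSpace W]
    [MeasurableSingletonClass W] {ρ : Measure (ℕ → W)} [IsProbabilityMeasure ρ]
    (hS : MeasurePreserving sh ρ ρ)
    (h : ∀ w, ∃ B, MeasurableSet B ∧ {z : ℕ → W | z 0 = w} =ᵐ[ρ] sh ⁻¹' B) {δ : ℝ} (hδ : 0 < δ) :
    ∃ C, ∀ n, ∃ q : (Fin n → W) → ℝ, (∀ w, 0 < q w) ∧ ∑ w, q w ≤ 1 ∧
      ∫ z, -Real.log (q fun i => z i) ∂ρ ≤ δ * n + C := by
  obtain ⟨η, κ, L, h0, h1, hκ, hL, hrL, hr⟩ := rr_cost (W := W) hδ
  obtain ⟨g, k, hg, hgκ⟩ := approx_fun (μ := ρ) (π := sh) meas_sh (U := fun z => z 0) h hκ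
  have mg : Measurable g := meas_window hg
  obtain ⟨bc, ic⟩ := hr ρ (fun z => z 0) (fun z => g (sh z))
    (measurableSet_eq_fun (measurable_pi_apply 0) (mg.comp meas_sh)).compl hgκ
  refine ⟨k * L, fun n => ⟨qq η g, fun w => prod_pos fun _ _ => rr_pos h0 h1 _ _,
    qq_sum h0 h1 g n, ?_⟩⟩
  set c : (ℕ → W) → ℝ := fun z => -Real.log (rr η (z 0) (g (sh z))) with hc
  have c0 : ∀ z, 0 ≤ c z := fun z =>
    neg_nonneg.2 (Real.log_nonpos (rr_pos h0 h1 _ _).le (rr_le h0 h1 _ _))
  have pt : ∀ z : ℕ → W, -Real.log (qq η g fun i : Fin n => z i) ≤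
      ∑ t ∈ range n, c (sh^[t] z) + k * L := by
    intro z
    rw [qq, Real.log_prod fun _ _ => (rr_pos h0 h1 _ _).ne', ← sum_neg_distrib]
    calc _ ≤ ∑ t ∈ range n, (c (sh^[t] z) + if n ≤ t + k then L else 0) := by
          apply sum_le_sum; intro t ht
          rw [mem_range] at ht
          split_ifs with h
          · linarith [hrL (sh^[t] (ext fun i : Fin n => z i) 0)
              (g (sh (sh^[t] (ext fun i : Fin n => z i)))), c0 (sh^[t] z)]
          · rw [add_zero, hc]
            apply le_of_eq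
            simp only
            congr 3
            · simp [sh_iter, ext, ht]
            · apply hg
              intro s hs
              have : s + 1 + t < n := by omega
              simp [sh, sh_iter, ext, this]
      _ ≤ _ := by
          rw [sum_add_distrib, ← sum_filter, sum_const, nsmul_eq_mul]
          gcongr
          have : (range n).filter (fun t => n ≤ t + k) ⊆ Ico (n - k) n := by
            intro t; simp only [mem_filter, mem_range, mem_Ico]; omega
          have := card_le_card this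
          rw [Nat.card_Ico] at this
          omega
  calc _ ≤ ∫ z, (∑ t ∈ range n, c (sh^[t] z) + k * L) ∂ρ := by
        apply integral_mono _ (((Bd.sum _ fun t => bc.comp (meas_sh.iterate t)).add
          (Bd.const _)).int ρ) pt
        have := Measure.isProbabilityMeasure_map (μ := ρ) (f := fun z (i : Fin n) => z i)
          (measurable_pi_lambda _ fun _ => measurable_pi_apply _).aemeasurable
        exact (Integrable.of_finite (μ := ρ.map fun z (i : Fin n) => z i)
          (f := fun w => -Real.log (qq η g w))).comp_measurable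
          (measurable_pi_lambda _ fun _ => measurable_pi_apply _)
    _ ≤ _ := by
        rw [integral_add ((Bd.sum _ fun t => bc.comp (meas_sh.iterate t)).int ρ)
          (integrable_const _), integral_finsetSum _ fun t _ =>
            (bc.comp (meas_sh.iterate t)).int ρ]
        have : ∀ t, ∫ z, c (sh^[t] z) ∂ρ ≤ δ := by
          intro t
          rw [← integral_map (f := c) (meas_sh.iterate t).aemeasurable bc.1.aestronglyMeasurable,
            (hS.iterate t).map_eq]
          exact ic
        have := sum_le_sum fun t (_ : t ∈ range n) => this t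
        simp only [sum_const, card_range, nsmul_eq_mul, integral_const, probReal_univ,
          smul_eq_mul, one_mul] at this ⊢
        linarith

end Pool.Agent.H12.Join4
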