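import Pool.Agent.H12.Join4

set_option autoImplicit false
set_option linter.unusedSectionVars false
open MeasureTheory Filter Topology Finset

namespace Pool.Agent.H12.Join5
open Pool.Agent.H12.Avg Pool.Agent.H12.Join2 Pool.Agent.H12.Join3 Pool.Agent.H12.Join4

variable {Λ : Type*} [MeasurableSpace Λ] [Countable Λ] [MeasurableSingletonClass Λ]

/-- letter-to-letter coding -/
def cod {W : Type*} (f : Λ → W) (x : ℕ → Λ) : ℕ → W := fun n => f (x n)

lemma meas_cod {W : Type*} [MeasurableSpace W] (f : Λ → W) : Measurable (cod f) :=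
  measurable_pi_lambda _ fun n => (measurable_of_countable f).comp (measurable_pi_apply n)

/-- the coded process is determined by its future -/
def Det {W : Type*} [MeasurableSpace W] (μ : Measure (ℕ → Λ)) (f : Λ → W) : Prop :=
  ∀ w, ∃ B, MeasurableSet B ∧ {z : ℕ → W | z 0 = w} =ᵐ[μ.map (cod f)] sh ⁻¹' B

lemma inn_of_not_det {W : Type} [MeasurableSpace W] [MeasurableSingletonClass W]
    {μ : Measure (ℕ → Λ)} [IsProbabilityMeasure μ]
    (hT : MeasurePreserving sh μ μ) {f : Λ → W} (h : ¬ Det μ f) :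
    ∃ (F : Λ → ℝ) (w : W) (α : (ℕ → W) → ℝ) (d : ℕ → ℝ), Measurable α ∧
      (∀ l, F l = {l | f l = w}.indicator (fun _ => (1 : ℝ)) l - μ.real {x | f (x 0) = w}) ∧
      Inn μ sh (fun x => F (x 0)) (fun s x => α (sh^[s] (cod f x))) d := by
  have mc := meas_cod (W := W) f
  have := Measure.isProbabilityMeasure_map (μ := μ) mc.aemeasurable
  have hS : MeasurePreserving sh (μ.map (cod f)) (μ.map (cod f)) :=
    factor_mp mc hT meas_sh fun _ => rfl
  rw [Det, not_forall] at h
  obtain ⟨w, hw⟩ := h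
  have hE : MeasurableSet {z : ℕ → W | z 0 = w} :=
    (measurable_pi_apply (X := fun _ : ℕ => W) 0) (measurableSet_singleton w)
  obtain ⟨α, mα, lα, oα, cα⟩ := innov hS hE hw
  have hp : (μ.map (cod f)).real {z : ℕ → W | z 0 = w} = μ.real {x | f (x 0) = w} := by
    rw [map_measureReal_apply mc hE]; rfl
  refine ⟨fun l => {l | f l = w}.indicator (fun _ => (1 : ℝ)) l - μ.real {x | f (x 0) = w},
    w, α, fun k => ∫ z, ({z : ℕ → W | z 0 = w}.indicator (fun _ => (1 : ℝ)) z -
      (μ.map (cod f)).real {z : ℕ → W | z 0 = w}) * α (sh^[k] z) ∂(μ.map (cod f)),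
    mα, fun _ => rfl, ?_⟩
  have := inn_of (T := sh) mc hS (fun _ => rfl) mα lα oα ((Bd.ind hE).sub (Bd.const _)).1
    (fun z => by
      have h1 : 0 ≤ (μ.map (cod f)).real {z : ℕ → W | z 0 = w} := measureReal_nonneg
      have h2 : (μ.map (cod f)).real {z : ℕ → W | z 0 = w} ≤ 1 := measureReal_le_one
      rw [abs_le]
      by_cases hz : z 0 = w <;> simp [hz] <;> linarith)
    (by rw [integral_sub ((Bd.ind hE).int _) (integrable_const _), integral_indicator_const _ hE]
        simp) cα
  convert this using 2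
  rw [hp]; rfl

lemma not_det_of_entropy {m : ℕ} {μ : Measure (ℕ → Λ)} [IsProbabilityMeasure μ]
    (hT : MeasurePreserving sh μ μ) {f : Λ → Fin m} {c : ℝ} (hc : 0 < c)
    (h : ∀ n : ℕ, c * (n : ℝ) ≤ ∑ w : Fin n → Fin m,
      Real.negMulLog ((μ {x : ℕ → Λ | ∀ i : Fin n, f (x i.val) = w i}).toReal)) : ¬ Det μ f := by
  intro hD
  have mc := meas_cod (W := Fin m) f
  have := Measure.isProbabilityMeasure_map (μ := μ) mc.aemeasurable
  have hS : MeasurePreserving sh (μ.map (cod f)) (μ.map (cod f)) :=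
    factor_mp mc hT meas_sh fun _ => rfl
  have : Nonempty (Fin m) := by
    obtain ⟨x⟩ := nonempty_of_isProbabilityMeasure μ
    exact ⟨f (x 0)⟩
  obtain ⟨C, hC⟩ := code hS hD (half_pos hc)
  obtain ⟨n, hn⟩ := exists_nat_gt (2 * C / c)
  obtain ⟨q, q0, q1, q2⟩ := hC n
  have mU : Measurable fun (z : ℕ → Fin m) (i : Fin n) => z i :=
    measurable_pi_lambda _ fun _ => measurable_pi_apply _
  have g := (gibbs (μ := μ.map (cod f)) mU q0 q1).trans q2
  have e : ∀ w : Fin n → Fin m, (μ.map (cod f)).real {z | (fun i : Fin n => z i) = w} =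
      (μ {x : ℕ → Λ | ∀ i : Fin n, f (x i.val) = w i}).toReal := by
    intro w
    have hm : MeasurableSet {z : ℕ → Fin m | (fun i : Fin n => z i) = w} :=
      mU (measurableSet_singleton w)
    rw [map_measureReal_apply mc hm, Measure.real]
    congr 2; ext x; simp [cod, funext_iff]
  simp only [e] at g
  have := (h n).trans g
  rw [div_lt_iff₀ hc] at hn
  nlinarith

end Pool.Agent.H12.Join5
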