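import Mathlib

/-! Lemniscates with linearly many long components. -/

set_option autoImplicit false

namespace Pool.Agent.H12.Lemn

open Set Complex Polynomial

theorem sin_ge {y : ℝ} (h0 : 0 < y) (h1 : y ≤ 0.072) : 0.998 * y ≤ Real.sin y := by
  have h := Real.sin_gt_sub_cube h0
  have h2 : y ^ 2 ≤ 0.072 ^ 2 := pow_le_pow_left₀ h0.le h1 2
  nlinarith

noncomputable def rr (κ φ : ℝ) : ℝ := 9 / 5 * Real.sin (2 * φ - κ) / Real.sin (3 * φ - κ)

noncomputable def zz (κ φ : ℝ) : ℂ := rr κ φ * exp (φ * I)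

noncomputable def rho (κ φ : ℝ) : ℝ := 9 / 5 * rr κ φ ^ 2 * Real.sin φ / Real.sin (3 * φ - κ)

theorem key (A B : ℝ) : (Real.sin A : ℂ) * exp (B * I) - Real.sin B * exp (A * I)
    = -(Real.sin (B - A) : ℂ) := by
  apply Complex.ext
  · simp only [sub_re, re_ofReal_mul, exp_ofReal_mul_I_re, neg_re, ofReal_re, Real.sin_sub]; ring
  · simp only [sub_im, im_ofReal_mul, exp_ofReal_mul_I_im, neg_im, ofReal_im]; ring

theorem h_zz {κ φ : ℝ} (h : Real.sin (3 * φ - κ) ≠ 0) :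
    zz κ φ ^ 2 * (zz κ φ - 9 / 5) = -(rho κ φ : ℂ) * exp (κ * I) := by
  have h1 := key (2 * φ - κ) (3 * φ - κ)
  rw [show 3 * φ - κ - (2 * φ - κ) = φ by ring] at h1
  have e2 : exp (φ * I) ^ 2 = exp (((2 * φ - κ : ℝ) : ℂ) * I) * exp (κ * I) := by
    rw [← exp_add, ← exp_nat_mul]; congr 1; push_cast; ring
  have e3 : exp (φ * I) ^ 3 = exp (((3 * φ - κ : ℝ) : ℂ) * I) * exp (κ * I) := by
    rw [← exp_add, ← exp_nat_mul]; congr 1; push_cast; ring
  have h' : (Real.sin (3 * φ - κ) : ℂ) ≠ 0 := ofReal_ne_zero.2 h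
  have e4 : zz κ φ ^ 2 * (zz κ φ - 9 / 5)
      = (rr κ φ : ℂ) ^ 2 * (rr κ φ * exp (φ * I) ^ 3 - 9 / 5 * exp (φ * I) ^ 2) := by
    unfold zz; ring
  have e5 : (rr κ φ : ℂ) * Real.sin (3 * φ - κ) = 9 / 5 * Real.sin (2 * φ - κ) := by
    unfold rr
    rw [ofReal_div, div_mul_cancel₀ _ h', ofReal_mul, ofReal_div]
    norm_num
  have e6 : (rho κ φ : ℂ) * Real.sin (3 * φ - κ) = 9 / 5 * (rr κ φ : ℂ) ^ 2 * Real.sin φ := by
    unfold rho
    rw [ofReal_div, div_mul_cancel₀ _ h', ofReal_mul, ofReal_mul, ofReal_div, ofReal_pow]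
    norm_num
  rw [e4, e2, e3]
  refine mul_right_cancel₀ h' ?_
  linear_combination (rr κ φ : ℂ) ^ 2 * exp (((3 * φ - κ : ℝ) : ℂ) * I) * exp (κ * I) * e5
    + exp (κ * I) * e6 + 9 / 5 * (rr κ φ : ℂ) ^ 2 * exp (κ * I) * h1

theorem rho_bd {κ φ : ℝ} (h0 : 0 < κ) (h1 : κ ≤ 0.009) (hφ : φ ∈ Icc (0.51 * κ) (3 * κ)) :
    0 < Real.sin (3 * φ - κ) ∧ 1 / 10 ^ 7 ≤ rho κ φ ∧ rho κ φ ≤ 1 := by
  obtain ⟨h2, h3⟩ := hφ
  have a1 := sin_ge (y := 2 * φ - κ) (by linarith) (by linarith)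
  have a2 := Real.sin_le (x := 2 * φ - κ) (by linarith)
  have b1 := sin_ge (y := 3 * φ - κ) (by linarith) (by linarith)
  have b2 := Real.sin_le (x := 3 * φ - κ) (by linarith)
  have c1 := sin_ge (y := φ) (by linarith) (by linarith)
  have c2 := Real.sin_le (x := φ) (by linarith)
  have hB : 0 < Real.sin (3 * φ - κ) := by linarith
  have e : rho κ φ = (9 / 5) ^ 3 * (Real.sin (2 * φ - κ) ^ 2 * Real.sin φ)
      / Real.sin (3 * φ - κ) ^ 3 := by
    unfold rho rr; field_simp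
  refine ⟨hB, ?_, ?_⟩
  · rw [e, le_div_iff₀ (by positivity)]
    have d1 : Real.sin (3 * φ - κ) ^ 3 ≤ (8 * κ) ^ 3 := pow_le_pow_left₀ hB.le (by linarith) 3
    have d2 : (κ / 100) ^ 2 ≤ Real.sin (2 * φ - κ) ^ 2 :=
      pow_le_pow_left₀ (by positivity) (by linarith) 2
    have d3 := mul_le_mul d2 (show κ / 2 ≤ Real.sin φ by linarith) (by positivity) (by positivity)
    have d4 : 0 < κ ^ 3 := by positivity
    nlinarith
  · rw [e, div_le_one (by positivity)]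
    have d1 : (0.998 * (3 * φ - κ)) ^ 3 ≤ Real.sin (3 * φ - κ) ^ 3 :=
      pow_le_pow_left₀ (by linarith) b1 3
    have d2 : Real.sin (2 * φ - κ) ^ 2 ≤ (2 * φ - κ) ^ 2 :=
      pow_le_pow_left₀ (by linarith) a2 2
    have d3 := mul_le_mul d2 c2 (by linarith) (by positivity)
    have d4 : (2 * φ - κ) ^ 2 * φ ≤ 4 / 27 * (3 * φ - κ) ^ 3 := by
      have : 0 ≤ κ ^ 2 * (φ / 3 - 4 / 27 * κ) := mul_nonneg (by positivity) (by linarith)
      nlinarith
    have d5 : 0 ≤ (3 * φ - κ) ^ 3 := pow_nonneg (by linarith) 3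
    nlinarith

theorem dist_bd {κ : ℝ} (h0 : 0 < κ) (h1 : κ ≤ 0.009) :
    1 + 1 / 100 < dist (zz κ (3 * κ)) (zz κ (0.51 * κ)) := by
  have n : ∀ φ, ‖zz κ φ‖ = |rr κ φ| := fun φ => by
    simp [zz, norm_exp_ofReal_mul_I]
  have a1 : 1.1 ≤ rr κ (3 * κ) := by
    have b1 := sin_ge (y := 2 * (3 * κ) - κ) (by linarith) (by linarith)
    have b2 := Real.sin_le (x := 3 * (3 * κ) - κ) (by linarith)
    have b3 := sin_ge (y := 3 * (3 * κ) - κ) (by linarith) (by linarith)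
    unfold rr
    rw [le_div_iff₀ (by linarith)]
    linarith
  have a2 : |rr κ (0.51 * κ)| ≤ 0.07 := by
    have b1 := sin_ge (y := 2 * (0.51 * κ) - κ) (by linarith) (by linarith)
    have b2 := Real.sin_le (x := 2 * (0.51 * κ) - κ) (by linarith)
    have b3 := sin_ge (y := 3 * (0.51 * κ) - κ) (by linarith) (by linarith)
    unfold rr
    rw [abs_of_nonneg (div_nonneg (by linarith) (by linarith)), div_le_iff₀ (by linarith)]
    linarith
  have := norm_sub_norm_le (zz κ (3 * κ)) (zz κ (0.51 * κ))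
  rw [n, n] at this
  rw [dist_eq_norm]
  linarith [le_abs_self (rr κ (3 * κ))]

noncomputable def ff (m : ℕ) : ℂ[X] :=
  (X ^ 2 * (X - C (9 / 5))) ^ m - C (((1 + (1 / 10 ^ 7) ^ m : ℝ)) : ℂ)

theorem ff_eval (m : ℕ) (z : ℂ) :
    (ff m).eval z = (z ^ 2 * (z - 9 / 5)) ^ m - ((1 + (1 / 10 ^ 7) ^ m : ℝ) : ℂ) := by
  simp only [ff, eval_sub, eval_pow, eval_mul, eval_X, eval_C]

theorem ff_monic {m : ℕ} (hm : 0 < m) : (ff m).Monic ∧ (ff m).natDegree = 3 * m := by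
  have h1 : (X ^ 2 * (X - C (9 / 5)) : ℂ[X]).Monic := (monic_X_pow 2).mul (monic_X_sub_C _)
  have h2 : (X ^ 2 * (X - C (9 / 5)) : ℂ[X]).natDegree = 3 := by
    rw [(monic_X_pow 2).natDegree_mul (monic_X_sub_C _), natDegree_X_pow, natDegree_X_sub_C]
  have h3 : ((X ^ 2 * (X - C (9 / 5)) : ℂ[X]) ^ m).natDegree = 3 * m := by
    rw [h1.natDegree_pow, h2, mul_comm]
  refine ⟨(h1.pow m).sub_of_left (lt_of_le_of_lt degree_C_le ?_), by rw [ff, natDegree_sub_C, h3]⟩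
  rw [← natDegree_pos_iff_degree_pos, h3]
  omega

theorem main (N : ℕ) : ∃ n, N ≤ n ∧ ∃ f : ℂ[X], f.Monic ∧ f.natDegree = n ∧
    ∃ s : Finset (Set ℂ), (∀ C ∈ s, (∃ z : ℂ, ‖f.eval z‖ ≤ 1 ∧
      connectedComponentIn {w : ℂ | ‖f.eval w‖ ≤ 1} z = C) ∧ 1 + 1 / 100 < Metric.diam C) ∧
      1 / 4200 * (n : ℝ) < s.card := by
  classical
  obtain ⟨J, hJ⟩ : ∃ J, J = N + 1 := ⟨_, rfl⟩
  obtain ⟨m, hm⟩ : ∃ m, m = 700 * J := ⟨_, rfl⟩
  have hm0 : 0 < m := by omega
  have hmR : (0 : ℝ) < m := by exact_mod_cast hm0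
  have hπ := Real.pi_pos
  let κ : ℕ → ℝ := fun j => 2 * Real.pi * (j + 1) / m
  have hκ0 : ∀ j, 0 < κ j := fun j => by positivity
  have hκ1 : ∀ j, j < J → κ j ≤ 0.009 := fun j hj => by
    have h1 : (j : ℝ) + 1 ≤ J := by exact_mod_cast hj
    have h2 : (m : ℝ) = 700 * J := by rw [hm]; push_cast; ring
    have h3 := Real.pi_lt_d2
    simp only [κ]
    rw [div_le_iff₀ hmR, h2]
    nlinarith
  set E := {w : ℂ | ‖(ff m).eval w‖ ≤ 1} with hE
  have hη : (0 : ℝ) < (1 / 10 ^ 7) ^ m := by positivity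
  have hη1 : ((1 : ℝ) / 10 ^ 7) ^ m ≤ 1 := pow_le_one₀ (by norm_num) (by norm_num)
  have hev : Even m := ⟨350 * J, by omega⟩
  have hmem : ∀ j, j < J → ∀ φ ∈ Icc (0.51 * κ j) (3 * κ j), zz (κ j) φ ∈ E := by
    intro j hj φ hφ
    obtain ⟨h1, h2, h3⟩ := rho_bd (hκ0 j) (hκ1 j hj) hφ
    have h4 : exp (κ j * I) ^ m = 1 := by
      rw [← exp_nat_mul, ← exp_nat_mul_two_pi_mul_I (j + 1)]
      congr 1
      have : (m : ℂ) ≠ 0 := by exact_mod_cast hm0.ne'
      simp only [κ]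
      push_cast
      field_simp
    have h5 := pow_le_pow_left₀ (by norm_num) h2 m
    have h6 : rho (κ j) φ ^ m ≤ 1 := pow_le_one₀ (by linarith [show (0 : ℝ) < 1 / 10 ^ 7 by norm_num]) h3
    change ‖(ff m).eval _‖ ≤ 1
    rw [ff_eval, h_zz h1.ne', mul_pow, h4, mul_one, hev.neg_pow, ← ofReal_pow, ← ofReal_sub,
      norm_real, Real.norm_eq_abs, abs_le]
    constructor <;> linarith
  have hbd : Bornology.IsBounded E := by
    refine (Metric.isBounded_closedBall (x := (0 : ℂ)) (r := 4)).subset fun z hz => ?_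
    rw [mem_closedBall_zero_iff]
    by_contra hc
    rw [not_le] at hc
    have h1 : ‖(ff m).eval z‖ ≤ 1 := hz
    rw [ff_eval] at h1
    have h2 := norm_sub_norm_le ((z ^ 2 * (z - 9 / 5)) ^ m) ((1 + (1 / 10 ^ 7) ^ m : ℝ) : ℂ)
    rw [norm_real, Real.norm_of_nonneg (by positivity), norm_pow] at h2
    have h3 := norm_sub_norm_le z (9 / 5)
    have h4 : ‖(9 / 5 : ℂ)‖ = 9 / 5 := by simp
    have h5 : 16 ≤ ‖z ^ 2 * (z - 9 / 5)‖ := by
      rw [norm_mul, norm_pow]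
      nlinarith
    have h6 := le_self_pow₀ (show 1 ≤ ‖z ^ 2 * (z - 9 / 5)‖ by linarith) hm0.ne'
    linarith
  let comp : ℕ → Set ℂ := fun j => connectedComponentIn E (zz (κ j) (3 * κ j))
  have hr : ∀ j, 3 * κ j ∈ Icc (0.51 * κ j) (3 * κ j) := fun j =>
    ⟨by linarith [hκ0 j], le_rfl⟩
  have hsep : ∀ i j, i < j → j < J → comp i ≠ comp j := by
    intro i j hij hj heq
    set β : ℝ := (2 * Real.pi * (i + 1) + Real.pi) / m with hβ
    let L : ℂ → ℝ := fun z => (z ^ 2 * (z - 9 / 5) * exp (-(β * I))).im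
    have hL : ∀ k, k < J → L (zz (κ k) (3 * κ k))
        = -(rho (κ k) (3 * κ k) * Real.sin (κ k - β)) := fun k hk => by
      simp only [L]
      rw [h_zz (rho_bd (hκ0 k) (hκ1 k hk) (hr k)).1.ne', mul_assoc, ← exp_add,
        show (κ k : ℂ) * I + -(β * I) = ((κ k - β : ℝ) : ℂ) * I by push_cast; ring, neg_mul,
        neg_im, im_ofReal_mul, exp_ofReal_mul_I_im]
    have hβ1 : κ i < β := div_lt_div_of_pos_right (by linarith) hmR
    have hβ2 : β < κ j := by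
      have : (i : ℝ) + 1 ≤ j := by exact_mod_cast hij
      exact div_lt_div_of_pos_right (by nlinarith) hmR
    have h3 := Real.pi_gt_three
    have s1 : 0 < Real.sin (β - κ i) := Real.sin_pos_of_pos_of_lt_pi (by linarith)
      (by linarith [hκ1 j hj, hκ0 i])
    have s2 : 0 < Real.sin (κ j - β) := Real.sin_pos_of_pos_of_lt_pi (by linarith)
      (by linarith [hκ1 j hj, hκ0 i])
    have r1 := (rho_bd (hκ0 i) (hκ1 i (by omega)) (hr i)).2.1
    have r2 := (rho_bd (hκ0 j) (hκ1 j hj) (hr j)).2.1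
    have m1 : zz (κ i) (3 * κ i) ∈ comp j := heq ▸ mem_connectedComponentIn (hmem i (by omega) _ (hr i))
    have m2 : zz (κ j) (3 * κ j) ∈ comp j := mem_connectedComponentIn (hmem j hj _ (hr j))
    obtain ⟨z, hz, hz0⟩ := isPreconnected_connectedComponentIn.intermediate_value m2 m1
      (f := L) (by fun_prop) (show (0 : ℝ) ∈ Icc _ _ from ⟨by
        rw [hL j hj]; nlinarith, by
        rw [hL i (by omega), ← neg_sub, Real.sin_neg]; nlinarith⟩)
    have h1 : ‖(ff m).eval z‖ ≤ 1 := connectedComponentIn_subset E _ hz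
    set t := (z ^ 2 * (z - 9 / 5) * exp (-(β * I))).re with ht
    have h2 : z ^ 2 * (z - 9 / 5) = t * exp (β * I) := by
      have : z ^ 2 * (z - 9 / 5) * exp (-(β * I)) = t := Complex.ext (by simp [ht]) (by
        rw [ofReal_im]; exact hz0)
      rw [← this, mul_assoc, ← exp_add]; simp
    have h4 : exp (β * I) ^ m = -1 := by
      rw [← exp_nat_mul, ← exp_pi_mul_I, ← one_mul (exp (Real.pi * I)),
        ← exp_nat_mul_two_pi_mul_I (i + 1), ← exp_add]
      congr 1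
      have : (m : ℂ) ≠ 0 := by exact_mod_cast hm0.ne'
      rw [hβ]
      push_cast
      field_simp
    rw [ff_eval, h2, mul_pow, h4, mul_neg, mul_one, ← ofReal_pow, ← ofReal_neg, ← ofReal_sub,
      norm_real, Real.norm_eq_abs, abs_le] at h1
    linarith [h1.1, hev.pow_nonneg t]
  refine ⟨3 * m, by omega, ff m, (ff_monic hm0).1, (ff_monic hm0).2,
    (Finset.range J).image comp, fun C hC => ?_, ?_⟩
  · obtain ⟨j, hj, rfl⟩ := Finset.mem_image.1 hC
    rw [Finset.mem_range] at hj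
    refine ⟨⟨_, hmem j hj _ (hr j), rfl⟩, lt_of_lt_of_le (dist_bd (hκ0 j) (hκ1 j hj)) ?_⟩
    have hc : ContinuousOn (zz (κ j)) (Icc (0.51 * κ j) (3 * κ j)) := by
      unfold zz rr
      refine ContinuousOn.mul (continuous_ofReal.comp_continuousOn (ContinuousOn.div (by fun_prop)
        (by fun_prop) fun φ hφ => (rho_bd (hκ0 j) (hκ1 j hj) hφ).1.ne')) (by fun_prop)
    have hsub := (isPreconnected_Icc.image _ hc).subset_connectedComponentIn
      (mem_image_of_mem _ (hr j)) (F := E) (by rintro _ ⟨φ, hφ, rfl⟩; exact hmem j hj φ hφ)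
    exact Metric.dist_le_diam_of_mem (hbd.subset (connectedComponentIn_subset _ _))
      (hsub (mem_image_of_mem _ (hr j)))
      (hsub (mem_image_of_mem _ ⟨le_rfl, by linarith [hκ0 j]⟩))
  · rw [Finset.card_image_of_injOn, Finset.card_range, hm]
    · have : (0 : ℝ) < J := by exact_mod_cast (show 0 < J by omega)
      push_cast
      linarith
    · intro i hi j hj h
      rw [Finset.mem_coe, Finset.mem_range] at hi hj
      rcases lt_trichotomy i j with h1 | h1 | h1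
      · exact absurd h (hsep i j h1 hj)
      · exact h1
      · exact absurd h.symm (hsep j i h1 hi)

end Pool.Agent.H12.Lemn
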