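import Mathlib

/-! Power-type moduli: homogeneous reformulations. -/

set_option autoImplicit false

namespace Pool.Agent.H12.Mod

open Set Real

variable {X : Type} [AddCommGroup X] [Module ℝ X]

structure IsN (n : X → ℝ) : Prop where
  tri : ∀ x y, n (x + y) ≤ n x + n y
  hom : ∀ (c : ℝ) x, n (c • x) = |c| * n x

theorem IsN.zero {n : X → ℝ} (h : IsN n) : n 0 = 0 := by
  have := h.hom 0 0
  simpa using this

theorem IsN.neg {n : X → ℝ} (h : IsN n) (x : X) : n (-x) = n x := by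
  have := h.hom (-1) x
  simpa using this

theorem IsN.nonneg {n : X → ℝ} (h : IsN n) (x : X) : 0 ≤ n x := by
  have h1 := h.tri x (-x)
  rw [add_neg_cancel, h.zero, h.neg] at h1
  linarith

theorem IsN.sub {n : X → ℝ} (h : IsN n) (x y : X) : n (x - y) ≤ n x + n y := by
  have := h.tri x (-y)
  rwa [h.neg, ← sub_eq_add_neg] at this

theorem IsN.hom' {n : X → ℝ} (h : IsN n) {c : ℝ} (hc : 0 ≤ c) (x : X) : n (c • x) = c * n x := by
  rw [h.hom, abs_of_nonneg hc]

theorem up_rpow {p z : ℝ} (hp1 : 1 ≤ p) (hp2 : p ≤ 2) (hz : -1 ≤ z) :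
    (1 + z) ^ p ≤ 1 + p * z + z ^ 2 := by
  have h0 : 0 ≤ 1 + z := by linarith
  have h1 : (1 + z) ^ p = (1 + z) * (1 + z) ^ (p - 1) := by
    have : p = 1 + (p - 1) := by ring
    conv_lhs => rw [this]
    rw [Real.rpow_add' h0 (by linarith), Real.rpow_one]
  have h2 := rpow_one_add_le_one_add_mul_self hz (p := p - 1) (by linarith) (by linarith)
  have h3 : (1 + z) * (1 + z) ^ (p - 1) ≤ (1 + z) * (1 + (p - 1) * z) :=
    mul_le_mul_of_nonneg_left h2 h0
  rw [h1]
  nlinarith [sq_nonneg z]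

theorem low_rpow {p z : ℝ} (hp1 : 1 ≤ p) (hp2 : p ≤ 2) (hz0 : 0 ≤ z) (hz1 : z ≤ 1) :
    1 - p * z + p * (p - 1) / 2 * z ^ 2 ≤ (1 - z) ^ p := by
  let g : ℝ → ℝ := fun z => (1 - z) ^ p - 1 + p * z - p * (p - 1) / 2 * z ^ 2
  have hd : ∀ z, HasDerivAt g (-1 * p * (1 - z) ^ (p - 1) + p - p * (p - 1) * z) z := by
    intro z
    have h1 : HasDerivAt (fun z : ℝ => 1 - z) (-1) z := by
      simpa using (hasDerivAt_id z).const_sub 1
    have h2 := h1.rpow_const (p := p) (Or.inr hp1)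
    have h3 : HasDerivAt (fun z : ℝ => p * z) p z := by simpa using (hasDerivAt_id z).const_mul p
    have h4 : HasDerivAt (fun z : ℝ => p * (p - 1) / 2 * z ^ 2) (p * (p - 1) * z) z := by
      have := (hasDerivAt_pow 2 z).const_mul (p * (p - 1) / 2)
      refine this.congr_deriv ?_
      norm_num
      ring
    exact ((h2.sub_const 1).add h3).sub h4
  have hm : MonotoneOn g (Icc 0 1) := by
    refine monotoneOn_of_hasDerivWithinAt_nonneg (convex_Icc 0 1)
      (f' := fun z => -1 * p * (1 - z) ^ (p - 1) + p - p * (p - 1) * z)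
      (fun z _ => (hd z).continuousAt.continuousWithinAt)
      (fun z _ => (hd z).hasDerivWithinAt) ?_
    intro z hz
    rw [interior_Icc] at hz
    have h2 := rpow_one_add_le_one_add_mul_self (s := -z) (by linarith [hz.2]) (p := p - 1)
      (by linarith) (by linarith)
    rw [← sub_eq_add_neg] at h2
    have h3 : p * (1 - z) ^ (p - 1) ≤ p * (1 + (p - 1) * -z) :=
      mul_le_mul_of_nonneg_left h2 (by linarith)
    nlinarith
  have := hm (left_mem_Icc.2 zero_le_one) ⟨hz0, hz1⟩ hz0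
  simp only [g] at this
  norm_num at this
  linarith

theorem two_sided {p z : ℝ} (hp1 : 1 ≤ p) (hp2 : p ≤ 2) (hz0 : 0 ≤ z) (hz1 : z ≤ 1) :
    2 + p * (p - 1) / 2 * z ^ 2 ≤ (1 + z) ^ p + (1 - z) ^ p := by
  have h1 := low_rpow hp1 hp2 hz0 hz1
  have h2 := one_add_mul_self_le_rpow_one_add (s := z) (by linarith) hp1
  linarith

/-- (i) homogeneous smoothness. -/
theorem smooth_hom {N : X → ℝ} (hN : IsN N) {p K : ℝ} (hp1 : 1 < p) (hp2 : p ≤ 2) (hK : 0 < K)
    (h : ∀ t : ℝ, 0 < t → t ≤ 1 → ∀ x y : X, N x = 1 → N y = 1 →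
      (N (x + t • y) + N (x - t • y)) / 2 - 1 ≤ K * t ^ p) (x v : X) :
    N (x + v) ^ p + N (x - v) ^ p ≤ 2 * N x ^ p + (4 * K + 8) * N v ^ p := by
  have hx0 := hN.nonneg x
  have hv0 := hN.nonneg v
  have hvp : 0 ≤ N v ^ p := rpow_nonneg hv0 p
  have hxp : 0 ≤ N x ^ p := rpow_nonneg hx0 p
  have hp0 : 0 ≤ p := by linarith
  rcases eq_or_lt_of_le hv0 with hv | hv
  · have h1 : N (x + v) ≤ N x := by have := hN.tri x v; linarith
    have h2 : N (x - v) ≤ N x := by have := hN.sub x v; linarith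
    have h3 := rpow_le_rpow (hN.nonneg _) h1 hp0
    have h4 := rpow_le_rpow (hN.nonneg _) h2 hp0
    nlinarith
  rcases le_or_gt (N v) (N x) with hle | hlt
  · have hx : 0 < N x := lt_of_lt_of_le hv hle
    set t := N v / N x with ht
    have ht0 : 0 < t := div_pos hv hx
    have ht1 : t ≤ 1 := (div_le_one hx).2 hle
    set x' := (N x)⁻¹ • x with hx'
    set y' := (N v)⁻¹ • v with hy'
    have hx1 : N x' = 1 := by rw [hx', hN.hom' (by positivity)]; field_simp
    have hy1 : N y' = 1 := by rw [hy', hN.hom' (by positivity)]; field_simp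
    have e0 : (N x * t) • y' = v := by
      rw [hy', smul_smul, ht]
      have : N x * (N v / N x) * (N v)⁻¹ = 1 := by field_simp
      rw [this, one_smul]
    have e0' : N x • x' = x := by
      rw [hx', smul_smul, mul_inv_cancel₀ hx.ne', one_smul]
    have e1 : x + v = N x • (x' + t • y') := by
      rw [smul_add, e0', smul_smul, e0]
    have e2 : x - v = N x • (x' - t • y') := by
      rw [smul_sub, e0', smul_smul, e0]
    have hty : N (t • y') = t := by rw [hN.hom' ht0.le, hy1, mul_one]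
    set A := N (x' + t • y') with hA
    set B := N (x' - t • y') with hB
    have hA0 : 0 ≤ A := hN.nonneg _
    have hB0 : 0 ≤ B := hN.nonneg _
    have hA1 : A ≤ 1 + t := by have := hN.tri x' (t • y'); linarith
    have hB1 : B ≤ 1 + t := by have := hN.sub x' (t • y'); linarith
    have hA2 : 1 - t ≤ A := by
      have := hN.sub (x' + t • y') (t • y')
      rw [add_sub_cancel_right] at this
      linarith
    have hB2 : 1 - t ≤ B := by
      have := hN.tri (x' - t • y') (t • y')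
      rw [sub_add_cancel] at this
      linarith
    have hAB := h t ht0 ht1 x' y' hx1 hy1
    rw [← hA, ← hB] at hAB
    have u1 := up_rpow hp1.le hp2 (z := A - 1) (by linarith)
    have u2 := up_rpow hp1.le hp2 (z := B - 1) (by linarith)
    rw [add_sub_cancel] at u1 u2
    have hq1 : (A - 1) ^ 2 ≤ t ^ 2 := by nlinarith
    have hq2 : (B - 1) ^ 2 ≤ t ^ 2 := by nlinarith
    have htp : t ^ 2 ≤ t ^ p := by
      have := rpow_le_rpow_of_exponent_ge ht0 ht1 hp2
      rwa [rpow_two] at this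
    have htp0 : 0 ≤ t ^ p := rpow_nonneg ht0.le p
    have hsum : A ^ p + B ^ p ≤ 2 + (4 * K + 2) * t ^ p := by
      have h5 : p * (A - 1) + p * (B - 1) ≤ p * (2 * K * t ^ p) := by
        rw [← mul_add]
        exact mul_le_mul_of_nonneg_left (by linarith) hp0
      have h6 : p * (2 * K * t ^ p) ≤ 2 * (2 * K * t ^ p) :=
        mul_le_mul_of_nonneg_right hp2 (by positivity)
      nlinarith
    have e3 : N v ^ p = N x ^ p * t ^ p := by
      rw [← mul_rpow hx.le ht0.le, ht]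
      congr 1
      field_simp
    rw [e1, e2, hN.hom' hx.le, hN.hom' hx.le, ← hA, ← hB, mul_rpow hx.le hA0, mul_rpow hx.le hB0,
      e3]
    have := mul_le_mul_of_nonneg_left hsum hxp
    nlinarith [mul_nonneg hxp htp0]
  · have h1 : N (x + v) ≤ 2 * N v := by have := hN.tri x v; linarith
    have h2 : N (x - v) ≤ 2 * N v := by have := hN.sub x v; linarith
    have h3 := rpow_le_rpow (hN.nonneg _) h1 hp0
    have h4 := rpow_le_rpow (hN.nonneg _) h2 hp0
    rw [mul_rpow (by norm_num) hv0] at h3 h4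
    have h5 : (2 : ℝ) ^ p ≤ 4 := by
      have := rpow_le_rpow_of_exponent_le (x := 2) (by norm_num) hp2
      rw [rpow_two] at this
      linarith
    have h6 : (2 : ℝ) ^ p * N v ^ p ≤ 4 * N v ^ p := mul_le_mul_of_nonneg_right h5 hvp
    nlinarith [mul_nonneg hK.le hvp]

theorem conv_aux {n : X → ℝ} (hn : IsN n) {p q K : ℝ} (hp1 : 1 < p) (hp2 : p ≤ 2) (hq : 2 ≤ q)
    (hK : 0 < K)
    (h : ∀ ε : ℝ, 0 < ε → ε ≤ 2 → ∀ x y : X, n x = 1 → n y = 1 →
      ε ≤ n (x - y) → K * ε ^ q ≤ 1 - n ((1 / 2 : ℝ) • (x + y)))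
    (x v : X) (S : ℝ) (hS : n (x + v) ≤ S) (hαβ : n (x - v) ≤ n (x + v)) :
    min (p * (p - 1) / 2 * (1 / 4) ^ q) (K / 4) * n v ^ q ≤
      (n (x + v) ^ p + n (x - v) ^ p - 2 * n x ^ p) * S ^ (q - p) := by
  set α := n (x + v) with hα
  set β := n (x - v) with hβ
  set t := n v with ht
  set c := min (p * (p - 1) / 2 * (1 / 4) ^ q) (K / 4) with hc
  have hβ0 : 0 ≤ β := hn.nonneg _
  have ht0 : 0 ≤ t := hn.nonneg _
  have hx0 : 0 ≤ n x := hn.nonneg _
  have hp0 : 0 ≤ p := by linarith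
  have hS0 : 0 ≤ S := by linarith
  have hxm : n x ≤ (α + β) / 2 := by
    have h1 := hn.tri (x + v) (x - v)
    have : x + v + (x - v) = (2 : ℝ) • x := by rw [two_smul]; abel
    rw [this, hn.hom' (by norm_num)] at h1
    linarith
  have htm : t ≤ (α + β) / 2 := by
    have h1 := hn.sub (x + v) (x - v)
    have : x + v - (x - v) = (2 : ℝ) • v := by rw [two_smul]; abel
    rw [this, hn.hom' (by norm_num)] at h1
    linarith
  set m := (α + β) / 2 with hm
  have hm0 : 0 ≤ m := by linarith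
  have hxmp : n x ^ p ≤ m ^ p := rpow_le_rpow hx0 hxm hp0
  have hSq : 0 ≤ S ^ (q - p) := rpow_nonneg hS0 _
  have hc1 : 0 ≤ p * (p - 1) / 2 := by nlinarith
  rcases eq_or_lt_of_le ht0 with ht00 | htpos
  · rw [← ht00, zero_rpow (by linarith), mul_zero]
    refine mul_nonneg ?_ hSq
    have hcv := (convexOn_rpow hp1.le).2 (show α ∈ Ici (0:ℝ) from le_trans hβ0 hαβ)
      (show β ∈ Ici (0:ℝ) from hβ0) (show (0:ℝ) ≤ 1 / 2 by norm_num)
      (show (0:ℝ) ≤ 1 / 2 by norm_num) (by norm_num)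
    simp only [smul_eq_mul] at hcv
    have : 1 / 2 * α + 1 / 2 * β = m := by rw [hm]; ring
    rw [this] at hcv
    linarith
  have hmpos : 0 < m := lt_of_lt_of_le htpos htm
  have hmS : m ≤ S := by linarith
  -- the scalar term
  set z := (α - β) / (2 * m) with hz
  have hz0 : 0 ≤ z := div_nonneg (by linarith) (by linarith)
  have hz1 : z ≤ 1 := (div_le_one (by linarith)).2 (by linarith)
  have eα : α = m * (1 + z) := by rw [hz]; field_simp; linarith
  have eβ : β = m * (1 - z) := by rw [hz]; field_simp; linarith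
  have hmp : 0 < m ^ p := rpow_pos_of_pos hmpos p
  have hT1 : m ^ p * (p * (p - 1) / 2 * z ^ 2) ≤ α ^ p + β ^ p - 2 * m ^ p := by
    have h1 : α ^ p = m ^ p * (1 + z) ^ p := by
      rw [← mul_rpow hm0 (by linarith), ← eα]
    have h2 : β ^ p = m ^ p * (1 - z) ^ p := by
      rw [← mul_rpow hm0 (by linarith), ← eβ]
    have h3 := mul_le_mul_of_nonneg_left (two_sided hp1.le hp2 hz0 hz1) hmp.le
    rw [h1, h2]
    linarith
  have htq : 0 < t ^ q := rpow_pos_of_pos htpos q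
  rcases le_or_gt (t / 2) (α - β) with hA | hB
  · have hz2 : t / (4 * m) ≤ z := by
      rw [hz, div_le_div_iff₀ (by linarith) (by linarith)]
      nlinarith
    have hw0 : 0 < t / (4 * m) := by positivity
    have hzq : (t / (4 * m)) ^ q ≤ z ^ 2 := by
      have h1 := rpow_le_rpow hw0.le hz2 (by linarith : 0 ≤ q)
      have h2 := rpow_le_rpow_of_exponent_ge (lt_of_lt_of_le hw0 hz2) hz1 hq
      rw [rpow_two] at h2
      linarith
    have hmq : m ^ (q - p) ≤ S ^ (q - p) := rpow_le_rpow hm0 hmS (by linarith)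
    have hmq0 : 0 ≤ m ^ (q - p) := rpow_nonneg hm0 _
    have e1 : m ^ p * m ^ (q - p) * (t / (4 * m)) ^ q = (1 / 4) ^ q * t ^ q := by
      rw [← rpow_add hmpos, show p + (q - p) = q by ring, ← mul_rpow hm0 hw0.le,
        ← mul_rpow (by norm_num) ht0]
      congr 1
      field_simp
    have hD : m ^ p * (p * (p - 1) / 2 * (t / (4 * m)) ^ q) ≤ α ^ p + β ^ p - 2 * n x ^ p := by
      have : m ^ p * (p * (p - 1) / 2 * (t / (4 * m)) ^ q) ≤ m ^ p * (p * (p - 1) / 2 * z ^ 2) :=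
        mul_le_mul_of_nonneg_left (mul_le_mul_of_nonneg_left hzq hc1) hmp.le
      linarith
    have hD0 : 0 ≤ m ^ p * (p * (p - 1) / 2 * (t / (4 * m)) ^ q) := by positivity
    calc c * t ^ q ≤ p * (p - 1) / 2 * (1 / 4) ^ q * t ^ q :=
          mul_le_mul_of_nonneg_right (min_le_left _ _) htq.le
      _ = m ^ p * (p * (p - 1) / 2 * (t / (4 * m)) ^ q) * m ^ (q - p) := by
          rw [mul_assoc (p * (p - 1) / 2), ← e1]; ring
      _ ≤ (α ^ p + β ^ p - 2 * n x ^ p) * S ^ (q - p) :=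
          mul_le_mul hD hmq hmq0 (le_trans hD0 hD)
  · have hαpos : 0 < α := by linarith
    have htα : t ≤ α := by linarith
    have hβpos : 0 < β := by linarith
    have hβα : α / 2 ≤ β := by linarith
    set u := α⁻¹ • (x + v) with hu
    set w := β⁻¹ • (x - v) with hw
    have hu1 : n u = 1 := by rw [hu, hn.hom' (by positivity), ← hα]; field_simp
    have hw1 : n w = 1 := by rw [hw, hn.hom' (by positivity), ← hβ]; field_simp
    have eu : α • u = x + v := by rw [hu, smul_smul, mul_inv_cancel₀ hαpos.ne', one_smul]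
    have ew : β • w = x - v := by rw [hw, smul_smul, mul_inv_cancel₀ hβpos.ne', one_smul]
    have hε : t / α ≤ n (u - w) := by
      rw [div_le_iff₀ hαpos]
      have e1 : (2 : ℝ) • v = α • (u - w) + (α - β) • w := by
        rw [smul_sub, sub_smul, eu, ew, two_smul]; abel
      have h1 := hn.tri (α • (u - w)) ((α - β) • w)
      rw [← e1, hn.hom' (by norm_num), hn.hom' hαpos.le, hn.hom' (by linarith), hw1, ← ht] at h1
      nlinarith
    have hε0 : 0 < t / α := div_pos htpos hαpos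
    have hε1 : t / α ≤ 2 := by rw [div_le_iff₀ hαpos]; linarith
    have hmid := h (t / α) hε0 hε1 u w hu1 hw1 hε
    have ex : x = β • ((1 / 2 : ℝ) • (u + w)) + ((α - β) / 2) • u := by
      have e1 : β • ((1 / 2 : ℝ) • (u + w)) + ((α - β) / 2) • u
          = (1 / 2 : ℝ) • (α • u + β • w) := by module
      rw [e1, eu, ew]
      module
    set η := β * (K * (t / α) ^ q) with hη
    have hxη : n x ≤ m - η := by
      have h1 := hn.tri (β • ((1 / 2 : ℝ) • (u + w))) (((α - β) / 2) • u)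
      rw [← ex, hn.hom' hβ0, hn.hom' (c := (α - β) / 2) (by linarith), hu1] at h1
      have h2 := mul_le_mul_of_nonneg_left hmid hβ0
      rw [hη, hm]
      nlinarith
    have hmp1 : 0 < m ^ (p - 1) := rpow_pos_of_pos hmpos _
    have hxp : n x ^ p ≤ (m - η) * m ^ (p - 1) := by
      have h1 : n x ^ p = n x * n x ^ (p - 1) := by
        have : p = 1 + (p - 1) := by ring
        conv_lhs => rw [this]
        rw [Real.rpow_add' hx0 (by linarith), Real.rpow_one]
      rw [h1]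
      exact mul_le_mul hxη (rpow_le_rpow hx0 hxm (by linarith)) (rpow_nonneg hx0 _) (by linarith)
    have emp : m ^ p = m * m ^ (p - 1) := by
      have : p = 1 + (p - 1) := by ring
      conv_lhs => rw [this]
      rw [Real.rpow_add hmpos, Real.rpow_one]
    have hT0 : 0 ≤ m ^ p * (p * (p - 1) / 2 * z ^ 2) := by positivity
    have hD : 2 * (η * m ^ (p - 1)) ≤ α ^ p + β ^ p - 2 * n x ^ p := by nlinarith
    have hα1 : α ^ (p - 1) / 2 ≤ m ^ (p - 1) := by
      have h1 : (α * (1 / 2)) ^ (p - 1) ≤ m ^ (p - 1) :=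
        rpow_le_rpow (by positivity) (by linarith) (by linarith)
      rw [mul_rpow hαpos.le (by norm_num)] at h1
      have h2 : (1 / 2 : ℝ) ^ (1 : ℝ) ≤ (1 / 2) ^ (p - 1) :=
        rpow_le_rpow_of_exponent_ge (by norm_num) (by norm_num) (by linarith)
      rw [rpow_one] at h2
      have h3 : 0 < α ^ (p - 1) := rpow_pos_of_pos hαpos _
      nlinarith
    have hαq : α ^ (q - p) ≤ S ^ (q - p) := rpow_le_rpow hαpos.le hS (by linarith)
    have hαq0 : 0 ≤ α ^ (q - p) := rpow_nonneg hαpos.le _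
    have e1 : α * α ^ (p - 1) * α ^ (q - p) * (t / α) ^ q = t ^ q := by
      have : α * α ^ (p - 1) * α ^ (q - p) = α ^ q := by
        rw [mul_assoc, ← rpow_add hαpos]
        have : q = 1 + (p - 1 + (q - p)) := by ring
        conv_rhs => rw [this]
        rw [Real.rpow_add hαpos 1, Real.rpow_one]
      rw [this, ← mul_rpow hαpos.le hε0.le]
      congr 1
      field_simp
    have hεq : 0 < (t / α) ^ q := rpow_pos_of_pos hε0 _
    have hαp1 : 0 < α ^ (p - 1) := rpow_pos_of_pos hαpos _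
    have hE : (α / 2 * (K * (t / α) ^ q)) * (α ^ (p - 1) / 2) ≤ η * m ^ (p - 1) :=
      mul_le_mul (mul_le_mul_of_nonneg_right hβα (by positivity)) hα1 (by positivity)
        (by positivity)
    have hE0 : 0 ≤ (α / 2 * (K * (t / α) ^ q)) * (α ^ (p - 1) / 2) := by positivity
    calc c * t ^ q ≤ K / 4 * t ^ q := mul_le_mul_of_nonneg_right (min_le_right _ _) htq.le
      _ = (α / 2 * (K * (t / α) ^ q)) * (α ^ (p - 1) / 2) * α ^ (q - p) := by
          rw [← e1]; ring
      _ ≤ (α ^ p + β ^ p - 2 * n x ^ p) * S ^ (q - p) :=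
          mul_le_mul (by linarith) hαq hαq0 (by linarith)

/-- (ii) homogeneous convexity. -/
theorem conv_hom {n : X → ℝ} (hn : IsN n) {p q K : ℝ} (hp1 : 1 < p) (hp2 : p ≤ 2) (hq : 2 ≤ q)
    (hK : 0 < K)
    (h : ∀ ε : ℝ, 0 < ε → ε ≤ 2 → ∀ x y : X, n x = 1 → n y = 1 →
      ε ≤ n (x - y) → K * ε ^ q ≤ 1 - n ((1 / 2 : ℝ) • (x + y))) :
    ∃ c : ℝ, 0 < c ∧ ∀ (x v : X) (R : ℝ), n x ≤ R → n v ≤ R →
      c * n v ^ q ≤ (n (x + v) ^ p + n (x - v) ^ p - 2 * n x ^ p) * R ^ (q - p) := by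
  set c := min (p * (p - 1) / 2 * (1 / 4) ^ q) (K / 4) with hc
  have hc0 : 0 < c := lt_min (mul_pos (by nlinarith) (rpow_pos_of_pos (by norm_num) _))
    (by linarith)
  have h2 : (0 : ℝ) < 2 ^ (q - p) := rpow_pos_of_pos (by norm_num) _
  refine ⟨c / 2 ^ (q - p), div_pos hc0 h2, fun x v R hx hv => ?_⟩
  have hR : 0 ≤ R := le_trans (hn.nonneg _) hx
  have key : c * n v ^ q ≤ (n (x + v) ^ p + n (x - v) ^ p - 2 * n x ^ p) * (2 * R) ^ (q - p) := by
    rcases le_total (n (x - v)) (n (x + v)) with h1 | h1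
    · exact conv_aux hn hp1 hp2 hq hK h x v (2 * R) (by have := hn.tri x v; linarith) h1
    · have := conv_aux hn hp1 hp2 hq hK h x (-v) (2 * R)
        (by have := hn.tri x (-v); rw [hn.neg] at this; linarith)
        (by rw [sub_neg_eq_add, ← sub_eq_add_neg]; exact h1)
      rw [sub_neg_eq_add, ← sub_eq_add_neg, hn.neg, add_comm (n (x - v) ^ p)] at this
      exact this
  rw [mul_rpow (by norm_num) hR] at key
  rw [div_mul_eq_mul_div, div_le_iff₀ h2]
  linarith

/-- (iii) from a homogeneous convex function back to a norm. -/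
theorem back {n G : X → ℝ} (hn : IsN n) {p q a B C A : ℝ} (hp1 : 1 < p) (hp2 : p ≤ 2)
    (hq : 2 ≤ q) (ha : 0 < a) (hB : 0 < B) (hC : 0 < C) (hA : 0 < A)
    (hom : ∀ (c : ℝ) x, G (c • x) = |c| ^ p * G x)
    (cvx : ∀ x y (s : ℝ), 0 ≤ s → s ≤ 1 → G ((1 - s) • x + s • y) ≤ (1 - s) * G x + s * G y)
    (low : ∀ x, a * n x ^ p ≤ G x) (up : ∀ x, G x ≤ B * n x ^ p)
    (sm : ∀ x v, G (x + v) + G (x - v) ≤ 2 * G x + C * n v ^ p)
    (cv : ∀ (x v : X) (R : ℝ), n x ≤ R → n v ≤ R →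
      A * n v ^ q ≤ (G (x + v) + G (x - v) - 2 * G x) * R ^ (q - p)) :
    ∃ N : X → ℝ, IsN N ∧ (∃ a' b' : ℝ, 0 < a' ∧ 0 < b' ∧ ∀ x, a' * n x ≤ N x ∧ N x ≤ b' * n x) ∧
      (∃ K : ℝ, 0 < K ∧ ∀ ε : ℝ, 0 < ε → ε ≤ 2 → ∀ x y : X, N x = 1 → N y = 1 →
          ε ≤ N (x - y) → K * ε ^ q ≤ 1 - N ((1 / 2 : ℝ) • (x + y))) ∧
        ∃ K : ℝ, 0 < K ∧ ∀ t : ℝ, 0 < t → t ≤ 1 → ∀ x y : X, N x = 1 → N y = 1 →
          (N (x + t • y) + N (x - t • y)) / 2 - 1 ≤ K * t ^ p := by
  have hp0 : 0 < p := by linarith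
  have hG0 : ∀ x, 0 ≤ G x := fun x =>
    le_trans (mul_nonneg ha.le (rpow_nonneg (hn.nonneg x) p)) (low x)
  let N : X → ℝ := fun x => G x ^ p⁻¹
  have hN0 : ∀ x, 0 ≤ N x := fun x => rpow_nonneg (hG0 x) _
  have hNp : ∀ x, N x ^ p = G x := fun x => rpow_inv_rpow (hG0 x) hp0.ne'
  have hi0 : 0 ≤ p⁻¹ := by positivity
  have hi1 : p⁻¹ ≤ 1 := inv_le_one_of_one_le₀ hp1.le
  have hNhom : ∀ (c : ℝ) x, N (c • x) = |c| * N x := by
    intro c x
    simp only [N]
    rw [hom, mul_rpow (rpow_nonneg (abs_nonneg c) _) (hG0 x), rpow_rpow_inv (abs_nonneg c) hp0.ne']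
  have hle : ∀ x (r : ℝ), 0 ≤ r → G x ≤ r ^ p → N x ≤ r := by
    intro x r hr h
    have := rpow_le_rpow (hG0 x) h hi0
    rwa [rpow_rpow_inv hr hp0.ne'] at this
  have hlow : ∀ x, a ^ p⁻¹ * n x ≤ N x := by
    intro x
    have := rpow_le_rpow (mul_nonneg ha.le (rpow_nonneg (hn.nonneg x) p)) (low x) hi0
    rwa [mul_rpow ha.le (rpow_nonneg (hn.nonneg x) p), rpow_rpow_inv (hn.nonneg x) hp0.ne'] at this
  have hup : ∀ x, N x ≤ B ^ p⁻¹ * n x := by
    intro x
    have := rpow_le_rpow (hG0 x) (up x) hi0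
    rwa [mul_rpow hB.le (rpow_nonneg (hn.nonneg x) p), rpow_rpow_inv (hn.nonneg x) hp0.ne'] at this
  have ha' : 0 < a ^ p⁻¹ := rpow_pos_of_pos ha _
  have hB' : 0 < B ^ p⁻¹ := rpow_pos_of_pos hB _
  set a' := a ^ p⁻¹ with ha'def
  set b' := B ^ p⁻¹ with hb'def
  have hbern : ∀ x, N x ≤ 1 + p⁻¹ * (G x - 1) := by
    intro x
    have := rpow_one_add_le_one_add_mul_self (s := G x - 1) (by linarith [hG0 x]) hi0 hi1
    rwa [add_sub_cancel] at this
  have htri : ∀ x y, N (x + y) ≤ N x + N y := by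
    intro x y
    refine le_of_forall_pos_le_add fun δ hδ => ?_
    set r := N x + δ / 2 with hr
    set s := N y + δ / 2 with hs
    have hr0 : 0 < r := by linarith [hN0 x]
    have hs0 : 0 < s := by linarith [hN0 y]
    have unit : ∀ (z : X) (r : ℝ), 0 < r → N z ≤ r → G (r⁻¹ • z) ≤ 1 := by
      intro z r hr hz
      rw [← hNp, hNhom, abs_of_nonneg (by positivity)]
      refine rpow_le_one (mul_nonneg (by positivity) (hN0 z)) ?_ hp0.le
      rw [inv_mul_le_iff₀ hr]; linarith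
    have h1 := unit x r hr0 (by linarith)
    have h2 := unit y s hs0 (by linarith)
    have hrs : 0 < r + s := by linarith
    have h3 := cvx (r⁻¹ • x) (s⁻¹ • y) (s / (r + s)) (by positivity)
      ((div_le_one hrs).2 (by linarith))
    have e1 : (1 - s / (r + s)) • r⁻¹ • x + (s / (r + s)) • s⁻¹ • y = (r + s)⁻¹ • (x + y) := by
      rw [smul_smul, smul_smul, smul_add]
      congr 2
      · field_simp; ring
      · field_simp
    rw [e1] at h3
    have hs1 : 0 ≤ 1 - s / (r + s) := by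
      have := (div_le_one hrs).2 (show s ≤ r + s by linarith); linarith
    have hs2 : 0 ≤ s / (r + s) := by positivity
    have h4 : G ((r + s)⁻¹ • (x + y)) ≤ 1 ^ p := by rw [one_rpow]; nlinarith
    have h5 := hle _ 1 zero_le_one h4
    rw [hNhom, abs_of_nonneg (by positivity), inv_mul_le_iff₀ hrs] at h5
    linarith
  have hN : IsN N := ⟨htri, hNhom⟩
  have hG1 : ∀ x, N x = 1 → G x = 1 := fun x hx => by rw [← hNp, hx, one_rpow]
  refine ⟨N, hN, ⟨a', b', ha', hB', fun x => ⟨hlow x, hup x⟩⟩, ?_, ?_⟩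
  · have hR : (0 : ℝ) < a'⁻¹ ^ (q - p) := rpow_pos_of_pos (by positivity) _
    have hw : (0 : ℝ) < (1 / (2 * b')) ^ q := rpow_pos_of_pos (by positivity) _
    refine ⟨p⁻¹ * (A * (1 / (2 * b')) ^ q / (2 * a'⁻¹ ^ (q - p))), by positivity, ?_⟩
    intro ε hε0 hε2 x y hx hy hε
    set m := (1 / 2 : ℝ) • (x + y) with hm
    set v := (1 / 2 : ℝ) • (x - y) with hv
    have e1 : m + v = x := by rw [hm, hv]; module
    have e2 : m - v = y := by rw [hm, hv]; module
    have hm1 : N m ≤ 1 := by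
      rw [hm, hN.hom' (by norm_num)]; have := hN.tri x y; linarith
    have hv1 : N v ≤ 1 := by
      rw [hv, hN.hom' (by norm_num)]; have := hN.sub x y; linarith
    have hv2 : ε / 2 ≤ N v := by
      rw [hv, hN.hom' (by norm_num)]; linarith
    have hR1 : ∀ z, N z ≤ 1 → n z ≤ a'⁻¹ := by
      intro z hz
      have := hlow z
      rw [← one_div, le_div_iff₀ ha']
      linarith
    have h1 := cv m v a'⁻¹ (hR1 m hm1) (hR1 v hv1)
    rw [e1, e2, hG1 x hx, hG1 y hy] at h1
    have h2 : 1 / (2 * b') * ε ≤ n v := by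
      have := hup v
      rw [div_mul_eq_mul_div, div_le_iff₀ (by positivity)]
      linarith
    have h3 := rpow_le_rpow (by positivity) h2 (by linarith : 0 ≤ q)
    rw [mul_rpow (by positivity) hε0.le] at h3
    have h4 : A * (1 / (2 * b')) ^ q / (2 * a'⁻¹ ^ (q - p)) * ε ^ q ≤ 1 - G m := by
      rw [div_mul_eq_mul_div, div_le_iff₀ (by positivity)]
      have := mul_le_mul_of_nonneg_left h3 hA.le
      nlinarith
    have h5 := hbern m
    have h6 := mul_le_mul_of_nonneg_left h4 hi0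
    nlinarith
  · have hw : (0 : ℝ) < a'⁻¹ ^ p := rpow_pos_of_pos (by positivity) _
    refine ⟨C * a'⁻¹ ^ p, by positivity, ?_⟩
    intro t ht0 ht1 x y hx hy
    have h1 := sm x (t • y)
    rw [hG1 x hx, hn.hom' ht0.le, mul_rpow ht0.le (hn.nonneg y)] at h1
    have h2 : n y ≤ a'⁻¹ := by
      have := hlow y
      rw [← one_div, le_div_iff₀ ha']
      linarith
    have h3 := rpow_le_rpow (hn.nonneg y) h2 hp0.le
    have htp : 0 < t ^ p := rpow_pos_of_pos ht0 _
    have h4 : C * (t ^ p * n y ^ p) ≤ C * (t ^ p * a'⁻¹ ^ p) :=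
      mul_le_mul_of_nonneg_left (mul_le_mul_of_nonneg_left h3 htp.le) hC.le
    have h5 := hbern (x + t • y)
    have h6 := hbern (x - t • y)
    have h7 : p⁻¹ * (G (x + t • y) - 1) + p⁻¹ * (G (x - t • y) - 1)
        ≤ p⁻¹ * (C * (t ^ p * a'⁻¹ ^ p)) := by
      rw [← mul_add]
      exact mul_le_mul_of_nonneg_left (by linarith) hi0
    have h8 : p⁻¹ * (C * (t ^ p * a'⁻¹ ^ p)) ≤ 1 * (C * (t ^ p * a'⁻¹ ^ p)) :=
      mul_le_mul_of_nonneg_right hi1 (by positivity)
    have h9 : 0 ≤ C * (t ^ p * a'⁻¹ ^ p) := by positivity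
    nlinarith

end Pool.Agent.H12.Mod
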