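import Pool.Agent.H12.Mod1

/-! An infimal-convolution iteration keeping both power types when `p < q`. -/

set_option autoImplicit false

namespace Pool.Agent.H12.Mod

open Set Real Filter Topology

variable {X : Type} [AddCommGroup X] [Module ℝ X]

structure HC (p : ℝ) (G : X → ℝ) : Prop where
  nonneg : ∀ x, 0 ≤ G x
  hom : ∀ (c : ℝ) x, G (c • x) = |c| ^ p * G x
  cvx : ∀ x y (s : ℝ), 0 ≤ s → s ≤ 1 → G ((1 - s) • x + s • y) ≤ (1 - s) * G x + s * G y

theorem HC.zero {p : ℝ} {G : X → ℝ} (h : HC p G) (hp : 0 < p) : G 0 = 0 := by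
  have := h.hom 0 0
  rwa [abs_zero, zero_rpow hp.ne', zero_mul, zero_smul] at this

theorem HC.mid {p : ℝ} {G : X → ℝ} (h : HC p G) (x v : X) :
    0 ≤ G (x + v) + G (x - v) - 2 * G x := by
  have := h.cvx (x + v) (x - v) (1 / 2) (by norm_num) (by norm_num)
  have e : (1 - 1 / 2 : ℝ) • (x + v) + (1 / 2 : ℝ) • (x - v) = x := by module
  rw [e] at this
  linarith

theorem IsN.hc {n : X → ℝ} (hn : IsN n) {p : ℝ} (hp : 1 ≤ p) : HC p (fun x => n x ^ p) where
  nonneg x := rpow_nonneg (hn.nonneg x) p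
  hom c x := by rw [hn.hom, mul_rpow (abs_nonneg c) (hn.nonneg x)]
  cvx x y s hs0 hs1 := by
    have h1 : n ((1 - s) • x + s • y) ≤ (1 - s) * n x + s * n y := by
      have := hn.tri ((1 - s) • x) (s • y)
      rwa [hn.hom' (by linarith), hn.hom' hs0] at this
    have h2 := rpow_le_rpow (hn.nonneg _) h1 (by linarith : 0 ≤ p)
    have hcv := (convexOn_rpow hp).2 (show n x ∈ Ici (0:ℝ) from hn.nonneg x)
      (show n y ∈ Ici (0:ℝ) from hn.nonneg y) (show (0:ℝ) ≤ 1 - s by linarith) hs0 (by ring)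
    simp only [smul_eq_mul] at hcv
    exact le_trans h2 hcv

noncomputable def ic (F G : X → ℝ) (l : ℝ) (x : X) : ℝ := ⨅ y, (F (x - y) + l * G y)

section ic

variable {p l : ℝ} {F G : X → ℝ}

theorem ic_le (hF : HC p F) (hG : HC p G) (hl : 0 < l) (x y : X) :
    ic F G l x ≤ F (x - y) + l * G y :=
  ciInf_le ⟨0, by
    rintro _ ⟨y, rfl⟩
    exact add_nonneg (hF.nonneg _) (mul_nonneg hl.le (hG.nonneg _))⟩ y

theorem ic_nonneg (hF : HC p F) (hG : HC p G) (hl : 0 < l) (x : X) : 0 ≤ ic F G l x :=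
  le_ciInf fun _ => add_nonneg (hF.nonneg _) (mul_nonneg hl.le (hG.nonneg _))

theorem ic_approx (x : X) {δ : ℝ} (hδ : 0 < δ) :
    ∃ y, F (x - y) + l * G y ≤ ic F G l x + δ := by
  obtain ⟨y, hy⟩ := exists_lt_of_ciInf_lt (f := fun y => F (x - y) + l * G y)
    (show ic F G l x < ic F G l x + δ by linarith)
  exact ⟨y, hy.le⟩

theorem ic_mono {G' : X → ℝ} (hF : HC p F) (hG : HC p G) (hl : 0 < l) (h : ∀ x, G x ≤ G' x)
    (x : X) : ic F G l x ≤ ic F G' l x :=
  le_ciInf fun y => le_trans (ic_le hF hG hl x y)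
    (by have := mul_le_mul_of_nonneg_left (h y) hl.le; linarith)

theorem ic_le_left (hp : 0 < p) (hF : HC p F) (hG : HC p G) (hl : 0 < l) (x : X) :
    ic F G l x ≤ F x := by
  have := ic_le hF hG hl x 0
  rwa [sub_zero, hG.zero hp, mul_zero, add_zero] at this

theorem ic_hc (hp : 0 < p) (hF : HC p F) (hG : HC p G) (hl : 0 < l) : HC p (ic F G l) := by
  have hle : ∀ (c : ℝ) x, ic F G l (c • x) ≤ |c| ^ p * ic F G l x := by
    intro c x
    have hc : 0 ≤ |c| ^ p := rpow_nonneg (abs_nonneg c) p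
    refine le_of_forall_pos_le_add fun δ hδ => ?_
    obtain ⟨y, hy⟩ := ic_approx (F := F) (G := G) (l := l) x
      (show 0 < δ / (|c| ^ p + 1) by positivity)
    have h1 := ic_le hF hG hl (c • x) (c • y)
    rw [← smul_sub, hF.hom, hG.hom] at h1
    have h2 := mul_le_mul_of_nonneg_left hy hc
    have h3 : |c| ^ p * (δ / (|c| ^ p + 1)) ≤ δ := by
      rw [← mul_div_assoc, div_le_iff₀ (by positivity)]
      nlinarith
    nlinarith
  refine ⟨ic_nonneg hF hG hl, fun c x => ?_, fun x y s hs0 hs1 => ?_⟩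
  · refine le_antisymm (hle c x) ?_
    rcases eq_or_ne c 0 with rfl | hc
    · rw [abs_zero, zero_rpow hp.ne', zero_mul]
      exact ic_nonneg hF hG hl _
    · have h1 := hle c⁻¹ (c • x)
      rw [smul_smul, inv_mul_cancel₀ hc, one_smul] at h1
      have hc' : 0 < |c| := abs_pos.2 hc
      have h2 := mul_le_mul_of_nonneg_left h1 (rpow_nonneg hc'.le p)
      rw [← mul_assoc, ← mul_rpow hc'.le (abs_nonneg _), ← abs_mul, mul_inv_cancel₀ hc, abs_one,
        one_rpow, one_mul] at h2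
      exact h2
  · refine le_of_forall_pos_le_add fun δ hδ => ?_
    obtain ⟨y₁, h₁⟩ := ic_approx (F := F) (G := G) (l := l) x hδ
    obtain ⟨y₂, h₂⟩ := ic_approx (F := F) (G := G) (l := l) y hδ
    have h1 := ic_le hF hG hl ((1 - s) • x + s • y) ((1 - s) • y₁ + s • y₂)
    have e : (1 - s) • x + s • y - ((1 - s) • y₁ + s • y₂)
        = (1 - s) • (x - y₁) + s • (y - y₂) := by module
    rw [e] at h1
    have h2 := hF.cvx (x - y₁) (y - y₂) s hs0 hs1
    have h3 := mul_le_mul_of_nonneg_left (hG.cvx y₁ y₂ s hs0 hs1) hl.le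
    have h4 := mul_le_mul_of_nonneg_left h₁ (show 0 ≤ 1 - s by linarith)
    have h5 := mul_le_mul_of_nonneg_left h₂ hs0
    nlinarith

theorem ic_smooth (hF : HC p F) (hG : HC p G) (hl : 0 < l) {w : X → ℝ}
    (h : ∀ x v, G (x + v) + G (x - v) ≤ 2 * G x + w v) (x v : X) :
    ic F G l (x + v) + ic F G l (x - v) ≤ 2 * ic F G l x + l * w v := by
  refine le_of_forall_pos_le_add fun δ hδ => ?_
  obtain ⟨y, hy⟩ := ic_approx (F := F) (G := G) (l := l) x (half_pos hδ)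
  have h1 := ic_le hF hG hl (x + v) (y + v)
  have h2 := ic_le hF hG hl (x - v) (y - v)
  rw [add_sub_add_right_eq_sub] at h1
  rw [sub_sub_sub_cancel_right] at h2
  have h3 := mul_le_mul_of_nonneg_left (h y v) hl.le
  nlinarith

theorem ic_small {n : X → ℝ} (hn : IsN n) (hp : 1 ≤ p) (hG : HC p G) (hl : 0 < l) {a ρ : ℝ}
    (ha : 0 < a) (hρ : 0 < ρ) (hla : l * (a * ρ ^ p) = 1) (low : ∀ x, a * n x ^ p ≤ G x)
    (x : X) {δ : ℝ} (hδ : 0 < δ) :
    ∃ y, n y ≤ ρ * n x ∧ n (x - y) ^ p + l * G y ≤ ic (fun x => n x ^ p) G l x + δ := by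
  obtain ⟨y, hy⟩ := ic_approx (F := fun x => n x ^ p) (G := G) (l := l) x hδ
  rcases le_or_gt (n y) (ρ * n x) with h | h
  · exact ⟨y, h, hy⟩
  · refine ⟨0, by rw [hn.zero]; exact mul_nonneg hρ.le (hn.nonneg x), le_trans ?_ hy⟩
    rw [sub_zero, hG.zero (by linarith), mul_zero, add_zero]
    have h1 := rpow_le_rpow (mul_nonneg hρ.le (hn.nonneg x)) h.le (by linarith : 0 ≤ p)
    rw [mul_rpow hρ.le (hn.nonneg x)] at h1
    have h2 := mul_le_mul_of_nonneg_left (le_trans (mul_le_mul_of_nonneg_left h1 ha.le) (low y))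
      hl.le
    have h3 : l * (a * (ρ ^ p * n x ^ p)) = n x ^ p := by
      rw [← mul_assoc a, ← mul_assoc l, hla, one_mul]
    have h4 : 0 ≤ n (x - y) ^ p := rpow_nonneg (hn.nonneg _) p
    linarith

theorem ic_conv {n : X → ℝ} (hn : IsN n) (hp : 1 ≤ p) (hG : HC p G) (hl : 0 < l)
    {a ρ q c A τ : ℝ} (hq : p ≤ q) (hc : 0 < c) (hA0 : 0 < A)
    (ha : 0 < a) (hρ : 0 < ρ) (hρ1 : ρ ≤ 1 / 8) (hla : l * (a * ρ ^ p) = 1)
    (low : ∀ x, a * n x ^ p ≤ G x)
    (hρs : (2 * ρ) ^ (q - p) ≤ (1 / 2) ^ q / 2)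
    (hA : 2 * l * A * 2 ^ (q - p) = c * (1 / 2) ^ q)
    (hF : ∀ (x v : X) (R : ℝ), n x ≤ R → n v ≤ R →
      c * n v ^ q ≤ (n (x + v) ^ p + n (x - v) ^ p - 2 * n x ^ p) * R ^ (q - p))
    (hGc : ∀ (x v : X) (R : ℝ), n x ≤ R → n v ≤ R → τ * R ≤ n v →
      A * n v ^ q ≤ (G (x + v) + G (x - v) - 2 * G x) * R ^ (q - p))
    (x v : X) (R : ℝ) (hx : n x ≤ R) (hv : n v ≤ R) (hτ : 4 * ρ * τ * R ≤ n v) :
    2 * l * A * n v ^ q ≤ (ic (fun x => n x ^ p) G l (x + v) + ic (fun x => n x ^ p) G l (x - v)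
      - 2 * ic (fun x => n x ^ p) G l x) * R ^ (q - p) := by
  have hR : 0 ≤ R := le_trans (hn.nonneg x) hx
  have hRs : 0 ≤ R ^ (q - p) := rpow_nonneg hR _
  have hq0 : 0 ≤ q := by linarith
  have hv0 := hn.nonneg v
  refine le_of_forall_pos_le_add fun δ hδ => ?_
  set δ' := δ / (2 * (R ^ (q - p) + 1)) with hδ'
  have hδ'0 : 0 < δ' := by positivity
  have hδ'1 : 2 * δ' * R ^ (q - p) ≤ δ := by
    have : 2 * δ' * (R ^ (q - p) + 1) = δ := by rw [hδ']; field_simp
    nlinarith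
  obtain ⟨y₁, hy₁, h₁⟩ := ic_small hn hp hG hl ha hρ hla low (x + v) hδ'0
  obtain ⟨y₂, hy₂, h₂⟩ := ic_small hn hp hG hl ha hρ hla low (x - v) hδ'0
  have hy₁' : n y₁ ≤ 2 * ρ * R := by
    have h1 := hn.tri x v
    have := mul_le_mul_of_nonneg_left (show n (x + v) ≤ 2 * R by linarith) hρ.le
    linarith
  have hy₂' : n y₂ ≤ 2 * ρ * R := by
    have h1 := hn.sub x v
    have := mul_le_mul_of_nonneg_left (show n (x - v) ≤ 2 * R by linarith) hρ.le
    linarith
  set y := (1 / 2 : ℝ) • (y₁ + y₂) with hy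
  set k := (1 / 2 : ℝ) • (y₁ - y₂) with hk
  have hyR : n y ≤ 2 * ρ * R := by
    rw [hy, hn.hom' (by norm_num)]; have := hn.tri y₁ y₂; linarith
  have hkR : n k ≤ 2 * ρ * R := by
    rw [hk, hn.hom' (by norm_num)]; have := hn.sub y₁ y₂; linarith
  have e1 : y + k = y₁ := by rw [hy, hk]; module
  have e2 : y - k = y₂ := by rw [hy, hk]; module
  have e3 : x - y + (v - k) = x + v - y₁ := by rw [← e1]; abel
  have e4 : x - y - (v - k) = x - v - y₂ := by rw [← e2]; abel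
  have h3 := ic_le (hn.hc hp) hG hl x y
  set D₁ := n (x - y + (v - k)) ^ p + n (x - y - (v - k)) ^ p - 2 * n (x - y) ^ p with hD₁
  set D₂ := G (y + k) + G (y - k) - 2 * G y with hD₂
  have hD₁0 : 0 ≤ D₁ := (hn.hc hp).mid (x - y) (v - k)
  have hD₂0 : 0 ≤ D₂ := hG.mid y k
  have hsum : D₁ + l * D₂ ≤ ic (fun x => n x ^ p) G l (x + v) + ic (fun x => n x ^ p) G l (x - v)
      - 2 * ic (fun x => n x ^ p) G l x + 2 * δ' := by
    rw [hD₁, hD₂, e1, e2, e3, e4]
    nlinarith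
  have hmain : 2 * l * A * n v ^ q ≤ (D₁ + l * D₂) * R ^ (q - p) := by
    have hρR : 2 * ρ * R ≤ R := by nlinarith
    have hhalf : ∀ z, n v / 2 ≤ n z → (1 / 2) ^ q * n v ^ q ≤ n z ^ q := by
      intro z hz
      rw [← mul_rpow (by norm_num) hv0]
      exact rpow_le_rpow (by positivity) (by linarith) hq0
    have h2q : (0 : ℝ) < (1 / 2) ^ q := rpow_pos_of_pos (by norm_num) _
    have h2s : (0 : ℝ) < 2 ^ (q - p) := rpow_pos_of_pos (by norm_num) _
    rcases le_or_gt (n v / 2) (n (v - k)) with hc1 | hc1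
    · have h4 := hF (x - y) (v - k) (2 * R) (by have := hn.sub x y; linarith)
        (by have := hn.sub v k; linarith)
      rw [← hD₁, mul_rpow (by norm_num) hR] at h4
      have h5 := mul_le_mul_of_nonneg_left (hhalf _ hc1) hc.le
      have h6 : 2 * l * A * n v ^ q * 2 ^ (q - p) ≤ D₁ * R ^ (q - p) * 2 ^ (q - p) := by
        have : 2 * l * A * n v ^ q * 2 ^ (q - p) = c * ((1 / 2) ^ q * n v ^ q) := by
          rw [← mul_assoc c, ← hA]; ring
        rw [this]
        nlinarith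
      have h7 := le_of_mul_le_mul_right h6 h2s
      have h8 : 0 ≤ l * D₂ * R ^ (q - p) := by positivity
      nlinarith
    · have hc2 : n v / 2 ≤ n k := by
        have := hn.tri (v - k) k
        rw [sub_add_cancel] at this
        linarith
      have h4 := hGc y k (2 * ρ * R) hyR hkR (by nlinarith)
      rw [← hD₂, mul_rpow (by positivity) hR] at h4
      have h5 := mul_le_mul_of_nonneg_left (hhalf _ hc2) hA0.le
      have h6 : D₂ * ((2 * ρ) ^ (q - p) * R ^ (q - p)) ≤ D₂ * ((1 / 2) ^ q / 2 * R ^ (q - p)) :=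
        mul_le_mul_of_nonneg_left (mul_le_mul_of_nonneg_right hρs hRs) hD₂0
      have h7 : 2 * A * n v ^ q * (1 / 2) ^ q ≤ D₂ * R ^ (q - p) * (1 / 2) ^ q := by nlinarith
      have h8 := mul_le_mul_of_nonneg_left (le_of_mul_le_mul_right h7 h2q) hl.le
      have h9 : 0 ≤ D₁ * R ^ (q - p) := by positivity
      nlinarith
  have := mul_le_mul_of_nonneg_right hsum hRs
  nlinarith

end ic

noncomputable def sq (F G₀ : X → ℝ) (l : ℝ) : ℕ → X → ℝ
  | 0 => G₀
  | k + 1 => fun x => G₀ x + (2 * l)⁻¹ * ic F (sq F G₀ l k) l x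

theorem exists_both {n G₀ : X → ℝ} (hn : IsN n) {p q a B C c : ℝ} (hp : 1 ≤ p) (hq : p < q)
    (ha : 0 < a) (hB : 0 < B) (hC : 0 < C) (hc : 0 < c) (hG₀ : HC p G₀)
    (low : ∀ x, a * n x ^ p ≤ G₀ x) (up : ∀ x, G₀ x ≤ B * n x ^ p)
    (sm : ∀ x v, G₀ (x + v) + G₀ (x - v) ≤ 2 * G₀ x + C * n v ^ p)
    (hF : ∀ (x v : X) (R : ℝ), n x ≤ R → n v ≤ R →
      c * n v ^ q ≤ (n (x + v) ^ p + n (x - v) ^ p - 2 * n x ^ p) * R ^ (q - p)) :
    ∃ (G : X → ℝ) (B' A : ℝ), 0 < B' ∧ 0 < A ∧ HC p G ∧ (∀ x, a * n x ^ p ≤ G x) ∧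
      (∀ x, G x ≤ B' * n x ^ p) ∧ (∀ x v, G (x + v) + G (x - v) ≤ 2 * G x + 2 * C * n v ^ p) ∧
      ∀ (x v : X) (R : ℝ), n x ≤ R → n v ≤ R →
        A * n v ^ q ≤ (G (x + v) + G (x - v) - 2 * G x) * R ^ (q - p) := by
  have hp0 : 0 < p := by linarith
  have hs : 0 < q - p := by linarith
  have h2q : (0 : ℝ) < (1 / 2) ^ q := rpow_pos_of_pos (by norm_num) _
  have h2s : (0 : ℝ) < 2 ^ (q - p) := rpow_pos_of_pos (by norm_num) _
  obtain ⟨ρ, hρ, hρ1, hρs⟩ : ∃ ρ : ℝ, 0 < ρ ∧ ρ ≤ 1 / 8 ∧ (2 * ρ) ^ (q - p) ≤ (1 / 2) ^ q / 2 := by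
    have hw : (0 : ℝ) < (1 / 2) ^ q / 2 := by positivity
    have hw' : 0 < ((1 / 2 : ℝ) ^ q / 2) ^ (q - p)⁻¹ := rpow_pos_of_pos hw _
    refine ⟨min (1 / 8) (((1 / 2 : ℝ) ^ q / 2) ^ (q - p)⁻¹ / 2), lt_min (by norm_num)
      (by positivity), min_le_left _ _, ?_⟩
    have h1 : 2 * min (1 / 8) (((1 / 2 : ℝ) ^ q / 2) ^ (q - p)⁻¹ / 2)
        ≤ ((1 / 2 : ℝ) ^ q / 2) ^ (q - p)⁻¹ := by
      have := min_le_right (1 / 8) (((1 / 2 : ℝ) ^ q / 2) ^ (q - p)⁻¹ / 2)
      linarith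
    have h2 := rpow_le_rpow (by positivity) h1 hs.le
    rwa [rpow_inv_rpow hw.le hs.ne'] at h2
  have hρp : 0 < ρ ^ p := rpow_pos_of_pos hρ _
  set l := (a * ρ ^ p)⁻¹ with hldef
  have hl : 0 < l := by positivity
  have hla : l * (a * ρ ^ p) = 1 := inv_mul_cancel₀ (by positivity)
  set A := c * (1 / 2) ^ q / (2 * l * 2 ^ (q - p)) with hAdef
  have hA0 : 0 < A := by positivity
  have hA : 2 * l * A * 2 ^ (q - p) = c * (1 / 2) ^ q := by rw [hAdef]; field_simp
  set F : X → ℝ := fun x => n x ^ p with hFdef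
  have hFc : HC p F := hn.hc hp
  have hl2 : 0 < (2 * l)⁻¹ := by positivity
  have hl3 : (2 * l)⁻¹ * l = 1 / 2 := by field_simp
  have hP : ∀ k, HC p (sq F G₀ l k) ∧ (∀ x, G₀ x ≤ sq F G₀ l k x) ∧
      (∀ x, sq F G₀ l k x ≤ (B + (2 * l)⁻¹) * n x ^ p) ∧
      (∀ x v, sq F G₀ l k (x + v) + sq F G₀ l k (x - v) ≤ 2 * sq F G₀ l k x + 2 * C * n v ^ p) ∧
      (∀ (x v : X) (R : ℝ), n x ≤ R → n v ≤ R → 2 * (4 * ρ) ^ k * R ≤ n v →
        A * n v ^ q ≤ (sq F G₀ l k (x + v) + sq F G₀ l k (x - v) - 2 * sq F G₀ l k x)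
          * R ^ (q - p)) ∧
      ∀ x, sq F G₀ l k x ≤ sq F G₀ l (k + 1) x := by
    intro k
    induction k with
    | zero =>
      refine ⟨hG₀, fun x => le_rfl, fun x => ?_, fun x v => ?_, fun x v R hx hv hτ => ?_,
        fun x => ?_⟩
      · have := up x
        have h1 : 0 ≤ (2 * l)⁻¹ * n x ^ p := mul_nonneg hl2.le (hFc.nonneg x)
        simp only [sq]
        nlinarith
      · have := sm x v
        have h1 : 0 ≤ C * n v ^ p := mul_nonneg hC.le (hFc.nonneg v)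
        simp only [sq]
        nlinarith
      · have hv0 := hn.nonneg v
        have : n v = 0 := by
          rw [pow_zero] at hτ
          linarith
        rw [this, zero_rpow (by linarith), mul_zero]
        exact mul_nonneg (hG₀.mid x v) (rpow_nonneg (le_trans hv0 hv) _)
      · simp only [sq]
        have := mul_nonneg hl2.le (ic_nonneg hFc hG₀ hl x)
        linarith
    | succ k ih =>
      obtain ⟨h1, h2, h3, h4, h5, h6⟩ := ih
      have hI := ic_hc hp0 hFc h1 hl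
      have hnew : HC p (sq F G₀ l (k + 1)) := by
        refine ⟨fun x => ?_, fun c x => ?_, fun x y s hs0 hs1 => ?_⟩
        · exact add_nonneg (hG₀.nonneg x) (mul_nonneg hl2.le (hI.nonneg x))
        · simp only [sq]
          rw [hG₀.hom, hI.hom]; ring
        · simp only [sq]
          have e1 := hG₀.cvx x y s hs0 hs1
          have e2 := mul_le_mul_of_nonneg_left (hI.cvx x y s hs0 hs1) hl2.le
          nlinarith
      refine ⟨hnew, fun x => le_trans (h2 x) (h6 x), fun x => ?_, fun x v => ?_,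
        fun x v R hx hv hτ => ?_, fun x => ?_⟩
      · simp only [sq]
        have e1 := up x
        have e2 := mul_le_mul_of_nonneg_left (ic_le_left hp0 hFc h1 hl x) hl2.le
        simp only [hFdef] at e2 ⊢
        nlinarith
      · simp only [sq]
        have e1 := sm x v
        have e2 := mul_le_mul_of_nonneg_left
          (ic_smooth hFc h1 hl (w := fun v => 2 * C * n v ^ p) h4 x v) hl2.le
        have e3 : (2 * l)⁻¹ * (l * (2 * C * n v ^ p)) = C * n v ^ p := by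
          rw [← mul_assoc, hl3]; ring
        nlinarith
      · simp only [sq]
        have e1 := ic_conv hn hp h1 hl hq.le hc hA0 ha hρ hρ1 hla
          (fun x => le_trans (low x) (h2 x)) hρs hA hF h5 x v R hx hv
          (by rw [pow_succ] at hτ; linarith)
        have e2 := mul_le_mul_of_nonneg_left e1 hl2.le
        have e3 : (2 * l)⁻¹ * (2 * l * A * n v ^ q) = A * n v ^ q := by field_simp
        have e4 := mul_nonneg (hG₀.mid x v) (rpow_nonneg (le_trans (hn.nonneg x) hx) (q - p))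
        rw [e3] at e2
        simp only [hFdef] at e2 ⊢
        nlinarith
      · have := mul_le_mul_of_nonneg_left (ic_mono hFc h1 hl h6 x) hl2.le
        simp only [sq] at this ⊢
        linarith
  let G : X → ℝ := fun x => ⨆ k, sq F G₀ l k x
  have hT : ∀ x, Tendsto (fun k => sq F G₀ l k x) atTop (𝓝 (G x)) := fun x =>
    tendsto_atTop_ciSup (monotone_nat_of_le_succ fun k => (hP k).2.2.2.2.2 x)
      ⟨_, by rintro _ ⟨k, rfl⟩; exact (hP k).2.2.1 x⟩
  have hGc : HC p G := by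
    refine ⟨fun x => ge_of_tendsto' (hT x) fun k => (hP k).1.nonneg x, fun c x => ?_,
      fun x y s hs0 hs1 => ?_⟩
    · refine tendsto_nhds_unique (hT (c • x)) ?_
      simpa only [(hP _).1.hom] using (hT x).const_mul (|c| ^ p)
    · exact le_of_tendsto_of_tendsto' (hT _)
        (((hT x).const_mul (1 - s)).add ((hT y).const_mul s)) fun k => (hP k).1.cvx x y s hs0 hs1
  refine ⟨G, B + (2 * l)⁻¹, A, by positivity, hA0, hGc,
    fun x => le_trans (low x) (ge_of_tendsto' (hT x) fun k => (hP k).2.1 x),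
    fun x => le_of_tendsto' (hT x) fun k => (hP k).2.2.1 x, fun x v => ?_,
    fun x v R hx hv => ?_⟩
  · exact le_of_tendsto_of_tendsto' ((hT _).add (hT _))
      (((hT x).const_mul 2).add_const _) fun k => (hP k).2.2.2.1 x v
  · rcases eq_or_lt_of_le (hn.nonneg v) with h0 | h0
    · rw [← h0, zero_rpow (by linarith), mul_zero]
      exact mul_nonneg (hGc.mid x v) (rpow_nonneg (le_trans (hn.nonneg x) hx) _)
    · have h1 : Tendsto (fun k : ℕ => 2 * (4 * ρ) ^ k * R) atTop (𝓝 (2 * 0 * R)) :=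
        ((tendsto_pow_atTop_nhds_zero_of_lt_one (by positivity) (by linarith)).const_mul
          2).mul_const R
      rw [mul_zero, zero_mul] at h1
      refine ge_of_tendsto ((((hT (x + v)).add (hT (x - v))).sub
        ((hT x).const_mul 2)).mul_const (R ^ (q - p))) ?_
      filter_upwards [h1.eventually (gt_mem_nhds h0)] with k hk
      exact (hP k).2.2.2.2.1 x v R hx hv hk.le

end Pool.Agent.H12.Mod
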