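import Pool.Agent.H12.Mod2

/-! The case `p = q = 2`: Gaussian comparison and a Hahn-Banach argument. -/

set_option autoImplicit false

namespace Pool.Agent.H12.Mod

open Set Real MeasureTheory ProbabilityTheory

section gauss

variable {E : Type} [NormedAddCommGroup E] [NormedSpace ℝ E] [MeasurableSpace E] [BorelSpace E]
  [SecondCountableTopology E]

theorem lint_sq : ∫⁻ g, ENNReal.ofReal (g ^ 2) ∂(gaussianReal 0 1) = 1 := by
  have h1 : Integrable (fun g : ℝ => g ^ 2) (gaussianReal 0 1) :=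
    (memLp_id_gaussianReal (μ := 0) (v := 1) 2).integrable_sq
  rw [← ofReal_integral_eq_lintegral_ofReal h1 (Filter.Eventually.of_forall fun g => sq_nonneg g)]
  have h2 := variance_fun_id_gaussianReal (μ := 0) (v := 1)
  rw [variance_eq_integral measurable_id'.aemeasurable] at h2
  simp only [integral_id_gaussianReal, sub_zero] at h2
  rw [h2]
  simp

theorem lint_symm (μ : Measure E) [IsProbabilityMeasure μ] (x : E) {H : E → ENNReal}
    (hH : Measurable H) :
    2 * ∫⁻ z, H z ∂(((gaussianReal 0 1).map (fun g : ℝ => g • x)) ∗ μ)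
      = ∫⁻ g, ∫⁻ z, (H (z + g • x) + H (z - g • x)) ∂μ ∂(gaussianReal 0 1) := by
  have hm : Measurable fun y => ∫⁻ z, H (y + z) ∂μ :=
    Measurable.lintegral_prod_right' (f := fun w : E × E => H (w.1 + w.2)) (by fun_prop)
  rw [Measure.lintegral_conv hH, lintegral_map hm (by fun_prop)]
  have h1 : ∫⁻ g, ∫⁻ z, H (g • x + z) ∂μ ∂(gaussianReal 0 1)
      = ∫⁻ g, ∫⁻ z, H ((-g) • x + z) ∂μ ∂(gaussianReal 0 1) := by
    have e : gaussianReal 0 1 = (gaussianReal 0 1).map (fun g : ℝ => -g) := by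
      rw [gaussianReal_map_neg, neg_zero]
    conv_lhs => rw [e]
    rw [lintegral_map (f := fun g : ℝ => ∫⁻ z, H (g • x + z) ∂μ) (hm.comp (by fun_prop))
      (by fun_prop)]
  rw [two_mul]
  nth_rewrite 2 [h1]
  rw [← lintegral_add_left (f := fun g : ℝ => ∫⁻ z, H (g • x + z) ∂μ) (hm.comp (by fun_prop))]
  refine lintegral_congr fun g => ?_
  rw [← lintegral_add_left (f := fun z => H (g • x + z)) (by fun_prop)]
  refine lintegral_congr fun z => ?_
  rw [add_comm (g • x), neg_smul, add_comm (-(g • x)), ← sub_eq_add_neg]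

theorem lint_const (μ : Measure E) [IsProbabilityMeasure μ] {H : E → ENNReal}
    (hH : Measurable H) {r : ℝ} (hr : 0 ≤ r) :
    ∫⁻ g, ∫⁻ z, (2 * H z + ENNReal.ofReal (g ^ 2 * r)) ∂μ ∂(gaussianReal 0 1)
      = 2 * ∫⁻ z, H z ∂μ + ENNReal.ofReal r := by
  have h1 : ∀ g : ℝ, ∫⁻ z, (2 * H z + ENNReal.ofReal (g ^ 2 * r)) ∂μ
      = 2 * ∫⁻ z, H z ∂μ + ENNReal.ofReal (g ^ 2) * ENNReal.ofReal r := by
    intro g
    rw [lintegral_add_right _ measurable_const, lintegral_const_mul _ hH, lintegral_const,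
      measure_univ, mul_one, ENNReal.ofReal_mul (sq_nonneg g)]
  simp_rw [h1]
  rw [lintegral_add_left measurable_const, lintegral_const, measure_univ, mul_one,
    lintegral_mul_const _ (by fun_prop), lint_sq, one_mul]

theorem exists_gauss {ι : Type} (s : Finset ι) (v : ι → E) {F G w : E → ℝ} {c C : ℝ}
    (hc : 0 ≤ c) (hC : 0 ≤ C) (hFm : Measurable F) (hGm : Measurable G)
    (hF0 : ∀ z, 0 ≤ F z) (hG0 : ∀ z, 0 ≤ G z) (hG00 : G 0 = 0) (hw0 : ∀ z, 0 ≤ w z)
    (hw : ∀ (t : ℝ) z, w (t • z) = t ^ 2 * w z)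
    (hF : ∀ z h, 2 * F z + c * w h ≤ F (z + h) + F (z - h))
    (hG : ∀ z h, G (z + h) + G (z - h) ≤ 2 * G z + C * w h) :
    ∃ μ : Measure E, IsProbabilityMeasure μ ∧
      (∀ L : StrongDual ℝ E, charFunDual μ L
        = Complex.exp (((-(∑ i ∈ s, (L (v i)) ^ 2) / 2 : ℝ) : ℂ))) ∧
      2 * ∫⁻ z, ENNReal.ofReal (G z) ∂μ ≤ ENNReal.ofReal (C * ∑ i ∈ s, w (v i)) ∧
      ENNReal.ofReal (c * ∑ i ∈ s, w (v i)) ≤ 2 * ∫⁻ z, ENNReal.ofReal (F z) ∂μ := by
  classical
  induction s using Finset.induction_on with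
  | empty =>
    refine ⟨Measure.dirac 0, inferInstance, fun L => by simp, ?_, by simp⟩
    rw [lintegral_dirac' _ (by fun_prop), hG00]
    simp
  | insert i s hi ih =>
    obtain ⟨μ, hμ, h1, h2, h3⟩ := ih
    have hγ : IsProbabilityMeasure ((gaussianReal 0 1).map (fun g : ℝ => g • v i)) :=
      Measure.isProbabilityMeasure_map (by fun_prop)
    have hs0 : 0 ≤ ∑ i ∈ s, w (v i) := Finset.sum_nonneg fun j _ => hw0 _
    refine ⟨((gaussianReal 0 1).map (fun g : ℝ => g • v i)) ∗ μ, inferInstance, fun L => ?_,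
      ?_, ?_⟩
    · rw [charFunDual_conv, h1, charFunDual_eq_charFun_map_one,
        Measure.map_map (by fun_prop) (by fun_prop)]
      have e : (L ∘ fun g : ℝ => g • v i) = fun g : ℝ => L (v i) * g := by
        ext g; simp [mul_comm]
      rw [e, gaussianReal_map_const_mul, charFun_gaussianReal, ← Complex.exp_add,
        Finset.sum_insert hi]
      congr 1
      simp
      ring
    · rw [lint_symm μ (v i) (by fun_prop), Finset.sum_insert hi, mul_add,
        ENNReal.ofReal_add (mul_nonneg hC (hw0 _)) (mul_nonneg hC hs0), add_comm]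
      refine le_trans ?_ (add_le_add_left h2 _)
      rw [← lint_const μ (by fun_prop) (mul_nonneg hC (hw0 _))]
      refine lintegral_mono fun g => lintegral_mono fun z => ?_
      have := hG z (g • v i)
      rw [hw] at this
      rw [← ENNReal.ofReal_add (hG0 _) (hG0 _), ← ENNReal.ofReal_ofNat,
        ← ENNReal.ofReal_mul (by norm_num), ← ENNReal.ofReal_add (by linarith [hG0 z])
          (mul_nonneg (sq_nonneg g) (mul_nonneg hC (hw0 _)))]
      exact ENNReal.ofReal_le_ofReal (by linarith)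
    · rw [lint_symm μ (v i) (by fun_prop), Finset.sum_insert hi, mul_add,
        ENNReal.ofReal_add (mul_nonneg hc (hw0 _)) (mul_nonneg hc hs0), add_comm]
      refine le_trans (add_le_add_left h3 _) ?_
      rw [← lint_const μ (by fun_prop) (mul_nonneg hc (hw0 _))]
      refine lintegral_mono fun g => lintegral_mono fun z => ?_
      have := hF z (g • v i)
      rw [hw] at this
      rw [← ENNReal.ofReal_add (hF0 _) (hF0 _), ← ENNReal.ofReal_ofNat,
        ← ENNReal.ofReal_mul (by norm_num), ← ENNReal.ofReal_add (by linarith [hF0 z])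
          (mul_nonneg (sq_nonneg g) (mul_nonneg hc (hw0 _)))]
      exact ENNReal.ofReal_le_ofReal (by linarith)

theorem gauss_cmp [CompleteSpace E] {ι : Type} (s : Finset ι) (u v : ι → E) {F G w : E → ℝ}
    {c C D : ℝ} (hc : 0 ≤ c) (hC : 0 ≤ C) (hD : 0 ≤ D) (hFm : Measurable F) (hGm : Measurable G)
    (hF0 : ∀ z, 0 ≤ F z) (hG0 : ∀ z, 0 ≤ G z) (hG00 : G 0 = 0) (hw0 : ∀ z, 0 ≤ w z)
    (hw : ∀ (t : ℝ) z, w (t • z) = t ^ 2 * w z)
    (hF : ∀ z h, 2 * F z + c * w h ≤ F (z + h) + F (z - h))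
    (hG : ∀ z h, G (z + h) + G (z - h) ≤ 2 * G z + C * w h) (hFG : ∀ z, F z ≤ D * G z)
    (huv : ∀ L : StrongDual ℝ E, ∑ i ∈ s, (L (u i)) ^ 2 = ∑ i ∈ s, (L (v i)) ^ 2) :
    c * ∑ i ∈ s, w (u i) ≤ D * (C * ∑ i ∈ s, w (v i)) := by
  obtain ⟨μ, hμ, h1, -, h3⟩ := exists_gauss s u hc hC hFm hGm hF0 hG0 hG00 hw0 hw hF hG
  obtain ⟨ν, hν, h4, h5, -⟩ := exists_gauss s v hc hC hFm hGm hF0 hG0 hG00 hw0 hw hF hG
  have e : μ = ν := Measure.ext_of_charFunDual (funext fun L => by rw [h1, h4, huv])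
  subst e
  have hs0 : 0 ≤ ∑ i ∈ s, w (v i) := Finset.sum_nonneg fun j _ => hw0 _
  rw [← ENNReal.ofReal_le_ofReal_iff (by positivity), ENNReal.ofReal_mul hD]
  refine le_trans h3 (le_trans ?_ (mul_le_mul_right h5 _))
  rw [mul_left_comm]
  refine mul_le_mul_right ?_ _
  rw [← lintegral_const_mul _ (by fun_prop)]
  refine lintegral_mono fun z => ?_
  rw [← ENNReal.ofReal_mul hD]
  exact ENNReal.ofReal_le_ofReal (hFG z)

end gauss

variable {X : Type} [NormedAddCommGroup X] [NormedSpace ℝ X]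

theorem IsN.cont {n : X → ℝ} (hn : IsN n) {b : ℝ} (hb : ∀ x, n x ≤ b * ‖x‖) : Continuous n := by
  have hb' : ∀ x, n x ≤ |b| * ‖x‖ := fun x =>
    le_trans (hb x) (mul_le_mul_of_nonneg_right (le_abs_self b) (norm_nonneg x))
  refine (LipschitzWith.of_le_add_mul ⟨|b|, abs_nonneg b⟩ fun x y => ?_).continuous
  have h1 := hn.tri y (x - y)
  rw [add_sub_cancel] at h1
  have h2 := hb' (x - y)
  rw [dist_eq_norm]
  exact le_trans h1 (add_le_add_right h2 _)

theorem exists_quad {F G w : X → ℝ} {c C D : ℝ} (hc : 0 < c) (hC : 0 < C) (hD : 0 < D)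
    (hFm : Continuous F) (hGm : Continuous G)
    (hF0 : ∀ z, 0 ≤ F z) (hG0 : ∀ z, 0 ≤ G z) (hG00 : G 0 = 0) (hw0 : ∀ z, 0 ≤ w z)
    (hw : ∀ (t : ℝ) z, w (t • z) = t ^ 2 * w z)
    (hF : ∀ z h, 2 * F z + c * w h ≤ F (z + h) + F (z - h))
    (hG : ∀ z h, G (z + h) + G (z - h) ≤ 2 * G z + C * w h) (hFG : ∀ z, F z ≤ D * G z) :
    ∃ Q : X → ℝ, (∀ x, c * w x ≤ Q x) ∧ (∀ x, Q x ≤ (D * C + c) * w x) ∧
      (∀ (t : ℝ) x, Q (t • x) = t ^ 2 * Q x) ∧
      (∀ x v, Q (x + v) + Q (x - v) = 2 * Q x + 2 * Q v) ∧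
      ∀ x y (s : ℝ), Q ((1 - s) • x + s • y) = (1 - s) * Q x + s * Q y - s * (1 - s) * Q (x - y) := by
  classical
  set C' := D * C + c with hC'
  have hcC : c ≤ C' := by have := mul_pos hD hC; linarith
  let P : (X →₀ ℝ) → ℝ := fun ν => ∑ x ∈ ν.support, max (C' * ν x) (c * ν x) * w x
  have hP : ∀ (ν : X →₀ ℝ) (s : Finset X), ν.support ⊆ s →
      P ν = ∑ x ∈ s, max (C' * ν x) (c * ν x) * w x := by
    intro ν s hs
    refine Finset.sum_subset hs fun x _ hx => ?_
    rw [Finsupp.notMem_support_iff.1 hx]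
    simp
  let T : StrongDual ℝ X → (X →₀ ℝ) →ₗ[ℝ] ℝ := fun φ =>
    Finsupp.linearCombination ℝ (fun x => (φ x) ^ 2)
  have hT : ∀ φ x (r : ℝ), T φ (Finsupp.single x r) = r * (φ x) ^ 2 := by
    intro φ x r
    simp [T]
  let K : Submodule ℝ (X →₀ ℝ) := ⨅ φ, LinearMap.ker (T φ)
  have hK : ∀ ν, ν ∈ K ↔ ∀ φ, T φ ν = 0 := by
    intro ν
    simp [K]
  have hpos : ∀ ν ∈ K, 0 ≤ P ν := by
    intro ν hν
    let E : Submodule ℝ X := Submodule.span ℝ (ν.support : Set X)
    have : FiniteDimensional ℝ E := FiniteDimensional.span_of_finite ℝ (Finset.finite_toSet _)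
    let : MeasurableSpace E := borel E
    have : BorelSpace E := ⟨rfl⟩
    have : CompleteSpace E := FiniteDimensional.complete ℝ E
    let e : ν.support → E := fun x => ⟨x, Submodule.subset_span x.2⟩
    let u : ν.support → E := fun x => √(max (-ν x) 0) • e x
    let v : ν.support → E := fun x => √(max (ν x) 0) • e x
    have key := gauss_cmp (E := E) Finset.univ u v (F := fun z => F z) (G := fun z => G z)
      (w := fun z => w z) hc.le hC.le hD.le (hFm.comp continuous_subtype_val).measurable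
      (hGm.comp continuous_subtype_val).measurable (fun z => hF0 z) (fun z => hG0 z) hG00
      (fun z => hw0 z) (fun t z => hw t z) (fun z h => hF z h) (fun z h => hG z h)
      (fun z => hFG z) (by
        intro L
        obtain ⟨φ, hφ, -⟩ := exists_extension_norm_eq E L
        have h0 := (hK ν).1 hν φ
        simp only [T, Finsupp.linearCombination_apply, Finsupp.sum, smul_eq_mul] at h0
        rw [← Finset.sum_coe_sort] at h0
        rw [← sub_eq_zero, ← Finset.sum_sub_distrib, ← neg_eq_zero, ← Finset.sum_neg_distrib,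
          ← h0]
        refine Finset.sum_congr rfl fun x _ => ?_
        simp only [u, v, map_smul, smul_eq_mul, mul_pow]
        rw [sq_sqrt (le_max_right _ _), sq_sqrt (le_max_right _ _), ← hφ]
        simp only [e]
        rcases le_total (ν x) 0 with h | h
        · rw [max_eq_left (by linarith : (0 : ℝ) ≤ -ν x), max_eq_right h]; ring
        · rw [max_eq_right (by linarith : -ν x ≤ (0 : ℝ)), max_eq_left h]; ring)
    have hs0 : 0 ≤ c * ∑ x, w (v x) := mul_nonneg hc.le (Finset.sum_nonneg fun j _ => hw0 _)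
    have e1 : P ν = C' * ∑ x, w (v x) - c * ∑ x, w (u x) := by
      simp only [P]
      rw [← Finset.sum_coe_sort, Finset.mul_sum, Finset.mul_sum, ← Finset.sum_sub_distrib]
      refine Finset.sum_congr rfl fun x _ => ?_
      simp only [u, v, e, Submodule.coe_smul, hw]
      rw [sq_sqrt (le_max_right _ _), sq_sqrt (le_max_right _ _)]
      rcases le_total (ν x) 0 with h | h
      · rw [max_eq_left (by linarith : (0 : ℝ) ≤ -ν x), max_eq_right h,
          max_eq_right (by nlinarith)]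
        ring
      · rw [max_eq_right (by linarith : -ν x ≤ (0 : ℝ)), max_eq_left h,
          max_eq_left (by nlinarith)]
        ring
    rw [e1, hC']
    nlinarith
  obtain ⟨L, hL0, hL⟩ := exists_extension_of_le_sublinear ⟨K, 0⟩ P (by
      intro t ht ν
      rw [hP (t • ν) ν.support Finsupp.support_smul]
      simp only [P]
      rw [Finset.mul_sum]
      refine Finset.sum_congr rfl fun x _ => ?_
      rw [← mul_assoc, mul_max_of_nonneg _ _ ht.le]
      simp only [Finsupp.smul_apply, smul_eq_mul]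
      congr 2 <;> ring) (by
      intro μ ν
      rw [hP (μ + ν) _ Finsupp.support_add, hP μ (μ.support ∪ ν.support) Finset.subset_union_left,
        hP ν (μ.support ∪ ν.support) Finset.subset_union_right, ← Finset.sum_add_distrib]
      refine Finset.sum_le_sum fun x _ => ?_
      rw [← add_mul]
      refine mul_le_mul_of_nonneg_right ?_ (hw0 x)
      rw [Finsupp.add_apply, mul_add, mul_add]
      exact max_le (add_le_add (le_max_left _ _) (le_max_left _ _))
        (add_le_add (le_max_right _ _) (le_max_right _ _))) (by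
      intro ν
      exact hpos ν ν.2)
  have hLK : ∀ ν, (∀ φ, T φ ν = 0) → L ν = 0 := fun ν h => hL0 ⟨ν, (hK ν).2 h⟩
  have hPs : ∀ x (r : ℝ), P (Finsupp.single x r) = max (C' * r) (c * r) * w x := by
    intro x r
    rw [hP _ {x} Finsupp.support_single_subset]
    simp
  refine ⟨fun x => L (Finsupp.single x 1), fun x => ?_, fun x => ?_, fun t x => ?_,
    fun x v => ?_, fun x y s => ?_⟩
  · have := hL (Finsupp.single x (-1))
    rw [hPs, max_eq_right (by linarith), Finsupp.single_neg, map_neg] at this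
    linarith
  · have := hL (Finsupp.single x 1)
    rw [hPs, max_eq_left (by linarith)] at this
    linarith
  · have := hLK (Finsupp.single (t • x) 1 - (t ^ 2) • Finsupp.single x 1) fun φ => by
      simp only [map_sub, map_smul, hT, smul_eq_mul]; ring
    simp only [map_sub, map_smul, smul_eq_mul] at this
    linarith
  · have := hLK (Finsupp.single (x + v) 1 + Finsupp.single (x - v) 1
        - (2 : ℝ) • Finsupp.single x 1 - (2 : ℝ) • Finsupp.single v 1) fun φ => by
      simp only [map_sub, map_add, map_smul, hT, smul_eq_mul]; ring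
    simp only [map_sub, map_add, map_smul, smul_eq_mul] at this
    linarith
  · have := hLK (Finsupp.single ((1 - s) • x + s • y) 1 - (1 - s) • Finsupp.single x 1
        - s • Finsupp.single y 1 + (s * (1 - s)) • Finsupp.single (x - y) 1) fun φ => by
      simp only [map_sub, map_add, map_smul, hT, smul_eq_mul]; ring
    simp only [map_sub, map_add, map_smul, smul_eq_mul] at this
    linarith

theorem main {n N : X → ℝ} (hn : IsN n) (hN : IsN N) {p q a b a' b' K K' : ℝ} (hp1 : 1 < p)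
    (hp2 : p ≤ 2) (hq : 2 ≤ q) (ha : 0 < a) (hb : 0 < b) (ha' : 0 < a') (hb' : 0 < b')
    (hK : 0 < K) (hK' : 0 < K') (h1 : ∀ x, a * ‖x‖ ≤ n x ∧ n x ≤ b * ‖x‖)
    (h2 : ∀ x, a' * ‖x‖ ≤ N x ∧ N x ≤ b' * ‖x‖)
    (h3 : ∀ ε : ℝ, 0 < ε → ε ≤ 2 → ∀ x y : X, n x = 1 → n y = 1 →
      ε ≤ n (x - y) → K * ε ^ q ≤ 1 - n ((1 / 2 : ℝ) • (x + y)))
    (h4 : ∀ t : ℝ, 0 < t → t ≤ 1 → ∀ x y : X, N x = 1 → N y = 1 →
      (N (x + t • y) + N (x - t • y)) / 2 - 1 ≤ K' * t ^ p) :
    ∃ M : X → ℝ, IsN M ∧ (∃ a' b' : ℝ, 0 < a' ∧ 0 < b' ∧ ∀ x, a' * n x ≤ M x ∧ M x ≤ b' * n x) ∧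
      (∃ K : ℝ, 0 < K ∧ ∀ ε : ℝ, 0 < ε → ε ≤ 2 → ∀ x y : X, M x = 1 → M y = 1 →
          ε ≤ M (x - y) → K * ε ^ q ≤ 1 - M ((1 / 2 : ℝ) • (x + y))) ∧
        ∃ K : ℝ, 0 < K ∧ ∀ t : ℝ, 0 < t → t ≤ 1 → ∀ x y : X, M x = 1 → M y = 1 →
          (M (x + t • y) + M (x - t • y)) / 2 - 1 ≤ K * t ^ p := by
  have hp0 : 0 ≤ p := by linarith
  obtain ⟨c, hc, hcv⟩ := conv_hom hn hp1 hp2 hq hK h3
  have hsm := smooth_hom hN hp1 hp2 hK' h4
  have l1 : ∀ x, a' / b * n x ≤ N x := by
    intro x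
    have e1 := mul_le_mul_of_nonneg_left (h1 x).2 (show 0 ≤ a' / b by positivity)
    have e2 : a' / b * (b * ‖x‖) = a' * ‖x‖ := by field_simp
    linarith [(h2 x).1]
  have l2 : ∀ x, N x ≤ b' / a * n x := by
    intro x
    have e1 := mul_le_mul_of_nonneg_left (h1 x).1 (show 0 ≤ b' / a by positivity)
    have e2 : b' / a * (a * ‖x‖) = b' * ‖x‖ := by field_simp
    linarith [(h2 x).2]
  have low : ∀ x, (a' / b) ^ p * n x ^ p ≤ N x ^ p := by
    intro x
    rw [← mul_rpow (by positivity) (hn.nonneg x)]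
    exact rpow_le_rpow (mul_nonneg (by positivity) (hn.nonneg x)) (l1 x) hp0
  have up : ∀ x, N x ^ p ≤ (b' / a) ^ p * n x ^ p := by
    intro x
    rw [← mul_rpow (by positivity) (hn.nonneg x)]
    exact rpow_le_rpow (hN.nonneg x) (l2 x) hp0
  have hA : 0 < (a' / b) ^ p := rpow_pos_of_pos (by positivity) _
  have hB : 0 < (b' / a) ^ p := rpow_pos_of_pos (by positivity) _
  have hC : 0 < (4 * K' + 8) * (b' / a) ^ p := by positivity
  have sm : ∀ x v, N (x + v) ^ p + N (x - v) ^ p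
      ≤ 2 * N x ^ p + (4 * K' + 8) * (b' / a) ^ p * n v ^ p := by
    intro x v
    have e1 := hsm x v
    have e2 := mul_le_mul_of_nonneg_left (up v) (show 0 ≤ 4 * K' + 8 by positivity)
    rw [mul_assoc]
    linarith
  rcases lt_or_ge p q with hpq | hpq
  · obtain ⟨G, B', A, hB', hA', hG, g1, g2, g3, g4⟩ :=
      exists_both (G₀ := fun x => N x ^ p) hn hp1.le hpq hA hB hC hc (hN.hc hp1.le) low up sm hcv
    exact back hn hp1 hp2 hq hA hB' (by positivity) hA' hG.hom hG.cvx g1 g2 g3 g4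
  · obtain rfl : p = 2 := by linarith
    obtain rfl : q = 2 := by linarith
    have hw : ∀ (t : ℝ) z, n (t • z) ^ (2 : ℝ) = t ^ 2 * n z ^ (2 : ℝ) := by
      intro t z
      rw [hn.hom, rpow_two, rpow_two, mul_pow, sq_abs]
    have hw0 : ∀ z, 0 ≤ n z ^ (2 : ℝ) := fun z => rpow_nonneg (hn.nonneg z) _
    obtain ⟨Q, q1, q2, q3, q4, q5⟩ := exists_quad (F := fun x => n x ^ (2 : ℝ))
      (G := fun x => N x ^ (2 : ℝ)) (w := fun x => n x ^ (2 : ℝ)) (D := ((a' / b) ^ (2 : ℝ))⁻¹)
      hc hC (by positivity)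
      ((hn.cont fun x => (h1 x).2).rpow_const fun _ => Or.inr (by norm_num))
      ((hN.cont fun x => (h2 x).2).rpow_const fun _ => Or.inr (by norm_num))
      hw0 (fun z => rpow_nonneg (hN.nonneg z) _)
      (by simp only [hN.zero]; norm_num) hw0 hw
      (fun z h => by
        have := hcv z h (max (n z) (n h)) (le_max_left _ _) (le_max_right _ _)
        rw [sub_self, rpow_zero, mul_one] at this
        linarith)
      sm (fun z => by rw [le_inv_mul_iff₀ hA]; exact low z)
    have hQ0 : ∀ x, 0 ≤ Q x := fun x => le_trans (mul_nonneg hc.le (hw0 x)) (q1 x)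
    set B := ((a' / b) ^ (2 : ℝ))⁻¹ * ((4 * K' + 8) * (b' / a) ^ (2 : ℝ)) + c with hBdef
    have hB0 : 0 < B := by positivity
    refine back (G := Q) (a := c) (B := B) (C := 2 * B) (A := 2 * c) hn hp1 hp2 hq hc hB0
      (by positivity) (by positivity) (fun t x => ?_) (fun x y s hs0 hs1 => ?_) q1 q2
      (fun x v => ?_) (fun x v R _ _ => ?_)
    · rw [q3, rpow_two, sq_abs]
    · rw [q5]
      have := mul_nonneg (mul_nonneg hs0 (show 0 ≤ 1 - s by linarith)) (hQ0 (x - y))
      linarith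
    · rw [q4]
      have := q2 v
      linarith
    · rw [q4, sub_self, rpow_zero, mul_one]
      have := q1 v
      linarith

end Pool.Agent.H12.Mod
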