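import Mathlib

namespace Pool.Agent.H12.NimReg

/-- The 2-kernel of an integer sequence. -/
def twoKernel (a : ℕ → ℤ) : Set (ℕ → ℤ) :=
  {f | ∃ e r : ℕ, r < 2 ^ e ∧ f = fun n => a (2 ^ e * n + r)}

/-- A sequence is 2-regular if the module generated by its 2-kernel is finitely generated. -/
def IsTwoRegular (a : ℕ → ℤ) : Prop :=
  (Submodule.span ℤ (twoKernel a)).FG

/-- 2-regular two-dimensional arrays. -/
def IsTwoRegularArray (c : ℕ → ℕ → ℤ) : Prop :=
  ∃ (s : ℕ) (cs : Fin s → ℕ → ℕ → ℤ), ∀ e r t : ℕ, r < 2 ^ e → t < 2 ^ e →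
    ∃ w : Fin s → ℤ, ∀ m n : ℕ, c (2 ^ e * m + r) (2 ^ e * n + t) = ∑ i, w i * cs i m n

/-- lowest set bit -/
def lowBit (n : ℕ) : ℕ :=
  if h : n = 0 then 0 else if n % 2 = 1 then 1 else 2 * lowBit (n / 2)
decreasing_by omega

/-- two to the binary digit sum -/
def powSum (n : ℕ) : ℕ :=
  if h : n = 0 then 1 else if n % 2 = 1 then 2 * powSum (n / 2) else powSum (n / 2)
decreasing_by all_goals omega

lemma lowBit_even (n : ℕ) : lowBit (2 * n) = 2 * lowBit n := by
  rcases Nat.eq_zero_or_pos n with rfl | hn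
  · rw [lowBit]; simp
  · rw [lowBit]
    have h1 : ¬ (2 * n = 0) := by omega
    have h2 : ¬ (2 * n % 2 = 1) := by omega
    have h3 : 2 * n / 2 = n := by omega
    simp only [h1, h2, h3, dite_false, if_false]

lemma lowBit_odd (n : ℕ) : lowBit (2 * n + 1) = 1 := by
  rw [lowBit]
  have h1 : ¬ (2 * n + 1 = 0) := by omega
  have h2 : (2 * n + 1) % 2 = 1 := by omega
  simp only [h1, h2, dite_false, if_true]

lemma powSum_even (n : ℕ) : powSum (2 * n) = powSum n := by
  rcases Nat.eq_zero_or_pos n with rfl | hn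
  · rfl
  · rw [powSum]
    have h1 : ¬ (2 * n = 0) := by omega
    have h2 : ¬ (2 * n % 2 = 1) := by omega
    have h3 : 2 * n / 2 = n := by omega
    simp only [h1, h2, h3, dite_false, if_false]

lemma powSum_odd (n : ℕ) : powSum (2 * n + 1) = 2 * powSum n := by
  rw [powSum]
  have h1 : ¬ (2 * n + 1 = 0) := by omega
  have h2 : (2 * n + 1) % 2 = 1 := by omega
  have h3 : (2 * n + 1) / 2 = n := by omega
  simp only [h1, h2, h3, dite_false, if_true]

lemma powSum_zero : powSum 0 = 1 := by rw [powSum]; simp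

/-- closure criterion -/
lemma regular_of_closed (a : ℕ → ℤ) (M : Submodule ℤ (ℕ → ℤ)) (hM : M.FG) (ha : a ∈ M)
    (h0 : ∀ f ∈ M, (fun n => f (2 * n)) ∈ M) (h1 : ∀ f ∈ M, (fun n => f (2 * n + 1)) ∈ M) :
    IsTwoRegular a := by
  have key : ∀ e r : ℕ, r < 2 ^ e → (fun n => a (2 ^ e * n + r)) ∈ M := by
    intro e
    induction e with
    | zero =>
      intro r hr
      have : r = 0 := by simpa using hr
      subst this
      simpa using ha
    | succ e ih =>
      intro r hr
      by_cases hlt : r < 2 ^ e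
      · have := h0 _ (ih r hlt)
        convert this using 3
        ring
      · have hr' : r - 2 ^ e < 2 ^ e := by rw [pow_succ] at hr; omega
        have := h1 _ (ih _ hr')
        convert this using 3
        have : 2 ^ e ≤ r := by omega
        rw [pow_succ, mul_add, mul_one]
        rw [mul_assoc]; omega
  have hle : Submodule.span ℤ (twoKernel a) ≤ M := by
    rw [Submodule.span_le]
    rintro f ⟨e, r, hr, rfl⟩
    exact key e r hr
  exact Submodule.FG.of_le hM hle

def A : ℕ → ℤ := fun n => (lowBit n : ℤ)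
def B : ℕ → ℤ := fun n => (powSum n : ℤ)

lemma A_regular : IsTwoRegular A := by
  refine regular_of_closed A (Submodule.span ℤ {A, fun _ => 1})
    (Submodule.fg_span (Set.toFinite _)) (Submodule.subset_span (by simp)) ?_ ?_
  · intro f hf
    obtain ⟨x, y, rfl⟩ := Submodule.mem_span_pair.1 hf
    refine Submodule.mem_span_pair.2 ⟨2 * x, y, ?_⟩
    funext n
    simp [A, lowBit_even]; ring
  · intro f hf
    obtain ⟨x, y, rfl⟩ := Submodule.mem_span_pair.1 hf
    refine Submodule.mem_span_pair.2 ⟨0, x + y, ?_⟩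
    funext n
    simp [A, lowBit_odd]

lemma B_regular : IsTwoRegular B := by
  refine regular_of_closed B (Submodule.span ℤ {B})
    (Submodule.fg_span (Set.toFinite _)) (Submodule.subset_span (by simp)) ?_ ?_
  · intro f hf
    obtain ⟨x, rfl⟩ := Submodule.mem_span_singleton.1 hf
    refine Submodule.mem_span_singleton.2 ⟨x, ?_⟩
    funext n
    simp [B, powSum_even]
  · intro f hf
    obtain ⟨x, rfl⟩ := Submodule.mem_span_singleton.1 hf
    refine Submodule.mem_span_singleton.2 ⟨2 * x, ?_⟩
    funext n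
    simp [B, powSum_odd]; ring

lemma lowBit_pow (e n : ℕ) : lowBit (2 ^ e * n) = 2 ^ e * lowBit n := by
  induction e with
  | zero => simp
  | succ e ih =>
    have : 2 ^ (e + 1) * n = 2 * (2 ^ e * n) := by ring
    rw [this, lowBit_even, ih]; ring

lemma powSum_pow (e n : ℕ) : powSum (2 ^ e * n) = powSum n := by
  induction e with
  | zero => simp
  | succ e ih =>
    have : 2 ^ (e + 1) * n = 2 * (2 ^ e * n) := by ring
    rw [this, powSum_even, ih]

/-- the numbers with binary expansion a block of ones -/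
def ones : ℕ → ℕ
  | 0 => 0
  | j + 1 => 2 * ones j + 1

lemma powSum_ones (j : ℕ) : powSum (ones j) = 2 ^ j := by
  induction j with
  | zero => exact powSum_zero
  | succ j ih => rw [ones, powSum_odd, ih]; ring

lemma lowBit_ones (j : ℕ) : lowBit (ones (j + 1)) = 1 := by
  rw [ones, lowBit_odd]

lemma xor_pow_ne {e j : ℕ} (h : e ≠ j) : (2 ^ e ^^^ 2 ^ j : ℕ) = 2 ^ e + 2 ^ j := by
  have key : ∀ e j : ℕ, e < j → (2 ^ e ^^^ 2 ^ j : ℕ) = 2 ^ e + 2 ^ j := by
    intro e j hlt
    apply Nat.eq_of_testBit_eq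
    intro i
    have hlt' : 2 ^ e < 2 ^ j := Nat.pow_lt_pow_right (by norm_num) hlt
    have h2 : 2 ^ e + 2 ^ j = 2 ^ j * 1 + 2 ^ e := by ring
    rw [h2, Nat.testBit_two_pow_mul_add _ hlt', Nat.testBit_xor, Nat.testBit_two_pow,
      Nat.testBit_two_pow]
    by_cases hi : i < j
    · have : ¬ j = i := by omega
      simp [hi, this]
    · have h5 : ¬ e = i := by omega
      simp only [hi, if_false, h5, decide_false, Bool.false_xor]
      by_cases h6 : j = i
      · subst h6; simp
      · have : i - j ≠ 0 := by omega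
        simp only [h6, decide_false]
        obtain ⟨k, hk⟩ := Nat.exists_eq_succ_of_ne_zero this
        rw [hk]
        simp [Nat.testBit_succ]
  rcases lt_or_gt_of_ne h with h | h
  · exact key _ _ h
  · rw [Nat.xor_comm, add_comm]; exact key _ _ h

/-- the kernel sequences of the nim sum do not lie in a finitely generated module -/
lemma not_fg (M : Submodule ℤ (ℕ → ℤ)) (hM : M.FG)
    (h : ∀ e : ℕ, (fun n => ((lowBit (2 ^ e * n) ^^^ powSum (2 ^ e * n) : ℕ) : ℤ)) ∈ M) :
    False := by
  set N : Submodule ℤ (ℕ → ℤ) := M ⊔ Submodule.span ℤ {A, B} with hN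
  have hNfg : N.FG := hM.sup (Submodule.fg_span (Set.toFinite _))
  let g : ℕ → (ℕ → ℤ) := fun e =>
    ((2 : ℤ) ^ (e + 1)) • A + B -
      (fun n => ((lowBit (2 ^ (e + 1) * n) ^^^ powSum (2 ^ (e + 1) * n) : ℕ) : ℤ))
  have hg : ∀ e, g e ∈ N := by
    intro e
    refine N.sub_mem (N.add_mem (N.smul_mem _ ?_) ?_) ?_
    · exact Submodule.mem_sup_right (Submodule.subset_span (by simp))
    · exact Submodule.mem_sup_right (Submodule.subset_span (by simp))
    · exact Submodule.mem_sup_left (h _)
  have hval : ∀ e j, g e (ones (j + 1)) = if e = j then (2 : ℤ) ^ (e + 2) else 0 := by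
    intro e j
    simp only [g, Pi.sub_apply, Pi.add_apply, Pi.smul_apply, smul_eq_mul, A, B, lowBit_pow,
      powSum_pow, lowBit_ones, powSum_ones, mul_one]
    split_ifs with hej
    · subst hej
      simp; ring
    · rw [xor_pow_ne (by omega)]
      push_cast; ring
  have hli : LinearIndependent ℤ g := by
    rw [linearIndependent_iff']
    intro s w hw i hi
    have := congrFun hw (ones (i + 1))
    simp only [Finset.sum_apply, Pi.smul_apply, smul_eq_mul, hval, Pi.zero_apply] at this
    rw [Finset.sum_eq_single i] at this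
    · simpa using this
    · intro b _ hb; simp [hb]
    · intro hi'; exact absurd hi hi'
  have hli' : LinearIndependent ℤ (fun e => (⟨g e, hg e⟩ : N)) :=
    LinearIndependent.of_comp N.subtype hli
  have : Module.Finite ℤ N := Module.Finite.iff_fg.2 hNfg
  have hfin : Finite ℕ := hli'.finite
  exact not_finite ℕ

end Pool.Agent.H12.NimReg
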