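import Pool.Agent.H12.Join5

set_option autoImplicit false
set_option linter.unusedSectionVars false
open MeasureTheory Filter Topology Finset

namespace Pool.Agent.H12.Norm1
open Pool.Agent.H12.Avg Pool.Agent.H12.Join2 Pool.Agent.H12.Join3 Pool.Agent.H12.Join4
  Pool.Agent.H12.Join5

variable {Λ : Type} [MeasurableSpace Λ] [Countable Λ] [MeasurableSingletonClass Λ]

lemma exists_fin (p : Measure Λ) [IsProbabilityMeasure p] {κ : ℝ} (hκ : 0 < κ) :
    ∃ F : Finset Λ, p.real (F : Set Λ)ᶜ ≤ κ := by
  classical
  have : Nonempty Λ := nonempty_of_isProbabilityMeasure p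
  obtain ⟨e, he⟩ := exists_surjective_nat Λ
  have h := tendsto_measure_iInter_atTop (μ := p)
    (s := fun n => (((range n).image e : Finset Λ) : Set Λ)ᶜ)
    (fun n => (Finset.measurableSet _).compl.nullMeasurableSet)
    (fun n m hnm => Set.compl_subset_compl.2 (by
      exact_mod_cast image_subset_image (range_mono hnm))) ⟨0, measure_ne_top _ _⟩
  have e0 : (⋂ n, (((range n).image e : Finset Λ) : Set Λ)ᶜ) = ∅ := by
    ext l
    obtain ⟨n, rfl⟩ := he l
    simp only [Set.mem_iInter, Set.mem_empty_iff_false, iff_false, not_forall]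
    exact ⟨n + 1, by simp only [Set.mem_compl_iff, not_not]; exact_mod_cast
      mem_image_of_mem e (self_mem_range_succ n)⟩
  rw [e0, measure_empty] at h
  obtain ⟨n, hn⟩ := (h.eventually (gt_mem_nhds (ENNReal.ofReal_pos.2 hκ))).exists
  exact ⟨_, ENNReal.toReal_le_of_le_ofReal hκ.le hn.le⟩

open Classical in
/-- keep the letters of `F`, merge the others -/
noncomputable def keep (F : Finset Λ) (l : Λ) : Option F := if h : l ∈ F then some ⟨l, h⟩ else none

instance (F : Finset Λ) : MeasurableSpace (Option F) := ⊤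

lemma rate_small {μ : Measure (ℕ → Λ)} [IsProbabilityMeasure μ] (hT : MeasurePreserving sh μ μ)
    (hD : ∀ F : Finset Λ, Det μ (keep F)) {m : ℕ} {Q : (ℕ → Λ) → Fin m} (hQ : Measurable Q)
    {δ : ℝ} (hδ : 0 < δ) : ∃ C, ∀ n : ℕ, ∑ w : Fin n → Fin m,
      Real.negMulLog (μ.real {x | ∀ i : Fin n, Q (sh^[i] x) = w i}) ≤ 2 * δ * n + C := by
  classical
  obtain ⟨x0⟩ := nonempty_of_isProbabilityMeasure μ
  have : Nonempty (Fin m) := ⟨Q x0⟩
  obtain ⟨η, κ, L, h0, h1, hκ, hL, hrL, hr⟩ := rr_cost (W := Fin m) hδ
  obtain ⟨g, k, hg, hgκ⟩ := approx_fun (μ := μ) (π := id) measurable_id (U := Q)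
    (fun w => ⟨Q ⁻¹' {w}, hQ (measurableSet_singleton w), EventuallyEq.rfl⟩) (half_pos hκ)
  have m0 : ∀ t, Measurable fun x : ℕ → Λ => x t := fun t => measurable_pi_apply t
  have := Measure.isProbabilityMeasure_map (μ := μ) (m0 0).aemeasurable
  obtain ⟨F, hF⟩ := exists_fin (μ.map fun x => x 0) (κ := κ / 2 / (k + 1)) (by positivity)
  have hFt : ∀ t, μ.real {x | x t ∉ F} ≤ κ / 2 / (k + 1) := by
    intro t
    have hm : MeasurableSet (F : Set Λ)ᶜ := (Finset.measurableSet _).compl
    rw [map_measureReal_apply (m0 0) hm, ← (hT.iterate t).measureReal_preimage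
      (m0 0 hm).nullMeasurableSet] at hF
    convert hF using 2
    ext x; simp [sh_iter]
  set g' : (ℕ → Option F) → Fin m := fun z => g fun t => (z t).elim (x0 0) Subtype.val with hg'
  have hg'w : ∀ z z', (∀ t < k, z t = z' t) → g' z = g' z' :=
    fun z z' h => hg _ _ fun t ht => by rw [h t ht]
  have mc := meas_cod (W := Option F) (keep F)
  have mg' : Measurable g' := meas_window hg'w
  have herr : μ.real {x | Q x ≠ g' (cod (keep F) x)} ≤ κ := by
    calc _ ≤ μ.real ({x | Q x ≠ g (id x)} ∪ ⋃ t ∈ range k, {x | x t ∉ F}) := by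
          refine measureReal_mono (fun x hx => ?_) (measure_ne_top _ _)
          by_contra hc
          simp only [Set.mem_union, Set.mem_ofPred_eq, Set.mem_iUnion, not_or, not_not,
            not_exists, mem_range, id] at hc
          apply hx
          rw [hc.1]
          exact hg _ _ fun t ht => by simp [cod, keep, hc.2 t ht]
      _ ≤ κ / 2 + ∑ t ∈ range k, μ.real {x | x t ∉ F} :=
          (measureReal_union_le _ _).trans (add_le_add hgκ (measureReal_biUnion_finset_le _ _))
      _ ≤ κ / 2 + ∑ _t ∈ range k, κ / 2 / (k + 1) := by gcongr with t; exact hFt t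
      _ ≤ κ := by
          rw [sum_const, card_range, nsmul_eq_mul]
          have : (k : ℝ) * (κ / 2 / (k + 1)) ≤ κ / 2 := by
            rw [mul_div_assoc', div_le_iff₀ (by positivity)]; nlinarith
          linarith
  obtain ⟨bc, ic⟩ := hr μ Q (fun x => g' (cod (keep F) x))
    (measurableSet_eq_fun hQ (mg'.comp mc)).compl herr
  have := Measure.isProbabilityMeasure_map (μ := μ) mc.aemeasurable
  have hS : MeasurePreserving sh (μ.map (cod (keep F))) (μ.map (cod (keep F))) :=
    factor_mp mc hT meas_sh fun _ => rfl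
  obtain ⟨C, hC⟩ := code hS (hD F) hδ
  refine ⟨δ * k + C, fun n => ?_⟩
  obtain ⟨q, q0, q1, q2⟩ := hC (n + k)
  set q' : (Fin n → Fin m) → ℝ := fun u => ∑ v : Fin (n + k) → Option F,
    q v * ∏ t : Fin n, rr η (u t) (g' (sh^[t] (Join4.ext v))) with hq'
  have pos : ∀ (u : Fin n → Fin m) (v : Fin (n + k) → Option F),
      0 < q v * ∏ t : Fin n, rr η (u t) (g' (sh^[t] (Join4.ext v))) :=
    fun u v => mul_pos (q0 v) (prod_pos fun _ _ => rr_pos h0 h1 _ _)
  have mU : Measurable fun (x : ℕ → Λ) (i : Fin n) => Q (sh^[i] x) :=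
    measurable_pi_lambda _ fun i => hQ.comp (meas_sh.iterate i)
  have mV : Measurable fun (z : ℕ → Option F) (i : Fin (n + k)) => z i :=
    measurable_pi_lambda _ fun _ => measurable_pi_apply _
  have G := gibbs (μ := μ) mU (q := q') (fun u => sum_pos (fun v _ => pos u v) univ_nonempty) (by
    rw [hq']; simp only
    rw [sum_comm]
    refine le_trans (sum_le_sum fun v _ => ?_) q1
    rw [← mul_sum]
    apply mul_le_of_le_one_right (q0 v).le
    have := prod_univ_sum (fun _ : Fin n => (univ : Finset (Fin m)))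
      fun t a => rr η a (g' (sh^[t] (Join4.ext v)))
    rw [Fintype.piFinset_univ] at this
    rw [← this]
    exact prod_le_one (fun _ _ => sum_nonneg fun _ _ => (rr_pos h0 h1 _ _).le)
      fun _ _ => rr_sum h0 _)
  simp only [funext_iff] at G
  refine G.trans ?_
  set c : (ℕ → Λ) → ℝ := fun x => -Real.log (rr η (Q x) (g' (cod (keep F) x))) with hc
  have bfin : ∀ {W : Type} [Fintype W] [MeasurableSpace W] [MeasurableSingletonClass W]
      (f : W → ℝ), Bd f := fun f => ⟨measurable_of_finite f, ∑ w, |f w|, fun w =>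
        single_le_sum (f := fun w => |f w|) (fun _ _ => abs_nonneg _) (mem_univ w)⟩
  have b1 : Bd fun x : ℕ → Λ => -Real.log (q fun i => cod (keep F) x i) :=
    (bfin fun v => -Real.log (q v)).comp (mV.comp mc)
  have b2 : Bd fun x : ℕ → Λ => ∑ t : Fin n, c (sh^[t] x) :=
    Bd.sum _ fun t => bc.comp (meas_sh.iterate t)
  calc _ ≤ ∫ x, (-Real.log (q fun i => cod (keep F) x i) + ∑ t : Fin n, c (sh^[t] x)) ∂μ := by
        apply integral_mono (((bfin fun u => -Real.log (q' u)).comp mU).int μ) ((b1.add b2).int μ)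
        intro x
        have := Real.log_le_log (pos (fun i => Q (sh^[i] x)) fun i => cod (keep F) x i)
          (single_le_sum (f := fun v : Fin (n + k) → Option F =>
            q v * ∏ t : Fin n, rr η (Q (sh^[t] x)) (g' (sh^[t] (Join4.ext v))))
            (fun v _ => (pos (fun i => Q (sh^[i] x)) v).le) (mem_univ _))
        rw [Real.log_mul (q0 _).ne' (prod_pos fun _ _ => rr_pos h0 h1 _ _).ne',
          Real.log_prod fun _ _ => (rr_pos h0 h1 _ _).ne'] at this
        have e : ∀ t : Fin n, g' (sh^[t] (Join4.ext fun i : Fin (n + k) => cod (keep F) x i)) =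
            g' (cod (keep F) (sh^[t] x)) := by
          intro t; apply hg'w; intro s hs
          have : s + t < n + k := by omega
          simp [sh_iter, Join4.ext, this, cod]
        simp only [e] at this
        simp only [hc, sum_neg_distrib]
        linarith
    _ ≤ _ := by
        rw [integral_add (b1.int μ) (b2.int μ), integral_finsetSum _ fun (t : Fin n) _ =>
            (bc.comp (meas_sh.iterate t)).int μ]
        have h3 : ∀ t, ∫ z, c (sh^[t] z) ∂μ ≤ δ := by
          intro t
          rw [← integral_map (f := c) (meas_sh.iterate t).aemeasurable bc.1.aestronglyMeasurable,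
            (hT.iterate t).map_eq]
          exact ic
        have h4 := sum_le_sum fun (t : Fin n) (_ : t ∈ univ) => h3 t
        rw [integral_map mc.aemeasurable
          ((bfin fun v => -Real.log (q v)).comp mV).1.aestronglyMeasurable] at q2
        simp only [sum_const, card_univ, Fintype.card_fin, nsmul_eq_mul] at h4
        push_cast at q2
        linarith

lemma keep_fin (F : Finset Λ) (w : Option F) :
    {l | keep F l = w}.Finite ∨ {l | keep F l = w}ᶜ.Finite := by
  cases w with
  | none =>
    right
    refine F.finite_toSet.subset fun l hl => ?_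
    by_contra h
    exact hl (by simpa [keep] using h)
  | some a =>
    left
    refine F.finite_toSet.subset fun l hl => ?_
    by_contra h
    have h' : l ∉ F := h
    have : keep F l = some a := hl
    rw [keep, dif_neg h'] at this
    cases this

end Pool.Agent.H12.Norm1
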