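import Pool.Agent.H12.Norm1

set_option autoImplicit false
set_option linter.unusedSectionVars false
open MeasureTheory Filter Topology Finset

namespace Pool.Agent.H12.Norm2
open Pool.Agent.H12.Avg Pool.Agent.H12.Join2

section
variable {Ω : Type*} [MeasurableSpace Ω]

lemma select {ι : Type*} [Fintype ι] (κ : ℕ → Measure Ω) [∀ j, IsProbabilityMeasure (κ j)]
    (V : ι → ℕ → Ω → ℝ) (hV : ∀ i j, Bd (V i j)) (h0 : ∀ i j, ∫ ω, V i j ω ∂(κ j) = 0) {M : ℝ}
    (hM : ∀ i j ω, |V i j ω| ≤ M) : ∃ ω : ℕ → Ω, ∀ J i,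
      (∑ j ∈ range J, V i j (ω j)) ^ 2 ≤ Fintype.card ι * M ^ 2 * J := by
  have hp : ∀ (S : ι → ℝ) j, ∃ ω, ∑ i, S i * V i j ω ≤ 0 := by
    intro S j
    obtain ⟨ω, hω⟩ := exists_le_integral (μ := κ j)
      ((Bd.sum univ fun i => (Bd.const (S i)).mul (hV i j)).int _)
    refine ⟨ω, hω.trans_eq ?_⟩
    rw [integral_finsetSum _ fun i _ => ((Bd.const (S i)).mul (hV i j)).int _]
    exact sum_eq_zero fun i _ => by rw [integral_const_mul, h0, mul_zero]
  choose pick hpick using hp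
  let S : ℕ → ι → ℝ := fun n => Nat.rec (fun _ => 0) (fun j s i => s i + V i j (pick s j)) n
  have hS : ∀ J i, S J i = ∑ j ∈ range J, V i j (pick (S j) j) := by
    intro J i
    induction J with
    | zero => simp [S]
    | succ J ih => rw [sum_range_succ, ← ih]
  have key : ∀ J, ∑ i, S J i ^ 2 ≤ Fintype.card ι * M ^ 2 * J := by
    intro J
    induction J with
    | zero => simp [S]
    | succ J ih =>
      have e : ∑ i, S (J + 1) i ^ 2 = ∑ i, S J i ^ 2 + 2 * ∑ i, S J i * V i J (pick (S J) J) +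
          ∑ i, V i J (pick (S J) J) ^ 2 := by
        rw [mul_sum, ← sum_add_distrib, ← sum_add_distrib]
        apply sum_congr rfl; intro i _
        show (S J i + V i J (pick (S J) J)) ^ 2 = _
        ring
      have h2 : ∑ i, V i J (pick (S J) J) ^ 2 ≤ ∑ _i : ι, M ^ 2 :=
        sum_le_sum fun i _ => sq_le_sq' (abs_le.1 (hM _ _ _)).1 (abs_le.1 (hM _ _ _)).2
      rw [sum_const, card_univ, nsmul_eq_mul] at h2
      have := hpick (S J) J
      rw [e]; push_cast; linarith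
  refine ⟨fun j => pick (S j) j, fun J i => ?_⟩
  rw [← hS]
  exact (single_le_sum (f := fun i => S J i ^ 2) (fun _ _ => sq_nonneg _) (mem_univ i)).trans (key J)

lemma abs_int_le {P : Measure Ω} [IsProbabilityMeasure P] {f : Ω → ℝ} (hf : Bd f) {r : ℝ}
    (hr : 0 < r) (h : ∫ ω, f ω ^ 2 ∂P ≤ r ^ 2) : ∫ ω, |f ω| ∂P ≤ r := by
  calc ∫ ω, |f ω| ∂P ≤ ∫ ω, (r / 2 + (2 * r)⁻¹ * f ω ^ 2) ∂P := by
        apply integral_mono (hf.int P).abs (((Bd.const _).add ((Bd.const _).mul hf.sq)).int P)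
        intro ω
        have : (2 * r)⁻¹ * (r - |f ω|) ^ 2 = r / 2 + (2 * r)⁻¹ * f ω ^ 2 - |f ω| := by
          rw [← sq_abs (f ω)]; field_simp; ring
        have h2 : 0 ≤ (2 * r)⁻¹ * (r - |f ω|) ^ 2 := by positivity
        simp only; linarith
    _ ≤ r / 2 + (2 * r)⁻¹ * r ^ 2 := by
        rw [integral_add (integrable_const _) (((Bd.const _).mul hf.sq).int P), integral_const_mul]
        simp only [integral_const, probReal_univ, smul_eq_mul, one_mul]
        gcongr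
    _ = r := by field_simp; ring

end

lemma prefix_le {u : ℕ → ℝ} {B : ℝ} (h : ∀ t, |u t| ≤ B) {m m' : ℕ} {r : ℕ} (h1 : m ≤ m' + r)
    (h2 : m' ≤ m + r) : |∑ t ∈ range m, u t - ∑ t ∈ range m', u t| ≤ B * r := by
  have hB : 0 ≤ B := (abs_nonneg _).trans (h 0)
  wlog hm : m' ≤ m generalizing m m'
  · rw [abs_sub_comm]; exact this h2 h1 (by omega)
  rw [← sum_Ico_eq_sub _ hm]
  refine (abs_sum_le_sum_abs _ _).trans ((sum_le_sum fun t _ => h t).trans ?_)
  rw [sum_const, Nat.card_Ico, nsmul_eq_mul, mul_comm]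
  gcongr
  omega

lemma block_sum (u : ℕ → ℝ) (a L J : ℕ) : ∑ t ∈ range (a + J * L), u t - ∑ t ∈ range a, u t =
    ∑ j ∈ range J, ∑ r ∈ range L, u (a + j * L + r) := by
  induction J with
  | zero => simp
  | succ J ih => rw [sum_range_succ, ← ih, add_mul, one_mul, ← add_assoc, sum_range_add]; ring

lemma group_le {u : ℕ → ℝ} {B : ℝ} (h : ∀ t, |u t| ≤ B) {J0 J : ℕ} (hJ : J0 ≤ J) (D : ℕ) :
    |D * ∑ j ∈ Ico J0 J, u j - ∑ j ∈ Ico J0 J, ∑ v ∈ range D, u (j + v)| ≤ 2 * D * D * B := by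
  have hB : 0 ≤ B := (abs_nonneg _).trans (h 0)
  rw [sum_comm]
  have : (D : ℝ) * ∑ j ∈ Ico J0 J, u j = ∑ _v ∈ range D, ∑ j ∈ Ico J0 J, u j := by simp
  rw [this, ← sum_sub_distrib]
  refine (abs_sum_le_sum_abs _ _).trans ?_
  calc _ ≤ ∑ _v ∈ range D, 2 * D * B := by
        apply sum_le_sum; intro v hv
        rw [mem_range] at hv
        rw [sum_Ico_add' u, sum_Ico_eq_sub _ hJ, sum_Ico_eq_sub _ (by omega)]
        have h1 := prefix_le h (m := J) (m' := J + v) (r := D) (by omega) (by omega)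
        have h2 := prefix_le h (m := J0) (m' := J0 + v) (r := D) (by omega) (by omega)
        rw [abs_le] at h1 h2 ⊢
        constructor <;> linarith
    _ = _ := by simp; ring

lemma prod_sub_le (A : Finset ℕ) {p q : ℕ → ℝ} (hp : ∀ s, |p s| ≤ 1) (hq : ∀ s, |q s| ≤ 1) :
    |∏ s ∈ A, p s - ∏ s ∈ A, q s| ≤ ∑ s ∈ A, |p s - q s| := by
  induction A using Finset.induction_on with
  | empty => simp
  | insert k A hk ih =>
    rw [prod_insert hk, prod_insert hk, sum_insert hk]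
    have h1 : |∏ s ∈ A, p s| ≤ 1 := by
      rw [abs_prod]; exact prod_le_one (fun _ _ => abs_nonneg _) fun s _ => hp s
    have : p k * ∏ s ∈ A, p s - q k * ∏ s ∈ A, q s =
        (p k - q k) * ∏ s ∈ A, p s + q k * (∏ s ∈ A, p s - ∏ s ∈ A, q s) := by ring
    rw [this]
    refine (abs_add_le _ _).trans (add_le_add ?_ ?_)
    · rw [abs_mul]; exact mul_le_of_le_one_right (abs_nonneg _) h1
    · rw [abs_mul]; exact (mul_le_of_le_one_left (abs_nonneg _) (hq k)).trans ih

section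
variable {X : Type*} [MeasurableSpace X] {μ : Measure X} [IsProbabilityMeasure μ] {a : ℕ → X → ℝ}

noncomputable def tilt (μ : Measure X) (a : ℕ → X → ℝ) (ε : ℝ) (L : ℕ) (q : ℕ → ℝ) : Measure X :=
  μ.withDensity fun x => ((∏ s ∈ range L, (1 + ε * (a s x * q s))).toNNReal : ENNReal)

/-- expectation under the tilted measure -/
noncomputable def ex (μ : Measure X) (a : ℕ → X → ℝ) (ε : ℝ) (L : ℕ) (Φ : X → ℝ) (q : ℕ → ℝ) : ℝ :=
  ∑ A ∈ (range L).powerset, ε ^ A.card * (∫ x, Φ x * pr a A x ∂μ) * ∏ s ∈ A, q s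

lemma bd_dens (ha : MD μ a) (ε : ℝ) (L : ℕ) (q : ℕ → ℝ) :
    Bd fun x => ∏ s ∈ range L, (1 + ε * (a s x * q s)) :=
  Join4.bd_prod _ fun s => (Bd.const 1).add ((Bd.const ε).mul ((ha.bd s).mul (Bd.const _)))

lemma int_tilt (ha : MD μ a) {ε : ℝ} (h0 : 0 ≤ ε) (h1 : ε ≤ 1) (L : ℕ) {q : ℕ → ℝ}
    (hq : ∀ s, |q s| ≤ 1) {Φ : X → ℝ} (hΦ : Bd Φ) :
    ∫ x, Φ x ∂(tilt μ a ε L q) = ex μ a ε L Φ q := by
  rw [tilt, integral_withDensity_eq_integral_smul (bd_dens ha ε L q).1.real_toNNReal, ex]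
  have : ∀ x, (∏ s ∈ range L, (1 + ε * (a s x * q s))).toNNReal • Φ x =
      ∑ A ∈ (range L).powerset, (ε ^ A.card * ∏ s ∈ A, q s) * (Φ x * pr a A x) := by
    intro x
    rw [NNReal.smul_def, Real.coe_toNNReal _ (riesz_nonneg _ h0 h1 (fun s => ha.le s x) hq),
      smul_eq_mul, riesz_expand, sum_mul]
    apply sum_congr rfl; intro A _
    rw [pr]; ring
  simp only [this]
  rw [integral_finsetSum _ fun A _ => ((Bd.const _).mul (hΦ.mul (ha.bd_pr A))).int μ]
  apply sum_congr rfl; intro A _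
  rw [integral_const_mul]; ring

lemma prob_tilt (ha : MD μ a) {ε : ℝ} (h0 : 0 ≤ ε) (h1 : ε ≤ 1) (L : ℕ) {q : ℕ → ℝ}
    (hq : ∀ s, |q s| ≤ 1) : IsProbabilityMeasure (tilt μ a ε L q) := by
  have : IsFiniteMeasure (tilt μ a ε L q) :=
    isFiniteMeasure_withDensity_ofReal ((bd_dens ha ε L q).int _).2
  have h := int_tilt ha h0 h1 L hq (Bd.const 1)
  rw [ex, sum_eq_single ∅] at h
  · constructor
    simp only [integral_const, smul_eq_mul, mul_one, card_empty, pow_zero, pr_empty,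
      probReal_univ, prod_empty] at h
    exact (ENNReal.toReal_eq_one_iff _).1 h
  · intro A _ hA
    simp only [one_mul]
    rw [ha.mean (nonempty_iff_ne_empty.2 hA)]; simp
  · simp

lemma ex_le (ha : MD μ a) {ε : ℝ} (h0 : 0 ≤ ε) (h1 : ε ≤ 1) (L : ℕ) {q : ℕ → ℝ}
    (hq : ∀ s, |q s| ≤ 1) {Φ : X → ℝ} (hΦ : Measurable Φ) {B : ℝ} (hB : ∀ x, |Φ x| ≤ B) :
    |ex μ a ε L Φ q| ≤ B := by
  have := prob_tilt ha h0 h1 L hq
  rw [← int_tilt ha h0 h1 L hq ⟨hΦ, B, hB⟩]
  simpa using norm_integral_le_of_norm_le_const (μ := tilt μ a ε L q) (f := Φ) (.of_forall hB)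

lemma ex_zero (ε : ℝ) (L : ℕ) (Φ : X → ℝ) : ex μ a ε L Φ (fun _ => 0) = ∫ x, Φ x ∂μ := by
  rw [ex, sum_eq_single ∅]
  · simp [pr_empty]
  · intro A _ hA
    obtain ⟨s, hs⟩ := nonempty_iff_ne_empty.2 hA
    rw [prod_eq_zero hs rfl, mul_zero]
  · simp

lemma orth2 (ha : MD μ a) {A B : Finset ℕ} (hA : A.Nonempty) (h : ∀ s ∈ A, ∀ s' ∈ B, s < s') :
    ∫ x, pr a A x * pr a B x ∂μ = 0 := by
  rw [← ha.orth (A.min' hA) (A.erase (A.min' hA)) B (fun s hs => by
    rw [mem_erase] at hs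
    exact lt_of_le_of_ne (A.min'_le s hs.2) hs.1.symm) (h _ (A.min'_mem hA))]
  congr 1; ext x
  rw [← mul_assoc, pr, pr, pr, mul_prod_erase _ (fun s => a s x) (A.min'_mem hA)]

lemma group_sq (ha : MD μ a) (L D : ℕ) {c : Finset ℕ → ℝ} (hc : c ∅ = 0) :
    ∫ x, (∑ u ∈ range D, ∑ A ∈ (range L).powerset, c A * pr (fun s => a (s + u * L)) A x) ^ 2 ∂μ
      ≤ D * ∑ A ∈ (range L).powerset, c A ^ 2 := by
  set V : ℕ → X → ℝ := fun u x => ∑ A ∈ (range L).powerset, c A * pr (fun s => a (s + u * L)) A x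
    with hV
  have bV : ∀ u, Bd (V u) := fun u => Bd.sum _ fun A => (Bd.const _).mul ((ha.shift _).bd_pr A)
  have ho : ∀ u v, u < v → ∫ x, V u x * V v x ∂μ = 0 := by
    intro u v huv
    simp only [hV, sum_mul_sum]
    have hi : ∀ A B, Bd fun x => c A * pr (fun s => a (s + u * L)) A x *
        (c B * pr (fun s => a (s + v * L)) B x) := fun A B =>
      ((Bd.const _).mul ((ha.shift _).bd_pr A)).mul ((Bd.const _).mul ((ha.shift _).bd_pr B))
    rw [integral_finsetSum _ fun A _ => (Bd.sum _ (hi A)).int μ]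
    apply sum_eq_zero; intro A hA
    rw [integral_finsetSum _ fun B _ => (hi A B).int μ]
    apply sum_eq_zero; intro B _
    rcases A.eq_empty_or_nonempty with rfl | hne
    · simp [hc]
    · have := orth2 ha (A := A.map (addRightEmbedding (u * L)))
        (B := B.map (addRightEmbedding (v * L))) (by simpa using hne) (by
          simp only [Finset.mem_map, addRightEmbedding_apply]
          rintro _ ⟨s, hs, rfl⟩ _ ⟨s', -, rfl⟩
          have := mem_range.1 (mem_powerset.1 hA hs)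
          nlinarith)
      have e : ∀ x, c A * pr (fun s => a (s + u * L)) A x * (c B * pr (fun s => a (s + v * L)) B x)
          = c A * c B * (pr a (A.map (addRightEmbedding (u * L))) x *
            pr a (B.map (addRightEmbedding (v * L))) x) := by
        intro x; simp only [pr, prod_map, addRightEmbedding_apply]; ring
      simp only [e]
      rw [integral_const_mul, this, mul_zero]
  show ∫ x, (∑ u ∈ range D, V u x) ^ 2 ∂μ ≤ _
  induction D with
  | zero => simp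
  | succ D ih =>
    have e : ∀ x, (∑ u ∈ range (D + 1), V u x) ^ 2 = (∑ u ∈ range D, V u x) ^ 2 +
        2 * (∑ u ∈ range D, V u x * V D x) + V D x ^ 2 := by
      intro x; rw [sum_range_succ, ← sum_mul]; ring
    simp only [e]
    have b1 := (Bd.sum (range D) bV).sq
    have b2 := (Bd.const 2).mul (Bd.sum (range D) fun u => (bV u).mul (bV D))
    rw [integral_add ((b1.add b2).int μ) ((bV D).sq.int μ), integral_add (b1.int μ) (b2.int μ),
      integral_const_mul, integral_finsetSum _ fun u _ => ((bV u).mul (bV D)).int μ,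
      sum_eq_zero fun u hu => ho u D (mem_range.1 hu)]
    have := (ha.shift (D * L)).dual (range L) c
    push_cast
    linarith

lemma approx_pr {b b' : ℕ → X → ℝ} (hb : ∀ s, Measurable (b s)) (hb' : ∀ s, Measurable (b' s))
    (lb : ∀ s x, |b s x| ≤ 1) (lb' : ∀ s x, |b' s x| ≤ 1) {θ : ℝ} (_hθ0 : 0 ≤ θ)
    (hθ : ∀ s, ∫ x, |b s x - b' s x| ∂μ ≤ θ) (L : ℕ) {c : Finset ℕ → ℝ} {B : ℝ} (hB : 0 ≤ B)
    (hc : ∀ A ∈ (range L).powerset, |c A| ≤ B) :
    ∫ x, |∑ A ∈ (range L).powerset, c A * pr b A x - ∑ A ∈ (range L).powerset, c A * pr b' A x| ∂μ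
      ≤ 2 ^ L * B * (L * θ) := by
  have bb : ∀ s, Bd fun x => |b s x - b' s x| := fun s =>
    ⟨((hb s).sub (hb' s)).abs, 2, fun x => by
      rw [abs_abs]; exact (abs_sub _ _).trans (by linarith [lb s x, lb' s x])⟩
  have bp : ∀ {b : ℕ → X → ℝ}, (∀ s, Measurable (b s)) → (∀ s x, |b s x| ≤ 1) →
      Bd fun x => ∑ A ∈ (range L).powerset, c A * pr b A x := fun h1 h2 =>
    Bd.sum _ fun A => (Bd.const _).mul ⟨Finset.measurable_prod _ fun s _ => h1 s, 1, pr_le h2 A⟩
  calc _ ≤ ∫ x, 2 ^ L * B * ∑ s ∈ range L, |b s x - b' s x| ∂μ := by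
        apply integral_mono (((bp hb lb).sub (bp hb' lb')).int μ).abs
          (((Bd.const _).mul (Bd.sum _ bb)).int μ)
        intro x
        simp only
        rw [← sum_sub_distrib]
        refine (abs_sum_le_sum_abs _ _).trans ?_
        calc _ ≤ ∑ _A ∈ (range L).powerset, B * ∑ s ∈ range L, |b s x - b' s x| := by
              apply sum_le_sum; intro A hA
              rw [← mul_sub, abs_mul]
              apply mul_le_mul (hc A hA) _ (abs_nonneg _) hB
              exact (prod_sub_le A (fun s => lb s x) fun s => lb' s x).trans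
                (sum_le_sum_of_subset_of_nonneg (mem_powerset.1 hA) fun _ _ _ => abs_nonneg _)
          _ = _ := by simp [mul_assoc]
    _ ≤ _ := by
        rw [integral_const_mul, integral_finsetSum _ fun s _ => (bb s).int μ]
        gcongr
        exact (sum_le_sum fun s _ => hθ s).trans (by simp)

end

end Pool.Agent.H12.Norm2
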