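import Pool.Agent.H12.Norm2

set_option autoImplicit false
set_option linter.unusedSectionVars false
open MeasureTheory Filter Topology Finset

namespace Pool.Agent.H12.Norm3
open Pool.Agent.H12.Avg Pool.Agent.H12.Join2 Pool.Agent.H12.Norm2

variable {Y : Type*} [MeasurableSpace Y] [TopologicalSpace Y] [BorelSpace Y] {ν : Measure Y}
  [IsProbabilityMeasure ν] {U : Y → Y} {y0 : Y} {l : Filter ℕ} {β β' : Y → ℝ}

/-- orbit family of a function -/
def orb (U : Y → Y) (β : Y → ℝ) (s : ℕ) (y : Y) : ℝ := β (U^[s] y)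

lemma pr_orb (β : Y → ℝ) (A : Finset ℕ) (i : ℕ) (y : Y) :
    pr (orb U β) A (U^[i] y) = pr (fun s => orb U β (s + i)) A y := by
  simp only [pr, orb, Function.iterate_add_apply]

lemma cont_pr (cU : Continuous U) (cβ : Continuous β') (A : Finset ℕ) :
    Continuous (pr (orb U β') A) :=
  continuous_finsetProd _ fun s _ => cβ.comp (cU.iterate s)

lemma orb_close (hU : MeasurePreserving U ν ν) (mβ : Measurable β) (mβ' : Measurable β') {θ : ℝ}
    (h : ∫ y, |β y - β' y| ∂ν ≤ θ) (s : ℕ) : ∫ y, |orb U β s y - orb U β' s y| ∂ν ≤ θ := by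
  refine le_of_eq_of_le ?_ h
  conv_rhs => rw [← (hU.iterate s).map_eq]
  rw [integral_map (f := fun y => |β y - β' y|) (hU.iterate s).measurable.aemeasurable
    (mβ.sub mβ').abs.aestronglyMeasurable]
  rfl

lemma ev_le (hl : l ≤ atTop) {f : ℕ → ℝ} {c r : ℝ} (hr : 0 < r)
    (h : Tendsto (fun N : ℕ => (N : ℝ)⁻¹ * f N) l (𝓝 c)) : ∀ᶠ N in l, |f N - c * N| ≤ r * N := by
  filter_upwards [h.eventually (Metric.closedBall_mem_nhds c hr), hl (eventually_gt_atTop 0)]
    with N h1 h2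
  have h2' : (0 : ℝ) < N := by exact_mod_cast h2
  rw [Real.dist_eq] at h1
  have : f N - c * N = ((N : ℝ)⁻¹ * f N - c) * N := by field_simp
  rw [this, abs_mul, abs_of_pos h2']
  gcongr

lemma side (cU : Continuous U) (hU : MeasurePreserving U ν ν) (hl : l ≤ atTop)
    (hy : ∀ g : Y → ℝ, Continuous g →
      Tendsto (fun N : ℕ => (N : ℝ)⁻¹ * ∑ t ∈ range N, g (U^[t] y0)) l (𝓝 (∫ y, g y ∂ν)))
    (hb : MD ν (orb U β)) (cβ : Continuous β') (lβ : ∀ y, |β' y| ≤ 1) {θ τ : ℝ} (hθ0 : 0 ≤ θ)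
    (hθ : ∫ y, |β y - β' y| ∂ν ≤ θ) (hτ : 0 < τ) {L : ℕ} (hL : 0 < L) {c : Finset ℕ → ℝ}
    (c0 : c ∅ = 0) (c1 : ∑ A ∈ (range L).powerset, c A ^ 2 ≤ L ^ 2)
    (hθL : 2 ^ L * L * (L * θ) ≤ τ ^ 2 / 4)
    (hV : ∀ y, |∑ A ∈ (range L).powerset, c A * pr (orb U β') A y| ≤ 2 * L) :
    ∀ᶠ N in l, ∀ a J0 J, J0 ≤ J → (∀ j < J, a + j * L < N) →
      |∑ j ∈ Ico J0 J, ∑ A ∈ (range L).powerset, c A * pr (orb U β') A (U^[a + j * L] y0)|
        ≤ τ ^ 2 * N := by
  obtain ⟨D, hD⟩ := exists_nat_gt (16 * L ^ 2 / τ ^ 4)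
  have hL' : (0 : ℝ) < L := by exact_mod_cast hL
  have hD0 : (0 : ℝ) < D := lt_trans (by positivity) hD
  set V : Y → ℝ := fun y => ∑ A ∈ (range L).powerset, c A * pr (orb U β') A y with hVdef
  have cV : Continuous V := continuous_finsetSum _ fun A _ => continuous_const.mul (cont_pr cU cβ A)
  set g : Y → ℝ := fun y => |∑ u ∈ range D, V (U^[u * L] y)| with hg
  have cg : Continuous g := (continuous_finsetSum _ fun u _ => cV.comp (cU.iterate _)).abs
  have mβ : Measurable β := hb.meas 0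
  have c2 : ∀ A ∈ (range L).powerset, |c A| ≤ L := fun A hA =>
    abs_le_of_sq_le_sq' ((single_le_sum (f := fun A => c A ^ 2) (fun _ _ => sq_nonneg _) hA).trans c1)
      hL'.le |> abs_le.2
  have hint : ∫ y, g y ∂ν ≤ D * τ ^ 2 / 2 := by
    set W : ℕ → Y → ℝ := fun u y => ∑ A ∈ (range L).powerset,
      c A * pr (fun s => orb U β (s + u * L)) A y with hW
    have bW : ∀ u, Bd (W u) := fun u => Bd.sum _ fun A => (Bd.const _).mul ((hb.shift _).bd_pr A)
    have bV : ∀ u, Bd fun y => V (U^[u * L] y) := fun u =>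
      ⟨(cV.comp (cU.iterate _)).measurable, _, fun y => hV _⟩
    have h1 : ∫ y, |∑ u ∈ range D, W u y| ∂ν ≤ D * τ ^ 2 / 4 := by
      apply abs_int_le (Bd.sum _ bW) (by positivity)
      refine (group_sq hb L D c0).trans ?_
      rw [div_lt_iff₀ (by positivity)] at hD
      calc (D : ℝ) * ∑ A ∈ (range L).powerset, c A ^ 2 ≤ D * L ^ 2 := by gcongr
        _ ≤ D * (D * τ ^ 4 / 16) := by gcongr; linarith
        _ = _ := by ring
    have h2 : ∀ u, ∫ y, |W u y - V (U^[u * L] y)| ∂ν ≤ τ ^ 2 / 4 := by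
      intro u
      refine le_trans ?_ hθL
      simp only [hVdef, pr_orb]
      exact approx_pr (fun s => hb.meas _)
        (fun s => (cβ.comp (cU.iterate _)).measurable) (fun s => hb.le _) (fun s y => lβ _) hθ0
        (fun s => orb_close hU mβ cβ.measurable hθ _) L hL'.le c2
    have i1 : Integrable (fun y => |∑ u ∈ range D, W u y|) ν := ((Bd.sum _ bW).int ν).abs
    have i2 : ∀ u, Integrable (fun y => |W u y - V (U^[u * L] y)|) ν :=
      fun u => (((bW u).sub (bV u)).int ν).abs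
    calc _ ≤ ∫ y, (|∑ u ∈ range D, W u y| + ∑ u ∈ range D, |W u y - V (U^[u * L] y)|) ∂ν := by
          apply integral_mono ((Bd.sum _ bV).int ν).abs
            (i1.add (integrable_finsetSum _ fun u _ => i2 u))
          intro y
          have := abs_sum_le_sum_abs (fun u => W u y - V (U^[u * L] y)) (range D)
          rw [sum_sub_distrib] at this
          have h3 := abs_sub_abs_le_abs_sub (∑ u ∈ range D, V (U^[u * L] y)) (∑ u ∈ range D, W u y)
          rw [abs_sub_comm] at h3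
          simp only [Pi.add_apply]; linarith
      _ ≤ D * τ ^ 2 / 4 + ∑ _u ∈ range D, τ ^ 2 / 4 := by
          rw [integral_add i1 (integrable_finsetSum _ fun u _ => i2 u),
            integral_finsetSum _ fun u _ => i2 u]
          exact add_le_add h1 (sum_le_sum fun u _ => h2 u)
      _ = _ := by simp; ring
  have hN : ∀ᶠ N : ℕ in l, 16 * D * L / τ ^ 2 ≤ N :=
    hl (tendsto_natCast_atTop_atTop.eventually_ge_atTop _)
  filter_upwards [ev_le hl (r := D * τ ^ 2 / 4) (by positivity) (hy g cg), hN] with N h1 h2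
  intro a J0 J hJ ha
  have h3 := group_le (u := fun j => V (U^[a + j * L] y0)) (fun j => hV _) hJ D
  have h4 : |∑ j ∈ Ico J0 J, ∑ v ∈ range D, V (U^[a + (j + v) * L] y0)| ≤
      ∑ t ∈ range N, g (U^[t] y0) := by
    refine (abs_sum_le_sum_abs _ _).trans ?_
    calc _ = ∑ j ∈ Ico J0 J, g (U^[a + j * L] y0) := by
          apply sum_congr rfl; intro j _
          simp only [hg, ← Function.iterate_add_apply]
          congr 1; apply sum_congr rfl; intro v _
          congr 2; ring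
      _ = ∑ t ∈ (Ico J0 J).image (fun j => a + j * L), g (U^[t] y0) := by
          rw [sum_image]
          intro i _ j _ h
          simp only [add_right_inj] at h
          exact Nat.eq_of_mul_eq_mul_right hL h
      _ ≤ _ := by
          apply sum_le_sum_of_subset_of_nonneg
          · intro t ht
            obtain ⟨j, hj, rfl⟩ := mem_image.1 ht
            exact mem_range.2 (ha j (mem_Ico.1 hj).2)
          · intros; exact abs_nonneg _
  have hN0 : (0 : ℝ) ≤ N := Nat.cast_nonneg _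
  rw [div_le_iff₀ (by positivity)] at h2
  have h5 := (abs_le.1 h1).2
  have h6 := abs_sub_abs_le_abs_sub (D * ∑ j ∈ Ico J0 J, V (U^[a + j * L] y0))
    (∑ j ∈ Ico J0 J, ∑ v ∈ range D, V (U^[a + (j + v) * L] y0))
  rw [abs_mul, abs_of_pos hD0] at h6
  have h7 := mul_le_mul_of_nonneg_right hint hN0
  have h8 := mul_le_mul_of_nonneg_left h2 hD0.le
  apply le_of_mul_le_mul_left _ hD0
  show D * |∑ j ∈ Ico J0 J, V (U^[a + j * L] y0)| ≤ _
  nlinarith

lemma corr_side (cU : Continuous U) (hU : MeasurePreserving U ν ν) (hl : l ≤ atTop)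
    (hy : ∀ g : Y → ℝ, Continuous g →
      Tendsto (fun N : ℕ => (N : ℝ)⁻¹ * ∑ t ∈ range N, g (U^[t] y0)) l (𝓝 (∫ y, g y ∂ν)))
    (hb : MD ν (orb U β)) (cβ : Continuous β') (lβ : ∀ y, |β' y| ≤ 1) {θ τ : ℝ} (hθ0 : 0 ≤ θ)
    (hθ : ∫ y, |β y - β' y| ∂ν ≤ θ) (hτ : 0 < τ) {L : ℕ} {e : ℕ → Finset ℕ → ℝ}
    (he : ∀ r, ∀ A ∈ (range L).powerset, |e r A| ≤ 1) {ψ : Y → ℝ} (cψ : Continuous ψ)
    (lψ : ∀ y, |ψ y| ≤ 1) (hθL : 2 ^ L * L * (L * θ) ≤ τ) :
    ∀ᶠ N in l, |∑ t ∈ range N, ∑ r ∈ range L, ψ (U^[r] (U^[t] y0)) *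
        ∑ A ∈ (range L).powerset, e r A * pr (orb U β') A (U^[t] y0) -
      (∑ r ∈ range L, ∑ A ∈ (range L).powerset,
        e r A * ∫ y, ψ (U^[r] y) * pr (orb U β) A y ∂ν) * N| ≤ 2 * τ * N := by
  have mβ : Measurable β := hb.meas 0
  set W : (Y → ℝ) → Y → ℝ := fun β y => ∑ r ∈ range L, ψ (U^[r] y) *
    ∑ A ∈ (range L).powerset, e r A * pr (orb U β) A y with hW
  have cW : Continuous (W β') := continuous_finsetSum _ fun r _ => (cψ.comp (cU.iterate _)).mul
    (continuous_finsetSum _ fun A _ => continuous_const.mul (cont_pr cU cβ A))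
  have bψ : ∀ r, Bd fun y => ψ (U^[r] y) := fun r =>
    ⟨(cψ.comp (cU.iterate _)).measurable, 1, fun _ => lψ _⟩
  have b1 : ∀ r, Bd fun y => ∑ A ∈ (range L).powerset, e r A * pr (orb U β) A y :=
    fun r => Bd.sum _ fun A => (Bd.const _).mul (hb.bd_pr A)
  have b2 : ∀ r, Bd fun y => ∑ A ∈ (range L).powerset, e r A * pr (orb U β') A y :=
    fun r => Bd.sum _ fun A => (Bd.const _).mul
      ⟨(cont_pr cU cβ A).measurable, 1, pr_le (fun s y => lβ _) A⟩
  have e1 : ∫ y, W β y ∂ν = ∑ r ∈ range L, ∑ A ∈ (range L).powerset,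
      e r A * ∫ y, ψ (U^[r] y) * pr (orb U β) A y ∂ν := by
    rw [hW, integral_finsetSum _ fun r _ => ((bψ r).mul (b1 r)).int ν]
    apply sum_congr rfl; intro r _
    simp only [mul_sum]
    rw [integral_finsetSum _ fun A _ => ((bψ r).mul ((Bd.const _).mul (hb.bd_pr A))).int ν]
    apply sum_congr rfl; intro A _
    rw [← integral_const_mul]; congr 1; ext y; ring
  have e2 : |∫ y, W β' y ∂ν - ∫ y, W β y ∂ν| ≤ τ := by
    rw [hW, integral_finsetSum _ fun r _ => ((bψ r).mul (b1 r)).int ν,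
      integral_finsetSum _ fun r _ => ((bψ r).mul (b2 r)).int ν, ← sum_sub_distrib]
    refine (abs_sum_le_sum_abs _ _).trans (le_trans ?_ hθL)
    calc _ ≤ ∑ _r ∈ range L, 2 ^ L * 1 * (L * θ) := by
          apply sum_le_sum; intro r _
          rw [← integral_sub (((bψ r).mul (b2 r)).int ν) (((bψ r).mul (b1 r)).int ν)]
          refine (abs_integral_le_integral_abs).trans (le_trans ?_ (approx_pr (μ := ν)
            (fun s => hb.meas s) (b' := orb U β') (fun s => (cβ.comp (cU.iterate _)).measurable)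
            (fun s => hb.le s) (fun s y => lβ _) hθ0
            (fun s => orb_close hU mβ cβ.measurable hθ _) L zero_le_one (he r)))
          apply integral_mono ((((bψ r).mul (b2 r)).sub ((bψ r).mul (b1 r))).int ν).abs
            (((b1 r).sub (b2 r)).int ν).abs
          intro y
          simp only
          rw [← mul_sub, abs_mul, abs_sub_comm]
          exact mul_le_of_le_one_left (abs_nonneg _) (lψ _)
      _ = _ := by simp; ring
  filter_upwards [ev_le hl hτ (hy _ cW)] with N h1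
  rw [← e1]
  have hN0 : (0 : ℝ) ≤ N := Nat.cast_nonneg _
  have h2 := mul_le_mul_of_nonneg_right (abs_le.1 e2).1 hN0
  have h3 := mul_le_mul_of_nonneg_right (abs_le.1 e2).2 hN0
  rw [abs_le] at h1 ⊢
  constructor
  · show _ ≤ ∑ t ∈ range N, W β' (U^[t] y0) - _
    nlinarith [h1.1]
  · show ∑ t ∈ range N, W β' (U^[t] y0) - _ ≤ _
    nlinarith [h1.2]

lemma exists_approx [NormalSpace Y] [ν.WeaklyRegular] (mβ : Measurable β) (lβ : ∀ y, |β y| ≤ 1)
    {θ : ℝ} (hθ : 0 < θ) :
    ∃ β' : Y → ℝ, Continuous β' ∧ (∀ y, |β' y| ≤ 1) ∧ ∫ y, |β y - β' y| ∂ν ≤ θ := by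
  have bβ : Bd β := ⟨mβ, 1, lβ⟩
  obtain ⟨g, hg, ig⟩ := (bβ.int ν).exists_boundedContinuous_integral_sub_le hθ
  have c : Continuous fun y => max (-1) (min 1 (g y)) := by fun_prop
  have l1 : ∀ y, |max (-1) (min 1 (g y))| ≤ 1 := fun y =>
    abs_le.2 ⟨le_max_left _ _, max_le (by norm_num) (min_le_left _ _)⟩
  refine ⟨_, c, l1, le_trans ?_ hg⟩
  apply integral_mono ((bβ.sub ⟨c.measurable, 1, l1⟩).int ν).abs ((bβ.int ν).sub ig).norm
  intro y
  have := abs_le.1 (lβ y)
  simp only [Real.norm_eq_abs, Pi.sub_apply]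
  rcases le_total 1 (g y) with h | h
  · rw [min_eq_left h, max_eq_right (by norm_num), abs_of_nonpos (by linarith),
      abs_of_nonpos (by linarith)]; linarith
  · rw [min_eq_right h]
    rcases le_total (-1) (g y) with h' | h'
    · rw [max_eq_right h']
    · rw [max_eq_left h', abs_of_nonneg (by linarith), abs_of_nonneg (by linarith)]; linarith

end Pool.Agent.H12.Norm3
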