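import Pool.Agent.H12.Norm3

set_option autoImplicit false
set_option linter.unusedSectionVars false
open MeasureTheory Filter Topology Finset

namespace Pool.Agent.H12.Norm4
open Pool.Agent.H12.Avg Pool.Agent.H12.Join2 Pool.Agent.H12.Join4 Pool.Agent.H12.Norm2
  Pool.Agent.H12.Norm3

variable {Y : Type*} [MeasurableSpace Y] [TopologicalSpace Y] [BorelSpace Y] [NormalSpace Y]
  {ν : Measure Y} [IsProbabilityMeasure ν] [ν.WeaklyRegular] {U : Y → Y} {y0 : Y} {l : Filter ℕ}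
  {β ψ : Y → ℝ} {Λ : Type*} [MeasurableSpace Λ] {μ : Measure (ℕ → Λ)} [IsProbabilityMeasure μ]
  {a : ℕ → (ℕ → Λ) → ℝ} {F : Λ → ℝ}

lemma int_shift (hT : MeasurePreserving sh μ μ) {Φ : (ℕ → Λ) → ℝ} (hΦ : Measurable Φ) (r : ℕ) :
    ∫ x, Φ (sh^[r] x) ∂μ = ∫ x, Φ x ∂μ := by
  conv_rhs => rw [← (hT.iterate r).map_eq]
  rw [integral_map (hT.iterate r).measurable.aemeasurable hΦ.aestronglyMeasurable]

lemma sum_abs_le {L : ℕ} {u : ℕ → ℝ} {B : ℝ} (h : ∀ r, |u r| ≤ B) :
    |∑ r ∈ range L, u r| ≤ L * B :=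
  (abs_sum_le_sum_abs _ _).trans ((sum_le_sum fun r _ => h r).trans (by simp))

lemma sum_if (J0 J : ℕ) (u : ℕ → ℝ) :
    ∑ j ∈ range J, (if J0 ≤ j then u j else 0) = ∑ j ∈ Ico J0 J, u j := by
  rw [← sum_filter]; congr 1; ext s; simp [and_comm]

theorem phase [l.NeBot] (hT : MeasurePreserving sh μ μ) (ha : MD μ a) (mF : Measurable F)
    (lF : ∀ s, |F s| ≤ 1) (eF : ∫ x, F (x 0) ∂μ = 0)
    (cU : Continuous U) (hU : MeasurePreserving U ν ν) (hl : l ≤ atTop)
    (hy : ∀ g : Y → ℝ, Continuous g →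
      Tendsto (fun N : ℕ => (N : ℝ)⁻¹ * ∑ t ∈ range N, g (U^[t] y0)) l (𝓝 (∫ y, g y ∂ν)))
    (hb : MD ν (orb U β)) (cψ : Continuous ψ) (lψ : ∀ y, |ψ y| ≤ 1) {ε γ : ℝ} (h0 : 0 ≤ ε)
    (h1 : ε ≤ 1) (hγ0 : 0 < γ) {L0 : ℕ}
    (hγ : ∀ L ≥ L0, γ * L ≤ |∑ r ∈ range L, ∑ A ∈ (range L).powerset,
      ε ^ A.card * (∫ x, F (sh^[r] x 0) * pr a A x ∂μ) * ∫ y, ψ (U^[r] y) * pr (orb U β) A y ∂ν|)
    {Φ : ℕ → (ℕ → Λ) → ℝ} (mΦ : ∀ i, Measurable (Φ i)) (Φ0 : ∀ i z, 0 ≤ Φ i z)
    (Φ1 : ∀ i z, Φ i z ≤ 1) (wΦ : ∀ i, ∃ K, ∀ z z', (∀ t < K, z t = z' t) → Φ i z = Φ i z')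
    (k : ℕ) {η : ℝ} (hη : 0 < η) :
    ∃ nmin, ∀ n ≥ nmin, ∀ N0, ∃ N' ≥ N0, n ≤ N' ∧ ∃ x : ℕ → Λ, ∀ x' : ℕ → Λ,
      (∀ t, n ≤ t → t < N' → x' t = x t) →
      (∀ i < k, ∀ m, n ≤ m → m ≤ N' → |∑ t ∈ range m, (Φ i (sh^[t] x') - ∫ z, Φ i z ∂μ) -
        ∑ t ∈ range n, (Φ i (sh^[t] x') - ∫ z, Φ i z ∂μ)| ≤ η * m) ∧
      γ / 4 * N' ≤ |∑ t ∈ range N', F (x' t) * ψ (U^[t] y0) -
        ∑ t ∈ range n, F (x' t) * ψ (U^[t] y0)| := by
  obtain ⟨τ, hτ, τ1, τ2, τ3⟩ : ∃ τ : ℝ, 0 < τ ∧ τ ≤ 1 ∧ 4 * τ ≤ η ∧ 12 * τ ≤ γ :=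
    ⟨min 1 (min (η / 4) (γ / 12)), by positivity, min_le_left _ _,
      by linarith [min_le_right 1 (min (η / 4) (γ / 12)), min_le_left (η / 4) (γ / 12)],
      by linarith [min_le_right 1 (min (η / 4) (γ / 12)), min_le_right (η / 4) (γ / 12)]⟩
  choose K0 hK0 using wΦ
  set K := (range k).sup K0
  have hK : ∀ i < k, ∀ z z', (∀ t < K, z t = z' t) → Φ i z = Φ i z' := fun i hi z z' h =>
    hK0 i z z' fun t ht => h t (ht.trans_le (le_sup (mem_range.2 hi)))
  obtain ⟨L, hL0, hL, hKL⟩ : ∃ L : ℕ, L0 ≤ L ∧ 0 < L ∧ (K : ℝ) ≤ τ * L := by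
    obtain ⟨L1, h⟩ := exists_nat_ge (K / τ)
    refine ⟨L0 + L1 + 1, by omega, by omega, ?_⟩
    rw [div_le_iff₀' hτ] at h
    refine h.trans ?_
    gcongr; omega
  have hL' : (1 : ℝ) ≤ L := by exact_mod_cast hL
  set θ := τ ^ 2 / 4 / (2 ^ L * L * L) with hθdef
  have hθ0 : 0 < θ := by positivity
  have hθL : 2 ^ L * L * (L * θ) = τ ^ 2 / 4 := by rw [hθdef]; field_simp
  obtain ⟨β', cβ, lβ, hθ⟩ := exists_approx (ν := ν) (hb.meas 0) (hb.le 0) hθ0
  have I0 : ∀ i, 0 ≤ ∫ z, Φ i z ∂μ := fun i => integral_nonneg (Φ0 i)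
  have bΦ : ∀ i, Bd (Φ i) := fun i => ⟨mΦ i, 1, fun z => abs_le.2 ⟨by linarith [Φ0 i z], Φ1 i z⟩⟩
  have I1 : ∀ i, ∫ z, Φ i z ∂μ ≤ 1 := fun i =>
    (integral_mono ((bΦ i).int μ) (integrable_const 1) (Φ1 i)).trans (by simp)
  have lu : ∀ i z, |Φ i z - ∫ z, Φ i z ∂μ| ≤ 1 := fun i z =>
    abs_le.2 ⟨by linarith [Φ0 i z, I1 i], by linarith [Φ1 i z, I0 i]⟩
  set Ψ : ℕ → (ℕ → Λ) → ℝ := fun i x => ∑ r ∈ range L, (Φ i (sh^[r] x) - ∫ z, Φ i z ∂μ) with hΨ
  have bΨ : ∀ i, Bd (Ψ i) := fun i => Bd.sum _ fun r =>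
    ((bΦ i).comp (meas_sh.iterate r)).sub (Bd.const _)
  have lΨ : ∀ i x, |Ψ i x| ≤ L := fun i x =>
    (sum_abs_le (L := L) fun r => lu i (sh^[r] x)).trans_eq (mul_one _)
  have eΨ : ∀ i, ∫ x, Ψ i x ∂μ = 0 := by
    intro i
    rw [hΨ, integral_finsetSum _ fun r _ =>
      (((bΦ i).comp (meas_sh.iterate r)).sub (Bd.const _)).int μ]
    apply sum_eq_zero; intro r _
    rw [integral_sub (((bΦ i).comp (meas_sh.iterate r)).int μ) (integrable_const _),
      int_shift hT (mΦ i)]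
    simp
  have powle : ∀ A : Finset ℕ, |ε ^ A.card| ≤ 1 := fun A => by
    rw [abs_of_nonneg (pow_nonneg h0 _)]; exact pow_le_one₀ h0 h1
  have lq : ∀ y s, |orb U β' s y| ≤ 1 := fun y s => lβ _
  have S1 : ∀ i, ∀ᶠ N in l, ∀ a' J0 J, J0 ≤ J → (∀ j < J, a' + j * L < N) →
      |∑ j ∈ Ico J0 J, ex μ a ε L (Ψ i) (fun s => orb U β' s (U^[a' + j * L] y0))| ≤ τ ^ 2 * N := by
    intro i
    apply side cU hU hl hy hb cβ lβ hθ0.le hθ hτ hL
      (c := fun A => ε ^ A.card * ∫ x, Ψ i x * pr a A x ∂μ) _ _ hθL.le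
    · intro y
      exact (ex_le ha h0 h1 L (lq y) (bΨ i).1 (lΨ i)).trans (by linarith)
    · simp [pr_empty, eΨ]
    · refine le_trans (sum_le_sum fun A _ => ?_) ((ha.bessel (range L) (bΨ i)).trans ?_)
      · rw [mul_pow]
        exact mul_le_of_le_one_left (sq_nonneg _) ((sq_le_one_iff_abs_le_one _).2 (powle A))
      · refine (integral_mono ((bΨ i).sq.int μ) (integrable_const ((L : ℝ) ^ 2))
          fun x => sq_le_sq' (abs_le.1 (lΨ i x)).1 (abs_le.1 (lΨ i x)).2).trans (by simp)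
  have mFr : ∀ r, Measurable fun x : ℕ → Λ => F (sh^[r] x 0) := fun r =>
    mF.comp ((measurable_pi_apply 0).comp (meas_sh.iterate r))
  have bFr : ∀ r, Bd fun x : ℕ → Λ => F (sh^[r] x 0) := fun r => ⟨mFr r, 1, fun _ => lF _⟩
  have S2 := corr_side cU hU hl hy hb cβ lβ hθ0.le hθ hτ (L := L)
    (e := fun r A => ε ^ A.card * ∫ x, F (sh^[r] x 0) * pr a A x ∂μ) (fun r A _ => by
      rw [abs_mul]
      refine mul_le_one₀ (powle A) (abs_nonneg _) ?_
      simpa using norm_integral_le_of_norm_le_const (μ := μ) (C := 1)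
        (f := fun x => F (sh^[r] x 0) * pr a A x) (.of_forall fun x => by
          rw [Real.norm_eq_abs, abs_mul]
          exact mul_le_one₀ (lF _) (abs_nonneg _) (pr_le ha.le A x))) cψ lψ
    (by rw [hθL]; nlinarith)
  set W : ℕ → ℝ := fun t => ∑ r ∈ range L, ψ (U^[r] (U^[t] y0)) *
    ex μ a ε L (fun x => F (sh^[r] x 0)) (fun s => orb U β' s (U^[t] y0)) with hW
  have lW : ∀ t, |W t| ≤ L := fun t => by
    simpa using sum_abs_le (L := L) (B := 1) fun r => by
      rw [abs_mul]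
      exact mul_le_one₀ (lψ (U^[r] (U^[t] y0))) (abs_nonneg _)
        (ex_le ha h0 h1 L (lq (U^[t] y0)) (mFr r) fun _ => lF _)
  obtain ⟨nmin, hnmin⟩ := exists_nat_ge ((3 * L / τ) + 4 * (k + 1) * L / τ ^ 2)
  refine ⟨nmin, fun n hn N0 => ?_⟩
  have hn' : (nmin : ℝ) ≤ n := by exact_mod_cast hn
  have n1 : 3 * L ≤ τ * n := by
    rw [← div_le_iff₀' hτ]
    have : 0 ≤ 4 * ((k : ℝ) + 1) * L / τ ^ 2 := by positivity
    linarith
  have n2 : 4 * (k + 1) * L ≤ τ ^ 2 * n := by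
    rw [← div_le_iff₀' (by positivity)]
    have : 0 ≤ 3 * (L : ℝ) / τ := by positivity
    linarith
  have S3 : ∀ᶠ N : ℕ in l, (n + 5 * L) / τ ≤ N :=
    hl (tendsto_natCast_atTop_atTop.eventually_ge_atTop _)
  have S4 : ∀ᶠ N : ℕ in l, n + N0 + L ≤ N := hl (eventually_ge_atTop _)
  obtain ⟨N, ⟨⟨H1, H2⟩, H3⟩, H4⟩ :=
    (((((eventually_all_finset (range k)).2 fun i _ => S1 i).and S2).and S3).and S4).exists
  rw [div_le_iff₀' hτ] at H3
  obtain ⟨J', J1, J2⟩ : ∃ J', n + J' * L ≤ N ∧ N < n + J' * L + L :=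
    ⟨(N - n) / L, by have := Nat.div_mul_le_self (N - n) L; omega,
      by have := Nat.lt_div_mul_add (a := N - n) hL; omega⟩
  set w := ∑ r ∈ range L, ∑ A ∈ (range L).powerset,
      ε ^ A.card * (∫ x, F (sh^[r] x 0) * pr a A x ∂μ) * ∫ y, ψ (U^[r] y) * pr (orb U β) A y ∂ν
  obtain ⟨s0, s1, s2⟩ : ∃ s0 : ℝ, |s0| = 1 ∧ s0 * w = |w| := by
    rcases le_total 0 w with h | h
    · exact ⟨1, abs_one, by rw [abs_of_nonneg h, one_mul]⟩
    · exact ⟨-1, by simp, by rw [abs_of_nonpos h]; ring⟩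
  have sle : ∀ {v B : ℝ}, |v| ≤ B → -B ≤ s0 * v := fun {v B} h => by
    have : |s0 * v| ≤ B := by rwa [abs_mul, s1, one_mul]
    exact (abs_le.1 this).1
  have hN0 : (0 : ℝ) ≤ N := Nat.cast_nonneg _
  obtain ⟨ρ, hρ, hρW⟩ : ∃ ρ ∈ range L, (γ - 2 * τ) * N - (n + L) ≤
      s0 * ∑ j ∈ range J', W (n + ρ + j * L) := by
    apply exists_le_of_sum_le (nonempty_range_iff.2 hL.ne')
    have e := (block_sum W n L J').trans sum_comm
    simp only [add_right_comm n (_ * L)] at e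
    simp only [← mul_sum]
    rw [← e, sum_const, card_range, nsmul_eq_mul]
    have b1 := sle (prefix_le lW (m := n + J' * L) (m' := N) (r := L) (by omega) (by omega))
    have b2 := sle (prefix_le lW (m := 0) (m' := n) (r := n) (by omega) (by omega))
    have b3 := sle (show |∑ t ∈ range N, W t - w * N| ≤ 2 * τ * N from H2)
    have b4 := mul_le_mul_of_nonneg_right (hγ L hL0) hN0
    have b5 : 2 * τ * N * 1 ≤ 2 * τ * N * L := by gcongr
    simp only [range_zero, sum_empty, zero_sub] at b2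
    have b6 : s0 * (w * N) = |w| * N := by rw [← s2]; ring
    nlinarith
  rw [mem_range] at hρ
  set a0 := n + ρ with ha0
  set J0 := ⌈τ * N / L⌉₊ with hJ0
  have J3 : τ * N ≤ J0 * L := by rw [← div_le_iff₀ (by linarith)]; exact Nat.le_ceil _
  have J4 : (J0 : ℝ) * L ≤ τ * N + L := by
    have := (Nat.ceil_lt_add_one (show 0 ≤ τ * N / L by positivity)).le
    calc (J0 : ℝ) * L ≤ (τ * N / L + 1) * L := by gcongr
      _ = _ := by field_simp
  set q : ℕ → ℕ → ℝ := fun j => if J0 ≤ j then fun s => orb U β' s (U^[a0 + j * L] y0)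
    else fun _ => 0 with hq
  have lq' : ∀ j s, |q j s| ≤ 1 := by
    intro j s; simp only [hq]; split_ifs
    · exact lq _ _
    · simp
  set κ : ℕ → Measure (ℕ → Λ) := fun j => tilt μ a ε L (q j) with hκ
  have : ∀ j, IsProbabilityMeasure (κ j) := fun j => prob_tilt ha h0 h1 L (lq' j)
  set Z : Option (Fin k) → ℕ → (ℕ → Λ) → ℝ := fun i j ω => i.elim
    (∑ r ∈ range L, ψ (U^[r] (U^[a0 + j * L] y0)) * F (sh^[r] ω 0)) fun i => Ψ i ω with hZ
  have bZ : ∀ i j, Bd (Z i j) := by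
    rintro (_ | i) j
    · exact Bd.sum _ fun r => (Bd.const _).mul (bFr r)
    · exact bΨ i
  have lZ : ∀ i j ω, |Z i j ω| ≤ L := by
    rintro (_ | i) j ω
    · exact (sum_abs_le (L := L) (B := 1) fun r => by
        rw [abs_mul]
        exact mul_le_one₀ (lψ (U^[r] (U^[a0 + j * L] y0))) (abs_nonneg _)
          (lF (sh^[r] ω 0))).trans_eq (mul_one _)
    · exact lΨ i ω
  obtain ⟨ω, hω⟩ := select κ (fun i j ω => Z i j ω - ∫ ω, Z i j ω ∂(κ j))
    (fun i j => (bZ i j).sub (Bd.const _))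
    (fun i j => by rw [integral_sub ((bZ i j).int _) (integrable_const _)]; simp) (M := 2 * L)
    (fun i j ω => by
      have : |∫ ω, Z i j ω ∂(κ j)| ≤ L := by
        simpa using norm_integral_le_of_norm_le_const (μ := κ j) (f := Z i j)
          (.of_forall (lZ i j))
      linarith [abs_sub (Z i j ω) (∫ ω, Z i j ω ∂(κ j)), lZ i j ω])
  have fl : ∀ i J (m : ℕ), n ≤ m → J * L ≤ m →
      |∑ j ∈ range J, Z i j (ω j) - ∑ j ∈ range J, ∫ ω, Z i j ω ∂(κ j)| ≤ τ * m := by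
    intro i J m hm hJ
    rw [← sum_sub_distrib]
    apply abs_le_of_sq_le_sq' _ (by positivity) |> abs_le.2
    refine (hω J i).trans ?_
    have h2 : (n : ℝ) ≤ m := by exact_mod_cast hm
    have h3 : (J : ℝ) * L ≤ m := by exact_mod_cast hJ
    simp only [Fintype.card_option, Fintype.card_fin]
    push_cast
    calc ((k : ℝ) + 1) * (2 * L) ^ 2 * J = 4 * (k + 1) * L * (J * L) := by ring
      _ ≤ τ ^ 2 * m * m :=
          mul_le_mul (n2.trans (by gcongr)) h3 (by positivity) (by positivity)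
      _ = _ := by ring
  refine ⟨n + J' * L + L, by omega, by omega,
    fun t => ω ((t - a0) / L) ((t - a0) % L), fun x' hx' => ?_⟩
  have hx : ∀ j < J', ∀ r < L, x' (a0 + j * L + r) = ω j r := by
    intro j hj r hr
    have : (j + 1) * L ≤ J' * L := Nat.mul_le_mul_right _ hj
    rw [hx' _ (by omega) (by rw [add_mul] at this; omega)]
    have e : a0 + j * L + r - a0 = r + j * L := by omega
    simp only [e]
    rw [Nat.add_mul_div_right _ _ hL, Nat.add_mul_mod_self_right, Nat.div_eq_of_lt hr,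
      Nat.mod_eq_of_lt hr, zero_add]
  constructor
  · intro i hi m hm1 hm2
    set J := min ((m - a0) / L) J' with hJ
    have j1 : J * L ≤ m - a0 :=
      (Nat.mul_le_mul_right _ (min_le_left _ _)).trans (Nat.div_mul_le_self _ _)
    have j2 : m ≤ a0 + J * L + 2 * L := by
      rcases min_choice ((m - a0) / L) J' with h | h
      · have := Nat.lt_div_mul_add (a := m - a0) hL
        rw [hJ, h]; omega
      · rw [hJ, h]; omega
    have j3 : J ≤ J' := min_le_right _ _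
    set u : ℕ → ℝ := fun t => Φ i (sh^[t] x') - ∫ z, Φ i z ∂μ with hu
    have b1 := prefix_le (u := u) (fun t => lu i _) (m := m) (m' := a0 + J * L) (r := 2 * L)
      (by omega) (by omega)
    have b2 := prefix_le (u := u) (fun t => lu i _) (m := a0) (m' := n) (r := L)
      (by omega) (by omega)
    have b3 := block_sum u a0 L J
    have b4 := fl (some ⟨i, hi⟩) J m hm1 (by omega)
    have b5 : |∑ j ∈ range J, ∑ r ∈ range L, u (a0 + j * L + r) -
        ∑ j ∈ range J, Z (some ⟨i, hi⟩) j (ω j)| ≤ J * K := by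
      rw [← sum_sub_distrib]
      refine (abs_sum_le_sum_abs _ _).trans ((sum_le_sum (g := fun _ => (K : ℝ))
        fun j hj => ?_).trans (by simp))
      rw [mem_range] at hj
      show |∑ r ∈ range L, u (a0 + j * L + r) -
        ∑ r ∈ range L, (Φ i (sh^[r] (ω j)) - ∫ z, Φ i z ∂μ)| ≤ K
      rw [← sum_sub_distrib]
      refine (abs_sum_le_sum_abs _ _).trans ?_
      calc _ ≤ ∑ r ∈ range L, (if L ≤ r + K then (1 : ℝ) else 0) * if 0 < K then 1 else 0 := by
            apply sum_le_sum; intro r hr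
            rw [mem_range] at hr
            simp only [hu, sub_sub_sub_cancel_right]
            by_cases h : L ≤ r + K ∧ 0 < K
            · rw [if_pos h.1, if_pos h.2, mul_one, abs_le]
              constructor <;> linarith [Φ0 i (sh^[a0 + j * L + r] x'), Φ1 i (sh^[r] (ω j)),
                Φ1 i (sh^[a0 + j * L + r] x'), Φ0 i (sh^[r] (ω j))]
            · rw [hK i hi (sh^[a0 + j * L + r] x') (sh^[r] (ω j)), sub_self, abs_zero]
              · positivity
              · intro t ht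
                rw [sh_iter, sh_iter, ← hx j (by omega) (t + r) (by omega)]
                congr 1; omega
        _ ≤ K := by
            rw [← sum_mul, ← sum_filter, sum_const, nsmul_eq_mul, mul_one]
            have : (range L).filter (fun r => L ≤ r + K) ⊆ Ico (L - K) L := by
              intro t; simp only [mem_filter, mem_range, mem_Ico]; omega
            have := card_le_card this
            rw [Nat.card_Ico] at this
            split_ifs
            · rw [mul_one]; exact_mod_cast this.trans (by omega)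
            · simp
    have b6 : |∑ j ∈ range J, ∫ ω, Z (some ⟨i, hi⟩) j ω ∂(κ j)| ≤ τ * m := by
      have e : ∀ j, ∫ ω, Z (some ⟨i, hi⟩) j ω ∂(κ j) = if J0 ≤ j then
          ex μ a ε L (Ψ i) (fun s => orb U β' s (U^[a0 + j * L] y0)) else 0 := by
        intro j
        show ∫ ω, Ψ i ω ∂(tilt μ a ε L (q j)) = _
        rw [int_tilt ha h0 h1 L (lq' j) (bΨ i)]
        simp only [hq]; split_ifs
        · rfl
        · rw [ex_zero, eΨ]
      simp only [e, sum_if]
      rcases le_or_gt J0 J with h | h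
      · refine (H1 i (mem_range.2 hi) a0 J0 J h fun j hj => ?_).trans ?_
        · have : (j + 1) * L ≤ J' * L := Nat.mul_le_mul_right _ (by omega)
          rw [add_mul] at this; omega
        · have h2 : (J0 : ℝ) * L ≤ m := by
            have : J0 * L ≤ m := (Nat.mul_le_mul_right _ h).trans (by omega)
            exact_mod_cast this
          calc τ ^ 2 * N = τ * (τ * N) := by ring
            _ ≤ τ * m := by gcongr; linarith
      · rw [Ico_eq_empty (by omega)]; simp only [sum_empty, abs_zero]; positivity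
    have b7 : (J : ℝ) * K ≤ τ * m := by
      have h3 : (J : ℝ) * L ≤ m := by exact_mod_cast j1.trans (by omega)
      calc (J : ℝ) * K ≤ J * (τ * L) := by gcongr
        _ = τ * (J * L) := by ring
        _ ≤ τ * m := by gcongr
    have b8 : τ * n ≤ τ * m := by gcongr
    have b9 : 4 * τ * m ≤ η * m := by gcongr
    push_cast at b1
    rw [abs_le] at b1 b2 b4 b5 b6 ⊢
    constructor <;> linarith [b1.1, b1.2, b2.1, b2.2, b4.1, b4.2, b5.1, b5.2, b6.1, b6.2]
  · set u : ℕ → ℝ := fun t => F (x' t) * ψ (U^[t] y0) with hu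
    have lu' : ∀ t, |u t| ≤ 1 := fun t => by
      rw [hu, abs_mul]; exact mul_le_one₀ (lF _) (abs_nonneg _) (lψ _)
    have b1 := sle (prefix_le lu' (m := n + J' * L + L) (m' := a0 + J' * L) (r := L)
      (by omega) (by omega))
    have b2 := sle (prefix_le lu' (m := a0) (m' := n) (r := L) (by omega) (by omega))
    have b3 := block_sum u a0 L J'
    have b4 := sle (fl none J' N (by omega) (by omega))
    have b5 : ∑ j ∈ range J', ∑ r ∈ range L, u (a0 + j * L + r) =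
        ∑ j ∈ range J', Z none j (ω j) := by
      apply sum_congr rfl; intro j hj
      apply sum_congr rfl; intro r hr
      simp only [hu]
      rw [hx j (mem_range.1 hj) r (mem_range.1 hr), sh_iter, zero_add, mul_comm,
        ← Function.iterate_add_apply, add_comm r]
    have e : ∀ j, ∫ ω, Z none j ω ∂(κ j) = W (a0 + j * L) +
        if j < J0 then -W (a0 + j * L) else 0 := by
      intro j
      show ∫ ω, ∑ r ∈ range L, ψ (U^[r] (U^[a0 + j * L] y0)) * F (sh^[r] ω 0)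
        ∂(tilt μ a ε L (q j)) = _
      have := this j
      rw [integral_finsetSum _ fun r _ => ((Bd.const _).mul (bFr r)).int _]
      simp only [integral_const_mul, int_tilt ha h0 h1 L (lq' j) (bFr _)]
      simp only [hq]
      by_cases h : J0 ≤ j
      · rw [if_pos h, if_neg (by omega), add_zero]
      · rw [if_neg h, if_pos (by omega), add_neg_cancel]
        apply sum_eq_zero; intro r _
        rw [ex_zero, int_shift hT (Φ := fun x => F (x 0)) (mF.comp (measurable_pi_apply 0)), eF,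
          mul_zero]
    have b6 : |∑ j ∈ range J', if j < J0 then -W (a0 + j * L) else 0| ≤ J0 * L := by
      rw [← sum_filter]
      refine (abs_sum_le_sum_abs _ _).trans ((sum_le_sum (g := fun _ => (L : ℝ))
        fun j _ => by rw [abs_neg]; exact lW _).trans ?_)
      rw [sum_const, nsmul_eq_mul]
      gcongr
      have : (range J').filter (fun j => j < J0) ⊆ range J0 := by
        intro t; simp only [mem_filter, mem_range]; omega
      simpa using card_le_card this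
    have b7 := sle b6
    simp only [e, sum_add_distrib] at b4
    have b8 : ((n + J' * L + L : ℕ) : ℝ) ≤ 2 * N := by exact_mod_cast (by omega)
    have b9 : γ / 4 * ((n + J' * L + L : ℕ) : ℝ) ≤ γ / 4 * (2 * N) := by gcongr
    have b10 : 12 * τ * N ≤ γ * N := by gcongr
    have b11 : 0 ≤ τ * N := by positivity
    refine b9.trans (le_trans ?_ (show s0 * (∑ t ∈ range (n + J' * L + L), u t -
      ∑ t ∈ range n, u t) ≤ _ from (le_abs_self _).trans (by rw [abs_mul, s1, one_mul])))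
    rw [b5] at b3
    have b12 : s0 * (∑ t ∈ range (a0 + J' * L), u t - ∑ t ∈ range a0, u t) =
      s0 * ∑ j ∈ range J', Z none j (ω j) := by rw [b3]
    nlinarith

end Pool.Agent.H12.Norm4
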