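import Pool.Agent.H12.Norm4

set_option autoImplicit false
set_option linter.unusedSectionVars false
open MeasureTheory Filter Topology Finset

namespace Pool.Agent.H12.Norm5
open Pool.Agent.H12.Avg Pool.Agent.H12.Join2 Pool.Agent.H12.Join3 Pool.Agent.H12.Join4
  Pool.Agent.H12.Norm2 Pool.Agent.H12.Norm3 Pool.Agent.H12.Norm4

lemma glue {Λ : Type*} (E : ℕ → (ℕ → Λ) → ℕ → ℝ) (P : (ℕ → Λ) → ℕ → ℝ)
    (hE : ∀ i x n, |E i x n| ≤ n) (hP : ∀ x n, |P x n| ≤ n) {c : ℝ} (hc : 0 < c)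
    (h : ∀ k : ℕ, ∃ nmin, ∀ n ≥ nmin, ∀ N0, ∃ N' ≥ N0, n ≤ N' ∧ ∃ x : ℕ → Λ, ∀ x' : ℕ → Λ,
      (∀ t, n ≤ t → t < N' → x' t = x t) →
      (∀ i < k, ∀ m, n ≤ m → m ≤ N' → |E i x' m - E i x' n| ≤ 1 / (k + 1) * m) ∧
      c * N' ≤ |P x' N' - P x' n|) :
    ∃ x, (∀ i, Tendsto (fun m : ℕ => (m : ℝ)⁻¹ * E i x m) atTop (𝓝 0)) ∧
      ¬ Tendsto (fun m : ℕ => (m : ℝ)⁻¹ * P x m) atTop (𝓝 0) := by
  choose nmin h using h
  choose nx h1 h2 xs h3 using h
  let f : ∀ k, {n // n ≥ nmin k} := fun k => Nat.rec ⟨nmin 0, le_rfl⟩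
    (fun k s => ⟨nx k s.1 s.2 (nmin (k + 1) + (k + 1) * (s.1 + 1)),
      le_trans (Nat.le_add_right _ _) (h1 _ _ _ _)⟩) k
  set n : ℕ → ℕ := fun k => (f k).1 with hn
  have hs : ∀ k, n (k + 1) = nx k (n k) (f k).2 (nmin (k + 1) + (k + 1) * (n k + 1)) :=
    fun k => rfl
  have g1 : ∀ k, (k + 1) * (n k + 1) ≤ n (k + 1) := fun k => by
    rw [hs]; exact le_trans (Nat.le_add_left _ _) (h1 _ _ _ _)
  have mono : StrictMono n := strictMono_nat_of_lt_succ fun k => by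
    have := g1 k; nlinarith
  set ys : ℕ → ℕ → Λ := fun k => xs k (n k) (f k).2 (nmin (k + 1) + (k + 1) * (n k + 1))
  have : ∀ t, ∃ v, ∀ k, n k ≤ t → t < n (k + 1) → v = ys k t := by
    intro t
    by_cases hk : ∃ k, n k ≤ t ∧ t < n (k + 1)
    · obtain ⟨k, k1, k2⟩ := hk
      refine ⟨ys k t, fun k' k3 k4 => ?_⟩
      have a1 : k < k' + 1 := mono.lt_iff_lt.1 (k1.trans_lt k4)
      have a2 : k' < k + 1 := mono.lt_iff_lt.1 (k3.trans_lt k2)
      rw [show k = k' by omega]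
    · exact ⟨ys 0 t, fun k k1 k2 => (hk ⟨k, k1, k2⟩).elim⟩
  choose x hx using this
  have H : ∀ k : ℕ, (∀ i < k, ∀ m, n k ≤ m → m ≤ n (k + 1) →
      |E i x m - E i x (n k)| ≤ 1 / (k + 1) * m) ∧
      c * n (k + 1) ≤ |P x (n (k + 1)) - P x (n k)| :=
    fun k => h3 k (n k) (f k).2 _ x fun t t1 t2 => hx t k t1 t2
  have g2 : ∀ k : ℕ, (n k : ℝ) ≤ 1 / (k + 1) * n (k + 1) := fun k => by
    rw [one_div, le_inv_mul_iff₀ (by positivity)]
    have : (k + 1) * n k ≤ n (k + 1) := le_trans (by nlinarith) (g1 k)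
    exact_mod_cast this
  refine ⟨x, fun i => ?_, fun hlim => ?_⟩
  · rw [Metric.tendsto_atTop]
    intro δ hδ
    obtain ⟨k0, hk0⟩ := exists_nat_gt (3 / δ)
    refine ⟨n (k0 + i + 2), fun m hm => ?_⟩
    obtain ⟨k, k1, k2, k3⟩ : ∃ k, k0 + i + 1 ≤ k ∧ n (k + 1) ≤ m ∧ m ≤ n (k + 2) := by
      induction m, hm using Nat.le_induction with
      | base => exact ⟨k0 + i + 1, le_rfl, le_rfl, mono.monotone (by omega)⟩
      | succ m _ ih =>
        obtain ⟨k, k1, k2, k3⟩ := ih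
        rcases k3.eq_or_lt with h | h
        · refine ⟨k + 1, by omega, show n (k + 2) ≤ _ by omega, show _ ≤ n (k + 3) from ?_⟩
          have := mono (show k + 2 < k + 3 by omega); omega
        · exact ⟨k, k1, by omega, h⟩
    have b1 := (H k).1 i (by omega) _ (mono.monotone (Nat.le_succ k)) le_rfl
    have b2 := (H (k + 1)).1 i (by omega) m k2 k3
    have b3 := hE i x (n k)
    have b4 := g2 k
    have hm0 : (0 : ℝ) < m := by
      have : 0 < n (k + 1) := lt_of_le_of_lt (Nat.zero_le _) (mono (Nat.lt_succ_self k))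
      exact_mod_cast this.trans_le k2
    have b5 : 1 / ((k : ℝ) + 1) * n (k + 1) ≤ 1 / (k + 1) * m := by gcongr
    have b6 : 1 / (((k + 1 : ℕ) : ℝ) + 1) * m ≤ 1 / (k + 1) * m := by
      gcongr; linarith
    have b7 : 3 * (1 / ((k : ℝ) + 1)) < δ := by
      rw [div_lt_iff₀' hδ] at hk0
      rw [mul_one_div, div_lt_iff₀' (by positivity)]
      have : (k0 : ℝ) ≤ k + 1 := by exact_mod_cast (by omega)
      nlinarith
    rw [Real.dist_eq, sub_zero, abs_mul, abs_of_pos (inv_pos.2 hm0), inv_mul_lt_iff₀ hm0]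
    have b8 := mul_lt_mul_of_pos_right b7 hm0
    rw [abs_le] at b1 b2 b3
    rw [abs_lt]
    constructor <;> nlinarith [b1.1, b1.2, b2.1, b2.2, b3.1, b3.2]
  · have l1 := (hlim.comp (mono.tendsto_atTop.comp (tendsto_add_atTop_nat 1))).abs
    have l2 := l1.add tendsto_one_div_add_atTop_nhds_zero_nat
    simp only [abs_zero, add_zero] at l2
    obtain ⟨k, hk⟩ := (l2.eventually (gt_mem_nhds hc)).exists
    have hm0 : (0 : ℝ) < n (k + 1) := by
      exact_mod_cast lt_of_le_of_lt (Nat.zero_le _) (mono (Nat.lt_succ_self k))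
    simp only [Function.comp_apply] at hk
    rw [abs_mul, abs_of_pos (inv_pos.2 hm0)] at hk
    have b1 := mul_lt_mul_of_pos_right hk hm0
    rw [add_mul, mul_comm _⁻¹, inv_mul_cancel_right₀ hm0.ne'] at b1
    have b2 := (H k).2.trans (abs_sub _ _)
    linarith [hP x (n k), g2 k]

variable {Y : Type*} [MeasurableSpace Y] [TopologicalSpace Y] [BorelSpace Y] [NormalSpace Y]
  {ν : Measure Y} [IsProbabilityMeasure ν] [ν.WeaklyRegular] {U : Y → Y} {y0 : Y} {l : Filter ℕ}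
  {β ψ : Y → ℝ} {Λ : Type*} [MeasurableSpace Λ] {μ : Measure (ℕ → Λ)} [IsProbabilityMeasure μ]
  {a : ℕ → (ℕ → Λ) → ℝ} {F : Λ → ℝ}

theorem main [l.NeBot] (hT : MeasurePreserving sh μ μ) (mF : Measurable F) {d e : ℕ → ℝ}
    (ha : Inn μ sh (fun x => F (x 0)) a d)
    (cU : Continuous U) (hU : MeasurePreserving U ν ν) (hl : l ≤ atTop)
    (hy : ∀ g : Y → ℝ, Continuous g →
      Tendsto (fun N : ℕ => (N : ℝ)⁻¹ * ∑ t ∈ range N, g (U^[t] y0)) l (𝓝 (∫ y, g y ∂ν)))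
    (hb : Inn ν U ψ (orb U β) e) (cψ : Continuous ψ)
    {Φ : ℕ → (ℕ → Λ) → ℝ} (mΦ : ∀ i, Measurable (Φ i)) (Φ0 : ∀ i z, 0 ≤ Φ i z)
    (Φ1 : ∀ i z, Φ i z ≤ 1) (wΦ : ∀ i, ∃ K, ∀ z z', (∀ t < K, z t = z' t) → Φ i z = Φ i z') :
    ∃ x : ℕ → Λ, (∀ i, Tendsto (fun m : ℕ => (m : ℝ)⁻¹ * ∑ t ∈ range m, Φ i (sh^[t] x)) atTop
      (𝓝 (∫ z, Φ i z ∂μ))) ∧
      ¬ Tendsto (fun m : ℕ => (m : ℝ)⁻¹ * ∑ t ∈ range m, F (x t) * ψ (U^[t] y0)) atTop (𝓝 0) := by
  obtain ⟨i, j, hij, C, hC, hlim⟩ := exists_shift ha hb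
  have hC' : 0 < |C| := abs_pos.2 hC
  set ε := min 1 (|C| / 4) with hε
  have h0 : 0 < ε := lt_min one_pos (by positivity)
  have h1 : ε ≤ 1 := min_le_left _ _
  have h2 : ε ≤ |C| / 4 := min_le_right _ _
  have eo : (fun s => orb U β (s + j)) = orb U fun y => β (U^[j] y) := by
    ext s y; simp only [orb, ← Function.iterate_add_apply, add_comm]
  have lF : ∀ s, |F s| ≤ 1 := fun s => ha.le fun _ => s
  obtain ⟨L0, hL0⟩ := eventually_atTop.1 (((cesaro_rev hlim).eventually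
    (Metric.ball_mem_nhds C (half_pos hC'))).and (eventually_gt_atTop 0))
  have I0 : ∀ i, 0 ≤ ∫ z, Φ i z ∂μ := fun i => integral_nonneg (Φ0 i)
  have bΦ : ∀ i, Bd (Φ i) := fun i => ⟨mΦ i, 1, fun z => abs_le.2 ⟨by linarith [Φ0 i z], Φ1 i z⟩⟩
  have I1 : ∀ i, ∫ z, Φ i z ∂μ ≤ 1 := fun i =>
    (integral_mono ((bΦ i).int μ) (integrable_const 1) (Φ1 i)).trans (by simp)
  have lu : ∀ i z, |Φ i z - ∫ z, Φ i z ∂μ| ≤ 1 := fun i z =>
    abs_le.2 ⟨by linarith [Φ0 i z, I1 i], by linarith [Φ1 i z, I0 i]⟩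
  obtain ⟨x, x1, x2⟩ := glue (fun i x m => ∑ t ∈ range m, (Φ i (sh^[t] x) - ∫ z, Φ i z ∂μ))
    (fun x m => ∑ t ∈ range m, F (x t) * ψ (U^[t] y0))
    (fun i x n => (sum_abs_le fun t => lu i _).trans_eq (mul_one _))
    (fun x n => (sum_abs_le (B := 1) fun t => by
      rw [abs_mul]; exact mul_le_one₀ (lF _) (abs_nonneg _) (hb.le _)).trans_eq (mul_one _))
    (c := ε * (|C| / 4) / 4) (by positivity)
    (fun k => phase hT (ha.md.shift i) mF lF ha.mean cU hU hl hy (eo ▸ hb.md.shift j) cψ hb.le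
      h0.le h1 (by positivity) (L0 := L0) (fun n hn => by
        obtain ⟨hn, hn0⟩ := hL0 n hn
        have est := avg_est hT hU ha hb hij h0.le h1 n hn0
        have hn' : (0 : ℝ) < n := by exact_mod_cast hn0
        rw [eo] at est
        simp only [mul_assoc (ε ^ _)]
        rw [Real.dist_eq] at hn
        generalize (n : ℝ)⁻¹ * ∑ t ∈ range n, ∑ k ∈ range (n - t), d (k + i) * e (k + j) = P
          at hn est
        have q1 : |C| / 2 ≤ |P| := by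
          have := abs_sub_abs_le_abs_sub C P
          rw [abs_sub_comm] at this; linarith
        rw [abs_sub_comm] at est
        have q2 := (abs_sub_abs_le_abs_sub _ _).trans est
        rw [abs_mul, abs_of_pos h0, abs_mul, abs_of_pos (inv_pos.2 hn')] at q2
        rw [← div_eq_inv_mul] at q2
        rw [← le_div_iff₀ hn']
        nlinarith) mΦ Φ0 Φ1 wΦ k (by positivity))
  refine ⟨x, fun i => ?_, x2⟩
  have := (x1 i).add_const (∫ z, Φ i z ∂μ)
  rw [zero_add] at this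
  refine this.congr' ?_
  filter_upwards [eventually_gt_atTop 0] with m hm
  have : (m : ℝ) ≠ 0 := by positivity
  rw [sum_sub_distrib, sum_const, card_range, nsmul_eq_mul]; field_simp; ring

end Pool.Agent.H12.Norm5
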