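import Pool.Agent.H12.Norm5

set_option autoImplicit false
set_option linter.unusedSectionVars false
open MeasureTheory Filter Topology Finset
open scoped Classical

namespace Pool.Agent.H12.Norm6
open Pool.Agent.H12.Avg Pool.Agent.H12.Join2 Pool.Agent.H12.Join3 Pool.Agent.H12.Join4
  Pool.Agent.H12.Join5 Pool.Agent.H12.Norm1 Pool.Agent.H12.Norm3

variable {Λ : Type} [MeasurableSpace Λ] [Countable Λ] [MeasurableSingletonClass Λ]

lemma not_det {μ : Measure (ℕ → Λ)} [IsProbabilityMeasure μ] (hT : MeasurePreserving sh μ μ)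
    (h : (⨆ (m : ℕ) (Q : (ℕ → Λ) → Fin m) (_ : Measurable Q), limsup (fun n : ℕ =>
      ENNReal.ofReal ((∑ w : Fin n → Fin m, Real.negMulLog
        (μ.real {x | ∀ i : Fin n, Q (sh^[i] x) = w i})) / n)) atTop) ≠ 0) :
    ∃ F : Finset Λ, ¬ Det μ (keep F) := by
  by_contra hc
  push Not at hc
  apply h
  simp only [ENNReal.iSup_eq_zero]
  intro m Q hQ
  apply le_antisymm _ zero_le
  apply ENNReal.le_of_forall_pos_le_add
  intro δ hδ _
  have hδ' : (0 : ℝ) < δ := hδ
  obtain ⟨C, hC⟩ := rate_small hT hc hQ (δ := δ / 4) (by positivity)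
  apply limsup_le_of_le
  · isBoundedDefault
  filter_upwards [tendsto_natCast_atTop_atTop.eventually_ge_atTop (2 * C / δ),
    eventually_gt_atTop 0] with n h1 h2
  have h3 : (0 : ℝ) < n := by exact_mod_cast h2
  rw [zero_add, ← ENNReal.ofReal_coe_nnreal]
  apply ENNReal.ofReal_le_ofReal
  rw [div_le_iff₀ hδ'] at h1
  rw [div_le_iff₀ h3]
  nlinarith [hC n]

lemma avg_set {μ : Measure (ℕ → Λ)} [IsProbabilityMeasure μ] {z : ℕ → Λ}
    (h : ∀ a, Tendsto (fun N : ℕ => (#{t ∈ range N | z t = a} : ℝ) / N) atTop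
      (𝓝 (μ.real {x | x 0 = a}))) {E : Set Λ} (hE : E.Finite ∨ Eᶜ.Finite) :
    Tendsto (fun N : ℕ => (N : ℝ)⁻¹ * ∑ t ∈ range N,
      (E.indicator (fun _ => (1 : ℝ)) (z t) - μ.real {x | x 0 ∈ E})) atTop (𝓝 0) := by
  have m0 : Measurable fun x : ℕ → Λ => x 0 := measurable_pi_apply 0
  have key : ∀ E : Set Λ, E.Finite → Tendsto (fun N : ℕ => (N : ℝ)⁻¹ * ∑ t ∈ range N,
      (E.indicator (fun _ => (1 : ℝ)) (z t) - μ.real {x | x 0 ∈ E})) atTop (𝓝 0) := by
    intro E hE
    lift E to Finset Λ using hE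
    have l := (tendsto_finsetSum E fun a _ => h a).sub_const (μ.real {x | x 0 ∈ (E : Set Λ)})
    have e : ∑ a ∈ E, μ.real {x : ℕ → Λ | x 0 = a} = μ.real {x | x 0 ∈ (E : Set Λ)} :=
      sum_measureReal_preimage_singleton E (fun a _ => m0 (measurableSet_singleton a))
        (fun _ _ => measure_ne_top _ _)
    rw [e, sub_self] at l
    refine l.congr' ?_
    filter_upwards [eventually_gt_atTop 0] with N hN
    have : (N : ℝ) ≠ 0 := by positivity
    rw [sum_sub_distrib, sum_const, card_range, nsmul_eq_mul, mul_sub, ← sum_div,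
      inv_mul_cancel_left₀ this, div_eq_inv_mul]
    congr 2
    simp only [card_filter, Nat.cast_sum, Nat.cast_ite, Nat.cast_one, Nat.cast_zero]
    rw [sum_comm]
    apply sum_congr rfl; intro t _
    by_cases ht : z t ∈ E <;> simp [ht]
  rcases hE with hE | hE
  · exact key E hE
  · have := (key _ hE).neg
    rw [neg_zero] at this
    refine this.congr fun N => ?_
    rw [← mul_neg, ← sum_neg_distrib]
    congr 1
    apply sum_congr rfl; intro t _
    have e : μ.real {x : ℕ → Λ | x 0 ∈ Eᶜ} = 1 - μ.real {x | x 0 ∈ E} :=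
      probReal_compl_eq_one_sub (s := {x : ℕ → Λ | x 0 ∈ E}) (m0 (Set.to_countable E).measurableSet)
    rw [e]
    by_cases ht : z t ∈ E <;> simp [ht]

lemma along {u : ℕ → ℝ} {S : Set ℕ} (hS : S.Infinite)
    (h : Tendsto (fun N : ℕ => (N : ℝ)⁻¹ * ∑ t ∈ range N, u (Nat.nth (· ∈ S) t)) atTop (𝓝 0)) :
    Tendsto (fun N : ℕ => (N : ℝ)⁻¹ * ∑ t ∈ range N, if t ∈ S then u t else 0) atTop (𝓝 0) := by
  have e : ∀ N, ∑ t ∈ range N, (if t ∈ S then u t else 0) =
      ∑ t ∈ range (Nat.count (· ∈ S) N), u (Nat.nth (· ∈ S) t) := by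
    intro N
    induction N with
    | zero => simp
    | succ N ih =>
      rw [sum_range_succ, ih, Nat.count_succ]
      split_ifs with hN
      · rw [sum_range_succ, Nat.nth_count (p := (· ∈ S)) hN]
      · simp
  have hc : Tendsto (Nat.count (· ∈ S)) atTop atTop :=
    tendsto_atTop_atTop_of_monotone (Nat.count_monotone _) fun b =>
      ⟨Nat.nth (· ∈ S) b, (Nat.count_nth_of_infinite hS b).ge⟩
  have l := (h.comp hc).abs
  rw [abs_zero] at l
  apply squeeze_zero_norm' _ l
  filter_upwards [hc.eventually_gt_atTop 0] with N hN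
  have h1 : (0 : ℝ) < Nat.count (· ∈ S) N := by exact_mod_cast hN
  have h2 : (Nat.count (· ∈ S) N : ℝ) ≤ N := by exact_mod_cast Nat.count_le _
  rw [e, Real.norm_eq_abs, Function.comp_apply, abs_mul, abs_mul, abs_inv, abs_inv,
    Nat.abs_cast, Nat.abs_cast]
  gcongr

theorem final {μ : Measure (ℕ → Λ)} [IsProbabilityMeasure μ] (hT : MeasurePreserving sh μ μ)
    {F0 : Finset Λ} (hμ : ¬ Det μ (keep F0)) {ν : Measure (ℕ → Bool)} [IsProbabilityMeasure ν]
    (hU : MeasurePreserving sh ν ν) {G0 : Finset Bool} (hν : ¬ Det ν (keep G0)) {S : Set ℕ}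
    (hS : S.Infinite) {N : ℕ → ℕ} (hN : StrictMono N)
    (hy : ∀ g : (ℕ → Bool) → ℝ, Continuous g → Tendsto (fun k => (N k : ℝ)⁻¹ *
      ∑ t ∈ range (N k), g (sh^[t] fun n => decide (n ∈ S))) atTop (𝓝 (∫ y, g y ∂ν))) :
    ∃ x : ℕ → Λ, (∀ (k : ℕ) (B : Fin k → Λ), Tendsto (fun N : ℕ =>
      (#{t ∈ range N | ∀ i : Fin k, x (t + i) = B i} : ℝ) / N) atTop
        (𝓝 (μ.real {z | ∀ i : Fin k, z i = B i}))) ∧
      ¬ ∀ a, Tendsto (fun N : ℕ => (#{t ∈ range N | x (Nat.nth (· ∈ S) t) = a} : ℝ) / N) atTop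
        (𝓝 (μ.real {x | x 0 = a})) := by
  obtain ⟨F, w, α, d, -, hF, ha⟩ := inn_of_not_det hT hμ
  obtain ⟨G, -, β, e, -, -, hb⟩ := inn_of_not_det hU hν
  have eo : (fun s x => β (sh^[s] (cod (keep G0) x))) = orb sh fun y => β (cod (keep G0) y) := by
    ext s y; simp only [orb]; congr 1; ext n; simp [sh_iter, cod]
  rw [eo] at hb
  have : Nonempty (Σ k, Fin k → Λ) := ⟨⟨0, Fin.elim0⟩⟩
  obtain ⟨en, hen⟩ := exists_surjective_nat (Σ k, Fin k → Λ)
  have mC : ∀ (k : ℕ) (B : Fin k → Λ), MeasurableSet {z : ℕ → Λ | ∀ i : Fin k, z i = B i} := by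
    intro k B
    simp only [Set.ofPred_forall]
    exact MeasurableSet.iInter fun i =>
      (measurable_pi_apply (X := fun _ : ℕ => Λ) i) (measurableSet_singleton _)
  have cs : Continuous (sh : (ℕ → Bool) → ℕ → Bool) := continuous_pi fun _ => continuous_apply _
  obtain ⟨x, x1, x2⟩ := Norm5.main (l := map N atTop) (y0 := fun n => decide (n ∈ S)) hT
    (measurable_of_countable F) ha cs hU hN.tendsto_atTop hy hb
    ((continuous_of_discreteTopology (f := G)).comp (continuous_apply 0))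
    (Φ := fun j => {z : ℕ → Λ | ∀ i : Fin (en j).1, z i = (en j).2 i}.indicator fun _ => 1)
    (fun j => (Bd.ind (mC _ _)).1) (fun j z => Set.indicator_nonneg (fun _ _ => zero_le_one) _)
    (fun j z => Set.indicator_le_self' (fun _ _ => zero_le_one) _)
    (fun j => ⟨(en j).1, fun z z' h => by
      have : ∀ i : Fin (en j).1, z i = z' i := fun i => h i i.2
      simp only [Set.indicator, Set.mem_ofPred_eq, this]⟩)
  have gen : ∀ (k : ℕ) (B : Fin k → Λ), Tendsto (fun N : ℕ =>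
      (#{t ∈ range N | ∀ i : Fin k, x (t + i) = B i} : ℝ) / N) atTop
        (𝓝 (μ.real {z | ∀ i : Fin k, z i = B i})) := by
    intro k B
    obtain ⟨j, hj⟩ := hen ⟨k, B⟩
    have := x1 j
    rw [hj, integral_indicator_const _ (mC _ _), smul_eq_mul, mul_one] at this
    refine this.congr fun N => ?_
    rw [div_eq_inv_mul, card_filter]
    push_cast
    congr 1
    apply sum_congr rfl; intro t _
    simp only [Set.indicator, Set.mem_ofPred_eq, sh_iter, add_comm t]
  refine ⟨x, gen, fun hsn => x2 ?_⟩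
  have l1 := avg_set (μ := μ) (z := x) (fun a => by simpa using gen 1 fun _ => a) (keep_fin F0 w)
  have l2 := avg_set hsn (keep_fin F0 w)
  simp only [Set.mem_ofPred_eq, ← hF] at l1 l2
  have l3 := (l1.const_mul (G false)).add
    ((along (u := fun t => F (x t)) hS l2).const_mul (G true - G false))
  simp only [mul_zero, add_zero] at l3
  refine l3.congr fun N => ?_
  rw [mul_left_comm, mul_left_comm (G true - G false), ← mul_add, mul_sum, mul_sum,
    ← sum_add_distrib]
  congr 1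
  apply sum_congr rfl; intro t _
  rw [sh_iter, zero_add]
  by_cases ht : t ∈ S <;> simp [ht] <;> ring

end Pool.Agent.H12.Norm6
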