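import Mathlib

/-! An abstract obstruction for a space of the form (separable) + (image of `L∞`) with a
complemented copy of `L₁[0,1]` to be a dual space. -/

open Set Metric

namespace Pool.Agent.H12.NotDual

/-- signs -/
def sg (b : Bool) : ℝ := if b then 1 else -1

variable {Y : Type*} [NormedAddCommGroup Y] [NormedSpace ℝ Y] {k : ℕ}

/-- all signed sums -/
def E (k : ℕ) : (Fin k → Y) →ₗ[ℝ] ((Fin k → Bool) → Y) where
  toFun y ε := ∑ i, sg (ε i) • y i
  map_add' y z := by funext ε; simp [Finset.sum_add_distrib]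
  map_smul' c y := by funext ε; simp [Finset.smul_sum, smul_comm c]

lemma sum_abs_le (φ : StrongDual ℝ Y) (y : Fin k → Y) : ∑ i, |φ (y i)| ≤ ‖φ‖ * ‖E k y‖ := by
  classical
  let ε : Fin k → Bool := fun i => decide (0 ≤ φ (y i))
  have : ∑ i, |φ (y i)| = φ (E k y ε) := by
    simp only [E, LinearMap.coe_mk, AddHom.coe_mk, map_sum, map_smul, smul_eq_mul]
    refine Finset.sum_congr rfl fun i _ => ?_
    by_cases h : 0 ≤ φ (y i)
    · simp [sg, ε, h, abs_of_nonneg h]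
    · simp [sg, ε, h, abs_of_neg (not_le.mp h)]
  rw [this]
  refine (le_abs_self _).trans ((φ.le_opNorm _).trans ?_)
  gcongr
  exact norm_le_pi_norm _ _

/-- a form of local reflexivity -/
lemma helly (φ : Fin k → StrongDual ℝ Y) (ψ : Fin k → (StrongDual ℝ Y →ₗ[ℝ] ℝ)) {K D : ℝ}
    (hK : 0 ≤ K) (hψ : ∀ (ε : Fin k → Bool) ξ, ∑ i, sg (ε i) * ψ i ξ ≤ K * ‖ξ‖) (hD : 0 ≤ D)
    (h : ∀ y : Fin k → Y, ∑ i, φ i (y i) ≤ D * ‖E k y‖) : ∑ i, ψ i (φ i) ≤ K * D := by
  classical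
  let F : (Fin k → Y) →ₗ[ℝ] ℝ := ∑ i, (φ i : Y →ₗ[ℝ] ℝ) ∘ₗ LinearMap.proj i
  have hF : ∀ y, F y = ∑ i, φ i (y i) := fun y => by simp [F]
  have h1 : F ∈ (LinearMap.ker (E k (Y := Y))).dualAnnihilator := by
    rw [Submodule.mem_dualAnnihilator]
    intro y hy
    have h2 := h y
    have h3 := h (-y)
    rw [← hF] at h2 h3
    rw [map_neg, map_neg, norm_neg] at h3
    rw [LinearMap.mem_ker.mp hy] at h2 h3
    simp only [norm_zero, mul_zero] at h2 h3
    linarith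
  rw [← LinearMap.range_dualMap_eq_dualAnnihilator_ker] at h1
  obtain ⟨G, hG⟩ := h1
  have hG' : ∀ y, G (E k y) = F y := fun y => by rw [← hG]; rfl
  obtain ⟨Λ, hΛ1, hΛ2⟩ := exists_extension_of_le_sublinear
    ⟨LinearMap.range (E k (Y := Y)), G.domRestrict _⟩ (fun z => D * ‖z‖)
    (fun c hc z => by rw [norm_smul, Real.norm_of_nonneg hc.le]; ring)
    (fun z w => by nlinarith [norm_add_le z w])
    (by rintro ⟨_, y, rfl⟩; exact (hG' y).le.trans (hF y ▸ h y))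
  have hΛ3 : ∀ z, ‖Λ z‖ ≤ D * ‖z‖ := fun z => by
    have := hΛ2 (-z)
    rw [map_neg, norm_neg] at this
    exact abs_le.mpr ⟨by linarith, hΛ2 z⟩
  let ξ : (Fin k → Bool) → StrongDual ℝ Y := fun ε =>
    (Λ ∘ₗ LinearMap.single ℝ (fun _ => Y) ε).mkContinuous D fun y => by
      simpa [Pi.norm_single] using hΛ3 (Pi.single ε y)
  have hsum : ∀ z : (Fin k → Bool) → Y, Λ z = ∑ ε, ξ ε (z ε) := fun z => by
    conv_lhs => rw [← Finset.univ_sum_single z]
    simp [ξ]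
  have hφ : ∀ i, φ i = ∑ ε, sg (ε i) • ξ ε := fun i => by
    ext y
    have h2 : Λ (E k (Pi.single i y)) = F (Pi.single i y) := (hΛ1 ⟨_, _, rfl⟩).trans (hG' _)
    rw [hF, Finset.sum_eq_single i (fun j _ hj => by simp [hj]) (by simp), hsum] at h2
    simp only [Pi.single_eq_same] at h2
    rw [← h2]
    simp only [FunLike.coe_sum, Finset.sum_apply, smul_apply]
    refine Finset.sum_congr rfl fun ε _ => ?_
    rw [← map_smul]
    congr 1
    show ∑ j, sg (ε j) • (Pi.single i y : Fin k → Y) j = _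
    rw [Finset.sum_eq_single i (fun j _ hj => by simp [hj]) (by simp), Pi.single_eq_same]
  have hξ : ∑ ε, ‖ξ ε‖ ≤ D := by
    refine le_of_forall_pos_le_add fun η hη => ?_
    let N : ℝ := Fintype.card (Fin k → Bool)
    have hN : 0 < N := by simp [N]
    have : ∀ ε, ∃ y : Y, ‖y‖ ≤ 1 ∧ ‖ξ ε‖ - η / N ≤ ξ ε y := fun ε => by
      by_cases h0 : ‖ξ ε‖ - η / N < 0
      · exact ⟨0, by simp, by simpa using h0.le⟩
      obtain ⟨y, h1, h2⟩ := (ξ ε).exists_lt_apply_of_lt_opNorm (r := ‖ξ ε‖ - η / N)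
        (by linarith [div_pos hη hN])
      rcases le_total 0 (ξ ε y) with h3 | h3
      · exact ⟨y, h1.le, by rw [Real.norm_of_nonneg h3] at h2; exact h2.le⟩
      · refine ⟨-y, by simpa using h1.le, ?_⟩
        rw [Real.norm_eq_abs, abs_of_nonpos h3] at h2
        simpa using h2.le
    choose z hz1 hz2 using this
    have h2 := Finset.sum_le_sum fun ε (_ : ε ∈ Finset.univ) => hz2 ε
    rw [← hsum, Finset.sum_sub_distrib] at h2
    have h3 : ∑ _ε : Fin k → Bool, η / N = η := by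
      rw [Finset.sum_const, Finset.card_univ, nsmul_eq_mul]; exact mul_div_cancel₀ _ hN.ne'
    have h4 : ‖z‖ ≤ 1 := (pi_norm_le_iff_of_nonneg zero_le_one).mpr hz1
    have h5 := hΛ2 z
    nlinarith
  calc ∑ i, ψ i (φ i) = ∑ ε, ∑ i, sg (ε i) * ψ i (ξ ε) := by
        rw [Finset.sum_comm]
        exact Finset.sum_congr rfl fun i _ => by rw [hφ i]; simp
    _ ≤ ∑ ε, K * ‖ξ ε‖ := Finset.sum_le_sum fun ε _ => hψ ε _
    _ ≤ K * D := by rw [← Finset.mul_sum]; gcongr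

theorem core {P U : Type*} [Preorder P] [Nonempty P] [NormedAddCommGroup U] [NormedSpace ℝ U]
    [TopologicalSpace.SeparableSpace U] (avg : P → StrongDual ℝ Y) {C K M : ℝ} (hK : 0 < K)
    (hM : 0 ≤ M) (hC : ∀ A, ‖avg A‖ ≤ C)
    (hahn : ∀ A y a, a < avg A y → ∃ B ≤ A, ∀ B' ≤ B, a ≤ avg B' y)
    (split : ∀ A k, ∃ (B : Fin k → P) (ψ : Fin k → (StrongDual ℝ Y →ₗ[ℝ] ℝ)), (∀ i, B i ≤ A) ∧
      (∀ i, ψ i (avg (B i)) = 1) ∧ ∀ (ε : Fin k → Bool) ξ, ∑ i, sg (ε i) * ψ i ξ ≤ K * ‖ξ‖)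
    (T : U →L[ℝ] StrongDual ℝ Y) (Z : Set (StrongDual ℝ Y))
    (orlicz : ∀ (n : ℕ) (ζ : Fin (n ^ 2) → StrongDual ℝ Y), (∀ i, ζ i ∈ Z) → ∀ y : Fin (n ^ 2) → Y,
      ∑ i, ζ i (y i) ≤ M * n * ‖E _ y‖)
    (cover : ∀ φ, ‖φ‖ ≤ C → ∃ u, ∃ ζ ∈ Z, φ = T u + ζ) : False := by
  have : Nonempty U := ⟨0⟩
  obtain ⟨u, hu⟩ := TopologicalSpace.exists_dense_seq U
  set η : ℝ := 1 / (8 * K * (‖T‖ + 1)) with hη
  have hη0 : 0 < η := by positivity
  have claim : ∀ (j : ℕ) (A : P), ∃ (B : P) (y : Y) (a : ℝ), B ≤ A ∧ (∀ B' ≤ B, a ≤ avg B' y) ∧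
      ∀ w, ∀ ζ ∈ Z, ‖w - u j‖ ≤ η → (T w + ζ) y < a := by
    intro j A
    by_contra hc
    push Not at hc
    obtain ⟨n, hn⟩ := exists_nat_gt (4 * K * (‖T (u j)‖ + M) + 1)
    have hn1 : (1 : ℝ) ≤ n := by
      have : 0 ≤ 4 * K * (‖T (u j)‖ + M) := by positivity
      linarith
    obtain ⟨B, ψ, hB, hψ1, hψ2⟩ := split A (n ^ 2)
    have h1 : ¬ ∀ y : Fin (n ^ 2) → Y, ∑ i, avg (B i) (y i) ≤ n ^ 2 / (2 * K) * ‖E _ y‖ := fun h => by
      have := helly _ ψ hK.le hψ2 (by positivity) h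
      simp only [hψ1, Finset.sum_const, Finset.card_univ, Fintype.card_fin, nsmul_eq_mul] at this
      have e : K * (n ^ 2 / (2 * K)) = (n : ℝ) ^ 2 / 2 := by field_simp
      rw [e] at this
      push_cast at this
      nlinarith
    push Not at h1
    obtain ⟨y, hy⟩ := h1
    set N := ‖E _ y‖ with hN
    have hle : ∀ (φ : StrongDual ℝ Y) i, φ (y i) ≤ ‖φ‖ * N := fun φ i =>
      (le_abs_self _).trans ((Finset.single_le_sum (f := fun i => |φ (y i)|)
        (fun _ _ => abs_nonneg _) (Finset.mem_univ i)).trans (sum_abs_le φ y))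
    have hN0 : 0 < N := by
      refine (norm_nonneg _).lt_of_ne fun h => ?_
      have : ∑ i, avg (B i) (y i) ≤ 0 := Finset.sum_nonpos fun i _ => by
        have := hle (avg (B i)) i
        rwa [hN, ← h, mul_zero] at this
      rw [hN, ← h] at hy
      linarith
    have h2 : ∀ i, ∃ w, ∃ ζ ∈ Z, ‖w - u j‖ ≤ η ∧ avg (B i) (y i) - N / (8 * K) ≤ (T w + ζ) (y i) := by
      intro i
      obtain ⟨B', h1, h2⟩ := hahn (B i) (y i) (avg (B i) (y i) - N / (8 * K))
        (by linarith [show 0 < N / (8 * K) by positivity])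
      exact hc B' _ _ (h1.trans (hB i)) h2
    choose w ζ hζ hw h3 using h2
    have h4 : ∀ i, avg (B i) (y i) ≤ T (u j) (y i) + ζ i (y i) + N / (4 * K) := fun i => by
      have h5 := hle (T (w i - u j)) i
      have h6 : ‖T (w i - u j)‖ ≤ 1 / (8 * K) := by
        calc _ ≤ ‖T‖ * ‖w i - u j‖ := T.le_opNorm _
          _ ≤ (‖T‖ + 1) * η := by gcongr; exacts [by linarith, hw i]
          _ = _ := by rw [hη]; field_simp
      have h7 := h3 i
      have h8 : ‖T (w i - u j)‖ * N ≤ 1 / (8 * K) * N := by gcongr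
      have e : N / (4 * K) = N / (8 * K) + 1 / (8 * K) * N := by field_simp; ring
      rw [map_sub, sub_apply] at h5
      rw [add_apply] at h7
      rw [map_sub] at h8
      linarith
    have h5 := Finset.sum_le_sum fun i (_ : i ∈ Finset.univ) => h4 i
    rw [Finset.sum_add_distrib, Finset.sum_add_distrib] at h5
    have h6 := orlicz n ζ hζ y
    have h7 : ∑ i, T (u j) (y i) ≤ ‖T (u j)‖ * N :=
      (Finset.sum_le_sum fun i _ => le_abs_self _).trans (sum_abs_le _ y)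
    simp only [Finset.sum_const, Finset.card_univ, Fintype.card_fin, nsmul_eq_mul] at h5
    push_cast at h5
    have h8 : (n : ℝ) ^ 2 / (4 * K) * N < (‖T (u j)‖ + M * n) * N := by
      have e : (n : ℝ) ^ 2 / (2 * K) * N = n ^ 2 / (4 * K) * N + n ^ 2 * (N / (4 * K)) := by
        field_simp; ring
      linarith
    have h9 := lt_of_mul_lt_mul_right h8 hN0.le
    rw [div_lt_iff₀ (by positivity)] at h9
    have h10 : 4 * K * ‖T (u j)‖ * 1 ≤ 4 * K * ‖T (u j)‖ * n := by gcongr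
    nlinarith
  choose f y a hf1 hf2 hf3 using claim
  let A : ℕ → P := fun n => Nat.rec (Classical.arbitrary P) f n
  have hA : Antitone A := antitone_nat_of_succ_le fun n => hf1 n (A n)
  obtain ⟨φ, hφ1, hφ2⟩ := (WeakDual.isCompact_closedBall (0 : StrongDual ℝ Y) C).inter_iInter_nonempty
    (fun j : ℕ => {φ : WeakDual ℝ Y | a j (A j) ≤ φ (y j (A j))})
    (fun j => isClosed_le continuous_const (WeakDual.eval_continuous _)) fun s => by
      refine ⟨StrongDual.toWeakDual (avg (A (s.sup id + 1))), by simpa using hC _, ?_⟩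
      simp only [mem_iInter]
      exact fun j hj => hf2 j (A j) _ (hA (Nat.succ_le_succ (Finset.le_sup (f := id) hj)))
  obtain ⟨w, ζ, hζ, e⟩ := cover (WeakDual.toStrongDual φ) (by simpa using hφ1)
  obtain ⟨j, hj⟩ := hu.exists_dist_lt w hη0
  have h1 := hf3 j (A j) w ζ hζ (by rw [← dist_eq_norm]; exact hj.le)
  rw [← e] at h1
  exact absurd (mem_iInter.mp hφ2 j) (not_le.mpr h1)

end Pool.Agent.H12.NotDual
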