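import Mathlib

/-! Random-map representation of probabilistic cellular automata and a criterion for ergodicity. -/

open MeasureTheory ProbabilityTheory Set Filter Topology
open scoped ENNReal

namespace Pool.Agent.H12.PCA

section
variable {X C : Type} [MeasurableSpace X] [MeasurableSpace C] {T : X × C → X}
  (K : Measure C) [IsProbabilityMeasure K]

/-- trajectories -/
def traj (T : X × C → X) (x : X) : ℕ → (ℕ → C) → X
  | 0, _ => x
  | n + 1, ω => T (traj T x n ω, ω n)

lemma traj_meas (hT : Measurable T) (x : X) (n : ℕ) : Measurable (traj T x n) := by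
  induction n with
  | zero => exact measurable_const
  | succ n ih => exact hT.comp (ih.prodMk (measurable_pi_apply n))

lemma law (hT : Measurable T) (x : X) (n : ℕ) : (fun m => (m.prod K).map T)^[n] (Measure.dirac x) =
    (Measure.infinitePi fun _ : ℕ => K).map (traj T x n) := by
  induction n with
  | zero => simp [traj]
  | succ n ih =>
    obtain ⟨c, -⟩ := nonempty_of_measure_ne_zero (μ := K) (s := univ) (by simp)
    have h1 : ∀ n, DependsOn (traj T x n) (Finset.range n) := fun n => by
      induction n with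
      | zero => exact fun _ _ _ => rfl
      | succ n ih =>
        intro y z h
        rw [traj, traj, h n (by simp), ih fun i hi => h i (by simp at hi ⊢; omega)]
    have h2 := ((iIndepFun_infinitePi (P := fun _ : ℕ => K) (X := fun _ a => a)
      fun _ => measurable_id).indepFun_finset (Finset.range n) {n} (by simp) (by fun_prop)).comp
        ((traj_meas hT x n).comp (measurable_updateFinset (x := fun _ => c)))
        (measurable_pi_apply ⟨n, by simp⟩)
    have h3 : IndepFun (traj T x n) (fun ω => ω n) (Measure.infinitePi fun _ : ℕ => K) := by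
      convert h2 using 1
      · exact funext fun ω => h1 n fun i hi => by
          simp [Function.updateFinset, Finset.mem_coe.mp hi]
      · rfl
    have h4 := (indepFun_iff_map_prod_eq_prod_map_map (traj_meas hT x n).aemeasurable
      (measurable_pi_apply n).aemeasurable).mp h3
    rw [Measure.infinitePi_map_eval] at h4
    rw [Function.iterate_succ_apply', ih, ← h4, Measure.map_map hT
      ((traj_meas hT x n).prodMk (measurable_pi_apply n))]
    rfl

/-- action on functions -/
noncomputable def P (T : X × C → X) (f : X → ℝ≥0∞) (x : X) : ℝ≥0∞ := ∫⁻ c, f (T (x, c)) ∂K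

lemma P_meas (hT : Measurable T) {f : X → ℝ≥0∞} (hf : Measurable f) (n : ℕ) :
    Measurable ((P K T)^[n] f) := by
  induction n with
  | zero => exact hf
  | succ n ih =>
    rw [Function.iterate_succ_apply']
    exact (ih.comp hT).lintegral_prod_right'

lemma link (hT : Measurable T) {f : X → ℝ≥0∞} (hf : Measurable f) (n : ℕ) (μ : Measure X) :
    ∫⁻ x, f x ∂(fun m => (m.prod K).map T)^[n] μ = ∫⁻ x, (P K T)^[n] f x ∂μ := by
  induction n generalizing μ with
  | zero => rfl
  | succ n ih =>
    rw [Function.iterate_succ_apply, ih, lintegral_map (P_meas K hT hf n) hT,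
      lintegral_prod (fun a => (P K T)^[n] f (T a)) ((P_meas K hT hf n).comp hT).aemeasurable,
      Function.iterate_succ_apply']
    rfl

lemma P_traj (hT : Measurable T) {f : X → ℝ≥0∞} (hf : Measurable f) (n : ℕ) (x : X) :
    (P K T)^[n] f x = ∫⁻ ω, f (traj T x n ω) ∂Measure.infinitePi fun _ : ℕ => K := by
  rw [← lintegral_dirac' x (P_meas K hT hf n), ← link K hT hf, law K hT,
    lintegral_map hf (traj_meas hT x n)]

lemma bind_eq (hT : Measurable T) (ν : Measure X) :
    (ν.bind fun x => K.map fun c => T (x, c)) = (ν.prod K).map T := by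
  have h2 : ∀ s, MeasurableSet s → ∀ x, (K.map fun c => T (x, c)) s = K (Prod.mk x ⁻¹' (T ⁻¹' s)) :=
    fun s hs x => Measure.map_apply (hT.comp measurable_prodMk_left) hs
  refine Measure.ext fun s hs => ?_
  rw [Measure.bind_apply hs (Measure.measurable_of_measurable_coe _ fun s hs => by
    simp only [h2 s hs]; exact measurable_measure_prodMk_left (hT hs)).aemeasurable,
    Measure.map_apply hT hs, Measure.prod_apply (hT hs)]
  simp only [h2 s hs]

end

variable {ι S : Type} [Countable ι] [Finite S] [MeasurableSpace S] [TopologicalSpace S]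
  [DiscreteTopology S] [BorelSpace S]

lemma clopen (D : Finset ι) (w : ι → S) : IsClopen {x : ι → S | ∀ i ∈ D, x i = w i} := by
  rw [show {x : ι → S | ∀ i ∈ D, x i = w i} = ⋂ i ∈ D, (fun x => x i) ⁻¹' {w i} by ext; simp]
  exact isClopen_biInter_finset fun i _ => (isClopen_discrete {w i}).preimage (continuous_apply i)

lemma erg {Φ : ProbabilityMeasure (ι → S) → ProbabilityMeasure (ι → S)} (hΦ : Continuous Φ)
    (μ₀ : ProbabilityMeasure (ι → S)) (h : ∀ (D : Finset ι) (w : ι → S), ∀ ε > 0, ∀ᶠ t in atTop,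
      ∀ μ ν, (Φ^[t] μ).toMeasure {x | ∀ i ∈ D, x i = w i} ≤
        (Φ^[t] ν).toMeasure {x | ∀ i ∈ D, x i = w i} + ε) :
    ∃ π, Φ π = π ∧ (∀ ν, Φ ν = ν → ν = π) ∧ ∀ μ, Tendsto (fun t => Φ^[t] μ) atTop (𝓝 π) := by
  classical
  obtain ⟨π, -, h1⟩ := isCompact_univ.ultrafilter_le_nhds' ((hyperfilter ℕ).map
    fun t => Φ^[t] μ₀) univ_mem
  have h2 : ∀ μ, Tendsto (fun t => Φ^[t] μ) atTop (𝓝 π) := fun μ => by
    refine IsPiSystem.tendsto_probabilityMeasure_of_tendsto_of_mem
      (S := {s | ∃ (D : Finset ι) (w : ι → S), s = {x | ∀ i ∈ D, x i = w i}}) ?_ ?_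
      (fun u hu x hx => ?_) ?_
    · rintro _ ⟨D, w, rfl⟩ _ ⟨D', w', rfl⟩ ⟨z, h1, h2⟩
      refine ⟨D ∪ D', z, Set.ext fun x => ⟨fun hx i hi => ?_, fun hx => ⟨fun i hi =>
        (hx i (by simp [hi])).trans (h1 i hi), fun i hi => (hx i (by simp [hi])).trans (h2 i hi)⟩⟩⟩
      rcases Finset.mem_union.mp hi with hi | hi
      exacts [(hx.1 i hi).trans (h1 i hi).symm, (hx.2 i hi).trans (h2 i hi).symm]
    · rintro _ ⟨D, w, rfl⟩
      exact (clopen D w).isOpen.measurableSet
    · obtain ⟨I, v, h1, h2⟩ := isOpen_pi_iff.mp hu x hx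
      exact ⟨_, ⟨I, x, rfl⟩, set_pi_mem_nhds I.finite_toSet (s := fun i => {x i}) fun _ _ => by
        simp, fun y hy => h2 fun i hi => hy i hi ▸ (h1 i hi).2⟩
    · rintro _ ⟨D, w, rfl⟩
      have h3 := ProbabilityMeasure.tendsto_measure_of_null_frontier_of_tendsto'
        (show Tendsto (fun t => Φ^[t] μ₀) (hyperfilter ℕ : Filter ℕ) (𝓝 π) from h1)
        (E := {x : ι → S | ∀ i ∈ D, x i = w i})
        (by simp [clopen D w])
      refine (ENNReal.tendsto_toNNReal (measure_ne_top _ _)).comp
        ((ENNReal.tendsto_nhds (measure_ne_top _ _)).mpr fun ε hε => (h D w ε hε).mono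
          fun t ht => ?_)
      have h4 : ∀ᶠ s in (hyperfilter ℕ : Filter ℕ), Φ^[s] μ₀ = Φ^[t] (Φ^[s - t] μ₀) :=
        (hyperfilter_le_cofinite.trans Nat.cofinite_eq_atTop.le) ((eventually_ge_atTop t).mono
          fun s hs => by rw [← Function.iterate_add_apply, add_tsub_cancel_of_le hs])
      exact ⟨tsub_le_iff_right.mpr (le_of_tendsto h3 (h4.mono fun s hs => by rw [hs]; exact ht _ _)),
        ge_of_tendsto (h3.add_const ε) (h4.mono fun s hs => by rw [hs]; exact ht _ _)⟩
  refine ⟨π, tendsto_nhds_unique ((hΦ.tendsto π).comp (h2 μ₀)) (((tendsto_add_atTop_iff_nat 1).mpr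
    (h2 μ₀)).congr fun t => Function.iterate_succ_apply' _ _ _), fun ν hν => tendsto_nhds_unique
      (by simp only [Function.iterate_fixed hν]; exact tendsto_const_nhds) (h2 ν), h2⟩

end Pool.Agent.H12.PCA
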