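import Mathlib

/-! Pseudo-Riemannian geometry on a manifold modelled on a normed space `E`, written in charts. -/

open scoped Manifold ContDiff

namespace Pool.Agent.H12.PR

variable {E : Type} [NormedAddCommGroup E] [NormedSpace ℝ E]
  {M : Type} [TopologicalSpace M] [ChartedSpace E M]

/-- Fields of bilinear forms on the tangent spaces. -/
abbrev Form (E : Type) [NormedAddCommGroup E] [NormedSpace ℝ E] (M : Type) [TopologicalSpace M]
    [ChartedSpace E M] : Type :=
  (x : M) → TangentSpace 𝓘(ℝ, E) x →ₗ[ℝ] TangentSpace 𝓘(ℝ, E) x →ₗ[ℝ] ℝ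

/-- The tangent vector at `e⁻¹ y` with coordinates `u` in the chart `e`. -/
noncomputable def push (e : OpenPartialHomeomorph M E) (y u : E) :
    TangentSpace 𝓘(ℝ, E) (e.symm y) :=
  mfderiv 𝓘(ℝ, E) 𝓘(ℝ, E) e.symm y ((NormedSpace.fromTangentSpace y).symm u)

/-- The coordinates in the chart `e` of a tangent vector at `x`. -/
noncomputable def coord (e : OpenPartialHomeomorph M E) (x : M) (v : TangentSpace 𝓘(ℝ, E) x) : E :=
  NormedSpace.fromTangentSpace (e x) (mfderiv 𝓘(ℝ, E) 𝓘(ℝ, E) e x v)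

/-- The component `g(u, v)` of `g` in the chart `e`, as a function of the point `y`. -/
noncomputable def gLoc (g : Form E M) (e : OpenPartialHomeomorph M E) (u v y : E) : ℝ :=
  g (e.symm y) (push e y u) (push e y v)

/-- Christoffel symbol of the first kind `g(∇_u v, w)` in the chart `e` at the point `y`. -/
noncomputable def chr (g : Form E M) (e : OpenPartialHomeomorph M E) (y u v w : E) : ℝ :=
  (fderiv ℝ (gLoc g e v w) y u + fderiv ℝ (gLoc g e u w) y v - fderiv ℝ (gLoc g e u v) y w) / 2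

/-- A smooth pseudo-Riemannian metric: symmetric, nondegenerate, smooth in every chart. -/
def IsMetric (g : Form E M) : Prop :=
  (∀ x u v, g x u v = g x v u) ∧ (∀ x u, (∀ v, g x u v = 0) → u = 0) ∧
    ∀ e ∈ atlas E M, ∀ u v, ContDiffOn ℝ ∞ (gLoc g e u v) e.target

/-- A vector field in the chart `e`. -/
noncomputable def vLoc (V : (x : M) → TangentSpace 𝓘(ℝ, E) x) (e : OpenPartialHomeomorph M E)
    (y : E) : E :=
  coord e (e.symm y) (V (e.symm y))

/-- A smooth vector field that is parallel for the Levi-Civita connection of `g`. -/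
def ParallelVec (g : Form E M) (V : (x : M) → TangentSpace 𝓘(ℝ, E) x) : Prop :=
  ∀ e ∈ atlas E M, ContDiffOn ℝ ∞ (vLoc V e) e.target ∧ ∀ y ∈ e.target, ∀ u w,
    gLoc g e (fderiv ℝ (vLoc V e) y u) w y + chr g e y u (vLoc V e y) w = 0

/-- A `(1,1)`-tensor field applied to the constant field `v` of the chart `e`. -/
noncomputable def aLoc (A : (x : M) → TangentSpace 𝓘(ℝ, E) x →ₗ[ℝ] TangentSpace 𝓘(ℝ, E) x)
    (e : OpenPartialHomeomorph M E) (v y : E) : E :=
  coord e (e.symm y) (A (e.symm y) (push e y v))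

/-- A smooth `(1,1)`-tensor field that is parallel: `∇_u (A v) = A (∇_u v)`, where `c` stands for
`∇_u v`. -/
def ParallelEnd (g : Form E M)
    (A : (x : M) → TangentSpace 𝓘(ℝ, E) x →ₗ[ℝ] TangentSpace 𝓘(ℝ, E) x) : Prop :=
  ∀ e ∈ atlas E M, (∀ v, ContDiffOn ℝ ∞ (aLoc A e v) e.target) ∧ ∀ y ∈ e.target, ∀ u v c,
    (∀ w, gLoc g e c w y = chr g e y u v w) → ∀ w,
      gLoc g e (fderiv ℝ (aLoc A e v) y u) w y + chr g e y u (aLoc A e v y) w
        = gLoc g e (aLoc A e c y) w y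

/-- The pull-back of `g` along `π`. -/
noncomputable def pull {N : Type} [TopologicalSpace N] [ChartedSpace E N] (g : Form E M)
    (π : N → M) : Form E N :=
  fun x => (g (π x)).compl₁₂ (mfderiv 𝓘(ℝ, E) 𝓘(ℝ, E) π x).toLinearMap
    (mfderiv 𝓘(ℝ, E) 𝓘(ℝ, E) π x).toLinearMap

/-- An affinely parametrised geodesic defined on the whole line. -/
def IsGeodesic (g : Form E M) (γ : ℝ → M) : Prop :=
  Continuous γ ∧ ∀ e ∈ atlas E M, ∀ t, γ t ∈ e.source → ContDiffAt ℝ 2 (e ∘ γ) t ∧ ∀ w,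
    gLoc g e (deriv (deriv (e ∘ γ)) t) w (e (γ t)) +
      chr g e (e (γ t)) (deriv (e ∘ γ) t) (deriv (e ∘ γ) t) w = 0

/-- The velocity of a curve, as a point of the tangent bundle. -/
noncomputable def vel (γ : ℝ → M) (t : ℝ) : TangentBundle 𝓘(ℝ, E) M :=
  ⟨γ t, mfderiv 𝓘(ℝ, ℝ) 𝓘(ℝ, E) γ t ((NormedSpace.fromTangentSpace t).symm 1)⟩

end Pool.Agent.H12.PR
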