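import Pool.Agent.H12.ZeroFree

/-! Zeros of the partial sums of a zero-free entire function. -/

open Complex Metric Set Filter Topology Asymptotics

namespace Pool.Agent.H12.PartialSums
open Pool.Agent.H12.ZeroFree

variable {a : ℕ → ℂ} {f : ℂ → ℂ}

/-- partial sum with `n` terms -/
noncomputable def S (a : ℕ → ℂ) (n : ℕ) (z : ℂ) : ℂ := ∑ k ∈ Finset.range n, a k * z ^ k

lemma S_diff (n : ℕ) : Differentiable ℂ (S a n) := by unfold S; fun_prop

lemma S_succ (n : ℕ) (z : ℂ) : S a (n + 1) z = S a n z + a n * z ^ n := Finset.sum_range_succ _ _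

lemma S_zero (n : ℕ) : S a (n + 1) 0 = a 0 := by simp [S, Finset.sum_range_succ']

lemma f_zero (h : ∀ z : ℂ, HasSum (fun k : ℕ => a k * z ^ k) (f z)) : f 0 = a 0 := by
  refine (h 0).unique ?_
  have := hasSum_single (f := fun k : ℕ => a k * (0 : ℂ) ^ k) 0 fun k hk => by simp [hk]
  simpa using this

lemma tailO (h : ∀ z : ℂ, HasSum (fun k : ℕ => a k * z ^ k) (f z)) {r : ℝ} {m : ℕ} (hr : 0 < r)
    (hs : ∀ k, m + 1 ≤ k → ‖a k‖ * r ^ k ≤ 1) :
    (fun z => f z - S a (m + 1) z) =O[𝓝 0] fun z : ℂ => ‖z‖ ^ m := by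
  refine IsBigO.of_bound (1 / r ^ m) ?_
  filter_upwards [closedBall_mem_nhds (0 : ℂ) (half_pos hr)] with z hz
  rw [mem_closedBall_zero_iff] at hz
  have hq : ‖z‖ / r ≤ 1 / 2 := by rw [div_le_iff₀ hr]; linarith
  refine (tail h (q := ‖z‖ / r) (by positivity) (by linarith) hs z (by field_simp; rfl)).trans ?_
  rw [div_le_iff₀ (by linarith), pow_succ, div_pow, norm_pow, norm_norm]
  have : 0 ≤ ‖z‖ ^ m / r ^ m := by positivity
  have e : 1 / r ^ m * ‖z‖ ^ m = ‖z‖ ^ m / r ^ m := by ring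
  rw [e]
  nlinarith

lemma step_core (h : ∀ z : ℂ, HasSum (fun k : ℕ => a k * z ^ k) (f z)) (h0 : ∀ z, f z ≠ 0)
    (H : ∀ n z, S a (n + 1) z = 0 → 1 ≤ ‖f z‖) {x r : ℝ} {m : ℕ} (hr : 0 < r) (hx : 133 ≤ x)
    (hL1 : ‖a 0‖ ≤ Real.exp x / 4) (hL2 : ‖a 0‖⁻¹ ≤ Real.exp x)
    (hc : 76 * x ^ 10 * Real.exp (-x) ≤ 1 / 2) (hm1 : x ^ 4 ≤ m) (hm2 : (m : ℝ) ≤ 16 * x ^ 4)
    (hbig : 1 ≤ ‖a m‖ * r ^ m) (hs : ∀ k, m + 1 ≤ k → ‖a k‖ * r ^ k ≤ 1) (k : ℕ) (hk : x ^ 4 ≤ k) :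
    ‖a k‖ * (r * Real.exp (-(6 / x))) ^ k ≤ 1 := by
  have hx0 : 0 < x := by linarith
  have hx1 : 1 ≤ x := by linarith
  have hf := diff h
  have ha0 : a 0 ≠ 0 := f_zero h ▸ h0 0
  have hc0 : 0 < ‖a 0‖ := norm_pos_iff.mpr ha0
  have p1 : ∀ i j : ℕ, i ≤ j → x ^ i ≤ x ^ j := fun i j hij => pow_le_pow_right₀ hx1 hij
  have p14 : x ≤ x ^ 4 := by simpa using p1 1 4 (by norm_num)
  have p12 : x ≤ x ^ 2 := by simpa using p1 1 2 (by norm_num)
  have p17 : x ≤ x ^ 7 := by simpa using p1 1 7 (by norm_num)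
  obtain ⟨n, rfl⟩ : ∃ n, m = n + 1 := Nat.exists_eq_succ_of_ne_zero (by
    rintro rfl; simp only [Nat.cast_zero] at hm1; linarith)
  set θ : ℝ := (x ^ 3)⁻¹ with hθ
  have hθ0 : 0 < θ := by positivity
  have hθ1 : θ ≤ 1 := inv_le_one_of_one_le₀ (one_le_pow₀ hx1)
  set q := Real.exp (-θ) with hq
  have hq0 : 0 < q := Real.exp_pos _
  have hq1 : q < 1 := Real.exp_lt_one_iff.mpr (by linarith)
  have hq2 : θ / 2 ≤ 1 - q := by
    have h3 := Real.add_one_le_exp θ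
    have h4 : q * Real.exp θ = 1 := by rw [hq, ← Real.exp_add]; simp
    nlinarith
  have hθm : x ≤ θ * (n + 1 : ℕ) ∧ θ * (n + 1 : ℕ) ≤ 16 * x := by
    have e : θ * x ^ 4 = x := by rw [hθ]; field_simp
    constructor <;> nlinarith
  have hqm : q ^ (n + 1) ≤ Real.exp (-x) := by
    rw [hq, ← Real.exp_nat_mul, Real.exp_le_exp]; linarith [hθm.1]
  have hqm' : Real.exp (-(16 * x)) ≤ q ^ (n + 1) := by
    rw [hq, ← Real.exp_nat_mul, Real.exp_le_exp]; linarith [hθm.2]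
  have hex := Real.exp_pos (-x)
  have le1 : r * q * q ≤ r * q := mul_le_of_le_one_right (by positivity) hq1.le
  -- (1)
  have t1 : ∀ z : ℂ, ‖z‖ ≤ r * q → ‖f z - S a (n + 1 + 1) z‖ ≤ 1 / 4 := fun z hz => by
    refine (tail h hq0.le hq1 hs z hz).trans ?_
    rw [div_le_iff₀ (by linarith), pow_succ]
    have h3 : q ^ (n + 1) * q ≤ Real.exp (-x) := (mul_le_of_le_one_right (by positivity) hq1.le).trans hqm
    have h4 : x ^ 3 * Real.exp (-x) ≤ x ^ 10 * Real.exp (-x) := by gcongr; norm_num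
    have h5 : Real.exp (-x) = θ * (x ^ 3 * Real.exp (-x)) := by rw [hθ]; field_simp
    have h6 : θ * (x ^ 3 * Real.exp (-x)) ≤ θ * (1 / 8) := by gcongr; linarith
    linarith
  have z1 : ∀ z : ℂ, ‖z‖ ≤ r * q → S a (n + 1 + 1) z ≠ 0 := fun z hz e => by
    have := t1 z hz
    rw [e, sub_zero] at this
    linarith [H _ z e]
  -- (2)
  obtain ⟨b1, b2⟩ := poly_bounds a (n + 1) (by rintro e; simp [e] at hbig; linarith)
    (s := r * q) (by positivity) z1
  -- (3)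
  have hex2 : Real.exp x * Real.exp (-x) = 1 := by rw [← Real.exp_add]; simp
  have t2 : ∀ z : ℂ, ‖z‖ ≤ r * q * q → ‖f z - S a (n + 1) z‖ ≤ 1 / 2 := fun z hz => by
    have h3 : ‖a (n + 1) * z ^ (n + 1)‖ ≤ 1 / 4 := by
      rw [norm_mul, norm_pow]
      calc _ ≤ ‖a (n + 1)‖ * (r * q * q) ^ (n + 1) := by gcongr
        _ = ‖a (n + 1)‖ * (r * q) ^ (n + 1) * q ^ (n + 1) := by rw [mul_pow (r * q), mul_assoc]
        _ ≤ Real.exp x / 4 * Real.exp (-x) := by gcongr; exact b1.trans hL1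
        _ = 1 / 4 := by linarith
    have h4 := t1 z (hz.trans le1)
    have e : f z - S a (n + 1) z = (f z - S a (n + 1 + 1) z) + a (n + 1) * z ^ (n + 1) := by
      rw [S_succ (n + 1)]; ring
    rw [e]
    linarith [norm_add_le (f z - S a (n + 1 + 1) z) (a (n + 1) * z ^ (n + 1))]
  have z2 : ∀ z : ℂ, ‖z‖ ≤ r * q * q → S a (n + 1) z ≠ 0 := fun z hz e => by
    have := t2 z hz
    rw [e, sub_zero] at this
    linarith [H _ z e]
  -- (4)
  have u1 : ∀ z ∈ ball (0 : ℂ) (r * q), ‖f z / a 0‖ ≤ Real.exp (18 * x ^ 4) := fun z hz => by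
    have hz' := (mem_ball_zero_iff.mp hz).le
    have h3 : ‖f z‖ ≤ 2 ^ (n + 1) * ‖a 0‖ + 1 := by
      have := norm_add_le (f z - S a (n + 1 + 1) z) (S a (n + 1 + 1) z)
      rw [sub_add_cancel] at this
      have h4 : ‖S a (n + 1 + 1) z‖ ≤ 2 ^ (n + 1) * ‖a 0‖ := b2 z hz'
      linarith [t1 z hz']
    have h4 : (2 : ℝ) ^ (n + 1) ≤ Real.exp (17 * x ^ 4) := by
      calc (2 : ℝ) ^ (n + 1) ≤ Real.exp 1 ^ (n + 1) := by
            gcongr; linarith [Real.add_one_le_exp 1]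
        _ ≤ _ := by rw [← Real.exp_nat_mul, Real.exp_le_exp]; nlinarith
    have h5 : ‖a 0‖⁻¹ ≤ Real.exp (17 * x ^ 4) := hL2.trans (Real.exp_le_exp.mpr (by nlinarith))
    have h6 : Real.exp (18 * x ^ 4) = Real.exp (17 * x ^ 4) * Real.exp (x ^ 4) := by
      rw [← Real.exp_add]; ring_nf
    have h7 : 2 ≤ Real.exp (x ^ 4) := by linarith [Real.add_one_le_exp (x ^ 4)]
    rw [norm_div, div_eq_mul_inv]
    calc ‖f z‖ * ‖a 0‖⁻¹ ≤ (2 ^ (n + 1) * ‖a 0‖ + 1) * ‖a 0‖⁻¹ := by gcongr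
      _ = 2 ^ (n + 1) + ‖a 0‖⁻¹ := by field_simp
      _ ≤ _ := by nlinarith [Real.exp_pos (17 * x ^ 4)]
  have u2 : ∀ z : ℂ, ‖z‖ ≤ r * q * q → ‖f z‖⁻¹ ≤ Real.exp (37 * x ^ 7) := fun z hz => by
    have := twoSided (F := fun z => f z / a 0) (by positivity) (by positivity) hθ0
      (hf.div_const _).differentiableOn (fun z _ => div_ne_zero (h0 z) ha0)
      (by rw [f_zero h, div_self ha0]) u1 z hz
    have e : 2 * (18 * x ^ 4) / θ = 36 * x ^ 7 := by rw [hθ]; field_simp; ring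
    rw [e, inv_div, norm_div] at this
    calc ‖f z‖⁻¹ = ‖a 0‖ / ‖f z‖ * ‖a 0‖⁻¹ := by field_simp
      _ ≤ Real.exp (36 * x ^ 7) * Real.exp x := by gcongr
      _ ≤ _ := by rw [← Real.exp_add, Real.exp_le_exp]; linarith
  -- (5)
  have key : ∀ j, (∀ z : ℂ, ‖z‖ ≤ r * q * q → ‖f z - S a (j + 1) z‖ ≤ 1) →
      (∀ z : ℂ, ‖z‖ ≤ r * q * q → S a (j + 1) z ≠ 0) →
      ((fun z => f z - S a (j + 1) z) =O[𝓝 0] fun z : ℂ => ‖z‖ ^ (n + 1)) →
      ∀ z : ℂ, ‖z‖ ≤ r * q * q * q * q → ‖f z - S a (j + 1) z‖ ≤ ‖f z‖ := by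
    intro j h1 h2 h3 z hz
    have e : ∀ w, S a (j + 1) w / f w - 1 = -(f w)⁻¹ * (f w - S a (j + 1) w) := fun w => by
      have := h0 w
      field_simp; ring
    have := schw (F := fun z => S a (j + 1) z / f z) (M := 38 * x ^ 7) (n := n) (by positivity)
      (by positivity) hθ0 ((S_diff _).div hf h0).differentiableOn
      (fun w hw => div_ne_zero (h2 w (mem_ball_zero_iff.mp hw).le) (h0 w))
      (by rw [S_zero, f_zero h, div_self ha0]) (fun w hw => ?_) ?_ ?_ z hz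
    · rw [e, norm_mul, norm_neg, norm_inv, inv_mul_le_iff₀ (norm_pos_iff.mpr (h0 z))] at this
      linarith
    · have hw' := (mem_ball_zero_iff.mp hw).le
      have h4 : ‖S a (j + 1) w / f w - 1‖ ≤ Real.exp (37 * x ^ 7) * 1 := by
        rw [e, norm_mul, norm_neg, norm_inv]
        gcongr
        exacts [u2 w hw', h1 w hw']
      have h5 := norm_add_le (S a (j + 1) w / f w - 1) 1
      rw [sub_add_cancel, norm_one] at h5
      have h6 : Real.exp (38 * x ^ 7) = Real.exp (37 * x ^ 7) * Real.exp (x ^ 7) := by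
        rw [← Real.exp_add]; ring_nf
      have h7 : 2 ≤ Real.exp (x ^ 7) := by linarith [Real.add_one_le_exp (x ^ 7)]
      have h8 : 1 ≤ Real.exp (37 * x ^ 7) := Real.one_le_exp (by positivity)
      nlinarith
    · simp only [e]
      have hc : ContinuousAt (fun w => -(f w)⁻¹) 0 := (hf.continuous.continuousAt.inv₀ (h0 0)).neg
      simpa using (hc.isBigO_one ℝ).mul h3
    · have e : 2 * (38 * x ^ 7) / θ = 76 * x ^ 10 := by rw [hθ]; field_simp; ring
      rw [e]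
      exact le_trans (by gcongr) hc
  have o1 := tailO h hr hs
  have o2 : (fun z => f z - S a (n + 1) z) =O[𝓝 0] fun z : ℂ => ‖z‖ ^ (n + 1) := by
    have o3 : (fun z : ℂ => a (n + 1) * z ^ (n + 1)) =O[𝓝 0] fun z : ℂ => ‖z‖ ^ (n + 1) :=
      IsBigO.of_bound ‖a (n + 1)‖ (.of_forall fun z => by simp)
    refine (o1.add o3).congr_left fun z => ?_
    rw [S_succ (n + 1)]; ring
  have k1 := key (n + 1) (fun z hz => (t1 z (hz.trans le1)).trans (by norm_num))
    (fun z hz => z1 z (hz.trans le1)) o1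
  have k2 := key n (fun z hz => (t2 z hz).trans (by norm_num)) z2 o2
  -- (6)
  set s := r * q * q * q * q with hs4
  have hs0 : 0 < s := by positivity
  have v1 : ∀ z ∈ ball (0 : ℂ) s, ‖a 0 / f z‖ ≤ Real.exp (66 * x) := fun z hz => by
    refine norm_le_of_forall_mem_frontier_norm_le (f := fun z => a 0 / f z) isBounded_ball
      ((differentiable_const _).div hf h0).diffContOnCl (fun w hw => ?_) (subset_closure hz)
    rw [frontier_ball _ hs0.ne', mem_sphere_zero_iff_norm] at hw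
    have h3 : ‖a (n + 1) * w ^ (n + 1)‖ ≤ 2 * ‖f w‖ := by
      have e : a (n + 1) * w ^ (n + 1) = (f w - S a (n + 1) w) - (f w - S a (n + 1 + 1) w) := by
        rw [S_succ (n + 1)]; ring
      rw [e]
      linarith [norm_sub_le (f w - S a (n + 1) w) (f w - S a (n + 1 + 1) w), k1 w hw.le, k2 w hw.le]
    have h4 : Real.exp (-(16 * x)) ^ 4 ≤ ‖a (n + 1) * w ^ (n + 1)‖ := by
      rw [norm_mul, norm_pow, hw]
      calc Real.exp (-(16 * x)) ^ 4 ≤ 1 * (q ^ (n + 1)) ^ 4 := by rw [one_mul]; gcongr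
        _ ≤ ‖a (n + 1)‖ * r ^ (n + 1) * (q ^ (n + 1)) ^ 4 := by gcongr
        _ = _ := by simp only [hs4, mul_pow]; ring
    rw [← Real.exp_nat_mul] at h4
    rw [norm_div, div_le_iff₀ (norm_pos_iff.mpr (h0 w))]
    have h5 : Real.exp (66 * x) * Real.exp ((4 : ℕ) * -(16 * x)) = Real.exp x * Real.exp x := by
      rw [← Real.exp_add, ← Real.exp_add]; congr 1; push_cast; ring
    have h6 : 1 ≤ Real.exp x := Real.one_le_exp hx0.le
    have h7 := mul_le_mul_of_nonneg_left (h4.trans h3) (Real.exp_pos (66 * x)).le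
    nlinarith
  -- (7)
  have v2 : ∀ z : ℂ, ‖z‖ ≤ s * Real.exp (-x⁻¹) → ‖f z‖ ≤ Real.exp (133 * x ^ 2) := fun z hz => by
    have := twoSided (F := fun z => a 0 / f z) hs0 (by positivity) (inv_pos.mpr hx0)
      ((differentiable_const _).div hf h0).differentiableOn (fun z _ => div_ne_zero ha0 (h0 z))
      (by rw [f_zero h, div_self ha0]) v1 z hz
    have e : 2 * (66 * x) / x⁻¹ = 132 * x ^ 2 := by field_simp; ring
    rw [e, inv_div, norm_div, div_le_iff₀ hc0] at this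
    calc ‖f z‖ ≤ Real.exp (132 * x ^ 2) * Real.exp x := by
          refine this.trans ?_
          gcongr
          linarith [Real.exp_pos x]
      _ ≤ _ := by rw [← Real.exp_add, Real.exp_le_exp]; linarith
  -- (8)
  have w1 := cauchy h (by positivity) v2 k
  have w2 : r * Real.exp (-(6 / x)) ≤ s * Real.exp (-x⁻¹) * Real.exp (-x⁻¹) := by
    have hθx : θ ≤ x⁻¹ := inv_anti₀ hx0 (by simpa using p1 1 3 (by norm_num))
    simp only [hs4, hq, mul_assoc, ← Real.exp_add]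
    gcongr
    rw [div_eq_mul_inv]; linarith
  calc _ ≤ ‖a k‖ * (s * Real.exp (-x⁻¹) * Real.exp (-x⁻¹)) ^ k := by gcongr
    _ = ‖a k‖ * (s * Real.exp (-x⁻¹)) ^ k * Real.exp (-x⁻¹) ^ k := by
      rw [mul_pow _ (Real.exp _) k, ← mul_assoc]
    _ ≤ Real.exp (133 * x ^ 2) * Real.exp (-x⁻¹) ^ k := by gcongr
    _ ≤ 1 := by
      rw [← Real.exp_nat_mul, ← Real.exp_add, Real.exp_le_one_iff]
      have e : x ^ 4 * x⁻¹ = x ^ 2 * x := by field_simp
      have := mul_le_mul_of_nonneg_right hk (inv_pos.mpr hx0).le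
      nlinarith [sq_nonneg x]

def Small (a : ℕ → ℂ) (r N : ℝ) : Prop := ∀ k : ℕ, N ≤ k → ‖a k‖ * r ^ k ≤ 1

lemma Small.mono {r r' N : ℝ} (h : Small a r N) (h0 : 0 ≤ r') (h1 : r' ≤ r) : Small a r' N :=
  fun k hk => le_trans (by gcongr) (h k hk)

lemma step (h : ∀ z : ℂ, HasSum (fun k : ℕ => a k * z ^ k) (f z)) (h0 : ∀ z, f z ≠ 0)
    (H : ∀ n z, S a (n + 1) z = 0 → 1 ≤ ‖f z‖) : ∃ x₀ : ℝ, 0 < x₀ ∧ ∀ x, x₀ ≤ x → ∀ r, 0 < r →
      Small a r ((2 * x) ^ 4) → Small a (r * Real.exp (-(6 / x))) (x ^ 4) := by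
  have e1 := (Real.tendsto_exp_atTop.atTop_div_const (show (0 : ℝ) < 4 by norm_num)).eventually_ge_atTop ‖a 0‖
  have e2 := Real.tendsto_exp_atTop.eventually_ge_atTop ‖a 0‖⁻¹
  have e3 : ∀ᶠ x : ℝ in atTop, 76 * x ^ 10 * Real.exp (-x) ≤ 1 / 2 := by
    have := (Real.tendsto_pow_mul_exp_neg_atTop_nhds_zero 10).const_mul 76
    simp only [mul_zero, ← mul_assoc] at this
    exact this.eventually (ge_mem_nhds (by norm_num))
  obtain ⟨x₀, hx₀⟩ := eventually_atTop.mp (e1.and (e2.and (e3.and (eventually_ge_atTop 133))))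
  refine ⟨max x₀ 1, by positivity, fun x hx r hr hS => ?_⟩
  obtain ⟨c1, c2, c3, c4⟩ := hx₀ x ((le_max_left _ _).trans hx)
  by_cases hS' : Small a r (x ^ 4)
  · exact hS'.mono (by positivity) (lt_of_le_exp hr (by positivity)).le
  · have hfin : {k : ℕ | x ^ 4 ≤ k ∧ 1 < ‖a k‖ * r ^ k}.Finite := by
      refine (Set.finite_Iic ⌈(2 * x) ^ 4⌉₊).subset fun k hk => ?_
      by_contra h'
      have : ⌈(2 * x) ^ 4⌉₊ ≤ k := (not_le.mp h').le
      exact absurd (hS k (Nat.ceil_le.mp this)) (not_le.mpr hk.2)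
    have hne : {k : ℕ | x ^ 4 ≤ k ∧ 1 < ‖a k‖ * r ^ k}.Nonempty := by
      simp only [Small, not_forall, not_le] at hS'
      obtain ⟨k, h1, h2⟩ := hS'
      exact ⟨k, h1, h2⟩
    obtain ⟨m, hm, hmax⟩ := hfin.exists_maximal hne
    refine step_core h h0 H hr c4 c1 c2 c3 hm.1 ?_ hm.2.le fun k hk => ?_
    · by_contra h'
      exact absurd (hS m (by linarith [not_le.mp h'])) (not_le.mpr hm.2)
    · by_contra h'
      have h1 : (m : ℝ) ≤ k := by exact_mod_cast (by omega : m ≤ k)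
      have := hmax (y := k) ⟨hm.1.trans h1, not_le.mp h'⟩ (by omega)
      omega

theorem main (h : ∀ z : ℂ, HasSum (fun k : ℕ => a k * z ^ k) (f z)) (h0 : ∀ z, f z ≠ 0)
    (H : ∀ n z, S a (n + 1) z = 0 → 1 ≤ ‖f z‖) (z : ℂ) : f z = a 0 := by
  obtain ⟨x₀, hx₀, hstep⟩ := step h h0 H
  have it : ∀ j : ℕ, ∀ r, 0 < r → Small a r ((2 ^ j * x₀) ^ 4) →
      Small a (r * Real.exp (12 / (2 ^ j * x₀) - 12 / x₀)) (x₀ ^ 4) := by
    intro j
    induction j with
    | zero => intro r _ hS; simpa using hS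
    | succ j ih =>
      intro r hr hS
      rw [pow_succ' 2 j, mul_assoc] at hS
      have := ih _ (by positivity)
        (hstep _ (le_mul_of_one_le_left hx₀.le (one_le_pow₀ one_le_two)) r hr hS)
      rw [mul_assoc, ← Real.exp_add] at this
      have e : -(6 / (2 ^ j * x₀)) + (12 / (2 ^ j * x₀) - 12 / x₀) =
          12 / (2 ^ (j + 1) * x₀) - 12 / x₀ := by field_simp; ring
      rwa [e] at this
  have all : ∀ R, 0 < R → Small a R (x₀ ^ 4) := by
    intro R hR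
    set r := R * Real.exp (12 / x₀) with hr
    have hr0 : 0 < r := by positivity
    have h1 := (h r).summable.tendsto_atTop_zero.norm
    obtain ⟨N, hN⟩ := eventually_atTop.mp (h1.eventually (ge_mem_nhds (show ‖(0 : ℂ)‖ < 1 by simp)))
    have h2 : Tendsto (fun j : ℕ => (2 ^ j * x₀) ^ 4) atTop atTop :=
      (tendsto_pow_atTop (by norm_num)).comp
        ((tendsto_pow_atTop_atTop_of_one_lt one_lt_two).atTop_mul_const hx₀)
    obtain ⟨j, hj⟩ := (h2.eventually_ge_atTop N).exists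
    refine (it j r hr0 fun k hk => ?_).mono hR.le ?_
    · have := hN k (by exact_mod_cast hj.trans hk)
      rwa [norm_mul, norm_pow, Complex.norm_real, Real.norm_of_nonneg hr0.le] at this
    · rw [hr, mul_assoc, ← Real.exp_add]
      refine le_mul_of_one_le_right hR.le (Real.one_le_exp ?_)
      have : 0 ≤ 12 / (2 ^ j * x₀) := by positivity
      linarith
  have big : ∀ k : ℕ, k ≠ 0 → ∀ C : ℝ, (∀ R : ℝ, 0 < R → ‖a k‖ * R ^ k ≤ C) → a k = 0 := by
    intro k hk C hC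
    by_contra h'
    have := ((tendsto_pow_atTop (α := ℝ) hk).const_mul_atTop (norm_pos_iff.mpr h')).eventually_gt_atTop C
    obtain ⟨R, h1, h2⟩ := (this.and (eventually_gt_atTop 0)).exists
    exact absurd (hC R h2) (not_le.mpr h1)
  have van : ∀ d k : ℕ, k ≠ 0 → ⌈x₀ ^ 4⌉₊ ≤ k + d → a k = 0 := by
    intro d
    induction d with
    | zero => exact fun k hk h1 => big k hk 1 fun R hR => all R hR k (Nat.ceil_le.mp h1)
    | succ d ih =>
      intro k hk h1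
      by_contra h'
      refine h' (big k hk ‖a 0‖ fun R hR => (poly_bounds a k h' hR.le fun w _ => ?_).1)
      have := hasSum_sum_of_ne_finset_zero (f := fun j : ℕ => a j * w ^ j)
        (s := Finset.range (k + 1)) (L := .unconditional _) fun j hj => by
          have : k + 1 ≤ j := by simpa using hj
          rw [ih j (by omega) (by omega), zero_mul]
      rw [← (h w).unique this]
      exact h0 w
  refine (h z).unique ?_
  have := hasSum_single (f := fun k : ℕ => a k * z ^ k) 0 fun k hk => by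
    rw [van ⌈x₀ ^ 4⌉₊ k hk (by omega), zero_mul]
  simpa using this

end Pool.Agent.H12.PartialSums
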