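import Mathlib
import Pool.Agent.Lead.Sat

/-! Clause lists for the unschedulable tree instance of polyamorous scheduling.
Variable `12 * t + i` says that edge number `i` is scheduled on day `t`. -/
namespace Pool.Agent.H12.PolyEnc
open Pool.Agent.Lead.Sat

/-- frequency of edge number `i` -/
def fr (i : Nat) : Nat := [3, 3, 6, 2, 2, 4, 12, 4, 12, 2, 18, 36].getD i 1

/-- pairs of edge numbers that share an endpoint -/
def cf : List (Nat × Nat) :=
  [(0,1),(0,2),(1,2),(0,3),(1,4),(3,5),(3,6),(5,6),(4,7),(4,8),(7,8),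
   (5,9),(5,10),(5,11),(9,10),(9,11),(10,11)]

def F1 : List (List Nat) :=
  (List.range 50).flatMap fun t => cf.map fun p => [neg (12 * t + p.1), neg (12 * t + p.2)]

def F2 : List (List Nat) :=
  (List.range 12).flatMap fun i => (List.range (51 - fr i)).map fun t =>
    (List.range (fr i)).map fun s => pos (12 * (t + s) + i)

theorem m1 (x : Nat → Nat → Prop) (h : ∀ p ∈ cf, ∀ t, ¬ (x p.1 t ∧ x p.2 t)) :
    Models (fun n => x (n % 12) (n / 12)) F1 := by
  intro c hc
  simp only [F1, List.mem_flatMap, List.mem_map, List.mem_range] at hc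
  obtain ⟨t, _, p, hp, rfl⟩ := hc
  have hb : ∀ p ∈ cf, p.1 < 12 ∧ p.2 < 12 := by decide
  obtain ⟨h1, h2⟩ := hb p hp
  have e1 : (12 * t + p.1) / 12 = t := by omega
  have e2 : (12 * t + p.1) % 12 = p.1 := by omega
  have e3 : (12 * t + p.2) / 12 = t := by omega
  have e4 : (12 * t + p.2) % 12 = p.2 := by omega
  simp only [List.mem_cons, List.not_mem_nil, or_false, exists_eq_or_imp, exists_eq_left,
    litT_neg, e1, e2, e3, e4]
  have := h p hp t
  tauto

theorem m2 (x : Nat → Nat → Prop) (h : ∀ i < 12, ∀ t, ∃ s < fr i, x i (t + s)) :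
    Models (fun n => x (n % 12) (n / 12)) F2 := by
  intro c hc
  simp only [F2, List.mem_flatMap, List.mem_map, List.mem_range] at hc
  obtain ⟨i, hi, t, _, rfl⟩ := hc
  obtain ⟨s, hs, hx⟩ := h i hi t
  refine ⟨pos (12 * (t + s) + i), List.mem_map.2 ⟨s, List.mem_range.2 hs, rfl⟩, ?_⟩
  rw [litT_pos]
  have e1 : (12 * (t + s) + i) / 12 = t + s := by omega
  have e2 : (12 * (t + s) + i) % 12 = i := by omega
  rw [e1, e2]
  exact hx

end Pool.Agent.H12.PolyEnc
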