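import Pool.Agent.H12.PolyU.S
import Pool.Agent.H12.PolyU.C0
set_option maxRecDepth 100000
set_option linter.all false
namespace Pool.Agent.H12.PolyU
open Pool.Agent.Lead.Sat Pool.Agent.Lead.Sat.Tr
theorem fin0 : Nat.beq ((clD tt (nat_lit 1200)) (nat_lit 1834)) 0 = true := by decide +kernel
theorem unsat (v : Nat → Prop) (m0 : Models v Pool.Agent.H12.PolyEnc.F1) (m1 : Models v Pool.Agent.H12.PolyEnc.F2) : False := by
  have p := base v (clD tt (nat_lit 1200))
  replace p := start_sound v _ _ _ _ s0 m0 p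
  replace p := start_sound v _ _ _ _ s1 m1 p
  replace p := chunk_sound v _ _ _ _ _ _ c0 p
  exact finish v _ _ fin0 p
end Pool.Agent.H12.PolyU
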