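import Mathlib

/-! Cosine polynomials on the circle: spans, factorisation of integrals, positivity. -/

open MeasureTheory Finset Filter Topology

namespace Pool.Agent.H12.RP

instance factPi : Fact (0 < 2 * Real.pi) := ⟨Real.two_pi_pos⟩

abbrev T : Type := AddCircle (2 * Real.pi)

noncomputable def cs (n : ℤ) : C(T, ℝ) :=
  ⟨fun x => (fourier n x).re, Complex.continuous_re.comp (fourier n).continuous⟩

lemma cs_apply (n : ℤ) (x : T) : cs n x = (fourier n x).re := rfl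

lemma cs_zero : cs 0 = 1 := by
  ext x; rw [cs_apply, fourier_zero]; rfl

lemma cs_mul (m n : ℤ) : cs m * cs n = (1 / 2 : ℝ) • (cs (m + n) + cs (m - n)) := by
  ext x
  simp only [ContinuousMap.mul_apply, ContinuousMap.smul_apply, ContinuousMap.add_apply, cs_apply,
    smul_eq_mul]
  rw [sub_eq_add_neg, fourier_add, fourier_add, fourier_neg]
  simp only [Complex.mul_re, Complex.conj_re, Complex.conj_im]
  ring

lemma cs_abs (n : ℤ) (x : T) : -1 ≤ cs n x ∧ cs n x ≤ 1 := by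
  have h : ‖fourier n x‖ = 1 := Circle.norm_coe _
  exact abs_le.1 ((Complex.abs_re_le_norm _).trans h.le)

lemma cs_mul' (m n : ℤ) (x : T) : cs m x * cs n x = (cs (m + n) x + cs (m - n) x) / 2 := by
  have := DFunLike.congr_fun (cs_mul m n) x
  simp only [ContinuousMap.mul_apply, ContinuousMap.smul_apply, ContinuousMap.add_apply,
    smul_eq_mul] at this
  linarith

lemma cs_two (m : ℤ) (x : T) : cs (2 * m) x = 2 * cs m x ^ 2 - 1 := by
  have := cs_mul' m m x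
  rw [sub_self, cs_zero, ← two_mul, ContinuousMap.one_apply] at this
  nlinarith

lemma cs_three (m : ℤ) (x : T) : cs (3 * m) x = 4 * cs m x ^ 3 - 3 * cs m x := by
  have := cs_mul' (2 * m) m x
  rw [show 2 * m + m = 3 * m by ring, show 2 * m - m = m by ring, cs_two] at this
  nlinarith

lemma cs_four (m : ℤ) (x : T) : cs (4 * m) x = 8 * cs m x ^ 4 - 8 * cs m x ^ 2 + 1 := by
  rw [show 4 * m = 2 * (2 * m) by ring, cs_two, cs_two]; ring

lemma integ {E : Type*} [NormedAddCommGroup E] (f : C(T, E)) (μ : Measure T) [IsFiniteMeasure μ] :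
    Integrable f μ :=
  f.continuous.integrable_of_hasCompactSupport (HasCompactSupport.of_compactSpace f)

noncomputable def J : C(T, ℝ) →ₗ[ℝ] ℝ where
  toFun f := ∫ x, f x ∂AddCircle.haarAddCircle
  map_add' f g := integral_add (integ f _) (integ g _)
  map_smul' c f := integral_smul c f

lemma J_apply (f : C(T, ℝ)) : J f = ∫ x, f x ∂AddCircle.haarAddCircle := rfl

lemma J_mono {f g : C(T, ℝ)} (h : ∀ x, f x ≤ g x) : J f ≤ J g :=
  integral_mono (integ f _) (integ g _) h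

lemma J_one : J 1 = 1 := by simp [J_apply]

lemma J_cs (n : ℤ) : J (cs n) = if n = 0 then 1 else 0 := by
  split_ifs with h
  · rw [h, cs_zero, J_one]
  · refine integral_eq_zero_of_add_right_eq_neg (g := ((2 * Real.pi / 2 / n : ℝ) : T)) fun x => ?_
    rw [cs_apply, cs_apply, fourier_add_half_inv_index h Real.two_pi_pos, Complex.neg_re]

noncomputable def Sp (p : ℤ → Prop) : Submodule ℝ C(T, ℝ) := Submodule.span ℝ (cs '' {n | p n})

lemma cs_mem {p : ℤ → Prop} {n : ℤ} (h : p n) : cs n ∈ Sp p := Submodule.subset_span ⟨n, h, rfl⟩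

lemma Sp_mono {p q : ℤ → Prop} (h : ∀ n, p n → q n) {F : C(T, ℝ)} (hF : F ∈ Sp p) : F ∈ Sp q :=
  Submodule.span_mono (Set.image_mono h) hF

lemma Sp_ind2 {p q : ℤ → Prop} (R : C(T, ℝ) → C(T, ℝ) → Prop)
    (h0 : ∀ m n, p m → q n → R (cs m) (cs n))
    (z1 : ∀ G, R 0 G) (z2 : ∀ F, R F 0)
    (a1 : ∀ F F' G, R F G → R F' G → R (F + F') G) (a2 : ∀ F G G', R F G → R F G' → R F (G + G'))
    (s1 : ∀ (c : ℝ) F G, R F G → R (c • F) G) (s2 : ∀ (c : ℝ) F G, R F G → R F (c • G))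
    {F G : C(T, ℝ)} (hF : F ∈ Sp p) (hG : G ∈ Sp q) : R F G := by
  induction hF using Submodule.span_induction with
  | mem F hF =>
    obtain ⟨m, hm, rfl⟩ := hF
    induction hG using Submodule.span_induction with
    | mem G hG => obtain ⟨n, hn, rfl⟩ := hG; exact h0 m n hm hn
    | zero => exact z2 _
    | add G G' _ _ h1 h2 => exact a2 _ _ _ h1 h2
    | smul c G _ h1 => exact s2 _ _ _ h1
  | zero => exact z1 _
  | add F F' _ _ h1 h2 => exact a1 _ _ _ h1 h2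
  | smul c F _ h1 => exact s1 _ _ _ h1

lemma Sp_mul {p q r : ℤ → Prop} (h : ∀ m n, p m → q n → r (m + n) ∧ r (m - n)) {F G : C(T, ℝ)}
    (hF : F ∈ Sp p) (hG : G ∈ Sp q) : F * G ∈ Sp r := by
  refine Sp_ind2 (fun F G => F * G ∈ Sp r) ?_ ?_ ?_ ?_ ?_ ?_ ?_ hF hG
  · intro m n hm hn
    rw [cs_mul]
    exact Submodule.smul_mem _ _ (Submodule.add_mem _ (cs_mem (h m n hm hn).1)
      (cs_mem (h m n hm hn).2))
  · intro G; rw [zero_mul]; exact Submodule.zero_mem _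
  · intro G; rw [mul_zero]; exact Submodule.zero_mem _
  · intro F F' G h1 h2; rw [add_mul]; exact Submodule.add_mem _ h1 h2
  · intro F G G' h1 h2; rw [mul_add]; exact Submodule.add_mem _ h1 h2
  · intro c F G h1; rw [smul_mul_assoc]; exact Submodule.smul_mem _ _ h1
  · intro c F G h1; rw [mul_smul_comm]; exact Submodule.smul_mem _ _ h1

lemma J_fact {M : ℤ} {F G : C(T, ℝ)} (hF : F ∈ Sp fun n => |n| < M) (hG : G ∈ Sp fun n => M ∣ n) :
    J (F * G) = J F * J G := by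
  refine Sp_ind2 (fun F G => J (F * G) = J F * J G) ?_ ?_ ?_ ?_ ?_ ?_ ?_ hF hG
  · intro m n hm hn
    rw [cs_mul, map_smul, map_add, J_cs, J_cs, J_cs, J_cs]
    by_cases h : m = 0
    · subst h
      by_cases h' : n = 0 <;> simp [h']
      norm_num
    · have h1 : m + n ≠ 0 := fun h2 =>
        h (Int.eq_zero_of_abs_lt_dvd (by rw [show m = -n by omega]; exact hn.neg_right) hm)
      have h2 : m - n ≠ 0 := fun h2 =>
        h (Int.eq_zero_of_abs_lt_dvd (by rw [show m = n by omega]; exact hn) hm)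
      simp [h, h1, h2]
  · intro G; simp
  · intro G; simp
  · intro F F' G h1 h2; rw [add_mul, map_add, map_add, h1, h2]; ring
  · intro F G G' h1 h2; rw [mul_add, map_add, map_add, h1, h2]; ring
  · intro c F G h1; rw [smul_mul_assoc, map_smul, map_smul, h1]; simp [mul_assoc]
  · intro c F G h1; rw [mul_smul_comm, map_smul, map_smul, h1]; simp [mul_left_comm]

noncomputable def B (M d : ℤ) : Submodule ℝ C(T, ℝ) := Sp fun n => M ∣ n ∧ |n| ≤ d

lemma B_mul {M d e : ℤ} {F G : C(T, ℝ)} (hF : F ∈ B M d) (hG : G ∈ B M e) : F * G ∈ B M (d + e) :=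
  Sp_mul (fun m n hm hn => ⟨⟨hm.1.add hn.1, (abs_add_le _ _).trans (add_le_add hm.2 hn.2)⟩,
    ⟨hm.1.sub hn.1, (abs_sub _ _).trans (add_le_add hm.2 hn.2)⟩⟩) hF hG

lemma B_mono {M M' d e : ℤ} (h1 : M' ∣ M) (h2 : d ≤ e) {F : C(T, ℝ)} (hF : F ∈ B M d) :
    F ∈ B M' e := Sp_mono (fun _ hn => ⟨h1.trans hn.1, hn.2.trans h2⟩) hF

lemma one_mem_B (M : ℤ) {d : ℤ} (h : 0 ≤ d) : (1 : C(T, ℝ)) ∈ B M d := by
  rw [← cs_zero]; exact cs_mem ⟨dvd_zero _, by simpa using h⟩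

lemma cs_mem_B {m : ℤ} (h : 0 ≤ m) : cs m ∈ B m m := cs_mem ⟨dvd_rfl, (abs_of_nonneg h).le⟩

lemma B_lt {M d e : ℤ} (h : d < e) {F : C(T, ℝ)} (hF : F ∈ B M d) : F ∈ Sp fun n => |n| < e :=
  Sp_mono (fun _ hn => hn.2.trans_lt h) hF

lemma B_dvd {M d : ℤ} {F : C(T, ℝ)} (hF : F ∈ B M d) : F ∈ Sp fun n => M ∣ n :=
  Sp_mono (fun _ hn => hn.1) hF

lemma prod_B (M c : ℤ) (hc : 0 ≤ c) (F : ℕ → C(T, ℝ)) (hF : ∀ j, F j ∈ B M (c * 4 ^ j)) (l : ℕ) :
    ∏ j ∈ range l, F j ∈ B M (c * 4 ^ l) := by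
  induction l with
  | zero => rw [prod_range_zero]; exact one_mem_B _ (by positivity)
  | succ l ih =>
    rw [prod_range_succ]
    refine B_mono dvd_rfl ?_ (B_mul ih (hF l))
    have : 0 ≤ c * 4 ^ l := by positivity
    rw [pow_succ]; nlinarith

lemma fact (M d : ℕ → ℤ) (h0 : 0 < M 0) (hM : ∀ k, 2 * M k ≤ M (k + 1))
    (hd : ∀ k, 2 * d k ≤ M (k + 1)) (F : ℕ → C(T, ℝ)) (hF : ∀ k, F k ∈ B (M k) (d k)) (K : ℕ) :
    ∏ k ∈ range K, F k ∈ Sp (fun n => |n| < M K) ∧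
      J (∏ k ∈ range K, F k) = ∏ k ∈ range K, J (F k) := by
  induction K with
  | zero =>
    rw [prod_range_zero, prod_range_zero, J_one, ← cs_zero]
    exact ⟨cs_mem (by simpa using h0), rfl⟩
  | succ K ih =>
    rw [prod_range_succ, prod_range_succ, J_fact ih.1 (B_dvd (hF K)), ih.2]
    refine ⟨Sp_mul (fun m n hm hn => ?_) ih.1 (hF K), rfl⟩
    have h1 := abs_add_le m n
    have h2 := abs_sub m n
    have h3 := hM K
    have h4 := hd K
    have h5 := hn.2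
    constructor <;> omega

inductive PD : C(T, ℝ) → Prop
  | cs (n : ℤ) : PD (cs n)
  | add {F G : C(T, ℝ)} : PD F → PD G → PD (F + G)
  | smul {c : ℝ} {F : C(T, ℝ)} : 0 ≤ c → PD F → PD (c • F)

lemma PD.one : PD 1 := by rw [← cs_zero]; exact PD.cs 0

lemma PD.nonneg {F : C(T, ℝ)} (h : PD F) : 0 ≤ J F := by
  induction h with
  | cs n => rw [J_cs]; split_ifs <;> norm_num
  | add _ _ h1 h2 => rw [map_add]; positivity
  | smul hc _ h1 => rw [map_smul, smul_eq_mul]; positivity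

lemma PD.mul {F G : C(T, ℝ)} (hF : PD F) (hG : PD G) : PD (F * G) ∧ J F * J G ≤ J (F * G) := by
  induction hF with
  | cs m =>
    induction hG with
    | cs n =>
      have h1 : PD (RP.cs m * RP.cs n) := by
        rw [cs_mul]; exact .smul (by norm_num) (.add (.cs _) (.cs _))
      refine ⟨h1, ?_⟩
      by_cases h : m = 0
      · rw [h, cs_zero, J_one, one_mul, one_mul]
      · rw [J_cs m, if_neg h, zero_mul]; exact h1.nonneg
    | add _ _ h1 h2 =>
      rw [mul_add, map_add, map_add, mul_add]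
      exact ⟨.add h1.1 h2.1, add_le_add h1.2 h2.2⟩
    | smul hc _ h1 =>
      rw [mul_smul_comm, map_smul, map_smul, smul_eq_mul, smul_eq_mul, mul_left_comm]
      exact ⟨.smul hc h1.1, mul_le_mul_of_nonneg_left h1.2 hc⟩
  | add _ _ h1 h2 =>
    rw [add_mul, map_add, map_add, add_mul]
    exact ⟨.add h1.1 h2.1, add_le_add h1.2 h2.2⟩
  | smul hc _ h1 =>
    rw [smul_mul_assoc, map_smul, map_smul, smul_eq_mul, smul_eq_mul, mul_assoc]
    exact ⟨.smul hc h1.1, mul_le_mul_of_nonneg_left h1.2 hc⟩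

lemma PD.prod (F : ℕ → C(T, ℝ)) (hF : ∀ j, PD (F j)) (c : ℝ) (hc : 0 ≤ c) (h : ∀ j, c ≤ J (F j))
    (l : ℕ) : PD (∏ j ∈ range l, F j) ∧ c ^ l ≤ J (∏ j ∈ range l, F j) := by
  induction l with
  | zero => rw [prod_range_zero, J_one, pow_zero]; exact ⟨PD.one, le_rfl⟩
  | succ l ih =>
    rw [prod_range_succ, pow_succ]
    exact ⟨(ih.1.mul (hF l)).1,
      (mul_le_mul ih.2 (h l) hc ih.1.nonneg).trans (ih.1.mul (hF l)).2⟩

/-- one Riesz factor -/
noncomputable def fac (c : ℝ) (m : ℤ) : C(T, ℝ) := 1 + c • cs m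

lemma fac_apply (c : ℝ) (m : ℤ) (x : T) : fac c m x = 1 + c * cs m x := rfl

lemma fac_mem (c : ℝ) {m : ℤ} (h : 0 ≤ m) : fac c m ∈ B m m :=
  Submodule.add_mem _ (one_mem_B _ h) (Submodule.smul_mem _ _ (cs_mem_B h))

lemma J_fac (c : ℝ) {m : ℤ} (h : m ≠ 0) : J (fac c m) = 1 := by
  rw [fac, map_add, map_smul, J_one, J_cs, if_neg h]; simp

lemma fac_nonneg {c : ℝ} (h : |c| ≤ 1) (m : ℤ) (x : T) : 0 ≤ fac c m x := by
  rw [fac_apply]
  have h1 := cs_abs m x
  have h2 := abs_le.1 h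
  nlinarith

/-- product of `l` factors with frequencies `m, 4 m, 16 m, ...` -/
noncomputable def H (h : ℝ) (m : ℤ) (l : ℕ) : C(T, ℝ) := ∏ j ∈ range l, fac h (m * 4 ^ j)

lemma H_mem (h : ℝ) {m : ℤ} (hm : 0 < m) (l : ℕ) : H h m l ∈ B m (m * 4 ^ l) :=
  prod_B m m hm.le _ (fun j => B_mono (dvd_mul_right _ _) le_rfl (fac_mem h (by positivity))) l

lemma J_H (h : ℝ) {m : ℤ} (hm : 0 < m) (l : ℕ) : J (H h m l) = 1 := by
  have h1 : ∀ k : ℕ, 2 * (m * 4 ^ k) ≤ m * 4 ^ (k + 1) := fun k => by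
    have : 0 < m * 4 ^ k := by positivity
    rw [pow_succ]; nlinarith
  rw [H, (fact (fun j => m * 4 ^ j) (fun j => m * 4 ^ j) (by simpa using hm) h1 h1 _
    (fun j => fac_mem h (by positivity)) l).2]
  exact prod_eq_one fun j _ => J_fac h (by positivity)

lemma H_nonneg {h : ℝ} (hh : |h| ≤ 1) (m : ℤ) (l : ℕ) (x : T) : 0 ≤ H h m l x := by
  rw [H, ContinuousMap.prod_apply]
  exact prod_nonneg fun j _ => fac_nonneg hh _ x

end Pool.Agent.H12.RP
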