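import Pool.Agent.H12.RP1

/-! Existence of Riesz products for `4 ^ n`; two criteria for absolute continuity. -/

open MeasureTheory Finset Filter Topology

namespace Pool.Agent.H12.RP

noncomputable def P (α : ℕ → ℝ) (N : ℕ) : C(T, ℝ) := ∏ n ∈ range N, fac (α n) (4 ^ n)

lemma J_P (α : ℕ → ℝ) (N : ℕ) : J (P α N) = 1 := by
  have h1 : ∀ k : ℕ, 2 * (4 : ℤ) ^ k ≤ 4 ^ (k + 1) := fun k => by
    have : (0 : ℤ) < 4 ^ k := by positivity
    rw [pow_succ]; omega
  exact (fact (fun j => 4 ^ j) (fun j => 4 ^ j) (by norm_num) h1 h1 (fun n => fac (α n) (4 ^ n))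
    (fun j => fac_mem _ (by positivity)) N).2.trans (prod_eq_one fun j _ => J_fac _ (by positivity))

lemma P_mem (α : ℕ → ℝ) (N : ℕ) : P α N ∈ Sp fun n => 2 * |n| < 4 ^ N := by
  induction N with
  | zero => rw [P, prod_range_zero, ← cs_zero]; exact cs_mem (by norm_num)
  | succ N ih =>
    rw [P, prod_range_succ]
    refine Sp_mul (fun m n hm hn => ?_) ih (fac_mem (α N) (m := 4 ^ N) (by positivity))
    have h1 := abs_add_le m n
    have h2 := abs_sub m n
    have h3 := hn.2
    have h4 : (0 : ℤ) < 4 ^ N := by positivity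
    rw [pow_succ]
    constructor <;> omega

lemma P_nonneg {α : ℕ → ℝ} (hα : ∀ n, |α n| ≤ 1) (N : ℕ) (x : T) : 0 ≤ P α N x := by
  rw [P, ContinuousMap.prod_apply]
  exact prod_nonneg fun j _ => fac_nonneg (hα j) _ x

lemma P_step (α : ℕ → ℝ) (n : ℤ) (N : ℕ) (h : 2 * |n| ≤ 4 ^ N) :
    J (cs n * P α (N + 1)) = J (cs n * P α N) := by
  have h1 : cs n * P α N ∈ Sp fun k => |k| < 4 ^ N := by
    refine Sp_mul (p := fun k => k = n) (fun a b ha hb => ?_) (cs_mem rfl) (P_mem α N)
    have h1 := abs_add_le a b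
    have h2 := abs_sub a b
    subst ha
    constructor <;> omega
  rw [P, prod_range_succ, ← mul_assoc, ← P,
    J_fact h1 (B_dvd (fac_mem (α N) (m := 4 ^ N) (by positivity))), J_fac _ (by positivity), mul_one]

lemma P_const (α : ℕ → ℝ) (n : ℤ) :
    ∀ᶠ N in atTop, J (cs n * P α N) = J (cs n * P α (2 * n.natAbs)) := by
  refine eventually_atTop.2 ⟨2 * n.natAbs, fun N hN => ?_⟩
  induction N, hN using Nat.le_induction with
  | base => rfl
  | succ N hN ih =>
    rw [P_step α n N, ih]
    have h1 : N < 4 ^ N := Nat.lt_pow_self (by norm_num)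
    have h2 : (N : ℤ) < 4 ^ N := by exact_mod_cast h1
    have h3 : |n| = n.natAbs := Int.abs_eq_natAbs n
    omega

lemma fourier_negx (n : ℤ) (x : T) : fourier n (-x) = (starRingEnd ℂ) (fourier n x) := by
  rw [← fourier_neg, fourier_apply, fourier_apply, smul_neg, neg_smul]

lemma P_even (α : ℕ → ℝ) (N : ℕ) (x : T) : P α N (-x) = P α N x := by
  simp only [P, ContinuousMap.prod_apply, fac_apply, cs_apply, fourier_negx, Complex.conj_re]

lemma int_fourier (α : ℕ → ℝ) (N : ℕ) (n : ℤ) :
    ∫ x, P α N x • fourier n x ∂AddCircle.haarAddCircle = (J (cs n * P α N) : ℂ) := by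
  have hi : Integrable (fun x : T => P α N x • fourier n x) AddCircle.haarAddCircle :=
    integ (⟨fun x => P α N x • fourier n x, by fun_prop⟩ : C(T, ℂ)) _
  apply Complex.ext
  · rw [Complex.ofReal_re, J_apply, ← RCLike.re_to_complex, ← integral_re hi]
    refine integral_congr_ae (ae_of_all _ fun x => ?_)
    simp [cs_apply, mul_comm]
  · rw [Complex.ofReal_im, ← RCLike.im_to_complex, ← integral_im hi]
    have h := integral_neg_eq_self (fun x : T => RCLike.im (P α N x • fourier n x))
      AddCircle.haarAddCircle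
    have h2 : ∀ x : T, RCLike.im (P α N (-x) • fourier n (-x)) =
        -RCLike.im (P α N x • fourier n x) := fun x => by
      rw [P_even, fourier_negx]; simp
    simp only [h2, integral_neg] at h
    linarith

lemma exists_riesz (α : ℕ → ℝ) (hα : ∀ n, |α n| ≤ 1) :
    ∃ μ : Measure T, IsProbabilityMeasure μ ∧
      ∀ f : C(T, ℝ), Tendsto (fun N => J (f * P α N)) atTop (𝓝 (∫ x, f x ∂μ)) := by
  let ν : ℕ → ProbabilityMeasure T := fun N =>
    ⟨AddCircle.haarAddCircle.withDensity fun x => ENNReal.ofReal (P α N x), ⟨by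
      rw [withDensity_apply _ MeasurableSet.univ, Measure.restrict_univ,
        ← ofReal_integral_eq_lintegral_ofReal (integ _ _) (ae_of_all _ (P_nonneg hα N)),
        ← J_apply, J_P, ENNReal.ofReal_one]⟩⟩
  have hν : ∀ N (F : T → ℂ), ∫ x, F x ∂(ν N : Measure T) =
      ∫ x, P α N x • F x ∂AddCircle.haarAddCircle := fun N F => by
    have := integral_withDensity_eq_integral_toReal_smul (μ := AddCircle.haarAddCircle)
      (f := fun x => ENNReal.ofReal (P α N x)) (P α N).continuous.measurable.ennreal_ofReal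
      (ae_of_all _ fun x => ENNReal.ofReal_lt_top) F
    simp only [ENNReal.toReal_ofReal (P_nonneg hα N _)] at this
    exact this
  obtain ⟨μ, -, hμ⟩ := isCompact_univ.ultrafilter_le_nhds
    (Ultrafilter.map ν (Ultrafilter.of atTop)) (by simp)
  have hU : Tendsto ν (Ultrafilter.of atTop : Ultrafilter ℕ) (𝓝 μ) := hμ
  have hU' := (ProbabilityMeasure.tendsto_iff_forall_integral_rclike_tendsto ℂ).1 hU
  have lip : ∀ ρ : ProbabilityMeasure T,
      LipschitzWith 1 fun F : C(T, ℂ) => ∫ x, F x ∂(ρ : Measure T) := fun ρ => by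
    refine LipschitzWith.of_dist_le_mul fun F G => ?_
    rw [dist_eq_norm, dist_eq_norm, ← integral_sub (integ _ _) (integ _ _)]
    refine (norm_integral_le_of_norm_le_const (C := ‖F - G‖)
      (ae_of_all _ fun x => (F - G).norm_coe_le_norm x)).trans ?_
    simp
  have key : ∀ F : C(T, ℂ), Tendsto (fun N => ∫ x, F x ∂(ν N : Measure T)) atTop
      (𝓝 (∫ x, F x ∂(μ : Measure T))) := by
    have hcl := (LipschitzWith.uniformEquicontinuous
      (fun N (F : C(T, ℂ)) => ∫ x, F x ∂(ν N : Measure T)) 1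
      fun N => lip (ν N)).equicontinuous.isClosed_setOfPred_tendsto (l := atTop) (lip μ).continuous
    intro F
    have hF : F ∈ closure (Submodule.span ℂ (Set.range (@fourier (2 * Real.pi))) : Set C(T, ℂ)) := by
      rw [← Submodule.topologicalClosure_coe, span_fourier_closure_eq_top]; trivial
    refine closure_minimal (fun G hG => ?_) hcl hF
    induction hG using Submodule.span_induction with
    | mem G hG =>
      obtain ⟨n, rfl⟩ := hG
      have h1 : Tendsto (fun N => ∫ x, fourier n x ∂(ν N : Measure T)) atTop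
          (𝓝 (J (cs n * P α (2 * n.natAbs)) : ℂ)) :=
        tendsto_const_nhds.congr' ((P_const α n).mono fun N hN => by
          beta_reduce
          rw [hν, int_fourier, hN])
      have h2 := tendsto_nhds_unique (h1.mono_left (Ultrafilter.of_le atTop))
        (hU' (BoundedContinuousFunction.mkOfCompact (fourier n)))
      rw [h2] at h1
      exact h1
    | zero => simp
    | add G G' _ _ h1 h2 =>
      simp only [Set.mem_ofPred_eq, ContinuousMap.add_apply, integral_add (integ _ _) (integ _ _)]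
      exact h1.add h2
    | smul c G _ h1 =>
      simp only [Set.mem_ofPred_eq, ContinuousMap.smul_apply, integral_smul]
      exact h1.const_smul c
  refine ⟨μ, inferInstance, fun f => ?_⟩
  have h := (Complex.continuous_re.tendsto _).comp
    (key ⟨fun x => (f x : ℂ), Complex.continuous_ofReal.comp f.continuous⟩)
  simp only [ContinuousMap.coe_mk, integral_complex_ofReal, Complex.ofReal_re] at h
  refine h.congr fun N => ?_
  have h3 := hν N fun x => (f x : ℂ)
  simp only [Complex.real_smul, ← Complex.ofReal_mul, integral_complex_ofReal, Complex.ofReal_inj] at h3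
  simp only [Function.comp, Complex.ofReal_re, h3, J_apply, ContinuousMap.mul_apply, mul_comm]

lemma not_ac (ρ σ : Measure T) [IsProbabilityMeasure ρ] [IsProbabilityMeasure σ] (c : ℝ)
    (hc : 0 < c) (f : ℕ → C(T, ℝ)) (h0 : ∀ L x, 0 ≤ f L x) (h1 : ∀ L x, f L x ≤ 1)
    (hρ : ∀ L, c ≤ ∫ x, f L x ∂ρ) (hσ : Tendsto (fun L => ∫ x, f L x ∂σ) atTop (𝓝 0)) :
    ¬ ρ ≪ σ := by
  intro hac
  haveI : ρ.HaveLebesgueDecomposition σ := Measure.haveLebesgueDecomposition_of_finiteMeasure
  obtain ⟨δ, hδ, h⟩ := exists_pos_setLIntegral_lt_of_measure_lt (μ := σ) (f := ρ.rnDeriv σ)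
    (Measure.lintegral_rnDeriv_lt_top ρ σ).ne (ε := ENNReal.ofReal (c / 2)) (by simpa using hc)
  have h2 : Tendsto (fun L => ENNReal.ofReal (2 / c * ∫ x, f L x ∂σ)) atTop (𝓝 0) := by
    have := ENNReal.tendsto_ofReal (hσ.const_mul (2 / c))
    simpa using this
  obtain ⟨L, hL⟩ := (h2.eventually (gt_mem_nhds hδ)).exists
  have hs : MeasurableSet {x | c / 2 ≤ f L x} :=
    (isClosed_le continuous_const (f L).continuous).measurableSet
  have h3 := mul_meas_ge_le_integral_of_nonneg (ae_of_all σ (h0 L)) (integ _ _) (c / 2)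
  have h4 : σ {x | c / 2 ≤ f L x} < δ := by
    refine lt_of_le_of_lt ?_ hL
    rw [← ofReal_measureReal]
    refine ENNReal.ofReal_le_ofReal ?_
    rw [div_mul_eq_mul_div, le_div_iff₀ hc]; linarith
  have h5 := h _ h4
  rw [Measure.setLIntegral_rnDeriv hac, ← ofReal_measureReal,
    ENNReal.ofReal_lt_ofReal_iff (by positivity)] at h5
  have h6 : ∫ x, f L x ∂ρ ≤ ∫ x, (c / 2 + {x | c / 2 ≤ f L x}.indicator 1 x) ∂ρ := by
    refine integral_mono (integ _ _) ((integrable_const _).add ((integrable_const 1).indicator hs))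
      fun x => ?_
    by_cases hx : c / 2 ≤ f L x
    · have := h1 L x
      simp only [Set.indicator, Set.mem_ofPred_eq, hx, if_true, Pi.one_apply]; linarith
    · simp only [Set.indicator, Set.mem_ofPred_eq, hx, if_false]; linarith
  rw [integral_add (integrable_const _) ((integrable_const 1).indicator hs),
    integral_indicator_one hs] at h6
  simp only [integral_const, probReal_univ, one_smul] at h6
  linarith [hρ L]

lemma ac_of (ρ σ : Measure T) [IsProbabilityMeasure ρ] [IsProbabilityMeasure σ] (C : ℝ)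
    (hC : 0 < C) (h : ∀ θ : ℝ, 0 < θ → ∀ f : C(T, ℝ), (∀ x, 0 ≤ f x ∧ f x ≤ 1) →
      ∫ x, f x ∂ρ ≤ θ * C + (∫ x, f x ∂σ) / (4 * θ)) : ρ ≪ σ := by
  refine Measure.AbsolutelyContinuous.mk fun s hs h0 => ?_
  by_contra hne
  obtain ⟨K, hKs, hK, hpos⟩ := hs.exists_lt_isCompact_of_ne_top (measure_ne_top ρ s)
    (pos_iff_ne_zero.2 hne)
  have hr : 0 < ρ.real K := ENNReal.toReal_pos hpos.ne' (measure_ne_top _ _)
  set r := ρ.real K with hrK
  have hθ : 0 < r / (2 * C) := by positivity
  set θ := r / (2 * C) with hθe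
  obtain ⟨U, hKU, hU, hσU⟩ := Set.exists_isOpen_lt_of_lt (μ := σ) K (ENNReal.ofReal (θ * r))
    (by rw [measure_mono_null hKs h0]; exact ENNReal.ofReal_pos.2 (by positivity))
  rw [← ofReal_measureReal, ENNReal.ofReal_lt_ofReal_iff (by positivity)] at hσU
  obtain ⟨f, f0, f1, f01⟩ := exists_continuous_zero_one_of_isClosed hU.isClosed_compl hK.isClosed
    (Set.disjoint_left.2 fun x hx hx' => hx (hKU hx'))
  have h1 : r ≤ ∫ x, f x ∂ρ := by
    rw [hrK, ← integral_indicator_one hK.isClosed.measurableSet]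
    refine integral_mono ((integrable_const 1).indicator hK.isClosed.measurableSet) (integ _ _)
      fun x => ?_
    by_cases hx : x ∈ K
    · simp [hx, f1 hx]
    · simp [hx, (f01 x).1]
  have h2 : ∫ x, f x ∂σ ≤ σ.real U := by
    rw [← integral_indicator_one hU.measurableSet]
    refine integral_mono (integ _ _) ((integrable_const 1).indicator hU.measurableSet) fun x => ?_
    by_cases hx : x ∈ U
    · simp [hx, (f01 x).2]
    · simp [hx, f0 hx]
  have h3 := h θ hθ f f01
  have h4 : θ * C = r / 2 := by rw [hθe]; field_simp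
  have h5 : (∫ x, f x ∂σ) / (4 * θ) ≤ r / 4 := by
    rw [div_le_iff₀ (by positivity)]; nlinarith
  linarith

end Pool.Agent.H12.RP
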