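import Pool.Agent.H12.RP1

/-! Estimates on one block of the Riesz products. -/

open MeasureTheory Finset Filter Topology

namespace Pool.Agent.H12.RP

noncomputable def D (u h : ℝ) (M : ℤ) (l : ℕ) : C(T, ℝ) := fac u M * H h (4 * M) l

lemma le_pow4 {M : ℤ} (hM : 0 < M) (l : ℕ) : M ≤ M * 4 ^ l :=
  le_mul_of_one_le_right hM.le (one_le_pow₀ (by norm_num))

lemma D_mem (u h : ℝ) {M : ℤ} (hM : 0 < M) (l : ℕ) : D u h M l ∈ B M (5 * (M * 4 ^ l)) := by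
  refine B_mono dvd_rfl ?_ (B_mul (fac_mem u hM.le)
    (B_mono (dvd_mul_left M 4) le_rfl (H_mem h (by omega) l)))
  have := le_pow4 hM l
  linarith

lemma J_D (u h : ℝ) {M : ℤ} (hM : 0 < M) (l : ℕ) : J (D u h M l) = 1 := by
  rw [D, J_fact (M := 4 * M) (B_lt (by omega) (fac_mem u hM.le)) (B_dvd (H_mem h (by omega) l)),
    J_fac _ hM.ne', J_H _ (by omega), mul_one]

lemma D_nonneg {u h : ℝ} (hu : |u| ≤ 1) (hh : |h| ≤ 1) (M : ℤ) (l : ℕ) (x : T) :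
    0 ≤ D u h M l x := mul_nonneg (fac_nonneg hu _ _) (H_nonneg hh _ _ _)

noncomputable def tt (s : ℝ) (m : ℤ) : C(T, ℝ) := (1 / 2 : ℝ) • (cs m * cs m * fac s m)

lemma tt_apply (s : ℝ) (m : ℤ) (x : T) : tt s m x = cs m x ^ 2 * (1 + s * cs m x) / 2 := by
  simp only [tt, ContinuousMap.smul_apply, ContinuousMap.mul_apply, fac_apply, smul_eq_mul]; ring

lemma tt_mem (s : ℝ) {m : ℤ} (hm : 0 ≤ m) : tt s m ∈ B m (3 * m) :=
  Submodule.smul_mem _ _ (B_mono dvd_rfl (by omega)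
    (B_mul (B_mul (cs_mem_B hm) (cs_mem_B hm)) (fac_mem s hm)))

lemma tt_bd {s : ℝ} (hs : |s| ≤ 1) (m : ℤ) (x : T) : 0 ≤ tt s m x ∧ tt s m x ≤ 1 := by
  have h1 := fac_nonneg hs m x
  have h2 := cs_abs m x
  have h3 := abs_le.1 hs
  rw [fac_apply] at h1
  rw [tt_apply]
  have h4 : cs m x ^ 2 ≤ 1 := by nlinarith
  have h5 : 1 + s * cs m x ≤ 2 := by nlinarith
  exact ⟨by positivity, by nlinarith [sq_nonneg (cs m x)]⟩

lemma J_fac_tt (h s : ℝ) {m : ℤ} (hm : m ≠ 0) : J (fac h m * tt s m) = 1 / 4 + 3 * h * s / 16 := by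
  have : fac h m * tt s m = (1 / 4 + 3 * h * s / 16) • (1 : C(T, ℝ)) + (3 * (h + s) / 8) • cs m
      + (1 / 4 + h * s / 4) • cs (2 * m) + ((h + s) / 8) • cs (3 * m) + (h * s / 16) • cs (4 * m) := by
    ext x
    simp only [ContinuousMap.mul_apply, ContinuousMap.add_apply, ContinuousMap.smul_apply,
      ContinuousMap.one_apply, smul_eq_mul, fac_apply, tt_apply, cs_two, cs_three, cs_four]
    ring
  rw [this]
  simp [J_cs, J_one, hm]

lemma J_tt (s : ℝ) {m : ℤ} (hm : m ≠ 0) : J (tt s m) = 1 / 4 := by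
  have := J_fac_tt 0 s hm
  simpa [fac] using this

lemma PD_fac {c : ℝ} (hc : 0 ≤ c) (m : ℤ) : PD (fac c m) := .add PD.one (.smul hc (.cs m))

lemma PD_tt (m : ℤ) : PD (tt 1 m) :=
  .smul (by norm_num) (((PD.cs m).mul (PD.cs m)).1.mul (PD_fac zero_le_one m)).1

noncomputable def g (M : ℤ) (l : ℕ) : C(T, ℝ) := tt (-1) M * ∏ j ∈ range l, tt 1 (4 * M * 4 ^ j)

lemma g_mem {M : ℤ} (hM : 0 < M) (l : ℕ) : g M l ∈ B M (15 * (M * 4 ^ l)) := by
  refine B_mono dvd_rfl ?_ (B_mul (tt_mem _ hM.le) (prod_B M (12 * M) (by omega) _ (fun j =>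
    B_mono ((dvd_mul_left M 4).mul_right _) (le_of_eq (by ring)) (tt_mem 1 (by positivity))) l))
  have := le_pow4 hM l
  linarith

lemma g_bd (M : ℤ) (l : ℕ) (x : T) : 0 ≤ g M l x ∧ g M l x ≤ 1 := by
  rw [g, ContinuousMap.mul_apply, ContinuousMap.prod_apply]
  have h1 := tt_bd (s := -1) (by simp) M x
  have h2 : ∀ j, _ := fun j : ℕ => tt_bd (s := 1) (by simp) (4 * M * 4 ^ j) x
  have h3 := prod_nonneg (s := range l) fun j _ => (h2 j).1
  exact ⟨mul_nonneg h1.1 h3,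
    mul_le_one₀ h1.2 h3 (prod_le_one (fun j _ => (h2 j).1) fun j _ => (h2 j).2)⟩

lemma g_mul (M : ℤ) (l : ℕ) (x : T) :
    g M l x * (1 + cs M x) = (1 - cs (4 * M * 4 ^ l) x) / 16 ^ (l + 1) := by
  induction l with
  | zero =>
    rw [g, prod_range_zero, mul_one, pow_zero, mul_one, cs_four, tt_apply]; ring
  | succ l ih =>
    have : g M (l + 1) = g M l * tt 1 (4 * M * 4 ^ l) := by rw [g, prod_range_succ, ← mul_assoc, g]
    rw [this, ContinuousMap.mul_apply, mul_right_comm, ih,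
      show 4 * M * 4 ^ (l + 1) = 4 * (4 * M * 4 ^ l) by ring, cs_four (4 * M * 4 ^ l), tt_apply]
    field_simp; ring

lemma J_Dg_le {η h : ℝ} (h0 : 0 ≤ η) (h1 : η ≤ 1) (hh : |h| ≤ 1) {M : ℤ} (hM : 0 < M) (l : ℕ) :
    J (D (1 - η) h M l * g M l) ≤ η + 1 / 16 ^ l := by
  have : J (D (1 - η) h M l * g M l) ≤ J ((η + 1 / 16 ^ l) • H h (4 * M) l) := by
    refine J_mono fun x => ?_
    have h2 := g_mul M l x
    have h3 := g_bd M l x
    have h4 := cs_abs (4 * M * 4 ^ l) x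
    have h5 := cs_abs M x
    have h6 : (1 - cs (4 * M * 4 ^ l) x) / 16 ^ (l + 1) ≤ 1 / 16 ^ l := by
      rw [div_le_div_iff₀ (by positivity) (by positivity), pow_succ]
      have : (0 : ℝ) < 16 ^ l := by positivity
      nlinarith
    have h7 : 0 ≤ g M l x * (1 + cs M x) := mul_nonneg h3.1 (by linarith)
    have h8 : (1 + (1 - η) * cs M x) * g M l x ≤ η + 1 / 16 ^ l := by nlinarith
    simp only [D, ContinuousMap.mul_apply, ContinuousMap.smul_apply, smul_eq_mul, fac_apply]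
    rw [mul_right_comm]
    exact mul_le_mul_of_nonneg_right h8 (H_nonneg hh _ _ _)
  rwa [map_smul, J_H _ (by omega), smul_eq_mul, mul_one] at this

lemma J_Dg_ge {ε h : ℝ} (h0 : 0 ≤ ε) (h1 : ε ≤ 1) (hh : 2 / 3 ≤ h) (hh1 : h ≤ 1) {M : ℤ}
    (hM : 0 < M) (l : ℕ) : ε * (1 / 4 * (3 / 8) ^ l) ≤ J (D (1 - ε) h M l * g M l) := by
  have e : H h (4 * M) l * g M l =
      tt (-1) M * ∏ j ∈ range l, (fac h (4 * M * 4 ^ j) * tt 1 (4 * M * 4 ^ j)) := by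
    rw [prod_mul_distrib, g, H]; ring
  have m1 : ∏ j ∈ range l, (fac h (4 * M * 4 ^ j) * tt 1 (4 * M * 4 ^ j)) ∈
      B (4 * M) (16 * M * 4 ^ l) :=
    prod_B (4 * M) (16 * M) (by omega) _ (fun j => B_mono (dvd_mul_right _ _) (le_of_eq (by ring))
      (B_mul (fac_mem h (by positivity)) (tt_mem 1 (by positivity)))) l
  have h2 : 1 / 4 * (3 / 8) ^ l ≤ J (H h (4 * M) l * g M l) := by
    rw [e, J_fact (M := 4 * M) (B_lt (by omega) (tt_mem _ hM.le)) (B_dvd m1), J_tt _ hM.ne']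
    refine mul_le_mul_of_nonneg_left (PD.prod _ (fun j => ((PD_fac (by linarith) _).mul
      (PD_tt _)).1) _ (by norm_num) (fun j => ?_) l).2 (by norm_num)
    rw [J_fac_tt _ _ (by positivity)]; linarith
  refine (mul_le_mul_of_nonneg_left h2 h0).trans ?_
  rw [← smul_eq_mul, ← map_smul]
  refine J_mono fun x => ?_
  simp only [D, ContinuousMap.mul_apply, ContinuousMap.smul_apply, smul_eq_mul, fac_apply]
  rw [mul_assoc]
  refine mul_le_mul_of_nonneg_right ?_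
    (mul_nonneg (H_nonneg (abs_le.2 ⟨by linarith, hh1⟩) _ _ _) (g_bd _ _ _).1)
  have := cs_abs M x
  nlinarith

lemma H_succ (h : ℝ) (m : ℤ) (l : ℕ) : H h m (l + 1) = fac h m * H h (4 * m) l := by
  rw [H, prod_range_succ', pow_zero, mul_one, mul_comm (fac h m), H]
  congr 1
  exact prod_congr rfl fun j _ => by rw [pow_succ]; congr 1; ring

noncomputable def Q (ε η : ℝ) (M : ℤ) (l : ℕ) : C(T, ℝ) :=
  D (-(1 - 2 * ε + η)) (-(1 - η)) M (l + 1) + (16 * ε ^ 2) • H (-(1 - η)) (4 * (4 * M)) l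

lemma Q_mem (ε η : ℝ) {M : ℤ} (hM : 0 < M) (l : ℕ) : Q ε η M l ∈ B M (5 * (M * 4 ^ (l + 1))) := by
  refine Submodule.add_mem _ (D_mem _ _ hM _) (Submodule.smul_mem _ _
    (B_mono ((dvd_mul_left M 4).mul_left _) ?_ (H_mem _ (by omega) l)))
  have := le_pow4 hM l
  rw [pow_succ]; linarith

lemma J_Q (ε η : ℝ) {M : ℤ} (hM : 0 < M) (l : ℕ) : J (Q ε η M l) = 1 + 16 * ε ^ 2 := by
  rw [Q, map_add, map_smul, J_D _ _ hM, J_H _ (by omega), smul_eq_mul, mul_one]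

lemma Q_nonneg {ε η : ℝ} (h0 : 0 ≤ η) (h1 : η ≤ ε) (h2 : ε ≤ 1) (M : ℤ) (l : ℕ) (x : T) :
    0 ≤ Q ε η M l x := by
  have h3 : |(-(1 - η))| ≤ 1 := abs_le.2 ⟨by linarith, by linarith⟩
  exact add_nonneg (D_nonneg (abs_le.2 ⟨by linarith, by linarith⟩) h3 _ _ _)
    (mul_nonneg (by positivity) (H_nonneg h3 _ _ _))

lemma D_sq_le {ε η : ℝ} (h0 : 0 ≤ η) (h1 : η ≤ ε) (h2 : ε ≤ 1) (M : ℤ) (l : ℕ) (x : T) :
    D (-(1 - ε)) (-(1 - η)) M (l + 1) x ^ 2 ≤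
      Q ε η M l x * D (-(1 - η)) (-(1 - η)) M (l + 1) x := by
  simp only [Q, D, H_succ, ContinuousMap.mul_apply, ContinuousMap.add_apply,
    ContinuousMap.smul_apply, smul_eq_mul, fac_apply]
  have h3 := cs_abs M x
  have h4 := cs_abs (4 * M) x
  have h5 := cs_four M x
  set c := cs M x
  set d := cs (4 * M) x
  set y := H (-(1 - η)) (4 * (4 * M)) l x
  have c2 : c ^ 2 ≤ 1 := by nlinarith
  have hw : 0 ≤ 1 + -(1 - η) * d := by nlinarith
  have hd : 1 - d ≤ 16 * (1 - c) := by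
    have : c ^ 2 * (1 + c) ≤ 2 := by nlinarith [sq_nonneg c]
    have : 0 ≤ (1 - c) * (2 - c ^ 2 * (1 + c)) := mul_nonneg (by linarith) (by linarith)
    nlinarith
  have hv : 1 + -(1 - η) * d ≤ 16 * (1 + -(1 - η) * c) := by nlinarith
  have he : ((ε - η) * c) ^ 2 ≤ ε ^ 2 := by
    rw [mul_pow]
    have : (ε - η) ^ 2 ≤ ε ^ 2 := by nlinarith
    nlinarith [sq_nonneg (ε - η)]
  set w := 1 + -(1 - η) * d
  have hk : ((ε - η) * c) ^ 2 * w ≤ ε ^ 2 * (16 * (1 + -(1 - η) * c)) :=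
    mul_le_mul he hv hw (sq_nonneg _)
  have := mul_le_mul_of_nonneg_right hk (mul_nonneg hw (sq_nonneg y))
  nlinarith

lemma amgm {x y q θ f : ℝ} (hx : 0 ≤ x) (hy : 0 ≤ y) (hq : 0 ≤ q) (hθ : 0 < θ) (f0 : 0 ≤ f)
    (f1 : f ≤ 1) (h : x ^ 2 ≤ q * y) : f * x ≤ θ * q + (4 * θ)⁻¹ * (f * y) := by
  have h1 : x ≤ θ * q + (4 * θ)⁻¹ * y := by
    refine (sq_le_sq₀ hx (by positivity)).1 (h.trans ?_)
    have : q * y = 4 * (θ * q) * ((4 * θ)⁻¹ * y) := by field_simp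
    rw [this]; nlinarith [sq_nonneg (θ * q - (4 * θ)⁻¹ * y)]
  have h2 := mul_le_mul_of_nonneg_left h1 f0
  have h3 : 0 ≤ θ * q := by positivity
  nlinarith

end Pool.Agent.H12.RP
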