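import Pool.Agent.H12.RP2
import Pool.Agent.H12.RP3

/-! The concrete block sequences and the two conclusions. -/

open MeasureTheory Finset Filter Topology

namespace Pool.Agent.H12.RP

def ll (k : ℕ) : ℕ := Nat.log 8 (k + 1) + 1

def t : ℕ → ℕ
  | 0 => 0
  | k + 1 => t k + (ll k + 3)

lemma t_mono : StrictMono t := strictMono_nat_of_lt_succ fun k => by rw [t]; omega

def blk (n : ℕ) : ℕ := Nat.findGreatest (fun k => t k ≤ n) n

lemma blk_eq (k j : ℕ) (hj : j < ll k + 3) : blk (t k + j) = k := by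
  rw [blk, Nat.findGreatest_eq_iff]
  refine ⟨(t_mono.le_apply (x := k)).trans (Nat.le_add_right _ _), fun _ => Nat.le_add_right _ _,
    fun n hn _ h => ?_⟩
  have := t_mono.monotone (Nat.succ_le_of_lt hn)
  rw [Nat.succ_eq_add_one, t] at this
  omega

noncomputable def ep (k : ℕ) : ℝ := 1 / 3 ^ ll k
noncomputable def et (k : ℕ) : ℝ := 1 / 16 ^ ll k

lemma ep_pos (k : ℕ) : 0 < ep k := by rw [ep]; positivity
lemma et_pos (k : ℕ) : 0 < et k := by rw [et]; positivity
lemma et_le (k : ℕ) : et k ≤ ep k :=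
  one_div_le_one_div_of_le (by positivity) (pow_le_pow_left₀ (by norm_num) (by norm_num) _)
lemma ep_le (k : ℕ) : ep k ≤ 1 / 3 :=
  one_div_le_one_div_of_le (by positivity) (le_self_pow₀ (by norm_num) (by rw [ll]; omega))

/-- coefficient sequence built from blocks -/
noncomputable def co (u h : ℕ → ℝ) (n : ℕ) : ℝ :=
  if n - t (blk n) = 0 then u (blk n) else if n - t (blk n) ≤ ll (blk n) then h (blk n) else 0

lemma co_eq (u h : ℕ → ℝ) (k j : ℕ) (hj : j < ll k + 3) :
    co u h (t k + j) = if j = 0 then u k else if j ≤ ll k then h k else 0 := by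
  rw [co, blk_eq k j hj, Nat.add_sub_cancel_left]

lemma co_abs {u h : ℕ → ℝ} (hu : ∀ k, |u k| < 1) (hh : ∀ k, |h k| < 1) (n : ℕ) : |co u h n| < 1 := by
  rw [co]; split_ifs
  exacts [hu _, hh _, by simp]

lemma co_neg (u h : ℕ → ℝ) (n : ℕ) : co (fun k => -u k) (fun k => -h k) n = -co u h n := by
  rw [co, co]; split_ifs <;> simp

def MM (k : ℕ) : ℤ := 4 ^ t k

lemma MM_pos (k : ℕ) : 0 < MM k := by rw [MM]; positivity

lemma MM_succ (k : ℕ) : MM (k + 1) = 64 * (MM k * 4 ^ ll k) := by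
  rw [MM, MM, t, pow_add, pow_add]; ring

lemma P_co (u h : ℕ → ℝ) (K : ℕ) :
    P (co u h) (t K) = ∏ k ∈ range K, D (u k) (h k) (MM k) (ll k) := by
  induction K with
  | zero => simp [P, t]
  | succ K ih =>
    rw [prod_range_succ, ← ih, t, P, prod_range_add, ← P]
    congr 1
    have c0 : co u h (t K + 0) = u K := by rw [co_eq _ _ _ _ (by omega), if_pos rfl]
    have c1 : co u h (t K + (ll K + 1)) = 0 := by
      rw [co_eq _ _ _ _ (by omega), if_neg (by omega), if_neg (by omega)]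
    have c2 : co u h (t K + (ll K + 2)) = 0 := by
      rw [co_eq _ _ _ _ (by omega), if_neg (by omega), if_neg (by omega)]
    rw [prod_range_succ, prod_range_succ, prod_range_succ', c0, c1, c2]
    have e : ∀ m, fac 0 m = 1 := fun m => by simp [fac]
    rw [e, e, mul_one, mul_one, D, mul_comm (fac (u K) _), H, add_zero, MM]
    congr 1
    refine prod_congr rfl fun j hj => ?_
    have := mem_range.1 hj
    rw [co_eq _ _ _ _ (by omega), if_neg (by omega), if_pos (by omega)]
    congr 1; ring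

lemma J_blocks (F : ℕ → C(T, ℝ)) (hF : ∀ k, F k ∈ B (MM k) (20 * (MM k * 4 ^ ll k))) (K : ℕ) :
    J (∏ k ∈ range K, F k) = ∏ k ∈ range K, J (F k) := by
  refine (fact MM _ (MM_pos 0) (fun k => ?_) (fun k => ?_) F hF K).2
  · have := le_pow4 (MM_pos k) (ll k)
    have := MM_pos k
    rw [MM_succ]; omega
  · have := le_pow4 (MM_pos k) (ll k)
    have := MM_pos k
    rw [MM_succ]; omega

/-- the test function of a window `W` of blocks -/
noncomputable def test (W : Finset ℕ) : C(T, ℝ) := ∏ k ∈ W, (1 - g (MM k) (ll k))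

lemma test_bd (W : Finset ℕ) (x : T) : 0 ≤ test W x ∧ test W x ≤ 1 := by
  rw [test, ContinuousMap.prod_apply]
  have h : ∀ k, 0 ≤ (1 - g (MM k) (ll k)) x ∧ (1 - g (MM k) (ll k)) x ≤ 1 := fun k => by
    have := g_bd (MM k) (ll k) x
    rw [ContinuousMap.sub_apply, ContinuousMap.one_apply]
    constructor <;> linarith
  exact ⟨prod_nonneg fun k _ => (h k).1, prod_le_one (fun k _ => (h k).1) fun k _ => (h k).2⟩

lemma int_test (u h : ℕ → ℝ) (μ : Measure T)
    (hμ : ∀ f : C(T, ℝ), Tendsto (fun N => J (f * P (co u h) N)) atTop (𝓝 (∫ x, f x ∂μ)))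
    (W : Finset ℕ) :
    ∫ x, test W x ∂μ = ∏ k ∈ W, (1 - J (D (u k) (h k) (MM k) (ll k) * g (MM k) (ll k))) := by
  refine tendsto_nhds_unique ((hμ _).comp t_mono.tendsto_atTop) (tendsto_const_nhds.congr' ?_)
  filter_upwards [eventually_ge_atTop (W.sup id + 1)] with K hK
  have hW : range K ∩ W = W := inter_eq_right.2 fun k hk => mem_range.2 (by
    have : k ≤ W.sup id := le_sup (f := id) hk
    omega)
  have e : test W * P (co u h) (t K) = ∏ k ∈ range K,
      ((if k ∈ W then 1 - g (MM k) (ll k) else 1) * D (u k) (h k) (MM k) (ll k)) := by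
    rw [prod_mul_distrib, prod_ite_mem, hW, P_co, test]
  rw [Function.comp_apply, e, J_blocks, ← hW, ← prod_ite_mem, hW]
  · refine prod_congr rfl fun k _ => ?_
    split_ifs
    · rw [sub_mul, one_mul, map_sub, J_D _ _ (MM_pos k), mul_comm (g _ _)]
    · rw [one_mul, J_D _ _ (MM_pos k)]
  · intro k
    have h1 := le_pow4 (MM_pos k) (ll k)
    have h2 := MM_pos k
    have h3 : (1 : C(T, ℝ)) ∈ B (MM k) (15 * (MM k * 4 ^ ll k)) := one_mem_B _ (by omega)
    refine B_mono dvd_rfl (le_of_eq (by ring)) (B_mul (d := 15 * (MM k * 4 ^ ll k)) ?_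
      (D_mem _ _ h2 _))
    split_ifs
    · exact Submodule.sub_mem _ h3 (g_mem h2 _)
    · exact h3

def win (L : ℕ) : Finset ℕ := Ico (8 ^ L - 1) (8 ^ L - 1 + 8 ^ L)

lemma win_card (L : ℕ) : (win L).card = 8 ^ L := by simp [win]

lemma ll_win {L k : ℕ} (h : k ∈ win L) : ll k = L + 1 := by
  have h1 := mem_Ico.1 h
  have h2 : 0 < 8 ^ L := by positivity
  rw [ll, Nat.log_eq_of_pow_le_of_lt_pow (m := L) (by omega) (by rw [pow_succ]; omega)]

lemma zero_phase (ρ σ : Measure T) [IsProbabilityMeasure ρ] [IsProbabilityMeasure σ]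
    (hρ : ∀ f : C(T, ℝ), Tendsto (fun N => J (f * P (co (fun k => 1 - ep k) fun k => 1 - et k) N))
      atTop (𝓝 (∫ x, f x ∂ρ)))
    (hσ : ∀ f : C(T, ℝ), Tendsto (fun N => J (f * P (co (fun k => 1 - et k) fun k => 1 - et k) N))
      atTop (𝓝 (∫ x, f x ∂σ))) : ¬ ρ ≪ σ := by
  have hi : ∀ (μ : Measure T) [IsProbabilityMeasure μ] (L : ℕ),
      ∫ x, (1 - test (win L)) x ∂μ = 1 - ∫ x, test (win L) x ∂μ := fun μ _ L => by
    simp only [ContinuousMap.sub_apply, ContinuousMap.one_apply]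
    rw [integral_sub (integrable_const _) (integ _ _)]; simp
  have b1 : ∀ k, |1 - et k| ≤ 1 := fun k =>
    abs_le.2 ⟨by linarith [et_le k, ep_le k], by linarith [et_pos k]⟩
  refine not_ac ρ σ (1 - Real.exp (-(1 / 32))) (by simp) (fun L => 1 - test (win L))
    (fun L x => sub_nonneg.2 (test_bd _ x).2) (fun L x => sub_le_self _ (test_bd _ x).1)
    (fun L => ?_) ?_
  · rw [hi, int_test _ _ ρ hρ]
    refine sub_le_sub_left ((prod_le_prod (g := fun _ => Real.exp (-(1 / 32 / 8 ^ L)))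
      (fun k _ => ?_) fun k hk => ?_).trans (le_of_eq ?_)) _
    · have h1 : J (D (1 - ep k) (1 - et k) (MM k) (ll k) * g (MM k) (ll k)) ≤
          J (D (1 - ep k) (1 - et k) (MM k) (ll k)) := J_mono fun x => by
        rw [ContinuousMap.mul_apply]
        exact mul_le_of_le_one_right (D_nonneg
          (abs_le.2 ⟨by linarith [ep_le k], by linarith [ep_pos k]⟩) (b1 k) _ _ _) (g_bd _ _ _).2
      rw [J_D _ _ (MM_pos k)] at h1
      linarith
    · have h1 := J_Dg_ge (ep_pos k).le (by linarith [ep_le k]) (h := 1 - et k)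
        (by linarith [et_le k, ep_le k]) (by linarith [et_pos k]) (MM_pos k) (ll k)
      have h2 : ep k * (1 / 4 * (3 / 8) ^ ll k) = 1 / 32 / 8 ^ L := by
        rw [ep, ll_win hk, div_pow, pow_succ (8 : ℝ)]; field_simp; norm_num
      have h3 := Real.add_one_le_exp (-(1 / 32 / 8 ^ L))
      linarith
    · rw [prod_const, win_card, ← Real.exp_nat_mul]
      congr 1; push_cast; field_simp
  · refine squeeze_zero (g := fun L => (1 / 2 : ℝ) ^ L) (fun L => integral_nonneg fun x =>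
      sub_nonneg.2 (test_bd _ x).2) (fun L => ?_)
      (tendsto_pow_atTop_nhds_zero_of_lt_one (by norm_num) (by norm_num))
    rw [hi, int_test _ _ σ hσ]
    have h0 : (0 : ℝ) < 16 ^ L := by positivity
    have h1 : (1 : ℝ) / 16 ^ L ≤ 1 := by
      rw [div_le_one h0]; exact one_le_pow₀ (by norm_num)
    have h2 : ∏ _k ∈ win L, (1 + -(1 / 16 ^ L) : ℝ) ≤ ∏ k ∈ win L,
        (1 - J (D (1 - et k) (1 - et k) (MM k) (ll k) * g (MM k) (ll k))) := by
      refine prod_le_prod (fun _ _ => by linarith) fun k hk => ?_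
      have h3 := J_Dg_le (et_pos k).le (by linarith [et_le k, ep_le k]) (b1 k) (MM_pos k) (ll k)
      have h4 : et k + 1 / 16 ^ ll k ≤ 1 / 16 ^ L := by
        rw [et, ll_win hk, pow_succ, ← add_div, div_le_div_iff₀ (by positivity) h0]; nlinarith
      linarith
    rw [prod_const, win_card] at h2
    have h5 := one_add_mul_le_pow (a := (-(1 / 16 ^ L) : ℝ)) (by linarith) (8 ^ L)
    have h6 : ((8 ^ L : ℕ) : ℝ) * -(1 / 16 ^ L) = -(1 / 2) ^ L := by
      push_cast
      rw [show (16 : ℝ) = 8 * 2 by norm_num, mul_pow, one_div_pow]; field_simp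
    linarith

lemma ep_summable : Summable fun k => ep k ^ 2 := by
  have hp : 1 < Real.logb 8 9 := (Real.lt_logb_iff_rpow_lt (by norm_num) (by norm_num)).2
    (by norm_num)
  have h := (summable_nat_add_iff 1).2 (Real.summable_one_div_nat_rpow.2 hp)
  refine Summable.of_nonneg_of_le (fun k => sq_nonneg _) (fun k => ?_) h
  rw [ep, one_div_pow, ← pow_mul, mul_comm, pow_mul]
  refine one_div_le_one_div_of_le (by positivity) ?_
  have h1 : ((k + 1 : ℕ) : ℝ) ≤ 8 ^ ll k := by
    exact_mod_cast (Nat.lt_pow_succ_log_self (by norm_num) (k + 1)).le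
  refine (Real.rpow_le_rpow (by positivity) h1 (by linarith)).trans (le_of_eq ?_)
  rw [← Real.rpow_natCast, ← Real.rpow_mul (by norm_num), mul_comm, Real.rpow_mul (by norm_num),
    Real.rpow_logb (by norm_num) (by norm_num) (by norm_num), Real.rpow_natCast]
  norm_num

lemma pi_phase (ρ σ : Measure T) [IsProbabilityMeasure ρ] [IsProbabilityMeasure σ]
    (hρ : ∀ f : C(T, ℝ), Tendsto
      (fun N => J (f * P (co (fun k => -(1 - ep k)) fun k => -(1 - et k)) N)) atTop (𝓝 (∫ x, f x ∂ρ)))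
    (hσ : ∀ f : C(T, ℝ), Tendsto
      (fun N => J (f * P (co (fun k => -(1 - et k)) fun k => -(1 - et k)) N)) atTop (𝓝 (∫ x, f x ∂σ))) :
    ρ ≪ σ := by
  refine ac_of ρ σ (Real.exp (16 * ∑' k, ep k ^ 2)) (Real.exp_pos _) fun θ hθ f hf => ?_
  rw [div_eq_inv_mul]
  refine le_of_tendsto_of_tendsto' ((hρ f).comp t_mono.tendsto_atTop)
    ((((hσ f).comp t_mono.tendsto_atTop).const_mul _).const_add _) fun K => ?_
  have e1 : ∀ k, ep k ≤ 1 := fun k => by linarith [ep_le k]
  have b1 : ∀ k, |(-(1 - et k))| ≤ 1 := fun k =>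
    abs_le.2 ⟨by linarith [et_pos k], by linarith [et_le k, ep_le k]⟩
  have b2 : ∀ k, |(-(1 - ep k))| ≤ 1 := fun k =>
    abs_le.2 ⟨by linarith [ep_pos k], by linarith [ep_le k]⟩
  set q : C(T, ℝ) := ∏ k ∈ range K, Q (ep k) (et k) (MM k) (Nat.log 8 (k + 1)) with hq
  have h1 : J q ≤ Real.exp (16 * ∑' k, ep k ^ 2) := by
    rw [hq, J_blocks _ fun k => B_mono dvd_rfl (by
      have := le_pow4 (MM_pos k) (ll k)
      have := MM_pos k
      rw [← ll]; omega) (Q_mem _ _ (MM_pos k) _)]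
    refine (prod_le_prod (g := fun k => Real.exp (16 * ep k ^ 2)) (fun k _ => ?_)
      fun k _ => ?_).trans ?_
    · rw [J_Q _ _ (MM_pos k)]; positivity
    · rw [J_Q _ _ (MM_pos k), add_comm]; exact Real.add_one_le_exp _
    · rw [← Real.exp_sum, ← mul_sum]
      exact Real.exp_le_exp.2 (mul_le_mul_of_nonneg_left
        (ep_summable.sum_le_tsum _ fun k _ => sq_nonneg _) (by norm_num))
  simp only [Function.comp_apply, P_co]
  refine le_trans (J_mono (g := θ • q + (4 * θ)⁻¹ •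
    (f * ∏ k ∈ range K, D (-(1 - et k)) (-(1 - et k)) (MM k) (ll k))) fun x => ?_) ?_
  · simp only [hq, ContinuousMap.mul_apply, ContinuousMap.add_apply, ContinuousMap.smul_apply,
      ContinuousMap.prod_apply, smul_eq_mul]
    refine amgm (prod_nonneg fun k _ => D_nonneg (b2 k) (b1 k) _ _ _)
      (prod_nonneg fun k _ => D_nonneg (b1 k) (b1 k) _ _ _)
      (prod_nonneg fun k _ => Q_nonneg (et_pos k).le (et_le k) (e1 k) _ _ _) hθ (hf x).1 (hf x).2 ?_
    rw [← prod_pow, ← prod_mul_distrib]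
    exact prod_le_prod (fun k _ => sq_nonneg _) fun k _ =>
      D_sq_le (et_pos k).le (et_le k) (e1 k) _ _ x
  · rw [map_add, map_smul, map_smul, smul_eq_mul, smul_eq_mul]
    exact add_le_add_left (mul_le_mul_of_nonneg_left h1 hθ.le) _

end Pool.Agent.H12.RP
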