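import Mathlib

set_option autoImplicit false
set_option linter.unusedSectionVars false
open MeasureTheory Filter Topology Finset BoundedContinuousFunction

namespace Pool.Agent.H12.Rec

/-- Cesaro average -/
noncomputable def av (u : ℕ → ℂ) (N : ℕ) : ℂ := (N : ℂ)⁻¹ * ∑ k ∈ range N, u k

/-- real Cesaro average -/
noncomputable def avr (u : ℕ → ℝ) (N : ℕ) : ℝ := (N : ℝ)⁻¹ * ∑ k ∈ range N, u k

lemma norm_av_le {u : ℕ → ℂ} {v : ℕ → ℝ} (h : ∀ k, ‖u k‖ ≤ v k) (N : ℕ) : ‖av u N‖ ≤ avr v N := by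
  unfold av avr
  rw [norm_mul, norm_inv, Complex.norm_natCast]
  exact mul_le_mul_of_nonneg_left ((norm_sum_le _ _).trans (sum_le_sum fun k _ => h k))
    (by positivity)

lemma avr_le_one {v : ℕ → ℝ} (h : ∀ k, v k ≤ 1) (N : ℕ) : avr v N ≤ 1 := by
  unfold avr
  rcases Nat.eq_zero_or_pos N with rfl | hN
  · simp
  have hN' : (0 : ℝ) < N := by exact_mod_cast hN
  rw [inv_mul_le_iff₀ hN']
  calc _ ≤ ∑ _k ∈ range N, (1 : ℝ) := sum_le_sum fun k _ => h k
    _ = _ := by simp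

lemma av_const (c : ℂ) : Tendsto (av fun _ => c) atTop (𝓝 c) := by
  refine tendsto_const_nhds.congr' ?_
  filter_upwards [eventually_gt_atTop 0] with N hN
  have : (N : ℂ) ≠ 0 := by exact_mod_cast hN.ne'
  simp [av, this]

lemma avr_mono {u v : ℕ → ℝ} (h : ∀ k, u k ≤ v k) (N : ℕ) : avr u N ≤ avr v N :=
  mul_le_mul_of_nonneg_left (sum_le_sum fun k _ => h k) (by positivity)

lemma avr_nonneg {u : ℕ → ℝ} (h : ∀ k, 0 ≤ u k) (N : ℕ) : 0 ≤ avr u N :=
  mul_nonneg (by positivity) (sum_nonneg fun k _ => h k)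

structure Good {Ω : Type*} [TopologicalSpace Ω] (C : Set C(Ω, ℂ)) : Prop where
  one : 1 ∈ C
  mul : ∀ φ ∈ C, ∀ ψ ∈ C, φ * ψ ∈ C
  star : ∀ φ ∈ C, star φ ∈ C
  sep : ∀ x y, x ≠ y → ∃ φ ∈ C, φ x ≠ φ y
  le : ∀ φ ∈ C, ∀ x, ‖φ x‖ ≤ 1

section
variable {Ω : Type*} [TopologicalSpace Ω] [CompactSpace Ω] {C : Set C(Ω, ℂ)}

lemma Good.dense (h : Good C) : (Submodule.span ℂ C).topologicalClosure = ⊤ := by
  let A : StarSubalgebra ℂ C(Ω, ℂ) :=
    { toSubalgebra := Algebra.adjoin ℂ C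
      star_mem' := by
        change Algebra.adjoin ℂ C ≤ Star.star (Algebra.adjoin ℂ C)
        refine Algebra.adjoin_le ?_
        intro φ hφ
        exact Algebra.subset_adjoin (h.star φ hφ) }
  have e : Subalgebra.toSubmodule A.toSubalgebra = Submodule.span ℂ C := by
    apply Algebra.adjoin_eq_span_of_subset
    refine Set.Subset.trans ?_ Submodule.subset_span
    intro x hx
    refine Submonoid.closure_induction (fun _ => id) h.one ?_ hx
    intro a b _ _ ha hb
    exact h.mul a ha b hb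
  have hs : A.SeparatesPoints := by
    intro x y hxy
    obtain ⟨φ, hφ, hne⟩ := h.sep x y hxy
    exact ⟨_, ⟨φ, Algebra.subset_adjoin hφ, rfl⟩, hne⟩
  rw [← e]
  exact congr_arg (Subalgebra.toSubmodule <| StarSubalgebra.toSubalgebra ·)
    (ContinuousMap.starSubalgebra_topologicalClosure_eq_top_of_separatesPoints A hs)

variable [MeasurableSpace Ω] [BorelSpace Ω] [PolishSpace Ω]

lemma cint (μ : Measure Ω) [IsFiniteMeasure μ] (φ : C(Ω, ℂ)) : Integrable φ μ :=
  (mkOfCompact φ).integrable μ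

lemma Good.approx (h : Good C) (μ : Measure Ω) [IsFiniteMeasure μ] {f : Ω → ℂ}
    (hf : Integrable f μ) {ε : ℝ} (hε : 0 < ε) :
    ∃ φ ∈ Submodule.span ℂ C, ∫ x, ‖f x - φ x‖ ∂μ ≤ ε := by
  obtain ⟨g, hg, -⟩ := hf.exists_boundedContinuous_integral_sub_le (half_pos hε)
  have hd : g.toContinuousMap ∈ closure (Submodule.span ℂ C : Set C(Ω, ℂ)) := by
    rw [← Submodule.topologicalClosure_coe, h.dense]; trivial
  set K := μ.real Set.univ with hK
  have hK0 : 0 ≤ K := measureReal_nonneg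
  obtain ⟨φ, hφ, hd⟩ := Metric.mem_closure_iff.1 hd (ε / 2 / (K + 1)) (by positivity)
  refine ⟨φ, hφ, ?_⟩
  have h1 : ∀ x, ‖g x - φ x‖ ≤ ε / 2 / (K + 1) := fun x => by
    have := ContinuousMap.dist_apply_le_dist (f := g.toContinuousMap) (g := φ) x
    rw [dist_eq_norm] at this
    exact this.trans hd.le
  have i1 : Integrable (fun x => ‖f x - g x‖) μ := (hf.sub (g.integrable μ)).norm
  calc _ ≤ ∫ x, (‖f x - g x‖ + ε / 2 / (K + 1)) ∂μ := by
        apply integral_mono (hf.sub (cint μ φ)).norm (i1.add (integrable_const _))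
        intro x
        have := norm_add_le (f x - g x) (g x - φ x)
        simp only [sub_add_sub_cancel] at this
        exact this.trans (by have := h1 x; simp only [Pi.add_apply]; linarith)
    _ = ∫ x, ‖f x - g x‖ ∂μ + K * (ε / 2 / (K + 1)) := by
        rw [integral_add i1 (integrable_const _), integral_const, smul_eq_mul]
    _ ≤ ε / 2 + ε / 2 := by
        refine add_le_add hg ?_
        rw [mul_div_assoc', div_le_iff₀ (by positivity)]
        nlinarith
    _ = ε := by ring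

lemma Good.ext (h : Good C) (μ ν : Measure Ω) [IsFiniteMeasure μ] [IsFiniteMeasure ν]
    (he : ∀ φ ∈ C, ∫ x, φ x ∂μ = ∫ x, φ x ∂ν) : μ = ν := by
  have hs : ∀ φ ∈ Submodule.span ℂ C, ∫ x, φ x ∂μ = ∫ x, φ x ∂ν := by
    intro φ hφ
    induction hφ using Submodule.span_induction with
    | mem x hx => exact he x hx
    | zero => simp
    | add x y _ _ hx hy =>
      simp only [ContinuousMap.add_apply]
      rw [integral_add (cint _ _) (cint _ _), integral_add (cint _ _) (cint _ _), hx, hy]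
    | smul a x _ hx =>
      simp only [ContinuousMap.smul_apply]
      rw [integral_smul, integral_smul, hx]
  ext E hE
  suffices μ.real E = ν.real E by
    rwa [measureReal_def, measureReal_def,
      ENNReal.toReal_eq_toReal_iff' (measure_ne_top _ _) (measure_ne_top _ _)] at this
  set f : Ω → ℂ := E.indicator fun _ => 1 with hf
  have fi : ∀ (ρ : Measure Ω) [IsFiniteMeasure ρ], Integrable f ρ := fun ρ _ =>
    (integrable_const _).indicator hE
  have fe : ∀ (ρ : Measure Ω) [IsFiniteMeasure ρ], ∫ x, f x ∂ρ = (ρ.real E : ℂ) := fun ρ _ => by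
    rw [hf, integral_indicator hE]; simp
  have : ∀ ε > 0, ‖(μ.real E : ℂ) - ν.real E‖ ≤ ε := by
    intro ε hε
    obtain ⟨φ, hφ, hl⟩ := h.approx (μ + ν) (fi _) hε
    rw [integral_add_measure (f := fun x => ‖f x - φ x‖) ((fi _).sub (cint _ _)).norm
      ((fi _).sub (cint _ _)).norm] at hl
    have e : (μ.real E : ℂ) - ν.real E = ∫ x, (f x - φ x) ∂μ - ∫ x, (f x - φ x) ∂ν := by
      rw [integral_sub (fi _) (cint _ _), integral_sub (fi _) (cint _ _), fe, fe, hs φ hφ]; ring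
    rw [e]
    refine (norm_sub_le _ _).trans (le_trans (add_le_add ?_ ?_) hl) <;>
      exact norm_integral_le_integral_norm _
  have h0 : ‖(μ.real E : ℂ) - ν.real E‖ ≤ 0 := le_of_forall_pos_le_add fun ε hε => by
    simpa using this ε hε
  have := sub_eq_zero.1 (norm_le_zero_iff.1 h0)
  exact_mod_cast this

lemma Good.ext_lim (h : Good C) (μ : Measure Ω) [IsFiniteMeasure μ] {Ψ : ℕ → Ω → ℂ}
    (hm : ∀ N, Measurable (Ψ N)) (hb : ∀ N x, ‖Ψ N x‖ ≤ 2)
    (hC : ∀ φ ∈ C, Tendsto (fun N => ∫ x, φ x * Ψ N x ∂μ) atTop (𝓝 0)) {f : Ω → ℂ}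
    (hf : Integrable f μ) : Tendsto (fun N => ∫ x, f x * Ψ N x ∂μ) atTop (𝓝 0) := by
  have ii : ∀ {g : Ω → ℂ}, Integrable g μ → ∀ N, Integrable (fun x => g x * Ψ N x) μ :=
    fun hg N => hg.mul_bdd (hm N).aestronglyMeasurable (ae_of_all _ (hb N))
  have hs : ∀ φ ∈ Submodule.span ℂ C, Tendsto (fun N => ∫ x, φ x * Ψ N x ∂μ) atTop (𝓝 0) := by
    intro φ hφ
    induction hφ using Submodule.span_induction with
    | mem x hx => exact hC x hx
    | zero => simp
    | add x y _ _ hx hy =>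
      have := hx.add hy
      rw [add_zero] at this
      refine this.congr fun N => ?_
      simp only [ContinuousMap.add_apply, add_mul]
      rw [integral_add (ii (cint _ _) N) (ii (cint _ _) N)]
    | smul a x _ hx =>
      have := hx.const_mul a
      rw [mul_zero] at this
      refine this.congr fun N => ?_
      simp only [ContinuousMap.smul_apply, smul_eq_mul, mul_assoc]
      rw [integral_const_mul]
  rw [Metric.tendsto_atTop]
  intro ε hε
  obtain ⟨φ, hφ, hl⟩ := h.approx μ hf (show 0 < ε / 4 by positivity)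
  obtain ⟨N, hN⟩ := Metric.tendsto_atTop.1 (hs φ hφ) (ε / 2) (by positivity)
  refine ⟨N, fun n hn => ?_⟩
  have h1 := hN n hn
  rw [dist_zero_right] at h1 ⊢
  have e : ∫ x, f x * Ψ n x ∂μ = ∫ x, (f x - φ x) * Ψ n x ∂μ + ∫ x, φ x * Ψ n x ∂μ := by
    rw [← integral_add (ii (g := fun x => f x - φ x) (hf.sub (cint _ _)) n) (ii (cint _ _) n)]
    congr 1; ext x; ring
  have h2 : ‖∫ x, (f x - φ x) * Ψ n x ∂μ‖ ≤ ∫ x, ‖f x - φ x‖ * 2 ∂μ := by
    apply norm_integral_le_of_norm_le ((hf.sub (cint _ _)).norm.mul_const _)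
    refine ae_of_all _ fun x => ?_
    rw [norm_mul]
    exact mul_le_mul_of_nonneg_left (hb n x) (norm_nonneg _)
  rw [integral_mul_const] at h2
  rw [e]
  have := norm_add_le (∫ x, (f x - φ x) * Ψ n x ∂μ) (∫ x, φ x * Ψ n x ∂μ)
  linarith

/-- Cesaro factorisation on a class -/
def CF (C : Set C(Ω, ℂ)) (P : Measure Ω) (S : Ω → Ω) : Prop :=
  ∀ φ ∈ C, ∀ ψ ∈ C, Tendsto (av fun k => ∫ x, φ x * ψ (S^[k] x) ∂P) atTop
    (𝓝 ((∫ x, φ x ∂P) * ∫ x, ψ x ∂P))

/-- strong Cesaro factorisation on a class -/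
def SCF (C : Set C(Ω, ℂ)) (P : Measure Ω) (S : Ω → Ω) : Prop :=
  ∀ φ ∈ C, ∀ ψ ∈ C, Tendsto (avr fun k => ‖∫ x, φ x * ψ (S^[k] x) ∂P -
    (∫ x, φ x ∂P) * ∫ x, ψ x ∂P‖) atTop (𝓝 0)

lemma Good.norm_int (h : Good C) (P : Measure Ω) [IsProbabilityMeasure P] {φ : C(Ω, ℂ)}
    (hφ : φ ∈ C) : ‖∫ x, φ x ∂P‖ ≤ 1 := by
  simpa using norm_integral_le_of_norm_le_const (μ := P) (ae_of_all _ (h.le φ hφ))

lemma Good.erg (h : Good C) (P : Measure Ω) [IsProbabilityMeasure P] {S : Ω → Ω}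
    (hS : MeasurePreserving S P P) (hc : CF C P S) (E : Set Ω) (hE : MeasurableSet E)
    (hi : S ⁻¹' E = E) : P E = 0 ∨ P E = 1 := by
  set f : Ω → ℂ := E.indicator fun _ => 1 with hf
  have fi : Integrable f P := (integrable_const _).indicator hE
  have fm : Measurable f := measurable_const.indicator hE
  have fe : ∫ x, f x ∂P = (P.real E : ℂ) := by
    rw [hf, integral_indicator hE]; simp
  have fk : ∀ k x, f (S^[k] x) = f x := by
    intro k x
    have : (S^[k]) ⁻¹' E = E := by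
      rw [Set.preimage_iterate_eq]; exact Function.iterate_fixed hi k
    have h2 : S^[k] x ∈ E ↔ x ∈ E := by rw [← Set.mem_preimage, this]
    by_cases hx : x ∈ E
    · simp [hf, hx, h2.2 hx]
    · simp [hf, hx, mt h2.1 hx]
  have key : ∀ ψ ∈ C, ∫ x, ψ x ∂(P.restrict E) = ∫ x, ψ x ∂((P E) • P) := by
    intro ψ hψ
    set m := ∫ x, ψ x ∂P with hm
    have hm1 : ‖m‖ ≤ 1 := h.norm_int P hψ
    have mk : ∀ k, Measurable fun x => ψ (S^[k] x) := fun k =>
      ψ.continuous.measurable.comp (hS.iterate k).measurable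
    have ii : ∀ {g : Ω → ℂ}, Integrable g P → ∀ k, Integrable (fun x => g x * ψ (S^[k] x)) P :=
      fun hg k => hg.mul_bdd (mk k).aestronglyMeasurable (ae_of_all _ fun x => h.le ψ hψ _)
    have ex : ∀ {g : Ω → ℂ}, Integrable g P → ∀ N,
        ∫ x, g x * (av (fun k => ψ (S^[k] x)) N - m) ∂P =
          av (fun k => ∫ x, g x * ψ (S^[k] x) ∂P) N - (∫ x, g x ∂P) * m := by
      intro g hg N
      have : ∀ x, g x * (av (fun k => ψ (S^[k] x)) N - m) =
          (N : ℂ)⁻¹ * ∑ k ∈ range N, g x * ψ (S^[k] x) - g x * m := by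
        intro x; rw [av, ← mul_sum]; ring
      simp only [this]
      rw [integral_sub ((integrable_finsetSum _ fun k _ => ii hg k).const_mul _) (hg.mul_const _),
        integral_const_mul, integral_finsetSum _ fun k _ => ii hg k, integral_mul_const, av]
    have := h.ext_lim P (Ψ := fun N x => av (fun k => ψ (S^[k] x)) N - m)
      (fun N => by
        unfold av
        exact ((Finset.measurable_sum _ fun k _ => mk k).const_mul _).sub_const _)
      (fun N x => by
        have h1 := (norm_av_le (v := fun _ => 1) (fun k => h.le ψ hψ (S^[k] x)) N).trans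
          (avr_le_one (fun _ => le_rfl) N)
        exact (norm_sub_le _ _).trans (by linarith))
      (fun φ hφ => by
        simp only [ex (cint P φ)]
        exact tendsto_sub_nhds_zero_iff.2 (hc φ hφ ψ hψ)) fi
    simp only [ex fi] at this
    have e1 : ∀ k, ∫ x, f x * ψ (S^[k] x) ∂P = ∫ x, f x * ψ x ∂P := by
      intro k
      conv_rhs => rw [← (hS.iterate k).map_eq]
      rw [integral_map (f := fun x => f x * ψ x) (hS.iterate k).measurable.aemeasurable
        (fm.mul ψ.continuous.measurable).aestronglyMeasurable]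
      simp only [fk]
    simp only [e1] at this
    have e2 := tendsto_nhds_unique (tendsto_sub_nhds_zero_iff.1 this) (av_const _)
    rw [integral_smul_measure, ← integral_indicator hE, ← hm]
    have : ∀ x, E.indicator (fun x => ψ x) x = f x * ψ x := by
      intro x; by_cases hx : x ∈ E <;> simp [hf, hx]
    simp only [this]
    rw [← e2, fe]; simp [measureReal_def]
  have : IsFiniteMeasure ((P E) • P) := Measure.smul_finite P (measure_ne_top _ _)
  have e := h.ext _ _ key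
  have e2 : P E = P E * P E := by
    have := congrArg (fun ρ : Measure Ω => ρ E) e
    simpa [hE] using this
  by_cases h0 : P E = 0
  · exact Or.inl h0
  · right
    have : P E * 1 = P E * P E := by rw [mul_one]; exact e2
    exact ((ENNReal.mul_right_inj h0 (measure_ne_top _ _)).1 this).symm

lemma exists_lim {ι : Type*} (φ : ι → C(Ω, ℂ)) (L : ι → ℂ) (P : ℕ → Measure Ω)
    [hP : ∀ N, IsProbabilityMeasure (P N)]
    (h : ∀ i, Tendsto (fun N => ∫ x, φ i x ∂(P N)) atTop (𝓝 (L i))) :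
    ∃ Q : Measure Ω, IsProbabilityMeasure Q ∧ ∀ i, ∫ x, φ i x ∂Q = L i := by
  set M : ℕ → ProbabilityMeasure Ω := fun n => ⟨P n, hP n⟩ with hM
  obtain ⟨ξ, -, hξ⟩ := (isCompact_univ (X := ProbabilityMeasure Ω)).ultrafilter_le_nhds
    ((hyperfilter ℕ).map M) (by simp)
  have hlim : Tendsto M (hyperfilter ℕ) (𝓝 ξ) := hξ
  rw [ProbabilityMeasure.tendsto_iff_forall_integral_rclike_tendsto ℂ] at hlim
  have hle : (hyperfilter ℕ : Filter ℕ) ≤ atTop := Nat.hyperfilter_le_atTop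
  refine ⟨ξ, inferInstance, fun i => ?_⟩
  exact tendsto_nhds_unique (hlim (mkOfCompact (φ i))) ((h i).mono_left hle)

end

section
variable {Ω Ω' : Type*} [TopologicalSpace Ω] [CompactSpace Ω] [TopologicalSpace Ω']
  [CompactSpace Ω'] {C : Set C(Ω, ℂ)} {C' : Set C(Ω', ℂ)}

/-- tensor class -/
def tens (C : Set C(Ω, ℂ)) (C' : Set C(Ω', ℂ)) : Set C(Ω × Ω', ℂ) :=
  {θ | ∃ φ ∈ C, ∃ ψ ∈ C', ∀ p, θ p = φ p.1 * ψ p.2}

lemma Good.tens (h : Good C) (h' : Good C') : Good (tens C C') where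
  one := ⟨1, h.one, 1, h'.one, fun p => by simp⟩
  mul := by
    rintro a ⟨φ, hφ, ψ, hψ, e⟩ b ⟨φ', hφ', ψ', hψ', e'⟩
    exact ⟨_, h.mul _ hφ _ hφ', _, h'.mul _ hψ _ hψ', fun p => by simp [e, e']; ring⟩
  star := by
    rintro a ⟨φ, hφ, ψ, hψ, e⟩
    exact ⟨_, h.star _ hφ, _, h'.star _ hψ, fun p => by simp [e]⟩
  sep := by
    intro x y hxy
    by_cases h1 : x.1 = y.1
    · have h2 : x.2 ≠ y.2 := fun h2 => hxy (Prod.ext h1 h2)
      obtain ⟨ψ, hψ, hne⟩ := h'.sep _ _ h2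
      exact ⟨ψ.comp ⟨Prod.snd, continuous_snd⟩, ⟨1, h.one, ψ, hψ, fun p => by simp⟩, hne⟩
    · obtain ⟨ψ, hψ, hne⟩ := h.sep _ _ h1
      exact ⟨ψ.comp ⟨Prod.fst, continuous_fst⟩, ⟨ψ, hψ, 1, h'.one, fun p => by simp⟩, hne⟩
  le := by
    rintro a ⟨φ, hφ, ψ, hψ, e⟩ p
    rw [e, norm_mul]
    exact mul_le_one₀ (h.le _ hφ _) (norm_nonneg _) (h'.le _ hψ _)

variable [MeasurableSpace Ω] [BorelSpace Ω] [PolishSpace Ω]
  [MeasurableSpace Ω'] [BorelSpace Ω'] [PolishSpace Ω']

lemma CF.tens (h : Good C) {P : Measure Ω} {P' : Measure Ω'}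
    [IsProbabilityMeasure P] [IsProbabilityMeasure P'] {S : Ω → Ω} {S' : Ω' → Ω'}
    (hc : CF C P S) (hc' : SCF C' P' S') : CF (tens C C') (P.prod P') (Prod.map S S') := by
  rintro a ⟨φ, hφ, ψ, hψ, e⟩ b ⟨φ', hφ', ψ', hψ', e'⟩
  have e1 : ∀ k, ∫ p, a p * b ((Prod.map S S')^[k] p) ∂(P.prod P') =
      (∫ x, φ x * φ' (S^[k] x) ∂P) * ∫ x, ψ x * ψ' (S'^[k] x) ∂P' := by
    intro k
    rw [← integral_prod_mul]
    congr 1; ext p
    rw [e, e', Prod.map_iterate]; simp; ring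
  have e2 : ∫ p, a p ∂(P.prod P') = (∫ x, φ x ∂P) * ∫ x, ψ x ∂P' := by
    rw [← integral_prod_mul]; simp only [e]
  have e3 : ∫ p, b p ∂(P.prod P') = (∫ x, φ' x ∂P) * ∫ x, ψ' x ∂P' := by
    rw [← integral_prod_mul]; simp only [e']
  simp only [e1, e2, e3]
  set β := (∫ x, ψ x ∂P') * ∫ x, ψ' x ∂P' with hβ
  set u := fun k => ∫ x, φ x * φ' (S^[k] x) ∂P with hu
  set v := fun k => ∫ x, ψ x * ψ' (S'^[k] x) ∂P' with hv
  have t1 := (hc φ hφ φ' hφ').mul_const β
  have t2 : Tendsto (av fun k => u k * (v k - β)) atTop (𝓝 0) := by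
    refine squeeze_zero_norm (fun N => norm_av_le (fun k => ?_) N) (hc' ψ hψ ψ' hψ')
    rw [norm_mul]
    refine mul_le_of_le_one_left (norm_nonneg _) ?_
    have := norm_integral_le_of_norm_le_const (μ := P) (C := 1)
      (f := fun x => φ x * φ' (S^[k] x)) (ae_of_all _ fun x => by
        rw [norm_mul]; exact mul_le_one₀ (h.le _ hφ _) (norm_nonneg _) (h.le _ hφ' _))
    simpa using this
  have := t1.add t2
  rw [add_zero] at this
  convert this using 2 with N
  · simp only [av, mul_sub, sum_sub_distrib, ← sum_mul]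
    rw [← hu]; simp only [hu, hv]; ring
  · rw [hβ]; ring

end

end Pool.Agent.H12.Rec
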