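import Pool.Agent.H12.Rec1

set_option autoImplicit false
set_option linter.unusedSectionVars false
open MeasureTheory Filter Topology Finset ComplexConjugate

namespace Pool.Agent.H12.Rec

abbrev TT := UnitAddCircle

instance volProb : IsProbabilityMeasure (volume : Measure TT) := ⟨by simp⟩

/-- the basic character of the circle -/
noncomputable def ee (t : TT) : ℂ := AddCircle.toCircle t

lemma ee_add (s t : TT) : ee (s + t) = ee s * ee t := by
  simp [ee, AddCircle.toCircle_add]
lemma ee_zero : ee 0 = 1 := by simp [ee]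
lemma norm_ee (t : TT) : ‖ee t‖ = 1 := by simp [ee]
lemma ee_neg (t : TT) : ee (-t) = conj (ee t) := by
  rw [ee, AddCircle.toCircle_neg, Circle.coe_inv_eq_conj]; rfl
lemma ee_nsmul (k : ℕ) (t : TT) : ee (k • t) = ee t ^ k := by
  simp [ee, AddCircle.toCircle_nsmul]
lemma continuous_ee : Continuous ee := continuous_induced_dom.comp AddCircle.continuous_toCircle
lemma ee_inj {s t : TT} (h : ee s = ee t) : s = t :=
  AddCircle.injective_toCircle one_ne_zero (Subtype.ext h)
lemma ee_coe (x : ℝ) : ee (x : TT) = Complex.exp (2 * Real.pi * x * Complex.I) := by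
  simp [ee, AddCircle.toCircle_apply_mk]
lemma ee_mul_conj (t : TT) : ee t * conj (ee t) = 1 := by
  rw [← ee_neg, ← ee_add, add_neg_cancel, ee_zero]
lemma ee_half (n : ℤ) (hn : n ≠ 0) : ee (n • ((1 / 2 / n : ℝ) : TT)) = -1 := by
  have : (n : ℝ) ≠ 0 := by exact_mod_cast hn
  rw [← AddCircle.coe_zsmul, ee_coe, zsmul_eq_mul, mul_div_cancel₀ _ this, ← Complex.exp_pi_mul_I]
  congr 1; push_cast; ring

lemma int_ee (n : ℤ) (hn : n ≠ 0) : ∫ t : TT, ee (n • t) = 0 :=
  integral_eq_zero_of_add_right_eq_neg (g := ((1 / 2 / n : ℝ) : TT)) fun x => by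
    rw [zsmul_add, ee_add, ee_half n hn]; simp

open Classical in
lemma av_geom (t : TT) : Tendsto (av fun k => ee t ^ k) atTop (𝓝 (if t = 0 then 1 else 0)) := by
  split_ifs with h
  · simpa [h, ee_zero] using av_const 1
  · have h1 : ee t ≠ 1 := fun h1 => h (ee_inj (by rw [h1, ee_zero]))
    have h2 : Tendsto (fun N : ℕ => (N : ℝ)⁻¹ * (2 / ‖ee t - 1‖)) atTop (𝓝 0) := by
      simpa using tendsto_inv_atTop_nhds_zero_nat (𝕜 := ℝ).mul_const (2 / ‖ee t - 1‖)
    refine squeeze_zero_norm (fun N => ?_) h2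
    rw [av, geom_sum_eq h1, norm_mul, norm_inv, Complex.norm_natCast, norm_div]
    gcongr
    refine (norm_sub_le _ _).trans ?_
    rw [norm_pow, norm_ee]; norm_num

section
variable {I : Type*}

/-- pairing -/
noncomputable def pr (a : I →₀ ℤ) (x : I → TT) : TT := Finsupp.linearCombination ℤ x a

lemma pr_apply (a : I →₀ ℤ) (x : I → TT) : pr a x = ∑ i ∈ a.support, a i • x i := rfl
lemma pr_add (a b : I →₀ ℤ) (x : I → TT) : pr (a + b) x = pr a x + pr b x := map_add _ _ _
lemma pr_neg (a : I →₀ ℤ) (x : I → TT) : pr (-a) x = -pr a x := map_neg _ _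
lemma pr_zero (x : I → TT) : pr 0 x = 0 := map_zero _
lemma pr_single (i : I) (n : ℤ) (x : I → TT) : pr (Finsupp.single i n) x = n • x i :=
  Finsupp.linearCombination_single _ _ _
lemma pr_add' (a : I →₀ ℤ) (x y : I → TT) : pr a (x + y) = pr a x + pr a y := by
  simp [pr_apply, sum_add_distrib]
lemma pr_nsmul (a : I →₀ ℤ) (k : ℕ) (x : I → TT) : pr a (k • x) = k • pr a x := by
  simp only [pr_apply, smul_sum, Pi.smul_apply]
  exact sum_congr rfl fun i _ => smul_comm _ _ _
lemma continuous_pr (a : I →₀ ℤ) : Continuous (pr a) := by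
  have : pr a = fun x => ∑ i ∈ a.support, a i • x i := rfl
  rw [this]; fun_prop

/-- characters of a power of the circle -/
noncomputable def ch (a : I →₀ ℤ) : C(I → TT, ℂ) :=
  ⟨fun x => ee (pr a x), continuous_ee.comp (continuous_pr a)⟩

lemma ch_apply (a : I →₀ ℤ) (x : I → TT) : ch a x = ee (pr a x) := rfl
lemma ch_add (a b : I →₀ ℤ) (x : I → TT) : ch (a + b) x = ch a x * ch b x := by
  simp [ch_apply, pr_add, ee_add]

lemma good_ch : Good (Set.range (ch (I := I))) where
  one := ⟨0, by ext x; simp [ch_apply, pr_zero, ee_zero]⟩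
  mul := by
    rintro _ ⟨a, rfl⟩ _ ⟨b, rfl⟩
    exact ⟨a + b, by ext x; simp [ch_add]⟩
  star := by
    rintro _ ⟨a, rfl⟩
    exact ⟨-a, by ext x; simp [ch_apply, pr_neg, ee_neg]⟩
  sep := by
    intro x y hxy
    obtain ⟨i, hi⟩ := Function.ne_iff.1 hxy
    refine ⟨_, ⟨Finsupp.single i 1, rfl⟩, fun h => hi ?_⟩
    simpa [ch_apply, pr_single] using ee_inj h
  le := by
    rintro _ ⟨a, rfl⟩ x
    rw [ch_apply, norm_ee]

end

lemma Good.mp {Ω : Type*} [TopologicalSpace Ω] [CompactSpace Ω] {C : Set C(Ω, ℂ)}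
    [MeasurableSpace Ω] [BorelSpace Ω] [PolishSpace Ω] (h : Good C) (P : Measure Ω)
    [IsProbabilityMeasure P] {S : Ω → Ω} (hS : Measurable S)
    (he : ∀ φ ∈ C, ∫ x, φ (S x) ∂P = ∫ x, φ x ∂P) : MeasurePreserving S P P := by
  refine ⟨hS, h.ext _ _ fun φ hφ => ?_⟩
  rw [integral_map hS.aemeasurable φ.continuous.aestronglyMeasurable, he φ hφ]

section rot
variable {I : Type} [Countable I]

open Classical in
lemma exists_rot (θ : I → TT) : ∃ P : Measure (I → TT), IsProbabilityMeasure P ∧
    ∀ a, ∫ x, ch a x ∂P = if pr a θ = 0 then 1 else 0 := by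
  set m : ℕ → Measure (I → TT) := fun n =>
    ((n + 1 : ℕ) : ENNReal)⁻¹ • ∑ t ∈ range (n + 1), Measure.dirac (t • θ) with hm
  have hmp : ∀ n, IsProbabilityMeasure (m n) := fun n => by
    constructor
    simp only [hm, Measure.smul_apply, Measure.coe_finsetSum, Finset.sum_apply, measure_univ,
      sum_const, card_range, nsmul_eq_mul, mul_one, smul_eq_mul]
    exact ENNReal.inv_mul_cancel (by simp) (by simp)
  refine exists_lim ch _ m fun a => ?_
  refine ((tendsto_add_atTop_iff_nat 1).2 (av_geom (pr a θ))).congr fun n => ?_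
  rw [hm]
  simp only
  rw [integral_smul_measure, integral_finsetSum_measure fun t _ => cint _ _]
  simp only [integral_dirac, ch_apply, pr_nsmul, ee_nsmul, av, ENNReal.toReal_inv,
    ENNReal.toReal_natCast, Complex.real_smul, Complex.ofReal_inv, Complex.ofReal_natCast]

variable {θ : I → TT} {P : Measure (I → TT)} [IsProbabilityMeasure P]

open Classical in
lemma rot_mp (h : ∀ a, ∫ x, ch a x ∂P = if pr a θ = 0 then 1 else 0) :
    MeasurePreserving (fun x => x + θ) P P := by
  refine good_ch.mp P (by fun_prop) ?_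
  rintro _ ⟨a, rfl⟩
  have : ∀ x, ch a (x + θ) = ch a x * ee (pr a θ) := fun x => by
    simp [ch_apply, pr_add', ee_add]
  simp only [this]
  rw [integral_mul_const, h]
  split_ifs with h0
  · simp [h0, ee_zero]
  · simp

lemma rot_iter (k : ℕ) (x : I → TT) : (fun x => x + θ)^[k] x = x + k • θ := by
  rw [add_right_iterate]

open Classical in
lemma rot_cf (h : ∀ a, ∫ x, ch a x ∂P = if pr a θ = 0 then 1 else 0) :
    CF (Set.range ch) P (fun x => x + θ) := by
  rintro _ ⟨a, rfl⟩ _ ⟨b, rfl⟩
  have : ∀ k, ∫ x, ch a x * ch b ((fun x => x + θ)^[k] x) ∂P =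
      ee (pr b θ) ^ k * ∫ x, ch (a + b) x ∂P := by
    intro k
    rw [← integral_const_mul]
    congr 1; ext x
    simp only [rot_iter, pr_add, ch_apply, pr_add', pr_nsmul, ee_add, ee_nsmul]; ring
  simp only [this]
  have t := (av_geom (pr b θ)).mul_const (∫ x, ch (a + b) x ∂P)
  convert t using 2 with N
  · simp only [av, ← sum_mul]; ring
  · rw [h, h, h, pr_add]
    by_cases h1 : pr b θ = 0 <;> simp [h1]

end rot

/-- the shift -/
def sh (x : ℕ → TT) : ℕ → TT := fun n => x (n + 1)

lemma sh_iter (k : ℕ) (x : ℕ → TT) : sh^[k] x = fun n => x (n + k) := by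
  induction k generalizing x with
  | zero => rfl
  | succ k ih => rw [Function.iterate_succ_apply, ih]; rfl

lemma measurable_sh : Measurable sh := by unfold sh; fun_prop

lemma ch_sh (b : ℕ →₀ ℤ) (k : ℕ) (x : ℕ → TT) :
    ch b (sh^[k] x) = ch (b.mapDomain (· + k)) x := by
  rw [sh_iter, ch_apply, ch_apply, pr, pr, Finsupp.linearCombination_mapDomain]; rfl

/-- Bernoulli measure -/
noncomputable def bern : Measure (ℕ → TT) := Measure.infinitePi fun _ => volume

instance bernProb : IsProbabilityMeasure bern := by unfold bern; infer_instance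

open Classical in
lemma bern_ch (c : ℕ →₀ ℤ) : ∫ x, ch c x ∂bern = if c = 0 then 1 else 0 := by
  split_ifs with h
  · simp [h, ch_apply, pr_zero, ee_zero]
  · obtain ⟨j, hj⟩ : ∃ j, c j ≠ 0 := by
      by_contra hc; push Not at hc; exact h (Finsupp.ext hc)
    set v : ℕ → TT := Pi.single j ((1 / 2 / c j : ℝ) : TT) with hv
    have e : bern.map (fun x i => x i + v i) = bern := by
      unfold bern
      rw [Measure.infinitePi_map_pi (f := fun i t => t + v i) _ (fun i => by fun_prop)]
      simp only [map_add_right_eq_self]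
    have e1 : pr c v = c j • ((1 / 2 / c j : ℝ) : TT) := by
      rw [pr_apply, sum_eq_single j]
      · simp [hv]
      · intro i _ hi; simp [hv, hi]
      · intro hj'; simp at hj'; exact absurd hj' hj
    have e2 : ∫ x, ch c x ∂bern = -∫ x, ch c x ∂bern := by
      conv_lhs => rw [← e]
      rw [integral_map (Measurable.aemeasurable (by fun_prop)) (ch c).continuous.aestronglyMeasurable, ← integral_neg]
      congr 1; ext x
      change ch c (x + v) = _
      rw [ch_apply, pr_add', ee_add, e1, ee_half _ hj, ch_apply]; simp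
    linear_combination e2 / 2

lemma mapD_eq_zero (b : ℕ →₀ ℤ) (k : ℕ) : b.mapDomain (· + k) = 0 ↔ b = 0 := by
  constructor
  · intro h
    exact Finsupp.mapDomain_injective (add_left_injective k) (by rw [h, Finsupp.mapDomain_zero])
  · rintro rfl; simp

lemma bern_mp : MeasurePreserving sh bern bern := by
  refine good_ch.mp _ measurable_sh ?_
  rintro _ ⟨a, rfl⟩
  have := ch_sh a 1
  simp only [Function.iterate_one] at this
  simp only [this, bern_ch, mapD_eq_zero]

lemma bern_scf : SCF (Set.range ch) bern sh := by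
  rintro _ ⟨a, rfl⟩ _ ⟨b, rfl⟩
  refine Filter.Tendsto.cesaro (tendsto_const_nhds.congr' ?_)
  filter_upwards [eventually_gt_atTop (a.support.sup id)] with k hk
  simp only [ch_sh, ← ch_add, bern_ch]
  symm
  rw [norm_eq_zero, sub_eq_zero]
  by_cases ha : a = 0
  · simp [ha, mapD_eq_zero]
  · rw [if_neg ha, zero_mul, if_neg]
    intro h
    apply ha
    ext i
    by_contra hi
    have h1 : i ≤ a.support.sup id := le_sup (f := id) (Finsupp.mem_support_iff.2 hi)
    have h2 : b.mapDomain (· + k) i = 0 := by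
      apply Finsupp.mapDomain_of_notMem_range
      rintro ⟨j, hj⟩
      simp only at hj; omega
    have := DFunLike.congr_fun h i
    rw [Finsupp.add_apply, h2, add_zero] at this
    exact hi this

end Pool.Agent.H12.Rec
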