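import Pool.Agent.H12.Rec2

set_option autoImplicit false
set_option linter.unusedSectionVars false
open MeasureTheory Filter Topology Finset ComplexConjugate

namespace Pool.Agent.H12.Rec

section clt
variable {Θ : Type} [MeasurableSpace Θ] (m : Measure Θ) [IsProbabilityMeasure m]

lemma bint {E : Type*} [NormedAddCommGroup E] [MeasurableSpace E] [BorelSpace E]
    [SecondCountableTopology E] {X : Type*} [MeasurableSpace X] (μ : Measure X)
    [IsFiniteMeasure μ] {f : X → E} (hf : Measurable f) (K : ℝ) (h : ∀ x, ‖f x‖ ≤ K) :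
    Integrable f μ :=
  Integrable.of_bound hf.aestronglyMeasurable K (ae_of_all _ h)

lemma clt {G : Θ → ℝ} (hG : Measurable G) {K : ℝ} (hK : ∀ x, |G x| ≤ K) (h0 : ∫ x, G x ∂m = 0) :
    Tendsto (fun N : ℕ => (∫ x, Complex.exp ((((√N)⁻¹ * G x : ℝ) : ℂ) * Complex.I) ∂m) ^ N) atTop
      (𝓝 (Complex.exp (-(∫ x, G x ^ 2 ∂m : ℝ) / 2))) := by
  have hs : Tendsto (fun N : ℕ => (√N)⁻¹) atTop (𝓝 0) :=
    tendsto_inv_atTop_zero.comp <| Real.tendsto_sqrt_atTop.comp tendsto_natCast_atTop_atTop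
  have := Complex.tendsto_one_add_pow_exp_of_tendsto (t := -(∫ x, G x ^ 2 ∂m : ℝ) / 2)
    (g := fun N : ℕ => ∫ x, Complex.exp ((((√N)⁻¹ * G x : ℝ) : ℂ) * Complex.I) ∂m - 1) ?_
  · simpa using this
  rw [← tendsto_sub_nhds_zero_iff]
  have h3 : Tendsto (fun N : ℕ => (√N)⁻¹ * |K| ^ 3) atTop (𝓝 0) := by
    simpa using hs.mul_const (|K| ^ 3)
  refine squeeze_zero_norm' ?_ h3
  have h4 : Tendsto (fun N : ℕ => (√N)⁻¹ * |K|) atTop (𝓝 0) := by
    simpa using hs.mul_const |K|
  filter_upwards [eventually_gt_atTop 0, h4.eventually (ge_mem_nhds zero_lt_one)] with N hN h1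
  set s := (√N)⁻¹ with hsd
  have hN' : (0 : ℝ) < N := by exact_mod_cast hN
  have s0 : 0 < s := by positivity
  have hs2 : N * s ^ 2 = 1 := by rw [hsd, inv_pow, Real.sq_sqrt hN'.le]; field_simp
  have hs2' : (N : ℂ) * (s : ℂ) ^ 2 = 1 := by exact_mod_cast hs2
  have hK' : ∀ x, |G x| ≤ |K| := fun x => (hK x).trans (le_abs_self _)
  have i1 : Integrable G m := bint m hG K hK
  have i2 : Integrable (fun x => G x ^ 2) m := bint m (hG.pow_const 2) (|K| ^ 2) fun x => by
    rw [norm_pow]; exact pow_le_pow_left₀ (norm_nonneg _) (hK' x) 2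
  have i3 : Integrable (fun x => Complex.exp (((s * G x : ℝ) : ℂ) * Complex.I)) m :=
    bint m (by fun_prop) 1 fun x => by rw [Complex.norm_exp_ofReal_mul_I]
  have e : (N : ℂ) * (∫ x, Complex.exp (((s * G x : ℝ) : ℂ) * Complex.I) ∂m - 1) -
      -(∫ x, G x ^ 2 ∂m : ℝ) / 2 = N * ∫ x, (Complex.exp (((s * G x : ℝ) : ℂ) * Complex.I) -
        (1 + (s * Complex.I) * (G x : ℝ) - (s : ℂ) ^ 2 / 2 * (G x ^ 2 : ℝ))) ∂m := by
    have j1 : Integrable (fun x => (s * Complex.I) * (G x : ℝ)) m := i1.ofReal.const_mul _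
    have j2 : Integrable (fun x => (s : ℂ) ^ 2 / 2 * (G x ^ 2 : ℝ)) m := i2.ofReal.const_mul _
    have j3 : Integrable (fun x => 1 + (s * Complex.I) * (G x : ℝ)) m :=
      (integrable_const _).add j1
    have j4 : Integrable (fun x => 1 + (s * Complex.I) * (G x : ℝ) -
      (s : ℂ) ^ 2 / 2 * (G x ^ 2 : ℝ)) m := j3.sub j2
    rw [integral_sub i3 j4, integral_sub j3 j2, integral_add (integrable_const _) j1,
      integral_const_mul, integral_const_mul, integral_complex_ofReal,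
      integral_complex_ofReal, h0]
    simp only [integral_const, probReal_univ, one_smul]
    push_cast
    linear_combination (-((∫ x, G x ^ 2 ∂m : ℝ) : ℂ) / 2) * hs2'
  rw [e, norm_mul, Complex.norm_natCast]
  have hb : ∀ x, ‖Complex.exp (((s * G x : ℝ) : ℂ) * Complex.I) -
        (1 + (s * Complex.I) * (G x : ℝ) - (s : ℂ) ^ 2 / 2 * (G x ^ 2 : ℝ))‖ ≤ (s * |K|) ^ 3 := by
    intro x
    have n1 : ‖((s * G x : ℝ) : ℂ) * Complex.I‖ ≤ s * |K| := by
      rw [norm_mul, Complex.norm_I, mul_one, Complex.norm_real, Real.norm_eq_abs, abs_mul,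
        abs_of_pos s0]
      exact mul_le_mul_of_nonneg_left (hK' x) s0.le
    have := Complex.exp_bound (n1.trans h1) (n := 3) (by norm_num)
    have e2 : ∑ k ∈ range 3, (((s * G x : ℝ) : ℂ) * Complex.I) ^ k / k.factorial =
        1 + (s * Complex.I) * (G x : ℝ) - (s : ℂ) ^ 2 / 2 * (G x ^ 2 : ℝ) := by
      simp only [sum_range_succ, sum_range_zero, Nat.factorial]
      push_cast
      linear_combination ((s : ℂ) ^ 2 * (G x : ℂ) ^ 2 / 2) * Complex.I_sq
    rw [e2] at this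
    refine this.trans ?_
    have := pow_le_pow_left₀ (norm_nonneg _) n1 3
    have h5 : (0 : ℝ) ≤ ‖((s * G x : ℝ) : ℂ) * Complex.I‖ ^ 3 := by positivity
    norm_num [Nat.factorial] at this h5 ⊢
    nlinarith
  have := norm_integral_le_of_norm_le_const (μ := m) (ae_of_all _ hb)
  simp only [probReal_univ, mul_one] at this
  calc _ ≤ N * (s * |K|) ^ 3 := mul_le_mul_of_nonneg_left this hN'.le
    _ = (N * s ^ 2) * (s * |K| ^ 3) := by ring
    _ = _ := by rw [hs2, one_mul]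

lemma wrapped {f : ℕ → Θ → ℝ} (hf : ∀ n, Measurable (f n)) {K : ℝ} (hK : ∀ n x, |f n x| ≤ K)
    (h0 : ∀ n, ∫ x, f n x ∂m = 0) : ∃ P : Measure (ℕ → TT), IsProbabilityMeasure P ∧
    ∀ a : ℕ →₀ ℤ, ∫ x, ch a x ∂P = Complex.exp
      (-(∫ x, (2 * Real.pi * ∑ j ∈ a.support, a j * f j x) ^ 2 ∂m : ℝ) / 2) := by
  set F : (N : ℕ) → (Fin N → Θ) → ℕ → TT :=
    fun N ω n => (((√N)⁻¹ * ∑ i, f n (ω i) : ℝ) : TT) with hF
  have mF : ∀ N, Measurable (F N) := fun N => by
    refine measurable_pi_lambda _ fun n => AddCircle.measurable_mk'.comp ?_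
    exact (Finset.measurable_sum _ fun i _ => (hf n).comp (measurable_pi_apply i)).const_mul _
  have hp : ∀ N, IsProbabilityMeasure ((Measure.pi fun _ : Fin N => m).map (F N)) := fun N =>
    Measure.isProbabilityMeasure_map (mF N).aemeasurable
  refine exists_lim ch _ (fun N => (Measure.pi fun _ : Fin N => m).map (F N)) fun a => ?_
  set G : Θ → ℝ := fun x => 2 * Real.pi * ∑ j ∈ a.support, a j * f j x with hG
  have mG : Measurable G := (Finset.measurable_sum _ fun j _ => (hf j).const_mul _).const_mul _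
  have bG : ∀ x, |G x| ≤ 2 * Real.pi * ∑ j ∈ a.support, |(a j : ℝ)| * K := fun x => by
    rw [hG, abs_mul, abs_of_pos (by positivity)]
    refine mul_le_mul_of_nonneg_left ((abs_sum_le_sum_abs _ _).trans (sum_le_sum fun j _ => ?_))
      (by positivity)
    rw [abs_mul]
    exact mul_le_mul_of_nonneg_left (hK j x) (abs_nonneg _)
  have zG : ∫ x, G x ∂m = 0 := by
    rw [hG, integral_const_mul, integral_finsetSum _ fun j _ =>
      (bint m (hf j) K (hK j)).const_mul _]
    simp [integral_const_mul, h0]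
  refine (clt m mG bG zG).congr fun N => ?_
  rw [integral_map (mF N).aemeasurable (ch a).continuous.aestronglyMeasurable]
  have := integral_fintype_prod_eq_pow (ι := Fin N) (μ := m)
    (fun x => Complex.exp ((((√N)⁻¹ * G x : ℝ) : ℂ) * Complex.I))
  rw [Fintype.card_fin] at this
  rw [← this]
  congr 1; ext ω
  have e : pr a (F N ω) = ((∑ j ∈ a.support, a j * ((√N)⁻¹ * ∑ i, f j (ω i)) : ℝ) : TT) := by
    rw [pr_apply, QuotientAddGroup.mk_sum]
    refine sum_congr rfl fun j _ => ?_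
    rw [hF, ← zsmul_eq_mul, AddCircle.coe_zsmul]
  rw [ch_apply, e, ee_coe, ← Complex.exp_sum, ← sum_mul]
  congr 2
  have : ∑ i, (√N)⁻¹ * G (ω i) =
      2 * Real.pi * ∑ j ∈ a.support, a j * ((√N)⁻¹ * ∑ i, f j (ω i)) := by
    simp only [hG, mul_sum]
    rw [sum_comm]
    exact sum_congr rfl fun j _ => sum_congr rfl fun i _ => by ring
  rw [← Complex.ofReal_sum, this]; push_cast; rfl

end clt

/-- trigonometric polynomial of a finitely supported sequence -/
noncomputable def hat (a : ℕ →₀ ℤ) (θ : TT) : ℂ :=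
  Finsupp.linearCombination ℤ (fun j => ee θ ^ j) a

lemma hat_apply (a : ℕ →₀ ℤ) (θ : TT) : hat a θ = ∑ j ∈ a.support, (a j : ℂ) * ee θ ^ j := by
  simp [hat, Finsupp.linearCombination_apply, Finsupp.sum]
lemma hat_add (a b : ℕ →₀ ℤ) (θ : TT) : hat (a + b) θ = hat a θ + hat b θ := map_add _ _ _
lemma hat_single (j : ℕ) (n : ℤ) (θ : TT) : hat (Finsupp.single j n) θ = n * ee θ ^ j := by
  simp [hat]
lemma hat_sh (a : ℕ →₀ ℤ) (k : ℕ) (θ : TT) :
    hat (a.mapDomain (· + k)) θ = hat a θ * ee θ ^ k := by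
  rw [hat, Finsupp.linearCombination_mapDomain, hat_apply, Finsupp.linearCombination_apply,
    Finsupp.sum, sum_mul]
  exact sum_congr rfl fun j _ => by simp [pow_add, mul_assoc]
lemma continuous_hat (a : ℕ →₀ ℤ) : Continuous (hat a) := by
  have : hat a = fun θ => ∑ j ∈ a.support, (a j : ℂ) * ee θ ^ j := funext (hat_apply a)
  rw [this]
  have := continuous_ee
  fun_prop

lemma ccint {E : Type*} [NormedAddCommGroup E] {X : Type*} [TopologicalSpace X] [CompactSpace X]
    [MeasurableSpace X] [BorelSpace X] [SecondCountableTopology X] (μ : Measure X)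
    [IsFiniteMeasure μ] {f : X → E} (hf : Continuous f) : Integrable f μ :=
  hf.integrable_of_hasCompactSupport (HasCompactSupport.of_compactSpace f)

lemma int_re (n : ℤ) (hn : n ≠ 0) (z : ℂ) : ∫ φ : TT, (ee (n • φ) * z).re = 0 := by
  have c : Continuous fun φ : TT => ee (n • φ) * z :=
    (continuous_ee.comp (continuous_zsmul n)).mul continuous_const
  have := integral_re (ccint volume c)
  simp only [RCLike.re_to_complex] at this
  rw [this, integral_mul_const, int_ee n hn]; simp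

lemma int_re_sq (z : ℂ) : ∫ φ : TT, (ee φ * z).re ^ 2 = ‖z‖ ^ 2 / 2 := by
  have : ∀ φ : TT, (ee φ * z).re ^ 2 = ‖z‖ ^ 2 / 2 + (ee ((2 : ℤ) • φ) * (z ^ 2 / 2)).re := by
    intro φ
    have h1 : ‖z‖ ^ 2 = ‖ee φ * z‖ ^ 2 := by rw [norm_mul, norm_ee, one_mul]
    have h2 : ee ((2 : ℤ) • φ) * (z ^ 2 / 2) = (ee φ * z) ^ 2 / 2 := by
      rw [two_zsmul, ee_add]; ring
    rw [h1, h2, Complex.sq_norm, Complex.normSq_apply]
    generalize ee φ * z = w
    simp [sq]; ring
  simp only [this]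
  have c : Continuous fun φ : TT => (ee ((2 : ℤ) • φ) * (z ^ 2 / 2)).re :=
    Complex.continuous_re.comp ((continuous_ee.comp (continuous_zsmul 2)).mul continuous_const)
  rw [integral_add (integrable_const _) (ccint _ c), int_re 2 (by norm_num)]
  simp

lemma gauss (σ : Measure TT) [IsProbabilityMeasure σ] {D : Set TT} (hD : MeasurableSet D)
    {κ : ℝ} (hκ : 0 ≤ κ) : ∃ P : Measure (ℕ → TT), IsProbabilityMeasure P ∧
    ∀ a : ℕ →₀ ℤ, ∫ x, ch a x ∂P =
      (Real.exp (-(κ / 2 * ∫ θ in D, ‖hat a θ‖ ^ 2 ∂σ)) : ℝ) := by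
  set t := √(2 * κ) / (2 * Real.pi) with ht
  set w : TT → ℝ := D.indicator fun _ => 1 with hw
  have mw : Measurable w := measurable_const.indicator hD
  have bw : ∀ θ, |w θ| ≤ 1 := fun θ => by by_cases h : θ ∈ D <;> simp [hw, h]
  have me := continuous_ee.measurable
  set f : ℕ → TT × TT → ℝ := fun n p => t * w p.1 * (ee p.2 * ee p.1 ^ n).re with hf
  have mf : ∀ n, Measurable (f n) := fun n => by rw [hf]; fun_prop
  have bf : ∀ n p, |f n p| ≤ |t| := fun n p => by
    rw [hf]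
    simp only [abs_mul]
    have : |(ee p.2 * ee p.1 ^ n).re| ≤ 1 := (Complex.abs_re_le_norm _).trans (by simp [norm_ee])
    rw [mul_assoc]
    exact mul_le_of_le_one_right (abs_nonneg _) (mul_le_one₀ (bw _) (abs_nonneg _) this)
  obtain ⟨P, hP, h⟩ := wrapped (σ.prod volume) mf bf (fun n => by
    rw [integral_prod _ (bint _ (mf n) _ (bf n))]
    have := fun z => int_re 1 one_ne_zero z
    simp only [one_smul] at this
    simp only [hf, integral_const_mul, this]; simp)
  refine ⟨P, hP, fun a => ?_⟩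
  rw [h, Complex.ofReal_exp]
  congr 1
  have e : ∀ p : TT × TT, 2 * Real.pi * ∑ j ∈ a.support, a j * f j p =
      √(2 * κ) * w p.1 * (ee p.2 * hat a p.1).re := by
    intro p
    rw [hat_apply, mul_sum, mul_sum, Complex.re_sum, mul_sum]
    refine sum_congr rfl fun j _ => ?_
    have : (ee p.2 * ((a j : ℂ) * ee p.1 ^ j)).re = a j * (ee p.2 * ee p.1 ^ j).re := by
      rw [mul_left_comm]; simp
    rw [this, hf, ht]
    have := Real.pi_pos
    field_simp
  simp only [e]
  obtain ⟨B, hB⟩ := (isCompact_range (continuous_hat a)).isBounded.exists_norm_le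
  have mh := (continuous_hat a).measurable
  rw [integral_prod _ (bint _ (by fun_prop) ((√(2 * κ) * B) ^ 2) fun p => ?_)]
  · simp only [mul_pow, integral_const_mul, int_re_sq, Real.sq_sqrt (show 0 ≤ 2 * κ by positivity)]
    have : ∀ θ, 2 * κ * w θ ^ 2 * (‖hat a θ‖ ^ 2 / 2) =
        κ * D.indicator (fun θ => ‖hat a θ‖ ^ 2) θ := fun θ => by
      by_cases h : θ ∈ D <;> simp [hw, h]; ring
    simp only [this]
    rw [integral_const_mul, integral_indicator hD]
    push_cast; ring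
  · rw [norm_pow]
    refine pow_le_pow_left₀ (norm_nonneg _) ?_ 2
    rw [Real.norm_eq_abs, abs_mul, abs_mul, abs_of_nonneg (Real.sqrt_nonneg _), mul_assoc]
    refine mul_le_mul_of_nonneg_left ?_ (Real.sqrt_nonneg _)
    refine (mul_le_of_le_one_left (abs_nonneg _) (bw _)).trans
      ((Complex.abs_re_le_norm _).trans ?_)
    rw [norm_mul, norm_ee, one_mul]
    exact hB _ ⟨_, rfl⟩

lemma wiener (ν : Measure TT) [IsFiniteMeasure ν] (hν : ∀ θ, ν {θ} = 0) {u : TT → ℂ}
    (hu : Continuous u) : Tendsto (avr fun k => ‖∫ θ, u θ * ee θ ^ k ∂ν‖) atTop (𝓝 0) := by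
  have ce := continuous_ee
  have cc := Complex.continuous_conj
  have h1 : Tendsto (fun N => ∫ p : TT × TT, u p.1 * conj (u p.2) *
      av (fun k => ee (p.1 - p.2) ^ k) N ∂(ν.prod ν)) atTop
      (𝓝 (∫ _p : TT × TT, (0 : ℂ) ∂(ν.prod ν))) := by
    refine tendsto_integral_of_dominated_convergence (fun p => ‖u p.1 * conj (u p.2)‖)
      (fun N => Continuous.aestronglyMeasurable (by unfold av; fun_prop))
      (ccint _ (by fun_prop)) (fun N => ae_of_all _ fun p => ?_) ?_
    · rw [norm_mul]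
      refine mul_le_of_le_one_right (norm_nonneg _) ?_
      exact (norm_av_le (v := fun _ => 1) (fun k => by simp [norm_ee]) N).trans
        (avr_le_one (fun _ => le_rfl) N)
    · have : ∀ᵐ p : TT × TT ∂(ν.prod ν), p.1 - p.2 ≠ 0 := by
        rw [ae_iff, Measure.measure_prod_null
          (by simpa using measurableSet_eq_fun (by fun_prop) measurable_const)]
        refine ae_of_all _ fun x => ?_
        have : Prod.mk x ⁻¹' {a : TT × TT | ¬a.1 - a.2 ≠ 0} = {x} := by
          ext y; simp [sub_eq_zero, eq_comm]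
        simp only [this, hν, Pi.zero_apply]
      filter_upwards [this] with p hp
      have := (av_geom (p.1 - p.2)).const_mul (u p.1 * conj (u p.2))
      simpa [hp] using this
  have h2 : ∀ N, ∫ p : TT × TT, u p.1 * conj (u p.2) *
      av (fun k => ee (p.1 - p.2) ^ k) N ∂(ν.prod ν) =
      (avr (fun k => ‖∫ θ, u θ * ee θ ^ k ∂ν‖ ^ 2) N : ℝ) := by
    intro N
    have : ∀ p : TT × TT, u p.1 * conj (u p.2) * av (fun k => ee (p.1 - p.2) ^ k) N =
        (N : ℂ)⁻¹ * ∑ k ∈ range N, (u p.1 * ee p.1 ^ k) * conj (u p.2 * ee p.2 ^ k) := by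
      intro p
      rw [av, mul_left_comm, mul_sum]
      congr 1
      refine sum_congr rfl fun k _ => ?_
      rw [sub_eq_add_neg, ee_add, ee_neg, mul_pow, map_mul, map_pow]; ring
    simp only [this]
    rw [integral_const_mul, integral_finsetSum _ fun k _ => ccint _ (by fun_prop), avr]
    push_cast
    congr 1
    refine sum_congr rfl fun k _ => ?_
    rw [integral_prod_mul (fun θ => u θ * ee θ ^ k) (fun θ => conj (u θ * ee θ ^ k)),
      integral_conj, Complex.mul_conj']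
  simp only [h2, integral_zero] at h1
  have h3 := (Complex.continuous_re.tendsto _).comp h1
  simp only [Function.comp_def, Complex.ofReal_re, Complex.zero_re] at h3
  have h4 := h3.sqrt
  rw [Real.sqrt_zero] at h4
  refine squeeze_zero (fun N => avr_nonneg (fun k => norm_nonneg _) N) (fun N => ?_) h4
  apply Real.le_sqrt_of_sq_le
  rcases Nat.eq_zero_or_pos N with rfl | hN
  · simp [avr]
  have hN' : (0 : ℝ) < N := by exact_mod_cast hN
  have := sq_sum_le_card_mul_sum_sq (s := range N) (f := fun k => ‖∫ θ, u θ * ee θ ^ k ∂ν‖)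
  rw [card_range] at this
  unfold avr
  rw [mul_pow]
  calc _ ≤ (N : ℝ)⁻¹ ^ 2 * (N * ∑ k ∈ range N, ‖∫ θ, u θ * ee θ ^ k ∂ν‖ ^ 2) := by gcongr
    _ = _ := by field_simp

section
variable {ν : Measure TT} [IsFiniteMeasure ν] {κ : ℝ} {P : Measure (ℕ → TT)}
  [IsProbabilityMeasure P]

lemma Q_sh (a : ℕ →₀ ℤ) (k : ℕ) :
    ∫ θ, ‖hat (a.mapDomain (· + k)) θ‖ ^ 2 ∂ν = ∫ θ, ‖hat a θ‖ ^ 2 ∂ν := by
  simp [hat_sh, norm_ee]

lemma gauss_mp
    (h : ∀ a, ∫ x, ch a x ∂P = (Real.exp (-(κ / 2 * ∫ θ, ‖hat a θ‖ ^ 2 ∂ν)) : ℝ)) :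
    MeasurePreserving sh P P := by
  refine good_ch.mp _ measurable_sh ?_
  rintro _ ⟨a, rfl⟩
  have := ch_sh a 1
  simp only [Function.iterate_one] at this
  simp only [this, h, Q_sh]

lemma exp_lip {p q : ℝ} (hp : p ≤ 0) (hq : q ≤ 0) : |Real.exp p - Real.exp q| ≤ |p - q| := by
  wlog h : q ≤ p generalizing p q
  · rw [abs_sub_comm, abs_sub_comm p]; exact this hq hp (le_of_not_ge h)
  rw [abs_of_nonneg (sub_nonneg.2 (Real.exp_le_exp.2 h)), abs_of_nonneg (sub_nonneg.2 h)]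
  have h1 := Real.add_one_le_exp (q - p)
  have h2 : Real.exp q = Real.exp p * Real.exp (q - p) := by rw [← Real.exp_add]; congr 1; ring
  have h3 := Real.exp_le_one_iff.2 hp
  have h4 := Real.exp_pos p
  nlinarith

lemma gauss_scf (hν : ∀ θ, ν {θ} = 0) (hκ : 0 ≤ κ)
    (h : ∀ a, ∫ x, ch a x ∂P = (Real.exp (-(κ / 2 * ∫ θ, ‖hat a θ‖ ^ 2 ∂ν)) : ℝ)) :
    SCF (Set.range ch) P sh := by
  rintro _ ⟨a, rfl⟩ _ ⟨b, rfl⟩
  have ca := continuous_hat a
  have cb := continuous_hat b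
  have ce := continuous_ee
  have cc := Complex.continuous_conj
  have t := (wiener ν hν (u := fun θ => hat b θ * conj (hat a θ)) (by fun_prop)).const_mul κ
  rw [mul_zero] at t
  refine squeeze_zero (fun N => avr_nonneg (fun k => norm_nonneg _) N) (fun N => ?_) t
  have : κ * avr (fun k => ‖∫ θ, hat b θ * conj (hat a θ) * ee θ ^ k ∂ν‖) N =
      avr (fun k => κ * ‖∫ θ, hat b θ * conj (hat a θ) * ee θ ^ k ∂ν‖) N := by
    simp only [avr, ← mul_sum]; ring
  rw [this]
  refine avr_mono (fun k => ?_) N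
  simp only [ch_sh, ← ch_add, h]
  rw [← Complex.ofReal_mul, ← Complex.ofReal_sub, Complex.norm_real, Real.norm_eq_abs,
    ← Real.exp_add]
  have nn : ∀ c, 0 ≤ κ / 2 * ∫ θ, ‖hat c θ‖ ^ 2 ∂ν := fun c =>
    mul_nonneg (by positivity) (integral_nonneg fun θ => by positivity)
  refine (exp_lip (by linarith [nn (a + b.mapDomain (· + k))]) (by linarith [nn a, nn b])).trans ?_
  have e : ∫ θ, ‖hat (a + b.mapDomain (· + k)) θ‖ ^ 2 ∂ν = ∫ θ, ‖hat a θ‖ ^ 2 ∂ν +
      ∫ θ, ‖hat b θ‖ ^ 2 ∂ν + 2 * (∫ θ, hat b θ * conj (hat a θ) * ee θ ^ k ∂ν).re := by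
    have := integral_re (ccint ν (f := fun θ => hat b θ * conj (hat a θ) * ee θ ^ k) (by fun_prop))
    simp only [RCLike.re_to_complex] at this
    rw [← this, ← integral_const_mul, ← integral_add (ccint _ (by fun_prop)) (ccint _ (by fun_prop)),
      ← integral_add (ccint _ (by fun_prop)) (ccint _ (by fun_prop))]
    congr 1; ext θ
    have h1 : ‖hat b θ‖ = ‖hat b θ * ee θ ^ k‖ := by simp [norm_ee]
    rw [hat_add, hat_sh, h1, mul_right_comm]
    generalize hat b θ * ee θ ^ k = v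
    generalize hat a θ = w
    simp only [Complex.sq_norm, Complex.normSq_apply]
    simp; ring
  rw [e]
  have h2 := Complex.abs_re_le_norm (∫ θ, hat b θ * conj (hat a θ) * ee θ ^ k ∂ν)
  generalize (∫ θ, hat b θ * conj (hat a θ) * ee θ ^ k ∂ν) = z at *
  have : -(κ / 2 * (∫ θ, ‖hat a θ‖ ^ 2 ∂ν + ∫ θ, ‖hat b θ‖ ^ 2 ∂ν + 2 * z.re)) -
      (-(κ / 2 * ∫ θ, ‖hat a θ‖ ^ 2 ∂ν) + -(κ / 2 * ∫ θ, ‖hat b θ‖ ^ 2 ∂ν)) = -(κ * z.re) := by ring
  rw [this, abs_neg, abs_mul, abs_of_nonneg hκ]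
  exact mul_le_mul_of_nonneg_left h2 hκ

end

end Pool.Agent.H12.Rec
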