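import Pool.Agent.H12.Rec3

set_option autoImplicit false
set_option linter.unusedSectionVars false
open MeasureTheory Filter Topology Finset ComplexConjugate

namespace Pool.Agent.H12.Rec

lemma orth (p l : ℕ) : ∫ θ : TT, ee θ ^ p * conj (ee θ) ^ l = if p = l then 1 else 0 := by
  have : ∀ θ : TT, ee θ ^ p * conj (ee θ) ^ l = ee (((p : ℤ) - l) • θ) := fun θ => by
    rw [sub_smul, sub_eq_add_neg, ee_add, ee_neg, natCast_zsmul, natCast_zsmul, ee_nsmul,
      ee_nsmul, map_pow]
  simp only [this]
  split_ifs with h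
  · simp [h, ee_zero]
  · exact int_ee _ (by omega)

lemma herglotz {X : Type*} [MeasurableSpace X] (μ : Measure X) [IsProbabilityMeasure μ]
    {T : X → X} (hT : MeasurePreserving T μ μ) {f : X → ℝ} (hf : Measurable f)
    (hb : ∀ x, |f x| ≤ 1) : ∃ σ : Measure TT, IsProbabilityMeasure σ ∧
      ∀ n, n ≠ 0 → ∫ θ, ee θ ^ n ∂σ = (∫ x, f x * f (T^[n] x) ∂μ : ℝ) := by
  set r : ℕ → ℝ := fun n => ∫ x, f x * f (T^[n] x) ∂μ with hr
  set ρ : ℕ → ℕ → ℝ := fun k l => ∫ x, f (T^[k] x) * f (T^[l] x) ∂μ with hρ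
  have mk : ∀ k, Measurable fun x => f (T^[k] x) := fun k => hf.comp (hT.iterate k).measurable
  have ib : ∀ k l, Integrable (fun x => f (T^[k] x) * f (T^[l] x)) μ := fun k l =>
    bint μ ((mk k).mul (mk l)) 1 fun x => by
      rw [Real.norm_eq_abs, abs_mul]; exact mul_le_one₀ (hb _) (abs_nonneg _) (hb _)
  have ρr : ∀ k n, ρ k (n + k) = r n := by
    intro k n
    simp only [hr, hρ]
    conv_rhs => rw [← (hT.iterate k).map_eq]
    rw [integral_map (f := fun x => f x * f (T^[n] x)) (hT.iterate k).measurable.aemeasurable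
      (hf.mul (mk n)).aestronglyMeasurable]
    simp only [Function.iterate_add_apply]
  have r0 : r 0 ≤ 1 := by
    have := norm_integral_le_of_norm_le_const (μ := μ) (C := 1)
      (f := fun x => f x * f (T^[0] x)) (ae_of_all _ fun x => by
        rw [Real.norm_eq_abs, abs_mul]; exact mul_le_one₀ (hb _) (abs_nonneg _) (hb _))
    simp only [probReal_univ, mul_one] at this
    exact (le_abs_self _).trans this
  have ce := continuous_ee
  have cc := Complex.continuous_conj
  set E : ℕ → TT → ℂ := fun N θ => (1 - r 0 : ℝ) +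
    (N : ℂ)⁻¹ * ∑ k ∈ range N, ∑ l ∈ range N, ρ k l * (ee θ ^ k * conj (ee θ) ^ l) with hE
  have cE : ∀ N, Continuous (E N) := fun N => by rw [hE]; fun_prop
  have eE : ∀ N θ, E N θ = ((1 - r 0 + (N : ℝ)⁻¹ *
      ∫ x, ‖∑ k ∈ range N, (f (T^[k] x) : ℂ) * ee θ ^ k‖ ^ 2 ∂μ : ℝ) : ℂ) := by
    intro N θ
    simp only [hE]
    rw [Complex.ofReal_add, Complex.ofReal_mul, ← integral_complex_ofReal]
    congr 2
    · simp
    have : ∀ x, ((‖∑ k ∈ range N, (f (T^[k] x) : ℂ) * ee θ ^ k‖ ^ 2 : ℝ) : ℂ) =
        ∑ k ∈ range N, ∑ l ∈ range N, ((f (T^[k] x) * f (T^[l] x) : ℝ) : ℂ) *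
          (ee θ ^ k * conj (ee θ) ^ l) := by
      intro x
      rw [Complex.ofReal_pow, ← Complex.mul_conj', map_sum, sum_mul_sum]
      refine sum_congr rfl fun k _ => sum_congr rfl fun l _ => ?_
      simp; ring
    simp only [this]
    rw [integral_finsetSum _ fun k _ => integrable_finsetSum _ fun l _ =>
      (ib k l).ofReal.mul_const _]
    refine sum_congr rfl fun k _ => ?_
    rw [integral_finsetSum _ fun l _ => (ib k l).ofReal.mul_const _]
    refine sum_congr rfl fun l _ => ?_
    rw [integral_mul_const]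
    congr 1
    exact integral_complex_ofReal.symm
  have pE : ∀ N θ, 0 ≤ (E N θ).re := fun N θ => by
    rw [eE, Complex.ofReal_re]
    have : 0 ≤ ∫ x, ‖∑ k ∈ range N, (f (T^[k] x) : ℂ) * ee θ ^ k‖ ^ 2 ∂μ :=
      integral_nonneg fun x => by positivity
    have : 0 ≤ 1 - r 0 := by linarith
    positivity
  have rE : ∀ N θ, ((E N θ).re : ℂ) = E N θ := fun N θ => by rw [eE, Complex.ofReal_re]
  have iE : ∀ N n, ∫ θ, E N θ * ee θ ^ n = (if n = 0 then (1 - r 0 : ℝ) else 0) +
      (N : ℂ)⁻¹ * ((N - n : ℕ) * r n) := by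
    intro N n
    have : ∀ θ, E N θ * ee θ ^ n = (1 - r 0 : ℝ) * (ee θ ^ n * conj (ee θ) ^ 0) + (N : ℂ)⁻¹ *
        ∑ k ∈ range N, ∑ l ∈ range N, ρ k l * (ee θ ^ (n + k) * conj (ee θ) ^ l) := by
      intro θ
      simp only [hE, add_mul, mul_assoc, sum_mul, pow_zero, mul_one]
      congr 2
      refine sum_congr rfl fun k _ => sum_congr rfl fun l _ => ?_
      ring
    simp only [this]
    rw [integral_add (ccint _ (by fun_prop)) (ccint _ (by fun_prop)), integral_const_mul,
      integral_const_mul, orth, integral_finsetSum _ fun k _ => ccint _ (by fun_prop)]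
    congr 1
    · split_ifs <;> simp
    congr 1
    have : ∀ k, ∫ θ, ∑ l ∈ range N, ρ k l * (ee θ ^ (n + k) * conj (ee θ) ^ l) =
        if n + k < N then (r n : ℂ) else 0 := by
      intro k
      rw [integral_finsetSum _ fun k _ => ccint _ (by fun_prop)]
      simp only [integral_const_mul, orth, mul_ite, mul_one, mul_zero, sum_ite_eq, mem_range, ρr]
    simp only [this]
    rw [← sum_filter, sum_const, nsmul_eq_mul]
    congr 2
    have : (range N).filter (fun k => n + k < N) = range (N - n) := by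
      ext k; simp; omega
    rw [this, card_range]
  set m : ℕ → Measure TT := fun N =>
    volume.withDensity fun θ => ((E (N + 1) θ).re.toNNReal : ENNReal) with hm
  have im : ∀ N (g : TT → ℂ), ∫ θ, g θ ∂(m N) = ∫ θ, E (N + 1) θ * g θ := by
    intro N g
    rw [hm]
    simp only
    rw [integral_withDensity_eq_integral_smul (f := fun θ => (E (N + 1) θ).re.toNNReal)
      (Complex.continuous_re.comp (cE _)).measurable.real_toNNReal]
    congr 1; ext θ
    rw [NNReal.smul_def, Real.coe_toNNReal _ (pE _ _), Complex.real_smul, rE]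
  have hp : ∀ N, IsProbabilityMeasure (m N) := by
    intro N
    have fin : IsFiniteMeasure (m N) :=
      isFiniteMeasure_withDensity_ofReal (ccint _ (Complex.continuous_re.comp (cE _))).2
    have := im N (fun θ => ee θ ^ 0)
    rw [iE] at this
    have h1 : ((N + 1 : ℕ) : ℂ) ≠ 0 := by exact_mod_cast Nat.succ_ne_zero N
    simp only [pow_zero, integral_const, if_true, Nat.sub_zero, inv_mul_cancel_left₀ h1] at this
    have h2 : (m N).real Set.univ = 1 := by
      have h3 : (((m N).real Set.univ : ℝ) : ℂ) = 1 := by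
        rw [Complex.real_smul, mul_one] at this
        rw [this]; push_cast; ring
      exact_mod_cast h3
    exact isProbabilityMeasure_iff_real.2 h2
  obtain ⟨σ, hσ, h⟩ := exists_lim (ι := {n : ℕ // n ≠ 0})
    (fun n => ⟨fun θ => ee θ ^ n.1, by fun_prop⟩) (fun n => r n.1) m (by
      rintro ⟨n, hn⟩
      simp only [ContinuousMap.coe_mk, im, iE, if_neg hn]
      have t0 : Tendsto (fun N : ℕ => (N : ℂ)⁻¹) atTop (𝓝 0) := tendsto_inv_atTop_nhds_zero_nat
      have t1 := ((t0.mul_const (n : ℂ)).const_sub 1).mul_const (r n : ℂ)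
      simp only [zero_mul, sub_zero, one_mul] at t1
      refine ((tendsto_add_atTop_iff_nat 1).2 t1).congr' ?_
      filter_upwards [eventually_ge_atTop n] with N hN
      have h1 : ((N + 1 : ℕ) : ℂ) ≠ 0 := by exact_mod_cast Nat.succ_ne_zero N
      rw [Nat.cast_sub (by omega)]
      field_simp
      simp)
  exact ⟨σ, hσ, fun n hn => h ⟨n, hn⟩⟩

lemma decomp (σ : Measure TT) [IsProbabilityMeasure σ] {ε : ℝ} (hε : 0 < ε) :
    ∃ (D : Set TT) (F : Finset TT), MeasurableSet D ∧ (∀ θ, σ.restrict D {θ} = 0) ∧ 0 ∉ F ∧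
      ∀ n : ℕ, ∫ θ in D, (ee θ ^ n).re ∂σ + ∑ θ ∈ F, σ.real {θ} * (ee θ ^ n).re ≤
        ∫ θ, (ee θ ^ n).re ∂σ + ε := by
  classical
  have hc := Measure.countable_meas_level_set_pos (μ := σ) (g := id) measurable_id
  obtain ⟨e, he⟩ := Set.countable_iff_exists_subset_range.1 hc
  have mR : MeasurableSet (Set.range e) := (Set.countable_range e).measurableSet
  set G : ℕ → Finset TT := fun N => (range N).image e with hG
  have t : Tendsto (fun N => σ (G N)) atTop (𝓝 (σ (Set.range e))) := by
    have := tendsto_measure_iUnion_atTop (μ := σ) (s := fun N => (G N : Set TT))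
      (fun a b hab => by simpa [hG] using Set.image_mono (Set.Iio_subset_Iio hab))
    have e0 : Set.range e = ⋃ N, (G N : Set TT) := by
      ext x
      simp only [hG, Set.mem_range, Set.mem_iUnion, coe_image, Set.mem_image, mem_coe, mem_range]
      constructor
      · rintro ⟨y, rfl⟩; exact ⟨y + 1, y, by omega, rfl⟩
      · rintro ⟨_, y, -, rfl⟩; exact ⟨y, rfl⟩
    rw [e0]; exact this
  have t2 := (ENNReal.tendsto_toReal (measure_ne_top _ _)).comp t
  obtain ⟨N, hN⟩ := (t2.eventually (lt_mem_nhds (sub_lt_self _ hε))).exists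
  refine ⟨(Set.range e)ᶜ, (G N).erase 0, mR.compl, fun θ => ?_, by simp, fun n => ?_⟩
  · rw [Measure.restrict_apply (measurableSet_singleton _)]
    by_cases h : θ ∈ Set.range e
    · rw [Set.singleton_inter_eq_empty.2 (by simpa using h)]; simp
    · have : σ {θ} = 0 := by
        by_contra h0
        exact h (he (by simpa using pos_iff_ne_zero.2 h0))
      exact measure_mono_null Set.inter_subset_left this
  · have cg : Continuous fun θ => (ee θ ^ n).re :=
      Complex.continuous_re.comp (continuous_ee.pow n)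
    have ig := ccint σ cg
    have sub : (G N : Set TT) ⊆ Set.range e := by
      intro x hx
      simp only [hG, coe_image, Set.mem_image] at hx
      obtain ⟨y, -, rfl⟩ := hx
      exact ⟨y, rfl⟩
    have e1 := integral_add_compl mR ig
    have e2 := setIntegral_sdiff (G N).measurableSet ig.integrableOn sub
    have e3 : ∫ θ in (G N : Set TT), (ee θ ^ n).re ∂σ =
        ∑ θ ∈ G N, σ.real {θ} * (ee θ ^ n).re := by
      rw [setIntegral_finset _ ig.integrableOn]; simp
    have e4 : ∑ θ ∈ (G N).erase 0, σ.real {θ} * (ee θ ^ n).re ≤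
        ∑ θ ∈ G N, σ.real {θ} * (ee θ ^ n).re := by
      refine sum_le_sum_of_subset_of_nonneg (erase_subset _ _) fun i hi hi' => ?_
      have : i = 0 := by simpa [hi] using hi'
      simp [this, ee_zero]
    have e5 : ‖∫ θ in Set.range e \ (G N : Set TT), (ee θ ^ n).re ∂σ‖ ≤
        1 * σ.real (Set.range e \ (G N : Set TT)) :=
      norm_setIntegral_le_of_norm_le_const (measure_lt_top _ _) fun x _ =>
        (Complex.abs_re_le_norm _).trans (by simp [norm_ee])
    rw [measureReal_sdiff sub (G N).measurableSet, Real.norm_eq_abs] at e5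
    have := neg_abs_le (∫ θ in Set.range e \ (G N : Set TT), (ee θ ^ n).re ∂σ)
    simp only [Function.comp_apply] at hN
    simp only [measureReal_def] at e5
    linarith

end Pool.Agent.H12.Rec
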