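import Pool.Agent.H12.Rec4

set_option autoImplicit false
set_option linter.unusedSectionVars false
open MeasureTheory Filter Topology Finset ComplexConjugate

namespace Pool.Agent.H12.Rec

lemma int_re_c {X : Type*} [TopologicalSpace X] [CompactSpace X]
    [MeasurableSpace X] [BorelSpace X] [SecondCountableTopology X] (μ : Measure X)
    [IsFiniteMeasure μ] {f : X → ℂ} (hf : Continuous f) (z : ℂ) :
    ∫ x, (z * f x).re ∂μ = (z * ∫ x, f x ∂μ).re := by
  have := integral_re (ccint μ (f := fun x => z * f x) (by fun_prop))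
  simp only [RCLike.re_to_complex] at this
  rw [this, integral_const_mul]

/-- Hartley kernel -/
noncomputable def HH (u : TT) : ℝ := ((1 + Complex.I) * ee u).re

lemma HH_mul (u v : TT) : HH u * HH v = (ee v * conj (ee u)).re + (Complex.I * (ee u * ee v)).re := by
  simp [HH]; ring

lemma continuous_HH : Continuous HH := by
  have := continuous_ee
  unfold HH; fun_prop

open Classical in
lemma rot_fun (F : Finset TT) (hF : 0 ∉ F) (w : TT → ℝ) (hw : ∀ t, 0 ≤ w t) (P : Measure (F → TT))
    [IsProbabilityMeasure P]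
    (h : ∀ a, ∫ x, ch a x ∂P = if pr a (fun j : F => (j : TT)) = 0 then 1 else 0) :
    ∃ Y : (F → TT) → ℝ, Continuous Y ∧ ∫ y, Y y ∂P = 0 ∧ ∀ n : ℕ,
      ∫ y, Y y * Y ((fun x => x + fun j : F => (j : TT))^[n] y) ∂P =
        ∑ t ∈ F, w t * (ee t ^ n).re := by
  have cH := continuous_HH
  refine ⟨fun y => ∑ j : F, √(w j) * HH (y j), by fun_prop, ?_, fun n => ?_⟩
  · rw [integral_finsetSum _ fun j _ => ccint _ (by fun_prop)]
    refine sum_eq_zero fun j _ => ?_
    have : ∀ y : F → TT, HH (y j) = ((1 + Complex.I) * ch (Finsupp.single j 1) y).re := fun y => by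
      simp [HH, ch_apply, pr_single]
    simp only [this]
    have hj : (j : TT) ≠ 0 := fun h0 => hF (h0 ▸ j.2)
    rw [integral_const_mul, int_re_c _ (ch _).continuous, h, pr_single, one_smul, if_neg hj]
    simp
  · simp only [rot_iter, sum_mul_sum]
    rw [integral_finsetSum _ fun j _ => ccint _ (by fun_prop)]
    have e : ∀ j k : F, ∫ y, √(w j) * HH (y j) *
        (√(w k) * HH ((y + n • fun j : F => (j : TT)) k)) ∂P =
        (if j = k then w k * (ee k ^ n).re else 0) +
        (if (j : TT) + k = 0 then √(w j) * √(w k) * (Complex.I * ee k ^ n).re else 0) := by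
      intro j k
      have : ∀ y : F → TT, √(w j) * HH (y j) * (√(w k) * HH ((y + n • fun j : F => (j : TT)) k)) =
          √(w j) * √(w k) * ((ee k ^ n * ch (Finsupp.single k 1 + -Finsupp.single j 1) y).re +
            (Complex.I * ee k ^ n * ch (Finsupp.single j 1 + Finsupp.single k 1) y).re) := by
        intro y
        rw [mul_mul_mul_comm, HH_mul]
        simp only [ch_apply, pr_add, pr_neg, pr_single, one_smul, ee_add, ee_neg, Pi.add_apply,
          Pi.smul_apply, ee_nsmul]
        congr 3 <;> ring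
      simp only [this]
      rw [integral_const_mul, integral_add (ccint _ (by fun_prop)) (ccint _ (by fun_prop)),
        int_re_c _ (ch _).continuous, int_re_c _ (ch _).continuous, h, h]
      simp only [pr_add, pr_neg, pr_single, one_smul, mul_add]
      congr 1
      · by_cases hjk : j = k
        · subst hjk; simp [Real.mul_self_sqrt (hw _)]
        · rw [if_neg hjk, if_neg]
          · simp
          · intro h0
            exact hjk (Subtype.ext (add_neg_eq_zero.1 h0).symm)
      · split_ifs <;> simp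
    have e2 : ∀ j : F, ∫ y, ∑ k : F, √(w j) * HH (y j) *
        (√(w k) * HH ((y + n • fun j : F => (j : TT)) k)) ∂P = _ := fun j => by
      rw [integral_finsetSum _ fun j _ => ccint _ (by fun_prop), sum_congr rfl fun k _ => e j k]
    simp only [e2, sum_add_distrib, sum_ite_eq, mem_univ, if_true]
    rw [sum_coe_sort F (fun t => w t * (ee t ^ n).re), add_eq_left]
    set c : F → F → ℝ := fun j k =>
      if (j : TT) + k = 0 then √(w j) * √(w k) * (Complex.I * ee k ^ n).re else 0 with hc
    have anti : ∀ j k, c k j = -c j k := by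
      intro j k
      simp only [hc]
      by_cases h0 : (j : TT) + k = 0
      · rw [if_pos h0, if_pos (by rwa [add_comm])]
        have : ee j = conj (ee k) := by rw [← ee_neg, eq_neg_of_add_eq_zero_left h0]
        rw [this, ← map_pow]
        generalize ee k ^ n = z
        simp [mul_comm]
      · rw [if_neg h0, if_neg (by rwa [add_comm])]; simp
    have : ∑ j, ∑ k, c j k = -∑ j, ∑ k, c j k := by
      conv_lhs => rw [sum_comm]
      simp only [← sum_neg_distrib]
      exact sum_congr rfl fun j _ => sum_congr rfl fun k _ => anti j k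
    change ∑ j, ∑ k, c j k = 0
    linarith

lemma gauss_fun {ν : Measure TT} [IsFiniteMeasure ν] {κ : ℝ} {P : Measure (ℕ → TT)}
    [IsProbabilityMeasure P]
    (h : ∀ a, ∫ x, ch a x ∂P = (Real.exp (-(κ / 2 * ∫ θ, ‖hat a θ‖ ^ 2 ∂ν)) : ℝ)) :
    ∃ g : (ℕ → TT) → ℝ, Continuous g ∧ ∫ x, g x ∂P = 0 ∧ ∀ n : ℕ,
      ∫ x, g x * g (sh^[n] x) ∂P = Real.exp (-(κ * ν.real Set.univ)) *
        Real.sinh (κ * ∫ θ, (ee θ ^ n).re ∂ν) := by
  have ce := continuous_ee
  refine ⟨fun x => (ee (x 0)).im, by fun_prop, ?_, fun n => ?_⟩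
  · have : ∀ x : ℕ → TT, (ee (x 0)).im = (-Complex.I * ch (Finsupp.single 0 1) x).re := fun x => by
      simp [ch_apply, pr_single]
    simp only [this]
    rw [int_re_c _ (ch _).continuous, h]
    simp [-Complex.ofReal_exp]
  · have : ∀ x : ℕ → TT, (ee (x 0)).im * (ee (sh^[n] x 0)).im =
        ((1 / 2 : ℂ) * ch (Finsupp.single n 1 + Finsupp.single 0 (-1)) x).re -
          ((1 / 2 : ℂ) * ch (Finsupp.single n 1 + Finsupp.single 0 1) x).re := fun x => by
      simp only [sh_iter, ch_apply, pr_add, pr_single, one_smul, neg_smul, ee_add, ee_neg, zero_add]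
      simp; ring
    simp only [this]
    rw [integral_sub (ccint _ (by fun_prop)) (ccint _ (by fun_prop)),
      int_re_c _ (ch _).continuous, int_re_c _ (ch _).continuous, h, h]
    have q : ∀ s : ℤ, s ^ 2 = 1 → ∫ θ, ‖hat (Finsupp.single n 1 + Finsupp.single 0 s) θ‖ ^ 2 ∂ν =
        2 * ν.real Set.univ + 2 * s * ∫ θ, (ee θ ^ n).re ∂ν := by
      intro s hs
      have hs' : (s : ℝ) ^ 2 = 1 := by exact_mod_cast hs
      have : ∀ θ, ‖hat (Finsupp.single n 1 + Finsupp.single 0 s) θ‖ ^ 2 =
          2 + 2 * s * (ee θ ^ n).re := by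
        intro θ
        have h1 : ‖ee θ ^ n‖ ^ 2 = 1 := by simp [norm_ee]
        rw [hat_add, hat_single, hat_single]
        generalize ee θ ^ n = z at *
        simp only [Complex.sq_norm, Complex.normSq_apply] at *
        simp
        linear_combination h1 + hs'
      simp only [this]
      rw [integral_add (integrable_const _) (ccint _ (by fun_prop)), integral_const_mul]
      simp [mul_comm]
    rw [q _ (by norm_num), q _ (by norm_num), Real.sinh_eq]
    have : ∀ r : ℝ, ((1 / 2 : ℂ) * r).re = r / 2 := fun r => by simp; ring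
    rw [this, this, mul_div_assoc', mul_sub, ← Real.exp_add, ← Real.exp_add, ← sub_div]
    congr 3 <;> push_cast <;> ring

lemma bern_ext {Ω : Type} [MeasurableSpace Ω] (P : Measure Ω) [IsProbabilityMeasure P]
    {S : Ω → Ω} (hS : Measurable S) {h : Ω → ℝ} (hm : Measurable h) (h0 : ∀ x, 0 ≤ h x)
    (h1 : ∀ x, h x ≤ 1) : ∃ B : Set (Ω × (ℕ → TT)), MeasurableSet B ∧
      (P.prod bern).real B = ∫ x, h x ∂P ∧ ∀ n, n ≠ 0 →
      (P.prod bern).real (B ∩ (Prod.map S sh)^[n] ⁻¹' B) = ∫ x, h x * h (S^[n] x) ∂P := by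
  set B : Set (Ω × (ℕ → TT)) := {p | ‖p.2 0‖ ≤ h p.1 / 2} with hB
  have mB : MeasurableSet B := measurableSet_le (by fun_prop) (by fun_prop)
  have vb : ∀ x, (volume : Measure TT) (Metric.closedBall 0 (h x / 2)) = ENNReal.ofReal (h x) := by
    intro x
    rw [AddCircle.volume_closedBall, min_eq_right (by linarith [h1 x])]
    congr 1; ring
  have fin : ∀ {g : Ω → ℝ} (E : Set (Ω × (ℕ → TT))), MeasurableSet E → Measurable g →
      (∀ x, 0 ≤ g x) → (∀ x, g x ≤ 1) → (∀ x, bern (Prod.mk x ⁻¹' E) = ENNReal.ofReal (g x)) →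
      (P.prod bern).real E = ∫ x, g x ∂P := by
    intro g E mE mg g0 g1 he
    rw [measureReal_def, Measure.prod_apply mE]
    simp only [he]
    rw [← ofReal_integral_eq_lintegral_ofReal (bint P mg 1 fun x => by
      rw [Real.norm_eq_abs, abs_of_nonneg (g0 x)]; exact g1 x) (ae_of_all _ g0),
      ENNReal.toReal_ofReal (integral_nonneg g0)]
  refine ⟨B, mB, fin B mB hm h0 h1 fun x => ?_, fun n hn => fin _
    (mB.inter (((hS.prodMap measurable_sh).iterate n) mB)) (hm.mul (hm.comp (hS.iterate n)))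
    (fun x => mul_nonneg (h0 _) (h0 _)) (fun x => mul_le_one₀ (h1 _) (h0 _) (h1 _)) fun x => ?_⟩
  · have : Prod.mk x ⁻¹' B = Set.pi ({0} : Finset ℕ) fun _ => Metric.closedBall 0 (h x / 2) := by
      ext u; simp [hB]
    rw [this, bern, Measure.infinitePi_pi _ fun _ _ => measurableSet_closedBall]
    simp [vb]
  · have : Prod.mk x ⁻¹' (B ∩ (Prod.map S sh)^[n] ⁻¹' B) = Set.pi ({0, n} : Finset ℕ)
        fun i => Metric.closedBall 0 (h (S^[i] x) / 2) := by
      ext u; simp [hB, Prod.map_iterate, sh_iter]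
    rw [this, bern, Measure.infinitePi_pi _ fun _ _ => measurableSet_closedBall,
      prod_pair hn.symm, vb, vb, ENNReal.ofReal_mul (h0 _)]
    rfl

lemma sinh_le {x : ℝ} (hx : |x| ≤ 1) : Real.sinh x ≤ x + x ^ 2 := by
  have h1 := Real.abs_exp_sub_one_sub_id_le hx
  have h2 := Real.add_one_le_exp (-x)
  have h3 := le_abs_self (Real.exp x - 1 - x)
  rw [Real.sinh_eq]; nlinarith [sq_nonneg x]

lemma polish_prod {A B : Type} [TopologicalSpace A] [TopologicalSpace B] [PolishSpace A]
    [PolishSpace B] : PolishSpace (A × B) := inferInstance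

theorem main {X : Type*} [MeasurableSpace X] (μ : Measure X) [IsProbabilityMeasure μ]
    {T : X → X} (hT : MeasurePreserving T μ μ) {A : Set X} (hA : MeasurableSet A) {ε : ℝ}
    (hε : 0 < ε) : ∃ (Y : Type) (_ : MeasurableSpace Y) (ν : Measure Y)
      (_ : IsProbabilityMeasure ν) (S : Y → Y), MeasurePreserving S ν ν ∧
      (∀ E, MeasurableSet E → S ⁻¹' E = E → ν E = 0 ∨ ν E = 1) ∧
      ∃ B : Set Y, MeasurableSet B ∧ 0 < ν B ∧ ∃ δ > 0, ∀ n, n ≠ 0 →
        μ.real (A ∩ T^[n] ⁻¹' A) ≤ μ.real A ^ 2 - ε →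
        ν.real (B ∩ S^[n] ⁻¹' B) ≤ ν.real B ^ 2 - δ := by
  classical
  set i : X → ℝ := A.indicator fun _ => 1 with hi
  have mi : Measurable i := measurable_const.indicator hA
  have bi : ∀ x, ‖i x‖ ≤ 1 := fun x => by by_cases h : x ∈ A <;> simp [hi, h]
  have a0 : 0 ≤ μ.real A := measureReal_nonneg
  have a1 : μ.real A ≤ 1 := measureReal_le_one
  obtain ⟨σ, hσ, hr⟩ := herglotz μ hT (f := fun x => i x - μ.real A) (mi.sub_const _) fun x => by
    rw [abs_le]; by_cases h : x ∈ A <;> simp [hi, h] <;> linarith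
  have er : ∀ n, ∫ x, (i x - μ.real A) * (i (T^[n] x) - μ.real A) ∂μ =
      μ.real (A ∩ T^[n] ⁻¹' A) - μ.real A ^ 2 := by
    intro n
    have mn := (hT.iterate n).measurable
    have : ∀ x, (i x - μ.real A) * (i (T^[n] x) - μ.real A) =
        (A ∩ T^[n] ⁻¹' A).indicator (fun _ => (1 : ℝ)) x - μ.real A * i x -
          μ.real A * (T^[n] ⁻¹' A).indicator (fun _ => (1 : ℝ)) x + μ.real A ^ 2 := by
      intro x
      by_cases h : x ∈ A <;> by_cases h' : T^[n] x ∈ A <;> simp [hi, h, h'] <;> ring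
    simp only [this]
    have i1 : Integrable ((A ∩ T^[n] ⁻¹' A).indicator (fun _ => (1 : ℝ))) μ :=
      (integrable_const _).indicator (hA.inter (mn hA))
    have i2 : Integrable (fun x => μ.real A * i x) μ := (bint μ mi 1 bi).const_mul _
    have i3 : Integrable (fun x => μ.real A * (T^[n] ⁻¹' A).indicator (fun _ => (1 : ℝ)) x) μ :=
      ((integrable_const _).indicator (mn hA)).const_mul _
    have i4 : Integrable (fun x => (A ∩ T^[n] ⁻¹' A).indicator (fun _ => (1 : ℝ)) x -
      μ.real A * i x) μ := i1.sub i2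
    have i5 : Integrable (fun x => (A ∩ T^[n] ⁻¹' A).indicator (fun _ => (1 : ℝ)) x -
      μ.real A * i x - μ.real A * (T^[n] ⁻¹' A).indicator (fun _ => (1 : ℝ)) x) μ := i4.sub i3
    rw [integral_add i5 (integrable_const _), integral_sub i4 i3, integral_sub i1 i2,
      integral_const_mul, integral_const_mul, hi, integral_indicator hA,
      integral_indicator (hA.inter (mn hA)), integral_indicator (mn hA)]
    have : μ.real (T^[n] ⁻¹' A) = μ.real A :=
      (hT.iterate n).measureReal_preimage hA.nullMeasurableSet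
    simp [this]; ring
  obtain ⟨D, F, mD, hD, hF, hd⟩ := decomp σ (half_pos hε)
  set κ := min 1 (ε / 4) with hκ
  have k0 : 0 < κ := lt_min one_pos (by positivity)
  have k1 : κ ≤ 1 := min_le_left _ _
  have k2 : κ ≤ ε / 4 := min_le_right _ _
  obtain ⟨P₁, hP₁, h₁⟩ := gauss σ mD k0.le
  obtain ⟨P₂, hP₂, h₂⟩ := exists_rot (fun j : F => (j : TT))
  obtain ⟨g, cg, g0, hg⟩ := gauss_fun h₁
  set c := Real.exp (-(κ * (σ.restrict D).real Set.univ)) with hc
  have c0 : 0 < c := Real.exp_pos _
  obtain ⟨Y, cY, Y0, hY⟩ := rot_fun F hF (fun t => κ * c * σ.real {t})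
    (fun t => mul_nonneg (by positivity) measureReal_nonneg) P₂ h₂
  set R : (F → TT) → F → TT := fun x => x + fun j : F => (j : TT) with hR
  have mR : MeasurePreserving R P₂ P₂ := rot_mp h₂
  have m1 := gauss_mp h₁
  set G : (F → TT) × (ℕ → TT) → ℝ := fun p => Y p.1 + g p.2 with hG
  have cG : Continuous G := by rw [hG]; fun_prop
  obtain ⟨M, hM⟩ := (isCompact_range cG).isBounded.exists_pos_norm_le
  have bG : ∀ p, |G p / M| ≤ 1 := fun p => by
    rw [abs_div, abs_of_pos hM.1, div_le_one hM.1]; exact hM.2 _ ⟨p, rfl⟩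
  have mp := mR.prod m1
  have G0 : ∫ p, G p ∂(P₂.prod P₁) = 0 := by
    rw [hG, integral_add (ccint _ (by fun_prop)) (ccint _ (by fun_prop)), integral_fun_fst,
      integral_fun_snd, Y0, g0]; simp
  have sh0 : ∀ {Z : Type} [MeasurableSpace Z] {Q : Measure Z} {U : Z → Z},
      MeasurePreserving U Q Q → ∀ {φ : Z → ℝ}, Measurable φ → ∀ n,
      ∫ z, φ (U^[n] z) ∂Q = ∫ z, φ z ∂Q := by
    intro Z _ Q U hU φ hφ n
    conv_rhs => rw [← (hU.iterate n).map_eq]
    rw [integral_map (hU.iterate n).measurable.aemeasurable hφ.aestronglyMeasurable]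
  have cR : Continuous R := by rw [hR]; fun_prop
  have cs : Continuous sh := by unfold sh; fun_prop
  have GG : ∀ n, ∫ p, G p * G ((Prod.map R sh)^[n] p) ∂(P₂.prod P₁) =
      ∫ y, Y y * Y (R^[n] y) ∂P₂ + ∫ x, g x * g (sh^[n] x) ∂P₁ := by
    intro n
    have c1 := cR.iterate n
    have c2 := cs.iterate n
    have : ∀ p : (F → TT) × (ℕ → TT), G p * G ((Prod.map R sh)^[n] p) =
        (Y p.1 * Y (R^[n] p.1) + g p.2 * g (sh^[n] p.2)) +
          (Y p.1 * g (sh^[n] p.2) + Y (R^[n] p.1) * g p.2) := fun p => by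
      simp only [hG, Prod.map_iterate, Prod.map_fst, Prod.map_snd]; ring
    simp only [this]
    rw [integral_add (ccint _ (by fun_prop)) (ccint _ (by fun_prop)),
      integral_add (ccint _ (by fun_prop)) (ccint _ (by fun_prop)),
      integral_add (ccint _ (by fun_prop)) (ccint _ (by fun_prop)),
      integral_fun_fst (fun y => Y y * Y (R^[n] y)), integral_fun_snd (fun x => g x * g (sh^[n] x)),
      integral_prod_mul Y (fun x => g (sh^[n] x)), integral_prod_mul (fun y => Y (R^[n] y)) g,
      Y0, g0]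
    simp
  obtain ⟨B, mB, eB, hB⟩ := bern_ext (P₂.prod P₁) mp.measurable (h := fun p => (1 + G p / M) / 2)
    (Continuous.measurable (by fun_prop)) (fun p => by linarith [(abs_le.1 (bG p)).1])
    (fun p => by linarith [(abs_le.1 (bG p)).2])
  have eB' : ((P₂.prod P₁).prod bern).real B = 1 / 2 := by
    rw [eB, integral_div, integral_add (integrable_const _) (ccint _ (by fun_prop)), integral_div,
      G0]; simp
  refine ⟨_, _, (P₂.prod P₁).prod bern, inferInstance, _, mp.prod bern_mp, ?_, B, mB, ?_,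
    κ * c * (ε / 4) / (4 * M ^ 2), by have := hM.1; positivity, fun n hn hle => ?_⟩
  · have b1 : BorelSpace ((F → TT) × (ℕ → TT)) := inferInstance
    have b2 : BorelSpace (((F → TT) × (ℕ → TT)) × (ℕ → TT)) := Prod.borelSpace
    have b3 : PolishSpace ((F → TT) × (ℕ → TT)) := inferInstance
    have b4 : PolishSpace (((F → TT) × (ℕ → TT)) × (ℕ → TT)) := polish_prod
    exact ((good_ch.tens good_ch).tens good_ch).erg _ (mp.prod bern_mp)
      (CF.tens (good_ch.tens good_ch) (CF.tens good_ch (rot_cf h₂) (gauss_scf hD k0.le h₁))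
        bern_scf)
  · rw [pos_iff_ne_zero]
    intro h0
    rw [measureReal_def, h0] at eB'
    norm_num at eB'
  · rw [hB n hn, eB']
    have c3 := (cR.prodMap cs).iterate n
    have : ∀ p, (1 + G p / M) / 2 * ((1 + G ((Prod.map R sh)^[n] p) / M) / 2) =
        1 / 4 + (G p / (4 * M) + (G ((Prod.map R sh)^[n] p) / (4 * M) +
          G p * G ((Prod.map R sh)^[n] p) / (4 * M ^ 2))) := fun p => by
      have := hM.1; field_simp; ring
    simp only [this]
    rw [integral_add (integrable_const _) (ccint _ (by fun_prop)),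
      integral_add (ccint _ (by fun_prop)) (ccint _ (by fun_prop)),
      integral_add (ccint _ (by fun_prop)) (ccint _ (by fun_prop)), integral_div, integral_div,
      integral_div, integral_div, sh0 mp cG.measurable, G0, GG, hY, hg]
    have key : ∑ t ∈ F, κ * c * σ.real {t} * (ee t ^ n).re +
        c * Real.sinh (κ * ∫ θ in D, (ee θ ^ n).re ∂σ) ≤ -(κ * c * (ε / 4)) := by
      have h1 := hd n
      have h2 : ∫ θ, (ee θ ^ n).re ∂σ ≤ -ε := by
        have := int_re_c σ (continuous_ee.pow n) 1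
        simp only [one_mul, Pi.pow_apply] at this
        rw [this, hr n hn, er, Complex.ofReal_re]; linarith
      set z := ∫ θ in D, (ee θ ^ n).re ∂σ with hz
      have z1 : |z| ≤ 1 := by
        have : ‖z‖ ≤ 1 * σ.real D :=
          norm_setIntegral_le_of_norm_le_const (measure_lt_top _ _) fun x _ =>
            (Complex.abs_re_le_norm _).trans (by simp [norm_ee])
        have h3 : σ.real D ≤ 1 := measureReal_le_one
        rw [Real.norm_eq_abs] at this; linarith
      have z2 : z ^ 2 ≤ 1 := by rw [← sq_abs]; exact pow_le_one₀ (abs_nonneg _) z1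
      have h4 := sinh_le (x := κ * z) (by
        rw [abs_mul, abs_of_pos k0]; exact mul_le_one₀ k1 (abs_nonneg _) z1)
      have h5 : ∑ t ∈ F, κ * c * σ.real {t} * (ee t ^ n).re =
          κ * c * ∑ t ∈ F, σ.real {t} * (ee t ^ n).re := by
        rw [mul_sum]; exact sum_congr rfl fun t _ => by ring
      rw [h5]
      set s := ∑ t ∈ F, σ.real {t} * (ee t ^ n).re
      have h6 : c * Real.sinh (κ * z) ≤ c * (κ * z + (κ * z) ^ 2) :=
        mul_le_mul_of_nonneg_left h4 c0.le
      have h7 : s + z + κ * z ^ 2 ≤ -(ε / 4) := by nlinarith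
      have h8 : κ * c * (s + z + κ * z ^ 2) ≤ κ * c * -(ε / 4) :=
        mul_le_mul_of_nonneg_left h7 (by positivity)
      nlinarith
    have hM2 : 0 < 4 * M ^ 2 := by have := hM.1; positivity
    have := div_le_div_of_nonneg_right key hM2.le
    simp only [integral_const, probReal_univ, one_smul, zero_div, zero_add]
    rw [neg_div] at this
    linarith

end Pool.Agent.H12.Rec
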