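import Mathlib

namespace Pool.Agent.H12.Rotor

open Filter Topology Finset

variable {d : ℕ}

/-- unit vector -/
def e (i : Fin d) : Fin d → ℤ := Pi.single i 1

/-- neighbour average -/
noncomputable def avg (f : (Fin d → ℤ) → ℝ) (x : Fin d → ℤ) : ℝ :=
  (∑ i, (f (x + e i) + f (x - e i))) / (2 * d)

/-- lazy operator -/
noncomputable def Q (f : (Fin d → ℤ) → ℝ) (x : Fin d → ℤ) : ℝ := (f x + avg f x) / 2

/-- reflection -/
def neg (i : Fin d) (x : Fin d → ℤ) : Fin d → ℤ := Function.update x i (-x i)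

/-- difference -/
def D (i : Fin d) (f : (Fin d → ℤ) → ℝ) (x : Fin d → ℤ) : ℝ := f x - f (x + e i)

/-- even in a coordinate -/
def Ev (i : Fin d) (f : (Fin d → ℤ) → ℝ) : Prop := ∀ x, f (neg i x) = f x

/-- monotonicity cone -/
structure Cone (f : (Fin d → ℤ) → ℝ) : Prop where
  ev : ∀ i, Ev i f
  m1 : ∀ i x, 0 ≤ x i → 0 ≤ D i f x
  m2 : ∀ i j x, i ≠ j → 0 ≤ x i → 0 ≤ x j → 0 ≤ D j (D i f) x

@[simp] lemma e_self (i : Fin d) : e i i = 1 := by simp [e]
lemma e_ne {i j : Fin d} (h : j ≠ i) : e i j = 0 := by simp [e, h]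
@[simp] lemma neg_self (i : Fin d) (x : Fin d → ℤ) : neg i x i = -x i := by simp [neg]
lemma neg_ne {i j : Fin d} (h : j ≠ i) (x : Fin d → ℤ) : neg i x j = x j := by simp [neg, h]

lemma neg_neg' (i : Fin d) (x : Fin d → ℤ) : neg i (neg i x) = x := by
  funext l; by_cases h : l = i
  · subst h; simp
  · simp [neg_ne h]

lemma neg_add_ne {i j : Fin d} (h : j ≠ i) (x : Fin d → ℤ) : neg i x + e j = neg i (x + e j) := by
  funext l; by_cases hl : l = i
  · subst hl; simp [e_ne h.symm]
  · simp [neg_ne hl]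

lemma neg_sub_ne {i j : Fin d} (h : j ≠ i) (x : Fin d → ℤ) : neg i x - e j = neg i (x - e j) := by
  funext l; by_cases hl : l = i
  · subst hl; simp [e_ne h.symm]
  · simp [neg_ne hl]

lemma neg_add_self (i : Fin d) (x : Fin d → ℤ) : neg i x + e i = neg i (x - e i) := by
  funext l; by_cases hl : l = i
  · subst hl; simp; ring
  · simp [neg_ne hl, e_ne hl]

lemma neg_sub_self (i : Fin d) (x : Fin d → ℤ) : neg i x - e i = neg i (x + e i) := by
  funext l; by_cases hl : l = i
  · subst hl; simp; ring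
  · simp [neg_ne hl, e_ne hl]

lemma D_refl {i : Fin d} {f : (Fin d → ℤ) → ℝ} (h : Ev i f) (y : Fin d → ℤ) :
    D i f y = -D i f (neg i (y + e i)) := by
  simp only [D]
  rw [neg_add_self, h, h, add_sub_cancel_right]
  ring

lemma D_anti {i : Fin d} {f : (Fin d → ℤ) → ℝ} (h : Ev i f) {x : Fin d → ℤ} (hx : x i = 0) :
    D i f (x - e i) = -D i f x := by
  rw [D_refl h, sub_add_cancel]
  congr 2
  funext l; by_cases hl : l = i
  · subst hl; simp [hx]
  · simp [neg_ne hl]

lemma D_ev {i j : Fin d} (hij : j ≠ i) {f : (Fin d → ℤ) → ℝ} (h : Ev i f) : Ev i (D j f) := by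
  intro x
  simp only [D]
  rw [neg_add_ne hij, h, h]

lemma D_comm (i j : Fin d) (f : (Fin d → ℤ) → ℝ) : D i (D j f) = D j (D i f) := by
  funext x
  simp only [D]
  rw [add_right_comm x (e i) (e j)]
  ring

lemma D_Q (i : Fin d) (f : (Fin d → ℤ) → ℝ) : D i (Q f) = Q (D i f) := by
  funext x
  simp only [D, Q, avg]
  have : ∑ l, (f (x + e l) - f (x + e l + e i) + (f (x - e l) - f (x - e l + e i))) =
      ∑ l, (f (x + e l) + f (x - e l)) - ∑ l, (f (x + e i + e l) + f (x + e i - e l)) := by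
    rw [← sum_sub_distrib]
    refine sum_congr rfl fun l _ => ?_
    rw [add_right_comm x (e l) (e i), show x - e l + e i = x + e i - e l by abel]
    ring
  rw [this]
  ring

lemma Q_nonneg {g : (Fin d → ℤ) → ℝ} {x : Fin d → ℤ} (h0 : 0 ≤ g x)
    (h : ∀ l, -g x ≤ g (x + e l) + g (x - e l)) : 0 ≤ Q g x := by
  rcases Nat.eq_zero_or_pos d with hd | hd
  · simp only [Q, avg, hd]; simp; linarith
  have hd' : (0 : ℝ) < d := by exact_mod_cast hd
  have h1 : ∑ _l : Fin d, -g x ≤ ∑ l, (g (x + e l) + g (x - e l)) := sum_le_sum fun l _ => h l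
  simp only [sum_const, card_univ, Fintype.card_fin, nsmul_eq_mul] at h1
  have h2 : -g x / 2 ≤ avg g x := by
    rw [avg, div_le_div_iff₀ (by positivity) (by positivity)]
    nlinarith
  simp only [Q]
  linarith

lemma Cone.Q {f : (Fin d → ℤ) → ℝ} (h : Cone f) : Cone (Q f) := by
  refine ⟨fun i x => ?_, fun i x hx => ?_, fun i j x hij hi hj => ?_⟩
  · simp only [Rotor.Q, avg, h.ev i x]
    congr 3
    refine sum_congr rfl fun l _ => ?_
    by_cases hl : l = i
    · subst hl; rw [neg_add_self, neg_sub_self, h.ev, h.ev, add_comm]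
    · rw [neg_add_ne hl, neg_sub_ne hl, h.ev, h.ev]
  · rw [D_Q]
    refine Q_nonneg (h.m1 i x hx) fun l => ?_
    have h0 := h.m1 i x hx
    have h1 := h.m1 i (x + e l) (by
      by_cases hl : i = l
      · subst hl; simp; omega
      · simpa [e_ne hl] using hx)
    by_cases hc : l = i ∧ x i = 0
    · obtain ⟨rfl, hc⟩ := hc
      rw [D_anti (h.ev l) hc]; linarith
    · have h2 := h.m1 i (x - e l) (by
        by_cases hl : i = l
        · subst hl; simp at hc ⊢; omega
        · simpa [e_ne hl] using hx)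
      linarith
  · rw [D_Q, D_Q]
    refine Q_nonneg (h.m2 i j x hij hi hj) fun l => ?_
    have h0 := h.m2 i j x hij hi hj
    have h1 := h.m2 i j (x + e l) hij (by
      by_cases hl : i = l
      · subst hl; simp; omega
      · simpa [e_ne hl] using hi) (by
      by_cases hl : j = l
      · subst hl; simp; omega
      · simpa [e_ne hl] using hj)
    by_cases hc : l = i ∧ x i = 0
    · obtain ⟨rfl, hc⟩ := hc
      rw [D_comm] at h0 h1 ⊢
      rw [D_anti (D_ev hij.symm (h.ev l)) hc]; linarith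
    by_cases hc' : l = j ∧ x j = 0
    · obtain ⟨rfl, hc'⟩ := hc'
      rw [D_anti (D_ev hij (h.ev l)) hc']; linarith
    · have h2 := h.m2 i j (x - e l) hij (by
        by_cases hl : i = l
        · subst hl; simp at hc ⊢; omega
        · simpa [e_ne hl] using hi) (by
        by_cases hl : j = l
        · subst hl; simp at hc' ⊢; omega
        · simpa [e_ne hl] using hj)
      linarith

/-- point mass -/
def dl (x : Fin d → ℤ) : ℝ := if x = 0 then 1 else 0

lemma dl_pos {x : Fin d → ℤ} {i : Fin d} (h : 0 < x i) : dl x = 0 :=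
  if_neg fun e => by simp [e] at h

lemma cone_dl : Cone (dl (d := d)) := by
  have h0 : ∀ x : Fin d → ℤ, 0 ≤ dl x := fun x => by unfold dl; split_ifs <;> norm_num
  refine ⟨fun i x => ?_, fun i x hx => ?_, fun i j x hij hi hj => ?_⟩
  · have hz : neg i (0 : Fin d → ℤ) = 0 := by simp [neg]
    have : neg i x = 0 ↔ x = 0 :=
      ⟨fun h => by rw [← neg_neg' i x, h, hz], fun h => by rw [h, hz]⟩
    simp only [dl, this]
  · rw [D, dl_pos (x := x + e i) (i := i) (by simp; omega), sub_zero]; exact h0 x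
  · simp only [D]
    rw [dl_pos (x := x + e i) (i := i) (by simp; omega),
      dl_pos (x := x + e j) (i := j) (by simp; omega),
      dl_pos (x := x + e j + e i) (i := i) (by simp [e_ne hij]; omega)]
    simpa using h0 x

/-- lazy hitting probabilities -/
noncomputable def k : ℕ → (Fin d → ℤ) → ℝ
  | 0 => dl
  | N + 1 => fun x => if x = 0 then 1 else Q (k N) x

lemma avg_mono {f g : (Fin d → ℤ) → ℝ} (h : ∀ x, f x ≤ g x) (x : Fin d → ℤ) :
    avg f x ≤ avg g x :=
  div_le_div_of_nonneg_right (sum_le_sum fun l _ => add_le_add (h _) (h _)) (by positivity)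

lemma avg_const_le (c : ℝ) (hc : 0 ≤ c) (x : Fin d → ℤ) : avg (fun _ => c) x ≤ c := by
  simp only [avg, sum_const, card_univ, Fintype.card_fin, nsmul_eq_mul]
  refine div_le_of_le_mul₀ (by positivity) hc (le_of_eq (by ring))

lemma avg_bd {f : (Fin d → ℤ) → ℝ} (h : ∀ x, 0 ≤ f x ∧ f x ≤ 1) (x : Fin d → ℤ) :
    0 ≤ avg f x ∧ avg f x ≤ 1 :=
  ⟨le_trans (by simp [avg]) (avg_mono (f := fun _ => 0) (fun x => (h x).1) x),
    (avg_mono (fun x => (h x).2) x).trans (avg_const_le 1 zero_le_one x)⟩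

lemma k_bd (N : ℕ) (x : Fin d → ℤ) : 0 ≤ k N x ∧ k N x ≤ 1 := by
  induction N generalizing x with
  | zero => simp only [k, dl]; split_ifs <;> norm_num
  | succ N ih =>
    simp only [k, Q]
    have := avg_bd ih x
    have := ih x
    split_ifs
    · norm_num
    · constructor <;> linarith [this.1, this.2]

lemma k_zero (N : ℕ) : k N (0 : Fin d → ℤ) = 1 := by cases N <;> simp [k, dl]

lemma k_succ (N : ℕ) (x : Fin d → ℤ) : k N x ≤ k (N + 1) x := by
  induction N generalizing x with
  | zero =>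
    by_cases h : x = 0
    · rw [h, k_zero, k_zero]
    · simp only [k, dl, h, if_false]; simpa [k, h] using (k_bd 1 x).1
  | succ N ih =>
    rw [k, k]
    beta_reduce
    split_ifs
    · exact le_rfl
    · simp only [Q]; linarith [ih x, avg_mono ih x]

lemma k_cone (N : ℕ) : Cone (k (d := d) N) := by
  induction N with
  | zero => exact cone_dl
  | succ N ih =>
    have hb : 0 ≤ 1 - Q (k (d := d) N) 0 := by
      simp only [Q]; linarith [(k_bd N (0 : Fin d → ℤ)).2, (avg_bd (k_bd N) (0 : Fin d → ℤ)).2]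
    have he : ∀ x : Fin d → ℤ, k (N + 1) x = Q (k N) x + (1 - Q (k (d := d) N) 0) * dl x := by
      intro x
      simp only [k, dl]
      split_ifs with h
      · rw [h]; ring
      · ring
    refine ⟨fun i x => ?_, fun i x hx => ?_, fun i j x hij hi hj => ?_⟩
    · rw [he, he, ih.Q.ev, cone_dl.ev]
    · have h1 := ih.Q.m1 i x hx
      have h2 := mul_nonneg hb (cone_dl.m1 i x hx)
      simp only [D, he] at h1 h2 ⊢
      linarith
    · have h1 := ih.Q.m2 i j x hij hi hj
      have h2 := mul_nonneg hb (cone_dl.m2 i j x hij hi hj)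
      simp only [D, he] at h1 h2 ⊢
      linarith

lemma k_supp (N : ℕ) (x : Fin d → ℤ) (i : Fin d) (h : (N : ℤ) < x i) : k N x = 0 := by
  induction N generalizing x with
  | zero => exact dl_pos (i := i) (by simpa using h)
  | succ N ih =>
    have hx : x ≠ 0 := fun e => by simp [e] at h; omega
    have he : ∀ l, 0 ≤ e l i ∧ e l i ≤ 1 := fun l => by
      by_cases hl : i = l
      · subst hl; simp
      · simp [e_ne hl]
    simp only [k, hx, if_false, Q, avg]
    rw [ih x (by push_cast at h; omega), sum_eq_zero fun l _ => by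
      rw [ih _ (by have := he l; push_cast at h; simp; omega),
        ih _ (by have := he l; push_cast at h; simp; omega), add_zero]]
    simp

/-- the good class -/
structure Good (f : (Fin d → ℤ) → ℝ) : Prop extends Cone f where
  bd : ∀ x, 0 ≤ f x ∧ f x ≤ 1
  sub : ∀ x, x ≠ 0 → f x ≤ avg f x

lemma k_good (N : ℕ) : Good (k (d := d) N) :=
  { k_cone N with
    bd := k_bd N
    sub := fun x hx => by
      have := k_succ N x
      simp only [k, hx, if_false, Q] at this
      linarith }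

/-- the hitting probability -/
noncomputable def h (x : Fin d → ℤ) : ℝ := ⨆ N, k N x

lemma k_lim (x : Fin d → ℤ) : Tendsto (fun N => k N x) atTop (𝓝 (h x)) :=
  tendsto_atTop_ciSup (monotone_nat_of_le_succ fun N => k_succ N x)
    ⟨1, by rintro _ ⟨N, rfl⟩; exact (k_bd N x).2⟩

lemma avg_lim {f : ℕ → (Fin d → ℤ) → ℝ} {g : (Fin d → ℤ) → ℝ}
    (hf : ∀ x, Tendsto (fun N => f N x) atTop (𝓝 (g x))) (x : Fin d → ℤ) :
    Tendsto (fun N => avg (f N) x) atTop (𝓝 (avg g x)) :=
  (tendsto_finsetSum _ fun _ _ => (hf _).add (hf _)).div_const _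

lemma h_zero : h (0 : Fin d → ℤ) = 1 := by simp [h, k_zero]

lemma h_harm (x : Fin d → ℤ) (hx : x ≠ 0) : h x = avg h x := by
  have h1 := (k_lim x).comp (tendsto_add_atTop_nat 1)
  have h2 := ((k_lim x).add (avg_lim k_lim x)).div_const 2
  have h3 : ((fun N => k N x) ∘ fun a => a + 1) = fun N => (k N x + avg (k N) x) / 2 := by
    funext N; simp [k, hx, Q]
  rw [h3] at h1
  linarith [tendsto_nhds_unique h1 h2]

lemma h_good : Good (h (d := d)) := by
  refine ⟨⟨fun i x => ?_, fun i x hx => ?_, fun i j x hij hi hj => ?_⟩, fun x => ⟨?_, ?_⟩,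
    fun x hx => (h_harm x hx).le⟩
  · simp only [h, (k_cone _).ev i x]
  · exact ge_of_tendsto' ((k_lim x).sub (k_lim _)) fun N => (k_cone N).m1 i x hx
  · exact ge_of_tendsto' (((k_lim x).sub (k_lim _)).sub ((k_lim _).sub (k_lim _)))
      fun N => (k_cone N).m2 i j x hij hi hj
  · exact ge_of_tendsto' (k_lim x) fun N => (k_bd N x).1
  · exact le_of_tendsto' (k_lim x) fun N => (k_bd N x).2

lemma Cone.m1' {f : (Fin d → ℤ) → ℝ} (hf : Cone f) (i : Fin d) (y : Fin d → ℤ) (hy : y i < 0) :
    D i f y ≤ 0 := by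
  rw [D_refl (hf.ev i), neg_nonpos]
  exact hf.m1 _ _ (by simp; omega)

lemma flux {f : (Fin d → ℤ) → ℝ} (hf : Good f) (i : Fin d) (a : ℤ) (ha : 0 ≤ a)
    (F : Finset (Fin d → ℤ)) (hF : ∀ x ∈ F, x i = a) : ∑ x ∈ F, D i f x ≤ 2 * d := by
  have hd : (0 : ℝ) < d := by exact_mod_cast Fin.pos i
  set R : ℕ := F.sup fun x => univ.sup fun l => (x l).natAbs with hR
  have hR' : ∀ x ∈ F, ∀ l, (x l).natAbs ≤ R := fun x hx l =>
    (le_sup (f := fun l => (x l).natAbs) (mem_univ l)).trans
      (le_sup (f := fun x : Fin d → ℤ => univ.sup fun l => (x l).natAbs) hx)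
  set r : Fin d → ℤ := fun l => if l = i then a else R with hr
  have hr0 : ∀ l, 0 ≤ r l := fun l => by simp only [hr]; split_ifs <;> omega
  set B := Fintype.piFinset fun l => Icc (-r l) (r l) with hB
  have hmem : ∀ x, x ∈ B ↔ ∀ l, -r l ≤ x l ∧ x l ≤ r l := fun x => by simp [hB]
  have h1 : ∑ x ∈ B, ∑ l, (D l f x - D l f (x - e l)) ≤ 2 * d := by
    have : ∀ x ∈ B, ∑ l, (D l f x - D l f (x - e l)) ≤ if x = 0 then (2 * d : ℝ) else 0 := by
      intro x _
      have h2 : ∑ l, (D l f x - D l f (x - e l)) = 2 * d * (f x - avg f x) := by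
        simp only [D, sub_add_cancel, avg]
        rw [mul_sub, mul_div_cancel₀ _ (by positivity)]
        simp only [sum_sub_distrib, sum_add_distrib, sum_const, card_univ, Fintype.card_fin,
          nsmul_eq_mul]
        ring
      rw [h2]
      split_ifs with hx
      · nlinarith [(hf.bd x).2, (avg_bd hf.bd x).1]
      · nlinarith [hf.sub x hx]
    refine (sum_le_sum this).trans ?_
    rw [sum_ite_eq']
    split_ifs
    · exact le_rfl
    · positivity
  have h2 : ∀ l, ∑ x ∈ B \ B.image (· - e l), D l f x ≤ ∑ x ∈ B, (D l f x - D l f (x - e l)) := by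
    intro l
    rw [sum_sub_distrib, ← sum_image (s := B) (g := fun x => x - e l) (f := D l f)
      (fun x _ y _ h => sub_left_injective h), ← sum_sdiff_sub_sum_sdiff, le_sub_self_iff]
    refine sum_nonpos fun y hy => hf.m1' l y ?_
    obtain ⟨h3, h4⟩ := mem_sdiff.1 hy
    obtain ⟨x, hx, rfl⟩ := mem_image.1 h3
    by_contra hc
    refine h4 ((hmem _).2 fun m => ?_)
    have := (hmem x).1 hx m
    by_cases hm : m = l
    · subst hm; have := hr0 m; simp at hc ⊢; omega
    · simpa [e_ne hm] using this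
  have h3 : ∀ l, ∀ x ∈ B \ B.image (· - e l), 0 ≤ D l f x := by
    intro l x hx
    obtain ⟨h3, h4⟩ := mem_sdiff.1 hx
    refine hf.m1 l x ?_
    by_contra hc
    refine h4 (mem_image.2 ⟨x + e l, (hmem _).2 fun m => ?_, by simp⟩)
    have := (hmem x).1 h3 m
    by_cases hm : m = l
    · subst hm; have := hr0 m; simp at hc ⊢; omega
    · simpa [e_ne hm] using this
  have h4 : F ⊆ B \ B.image (· - e i) := by
    intro x hx
    refine mem_sdiff.2 ⟨(hmem x).2 fun l => ?_, fun hc => ?_⟩
    · have := hR' x hx l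
      simp only [hr]
      split_ifs with hl
      · subst hl; rw [hF x hx]; omega
      · omega
    · obtain ⟨y, hy, rfl⟩ := mem_image.1 hc
      have h5 := (hmem y).1 hy i
      have h6 := hF _ hx
      simp [hr] at h5 h6
      omega
  rw [sum_comm] at h1
  calc _ ≤ ∑ x ∈ B \ B.image (· - e i), D i f x :=
        sum_le_sum_of_subset_of_nonneg h4 fun x hx _ => h3 i x hx
    _ ≤ ∑ l, ∑ x ∈ B \ B.image (· - e l), D l f x :=
        single_le_sum (f := fun l => ∑ x ∈ B \ B.image (· - e l), D l f x)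
          (fun l _ => sum_nonneg (h3 l)) (mem_univ i)
    _ ≤ _ := (sum_le_sum fun l _ => h2 l).trans h1

lemma D_shift {f : (Fin d → ℤ) → ℝ} (hf : Cone f) {i l : Fin d} (hil : i ≠ l) (x : Fin d → ℤ)
    (hx : 0 ≤ x i) (s : ℕ) (hs : (s : ℤ) ≤ x l) : D i f x ≤ D i f (x - s • e l) := by
  induction s with
  | zero => simp
  | succ s ih =>
    refine (ih (by push_cast at hs; omega)).trans ?_
    have := hf.m2 i l (x - (s + 1) • e l) hil (by simpa [e_ne hil] using hx)
      (by push_cast at hs; simp; omega)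
    rw [D, show x - (s + 1) • e l + e l = x - s • e l by rw [succ_nsmul]; abel] at this
    linarith

lemma flux2 {f : (Fin d → ℤ) → ℝ} (hf : Good f) {i l : Fin d} (hil : i ≠ l) (a : ℤ) (ha : 0 ≤ a)
    (b : ℕ) (F : Finset (Fin d → ℤ)) (hF : ∀ x ∈ F, x i = a ∧ x l = b) :
    (b + 1) * ∑ x ∈ F, D i f x ≤ 2 * d := by
  have h1 := flux hf i a ha ((F ×ˢ range (b + 1)).image fun z => z.1 - z.2 • e l) (by
    intro x hx
    obtain ⟨z, hz, rfl⟩ := mem_image.1 hx
    simpa [e_ne hil] using (hF _ (mem_product.1 hz).1).1)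
  rw [sum_image, sum_product] at h1
  · refine le_trans ?_ h1
    rw [mul_sum]
    refine sum_le_sum fun x hx => ?_
    have := card_nsmul_le_sum (range (b + 1)) (fun s => D i f (x - s • e l)) (D i f x)
      fun s hs => D_shift hf.toCone hil x (by rw [(hF x hx).1]; exact ha) s
        (by rw [(hF x hx).2]; exact_mod_cast Nat.lt_succ_iff.1 (mem_range.1 hs))
    simpa using this
  · rintro ⟨x, s⟩ hz ⟨y, t⟩ hw hxy
    have h2 := congrFun hxy l
    have h3 := (hF _ (mem_product.1 hz).1).2
    have h4 := (hF _ (mem_product.1 hw).1).2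
    simp at h2 h3 h4
    obtain rfl : s = t := by omega
    exact Prod.ext (sub_left_injective hxy) rfl

lemma neg_inj (i : Fin d) : Function.Injective (neg i) := fun x y h => by
  rw [← neg_neg' i x, h, neg_neg']

lemma flux3 {f : (Fin d → ℤ) → ℝ} (hf : Good f) {i l : Fin d} (hil : i ≠ l) (a b : ℤ)
    (F : Finset (Fin d → ℤ)) (hF : ∀ x ∈ F, x i = a ∧ x l = b) :
    (|(b : ℝ)| + 1) * ∑ x ∈ F, |D i f x| ≤ 2 * d := by
  have key : ∀ a : ℤ, 0 ≤ a → ∀ F : Finset (Fin d → ℤ), (∀ x ∈ F, x i = a ∧ x l = b) →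
      (|(b : ℝ)| + 1) * ∑ x ∈ F, D i f x ≤ 2 * d := by
    intro a ha F hF
    obtain ⟨n, rfl | rfl⟩ := Int.eq_nat_or_neg b
    · simpa using flux2 hf hil a ha n F hF
    · have := flux2 hf hil a ha n (F.image (neg l)) (by
        intro x hx
        obtain ⟨y, hy, rfl⟩ := mem_image.1 hx
        simp [neg_ne hil, hF y hy])
      rw [sum_image fun x _ y _ h => neg_inj l h] at this
      simpa [D_ev hil (hf.ev l) _] using this
  rcases le_or_gt 0 a with ha | ha
  · rw [sum_congr rfl fun x hx => abs_of_nonneg (hf.m1 i x (by rw [(hF x hx).1]; exact ha))]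
    exact key a ha F hF
  · have := key (-(a + 1)) (by omega) (F.image fun y => neg i (y + e i)) (by
      intro x hx
      obtain ⟨y, hy, rfl⟩ := mem_image.1 hx
      simp [neg_ne hil.symm, hF y hy, e_ne hil.symm])
    rw [sum_image fun x _ y _ h => add_left_injective _ (neg_inj i h)] at this
    rw [sum_congr rfl fun x hx => abs_of_nonpos (hf.m1' i x (by rw [(hF x hx).1]; exact ha))]
    refine le_trans (le_of_eq ?_) this
    congr 1
    exact sum_congr rfl fun x _ => by rw [D_refl (hf.ev i), neg_neg]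

lemma flux_pt {f : (Fin d → ℤ) → ℝ} (hf : Good f) {i l m : Fin d} (hil : i ≠ l) (him : i ≠ m)
    (hlm : l ≠ m) (r : ℕ) (x : Fin d → ℤ) (hi : 0 ≤ x i) (hl : (r : ℤ) ≤ x l) (hm : (r : ℤ) ≤ x m) :
    D i f x ≤ 2 * d / ((r + 1) * (r + 1)) := by
  obtain ⟨b, hb⟩ := Int.eq_ofNat_of_zero_le (show 0 ≤ x l by omega)
  have h1 := flux2 hf hil (x i) hi b ((range (r + 1)).image fun t => x - t • e m) (by
    intro y hy
    obtain ⟨t, -, rfl⟩ := mem_image.1 hy
    simp [e_ne him, e_ne hlm, hb])
  rw [sum_image (fun s _ t _ h => by simpa using congrFun h m)] at h1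
  have h2 := card_nsmul_le_sum (range (r + 1)) (fun s => D i f (x - s • e m)) (D i f x)
    fun s hs => D_shift hf.toCone him x hi s (by have := mem_range.1 hs; omega)
  simp only [card_range, nsmul_eq_mul] at h2
  have h3 : (r : ℝ) ≤ b := by exact_mod_cast (show (r : ℤ) ≤ b by omega)
  have h4 := hf.m1 i x hi
  rw [le_div_iff₀ (by positivity)]
  push_cast at h2
  have h5 : ((b : ℝ) + 1) * ((r + 1) * D i f x) ≤ 2 * d :=
    (mul_le_mul_of_nonneg_left h2 (by positivity)).trans h1
  have h6 : ((r : ℝ) + 1) * ((r + 1) * D i f x) ≤ ((b : ℝ) + 1) * ((r + 1) * D i f x) :=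
    mul_le_mul_of_nonneg_right (by linarith) (by positivity)
  nlinarith

lemma diag {l j m : Fin d} (hlj : l ≠ j) (hlm : l ≠ m) (hjm : j ≠ m) (r : ℕ) :
    h ((r + 1) • (e l + e j + e m)) ≤ 6 * d / (r + 1) := by
  refine le_of_tendsto' (k_lim _) fun N => ?_
  have hf := k_good (d := d) N
  have step : ∀ r : ℕ, k N (r • (e l + e j + e m)) ≤
      k N ((r + 1) • (e l + e j + e m)) + 6 * d / ((r + 1) * (r + 1)) := by
    intro r
    have h1 := flux_pt hf hlj hlm hjm r (r • (e l + e j + e m))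
      (by simp [e_ne hlj, e_ne hlm]) (by simp [e_ne hlj.symm, e_ne hjm])
      (by simp [e_ne hlm.symm, e_ne hjm.symm])
    have h2 := flux_pt hf hlj.symm hjm hlm r (r • (e l + e j + e m) + e l)
      (by simp [e_ne hlj.symm, e_ne hjm]) (by simp [e_ne hlj, e_ne hlm])
      (by simp [e_ne hlm.symm, e_ne hjm.symm])
    have h3 := flux_pt hf hlm.symm hjm.symm hlj r (r • (e l + e j + e m) + e l + e j)
      (by simp [e_ne hlm.symm, e_ne hjm.symm]) (by simp [e_ne hlj, e_ne hlm])
      (by simp [e_ne hlj.symm, e_ne hjm])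
    simp only [D] at h1 h2 h3
    rw [show (r + 1) • (e l + e j + e m) = r • (e l + e j + e m) + e l + e j + e m by
      rw [succ_nsmul]; abel]
    have : (6 * d : ℝ) / ((r + 1) * (r + 1)) = 3 * (2 * d / ((r + 1) * (r + 1))) := by ring
    linarith
  have key : ∀ s : ℕ, k N ((r + 1) • (e l + e j + e m)) ≤
      k N ((r + 1 + s) • (e l + e j + e m)) + (6 * d / (r + 1) - 6 * d / (r + 1 + s)) := by
    intro s
    induction s with
    | zero => simp
    | succ s ih =>
      have h1 := step (r + 1 + s)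
      have h2 : (6 * d : ℝ) / ((((r + 1 + s : ℕ) : ℝ) + 1) * (((r + 1 + s : ℕ) : ℝ) + 1)) ≤
          6 * d / (r + 1 + s) - 6 * d / (r + 1 + (s + 1 : ℕ)) := by
        push_cast
        rw [show (6 * d : ℝ) / (r + 1 + s) - 6 * d / (r + 1 + (s + 1)) =
          6 * d / ((r + 1 + s) * (r + 1 + s + 1)) by field_simp; ring]
        refine div_le_div_of_nonneg_left (by positivity) (by positivity) ?_
        nlinarith [(Nat.cast_nonneg r : (0 : ℝ) ≤ r), (Nat.cast_nonneg s : (0 : ℝ) ≤ s)]
      rw [← add_assoc]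
      linarith
  have h1 := key N
  rw [k_supp N ((r + 1 + N) • _) l (by simp [e_ne hlj, e_ne hlm])] at h1
  have : (0 : ℝ) ≤ 6 * d / (r + 1 + N) := by positivity
  linarith

lemma mono1 {f : (Fin d → ℤ) → ℝ} (hf : Cone f) (x : Fin d → ℤ) (i : Fin d) (s t : ℤ)
    (hst : |t| ≤ |s|) : f (Function.update x i s) ≤ f (Function.update x i t) := by
  have h1 : ∀ s : ℤ, f (Function.update x i s) = f (Function.update x i |s|) := by
    intro s
    rcases abs_choice s with h | h <;> rw [h]
    rw [← hf.ev i]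
    simp [neg]
  have h2 : ∀ (t : ℤ), 0 ≤ t → ∀ n : ℕ,
      f (Function.update x i (t + n)) ≤ f (Function.update x i t) := by
    intro t ht n
    induction n with
    | zero => simp
    | succ n ih =>
      refine le_trans ?_ ih
      have := hf.m1 i (Function.update x i (t + n)) (by simp; omega)
      rw [D, show Function.update x i (t + n) + e i = Function.update x i (t + (n + 1 : ℕ)) by
        funext l; by_cases hl : l = i
        · subst hl; simp; ring
        · simp [hl, e_ne hl]] at this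
      linarith
  rw [h1 s, h1 t]
  obtain ⟨n, hn⟩ := Int.eq_ofNat_of_zero_le (show 0 ≤ |s| - |t| by omega)
  rw [show |s| = |t| + n by omega]
  exact h2 _ (abs_nonneg _) n

lemma mono {f : (Fin d → ℤ) → ℝ} (hf : Cone f) (x y : Fin d → ℤ) (hxy : ∀ i, |y i| ≤ |x i|) :
    f x ≤ f y := by
  have : ∀ S : Finset (Fin d), f x ≤ f (S.piecewise y x) := by
    intro S
    induction S using Finset.induction_on with
    | empty => simp
    | insert i S hi ih =>
      rw [piecewise_insert]
      refine ih.trans ?_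
      conv_lhs => rw [← Function.update_eq_self i (S.piecewise y x)]
      exact mono1 hf _ i _ _ (by rw [piecewise_eq_of_notMem _ _ _ hi]; exact hxy i)
  simpa using this univ

lemma tele (f : (Fin d → ℤ) → ℝ) (j : Fin d) (x : Fin d → ℤ) (J : ℕ) :
    f x - f (x + J • e j) = ∑ s ∈ range J, D j f (x + s • e j) := by
  induction J with
  | zero => simp
  | succ J ih => rw [sum_range_succ, ← ih, D, succ_nsmul, ← add_assoc]; ring

lemma exists_third (hd : 3 ≤ d) (i v : Fin d) : ∃ j, j ≠ i ∧ j ≠ v := by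
  by_contra hc
  push Not at hc
  have : (univ : Finset (Fin d)) ⊆ {i, v} := fun j _ => by
    by_cases h : j = i
    · simp [h]
    · simp [hc j h]
  have h1 := card_le_card this
  have h2 := card_le_two (a := i) (b := v)
  simp at h1
  omega

lemma small (a b ε : ℝ) (hε : 0 < ε) : ∃ J : ℕ, a / (J + 1) ≤ ε / 2 ∧ ∃ K : ℕ, J + 1 ≤ K ∧
    (J + 1) * b / K ≤ ε / 2 := by
  have h1 : Tendsto (fun J : ℕ => a / ((J : ℝ) + 1)) atTop (𝓝 0) :=
    tendsto_const_nhds.div_atTop (tendsto_atTop_add_const_right _ _ tendsto_natCast_atTop_atTop)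
  obtain ⟨J, hJ⟩ := (h1.eventually (ge_mem_nhds (half_pos hε))).exists
  obtain ⟨K, hK⟩ := (((tendsto_const_div_atTop_nhds_zero_nat ((J + 1 : ℝ) * b)).eventually
    (ge_mem_nhds (half_pos hε))).and (eventually_ge_atTop (J + 1))).exists
  exact ⟨J, hJ, K, hK.2, hK.1⟩

lemma h_small (hd : 3 ≤ d) (ε : ℝ) (hε : 0 < ε) :
    ∃ K : ℕ, ∀ (x : Fin d → ℤ) l, (K : ℤ) ≤ |x l| → h x ≤ ε := by
  obtain ⟨J, hJ, K, hJK, hK⟩ := small (6 * d) (4 * d) ε hε
  refine ⟨K, fun x l hx => ?_⟩
  obtain ⟨j, hjl, -⟩ := exists_third hd l l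
  obtain ⟨m, hml, hmj⟩ := exists_third hd l j
  have hg := h_good (d := d)
  have hK0 : (0 : ℝ) < K := by exact_mod_cast (show 0 < K by omega)
  have h1 : h x ≤ h (K • e l) := mono hg.toCone _ _ fun i => by
    by_cases hi : i = l
    · subst hi; simpa using hx
    · simp [e_ne hi]
  have h2 : h (K • e l + (J + 1) • e j + (J + 1) • e m) ≤ h ((J + 1) • (e l + e j + e m)) :=
    mono hg.toCone _ _ fun i => by
      by_cases hi : i = l
      · subst hi; simp [e_ne hjl.symm, e_ne hml.symm]; rw [abs_of_nonneg (by omega)]; omega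
      · simp [e_ne hi, mul_add]
  have h3 := diag hjl.symm hml.symm hmj.symm J
  have hpt : ∀ (i : Fin d) (y : Fin d → ℤ), i ≠ l → y l = K → D i h y ≤ 2 * d / K := by
    intro i y hi hy
    have := flux3 hg hi (y i) K {y} (by simp [hy])
    rw [sum_singleton] at this
    rw [le_div_iff₀ hK0]
    simp only [Int.cast_natCast, Nat.abs_cast] at this
    nlinarith [le_abs_self (D i h y), abs_nonneg (D i h y)]
  have h4 := tele h j (K • e l) (J + 1)
  have h5 := tele h m (K • e l + (J + 1) • e j) (J + 1)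
  have h6 := sum_le_card_nsmul (range (J + 1)) (fun s => D j h (K • e l + s • e j)) _
    fun s _ => hpt j _ hjl (by simp [e_ne hjl.symm])
  have h7 := sum_le_card_nsmul (range (J + 1)) (fun s => D m h (K • e l + (J + 1) • e j + s • e m)) _
    fun s _ => hpt m _ hml (by simp [e_ne hjl.symm, e_ne hml.symm])
  simp only [card_range, nsmul_eq_mul] at h6 h7
  push_cast at h6 h7
  have : ((J : ℝ) + 1) * (4 * d) / K = 2 * ((J + 1) * (2 * d / K)) := by ring
  simp only [nsmul_eq_mul] at h1 h2 h3 h4 h5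
  push_cast at h1 h2 h3 h4 h5
  linarith

lemma vert {f : (Fin d → ℤ) → ℝ} (hf : Good f) (v : Fin d) (c : Fin d → ℤ)
    (F : Finset (Fin d → ℤ)) (hF : ∀ x ∈ F, ∀ l ≠ v, x l = c l) :
    ∑ x ∈ F, |D v f x| ≤ 2 * f (Function.update c v 0) := by
  have hu : ∀ t : ℤ, Function.update c v t + e v = Function.update c v (t + 1) := fun t => by
    funext l; by_cases hl : l = v
    · subst hl; simp
    · simp [hl, e_ne hl]
  have key : ∀ R : ℕ, ∑ t ∈ Ico (-(R : ℤ)) R, |D v f (Function.update c v t)| =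
      2 * (f (Function.update c v 0) - f (Function.update c v R)) := by
    intro R
    induction R with
    | zero => simp
    | succ R ih =>
      have : Ico (-((R + 1 : ℕ) : ℤ)) ((R + 1 : ℕ) : ℤ) =
          insert (-((R : ℤ) + 1)) (insert (R : ℤ) (Ico (-(R : ℤ)) R)) := by
        ext t; simp; omega
      rw [this, sum_insert (by simp), sum_insert (by simp), ih,
        abs_of_nonpos (hf.m1' _ _ (by simp; omega)), abs_of_nonneg (hf.m1 _ _ (by simp))]
      simp only [D, hu]
      have e1 : f (Function.update c v (-((R : ℤ) + 1))) = f (Function.update c v (R + 1)) := by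
        rw [← hf.ev v]; simp [neg]
      have e2 : f (Function.update c v (-((R : ℤ) + 1) + 1)) = f (Function.update c v R) := by
        rw [← hf.ev v]; simp [neg]
      rw [e1, e2]
      push_cast
      ring
  set R : ℕ := (F.sup fun x => (x v).natAbs) + 1
  have hsub : F ⊆ (Ico (-(R : ℤ)) R).image (Function.update c v) := by
    intro x hx
    have := le_sup (f := fun x : Fin d → ℤ => (x v).natAbs) hx
    refine mem_image.2 ⟨x v, by simp only [mem_Ico, R]; omega, ?_⟩
    funext l; by_cases hl : l = v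
    · subst hl; simp
    · simp [hl, hF x hx l hl]
  refine (sum_le_sum_of_subset_of_nonneg hsub fun _ _ _ => abs_nonneg _).trans ?_
  rw [sum_image fun s _ t _ h => Function.update_injective c v h, key]
  linarith [(hf.bd (Function.update c v R)).1]

lemma col_bd (hd : 3 ≤ d) (v i : Fin d) (c : Fin d → ℤ) (F : Finset (Fin d → ℤ))
    (hF : ∀ x ∈ F, ∀ l ≠ v, x l = c l) : ∑ x ∈ F, |D i h x| ≤ 2 * d := by
  have hd' : (3 : ℝ) ≤ d := by exact_mod_cast hd
  by_cases hi : i = v
  · subst hi
    linarith [vert h_good i c F hF, (h_good.bd (Function.update c i 0)).2]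
  · obtain ⟨j, hji, hjv⟩ := exists_third hd i v
    have := flux3 h_good hji.symm (c i) (c j) F fun x hx => ⟨hF x hx i hi, hF x hx j hjv⟩
    have h0 : 0 ≤ ∑ x ∈ F, |D i h x| := sum_nonneg fun _ _ => abs_nonneg _
    nlinarith [abs_nonneg ((c j : ℤ) : ℝ)]

lemma col_small (hd : 3 ≤ d) (v i : Fin d) (ε : ℝ) (hε : 0 < ε) :
    ∃ K : ℕ, ∀ (c : Fin d → ℤ) (l : Fin d), l ≠ v → (K : ℤ) ≤ |c l| →
      ∀ F : Finset (Fin d → ℤ), (∀ x ∈ F, ∀ l ≠ v, x l = c l) → ∑ x ∈ F, |D i h x| ≤ ε := by
  by_cases hi : i = v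
  · subst hi
    obtain ⟨K, hK⟩ := h_small hd (ε / 2) (half_pos hε)
    refine ⟨K, fun c l hl hc F hF => ?_⟩
    linarith [vert h_good i c F hF, hK (Function.update c i 0) l (by simpa [hl] using hc)]
  have gen : ∀ (i l : Fin d) (K : ℕ) (c : Fin d → ℤ), i ≠ v → l ≠ v → i ≠ l → (K : ℤ) ≤ |c l| + 1 →
      0 < K → ∀ (F : Finset (Fin d → ℤ)) (y : Fin d → ℤ), (∀ x ∈ F, ∀ l ≠ v, (x + y) l = c l) →
      ∑ x ∈ F, |D i h (x + y)| ≤ 2 * d / K := by
    intro i l K c hi hl hil hc hK F y hF
    have := flux3 h_good hil (c i) (c l) (F.image (· + y)) fun x hx => by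
      obtain ⟨z, hz, rfl⟩ := mem_image.1 hx
      exact ⟨hF z hz i hi, hF z hz l hl⟩
    rw [sum_image fun x _ z _ h => add_left_injective y h] at this
    have h0 : 0 ≤ ∑ x ∈ F, |D i h (x + y)| := sum_nonneg fun _ _ => abs_nonneg _
    have hc' : (K : ℝ) ≤ |(c l : ℝ)| + 1 := by exact_mod_cast hc
    rw [le_div_iff₀ (by exact_mod_cast hK)]
    nlinarith
  obtain ⟨J, hJ, K, hJK, hK⟩ := small (2 * d) (8 * d) ε hε
  have hK0 : (0 : ℝ) < K := by exact_mod_cast (show 0 < K by omega)
  have easy : ∀ (c : Fin d → ℤ) (l : Fin d), l ≠ v → i ≠ l → (J : ℤ) ≤ |c l| →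
      ∀ F : Finset (Fin d → ℤ), (∀ x ∈ F, ∀ l ≠ v, x l = c l) → ∑ x ∈ F, |D i h x| ≤ ε := by
    intro c l hl hil hc F hF
    have := gen i l (J + 1) c hi hl hil (by push_cast; omega) (by omega) F 0 (by simpa using hF)
    simp only [add_zero] at this
    push_cast at this
    linarith
  refine ⟨K, fun c l hl hc F hF => ?_⟩
  by_cases hil : i = l
  swap
  · exact easy c l hl hil (by omega) F hF
  subst hil
  obtain ⟨j, hji, hjv⟩ := exists_third hd i v
  by_cases hcj : (J : ℤ) ≤ |c j|
  · exact easy c j hjv hji.symm hcj F hF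
  have hpt : ∀ x : Fin d → ℤ, |D i h x| ≤ |D i h (x + (2 * J) • e j)| +
      ∑ s ∈ range (2 * J), (|D j h (x + s • e j)| + |D j h (x + (e i + s • e j))|) := by
    intro x
    have h1 := tele h j x (2 * J)
    have h2 := tele h j (x + e i) (2 * J)
    have h3 : D i h x = D i h (x + (2 * J) • e j) +
        ∑ s ∈ range (2 * J), (D j h (x + s • e j) - D j h (x + (e i + s • e j))) := by
      simp only [← add_assoc]
      rw [sum_sub_distrib, ← h1, ← h2, D, D, add_right_comm x (e i)]
      ring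
    rw [h3]
    exact (abs_add_le _ _).trans (add_le_add le_rfl ((abs_sum_le_sum_abs _ _).trans
      (sum_le_sum fun s _ => abs_sub _ _)))
  refine (sum_le_sum fun x _ => hpt x).trans ?_
  rw [sum_add_distrib, sum_comm]
  have h1 := gen i j (J + 1) (c + (2 * J) • e j) hi hjv hji.symm (by
    have := abs_lt.1 (not_le.1 hcj)
    simp
    rw [abs_of_nonneg (by omega)]; omega) (by omega) F ((2 * J) • e j)
      (fun x hx l hl => by simp [hF x hx l hl])
  have h2 := sum_le_card_nsmul (range (2 * J)) (fun s => ∑ x ∈ F,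
      (|D j h (x + s • e j)| + |D j h (x + (e i + s • e j))|)) (2 * d / K + 2 * d / K) fun s _ => by
    rw [sum_add_distrib]
    refine add_le_add (gen j i K (c + s • e j) hjv hi hji (by simp [e_ne hji.symm]; omega)
      (by omega) F _ fun x hx l hl => by simp [hF x hx l hl])
      (gen j i K (c + (e i + s • e j)) hjv hi hji ?_ (by omega) F _
        fun x hx l hl => by simp [hF x hx l hl])
    simp only [Pi.add_apply, e_self, Pi.smul_apply, e_ne hji.symm, smul_zero, add_zero]
    rcases abs_cases (c i) with h | h <;> rcases abs_cases (c i + 1) with h' | h' <;> omega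
  simp only [card_range, nsmul_eq_mul] at h2
  push_cast at h1 h2
  have h3 : 2 * (J : ℝ) * (2 * d / K + 2 * d / K) ≤ (J + 1) * (8 * d) / K := by
    rw [show 2 * (J : ℝ) * (2 * d / K + 2 * d / K) = J * (8 * d) / K by ring]
    exact div_le_div_of_nonneg_right (mul_le_mul_of_nonneg_right (by linarith) (by positivity))
      hK0.le
  simp only [nsmul_eq_mul] at h1 ⊢
  push_cast at h1 ⊢
  linarith

end Pool.Agent.H12.Rotor
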