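import Mathlib

/-! Counting digits of natural numbers in a base and in its powers. -/

open Finset

namespace Pool.Agent.H12.SN1

/-- number of the lowest `l` digits of `x` in base `β` that are equal to `k` -/
def cnt (β k l x : ℕ) : ℕ := ∑ q ∈ range l, if x / β ^ q % β = k then 1 else 0

lemma cnt_le (β k l x : ℕ) : cnt β k l x ≤ l := by
  refine (sum_le_sum (g := fun _ => 1) fun q _ => by split_ifs <;> omega).trans (by simp)

lemma cnt_add (β k l₁ l₂ x : ℕ) :
    cnt β k (l₁ + l₂) x = cnt β k l₁ (x % β ^ l₁) + cnt β k l₂ (x / β ^ l₁) := by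
  rw [cnt, sum_range_add]
  congr 1
  · refine sum_congr rfl fun q hq => ?_
    obtain ⟨c, rfl⟩ := Nat.exists_eq_add_of_lt (mem_range.mp hq)
    rw [show q + c + 1 = q + (c + 1) by ring, pow_add, Nat.mod_mul_right_div_self,
      Nat.mod_mod_of_dvd _ (dvd_pow_self β (by omega))]
  · refine sum_congr rfl fun q _ => ?_
    rw [Nat.div_div_eq_div_mul, pow_add]

lemma cnt_cat {β : ℕ} (k l₁ l₂ : ℕ) {x : ℕ} (y : ℕ) (hx : x < β ^ l₁) :
    cnt β k (l₁ + l₂) (x + β ^ l₁ * y) = cnt β k l₁ x + cnt β k l₂ y := by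
  rw [cnt_add, Nat.add_mul_mod_self_left, Nat.mod_eq_of_lt hx,
    Nat.add_mul_div_left _ _ (by omega), Nat.div_eq_of_lt hx, zero_add]

lemma cnt_one (β k x : ℕ) : cnt β k 1 x = if x % β = k then 1 else 0 := by
  rw [cnt, sum_range_one, pow_zero, Nat.div_one]

lemma cnt_pow {β : ℕ} (hβ : 0 < β) (k e l : ℕ) : ∀ x, cnt β k (e * l) x =
    ∑ s ∈ range (β ^ e), cnt (β ^ e) s l x * cnt β k e s := by
  induction l with
  | zero => intro x; simp [cnt]
  | succ l ih =>
    intro x
    rw [mul_add, mul_one, add_comm, cnt_add, ih]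
    simp only [add_comm l 1, cnt_add (β ^ e), pow_one, cnt_one, Nat.mod_mod, add_mul,
      sum_add_distrib, ite_mul, one_mul, zero_mul, sum_ite_eq, mem_range,
      Nat.mod_lt _ (pow_pos hβ e), if_true]

lemma cat_lt {B l₁ l₂ x y : ℕ} (hx : x < B ^ l₁) (hy : y < B ^ l₂) :
    x + B ^ l₁ * y < B ^ (l₁ + l₂) := by
  rw [pow_add]
  calc x + B ^ l₁ * y < B ^ l₁ * (y + 1) := by linarith
    _ ≤ _ := Nat.mul_le_mul_left _ hy

lemma exists_rep {B : ℕ} (s : ℕ) (hs : s < B) (c : ℕ) :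
    ∃ x < B ^ c, ∀ s', cnt B s' c x = if s = s' then c else 0 := by
  induction c with
  | zero => exact ⟨0, by simp, fun s' => by simp [cnt]⟩
  | succ c ih =>
    obtain ⟨x, h1, h2⟩ := ih
    refine ⟨x + B ^ c * s, cat_lt h1 (by simpa using hs), fun s' => ?_⟩
    rw [cnt_cat _ _ _ _ h1, h2, cnt_one, Nat.mod_eq_of_lt hs]
    split_ifs <;> rfl

lemma exists_word {B : ℕ} (u : ℕ → ℕ) (n : ℕ) (hn : n ≤ B) :
    ∃ x < B ^ (∑ s ∈ range n, u s), ∀ s', cnt B s' (∑ s ∈ range n, u s) x =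
      if s' < n then u s' else 0 := by
  induction n with
  | zero => exact ⟨0, by simp, fun s' => by simp [cnt]⟩
  | succ n ih =>
    obtain ⟨x, h1, h2⟩ := ih (by omega)
    obtain ⟨y, h3, h4⟩ := exists_rep n (show n < B by omega) (u n)
    rw [sum_range_succ]
    refine ⟨x + _ * y, cat_lt h1 h3, fun s' => ?_⟩
    rw [cnt_cat _ _ _ _ h1, h2, h4]
    rcases lt_trichotomy s' n with h | rfl | h
    · rw [if_pos h, if_neg h.ne', if_pos (by omega), add_zero]
    · simp
    · rw [if_neg (by omega), if_neg h.ne, if_neg (by omega)]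

/-- balanced words -/
def X (B r : ℕ) : Finset ℕ := (range (B ^ (B * r))).filter fun x => ∀ s < B, cnt B s (B * r) x = r

lemma card_X_one (B : ℕ) : B.factorial ≤ (X B 1).card := by
  rw [← Fintype.card_fin B, ← Fintype.card_perm, Fintype.card_fin, ← card_univ]
  refine card_le_card_of_injOn (fun σ : Equiv.Perm (Fin B) => (finFunctionFinEquiv σ : ℕ))
    (fun σ _ => ?_) fun σ _ τ _ h => ?_
  · simp only [X, mul_one, coe_filter, mem_range, Set.mem_ofPred_eq]
    refine ⟨(finFunctionFinEquiv σ).2, fun s hs => ?_⟩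
    rw [cnt, ← Fin.sum_univ_eq_sum_range
      (fun q => if (finFunctionFinEquiv σ : ℕ) / B ^ q % B = s then 1 else 0)]
    have : ∀ q : Fin B, ((finFunctionFinEquiv σ : ℕ) / B ^ (q : ℕ) % B = s) ↔ σ q = ⟨s, hs⟩ := by
      intro q
      rw [← finFunctionFinEquiv_symm_apply_val, Equiv.symm_apply_apply, Fin.ext_iff]
    simp only [this]
    rw [Equiv.sum_comp σ fun z => if z = (⟨s, hs⟩ : Fin B) then 1 else 0]
    simp
  · exact Equiv.ext (congrFun (finFunctionFinEquiv.injective (Fin.ext h)))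

lemma card_X (B r : ℕ) : B.factorial ^ r ≤ (X B r).card := by
  induction r with
  | zero => simp [X, cnt, filter_true_of_mem]
  | succ r ih =>
    refine le_trans ?_ (card_le_card_of_injOn (s := X B r ×ˢ X B 1)
      (fun z => z.1 + B ^ (B * r) * z.2) ?_ ?_)
    · rw [card_product, pow_succ]; exact Nat.mul_le_mul ih (card_X_one B)
    · rintro ⟨x, y⟩ h
      simp only [X, coe_product, coe_filter, mem_range, Set.mem_prod, Set.mem_ofPred_eq] at h ⊢
      rw [mul_add]
      exact ⟨cat_lt h.1.1 h.2.1, fun s hs => by rw [cnt_cat _ _ _ _ h.1.1, h.1.2 s hs, h.2.2 s hs]⟩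
    · rintro ⟨x, y⟩ h ⟨x', y'⟩ h' e
      simp only [X, coe_product, coe_filter, mem_range, Set.mem_prod, Set.mem_ofPred_eq] at h h' e
      have e1 := congrArg (· % B ^ (B * r)) e
      simp only [Nat.add_mul_mod_self_left, Nat.mod_eq_of_lt h.1.1, Nat.mod_eq_of_lt h'.1.1] at e1
      subst e1
      rw [Nat.eq_of_mul_eq_mul_left (by omega) (Nat.add_left_cancel e)]

lemma fact_ge (M : ℕ) : 2 ^ ((M - 2) * 2 ^ M) ≤ (2 ^ M).factorial := by
  rcases le_or_gt M 2 with h | h
  · rw [Nat.sub_eq_zero_of_le h, zero_mul, pow_zero]; exact Nat.factorial_pos _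
  obtain ⟨c, rfl⟩ := Nat.exists_eq_add_of_le' h.le
  rw [Nat.add_sub_cancel]
  set B := 2 ^ (c + 2) with hB
  have h1 := Real.pow_div_factorial_le_exp (B : ℝ) (Nat.cast_nonneg _) B
  have h2 : Real.exp B ≤ 4 ^ B := by
    rw [← Real.exp_one_pow]
    exact pow_le_pow_left₀ (Real.exp_pos 1).le (by linarith [Real.exp_one_lt_d9]) _
  rw [div_le_iff₀ (by positivity)] at h1
  have h3 : (B : ℝ) ^ B = 4 ^ B * 2 ^ (c * B) := by
    rw [pow_mul, ← mul_pow, hB]; push_cast; congr 1; ring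
  have h4 : (4 : ℝ) ^ B * 2 ^ (c * B) ≤ 4 ^ B * B.factorial := by
    rw [← h3]; exact h1.trans (by gcongr)
  exact_mod_cast le_of_mul_le_mul_left h4 (by positivity)

lemma exists_head {B : ℕ} (hB : 1 ≤ B) :
    ∃ h < B ^ B, B ^ (B - 1) * (B - 1) ≤ h ∧ ∀ s < B, cnt B s B h = 1 := by
  obtain ⟨c, rfl⟩ := Nat.exists_eq_add_of_le' hB
  obtain ⟨x, h1, h2⟩ := exists_word (B := c + 1) (fun _ => 1) c (by omega)
  simp only [sum_const, card_range, smul_eq_mul, mul_one] at h1 h2
  refine ⟨x + (c + 1) ^ c * c, cat_lt (l₂ := 1) h1 (by simp), by simp, fun s hs => ?_⟩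
  rw [cnt_cat _ _ _ _ h1, h2, cnt_one, Nat.mod_eq_of_lt (by omega)]
  split_ifs <;> omega

/-- centred digit count -/
def g (β k l x : ℕ) : ℤ := β * cnt β k l x - l

lemma sum_mul (f : ℕ → ℤ) (β n : ℕ) :
    ∑ s ∈ range (β * n), f s = ∑ y ∈ range n, ∑ x ∈ range β, f (x + β * y) := by
  induction n with
  | zero => simp
  | succ n ih => rw [mul_add, mul_one, sum_range_add, ih, sum_range_succ]; simp [add_comm]

lemma g_sums {β k : ℕ} (hk : k < β) (e : ℕ) : ∑ s ∈ range (β ^ e), g β k e s = 0 ∧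
    ∑ s ∈ range (β ^ e), g β k e s ^ 2 = β ^ e * e * (β - 1) := by
  induction e with
  | zero => simp [g, cnt]
  | succ e ih =>
    have h : ∀ x ∈ range β, ∀ y, g β k (e + 1) (x + β * y) =
        g β k e y + ((if x = k then (β : ℤ) else 0) - 1) := fun x hx y => by
      have := cnt_cat (β := β) k 1 e (x := x) y (by simpa using hx)
      rw [pow_one, add_comm 1 e, cnt_one, Nat.mod_eq_of_lt (mem_range.mp hx)] at this
      simp only [g, this]
      split_ifs <;> push_cast <;> ring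
    have h1 : ∀ y, ∑ x ∈ range β, g β k (e + 1) (x + β * y) = β * g β k e y := fun y => by
      rw [sum_congr rfl fun x hx => h x hx y]
      simp [sum_add_distrib, hk]
    have h2 : ∀ y, ∑ x ∈ range β, g β k (e + 1) (x + β * y) ^ 2 =
        β * g β k e y ^ 2 + β * (β - 1) := fun y => by
      rw [sum_congr rfl fun x hx => by
        rw [h x hx y, show (g β k e y + ((if x = k then (β : ℤ) else 0) - 1)) ^ 2 =
          (g β k e y - 1) ^ 2 + if x = k then 2 * (g β k e y - 1) * β + β ^ 2 else 0 by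
            split_ifs <;> ring]]
      simp [sum_add_distrib, hk]
      ring
    rw [pow_succ', sum_mul, sum_mul]
    simp only [h1, h2, ← mul_sum, sum_add_distrib, ih.1, ih.2, sum_const, card_range, nsmul_eq_mul]
    push_cast
    constructor <;> ring

lemma g_pow {β : ℕ} (hβ : 0 < β) (k e l : ℕ) {x : ℕ} (u : ℕ → ℕ)
    (hu : ∀ s < β ^ e, cnt (β ^ e) s l x = u s) (hl : ∑ s ∈ range (β ^ e), u s = l) :
    g β k (e * l) x = ∑ s ∈ range (β ^ e), u s * g β k e s := by
  rw [g, cnt_pow hβ, sum_congr rfl fun s hs => by rw [hu s (mem_range.mp hs)], ← hl]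
  simp only [g, mul_sub, sum_sub_distrib]
  push_cast
  simp only [mul_sum]
  congr 1 <;> exact sum_congr rfl fun _ _ => by ring

lemma g_abs (β k l x : ℕ) (hβ : 1 ≤ β) : |g β k l x| ≤ β * l := by
  have h1 : (cnt β k l x : ℤ) ≤ l := by exact_mod_cast cnt_le β k l x
  have h2 : (1 : ℤ) ≤ β := by exact_mod_cast hβ
  rw [g, abs_le]
  constructor <;> nlinarith [Int.natCast_nonneg (cnt β k l x), Int.natCast_nonneg l]

/-- words of a common length whose digit counts in every base dividing the big base deviate from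
the mean in a prescribed direction -/
lemma exists_numbers (M r : ℕ) (hM : 1 ≤ M) (γ : ℕ → ℤ) (hγ : ∀ s, |γ s| ≤ M * 2 ^ M)
    (h0 : ∑ s ∈ range (2 ^ M), γ s = 0) (σ : ℕ → ℤ) (hσ : ∀ i, |σ i| ≤ 1) :
    ∃ a : ℕ → ℕ, (∀ i, i + 1 < 2 ^ ((M - 2) * 2 ^ M * r) → a i < a (i + 1)) ∧
      ∀ i < 2 ^ ((M - 2) * 2 ^ M * r), 2 ^ (M * 2 ^ M * (M * 2 ^ M + r + 1) - 1) ≤ a i ∧
        a i < 2 ^ (M * 2 ^ M * (M * 2 ^ M + r + 1)) ∧
        ∀ m e k, m * e = M → k < 2 ^ m → g (2 ^ m) k (e * (2 ^ M * (M * 2 ^ M + r + 1))) (a i) =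
          σ i * ∑ s ∈ range (2 ^ M), γ s * g (2 ^ m) k e s := by
  set B := 2 ^ M with hB
  have hB1 : 1 ≤ B := Nat.one_le_two_pow
  obtain ⟨h, h1, h2, h3⟩ := exists_head hB1
  have hnn : ∀ i s, 0 ≤ (M * B : ℤ) + σ i * γ s := fun i s => by
    have := abs_le.mp ((abs_mul (σ i) (γ s)).le.trans
      (mul_le_mul (hσ i) (hγ s) (abs_nonneg _) zero_le_one))
    rw [hB]; push_cast; linarith [this.1]
  have hsum : ∀ i, ∑ s ∈ range B, ((M * B : ℤ) + σ i * γ s).toNat = B * (M * B) := fun i => by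
    zify
    rw [sum_congr rfl fun s _ => Int.toNat_of_nonneg (hnn i s), sum_add_distrib, sum_const, ← mul_sum, h0]
    simp
  choose w hw1 hw2 using fun i => exists_word (B := B)
    (fun s => ((M * B : ℤ) + σ i * γ s).toNat) B le_rfl
  simp only [hsum] at hw1 hw2
  have hfin : (Set.ofPred (· ∈ X B r)).Finite := (X B r).finite_toSet
  have hcard : 2 ^ ((M - 2) * B * r) ≤ hfin.toFinset.card := by
    rw [show hfin.toFinset = X B r by ext; simp, pow_mul]
    exact (Nat.pow_le_pow_left (fact_ge M) r).trans (card_X B r)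
  refine ⟨fun i => w i + B ^ (B * (M * B)) * (Nat.nth (· ∈ X B r) i + B ^ (B * r) * h),
    fun i hi => ?_, fun i hi => ?_⟩
  · have := Nat.nth_lt_nth_of_lt_card hfin (Nat.lt_add_one i) (hi.trans_le hcard)
    have h4 := hw1 i
    calc _ < B ^ (B * (M * B)) * (Nat.nth (· ∈ X B r) i + B ^ (B * r) * h + 1) := by linarith
      _ ≤ B ^ (B * (M * B)) * (Nat.nth (· ∈ X B r) (i + 1) + B ^ (B * r) * h) :=
        Nat.mul_le_mul_left _ (by omega)
      _ ≤ _ := Nat.le_add_left _ _
  · have h4' : Nat.nth (· ∈ X B r) i ∈ X B r := Nat.nth_mem_of_lt_card hfin (hi.trans_le hcard)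
    beta_reduce
    generalize Nat.nth (· ∈ X B r) i = z at h4' ⊢
    have h4 := h4'
    simp only [X, mem_filter, mem_range] at h4
    have e1 : B * (M * B + r + 1) = B * (M * B) + (B * r + B) := by ring
    refine ⟨?_, ?_, fun m e k hme hk => ?_⟩
    · have h5 : 2 ^ (M - 1) ≤ B - 1 := by
        have := Nat.pow_lt_pow_right (a := 2) (by norm_num) (show M - 1 < M by omega)
        omega
      calc _ = B ^ (B * (M * B)) * (B ^ (B * r) * (B ^ (B - 1) * 2 ^ (M - 1))) := by
            conv_rhs => rw [hB, ← pow_mul, ← pow_mul, ← pow_mul, ← pow_add, ← pow_add, ← pow_add,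
              ← hB]
            congr 1
            obtain ⟨c, hc⟩ := Nat.exists_eq_add_of_le' hB1
            obtain ⟨c', hc'⟩ := Nat.exists_eq_add_of_le' hM
            rw [hc, hc', Nat.add_sub_cancel, Nat.add_sub_cancel]
            apply Nat.sub_eq_of_eq_add
            ring
        _ ≤ B ^ (B * (M * B)) * (B ^ (B * r) * h) := by
            gcongr
            exact (Nat.mul_le_mul_left _ h5).trans h2
        _ ≤ _ := by
            rw [mul_add]; omega
    · rw [mul_assoc M, pow_mul 2, ← hB, e1]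
      exact cat_lt (hw1 i) (cat_lt h4.1 h1)
    · have hBe : B = (2 ^ m) ^ e := by rw [hB, ← pow_mul, hme]
      have key := g_pow (β := 2 ^ m) (by positivity) k e (B * (M * B + r + 1))
        (x := w i + B ^ (B * (M * B)) * (z + B ^ (B * r) * h))
        (fun s => ((M * B : ℤ) + σ i * γ s).toNat + (r + 1)) (fun s hs => by
          rw [← hBe] at hs ⊢
          rw [e1, cnt_cat _ _ _ _ (hw1 i), cnt_cat _ _ _ _ h4.1, hw2, if_pos hs, h4.2 s hs,
            h3 s hs]) (by
          rw [← hBe, sum_add_distrib, hsum]; simp; ring)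
      rw [key, ← hBe]
      have h5 := (g_sums hk e).1
      rw [← hBe] at h5
      push_cast
      rw [sum_congr rfl fun s _ => by rw [Int.toNat_of_nonneg (hnn i s)]]
      simp only [add_mul, sum_add_distrib, mul_assoc, ← mul_sum, h5]
      ring

end Pool.Agent.H12.SN1
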