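import Pool.Agent.H12.SN1
import Pool.Agent.H12.CFTools

/-! Binary concatenations and iterated logarithm bookkeeping. -/

open Finset Filter Topology

namespace Pool.Agent.H12.SN2
open SN1

/-- the digits of a binary concatenation -/
lemma exists_digits (a len : ℕ → ℕ) (hl : ∀ n, 1 ≤ len n ∧ 2 ^ (len n - 1) ≤ a n ∧ a n < 2 ^ len n)
    (hz : ∀ N, ∃ n ≥ N, a n % 2 = 0) :
    ∃ d : ℕ → ℕ, (∀ n r : ℕ, r < (Nat.digits 2 (a n)).length →
        d ((∑ j ∈ range n, (Nat.digits 2 (a j)).length) + r)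
          = ((Nat.digits 2 (a n)).reverse).getD r 0) ∧
      ∀ n y, y ≤ len n → ∃ c : ℕ,
        ⌊(∑' i : ℕ, (d i : ℝ) / (2 : ℝ) ^ (i + 1)) * 2 ^ (∑ j ∈ range n, len j + y)⌋ =
          (c * 2 ^ y + a n / 2 ^ (len n - y) : ℕ) := by
  have hlen : ∀ n, (Nat.digits 2 (a n)).length = len n := fun n => by
    obtain ⟨h1, h2, h3⟩ := hl n
    have h4 := (Nat.digits_length_le_iff (b := 2) (k := len n) (by norm_num) (a n)).mpr h3
    have h5 := (Nat.digits_length_le_iff (b := 2) (k := len n - 1) (by norm_num) (a n)).not.mpr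
      (by omega)
    omega
  set pos : ℕ → ℕ := fun n => ∑ j ∈ range n, len j with hpos
  have hps : ∀ n, pos (n + 1) = pos n + len n := fun n => sum_range_succ _ _
  have hmono : StrictMono pos := strictMono_nat_of_lt_succ fun n => by
    have := (hl n).1; rw [hps]; omega
  obtain ⟨J, hJ⟩ := CFTools.exists_block pos rfl hmono
  have hJe : ∀ n y, y < len n → J (pos n + y) = n := fun n y hy => by
    have h1 := hmono.lt_iff_lt.mp ((hJ (pos n + y)).1.trans_lt (show _ < pos (n + 1) by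
      rw [hps]; omega))
    have h2 := hmono.lt_iff_lt.mp ((Nat.le_add_right _ y).trans_lt (hJ (pos n + y)).2)
    omega
  obtain ⟨d, hd⟩ : ∃ d : ℕ → ℕ, ∀ x, d x = a (J x) / 2 ^ (len (J x) - 1 - (x - pos (J x))) % 2 :=
    ⟨_, fun _ => rfl⟩
  have hd1 : ∀ n y, y < len n → d (pos n + y) = a n / 2 ^ (len n - 1 - y) % 2 := fun n y hy => by
    rw [hd, hJe n y hy, Nat.add_sub_cancel_left]
  have hd2 : ∀ x, (d x : ℝ) ≤ 1 := fun x => by
    have : d x ≤ 1 := by rw [hd]; omega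
    exact_mod_cast this
  refine ⟨d, fun n r hr => ?_, ?_⟩
  · simp only [hlen] at hr ⊢
    rw [hd1 n r hr, ← Nat.getD_digits _ _ le_rfl, List.getD_eq_getElem?_getD,
      List.getD_eq_getElem?_getD, List.getElem?_reverse (by rwa [hlen]), hlen]
  obtain ⟨P, hP0, hP⟩ : ∃ P : ℕ → ℕ, P 0 = 0 ∧ ∀ x, P (x + 1) = 2 * P x + d x :=
    ⟨fun x => Nat.rec 0 (fun x p => 2 * p + d x) x, rfl, fun _ => rfl⟩
  have hgeo : HasSum (fun i : ℕ => (1 : ℝ) / 2 ^ (i + 1)) 1 := by
    have := hasSum_geometric_two' (1 : ℝ)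
    simpa only [div_div, ← pow_succ'] using this
  have hsum : ∀ x, Summable fun i : ℕ => (d (i + x) : ℝ) / 2 ^ (i + 1) := fun x =>
    Summable.of_nonneg_of_le (fun i => by positivity) (fun i => by gcongr; exact hd2 _)
      hgeo.summable
  have htail : ∀ x, (∑' i : ℕ, (d i : ℝ) / (2 : ℝ) ^ (i + 1)) * 2 ^ x =
      P x + ∑' i : ℕ, (d (i + x) : ℝ) / 2 ^ (i + 1) := fun x => by
    induction x with
    | zero => simp [hP0]
    | succ x ih =>
      rw [pow_succ, ← mul_assoc, ih, (hsum x).tsum_eq_zero_add, hP, add_mul, add_mul,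
        ← tsum_mul_right]
      push_cast
      rw [tsum_congr fun i => show (d (i + 1 + x) : ℝ) / 2 ^ (i + 1 + 1) * 2 =
        d (i + (x + 1)) / 2 ^ (i + 1) by
          rw [show i + 1 + x = i + (x + 1) by ring, pow_succ _ (i + 1)]; field_simp]
      simp only [zero_add, pow_one]
      ring
  have hfl : ∀ x, ⌊(∑' i : ℕ, (d i : ℝ) / (2 : ℝ) ^ (i + 1)) * 2 ^ x⌋ = P x := fun x => by
    rw [htail, Int.floor_eq_iff]
    push_cast
    refine ⟨le_add_of_nonneg_right (tsum_nonneg fun i => by positivity), ?_⟩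
    obtain ⟨n, hn, h⟩ := hz x
    have h1 := (hl n).1
    have h2 : x ≤ pos n := hn.trans hmono.le_apply
    have h3 := hd1 n (len n - 1) (by omega)
    rw [Nat.sub_self, pow_zero, Nat.div_one, h] at h3
    have := (hsum x).tsum_lt_tsum (i := pos n + (len n - 1) - x)
      (g := fun i : ℕ => (1 : ℝ) / 2 ^ (i + 1)) (fun i => by
        beta_reduce; gcongr; exact hd2 _) (by
        rw [show pos n + (len n - 1) - x + x = pos n + (len n - 1) by omega, h3]
        simp) hgeo.summable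
    rw [hgeo.tsum_eq] at this
    linarith
  intro n y hy
  refine ⟨P (pos n), ?_⟩
  rw [hfl]
  congr 1
  induction y with
  | zero => simp [Nat.div_eq_of_lt (hl n).2.2, hpos]
  | succ y ih =>
    rw [← add_assoc, hP, ih (by omega), hd1 n y hy, show len n - y = len n - 1 - y + 1 by omega,
      show len n - (y + 1) = len n - 1 - y by omega, pow_succ, pow_succ, ← Nat.div_div_eq_div_mul]
    have := Nat.div_add_mod (a n / 2 ^ (len n - 1 - y)) 2
    linarith

/-- centred count of a digit in the expansion of a real number in base `2 ^ m` -/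
noncomputable def D (ξ : ℝ) (m k n : ℕ) : ℤ :=
  2 ^ m * (((range n).filter fun i : ℕ =>
    ⌊ξ * (((2 : ℕ) : ℝ) ^ m) ^ (i + 1)⌋ % (((2 : ℕ) : ℤ) ^ m) = (k : ℤ)).card : ℤ) - n

lemma D_add (ξ : ℝ) (m k n l : ℕ) : D ξ m k (n + l) = D ξ m k n + (2 ^ m * (∑ i ∈ range l,
    if ⌊ξ * 2 ^ (m * n + m * (i + 1))⌋ % 2 ^ m = (k : ℤ) then 1 else 0 : ℕ) - l) := by
  simp only [D, card_filter, sum_range_add, ← mul_add, pow_mul, add_assoc, Nat.cast_ofNat]
  push_cast
  ring

lemma D_lip (ξ : ℝ) (m k n l : ℕ) : |D ξ m k (n + l) - D ξ m k n| ≤ 2 ^ m * l := by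
  rw [D_add, add_sub_cancel_left]
  generalize hc : (∑ i ∈ range l,
    if ⌊ξ * 2 ^ (m * n + m * (i + 1))⌋ % 2 ^ m = (k : ℤ) then 1 else 0 : ℕ) = c
  have h1 : c ≤ l := by
    rw [← hc]
    exact (sum_le_sum (g := fun _ => 1) fun q _ => by split_ifs <;> omega).trans (by simp)
  have h2 : (c : ℤ) ≤ l := by exact_mod_cast h1
  have h3 : (1 : ℤ) ≤ 2 ^ m := one_le_pow₀ (by norm_num)
  rw [abs_le]
  constructor <;> nlinarith [Int.natCast_nonneg c, Int.natCast_nonneg l]

lemma D_block (ξ : ℝ) (m k n l a : ℕ) (h : ∀ y ≤ m * l, ∃ c : ℕ,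
    ⌊ξ * 2 ^ (m * n + y)⌋ = (c * 2 ^ y + a / 2 ^ (m * l - y) : ℕ)) :
    D ξ m k (n + l) = D ξ m k n + g (2 ^ m) k l a := by
  rw [D_add, g, cnt, ← sum_range_reflect]
  push_cast
  congr 3
  refine sum_congr rfl fun i hi => ?_
  have hi := mem_range.mp hi
  obtain ⟨c, hc⟩ := h (m * (l - 1 - i + 1)) (Nat.mul_le_mul_left _ (by omega))
  rw [hc, ← Nat.mul_sub, show l - (l - 1 - i + 1) = i by omega, mul_add, mul_one, pow_add,
    ← mul_assoc, pow_mul, pow_mul]
  have : ((c * (2 ^ m) ^ (l - 1 - i) * 2 ^ m + a / (2 ^ m) ^ i : ℕ) : ℤ) % 2 ^ m =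
      (a / (2 ^ m) ^ i % 2 ^ m : ℕ) := by
    rw [← Nat.mul_add_mod_self_right (c * (2 ^ m) ^ (l - 1 - i))]; push_cast; rfl
  rw [this]
  simp only [Nat.cast_inj]

/-- the iterated logarithm gauge -/
noncomputable def Λ (x : ℝ) : ℝ := √(2 * x * Real.log (Real.log x))

lemma log_ratio {x y : ℕ → ℝ} {c : ℝ} (hc : 0 < c) (hx : Tendsto x atTop atTop)
    (hy : Tendsto (fun t => y t / x t) atTop (𝓝 c)) :
    Tendsto (fun t => Real.log (y t) / Real.log (x t)) atTop (𝓝 1) := by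
  have h1 := Real.tendsto_log_atTop.comp hx
  have h2 := ((hy.log hc.ne').div_atTop h1).const_add 1
  rw [add_zero] at h2
  refine h2.congr' ?_
  filter_upwards [hx.eventually_gt_atTop 1, hy.eventually (lt_mem_nhds hc)] with t h3 h4
  have h5 : 0 < y t := by
    by_contra h; exact absurd h4 (not_lt.mpr (div_nonpos_of_nonpos_of_nonneg (by linarith) (by linarith)))
  have h6 := Real.log_pos h3
  rw [Real.log_div h5.ne' (by linarith)]
  simp only [Function.comp]
  field_simp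
  ring

lemma Λ_ratio {x y : ℕ → ℝ} {c : ℝ} (hc : 0 < c) (hx : Tendsto x atTop atTop)
    (hy : Tendsto (fun t => y t / x t) atTop (𝓝 c)) :
    Tendsto (fun t => Λ (y t) / Λ (x t)) atTop (𝓝 √c) := by
  have h1 := log_ratio one_pos (Real.tendsto_log_atTop.comp hx) (log_ratio hc hx hy)
  have h2 := (hy.mul h1).sqrt
  rw [mul_one] at h2
  refine h2.congr' ?_
  filter_upwards [hx.eventually_gt_atTop 0, (Real.tendsto_log_atTop.comp
    (Real.tendsto_log_atTop.comp hx)).eventually_gt_atTop 0] with t h3 h4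
  simp only [Function.comp] at h4 ⊢
  rw [Λ, Λ, ← Real.sqrt_div' _ (by positivity)]
  congr 1
  field_simp

lemma Λ_mono {x y : ℝ} (hx : 3 ≤ x) (h : x ≤ y) : 0 < Λ x ∧ Λ x ≤ Λ y := by
  have h1 : 1 < Real.log x := by
    rw [Real.lt_log_iff_exp_lt (by linarith)]; linarith [Real.exp_one_lt_d9]
  have h2 := Real.log_pos h1
  refine ⟨Real.sqrt_pos.mpr (by positivity), Real.sqrt_le_sqrt ?_⟩
  gcongr
  linarith

lemma lil (W : ℕ → ℝ) (m : ℕ) (hm : 1 ≤ m) (c : ℝ) (N : ℕ → ℕ) (hN : StrictMono N)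
    (err : ℕ → ℝ) (herr : Tendsto (fun t => err t / Λ (N t)) atTop (𝓝 0)) (z : ℕ → ℕ)
    (hz : Tendsto (fun t => (z t : ℝ) / N t) atTop (𝓝 (1 / m)))
    (hup : ∀ᶠ t in atTop, ∀ n, N t ≤ m * n → m * n < N (t + 1) →
      |W n| ≤ err t + Λ (N t) * (c / √m)) (ε : ℝ) (hε : 0 < ε) :
    (∀ᶠ n : ℕ in atTop, |W n / Λ n| < c + ε) ∧ ∀ s : ℝ,
      (∃ᶠ t in atTop, Λ (N t) * (c / √m) - err t ≤ s * W (z t)) →
        ∃ᶠ n : ℕ in atTop, c - ε < s * (W n / Λ n) := by
  have hm' : (0 : ℝ) < m := by exact_mod_cast hm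
  have hNt : Tendsto (fun t => (N t : ℝ)) atTop atTop :=
    tendsto_natCast_atTop_atTop.comp hN.tendsto_atTop
  have hΛ : ∀ᶠ t in atTop, 0 < Λ (N t) :=
    (hNt.eventually_ge_atTop 3).mono fun t h => (Λ_mono h le_rfl).1
  have key : ∀ (y : ℕ → ℝ) (s : ℝ), Tendsto (fun t => y t / N t) atTop (𝓝 (1 / m)) →
      Tendsto (fun t => (s * err t + Λ (N t) * (c / √m)) / Λ (y t)) atTop (𝓝 c) := by
    intro y s hy
    have h1 := ((herr.const_mul s).add_const (c / √m)).div (Λ_ratio (by positivity) hNt hy)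
      (by positivity)
    have h2 : (s * 0 + c / √m) / √(1 / m) = c := by
      rw [one_div, Real.sqrt_inv]; field_simp; ring
    rw [h2] at h1
    refine h1.congr' ?_
    filter_upwards [hΛ] with t ht
    simp only [Pi.div_apply]
    rw [div_div_eq_mul_div]
    congr 1
    field_simp
  refine ⟨?_, fun s hs => ?_⟩
  · have h1 := (key (fun t => N t / m) 1 (tendsto_const_nhds.congr' (by
      filter_upwards [hNt.eventually_gt_atTop 0] with t ht
      field_simp))).eventually (gt_mem_nhds (show c < c + ε by linarith))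
    obtain ⟨t₀, ht₀⟩ := eventually_atTop.mp (h1.and (hup.and (hNt.eventually_ge_atTop (3 * m))))
    filter_upwards [eventually_ge_atTop (N t₀)] with n hn
    have h2 : N t₀ ≤ m * n := hn.trans (Nat.le_mul_of_pos_left _ hm)
    have h3 : ∃ t, m * n < N (t + 1) := ⟨m * n, (Nat.lt_add_one _).trans_le hN.le_apply⟩
    classical
    have h4 := Nat.find_spec h3
    have h5 : t₀ ≤ Nat.find h3 := by
      have := hN.lt_iff_lt.mp (h2.trans_lt h4); omega
    have h6 : N (Nat.find h3) ≤ m * n := by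
      rcases eq_or_lt_of_le h5 with h | h
      · rwa [← h]
      · have := Nat.find_min h3 (show Nat.find h3 - 1 < Nat.find h3 by omega)
        rw [show Nat.find h3 - 1 + 1 = Nat.find h3 by omega] at this
        omega
    obtain ⟨h7, h8, h9⟩ := ht₀ _ h5
    have h10 := Λ_mono (x := N (Nat.find h3) / m) (y := n) (by rwa [le_div_iff₀ hm'])
      (by rw [div_le_iff₀' hm']; exact_mod_cast h6)
    have h11 := h8 n h6 h4
    rw [abs_div, abs_of_pos (h10.1.trans_le h10.2)]
    refine lt_of_le_of_lt ?_ h7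
    rw [one_mul]
    exact div_le_div₀ ((abs_nonneg _).trans h11) h11 h10.1 h10.2
  · have h1 := (key (fun t => z t) (-1) hz).eventually (lt_mem_nhds (show c - ε < c by linarith))
    have hzt : Tendsto (fun t => (z t : ℝ)) atTop atTop := by
      refine (hz.pos_mul_atTop (by positivity) hNt).congr' ?_
      filter_upwards [hNt.eventually_gt_atTop 0] with t ht
      field_simp
    refine (tendsto_natCast_atTop_iff.mp hzt).frequently
      ((hs.and_eventually (h1.and (hzt.eventually_ge_atTop 3))).mono fun t ⟨h2, h3, h4⟩ => ?_)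
    refine h3.trans_le ?_
    rw [← mul_div_assoc s]
    exact div_le_div_of_nonneg_right (by linarith) (Λ_mono h4 le_rfl).1.le

end Pool.Agent.H12.SN2
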