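import Pool.Agent.H12.SN2

/-! Stage parameters for the construction of a strongly normal concatenation. -/

open Finset Filter Topology

namespace Pool.Agent.H12.SN3
open SN1 SN2

lemma exists_params : ∃ M r L f y N : ℕ → ℕ, (∀ t, 1 ≤ M t) ∧
    (∀ t, L t = M t * 2 ^ M t * (M t * 2 ^ M t + r t + 1)) ∧
    (∀ t, y t = (M t - 2) * 2 ^ M t * r t) ∧ N 0 = f 0 ∧
    (∀ t, N (t + 1) = N t + 2 ^ y t * L t + f (t + 1)) ∧ (∀ t, M t ∣ N t) ∧
    (∀ t, 2 ≤ f t ∧ f t < L t ∧ L t < f (t + 1)) ∧ (∀ t, L t ≤ (t + 4) ^ 2) ∧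
    (∀ m, 1 ≤ m → ∀ᶠ t in atTop, m ∣ M t) ∧ (∀ t, M t * 2 ^ M t ≤ t + 4) ∧
    ∀ θ : ℝ, θ < 1 → ∀ᶠ t : ℕ in atTop, θ * (t + 5) ^ 2 < y t := by
  classical
  obtain ⟨u, hu⟩ : ∃ u : ℕ → ℕ, ∀ t, u t = Nat.findGreatest
    (fun u => (u.factorial * 2 ^ u.factorial) ^ 2 ≤ t + 4) (t + 4) := ⟨_, fun _ => rfl⟩
  have hu1 : ∀ t, ((u t).factorial * 2 ^ (u t).factorial) ^ 2 ≤ t + 4 := fun t => by
    rw [hu]
    exact Nat.findGreatest_spec (P := fun u => (u.factorial * 2 ^ u.factorial) ^ 2 ≤ t + 4)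
      (Nat.zero_le _) (by simp)
  have hu2 : Tendsto u atTop atTop := tendsto_atTop.mpr fun v => by
    filter_upwards [eventually_ge_atTop v, eventually_ge_atTop
      ((v.factorial * 2 ^ v.factorial) ^ 2)] with t h1 h2
    rw [hu]
    exact Nat.le_findGreatest (by omega) (by omega)
  obtain ⟨M, hM⟩ : ∃ M : ℕ → ℕ, ∀ t, M t = (u t).factorial := ⟨_, fun _ => rfl⟩
  simp only [← hM] at hu1
  have hM1 : ∀ t, 1 ≤ M t := fun t => by rw [hM]; exact Nat.factorial_pos _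
  obtain ⟨Q, hQ⟩ : ∃ Q : ℕ → ℕ, ∀ t, Q t = M t * 2 ^ M t := ⟨_, fun _ => rfl⟩
  simp only [← hQ] at hu1
  have hQ1 : ∀ t, 2 * M t ≤ Q t := fun t => by
    rw [hQ, mul_comm]
    exact Nat.mul_le_mul_left _ (Nat.le_self_pow (by have := hM1 t; omega) 2)
  have hQ2 : ∀ t, 2 * Q t ≤ t + 4 := fun t => by
    have := hQ1 t; have := hM1 t; nlinarith [hu1 t]
  have hR : ∀ t, Q t + 1 ≤ (t + 4) ^ 2 / Q t := fun t => by
    have := hQ1 t; have := hM1 t
    rw [Nat.le_div_iff_mul_le (by omega)]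
    nlinarith [hu1 t, hQ2 t]
  obtain ⟨L, hL⟩ : ∃ L : ℕ → ℕ, ∀ t, L t = Q t * ((t + 4) ^ 2 / Q t) := ⟨_, fun _ => rfl⟩
  have hL1 : ∀ t, L t ≤ (t + 4) ^ 2 ∧ (t + 4) ^ 2 < L t + Q t := fun t => by
    have := hQ1 t; have := hM1 t
    have h1 := Nat.div_add_mod ((t + 4) ^ 2) (Q t)
    have h2 := Nat.mod_lt ((t + 4) ^ 2) (show 0 < Q t by omega)
    rw [hL]; omega
  obtain ⟨y, hy⟩ : ∃ y : ℕ → ℕ, ∀ t, y t = (M t - 2) * 2 ^ M t * ((t + 4) ^ 2 / Q t - 1 - Q t) :=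
    ⟨_, fun _ => rfl⟩
  obtain ⟨E, hE0, hE⟩ : ∃ E : ℕ → ℕ, E 0 = 0 ∧ ∀ t, E (t + 1) =
      E t + (L t - 1 - (E t + L t - 1) % M t) + 2 ^ y t * L t :=
    ⟨fun t => Nat.rec 0 (fun t x => x + (L t - 1 - (x + L t - 1) % M t) + 2 ^ y t * L t) t, rfl,
      fun _ => rfl⟩
  have hf : ∀ t, (E t + L t - 1) % M t < M t := fun t => Nat.mod_lt _ (hM1 t)
  refine ⟨M, fun t => (t + 4) ^ 2 / Q t - 1 - Q t, L, fun t => L t - 1 - (E t + L t - 1) % M t, y,
    fun t => E t + (L t - 1 - (E t + L t - 1) % M t), hM1, fun t => ?_, hy, by simp [hE0],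
    fun t => by beta_reduce; rw [hE], fun t => ?_, fun t => ?_, fun t => (hL1 t).1,
    fun m hm => ?_, fun t => by have := hQ2 t; rw [← hQ]; omega, fun θ hθ => ?_⟩
  · have := hR t
    rw [hL, ← hQ]; congr 1; beta_reduce; omega
  · have h1 := hf t
    have h2 := hL1 t
    have h3 := hQ1 t
    have h4 := hQ2 t
    have h5 : M t < L t := by nlinarith
    have := Nat.dvd_sub_mod (n := M t) (E t + L t - 1)
    beta_reduce
    rwa [show E t + (L t - 1 - (E t + L t - 1) % M t) = E t + L t - 1 - (E t + L t - 1) % M t by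
      omega]
  · have h1 := hf t
    have h2 := hL1 t
    have h3 := hQ1 t
    have h4 := hQ2 t
    have h1' := hf (t + 1)
    have h2' := hL1 (t + 1)
    have h3' := hQ1 (t + 1)
    have h4' := hQ2 (t + 1)
    have h5 : M t + 2 ≤ L t := by nlinarith
    have h6 : L t + M (t + 1) < L (t + 1) := by nlinarith
    beta_reduce
    omega
  · filter_upwards [hu2.eventually_ge_atTop m] with t ht
    rw [hM]; exact Nat.dvd_factorial hm ht
  · have hMt : Tendsto (fun t => (M t : ℝ)) atTop atTop :=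
      tendsto_natCast_atTop_atTop.comp (tendsto_atTop_mono (fun t => by
        rw [hM]; exact Nat.self_le_factorial _) hu2)
    have hS : Tendsto (fun t : ℕ => (t + 5 : ℝ)) atTop atTop :=
      tendsto_atTop_add_const_right _ _ tendsto_natCast_atTop_atTop
    have h1 := ((tendsto_const_nhds (x := (2 : ℝ))).div_atTop hMt).const_sub 1 |>.mul
      (((tendsto_const_nhds (x := (4 : ℝ))).div_atTop hS).const_sub 1)
    rw [sub_zero, mul_one] at h1
    filter_upwards [h1.eventually (lt_mem_nhds hθ), hMt.eventually_ge_atTop 2] with t h2 h3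
    have h4 : 2 ≤ M t := by exact_mod_cast h3
    have h5 : (M t * y t : ℝ) = (M t - 2) * (L t - Q t * (Q t + 1)) := by
      have := hR t
      rw [hy, hL, Nat.sub_sub]
      push_cast [Nat.cast_sub h4, Nat.cast_sub (show 1 + Q t ≤ (t + 4) ^ 2 / Q t by omega)]
      rw [show (Q t : ℝ) = M t * 2 ^ M t by rw [hQ]; push_cast; rfl]
      ring
    have h6 : ((t : ℝ) + 4) ^ 2 < L t + Q t := by exact_mod_cast (hL1 t).2
    have h7 : (2 * Q t : ℝ) ≤ t + 4 := by exact_mod_cast hQ2 t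
    have h8 : (Q t : ℝ) ^ 2 ≤ t + 4 := by exact_mod_cast hu1 t
    have h9 : (1 - 4 / (t + 5 : ℝ)) * (t + 5) ^ 2 ≤ L t - Q t * (Q t + 1) := by
      rw [show (1 - 4 / (t + 5 : ℝ)) * (t + 5) ^ 2 = (t + 5) ^ 2 - 4 * (t + 5) by field_simp]
      nlinarith
    calc θ * (t + 5) ^ 2 < (1 - 2 / M t : ℝ) * (1 - 4 / (t + 5 : ℝ)) * (t + 5) ^ 2 := by gcongr
      _ ≤ (1 - 2 / M t : ℝ) * (L t - Q t * (Q t + 1)) := by
          rw [mul_assoc]
          refine mul_le_mul_of_nonneg_left h9 ?_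
          rw [sub_nonneg, div_le_one (by linarith)]; exact h3
      _ = (y t : ℝ) := by
          rw [show (1 - 2 / M t : ℝ) = (M t - 2) / M t by field_simp, div_mul_eq_mul_div, ← h5]
          field_simp

end Pool.Agent.H12.SN3
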