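import Pool.Agent.H12.SN3

/-! The construction of a strongly normal concatenation. -/

open Finset Filter Topology

namespace Pool.Agent.H12.SN4
open SN1 SN2 SN3

lemma find_stage {N : ℕ → ℕ} (hN : StrictMono N) {t₀ x : ℕ} (h : N t₀ ≤ x) :
    ∃ t, t₀ ≤ t ∧ N t ≤ x ∧ x < N (t + 1) := by
  induction x, h using Nat.le_induction with
  | base => exact ⟨t₀, le_rfl, le_rfl, hN (Nat.lt_add_one _)⟩
  | succ x _ ih =>
    obtain ⟨t, h1, h2, h3⟩ := ih
    rcases eq_or_lt_of_le (Nat.succ_le_of_lt h3) with e | e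
    · exact ⟨t + 1, by omega, e.ge, e.le.trans_lt (hN (Nat.lt_add_one _))⟩
    · exact ⟨t, h1, by omega, e⟩

/-- signs: up, down, rest -/
def sg (j i : ℕ) : ℤ := if i < j then 1 else if i < 2 * j then -1 else 0

lemma sg_abs (j i : ℕ) : |sg j i| ≤ 1 := by unfold sg; split_ifs <;> simp

lemma sg_sum (j i : ℕ) : ∑ x ∈ range i, sg j x =
    if i ≤ j then (i : ℤ) else if i ≤ 2 * j then 2 * j - i else 0 := by
  induction i with
  | zero => simp
  | succ i ih => rw [sum_range_succ, ih, sg]; split_ifs <;> omega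

lemma exists_dir (M : ℕ) (v : ℕ × ℕ × ℤ) : ∃ γ : ℕ → ℤ, (∀ s, |γ s| ≤ M * 2 ^ M) ∧
    ∑ s ∈ range (2 ^ M), γ s = 0 ∧ ∀ m e k ε, v = (m, k, ε) → 1 ≤ m → m * e = M → k < 2 ^ m →
      |ε| = 1 → ∀ s, γ s = ε * g (2 ^ m) k e s := by
  obtain ⟨m, k, ε⟩ := v
  by_cases h : ∃ e, 1 ≤ m ∧ m * e = M ∧ k < 2 ^ m ∧ |ε| = 1
  · obtain ⟨e, h1, h2, h3, h4⟩ := h
    refine ⟨fun s => ε * g (2 ^ m) k e s, fun s => ?_, ?_, ?_⟩
    · rw [abs_mul, h4, one_mul]
      refine (g_abs _ _ _ _ Nat.one_le_two_pow).trans ?_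
      rcases e.eq_zero_or_pos with rfl | he
      · simp only [Nat.cast_zero, mul_zero]; positivity
      have h5 : 2 ^ m * e ≤ M * 2 ^ M := by
        rw [mul_comm]
        exact Nat.mul_le_mul (by nlinarith) (Nat.pow_le_pow_right (by norm_num) (by nlinarith))
      exact_mod_cast h5
    · rw [← mul_sum, ← h2, pow_mul, (g_sums h3 e).1, mul_zero]
    · rintro m' e' k' ε' ⟨⟩ _ h5 _ _ s
      rw [Nat.eq_of_mul_eq_mul_left h1 (h5.trans h2.symm)]
  · refine ⟨fun _ => 0, fun _ => by rw [abs_zero]; positivity, by simp, ?_⟩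
    rintro m' e' k' ε' ⟨⟩ h1 h2 h3 h4
    exact absurd ⟨e', h1, h2, h3, h4⟩ h

lemma exists_freq : ∃ φ : ℕ → ℕ × ℕ × ℤ, ∀ v, ∃ᶠ t in atTop, φ t = v := by
  obtain ⟨s, hs⟩ := exists_surjective_nat (ℕ × ℕ × ℤ)
  refine ⟨fun t => s t.unpair.1, fun v => frequently_atTop.mpr fun a => ?_⟩
  obtain ⟨w, rfl⟩ := hs v
  exact ⟨Nat.pair w a, Nat.right_le_pair _ _, by simp⟩

lemma growth {L f y N : ℕ → ℕ} (h0 : N 0 = f 0)
    (hN : ∀ t, N (t + 1) = N t + 2 ^ y t * L t + f (t + 1)) (hf : ∀ t, 2 ≤ f t ∧ f t < L t)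
    (hL : ∀ t, L t ≤ (t + 4) ^ 2) (hy : ∀ t, y t ≤ L t)
    (hθ : ∀ θ : ℝ, θ < 1 → ∀ᶠ t : ℕ in atTop, θ * (t + 5) ^ 2 < y t) :
    ∀ᶠ t : ℕ in atTop, ((t : ℝ) + 5) ^ 4 ≤ Λ (N t) ∧ 2 * Λ (N t) ≤ 2 ^ y t ∧
      Λ (N t) * L t / N t ≤ 2 / (t + 5) := by
  have hup : ∀ t, N t ≤ 2 ^ ((t + 5) ^ 2) := fun t => by
    induction t with
    | zero => have := hf 0; have := hL 0; rw [h0]; norm_num at *; omega
    | succ t ih =>
      have h1 : 2 ^ y t * L t ≤ 2 ^ ((t + 5) ^ 2) :=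
        calc _ ≤ 2 ^ ((t + 4) ^ 2) * (2 ^ (t + 4)) ^ 2 :=
              Nat.mul_le_mul (Nat.pow_le_pow_right (by norm_num) ((hy t).trans (hL t)))
                ((hL t).trans (Nat.pow_le_pow_left Nat.lt_two_pow_self.le _))
          _ ≤ _ := by
              rw [← pow_mul, ← pow_add]; exact Nat.pow_le_pow_right (by norm_num) (by nlinarith)
      have h2 : f (t + 1) ≤ 2 ^ ((t + 5) ^ 2) :=
        ((hf _).2.le.trans (hL _)).trans Nat.lt_two_pow_self.le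
      have h3 : 2 ^ ((t + 5) ^ 2 + 2) ≤ 2 ^ ((t + 1 + 5) ^ 2) :=
        Nat.pow_le_pow_right (by norm_num) (by ring_nf; omega)
      rw [pow_add] at h3
      rw [hN]; omega
  have hlo : ∀ᶠ t in atTop, (t + 5) ^ 8 ≤ N t := by
    obtain ⟨t₀, ht₀⟩ := eventually_atTop.mp (hθ (1 / 2) (by norm_num))
    filter_upwards [eventually_ge_atTop (t₀ + 21)] with t ht
    obtain ⟨t, rfl⟩ : ∃ s, t = s + 1 := ⟨t - 1, by omega⟩
    have h1 : (t + 5) ^ 2 < 2 * y t := by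
      have := ht₀ t (by omega)
      have : ((t : ℝ) + 5) ^ 2 < 2 * y t := by linarith
      exact_mod_cast this
    have h2 : 1 ≤ L t := by have := hf t; omega
    calc _ ≤ (2 ^ (t + 1 + 5)) ^ 8 := Nat.pow_le_pow_left Nat.lt_two_pow_self.le _
      _ ≤ 2 ^ y t := by
          rw [← pow_mul]
          exact Nat.pow_le_pow_right (by norm_num) (by nlinarith [show 20 ≤ t by omega])
      _ ≤ _ := by rw [hN]; nlinarith [Nat.mul_le_mul_left (2 ^ y t) h2]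
  have hmono : StrictMono N := strictMono_nat_of_lt_succ fun t => by
    have := hf (t + 1); rw [hN]; omega
  have hNt : Tendsto (fun t => (N t : ℝ)) atTop atTop :=
    tendsto_natCast_atTop_atTop.comp hmono.tendsto_atTop
  filter_upwards [hlo, hθ (9 / 10) (by norm_num), (Real.tendsto_log_atTop.comp
    (Real.tendsto_log_atTop.comp hNt)).eventually_ge_atTop 1, hNt.eventually_ge_atTop 1]
    with t h1 h2 h3 h4
  simp only [Function.comp] at h3
  have h1' : ((t : ℝ) + 5) ^ 8 ≤ N t := by exact_mod_cast h1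
  have h5 : (N t : ℝ) ≤ 2 ^ ((t + 5) ^ 2) := by exact_mod_cast hup t
  have h6 : Real.log (Real.log (N t)) ≤ (t + 5) ^ 2 := by
    refine (Real.log_le_self (Real.log_nonneg h4)).trans
      ((Real.log_le_log (by linarith) h5).trans ?_)
    rw [Real.log_pow]
    push_cast
    nlinarith [Real.log_two_lt_d9, sq_nonneg ((t : ℝ) + 5)]
  have h7 : Λ (N t) ^ 2 ≤ 2 * N t * (t + 5) ^ 2 := by
    rw [Λ, Real.sq_sqrt (by positivity)]; gcongr
  have h8 : 0 ≤ Λ (N t) := Real.sqrt_nonneg _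
  refine ⟨Real.le_sqrt_of_sq_le (by nlinarith), ?_, ?_⟩
  · refine (sq_le_sq₀ (by positivity) (by positivity)).mp ?_
    have h9 : (t + 5) ^ 2 + 2 * (t + 5) + 3 ≤ y t * 2 := by
      have : ((t : ℝ) + 5) ^ 2 + 2 * (t + 5) + 3 ≤ y t * 2 := by
        nlinarith [(Nat.cast_nonneg t : (0 : ℝ) ≤ t)]
      exact_mod_cast this
    have h10 : (t : ℝ) + 5 ≤ 2 ^ (t + 5) := by exact_mod_cast (Nat.lt_two_pow_self (n := t + 5)).le
    calc _ ≤ 8 * (N t : ℝ) * (t + 5) ^ 2 := by nlinarith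
      _ ≤ 8 * 2 ^ ((t + 5) ^ 2) * (2 ^ (t + 5)) ^ 2 := by gcongr
      _ = 2 ^ ((t + 5) ^ 2 + 2 * (t + 5) + 3) := by ring
      _ ≤ _ := by rw [← pow_mul]; exact pow_le_pow_right₀ (by norm_num) h9
  · refine (sq_le_sq₀ (by positivity) (by positivity)).mp ?_
    have h9 : (L t : ℝ) ≤ (t + 5) ^ 2 := by
      have : L t ≤ (t + 5) ^ 2 := (hL t).trans (by gcongr; norm_num)
      exact_mod_cast this
    rw [div_pow, div_pow, div_le_div_iff₀ (by positivity) (by positivity), mul_pow]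
    calc _ ≤ 2 * N t * ((t : ℝ) + 5) ^ 2 * ((t + 5) ^ 2) ^ 2 * (t + 5) ^ 2 := by gcongr
      _ = 2 * N t * ((t : ℝ) + 5) ^ 8 := by ring
      _ ≤ 2 * N t * N t := by gcongr
      _ ≤ _ := by nlinarith

lemma walk {L f y N j : ℕ → ℕ} {W Δ : ℕ → ℤ} {m : ℕ} {K : ℤ} (hm : 1 ≤ m) (hK : 0 ≤ K)
    (hW : ∀ n l : ℕ, |W (n + l) - W n| ≤ K * l)
    (hN : ∀ t, N (t + 1) = N t + 2 ^ y t * L t + f (t + 1)) (hf : ∀ t, 2 ≤ f t ∧ f t < L t)
    (hL : ∀ t, L t ≤ (t + 4) ^ 2)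
    (h : ∀ᶠ t in atTop, m ∣ N t ∧ m ∣ L t ∧ 2 * j t ≤ 2 ^ y t ∧ ∀ i < 2 ^ y t,
      W (N t / m + i * (L t / m) + L t / m) = W (N t / m + i * (L t / m)) + sg (j t) i * Δ t) :
    ∃ C : ℤ, 0 ≤ C ∧ ∀ᶠ t : ℕ in atTop, (∀ n, N t ≤ m * n → m * n < N (t + 1) →
      |W n| ≤ C + K * (t + 5) ^ 3 + j t * |Δ t|) ∧
      |W (N t / m + j t * (L t / m)) - j t * Δ t| ≤ C + K * (t + 4) ^ 3 := by
  obtain ⟨t₀, ht₀⟩ := eventually_atTop.mp h
  have h1 : ∀ t ≥ t₀, ∀ i ≤ 2 ^ y t, W (N t / m + i * (L t / m)) =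
      W (N t / m) + (∑ x ∈ range i, sg (j t) x) * Δ t := fun t ht i hi => by
    induction i with
    | zero => simp
    | succ i ih =>
      rw [add_mul, one_mul, ← add_assoc, (ht₀ t ht).2.2.2 i hi, ih (by omega), sum_range_succ]
      ring
  have h2 : ∀ t ≥ t₀, ∀ n, N t ≤ m * n → m * n ≤ N (t + 1) → ∃ i ≤ 2 ^ y t, ∃ x ≤ (t + 5) ^ 2,
      n = N t / m + i * (L t / m) + x ∧ (m * n = N (t + 1) → i = 2 ^ y t) := fun t ht n h3 h4 => by
    obtain ⟨⟨N', hN'⟩, ⟨L', hL'⟩, -⟩ := ht₀ t ht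
    have h5 := hf (t + 1)
    have h6 := hL (t + 1)
    have h7 := hf t
    have h8 := hL t
    rw [hN, hN', hL'] at h4 ⊢
    rw [hN'] at h3
    rw [hL'] at h7 h8
    rw [Nat.mul_div_cancel_left _ hm, Nat.mul_div_cancel_left _ hm]
    obtain ⟨x, rfl⟩ := Nat.exists_eq_add_of_le (Nat.le_of_mul_le_mul_left h3 hm)
    rcases le_or_gt (2 ^ y t * L') x with h9 | h9
    · obtain ⟨z, rfl⟩ := Nat.exists_eq_add_of_le h9
      exact ⟨_, le_rfl, z, by nlinarith, by ring, fun _ => rfl⟩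
    · have hL0 : 0 < L' := Nat.pos_of_ne_zero (by rintro rfl; simp at h7)
      have h10 := Nat.mod_lt x hL0
      refine ⟨x / L', (Nat.div_lt_of_lt_mul (by rwa [mul_comm])).le, x % L', by nlinarith,
        by rw [add_assoc, Nat.div_add_mod'], fun h11 => ?_⟩
      nlinarith
  have h3 : ∀ t ≥ t₀, |W (N t / m)| ≤ |W (N t₀ / m)| + K * (t + 4) ^ 3 := fun t ht => by
    induction t, ht using Nat.le_induction with
    | base => exact le_add_of_nonneg_right (by positivity)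
    | succ t ht ih =>
      have h4 := Nat.mul_div_cancel' (ht₀ (t + 1) (by omega)).1
      obtain ⟨i, -, x, hx, h5, h6⟩ := h2 t ht (N (t + 1) / m) (by rw [h4, hN]; omega) h4.le
      have h7 := hW (N t / m + i * (L t / m)) x
      have h8 := (ht₀ t ht).2.2.1
      rw [← h5, h1 t ht i (h6 h4).le, h6 h4, sg_sum] at h7
      have h9 : (if 2 ^ y t ≤ j t then ((2 ^ y t : ℕ) : ℤ) else if 2 ^ y t ≤ 2 * j t then
          2 * (j t : ℤ) - (2 ^ y t : ℕ) else 0) = 0 := by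
        have := Nat.two_pow_pos (y t)
        split_ifs <;> omega
      rw [h9, zero_mul, add_zero] at h7
      have h10 : (x : ℤ) ≤ (t + 5) ^ 2 := by exact_mod_cast hx
      have h11 := abs_sub_abs_le_abs_sub (W (N (t + 1) / m)) (W (N t / m))
      have h12 : K * (t + 4) ^ 3 + K * x ≤ K * (t + 1 + 4) ^ 3 := by
        rw [← mul_add]
        exact mul_le_mul_of_nonneg_left (by nlinarith [Int.natCast_nonneg t]) hK
      push_cast
      linarith
  refine ⟨|W (N t₀ / m)|, abs_nonneg _, ?_⟩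
  filter_upwards [eventually_ge_atTop t₀] with t ht
  have h8 := (ht₀ t ht).2.2.1
  refine ⟨fun n h4 h5 => ?_, ?_⟩
  · obtain ⟨i, hi, x, hx, h6, -⟩ := h2 t ht n h4 h5.le
    have h7 := hW (N t / m + i * (L t / m)) x
    rw [← h6, h1 t ht i hi] at h7
    have h9 : |∑ x ∈ range i, sg (j t) x| ≤ j t := by
      rw [sg_sum, abs_le]; split_ifs <;> omega
    have h10 : (x : ℤ) ≤ (t + 5) ^ 2 := by exact_mod_cast hx
    have h11 := abs_sub_abs_le_abs_sub (W n) (W (N t / m) + (∑ x ∈ range i, sg (j t) x) * Δ t)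
    have h12 : K * (t + 4) ^ 3 + K * x ≤ K * (t + 5) ^ 3 := by
      rw [← mul_add]
      exact mul_le_mul_of_nonneg_left (by nlinarith [Int.natCast_nonneg t]) hK
    have h13 := abs_add_le (W (N t / m)) ((∑ x ∈ range i, sg (j t) x) * Δ t)
    rw [abs_mul] at h13
    have h14 := mul_le_mul_of_nonneg_right h9 (abs_nonneg (Δ t))
    linarith [h3 t ht]
  · rw [h1 t ht _ (by omega), sg_sum, if_pos le_rfl, add_sub_cancel_right]
    exact h3 t ht

lemma exists_seq {L f y N : ℕ → ℕ} (A : ℕ → ℕ → ℕ) (h0 : N 0 = f 0)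
    (hN : ∀ t, N (t + 1) = N t + 2 ^ y t * L t + f (t + 1))
    (hf : ∀ t, 2 ≤ f t ∧ f t < L t ∧ L t < f (t + 1)) (hL : ∀ t, L t ≤ (t + 4) ^ 2)
    (hθ : ∀ θ : ℝ, θ < 1 → ∀ᶠ t : ℕ in atTop, θ * (t + 5) ^ 2 < y t)
    (hA1 : ∀ t i, i + 1 < 2 ^ y t → A t i < A t (i + 1))
    (hA2 : ∀ t, ∀ i < 2 ^ y t, 2 ^ (L t - 1) ≤ A t i ∧ A t i < 2 ^ L t) :
    ∃ a len : ℕ → ℕ, StrictMono a ∧
      (∀ n, 1 ≤ len n ∧ 2 ^ (len n - 1) ≤ a n ∧ a n < 2 ^ len n) ∧
      (∀ N, ∃ n ≥ N, a n % 2 = 0) ∧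
      (∀ θ : ℝ, θ < 1 → ∀ᶠ x : ℕ in atTop, (x : ℝ) ^ θ < (Nat.card {n : ℕ | a n ≤ x} : ℝ)) ∧
      ∀ t, ∀ i < 2 ^ y t, ∃ n, a n = A t i ∧ len n = L t ∧
        ∑ x ∈ range n, len x = N t + i * L t := by
  set idx : ℕ → ℕ := fun t => ∑ s ∈ range t, (2 ^ y s + 1) with hidx
  have hi1 : ∀ t, idx (t + 1) = idx t + 1 + 2 ^ y t := fun t => by
    simp only [hidx, sum_range_succ]; ring
  have hmono : StrictMono idx := strictMono_nat_of_lt_succ fun t => by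
    have := Nat.two_pow_pos (y t); rw [hi1]; omega
  obtain ⟨J, hJ⟩ := CFTools.exists_block idx rfl hmono
  have hJe : ∀ t x, x ≤ 2 ^ y t → J (idx t + x) = t := fun t x hx => by
    have h1 := hmono.lt_iff_lt.mp ((hJ (idx t + x)).1.trans_lt (show _ < idx (t + 1) by
      rw [hi1]; omega))
    have h2 := hmono.lt_iff_lt.mp ((Nat.le_add_right _ x).trans_lt (hJ (idx t + x)).2)
    omega
  obtain ⟨a, ha⟩ : ∃ a : ℕ → ℕ, ∀ n, a n =
    if n = idx (J n) then 2 ^ (f (J n) - 1) else A (J n) (n - idx (J n) - 1) := ⟨_, fun _ => rfl⟩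
  obtain ⟨len, hlen⟩ : ∃ a : ℕ → ℕ, ∀ n, a n =
    if n = idx (J n) then f (J n) else L (J n) := ⟨_, fun _ => rfl⟩
  have h1 : ∀ t, a (idx t) = 2 ^ (f t - 1) ∧ len (idx t) = f t := fun t => by
    have := hJe t 0 (Nat.zero_le _)
    rw [add_zero] at this
    rw [ha, hlen, this, if_pos rfl, if_pos rfl]
    exact ⟨rfl, rfl⟩
  have h2 : ∀ t, ∀ i < 2 ^ y t, a (idx t + 1 + i) = A t i ∧ len (idx t + 1 + i) = L t :=
    fun t i hi => by
      have := hJe t (1 + i) (by omega)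
      rw [← add_assoc] at this
      rw [ha, hlen, this, if_neg (by omega), if_neg (by omega)]
      exact ⟨by congr 1; omega, rfl⟩
  have h3 : ∀ n, ∃ t, n = idx t ∨ ∃ i < 2 ^ y t, n = idx t + 1 + i := fun n => by
    have h4 := hJ n
    rw [hi1] at h4
    refine ⟨J n, (eq_or_lt_of_le h4.1).imp Eq.symm fun h => ⟨n - idx (J n) - 1, ?_, ?_⟩⟩ <;> omega
  have hsm : StrictMono a := strictMono_nat_of_lt_succ fun n => by
    obtain ⟨t, rfl | ⟨i, hi, rfl⟩⟩ := h3 n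
    · rw [(h1 t).1, (h2 t 0 (Nat.two_pow_pos _)).1]
      have := hf t
      exact (Nat.pow_lt_pow_right (by norm_num) (by omega)).trans_le
        (hA2 t 0 (Nat.two_pow_pos _)).1
    · rw [(h2 t i hi).1]
      rcases eq_or_lt_of_le (Nat.succ_le_of_lt hi) with h | h
      · rw [add_assoc, show i + 1 = 2 ^ y t from h, ← hi1, (h1 _).1]
        have := hf t
        exact (hA2 t i hi).2.trans_le (Nat.pow_le_pow_right (by norm_num) (by omega))
      · rw [add_assoc, (h2 t _ h).1]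
        exact hA1 t i h
  refine ⟨a, len, hsm, fun n => ?_, fun x => ⟨idx x, hmono.le_apply, ?_⟩, fun θ hθ' => ?_,
    fun t i hi => ⟨_, (h2 t i hi).1, (h2 t i hi).2, ?_⟩⟩
  · obtain ⟨t, rfl | ⟨i, hi, rfl⟩⟩ := h3 n
    · have := hf t
      rw [(h1 t).1, (h1 t).2]
      exact ⟨by omega, le_rfl, Nat.pow_lt_pow_right (by norm_num) (by omega)⟩
    · have := hf t
      rw [(h2 t i hi).1, (h2 t i hi).2]
      exact ⟨by omega, hA2 t i hi⟩
  · have := hf x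
    rw [(h1 x).1, show f x - 1 = f x - 2 + 1 by omega, pow_succ, Nat.mul_mod_left]
  · obtain ⟨t₀, ht₀⟩ := eventually_atTop.mp (hθ (max θ 0) (max_lt hθ' one_pos))
    filter_upwards [eventually_ge_atTop (2 ^ L t₀)] with x hx
    obtain ⟨t, h4, h5, h6⟩ := find_stage (N := fun t => 2 ^ L t) (strictMono_nat_of_lt_succ
      fun t => Nat.pow_lt_pow_right (by norm_num) ((hf t).2.2.trans (hf _).2.1)) hx
    have h7 : 2 ^ y t ≤ Nat.card {n : ℕ | a n ≤ x} := by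
      rw [Nat.card_coe_set_eq, ← card_range (2 ^ y t), ← Set.ncard_coe_finset]
      refine Set.ncard_le_ncard (fun n hn => ?_)
        ((Set.finite_Iic x).subset fun n hn => hsm.le_apply.trans hn)
      have hn : n < 2 ^ y t := by simpa using hn
      have h8 := hsm.monotone (show n ≤ idx t + 1 + n by omega)
      rw [(h2 t n hn).1] at h8
      exact h8.trans ((hA2 t n hn).2.le.trans h5)
    have h8 : (1 : ℝ) ≤ x := by exact_mod_cast Nat.one_le_two_pow.trans hx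
    have h9 : (x : ℝ) ≤ 2 ^ (((t : ℝ) + 5) ^ 2) := by
      have := h6.le.trans (Nat.pow_le_pow_right (by norm_num) (hL (t + 1)))
      rw [show ((t : ℝ) + 5) ^ 2 = ((t + 1 + 4) ^ 2 : ℕ) by push_cast; ring, Real.rpow_natCast]
      exact_mod_cast this
    calc (x : ℝ) ^ θ ≤ (x : ℝ) ^ max θ 0 := Real.rpow_le_rpow_of_exponent_le h8 (le_max_left _ _)
      _ ≤ (2 ^ (((t : ℝ) + 5) ^ 2)) ^ max θ 0 :=
          Real.rpow_le_rpow (by linarith) h9 (le_max_right _ _)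
      _ < 2 ^ (y t : ℝ) := by
          rw [← Real.rpow_mul (by norm_num), mul_comm]
          exact Real.rpow_lt_rpow_of_exponent_lt (by norm_num) (ht₀ t h4)
      _ ≤ _ := by rw [Real.rpow_natCast]; exact_mod_cast h7
  · have h4 : ∀ t, ∑ x ∈ range (idx t + 1), len x = N t → ∀ i ≤ 2 ^ y t,
        ∑ x ∈ range (idx t + 1 + i), len x = N t + i * L t := fun t h i hi => by
      induction i with
      | zero => simpa using h
      | succ i ih => rw [← add_assoc, sum_range_succ, ih (by omega), (h2 t i hi).2]; ring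
    refine h4 t ?_ i hi.le
    clear hi
    induction t with
    | zero => rw [sum_range_succ, (h1 0).2, h0]; simp [hidx]
    | succ t ih => rw [sum_range_succ, (h1 _).2, hi1, h4 t ih _ le_rfl, hN]

end Pool.Agent.H12.SN4
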