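import Mathlib

/-! The closed topologist's sine curve (adapted from the counterexample file distributed with
Mathlib) and Sierpinski's theorem on countable closed partitions. -/

open Topology Filter Set Real

namespace Pool.Agent.H12.Sine


noncomputable def S : Set (ℝ × ℝ) := (fun x ↦ (x, sin x⁻¹)) '' Ioi 0

def Z : Set (ℝ × ℝ) := (fun y ↦ (0, y)) '' Icc (-1) 1

noncomputable def T : Set (ℝ × ℝ) := S ∪ Z

noncomputable def xSeq (y : ℝ) (k : ℕ) := 1 / (arcsin y + (k + 1) * (2 * π))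

lemma xSeq_pos (y : ℝ) (k : ℕ) : 0 < xSeq y k := by
  rw [xSeq, one_div_pos]
  nlinarith [pi_pos, neg_pi_div_two_le_arcsin y]

lemma sin_inv_xSeq {y : ℝ} (hy : y ∈ Icc (-1) 1) (k : ℕ) : sin (xSeq y k)⁻¹ = y := by
  simpa [xSeq, -Nat.cast_add, ← Nat.cast_succ] using sin_arcsin' hy

lemma xSeq_tendsto (y : ℝ) : Tendsto (xSeq y) atTop (𝓝 0) := by
  refine .comp (g := fun k : ℝ ↦ 1 / (arcsin y + (k + 1) * (2 * π))) ?_ tendsto_natCast_atTop_atTop
  simp only [div_eq_mul_inv, show 𝓝 0 = 𝓝 (1 * (0 : ℝ)) by simp]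
  refine (tendsto_inv_atTop_zero.comp <| tendsto_atTop_add_const_left _ _ ?_).const_mul _
  exact (tendsto_atTop_add_const_right _ _ tendsto_id).atTop_mul_const (by positivity)

lemma closure_S : closure S = T := by
  ext ⟨x, y⟩
  simp only [mem_closure_iff_seq_limit, Prod.tendsto_iff]
  constructor
  ·
    rintro ⟨f, hf_mem, hf_lim⟩
    have x_nonneg : 0 ≤ x := by
      refine isClosed_Ici.mem_of_tendsto hf_lim.1 (.of_forall fun n ↦ ?_)
      obtain ⟨y, hy⟩ := hf_mem n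
      simpa [← hy.2] using le_of_lt hy.1
    rcases x_nonneg.eq_or_lt with rfl | h
    ·
      right
      simp only [Z, mem_image, Prod.mk.injEq, true_and, exists_eq_right]
      refine isClosed_Icc.mem_of_tendsto hf_lim.2 (.of_forall fun n ↦ ?_)
      obtain ⟨y, hy⟩ := hf_mem n
      simpa only [Function.comp_apply, ← hy.2] using sin_mem_Icc ..
    ·
      refine .inl ⟨x, h, ?_⟩
      simp only [Prod.mk.injEq, true_and]
      have : ContinuousAt (fun x ↦ sin x⁻¹) x :=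
        continuous_sin.continuousAt.comp <| continuousAt_inv₀ h.ne'
      refine tendsto_nhds_unique ?_ hf_lim.2
      convert! this.tendsto.comp hf_lim.1 with n
      obtain ⟨y, hy⟩ := hf_mem n
      simp [← hy.2]
  ·
    rintro (hz | ⟨z, hz⟩)
    ·
      exact ⟨_, fun _ ↦ hz, tendsto_const_nhds, tendsto_const_nhds⟩
    ·
      simp only [Prod.mk.injEq] at hz
      rcases hz with ⟨hz, ⟨rfl, rfl⟩⟩
      refine ⟨fun n ↦ (xSeq z n, z), fun n ↦ ⟨_, xSeq_pos z n, ?_⟩, xSeq_tendsto z,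
        tendsto_const_nhds⟩
      simpa using sin_inv_xSeq hz n

lemma isClosed_T : IsClosed T := by simpa only [← closure_S] using isClosed_closure

theorem isConnected_T : IsConnected T := by
  rw [← closure_S]
  refine (isConnected_Ioi.image _ <| continuousOn_id.prodMk ?_).closure
  fun_prop (discharger := grind)

lemma zero_mem_T : (0, 0) ∈ T := by
  refine .inr ⟨0, ⟨?_, ?_⟩, rfl⟩ <;>
  linarith

noncomputable def w : ℝ × ℝ := (1, sin 1⁻¹)

lemma w_mem_T : w ∈ T := .inl ⟨1, ⟨zero_lt_one' ℝ, rfl⟩⟩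

lemma norm_ge_abs_snd {a b : ℝ} : |b| ≤ ‖(a, b)‖ := by simp

lemma exists_unitInterval_gt {t₀ : unitInterval} (ht₀ : t₀ < 1) {δ : ℝ} (hδ : 0 < δ) :
    ∃ t₁, t₀ < t₁ ∧ dist t₀ t₁ < δ := by
  let s₀ := (t₀ : ℝ)
  let s₁ := min (s₀ + δ / 2) 1
  have h_s₀_delta_pos : 0 ≤ s₀ + δ / 2 := add_nonneg t₀.2.1 (by positivity)
  have hs₁ : 0 ≤ s₁ := le_min h_s₀_delta_pos zero_le_one
  have hs₁' : s₁ ≤ 1 := min_le_right ..
  refine ⟨⟨s₁, hs₁, hs₁'⟩, lt_min ((lt_add_iff_pos_right _).mpr (half_pos hδ)) ht₀, ?_⟩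
  have h_le : s₁ ≤ s₀ + δ / 2 := min_le_left _ _
  have h_ge : s₀ ≤ s₁ := le_min (by linarith) t₀.2.2
  rw [Subtype.dist_eq, dist_comm, dist_eq, abs_of_nonneg (by linarith)]
  linarith

lemma mem_S_of_x_pos {p : ℝ × ℝ} (hx : 0 < p.1) (hT : p ∈ T) : p.2 = sin (p.1)⁻¹ := by
  obtain ⟨x, -, hx⟩ : p ∈ S := by
    cases hT with
    | inl hT => trivial
    | inr hZ => obtain ⟨y, ⟨-, rfl⟩⟩ := hZ; exact (lt_irrefl _ hx).elim
  simp [← hx]

lemma exists_mem_Ioc_of_y {y : ℝ} (hy : y ∈ Icc (-1) 1) {a : ℝ} (ha : 0 < a) :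
    ∃ x ∈ Ioc 0 a, sin x⁻¹ = y := by
  obtain ⟨N, h_dist⟩ := (Metric.tendsto_nhds.mp (xSeq_tendsto y) (a / 2) (by positivity)).exists
  refine ⟨xSeq y N, ⟨xSeq_pos y N, ?_⟩, sin_inv_xSeq hy _⟩
  rw [dist_eq, sub_zero, abs_of_pos (xSeq_pos _ N)] at h_dist
  linarith

theorem not_joined : ¬ JoinedIn T (0, 0) w := by
  intro h_pathConn
  let p := h_pathConn.somePath
  have xcoord_pathContinuous : Continuous fun t ↦ (p t).1 := continuous_fst.comp p.continuous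
  let t₀ : unitInterval := sSup {t | (p t).1 = 0}
  have h_pt₀_x : (p t₀).1 = 0 :=
    (isClosed_singleton.preimage xcoord_pathContinuous).sSup_mem ⟨0, by aesop⟩
  obtain ⟨δ, hδ, ht⟩ : ∃ δ, 0 < δ ∧ ∀ t, dist t t₀ < δ → dist (p t) (p t₀) < 1 :=
    Metric.eventually_nhds_iff.mp <| Metric.tendsto_nhds.mp (p.continuousAt t₀) _ one_pos
  obtain ⟨t₁, ht₁⟩ : ∃ t₁, t₀ < t₁ ∧ dist t₀ t₁ < δ := by
    refine exists_unitInterval_gt (lt_of_le_of_ne (unitInterval.le_one t₀) fun ht₀' ↦ ?_) hδ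
    have w_x_path : (p 1).1 = 1 := by rw [Path.target p, w]
    have x_eq_zero : (p 1).1 = 0 := by rwa [ht₀'] at h_pt₀_x
    linarith
  let a := (p t₁).1
  have ha : 0 < a := by
    obtain ⟨x, hxI, hx_eq⟩ : p t₁ ∈ S := by
      refine (h_pathConn.somePath_mem t₁).elim id fun ⟨y, hy⟩ ↦ ?_
      have : (p t₁).1 = 0 := by simp only [p, ← hy.2]
      exact ((show t₁ ≤ t₀ from le_sSup this).not_gt ht₁.1).elim
    simpa only [a, ← hx_eq] using! hxI
  have intervalAZeroSubOfT₀T₁Xcoord : Icc 0 a ⊆ (fun t ↦ (p t).1) '' Icc t₀ t₁ :=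
    (isPreconnected_Icc.image _ <| xcoord_pathContinuous.continuousOn).Icc_subset
      (show 0 ∈ (fun t ↦ (p t).1) '' Icc t₀ t₁ from ⟨t₀, ⟨le_rfl, ht₁.1.le⟩, ‹_›⟩)
      (show a ∈ (fun t ↦ (p t).1) '' Icc t₀ t₁ from ⟨t₁, ⟨ht₁.1.le, le_rfl⟩, rfl⟩)
  have exists_close {y : ℝ} (hy : y ∈ Icc (-1) 1) : ∃ t, dist t t₀ < δ ∧ (p t).2 = y := by
    obtain ⟨x, hx, hx'⟩ := exists_mem_Ioc_of_y hy ha
    obtain ⟨t, ht⟩ : ∃ t ∈ Icc t₀ t₁, (p t).1 = x := intervalAZeroSubOfT₀T₁Xcoord ⟨hx.1.le, hx.2⟩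
    have hp : (p t).2 = sin (p t).1⁻¹ := mem_S_of_x_pos (ht.2 ▸ hx.1) (h_pathConn.somePath_mem t)
    refine ⟨t, ?_, by rw [← hx', hp, ht.2]⟩
    calc
    dist t t₀ ≤ dist t₁ t₀ := dist_right_le_of_mem_uIcc (Icc_subset_uIcc' ht.1)
    _ = dist t₀ t₁ := by rw [dist_comm]
    _ < δ := ht₁.2
  obtain ⟨x₁, hx₁, h_pathx₁⟩ : ∃ x₁, dist x₁ t₀ < δ ∧ (p x₁).2 = 1 := exists_close (by simp)
  obtain ⟨x₂, hx₂, h_pathx₂⟩ : ∃ x₂, dist x₂ t₀ < δ ∧ (p x₂).2 = -1 := exists_close (by simp)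
  have : dist (p x₁) (p x₂) < 2 := by
    refine (dist_triangle_right _ _ (p t₀)).trans_lt ?_
    exact (add_lt_add (ht _ hx₁) (ht _ hx₂)).trans_eq (by norm_num)
  have := norm_ge_abs_snd.trans_lt this
  rw [h_pathx₁, h_pathx₂, abs_of_nonneg (by norm_num)] at this
  linarith


theorem sierpinski {Y ι : Type} [TopologicalSpace Y] [T2Space Y] [LocallyCompactSpace Y]
    [LocallyConnectedSpace Y] [ConnectedSpace Y] [Countable ι] (F : ι → Set Y)
    (hc : ∀ i, IsClosed (F i)) (hd : Pairwise (Function.onFun Disjoint F))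
    (hu : ∀ y, ∃ i, y ∈ F i) : ∃ i, F i = univ := by
  let Z : Set Y := (⋃ i, interior (F i))ᶜ
  have key : ∀ (W : Set Y) (j : ι), IsPreconnected W → (W ∩ interior (F j)).Nonempty →
      (∀ s ∈ W, s ∈ Z → s ∉ F j) → W ⊆ interior (F j) := by
    intro W j hW hne h
    refine hW.subset_of_closure_inter_subset isOpen_interior hne ?_
    rintro s ⟨h1, h2⟩
    have h3 : s ∈ F j := closure_minimal interior_subset (hc j) h1
    by_contra h4
    refine h s h2 (fun h5 => ?_) h3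
    obtain ⟨k, hk⟩ := mem_iUnion.mp h5
    by_cases hjk : k = j
    · exact h4 (hjk ▸ hk)
    · exact disjoint_left.mp (hd hjk) (interior_subset hk) h3
  rcases Z.eq_empty_or_nonempty with h | h
  · obtain ⟨y⟩ : Nonempty Y := inferInstance
    have : y ∈ ⋃ i, interior (F i) := by
      by_contra h'
      exact (show y ∈ (∅ : Set Y) from h ▸ h')
    obtain ⟨j, hj⟩ := mem_iUnion.mp this
    exact ⟨j, eq_univ_of_univ_subset ((key univ j isPreconnected_univ ⟨y, trivial, hj⟩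
      (by simp [h])).trans interior_subset)⟩
  · have hZ : IsClosed Z := (isOpen_iUnion fun _ => isOpen_interior).isClosed_compl
    have := hZ.locallyCompactSpace
    have := h.to_subtype
    obtain ⟨i, z, hz⟩ := nonempty_interior_of_iUnion_of_closed
      (f := fun i => ((↑) : Z → Y) ⁻¹' F i) (fun i => (hc i).preimage continuous_subtype_val)
      (eq_univ_of_forall fun z => mem_iUnion.mpr (hu z.1))
    obtain ⟨O, hO, hOF⟩ := (mem_nhds_subtype _ _ _).mp (mem_interior_iff_mem_nhds.mp hz)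
    obtain ⟨W, hW, hWc, hWO⟩ := locallyConnectedSpace_iff_connected_subsets.mp inferInstance
      z.1 O hO
    have h1 : ¬ W ⊆ F i := fun h' =>
      z.2 (mem_iUnion.mpr ⟨i, mem_interior_iff_mem_nhds.mpr (mem_of_superset hW h')⟩)
    obtain ⟨y, hy, hyi⟩ := not_subset.mp h1
    have h2 : y ∉ Z := fun h' => hyi (hOF (show (⟨y, h'⟩ : Z) ∈ _ from hWO hy))
    obtain ⟨j, hj⟩ := mem_iUnion.mp (not_not.mp h2)
    have hij : i ≠ j := by rintro rfl; exact hyi (interior_subset hj)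
    have h3 := key W j hWc ⟨y, hy, hj⟩ fun s hs hsZ =>
      disjoint_left.mp (hd hij) (hOF (show (⟨s, hsZ⟩ : Z) ∈ _ from hWO hs))
    exact absurd (mem_iUnion.mpr ⟨j, h3 (mem_of_mem_nhds hW)⟩) z.2

end Pool.Agent.H12.Sine
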