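import Pool.Agent.H12.Sine

/-! Subcontinua of the closed `sin (1/x)` curve. -/

open Topology Filter Set Real

namespace Pool.Agent.H12.Sine2
open Pool.Agent.H12.Sine

variable {Y : Type} [MetricSpace Y]

lemma cut (C : Set Y) (hC : IsPreconnected C) (f : Y → ℝ) (hf : Continuous f) (p : Y) (hp : p ∈ C)
    (a b : ℝ) (ha : a ∈ f '' C) (hb : b ∈ f '' C) (h : f p ∈ Ioo a b)
    (hu : ∀ q ∈ C, f q = f p → q = p) : p ∈ C ∧ ∃ V : Set Y, IsOpen V ∧ p ∈ V ∧
      ¬ IsPreconnected (connectedComponentIn (V ∩ C) p \ {p}) := by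
  refine ⟨hp, univ, isOpen_univ, trivial, fun hc => ?_⟩
  rw [univ_inter, hC.connectedComponentIn hp] at hc
  obtain ⟨u, hu1, rfl⟩ := ha
  obtain ⟨v, hv1, rfl⟩ := hb
  have := (hc.image f hf.continuousOn).Icc_subset
    ⟨u, ⟨hu1, fun e => h.1.ne (by rw [mem_singleton_iff.mp e])⟩, rfl⟩
    ⟨v, ⟨hv1, fun e => h.2.ne' (by rw [mem_singleton_iff.mp e])⟩, rfl⟩
  obtain ⟨q, hq, e⟩ := this ⟨h.1.le, h.2.le⟩
  exact hq.2 (hu q hq.1 e)

lemma T_nonneg {q : ℝ × ℝ} (h : q ∈ T) : 0 ≤ q.1 ∧ q.2 ∈ Icc (-1 : ℝ) 1 := by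
  rcases h with ⟨x, hx, rfl⟩ | ⟨y, hy, rfl⟩
  · exact ⟨le_of_lt hx, sin_mem_Icc _⟩
  · exact ⟨le_rfl, hy⟩

lemma approx {q : ℝ × ℝ} (hq : q ∈ T) {a b : ℝ} (ha : 0 ≤ a) (hab : a < b) (h : q.1 ∈ Icc a b) :
    q ∈ closure ((fun x : ℝ => (x, sin x⁻¹)) '' Ioo a b) := by
  rcases (T_nonneg hq).1.eq_or_lt with h0 | h0
  · have ha0 : a = 0 := le_antisymm (h0 ▸ h.1) ha
    subst ha0
    have h1 : Tendsto (fun n => (xSeq q.2 n, q.2)) atTop (𝓝 q) := by
      have e : q = (0, q.2) := Prod.ext h0.symm rfl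
      have := (xSeq_tendsto q.2).prodMk_nhds (tendsto_const_nhds (x := q.2))
      rwa [← e] at this
    refine mem_closure_of_tendsto h1 ?_
    filter_upwards [(xSeq_tendsto q.2).eventually (gt_mem_nhds hab)] with n hn
    exact ⟨_, ⟨xSeq_pos _ _, hn⟩, Prod.ext rfl (sin_inv_xSeq (T_nonneg hq).2 n)⟩
  · have e : q = (q.1, sin q.1⁻¹) := Prod.ext rfl (mem_S_of_x_pos h0 hq)
    rw [e]
    refine mem_closure_image (f := fun x : ℝ => (x, sin x⁻¹)) ?_ (by rwa [closure_Ioo hab.ne])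
    exact continuousAt_id.prodMk (continuous_sin.continuousAt.comp (continuousAt_inv₀ h0.ne'))

lemma cont_graph {a b : ℝ} (ha : 0 ≤ a) :
    ContinuousOn (fun x : ℝ => (x, sin x⁻¹)) (Ioo a b) := fun _ hx =>
  (continuousAt_id.prodMk (continuous_sin.continuousAt.comp
    (continuousAt_inv₀ (ha.trans_lt hx.1).ne'))).continuousWithinAt

lemma param (C : Set (ℝ × ℝ)) (hT : C ⊆ T) (hK : IsCompact C) (hC : IsConnected C)
    (hn : C.Nontrivial) : ∃ (γ : ℝ → ℝ × ℝ) (f : ℝ × ℝ → ℝ) (a b : ℝ), Continuous f ∧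
      ContinuousOn γ (Ioo a b) ∧ a ∈ f '' C ∧ b ∈ f '' C ∧
      (∀ t ∈ Ioo a b, γ t ∈ C ∧ f (γ t) = t ∧ ∀ q ∈ C, f q = t → q = γ t) ∧
      C ⊆ closure (γ '' Ioo a b) := by
  have hx := eq_Icc_of_connected_compact (hC.image _ continuous_fst.continuousOn)
    (hK.image continuous_fst)
  have hy := eq_Icc_of_connected_compact (hC.image _ continuous_snd.continuousOn)
    (hK.image continuous_snd)
  generalize sInf (Prod.fst '' C) = a, sSup (Prod.fst '' C) = b at hx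
  generalize sInf (Prod.snd '' C) = c, sSup (Prod.snd '' C) = d at hy
  obtain ⟨u, hu, v, hv, huv⟩ := hn
  have mx : ∀ q ∈ C, q.1 ∈ Icc a b := fun q hq => hx ▸ mem_image_of_mem _ hq
  have my : ∀ q ∈ C, q.2 ∈ Icc c d := fun q hq => hy ▸ mem_image_of_mem _ hq
  have hab : a ≤ b := (mx u hu).1.trans (mx u hu).2
  have hcd : c ≤ d := (my u hu).1.trans (my u hu).2
  have ha : a ∈ Prod.fst '' C := hx ▸ left_mem_Icc.mpr hab
  have hb : b ∈ Prod.fst '' C := hx ▸ right_mem_Icc.mpr hab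
  have ha0 : 0 ≤ a := by obtain ⟨q, hq, rfl⟩ := ha; exact (T_nonneg (hT hq)).1
  rcases hab.eq_or_lt with rfl | hab
  · have e : ∀ q ∈ C, q.1 = a := fun q hq => le_antisymm (mx q hq).2 (mx q hq).1
    have hcd' : c < d := by
      refine lt_of_le_of_ne hcd fun h => huv (Prod.ext ((e u hu).trans (e v hv).symm) ?_)
      subst h
      exact (le_antisymm (my u hu).2 (my u hu).1).trans (le_antisymm (my v hv).2 (my v hv).1).symm
    refine ⟨fun t => (a, t), Prod.snd, c, d, continuous_snd, by fun_prop,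
      hy ▸ left_mem_Icc.mpr hcd, hy ▸ right_mem_Icc.mpr hcd, fun t ht => ?_, fun q hq => ?_⟩
    · obtain ⟨q, hq, hqt⟩ : t ∈ Prod.snd '' C := hy ▸ Ioo_subset_Icc_self ht
      exact ⟨by rwa [← hqt, ← e q hq], rfl, fun r hr h => Prod.ext (e r hr) h⟩
    · have : q = (a, q.2) := Prod.ext (e q hq) rfl
      rw [this]
      exact mem_closure_image (f := fun t : ℝ => (a, t)) (by fun_prop)
        (by rw [closure_Ioo hcd'.ne]; exact my q hq)
  · refine ⟨_, Prod.fst, a, b, continuous_fst, cont_graph ha0, ha, hb, fun t ht => ?_,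
      fun q hq => approx (hT hq) ha0 hab (mx q hq)⟩
    have key : ∀ q ∈ C, q.1 = t → q = (t, sin t⁻¹) := fun q hq h =>
      Prod.ext h (h ▸ mem_S_of_x_pos (h ▸ ha0.trans_lt ht.1) (hT hq))
    obtain ⟨q, hq, hqt⟩ : t ∈ Prod.fst '' C := hx ▸ Ioo_subset_Icc_self ht
    exact ⟨key q hq hqt ▸ hq, rfl, key⟩

theorem main : ∃ X : Set (ℝ × ℝ), IsCompact X ∧ IsConnected X ∧
    (∀ C : Set X, IsCompact C → IsConnected C →
      IsPreconnected {p : X | p ∈ C ∧ ∃ V : Set X, IsOpen V ∧ p ∈ V ∧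
        ¬ IsPreconnected (connectedComponentIn (V ∩ C) p \ {p})}) ∧
    ∃ x y : X, x ≠ y ∧ ∀ f : unitInterval → X, Continuous f → f 0 = x → f 1 ≠ y := by
  let X : Set (ℝ × ℝ) := closure ((fun x : ℝ => (x, sin x⁻¹)) '' Ioo 0 1)
  have hT : X ⊆ T := by
    rw [← closure_S]
    exact closure_mono (image_mono fun x hx => hx.1)
  have hc : IsConnected X := ((isConnected_Ioo one_pos).image _ (cont_graph le_rfl)).closure
  have hk : IsCompact X := by
    refine (isCompact_Icc (a := ((0 : ℝ), (-1 : ℝ))) (b := (1, 1))).of_isClosed_subset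
      isClosed_closure (closure_minimal ?_ isClosed_Icc)
    rintro _ ⟨x, hx, rfl⟩
    exact ⟨⟨hx.1.le, neg_one_le_sin _⟩, ⟨hx.2.le, sin_le_one _⟩⟩
  refine ⟨X, hk, hc, fun C h1 h2 => ?_, ⟨(0, 0), approx zero_mem_T le_rfl one_pos (by simp)⟩,
    ⟨w, approx w_mem_T le_rfl one_pos (by simp [w])⟩, by simp [w], fun f h1 h2 h3 => ?_⟩
  · rcases C.subsingleton_or_nontrivial with hn | hn
    · exact (hn.anti fun p hp => hp.1).isPreconnected
    obtain ⟨γ, f, a, b, hf, hγ, ha, hb, h3, h4⟩ := param (Subtype.val '' C)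
      (by rintro _ ⟨p, -, rfl⟩; exact hT p.2) (h1.image continuous_subtype_val)
      (h2.image _ continuous_subtype_val.continuousOn) (hn.image Subtype.val_injective)
    have e : Subtype.val '' (Subtype.val ⁻¹' (γ '' Ioo a b) : Set X) = γ '' Ioo a b := by
      refine image_preimage_eq_of_subset ?_
      rintro _ ⟨t, ht, rfl⟩
      exact image_subset_range _ _ (h3 t ht).1
    refine IsPreconnected.subset_closure (s := Subtype.val ⁻¹' (γ '' Ioo a b)) ?_ ?_ fun p hp => ?_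
    · rw [← IsInducing.subtypeVal.isPreconnected_image, e]
      exact isPreconnected_Ioo.image _ hγ
    · rintro p ⟨t, ht, hp⟩
      obtain ⟨⟨q, hq, e1⟩, h5, h6⟩ := h3 t ht
      obtain rfl : q = p := Subtype.ext (e1.trans hp)
      rw [image_image] at ha hb
      refine cut C h2.2 (fun q => f q.1) (hf.comp continuous_subtype_val) q hq a b ha hb
        (by rwa [e1, h5]) fun r hr h => Subtype.ext ?_
      rw [e1] at h ⊢
      exact h6 _ (mem_image_of_mem _ hr) (h.trans h5)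
    · rw [IsInducing.subtypeVal.closure_eq_preimage_closure_image, e]
      exact h4 (mem_image_of_mem _ hp.1)
  · exact not_joined ⟨⟨⟨fun t => (f t).1, continuous_subtype_val.comp h1⟩,
      congrArg Subtype.val h2, congrArg Subtype.val h3⟩, fun t => hT (f t).2⟩

end Pool.Agent.H12.Sine2
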