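import Mathlib

namespace Pool.Agent.H12.Spec

open Matrix Finset

/-- spectral data of a real symmetric matrix in plain form -/
lemma exists_eigen {n : Type} [Fintype n] [DecidableEq n] (A : Matrix n n ℝ) (hA : A.IsSymm) :
    ∃ (u : n → n → ℝ) (μ : n → ℝ), A.charpoly.roots = Multiset.map μ Finset.univ.val ∧
      (∀ k, A *ᵥ u k = μ k • u k) ∧ (∀ k, u k ⬝ᵥ u k = 1) ∧ (∀ k l, k ≠ l → u k ⬝ᵥ u l = 0) ∧
      (∀ x y : n → ℝ, x ⬝ᵥ y = ∑ k, (u k ⬝ᵥ x) * (u k ⬝ᵥ y)) := by
  have hH : A.IsHermitian := by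
    rw [Matrix.IsHermitian, Matrix.conjTranspose_eq_transpose_of_trivial]; exact hA
  refine ⟨fun k => ⇑(hH.eigenvectorBasis k), hH.eigenvalues, ?_, hH.mulVec_eigenvectorBasis,
    ?_, ?_, ?_⟩
  · simpa using hH.roots_charpoly_eq_eigenvalues
  · intro k
    have := hH.eigenvectorBasis.inner_eq_one k
    rw [EuclideanSpace.inner_eq_star_dotProduct] at this
    simpa using this
  · intro k l hkl
    have := hH.eigenvectorBasis.inner_eq_zero hkl
    rw [EuclideanSpace.inner_eq_star_dotProduct] at this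
    simpa [dotProduct_comm] using this
  · intro x y
    have := hH.eigenvectorBasis.sum_inner_mul_inner (WithLp.toLp 2 x) (WithLp.toLp 2 y)
    simp only [EuclideanSpace.inner_eq_star_dotProduct, star_trivial] at this
    rw [dotProduct_comm, ← this]
    refine sum_congr rfl fun k _ => ?_
    rw [dotProduct_comm y]

lemma dot_mulVec_eigen {n : Type} [Fintype n] (A : Matrix n n ℝ) (hA : A.IsSymm)
    (u x : n → ℝ) (m : ℝ) (h : A *ᵥ u = m • u) : u ⬝ᵥ (A *ᵥ x) = m * (u ⬝ᵥ x) := by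
  rw [dotProduct_mulVec, ← mulVec_transpose, hA.eq, h, smul_dotProduct, smul_eq_mul]

end Pool.Agent.H12.Spec
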