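import Mathlib

namespace Pool.Agent.H12.Specht

open MvPolynomial

variable {k : Type} [Field k]

abbrev P (k : Type) [Field k] := MvPolynomial (Fin 4) k

def Low (p : P k) : Prop := ∀ m : Fin 4 →₀ ℕ, m.degree < 2 → coeff m p = 0

theorem low_mul (r p : P k) (hp : Low p) (m : Fin 4 →₀ ℕ) (hm : m.degree ≤ 2) :
    coeff m (r * p) = coeff 0 r * coeff m p := by
  rw [coeff_mul, Finset.sum_eq_single (0, m)]
  · rintro ⟨a, b⟩ h1 h2
    have e : a + b = m := by simpa using h1
    have hb : b.degree < 2 := by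
      have e2 : a.degree + b.degree = m.degree := by rw [← e, map_add]
      by_contra h3
      have : a = 0 := (Finsupp.degree_eq_zero_iff a).1 (by omega)
      subst this
      exact h2 (by simpa using e)
    simp [hp b hb]
  · simp

theorem span_low (S : Set (P k)) (hS : ∀ s ∈ S, Low s) (p : P k) (hp : p ∈ Ideal.span S) :
    Low p ∧ homogeneousComponent 2 p ∈ Submodule.span k (homogeneousComponent 2 '' S) := by
  induction hp using Submodule.span_induction with
  | mem x hx => exact ⟨hS x hx, Submodule.subset_span ⟨x, hx, rfl⟩⟩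
  | zero => exact ⟨fun _ _ => rfl, by simp⟩
  | add x y _ _ hx hy =>
    exact ⟨fun m hm => by rw [coeff_add, hx.1 m hm, hy.1 m hm, add_zero],
      by rw [map_add]; exact add_mem hx.2 hy.2⟩
  | smul r x _ hx =>
    refine ⟨fun m hm => by rw [smul_eq_mul, low_mul r x hx.1 m hm.le, hx.1 m hm, mul_zero], ?_⟩
    have : homogeneousComponent 2 (r • x) = coeff 0 r • homogeneousComponent 2 x := by
      ext m
      rw [coeff_smul, coeff_homogeneousComponent, coeff_homogeneousComponent]
      split_ifs with h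
      · rw [smul_eq_mul, low_mul r x hx.1 m h.le, smul_eq_mul]
      · simp
    rw [this]
    exact Submodule.smul_mem _ _ hx.2

noncomputable def u : P k := X 0 * X 2 + X 1 * X 3 - (X 0 * X 3 + X 1 * X 2)
noncomputable def v : P k := X 0 * X 1 + X 2 * X 3 - (X 0 * X 2 + X 1 * X 3)

theorem hXX (i j : Fin 4) : (X i * X j : P k).IsHomogeneous 2 :=
  (isHomogeneous_X k i).mul (isHomogeneous_X k j)

theorem hu : (u : P k).IsHomogeneous 2 := ((hXX _ _).add (hXX _ _)).sub ((hXX _ _).add (hXX _ _))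
theorem hv : (v : P k).IsHomogeneous 2 := ((hXX _ _).add (hXX _ _)).sub ((hXX _ _).add (hXX _ _))

noncomputable def I : Ideal (P k) := Ideal.span {u, v}

theorem I_low (p : P k) (hp : p ∈ I) : Low p ∧ ∃ a b : k, a • u + b • v = homogeneousComponent 2 p := by
  have := span_low {u, v} (by
    rintro s (rfl | rfl) m hm
    · exact hu.coeff_eq_zero (by omega)
    · exact hv.coeff_eq_zero (by omega)) p hp
  rw [Set.image_pair, homogeneousComponent_eq_self hu, homogeneousComponent_eq_self hv,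
    Submodule.mem_span_pair] at this
  exact this

theorem I_swap (x y : Fin 4) : rename (Equiv.swap x y) (u : P k) ∈ I ∧
    rename (Equiv.swap x y) (v : P k) ∈ I := by
  simp only [I, Ideal.mem_span_pair]
  fin_cases x <;> fin_cases y <;> constructor <;>
    first
    | (refine ⟨1, 0, ?_⟩; simp [u, v, Equiv.swap_apply_def] <;> ring1)
    | (refine ⟨0, 1, ?_⟩; simp [u, v, Equiv.swap_apply_def] <;> ring1)
    | (refine ⟨-1, 0, ?_⟩; simp [u, v, Equiv.swap_apply_def] <;> ring1)
    | (refine ⟨0, -1, ?_⟩; simp [u, v, Equiv.swap_apply_def] <;> ring1)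
    | (refine ⟨1, 1, ?_⟩; simp [u, v, Equiv.swap_apply_def] <;> ring1)
    | (refine ⟨-1, -1, ?_⟩; simp [u, v, Equiv.swap_apply_def] <;> ring1)

theorem I_symm (σ : Equiv.Perm (Fin 4)) : ∀ f ∈ (I : Ideal (P k)), rename σ f ∈ I := by
  induction σ using Equiv.Perm.swap_induction_on with
  | one => intro f hf; simpa using hf
  | swap_mul σ x y _ ih =>
    intro f hf
    have h1 : (I : Ideal (P k)) ≤ Ideal.comap (rename (Equiv.swap x y)) I := by
      rw [I, Ideal.span_le]
      rintro s (rfl | rfl)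
      · exact (I_swap x y).1
      · exact (I_swap x y).2
    have := h1 (ih f hf)
    rw [Ideal.mem_comap, rename_rename] at this
    exact this

theorem ksymm [CharZero k] (g : P k) (hg : g ∈ I) (h : ∀ σ : Equiv.Perm (Fin 4), ∃ c : k, rename σ g = c • g) :
    homogeneousComponent 2 g = 0 := by
  obtain ⟨a, b, e⟩ := (I_low g hg).2
  have key : ∀ σ : Equiv.Perm (Fin 4), ∃ c : k, ∀ w : Fin 4 → k,
      eval (w ∘ σ) (a • u + b • v) = c * eval w (a • u + b • v) := by
    intro σ
    obtain ⟨c, hc⟩ := h σ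
    refine ⟨c, fun w => ?_⟩
    rw [← eval_rename, e, rename_homogeneousComponent, hc, map_smul, smul_eval]
  obtain ⟨c, hc⟩ := key (Equiv.swap 0 1)
  obtain ⟨d, hd⟩ := key (Equiv.swap 1 2)
  have c1 := hc ![1, 1, 0, 0]
  have c2 := hc ![1, 0, 1, 0]
  have d1 := hd ![1, 1, 0, 0]
  have d2 := hd ![1, 0, 0, 1]
  simp [u, v, smul_eval, Equiv.swap_apply_def] at c1 c2 d1 d2
  have : a = 0 ∧ b = 0 := by grind
  rw [← e, this.1, this.2]
  simp

theorem not_line (h : P k) : ¬ ((u : P k) ∈ Submodule.span k {h} ∧ (v : P k) ∈ Submodule.span k {h}) := by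
  rintro ⟨h1, h2⟩
  obtain ⟨a, ha⟩ := Submodule.mem_span_singleton.1 h1
  obtain ⟨b, hb⟩ := Submodule.mem_span_singleton.1 h2
  have c1 := congrArg (eval ![1, 1, 0, 0]) ha
  have c2 := congrArg (eval ![1, 1, 0, 0]) hb
  have c3 := congrArg (eval ![1, 0, 0, 1]) ha
  have c4 := congrArg (eval ![1, 0, 0, 1]) hb
  simp only [smul_eval] at c1 c2 c3 c4
  simp [u, v] at c1 c2 c3 c4
  grind

def Rl (a b c d : Fin 4) : Prop := (a = c ∧ b = d) ∨ (a = d ∧ b = c)

instance (a b c d : Fin 4) : Decidable (Rl a b c d) := by unfold Rl; infer_instance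

theorem comb : ∀ i j a b : Fin 4, ∃ x y z w : Fin 4,
    ¬ Rl (Equiv.swap x y i) (Equiv.swap x y j) i j ∧ ¬ Rl (Equiv.swap x y i) (Equiv.swap x y j) a b ∧
    ¬ Rl (Equiv.swap z w i) (Equiv.swap z w j) i j ∧ ¬ Rl (Equiv.swap z w i) (Equiv.swap z w j) a b ∧
    ¬ Rl (Equiv.swap z w i) (Equiv.swap z w j) (Equiv.swap x y i) (Equiv.swap x y j) ∧
    ¬ Rl (Equiv.swap z w i) (Equiv.swap z w j) (Equiv.swap x y a) (Equiv.swap x y b) := by
  decide +kernel

noncomputable def e (i j : Fin 4) : Fin 4 →₀ ℕ := Finsupp.single i 1 + Finsupp.single j 1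

theorem e_inj (a b c d : Fin 4) (h : e a b = e c d) : Rl a b c d := by
  have : ∀ x, (if a = x then 1 else 0) + (if b = x then 1 else 0) =
      (if c = x then 1 else 0) + (if d = x then 1 else 0) := fun x => by
    simpa [e, Finsupp.single_apply] using DFunLike.congr_fun h x
  clear h
  revert a b c d
  decide +kernel

theorem e_map (σ : Fin 4 → Fin 4) (i j) : (e i j).mapDomain σ = e (σ i) (σ j) := by
  simp [e, Finsupp.mapDomain_add]

theorem e_ex (m : Fin 4 →₀ ℕ) (h : m.degree = 2) : ∃ i j, m = e i j := by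
  have : (Finsupp.toMultiset m).card = 2 := by rw [Finsupp.card_toMultiset]; exact h
  obtain ⟨i, j, hij⟩ := Multiset.card_eq_two.1 this
  have inj : ∀ a b : Fin 4 →₀ ℕ, Finsupp.toMultiset a = Finsupp.toMultiset b → a = b :=
    fun a b h => Finsupp.ext fun x => by rw [← Finsupp.count_toMultiset, h, Finsupp.count_toMultiset]
  refine ⟨i, j, inj _ _ ?_⟩
  rw [hij, e, map_add, Finsupp.toMultiset_single, Finsupp.toMultiset_single]
  rfl

theorem three (q : P k) (m₁ m₂ : Fin 4 →₀ ℕ) (h₁ : m₁.degree = 2) (h₂ : m₂.degree = 2)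
    (hq : coeff m₁ q ≠ 0) (hs : ∀ m, coeff m q ≠ 0 → m = m₁ ∨ m = m₂) :
    ∃ σ τ : Equiv.Perm (Fin 4), LinearIndependent k ![q, rename σ q, rename τ q] := by
  obtain ⟨i, j, rfl⟩ := e_ex m₁ h₁
  obtain ⟨a, b, rfl⟩ := e_ex m₂ h₂
  obtain ⟨x, y, z, w, r1, r2, r3, r4, r5, r6⟩ := comb i j a b
  refine ⟨Equiv.swap x y, Equiv.swap z w, ?_⟩
  generalize Equiv.swap x y = σ at *
  generalize Equiv.swap z w = τ at *
  have z1 : ∀ c d, ¬ Rl c d i j → ¬ Rl c d a b → coeff (e c d) q = 0 := by
    intro c d n1 n2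
    by_contra h
    rcases hs _ h with h | h
    · exact n1 (e_inj _ _ _ _ h)
    · exact n2 (e_inj _ _ _ _ h)
  have z2 : coeff (e (τ i) (τ j)) (rename σ q) = 0 := by
    apply coeff_rename_eq_zero
    intro m hm
    by_contra h
    rcases hs _ h with rfl | rfl
    · rw [e_map] at hm; exact r5 (e_inj _ _ _ _ hm.symm)
    · rw [e_map] at hm; exact r6 (e_inj _ _ _ _ hm.symm)
  have z3 : ∀ ρ : Equiv.Perm (Fin 4), coeff (e (ρ i) (ρ j)) (rename ρ q) = coeff (e i j) q :=
    fun ρ => by rw [← e_map, coeff_rename_mapDomain _ ρ.injective]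
  rw [Fintype.linearIndependent_iff]
  intro g hg
  simp only [Fin.sum_univ_three, Matrix.cons_val] at hg
  have g2 : g 2 = 0 := by
    have := congrArg (coeff (e (τ i) (τ j))) hg
    simpa [z1 _ _ r3 r4, z2, z3, hq] using this
  have g1 : g 1 = 0 := by
    have := congrArg (coeff (e (σ i) (σ j))) hg
    simpa [z1 _ _ r1 r2, g2, z3, hq] using this
  have g0 : g 0 = 0 := by
    have := congrArg (coeff (e i j)) hg
    simpa [g1, g2, hq] using this
  intro t
  fin_cases t
  exacts [g0, g1, g2]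

end Pool.Agent.H12.Specht
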