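import Mathlib

namespace Pool.Agent.H12.Stair

open MeasureTheory Filter Topology

variable {Ω : Type} [MeasurableSpace Ω] {P : Measure Ω} [IsProbabilityMeasure P]

theorem intg {S : Type} [MeasurableSpace S] [DiscreteMeasurableSpace S] {Y : Ω → S}
    (hY : Measurable Y) (f : S → ℝ) (B : ℝ) (hf : ∀ x, |f x| ≤ B) : Integrable (fun ω => f (Y ω)) P :=
  Integrable.of_bound ((Measurable.of_discrete (f := f)).comp hY).aestronglyMeasurable B
    (Eventually.of_forall fun _ => hf _)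

theorem trans {S : Type} [Countable S] [MeasurableSpace S] [MeasurableSingletonClass S]
    {Y Z : Ω → S} (hY : Measurable Y) (hZ : Measurable Z) (K : S → S → ℝ)
    (h : ∀ x y, P.real {ω | Y ω = x ∧ Z ω = y} = P.real {ω | Y ω = x} * K x y)
    (f g : S → ℝ) (B B' : ℝ) (hf : ∀ x, |f x| ≤ B) (hg : ∀ x, |g x| ≤ B')
    (hK : ∀ x, HasSum (fun y => K x y * f y) (g x)) :
    ∫ ω, f (Z ω) ∂P = ∫ ω, g (Y ω) ∂P := by
  have hm := hY.prodMk hZ
  let ν := P.map fun ω => (Y ω, Z ω)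
  have : IsProbabilityMeasure ν := Measure.isProbabilityMeasure_map hm.aemeasurable
  have : IsProbabilityMeasure (P.map Y) := Measure.isProbabilityMeasure_map hY.aemeasurable
  have e1 : ∫ ω, f (Z ω) ∂P = ∫ z, f z.2 ∂ν :=
    (integral_map hm.aemeasurable (f := fun z : S × S => f z.2)
      Measurable.of_discrete.aestronglyMeasurable).symm
  have e2 : ∫ ω, g (Y ω) ∂P = ∫ z, g z ∂(P.map Y) :=
    (integral_map hY.aemeasurable Measurable.of_discrete.aestronglyMeasurable).symm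
  have s1 : Summable fun z => ν.real {z} := by
    refine ENNReal.summable_toReal ?_
    rw [← measure_iUnion (fun a b e => by simpa using e) fun _ => MeasurableSet.singleton _]
    exact measure_ne_top _ _
  have s2 : Summable fun z : S × S => ν.real {z} • f z.2 :=
    Summable.of_norm_bounded (s1.mul_right B) fun z => by
      rw [norm_smul, Real.norm_of_nonneg measureReal_nonneg]
      exact mul_le_mul_of_nonneg_left (hf _) measureReal_nonneg
  rw [e1, e2, integral_countable (μ := ν) (f := fun z : S × S => f z.2)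
      (intg measurable_id (fun z : S × S => f z.2) B fun _ => hf _),
    integral_countable (μ := P.map Y) (f := g) (intg measurable_id g B' hg), s2.tsum_prod]
  refine tsum_congr fun x => ?_
  have e3 : ∀ y, ν.real {(x, y)} = (P.map Y).real {x} * K x y := fun y => by
    rw [map_measureReal_apply hm (MeasurableSet.singleton _),
      map_measureReal_apply hY (MeasurableSet.singleton _)]
    convert h x y using 2
    · ext; simp
    · rfl
  simp only [e3, smul_eq_mul, mul_assoc]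
  exact ((hK x).mul_left _).tsum_eq

structure Ly (V : ℕ × ℕ → ℝ) (T G : ℕ → ℝ) : Prop where
  tp : ∀ j, 0 < T j
  ta : Antitone T
  tl : Tendsto T atTop (𝓝 0)
  gp : ∀ j, 0 < G j
  ga : Antitone G
  lo : ∀ x, T (x.2 + 1) ≤ V x
  hi : ∀ x, V x ≤ T x.2

theorem Ly.bV {V T G} (h : Ly V T G) (x) : |V x| ≤ T 0 := by
  rw [abs_of_pos ((h.tp _).trans_le (h.lo x))]
  exact (h.hi x).trans (h.ta (Nat.zero_le _))

theorem Ly.bG {V T G} (h : Ly V T G) (j) : |G j| ≤ G 0 := by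
  rw [abs_of_pos (h.gp _)]
  exact h.ga (Nat.zero_le _)

theorem cmp {T U : ℕ → ℝ} (tp : ∀ j, 0 < T j) (ta : Antitone T) (tl : Tendsto T atTop (𝓝 0))
    (up : ∀ j, 0 < U j) (ua : Antitone U) {ε : ℝ} (hε : 0 < ε) :
    ∃ C, 0 < C ∧ ∀ j, T j ≤ ε + C * U j := by
  obtain ⟨M, hM⟩ := (tl.eventually (gt_mem_nhds hε)).exists
  refine ⟨T 0 / U M, div_pos (tp _) (up _), fun j => ?_⟩
  rcases le_total j M with h | h
  · have h1 : T 0 / U M * U M ≤ T 0 / U M * U j :=
      mul_le_mul_of_nonneg_left (ua h) (div_pos (tp _) (up _)).le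
    rw [div_mul_cancel₀ _ (up M).ne'] at h1
    linarith [ta (Nat.zero_le j)]
  · linarith [ta h, mul_pos (div_pos (tp 0) (up M)) (up j)]

theorem tele (e γ : ℕ → ℝ) (N : ℕ) (h : ∀ t < N, e (t + 1) ≤ e t - γ t) :
    ∑ t ∈ Finset.range N, γ t ≤ e 0 - e N := by
  induction N with
  | zero => simp
  | succ N ih =>
    rw [Finset.sum_range_succ]
    linarith [ih fun t ht => h t (by omega), h N (by omega)]

theorem stage {V T G V' T' G'} (h : Ly V T G) (h' : Ly V' T' G') {ε : ℝ} (hε : 0 < ε) :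
    ∃ N, 0 < N ∧ ∀ (Ω : Type) [MeasurableSpace Ω] (P : Measure Ω) [IsProbabilityMeasure P]
      (Y : ℕ → Ω → ℕ × ℕ), (∀ t, Measurable (Y t)) →
      (∀ t < N, ∫ ω, V (Y (t + 1) ω) ∂P ≤ ∫ ω, V (Y t ω) ∂P - ∫ ω, G (Y t ω).2 ∂P) →
      ∫ ω, V' (Y N ω) ∂P ≤ ε := by
  obtain ⟨C, c0, hC⟩ := cmp h'.tp h'.ta h'.tl (U := fun j => T (j + 1)) (fun _ => h.tp _)
    (fun a b e => h.ta (by omega)) (half_pos hε)
  have hη : 0 < ε / (4 * C) := by positivity
  obtain ⟨D, d0, hD⟩ := cmp h.tp h.ta h.tl h.gp h.ga hη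
  obtain ⟨N, hN⟩ := exists_nat_gt (D * T 0 / (ε / (4 * C)))
  have N0 : (0 : ℝ) < N := lt_trans (by have := h.tp 0; positivity) hN
  refine ⟨N, by exact_mod_cast N0, fun Ω _ P _ Y hY hs => ?_⟩
  have iV : ∀ t, Integrable (fun ω => V (Y t ω)) P := fun t => intg (hY t) V _ h.bV
  have iG : ∀ t, Integrable (fun ω => G (Y t ω).2) P := fun t =>
    intg (hY t) (fun x => G x.2) _ fun x => h.bG x.2
  have g0 : ∀ t, 0 ≤ ∫ ω, G (Y t ω).2 ∂P := fun t => integral_nonneg fun ω => (h.gp _).le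
  have lin : ∀ (a b : ℝ) (f : Ω → ℝ), Integrable f P → ∫ ω, (a + b * f ω) ∂P = a + b * ∫ ω, f ω ∂P :=
    fun a b f hf => by rw [integral_add (integrable_const _) (hf.const_mul _), integral_const_mul]; simp
  have m1 : ∀ k, k ≤ N → ∀ t ≤ k, ∫ ω, V (Y k ω) ∂P ≤ ∫ ω, V (Y t ω) ∂P := by
    intro k hk t ht
    induction k, ht using Nat.le_induction with
    | base => exact le_rfl
    | succ k _ ih => linarith [ih (by omega), hs k (by omega), g0 k]
  have m2 : ∀ t ∈ Finset.range N, ∫ ω, V (Y N ω) ∂P ≤ ε / (4 * C) + D * ∫ ω, G (Y t ω).2 ∂P := by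
    intro t ht
    refine (m1 N le_rfl t (Finset.mem_range.1 ht).le).trans ?_
    rw [← lin _ _ _ (iG t)]
    exact integral_mono (iV t) ((integrable_const _).add ((iG t).const_mul _))
      fun ω => (h.hi _).trans (hD _)
  have m3 := Finset.sum_le_sum m2
  have m4 := tele (fun t => ∫ ω, V (Y t ω) ∂P) (fun t => ∫ ω, G (Y t ω).2 ∂P) N hs
  rw [Finset.sum_add_distrib, ← Finset.mul_sum] at m3
  simp only [Finset.sum_const, Finset.card_range, nsmul_eq_mul] at m3
  have m5 : ∫ ω, V (Y 0 ω) ∂P ≤ T 0 := by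
    have := integral_mono (iV 0) (integrable_const (T 0)) fun ω => (le_abs_self _).trans (h.bV _)
    simpa using this
  have m6 : 0 ≤ ∫ ω, V (Y N ω) ∂P := integral_nonneg fun ω => ((h.tp _).trans_le (h.lo _)).le
  have m7 : ∫ ω, V' (Y N ω) ∂P ≤ ε / 2 + C * ∫ ω, V (Y N ω) ∂P := by
    rw [← lin _ _ _ (iV N)]
    exact integral_mono (intg (hY N) V' _ h'.bV) ((integrable_const _).add ((iV N).const_mul _))
      fun ω => (h'.hi _).trans ((hC _).trans (by
        have := mul_le_mul_of_nonneg_left (h.lo (Y N ω)) c0.le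
        linarith))
  rw [div_lt_iff₀ hη] at hN
  have m8 : ∫ ω, V (Y N ω) ∂P ≤ 2 * (ε / (4 * C)) := by
    refine le_of_mul_le_mul_left ?_ N0
    nlinarith [mul_le_mul_of_nonneg_left m4 d0.le]
  have m9 : C * (2 * (ε / (4 * C))) = ε / 2 := by field_simp; ring
  nlinarith [mul_le_mul_of_nonneg_left m8 c0.le]

theorem visits {V T G} (h : Ly V T G) (N n : ℕ) (Y : ℕ → Ω → ℕ × ℕ) (hY : ∀ t, Measurable (Y t))
    (hs : ∀ t < N, ∫ ω, V (Y (t + 1) ω) ∂P ≤ ∫ ω, V (Y t ω) ∂P - ∫ ω, G (Y t ω).2 ∂P) :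
    G n * P.real (⋃ t ∈ Finset.range N, {ω | (Y t ω).2 ≤ n}) ≤ ∫ ω, V (Y 0 ω) ∂P := by
  have m4 := tele (fun t => ∫ ω, V (Y t ω) ∂P) (fun t => ∫ ω, G (Y t ω).2 ∂P) N hs
  have m6 : 0 ≤ ∫ ω, V (Y N ω) ∂P := integral_nonneg fun ω => ((h.tp _).trans_le (h.lo _)).le
  refine (mul_le_mul_of_nonneg_left (measureReal_biUnion_finset_le _ _) (h.gp n).le).trans ?_
  rw [Finset.mul_sum]
  refine (Finset.sum_le_sum fun t _ => ?_).trans (m4.trans (by linarith))
  refine le_trans (mul_le_mul_of_nonneg_left (measureReal_mono fun ω hω => ?_) (h.gp n).le)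
    (mul_meas_ge_le_integral_of_nonneg (Eventually.of_forall fun ω => (h.gp _).le)
      (intg (hY t) (fun x => G x.2) _ fun x => h.bG x.2) (G n))
  exact h.ga hω

theorem final (V : ℕ → ℕ × ℕ → ℝ) (T G : ℕ → ℕ → ℝ) (h : ∀ n, Ly (V n) (T n) (G n)) :
    ∃ idx : ℕ → ℕ, Monotone idx ∧ Tendsto idx atTop atTop ∧
      ∀ (Ω : Type) [MeasurableSpace Ω] (P : Measure Ω) [IsProbabilityMeasure P]
      (X : ℕ → Ω → ℕ × ℕ), (∀ t, Measurable (X t)) →
      (∀ t, ∫ ω, V (idx t) (X (t + 1) ω) ∂P ≤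
        ∫ ω, V (idx t) (X t ω) ∂P - ∫ ω, G (idx t) (X t ω).2 ∂P) →
      ∀ᵐ ω ∂P, Tendsto (fun t => (X t ω).2) atTop atTop := by
  choose N N0 hN using fun n => stage (h n) (h (n + 1))
    (ε := G (n + 1) (n + 1) * (1 / 2) ^ n) (mul_pos ((h _).gp _) (by positivity))
  let s : ℕ → ℕ := fun n => ∑ k ∈ Finset.range n, N k
  have s1 : ∀ n, s (n + 1) = s n + N n := fun n => Finset.sum_range_succ _ _
  have s2 : StrictMono s := strictMono_nat_of_lt_succ fun n => by have := N0 n; rw [s1]; omega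
  have ex : ∀ t, ∃ n, t < s (n + 1) := fun t => ⟨t, s2.le_apply⟩
  let idx : ℕ → ℕ := fun t => Nat.find (ex t)
  have i1 : ∀ t, t < s (idx t + 1) := fun t => Nat.find_spec (ex t)
  have i2 : ∀ t n, s n ≤ t → n ≤ idx t := fun t n e =>
    Nat.lt_succ_iff.1 (s2.lt_iff_lt.1 (e.trans_lt (i1 t)))
  have i3 : ∀ t, s (idx t) ≤ t := fun t => by
    rcases e : idx t with _ | k
    · exact Nat.zero_le _
    · exact not_lt.1 (Nat.find_min (ex t) (show k < idx t by omega))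
  have i4 : ∀ n t, t < N n → idx (s n + t) = n := fun n t e =>
    le_antisymm (Nat.find_min' _ (by rw [s1]; omega)) (i2 _ _ (by omega))
  refine ⟨idx, fun a b e => i2 _ _ ((i3 a).trans e),
    tendsto_atTop_atTop.2 fun n => ⟨s n, fun t e => i2 t n e⟩, fun Ω _ P _ X hX hs => ?_⟩
  have hs' : ∀ n, ∀ t < N n, ∫ ω, V n (X (s n + (t + 1)) ω) ∂P ≤
      ∫ ω, V n (X (s n + t) ω) ∂P - ∫ ω, G n (X (s n + t) ω).2 ∂P := fun n t e => by
    have := hs (s n + t)
    rwa [i4 n t e] at this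
  let A : ℕ → Set Ω := fun n => ⋃ t ∈ Finset.range (N (n + 1)), {ω | (X (s (n + 1) + t) ω).2 ≤ n + 1}
  have hA : ∀ n, P (A n) ≤ ENNReal.ofReal ((1 / 2) ^ n) := fun n => by
    have h1 := visits (P := P) (h (n + 1)) (N (n + 1)) (n + 1) (fun t => X (s (n + 1) + t))
      (fun _ => hX _) (hs' (n + 1))
    have h2 := hN n Ω P (fun t => X (s n + t)) (fun _ => hX _) (hs' n)
    rw [← s1] at h2
    rw [← ofReal_measureReal (measure_ne_top P (A n))]
    exact ENNReal.ofReal_le_ofReal (le_of_mul_le_mul_left (h1.trans h2) ((h _).gp _))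
  have hB : ∑' n, P (A n) ≠ ⊤ := by
    refine ne_top_of_le_ne_top ?_ (ENNReal.tsum_le_tsum hA)
    rw [← ENNReal.ofReal_tsum_of_nonneg (fun n => by positivity) summable_geometric_two]
    exact ENNReal.ofReal_ne_top
  filter_upwards [ae_eventually_notMem hB] with ω hω
  obtain ⟨M, hM⟩ := eventually_atTop.1 hω
  refine tendsto_atTop_atTop.2 fun b => ⟨s (M + b + 1), fun t ht => ?_⟩
  have j1 := i2 t _ ht
  obtain ⟨k, hk⟩ : ∃ k, idx t = k + 1 := ⟨idx t - 1, by omega⟩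
  have j2 := i1 t
  have j3 := i3 t
  rw [hk] at j2 j3
  rw [s1] at j2
  have := hM k (by omega)
  simp only [A, Set.mem_iUnion, not_exists, Set.mem_ofPred_eq] at this
  have := this (t - s (k + 1)) (Finset.mem_range.2 (by omega))
  rw [show s (k + 1) + (t - s (k + 1)) = t by omega] at this
  omega

theorem lyap (b : ℝ) (b0 : 0 < b) (b1 : b < 1 / 2) : ∃ V T G, Ly V T G ∧ ∀ j : ℕ, 1 ≤ j →
    ((1 / 2 - b) * ((j : ℝ) ^ 2 / ((j : ℝ) ^ 2 + ((j : ℝ) - 1) ^ 2)) * (V (j, j - 1) - V (j, j)) * (if j = 1 then 0 else 1)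
      + G j ≤ (1 / 2 + b) / 2 * (V (j, j) - V (j + 1, j))) ∧
    ((1 / 2 - b) / 2 * (V (j, j) - V (j + 1, j)) + G j ≤
      (1 / 2 + b) * ((j : ℝ) ^ 2 / ((j : ℝ) ^ 2 + ((j : ℝ) + 1) ^ 2)) * (V (j + 1, j) - V (j + 1, j + 1))) := by
  set γ := 1 - b with hγ
  have γ0 : 0 < γ := by linarith
  have γ1 : γ < 1 := by linarith
  let D1 : ℕ → ℝ := fun j => (γ ^ 2) ^ j * j ^ 2
  let D2 : ℕ → ℝ := fun j => γ * (γ ^ 2) ^ j * (j ^ 2 + (j + 1) ^ 2) / 2
  have q1 : ‖γ ^ 2‖ < 1 := by rw [Real.norm_of_nonneg (by positivity)]; nlinarith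
  have sm : Summable fun j => D1 j + D2 j := by
    refine ((((summable_pow_mul_geometric_of_norm_lt_one 2 q1).mul_left (1 + γ)).add
      ((summable_pow_mul_geometric_of_norm_lt_one 1 q1).mul_left γ)).add
      ((summable_pow_mul_geometric_of_norm_lt_one 0 q1).mul_left (γ / 2))).congr fun j => ?_
    simp only [D1, D2]; ring
  have d1 : ∀ j, 0 ≤ D1 j := fun j => by positivity
  have d2 : ∀ j, 0 < D2 j := fun j => by positivity
  let T : ℕ → ℝ := fun j => ∑' k, (D1 (k + j) + D2 (k + j))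
  have t1 : ∀ j, T j = D1 j + D2 j + T (j + 1) := fun j => by
    simp only [T]
    rw [((summable_nat_add_iff j).2 sm).tsum_eq_zero_add]
    simp only [zero_add, add_assoc, add_comm 1 j]
  have t0 : ∀ j, 0 ≤ T j := fun j => tsum_nonneg fun k => add_nonneg (d1 _) (d2 _).le
  have c0 : 0 < (1 / 2 + b) * γ - (1 / 2 - b) := by rw [hγ]; nlinarith
  refine ⟨fun x => if x.1 = x.2 then T x.2 else T x.2 - D1 x.2, T,
    fun j => ((1 / 2 + b) * γ - (1 / 2 - b)) * (γ ^ 2) ^ j / 2,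
    ⟨fun j => by linarith [t1 j, d1 j, d2 j, t0 (j + 1)],
      antitone_nat_of_succ_le fun j => by linarith [t1 j, d1 j, d2 j],
      _root_.tendsto_sum_nat_add fun j => D1 j + D2 j, fun j => by positivity,
      fun i j e => ?_, fun x => ?_, fun x => ?_⟩, fun j hj => ⟨?_, ?_⟩⟩
  · have := pow_le_pow_of_le_one (a := γ ^ 2) (by positivity) (by nlinarith) e
    exact div_le_div_of_nonneg_right (mul_le_mul_of_nonneg_left this c0.le) (by norm_num)
  · split_ifs <;> linarith [t1 x.2, d1 x.2, d2 x.2]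
  · split_ifs <;> linarith [d1 x.2]
  · obtain ⟨k, rfl⟩ : ∃ k, j = k + 1 := ⟨j - 1, by omega⟩
    simp only [Nat.add_sub_cancel, if_true, Nat.add_eq_left, one_ne_zero, if_false]
    have e1 : T k - D1 k - T (k + 1) = D2 k := by linarith [t1 k]
    rw [e1, sub_sub_cancel]
    have e2 : (1 / 2 - b) * (((k + 1 : ℕ) : ℝ) ^ 2 / (((k + 1 : ℕ) : ℝ) ^ 2 + (((k + 1 : ℕ) : ℝ) - 1) ^ 2)) *
        D2 k = (1 / 2 - b) * γ * (γ ^ 2) ^ k * (k + 1) ^ 2 / 2 := by
      simp only [D2]; push_cast; field_simp; ring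
    rw [e2]
    simp only [D1]
    push_cast
    have p1 : (0 : ℝ) < (γ ^ 2) ^ k := by positivity
    have p2 : (1 : ℝ) ≤ (k + 1) ^ 2 := by nlinarith [Nat.cast_nonneg (α := ℝ) k]
    have p3 : γ ≤ (k + 1) ^ 2 := by linarith
    have p4 := mul_le_mul_of_nonneg_left p3 (mul_pos (mul_pos c0 p1) γ0).le
    have p5 : 0 ≤ (1 / 2 - b) * γ * (γ ^ 2) ^ k * (k + 1) ^ 2 / 2 := by
      have : 0 < 1 / 2 - b := by linarith
      positivity
    rw [pow_succ (γ ^ 2) k]
    split_ifs <;> nlinarith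
  · simp only [if_true, Nat.add_eq_left, one_ne_zero, if_false]
    have e1 : T j - D1 j - T (j + 1) = D2 j := by linarith [t1 j]
    rw [e1, sub_sub_cancel]
    have e2 : (1 / 2 + b) * ((j : ℝ) ^ 2 / ((j : ℝ) ^ 2 + ((j : ℝ) + 1) ^ 2)) * D2 j =
        (1 / 2 + b) * γ * (γ ^ 2) ^ j * j ^ 2 / 2 := by
      simp only [D2]; field_simp
    rw [e2]
    simp only [D1]
    have p1 : (0 : ℝ) < (γ ^ 2) ^ j := by positivity
    have p2 : (1 : ℝ) ≤ (j : ℝ) ^ 2 := by
      have : (1 : ℝ) ≤ j := by exact_mod_cast hj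
      nlinarith
    have p4 := mul_le_mul_of_nonneg_left p2 (mul_pos c0 p1).le
    nlinarith

end Pool.Agent.H12.Stair
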