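import Mathlib

/-! Height functions, oscillations and the multiscale inequality for the golden Sturmian system. -/

open Finset

namespace Pool.Agent.H12.Sturm

noncomputable def α : ℝ := (√5 - 1) / 2

lemma α_sq : α ^ 2 = 1 - α := by
  have := Real.sq_sqrt (show (0 : ℝ) ≤ 5 by norm_num)
  unfold α; nlinarith

lemma α_ge : 1 / 2 ≤ α := by
  have : (2 : ℝ) ≤ √5 := Real.le_sqrt_of_sq_le (by norm_num)
  unfold α; linarith

lemma α_pos : 0 < α := by linarith [α_ge]

lemma α_lt : α < 1 := by nlinarith [α_sq, α_pos]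

lemma α_irr : Irrational α := by
  have : Irrational √((5 : ℕ) : ℝ) := Nat.Prime.irrational_sqrt (by norm_num)
  have h := (this.sub_natCast 1).div_natCast (m := 2) (by norm_num)
  simpa [α] using h

lemma α_pow (m : ℕ) : ∃ a b : ℤ, α ^ m = a + b * α ∧ |a| ≤ 2 ^ m ∧ |b| ≤ 2 ^ m := by
  induction m with
  | zero => exact ⟨1, 0, by simp, by simp, by simp⟩
  | succ m ih =>
    obtain ⟨a, b, e, h1, h2⟩ := ih
    refine ⟨b, a - b, ?_, by rw [pow_succ]; linarith [abs_nonneg b], ?_⟩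
    · rw [pow_succ, e]; push_cast; linear_combination b * α_sq
    · rw [pow_succ]; linarith [abs_sub a b]

/-- a height function -/
def Ht (h : ℤ → ℝ) : Prop := ∀ a b : ℤ, ∃ k : ℤ, h a - h b = k - (a - b) * α

lemma osc_lower {h : ℤ → ℝ} (H : Ht h) (m : ℕ) (c : ℤ) :
    ∃ u ∈ Icc (c - 4 ^ m) (c + 4 ^ m), ∃ v ∈ Icc (c - 4 ^ m) (c + 4 ^ m), 1 - α ^ m ≤ h u - h v := by
  by_contra hc
  push Not at hc
  obtain ⟨a, b, e, -, hb⟩ := α_pow m
  have hδ : 0 < α ^ m := pow_pos α_pos m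
  have mem : ∀ j : ℕ, j ≤ 2 ^ m → c + j * b ∈ Icc (c - 4 ^ m) (c + 4 ^ m) := fun j hj => by
    have h1 : (j : ℤ) ≤ 2 ^ m := by exact_mod_cast hj
    have h2 : |j * b| ≤ 2 ^ m * 2 ^ m := by
      rw [abs_mul, Nat.abs_cast]; gcongr
    rw [← mul_pow, abs_le] at h2
    norm_num at h2
    rw [mem_Icc]; constructor <;> linarith [h2.1, h2.2]
  have key : ∀ j : ℕ, j ≤ 2 ^ m → h (c + j * b) = h c - j * α ^ m := by
    intro j
    induction j with
    | zero => simp
    | succ j ih =>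
      intro hj
      have h1 := hc _ (mem _ hj) _ (mem j (by omega))
      have h2 := hc _ (mem j (by omega)) _ (mem _ hj)
      obtain ⟨k, hk⟩ := H (c + (j + 1 : ℕ) * b) (c + j * b)
      have h3 : h (c + (j + 1 : ℕ) * b) - h (c + j * b) = (k + a : ℤ) - α ^ m := by
        rw [hk, e]; push_cast; ring
      have h4 : ((k + a : ℤ) : ℝ) < 1 := by linarith
      have h5 : (-1 : ℝ) < (k + a : ℤ) := by linarith
      have h6 : k + a = 0 := by
        have : k + a < 1 := by exact_mod_cast h4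
        have : -1 < k + a := by exact_mod_cast h5
        omega
      rw [h6] at h3
      have := ih (by omega)
      push_cast at h3 ⊢
      linarith
  have h1 := hc _ (mem 0 (by positivity)) _ (mem _ le_rfl)
  rw [key _ le_rfl, key 0 (by positivity)] at h1
  have h2 : (1 : ℝ) ≤ (2 * α) ^ m := one_le_pow₀ (by linarith [α_ge])
  rw [mul_pow] at h2
  push_cast at h1
  linarith

lemma ne_aux (i : ℤ) (L : ℕ) : (Icc i (i + L) ×ˢ Icc i (i + L)).Nonempty :=
  ⟨(i, i), by simp⟩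

noncomputable def osc (h : ℤ → ℝ) (i : ℤ) (L : ℕ) : ℝ :=
  (Icc i (i + L) ×ˢ Icc i (i + L)).sup' (ne_aux i L) fun p => h p.1 - h p.2

lemma le_osc (h : ℤ → ℝ) {i : ℤ} {L : ℕ} {a b : ℤ} (ha : a ∈ Icc i (i + L)) (hb : b ∈ Icc i (i + L)) :
    h a - h b ≤ osc h i L :=
  le_sup' (fun p : ℤ × ℤ => h p.1 - h p.2) (b := (a, b)) (mem_product.mpr ⟨ha, hb⟩)

lemma osc_eq (h : ℤ → ℝ) (i : ℤ) (L : ℕ) :
    ∃ a ∈ Icc i (i + L), ∃ b ∈ Icc i (i + L), osc h i L = h a - h b := by
  obtain ⟨p, hp, e⟩ := exists_mem_eq_sup' (ne_aux i L) fun p : ℤ × ℤ => h p.1 - h p.2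
  exact ⟨p.1, (mem_product.mp hp).1, p.2, (mem_product.mp hp).2, e⟩

lemma osc_union {h : ℤ → ℝ} (H : Ht h) (m : ℕ) (i : ℤ) (A B s : ℕ) (h1 : s + 2 * 4 ^ m ≤ A)
    (h2 : 2 * 4 ^ m ≤ B) (h3 : A ≤ s + B) :
    osc h i (s + B) - 1 ≤ (osc h i A - 1) + (osc h (i + s) B - 1) + α ^ m := by
  obtain ⟨u, hu, v, hv, e⟩ := osc_lower H m (i + s + 4 ^ m)
  have h1' : (s : ℤ) + 2 * 4 ^ m ≤ A := by exact_mod_cast h1
  have h2' : (2 : ℤ) * 4 ^ m ≤ B := by exact_mod_cast h2
  have h4 : (0 : ℤ) ≤ 4 ^ m := by positivity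
  rw [mem_Icc] at hu hv
  have u1 : u ∈ Icc i (i + A) := mem_Icc.mpr ⟨by omega, by omega⟩
  have v1 : v ∈ Icc i (i + A) := mem_Icc.mpr ⟨by omega, by omega⟩
  have u2 : u ∈ Icc (i + s) (i + s + B) := mem_Icc.mpr ⟨by omega, by omega⟩
  have v2 : v ∈ Icc (i + s) (i + s + B) := mem_Icc.mpr ⟨by omega, by omega⟩
  have sp : ∀ a ∈ Icc i (i + (s + B : ℕ)), a ∈ Icc i (i + A) ∨ a ∈ Icc (i + s) (i + s + B) := by
    intro a ha
    simp only [mem_Icc] at ha ⊢
    push_cast at ha
    omega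
  obtain ⟨a, ha, b, hb, e2⟩ := osc_eq h i (s + B)
  rw [e2]
  rcases sp a ha with ha | ha <;> rcases sp b hb with hb | hb
  · linarith [le_osc h ha hb, le_osc h u2 v2]
  · linarith [le_osc h ha v1, le_osc h u2 hb]
  · linarith [le_osc h ha v2, le_osc h u1 hb]
  · linarith [le_osc h ha hb, le_osc h u1 v1]

/-- window lengths -/
def L (m : ℕ) : ℕ := 5 ^ m + 8 * 4 ^ m
/-- steps -/
def st (m : ℕ) : ℕ := 5 ^ m + 6 * 4 ^ m

noncomputable def ex (h : ℤ → ℝ) (m : ℕ) (i : ℤ) : ℝ := max (osc h i (L m) - 1) 0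

open Classical in
noncomputable def bd (h : ℤ → ℝ) (m : ℕ) (i : ℤ) : ℝ := if 1 ≤ osc h i (L m) then 1 else 0

lemma osc_chain {h : ℤ → ℝ} (H : Ht h) (m : ℕ) (i : ℤ) (k : ℕ) :
    osc h i (k * st m + L m) - 1 ≤ ∑ j ∈ range (k + 1), ex h m (i + (j * st m : ℕ)) + k * α ^ m := by
  induction k with
  | zero => simp [ex]
  | succ k ih =>
    have := osc_union H m i (k * st m + L m) (L m) ((k + 1) * st m)
      (by unfold L st; nlinarith) (by unfold L; nlinarith [Nat.zero_le (5 ^ m), Nat.zero_le (4 ^ m)]) (by nlinarith)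
    rw [sum_range_succ]
    have h2 : osc h (i + ((k + 1) * st m : ℕ)) (L m) - 1 ≤ ex h m (i + ((k + 1) * st m : ℕ)) :=
      le_max_left _ _
    push_cast at *
    linarith

lemma ex_nonneg (h : ℤ → ℝ) (m : ℕ) (i : ℤ) : 0 ≤ ex h m i := le_max_right _ _

lemma ex_succ {h : ℤ → ℝ} (H : Ht h) (m : ℕ) (i : ℤ) :
    ex h (m + 1) i ≤ ∑ j ∈ range 5, ex h m (i + (j * st m : ℕ)) + 4 * α ^ m * bd h (m + 1) i := by
  have h0 : 0 ≤ ∑ j ∈ range 5, ex h m (i + (j * st m : ℕ)) := sum_nonneg fun _ _ => ex_nonneg _ _ _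
  have e : L (m + 1) = 4 * st m + L m := by unfold L st; ring
  have := osc_chain H m i 4
  rw [← e] at this
  have hδ : 0 < α ^ m := pow_pos α_pos m
  unfold bd
  split_ifs with hb
  · refine max_le ?_ (by positivity)
    push_cast at this ⊢; linarith
  · rw [ex, max_eq_right (by linarith)]; linarith

/-- couplings -/
noncomputable def J (m : ℕ) : ℝ := 9 * (α / 5) ^ m

lemma J_pos (m : ℕ) : 0 < J m := by have := α_pos; unfold J; positivity

lemma multiscale {h : ℤ → ℝ} (H : Ht h) (h1 : ∀ a b : ℤ, h a - h b ≤ |a - b|)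
    (hf : ∀ m, {i | 1 ≤ osc h i (L m)}.Finite) (M : ℕ) :
    ∑' i, ex h M i ≤ 5 ^ M * ∑ m ∈ range (M + 1), J m * ∑' i, bd h m i := by
  have s1 : ∀ m, Summable (ex h m) := fun m => summable_of_hasFiniteSupport
    ((hf m).subset fun i hi => by
      by_contra h'
      exact hi (max_eq_right (by linarith [not_le.mp (show ¬ 1 ≤ osc h i (L m) from h')])))
  have s2 : ∀ m, Summable (bd h m) := fun m => summable_of_hasFiniteSupport
    ((hf m).subset fun i hi => by
      by_contra h'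
      exact hi (if_neg h'))
  induction M with
  | zero =>
    simp only [pow_zero, one_mul, zero_add, range_one, sum_singleton, ← tsum_mul_left]
    refine (s1 0).tsum_le_tsum (fun i => ?_) ((s2 0).mul_left _)
    unfold bd ex J
    split_ifs with hb
    · refine max_le ?_ (by norm_num)
      obtain ⟨a, ha, b, hb, e⟩ := osc_eq h i (L 0)
      rw [mem_Icc] at ha hb
      have h2 : |a - b| ≤ 9 := by
        simp only [L, pow_zero] at ha hb
        rw [abs_le]; omega
      have h3 : |(a : ℝ) - b| ≤ 9 := by exact_mod_cast h2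
      have := h1 a b
      push_cast at this
      simp only [pow_zero]
      linarith
    · rw [max_eq_right (by linarith)]; simp
  | succ M ih =>
    have s3 : ∀ j : ℕ, Summable fun i => ex h M (i + (j * st M : ℕ)) := fun j =>
      (Equiv.addRight ((j * st M : ℕ) : ℤ)).summable_iff.mpr (s1 M)
    have h2 := (s1 (M + 1)).tsum_le_tsum (ex_succ H M)
      ((summable_sum fun j _ => s3 j).add ((s2 _).mul_left _))
    rw [(summable_sum fun j _ => s3 j).tsum_add ((s2 _).mul_left _), tsum_mul_left,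
      Summable.tsum_finsetSum fun j _ => s3 j] at h2
    have h3 : ∀ j : ℕ, ∑' i, ex h M (i + (j * st M : ℕ)) = ∑' i, ex h M i := fun j =>
      (Equiv.addRight ((j * st M : ℕ) : ℤ)).tsum_eq (ex h M)
    simp only [h3, sum_const, card_range, nsmul_eq_mul] at h2
    rw [sum_range_succ _ (M + 1), mul_add]
    have h4 : 0 ≤ ∑' i, bd h (M + 1) i := tsum_nonneg fun i => by unfold bd; split_ifs <;> simp
    have h5 : 4 * α ^ M ≤ 5 ^ (M + 1) * J (M + 1) := by
      have hδ : 0 < α ^ M := pow_pos α_pos M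
      have : 5 ^ (M + 1) * J (M + 1) = 9 * α * α ^ M := by unfold J; rw [div_pow]; field_simp; ring
      rw [this]; nlinarith [α_ge]
    have h6 := mul_le_mul_of_nonneg_right h5 h4
    push_cast at h2
    rw [pow_succ] at h6 ⊢
    nlinarith

/-- lower bound for a height function which jumps by `d` across a bounded region -/
lemma jump {h g : ℤ → ℝ} (H : Ht h) (G : Ht g) (h1 : ∀ a b : ℤ, h a - h b ≤ |a - b|)
    (hf : ∀ m, {i | 1 ≤ osc h i (L m)}.Finite) (hg : ∀ a b, g a - g b < 1) (K : ℕ) (c d : ℝ)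
    (hl : ∀ a ≤ -(K : ℤ), h a = g a + c) (hr : ∀ a ≥ (K : ℤ), h a = g a + c + d) {E : ℝ}
    (hE : ∀ M, ∑ m ∈ range M, J m * ∑' i, bd h m i ≤ E) : |d| ≤ E := by
  have s1 : ∀ m, Summable (ex h m) := fun m => summable_of_hasFiniteSupport
    ((hf m).subset fun i hi => by
      by_contra h'
      exact hi (max_eq_right (by linarith [not_le.mp (show ¬ 1 ≤ osc h i (L m) from h')])))
  have key : ∀ n : ℕ, |d| - 2 * α ^ n ≤ E := fun n => by
    obtain ⟨u, hu, v, hv, e⟩ := osc_lower G n (-K - 4 ^ n)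
    obtain ⟨u', hu', v', hv', e'⟩ := osc_lower G n (K + 4 ^ n)
    rw [mem_Icc] at hu hv hu' hv'
    set K' : ℕ := K + 2 * 4 ^ n with hK'
    have hK2 : (K' : ℤ) = K + 2 * 4 ^ n := by rw [hK']; push_cast; ring
    have hM : (K' : ℤ) ≤ 4 ^ K' := by exact_mod_cast (Nat.lt_pow_self (by norm_num)).le
    have hL : (L K' : ℤ) = 5 ^ K' + 8 * 4 ^ K' := by unfold L; push_cast; ring
    have h2 : ∀ i ∈ Ico (-(K' : ℤ) - 5 ^ K') (-K'), |d| - 2 * α ^ n ≤ ex h K' i := fun i hi => by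
      rw [mem_Ico] at hi
      refine le_trans ?_ (le_max_left _ _)
      have m1 : u ∈ Icc i (i + L K') := mem_Icc.mpr ⟨by omega, by omega⟩
      have m2 : v ∈ Icc i (i + L K') := mem_Icc.mpr ⟨by omega, by omega⟩
      have m3 : u' ∈ Icc i (i + L K') := mem_Icc.mpr ⟨by omega, by omega⟩
      have m4 : v' ∈ Icc i (i + L K') := mem_Icc.mpr ⟨by omega, by omega⟩
      have a1 := le_osc h m3 m2
      have a2 := le_osc h m1 m4
      rw [hr u' (by omega), hl v (by omega)] at a1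
      rw [hr v' (by omega), hl u (by omega)] at a2
      have := hg u v'
      have := hg u' v
      have : |d| ≤ osc h i (L K') - 1 + 2 * α ^ n := abs_le.mpr ⟨by linarith, by linarith⟩
      linarith
    have h3 := card_nsmul_le_sum _ _ _ h2
    have h4 := (s1 K').sum_le_tsum (Ico (-(K' : ℤ) - 5 ^ K') (-K')) fun i _ => ex_nonneg h K' i
    have h5 := multiscale H h1 hf K'
    have h6 : ((Ico (-(K' : ℤ) - 5 ^ K') (-K')).card : ℝ) = 5 ^ K' := by
      rw [Int.card_Ico, sub_sub_cancel]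
      have : ((5 : ℤ) ^ K') = ((5 ^ K' : ℕ) : ℤ) := by push_cast; rfl
      rw [this, Int.toNat_natCast]; push_cast; rfl
    rw [nsmul_eq_mul, h6] at h3
    exact (le_of_mul_le_mul_left (h3.trans (h4.trans h5)) (by positivity)).trans (hE _)
  have := ((tendsto_pow_atTop_nhds_zero_of_lt_one α_pos.le α_lt).const_mul 2).const_sub |d|
  simpa using le_of_tendsto' this key

lemma affine {W ι : Type*} [Fintype ι] (N : W → ι → ℝ) (low : ι → ℝ) (F : W → ℝ) (C : Finset W)
    (two : ∀ w ∈ C, ∀ i, N w i = low i ∨ N w i = low i + 1)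
    (chain : ∀ w ∈ C, ∀ w' ∈ C, N w ≤ N w' ∨ N w' ≤ N w) (inj : Function.Injective N) :
    ∃ (c : ℝ) (b : ι → ℝ), ∀ w ∈ C, F w = c + ∑ i, b i * N w i := by
  classical
  have top : ∀ D ⊆ C, D.Nonempty → ∃ M ∈ D, ∀ w ∈ D, N w ≤ N M := fun D hD hne => by
    obtain ⟨M, hM, h⟩ := exists_max_image D (fun w => ∑ i, N w i) hne
    refine ⟨M, hM, fun w hw => (chain w (hD hw) M (hD hM)).elim id fun h1 i => ?_⟩
    exact ((sum_eq_sum_iff_of_le fun i _ => h1 i).mp
      (le_antisymm (sum_le_sum fun i _ => h1 i) (h w hw)) i (mem_univ i)).ge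
  suffices ∀ D ⊆ C, ∃ (c : ℝ) (b : ι → ℝ), ∀ w ∈ D, F w = c + ∑ i, b i * N w i from this C subset_rfl
  intro D
  induction D using Finset.strongInduction with
  | H D ih =>
    intro hD
    rcases D.eq_empty_or_nonempty with rfl | hne
    · exact ⟨0, 0, by simp⟩
    obtain ⟨M, hM, h1⟩ := top D hD hne
    rcases (D.erase M).eq_empty_or_nonempty with h2 | h2
    · refine ⟨F M, 0, fun w hw => ?_⟩
      have : w = M := by
        by_contra h
        have := mem_erase.mpr ⟨h, hw⟩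
        simp [h2] at this
      simp [this]
    have hD' := (erase_subset M D).trans hD
    obtain ⟨M', hM', h3⟩ := top _ hD' h2
    obtain ⟨c, b, h4⟩ := ih _ (erase_ssubset hM) hD'
    obtain ⟨e, he⟩ : ∃ e, N M' e < N M e := by
      by_contra h
      push Not at h
      exact (mem_erase.mp hM').1 (inj (le_antisymm (h1 M' (mem_erase.mp hM').2) h))
    have h5 : N M e = low e + 1 := by
      rcases two M (hD hM) e with h | h <;> rcases two M' (hD' hM') e with h' | h' <;> linarith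
    have h6 : ∀ w ∈ D.erase M, N w e = low e := fun w hw => by
      have := h3 w hw e
      rcases two w (hD' hw) e with h | h <;> linarith
    set t := F M - (c + ∑ i, b i * N M i)
    refine ⟨c - t * low e, b + Pi.single e t, fun w hw => ?_⟩
    have h7 : ∑ i, (b + Pi.single e t : ι → ℝ) i * N w i = ∑ i, b i * N w i + t * N w e := by
      simp [add_mul, sum_add_distrib, Pi.single_apply]
    rw [h7]
    by_cases h : w = M
    · rw [h, h5]; simp only [t]; ring
    · rw [h4 w (mem_erase.mpr ⟨h, hw⟩), h6 w (mem_erase.mpr ⟨h, hw⟩)]; ring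

end Pool.Agent.H12.Sturm
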