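import Pool.Agent.H12.Sturm1

/-! Lattice-gas configurations, the interaction penalising illegal windows, energy estimates. -/

open Finset MeasureTheory

namespace Pool.Agent.H12.Sturm

abbrev Cf : Type := ℤ → Fin 2

def sh (a : ℤ) (X : Cf) : Cf := fun i => X (i - a)

noncomputable def z (X : Cf) (n : ℤ) : ℝ := if X n = 0 then 1 else 0

noncomputable def ht (X : Cf) (n : ℤ) : ℝ :=
  ∑ k ∈ Ico 0 n, (z X k - α) - ∑ k ∈ Ico n 0, (z X k - α)

lemma sum_Ico_succ (g : ℤ → ℝ) {a b : ℤ} (h : a ≤ b) :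
    ∑ k ∈ Ico a (b + 1), g k = ∑ k ∈ Ico a b, g k + g b := by
  rw [← insert_Ico_right_eq_Ico_add_one h, sum_insert (by simp), add_comm]

lemma ht_succ (X : Cf) (n : ℤ) : ht X (n + 1) = ht X n + (z X n - α) := by
  unfold ht
  rcases le_or_gt 0 n with h | h
  · rw [sum_Ico_succ _ h, Ico_eq_empty_of_le h, Ico_eq_empty_of_le (by omega : 0 ≤ n + 1)]; simp
  · rw [Ico_eq_empty_of_le h.le, Ico_eq_empty_of_le (by omega : n + 1 ≤ 0),
      ← insert_Ico_add_one_left_eq_Ico h, sum_insert (by simp)]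
    ring

lemma ht_sub (X : Cf) {a b : ℤ} (h : a ≤ b) : ht X b - ht X a = ∑ k ∈ Ico a b, (z X k - α) := by
  induction b, h using Int.leInduction with
  | base => simp
  | succ n hn ih => rw [ht_succ, sum_Ico_succ _ hn, ← ih]; ring

lemma ht_Ht (X : Cf) : Ht (ht X) := by
  have : ∀ n : ℤ, ∃ k : ℤ, ht X n = k - n * α := by
    have hz : ∀ n, ∃ k : ℤ, z X n = k := fun n => by
      unfold z; split_ifs; exacts [⟨1, by simp⟩, ⟨0, by simp⟩]
    intro n
    induction n using Int.induction_on with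
    | zero => exact ⟨0, by simp [ht]⟩
    | succ n ih =>
      obtain ⟨k, hk⟩ := ih
      obtain ⟨l, hl⟩ := hz n
      exact ⟨k + l, by rw [ht_succ, hk, hl]; push_cast; ring⟩
    | pred n ih =>
      obtain ⟨k, hk⟩ := ih
      obtain ⟨l, hl⟩ := hz (-n - 1)
      have := ht_succ X (-n - 1)
      rw [sub_add_cancel, hk, hl] at this
      exact ⟨k - l, by push_cast at this ⊢; linarith⟩
  intro a b
  obtain ⟨k, hk⟩ := this a
  obtain ⟨l, hl⟩ := this b
  exact ⟨k - l, by rw [hk, hl]; push_cast; ring⟩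

lemma ht_lip (X : Cf) (a b : ℤ) : ht X a - ht X b ≤ |a - b| := by
  have key : ∀ a b : ℤ, a ≤ b → |ht X b - ht X a| ≤ b - a := fun a b h => by
    rw [ht_sub X h]
    refine (abs_sum_le_sum_abs _ _).trans ((sum_le_card_nsmul _ _ 1 fun k _ => ?_).trans ?_)
    · have := α_pos; have := α_lt
      unfold z; split_ifs <;> rw [abs_le] <;> constructor <;> linarith
    · rw [Int.card_Ico, nsmul_eq_mul, mul_one]
      have : (((b - a).toNat : ℤ) : ℝ) = ((b - a : ℤ) : ℝ) := by rw [Int.toNat_of_nonneg (by omega)]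
      push_cast at this; exact this.le
  push_cast
  rcases le_total a b with h | h
  · linarith [(abs_le.mp (key a b h)).1, neg_le_abs ((a : ℝ) - b)]
  · linarith [(abs_le.mp (key b a h)).2, le_abs_self ((a : ℝ) - b)]

def Bad (Λ : Finset ℤ) (X : Cf) : Prop :=
  ∃ a b, Ico a b ⊆ Λ ∧ 1 ≤ |∑ k ∈ Ico a b, (z X k - α)|

def Leg (X : Cf) : Prop := ∀ Λ, ¬ Bad Λ X

lemma Bad.mono {Λ Λ' : Finset ℤ} {X : Cf} (h : Bad Λ X) (k : Λ ⊆ Λ') : Bad Λ' X := by
  obtain ⟨a, b, h1, h2⟩ := h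
  exact ⟨a, b, h1.trans k, h2⟩

lemma Bad.congr {Λ : Finset ℤ} {X Y : Cf} (h : Bad Λ X) (k : ∀ i ∈ Λ, X i = Y i) : Bad Λ Y := by
  obtain ⟨a, b, h1, h2⟩ := h
  refine ⟨a, b, h1, h2.trans_eq (congrArg _ (sum_congr rfl fun i hi => ?_))⟩
  simp [z, k i (h1 hi)]

lemma Bad.tr {Λ : Finset ℤ} {X : Cf} (h : Bad Λ X) (t : ℤ) : Bad (Λ.image (· + t)) (sh t X) := by
  obtain ⟨a, b, h1, h2⟩ := h
  refine ⟨a + t, b + t, ?_, ?_⟩
  · rw [← image_add_right_Ico]; exact image_subset_image h1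
  · rw [← image_add_right_Ico, sum_image fun _ _ _ _ h => add_right_cancel h]
    simpa [z, sh] using h2

lemma bad_tr (Λ : Finset ℤ) (X : Cf) (t : ℤ) : Bad (Λ.image (· + t)) (sh t X) ↔ Bad Λ X := by
  refine ⟨fun h => ?_, fun h => h.tr t⟩
  have := h.tr (-t)
  rw [image_image] at this
  have e : sh (-t) (sh t X) = X := by funext i; simp [sh]
  simpa [e, Function.comp_def] using this

lemma not_bad {Λ : Finset ℤ} {X : Cf} (h : ¬ Bad Λ X) {a b : ℤ} (h1 : Ico a b ⊆ Λ) (h2 : Ico b a ⊆ Λ) :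
    ht X a - ht X b < 1 := by
  by_contra h3
  rcases le_total a b with h4 | h4
  · exact h ⟨a, b, h1, by rw [← ht_sub X h4]; linarith [neg_le_abs (ht X b - ht X a)]⟩
  · exact h ⟨b, a, h2, by rw [← ht_sub X h4]; linarith [le_abs_self (ht X a - ht X b)]⟩

lemma bad_iff (X : Cf) (i : ℤ) (l : ℕ) : Bad (Ico i (i + l)) X ↔ 1 ≤ osc (ht X) i l := by
  constructor
  · rintro ⟨a, b, h1, h2⟩
    have h3 : a < b := by
      by_contra h
      rw [Ico_eq_empty h] at h2; norm_num at h2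
    rw [Ico_subset_Ico_iff h3] at h1
    have ha : a ∈ Icc i (i + l) := mem_Icc.mpr ⟨h1.1, by omega⟩
    have hb : b ∈ Icc i (i + l) := mem_Icc.mpr ⟨by omega, h1.2⟩
    rw [← ht_sub X h3.le] at h2
    exact h2.trans (abs_le.mpr ⟨by linarith [le_osc (ht X) ha hb], le_osc (ht X) hb ha⟩)
  · intro h
    obtain ⟨a, ha, b, hb, e⟩ := osc_eq (ht X) i l
    rw [mem_Icc] at ha hb
    by_contra h2
    linarith [not_bad h2 (Ico_subset_Ico ha.1 hb.2) (Ico_subset_Ico hb.1 ha.2)]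

noncomputable def win (p : ℕ × ℤ) : Finset ℤ := Ico p.2 (p.2 + L p.1)

lemma L_mono : StrictMono L := strictMono_nat_of_lt_succ fun m => by
  unfold L; rw [pow_succ, pow_succ]; have : 0 < 5 ^ m := by positivity
  omega

lemma L_pos (m : ℕ) : 0 < L m := by unfold L; positivity

lemma win_inj : Function.Injective win := by
  rintro ⟨m, i⟩ ⟨n, j⟩ h
  have h1 := congrArg (fun s : Finset ℤ => (s : Set ℤ)) h
  simp only [win, coe_Ico] at h1
  have := L_pos m
  rw [Set.Ico_eq_Ico_iff (Or.inl (by omega))] at h1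
  obtain ⟨rfl, h2⟩ := h1
  rw [L_mono.injective (by omega : L m = L n)]

noncomputable def wt : Finset ℤ → ℝ := Function.extend win (fun p => J p.1) 0

lemma wt_win (p : ℕ × ℤ) : wt (win p) = J p.1 := win_inj.extend_apply _ _ _

lemma wt_zero {Λ : Finset ℤ} (h : Λ ∉ Set.range win) : wt Λ = 0 := Function.extend_apply' _ _ _ h

lemma wt_nonneg (Λ : Finset ℤ) : 0 ≤ wt Λ := by
  by_cases h : Λ ∈ Set.range win
  · obtain ⟨p, rfl⟩ := h; rw [wt_win]; exact (J_pos _).le
  · rw [wt_zero h]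

lemma win_tr (p : ℕ × ℤ) (t : ℤ) : (win p).image (· + t) = win (p.1, p.2 + t) := by
  simp only [win, image_add_right_Ico]; congr 1; ring

lemma wt_tr (Λ : Finset ℤ) (t : ℤ) : wt (Λ.image (· + t)) = wt Λ := by
  by_cases h : Λ ∈ Set.range win
  · obtain ⟨p, rfl⟩ := h; rw [win_tr, wt_win, wt_win]
  · rw [wt_zero h, wt_zero]
    rintro ⟨p, hp⟩
    refine h ⟨(p.1, p.2 + -t), ?_⟩
    rw [← win_tr, hp, image_image]; simp [Function.comp_def]

lemma sumS : ∃ S : ℝ, ∀ t : ℤ, HasSum (fun Λ => if t ∈ Λ then wt Λ else 0) S := by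
  have s0 : Summable fun m => (L m : ℝ) * J m := by
    refine .of_nonneg_of_le (fun m => by have := J_pos m; positivity) (fun m => ?_)
      ((summable_geometric_of_lt_one α_pos.le α_lt).mul_left 81)
    have h1 : (L m : ℝ) ≤ 9 * 5 ^ m := by
      have : (4 : ℝ) ^ m ≤ 5 ^ m := by gcongr; norm_num
      unfold L; push_cast; linarith
    calc (L m : ℝ) * J m ≤ 9 * 5 ^ m * J m := by gcongr; exact (J_pos m).le
      _ = _ := by unfold J; rw [div_pow]; field_simp; ring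
  refine ⟨∑' m, (L m : ℝ) * J m, fun t => ?_⟩
  rw [← win_inj.hasSum_iff fun Λ h => by simp [wt_zero h]]
  have h1 : ∀ m, HasSum (fun i : ℤ => if t ∈ win (m, i) then J m else 0) (L m * J m) := fun m => by
    have := hasSum_sum_of_ne_finset_zero (f := fun i : ℤ => if t ∈ win (m, i) then J m else 0)
      (s := Ioc (t - L m) t) (L := .unconditional _) fun i hi => if_neg (by
        simp only [win, mem_Ico, mem_Ioc] at hi ⊢; omega)
    rw [sum_congr rfl (g := fun _ => J m) fun i hi => if_pos (by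
      simp only [win, mem_Ico, mem_Ioc] at hi ⊢; omega)] at this
    simpa using this
  have h2 : Summable fun p : ℕ × ℤ => if t ∈ win p then J p.1 else 0 := by
    refine (summable_prod_of_nonneg fun p => ?_).mpr ⟨fun m => (h1 m).summable, ?_⟩
    · have := J_pos p.1
      simp only [Pi.zero_apply]; split_ifs <;> linarith
    · simpa only [(h1 _).tsum_eq] using s0
  have h3 := h2.hasSum
  rw [h2.tsum_prod] at h3
  simpa only [Function.comp_def, wt_win, (h1 _).tsum_eq] using h3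

open Classical in
noncomputable def Φ (Λ : Finset ℤ) (X : Cf) : ℝ := wt Λ * if Bad Λ X then 1 else 0

lemma Φ_nonneg (Λ : Finset ℤ) (X : Cf) : 0 ≤ Φ Λ X :=
  mul_nonneg (wt_nonneg _) (by split_ifs <;> simp)

lemma Φ_le (Λ : Finset ℤ) (X : Cf) : Φ Λ X ≤ wt Λ :=
  mul_le_of_le_one_right (wt_nonneg _) (by split_ifs <;> simp)

lemma Φ_loc (Λ : Finset ℤ) (X Y : Cf) (h : ∀ i ∈ Λ, X i = Y i) : Φ Λ X = Φ Λ Y := by
  have : Bad Λ X ↔ Bad Λ Y := ⟨fun k => k.congr h, fun k => k.congr fun i hi => (h i hi).symm⟩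
  by_cases h1 : Bad Λ X
  · simp [Φ, h1, this.mp h1]
  · simp [Φ, h1, mt this.mpr h1]

lemma Φ_leg {Λ : Finset ℤ} {X : Cf} (h : ¬ Bad Λ X) : Φ Λ X = 0 := by simp [Φ, h]

lemma Φ_summable {X Y : Cf} (h : {i | Y i ≠ X i}.Finite) : Summable fun Λ => Φ Λ Y - Φ Λ X := by
  obtain ⟨S, hS⟩ := sumS
  refine .of_norm_bounded (summable_sum fun t (_ : t ∈ h.toFinset) => (hS t).summable) fun Λ => ?_
  have h0 : ∀ t, 0 ≤ if t ∈ Λ then wt Λ else 0 := fun t => by
    split_ifs; exacts [wt_nonneg _, le_rfl]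
  by_cases h1 : ∀ i ∈ Λ, Y i = X i
  · rw [Φ_loc Λ Y X h1, sub_self, norm_zero]; exact sum_nonneg fun t _ => h0 t
  · push Not at h1
    obtain ⟨i, h1, h2⟩ := h1
    refine le_trans ?_ (single_le_sum (fun t _ => h0 t) (h.mem_toFinset.mpr h2))
    rw [if_pos h1, Real.norm_eq_abs, abs_le]
    constructor <;> linarith [Φ_nonneg Λ X, Φ_nonneg Λ Y, Φ_le Λ X, Φ_le Λ Y]

lemma exists_K {X Y : Cf} (h : {i | Y i ≠ X i}.Finite) :
    ∃ K : ℕ, ∀ i, i ∉ Ico (-(K : ℤ)) K → Y i = X i := by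
  obtain ⟨u, hu⟩ := (h.image Int.natAbs).bddAbove
  refine ⟨u + 1, fun i hi => ?_⟩
  by_contra h1
  have := hu ⟨i, h1, rfl⟩
  rw [mem_Ico] at hi
  omega

lemma bad_fin {X Y : Cf} (hX : Leg X) {K : ℕ} (hK : ∀ i, i ∉ Ico (-(K : ℤ)) K → Y i = X i) (l : ℕ) :
    {i : ℤ | Bad (Ico i (i + l)) Y}.Finite := by
  refine (Set.finite_Icc (-(K : ℤ) - l) K).subset fun i hi => ?_
  by_contra h
  refine hX _ (Bad.congr hi fun j hj => hK j ?_)
  simp only [Set.mem_Icc, mem_Ico] at h hj ⊢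
  omega

lemma energy_ge {X Y : Cf} (hX : Leg X) (h : {i | Y i ≠ X i}.Finite) (M : ℕ) :
    ∑ m ∈ range M, J m * ∑' i, bd (ht Y) m i ≤ ∑' Λ, (Φ Λ Y - Φ Λ X) := by
  have s1 := Φ_summable h
  simp only [Φ_leg (hX _), sub_zero] at s1 ⊢
  have s2 : Summable fun p => Φ (win p) Y := s1.comp_injective win_inj
  rw [← win_inj.tsum_eq (f := fun Λ => Φ Λ Y) fun Λ hΛ => by
    by_contra h'
    exact hΛ (by simp [Φ, wt_zero h']), s2.tsum_prod]
  refine le_trans (le_of_eq ?_) (s2.prod.sum_le_tsum (range M) fun m _ =>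
    tsum_nonneg fun i => Φ_nonneg _ _)
  refine sum_congr rfl fun m _ => ?_
  rw [← tsum_mul_left]
  refine tsum_congr fun i => ?_
  simp only [Φ, wt_win, bd]
  simp only [win, bad_iff]

/-- the change of the number of zeros is controlled by the energy -/
lemma energy_d {X Y : Cf} (hX : Leg X) (h : {i | Y i ≠ X i}.Finite) :
    |∑' i, (z Y i - z X i)| ≤ ∑' Λ, (Φ Λ Y - Φ Λ X) := by
  obtain ⟨K, hK⟩ := exists_K h
  have hz : ∀ i, i ∉ Ico (-(K : ℤ)) K → z Y i = z X i := fun i hi => by simp [z, hK i hi]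
  rw [tsum_eq_sum (s := Ico (-(K : ℤ)) K) fun i hi => by rw [hz i hi, sub_self]]
  refine jump (ht_Ht Y) (ht_Ht X) (ht_lip Y) (fun m => ?_)
    (fun a b => not_bad (hX _) subset_union_left subset_union_right) K
    (ht Y (-K) - ht X (-K)) _ (fun a ha => ?_) (fun a ha => ?_) (energy_ge hX h)
  · simpa only [bad_iff] using bad_fin hX hK (L m)
  · have h1 := ht_sub X ha
    have h2 := ht_sub Y ha
    rw [sum_congr rfl (g := fun k => z X k - α) fun k hk => by
      rw [hz k (by simp only [mem_Ico] at hk ⊢; omega)]] at h2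
    linarith
  · have h1 := ht_sub X ha
    have h2 := ht_sub Y ha
    rw [sum_congr rfl (g := fun k => z X k - α) fun k hk => by
      rw [hz k (by simp only [mem_Ico] at hk ⊢; omega)]] at h2
    have h3 := ht_sub X (show -(K : ℤ) ≤ K by omega)
    have h4 := ht_sub Y (show -(K : ℤ) ≤ K by omega)
    simp only [sum_sub_distrib] at *
    linarith

/-- a ground-state configuration has finitely many illegal windows of each level -/
lemma gsc_fin {Z : Cf} (hZ : Leg Z) {X : Cf}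
    (hX : ∀ Y : Cf, {i | Y i ≠ X i}.Finite → 0 ≤ ∑' Λ, (Φ Λ Y - Φ Λ X)) (m : ℕ) :
    {i : ℤ | Bad (win (m, i)) X}.Finite := by
  classical
  obtain ⟨S, hS⟩ := sumS
  by_contra hinf
  obtain ⟨n, hn⟩ := exists_nat_gt (2 * S / J m)
  obtain ⟨F, hF, hc⟩ := Set.Infinite.exists_subset_card_eq hinf n
  obtain ⟨u, hu⟩ := (F.image Int.natAbs).bddAbove
  set K : ℤ := u + L m with hK
  let Y : Cf := fun i => if i ∈ Ico (-K) K then Z i else X i
  have hY : {i | Y i ≠ X i}.Finite := (Ico (-K) K).finite_toSet.subset fun i hi => by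
    by_contra h
    exact hi (if_neg h)
  let G : Finset (Finset ℤ) := F.image fun i => win (m, i)
  have s3 : HasSum (fun Λ => if Λ ∈ G then J m else 0) (n * J m) := by
    have := hasSum_sum_of_ne_finset_zero (f := fun Λ => if Λ ∈ G then J m else 0)
      (s := G) (L := .unconditional _) fun i hi => if_neg hi
    rw [sum_congr rfl (g := fun _ => J m) fun i hi => if_pos hi, sum_const,
      card_image_of_injective _ fun a b h => (Prod.mk.inj (win_inj h)).2, hc, nsmul_eq_mul] at this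
    exact this
  have h1 := hasSum_le (fun Λ => ?_) (Φ_summable hY).hasSum (((hS K).add (hS (-K - 1))).sub s3)
  · have := hX Y hY
    rw [div_lt_iff₀ (J_pos m)] at hn
    linarith
  have h0 : ∀ t, 0 ≤ if t ∈ Λ then wt Λ else 0 := fun t => by
    split_ifs; exacts [wt_nonneg _, le_rfl]
  have a1 := h0 K
  have a2 := h0 (-K - 1)
  have sub : Λ ⊆ Ico (-K) K → Φ Λ Y = 0 := fun h =>
    Φ_leg fun hb => hZ Λ (hb.congr fun i hi => if_pos (h hi))
  by_cases hG : Λ ∈ G
  · obtain ⟨i, hi, rfl⟩ := mem_image.mp hG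
    have h2 := hu (mem_coe.mpr (mem_image_of_mem _ hi))
    have h3 : Φ (win (m, i)) X = J m := by
      have : Bad (win (m, i)) X := hF hi
      simp [Φ, this, wt_win]
    rw [sub (Ico_subset_Ico (by simp only; omega) (by simp only; omega)), if_pos hG, h3]
    linarith
  rw [if_neg hG, sub_zero]
  have a3 := Φ_nonneg Λ X
  have a4 := Φ_le Λ Y
  by_cases h1 : K ∈ Λ
  · rw [if_pos h1]; linarith
  by_cases h2 : -K - 1 ∈ Λ
  · rw [if_pos h2]; linarith
  by_cases h3 : Λ ∈ Set.range win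
  swap
  · rw [wt_zero h3] at a4; linarith
  obtain ⟨⟨l, i⟩, rfl⟩ := h3
  by_cases h4 : win (l, i) ⊆ Ico (-K) K
  · rw [sub h4]; linarith
  · rw [Φ_loc _ Y X fun j hj => if_neg fun hj' => h4 fun k hk => ?_]
    · linarith
    · simp only [win, mem_Ico] at *
      omega

end Pool.Agent.H12.Sturm
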