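import Pool.Agent.H12.Sturm2

/-! Local functions are affine on legal words; finite-range perturbations; uniqueness of the
invariant measure on legal configurations. -/

open Finset MeasureTheory

namespace Pool.Agent.H12.Sturm

lemma cnt (X : Cf) (j : ℕ) : ∑ k ∈ Ico (0 : ℤ) j, z X k = ht X j - ht X 0 + j * α := by
  rw [ht_sub X (Int.natCast_nonneg j), sum_sub_distrib]; simp

noncomputable def aff {r : ℕ} (c : ℝ) (b : Fin (r + 1) → ℝ) (X : Cf) : ℝ :=
  c + ∑ j, b j * ∑ k ∈ Ico (0 : ℤ) (j : ℕ), z X k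

lemma local_affine (r : ℕ) (f : Cf → ℝ) (hf : ∀ X Y, (∀ i ∈ Ico (0 : ℤ) r, X i = Y i) → f X = f Y) :
    ∃ (c : ℝ) (b : Fin (r + 1) → ℝ) (B : ℝ), (∀ X, ¬ Bad (Ico 0 r) X → f X = aff c b X) ∧
      ∀ X, |f X - aff c b X| ≤ B := by
  classical
  let ext : (Fin r → Fin 2) → Cf := fun w n => if h : 0 ≤ n ∧ n < r then w ⟨n.toNat, by omega⟩ else 0
  have hext : ∀ X : Cf, ∀ i ∈ Ico (0 : ℤ) r, X i = ext (fun k => X (k : ℕ)) i := fun X i hi => by
    rw [mem_Ico] at hi
    simp only [ext, dif_pos hi, Int.toNat_of_nonneg hi.1]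
  let N : (Fin r → Fin 2) → Fin (r + 1) → ℝ := fun w j => ∑ k ∈ Ico (0 : ℤ) (j : ℕ), z (ext w) k
  have hint : ∀ w j, ∃ k : ℤ, N w j = k := fun w j => by
    obtain ⟨k, hk⟩ := ht_Ht (ext w) (j : ℕ) 0
    exact ⟨k, by simp only [N, cnt, hk]; push_cast; ring⟩
  have hlt : ∀ w, ¬ Bad (Ico 0 r) (ext w) → ∀ a b : ℕ, a ≤ r → b ≤ r →
      ht (ext w) a - ht (ext w) b < 1 := fun w hw a b ha hb =>
    not_bad hw (Ico_subset_Ico (by omega) (by omega)) (Ico_subset_Ico (by omega) (by omega))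
  have key := affine N (fun j => ⌊(j : ℕ) * α⌋) (fun w => f (ext w))
    (univ.filter fun w => ¬ Bad (Ico 0 r) (ext w)) (fun w hw j => ?_) (fun w hw w' hw' => ?_)
    (fun w w' h => ?_)
  · obtain ⟨c, b, h⟩ := key
    have e : ∀ X, f X - aff c b X = f (ext fun k => X (k : ℕ)) - aff c b (ext fun k => X (k : ℕ)) := by
      intro X
      rw [hf X _ (hext X)]
      unfold aff
      congr 2
      refine sum_congr rfl fun j _ => congrArg _ (sum_congr rfl fun k hk => ?_)
      have := j.2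
      rw [z, z, hext X k (by simp only [mem_Ico] at hk ⊢; omega)]
    obtain ⟨B, hB⟩ := (Set.finite_range fun w => |f (ext w) - aff c b (ext w)|).bddAbove
    refine ⟨c, b, B, fun X hX => ?_, fun X => by rw [e]; exact hB ⟨fun k => X (k : ℕ), rfl⟩⟩
    rw [← sub_eq_zero, e, sub_eq_zero]
    exact h (fun k => X (k : ℕ)) (mem_filter.mpr ⟨mem_univ _, fun hb => hX (hb.congr fun i hi => (hext X i hi).symm)⟩)
  · obtain ⟨k, hk⟩ := hint w j
    have h1 := hlt w (mem_filter.mp hw).2 j 0 (by omega) (by omega)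
    have h2 := hlt w (mem_filter.mp hw).2 0 j (by omega) (by omega)
    have h3 := cnt (ext w) j
    have h4 := Int.floor_le (((j : ℕ) : ℝ) * α)
    have h5 := Int.lt_floor_add_one (((j : ℕ) : ℝ) * α)
    simp only [N] at hk
    rw [Nat.cast_zero] at h1 h2
    have h6 : ((⌊((j : ℕ) : ℝ) * α⌋ - 1 : ℤ) : ℝ) < k := by push_cast; linarith
    have h7 : (k : ℝ) < ((⌊((j : ℕ) : ℝ) * α⌋ + 2 : ℤ) : ℝ) := by push_cast; linarith
    rw [Int.cast_lt] at h6 h7
    have : k = ⌊((j : ℕ) : ℝ) * α⌋ ∨ k = ⌊((j : ℕ) : ℝ) * α⌋ + 1 := by omega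
    simp only [N, hk]
    exact_mod_cast this
  · by_contra hc
    simp only [not_or, Pi.le_def, not_forall, not_le] at hc
    obtain ⟨⟨i, hi⟩, j, hj⟩ := hc
    have h1 := hlt w (mem_filter.mp hw).2 i j (by omega) (by omega)
    have h2 := hlt w' (mem_filter.mp hw').2 j i (by omega) (by omega)
    obtain ⟨k1, e1⟩ := hint w i
    obtain ⟨k2, e2⟩ := hint w j
    obtain ⟨k3, e3⟩ := hint w' i
    obtain ⟨k4, e4⟩ := hint w' j
    rw [e1, e3, Int.cast_lt] at hi
    rw [e2, e4, Int.cast_lt] at hj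
    simp only [N, cnt] at e1 e2 e3 e4
    have : ((k1 - k2 - k3 + k4 : ℤ) : ℝ) < 2 := by push_cast; linarith
    have : k1 - k2 - k3 + k4 < 2 := by exact_mod_cast this
    omega
  · funext k
    have h1 := congrFun h k.succ
    have h2 := congrFun h k.castSucc
    simp only [N, Fin.val_succ, Fin.val_castSucc, Nat.cast_add, Nat.cast_one] at h1 h2
    rw [sum_Ico_succ _ (Int.natCast_nonneg _), sum_Ico_succ _ (Int.natCast_nonneg _), h2,
      add_right_inj] at h1
    have h3 : (0 : ℤ) ≤ (k : ℕ) ∧ ((k : ℕ) : ℤ) < r := ⟨by omega, by exact_mod_cast k.2⟩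
    simp only [z, ext, dif_pos h3, Int.toNat_natCast, Fin.eta] at h1
    revert h1
    generalize w k = x, w' k = y
    clear * -
    fin_cases x <;> fin_cases y <;> simp

lemma sh_sh (a : ℤ) (X : Cf) : sh a (sh (-a) X) = X := by funext i; simp [sh]

lemma Leg.shift {X : Cf} (h : Leg X) (a : ℤ) : Leg (sh a X) := fun Λ hb => by
  have := hb.tr (-a)
  rw [show sh (-a) (sh a X) = X by simpa using sh_sh (-a) X] at this
  exact h _ this

lemma perturb (Ψ : Finset ℤ → Cf → ℝ) (loc : ∀ Λ X Y, (∀ i ∈ Λ, X i = Y i) → Ψ Λ X = Ψ Λ Y)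
    (inv : ∀ Λ a X, Ψ (Λ.image (· + a)) (sh a X) = Ψ Λ X) (r : ℕ)
    (hr : ∀ Λ, (∃ i ∈ Λ, ∃ j ∈ Λ, (r : ℤ) < j - i) → Ψ Λ = 0) :
    ∃ C : ℝ, 0 < C ∧ ∀ X Y : Cf, Leg X → {i | Y i ≠ X i}.Finite →
      Summable (fun Λ => Ψ Λ Y - Ψ Λ X) ∧ |∑' Λ, (Ψ Λ Y - Ψ Λ X)| ≤ C * ∑' Λ, (Φ Λ Y - Φ Λ X) := by
  classical
  let P : Finset (Finset ℤ) := (Ico (0 : ℤ) (r + 1 : ℕ)).powerset.filter (0 ∈ ·)
  obtain ⟨c, b, B, h1, h2⟩ := local_affine (r + 1) (fun X => ∑ Λ ∈ P, Ψ Λ X) fun X Y h =>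
    sum_congr rfl fun Λ hΛ => loc Λ X Y fun i hi => h i (mem_powerset.mp (mem_filter.mp hΛ).1 hi)
  have hB : 0 ≤ B := (abs_nonneg _).trans (h2 0)
  have hJ := J_pos (r + 1)
  refine ⟨B / J (r + 1) + |∑ j, b j * (j : ℕ)| + 1, by positivity, fun X Y hX hY => ?_⟩
  obtain ⟨K, hK⟩ := exists_K hY
  let A : Finset ℤ := Ico (-(K : ℤ) - (r + 1)) K
  have hs := hasSum_sum_of_ne_finset_zero (f := fun Λ => Ψ Λ Y - Ψ Λ X) (L := .unconditional _)
    (s := (A ×ˢ P).image fun p => p.2.image (· + p.1)) fun Λ hΛ => by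
      by_contra h
      have h3 : ∃ j ∈ Λ, Y j ≠ X j := by
        by_contra h3
        push Not at h3
        exact h (by rw [loc Λ Y X h3, sub_self])
      obtain ⟨j, hj, h3⟩ := h3
      have h4 : j ∈ Ico (-(K : ℤ)) K := by by_contra h4; exact h3 (hK j h4)
      have h5 : ∀ i ∈ Λ, ∀ j ∈ Λ, j - i ≤ r := fun i hi j hj => by
        by_contra h5
        exact h (by simp [hr Λ ⟨i, hi, j, hj, not_le.mp h5⟩])
      obtain ⟨i, h6, h7⟩ : ∃ i ∈ Λ, ∀ k ∈ Λ, i ≤ k :=
        ⟨Λ.min' ⟨j, hj⟩, Λ.min'_mem _, fun k hk => Λ.min'_le k hk⟩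
      refine hΛ (mem_image.mpr ⟨(i, Λ.image (· + -i)), mem_product.mpr ⟨?_, mem_filter.mpr
        ⟨mem_powerset.mpr fun k hk => ?_, mem_image.mpr ⟨i, h6, by simp⟩⟩⟩, ?_⟩)
      · have := h5 i h6 j hj
        have := h7 j hj
        simp only [A, mem_Ico] at h4 ⊢; omega
      · obtain ⟨l, hl, rfl⟩ := mem_image.mp hk
        have := h5 i h6 l hl
        have := h7 l hl
        simp only [mem_Ico]; omega
      · dsimp only
        rw [image_image]; simp [Function.comp_def]
  refine ⟨hs.summable, ?_⟩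
  rw [hs.tsum_eq, sum_image, sum_product]
  swap
  · rintro ⟨i, Λ⟩ h ⟨i', Λ'⟩ h' e
    obtain ⟨a1, a2⟩ := mem_filter.mp (mem_product.mp h).2
    obtain ⟨a3, a4⟩ := mem_filter.mp (mem_product.mp h').2
    simp only at e a1 a2 a3 a4
    obtain ⟨x, hx, e1⟩ := mem_image.mp (e ▸ mem_image_of_mem (· + i) a2)
    obtain ⟨y, hy, e2⟩ := mem_image.mp (e.symm ▸ mem_image_of_mem (· + i') a4)
    have := mem_Ico.mp (mem_powerset.mp a3 hx)
    have := mem_Ico.mp (mem_powerset.mp a1 hy)
    obtain rfl : i = i' := by omega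
    rw [image_injective (add_left_injective i) e]
  have e1 : ∀ Λ i Z, Ψ (Finset.image (· + i) Λ) Z = Ψ Λ (sh (-i) Z) := fun Λ i Z => by
    rw [← inv Λ i, sh_sh]
  have e2 : ∀ i, ∑ Λ ∈ P, (Ψ (Λ.image (· + i)) Y - Ψ (Λ.image (· + i)) X) =
      (∑ Λ ∈ P, Ψ Λ (sh (-i) Y) - aff c b (sh (-i) Y)) +
      ∑ j, b j * ∑ k ∈ Ico (0 : ℤ) (j : ℕ), (z Y (k + i) - z X (k + i)) := fun i => by
    simp only [e1, sum_sub_distrib, mul_sub]
    rw [h1 _ (hX.shift (-i) _)]
    simp [aff, z, sh]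
    ring
  simp only [e2]
  set d := ∑' i, (z Y i - z X i) with hd
  have e3 : ∑ i ∈ A, ∑ j, b j * ∑ k ∈ Ico (0 : ℤ) (j : ℕ), (z Y (k + i) - z X (k + i)) =
      (∑ j, b j * (j : ℕ)) * d := by
    rw [sum_comm, sum_mul]
    refine sum_congr rfl fun j _ => ?_
    rw [← mul_sum, sum_comm, sum_congr rfl (g := fun _ => d) fun k hk => ?_]
    · simp [mul_assoc]
    · rw [hd, ← (Equiv.addLeft k).tsum_eq]
      refine (tsum_eq_sum fun i hi => ?_).symm
      have := j.2
      simp only [z]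
      rw [hK _ (by simp only [A, mem_Ico] at hi hk ⊢; omega), sub_self]
  have hE := energy_d hX hY
  have hE2 := energy_ge hX hY (r + 2)
  set E := ∑' Λ, (Φ Λ Y - Φ Λ X)
  have b0 : ∀ m i, 0 ≤ bd (ht Y) m i := fun m i => by unfold bd; split_ifs <;> simp
  have e4 : |∑ i ∈ A, (∑ Λ ∈ P, Ψ Λ (sh (-i) Y) - aff c b (sh (-i) Y))| ≤ B / J (r + 1) * E := by
    have s2 : Summable (bd (ht Y) (r + 1)) := summable_of_hasFiniteSupport
      ((bad_fin hX hK (L (r + 1))).subset fun i hi => by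
        by_contra h'
        exact hi (if_neg fun h => h' ((bad_iff _ _ _).mpr h)))
    calc _ ≤ ∑ i ∈ A, B * bd (ht Y) (r + 1) i := by
          refine (abs_sum_le_sum_abs _ _).trans (sum_le_sum fun i _ => ?_)
          unfold bd
          split_ifs with h
          · simpa using h2 _
          · rw [h1 _ fun hb => h ((bad_iff _ _ _).mp ?_)]
            · simp
            · have := hb.tr i
              rw [sh_sh, image_add_right_Ico] at this
              have h3 := L_mono.id_le (r + 1)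
              exact this.mono (Ico_subset_Ico (by omega) (by simp only [id] at h3; omega))
      _ ≤ B * ∑' i, bd (ht Y) (r + 1) i := by
          rw [← mul_sum]; gcongr; exact s2.sum_le_tsum _ fun i _ => b0 _ _
      _ ≤ _ := by
          have := (single_le_sum (f := fun m => J m * ∑' i, bd (ht Y) m i) (fun m _ =>
            mul_nonneg (J_pos m).le (tsum_nonneg (b0 m))) (self_mem_range_succ (r + 1))).trans hE2
          rw [div_mul_eq_mul_div, mul_div_assoc]
          gcongr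
          rwa [le_div_iff₀ hJ, mul_comm]
  rw [sum_add_distrib, e3]
  refine (abs_add_le _ _).trans ?_
  rw [abs_mul]
  have := mul_le_mul_of_nonneg_left hE (abs_nonneg (∑ j, b j * (j : ℕ)))
  have := (abs_nonneg _).trans hE
  linarith

lemma sh_meas (a : ℤ) : Measurable (sh a) := measurable_pi_lambda _ fun _ => measurable_pi_apply _

lemma z_meas (n : ℤ) : Measurable fun X => z X n :=
  (measurable_of_countable fun x : Fin 2 => if x = 0 then (1 : ℝ) else 0).comp (measurable_pi_apply n)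

lemma integral_z {μ : Measure Cf} [IsProbabilityMeasure μ] (h : ∀ a, μ.map (sh a) = μ)
    (hl : ∀ᵐ X ∂μ, Leg X) (n : ℤ) : Integrable (fun X => z X n) μ ∧ ∫ X, z X n ∂μ = α := by
  have hi : ∀ n, Integrable (fun X => z X n) μ := fun n =>
    .of_bound (z_meas n).aestronglyMeasurable 1 (.of_forall fun X => by
      unfold z; split_ifs <;> simp)
  have e : ∀ k, ∫ X, z X k ∂μ = ∫ X, z X n ∂μ := fun k => by
    conv_lhs => rw [← h (k - n)]
    rw [integral_map (sh_meas _).aemeasurable (z_meas k).aestronglyMeasurable]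
    simp [z, sh]
  refine ⟨hi n, ?_⟩
  have key : ∀ j : ℕ, j * |∫ X, z X n ∂μ - α| ≤ 1 := fun j => by
    have h1 := norm_integral_le_of_norm_le_const (μ := μ) (C := 1)
      (f := fun X => ∑ k ∈ Ico (0 : ℤ) j, (z X k - α)) (hl.mono fun X hX => by
        by_contra h
        exact hX _ ⟨0, j, subset_rfl, (not_le.mp h).le⟩)
    rw [integral_finsetSum (f := fun k X => z X k - α) _
      fun k _ => (hi k).sub (integrable_const _)] at h1
    simp only [integral_sub (hi _) (integrable_const _), e] at h1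
    simpa [← mul_sub, abs_mul] using h1
  by_contra h0
  have h1 : 0 < |∫ X, z X n ∂μ - α| := abs_pos.mpr (sub_ne_zero.mpr h0)
  obtain ⟨j, hj⟩ := exists_nat_gt (1 / |∫ X, z X n ∂μ - α|)
  rw [div_lt_iff₀ h1] at hj
  linarith [key j]

lemma unique {μ ν : Measure Cf} [IsProbabilityMeasure μ] [IsProbabilityMeasure ν]
    (h : ∀ a, μ.map (sh a) = μ) (hl : ∀ᵐ X ∂μ, Leg X)
    (h' : ∀ a, ν.map (sh a) = ν) (hl' : ∀ᵐ X ∂ν, Leg X) : μ = ν := by
  classical
  refine IsProjectiveLimit.unique (P := fun I => ν.map I.restrict) (fun I => ?_) fun I => rfl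
  ext s hs
  obtain ⟨u, hu⟩ := (I.image Int.natAbs).bddAbove
  have hm : Measurable (I.restrict ∘ sh (-u)) := (measurable_restrict I).comp (sh_meas _)
  obtain ⟨c, b, B, h1, -⟩ := local_affine (2 * u + 1)
    (((I.restrict ∘ sh (-u)) ⁻¹' s).indicator 1) fun X Y h => by
      have : I.restrict (sh (-u) X) = I.restrict (sh (-u) Y) := by
        funext i
        have := hu (mem_coe.mpr (mem_image_of_mem _ i.2))
        exact h _ (by simp only [mem_Ico]; omega)
      simp only [Set.indicator, Set.mem_preimage, Function.comp_apply, this, Pi.one_apply]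
  have key : ∀ μ : Measure Cf, [IsProbabilityMeasure μ] → (∀ a, μ.map (sh a) = μ) →
      (∀ᵐ X ∂μ, Leg X) → (μ.map I.restrict).real s = c + ∑ j, b j * ((j : ℕ) * α) := by
    intro μ _ h hl
    conv_lhs => rw [← h (-u)]
    rw [Measure.map_map (measurable_restrict I) (sh_meas _), measureReal_def,
      Measure.map_apply (by exact hm) hs, ← measureReal_def, ← integral_indicator_one (by exact hm hs),
      integral_congr_ae (g := aff c b) (hl.mono fun X hX => h1 X (hX _))]
    have hi := fun k => (integral_z h hl k).1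
    unfold aff
    rw [integral_add (integrable_const _) (integrable_finsetSum _ fun j _ =>
      (integrable_finsetSum _ fun k _ => hi k).const_mul _), integral_finsetSum _ fun j _ =>
      (integrable_finsetSum _ fun k _ => hi k).const_mul _]
    simp only [integral_const_mul, integral_finsetSum _ fun k _ => hi k, (integral_z h hl _).2]
    simp
  rw [← measureReal_eq_measureReal_iff, key μ h hl, key ν h' hl']

lemma ae_leg {Z : Cf} (hZ : Leg Z) {μ : Measure Cf} [IsProbabilityMeasure μ]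
    (h : ∀ a, μ.map (sh a) = μ)
    (hg : ∀ᵐ X ∂μ, ∀ Y : Cf, {i | Y i ≠ X i}.Finite → 0 ≤ ∑' Λ, (Φ Λ Y - Φ Λ X)) :
    ∀ᵐ X ∂μ, Leg X := by
  have hm : ∀ Λ, MeasurableSet {X | Bad Λ X} := fun Λ => by
    simp only [Bad, Set.ofPred_exists, Set.ofPred_and]
    refine .iUnion fun a => .iUnion fun b => .inter (.const _) (measurableSet_le measurable_const ?_)
    exact (Finset.measurable_sum _ fun k _ => (z_meas k).sub_const _).abs
  have hc := (MeasurePreserving.mk (sh_meas (-1)) (h (-1))).conservative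
  have it : ∀ (n : ℕ) X, (sh (-1))^[n] X = sh (-n) X := fun n X => by
    induction n with
    | zero => funext i; simp [sh]
    | succ n ih => rw [Function.iterate_succ_apply', ih]; funext i; simp [sh]; ring_nf
  filter_upwards [hg, ae_all_iff.mpr fun p => hc.ae_mem_imp_frequently_image_mem
    (hm (win p)).nullMeasurableSet] with X h1 h2 Λ hb
  obtain ⟨u, hu⟩ := (Λ.image Int.natAbs).bddAbove
  have h3 : Bad (win (2 * u + 1, -u)) X := hb.mono fun i hi => by
    have := hu (mem_coe.mpr (mem_image_of_mem _ hi))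
    have := L_mono.id_le (2 * u + 1)
    simp only [win, mem_Ico, id] at this ⊢
    omega
  have h4 := Nat.frequently_atTop_iff_infinite.mp (h2 _ h3)
  refine h4 (((gsc_fin hZ h1 (2 * u + 1)).preimage (f := fun n : ℕ => -(u : ℤ) + n)
    fun a _ b _ h => by simpa using h).subset fun n hn => ?_)
  have := Bad.tr hn n
  rwa [it, sh_sh, win_tr] at this

end Pool.Agent.H12.Sturm
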