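import Mathlib

/-! Touching arguments for subharmonic functions in the plane. -/

open Metric Filter Topology Set InnerProductSpace
open scoped ComplexConjugate

namespace Pool.Agent.H12.Sub

/-- comparison with harmonic functions on discs -/
def Cmp (G : Set ℂ) (f : ℂ → ℝ) : Prop :=
  ∀ (c : ℂ) (R : ℝ) (h : ℂ → ℝ), 0 < R → closedBall c R ⊆ G → ContinuousOn h (closedBall c R) →
    HarmonicOnNhd h (ball c R) → (∀ z ∈ sphere c R, f z ≤ h z) → ∀ z ∈ closedBall c R, f z ≤ h z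

/-- `g` is touched from above at `x` by a strictly superharmonic function -/
def Touch (g : ℂ → ℝ) (x : ℂ) : Prop :=
  ∃ (F : ℂ → ℂ) (μ : ℝ), 0 < μ ∧ AnalyticAt ℂ F x ∧
    ∀ᶠ y in 𝓝 x, g y - (F y).re + μ * ‖y - x‖ ^ 2 ≤ g x - (F x).re

lemma nsq (a b : ℂ) : ‖a + b‖ ^ 2 = ‖a‖ ^ 2 + 2 * (conj b * a).re + ‖b‖ ^ 2 := by
  simp only [Complex.sq_norm, Complex.normSq_apply, Complex.add_re, Complex.add_im, Complex.mul_re,
    Complex.conj_re, Complex.conj_im]
  ring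

lemma touch_of_max {g : ℂ → ℝ} {F : ℂ → ℂ} {μ : ℝ} {x x0 : ℂ} (hμ : 0 < μ) (hF : AnalyticAt ℂ F x)
    (h : IsLocalMax (fun y => g y - (F y).re + μ * ‖y - x0‖ ^ 2) x) : Touch g x := by
  refine ⟨fun y => F y - (2 * μ : ℝ) * (conj (x - x0) * (y - x)), μ, hμ, by fun_prop, ?_⟩
  filter_upwards [h] with y hy
  have e := nsq (y - x) (x - x0)
  rw [sub_add_sub_cancel] at e
  simp only [Complex.sub_re (F _), Complex.re_ofReal_mul, sub_self, mul_zero, sub_zero]
  rw [e] at hy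
  nlinarith

lemma not_touch_an {g : ℂ → ℝ} {x : ℂ} {A : ℂ → ℂ} (hA : AnalyticAt ℂ A x)
    (hg : ∀ᶠ y in 𝓝 x, g y = (A y).re) : ¬ Touch g x := by
  rintro ⟨F, μ, hμ, hF, h⟩
  have hd : AnalyticAt ℂ (fun y => Complex.exp (A y - F y)) x := by fun_prop
  have h1 := Complex.norm_eventually_eq_of_isLocalMax
    (hd.eventually_analyticAt.mono fun y hy => hy.differentiableAt) (by
      filter_upwards [h, hg] with y hy hy'
      simp only [Function.comp, Complex.norm_exp, Complex.sub_re, Real.exp_le_exp]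
      rw [← hy', ← hg.self_of_nhds]
      nlinarith [sq_nonneg ‖y - x‖])
  have h2 : ∀ᶠ y in 𝓝 x, y = x := by
    filter_upwards [h, hg, h1] with y hy hy' h3
    simp only [Complex.norm_exp, Complex.sub_re, Real.exp_eq_exp] at h3
    rw [← hy', ← hg.self_of_nhds] at h3
    have : ‖y - x‖ ^ 2 ≤ 0 := by nlinarith
    have : ‖y - x‖ = 0 := by nlinarith [norm_nonneg (y - x)]
    exact sub_eq_zero.1 (norm_eq_zero.1 this)
  obtain ⟨y, hy, hy'⟩ := ((h2.filter_mono nhdsWithin_le_nhds).and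
    (self_mem_nhdsWithin (s := {x}ᶜ))).exists
  exact hy' hy

lemma not_touch_cmp {V : Set ℂ} {f : ℂ → ℝ} {x : ℂ} {a : ℝ} (hV : V ∈ 𝓝 x) (hf : Cmp V f)
    (ha : 0 < a) : ¬ Touch (fun y => a * f y) x := by
  rintro ⟨F, μ, hμ, hF, h⟩
  obtain ⟨r, hr, hr'⟩ := nhds_basis_closedBall.eventually_iff.1
    (h.and (hF.eventually_analyticAt.and hV))
  let A : ℂ → ℂ := fun y => ((a⁻¹ : ℝ) : ℂ) * (F y + ((a * f x - (F x).re - μ * r ^ 2 : ℝ) : ℂ))
  have hA : ∀ y ∈ closedBall x r, AnalyticAt ℂ A y := fun y hy => by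
    have := (hr' hy).2.1
    fun_prop
  have hre : ∀ y, (A y).re = a⁻¹ * ((F y).re + (a * f x - (F x).re - μ * r ^ 2)) := fun y => by
    simp only [A, Complex.re_ofReal_mul, Complex.add_re, Complex.ofReal_re]
  have := hf x r (fun y => (A y).re) hr (fun y hy => (hr' hy).2.2)
    (fun y hy => (Complex.continuous_re.continuousAt.comp
      (hA y hy).continuousAt).continuousWithinAt)
    (fun y hy => (hA y (ball_subset_closedBall hy)).harmonicAt_re) (fun y hy => by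
      have h1 := (hr' (sphere_subset_closedBall hy)).1
      rw [mem_sphere, dist_eq_norm] at hy
      rw [hy] at h1
      rw [hre, le_inv_mul_iff₀ ha]; linarith) x (mem_closedBall_self hr.le)
  rw [hre, le_inv_mul_iff₀ ha] at this
  nlinarith [mul_pos hμ (pow_pos hr 2)]

lemma exists_touch {G : Set ℂ} {f : ℂ → ℝ} (hf : ContinuousOn f G) (h : ¬ Cmp G f) :
    ∃ x ∈ G, Touch f x := by
  unfold Cmp at h
  push Not at h
  obtain ⟨c, R, h, hR, hG, hc, hh, hb, z, hz, hlt⟩ := h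
  obtain ⟨F, hF, hFh⟩ := hh.exists_analyticOnNhd_ball_re_eq
  set η := (f z - h z) / (2 * R ^ 2) with hη
  have hη0 : 0 < η := by rw [hη]; have := sub_pos.2 hlt; positivity
  have hη1 : η * R ^ 2 = (f z - h z) / 2 := by rw [hη]; field_simp
  obtain ⟨x, hx, hmax⟩ := (isCompact_closedBall c R).exists_isMaxOn ⟨z, hz⟩
    (f := fun y => f y - h y + η * ‖y - c‖ ^ 2)
    (((hf.mono hG).sub hc).add (by fun_prop))
  have hxb : x ∈ ball c R := by
    by_contra hn
    have hs : x ∈ sphere c R := le_antisymm hx (not_lt.1 hn)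
    have h1 : f z - h z + η * ‖z - c‖ ^ 2 ≤ f x - h x + η * ‖x - c‖ ^ 2 := hmax hz
    have h2 := hb x hs
    rw [mem_sphere, dist_eq_norm] at hs
    rw [hs] at h1
    nlinarith [mul_nonneg hη0.le (sq_nonneg ‖z - c‖)]
  refine ⟨x, hG hx, touch_of_max (x0 := c) hη0 (hF x hxb) ?_⟩
  filter_upwards [isOpen_ball.mem_nhds hxb] with y hy
  have h1 : f y - h y + η * ‖y - c‖ ^ 2 ≤ f x - h x + η * ‖x - c‖ ^ 2 :=
    hmax (ball_subset_closedBall hy)
  rw [← hFh hy, ← hFh hxb] at h1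
  exact h1

lemma crit {g : ℂ → ℝ} {F : ℂ → ℂ} {μ : ℝ} {x x0 d : ℂ} (hg : HasFDerivAt g (0 : ℂ →L[ℝ] ℝ) x)
    (hF : HasDerivAt F d x) (h : IsLocalMax (fun y => g y - (F y).re + μ * ‖y - x0‖ ^ 2) x) :
    d = (2 * μ : ℝ) * conj (x - x0) := by
  have h1 := Complex.reCLM.hasFDerivAt.comp x (hF.hasFDerivAt.restrictScalars ℝ)
  have h2 := (((hasFDerivAt_id x).sub_const x0).norm_sq).const_mul μ
  have h3 := h.hasFDerivAt_eq_zero ((hg.sub h1).add h2)
  have a1 := DFunLike.congr_fun h3 1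
  have a2 := DFunLike.congr_fun h3 Complex.I
  simp [Complex.inner] at a1 a2
  apply Complex.ext <;> simp <;> linarith

lemma small_ball {u : ℂ → ℝ} {x0 : ℂ} {ρ R κ s : ℝ} (hρ : 0 < ρ) (hR : ρ ≤ R)
    (hu : ContinuousOn u (closedBall x0 R)) (hs : s < κ * ρ ^ 2) (hκ : 0 ≤ κ)
    (h : ∀ y ∈ closedBall x0 R, u y + κ * ‖y - x0‖ ^ 2 ≤ u x0 + s) :
    ∃ x ∈ ball x0 ρ, IsMaxOn u (closedBall x0 R) x := by
  obtain ⟨x, hx, hm⟩ := (isCompact_closedBall x0 R).exists_isMaxOn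
    ⟨x0, mem_closedBall_self (by linarith)⟩ hu
  refine ⟨x, ?_, hm⟩
  by_contra hn
  rw [mem_ball, dist_eq_norm, not_lt] at hn
  have h1 : u x0 ≤ u x := hm (mem_closedBall_self (by linarith))
  have h2 := h x hx
  have h3 : ρ ^ 2 ≤ ‖x - x0‖ ^ 2 := pow_le_pow_left₀ hρ.le hn 2
  nlinarith

lemma not_touch_flat {G : Set ℂ} {f : ℂ → ℝ} (hG : IsOpen G) (hf : DifferentiableOn ℝ f G) {x : ℂ}
    (hx : x ∈ G) (h : ∀ᶠ y in 𝓝 x, fderiv ℝ f y = fderiv ℝ f x) : ¬ Touch f x := by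
  obtain ⟨r, hr, hr'⟩ := nhds_basis_ball.eventually_iff.1 (h.and (hG.mem_nhds hx))
  set L := fderiv ℝ f x
  refine not_touch_an (A := fun y => (f x : ℂ) + ((L 1 : ℂ) - (L Complex.I : ℂ) * Complex.I) * (y - x))
    (by fun_prop) ?_
  filter_upwards [ball_mem_nhds x hr] with y hy
  have h1 := (convex_ball x r).norm_image_sub_le_of_norm_fderiv_le' (𝕜 := ℝ) (f := f) (φ := L) (C := 0)
    (fun z hz => hf.differentiableAt (hG.mem_nhds (hr' hz).2))
    (fun z hz => by rw [(hr' hz).1]; simp) (mem_ball_self hr) hy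
  rw [zero_mul, norm_le_zero_iff] at h1
  have h2 : L (y - x) = (y - x).re * L 1 + (y - x).im * L Complex.I := by
    conv_lhs => rw [show y - x = (y - x).re • (1 : ℂ) + (y - x).im • Complex.I by
      apply Complex.ext <;> simp]
    rw [map_add, map_smul, map_smul, smul_eq_mul, smul_eq_mul]
  simp only [Complex.add_re, Complex.mul_re, Complex.sub_re (L 1 : ℂ), Complex.sub_im (L 1 : ℂ),
    Complex.mul_im, Complex.ofReal_re, Complex.ofReal_im, Complex.I_re, Complex.I_im]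
  linarith

lemma exists_touch_ne {G : Set ℂ} {f : ℂ → ℝ} (hG : IsOpen G) (hf : DifferentiableOn ℝ f G) {x0 : ℂ}
    (hx : x0 ∈ G) (ht : Touch f x0) : ∃ x ∈ G, Touch f x ∧ fderiv ℝ f x ≠ 0 := by
  by_contra hn
  push Not at hn
  have hd : ∀ x ∈ G, Touch f x → HasFDerivAt f (0 : ℂ →L[ℝ] ℝ) x := fun x hx ht => by
    rw [← hn x hx ht]; exact (hf.differentiableAt (hG.mem_nhds hx)).hasFDerivAt
  obtain ⟨F, η, hη, hF, h⟩ := id ht
  have hF0 : deriv F x0 = 0 := by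
    have := crit (x0 := x0) (μ := η) (hd x0 hx ht) hF.differentiableAt.hasDerivAt
      (h.mono fun y hy => by simpa using hy)
    simpa using this
  set β := deriv (deriv F) x0
  obtain ⟨μ, hμ, hμη, hβ⟩ : ∃ μ : ℝ, 0 < μ ∧ μ < η ∧ 2 * μ ≠ ‖β‖ := by
    by_cases h1 : η = ‖β‖
    · exact ⟨η / 4, by linarith, by linarith, by linarith⟩
    · exact ⟨η / 2, by linarith, by linarith, by rwa [mul_div_cancel₀ _ two_ne_zero]⟩
  have hε : 0 < |2 * μ - ‖β‖| := abs_pos.2 (sub_ne_zero.2 hβ)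
  have hs := (hF.deriv.hasStrictDerivAt.hasStrictFDerivAt.isLittleO.def (half_pos hε))
  rw [nhds_prod_eq] at hs
  obtain ⟨W, hW, hW'⟩ : ∃ W ∈ 𝓝 x0, ∀ y ∈ W, ∀ z ∈ W,
      ‖deriv F y - deriv F z - (y - z) * β‖ ≤ |2 * μ - ‖β‖| / 2 * ‖y - z‖ := by
    obtain ⟨A, hA, B, hB, hAB⟩ := mem_prod_iff.1 hs
    refine ⟨A ∩ B, inter_mem hA hB, fun y hy z hz => ?_⟩
    simpa using hAB (mk_mem_prod hy.1 hz.2)
  obtain ⟨ρ, hρ, hρ'⟩ := nhds_basis_closedBall.eventually_iff.1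
    (h.and (hF.eventually_analyticAt.and
      (show ∀ᶠ y in 𝓝 x0, y ∈ W ∧ y ∈ G from Filter.inter_mem hW (hG.mem_nhds hx))))
  refine not_touch_flat hG hf hx ?_ ht
  have hc : ContinuousAt (fun y => (2 * μ : ℝ) * conj (y - x0) - deriv F y) x0 :=
    (by fun_prop : ContinuousAt (fun y => ((2 * μ : ℝ) : ℂ) * conj (y - x0)) x0).sub
      hF.deriv.continuousAt
  have hc' := hc.norm.eventually (gt_mem_nhds (show _ < (η - μ) * ρ by
    simp [hF0]; exact mul_pos (by linarith) hρ))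
  filter_upwards [hc', closedBall_mem_nhds x0 hρ] with y hy hyb
  set q := (2 * μ : ℝ) * conj (y - x0) - deriv F y with hq
  obtain ⟨z, hz, hm⟩ := small_ball (u := fun w => f w - (F w + q * (w - x0)).re + μ * ‖w - x0‖ ^ 2)
    (x0 := x0) (κ := η - μ) (s := ‖q‖ * ρ) hρ le_rfl (fun w hw => by
      have h1 := (hf.differentiableAt (hG.mem_nhds (hρ' hw).2.2.2)).continuousAt
      have h2 := (hρ' hw).2.1.continuousAt
      exact ContinuousAt.continuousWithinAt (by fun_prop)) (by nlinarith) (by linarith)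
    (fun w hw => by
      have h1 := (hρ' hw).1
      have h2 : |(q * (w - x0)).re| ≤ ‖q‖ * ρ := (Complex.abs_re_le_norm _).trans (by
        rw [norm_mul]; exact mul_le_mul_of_nonneg_left (mem_closedBall_iff_norm.1 hw) (norm_nonneg _))
      have h3 := abs_le.1 h2
      simp only [Complex.add_re, sub_self, mul_zero, norm_zero, add_zero]
      nlinarith)
  have hzb := ball_subset_closedBall hz
  have hl := hm.isLocalMax (mem_of_superset (isOpen_ball.mem_nhds hz) ball_subset_closedBall)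
  have hA := (hρ' hzb).2.1
  have htz : Touch f z := touch_of_max hμ (F := fun w => F w + q * (w - x0)) (by fun_prop) hl
  have h4 := crit (hd z (hρ' hzb).2.2.2 htz) (hA.differentiableAt.hasDerivAt.add
    (((hasDerivAt_id z).sub_const x0).const_mul q)) hl
  have h5 := hW' y (hρ' hyb).2.2.1 z (hρ' hzb).2.2.1
  have h6 : deriv F y - deriv F z = (2 * μ : ℝ) * conj (y - z) := by
    rw [show y - z = (y - x0) - (z - x0) by ring, map_sub, mul_sub, ← h4, hq]; ring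
  have h7 := abs_norm_sub_norm_le ((2 * μ : ℝ) * conj (y - z)) ((y - z) * β)
  rw [norm_mul, norm_mul, Complex.norm_conj, Complex.norm_real, Real.norm_of_nonneg (by linarith),
    mul_comm _ ‖β‖, ← sub_mul, abs_mul, abs_norm] at h7
  rw [h6] at h5
  have h8 : ‖y - z‖ = 0 := by nlinarith [norm_nonneg (y - z)]
  rw [sub_eq_zero.1 (norm_eq_zero.1 h8), hn z (hρ' hzb).2.2.2 htz, hn x0 hx ht]

end Pool.Agent.H12.Sub
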