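import Pool.Agent.H12.Sub1

/-! The one-parameter family `a f - φ` and the covering estimate. -/

open Metric Filter Topology Set InnerProductSpace MeasureTheory
open scoped ENNReal

namespace Pool.Agent.H12.Sub

lemma chain {E : Type*} [NormedAddCommGroup E] {g : ℂ → E} {B : Set ℂ} (hB : Convex ℝ B) {t W : ℝ}
    (h : ∀ y ∈ B, ∀ z ∈ B, ‖y - z‖ ≤ t → ‖g y - g z‖ ≤ W) (n : ℕ) :
    ∀ y ∈ B, ∀ z ∈ B, ‖y - z‖ ≤ n * t → ‖g y - g z‖ ≤ n * W := by
  induction n with
  | zero =>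
    intro y _ z _ hyz
    rw [Nat.cast_zero, zero_mul, norm_le_zero_iff, sub_eq_zero] at hyz
    simp [hyz]
  | succ n ih =>
    intro y hy z hz hyz
    push_cast at hyz ⊢
    have hn : (0 : ℝ) < n + 1 := by positivity
    set θ : ℝ := 1 / (n + 1) with hθ
    have hθ0 : 0 ≤ θ := by positivity
    have hθ1 : θ * (n + 1) = 1 := by rw [hθ]; field_simp
    have hn0 : (0 : ℝ) ≤ n := by positivity
    have hw : z + θ • (y - z) ∈ B := hB.add_smul_sub_mem hz hy ⟨hθ0, by nlinarith⟩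
    have h0 : θ * ‖y - z‖ ≤ t := by
      have := mul_le_mul_of_nonneg_left hyz hθ0
      rwa [← mul_assoc, hθ1, one_mul] at this
    have h1 := h _ hw z hz (by rw [add_sub_cancel_left, norm_smul, Real.norm_of_nonneg hθ0]; exact h0)
    have h2 := ih y hy _ hw (by
      rw [show y - (z + θ • (y - z)) = (n * θ : ℝ) • (y - z) by
        rw [show (n * θ : ℝ) = 1 - θ by linarith, sub_smul, one_smul]; abel,
        norm_smul, Real.norm_of_nonneg (by positivity), mul_assoc]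
      exact mul_le_mul_of_nonneg_left h0 hn0)
    have := norm_sub_le_norm_sub_add_norm_sub (g y) (g (z + θ • (y - z))) (g z)
    linarith

/-- the key local estimate -/
lemma key {G V : Set ℂ} {f : ℂ → ℝ} (hG : IsOpen G) (hV : IsOpen V) (hf : ContDiffOn ℝ 1 f G)
    (hc : Cmp V f) {x1 : ℂ} (hx : x1 ∈ G) (ht : Touch f x1) (hne : fderiv ℝ f x1 ≠ 0) :
    ∃ (B : Set ℂ) (s K t1 : ℝ) (p : ℝ → ℂ), IsCompact B ∧ B ⊆ G ∧ 0 < s ∧ 0 < K ∧ 0 < t1 ∧
      (∀ a ∈ Icc (1 - s) (1 + s), p a ∈ G \ V) ∧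
      ∀ a ∈ Icc (1 - s) (1 + s), ∀ b ∈ Icc (1 - s) (1 + s), ∀ t W : ℝ, 0 < t → t ≤ t1 →
        |f (p a) - f (p b)| ≤ t →
        (∀ y ∈ B, ∀ z ∈ B, ‖y - z‖ ≤ t → ‖fderiv ℝ f y - fderiv ℝ f z‖ ≤ W) → |a - b| ≤ K * W := by
  have hfd : DifferentiableOn ℝ f G := hf.differentiableOn one_ne_zero
  obtain ⟨F, η, hη, hF, h⟩ := id ht
  obtain ⟨v, hv⟩ : ∃ v, fderiv ℝ f x1 v = 2 := by
    obtain ⟨w, hw⟩ := DFunLike.ne_iff.1 hne
    refine ⟨(2 / fderiv ℝ f x1 w) • w, ?_⟩
    rw [map_smul, smul_eq_mul, div_mul_cancel₀ _ (by simpa using hw)]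
  have hv0 : 0 < ‖v‖ := norm_pos_iff.2 (by rintro rfl; simp at hv)
  set S : ℂ → ℝ := fun y => -(F y).re + η / 2 * ‖y - x1‖ ^ 2 with hS
  have hS2 : ContDiffAt ℝ 2 S x1 :=
    (hF.harmonicAt_re.1.neg).add (contDiffAt_const.mul
      ((contDiffAt_id.sub contDiffAt_const).norm_sq ℝ))
  obtain ⟨L, U, hU, hL⟩ := (hS2.fderiv_right (m := 1) (by norm_num)).exists_lipschitzOnWith
  have hcont : ContinuousAt (fderiv ℝ f) x1 :=
    (hf.continuousOn_fderiv_of_isOpen hG le_rfl).continuousAt (hG.mem_nhds hx)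
  have hnear : ∀ᶠ y in 𝓝 x1, ‖fderiv ℝ f y - fderiv ℝ f x1‖ < ‖v‖⁻¹ :=
    (hcont.sub continuousAt_const).norm.eventually (gt_mem_nhds (by simpa using hv0))
  obtain ⟨R, hR, hR'⟩ := nhds_basis_closedBall.eventually_iff.1
    (h.and (hF.eventually_analyticAt.and (hnear.and ((hS2.eventually (by simp)).and
      (show ∀ᶠ y in 𝓝 x1, y ∈ U ∧ y ∈ G from Filter.inter_mem hU (hG.mem_nhds hx))))))
  set B := closedBall x1 R with hB
  have hBG : B ⊆ G := fun y hy => (hR' hy).2.2.2.2.2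
  have df : ∀ y ∈ B, DifferentiableAt ℝ f y := fun y hy => hfd.differentiableAt (hG.mem_nhds (hBG hy))
  have dS : ∀ y ∈ B, DifferentiableAt ℝ S y := fun y hy =>
    (hR' hy).2.2.2.1.differentiableAt two_ne_zero
  obtain ⟨y0, hy0, hy0'⟩ : ∃ y ∈ B, fderiv ℝ f y ≠ fderiv ℝ f x1 := by
    by_contra hn
    push Not at hn
    exact not_touch_flat hG hfd hx (mem_of_superset (closedBall_mem_nhds x1 hR) hn) ht
  have hc0 : 0 < ‖fderiv ℝ f y0 - fderiv ℝ f x1‖ := norm_pos_iff.2 (sub_ne_zero.2 hy0')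
  set c0 := ‖fderiv ℝ f y0 - fderiv ℝ f x1‖ with hc0e
  obtain ⟨M, hM⟩ := (isCompact_closedBall x1 R).exists_bound_of_continuousOn
    ((hf.continuousOn.mono hBG).sub (continuousOn_const (c := f x1)))
  have hM0 : 0 ≤ M := (norm_nonneg _).trans (hM x1 (mem_closedBall_self hR.le))
  set s := min (1 / 2) (η / 2 * (R / 2) ^ 2 / (M + 1)) with hs
  have hs0 : 0 < s := lt_min (by norm_num) (by positivity)
  have hs1 : s ≤ 1 / 2 := min_le_left _ _
  have hs2 : s * M < η / 2 * (R / 2) ^ 2 := by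
    have := (le_div_iff₀ (by positivity)).1 (min_le_right (1 / 2) (η / 2 * (R / 2) ^ 2 / (M + 1)))
    nlinarith
  have hp : ∀ a : ℝ, ∃ x, a ∈ Icc (1 - s) (1 + s) →
      x ∈ ball x1 (R / 2) ∧ IsMaxOn (fun y => a * f y + S y) B x := fun a => by
    by_cases ha : a ∈ Icc (1 - s) (1 + s)
    · obtain ⟨x, hx⟩ := small_ball (u := fun y => a * f y + S y) (x0 := x1) (κ := η / 2)
        (s := s * M) (half_pos hR) (half_le_self hR.le) (fun y hy =>
          (((df y hy).continuousAt.const_mul a).add (dS y hy).continuousAt).continuousWithinAt)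
        hs2 (by linarith) (fun y hy => by
          have h1 := (hR' hy).1
          have h2 : |(a - 1) * (f y - f x1)| ≤ s * M := by
            rw [abs_mul]
            exact mul_le_mul (abs_le.2 ⟨by linarith [ha.1], by linarith [ha.2]⟩) (hM y hy)
              (abs_nonneg _) hs0.le
          have h3 := (abs_le.1 h2).2
          simp only [hS, sub_self, norm_zero]
          nlinarith)
      exact ⟨x, fun _ => hx⟩
    · exact ⟨0, fun h => absurd h ha⟩
  choose p hp using hp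
  have hsub : ball x1 (R / 2) ⊆ ball x1 R := ball_subset_ball (half_le_self hR.le)
  have hpB : ∀ a ∈ Icc (1 - s) (1 + s), p a ∈ B := fun a ha =>
    ball_subset_closedBall (hsub (hp a ha).1)
  have hloc : ∀ a ∈ Icc (1 - s) (1 + s), IsLocalMax (fun y => a * f y + S y) (p a) := fun a ha =>
    (hp a ha).2.isLocalMax (mem_of_superset (isOpen_ball.mem_nhds (hsub (hp a ha).1))
      ball_subset_closedBall)
  set N : ℕ := ⌈2 * ‖v‖⌉₊ with hN
  set t1 := R / (4 * ‖v‖) with ht1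
  have ht10 : 0 < t1 := by positivity
  set K := 2 * ‖v‖ * (2 * N + L * (2 * ‖v‖) * ((R + t1) / c0)) + 1 with hK
  have main : ∀ a ∈ Icc (1 - s) (1 + s), ∀ b ∈ Icc (1 - s) (1 + s), ∀ t W : ℝ, 0 < t → t ≤ t1 →
      |f (p a) - f (p b)| ≤ t →
      (∀ y ∈ B, ∀ z ∈ B, ‖y - z‖ ≤ t → ‖fderiv ℝ f y - fderiv ℝ f z‖ ≤ W) → a - b ≤ K * W := by
    intro a ha b hb t W ht0 htt hab hW
    have hW0 : 0 ≤ W := (norm_nonneg _).trans (hW x1 (mem_closedBall_self hR.le) x1
      (mem_closedBall_self hR.le) (by simpa using ht0.le))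
    rcases le_or_gt a b with hle | hlt
    · have : 0 ≤ K * W := by positivity
      linarith
    have hch := chain (convex_closedBall x1 R) hW
    have h1 : t ≤ (R + t1) / c0 * W := by
      have h2 := hch ⌈R / t⌉₊ y0 hy0 x1 (mem_closedBall_self hR.le)
        ((mem_closedBall_iff_norm.1 hy0).trans ((div_le_iff₀ ht0).1 (Nat.le_ceil _)))
      have h3 := (Nat.ceil_lt_add_one (show 0 ≤ R / t by positivity)).le
      have h4 : c0 * t ≤ (R / t + 1) * W * t :=
        mul_le_mul_of_nonneg_right (h2.trans (mul_le_mul_of_nonneg_right h3 hW0)) ht0.le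
      have h5 : (R / t + 1) * W * t = (R + t) * W := by field_simp
      rw [div_mul_eq_mul_div, le_div_iff₀ hc0]
      nlinarith
    set r := 2 * t * ‖v‖ with hr
    have hrR : r ≤ R / 2 := by
      have := (le_div_iff₀ (by positivity)).1 htt
      linarith
    have hDB : closedBall (p a) r ⊆ B := closedBall_subset_closedBall' (by
      have := (mem_ball.1 (hp a ha).1).le
      linarith)
    have hyn : ‖p a - (2 * t) • v - p a‖ = r := by
      rw [sub_sub_cancel_left, norm_neg, norm_smul, Real.norm_of_nonneg (by positivity)]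
    have hy : p a - (2 * t) • v ∈ closedBall (p a) r := mem_closedBall_iff_norm.2 hyn.le
    have hpa : p a ∈ closedBall (p a) r := mem_closedBall_self (by positivity)
    have e1 := (convex_closedBall x1 R).norm_image_sub_le_of_norm_fderiv_le' (𝕜 := ℝ) df
      (fun z hz => (hR' hz).2.2.1.le) (hpB a ha) (hDB hy)
    rw [hyn, sub_sub_cancel_left, map_neg, map_smul, hv, smul_eq_mul, Real.norm_eq_abs,
      show ‖v‖⁻¹ * r = 2 * t by rw [hr]; field_simp] at e1
    have e2 := (abs_le.1 e1).2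
    have du : ∀ z ∈ B, HasFDerivAt (fun y => a * f y + S y)
        (a • fderiv ℝ f z + fderiv ℝ S z) z := fun z hz =>
      ((df z hz).hasFDerivAt.const_mul a).add (dS z hz).hasFDerivAt
    have d0 := (hloc a ha).hasFDerivAt_eq_zero (du _ (hpB a ha))
    have e3 := (convex_closedBall (p a) r).norm_image_sub_le_of_norm_hasFDerivWithin_le
      (C := 2 * (N * W) + L * r) (fun z hz => (du z (hDB hz)).hasFDerivWithinAt) (fun z hz => by
        have hz' := mem_closedBall_iff_norm.1 hz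
        have g1 := hch N z (hDB hz) _ (hpB a ha) (hz'.trans (by
          rw [hr, mul_right_comm]; exact mul_le_mul_of_nonneg_right (Nat.le_ceil _) ht0.le))
        have g2 := (hL.norm_sub_le (hR' (hDB hz)).2.2.2.2.1 (hR' (hpB a ha)).2.2.2.2.1).trans
          (mul_le_mul_of_nonneg_left hz' L.2)
        rw [← sub_zero (_ + _), ← d0, add_sub_add_comm, ← smul_sub]
        refine (norm_add_le _ _).trans (add_le_add ?_ g2)
        rw [norm_smul, Real.norm_of_nonneg (by linarith [ha.1])]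
        exact mul_le_mul (by linarith [ha.2]) g1 (norm_nonneg _) (by norm_num)) hpa hy
    rw [hyn, Real.norm_eq_abs] at e3
    have e4 := (abs_le.1 e3).1
    have e5 : b * f (p a - (2 * t) • v) + S (p a - (2 * t) • v) ≤ b * f (p b) + S (p b) :=
      (hp b hb).2 (hDB hy)
    have e6 : a * f (p b) + S (p b) ≤ a * f (p a) + S (p a) := (hp a ha).2 (hpB b hb)
    have e7 := (abs_le.1 hab).2
    have e8 : (a - b) * t ≤ (a - b) * (f (p b) - f (p a - (2 * t) • v)) :=
      mul_le_mul_of_nonneg_left (by linarith) (by linarith)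
    have e9 : (a - b) * t ≤ (2 * ‖v‖ * (2 * (N * W) + L * r)) * t := by
      have : (2 * (N * W) + L * r) * r = (2 * ‖v‖ * (2 * (N * W) + L * r)) * t := by rw [hr]; ring
      linarith
    have e10 := le_of_mul_le_mul_right e9 ht0
    have e11 : L * r ≤ L * (2 * ‖v‖) * ((R + t1) / c0 * W) := by
      rw [hr, show (L : ℝ) * (2 * t * ‖v‖) = L * (2 * ‖v‖) * t by ring]
      exact mul_le_mul_of_nonneg_left h1 (by positivity)
    have e12 := mul_le_mul_of_nonneg_left e11 (show 0 ≤ 2 * ‖v‖ by positivity)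
    rw [hK]; nlinarith
  refine ⟨B, s, K, t1, p, isCompact_closedBall _ _, hBG, hs0, by positivity, ht10,
    fun a ha => ⟨hBG (hpB a ha), fun hV' => ?_⟩, fun a ha b hb t W h1 h2 h3 h4 =>
      abs_sub_le_iff.2 ⟨main a ha b hb t W h1 h2 h3 h4,
        main b hb a ha t W h1 h2 (by rwa [abs_sub_comm]) h4⟩⟩
  refine not_touch_cmp (hV.mem_nhds hV') hc (a := a) (by linarith [ha.1])
    (touch_of_max (x0 := x1) (half_pos hη) (hR' (hpB a ha)).2.1 ?_)
  simpa only [hS, sub_eq_add_neg, add_assoc] using hloc a ha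

/-- covering estimate -/
lemma cover {ω : ℝ → ℝ} (hω : ContinuousOn ω (Ici 0)) {I : Set ℝ} {τ : ℝ → ℝ} {C t0 : ℝ}
    (hC' : 0 < C) (ht0 : 0 < t0)
    (h : ∀ a ∈ I, ∀ b ∈ I, ∀ t, 0 < t → t < t0 → |τ a - τ b| ≤ t → |a - b| ≤ C * ω t) (E : Set ℝ) :
    volume (I ∩ τ ⁻¹' E) ≤ ENNReal.ofReal C *
      Measure.mkMetric (fun d : ℝ≥0∞ => ENNReal.ofReal (ω d.toReal)) E := by
  have hC := hC'.le
  rw [Measure.mkMetric_apply]
  refine le_trans ?_ (mul_le_mul_right (le_iSup₂ (f := fun (r : ℝ≥0∞) (_ : 0 < r) => _)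
    (ENNReal.ofReal (t0 / 2)) (ENNReal.ofReal_pos.2 (half_pos ht0))) _)
  have one : ∀ U : Set ℝ, ediam U ≤ ENNReal.ofReal (t0 / 2) → volume (I ∩ τ ⁻¹' U) ≤
      ENNReal.ofReal C * ⨆ _ : U.Nonempty, ENNReal.ofReal (ω (ediam U).toReal) := fun U hU => by
    rcases U.eq_empty_or_nonempty with rfl | hne
    · simp
    rw [iSup_pos hne, ← ENNReal.ofReal_mul hC]
    refine (Real.volume_le_diam _).trans (ediam_le fun a ha b hb => ?_)
    rw [edist_dist, Real.dist_eq]
    refine ENNReal.ofReal_le_ofReal ?_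
    have hfin : ediam U ≠ ⊤ := ne_top_of_le_ne_top ENNReal.ofReal_ne_top hU
    have hd : (ediam U).toReal ≤ t0 / 2 := ENNReal.toReal_le_of_le_ofReal (by positivity) hU
    have hd0 : 0 ≤ (ediam U).toReal := ENNReal.toReal_nonneg
    have hab : |τ a - τ b| ≤ (ediam U).toReal := dist_le_diam_of_mem' hfin ha.2 hb.2
    set d := (ediam U).toReal
    have hlim : Tendsto (fun t => C * ω t) (𝓝[>] d) (𝓝 (C * ω d)) :=
      ((hω d hd0).mono fun t ht => hd0.trans (le_of_lt ht)).tendsto.const_mul C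
    refine ge_of_tendsto hlim ?_
    filter_upwards [Ioo_mem_nhdsGT (show d < t0 by linarith)] with t ht
    exact h a ha.1 b hb.1 t (hd0.trans_lt ht.1) ht.2 (hab.trans ht.1.le)
  have c1 : ENNReal.ofReal C ≠ 0 := (ENNReal.ofReal_pos.2 hC').ne'
  simp only [ENNReal.mul_iInf_of_ne c1 ENNReal.ofReal_ne_top]
  refine le_iInf fun U => le_iInf fun hU => le_iInf fun hd => ?_
  rw [← ENNReal.tsum_mul_left]
  refine le_trans (measure_mono (t := ⋃ n, I ∩ τ ⁻¹' U n) fun a ha => ?_)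
    ((measure_iUnion_le _).trans (ENNReal.tsum_le_tsum fun n => one _ (hd n)))
  obtain ⟨n, hn⟩ := mem_iUnion.1 (hU ha.2)
  exact mem_iUnion.2 ⟨n, ha.1, hn⟩

end Pool.Agent.H12.Sub
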