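import Mathlib

/-! A three-body lower bound in a cube. -/

open MeasureTheory Set ENNReal

namespace Pool.Agent.H12.TB1

abbrev E := Fin 3 → ℝ

lemma lint_aff {G : Type*} [NormedAddCommGroup G] [NormedSpace ℝ G] [MeasurableSpace G]
    [BorelSpace G] [FiniteDimensional ℝ G] (μ : Measure G) [μ.IsAddHaarMeasure]
    (f : G → ℝ≥0∞) (b : G) {r : ℝ} (hr : r ≠ 0) :
    ∫⁻ y, f (b + r • y) ∂μ = ENNReal.ofReal |(r ^ Module.finrank ℝ G)⁻¹| * ∫⁻ y, f y ∂μ := by
  have := lintegral_map_equiv (μ := μ) (fun y => f (b + y)) (MeasurableEquiv.smul₀ r hr)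
  rw [show (MeasurableEquiv.smul₀ r hr : G → G) = (r • ·) from rfl, Measure.map_addHaar_smul μ hr,
    lintegral_smul_measure, lintegral_add_left_eq_self] at this
  exact this.symm

lemma int3 {τ : ℝ} (hτ : 0 < τ) : ∫ t in (0 : ℝ)..1, ((t + τ) ^ 3)⁻¹ ≤ (2 * τ ^ 2)⁻¹ := by
  rw [intervalIntegral.integral_eq_sub_of_hasDerivAt (f := fun t => -(2 * (t + τ) ^ 2)⁻¹)]
  · simp only [zero_add]
    have : 0 ≤ (2 * (1 + τ) ^ 2)⁻¹ := by positivity
    linarith
  · intro t ht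
    rw [uIcc_of_le zero_le_one] at ht
    have h : 0 < t + τ := by linarith [ht.1]
    have := (((((hasDerivAt_id t).add_const τ).pow 2).const_mul 2).inv (by
      simp only [id, Pi.pow_apply]; positivity)).neg
    refine this.congr_deriv ?_
    simp only [id, Pi.pow_apply]
    field_simp
    norm_num
  · refine ContinuousOn.intervalIntegrable (ContinuousOn.inv₀ (by fun_prop) fun t ht => ?_)
    rw [uIcc_of_le zero_le_one] at ht
    have h : 0 < t + τ := by linarith [ht.1]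
    positivity

lemma path_real {φ φ' : ℝ → ℂ} (h : ∀ t, HasDerivAt φ (φ' t) t) (hc : Continuous φ') {τ : ℝ}
    (hτ : 0 < τ) : ‖φ 1‖ ^ 2 ≤ 2 * ‖φ 0‖ ^ 2 +
      (τ ^ 2)⁻¹ * ∫ t in (0 : ℝ)..1, (t + τ) ^ 3 * ‖φ' t‖ ^ 2 := by
  have h1 : ‖φ 1 - φ 0‖ ≤ ∫ t in (0 : ℝ)..1, ‖φ' t‖ := by
    rw [← intervalIntegral.integral_eq_sub_of_hasDerivAt (fun t _ => h t)
      (hc.intervalIntegrable _ _)]
    exact intervalIntegral.norm_integral_le_integral_norm zero_le_one
  set I := ∫ t in (0 : ℝ)..1, ‖φ' t‖ with hI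
  have hi : IntervalIntegrable (fun t => ((t + τ) ^ 3)⁻¹) volume 0 1 := by
    refine ContinuousOn.intervalIntegrable (ContinuousOn.inv₀ (by fun_prop) fun t ht => ?_)
    rw [uIcc_of_le zero_le_one] at ht
    have h : 0 < t + τ := by linarith [ht.1]
    positivity
  have h2 := intervalIntegral.integral_mono_on (μ := volume) zero_le_one
    (f := fun t => 4 * τ ^ 2 * I * ‖φ' t‖)
    (g := fun t => (t + τ) ^ 3 * ‖φ' t‖ ^ 2 + 4 * τ ^ 4 * I ^ 2 * ((t + τ) ^ 3)⁻¹)
    (Continuous.intervalIntegrable (by fun_prop) _ _)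
    ((Continuous.intervalIntegrable (by fun_prop) _ _).add (hi.const_mul _)) fun t ht => by
      have h : 0 < (t + τ) ^ 3 := pow_pos (by linarith [ht.1]) _
      generalize (t + τ) ^ 3 = w at h
      have : w * ‖φ' t‖ ^ 2 + 4 * τ ^ 4 * I ^ 2 * w⁻¹ - 4 * τ ^ 2 * I * ‖φ' t‖ =
        (w * ‖φ' t‖ - 2 * τ ^ 2 * I) ^ 2 / w := by field_simp; ring
      have h3 : 0 ≤ (w * ‖φ' t‖ - 2 * τ ^ 2 * I) ^ 2 / w := by positivity
      linarith
  rw [intervalIntegral.integral_add (Continuous.intervalIntegrable (by fun_prop) _ _)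
    (hi.const_mul _), intervalIntegral.integral_const_mul, intervalIntegral.integral_const_mul,
    ← hI] at h2
  have h3 : 4 * τ ^ 4 * I ^ 2 * ∫ t in (0 : ℝ)..1, ((t + τ) ^ 3)⁻¹ ≤ 2 * τ ^ 2 * I ^ 2 :=
    (mul_le_mul_of_nonneg_left (int3 hτ) (by positivity)).trans_eq (by field_simp; ring)
  have h4 : 2 * I ^ 2 ≤ (τ ^ 2)⁻¹ * ∫ t in (0 : ℝ)..1, (t + τ) ^ 3 * ‖φ' t‖ ^ 2 := by
    rw [le_inv_mul_iff₀ (by positivity)]; linarith
  have h5 := norm_le_norm_add_norm_sub' (φ 1) (φ 0)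
  have h6 : ‖φ 1‖ ^ 2 ≤ (‖φ 0‖ + I) ^ 2 := pow_le_pow_left₀ (norm_nonneg _) (by linarith) _
  nlinarith [sq_nonneg (‖φ 0‖ - I)]

/-- `g` controls the variation of `F` along segments -/
def PathIneq (F g : E × E × E → ℝ≥0∞) : Prop := ∀ τ : ℝ, 0 < τ → ∀ p h, F (p + h) ≤ 2 * F p +
  ENNReal.ofReal (‖h‖ ^ 2 / τ ^ 2) * ∫⁻ t in Ioo (0 : ℝ) 1, ENNReal.ofReal ((t + τ) ^ 3) * g (p + t • h)

/-- starting point of the paths -/
noncomputable def p0 (c : E) (a : ℝ) (z : E × (E × E) × E × E) : E × E × E :=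
  ((1 / 2 : ℝ) • (c + z.1), ((1 / 2 : ℝ) • (c + z.1), (1 / 2 : ℝ) • (c + z.1)) - a • z.2.2)

lemma path_avg {A : Set (E × E)} {Q : Set E} {a s t : ℝ} (c : E) (ha : 0 < a) (has : 2 * a ≤ s)
    (hQ : volume Q ≤ ENNReal.ofReal (s ^ 3)) (ht0 : 0 ≤ t) (ht1 : t ≤ 1)
    {G : E × E × E → ℝ≥0∞} (hG : Measurable G) :
    ∫⁻ z in Q ×ˢ (Q ×ˢ Q) ×ˢ A, G (p0 c a z + t • ((z.1, z.2.1) - p0 c a z)) ≤
      2 ^ 15 * (1 + volume A) * ENNReal.ofReal (((t + a / s) ^ 6)⁻¹) * ∫⁻ p, G p := by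
  have hs : 0 < s := by linarith
  have : (volume : Measure (E × E)).IsAddHaarMeasure := Measure.prod.instIsAddHaarMeasure _ _
  have hm : Measurable fun z => G (p0 c a z + t • ((z.1, z.2.1) - p0 c a z)) :=
    hG.comp (by unfold p0; fun_prop)
  have hm' : ∀ x, Measurable fun y => G (p0 c a (x, y) + t • (((x, y).1, (x, y).2.1) -
    p0 c a (x, y))) := fun x => hm.comp measurable_prodMk_left
  have h1 : ∀ D : ℝ≥0∞, ∫⁻ x in Q, (∫⁻ Y, G (((1 - t) / 2) • c + ((1 + t) / 2) • x, Y)) * D ≤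
      (8 * ∫⁻ p, G p) * D := fun D => by
    refine (setLIntegral_le_lintegral _ _).trans ?_
    rw [lint_aff volume (fun x => (∫⁻ Y, G (x, Y)) * D) _ (by positivity),
      lintegral_mul_const _ hG.lintegral_prod_right', ← lintegral_prod _ hG.aemeasurable,
      ← Measure.volume_eq_prod, ← mul_assoc]
    gcongr
    rw [show (8 : ℝ≥0∞) = ENNReal.ofReal 8 by simp]
    refine ENNReal.ofReal_le_ofReal ?_
    rw [Module.finrank_fin_fun, abs_of_pos (by positivity), inv_le_comm₀ (by positivity)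
      (by norm_num)]
    exact le_trans (by norm_num) (pow_le_pow_left₀ (a := 1 / 2) (by norm_num) (by linarith) 3)
  have h6 : Module.finrank ℝ (E × E) = 6 := by simp
  rw [Measure.volume_eq_prod, ← Measure.prod_restrict, lintegral_prod _ hm.aemeasurable]
  have hτ : 0 < a / s := by positivity
  rcases le_total t (a / s) with h | h
  · have h2 : a / s ≤ 1 / 2 := by rw [div_le_iff₀ hs]; linarith
    refine le_trans (lintegral_mono fun x => ?_) ((h1 (ENNReal.ofReal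
      (2 ^ 12 * ((t + a / s) ^ 6)⁻¹))).trans ?_)
    · rw [Measure.volume_eq_prod, ← Measure.prod_restrict,
        lintegral_prod _ (hm' x).aemeasurable]
      refine le_trans (lintegral_mono (g := fun _ => ENNReal.ofReal |((-((1 - t) * a)) ^ 6)⁻¹| *
        ∫⁻ Y, G (((1 - t) / 2) • c + ((1 + t) / 2) • x, Y)) fun Y => ?_) ?_
      · refine (setLIntegral_le_lintegral _ _).trans_eq ?_
        rw [← h6, ← lint_aff volume _ ((1 - t) • ((1 / 2 : ℝ) • (c + x), (1 / 2 : ℝ) • (c + x)) +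
          t • Y) (neg_ne_zero.mpr (mul_pos (by linarith) ha).ne')]
        refine lintegral_congr fun U => congrArg G (Prod.ext ?_ ?_) <;>
          simp only [p0, Prod.fst_add, Prod.snd_add, Prod.smul_fst, Prod.smul_snd, Prod.fst_sub,
            Prod.snd_sub] <;> module
      · rw [setLIntegral_const, Measure.volume_eq_prod, Measure.prod_prod, mul_comm (ENNReal.ofReal _),
          mul_assoc]
        gcongr
        refine le_trans (by gcongr) (?_ : ENNReal.ofReal |((-((1 - t) * a)) ^ 6)⁻¹| *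
          (ENNReal.ofReal (s ^ 3) * ENNReal.ofReal (s ^ 3)) ≤ _)
        rw [← ENNReal.ofReal_mul (by positivity), ← ENNReal.ofReal_mul (by positivity)]
        refine ENNReal.ofReal_le_ofReal ?_
        have h3 : 0 < 1 - t := by linarith
        rw [Even.neg_pow (by decide), abs_of_pos (by positivity), ← div_eq_mul_inv,
          le_div_iff₀ (by positivity), inv_mul_eq_div, div_mul_eq_mul_div,
          div_le_iff₀ (by positivity)]
        have h4 : s * (t + a / s) ≤ 4 * ((1 - t) * a) := by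
          rw [le_div_iff₀ hs] at h
          rw [mul_add, mul_div_cancel₀ _ hs.ne']
          nlinarith
        calc _ = (s * (t + a / s)) ^ 6 := by ring
          _ ≤ (4 * ((1 - t) * a)) ^ 6 := by gcongr
          _ = _ := by ring
    · rw [ENNReal.ofReal_mul (by positivity), ENNReal.ofReal_pow (by norm_num)]
      simp only [ENNReal.ofReal_ofNat]
      calc _ = 2 ^ 15 * 1 * ENNReal.ofReal (((t + a / s) ^ 6)⁻¹) * ∫⁻ p, G p := by ring
        _ ≤ _ := by gcongr; exact le_self_add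
  · have ht : 0 < t := hτ.trans_le h
    refine le_trans (lintegral_mono fun x => ?_) ((h1 (ENNReal.ofReal
      (2 ^ 12 * ((t + a / s) ^ 6)⁻¹) * volume A)).trans ?_)
    · rw [Measure.volume_eq_prod, ← Measure.prod_restrict,
        lintegral_prod_symm _ (hm' x).aemeasurable]
      refine le_trans (lintegral_mono (g := fun _ => ENNReal.ofReal |(t ^ 6)⁻¹| *
        ∫⁻ Y, G (((1 - t) / 2) • c + ((1 + t) / 2) • x, Y)) fun U => ?_) ?_
      · refine (setLIntegral_le_lintegral _ _).trans_eq ?_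
        rw [← h6, ← lint_aff volume _ ((1 - t) • (((1 / 2 : ℝ) • (c + x), (1 / 2 : ℝ) • (c + x)) -
          a • U)) ht.ne']
        refine lintegral_congr fun U => congrArg G (Prod.ext ?_ ?_) <;>
          simp only [p0, Prod.fst_add, Prod.snd_add, Prod.smul_fst, Prod.smul_snd, Prod.fst_sub,
            Prod.snd_sub] <;> module
      · rw [setLIntegral_const, mul_comm (ENNReal.ofReal _), mul_assoc]
        gcongr
        rw [abs_of_pos (by positivity), ← div_eq_mul_inv, le_div_iff₀ (by positivity),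
          inv_mul_eq_div, div_le_iff₀ (by positivity)]
        calc _ ≤ (4 * t) ^ 6 := by gcongr; linarith
          _ = _ := by ring
    · rw [ENNReal.ofReal_mul (by positivity), ENNReal.ofReal_pow (by norm_num)]
      simp only [ENNReal.ofReal_ofNat]
      calc _ = 2 ^ 15 * volume A * ENNReal.ofReal (((t + a / s) ^ 6)⁻¹) * ∫⁻ p, G p := by ring
        _ ≤ _ := by gcongr; exact le_add_self

lemma three_body {A : Set (E × E)} (hA : MeasurableSet A) {R : ℝ} (hR : ∀ U ∈ A, ‖U‖ ≤ R)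
    (h0 : volume A ≠ 0) : ∃ C : ℝ, 0 < C ∧ ∀ (a s κ : ℝ) (c : E) (Q : Set E)
      (F g : E × E × E → ℝ≥0∞), 0 < a → 2 * a ≤ s → 4 * R * a < s → κ ≤ C * (a ^ 4 / s ^ 6) →
      MeasurableSet Q → Convex ℝ Q → Metric.ball c (s / 2) ⊆ Q → Q ⊆ Metric.closedBall c (s / 2) →
      Measurable F → Measurable g → PathIneq F g →
      ENNReal.ofReal κ * ∫⁻ p in Q ×ˢ Q ×ˢ Q, F p ≤ ∫⁻ p in Q ×ˢ Q ×ˢ Q, g p +
        ENNReal.ofReal ((a ^ 2)⁻¹) * A.indicator 1 (a⁻¹ • ((p.1, p.1) - p.2)) * F p := by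
  have : (volume : Measure (E × E)).IsAddHaarMeasure := Measure.prod.instIsAddHaarMeasure _ _
  have hfin : volume A ≠ ∞ := ((measure_mono (t := Metric.closedBall 0 R) fun U hU => by
    simpa using hR U hU).trans_lt measure_closedBall_lt_top).ne
  obtain ⟨v, hv, hv0⟩ : ∃ v : ℝ, volume A = ENNReal.ofReal v ∧ 0 < v :=
    ⟨_, (ENNReal.ofReal_toReal hfin).symm, ENNReal.toReal_pos h0 hfin⟩
  refine ⟨v / (2 ^ 16 * (1 + v)), by positivity,
    fun a s κ c Q F g ha has hRs hκ hQ hcv hQ1 hQ2 hF hg hP => ?_⟩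
  have hs : 0 < s := by linarith
  have hτ : 0 < a / s := by positivity
  have hvol : volume Q ≤ ENNReal.ofReal (s ^ 3) := by
    refine (measure_mono hQ2).trans_eq ?_
    rw [Real.volume_pi_closedBall _ (by positivity)]
    congr 1; simp; ring
  have hK : MeasurableSet (Q ×ˢ Q ×ˢ Q) := hQ.prod (hQ.prod hQ)
  have hKc : Convex ℝ (Q ×ˢ Q ×ˢ Q) := hcv.prod (hcv.prod hcv)
  obtain ⟨H, hH⟩ : ∃ H : E × E × E → ℝ≥0∞, H = fun p =>
    A.indicator 1 (a⁻¹ • ((p.1, p.1) - p.2)) * F p := ⟨_, rfl⟩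
  have hHm : Measurable H := by
    rw [hH]; exact ((measurable_one.indicator hA).comp (by fun_prop)).mul hF
  have hp : ∀ x ∈ Q, ∀ u : E, ‖u‖ ≤ R → (1 / 2 : ℝ) • (c + x) - a • u ∈ Q := fun x hx u hu => by
    refine hQ1 ?_
    have h1 := hQ2 hx
    rw [mem_closedBall_iff_norm] at h1
    rw [mem_ball_iff_norm, show (1 / 2 : ℝ) • (c + x) - a • u - c = (1 / 2 : ℝ) • (x - c) - a • u by
      module]
    refine (norm_sub_le _ _).trans_lt ?_
    rw [norm_smul, norm_smul, Real.norm_of_nonneg ha.le, Real.norm_of_nonneg (by norm_num)]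
    nlinarith
  have hp0 : ∀ z ∈ Q ×ˢ (Q ×ˢ Q) ×ˢ A, p0 c a z ∈ Q ×ˢ Q ×ˢ Q := fun z hz => by
    have h1 := hR _ hz.2.2
    have h2 := hp _ hz.1 0 (by rw [norm_zero]; exact (norm_nonneg _).trans h1)
    rw [smul_zero, sub_zero] at h2
    exact ⟨h2, hp _ hz.1 _ ((norm_fst_le _).trans h1), hp _ hz.1 _ ((norm_snd_le _).trans h1)⟩
  have h1 : ∀ z ∈ Q ×ˢ (Q ×ˢ Q) ×ˢ A, F (z.1, z.2.1) ≤
      2 * (Q ×ˢ Q ×ˢ Q).indicator H (p0 c a z + (0 : ℝ) • ((z.1, z.2.1) - p0 c a z)) +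
      ENNReal.ofReal (s ^ 2 / (a / s) ^ 2) * ∫⁻ t in Ioo (0 : ℝ) 1, ENNReal.ofReal ((t + a / s) ^ 3) *
        (Q ×ˢ Q ×ˢ Q).indicator g (p0 c a z + t • ((z.1, z.2.1) - p0 c a z)) := fun z hz => by
    have h2 := hP _ hτ (p0 c a z) ((z.1, z.2.1) - p0 c a z)
    rw [add_sub_cancel] at h2
    have h3 : (z.1, z.2.1) ∈ Q ×ˢ Q ×ˢ Q := ⟨hz.1, hz.2.1⟩
    refine h2.trans (add_le_add (le_of_eq ?_) (mul_le_mul' (ENNReal.ofReal_le_ofReal ?_)
      (setLIntegral_mono' measurableSet_Ioo fun t ht => ?_)))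
    · rw [zero_smul, add_zero, indicator_of_mem (hp0 z hz), hH]
      beta_reduce
      rw [indicator_of_mem, Pi.one_apply, one_mul]
      simp only [p0]
      rw [_root_.sub_sub_cancel, inv_smul_smul₀ ha.ne']
      exact hz.2.2
    · have h4 : ∀ x ∈ Q, ∀ y ∈ Q, ‖x - y‖ ≤ s := fun x hx y hy => by
        have := dist_triangle_right x y c
        rw [← dist_eq_norm]
        linarith [Metric.mem_closedBall.mp (hQ2 hx), Metric.mem_closedBall.mp (hQ2 hy)]
      have h5 := hp0 z hz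
      gcongr
      exact norm_prod_le_iff.mpr ⟨h4 _ h3.1 _ h5.1, norm_prod_le_iff.mpr
        ⟨h4 _ h3.2.1 _ h5.2.1, h4 _ h3.2.2 _ h5.2.2⟩⟩
    · rw [indicator_of_mem (hKc.add_smul_sub_mem (hp0 z hz) h3 ⟨ht.1.le, ht.2.le⟩)]
  have h2 := setLIntegral_mono' (μ := volume) (hQ.prod ((hQ.prod hQ).prod hA)) h1
  have hm : ∀ {G : E × E × E → ℝ≥0∞}, Measurable G → Measurable fun w : (E × (E × E) × E × E) × ℝ =>
      G (p0 c a w.1 + w.2 • ((w.1.1, w.1.2.1) - p0 c a w.1)) := fun hG =>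
    hG.comp (by unfold p0; fun_prop)
  have hm2 : Measurable fun w : (E × (E × E) × E × E) × ℝ => ENNReal.ofReal ((w.2 + a / s) ^ 3) *
      (Q ×ˢ Q ×ˢ Q).indicator g (p0 c a w.1 + w.2 • ((w.1.1, w.1.2.1) - p0 c a w.1)) :=
    Measurable.mul (by fun_prop) (hm (hg.indicator hK))
  have hm3 : Measurable fun z : E × (E × E) × E × E => (Q ×ˢ Q ×ˢ Q).indicator H
      (p0 c a z + (0 : ℝ) • ((z.1, z.2.1) - p0 c a z)) :=
    (hm (hHm.indicator hK)).comp measurable_prodMk_right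
  have : SFinite (volume : Measure ((E × E) × E × E)) := Measure.prod.instSFinite
  have : SFinite (volume : Measure (E × (E × E) × E × E)) := Measure.prod.instSFinite
  rw [lintegral_add_left (hm3.const_mul _), lintegral_const_mul _ hm3,
    lintegral_const_mul' _ _ ENNReal.ofReal_ne_top, lintegral_lintegral_swap hm2.aemeasurable] at h2
  have h3 : ∫⁻ z in Q ×ˢ (Q ×ˢ Q) ×ˢ A, F (z.1, z.2.1) =
      (∫⁻ p in Q ×ˢ Q ×ˢ Q, F p) * ENNReal.ofReal v := by
    have hm4 : Measurable fun z : E × (E × E) × E × E => F (z.1, z.2.1) := hF.comp (by fun_prop)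
    rw [Measure.volume_eq_prod, ← Measure.prod_restrict, lintegral_prod _ hm4.aemeasurable,
      Measure.volume_eq_prod E (E × E), ← Measure.prod_restrict, lintegral_prod _ hF.aemeasurable,
      ← lintegral_mul_const _ hF.lintegral_prod_right']
    refine lintegral_congr fun x => ?_
    have hm5 : Measurable fun y : (E × E) × E × E => F (x, y.1) := hF.comp (by fun_prop)
    rw [Measure.volume_eq_prod, ← Measure.prod_restrict, lintegral_prod _ hm5.aemeasurable,
      ← lintegral_mul_const (f := fun y => F (x, y)) _ (hF.comp measurable_prodMk_left)]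
    simp [hv]
  have h4 := path_avg (A := A) c ha has hvol le_rfl zero_le_one (hHm.indicator hK)
  have h5 : ∫⁻ t in Ioo (0 : ℝ) 1, ∫⁻ z in Q ×ˢ (Q ×ˢ Q) ×ˢ A, ENNReal.ofReal ((t + a / s) ^ 3) *
      (Q ×ˢ Q ×ˢ Q).indicator g (p0 c a z + t • ((z.1, z.2.1) - p0 c a z)) ≤
      ENNReal.ofReal ((2 * (a / s) ^ 2)⁻¹) * (2 ^ 15 * (1 + volume A) *
        ∫⁻ p, (Q ×ˢ Q ×ˢ Q).indicator g p) := by
    refine le_trans (setLIntegral_mono' measurableSet_Ioo (g := fun t => ENNReal.ofReal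
      (((t + a / s) ^ 3)⁻¹) * (2 ^ 15 * (1 + volume A) * ∫⁻ p, (Q ×ˢ Q ×ˢ Q).indicator g p))
      fun t ht => ?_) ?_
    · have h6 : 0 < t + a / s := by linarith [ht.1]
      rw [lintegral_const_mul' _ _ ENNReal.ofReal_ne_top]
      refine (mul_le_mul' le_rfl (path_avg c ha has hvol ht.1.le ht.2.le
        (hg.indicator hK))).trans_eq ?_
      rw [show ((t + a / s) ^ 3)⁻¹ = (t + a / s) ^ 3 * ((t + a / s) ^ 6)⁻¹ by field_simp,
        ENNReal.ofReal_mul (by positivity)]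
      ring
    · rw [lintegral_mul_const _ (by fun_prop)]
      gcongr
      have hi : IntegrableOn (fun t => ((t + a / s) ^ 3)⁻¹) (Icc (0 : ℝ) 1) :=
        ContinuousOn.integrableOn_Icc (ContinuousOn.inv₀ (by fun_prop) fun t ht => by
          have h : 0 < t + a / s := by linarith [ht.1]
          positivity)
      rw [← ofReal_integral_eq_lintegral_ofReal (hi.mono_set Ioo_subset_Icc_self)
        (ae_restrict_of_forall_mem measurableSet_Ioo fun t ht => by
          have h : 0 < t + a / s := by linarith [ht.1]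
          positivity), ← integral_Ioc_eq_integral_Ioo, ← intervalIntegral.integral_of_le zero_le_one]
      exact ENNReal.ofReal_le_ofReal (int3 hτ)
  have h6 := h2.trans (add_le_add (mul_le_mul' le_rfl h4) (mul_le_mul' le_rfl h5))
  rw [h3, lintegral_indicator hK, lintegral_indicator hK, hv] at h6
  simp only [mul_assoc (ENNReal.ofReal _), show ∀ p : E × E × E,
    A.indicator 1 (a⁻¹ • ((p.1, p.1) - p.2)) * F p = H p from fun p => by rw [hH]]
  rw [lintegral_add_left hg, lintegral_const_mul _ hHm]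
  generalize ∫⁻ p in Q ×ˢ Q ×ˢ Q, F p = m at h6 ⊢
  generalize ∫⁻ p in Q ×ˢ Q ×ˢ Q, g p = x at h6 ⊢
  generalize ∫⁻ p in Q ×ˢ Q ×ˢ Q, H p = y at h6 ⊢
  have e1 : (2 ^ 15 * (1 + ENNReal.ofReal v) : ℝ≥0∞) = ENNReal.ofReal (2 ^ 15 * (1 + v)) := by
    rw [ENNReal.ofReal_mul (by positivity), ENNReal.ofReal_add zero_le_one hv0.le,
      ENNReal.ofReal_pow (by norm_num)]; simp
  rw [e1] at h6
  calc ENNReal.ofReal κ * m ≤ ENNReal.ofReal (1 / (2 ^ 16 * (1 + v)) * (a ^ 4 / s ^ 6)) *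
        (m * ENNReal.ofReal v) := by
        rw [mul_comm m, ← mul_assoc, ← ENNReal.ofReal_mul (by positivity)]
        gcongr
        exact hκ.trans_eq (by ring)
    _ ≤ _ := mul_le_mul' le_rfl h6
    _ ≤ _ := by
        rw [mul_add, add_comm, show (2 : ℝ≥0∞) = ENNReal.ofReal 2 by simp]
        simp only [← mul_assoc]
        repeat rw [← ENNReal.ofReal_mul (by positivity)]
        refine add_le_add ?_ (le_of_eq ?_)
        · refine (mul_le_mul' (ENNReal.ofReal_le_one.mpr ?_) le_rfl).trans_eq (one_mul _)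
          refine le_trans (le_of_eq ?_) (show (1 / 4 : ℝ) ≤ 1 by norm_num)
          field_simp
          norm_num
        · congr 2
          rw [zero_add]
          field_simp

end Pool.Agent.H12.TB1
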