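import Pool.Agent.H12.TB1

/-! Many-body lower bound from the three-body bound. -/

open MeasureTheory Set ENNReal Function

namespace Pool.Agent.H12.TB2
open TB1

variable {N : ℕ}

/-- kinetic energy density of particle `i` -/
noncomputable def T (ψ : (Fin N → E) → ℂ) (i : Fin N) (X : Fin N → E) : ℝ :=
  ∑ a, ‖fderiv ℝ ψ X (Pi.single i (Pi.single a 1))‖ ^ 2

lemma T_nonneg (ψ : (Fin N → E) → ℂ) (i : Fin N) (X : Fin N → E) : 0 ≤ T ψ i X := by
  unfold T; positivity

lemma T_cont {ψ : (Fin N → E) → ℂ} (hψ : ContDiff ℝ 1 ψ) (i : Fin N) : Continuous (T ψ i) := by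
  have := hψ.continuous_fderiv one_ne_zero
  unfold T; fun_prop

lemma fderiv_single (ψ : (Fin N → E) → ℂ) (i : Fin N) (X : Fin N → E) (v : E) {r : ℝ}
    (hv : ‖v‖ ≤ r) : ‖fderiv ℝ ψ X (Pi.single i v)‖ ^ 2 ≤ 3 * r ^ 2 * T ψ i X := by
  have h1 : (Pi.single i v : Fin N → E) = ∑ a, v a • Pi.single i (Pi.single a 1) := by
    conv_lhs => rw [← Finset.univ_sum_single v]
    rw [← LinearMap.coe_single ℝ (fun _ : Fin N => E), map_sum]
    refine Finset.sum_congr rfl fun a _ => ?_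
    rw [← map_smul, ← Pi.single_smul, smul_eq_mul, mul_one]
  have h2 : ‖fderiv ℝ ψ X (Pi.single i v)‖ ≤
      r * ∑ a, ‖fderiv ℝ ψ X (Pi.single i (Pi.single a 1))‖ := by
    rw [h1, map_sum, Finset.mul_sum]
    refine (norm_sum_le _ _).trans (Finset.sum_le_sum fun a _ => ?_)
    rw [map_smul, norm_smul]
    gcongr
    exact (norm_le_pi_norm v a).trans hv
  refine (pow_le_pow_left₀ (norm_nonneg _) h2 2).trans ?_
  have h3 := sq_sum_le_card_mul_sum_sq (s := Finset.univ)
    (f := fun a : Fin 3 => ‖fderiv ℝ ψ X (Pi.single i (Pi.single a 1))‖)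
  simp only [Finset.card_univ, Fintype.card_fin, Nat.cast_ofNat] at h3
  rw [mul_pow, T]
  nlinarith [sq_nonneg r]

/-- replace three particles -/
def upd (X : Fin N → E) (i j k : Fin N) (p : E × E × E) : Fin N → E :=
  update (update (update X i p.1) j p.2.1) k p.2.2

lemma upd_meas (X : Fin N → E) (i j k : Fin N) : Measurable (upd X i j k) := by
  unfold upd; fun_prop

lemma pathIneq {ψ : (Fin N → E) → ℂ} (hψ : ContDiff ℝ 1 ψ) (X : Fin N → E) {i j k : Fin N}
    (hij : i ≠ j) (hik : i ≠ k) (hjk : j ≠ k) :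
    PathIneq (fun p => ENNReal.ofReal (‖ψ (upd X i j k p)‖ ^ 2)) fun p => ENNReal.ofReal
      (9 * (T ψ i (upd X i j k p) + T ψ j (upd X i j k p) + T ψ k (upd X i j k p))) := by
  intro τ hτ p h
  obtain ⟨v, hv⟩ : ∃ v : Fin N → E, v = Pi.single i h.1 + Pi.single j h.2.1 + Pi.single k h.2.2 :=
    ⟨_, rfl⟩
  have h1 : ∀ t : ℝ, upd X i j k (p + t • h) = upd X i j k p + t • v := fun t => by
    ext1 l
    simp only [hv, upd, Pi.add_apply, Pi.smul_apply, update_apply, Pi.single_apply]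
    split_ifs <;> simp_all
  have hc := hψ.continuous_fderiv one_ne_zero
  have h2 := path_real (φ := fun t => ψ (upd X i j k p + t • v))
    (φ' := fun t => fderiv ℝ ψ (upd X i j k p + t • v) v) (fun t => by
      have := ((hψ.differentiable one_ne_zero) (upd X i j k p + t • v)).hasFDerivAt.comp_hasDerivAt
        t (((hasDerivAt_id t).smul_const v).const_add (upd X i j k p))
      rwa [one_smul] at this) (by fun_prop) hτ
  have h3 : ∀ Y, ‖fderiv ℝ ψ Y v‖ ^ 2 ≤ ‖h‖ ^ 2 * (9 * (T ψ i Y + T ψ j Y + T ψ k Y)) := fun Y => by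
    have h4 := fderiv_single ψ i Y h.1 (norm_fst_le h)
    have h5 := fderiv_single ψ j Y h.2.1 ((norm_fst_le _).trans (norm_snd_le h))
    have h6 := fderiv_single ψ k Y h.2.2 ((norm_snd_le _).trans (norm_snd_le h))
    rw [hv, map_add, map_add]
    refine (pow_le_pow_left₀ (norm_nonneg _) (norm_add₃_le) 2).trans ?_
    generalize ‖fderiv ℝ ψ Y (Pi.single i h.1)‖ = x at h4 ⊢
    generalize ‖fderiv ℝ ψ Y (Pi.single j h.2.1)‖ = y at h5 ⊢
    generalize ‖fderiv ℝ ψ Y (Pi.single k h.2.2)‖ = z at h6 ⊢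
    nlinarith [sq_nonneg (x - y), sq_nonneg (x - z), sq_nonneg (y - z)]
  have h4 := h1 1
  rw [one_smul] at h4
  simp only [h4, h1]
  rw [zero_smul, add_zero] at h2
  refine (ENNReal.ofReal_le_ofReal h2).trans (ENNReal.ofReal_add_le.trans (add_le_add ?_ ?_))
  · rw [ENNReal.ofReal_mul zero_le_two]; simp
  · rw [intervalIntegral.integral_of_le zero_le_one, integral_Ioc_eq_integral_Ioo,
      ← integral_const_mul, ofReal_integral_eq_lintegral_ofReal
        ((Continuous.integrableOn_Icc (by fun_prop)).mono_set Ioo_subset_Icc_self)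
        (ae_restrict_of_forall_mem measurableSet_Ioo fun t ht => by
          have h : 0 < t + τ := by linarith [ht.1]
          positivity), ← lintegral_const_mul' _ _ ENNReal.ofReal_ne_top]
    refine setLIntegral_mono' measurableSet_Ioo fun t ht => ?_
    have h : 0 < t + τ := by linarith [ht.1]
    rw [← ENNReal.ofReal_mul (by positivity), ← ENNReal.ofReal_mul (by positivity)]
    refine ENNReal.ofReal_le_ofReal ((mul_le_mul_of_nonneg_left (mul_le_mul_of_nonneg_left
      (h3 _) (by positivity)) (by positivity)).trans_eq (by ring))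

lemma triple {V : E × E → ℝ} (hV : Measurable V) (hV0 : ∀ U, 0 ≤ V U) (hVc : HasCompactSupport V)
    (hVn : ¬ V =ᵐ[volume] 0) : ∃ R C : ℝ, 0 < R ∧ 0 < C ∧ ∀ (N : ℕ) (ψ : (Fin N → E) → ℂ)
      (Q : Fin N → Set E) (i j k : Fin N) (a s κ : ℝ) (c : E), ContDiff ℝ 1 ψ → i ≠ j → i ≠ k →
      j ≠ k → Q j = Q i → Q k = Q i → 0 < a → R * a ≤ s → κ ≤ C * (a ^ 4 / s ^ 6) →
      MeasurableSet (Q i) → Convex ℝ (Q i) → Metric.ball c (s / 2) ⊆ Q i →
      Q i ⊆ Metric.closedBall c (s / 2) →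
      ENNReal.ofReal κ * ∫⁻ X in univ.pi Q, ENNReal.ofReal (‖ψ X‖ ^ 2) ≤
        ∫⁻ X in univ.pi Q, ENNReal.ofReal (T ψ i X + T ψ j X + T ψ k X +
          (a ^ 2)⁻¹ * V (a⁻¹ • (X i - X j), a⁻¹ • (X i - X k)) * ‖ψ X‖ ^ 2) := by
  obtain ⟨ε, hε, hA0⟩ : ∃ ε : ℝ, 0 < ε ∧ volume {U | ε ≤ V U} ≠ 0 := by
    by_contra! h
    refine hVn (measure_mono_null (t := ⋃ n : ℕ, {U | 1 / (n + 1 : ℝ) ≤ V U}) (fun U hU => ?_)
      (measure_iUnion_null fun n => h _ (by positivity)))
    obtain ⟨n, hn⟩ := exists_nat_one_div_lt (lt_of_le_of_ne (hV0 U) (Ne.symm hU))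
    exact mem_iUnion.mpr ⟨n, hn.le⟩
  obtain ⟨R, hR0, hR⟩ := hVc.isCompact.isBounded.exists_pos_norm_le
  have hA : MeasurableSet {U | ε ≤ V U} := measurableSet_le measurable_const hV
  obtain ⟨C, hC0, hC⟩ := three_body hA (R := R) (fun U hU => hR U (subset_tsupport _
    (hε.trans_le hU).ne')) hA0
  refine ⟨4 * R + 2, C / (9 + ε⁻¹), by positivity, by positivity,
    fun N ψ Q i j k a s κ c hψ hij hik hjk hj hk ha hs hκ h1 h2 h3 h4 => ?_⟩
  have hF : Measurable fun X => ENNReal.ofReal (‖ψ X‖ ^ 2) := by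
    have := hψ.continuous.measurable; fun_prop
  have hT := fun l => (T_cont hψ l).measurable
  have hG : Measurable fun X => ENNReal.ofReal (T ψ i X + T ψ j X + T ψ k X +
      (a ^ 2)⁻¹ * V (a⁻¹ • (X i - X j), a⁻¹ • (X i - X k)) * ‖ψ X‖ ^ 2) := by
    have := hψ.continuous.measurable; fun_prop
  rw [← lintegral_const_mul _ hF, volume_pi, Measure.restrict_pi_pi]
  refine lintegral_le_of_lmarginal_le {i, j, k} (hF.const_mul _) hG fun X => ?_
  have key : ∀ f : (Fin N → E) → ℝ≥0∞, Measurable f →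
      (∫⋯∫⁻_{i, j, k}, f ∂fun l => volume.restrict (Q l)) X =
        ∫⁻ p in Q i ×ˢ Q i ×ˢ Q i, f (upd X i j k p) := fun f hf => by
    have hf' := hf.comp (upd_meas X i j k)
    rw [lmarginal_insert _ hf (by simp [hij, hik]), Measure.volume_eq_prod, ← Measure.prod_restrict,
      lintegral_prod (fun p => f (upd X i j k p)) hf'.aemeasurable]
    refine lintegral_congr fun x => ?_
    rw [lmarginal_insert _ hf (by simp [hjk]), Measure.volume_eq_prod, ← Measure.prod_restrict,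
      lintegral_prod (fun p => f (upd X i j k (x, p)))
        (hf'.comp measurable_prodMk_left).aemeasurable, hj]
    refine lintegral_congr fun y => ?_
    rw [lmarginal_singleton, hk]
    rfl
  rw [key _ (hF.const_mul _), key _ hG, lintegral_const_mul' _ _ ENNReal.ofReal_ne_top]
  have hM : 0 < 9 + ε⁻¹ := by positivity
  have h5 := hC a s (κ * (9 + ε⁻¹)) c (Q i) _ _ ha (by nlinarith) (by nlinarith) (by
    rw [← le_div_iff₀ hM]; exact hκ.trans_eq (by ring)) h1 h2 h3 h4 (hF.comp (upd_meas X i j k))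
    (by have := fun l => (hT l).comp (upd_meas X i j k); fun_prop) (pathIneq hψ X hij hik hjk)
  rw [ENNReal.ofReal_mul' hM.le, mul_right_comm] at h5
  refine (ENNReal.mul_le_mul_iff_left (c := ENNReal.ofReal (9 + ε⁻¹)) (by simpa using hM)
    ENNReal.ofReal_ne_top).mp (h5.trans ?_)
  rw [← lintegral_mul_const' _ _ ENNReal.ofReal_ne_top]
  refine lintegral_mono fun p => ?_
  have e1 : (a⁻¹ • (upd X i j k p i - upd X i j k p j), a⁻¹ • (upd X i j k p i - upd X i j k p k)) =
      a⁻¹ • ((p.1, p.1) - p.2) := by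
    simp [upd, hij, hik, hjk, Prod.ext_iff]
  simp only [Function.comp]
  rw [e1, ← ENNReal.ofReal_mul' hM.le]
  have t1 := add_nonneg (add_nonneg (T_nonneg ψ i (upd X i j k p)) (T_nonneg ψ j (upd X i j k p)))
    (T_nonneg ψ k (upd X i j k p))
  have t2 := hV0 (a⁻¹ • ((p.1, p.1) - p.2))
  generalize T ψ i (upd X i j k p) + T ψ j (upd X i j k p) + T ψ k (upd X i j k p) = x at t1 ⊢
  have t3 : 0 ≤ (a ^ 2)⁻¹ * ‖ψ (upd X i j k p)‖ ^ 2 := by positivity
  by_cases h : a⁻¹ • ((p.1, p.1) - p.2) ∈ {U | ε ≤ V U}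
  · rw [indicator_of_mem h, Pi.one_apply, mul_one, ← ENNReal.ofReal_mul (by positivity),
      ← ENNReal.ofReal_add (by positivity) (by positivity)]
    refine ENNReal.ofReal_le_ofReal ?_
    have t4 : 1 ≤ V (a⁻¹ • ((p.1, p.1) - p.2)) * ε⁻¹ := by
      rw [← div_eq_mul_inv, one_le_div hε]; exact h
    rw [mul_right_comm]
    generalize (a ^ 2)⁻¹ * ‖ψ (upd X i j k p)‖ ^ 2 = y at t3 ⊢
    nlinarith [mul_nonneg t1 (inv_pos.mpr hε).le, mul_nonneg t3 t2,
      mul_le_mul_of_nonneg_left t4 t3]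
  · rw [indicator_of_notMem h, mul_zero, zero_mul, add_zero]
    refine ENNReal.ofReal_le_ofReal ?_
    rw [mul_right_comm]
    generalize (a ^ 2)⁻¹ * ‖ψ (upd X i j k p)‖ ^ 2 = y at t3 ⊢
    nlinarith [mul_nonneg t1 (inv_pos.mpr hε).le, mul_nonneg (mul_nonneg t3 t2) hM.le]

lemma triples {γ : Type*} [DecidableEq γ] (c : Fin N → γ) (κ : γ → ℝ) (hκ : ∀ z, 0 ≤ κ z)
    (m : ℝ≥0∞) (En : Finset (Fin N) → ℝ≥0∞) (h : ∀ I i j k, i ∈ I → j ∈ I → k ∈ I → i < j → j < k →
      c j = c i → c k = c i → En (I \ {i, j, k}) + ENNReal.ofReal (κ (c i)) * m ≤ En I)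
    (I : Finset (Fin N)) :
    ENNReal.ofReal (∑ i ∈ I, κ (c i) - 2 * ∑ z ∈ I.image c, κ z) * m ≤ 3 * En I := by
  induction I using Finset.strongInduction with
  | H I ih =>
    by_cases h1 : ∃ z, 3 ≤ (I.filter fun i => c i = z).card
    · obtain ⟨z, hz⟩ := h1
      have hm := fun n => Finset.mem_filter.mp (Finset.orderEmbOfCardLe_mem _ hz n)
      have h01 := (Finset.orderEmbOfCardLe _ hz).strictMono (show (0 : Fin 3) < 1 by decide)
      have h12 := (Finset.orderEmbOfCardLe _ hz).strictMono (show (1 : Fin 3) < 2 by decide)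
      have hi := hm 0
      have hj := hm 1
      have hk := hm 2
      generalize Finset.orderEmbOfCardLe _ hz 0 = i at *
      generalize Finset.orderEmbOfCardLe _ hz 1 = j at *
      generalize Finset.orderEmbOfCardLe _ hz 2 = k at *
      have hsub : {i, j, k} ⊆ I := by
        intro l hl
        simp only [Finset.mem_insert, Finset.mem_singleton] at hl
        rcases hl with rfl | rfl | rfl
        exacts [hi.1, hj.1, hk.1]
      have h2 := ih (I \ {i, j, k}) (Finset.sdiff_ssubset hsub (by simp))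
      have h3 := h I i j k hi.1 hj.1 hk.1 h01 h12 (hj.2.trans hi.2.symm) (hk.2.trans hi.2.symm)
      have h4 := Finset.sum_sdiff (f := fun i => κ (c i)) hsub
      rw [Finset.sum_insert (by simp [h01.ne, (h01.trans h12).ne]), Finset.sum_pair h12.ne, hi.2,
        hj.2, hk.2] at h4
      have h5 : ∑ z ∈ (I \ {i, j, k}).image c, κ z ≤ ∑ z ∈ I.image c, κ z :=
        Finset.sum_le_sum_of_subset_of_nonneg (Finset.image_subset_image Finset.sdiff_subset)
          fun _ _ _ => hκ _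
      rw [hi.2] at h3
      calc _ ≤ ENNReal.ofReal ((∑ l ∈ I \ {i, j, k}, κ (c l) -
            2 * ∑ z ∈ (I \ {i, j, k}).image c, κ z) + 3 * κ z) * m := by
            gcongr; linarith
        _ ≤ (ENNReal.ofReal (∑ l ∈ I \ {i, j, k}, κ (c l) -
            2 * ∑ z ∈ (I \ {i, j, k}).image c, κ z) + 3 * ENNReal.ofReal (κ z)) * m := by
            gcongr
            refine ENNReal.ofReal_add_le.trans_eq ?_
            rw [ENNReal.ofReal_mul (by norm_num)]; simp
        _ ≤ 3 * (En (I \ {i, j, k}) + ENNReal.ofReal (κ z) * m) := by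
            rw [add_mul, mul_add, mul_assoc]; gcongr
        _ ≤ _ := by gcongr
    · push Not at h1
      rw [ENNReal.ofReal_of_nonpos, zero_mul]
      · exact zero_le
      rw [sub_nonpos, Finset.sum_comp κ c, Finset.mul_sum]
      refine Finset.sum_le_sum fun z _ => ?_
      rw [nsmul_eq_mul]
      have : ((I.filter fun i => c i = z).card : ℝ) ≤ 2 := by
        exact_mod_cast Nat.le_of_lt_succ (h1 z)
      exact mul_le_mul_of_nonneg_right this (hκ z)

end Pool.Agent.H12.TB2
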