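import Pool.Agent.H12.TB2

/-! Localisation in cells. -/

open MeasureTheory Set ENNReal Function

namespace Pool.Agent.H12.TB3
open TB1 TB2

variable {N : ℕ}

/-- index of the cell of side `s` containing `x` -/
noncomputable def cid (s : ℝ) (x : E) : Fin 3 → ℤ := fun a => ⌊x a / s⌋

lemma cell_eq {s : ℝ} (hs : 0 < s) (z : Fin 3 → ℤ) :
    {x | cid s x = z} = univ.pi fun a => Ico (z a * s) ((z a + 1) * s) := by
  ext x
  simp only [cid, funext_iff, Int.floor_eq_iff, le_div_iff₀ hs, div_lt_iff₀ hs, mem_ofPred_eq,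
    mem_univ_pi, mem_Ico]

lemma cell_props {s : ℝ} (hs : 0 < s) (z : Fin 3 → ℤ) : MeasurableSet {x | cid s x = z} ∧
    Convex ℝ {x | cid s x = z} ∧
    Metric.ball (fun a => (z a + 1 / 2) * s) (s / 2) ⊆ {x | cid s x = z} ∧
    {x | cid s x = z} ⊆ Metric.closedBall (fun a => (z a + 1 / 2) * s) (s / 2) := by
  rw [cell_eq hs, ball_pi _ (by positivity), closedBall_pi _ (by positivity)]
  refine ⟨MeasurableSet.univ_pi fun _ => measurableSet_Ico, convex_pi fun _ _ => convex_Ico _ _,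
    pi_mono fun a _ x hx => ?_, pi_mono fun a _ x hx => ?_⟩
  · rw [Real.ball_eq_Ioo] at hx; constructor <;> linarith [hx.1, hx.2]
  · rw [Real.closedBall_eq_Icc]; constructor <;> linarith [hx.1, hx.2]

lemma cid_div (ℓ : ℝ) {k : ℕ} (hk : 1 ≤ k) (x : E) (a : Fin 3) :
    cid ℓ x a = cid (ℓ / k) x a / k := by
  have : (k : ℝ) ≠ 0 := by positivity
  rw [cid, cid, ← Int.floor_div_natCast, div_div, div_mul_cancel₀ _ this]

lemma piece_le {α ι : Type*} [MeasurableSpace α] [Countable ι] (μ : Measure α) (Φ : α → ι)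
    (f g : α → ℝ≥0∞) (h : ∀ x, MeasurableSet {y | Φ y = Φ x} ∧
      ∫⁻ y in {y | Φ y = Φ x}, f y ∂μ ≤ ∫⁻ y in {y | Φ y = Φ x}, g y ∂μ) :
    ∫⁻ y, f y ∂μ ≤ ∫⁻ y, g y ∂μ := by
  have h1 : ∀ v, MeasurableSet {y | Φ y = v} ∧
      ∫⁻ y in {y | Φ y = v}, f y ∂μ ≤ ∫⁻ y in {y | Φ y = v}, g y ∂μ := fun v => by
    rcases eq_empty_or_nonempty {y | Φ y = v} with h2 | ⟨x, rfl⟩
    · simp [h2]
    · exact h x
  have h2 : Pairwise (Disjoint on fun v => {y | Φ y = v}) := fun v w hvw =>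
    disjoint_left.mpr fun y h3 h4 => hvw (h3.symm.trans h4)
  rw [← setLIntegral_univ f, ← setLIntegral_univ g, show (univ : Set α) = ⋃ v, {y | Φ y = v} by
    ext; simp, lintegral_iUnion (fun v => (h1 v).1) h2, lintegral_iUnion (fun v => (h1 v).1) h2]
  exact ENNReal.tsum_le_tsum fun v => (h1 v).2

/-- number of indices with label `z` -/
def nb (τ : Fin N → Fin 3 → ℤ) (z : Fin 3 → ℤ) : ℕ := (Finset.univ.filter fun l => τ l = z).card

lemma cells_le (τ σ : Fin N → Fin 3 → ℤ) (kf : ℕ → ℕ) (hk : ∀ n, 1 ≤ kf n) (κ : ℕ → ℝ)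
    (h0 : ∀ n, 0 ≤ κ n) (h1 : ∀ n, κ n = 0 ∨ 4 * kf n ^ 3 ≤ n)
    (h : ∀ i a, τ i a = σ i a / kf (nb τ (τ i))) :
    4 * ∑ z ∈ Finset.univ.image fun i => (τ i, σ i), κ (nb τ z.1) ≤ ∑ i, κ (nb τ (τ i)) := by
  rw [Finset.sum_comp (fun z => κ (nb τ z)) τ, Finset.sum_comp (fun z => κ (nb τ z)) Prod.fst,
    Finset.image_image, Finset.mul_sum]
  refine Finset.sum_le_sum fun B _ => ?_
  rcases h1 (nb τ B) with h2 | h2
  · simp [h2]
  have h3 : ((Finset.univ.image fun i => (τ i, σ i)).filter fun z => z.1 = B).card ≤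
      kf (nb τ B) ^ 3 := by
    refine (Finset.card_le_card_of_injOn (t := Fintype.piFinset fun a => Finset.Ico
      (B a * kf (nb τ B)) ((B a + 1) * kf (nb τ B))) Prod.snd (fun z hz => ?_)
      fun z hz w hw e => ?_).trans_eq ?_
    · simp only [Finset.coe_filter, Finset.mem_image, mem_ofPred_eq] at hz
      obtain ⟨⟨i, -, rfl⟩, rfl⟩ := hz
      have h4 : (0 : ℤ) < kf (nb τ (τ i)) := by exact_mod_cast hk _
      simp only [Finset.mem_coe, Fintype.mem_piFinset, Finset.mem_Ico]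
      exact fun a => ⟨(Int.le_ediv_iff_mul_le h4).mp (h i a).le,
        (Int.ediv_lt_iff_lt_mul h4).mp (by rw [← h i a]; omega)⟩
    · simp only [Finset.coe_filter, mem_ofPred_eq] at hz hw
      exact Prod.ext (hz.2.trans hw.2.symm) e
    · simp [add_mul]
  rw [nsmul_eq_mul, nsmul_eq_mul, ← mul_assoc]
  refine mul_le_mul_of_nonneg_right ?_ (h0 _)
  exact_mod_cast (Nat.mul_le_mul_left 4 h3).trans h2

lemma pairs_le (τ : Fin N → Fin 3 → ℤ) (P : Fin N → Fin N → Prop) [∀ i j, Decidable (P i j)]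
    (h : ∀ i j, P i j → ∀ a, |τ i a - τ j a| ≤ 1) :
    ∑ i, ∑ j, (if P i j then 1 else 0 : ℕ) ≤ 54 * ∑ i, nb τ (τ i) := by
  have h1 : ∀ i, ∑ j, (if (∀ a, |τ i a - τ j a| ≤ 1) ∧ nb τ (τ j) ≤ nb τ (τ i) then 1 else 0 : ℕ) ≤
      27 * nb τ (τ i) := fun i => by
    rw [← Finset.card_filter, mul_comm]
    refine (Finset.card_le_mul_card_image_of_maps_to (f := τ) (t := Fintype.piFinset fun a =>
      Finset.Icc (τ i a - 1) (τ i a + 1)) (fun j hj => ?_) (nb τ (τ i))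
      fun z _ => ?_).trans_eq ?_
    · simp only [Finset.mem_filter, Fintype.mem_piFinset, Finset.mem_Icc] at hj ⊢
      exact fun a => by have := abs_le.mp (hj.2.1 a); omega
    · rcases Finset.eq_empty_or_nonempty (Finset.filter (fun x => τ x = z) (Finset.univ.filter
        fun j => (∀ a, |τ i a - τ j a| ≤ 1) ∧ nb τ (τ j) ≤ nb τ (τ i))) with h2 | ⟨j, hj⟩
      · simp [h2]
      · simp only [Finset.mem_filter] at hj
        refine le_trans ?_ hj.1.2.2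
        rw [hj.2]
        exact Finset.card_le_card (Finset.filter_subset_filter _ (Finset.filter_subset _ _))
    · have : ∀ a, (τ i a + 1 + 1 - (τ i a - 1)).toNat = 3 := fun a => by omega
      simp [this]
  have h2 := Finset.sum_le_sum fun i (_ : i ∈ Finset.univ) => h1 i
  have h3 := h2
  rw [Finset.sum_comm] at h3
  rw [← Finset.mul_sum] at h2 h3
  refine le_trans ?_ ((add_le_add h2 h3).trans_eq (by ring))
  simp only [← Finset.sum_add_distrib]
  refine Finset.sum_le_sum fun i _ => Finset.sum_le_sum fun j _ => ?_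
  split_ifs with h4 h5 h6 h7 <;> try omega
  have h8 := h i j h4
  exact absurd ⟨fun a => by rw [abs_sub_comm]; exact h8 a, by
    by_contra h9; exact h5 ⟨h8, by omega⟩⟩ h7

/-- energy of the particles in `I` -/
noncomputable def En (V : E × E → ℝ) (a : ℝ) (ψ : (Fin N → E) → ℂ) (I : Finset (Fin N))
    (X : Fin N → E) : ℝ :=
  ∑ i ∈ I, T ψ i X + ∑ w ∈ I ×ˢ I ×ˢ I, if w.1 < w.2.1 ∧ w.2.1 < w.2.2 then
    (a ^ 2)⁻¹ * V (a⁻¹ • (X w.1 - X w.2.1), a⁻¹ • (X w.1 - X w.2.2)) * ‖ψ X‖ ^ 2 else 0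

lemma lower {V : E × E → ℝ} (hV : Measurable V) (hV0 : ∀ U, 0 ≤ V U) (hVc : HasCompactSupport V)
    (hVn : ¬ V =ᵐ[volume] 0) : ∃ R C : ℝ, 0 < R ∧ 0 < C ∧ ∀ (N : ℕ) (ψ : (Fin N → E) → ℂ)
      (a ℓ : ℝ) (kf : ℕ → ℕ) (κ : ℕ → ℝ), ContDiff ℝ 1 ψ → 0 < a → 0 < ℓ → (∀ n, 1 ≤ kf n) →
      (∀ n, 0 ≤ κ n) → (∀ n, κ n = 0 ∨ 4 * kf n ^ 3 ≤ n ∧ R * a ≤ ℓ / kf n ∧
        κ n ≤ C * (a ^ 4 / (ℓ / kf n) ^ 6)) →
      ∫⁻ X, ENNReal.ofReal ((∑ i, κ (nb (fun l => cid ℓ (X l)) (cid ℓ (X i)))) / 6 * ‖ψ X‖ ^ 2) ≤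
        ∫⁻ X, ENNReal.ofReal (En V a ψ Finset.univ X) := by
  obtain ⟨R, C, hR, hC, h⟩ := triple hV hV0 hVc hVn
  refine ⟨R, C, hR, hC, fun N ψ a ℓ kf κ hψ ha hℓ hk h0 h1 => piece_le volume (fun X =>
    (fun l => cid ℓ (X l), fun i => cid (ℓ / kf (nb (fun l => cid ℓ (X l)) (cid ℓ (X i)))) (X i)))
    _ _ fun X => ?_⟩
  obtain ⟨τ, hτ⟩ : ∃ τ : Fin N → Fin 3 → ℤ, τ = fun l => cid ℓ (X l) := ⟨_, rfl⟩
  have hτ' : ∀ l, cid ℓ (X l) = τ l := fun l => by rw [hτ]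
  simp only [hτ']
  obtain ⟨σ, hσ⟩ : ∃ σ : Fin N → Fin 3 → ℤ, ∀ i, cid (ℓ / kf (nb τ (τ i))) (X i) = σ i :=
    ⟨_, fun _ => rfl⟩
  simp only [hσ]
  have h2 : ∀ i a, τ i a = σ i a / kf (nb τ (τ i)) := fun i a => by
    rw [← hσ, ← cid_div ℓ (hk _), hτ']
  have hs : ∀ n, 0 < ℓ / kf n := fun n => div_pos hℓ (by exact_mod_cast hk n)
  have h3 : ∀ Y ∈ univ.pi fun i => {x | cid (ℓ / kf (nb τ (τ i))) x = σ i},
      (fun l => cid ℓ (Y l)) = τ := fun Y hY => by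
    ext i a
    rw [h2, cid_div ℓ (hk (nb τ (τ i))), hY i (mem_univ _)]
  rw [show {Y : Fin N → E | (fun l => cid ℓ (Y l), fun i => cid (ℓ / kf (nb (fun l => cid ℓ (Y l))
      (cid ℓ (Y i)))) (Y i)) = (fun l => τ l, fun i => σ i)} =
      univ.pi fun i => {x | cid (ℓ / kf (nb τ (τ i))) x = σ i} by
    ext Y
    simp only [mem_ofPred_eq, Prod.mk.injEq]
    refine ⟨fun ⟨h4, h5⟩ i _ => ?_, fun hY => ⟨h3 Y hY, funext fun i => ?_⟩⟩
    · have := congrFun h5 i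
      rwa [congrFun h4 i, h4] at this
    · rw [congrFun (h3 Y hY) i, h3 Y hY]
      exact hY i (mem_univ _)]
  have hS := MeasurableSet.univ_pi fun i => (cell_props (hs (nb τ (τ i))) (σ i)).1
  refine ⟨hS, ?_⟩
  have hw : ∀ (w : Fin N × Fin N × Fin N) (Y : Fin N → E), 0 ≤ if w.1 < w.2.1 ∧ w.2.1 < w.2.2 then
      (a ^ 2)⁻¹ * V (a⁻¹ • (Y w.1 - Y w.2.1), a⁻¹ • (Y w.1 - Y w.2.2)) * ‖ψ Y‖ ^ 2 else 0 :=
    fun w Y => by have := hV0 (a⁻¹ • (Y w.1 - Y w.2.1), a⁻¹ • (Y w.1 - Y w.2.2)); positivity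
  have hE0 : ∀ I Y, 0 ≤ En V a ψ I Y := fun I Y => add_nonneg
    (Finset.sum_nonneg fun _ _ => T_nonneg _ _ _) (Finset.sum_nonneg fun w _ => hw w Y)
  have hEm : ∀ I, Measurable fun Y => ENNReal.ofReal (En V a ψ I Y) := fun I => by
    have := hψ.continuous.measurable
    have := fun l => (T_cont hψ l).measurable
    refine ENNReal.measurable_ofReal.comp (Measurable.add (by fun_prop)
      (Finset.measurable_sum _ fun w _ => ?_))
    split_ifs <;> fun_prop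
  have h4 := triples (fun i => (τ i, σ i)) (fun z => κ (nb τ z.1)) (fun _ => h0 _)
    (∫⁻ Y in univ.pi fun i => {x | cid (ℓ / kf (nb τ (τ i))) x = σ i}, ENNReal.ofReal (‖ψ Y‖ ^ 2))
    (fun I => ∫⁻ Y in univ.pi fun i => {x | cid (ℓ / kf (nb τ (τ i))) x = σ i},
      ENNReal.ofReal (En V a ψ I Y)) (fun I i j k hi hj hk hij hjk ej ek => by
      have h5 : ENNReal.ofReal (κ (nb τ (τ i))) * ∫⁻ Y in univ.pi fun i =>
          {x | cid (ℓ / kf (nb τ (τ i))) x = σ i}, ENNReal.ofReal (‖ψ Y‖ ^ 2) ≤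
          ∫⁻ X in univ.pi fun i => {x | cid (ℓ / kf (nb τ (τ i))) x = σ i},
            ENNReal.ofReal (T ψ i X + T ψ j X + T ψ k X +
            (a ^ 2)⁻¹ * V (a⁻¹ • (X i - X j), a⁻¹ • (X i - X k)) * ‖ψ X‖ ^ 2) := by
        rcases h1 (nb τ (τ i)) with h5 | ⟨-, h5, h6⟩
        · rw [h5, ENNReal.ofReal_zero, zero_mul]; exact zero_le
        obtain ⟨p1, p2, p3, p4⟩ := cell_props (hs (nb τ (τ i))) (σ i)
        simp only [Prod.mk.injEq] at ej ek
        exact h N ψ (fun i => {x | cid (ℓ / kf (nb τ (τ i))) x = σ i}) i j k a _ _ _ hψ hij.ne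
          (hij.trans hjk).ne hjk.ne (by simp only [ej.1, ej.2]) (by simp only [ek.1, ek.2]) ha h5 h6
          p1 p2 p3 p4
      refine (add_le_add le_rfl h5).trans ?_
      rw [← lintegral_add_left (hEm _)]
      refine lintegral_mono fun Y => ?_
      have t1 := T_nonneg ψ i Y
      have t2 := T_nonneg ψ j Y
      have t3 := T_nonneg ψ k Y
      have t4 := hV0 (a⁻¹ • (Y i - Y j), a⁻¹ • (Y i - Y k))
      beta_reduce
      rw [← ENNReal.ofReal_add (hE0 _ _) (by positivity)]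
      refine ENNReal.ofReal_le_ofReal ?_
      have hsub : {i, j, k} ⊆ I := by
        intro l hl
        simp only [Finset.mem_insert, Finset.mem_singleton] at hl
        rcases hl with rfl | rfl | rfl
        exacts [hi, hj, hk]
      have t5 := Finset.sum_sdiff (f := fun i => T ψ i Y) hsub
      rw [Finset.sum_insert (by simp [hij.ne, (hij.trans hjk).ne]), Finset.sum_pair hjk.ne] at t5
      have t6 := Finset.sum_le_sum_of_subset_of_nonneg (s := insert (i, j, k)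
        ((I \ {i, j, k}) ×ˢ (I \ {i, j, k}) ×ˢ (I \ {i, j, k}))) (t := I ×ˢ I ×ˢ I)
        (Finset.insert_subset (by simp [hi, hj, hk]) (Finset.product_subset_product
          Finset.sdiff_subset (Finset.product_subset_product Finset.sdiff_subset
            Finset.sdiff_subset))) fun w _ _ => hw w Y
      rw [Finset.sum_insert (by simp), if_pos ⟨hij, hjk⟩] at t6
      simp only [En]
      linarith) Finset.univ
  have h5 := cells_le τ σ kf hk κ h0 (fun n => (h1 n).imp_right And.left) h2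
  have h6 : 0 ≤ ∑ i, κ (nb τ (τ i)) := Finset.sum_nonneg fun _ _ => h0 _
  rw [setLIntegral_congr_fun hS (g := fun Y => ENNReal.ofReal ((∑ i, κ (nb τ (τ i))) / 6) *
    ENNReal.ofReal (‖ψ Y‖ ^ 2)) (fun Y hY => by
      have h7 := congrFun (h3 Y hY)
      simp only [h7]
      rw [ENNReal.ofReal_mul (by positivity)]), lintegral_const_mul' _ _ ENNReal.ofReal_ne_top]
  refine (ENNReal.mul_le_mul_iff_right (a := 3) (by simp) (by simp)).mp (le_trans ?_ h4)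
  rw [← mul_assoc, show (3 : ℝ≥0∞) = ENNReal.ofReal 3 by simp, ← ENNReal.ofReal_mul (by norm_num)]
  gcongr
  linarith

end Pool.Agent.H12.TB3
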