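import Pool.Agent.H12.TB3

/-! Parameter choice, trial states. -/

open MeasureTheory Set ENNReal Function Filter Topology

namespace Pool.Agent.H12.TB4
open TB1 TB2 TB3

lemma params {R C K ρ β : ℝ} (hR : 0 < R) (hC : 0 < C) (hK : 0 ≤ K) (hρ : 0 < ρ) (h0 : 0 < β)
    (h1 : β < 1 / 3) : ∃ D : ℝ, 0 < D ∧ ∀ N : ℕ, 1 ≤ N → ∀ n : ℕ, ∃ (k : ℕ) (κ : ℝ), 1 ≤ k ∧ 0 ≤ κ ∧
      (κ = 0 ∨ 4 * k ^ 3 ≤ n ∧ R * ((N : ℝ) ^ (1 / 2 : ℝ))⁻¹ ≤ ρ / (N : ℝ) ^ β / k ∧
        κ ≤ C * (((N : ℝ) ^ (1 / 2 : ℝ))⁻¹ ^ 4 / (ρ / (N : ℝ) ^ β / k) ^ 6)) ∧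
      (n ≤ N → K * ((N : ℝ) ^ (3 * β - 1) * n) ≤ κ + D) := by
  classical
  obtain ⟨N₀, hN₀⟩ := eventually_atTop.mp (((tendsto_rpow_neg_atTop (show 0 < 1 - 3 * β by
    linarith)).comp tendsto_natCast_atTop_atTop).eventually (gt_mem_nhds
      (show 0 < C / (64 * R ^ 6) / (K + 1) by positivity)))
  refine ⟨4 * K + K * (R ^ 2 / ρ ^ 2) ^ 3 + K ^ 2 * (256 * ρ ^ 6 / C) + K * N₀ + 1, by positivity,
    fun N hN n => ?_⟩
  have hN1 : (1 : ℝ) ≤ N := by exact_mod_cast hN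
  have hw1 : (N : ℝ) ^ (3 * β - 1) ≤ 1 := Real.rpow_le_one_of_one_le_of_nonpos hN1 (by linarith)
  have hw2 : K * ((N : ℝ) ^ (3 * β - 1) * N) ≤ C / (64 * R ^ 6) * N + K * N₀ := by
    rcases le_total N₀ N with h | h
    · have h2 := (hN₀ N h).le
      simp only [Function.comp, neg_sub, le_div_iff₀ (show 0 < K + 1 by positivity)] at h2
      have h3 : 0 ≤ (N : ℝ) ^ (3 * β - 1) := by positivity
      nlinarith [mul_nonneg hK (Nat.cast_nonneg (α := ℝ) N₀)]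
    · have h2 : (N : ℝ) ≤ N₀ := by exact_mod_cast h
      have h3 : (N : ℝ) ^ (3 * β - 1) * N ≤ N₀ := by nlinarith
      have h4 : 0 ≤ C / (64 * R ^ 6) * N := by positivity
      nlinarith
  have hw : (N : ℝ) ^ (3 * β - 1) = ((N : ℝ) ^ β) ^ 3 * ((N : ℝ) ^ (1 / 2 : ℝ))⁻¹ ^ 2 := by
    rw [inv_pow, ← Real.rpow_natCast, ← Real.rpow_natCast, ← Real.rpow_mul (by positivity),
      ← Real.rpow_mul (by positivity), ← Real.rpow_neg (by positivity),
      ← Real.rpow_add (by positivity)]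
    congr 1; push_cast; ring
  have ha : ((N : ℝ) ^ (1 / 2 : ℝ))⁻¹ ^ 2 * N = 1 := by
    rw [inv_pow, ← Real.rpow_natCast, ← Real.rpow_mul (by positivity)]
    norm_num
    field_simp
  have ha0 : 0 < ((N : ℝ) ^ (1 / 2 : ℝ))⁻¹ := by positivity
  have hb0 : 0 < (N : ℝ) ^ β := by positivity
  rw [hw] at hw1 hw2 ⊢
  generalize ((N : ℝ) ^ (1 / 2 : ℝ))⁻¹ = a at *
  generalize (N : ℝ) ^ β = b at *
  obtain ⟨k, hk1, hk2⟩ : ∃ k : ℕ, (4 * k ^ 3 ≤ n ∧ R * a * k ≤ ρ / b) ∧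
      ¬(4 * (k + 1) ^ 3 ≤ n ∧ R * a * (k + 1 : ℕ) ≤ ρ / b) := by
    refine ⟨Nat.findGreatest (fun k => 4 * k ^ 3 ≤ n ∧ R * a * k ≤ ρ / b) n,
      Nat.findGreatest_spec (P := fun k => 4 * k ^ 3 ≤ n ∧ R * a * k ≤ ρ / b) (Nat.zero_le _)
        ⟨by simp, by simp; positivity⟩, fun h => Nat.findGreatest_is_greatest
          (P := fun k => 4 * k ^ 3 ≤ n ∧ R * a * k ≤ ρ / b) (Nat.lt_add_one _) ?_ h⟩
    exact (Nat.le_self_pow three_ne_zero _).trans (by omega)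
  have p1 : 0 ≤ K * (R ^ 2 / ρ ^ 2) ^ 3 := by positivity
  have p2 : 0 ≤ K ^ 2 * (256 * ρ ^ 6 / C) := by positivity
  have p3 : 0 ≤ K * N₀ := by positivity
  have hu : n ≤ N → b ^ 3 * a ^ 2 * n ≤ b ^ 3 * a ^ 2 * N := fun h => by gcongr
  rw [not_and_or, not_le, not_le] at hk2
  rcases k.eq_zero_or_pos with rfl | hk
  · refine ⟨1, 0, le_rfl, le_rfl, Or.inl rfl, fun hn => ?_⟩
    rcases hk2 with h | h
    · have h2 : (n : ℝ) ≤ 4 := by exact_mod_cast h.le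
      have h3 : b ^ 3 * a ^ 2 * n ≤ 4 := by nlinarith [Nat.cast_nonneg (α := ℝ) n]
      nlinarith
    · simp only [zero_add, Nat.cast_one, mul_one, div_lt_iff₀ hb0] at h
      have h2 : b ≤ R ^ 2 / ρ ^ 2 := by
        rw [le_div_iff₀ (by positivity)]
        have h3 : ρ ^ 2 ≤ (R * a * b) ^ 2 := by gcongr
        nlinarith [mul_le_mul_of_nonneg_left h3 hb0.le,
          mul_le_mul_of_nonneg_left hw1 (sq_nonneg R)]
      have h3 : b ^ 3 * a ^ 2 * n ≤ (R ^ 2 / ρ ^ 2) ^ 3 := by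
        refine (hu hn).trans ?_
        rw [mul_assoc, ha, mul_one]
        gcongr
      nlinarith [mul_le_mul_of_nonneg_left h3 hK]
  have hk' : (1 : ℝ) ≤ k := by exact_mod_cast hk
  refine ⟨k, _, hk, by positivity, Or.inr ⟨hk1.1, by
    rw [le_div_iff₀ (by positivity)]; exact hk1.2, le_rfl⟩, fun hn => ?_⟩
  rcases hk2 with h | h
  · have h2 : (n : ℝ) ≤ 32 * k ^ 3 := by
      have : n ≤ 4 * (2 * k) ^ 3 := h.le.trans (by gcongr; omega)
      exact_mod_cast this.trans_eq (by ring)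
    have h3 : C * (a ^ 4 / (ρ / b / k) ^ 6) = C / (1024 * ρ ^ 6) * (b ^ 3 * a ^ 2 * (32 * k ^ 3)) ^ 2 := by
      field_simp; norm_num
    have h4 : K * (b ^ 3 * a ^ 2 * n) ≤ K * (b ^ 3 * a ^ 2 * (32 * k ^ 3)) := by gcongr
    rw [h3]
    generalize b ^ 3 * a ^ 2 * (32 * k ^ 3) = u at h4 ⊢
    have h5 : C / (1024 * ρ ^ 6) * u ^ 2 + K ^ 2 * (256 * ρ ^ 6 / C) - K * u =
      (C * u - 512 * ρ ^ 6 * K) ^ 2 / (1024 * ρ ^ 6 * C) := by field_simp; ring
    have h6 : 0 ≤ (C * u - 512 * ρ ^ 6 * K) ^ 2 / (1024 * ρ ^ 6 * C) := by positivity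
    linarith
  · have h2 : ρ / b / k ≤ 2 * R * a := by
      rw [div_le_iff₀ (by positivity)]
      push_cast at h
      nlinarith [mul_pos hR ha0]
    have h3 : C / (64 * R ^ 6) * N ≤ C * (a ^ 4 / (ρ / b / k) ^ 6) := by
      refine le_trans (le_of_eq ?_) (show C * (a ^ 4 / (2 * R * a) ^ 6) ≤ _ by gcongr)
      rw [show (N : ℝ) = (a ^ 2)⁻¹ from (inv_eq_of_mul_eq_one_right ha).symm]
      field_simp; norm_num
    linarith [mul_le_mul_of_nonneg_left (hu hn) hK]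

variable {N : ℕ}

lemma int_mul {U G : (Fin N → E) → ℝ} (hU : Measurable U) (hG : Continuous G)
    (hc : HasCompactSupport G) (hb : ∀ r, ∃ M, ∀ X, ‖X‖ ≤ r → |U X| ≤ M) :
    Integrable fun X => U X * G X := by
  obtain ⟨r, -, hr⟩ := hc.isCompact.isBounded.exists_pos_norm_le
  obtain ⟨M, hM⟩ := hb r
  refine ((hG.integrable_of_hasCompactSupport hc).norm.const_mul M).mono'
    (hU.mul hG.measurable).aestronglyMeasurable (ae_of_all _ fun X => ?_)
  rw [norm_mul]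
  by_cases h : G X = 0
  · simp [h]
  · exact mul_le_mul_of_nonneg_right (hM X (hr X (subset_tsupport _ h))) (norm_nonneg _)

lemma trial : ∃ c : ℝ, 0 ≤ c ∧ ∀ (N : ℕ) (r : ℝ), 0 < r → ∃ ψ : (Fin N → E) → ℂ,
    ContDiff ℝ (⊤ : ℕ∞) ψ ∧ HasCompactSupport ψ ∧ (∀ (σ : Equiv.Perm (Fin N)) X, ψ (X ∘ σ) = ψ X) ∧
      (∀ X, ψ X ≠ 0 → ∀ i, r * ‖X i‖ < 1) ∧ 0 < ∫ X, ‖ψ X‖ ^ 2 ∧ (Integrable fun X => ∑ i, T ψ i X) ∧
      ∫ X, ∑ i, T ψ i X = r ^ 2 * N * c * ∫ X, ‖ψ X‖ ^ 2 := by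
  obtain ⟨φ, h1, h2, -⟩ := (Metric.isOpen_ball (x := (0 : E)) (ε := 1)).exists_contDiff_support_eq
    (n := ⊤)
  have h3 : HasCompactSupport φ := HasCompactSupport.of_support_subset_isCompact
    (isCompact_closedBall 0 1) (h1.le.trans Metric.ball_subset_closedBall)
  have h4 : 0 < ∫ x, φ x ^ 2 := by
    refine Continuous.integral_pos_of_hasCompactSupport_nonneg_nonzero (x := 0)
      (h2.continuous.pow 2) (h3.comp_left (g := fun t : ℝ => t ^ 2) (by simp))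
      (fun _ => sq_nonneg _) (pow_ne_zero _ ?_)
    rw [← mem_support, h1]; simp
  refine ⟨(∑ a, ∫ x, fderiv ℝ φ x (Pi.single a 1) ^ 2) / ∫ x, φ x ^ 2, by positivity,
    fun N r hr => ?_⟩
  obtain ⟨Ψ, hΨ⟩ : ∃ Ψ : (Fin N → E) → ℂ, Ψ = fun X => ∏ i, (φ (X i) : ℂ) := ⟨_, rfl⟩
  have h5 : ContDiff ℝ (⊤ : ℕ∞) Ψ := by
    rw [hΨ]
    exact contDiff_prod fun i _ => Complex.ofRealCLM.contDiff.comp (h2.comp (contDiff_apply ℝ E i))
  have h6 : ∀ X, Ψ (r • X) ≠ 0 → ∀ i, r * ‖X i‖ < 1 := fun X hX i => by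
    rw [hΨ] at hX
    have := Complex.ofReal_ne_zero.mp (Finset.prod_ne_zero_iff.mp hX i (Finset.mem_univ _))
    rw [← mem_support, h1, mem_ball_zero_iff, Pi.smul_apply, norm_smul,
      Real.norm_of_nonneg hr.le] at this
    exact this
  have h7 : HasCompactSupport fun X => Ψ (r • X) :=
    HasCompactSupport.of_support_subset_isCompact (isCompact_closedBall 0 r⁻¹) fun X hX => by
      rw [mem_closedBall_zero_iff, pi_norm_le_iff_of_nonneg (by positivity)]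
      exact fun i => by rw [← mul_one r⁻¹, le_inv_mul_iff₀ hr]; exact (h6 X hX i).le
  have h8 : ∫ X, ‖Ψ X‖ ^ 2 = ∏ _i : Fin N, ∫ x, φ x ^ 2 := by
    rw [← integral_fintype_prod_volume_eq_prod, hΨ]
    simp [← Finset.prod_pow]
  have h9 : ∀ i a, (∫ X, ‖fderiv ℝ Ψ X (Pi.single i (Pi.single a 1))‖ ^ 2) =
      (∫ x, fderiv ℝ φ x (Pi.single a 1) ^ 2) / (∫ x, φ x ^ 2) * ∫ X, ‖Ψ X‖ ^ 2 := fun i a => by
    have e1 : ∀ X, ‖fderiv ℝ Ψ X (Pi.single i (Pi.single a 1))‖ ^ 2 = ∏ l, (if l = i then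
        fun x => fderiv ℝ φ x (Pi.single a 1) ^ 2 else fun x => φ x ^ 2) (X l) := fun X => by
      have := HasFDerivAt.finsetProd (u := Finset.univ) (x := X)
        (g := fun l (X : Fin N → E) => (φ (X l) : ℂ)) fun l _ =>
        Complex.ofRealCLM.hasFDerivAt.comp X (((h2.differentiable (by simp)) (X l)).hasFDerivAt.comp
          X (hasFDerivAt_apply l X))
      rw [hΨ, this.fderiv, sum_apply, Finset.sum_eq_single i (fun l _ hl => by
        simp [hl]) (by simp), ← Finset.mul_prod_erase _ _ (Finset.mem_univ i), if_pos rfl,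
        Finset.prod_congr (g := fun l => φ (X l) ^ 2) rfl fun l hl => by
          rw [if_neg (Finset.ne_of_mem_erase hl)]]
      simp [mul_pow, ← Finset.prod_pow, mul_comm]
    simp only [e1]
    rw [integral_fintype_prod_volume_eq_prod, h8, ← Finset.mul_prod_erase _ _ (Finset.mem_univ i),
      ← Finset.mul_prod_erase _ _ (Finset.mem_univ i), if_pos rfl,
      Finset.prod_congr rfl fun l hl => by rw [if_neg (Finset.ne_of_mem_erase hl)]]
    field_simp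
  have h10 : ContDiff ℝ (⊤ : ℕ∞) fun X => Ψ (r • X) := h5.comp (contDiff_const_smul r)
  have h11 : ∀ i a, Integrable fun X =>
      ‖fderiv ℝ (fun X => Ψ (r • X)) X (Pi.single i (Pi.single a 1))‖ ^ 2 := fun i a => by
    have := h10.continuous_fderiv (by simp)
    exact Continuous.integrable_of_hasCompactSupport (by fun_prop) ((h7.fderiv ℝ).comp_left
      (g := fun L : (Fin N → E) →L[ℝ] ℂ => ‖L (Pi.single i (Pi.single a 1))‖ ^ 2) (by simp))
  have h12 := fun f : (Fin N → E) → ℝ => Measure.integral_comp_smul volume f r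
  refine ⟨fun X => Ψ (r • X), h10, h7, fun σ X => ?_, h6, ?_,
    integrable_finsetSum _ fun i _ => integrable_finsetSum _ fun a _ => h11 i a, ?_⟩
  · rw [hΨ]
    exact Equiv.prod_comp σ fun i => (φ ((r • X) i) : ℂ)
  · rw [h12 fun X => ‖Ψ X‖ ^ 2, h8]
    positivity
  · simp only [T]
    rw [integral_finsetSum _ fun i _ => integrable_finsetSum _ fun a _ => h11 i a,
      Finset.sum_congr rfl fun i _ => integral_finsetSum _ fun a _ => h11 i a,
      h12 fun X => ‖Ψ X‖ ^ 2]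
    simp only [fderiv_comp_smul, smul_apply, norm_smul, mul_pow,
      integral_const_mul, Real.norm_eq_abs, sq_abs,
      fun i a => h12 fun X => ‖fderiv ℝ Ψ X (Pi.single i (Pi.single a 1))‖ ^ 2, h9, smul_eq_mul,
      Finset.sum_const, Finset.card_univ, Fintype.card_fin, nsmul_eq_mul, ← Finset.mul_sum,
      ← Finset.sum_mul, ← Finset.sum_div]
    ring

lemma count_pairs (N : ℕ) :
    2 * (∑ i : Fin N, ∑ j : Fin N, if i < j then (1 : ℝ) else 0) = N * (N - 1) := by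
  have h : ∑ i : Fin N, ∑ j : Fin N, ((if i < j then (1 : ℝ) else 0) + (if j < i then 1 else 0) +
      if i = j then 1 else 0) = N * N := by
    rw [Finset.sum_congr rfl fun i _ => Finset.sum_congr rfl (g := fun _ => (1 : ℝ)) fun j _ => by
      rcases lt_trichotomy i j with h | rfl | h
      · simp [h, h.not_gt, h.ne]
      · simp
      · simp [h, h.not_gt, h.ne']]
    simp
  simp only [Finset.sum_add_distrib, Finset.sum_ite_eq, Finset.mem_univ, if_true, Finset.sum_const,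
    Finset.card_univ, Fintype.card_fin, nsmul_eq_mul, mul_one] at h
  rw [Finset.sum_comm (f := fun i j : Fin N => if j < i then (1 : ℝ) else 0)] at h
  linarith

end Pool.Agent.H12.TB4
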