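import Mathlib

set_option linter.unusedVariables false

namespace Pool.Agent.H12.TM

open Finset Polynomial Filter

def t (n : ℕ) : ZMod 2 := ((Nat.digits 2 n).sum : ℕ)

lemma t_zero : t 0 = 0 := by simp [t]

lemma t_rec (e x : ℕ) (he : e < 2) : t (e + 2 * x) = e + t x := by
  rcases Nat.eq_zero_or_pos (e + 2 * x) with h | h
  · obtain rfl : e = 0 := by omega
    obtain rfl : x = 0 := by omega
    simp
  · rw [t, Nat.digits_def' (by norm_num) h, show (e + 2 * x) % 2 = e by omega,
      show (e + 2 * x) / 2 = x by omega, List.sum_cons, Nat.cast_add, t]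

lemma t_add (L a b : ℕ) (h : a < 2 ^ L) : t (a + 2 ^ L * b) = t a + t b := by
  induction L generalizing a with
  | zero =>
    obtain rfl : a = 0 := by omega
    simp [t_zero]
  | succ L ih =>
    have h1 := t_rec (a % 2) (a / 2) (by omega)
    rw [Nat.mod_add_div] at h1
    rw [show a + 2 ^ (L + 1) * b = a % 2 + 2 * (a / 2 + 2 ^ L * b) by
      rw [pow_succ]; have := Nat.mod_add_div a 2; nlinarith, t_rec _ _ (by omega),
      ih _ (by rw [pow_succ] at h; omega), h1, add_assoc]

lemma t_pow_mul (k b : ℕ) : t (2 ^ k * b) = t b := by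
  simpa [t_zero] using t_add k 0 b (by positivity)

lemma t_sum (n : ℕ) (a : ℕ → ℕ) :
    ∀ᶠ L in atTop, t (∑ e ∈ range n, a e * (2 ^ L) ^ e) = ∑ e ∈ range n, t (a e) := by
  induction n generalizing a with
  | zero => simp [t_zero]
  | succ n ih =>
    filter_upwards [ih fun e => a (e + 1), eventually_ge_atTop (a 0)] with L h1 h2
    rw [sum_range_succ', sum_range_succ', ← h1, add_comm, add_comm _ (t (a 0)),
      ← t_add L _ _ (h2.trans_lt Nat.lt_two_pow_self), mul_sum, pow_zero, mul_one]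
    congr 2
    exact sum_congr rfl fun e _ => by ring

lemma indep_odd {ι : Type*} (I : Finset ι) (hI : I.Nonempty) (o : ι → ℕ) (ho : ∀ i ∈ I, Odd (o i))
    (hinj : ∀ i ∈ I, ∀ j ∈ I, o i = o j → i = j) : ¬ ∀ z, ∑ i ∈ I, t (z * o i) = 0 := by
  classical
  intro H
  obtain ⟨i0, hi0, hmax⟩ := exists_max_image I o hI
  set b := o i0 with hb
  have hb0 : 0 < b := (ho i0 hi0).pos
  obtain ⟨L, hL⟩ : ∃ L, b * b < 2 ^ L := ⟨_, Nat.lt_two_pow_self⟩
  have h1 := Nat.div_add_mod (2 ^ L) b
  have h2 := Nat.mod_lt (2 ^ L) hb0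
  have h3 : b ≤ 2 ^ L / b := (Nat.le_div_iff_mul_le hb0).2 hL.le
  set q := 2 ^ L / b
  set ρ := b - 2 ^ L % b with hρ
  have e1 : (q + 1) * b = ρ + 2 ^ L * 1 := by
    have : ρ + 2 ^ L % b = b := by omega
    nlinarith
  have hρ1 : ρ < 2 ^ L := by
    have : b ≤ b * b := Nat.le_mul_self b
    omega
  obtain ⟨k, hk⟩ := ho i0 hi0
  have e2 : b * b = 1 + 2 * (0 + 2 * (k * k + k)) := by rw [hb, hk]; ring
  have e3 : 1 + b * b = 0 + 2 * (1 + 2 * (k * k + k)) := by omega
  have e4 : t (1 + b * b) = t (b * b) := by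
    rw [e3, e2, t_rec _ _ (by omega), t_rec _ _ (by omega), t_rec _ _ (by omega),
      t_rec _ _ (by omega)]
    simp
  have key : ∀ i ∈ I, t ((q + 1 + 2 ^ L * b) * o i) =
      t ((q + 1) * o i) + t (b * o i) + if i = i0 then 1 else 0 := by
    intro i hi
    split_ifs with h
    · rw [h, ← hb, add_mul, e1, show ρ + 2 ^ L * 1 + 2 ^ L * b * b = ρ + 2 ^ L * (1 + b * b) by ring,
        t_add _ _ _ hρ1, t_add _ _ _ hρ1, e4, show t 1 = 1 by simp [t]]
      generalize t ρ = x
      generalize t (b * b) = y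
      revert x y; decide
    · have h4 : o i + 1 ≤ b := lt_of_le_of_ne (hmax i hi) fun h' => h (hinj i hi i0 hi0 h')
      have h5 : (q + 1) * (o i + 1) ≤ (q + 1) * b := Nat.mul_le_mul_left _ h4
      rw [e1, mul_add, mul_one] at h5
      rw [add_mul, mul_assoc, t_add _ _ _ (by omega), add_zero]
  have h5 := H (q + 1 + 2 ^ L * b)
  rw [sum_congr rfl key, sum_add_distrib, sum_add_distrib, H, H, sum_ite_eq' I i0, if_pos hi0] at h5
  simp at h5

lemma indep {ι : Type*} (I : Finset ι) (hI : I.Nonempty) (b : ι → ℕ)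
    (h2 : ∀ i ∈ I, ∀ j ∈ I, b i < 2 * b j)
    (hinj : ∀ i ∈ I, ∀ j ∈ I, b i = b j → i = j) : ¬ ∀ z, ∑ i ∈ I, t (z * b i) = 0 := by
  have h0 : ∀ i, ∃ k o : ℕ, i ∈ I → Odd o ∧ b i = 2 ^ k * o := by
    intro i
    by_cases hi : i ∈ I
    · obtain ⟨k, o, h⟩ := Nat.exists_eq_two_pow_mul_odd (n := b i) (by have := h2 i hi i hi; omega)
      exact ⟨k, o, fun _ => h⟩
    · exact ⟨0, 0, fun h => absurd h hi⟩
  choose k o h using h0
  intro H
  refine indep_odd I hI o (fun i hi => (h i hi).1) (fun i hi j hj e => hinj i hi j hj ?_)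
    fun z => ?_
  · have a1 := h2 i hi j hj
    have a2 := h2 j hj i hi
    rw [(h i hi).2, (h j hj).2, e, ← mul_assoc, ← pow_succ'] at a1 a2
    have a3 := (Nat.pow_lt_pow_iff_right (by norm_num)).1 (lt_of_mul_lt_mul_right a1 (Nat.zero_le _))
    have a4 := (Nat.pow_lt_pow_iff_right (by norm_num)).1 (lt_of_mul_lt_mul_right a2 (Nat.zero_le _))
    rw [(h i hi).2, (h j hj).2, e, show k i = k j by omega]
  · rw [← H z]
    refine sum_congr rfl fun i hi => ?_
    rw [(h i hi).2, mul_left_comm, t_pow_mul]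

abbrev A := MonoidAlgebra (ZMod 2) ℕ

instance : CharP A 2 := charP_of_injective_algebraMap' (ZMod 2) 2

noncomputable def tau (b : ℕ) : A →ₗ[ZMod 2] ZMod 2 :=
  (Finsupp.linearCombination (ZMod 2) fun c => t (c * b)).comp
    (MonoidAlgebra.coeffLinearEquiv (ZMod 2)).toLinearMap

noncomputable def Psi (Q : ℕ[X]) (x : ℕ) : A[X] →ₗ[ZMod 2] ZMod 2 :=
  lsum fun e => tau ((derivative^[e] Q).eval x)

noncomputable def ga (c : ℕ) : A[X] := C (MonoidAlgebra.single c 1)

lemma ga_mul (a b : ℕ) : ga a * ga b = ga (a * b) := by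
  simp [ga, ← C_mul]

lemma ga_one : ga 1 = 1 := by
  simp [ga, ← MonoidAlgebra.one_def]

lemma ga_pow (a n : ℕ) : ga a ^ n = ga (a ^ n) := by
  simp [ga, ← C_pow]

lemma Psi_monomial (Q : ℕ[X]) (x e : ℕ) (a : A) :
    Psi Q x (monomial e a) = tau ((derivative^[e] Q).eval x) a := by
  simp [Psi, lsum]

lemma Psi_ga (Q : ℕ[X]) (x e c : ℕ) :
    Psi Q x (X ^ e * ga c) = t (c * (derivative^[e] Q).eval x) := by
  rw [ga, mul_comm, C_mul_X_pow_eq_monomial, Psi_monomial]
  simp [tau]

lemma ind {p : A[X] → Prop} (h0 : p 0) (hadd : ∀ a b, p a → p b → p (a + b))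
    (hm : ∀ e c, p (X ^ e * ga c)) (r : A[X]) : p r := by
  induction r using Polynomial.induction_on' with
  | add a b ha hb => exact hadd _ _ ha hb
  | monomial e a =>
    induction a using MonoidAlgebra.induction_linear with
    | zero => simpa using h0
    | add a b ha hb => rw [map_add]; exact hadd _ _ ha hb
    | single c z =>
      have hz : z = 0 ∨ z = 1 := by revert z; decide
      rcases hz with rfl | rfl
      · simpa using h0
      · have := hm e c
        rwa [ga, mul_comm, C_mul_X_pow_eq_monomial] at this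

lemma Psi_high (Q : ℕ[X]) (x k : ℕ) (h : Q.natDegree < k) (B : A[X]) :
    Psi Q x (X ^ k * B) = 0 := by
  induction B using ind with
  | h0 => simp
  | hadd a b ha hb => rw [mul_add, map_add, ha, hb, add_zero]
  | hm e c =>
    rw [← mul_assoc, ← pow_add, Psi_ga, iterate_derivative_eq_zero (by omega)]
    simp [t_zero]

lemma Psi_const (Q : ℕ[X]) (x k : ℕ) (h : Q.natDegree ≤ k) (B : A[X]) :
    Psi Q x (X ^ k * B) = Psi Q 0 (X ^ k * B) := by
  induction B using ind with
  | h0 => simp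
  | hadd a b ha hb => rw [mul_add, map_add, map_add, ha, hb]
  | hm e c =>
    have h1 : (derivative^[k + e] Q).natDegree ≤ 0 :=
      (natDegree_iterate_derivative _ _).trans (by omega)
    rw [← mul_assoc, ← pow_add, Psi_ga, Psi_ga, eq_C_of_natDegree_le_zero h1, eval_C, eval_C]

noncomputable def S (d v : ℕ) : A[X] :=
  ∑ e ∈ range (d + 1), X ^ e * ga ((d.factorial * v) ^ e / e.factorial)

lemma step (d v : ℕ) (Q : ℕ[X]) (hQ : Q.natDegree ≤ d) (x : ℕ) (r : A[X]) :
    ∀ᶠ L in atTop, Psi Q (x + d.factorial * v * 2 ^ L) r = Psi Q x (r * S d v) := by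
  induction r using ind with
  | h0 => simp
  | hadd a b ha hb =>
    filter_upwards [ha, hb] with L h1 h2
    rw [add_mul, map_add, map_add, h1, h2]
  | hm e c =>
    filter_upwards [t_sum (d + 1) fun k => c * ((d.factorial * v) ^ k / k.factorial) *
      (derivative^[e + k] Q).eval x] with L hL
    have h1 : (taylor x (derivative^[e] Q)).natDegree < d + 1 := by
      rw [natDegree_taylor]
      exact (natDegree_iterate_derivative _ _).trans_lt (by omega)
    rw [Psi_ga, add_comm x, ← taylor_eval, eval_eq_sum_range' h1, S, mul_sum, mul_sum, map_sum]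
    have e1 : ∀ k ∈ range (d + 1), Psi Q x (X ^ e * ga c *
        (X ^ k * ga ((d.factorial * v) ^ k / k.factorial))) =
        t (c * ((d.factorial * v) ^ k / k.factorial) * (derivative^[e + k] Q).eval x) := by
      intro k _
      rw [mul_mul_mul_comm, ← pow_add, ga_mul, Psi_ga]
    rw [sum_congr rfl e1, ← hL]
    congr 1
    refine sum_congr rfl fun k hk => ?_
    have h2 : k.factorial ∣ (d.factorial * v) ^ k := by
      rcases Nat.eq_zero_or_pos k with rfl | h
      · simp
      · exact ((Nat.factorial_dvd_factorial (Nat.lt_succ_iff.1 (mem_range.1 hk))).trans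
          (dvd_mul_right _ _)).trans (dvd_pow_self _ h.ne')
    obtain ⟨w, hw⟩ := h2
    rw [add_comm e k, Function.iterate_add_apply, ← factorial_smul_hasseDeriv (k := k), mul_pow, hw,
      Nat.mul_div_cancel_left _ k.factorial_pos, taylor_coeff]
    simp only [LinearMap.smul_apply, eval_smul, smul_eq_mul]
    ring

def Reach (d : ℕ) (s : A[X]) : Prop :=
  ∀ (r : A[X]) (W : Finset (ℕ[X] × ℕ)), (∀ p ∈ W, p.1.natDegree ≤ d) →
    ∃ y, ∀ p ∈ W, Psi p.1 (p.2 + d.factorial * y) r = Psi p.1 p.2 (r * s)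

lemma reach_one (d : ℕ) : Reach d 1 := fun r W _ => ⟨0, by simp⟩

lemma reach_S (d v : ℕ) : Reach d (S d v) := by
  intro r W hW
  obtain ⟨L, hL⟩ := ((eventually_all_finset W).2 fun p hp => step d v p.1 (hW p hp) p.2 r).exists
  exact ⟨v * 2 ^ L, fun p hp => by rw [← mul_assoc]; exact hL p hp⟩

lemma reach_mul {d : ℕ} {s s' : A[X]} (h : Reach d s) (h' : Reach d s') : Reach d (s * s') := by
  classical
  intro r W hW
  obtain ⟨y, hy⟩ := h' (r * s) W hW
  obtain ⟨y', hy'⟩ := h r (W.image fun p => (p.1, p.2 + d.factorial * y)) (by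
    intro p hp
    obtain ⟨q, hq, rfl⟩ := mem_image.1 hp
    exact hW q hq)
  refine ⟨y + y', fun p hp => ?_⟩
  rw [← mul_assoc, ← hy p hp, ← hy' _ (mem_image_of_mem _ hp), mul_add, add_assoc]

lemma reach_pow {d : ℕ} {s : A[X]} (h : Reach d s) (n : ℕ) : Reach d (s ^ n) := by
  induction n with
  | zero => simpa using reach_one d
  | succ n ih => rw [pow_succ]; exact reach_mul ih h

lemma S_pow (d v r : ℕ) (hd : 1 ≤ d) : ∃ B, S d v ^ 2 ^ r =
    1 + X ^ 2 ^ r * ga ((d.factorial * v) ^ 2 ^ r) + X ^ (2 * 2 ^ r) * B := by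
  obtain ⟨d, rfl⟩ := Nat.exists_eq_add_of_le' hd
  have h : X ^ (2 * 2 ^ r) ∣ ∑ e ∈ range d, (X ^ (e + 1 + 1) *
      ga (((d + 1).factorial * v) ^ (e + 1 + 1) / (e + 1 + 1).factorial)) ^ 2 ^ r :=
    dvd_sum fun e _ => by
      rw [mul_pow, ← pow_mul]
      exact (pow_dvd_pow _ (Nat.mul_le_mul_right _ (by omega))).mul_right _
  obtain ⟨B, hB⟩ := h
  refine ⟨B, ?_⟩
  rw [S, sum_pow_char_pow, sum_range_succ', sum_range_succ', hB]
  simp [ga_one, mul_pow, ga_pow]
  ring

lemma polar {ι : Type*} (I : Finset ι) (b : ι → ℕ) (d m : ℕ) (hm : m + 1 ≤ d)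
    (H : ∀ v, ∑ i ∈ I, t ((d.factorial * v) ^ (m + 1) * b i) = 0) (z : ℕ) :
    ∑ i ∈ I, t (z * (d.factorial ^ (m + 1) * (m + 1).factorial * b i)) = 0 := by
  classical
  set Q : ι → ℕ[X] := fun i => C (b i) * X ^ (m + 1) with hQ
  have hdeg : ∀ i, (Q i).natDegree ≤ m + 1 := fun i => natDegree_C_mul_X_pow_le _ _
  have h1 : ∀ s, Reach d s → ∑ i ∈ I, Psi (Q i) 0 (1 * s) = 0 := by
    intro s hs
    obtain ⟨y, hy⟩ := hs 1 (I.image fun i => (Q i, 0)) (by
      intro p hp
      obtain ⟨i, -, rfl⟩ := mem_image.1 hp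
      exact (hdeg i).trans hm)
    rw [← H y]
    refine sum_congr rfl fun i hi => ?_
    have h2 := Psi_ga (Q i) (0 + d.factorial * y) 0 1
    rw [← hy _ (mem_image_of_mem _ hi)]
    rw [pow_zero, ga_one, mul_one] at h2
    rw [h2]
    simp [hQ, mul_comm]
  have h2 : ∀ r v, (∀ s, Reach d s → ∑ i ∈ I, Psi (Q i) 0 (r * s) = 0) →
      ∀ s, Reach d s → ∑ i ∈ I, Psi (Q i) 0 (r * (S d v + 1) * s) = 0 := by
    intro r v h s hs
    have e : r * (S d v + 1) * s = r * (S d v * s) + r * s := by ring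
    simp only [e, map_add]
    rw [sum_add_distrib, h _ (reach_mul (reach_S d v) hs), h _ hs, add_zero]
  have h3 : ∀ v, ∃ B, S d v + 1 = X * ga (d.factorial * v) + X ^ 2 * B := by
    intro v
    obtain ⟨B, hB⟩ := S_pow d v 0 (by omega)
    refine ⟨B, ?_⟩
    simp only [pow_zero, pow_one, mul_one] at hB
    rw [hB]
    linear_combination CharTwo.two_eq_zero (R := A[X])
  have h4 : ∀ j, ∃ B, ∀ s, Reach d s → ∑ i ∈ I, Psi (Q i) 0
      ((X ^ (j + 1) * ga (d.factorial ^ (j + 1) * z) + X ^ (j + 2) * B) * s) = 0 := by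
    intro j
    induction j with
    | zero =>
      obtain ⟨B, hB⟩ := h3 z
      refine ⟨B, ?_⟩
      have := h2 1 z h1
      rw [hB, one_mul] at this
      simpa using this
    | succ j ih =>
      obtain ⟨B, hB⟩ := ih
      obtain ⟨B', hB'⟩ := h3 1
      refine ⟨ga (d.factorial ^ (j + 1) * z) * B' + B * ga (d.factorial * 1) + X * B * B', ?_⟩
      have := h2 _ 1 hB
      rw [hB'] at this
      convert this using 6
      rw [show d.factorial ^ (j + 1 + 1) * z = d.factorial ^ (j + 1) * z * (d.factorial * 1) by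
        ring, ← ga_mul]
      ring
  obtain ⟨B, hB⟩ := h4 m
  rw [← hB 1 (reach_one d)]
  refine sum_congr rfl fun i _ => ?_
  rw [mul_one, map_add, Psi_high _ _ (m + 2) ((hdeg i).trans_lt (by omega)), add_zero, Psi_ga]
  congr 1
  simp only [hQ, iterate_derivative_C_mul, iterate_derivative_X_pow_eq_smul,
    Nat.descFactorial_self]
  simp
  ring

lemma main (P : ℕ[X]) (r K : ℕ) (h1 : 2 ^ r ≤ P.natDegree) (h2 : P.natDegree ≤ 2 * 2 ^ r) (x : ℕ)
    (hb : ∀ i j : Fin K, (derivative^[2 ^ r] P).eval (x + i) <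
      2 * (derivative^[2 ^ r] P).eval (x + j))
    (hinj : ∀ i j : Fin K, (derivative^[2 ^ r] P).eval (x + i) =
      (derivative^[2 ^ r] P).eval (x + j) → i = j) (w : Fin K → ZMod 2) :
    ∃ (y : ℕ) (c : ZMod 2), ∀ i : Fin K, t (P.eval (y + i)) = w i + c := by
  classical
  set d := P.natDegree
  set m := 2 ^ r with hm
  have hm0 : 0 < m := by positivity
  set b : Fin K → ℕ := fun i => (derivative^[m] P).eval (x + i)
  have hspan : Submodule.span (ZMod 2)
      (Set.range fun v : ℕ => fun i : Fin K => t ((d.factorial * v) ^ m * b i)) = ⊤ := by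
    by_contra hne
    obtain ⟨f, hf, hle⟩ := Submodule.exists_le_ker_of_lt_top _ (lt_top_iff_ne_top.2 hne)
    set I := univ.filter fun i : Fin K => f (Pi.single i 1) = 1
    have hfI : ∀ g : Fin K → ZMod 2, f g = ∑ i ∈ I, g i := by
      intro g
      rw [LinearMap.pi_apply_eq_sum_univ, sum_filter]
      refine sum_congr rfl fun i _ => ?_
      rw [show (fun j => if i = j then (1 : ZMod 2) else 0) = Pi.single i 1 by
        ext j; simp [Pi.single_apply, eq_comm]]
      generalize f (Pi.single i 1) = a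
      generalize g i = a'
      revert a a'; decide
    have hI : I.Nonempty := by
      rw [nonempty_iff_ne_empty]
      intro h
      exact hf (LinearMap.ext fun g => by rw [hfI, h]; simp)
    obtain ⟨m', hm'⟩ : ∃ m', m = m' + 1 := ⟨m - 1, by omega⟩
    have hc : 0 < d.factorial ^ (m' + 1) * (m' + 1).factorial := by positivity
    refine indep I hI (fun i => d.factorial ^ (m' + 1) * (m' + 1).factorial * b i)
      (fun i _ j _ => ?_) (fun i _ j _ e => hinj i j (Nat.eq_of_mul_eq_mul_left hc e))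
      (polar I b d m' (hm' ▸ h1) fun v => ?_)
    · rw [mul_left_comm]
      exact Nat.mul_lt_mul_of_pos_left (hb i j) hc
    · rw [← hm', ← hfI fun i => t ((d.factorial * v) ^ m * b i)]
      exact hle (Submodule.subset_span ⟨v, rfl⟩)
  have key : ∀ g : Fin K → ZMod 2, ∃ A' B, Reach d (1 + X ^ m * A' + X ^ (2 * m) * B) ∧
      ∀ i : Fin K, Psi P (x + i) (X ^ m * A') = g i := by
    intro g
    have hg : g ∈ Submodule.span (ZMod 2)
      (Set.range fun v : ℕ => fun i : Fin K => t ((d.factorial * v) ^ m * b i)) :=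
      hspan ▸ Submodule.mem_top
    induction hg using Submodule.span_induction with
    | mem g hg =>
      obtain ⟨v, rfl⟩ := hg
      obtain ⟨B, hB⟩ := S_pow d v r (by omega)
      exact ⟨_, B, hB ▸ reach_pow (reach_S d v) _, fun i => Psi_ga _ _ _ _⟩
    | zero => exact ⟨0, 0, by simpa using reach_one d, by simp⟩
    | add g g' _ _ h h' =>
      obtain ⟨a, B, h3, h4⟩ := h
      obtain ⟨a', B', h3', h4'⟩ := h'
      refine ⟨a + a', B + B' + a * a' + X ^ m * (a * B' + a' * B) + X ^ (2 * m) * B * B', ?_,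
        fun i => by rw [mul_add, map_add, h4, h4', Pi.add_apply]⟩
      convert reach_mul h3 h3' using 1
      ring
    | smul z g _ h =>
      have hz : z = 0 ∨ z = 1 := by revert z; decide
      rcases hz with rfl | rfl
      · exact ⟨0, 0, by simpa using reach_one d, by simp⟩
      · simpa using h
  obtain ⟨a, B, h3, h4⟩ := key fun i => w i - t (P.eval (x + i))
  obtain ⟨y, hy⟩ := h3 1 (univ.image fun i : Fin K => (P, x + i)) (by
    intro p hp
    obtain ⟨i, -, rfl⟩ := mem_image.1 hp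
    exact le_rfl)
  have h5 : ∀ z, Psi P z 1 = t (P.eval z) := fun z => by
    simpa [ga_one] using Psi_ga P z 0 1
  refine ⟨x + d.factorial * y, Psi P 0 (X ^ (2 * m) * B), fun i => ?_⟩
  have h6 := hy _ (mem_image_of_mem _ (mem_univ i))
  rw [h5, one_mul, map_add, map_add, h5, h4, Psi_const _ _ _ h2] at h6
  rw [add_right_comm, h6]
  ring

lemma ev_nonneg (Q : ℤ[X]) (h : 0 ≤ Q.leadingCoeff) : ∀ᶠ n : ℕ in atTop, 0 ≤ Q.eval (n : ℤ) := by
  rcases Nat.eq_zero_or_pos Q.natDegree with h0 | h0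
  · rw [leadingCoeff, h0] at h
    rw [eq_C_of_natDegree_eq_zero h0]
    exact Eventually.of_forall fun n => by simpa using h
  · have hi : Function.Injective (Int.castRingHom ℝ) := Int.cast_injective
    have h1 := tendsto_atTop_of_leadingCoeff_nonneg (Q.map (Int.castRingHom ℝ))
      (by rw [degree_map_eq_of_injective hi]; exact natDegree_pos_iff_degree_pos.1 h0)
      (by rw [leadingCoeff_map_of_injective hi]; simpa using h)
    filter_upwards [(h1.comp tendsto_natCast_atTop_atTop).eventually_ge_atTop 0] with n hn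
    have h2 : (Q.map (Int.castRingHom ℝ)).eval (n : ℝ) = ((Q.eval (n : ℤ) : ℤ) : ℝ) := by
      simp
    rw [Function.comp_apply, h2] at hn
    exact_mod_cast hn

lemma shift (P : ℤ[X]) (hd : 0 < P.natDegree) (hP : ∀ n : ℕ, 0 ≤ P.eval (n : ℤ)) :
    ∃ (n0 : ℕ) (Q : ℕ[X]), Q.natDegree = P.natDegree ∧
      ∀ y : ℕ, (P.eval ((y + n0 : ℕ) : ℤ)).toNat = Q.eval y := by
  have h1 : 0 ≤ P.leadingCoeff := by
    by_contra h
    have h2 : (-P - 1).leadingCoeff = -P.leadingCoeff := by
      rw [leadingCoeff_sub_of_degree_lt, leadingCoeff_neg]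
      simpa using natDegree_pos_iff_degree_pos.1 hd
    obtain ⟨n, hn⟩ := (ev_nonneg (-P - 1) (by rw [h2]; omega)).exists
    have := hP n
    simp at hn
    omega
  have h2 : ∀ e ∈ range (P.natDegree + 1), ∀ᶠ n : ℕ in atTop,
      0 ≤ (hasseDeriv e P).eval (n : ℤ) := by
    intro e he
    refine ev_nonneg _ ?_
    rw [leadingCoeff, natDegree_hasseDeriv, hasseDeriv_coeff,
      Nat.sub_add_cancel (Nat.lt_succ_iff.1 (mem_range.1 he))]
    exact mul_nonneg (Nat.cast_nonneg _) h1
  obtain ⟨n0, hn0⟩ := ((eventually_all_finset _).2 h2).exists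
  have h3 : taylor (n0 : ℤ) P ∈ lifts (Nat.castRingHom ℤ) := by
    rw [lifts_iff_coeff_lifts]
    intro e
    refine ⟨((taylor (n0 : ℤ) P).coeff e).toNat, Int.toNat_of_nonneg ?_⟩
    rw [taylor_coeff]
    by_cases he : e ∈ range (P.natDegree + 1)
    · exact hn0 e he
    · rw [hasseDeriv_eq_zero_of_lt_natDegree _ _ (by simpa using he), eval_zero]
  obtain ⟨Q, hQ⟩ := (mem_lifts _).1 h3
  refine ⟨n0, Q, ?_, fun y => ?_⟩
  · rw [← natDegree_taylor P n0, ← hQ, natDegree_map_eq_of_injective Nat.cast_injective]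
  · rw [Nat.cast_add, ← taylor_eval, ← hQ]
    have := eval_natCast_map (Nat.castRingHom ℤ) Q y
    rw [this]
    simp

lemma growth (D : ℕ[X]) (j : ℕ) (hj : 0 < j) (hc : 0 < D.coeff j) (K : ℕ) :
    StrictMono (fun x => D.eval x) ∧ ∃ x, D.eval (x + K) < 2 * D.eval x := by
  have hm : j ∈ range (D.natDegree + 1) :=
    mem_range.2 (Nat.lt_succ_of_le (le_natDegree_of_ne_zero hc.ne'))
  constructor
  · intro a b hab
    simp only [eval_eq_sum_range]
    exact sum_lt_sum (fun i _ => by gcongr) ⟨j, hm, by gcongr⟩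
  · have h1 : ∀ e ∈ range (D.natDegree + 1), ∀ᶠ x : ℕ in atTop, (x + K) ^ e < 2 * x ^ e := by
      intro e _
      have h2 : Tendsto (fun x : ℕ => (1 + (K : ℝ) / x) ^ e) atTop (nhds 1) := by
        simpa using ((tendsto_const_div_atTop_nhds_zero_nat (K : ℝ)).const_add 1).pow e
      filter_upwards [h2.eventually (gt_mem_nhds one_lt_two), eventually_gt_atTop 0] with x hx h0
      have h3 : (0 : ℝ) < x := by exact_mod_cast h0
      rw [one_add_div h3.ne', div_pow, div_lt_iff₀ (by positivity)] at hx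
      exact_mod_cast hx
    obtain ⟨x, hx⟩ := ((eventually_all_finset _).2 h1).exists
    refine ⟨x, ?_⟩
    simp only [eval_eq_sum_range, mul_sum]
    refine sum_lt_sum (fun i hi => ?_) ⟨j, hm, ?_⟩
    · rw [mul_left_comm]; exact Nat.mul_le_mul_left _ (hx i hi).le
    · rw [mul_left_comm]; exact Nat.mul_lt_mul_of_pos_left (hx j hm) hc

theorem all_words (P : ℤ[X]) (hd : 2 ≤ P.natDegree) (hP : ∀ n : ℕ, 0 ≤ P.eval (n : ℤ)) (k : ℕ)
    (w : Fin k → ZMod 2) : ∃ m : ℕ, ∀ i : Fin k, t (P.eval ((m + i : ℕ) : ℤ)).toNat = w i := by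
  obtain ⟨n0, Q, hQ, hQ'⟩ := shift P (by omega) hP
  rw [← hQ] at hd
  set r := Nat.log 2 (Q.natDegree - 1)
  have h1 : 2 ^ r ≤ Q.natDegree - 1 := Nat.pow_log_le_self 2 (by omega)
  have h2 : Q.natDegree - 1 < 2 ^ (r + 1) := Nat.lt_pow_succ_log_self (by norm_num) _
  rw [pow_succ] at h2
  obtain ⟨hmono, x, hx⟩ := growth (derivative^[2 ^ r] Q) (Q.natDegree - 2 ^ r) (by omega) (by
    rw [coeff_iterate_derivative, Nat.sub_add_cancel (by omega), smul_eq_mul]
    refine Nat.mul_pos (Nat.descFactorial_pos.2 (by omega)) (Nat.pos_of_ne_zero ?_)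
    rw [coeff_natDegree, Ne, leadingCoeff_eq_zero]
    rintro rfl
    simp at hd) (k + k)
  obtain ⟨y, c, hy⟩ := main Q r (k + k) (by omega) (by omega) x
    (fun i j => (hmono.monotone (by omega : x + i ≤ x + (k + k))).trans_lt
      (hx.trans_le (Nat.mul_le_mul_left _ (hmono.monotone (by omega : x ≤ x + j)))))
    (fun i j h => Fin.ext (by have := hmono.injective h; omega))
    (Fin.append w fun i => w i + 1)
  have hc : c = 0 ∨ c = 1 := by clear hy; revert c; decide
  rcases hc with rfl | rfl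
  · refine ⟨y + n0, fun i => ?_⟩
    have := hy (Fin.castAdd k i)
    rw [Fin.append_left, add_zero] at this
    rw [add_right_comm, hQ', ← this]
    rfl
  · refine ⟨y + k + n0, fun i => ?_⟩
    have := hy (Fin.natAdd k i)
    rw [Fin.append_right, add_assoc, show (1 : ZMod 2) + 1 = 0 by decide, add_zero] at this
    rw [add_right_comm, hQ', ← this, add_assoc]
    rfl

end Pool.Agent.H12.TM
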