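import Mathlib

/-! Toom contours with two charges and the Peierls bound. -/

open MeasureTheory Set
open scoped ENNReal

namespace Pool.Agent.H12.Toom

/-- space-time points -/
abbrev Pt : Type := ℤ × ℤ × ℤ

/-- taxicab distance -/
def dist1 (p q : Pt) : ℕ := (q.1 - p.1).natAbs + ((q.2.1 - p.2.1).natAbs + (q.2.2 - p.2.2).natAbs)

/-- potential -/
def pot (p : Pt) : ℤ := 2 * p.1 + p.2.2

/-- contours -/
def Good (r : Pt) : Pt → List Pt → Prop
  | p, [] => pot p ≤ pot r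
  | p, q :: l => (dist1 p q : ℤ) ≤ 3 * (pot q - pot p + 3) ∧ Good r q l

/-- length of the path through a list -/
def cost : Pt → List Pt → ℕ
  | _, [] => 0
  | p, q :: l => dist1 p q + cost q l

lemma cost_le {r p : Pt} {l : List Pt} (h : Good r p l) :
    (cost p l : ℤ) ≤ 9 * l.length + 3 * (pot r - pot p) := by
  induction l generalizing p with
  | nil => simp only [Good, cost, List.length_nil] at h ⊢; omega
  | cons q l ih =>
    have := ih h.2
    have := h.1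
    simp only [cost, List.length_cons]
    omega

lemma erase {r p : Pt} {l : List Pt} (h : Good r p l) :
    ∃ l', l'.Nodup ∧ l' ⊆ l ∧ Good r p l' ∧ (l ≠ [] → l' ≠ []) := by
  have suf : ∀ (a : List Pt) p q b, Good r p (a ++ q :: b) → Good r q b := fun a => by
    induction a with
    | nil => exact fun _ _ _ h => h.2
    | cons x a ih => exact fun _ _ _ h => ih _ _ _ h.2
  induction l generalizing p with
  | nil => exact ⟨[], by simp, by simp, h, id⟩
  | cons q l ih =>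
    obtain ⟨l', h1, h2, h3, -⟩ := ih h.2
    by_cases hq : q ∈ l'
    · obtain ⟨a, b, rfl⟩ := List.append_of_mem hq
      exact ⟨q :: b, h1.of_append_right, List.cons_subset.mpr ⟨by simp, fun x hx =>
        List.mem_cons_of_mem _ (h2 (by simp [hx]))⟩, ⟨h.1, suf _ _ _ _ h3⟩, by simp⟩
    · exact ⟨q :: l', List.nodup_cons.mpr ⟨hq, h1⟩, List.cons_subset_cons _ h2, ⟨h.1, h3⟩, by simp⟩

lemma contour {dev err : Pt → Prop} (h : ∀ p, dev p → err p ∨ ∃ a b : ℤ, (a = 0 ∨ a = 1) ∧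
    (b = 0 ∨ b = 1) ∧ dev (p.1 + 1, p.2.1 + a, p.2.2 - 1) ∧ dev (p.1, p.2.1 + b, p.2.2 - 1))
    (h0 : ∀ p, dev p → 0 < p.2.2) {r : Pt} (hr : dev r) :
    ∃ l : List Pt, l ≠ [] ∧ l.Nodup ∧ (∀ m ∈ l, err m) ∧ cost r l ≤ 9 * l.length := by
  have mono : ∀ p p' l, (dist1 p' p : ℤ) ≤ 3 * (pot p - pot p') → Good r p l → Good r p' l := by
    rintro p p' (_ | ⟨q, l⟩) h1 h2
    · simp only [Good] at h2 ⊢; omega
    · refine ⟨?_, h2.2⟩
      have := h2.1
      simp only [dist1] at *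
      omega
  have ext : ∀ t l p, Good r p l → (∀ m ∈ l, err m ∨ dev m ∧ m.2.2 = t) → ∃ l', Good r p l' ∧
      (l ≠ [] → l' ≠ []) ∧ ∀ m ∈ l', err m ∨ dev m ∧ m.2.2 = t - 1 := fun t l => by
    induction l with
    | nil => exact fun p h _ => ⟨[], h, id, by simp⟩
    | cons q l ih =>
      intro p h1 h2
      obtain ⟨l', h3, -, h4⟩ := ih q h1.2 fun m hm => h2 m (List.mem_cons_of_mem _ hm)
      by_cases he : err q
      · exact ⟨q :: l', ⟨h1.1, h3⟩, by simp, List.forall_mem_cons.mpr ⟨Or.inl he, h4⟩⟩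
      obtain ⟨h5, h6⟩ := (h2 q (by simp)).resolve_left he
      obtain ⟨a, b, ha, hb, h7, h8⟩ := (h q h5).resolve_left he
      have h9 := h1.1
      refine ⟨_ :: _ :: l', ⟨?_, ?_, mono _ _ _ ?_ h3⟩, by simp, List.forall_mem_cons.mpr
        ⟨Or.inr ⟨h7, by simp [h6]⟩, List.forall_mem_cons.mpr ⟨Or.inr ⟨h8, by simp [h6]⟩, h4⟩⟩⟩ <;>
      simp only [dist1, pot] at * <;> omega
  have lev : ∀ n : ℕ, ∃ l, Good r r l ∧ l ≠ [] ∧ ∀ m ∈ l, err m ∨ dev m ∧ m.2.2 = r.2.2 - n :=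
    fun n => by
      induction n with
      | zero => exact ⟨[r], ⟨by simp [dist1], le_rfl⟩, by simp, by simp [hr]⟩
      | succ n ih =>
        obtain ⟨l, h1, h2, h3⟩ := ih
        obtain ⟨l', h4, h5, h6⟩ := ext _ l r h1 h3
        exact ⟨l', h4, h5 h2, by simpa [sub_sub] using h6⟩
  obtain ⟨l, h1, h2, h3⟩ := lev r.2.2.toNat
  obtain ⟨l', h4, h5, h6, h7⟩ := erase h1
  refine ⟨l', h7 h2, h4, fun m hm => (h3 m (h5 hm)).resolve_right fun h8 => ?_, ?_⟩
  · have := h0 m h8.1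
    omega
  · have := cost_le h6
    omega

lemma sum_int (a : ℤ) : ∑' n : ℤ, (2⁻¹ : ℝ≥0∞) ^ (n - a).natAbs ≤ 4 := by
  refine (ENNReal.tsum_le_tsum_comp_of_surjective (f := fun p : Bool × ℕ =>
    if p.1 then a + p.2 else a - p.2) (fun n => ?_) _).trans_eq ?_
  · by_cases h : a ≤ n
    · exact ⟨(true, (n - a).natAbs), by simp only [if_true]; omega⟩
    · exact ⟨(false, (n - a).natAbs), by simp only [Bool.false_eq_true, if_false]; omega⟩
  · rw [ENNReal.tsum_prod', tsum_fintype]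
    simp [ENNReal.tsum_geometric]
    norm_num

lemma count (k : ℕ) (p : Pt) :
    ∑' l : {l : List Pt // l.length = k}, (2⁻¹ : ℝ≥0∞) ^ cost p l.1 ≤ 64 ^ k := by
  induction k generalizing p with
  | zero =>
    rw [tsum_eq_single (⟨[], rfl⟩ : {l : List Pt // l.length = 0}) fun l h =>
      absurd (Subtype.ext (List.length_eq_zero_iff.mp l.2)) h]
    simp [cost]
  | succ k ih =>
    refine (ENNReal.tsum_le_tsum_comp_of_surjective (f := fun x : Pt × {l : List Pt //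
      l.length = k} => ⟨x.1 :: x.2.1, by simp [x.2.2]⟩) ?_ _).trans ?_
    · rintro ⟨_ | ⟨q, l⟩, h⟩
      · simp at h
      · exact ⟨(q, ⟨l, by simpa using h⟩), rfl⟩
    · simp only [ENNReal.tsum_prod', cost, pow_add, ENNReal.tsum_mul_left]
      refine (ENNReal.tsum_le_tsum fun _ => ENNReal.tsum_le_tsum fun _ => ENNReal.tsum_le_tsum
        fun _ => mul_le_mul_right (ih _) _).trans ?_
      simp only [dist1, pow_add, ENNReal.tsum_mul_left, ENNReal.tsum_mul_right]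
      rw [mul_comm]
      exact mul_le_mul_right ((mul_le_mul' (sum_int _) (mul_le_mul' (sum_int _) (sum_int _))).trans
        (by norm_num)) _

lemma peierls {Ω : Type*} [MeasurableSpace Ω] (Q : Measure Ω) {err : Ω → Pt → Prop}
    (h : ∀ l : List Pt, l.Nodup → Q {ω | ∀ m ∈ l, err ω m} ≤ (2⁻¹ ^ 17) ^ l.length) (r : Pt) :
    Q {ω | ∃ l : List Pt, l ≠ [] ∧ l.Nodup ∧ (∀ m ∈ l, err ω m) ∧ cost r l ≤ 9 * l.length} ≤ 3⁻¹ := by
  have h1 : ∀ k : ℕ, Q (⋃ l : {l : List Pt // l.length = k}, {ω | l.1.Nodup ∧ (∀ m ∈ l.1, err ω m) ∧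
      cost r l.1 ≤ 9 * k}) ≤ 4⁻¹ ^ k := fun k => by
    refine (measure_iUnion_le _).trans ((ENNReal.tsum_le_tsum (g := fun l => (2⁻¹ ^ 8) ^ k *
      2⁻¹ ^ cost r l.1) fun l => ?_).trans ?_)
    · by_cases h2 : l.1.Nodup ∧ cost r l.1 ≤ 9 * k
      · refine (measure_mono fun ω hω => hω.2.1).trans ((h _ h2.1).trans ?_)
        rw [l.2, show 17 = 8 + 9 from rfl, pow_add, mul_pow, ← pow_mul _ 9]
        exact mul_le_mul_right (pow_le_pow_right_of_le_one' (by simp) h2.2) _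
      · exact (measure_mono (t := ∅) fun ω hω => h2 ⟨hω.1, hω.2.2⟩).trans (by simp)
    · rw [ENNReal.tsum_mul_left]
      refine (mul_le_mul_right (count k r) _).trans_eq ?_
      rw [← mul_pow, show (64 : ℝ≥0∞) = 2 ^ 6 by norm_num, show 8 = 2 + 6 from rfl, pow_add,
        mul_assoc, ← mul_pow, ENNReal.inv_mul_cancel (by simp) (by simp), one_pow, mul_one,
        ← ENNReal.inv_pow]
      norm_num
  refine le_trans (measure_mono ?_) ((measure_iUnion_le _).trans ((ENNReal.tsum_le_tsum fun k =>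
    h1 (k + 1)).trans_eq ?_))
  · rintro ω ⟨_ | ⟨q, l⟩, h2, h3⟩
    · exact absurd rfl h2
    · exact mem_iUnion.mpr ⟨l.length, mem_iUnion.mpr ⟨⟨q :: l, rfl⟩, h3⟩⟩
  · rw [ENNReal.tsum_geometric_add_one, ← ENNReal.mul_inv (by simp) (by simp),
      ENNReal.mul_sub (by simp), ENNReal.mul_inv_cancel (by simp) (by simp), mul_one]
    congr 1
    exact ENNReal.sub_eq_of_eq_add (by simp) (by norm_num)

end Pool.Agent.H12.Toom
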