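import Mathlib

/-! Binary tree on the positive naturals (children `2t`, `2t+1`): variation of additive
weights, holes, and the step of the recursion for an almost disjoint family. -/

open Filter Topology Finset

namespace Pool.Agent.H12.WS

/-- descendants of `t` at depth `j` -/
def desc (t j : ℕ) : Finset ℕ := Ico (t * 2 ^ j) ((t + 1) * 2 ^ j)

lemma mem_desc {t j u : ℕ} : u ∈ desc t j ↔ u / 2 ^ j = t := by
  have h : 0 < 2 ^ j := by positivity
  rw [desc, mem_Ico, Nat.div_eq_iff h]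
  have : (t + 1) * 2 ^ j = t * 2 ^ j + 2 ^ j := by ring
  omega

lemma sum_desc_succ (F : ℕ → ℝ) (t j : ℕ) :
    ∑ u ∈ desc t (j + 1), F u = ∑ u ∈ desc (2 * t) j, F u + ∑ u ∈ desc (2 * t + 1) j, F u := by
  unfold desc
  rw [sum_Ico_consecutive _ (by gcongr; omega) (by gcongr; omega)]
  congr 2 <;> ring

lemma sum_Ico_double (F : ℕ → ℝ) (a b : ℕ) (h : a ≤ b) :
    ∑ u ∈ Ico (2 * a) (2 * b), F u = ∑ w ∈ Ico a b, (F (2 * w) + F (2 * w + 1)) := by
  induction b, h using Nat.le_induction with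
  | base => simp
  | succ b h ih =>
    rw [sum_Ico_succ_top h, ← ih, show 2 * (b + 1) = 2 * b + 1 + 1 by ring,
      sum_Ico_succ_top (by omega), sum_Ico_succ_top (by omega)]
    ring

lemma div_div (u a b : ℕ) : u / 2 ^ a / 2 ^ b = u / 2 ^ (a + b) := by
  rw [Nat.div_div_eq_div_mul, pow_add]

lemma lev_unique {d a b : ℕ} (ha : d / 2 ^ a = 1) (hb : d / 2 ^ b = 1) : a = b := by
  have key : ∀ a b : ℕ, d / 2 ^ a = 1 → d / 2 ^ b = 1 → ¬ a < b := fun a b ha hb h => by
    obtain ⟨k, rfl⟩ := Nat.exists_eq_add_of_lt h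
    rw [show a + k + 1 = a + (k + 1) by ring, ← div_div, ha, Nat.div_eq_of_lt] at hb
    · omega
    · exact Nat.one_lt_two_pow (by omega)
  have := key a b ha hb
  have := key b a hb ha
  omega

lemma exists_lev {d : ℕ} (hd : 1 ≤ d) : ∃ a, d / 2 ^ a = 1 := by
  refine ⟨Nat.log 2 d, ?_⟩
  rw [Nat.div_eq_iff (by positivity)]
  have h1 := Nat.pow_log_le_self 2 (x := d) (by omega)
  have h2 := Nat.lt_pow_succ_log_self (b := 2) (by norm_num) d
  rw [pow_succ] at h2
  omega

/-- `u` lies in the cone below `d` -/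
def Below (d u : ℕ) : Prop := ∃ j, u / 2 ^ j = d

lemma Below.refl (d : ℕ) : Below d d := ⟨0, by simp⟩

lemma Below.trans {a b c : ℕ} (h1 : Below a b) (h2 : Below b c) : Below a c := by
  obtain ⟨i, rfl⟩ := h1
  obtain ⟨j, rfl⟩ := h2
  exact ⟨j + i, (div_div _ _ _).symm⟩

lemma Below.pos {a b : ℕ} (h : Below a b) (ha : 1 ≤ a) : 1 ≤ b := by
  obtain ⟨i, rfl⟩ := h
  exact ha.trans (Nat.div_le_self _ _)

lemma below_left (t : ℕ) : Below t (2 * t) := ⟨1, by omega⟩
lemma below_right (t : ℕ) : Below t (2 * t + 1) := ⟨1, by omega⟩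

/-- additive weights of bounded variation -/
structure Good (c : ℕ → ℝ) : Prop where
  add : ∀ t, 1 ≤ t → c t = c (2 * t) + c (2 * t + 1)
  bdd : ∃ C, ∀ N, ∑ u ∈ desc 1 N, |c u| ≤ C

def V (c : ℕ → ℝ) (t j : ℕ) : ℝ := ∑ u ∈ desc t j, |c u|

noncomputable def v (c : ℕ → ℝ) (t : ℕ) : ℝ := ⨆ j, V c t j

variable {c : ℕ → ℝ}

lemma V_zero (t : ℕ) : V c t 0 = |c t| := by simp [V, desc]

lemma V_succ (t j : ℕ) : V c t (j + 1) = V c (2 * t) j + V c (2 * t + 1) j := sum_desc_succ _ _ _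

lemma V_nonneg (t j : ℕ) : 0 ≤ V c t j := sum_nonneg fun _ _ => abs_nonneg _

lemma Good.sum_desc (h : Good c) (j : ℕ) : ∀ t, 1 ≤ t → ∑ u ∈ desc t j, c u = c t := by
  induction j with
  | zero => intro t _; simp [desc]
  | succ j ih =>
    intro t ht
    rw [sum_desc_succ, ih _ (by omega), ih _ (by omega), ← h.add t ht]

lemma Good.V_le_succ (h : Good c) (j : ℕ) : ∀ t, 1 ≤ t → V c t j ≤ V c t (j + 1) := by
  induction j with
  | zero =>
    intro t ht
    rw [V_succ, V_zero, V_zero, V_zero, h.add t ht]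
    exact abs_add_le _ _
  | succ j ih =>
    intro t ht
    rw [V_succ t (j + 1), V_succ t j]
    exact add_le_add (ih _ (by omega)) (ih _ (by omega))

lemma Good.V_mono (h : Good c) {t : ℕ} (ht : 1 ≤ t) : Monotone (V c t) :=
  monotone_nat_of_le_succ fun j => h.V_le_succ j t ht

lemma Good.V_bdd (h : Good c) {t : ℕ} (ht : 1 ≤ t) : BddAbove (Set.range (V c t)) := by
  obtain ⟨C, hC⟩ := h.bdd
  obtain ⟨a, ha⟩ := exists_lev ht
  refine ⟨C, ?_⟩
  rintro _ ⟨j, rfl⟩
  refine le_trans ?_ (hC (j + a))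
  refine sum_le_sum_of_subset_of_nonneg (fun u hu => ?_) fun _ _ _ => abs_nonneg _
  rw [mem_desc] at hu ⊢
  rw [← div_div, hu, ha]

lemma Good.V_le (h : Good c) {t : ℕ} (ht : 1 ≤ t) (j : ℕ) : V c t j ≤ v c t :=
  le_ciSup (h.V_bdd ht) j

lemma Good.v_nonneg (h : Good c) {t : ℕ} (ht : 1 ≤ t) : 0 ≤ v c t :=
  (V_nonneg t 0).trans (h.V_le ht 0)

lemma Good.abs_le (h : Good c) {t : ℕ} (ht : 1 ≤ t) : |c t| ≤ v c t := by
  rw [← V_zero]; exact h.V_le ht 0

lemma Good.v_add (h : Good c) {t : ℕ} (ht : 1 ≤ t) : v c (2 * t) + v c (2 * t + 1) ≤ v c t := by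
  have key : ∀ i j, V c (2 * t) i + V c (2 * t + 1) j ≤ v c t := fun i j => by
    have h1 := h.V_mono (t := 2 * t) (by omega) (le_max_left i j)
    have h2 := h.V_mono (t := 2 * t + 1) (by omega) (le_max_right i j)
    have h3 := h.V_le ht (max i j + 1)
    rw [V_succ] at h3
    linarith
  have h1 : ∀ j, v c (2 * t) ≤ v c t - V c (2 * t + 1) j := fun j =>
    ciSup_le fun i => by linarith [key i j]
  have h2 : v c (2 * t + 1) ≤ v c t - v c (2 * t) := ciSup_le fun j => by linarith [h1 j]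
  linarith

lemma Good.v_child (h : Good c) {u : ℕ} (hu : 1 ≤ u / 2) : v c u ≤ v c (u / 2) := by
  have h1 := h.v_add hu
  have h2 := h.v_nonneg (t := 2 * (u / 2)) (by omega)
  have h3 := h.v_nonneg (t := 2 * (u / 2) + 1) (by omega)
  rcases Nat.even_or_odd' u with ⟨k, hk | hk⟩
  · have : 2 * (u / 2) = u := by omega
    rw [this] at h1 h3; linarith
  · have : 2 * (u / 2) + 1 = u := by omega
    rw [this] at h1; linarith

lemma Good.v_below (h : Good c) {d u : ℕ} (hd : 1 ≤ d) (hb : Below d u) : v c u ≤ v c d := by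
  obtain ⟨j, hj⟩ := hb
  induction j generalizing u with
  | zero => simp at hj; rw [hj]
  | succ j ih =>
    have h1 : u / 2 / 2 ^ j = d := by
      rw [← hj, Nat.div_div_eq_div_mul, pow_succ']
    have h2 : 1 ≤ u / 2 := Below.pos ⟨j, h1⟩ hd
    exact (h.v_child h2).trans (ih h1)

lemma Good.exists_small (h : Good c) {t : ℕ} (ht : 1 ≤ t) {ε : ℝ} (hε : 0 < ε) :
    ∃ d, Below t d ∧ v c d ≤ ε := by
  have key : ∀ k : ℕ, ∃ d, Below t d ∧ v c d ≤ v c t * (1 / 2) ^ k := by
    intro k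
    induction k with
    | zero => exact ⟨t, Below.refl t, by simp⟩
    | succ k ih =>
      obtain ⟨d, h1, h2⟩ := ih
      have h3 := h.v_add (h1.pos ht)
      by_cases h4 : v c (2 * d) ≤ v c (2 * d + 1)
      · exact ⟨2 * d, h1.trans (below_left d), by rw [pow_succ]; linarith⟩
      · exact ⟨2 * d + 1, h1.trans (below_right d), by rw [pow_succ]; linarith⟩
  have h1 : Tendsto (fun k : ℕ => v c t * (1 / 2 : ℝ) ^ k) atTop (𝓝 (v c t * 0)) :=
    (tendsto_pow_atTop_nhds_zero_of_lt_one (by norm_num) (by norm_num)).const_mul _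
  rw [mul_zero] at h1
  obtain ⟨k, hk⟩ := (h1.eventually (gt_mem_nhds hε)).exists
  obtain ⟨d, h2, h3⟩ := key k
  exact ⟨d, h2, h3.trans hk.le⟩

/-- branches of the tree -/
structure Br (b : ℕ → ℕ) : Prop where
  zero : b 0 = 1
  succ : ∀ k, b (k + 1) / 2 = b k

lemma Br.div {b : ℕ → ℕ} (h : Br b) (k j : ℕ) : b (k + j) / 2 ^ j = b k := by
  induction j with
  | zero => simp
  | succ j ih => rw [pow_succ', ← Nat.div_div_eq_div_mul, ← add_assoc, h.succ, ih]

lemma Br.lev {b : ℕ → ℕ} (h : Br b) (k : ℕ) : b k / 2 ^ k = 1 := by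
  have := h.div 0 k
  rwa [zero_add, h.zero] at this

lemma Br.pos {b : ℕ → ℕ} (h : Br b) (k : ℕ) : 1 ≤ b k := Below.pos ⟨k, h.lev k⟩ le_rfl

lemma Br.mono {b : ℕ → ℕ} (h : Br b) : StrictMono b :=
  strictMono_nat_of_lt_succ fun k => by
    have := h.succ k
    have := h.pos k
    omega

lemma Br.below {b : ℕ → ℕ} (h : Br b) {k l : ℕ} (hkl : k ≤ l) : Below (b k) (b l) := by
  obtain ⟨j, rfl⟩ := Nat.exists_eq_add_of_le hkl
  exact ⟨j, h.div k j⟩

lemma Good.V_branch (h : Good c) {b : ℕ → ℕ} (hb : Br b) (j : ℕ) :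
    ∀ k, V c (b k) j ≤ |c (b (k + j))| + v c (b k) - v c (b (k + j)) := by
  induction j with
  | zero => intro k; simp [V_zero]
  | succ j ih =>
    intro k
    have h1 := ih (k + 1)
    have h2 := h.v_add (hb.pos k)
    have h3 := hb.succ k
    have h4 := hb.pos k
    rw [V_succ, show k + (j + 1) = k + 1 + j by ring]
    rcases Nat.even_or_odd' (b (k + 1)) with ⟨m, hm | hm⟩
    · have e : 2 * b k = b (k + 1) := by omega
      have h5 := h.V_le (t := 2 * b k + 1) (by omega) j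
      rw [e] at h2 h5 ⊢
      linarith
    · have e : 2 * b k + 1 = b (k + 1) := by omega
      have h5 := h.V_le (t := 2 * b k) (by omega) j
      rw [e] at h2 ⊢
      linarith

lemma Good.branch_small (h : Good c) {b : ℕ → ℕ} (hb : Br b)
    (hs : ∀ ε > 0, ∃ᶠ k in atTop, |c (b k)| < ε) {ε : ℝ} (hε : 0 < ε) : ∃ k, v c (b k) ≤ ε := by
  by_contra hcon
  push Not at hcon
  have : v c (b 0) ≤ v c (b 0) - ε / 2 := by
    refine ciSup_le fun j => ?_
    obtain ⟨k, h1, h2⟩ := ((hs (ε / 2) (by positivity)).and_eventually (eventually_ge_atTop j)).exists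
    have h3 := h.V_mono (hb.pos 0) h2
    have h4 := h.V_branch hb k 0
    rw [zero_add] at h4
    linarith [hcon k]
  linarith

lemma Good.sum_below (h : Good c) {d : ℕ} (hd : 1 ≤ d) (N : ℕ) [DecidablePred (Below d)] :
    ∑ u ∈ (desc 1 N).filter (Below d), |c u| ≤ v c d := by
  obtain ⟨a, ha⟩ := exists_lev hd
  refine le_trans ?_ (h.V_le hd (N - a))
  refine sum_le_sum_of_subset_of_nonneg (fun u hu => ?_) fun _ _ _ => abs_nonneg _
  rw [mem_filter, mem_desc] at hu
  obtain ⟨h1, j, h2⟩ := hu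
  rw [mem_desc]
  have h3 : u / 2 ^ (j + a) = 1 := by rw [← div_div, h2, ha]
  have := lev_unique h1 h3
  rw [show N - a = j by omega, h2]

open Classical in
lemma Good.sum_holes (h : Good c) (d : ℕ → ℕ) (hd : ∀ i, 1 ≤ d i) {ε : ℝ}
    (hv : ∀ i, v c (d i) ≤ ε / 2 / 2 ^ i) (N : ℕ) :
    ∑ u ∈ (desc 1 N).filter (fun u => ∃ i, Below (d i) u), |c u| ≤ ε := by
  have hε : 0 ≤ ε := by
    have := (h.v_nonneg (hd 0)).trans (hv 0)
    simp at this; linarith
  have key : ∀ J : ℕ, ∑ u ∈ (desc 1 N).filter (fun u => ∃ i < J, Below (d i) u), |c u|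
      ≤ ε - ε / 2 ^ J := by
    intro J
    induction J with
    | zero => simp
    | succ J ih =>
      have h1 := (h.sum_below (hd J) N).trans (hv J)
      have h2 : ∑ u ∈ (desc 1 N).filter (fun u => ∃ i < J + 1, Below (d i) u), |c u| ≤
          ∑ u ∈ (desc 1 N).filter (fun u => ∃ i < J, Below (d i) u), |c u| +
          ∑ u ∈ (desc 1 N).filter (Below (d J)), |c u| := by
        simp only [sum_filter]
        rw [← sum_add_distrib]
        refine sum_le_sum fun u _ => ?_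
        have := abs_nonneg (c u)
        by_cases h3 : ∃ i < J + 1, Below (d i) u
        · rw [if_pos h3]
          obtain ⟨i, h4, h5⟩ := h3
          rcases Nat.lt_succ_iff_lt_or_eq.1 h4 with h6 | rfl
          · rw [if_pos ⟨i, h6, h5⟩]; split_ifs <;> linarith
          · rw [if_pos h5]; split_ifs <;> linarith
        · rw [if_neg h3]; split_ifs <;> linarith
      have h3 : ε / 2 ^ J = ε / 2 / 2 ^ J + ε / 2 ^ (J + 1) := by field_simp; ring
      linarith
  have h1 : ∀ u, ∃ i, (∃ i, Below (d i) u) → Below (d i) u := fun u => by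
    by_cases h : ∃ i, Below (d i) u
    · exact h.imp fun i hi _ => hi
    · exact ⟨0, fun h' => absurd h' h⟩
  choose f hf using h1
  have h2 : (desc 1 N).filter (fun u => ∃ i, Below (d i) u) =
      (desc 1 N).filter (fun u => ∃ i < (desc 1 N).sup f + 1, Below (d i) u) := by
    refine filter_congr fun u hu => ⟨fun h3 => ⟨f u, Nat.lt_succ_of_le (le_sup hu), hf u h3⟩, ?_⟩
    rintro ⟨i, -, h3⟩
    exact ⟨i, h3⟩
  rw [h2]
  have : 0 ≤ ε / 2 ^ ((desc 1 N).sup f + 1) := by positivity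
  linarith [key ((desc 1 N).sup f + 1)]

lemma exists_branch (t : ℕ → ℕ) (h0 : 1 ≤ t 0) (ht : ∀ i, Below (t i) (t (i + 1) / 2)) :
    ∃ b, Br b ∧ ∀ i, ∃ k, b k = t i := by
  have h1 : ∀ i, Below (t i) (t (i + 1)) := fun i => (ht i).trans ⟨1, by simp⟩
  have hpos : ∀ i, 1 ≤ t i := fun i => by
    induction i with
    | zero => exact h0
    | succ i ih => exact (h1 i).pos ih
  choose l hl using fun i => exists_lev (hpos i)
  have h2 : ∀ i, l i + 1 ≤ l (i + 1) ∧ t (i + 1) / 2 ^ (l (i + 1) - l i) = t i := fun i => by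
    obtain ⟨j, hj⟩ := ht i
    have e1 : t (i + 1) / 2 ^ (1 + j) = t i := by rw [← div_div, pow_one, hj]
    have e2 : t (i + 1) / 2 ^ (1 + j + l i) = 1 := by rw [← div_div, e1, hl]
    have e3 := lev_unique e2 (hl (i + 1))
    exact ⟨by omega, by rw [show l (i + 1) - l i = 1 + j by omega, e1]⟩
  have h3 : ∀ i, i ≤ l i := fun i => by
    induction i with
    | zero => omega
    | succ i ih => have := (h2 i).1; omega
  have h4 : ∀ i m, i ≤ m → l i ≤ l m ∧ t m / 2 ^ (l m - l i) = t i := fun i m him => by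
    induction m, him using Nat.le_induction with
    | base => simp
    | succ m _ ih =>
      have := h2 m
      refine ⟨by omega, ?_⟩
      rw [show l (m + 1) - l i = (l (m + 1) - l m) + (l m - l i) by omega, ← div_div, this.2, ih.2]
  refine ⟨fun k => t k / 2 ^ (l k - k), ⟨by simpa using hl 0, fun k => ?_⟩, fun i => ⟨l i, ?_⟩⟩
  · have := h2 k
    have := h3 k
    rw [Nat.div_div_eq_div_mul, ← pow_succ, ← (h2 k).2, div_div]
    congr 2
    omega
  · exact (h4 i (l i) (h3 i)).2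

end Pool.Agent.H12.WS
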