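import Pool.Agent.H12.WS1

/-! Under CH: an uncountable almost disjoint family on the binary tree, each member containing a
branch, which detects every nonzero additive weight of bounded variation. -/

open Filter Topology Finset

namespace Pool.Agent.H12.WS

abbrev D := Set ℕ × (ℕ → ℕ)

def AA (p : D) : Set ℕ := p.1 ∪ Set.range p.2

def PP (p : D) : Prop := Br p.2 ∧ ∀ t, 1 ≤ t → ∃ d, Below t d ∧ ∀ u, Below d u → u ∉ AA p

def Lev (L : Set ℕ) (p : D) : Prop := ∀ u ∈ p.1, ∃ N ∈ L, u / 2 ^ N = 1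

def RR (q p : D) : Prop :=
  (∃ k, ∀ u, Below (p.2 k) u → u ∉ AA q) ∧ ∃ k, ∀ u, Below (q.2 k) u → u ∉ p.1

noncomputable def lsum (c : ℕ → ℝ) (A : Set ℕ) (N : ℕ) : ℝ :=
  ∑ u ∈ desc 1 N, c u * A.indicator 1 u

def Kill (S : Set D) (L : Set ℕ) (c : ℕ → ℝ) (p : D) : Prop :=
  Good c → (∃ s, 1 ≤ s ∧ c s ≠ 0) → (∀ q ∈ S, ∀ ε > 0, ∃ᶠ k in atTop, |c (q.2 k)| < ε) →
    ∃ ε > 0, ∀ᶠ N in atTop, N ∈ L → ε ≤ |lsum c (AA p) N|

lemma Br.eq_of_lev {b : ℕ → ℕ} (h : Br b) {k N : ℕ} (hk : b k / 2 ^ N = 1) : k = N :=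
  lev_unique (h.lev k) hk

lemma nd_union {A : Set ℕ} {b : ℕ → ℕ} (hb : Br b)
    (hA : ∀ t, 1 ≤ t → ∃ d, Below t d ∧ ∀ u, Below d u → u ∉ A) : PP (A, b) := by
  refine ⟨hb, fun t ht => ?_⟩
  obtain ⟨d, h1, h2⟩ := hA t ht
  obtain ⟨a, ha⟩ := exists_lev (h1.pos ht)
  have key : ∀ e, e / 2 = d → e ≠ b (a + 1) →
      ∃ d, Below t d ∧ ∀ u, Below d u → u ∉ AA (A, b) := fun e h3 h4 => by
    have h5 : Below d e := ⟨1, by simpa using h3⟩
    refine ⟨e, h1.trans h5, fun u hu => ?_⟩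
    rintro (h6 | ⟨k, rfl⟩)
    · exact h2 u (h5.trans hu) h6
    · obtain ⟨j, hj⟩ := hu
      have h7 : b k / 2 ^ (j + (1 + a)) = 1 := by
        rw [← div_div, ← div_div]
        simp only at hj
        rw [hj, pow_one, h3, ha]
      have h8 := hb.eq_of_lev h7
      apply h4
      rw [← hj, ← hb.div (a + 1) j]
      have h9 : k = a + 1 + j := by omega
      rw [h9]
  by_cases h : 2 * d = b (a + 1)
  · exact key (2 * d + 1) (by omega) (by omega)
  · exact key (2 * d) (by omega) h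

lemma new_branch {S : Set D} (hS : S.Countable) (hP : ∀ q ∈ S, PP q) {t0 : ℕ} (h0 : 1 ≤ t0) :
    ∃ b, Br b ∧ (∃ k, b k = t0) ∧ ∀ q ∈ S, ∃ k, ∀ u, Below (b k) u → u ∉ AA q := by
  obtain ⟨f, hf⟩ := (hS.insert (∅, 0)).exists_eq_range (Set.insert_nonempty _ _)
  have h1 : ∀ i t, ∃ d, 1 ≤ t → Below t (d / 2) ∧ (f i ∈ S → ∀ u, Below d u → u ∉ AA (f i)) := by
    intro i t
    by_cases ht : 1 ≤ t
    · by_cases hi : f i ∈ S
      · obtain ⟨d, h2, h3⟩ := (hP _ hi).2 t ht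
        exact ⟨2 * d, fun _ => ⟨by simpa using h2,
          fun _ u hu => h3 u ((below_left d).trans hu)⟩⟩
      · exact ⟨2 * t, fun _ => ⟨by simpa using Below.refl t, fun h => absurd h hi⟩⟩
    · exact ⟨0, fun h => absurd h ht⟩
  choose g hg using h1
  let t : ℕ → ℕ := fun i => Nat.rec t0 (fun i x => g i x) i
  have ht : ∀ i, t (i + 1) = g i (t i) := fun i => rfl
  have hpos : ∀ i, 1 ≤ t i := fun i => by
    induction i with
    | zero => exact h0
    | succ i ih =>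
      have := (hg i (t i) ih).1.pos ih
      rw [ht]; omega
  obtain ⟨b, hb, h2⟩ := exists_branch t h0 fun i => (hg i (t i) (hpos i)).1
  refine ⟨b, hb, h2 0, fun q hq => ?_⟩
  obtain ⟨i, rfl⟩ : q ∈ Set.range f := hf ▸ Set.mem_insert_of_mem _ hq
  obtain ⟨k, hk⟩ := h2 (i + 1)
  exact ⟨k, by rw [hk]; exact (hg i (t i) (hpos i)).2 hq⟩

lemma step {S : Set D} (hS : S.Countable) (hP : ∀ q ∈ S, PP q) (L : Set ℕ) (c : ℕ → ℝ) :
    ∃ p, PP p ∧ Lev L p ∧ (∀ q ∈ S, RR q p) ∧ Kill S L c p := by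
  classical
  by_cases H : Good c ∧ (∃ s, 1 ≤ s ∧ c s ≠ 0) ∧
      ∀ q ∈ S, ∀ ε > 0, ∃ᶠ k in atTop, |c (q.2 k)| < ε
  swap
  · obtain ⟨b, hb, -, h1⟩ := new_branch hS hP le_rfl
    exact ⟨(∅, b), nd_union hb fun t _ => ⟨t, Below.refl t, fun _ _ h => h⟩, fun _ h => h.elim,
      fun q hq => ⟨h1 q hq, 0, fun _ _ h => h⟩, fun h2 h3 h4 => absurd ⟨h2, h3, h4⟩ H⟩
  obtain ⟨hc, ⟨s, hs, hcs⟩, hq⟩ := H
  obtain ⟨ε, hε⟩ : ∃ ε, ε = |c s| / 2 := ⟨_, rfl⟩
  have hε0 : 0 < ε := by rw [hε]; positivity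
  obtain ⟨f, hf⟩ := (hS.insert (∅, 0)).exists_eq_range (Set.insert_nonempty _ _)
  have h1 : ∀ n : ℕ, ∃ d, 1 ≤ d ∧ v c d ≤ ε / 2 / 2 ^ n ∧ (n % 2 = 0 → Below (n / 2 + 1) d) ∧
      (n % 2 = 1 → f (n / 2) ∈ S → ∃ k, d = (f (n / 2)).2 k) := fun n => by
    by_cases h : n % 2 = 1 ∧ f (n / 2) ∈ S
    · have hb := (hP _ h.2).1
      obtain ⟨k, hk⟩ := hc.branch_small hb (hq _ h.2) (ε := ε / 2 / 2 ^ n) (by positivity)
      exact ⟨_, hb.pos k, hk, fun h' => by omega, fun _ _ => ⟨k, rfl⟩⟩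
    · obtain ⟨d, h2, h3⟩ := hc.exists_small (t := n / 2 + 1) (by omega) (ε := ε / 2 / 2 ^ n)
        (by positivity)
      exact ⟨d, h2.pos (by omega), h3, fun _ => h2, fun h4 h5 => absurd ⟨h4, h5⟩ h⟩
  choose d hd1 hd2 hd3 hd4 using h1
  obtain ⟨b, hb, ⟨k0, hk0⟩, h1⟩ := new_branch hS hP (hd1 0)
  refine ⟨({u | (∃ N ∈ L, u / 2 ^ N = 1) ∧ Below s u ∧ ¬ ∃ i, Below (d i) u}, b),
    nd_union hb fun t ht => ⟨d (2 * (t - 1)), ?_, fun u hu h => h.2.2 ⟨_, hu⟩⟩,
    fun u hu => hu.1, fun q hq => ⟨h1 q hq, ?_⟩, fun _ _ _ => ⟨ε, hε0, ?_⟩⟩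
  · have := hd3 (2 * (t - 1)) (by omega)
    rwa [show 2 * (t - 1) / 2 + 1 = t by omega] at this
  · obtain ⟨i, rfl⟩ : q ∈ Set.range f := hf ▸ Set.mem_insert_of_mem _ hq
    have e : (2 * i + 1) / 2 = i := by omega
    obtain ⟨k, hk⟩ := hd4 (2 * i + 1) (by omega) (by rwa [e])
    rw [e] at hk
    exact ⟨k, fun u hu h => h.2.2 ⟨2 * i + 1, hk ▸ hu⟩⟩
  · obtain ⟨a, ha⟩ := exists_lev hs
    filter_upwards [eventually_ge_atTop a, eventually_ge_atTop k0] with N h2 h3 hN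
    have h4 := hc.sum_holes d hd1 hd2 N
    have h5 : ∑ u ∈ (desc 1 N).filter (Below s), c u = c s := by
      rw [← hc.sum_desc (N - a) s hs]
      refine sum_congr ?_ fun _ _ => rfl
      ext u
      rw [mem_filter, mem_desc, mem_desc]
      constructor
      · rintro ⟨h6, j, h7⟩
        have h8 : u / 2 ^ (j + a) = 1 := by rw [← div_div, h7, ha]
        have := lev_unique h6 h8
        rw [show N - a = j by omega, h7]
      · intro h6
        refine ⟨?_, _, h6⟩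
        rw [show N = N - a + a by omega, ← div_div, h6, ha]
    have h6 : |lsum c (AA ({u | (∃ N ∈ L, u / 2 ^ N = 1) ∧ Below s u ∧
        ¬ ∃ i, Below (d i) u}, b)) N - c s| ≤ ε := by
      refine le_trans ?_ h4
      rw [← h5, lsum, sum_filter, sum_filter, ← sum_sub_distrib]
      refine (abs_sum_le_sum_abs _ _).trans (sum_le_sum fun u hu => ?_)
      rw [mem_desc] at hu
      by_cases h7 : ∃ i, Below (d i) u
      · rw [if_pos h7, Set.indicator_apply]
        split_ifs <;> simp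
      · rw [if_neg h7]
        have h8 : u ∉ Set.range b := by
          rintro ⟨k, rfl⟩
          have := hb.eq_of_lev hu
          exact h7 ⟨0, hk0 ▸ hb.below (by omega)⟩
        by_cases h9 : Below s u
        · rw [if_pos h9, Set.indicator_of_mem]
          · simp
          · exact Or.inl ⟨⟨N, hN, hu⟩, h9, h7⟩
        · rw [if_neg h9, Set.indicator_of_notMem]
          · simp
          · rintro (h | h)
            · exact h9 h.2.1
            · exact h8 h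
    have h7 := abs_sub_abs_le_abs_sub (c s) (lsum c (AA ({u | (∃ N ∈ L, u / 2 ^ N = 1) ∧
      Below s u ∧ ¬ ∃ i, Below (d i) u}, b)) N)
    rw [abs_sub_comm] at h6
    linarith

lemma recursion {ι : Type} [LinearOrder ι] [WellFoundedLT ι] (hι : ∀ j : ι, (Set.Iio j).Countable)
    (L : ι → Set ℕ) (c : ι → ℕ → ℝ) : ∃ G : ι → D, ∀ j, PP (G j) ∧ Lev (L j) (G j) ∧
      (∀ i < j, RR (G i) (G j)) ∧ Kill (G '' Set.Iio j) (L j) (c j) (G j) := by
  have h1 : ∀ (j : ι) (S : Set D), ∃ p, S.Countable → (∀ q ∈ S, PP q) →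
      PP p ∧ Lev (L j) p ∧ (∀ q ∈ S, RR q p) ∧ Kill S (L j) (c j) p := fun j S => by
    by_cases h : S.Countable ∧ ∀ q ∈ S, PP q
    · exact (step h.1 h.2 (L j) (c j)).imp fun p hp _ _ => hp
    · exact ⟨(∅, 0), fun h2 h3 => absurd ⟨h2, h3⟩ h⟩
  choose F hF using h1
  let G : ι → D := (wellFounded_lt (α := ι)).fix fun j g =>
    F j (Set.range fun i : Set.Iio j => g i.1 i.2)
  have hG : ∀ j, G j = F j (G '' Set.Iio j) := fun j => by
    have := (wellFounded_lt (α := ι)).fix_eq (fun j (g : ∀ i, i < j → D) =>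
      F j (Set.range fun i : Set.Iio j => g i.1 i.2)) j
    rw [Set.image_eq_range]
    exact this
  have hP : ∀ j, PP (G j) := fun j => by
    induction j using WellFoundedLT.induction with
    | ind j ih =>
      rw [hG]
      refine (hF j _ ((hι j).image G) ?_).1
      rintro _ ⟨i, hi, rfl⟩
      exact ih i hi
  refine ⟨G, fun j => ?_⟩
  have := hF j _ ((hι j).image G) (by rintro _ ⟨i, -, rfl⟩; exact hP i)
  rw [← hG] at this
  exact ⟨this.1, this.2.1, fun i hi => this.2.2.1 _ ⟨i, hi, rfl⟩, this.2.2.2⟩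

def code (y : ℕ → Bool) : ℕ → ℕ
  | 0 => 1
  | k + 1 => 2 * code y k + if y k then 1 else 0

lemma code_br (y : ℕ → Bool) : Br (code y) :=
  ⟨rfl, fun k => by rw [code]; split_ifs <;> omega⟩

def LL (y : ℕ → Bool) : Set ℕ := Set.range fun k => 2 * code y k

lemma LL_freq (y : ℕ → Bool) : ∃ᶠ N in atTop, N ∈ LL y := by
  rw [frequently_atTop]
  intro a
  have := (code_br y).mono.le_apply (x := a)
  exact ⟨2 * code y a, by omega, a, rfl⟩

lemma LL_ad {y z : ℕ → Bool} (h : y ≠ z) : (LL y ∩ LL z).Finite := by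
  obtain ⟨i, hi⟩ := Function.ne_iff.1 h
  refine ((Set.finite_Iic i).image fun k => 2 * code y k).subset ?_
  rintro _ ⟨⟨k, rfl⟩, l, hl⟩
  refine ⟨k, ?_, rfl⟩
  by_contra hk
  have e : code z l = code y k := by simp only at hl; omega
  have h1 : l = k := (code_br z).eq_of_lev (by rw [e]; exact (code_br y).lev k)
  subst h1
  obtain ⟨j, rfl⟩ := Nat.exists_eq_add_of_le (show i + 1 ≤ l by simpa using hk)
  have h2 : code z (i + 1) = code y (i + 1) := by
    rw [← (code_br z).div (i + 1) j, e, (code_br y).div]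
  rw [code, code] at h2
  revert hi h2
  cases y i <;> cases z i <;> simp <;> omega

theorem family (hCH : Cardinal.continuum.{0} = Cardinal.aleph 1) :
    ∃ (ι : Type) (A : ι → Set ℕ) (b : ι → ℕ → ℕ), Uncountable ι ∧ (∀ i, Br (b i)) ∧
      (∀ i k, b i k ∈ A i) ∧ (∀ i j, i ≠ j → (A i ∩ A j).Finite) ∧
      ∀ c, Good c → (∀ i, Tendsto (lsum c (A i)) atTop (𝓝 0)) → ∀ s, 1 ≤ s → c s = 0 := by
  obtain ⟨e1⟩ : Nonempty ((Cardinal.aleph 1).ord.ToType ≃ (ℕ → Bool)) := by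
    rw [← Cardinal.eq]
    simp [← hCH]
  obtain ⟨e2⟩ : Nonempty ((Cardinal.aleph 1).ord.ToType ≃ (ℕ → ℝ)) := by
    rw [← Cardinal.eq]
    simp [← hCH, Cardinal.mk_real]
  have hJ : ∀ j : (Cardinal.aleph 1).ord.ToType, (Set.Iio j).Countable := fun j =>
    Cardinal.le_aleph0_iff_set_countable.1
      (Cardinal.lt_aleph_one_iff.1 (by simpa using Cardinal.mk_Iio_lt j))
  obtain ⟨G, hG⟩ := recursion hJ (fun j => LL (e1 j)) e2
  have had : ∀ i j, i < j → (AA (G i) ∩ AA (G j)).Finite := fun i j hij => by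
    obtain ⟨⟨k, hk⟩, l, hl⟩ := (hG j).2.2.1 i hij
    have h1 := (LL_ad (e1.injective.ne hij.ne)).biUnion fun N _ => (desc 1 N).finite_toSet
    refine ((h1.union ((Set.finite_Iic k).image (G j).2)).union
      ((Set.finite_Iic l).image (G i).2)).subset ?_
    rintro u ⟨h2, h3 | ⟨m, rfl⟩⟩
    · rcases h2 with h2 | ⟨m, rfl⟩
      · obtain ⟨N, h4, h5⟩ := (hG i).2.1 u h2
        obtain ⟨M, h6, h7⟩ := (hG j).2.1 u h3
        obtain rfl := lev_unique h5 h7
        exact Or.inl (Or.inl (Set.mem_biUnion (x := N) ⟨h4, h6⟩ (mem_desc.2 h5)))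
      · refine Or.inr ⟨m, ?_, rfl⟩
        by_contra h4
        exact hl _ ((hG i).1.1.below (not_le.1 h4).le) h3
    · refine Or.inl (Or.inr ⟨m, ?_, rfl⟩)
      by_contra h4
      exact hk _ ((hG j).1.1.below (not_le.1 h4).le) h2
  have hU : Uncountable (ℕ → ℝ) :=
    (Function.const_injective (α := ℕ) (β := ℝ)).uncountable
  refine ⟨_, fun j => AA (G j), fun j => (G j).2, e2.symm.injective.uncountable,
    fun j => (hG j).1.1, fun j k => Or.inr ⟨k, rfl⟩, fun i j hij => ?_, fun c hc ht s hs => ?_⟩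
  · rcases lt_or_gt_of_ne hij with h | h
    · exact had i j h
    · rw [Set.inter_comm]; exact had j i h
  · by_contra hcs
    have hK := (hG (e2.symm c)).2.2.2
    rw [Equiv.apply_symm_apply] at hK
    obtain ⟨ε, hε, h1⟩ := hK hc ⟨s, hs, hcs⟩ (by
      rintro _ ⟨i, -, rfl⟩ ε hε
      have h1 := (ht i).abs.eventually (gt_mem_nhds (by simpa using hε))
      have h2 : ∃ᶠ N : ℕ in atTop, N % 2 = 1 :=
        frequently_atTop.2 fun a => ⟨2 * a + 1, by omega, by omega⟩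
      refine (h2.and_eventually h1).mono fun N hN => ?_
      have hb := (hG i).1.1
      have : lsum c (AA (G i)) N = c ((G i).2 N) := by
        rw [lsum, sum_eq_single_of_mem ((G i).2 N) (mem_desc.2 (hb.lev N)),
          Set.indicator_of_mem]
        · simp
        · exact Or.inr ⟨N, rfl⟩
        · intro u hu hne
          rw [mem_desc] at hu
          rw [Set.indicator_of_notMem, mul_zero]
          rintro (h | ⟨k, rfl⟩)
          · obtain ⟨M, ⟨k, h3⟩, h4⟩ := (hG i).2.1 u h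
            have := lev_unique hu h4
            have := hN.1
            simp only at h3
            omega
          · exact hne (by rw [hb.eq_of_lev hu])
      rw [← this]
      exact hN.2)
    have h2 := (ht (e2.symm c)).abs.eventually (gt_mem_nhds (by simpa using hε))
    obtain ⟨N, h3, h4, h5⟩ := ((LL_freq (e1 (e2.symm c))).and_eventually (h1.and h2)).exists
    exact absurd (h4 h3) (not_le.2 h5)

end Pool.Agent.H12.WS
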