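import Pool.Agent.H12.WS2

/-! Expansions along the summing system `δ n - δ (n / 2)` of the binary tree. -/

open Filter Topology Finset BoundedContinuousFunction

namespace Pool.Agent.H12.WS

def hv (x : ℕ → ℝ) (n : ℕ) : ℝ := if n = 0 then x 0 else x n - x (n / 2)

structure Path (P : Set ℕ) : Prop where
  zero : 0 ∈ P
  half : ∀ n ∈ P, n / 2 ∈ P
  chain : ∀ n ∈ P, ∀ m ∈ P, m / 2 < n → m ≤ n

noncomputable def T (P : Set ℕ) (x : ℕ → ℝ) (M : ℕ) : ℝ :=
  ∑ n ∈ range M, P.indicator 1 n * hv x n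

lemma Path.last {P : Set ℕ} (h : Path P) (M : ℕ) :
    ∃ p ∈ P, p ≤ M ∧ (∀ n ∈ P, n ≤ M → n ≤ p) ∧ ∀ x, T P x (M + 1) = x p := by
  induction M with
  | zero => exact ⟨0, h.zero, le_rfl, fun n _ h => h, fun x => by simp [T, hv, h.zero]⟩
  | succ M ih =>
    obtain ⟨p, h1, h2, h3, h4⟩ := ih
    by_cases hM : M + 1 ∈ P
    · refine ⟨M + 1, hM, le_rfl, fun n _ h => h, fun x => ?_⟩
      have h5 := h3 _ (h.half _ hM) (by omega)
      have h6 : p = (M + 1) / 2 := by
        by_contra h7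
        have := h.chain p h1 _ hM (by omega)
        omega
      have := h4 x
      rw [T] at this
      rw [T, sum_range_succ, this, Set.indicator_of_mem hM, hv, if_neg (by omega), h6]
      simp
    · refine ⟨p, h1, by omega, fun n hn h5 => h3 n hn ?_, fun x => ?_⟩
      · by_contra h6
        exact hM (by rwa [show M + 1 = n by omega])
      · have := h4 x
        rw [T] at this
        rw [T, sum_range_succ, this, Set.indicator_of_notMem hM]
        simp

lemma Path.bound {P : Set ℕ} (h : Path P) {x : ℕ → ℝ} {C : ℝ} (hx : ∀ n, |x n| ≤ C) (M : ℕ) :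
    |T P x M| ≤ C := by
  cases M with
  | zero => simpa [T] using (abs_nonneg _).trans (hx 0)
  | succ M =>
    obtain ⟨p, -, -, -, h1⟩ := h.last M
    rw [h1]; exact hx p

def anc (m : ℕ) : Set ℕ := {n | Below n m}

lemma anc_path (m : ℕ) : Path (anc m) := by
  refine ⟨⟨m, Nat.div_eq_of_lt Nat.lt_two_pow_self⟩, fun n hn =>
    Below.trans ⟨1, by simp⟩ hn, ?_⟩
  rintro _ ⟨i, rfl⟩ _ ⟨j, rfl⟩ h
  by_contra h1
  rcases le_or_gt i j with h2 | h2
  · exact h1 (Nat.div_le_div_left (Nat.pow_le_pow_right (by norm_num) h2) (by positivity))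
  · rw [Nat.div_div_eq_div_mul, ← pow_succ] at h
    exact absurd (Nat.div_le_div_left (Nat.pow_le_pow_right (by norm_num) h2) (by positivity))
      (not_le.2 h)

lemma T_anc (m : ℕ) (x : ℕ → ℝ) : Tendsto (T (anc m) x) atTop (𝓝 (x m)) := by
  rw [← tendsto_add_atTop_iff_nat 1]
  refine tendsto_const_nhds.congr' ?_
  filter_upwards [eventually_ge_atTop m] with M hM
  obtain ⟨p, ⟨j, h1⟩, -, h2, h3⟩ := (anc_path m).last M
  have h4 := h2 m (Below.refl m) hM
  have h5 : p ≤ m := h1 ▸ Nat.div_le_self _ _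
  rw [h3, le_antisymm h5 h4]

def brs (b : ℕ → ℕ) : Set ℕ := insert 0 (Set.range b)

lemma Br.path {b : ℕ → ℕ} (hb : Br b) : Path (brs b) := by
  refine ⟨Or.inl rfl, ?_, ?_⟩
  · rintro _ (rfl | ⟨k, rfl⟩)
    · exact Or.inl rfl
    · cases k with
      | zero => exact Or.inl (by rw [hb.zero])
      | succ k => exact Or.inr ⟨k, (hb.succ k).symm⟩
  · rintro _ (rfl | ⟨k, rfl⟩) _ (rfl | ⟨l, rfl⟩) h
    · rfl
    · omega
    · omega
    · by_contra h1
      have h2 : k < l := hb.mono.lt_iff_lt.1 (not_le.1 h1)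
      obtain ⟨j, rfl⟩ := Nat.exists_eq_add_of_lt h2
      rw [hb.succ] at h
      exact absurd (hb.mono.monotone (Nat.le_add_right k j)) (not_le.2 h)

lemma Br.T_tendsto {b : ℕ → ℕ} (hb : Br b) {x : ℕ → ℝ} {l : ℝ} (hx : ∀ᶠ k in atTop, x (b k) = l) :
    Tendsto (T (brs b) x) atTop (𝓝 l) := by
  rw [← tendsto_add_atTop_iff_nat 1]
  refine tendsto_const_nhds.congr' ?_
  obtain ⟨K, hK⟩ := eventually_atTop.1 hx
  filter_upwards [eventually_ge_atTop (b K)] with M hM
  obtain ⟨p, h1, -, h2, h3⟩ := hb.path.last M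
  have h4 := h2 _ (Or.inr ⟨K, rfl⟩) hM
  rcases h1 with rfl | ⟨k, rfl⟩
  · have := hb.pos K; omega
  · rw [h3, hK k (hb.mono.le_iff_le.1 h4)]

section mix
variable {κ : Type} {w : κ → ℝ} {P : κ → Set ℕ}

noncomputable def mix (w : κ → ℝ) (P : κ → Set ℕ) (n : ℕ) : ℝ := ∑' k, w k * (P k).indicator 1 n

lemma mix_sum (hw : Summable w) (x : ℕ → ℝ) (M : ℕ) :
    ∑ n ∈ range M, mix w P n * hv x n = ∑' k, w k * T (P k) x M := by
  simp only [mix, T, mul_sum, ← tsum_mul_right, mul_assoc]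
  refine (Summable.tsum_finsetSum fun n _ => ?_).symm
  simp only [← mul_assoc]
  refine Summable.mul_right _ (Summable.of_norm_bounded hw.abs fun k => ?_)
  by_cases h : n ∈ P k <;> simp [h]

lemma mix_tendsto (hw : Summable w) (hP : ∀ k, Path (P k)) {x : ℕ → ℝ} {C : ℝ}
    (hx : ∀ n, |x n| ≤ C) {l : κ → ℝ} (hl : ∀ k, Tendsto (T (P k) x) atTop (𝓝 (l k))) :
    Tendsto (fun M => ∑ n ∈ range M, mix w P n * hv x n) atTop (𝓝 (∑' k, w k * l k)) := by
  simp only [mix_sum hw]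
  refine tendsto_tsum_of_dominated_convergence (hw.abs.mul_right C)
    (fun k => (hl k).const_mul _) (Eventually.of_forall fun M k => ?_)
  rw [Real.norm_eq_abs, abs_mul]
  exact mul_le_mul_of_nonneg_left ((hP k).bound hx M) (abs_nonneg _)

lemma mix_bound (hw : Summable w) (hP : ∀ k, Path (P k)) {x : ℕ → ℝ} {C : ℝ}
    (hx : ∀ n, |x n| ≤ C) (M : ℕ) :
    |∑ n ∈ range M, mix w P n * hv x n| ≤ (∑' k, |w k|) * C := by
  rw [mix_sum hw, ← tsum_mul_right]
  rw [← Real.norm_eq_abs]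
  refine tsum_of_norm_bounded (hw.abs.mul_right C).hasSum fun k => ?_
  rw [Real.norm_eq_abs, abs_mul]
  exact mul_le_mul_of_nonneg_left ((hP k).bound hx M) (abs_nonneg _)

end mix

noncomputable def ind (A : Set ℕ) : ℕ →ᵇ ℝ :=
  ofNormedAddCommGroupDiscrete (A.indicator 1) 1 fun n => by
    by_cases h : n ∈ A <;> simp [h]

@[simp] lemma ind_apply (A : Set ℕ) (n : ℕ) : ind A n = A.indicator 1 n := rfl

lemma ind_abs (A : Set ℕ) (n : ℕ) : |(A.indicator 1 : ℕ → ℝ) n| ≤ 1 := by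
  by_cases h : n ∈ A <;> simp [h]

lemma norm_comb {κ : Type} (s : Finset κ) (B : κ → Set ℕ) (σ : κ → ℝ) (hσ : ∀ k, |σ k| ≤ 1)
    (hB : ∀ k ∈ s, ∀ l ∈ s, k ≠ l → Disjoint (B k) (B l)) : ‖∑ k ∈ s, σ k • ind (B k)‖ ≤ 1 := by
  refine (norm_le zero_le_one).2 fun n => ?_
  rw [BoundedContinuousFunction.coe_sum, Finset.sum_apply]
  by_cases h : ∃ k ∈ s, n ∈ B k
  · obtain ⟨k, h1, h2⟩ := h
    rw [sum_eq_single_of_mem k h1]
    · simpa [h2] using hσ k
    · intro l h3 h4
      simp [Set.disjoint_left.1 (hB k h1 l h3 h4.symm) h2]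
  · push Not at h
    rw [sum_eq_zero fun k hk => by simp [h k hk]]
    simp

noncomputable def sg (t : ℝ) : ℝ := if 0 ≤ t then 1 else -1

lemma sg_abs (t : ℝ) : |sg t| ≤ 1 := by unfold sg; split_ifs <;> simp

lemma sg_mul (t : ℝ) : sg t * t = |t| := by
  unfold sg; split_ifs with h
  · rw [abs_of_nonneg h, one_mul]
  · rw [abs_of_neg (not_le.1 h)]; ring

lemma sum_abs_le (g : (ℕ →ᵇ ℝ) →L[ℝ] ℝ) {κ : Type} (s : Finset κ) (B : κ → Set ℕ)
    (hB : ∀ k ∈ s, ∀ l ∈ s, k ≠ l → Disjoint (B k) (B l)) :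
    ∑ k ∈ s, |g (ind (B k))| ≤ ‖g‖ := by
  have h1 := norm_comb s B (fun k => sg (g (ind (B k)))) (fun k => sg_abs _) hB
  have h2 := g.le_opNorm_of_le h1
  rw [map_sum, mul_one] at h2
  simp only [map_smul, smul_eq_mul, sg_mul] at h2
  exact (le_abs_self _).trans h2

lemma summable_single (g : (ℕ →ᵇ ℝ) →L[ℝ] ℝ) : Summable fun m => g (ind {m}) :=
  Summable.of_abs (summable_of_sum_le (fun _ => abs_nonneg _) fun s =>
    sum_abs_le g s (fun m => {m}) fun _ _ _ _ h => Set.disjoint_singleton.2 h)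

/-- mass of `g` at the point at infinity of `A` -/
noncomputable def atom (g : (ℕ →ᵇ ℝ) →L[ℝ] ℝ) (A : Set ℕ) : ℝ :=
  g (ind A) - ∑' m, g (ind {m}) * A.indicator 1 m

lemma atom_tendsto (g : (ℕ →ᵇ ℝ) →L[ℝ] ℝ) (A : Set ℕ) :
    Tendsto (fun M => g (ind (A ∩ Set.Ici M))) atTop (𝓝 (atom g A)) := by
  have h1 : Summable fun m => g (ind {m}) * A.indicator 1 m :=
    Summable.of_norm_bounded (summable_single g).abs fun m => by
      by_cases h : m ∈ A <;> simp [h]
  refine (tendsto_const_nhds.sub h1.hasSum.tendsto_sum_nat).congr fun M => ?_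
  have : ind A = ind (A ∩ Set.Ici M) + ∑ m ∈ range M, (A.indicator 1 m : ℝ) • ind {m} := by
    ext n
    rw [BoundedContinuousFunction.add_apply, BoundedContinuousFunction.coe_sum, Finset.sum_apply]
    by_cases h : n < M
    · rw [sum_eq_single_of_mem n (mem_range.2 h)]
      · simp [not_le.2 h]
      · intro l _ h4
        simp [h4.symm]
    · rw [sum_eq_zero fun l hl => by
        have : n ≠ l := by rw [mem_range] at hl; omega
        simp [this]]
      by_cases h' : n ∈ A <;> simp [h', not_lt.1 h]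
  rw [this, map_add, map_sum]
  simp [mul_comm]

lemma summable_atom (g : (ℕ →ᵇ ℝ) →L[ℝ] ℝ) {ι : Type} (A : ι → Set ℕ)
    (hA : ∀ i j, i ≠ j → (A i ∩ A j).Finite) : Summable fun i => atom g (A i) := by
  refine Summable.of_abs (summable_of_sum_le (c := ‖g‖) (fun _ => abs_nonneg _) fun s => ?_)
  refine le_of_tendsto (tendsto_finsetSum s fun i _ => (atom_tendsto g (A i)).abs) ?_
  have h1 : ∀ᶠ M in atTop, ∀ i ∈ s, ∀ j ∈ s, i ≠ j →
      Disjoint (A i ∩ Set.Ici M) (A j ∩ Set.Ici M) := by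
    refine (eventually_all_finset s).2 fun i _ => (eventually_all_finset s).2 fun j _ => ?_
    by_cases h : i = j
    · simp [h]
    · obtain ⟨K, hK⟩ := (hA i j h).bddAbove
      filter_upwards [eventually_gt_atTop K] with M hM _
      refine Set.disjoint_left.2 fun n h2 h3 => ?_
      have h4 := hK ⟨h2.1, h3.1⟩
      have h5 : M ≤ n := h2.2
      omega
  filter_upwards [h1] with M hM
  exact sum_abs_le g s _ hM

lemma add_of_tendsto {c : ℕ → ℝ} (m : ℕ)
    (h : Tendsto (fun M => ∑ n ∈ range M, c n * hv (ind {m}) n) atTop (𝓝 0)) :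
    (m = 0 → c 0 = c 1) ∧ (1 ≤ m → c m = c (2 * m) + c (2 * m + 1)) := by
  have key : ∀ (s : Finset ℕ), (∀ n ∉ s, hv (ind {m}) n = 0) →
      ∑ n ∈ s, c n * hv (ind {m}) n = 0 := fun s hs => by
    refine tendsto_nhds_unique ?_ h
    exact (hasSum_sum_of_ne_finset_zero fun n hn => by rw [hs n hn, mul_zero]).tendsto_sum_nat
  constructor
  · rintro rfl
    have := key {0, 1} fun n hn => by
      simp only [mem_insert, mem_singleton, not_or] at hn
      have : n / 2 ≠ 0 := by omega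
      simp [hv, hn.1, this]
    simp [hv] at this
    linarith
  · intro hm
    have := key {m, 2 * m, 2 * m + 1} fun n hn => by
      simp only [mem_insert, mem_singleton, not_or] at hn
      have h1 : n / 2 ≠ m := by omega
      have h2 : 0 ≠ m := by omega
      simp [hv, hn.1, h1, h2]
    rw [sum_insert (by simp; omega), sum_insert (by simp), sum_singleton] at this
    have h1 : m ≠ 0 := by omega
    have h2 : m / 2 ≠ m := by omega
    have h3 : 2 * m ≠ m := by omega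
    have h4 : 2 * m + 1 ≠ m := by omega
    have h5 : (2 * m + 1) / 2 = m := by omega
    simp [hv, h1, h2, h3, h4, h5] at this
    linarith

lemma level_sum {c : ℕ → ℝ} (h0 : c 0 = c 1) (h : ∀ m, 1 ≤ m → c m = c (2 * m) + c (2 * m + 1))
    (x : ℕ → ℝ) (N : ℕ) : ∑ n ∈ range (2 ^ (N + 1)), c n * hv x n = ∑ u ∈ desc 1 N, c u * x u := by
  induction N with
  | zero => simp [sum_range_succ, hv, desc, h0]; ring
  | succ N ih =>
    have hp : 1 ≤ 2 ^ N := Nat.one_le_two_pow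
    rw [← sum_range_add_sum_Ico _ (show 2 ^ (N + 1) ≤ 2 ^ (N + 1 + 1) by gcongr <;> omega), ih]
    have e1 : desc 1 N = Ico (2 ^ N) (2 ^ (N + 1)) := by rw [desc]; congr 1 <;> ring
    have e2 : desc 1 (N + 1) = Ico (2 * 2 ^ N) (2 * 2 ^ (N + 1)) := by rw [desc]; congr 1 <;> ring
    have e3 : Ico (2 ^ (N + 1)) (2 ^ (N + 1 + 1)) = Ico (2 * 2 ^ N) (2 * 2 ^ (N + 1)) := by
      congr 1 <;> ring
    have hle : 2 ^ N ≤ 2 ^ (N + 1) := by gcongr <;> omega
    rw [e1, e2, e3, sum_Ico_double _ _ _ hle, sum_Ico_double _ _ _ hle, ← sum_add_distrib]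
    refine sum_congr rfl fun u hu => ?_
    have h1 : 1 ≤ u := hp.trans (mem_Ico.1 hu).1
    rw [hv, hv, if_neg (by omega), if_neg (by omega), show 2 * u / 2 = u by omega,
      show (2 * u + 1) / 2 = u by omega, h u h1]
    ring

end Pool.Agent.H12.WS
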