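import Mathlib

/-! Abstract part of the symmetric-square counterexample for Witt algebra maps to Weyl algebras. -/
namespace Pool.Agent.H12.Witt

open QuadraticAlgebra

section nil
variable {A : Type} [Ring A]

/-- the inner derivation `U ↦ U a - a U` -/
def ad (a : A) : A →+ A where
  toFun U := U * a - a * U
  map_zero' := by simp
  map_add' x y := by noncomm_ring

lemma ad_apply (a U : A) : ad a U = U * a - a * U := rfl

lemma ad_mul (a U V : A) : ad a (U * V) = ad a U * V + U * ad a V := by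
  simp only [ad_apply]; noncomm_ring

lemma top (a : A) : ∀ N n m : ℕ, n + m = N → ∀ U V : A, (ad a)^[n + 1] U = 0 →
    (ad a)^[m + 1] V = 0 →
    (ad a)^[n + m] (U * V) = (n + m).choose n • ((ad a)^[n] U * (ad a)^[m] V) := by
  have l0 : ∀ (k : ℕ) (U V : A), ad a U = 0 → (ad a)^[k] (U * V) = U * (ad a)^[k] V := by
    intro k U V h
    induction k with
    | zero => rfl
    | succ k ih => rw [Function.iterate_succ_apply', ih, ad_mul, h, Function.iterate_succ_apply']; simp
  have r0 : ∀ (k : ℕ) (U V : A), ad a V = 0 → (ad a)^[k] (U * V) = (ad a)^[k] U * V := by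
    intro k U V h
    induction k with
    | zero => rfl
    | succ k ih => rw [Function.iterate_succ_apply', ih, ad_mul, h, Function.iterate_succ_apply']; simp
  intro N
  induction N with
  | zero =>
    intro n m h U V _ _
    obtain ⟨rfl, rfl⟩ : n = 0 ∧ m = 0 := by omega
    simp
  | succ N ih =>
    intro n m h U V hU hV
    rcases n with _ | n
    · rw [zero_add, l0 _ _ _ hU]; simp
    rcases m with _ | m
    · rw [add_zero, r0 _ _ _ hV]; simp
    have e1 := ih n (m + 1) (by omega) (ad a U) V hU hV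
    have e2 := ih (n + 1) m (by omega) U (ad a V) hU hV
    have h3 : n + 1 + (m + 1) = (n + (m + 1)) + 1 := by omega
    have h4 : n + 1 + m = n + (m + 1) := by omega
    rw [h4] at e2
    rw [h3, Function.iterate_succ_apply, ad_mul, iterate_map_add, e1, e2, Nat.choose_succ_succ',
      add_smul]
    rfl

lemma van (a : A) (n m : ℕ) (U V : A) (hU : (ad a)^[n + 1] U = 0) (hV : (ad a)^[m + 1] V = 0) :
    (ad a)^[n + m + 1] (U * V) = 0 := by
  rw [Function.iterate_succ_apply', top a _ n m rfl U V hU hV, map_nsmul, ad_mul,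
    ← Function.iterate_succ_apply' (ad a), ← Function.iterate_succ_apply' (ad a), hU, hV]
  simp

lemma more (a : A) {n k : ℕ} (h : n ≤ k) (U : A) (hU : (ad a)^[n] U = 0) : (ad a)^[k] U = 0 := by
  obtain ⟨j, rfl⟩ := Nat.exists_eq_add_of_le' h
  rw [Function.iterate_add_apply, hU, iterate_map_zero]

lemma cube (a : A) (n : ℕ) (U : A) (hU : (ad a)^[n + 1] U = 0) :
    ∃ c : ℕ, c ≠ 0 ∧ (ad a)^[n + n + n] (U ^ 3) = c • ((ad a)^[n] U) ^ 3 := by
  refine ⟨(n + n + n).choose (n + n) * (n + n).choose n, ?_, ?_⟩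
  · exact mul_ne_zero (Nat.choose_pos (by omega)).ne' (Nat.choose_pos (by omega)).ne'
  · rw [pow_three', top a _ (n + n) n rfl (U * U) U (van a n n U U hU hU) hU,
      top a _ n n rfl U U hU hU, pow_three', smul_mul_assoc, smul_smul]

lemma index (a U : A) (h : ∃ n, (ad a)^[n] U = 0) (hU : U ≠ 0) :
    ∃ n, (ad a)^[n] U ≠ 0 ∧ (ad a)^[n + 1] U = 0 := by
  obtain ⟨n, hn⟩ := h
  induction n with
  | zero => exact absurd hn hU
  | succ n ih =>
    by_cases h : (ad a)^[n] U = 0
    · exact ih h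
    · exact ⟨n, h, hn⟩

end nil

/-- generation principle: the algebra is generated by `S` and inverses of units -/
def Gen (R : Type) [CommRing R] [Algebra ℂ R] (S : Set R) : Prop :=
  ∀ P : R → Prop, (∀ c, P (algebraMap ℂ R c)) → (∀ x y, P x → P y → P (x + y)) →
    (∀ x y, P x → P y → P (x * y)) → (∀ x y, x * y = 1 → P x → P y) → (∀ x ∈ S, P x) → ∀ x, P x

section core
variable {R : Type} [CommRing R] [Algebra ℂ R]

/-- multiplication operator -/
abbrev mu (a : R) : Module.End ℂ R := Algebra.lmul ℂ R a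

@[simp] lemma mu_apply (a x : R) : mu a x = a * x := rfl

lemma comm_mu {a b : R} (hg : Gen R {a, b}) (V : Module.End ℂ R) (ha : ad (mu a) V = 0)
    (hb : ad (mu b) V = 0) : V = mu (V 1) := by
  have h : ∀ r, ∀ x, V (r * x) = r * V x := by
    refine hg _ ?_ ?_ ?_ ?_ ?_
    · intro c x
      rw [← Algebra.smul_def, ← Algebra.smul_def, map_smul]
    · intro r s h1 h2 x
      rw [add_mul, map_add, h1, h2, add_mul]
    · intro r s h1 h2 x
      rw [mul_assoc, h1, h2, mul_assoc]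
    · intro r s h h1 x
      have := h1 (s * x)
      rw [← mul_assoc, h, one_mul] at this
      rw [this, ← mul_assoc, mul_comm s r, h, one_mul]
    · rintro r (rfl | rfl) x
      · have := congrArg (fun W : Module.End ℂ R => W x) (sub_eq_zero.1 ha)
        simpa using this
      · have := congrArg (fun W : Module.End ℂ R => W x) (sub_eq_zero.1 hb)
        simpa using this
  ext x
  have := h x 1
  rw [mul_one] at this
  simp [this, mul_comm]

lemma nsmul0 {c : ℕ} (hc : c ≠ 0) {V : Module.End ℂ R} (h : c • V = 0) : V = 0 := by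
  rw [← Nat.cast_smul_eq_nsmul ℂ] at h
  exact (smul_eq_zero.1 h).resolve_left (by exact_mod_cast hc)

lemma S1 [IsDomain R] {a b : R} (hg : Gen R {a, b}) (U : Module.End ℂ R)
    (hn : ∃ n, (ad (mu b))^[n] U = 0) (ha : ad (mu a) U = 0) (h3 : U ^ 3 = 0) : U = 0 := by
  by_contra hU
  obtain ⟨k, h1, h2⟩ := index _ U hn hU
  have hc : ∀ j, ad (mu a) ((ad (mu b))^[j] U) = 0 := by
    intro j
    induction j with
    | zero => exact ha
    | succ j ih =>
      rw [Function.iterate_succ_apply', ad_apply (mu b), map_sub, ad_mul, ad_mul, ih]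
      have : ad (mu a) (mu b) = 0 := by
        rw [ad_apply, ← map_mul, ← map_mul, mul_comm, sub_self]
      simp [this]
  obtain ⟨c, hc0, hc1⟩ := cube _ k U h2
  rw [h3, iterate_map_zero] at hc1
  have h4 := nsmul0 hc0 hc1.symm
  have h5 := comm_mu hg _ (hc k) (by rw [← Function.iterate_succ_apply' (ad (mu b))]; exact h2)
  rw [h5, ← map_pow] at h4
  have h6 := congrArg (fun W : Module.End ℂ R => W 1) h4
  simp at h6
  rw [h6] at h5
  exact h1 (h5.trans (map_zero (Algebra.lmul ℂ R)))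

lemma ad_der (D : Derivation ℂ R R) (a : R) : ad (mu a) (D : Module.End ℂ R) = mu (D a) := by
  ext x
  simp [ad_apply, mul_comm]

lemma ad_mu (a b : R) : ad (mu a) (mu b) = 0 := by
  rw [ad_apply, ← map_mul, ← map_mul, mul_comm, sub_self]

lemma S2 [IsDomain R] {a b : R} (hg : Gen R {a, b}) (𝒜 : Subalgebra ℂ (Module.End ℂ R))
    (ha : mu a ∈ 𝒜) (hna : ∀ U ∈ 𝒜, ∃ n, (ad (mu a))^[n] U = 0)
    (hnb : ∀ U ∈ 𝒜, ∃ n, (ad (mu b))^[n] U = 0) (D : Derivation ℂ R R) (T : Module.End ℂ R)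
    (hT : T ∈ 𝒜) (h : (D : Module.End ℂ R) * T - T * D = T ^ 3) : ad (mu a) T = 0 := by
  by_cases h0 : T = 0
  · rw [h0, map_zero]
  obtain ⟨n, h1, h2⟩ := index _ T (hna T hT) h0
  rcases n with _ | n
  · exact h2
  exfalso
  have hD : (ad (mu a))^[1 + 1] (D : Module.End ℂ R) = 0 := by
    show ad (mu a) (ad (mu a) (D : Module.End ℂ R)) = 0
    rw [ad_der, ad_mu]
  obtain ⟨c, hc0, hc1⟩ := cube _ (n + 1) T h2
  rw [← h, iterate_map_sub, more _ (by omega) _ (van _ _ _ _ _ hD h2),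
    more _ (by omega) _ (van _ _ _ _ _ h2 hD), sub_self] at hc1
  have hm : ∀ j, (ad (mu a))^[j] T ∈ 𝒜 := by
    intro j
    induction j with
    | zero => exact hT
    | succ j ih =>
      rw [Function.iterate_succ_apply', ad_apply]
      exact sub_mem (mul_mem ih ha) (mul_mem ha ih)
  exact h1 (S1 hg _ (hnb _ (hm _))
    (by rw [← Function.iterate_succ_apply' (ad (mu a))]; exact h2) (nsmul0 hc0 hc1.symm))

/-- `ad (mu a)` is locally nilpotent on the algebra generated by multiplications and derivations -/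
lemma locnil (S : Set (Module.End ℂ R))
    (hS : ∀ U ∈ S, (∃ r, U = mu r) ∨ ∃ D : Derivation ℂ R R, U = D) (a : R) :
    ∀ U ∈ Algebra.adjoin ℂ S, ∃ n, (ad (mu a))^[n] U = 0 := by
  intro U hU
  induction hU using Algebra.adjoin_induction with
  | mem x hx =>
    rcases hS x hx with ⟨r, rfl⟩ | ⟨D, rfl⟩
    · exact ⟨1, ad_mu _ _⟩
    · refine ⟨2, ?_⟩
      show ad (mu a) (ad (mu a) (D : Module.End ℂ R)) = 0
      rw [ad_der, ad_mu]
  | algebraMap r =>
    refine ⟨1, ?_⟩
    show ad (mu a) _ = 0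
    rw [ad_apply, Algebra.commutes, sub_self]
  | add x y _ _ hx hy =>
    obtain ⟨n, hn⟩ := hx
    obtain ⟨m, hm⟩ := hy
    exact ⟨n + m, by
      rw [iterate_map_add, more _ (by omega) _ hn, more _ (by omega) _ hm, add_zero]⟩
  | mul x y _ _ hx hy =>
    obtain ⟨n, hn⟩ := hx
    obtain ⟨m, hm⟩ := hy
    exact ⟨n + m + 1, van _ _ _ _ _ (more _ (by omega) _ hn) (more _ (by omega) _ hm)⟩

lemma der_ext {a b : R} (hg : Gen R {a, b}) (D E : Derivation ℂ R R) (ha : D a = E a)
    (hb : D b = E b) : D = E := by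
  ext x
  revert x
  refine hg _ ?_ ?_ ?_ ?_ ?_
  · intro c; simp
  · intro x y h1 h2; rw [map_add, map_add, h1, h2]
  · intro x y h1 h2; rw [D.leibniz, E.leibniz, h1, h2]
  · intro x y h h1
    rw [D.leibniz_of_mul_eq_one (a := y) (b := x) (by rw [mul_comm, h]),
      E.leibniz_of_mul_eq_one (a := y) (b := x) (by rw [mul_comm, h]), h1]
  · rintro x (rfl | rfl) <;> assumption

end core

section main
variable {L R : Type} [CommRing L] [Algebra ℂ L] [CommRing R] [Algebra ℂ R]
  (s1 s2 : R) (d1 d2 : Derivation ℂ R R) (ev : L →ₐ[ℂ] QuadraticAlgebra R (-s2) s1)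

/-- the vector field on the symmetric square attached to `f ∂` -/
noncomputable def vf (f : L) : Derivation ℂ R R :=
  (2 * (ev f).re + s1 * (ev f).im) • d1 + (s1 * (ev f).re + 2 * s2 * (ev f).im) • d2

variable {s1 s2 d1 d2 ev}

lemma vf_ev {t : L} (hL : Gen L {t}) (ht : ev t = ⟨0, 1⟩) (h11 : d1 s1 = 1) (h12 : d1 s2 = 0)
    (h21 : d2 s1 = 0) (h22 : d2 s2 = 1) (x : Derivation ℂ L L) (h : L) :
    vf s1 s2 d1 d2 ev (x t) (ev h).re + (ev h).im * (ev (x t)).re = (ev (x h)).re ∧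
    vf s1 s2 d1 d2 ev (x t) (ev h).im + (ev h).im * (ev (x t)).im = (ev (x h)).im := by
  have e1 : vf s1 s2 d1 d2 ev (x t) s1 = 2 * (ev (x t)).re + s1 * (ev (x t)).im := by
    simp [vf, h11, h21]
  have e2 : vf s1 s2 d1 d2 ev (x t) s2 = s1 * (ev (x t)).re + 2 * s2 * (ev (x t)).im := by
    simp [vf, h12, h22]
  generalize vf s1 s2 d1 d2 ev (x t) = D at *
  let δ : QuadraticAlgebra R (-s2) s1 → QuadraticAlgebra R (-s2) s1 := fun z =>
    ⟨D z.re + z.im * (ev (x t)).re, D z.im + z.im * (ev (x t)).im⟩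
  have lb : ∀ z w, δ (z * w) = z * δ w + w * δ z := by
    intro z w
    ext
    · simp [δ, e2]; ring
    · simp [δ, e1]; ring
  have key : ∀ h, δ (ev h) = ev (x h) := by
    refine hL _ ?_ ?_ ?_ ?_ ?_
    · intro c
      rw [AlgHom.commutes]
      ext <;> simp [δ, Algebra.algebraMap_eq_smul_one]
    · intro a b h1 h2
      rw [map_add, map_add, map_add, ← h1, ← h2]
      ext <;> simp [δ] <;> ring
    · intro a b h1 h2
      rw [map_mul, lb, h1, h2, x.leibniz]
      simp
    · intro a b h h1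
      have h2 := lb (ev a) (ev b)
      have h3 : δ 1 = 0 := by ext <;> simp [δ]
      have h4 : ev a * ev b = 1 := by rw [← map_mul, h, map_one]
      rw [h4, h3, h1] at h2
      rw [x.leibniz_of_mul_eq_one (a := b) (b := a) (by rw [mul_comm, h])]
      simp only [smul_eq_mul, map_mul, map_neg, map_pow]
      linear_combination (-ev b) * h2 - δ (ev b) * h4
    · rintro a rfl
      rw [ht]
      ext <;> simp [δ]
  exact ⟨congrArg QuadraticAlgebra.re (key h), congrArg QuadraticAlgebra.im (key h)⟩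

lemma vf_lie {t : L} (hL : Gen L {t}) (hR : Gen R {s1, s2}) (ht : ev t = ⟨0, 1⟩) (h11 : d1 s1 = 1)
    (h12 : d1 s2 = 0) (h21 : d2 s1 = 0) (h22 : d2 s2 = 1) (x y : Derivation ℂ L L) :
    vf s1 s2 d1 d2 ev (⁅x, y⁆ t) = ⁅vf s1 s2 d1 d2 ev (x t), vf s1 s2 d1 d2 ev (y t)⁆ := by
  have e1 : ∀ f, vf s1 s2 d1 d2 ev f s1 = 2 * (ev f).re + s1 * (ev f).im := by
    intro f; simp [vf, h11, h21]
  have e2 : ∀ f, vf s1 s2 d1 d2 ev f s2 = s1 * (ev f).re + 2 * s2 * (ev f).im := by
    intro f; simp [vf, h12, h22]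
  obtain ⟨a1, a2⟩ := vf_ev hL ht h11 h12 h21 h22 x (y t)
  obtain ⟨b1, b2⟩ := vf_ev hL ht h11 h12 h21 h22 y (x t)
  have two : ∀ D : Derivation ℂ R R, D 2 = 0 := fun D => D.map_natCast 2
  apply der_ext hR
  · simp only [Derivation.commutator_apply, e1, map_add, Derivation.leibniz, two, smul_eq_mul,
      map_sub, QuadraticAlgebra.re_sub, QuadraticAlgebra.im_sub, ← a1, ← a2, ← b1, ← b2]
    ring
  · simp only [Derivation.commutator_apply, e1, e2, map_add, Derivation.leibniz, two, smul_eq_mul,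
      map_sub, QuadraticAlgebra.re_sub, QuadraticAlgebra.im_sub, ← a1, ← a2, ← b1, ← b2]
    ring

attribute [local instance 100] LieRing.ofAssociativeRing

/-- The main abstract statement. -/
theorem main [IsDomain R] {t : L} (hL : Gen L {t}) (hR : Gen R {s1, s2}) (ht : ev t = ⟨0, 1⟩)
    (h11 : d1 s1 = 1) (h12 : d1 s2 = 0) (h21 : d2 s1 = 0) (h22 : d2 s2 = 1)
    (S : Set (Module.End ℂ R))
    (hS : ∀ U ∈ S, (∃ r, U = mu r) ∨ ∃ D : Derivation ℂ R R, U = D)
    (hmu : ∀ r, mu r ∈ Algebra.adjoin ℂ S) (hd1 : (d1 : Module.End ℂ R) ∈ S)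
    (hd2 : (d2 : Module.End ℂ R) ∈ S) (χ : R →+* DualNumber ℂ) (χ1 : χ s1 = 2)
    (χ2 : χ s2 = 1 - DualNumber.eps) :
    ∃ φ : UniversalEnvelopingAlgebra ℂ (Derivation ℂ L L) →+* Algebra.adjoin ℂ S,
      ∀ x0 x1 x2 x3 : Derivation ℂ L L, x0 t = 1 → x1 t = t → x2 t = t ^ 2 →
        φ (UniversalEnvelopingAlgebra.ι ℂ x0) ≠ 0 ∧ ∀ T : Algebra.adjoin ℂ S,
        φ (UniversalEnvelopingAlgebra.ι ℂ x0) * T - T * φ (UniversalEnvelopingAlgebra.ι ℂ x0) = 1 →
        φ (UniversalEnvelopingAlgebra.ι ℂ x1) * T - T * φ (UniversalEnvelopingAlgebra.ι ℂ x1) = T →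
        φ (UniversalEnvelopingAlgebra.ι ℂ x2) * T - T * φ (UniversalEnvelopingAlgebra.ι ℂ x2) = T ^ 2 →
        φ (UniversalEnvelopingAlgebra.ι ℂ x3) * T - T * φ (UniversalEnvelopingAlgebra.ι ℂ x3) = T ^ 3 →
        False := by
  have hmem : ∀ f, ((vf s1 s2 d1 d2 ev f : Derivation ℂ R R) : Module.End ℂ R) ∈
      Algebra.adjoin ℂ S := by
    intro f
    have : ((vf s1 s2 d1 d2 ev f : Derivation ℂ R R) : Module.End ℂ R) =
        mu (2 * (ev f).re + s1 * (ev f).im) * d1 + mu (s1 * (ev f).re + 2 * s2 * (ev f).im) * d2 := by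
      ext z; simp [vf]; ring
    rw [this]
    exact add_mem (mul_mem (hmu _) (Algebra.subset_adjoin hd1))
      (mul_mem (hmu _) (Algebra.subset_adjoin hd2))
  let Φ : Derivation ℂ L L →ₗ⁅ℂ⁆ Algebra.adjoin ℂ S :=
    { toFun := fun x => ⟨_, hmem (x t)⟩
      map_add' := fun x y => by
        apply Subtype.ext; ext z; simp [vf]; ring
      map_smul' := fun c x => by
        apply Subtype.ext; ext z; simp [vf]; simp only [Algebra.smul_def]; ring
      map_lie' := fun {x y} => by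
        apply Subtype.ext
        show ((vf s1 s2 d1 d2 ev (⁅x, y⁆ t) : Derivation ℂ R R) : Module.End ℂ R) = _
        rw [vf_lie hL hR ht h11 h12 h21 h22]
        rfl }
  refine ⟨(UniversalEnvelopingAlgebra.lift ℂ Φ).toRingHom, fun x0 x1 x2 x3 e0 e1 e2 => ?_⟩
  have hφ : ∀ x, (((UniversalEnvelopingAlgebra.lift ℂ Φ).toRingHom
      (UniversalEnvelopingAlgebra.ι ℂ x) : Algebra.adjoin ℂ S) : Module.End ℂ R) =
      vf s1 s2 d1 d2 ev (x t) := by
    intro x
    show (((UniversalEnvelopingAlgebra.lift ℂ Φ) (UniversalEnvelopingAlgebra.ι ℂ x) :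
      Algebra.adjoin ℂ S) : Module.End ℂ R) = _
    rw [UniversalEnvelopingAlgebra.lift_ι_apply]
    rfl
  have hdual : ∀ τ : DualNumber ℂ, τ ^ 2 - 2 * τ + (1 - DualNumber.eps) ≠ 0 := by
    intro τ h
    have h1 := congrArg TrivSqZeroExt.fst h
    have h2 := congrArg TrivSqZeroExt.snd h
    have h3 : (2 : DualNumber ℂ).fst = 2 := rfl
    have h4 : (2 : DualNumber ℂ).snd = 0 := TrivSqZeroExt.snd_natCast 2
    simp [sq, h3, h4] at h1 h2
    have : τ.fst = 1 := by
      have : (τ.fst - 1) ^ 2 = 0 := by linear_combination h1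
      exact sub_eq_zero.1 (pow_eq_zero_iff two_ne_zero |>.1 this)
    rw [this] at h2
    have : (1 : ℂ) = 0 := by linear_combination -h2
    exact one_ne_zero this
  refine ⟨fun h => ?_, fun T a0 a1 a2 a3 => ?_⟩
  · have h1 := hφ x0
    rw [h] at h1
    have h2 := congrArg (fun W : Module.End ℂ R => χ (W s1)) h1
    simp [vf, e0, h11, h21] at h2
    have h3 : (2 : DualNumber ℂ).fst = 2 := rfl
    have h4 := congrArg TrivSqZeroExt.fst h2
    rw [map_ofNat, h3] at h4
    simp at h4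
  have b0 := congrArg Subtype.val a0
  have b1 := congrArg Subtype.val a1
  have b2 := congrArg Subtype.val a2
  have b3 := congrArg Subtype.val a3
  simp only [AddSubgroupClass.coe_sub, MulMemClass.coe_mul, hφ, SubmonoidClass.coe_pow,
    OneMemClass.coe_one, e0, e1, e2] at b0 b1 b2 b3
  have c1 := S2 hR _ (hmu s1) (locnil S hS s1) (locnil S hS s2) _ _ T.2 b3
  have c2 := S2 (a := s2) (b := s1) (by rw [Set.pair_comm]; exact hR) _ (hmu s2) (locnil S hS s2)
    (locnil S hS s1) _ _ T.2 b3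
  have c3 := comm_mu hR _ c1 c2
  generalize (T : Module.End ℂ R) 1 = τ at c3
  rw [c3] at b0 b1 b2
  have g0 := congrArg (fun W : Module.End ℂ R => W 1) b0
  have g1 := congrArg (fun W : Module.End ℂ R => W 1) b1
  have g2 := congrArg (fun W : Module.End ℂ R => W 1) b2
  simp [vf, ht, sq] at g0 g1 g2
  apply hdual (χ τ)
  rw [← χ1, ← χ2, ← map_pow, ← map_mul, ← map_sub, ← map_add]
  have : τ ^ 2 - s1 * τ + s2 = 0 := by
    linear_combination -g2 + s1 * g1 - s2 * g0
  rw [this, map_zero]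

end main

open scoped TensorProduct in
lemma psi_abs {A B : Type} [Semiring A] [Algebra ℂ A] [Semiring B] [Algebra ℂ B] {l : ℕ} (T g : A)
    (a : Fin l → A) (c : Fin l → ℕ → A) (n : Fin l → ℕ) (v : Fin l → ℕ → B) (j : Fin l)
    (h1 : ∀ i, a i * T = T * a i + if i = j then g else 0) (h2 : ∀ i r, c i r * T = T * c i r) :
    (∑ i, (a i ⊗ₜ[ℂ] (1 : B) + ∑ r ∈ Finset.range (n i), c i r ⊗ₜ[ℂ] v i r)) * (T ⊗ₜ[ℂ] (1 : B)) =
    (T ⊗ₜ[ℂ] (1 : B)) * (∑ i, (a i ⊗ₜ[ℂ] (1 : B) + ∑ r ∈ Finset.range (n i), c i r ⊗ₜ[ℂ] v i r)) +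
      g ⊗ₜ[ℂ] (1 : B) := by
  have : g ⊗ₜ[ℂ] (1 : B) = ∑ i, (if i = j then g else 0) ⊗ₜ[ℂ] (1 : B) := by
    rw [← TensorProduct.sum_tmul]; simp
  rw [this, Finset.sum_mul, Finset.mul_sum, ← Finset.sum_add_distrib]
  refine Finset.sum_congr rfl fun i _ => ?_
  rw [add_mul, mul_add, Finset.sum_mul, Finset.mul_sum]
  simp only [Algebra.TensorProduct.tmul_mul_tmul, mul_one, one_mul, h1, h2, TensorProduct.add_tmul]
  abel

lemma gen_add {G : Type} [AddCommGroup G] (S : Set G) (hS : AddSubgroup.closure S = ⊤)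
    (P : AddMonoidAlgebra ℂ G → Prop) (h1 : ∀ c, P (algebraMap ℂ _ c))
    (h2 : ∀ x y, P x → P y → P (x + y)) (h3 : ∀ x y, P x → P y → P (x * y))
    (h4 : ∀ g ∈ S, P (AddMonoidAlgebra.single g 1) ∧ P (AddMonoidAlgebra.single (-g) 1)) (x) :
    P x := by
  have key : ∀ g : G, P (AddMonoidAlgebra.single g 1) ∧ P (AddMonoidAlgebra.single (-g) 1) := by
    intro g
    have hg : g ∈ AddSubgroup.closure S := by rw [hS]; trivial
    induction hg using AddSubgroup.closure_induction with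
    | mem x hx => exact h4 x hx
    | zero =>
      have := h1 1
      rw [map_one] at this
      rw [neg_zero]
      exact ⟨this, this⟩
    | add x y _ _ hx hy =>
      have a := h3 _ _ hx.1 hy.1
      have b := h3 _ _ hx.2 hy.2
      rw [AddMonoidAlgebra.single_mul_single, one_mul] at a b
      rw [neg_add]
      exact ⟨a, b⟩
    | neg x _ hx => rw [neg_neg]; exact hx.symm
  induction x using AddMonoidAlgebra.induction_linear with
  | zero => simpa using h1 0
  | add x y hx hy => exact h2 _ _ hx hy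
  | single g c =>
    have := h3 _ _ (h1 c) (key g).1
    simpa [AddMonoidAlgebra.single_mul_single] using this

end Pool.Agent.H12.Witt
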