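import Mathlib

/-! Tools on zero-free holomorphic functions and zero-free polynomials. -/

open Complex Metric Set Filter Topology Asymptotics Polynomial

namespace Pool.Agent.H12.ZeroFree

lemma exists_log {F : ℂ → ℂ} {s : ℝ} (hs : 0 < s) (hF : DifferentiableOn ℂ F (ball 0 s))
    (h0 : ∀ z ∈ ball (0 : ℂ) s, F z ≠ 0) (h1 : F 0 = 1) :
    ∃ P : ℂ → ℂ, DifferentiableOn ℂ P (ball 0 s) ∧ P 0 = 0 ∧ ∀ z ∈ ball (0 : ℂ) s, exp (P z) = F z := by
  have hd : DifferentiableOn ℂ (fun z => deriv F z / F z) (ball 0 s) :=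
    (hF.deriv isOpen_ball).div hF h0
  obtain ⟨P, hP0, hP⟩ := hd.isExactOn_ball.with_val_at 0 0
  refine ⟨P, fun z hz => (hP z hz).differentiableAt.differentiableWithinAt, hP0, fun z hz => ?_⟩
  have key : ∀ w ∈ ball (0 : ℂ) s, HasDerivAt (fun w => exp (P w) / F w) 0 w := fun w hw => by
    have h2 := (hF.differentiableAt (isOpen_ball.mem_nhds hw)).hasDerivAt
    refine (((hP w hw).cexp).div h2 (h0 w hw)).congr_deriv ?_
    have := h0 w hw
    field_simp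
    ring
  have := isOpen_ball.is_const_of_deriv_eq_zero (convex_ball (0 : ℂ) s).isPreconnected
    (fun w hw => (key w hw).differentiableAt.differentiableWithinAt)
    (fun w hw => (key w hw).deriv) hz (mem_ball_self hs)
  rw [hP0, h1, exp_zero, div_one] at this
  exact (div_eq_one_iff_eq (h0 z hz)).mp this

lemma logBC {F : ℂ → ℂ} {s M : ℝ} (hs : 0 < s) (hM : 0 < M) (hF : DifferentiableOn ℂ F (ball 0 s))
    (h0 : ∀ z ∈ ball (0 : ℂ) s, F z ≠ 0) (h1 : F 0 = 1)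
    (hb : ∀ z ∈ ball (0 : ℂ) s, ‖F z‖ ≤ Real.exp M) :
    ∃ P : ℂ → ℂ, DifferentiableOn ℂ P (ball 0 s) ∧ P 0 = 0 ∧
      (∀ z ∈ ball (0 : ℂ) s, exp (P z) = F z) ∧
      ∀ θ : ℝ, 0 < θ → ∀ z : ℂ, ‖z‖ ≤ s * Real.exp (-θ) → ‖P z‖ ≤ 2 * M / θ := by
  obtain ⟨P, hP, hP0, he⟩ := exists_log hs hF h0 h1
  refine ⟨P, hP, hP0, he, fun θ hθ z hz => ?_⟩
  have h2 : ‖z‖ * (1 + θ) ≤ s := by
    have h3 := Real.add_one_le_exp θ
    have h4 : s * Real.exp (-θ) * Real.exp θ = s := by rw [mul_assoc, ← Real.exp_add]; simp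
    calc ‖z‖ * (1 + θ) ≤ s * Real.exp (-θ) * Real.exp θ := by gcongr; linarith
      _ = s := h4
  have h3 : ‖z‖ < s := by
    rcases (norm_nonneg z).eq_or_lt with h | h
    · linarith
    · nlinarith
  refine (borelCaratheodory_zero hM hP (fun w hw => ?_) hs (mem_ball_zero_iff.mpr h3) hP0).trans ?_
  · have := hb w hw
    rw [← he w hw, norm_exp, Real.exp_le_exp] at this
    exact this
  · rw [div_le_div_iff₀ (by linarith) hθ]
    nlinarith

lemma lt_of_le_exp {s θ : ℝ} (hs : 0 < s) (hθ : 0 < θ) : s * Real.exp (-θ) < s :=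
  mul_lt_of_lt_one_right hs (Real.exp_lt_one_iff.mpr (by linarith))

lemma twoSided {F : ℂ → ℂ} {s M θ : ℝ} (hs : 0 < s) (hM : 0 < M) (hθ : 0 < θ)
    (hF : DifferentiableOn ℂ F (ball 0 s))
    (h0 : ∀ z ∈ ball (0 : ℂ) s, F z ≠ 0) (h1 : F 0 = 1)
    (hb : ∀ z ∈ ball (0 : ℂ) s, ‖F z‖ ≤ Real.exp M) (z : ℂ) (hz : ‖z‖ ≤ s * Real.exp (-θ)) :
    ‖(F z)⁻¹‖ ≤ Real.exp (2 * M / θ) := by
  obtain ⟨P, -, -, he, hP⟩ := logBC hs hM hF h0 h1 hb
  rw [← he z (mem_ball_zero_iff.mpr (hz.trans_lt (lt_of_le_exp hs hθ))), ← exp_neg]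
  exact (norm_exp_le_exp_norm _).trans (Real.exp_le_exp.mpr (by rw [norm_neg]; exact hP θ hθ z hz))

lemma schw {F : ℂ → ℂ} {s M θ : ℝ} {n : ℕ} (hs : 0 < s) (hM : 0 < M) (hθ : 0 < θ)
    (hF : DifferentiableOn ℂ F (ball 0 s))
    (h0 : ∀ z ∈ ball (0 : ℂ) s, F z ≠ 0) (h1 : F 0 = 1)
    (hb : ∀ z ∈ ball (0 : ℂ) s, ‖F z‖ ≤ Real.exp M)
    (hO : (fun z => F z - 1) =O[𝓝 0] fun z : ℂ => ‖z‖ ^ (n + 1))
    (hc : 2 * M / θ * Real.exp (-θ) ^ (n + 1) ≤ 1 / 2) (z : ℂ)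
    (hz : ‖z‖ ≤ s * Real.exp (-θ) * Real.exp (-θ)) : ‖F z - 1‖ ≤ 1 := by
  obtain ⟨P, hd, hP0, he, hP⟩ := logBC hs hM hF h0 h1 hb
  have hs' : 0 < s * Real.exp (-θ) := by positivity
  have l1 := lt_of_le_exp hs hθ
  have l2 := lt_of_le_exp hs' hθ
  have hPO : P =O[𝓝 0] fun z => F z - 1 := by
    refine IsBigO.of_bound 2 ?_
    have hc : ContinuousAt P 0 := (hd.differentiableAt (ball_mem_nhds _ hs)).continuousAt
    have := hc.norm.eventually (gt_mem_nhds (show ‖P 0‖ < 1 / 2 by simp [hP0]))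
    filter_upwards [this, ball_mem_nhds (0 : ℂ) hs] with w h2 h3
    have h4 := norm_exp_sub_one_sub_id_le (x := P w) (by linarith)
    rw [he w h3] at h4
    have h5 := norm_sub_norm_le (P w) (F w - 1)
    rw [norm_sub_rev (P w)] at h5
    nlinarith [norm_nonneg (P w)]
  have h2 := dist_le_mul_div_pow_of_mapsTo_ball_of_isLittleO (n := n) (R₂ := 2 * M / θ)
    (hd.mono (ball_subset_ball l1.le)) (fun w hw => ?_) ?_ (mem_ball_zero_iff.mpr (hz.trans_lt l2))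
  · rw [hP0, dist_zero_right, dist_zero_right] at h2
    have h3 : ‖z‖ / (s * Real.exp (-θ)) ≤ Real.exp (-θ) := by rw [div_le_iff₀ hs']; linarith
    have h4 : ‖P z‖ ≤ 1 / 2 := h2.trans (le_trans (by gcongr) hc)
    rw [← he z (mem_ball_zero_iff.mpr (by linarith))]
    linarith [norm_exp_sub_one_le (x := P z) (by linarith)]
  · rw [hP0, mem_closedBall_zero_iff]
    exact hP θ hθ w (mem_ball_zero_iff.mp hw).le
  · simp only [hP0, sub_zero]
    exact (hPO.trans hO).trans_isLittleO (isLittleO_norm_pow_norm_pow (Nat.lt_succ_self n))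

lemma prod_bounds (t : Multiset ℂ) {s : ℝ} (hs : 0 ≤ s) (h : ∀ ζ ∈ t, s ≤ ‖ζ‖) (z : ℂ)
    (hz : ‖z‖ ≤ s) : s ^ t.card ≤ ‖(t.map (0 - ·)).prod‖ ∧
      ‖(t.map (z - ·)).prod‖ ≤ 2 ^ t.card * ‖(t.map (0 - ·)).prod‖ := by
  induction t using Multiset.induction_on with
  | empty => simp
  | cons ζ t ih =>
    obtain ⟨h1, h2⟩ := ih fun w hw => h w (Multiset.mem_cons_of_mem hw)
    have h3 := h ζ (Multiset.mem_cons_self _ _)
    simp only [Multiset.map_cons, Multiset.prod_cons, Multiset.card_cons, norm_mul, zero_sub,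
      norm_neg, pow_succ] at h1 h2 ⊢
    have h4 : ‖z - ζ‖ ≤ 2 * ‖ζ‖ := by linarith [norm_sub_le z ζ]
    constructor
    · rw [mul_comm]; gcongr
    · calc _ ≤ 2 * ‖ζ‖ * (2 ^ t.card * ‖(t.map fun x => -x).prod‖) := by gcongr
        _ = _ := by ring

lemma poly_bounds (a : ℕ → ℂ) (m : ℕ) (hm : a m ≠ 0) {s : ℝ} (hs : 0 ≤ s)
    (h : ∀ z : ℂ, ‖z‖ ≤ s → ∑ k ∈ Finset.range (m + 1), a k * z ^ k ≠ 0) :
    ‖a m‖ * s ^ m ≤ ‖a 0‖ ∧
      ∀ z : ℂ, ‖z‖ ≤ s → ‖∑ k ∈ Finset.range (m + 1), a k * z ^ k‖ ≤ 2 ^ m * ‖a 0‖ := by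
  let p : ℂ[X] := ∑ k ∈ Finset.range (m + 1), monomial k (a k)
  have he : ∀ z, p.eval z = ∑ k ∈ Finset.range (m + 1), a k * z ^ k := fun z => by
    simp [p, eval_finsetSum]
  have hc : p.coeff m = a m := by simp [p, coeff_monomial]
  have hd : p.natDegree = m := by
    refine le_antisymm (natDegree_sum_le_of_forall_le _ _ fun k hk => (natDegree_monomial_le _).trans
      (Nat.lt_succ_iff.mp (Finset.mem_range.mp hk))) (le_natDegree_of_ne_zero (hc ▸ hm))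
  have hl : p.leadingCoeff = a m := by rw [leadingCoeff, hd, hc]
  have hsp := IsAlgClosed.splits p
  have hcard : p.roots.card = m := by rw [← hsp.natDegree_eq_card_roots, hd]
  have hr : ∀ ζ ∈ p.roots, s ≤ ‖ζ‖ := fun ζ hζ => by
    by_contra h'
    exact h ζ (not_le.mp h').le (by rw [← he]; exact (mem_roots'.mp hζ).2)
  have e0 : ‖a 0‖ = ‖a m‖ * ‖(p.roots.map (0 - ·)).prod‖ := by
    have := hsp.eval_eq_prod_roots 0
    rw [he, hl] at this
    rw [← norm_mul, ← this]; simp [Finset.sum_range_succ']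
  refine ⟨?_, fun z hz => ?_⟩
  · have := (prod_bounds p.roots hs hr 0 (by simpa using hs)).1
    rw [e0, ← hcard]; rw [hcard] at this ⊢; gcongr
  · have := (prod_bounds p.roots hs hr z hz).2
    rw [← he, hsp.eval_eq_prod_roots, hl, norm_mul, e0, mul_left_comm]
    rw [hcard] at this; gcongr

variable {a : ℕ → ℂ} {f : ℂ → ℂ}

lemma hasF (h : ∀ z : ℂ, HasSum (fun k : ℕ => a k * z ^ k) (f z)) :
    HasFPowerSeriesOnBall f (FormalMultilinearSeries.ofScalars ℂ a) 0 ⊤ := by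
  refine ⟨(FormalMultilinearSeries.radius_eq_top_of_summable_norm _ fun r => ?_).ge, by simp,
    fun {y} _ => ?_⟩
  · have := summable_norm_iff.mpr (h r).summable
    simpa using this
  · simpa [FormalMultilinearSeries.ofScalars_apply_eq, mul_comm] using h y

lemma diff (h : ∀ z : ℂ, HasSum (fun k : ℕ => a k * z ^ k) (f z)) : Differentiable ℂ f := by
  have := (hasF h).differentiableOn
  rwa [Metric.eball_top_eq_univ, differentiableOn_univ] at this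

lemma cauchy (h : ∀ z : ℂ, HasSum (fun k : ℕ => a k * z ^ k) (f z)) {s C : ℝ} (hs : 0 < s)
    (hC : ∀ z : ℂ, ‖z‖ ≤ s → ‖f z‖ ≤ C) (k : ℕ) : ‖a k‖ * s ^ k ≤ C := by
  have h1 := norm_iteratedDeriv_le_of_forall_mem_sphere_norm_le (c := 0) k hs (diff h).diffContOnCl
    fun z hz => hC z (by simpa using (mem_sphere_zero_iff_norm.mp hz).le)
  have h2 := (hasF h).factorial_smul 1 k
  rw [← iteratedDeriv_eq_iteratedFDeriv, FormalMultilinearSeries.ofScalars_apply_eq] at h2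
  rw [← h2, le_div_iff₀ (by positivity)] at h1
  simp at h1
  have : (0 : ℝ) < k.factorial := by positivity
  rw [mul_assoc] at h1
  exact le_of_mul_le_mul_left h1 this

lemma tail (h : ∀ z : ℂ, HasSum (fun k : ℕ => a k * z ^ k) (f z)) {r q : ℝ} {n : ℕ}
    (hq : 0 ≤ q) (hq1 : q < 1) (hs : ∀ k, n ≤ k → ‖a k‖ * r ^ k ≤ 1) (z : ℂ) (hz : ‖z‖ ≤ r * q) :
    ‖f z - ∑ k ∈ Finset.range n, a k * z ^ k‖ ≤ q ^ n / (1 - q) := by
  have h1 := (hasSum_nat_add_iff' n).mpr (h z)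
  have h2 := (hasSum_geometric_of_lt_one hq hq1).mul_left (q ^ n)
  refine h1.norm_le_of_bounded h2 fun k => ?_
  rw [norm_mul, norm_pow, ← pow_add, add_comm n k]
  calc ‖a (k + n)‖ * ‖z‖ ^ (k + n) ≤ ‖a (k + n)‖ * (r * q) ^ (k + n) := by gcongr
    _ = ‖a (k + n)‖ * r ^ (k + n) * q ^ (k + n) := by rw [mul_pow, mul_assoc]
    _ ≤ 1 * q ^ (k + n) := by gcongr; exact hs _ (by omega)
    _ = _ := one_mul _

end Pool.Agent.H12.ZeroFree
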