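import Mathlib

set_option linter.unusedVariables false

namespace Pool.Agent.H12.Zud

open Filter Set MeasureTheory Topology

noncomputable def D (u : ℝ) : ℝ := (1 + u ^ 3) * (8 + u ^ 3)

noncomputable def f (n : ℕ) (u : ℝ) : ℝ := (u ^ 3 / D u) ^ n * (u / D u)

noncomputable def G (n : ℕ) (u : ℝ) : ℝ :=
  (u ^ 3 / D u) ^ (n + 1) * (u⁻¹ * (1 / 3 - ((n : ℝ) + 1) * ((u ^ 6 - 8) / D u)))

noncomputable def G' (n : ℕ) (u : ℝ) : ℝ :=
  (u ^ 3 / D u) ^ n * (u ^ 2 / D u) * (1 / 3 - ((n : ℝ) + 1) * ((u ^ 6 - 8) / D u))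

lemma D_pos {u : ℝ} (hu : 0 ≤ u) : 0 < D u := by unfold D; positivity

lemma psi_le {u : ℝ} (hu : 0 ≤ u) : 49 * (u ^ 3 / D u) ≤ 4 := by
  rw [← mul_div_assoc, div_le_iff₀ (D_pos hu)]
  unfold D
  nlinarith [sq_nonneg (u ^ 3 - 2)]

lemma psi_nonneg {u : ℝ} (hu : 0 ≤ u) : 0 ≤ u ^ 3 / D u := by
  have := D_pos hu; positivity

lemma psi_pow_le (n : ℕ) {u : ℝ} (hu : 0 ≤ u) : (u ^ 3 / D u) ^ n ≤ 1 :=
  pow_le_one₀ (psi_nonneg hu) (by linarith [psi_le hu])

lemma f_nonneg (n : ℕ) {u : ℝ} (hu : 0 ≤ u) : 0 ≤ f n u := by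
  have := D_pos hu; unfold f; positivity

lemma f_pos (n : ℕ) {u : ℝ} (hu : 0 < u) : 0 < f n u := by
  have := D_pos hu.le; unfold f; positivity

lemma contD : Continuous D := by unfold D; fun_prop

lemma int_of_le {g : ℝ → ℝ} (hc : ContinuousOn g (Ioi 0)) (h0 : ∀ u, 0 < u → 0 ≤ g u)
    (h1 : ∀ u, 0 < u → g u ≤ 2 * (1 + u ^ 2)⁻¹) : IntegrableOn g (Ioi 0) := by
  refine Integrable.mono' ((integrable_inv_one_add_sq.const_mul 2).integrableOn)
    (hc.aestronglyMeasurable measurableSet_Ioi) ?_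
  refine (ae_restrict_iff' measurableSet_Ioi).2 (Eventually.of_forall fun u hu => ?_)
  rw [Real.norm_eq_abs, abs_of_nonneg (h0 u hu)]
  exact h1 u hu

lemma cube (u : ℝ) (hu : 0 < u) : u ≤ 2 + u ^ 3 := by
  nlinarith [mul_nonneg hu.le (sq_nonneg (u - 1)), sq_nonneg (u - 1)]

lemma int_g (c : ℝ) (hc : 1 ≤ c) : IntegrableOn (fun u : ℝ => u / (c + u ^ 3)) (Ioi 0) := by
  refine int_of_le ?_ (fun u hu => by positivity) fun u hu => ?_
  · refine ContinuousOn.div (by fun_prop) (by fun_prop) fun u hu => ?_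
    have : (0 : ℝ) < u := hu
    positivity
  · rw [← div_eq_mul_inv, div_le_div_iff₀ (by positivity) (by positivity)]
    nlinarith [cube u hu]

lemma int_f (n : ℕ) : IntegrableOn (f n) (Ioi 0) := by
  refine int_of_le ?_ (fun u hu => f_nonneg n hu.le) fun u hu => ?_
  · have hD : ∀ u ∈ Ioi (0 : ℝ), D u ≠ 0 := fun u hu => (D_pos (le_of_lt hu)).ne'
    exact ((ContinuousOn.div (by fun_prop) contD.continuousOn hD).pow n).mul
      (ContinuousOn.div (by fun_prop) contD.continuousOn hD)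
  · have h1 : f n u ≤ u / D u := by
      have := D_pos hu.le
      exact mul_le_of_le_one_left (by positivity) (psi_pow_le n hu.le)
    refine h1.trans ?_
    rw [← div_eq_mul_inv, div_le_div_iff₀ (D_pos hu.le) (by positivity)]
    unfold D
    have : 0 < u ^ 3 := by positivity
    nlinarith [cube u hu]

noncomputable def J (n : ℕ) : ℝ := ∫ u in Ioi (0 : ℝ), f n u

lemma J_pos (n : ℕ) : 0 < J n := by
  unfold J
  rw [setIntegral_pos_iff_support_of_nonneg_ae _ (int_f n)]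
  · have : Function.support (f n) ∩ Ioi 0 = Ioi 0 :=
      inter_eq_right.2 fun u hu => (f_pos n hu).ne'
    rw [this]; simp
  · exact (ae_restrict_iff' measurableSet_Ioi).2
      (Eventually.of_forall fun u hu => f_nonneg n (le_of_lt hu))

lemma J_ratio (n : ℕ) : 49 * J (n + 1) ≤ 4 * J n := by
  unfold J
  rw [← integral_const_mul, ← integral_const_mul]
  refine setIntegral_mono_on ((int_f _).const_mul _) ((int_f _).const_mul _) measurableSet_Ioi
    fun u hu => ?_
  have h1 := psi_le (le_of_lt hu)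
  have h2 := f_nonneg n (le_of_lt hu)
  have : f (n + 1) u = (u ^ 3 / D u) * f n u := by unfold f; ring
  rw [this]; nlinarith

lemma hasD (u : ℝ) : HasDerivAt D (6 * u ^ 5 + 27 * u ^ 2) u := by
  have h := ((hasDerivAt_pow 3 u).const_add 1).mul ((hasDerivAt_pow 3 u).const_add 8)
  refine HasDerivAt.congr_deriv h ?_
  simp; ring

lemma lin3 {a b c : ℝ → ℝ} (ha : IntegrableOn a (Ioi 0)) (hb : IntegrableOn b (Ioi 0))
    (hc : IntegrableOn c (Ioi 0)) (x y z : ℝ) :
    ∫ u in Ioi (0 : ℝ), (x * a u - y * b u + z * c u) =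
      x * (∫ u in Ioi (0 : ℝ), a u) - y * (∫ u in Ioi (0 : ℝ), b u) +
        z * ∫ u in Ioi (0 : ℝ), c u := by
  have h1 : IntegrableOn (fun u => x * a u - y * b u) (Ioi 0) :=
    (ha.const_mul _).sub (hb.const_mul _)
  rw [integral_add h1 (hc.const_mul _), integral_sub (ha.const_mul _) (hb.const_mul _),
    integral_const_mul, integral_const_mul, integral_const_mul]

lemma lin4 {a b c d : ℝ → ℝ} (ha : IntegrableOn a (Ioi 0)) (hb : IntegrableOn b (Ioi 0))
    (hc : IntegrableOn c (Ioi 0)) (hd : IntegrableOn d (Ioi 0)) (x y z w : ℝ) :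
    ∫ u in Ioi (0 : ℝ), (x * a u - y * b u - (z * c u - w * d u)) =
      x * (∫ u in Ioi (0 : ℝ), a u) - y * (∫ u in Ioi (0 : ℝ), b u) -
        (z * (∫ u in Ioi (0 : ℝ), c u) - w * ∫ u in Ioi (0 : ℝ), d u) := by
  have h1 : IntegrableOn (fun u => x * a u - y * b u) (Ioi 0) :=
    (ha.const_mul _).sub (hb.const_mul _)
  have h2 : IntegrableOn (fun u => z * c u - w * d u) (Ioi 0) :=
    (hc.const_mul _).sub (hd.const_mul _)
  rw [integral_sub h1 h2, integral_sub (ha.const_mul _) (hb.const_mul _),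
    integral_sub (hc.const_mul _) (hd.const_mul _),
    integral_const_mul, integral_const_mul, integral_const_mul, integral_const_mul]

lemma tends_zero {g : ℝ → ℝ} (C : ℝ) (h : ∀ u, 1 ≤ u → |g u| ≤ C * u⁻¹) :
    Tendsto g atTop (𝓝 0) := by
  have h0 : Tendsto (fun u : ℝ => C * u⁻¹) atTop (𝓝 0) := by
    simpa using tendsto_inv_atTop_zero.const_mul C
  refine squeeze_zero_norm' ?_ h0
  filter_upwards [eventually_ge_atTop 1] with u hu using h u hu

lemma J_rec (n : ℕ) : (((n : ℝ) + 1) ^ 2 - 1 / 9) * J n - 9 * (n + 1) * (2 * n + 3) * J (n + 1) +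
    49 * (n + 1) * (n + 2) * J (n + 2) = 0 := by
  have hint : IntegrableOn (fun u => 3 * ((((n : ℝ) + 1) ^ 2 - 1 / 9) * f n u -
      9 * (n + 1) * (2 * n + 3) * f (n + 1) u + 49 * (n + 1) * (n + 2) * f (n + 2) u)) (Ioi 0) :=
    ((((int_f _).const_mul _).sub ((int_f _).const_mul _)).add ((int_f _).const_mul _)).const_mul _
  have hc : ContinuousWithinAt (G' n) (Ici 0) 0 := by
    have hD : D 0 ≠ 0 := (D_pos le_rfl).ne'
    have := contD
    apply ContinuousAt.continuousWithinAt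
    unfold G'
    fun_prop (disch := exact hD)
  have hd : ∀ u ∈ Ioi (0 : ℝ), HasDerivAt (G' n) (3 * ((((n : ℝ) + 1) ^ 2 - 1 / 9) * f n u -
      9 * (n + 1) * (2 * n + 3) * f (n + 1) u + 49 * (n + 1) * (n + 2) * f (n + 2) u)) u := by
    intro u hu
    have hu : 0 < u := hu
    have hD := (D_pos hu.le).ne'
    have e : G' n =ᶠ[𝓝 u] G n := by
      filter_upwards [lt_mem_nhds hu] with x hx
      have := (D_pos hx.le).ne'
      unfold G G'; rw [pow_succ (x ^ 3 / D x)]; generalize (x ^ 3 / D x) ^ n = P; field_simp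
    refine HasDerivAt.congr_of_eventuallyEq ?_ e
    have h := (((hasDerivAt_pow 3 u).div (hasD u) hD).pow (n + 1)).mul
      ((hasDerivAt_inv hu.ne').mul (((((hasDerivAt_pow 6 u).sub_const 8).div (hasD u) hD).const_mul
        ((n : ℝ) + 1)).const_sub (1 / 3)))
    refine HasDerivAt.congr_deriv h ?_
    simp only [f, Pi.div_apply, Pi.pow_apply, Pi.mul_apply, pow_succ (u ^ 3 / D u),
      Nat.add_sub_cancel]
    generalize (u ^ 3 / D u) ^ n = P
    push_cast
    field_simp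
    unfold D
    ring
  have ht : Tendsto (G' n) atTop (𝓝 0) := by
    refine tends_zero ((n : ℝ) + 2) fun u hu => ?_
    have hu0 : 0 < u := by linarith
    have hD := D_pos hu0.le
    have h3 : 1 ≤ u ^ 3 := one_le_pow₀ hu
    have h1 : |(u ^ 6 - 8) / D u| ≤ 1 := by
      rw [abs_div, abs_of_pos hD, div_le_one hD, abs_le]
      unfold D; constructor <;> nlinarith
    have h2 : u ^ 2 / D u ≤ u⁻¹ := by
      rw [inv_eq_one_div, div_le_div_iff₀ hD hu0]
      unfold D; nlinarith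
    have h4 : |1 / 3 - ((n : ℝ) + 1) * ((u ^ 6 - 8) / D u)| ≤ (n : ℝ) + 2 := by
      have hn : (0 : ℝ) ≤ n := n.cast_nonneg
      rw [abs_le] at h1 ⊢
      constructor <;> nlinarith
    unfold G'
    rw [abs_mul, abs_of_nonneg (by positivity : 0 ≤ (u ^ 3 / D u) ^ n * (u ^ 2 / D u)), mul_comm]
    have h5 : (u ^ 3 / D u) ^ n * (u ^ 2 / D u) ≤ u⁻¹ :=
      (mul_le_of_le_one_left (by positivity) (psi_pow_le n hu0.le)).trans h2
    gcongr
  have h := integral_Ioi_of_hasDerivAt_of_tendsto hc hd hint ht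
  rw [integral_const_mul, lin3 (int_f _) (int_f _) (int_f _)] at h
  have h0 : G' n 0 = 0 := by simp [G']
  unfold J
  rw [h0] at h
  linarith

lemma J_init : 49 * J 1 = 2 * J 0 := by
  have hs := integral_comp_mul_left_Ioi (fun w : ℝ => w / (1 + w ^ 3)) 0 (b := 1 / 2) (by norm_num)
  have e1 : ∫ u in Ioi (0 : ℝ), (1 / 2 * u) / (1 + (1 / 2 * u) ^ 3) =
      4 * ∫ u in Ioi (0 : ℝ), u / (8 + u ^ 3) := by
    rw [← integral_const_mul]
    refine setIntegral_congr_fun measurableSet_Ioi fun u hu => ?_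
    have : (0 : ℝ) < u := hu
    field_simp
    ring
  simp only [mul_zero, smul_eq_mul] at hs
  rw [e1] at hs
  have hint : IntegrableOn (fun u : ℝ => 49 * f 1 u - 2 * f 0 u -
      (2 / 3 * (u / (1 + u ^ 3)) - 4 / 3 * (u / (8 + u ^ 3)))) (Ioi 0) :=
    (((int_f _).const_mul _).sub ((int_f _).const_mul _)).sub
      (((int_g 1 le_rfl).const_mul _).sub ((int_g 8 (by norm_num)).const_mul _))
  have hd : ∀ u ∈ Ici (0 : ℝ), HasDerivAt
      (fun u : ℝ => -(1 / 3) * (u ^ 2 / (1 + u ^ 3) + u ^ 2 / (8 + u ^ 3)))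
      (49 * f 1 u - 2 * f 0 u - (2 / 3 * (u / (1 + u ^ 3)) - 4 / 3 * (u / (8 + u ^ 3)))) u := by
    intro u hu
    have hu : 0 ≤ u := hu
    have h1 : 1 + u ^ 3 ≠ 0 := by positivity
    have h8 : 8 + u ^ 3 ≠ 0 := by positivity
    have h := (((hasDerivAt_pow 2 u).div ((hasDerivAt_pow 3 u).const_add 1) h1).add
      ((hasDerivAt_pow 2 u).div ((hasDerivAt_pow 3 u).const_add 8) h8)).const_mul (-(1 / 3))
    refine HasDerivAt.congr_deriv h ?_
    simp only [f, D]
    push_cast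
    field_simp
    ring
  have ht : Tendsto (fun u : ℝ => -(1 / 3) * (u ^ 2 / (1 + u ^ 3) + u ^ 2 / (8 + u ^ 3))) atTop
      (𝓝 0) := by
    refine tends_zero 1 fun u hu => ?_
    have hu0 : 0 < u := by linarith
    have h1 : u ^ 2 / (1 + u ^ 3) ≤ u⁻¹ := by
      rw [inv_eq_one_div, div_le_div_iff₀ (by positivity) hu0]; nlinarith
    have h2 : u ^ 2 / (8 + u ^ 3) ≤ u⁻¹ := by
      rw [inv_eq_one_div, div_le_div_iff₀ (by positivity) hu0]; nlinarith
    have h3 : 0 < u⁻¹ := by positivity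
    rw [neg_mul, abs_neg, abs_of_nonneg (by positivity)]
    linarith
  have h := integral_Ioi_of_hasDerivAt_of_tendsto' hd hint ht
  rw [lin4 (int_f _) (int_f _) (int_g 1 le_rfl) (int_g 8 (by norm_num))] at h
  unfold J
  norm_num at h hs
  linarith

lemma lim_back {x e : ℕ → ℝ} (C : ℝ) (h0 : ∀ n, 0 ≤ x n) (hC : ∀ n, x n ≤ C)
    (he : Tendsto e atTop (𝓝 0))
    (h : (∀ n, x n ≤ e n + x (n + 1) / 2) ∨ ∀ n, x (n + 1) ≤ e n + x n / 2) :
    Tendsto x atTop (𝓝 0) := by
  have hC1 : 0 < C + 1 := by linarith [h0 0, hC 0]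
  have key : ∀ k : ℕ, ∀ᶠ n in atTop, x n ≤ (C + 1) * (3 / 4) ^ k := by
    intro k
    induction k with
    | zero => exact Eventually.of_forall fun n => by simp; linarith [hC n]
    | succ k ih =>
      have hp : 0 < (C + 1) * (3 / 4 : ℝ) ^ k / 4 := by positivity
      have h1 := he.eventually (gt_mem_nhds hp)
      rcases h with h | h
      · filter_upwards [h1, (tendsto_add_atTop_nat 1).eventually ih] with n a b
        rw [pow_succ]; linarith [h n]
      · rw [← map_add_atTop_eq_nat 1, eventually_map]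
        filter_upwards [h1, ih] with n a b
        rw [pow_succ]; linarith [h n]
  rw [Metric.tendsto_atTop']
  intro ε hε
  have h34 : Tendsto (fun k : ℕ => (C + 1) * (3 / 4 : ℝ) ^ k) atTop (𝓝 0) := by
    simpa using (tendsto_pow_atTop_nhds_zero_of_lt_one (r := (3 / 4 : ℝ)) (by norm_num)
      (by norm_num)).const_mul (C + 1)
  obtain ⟨k, hk⟩ := (h34.eventually (gt_mem_nhds hε)).exists
  obtain ⟨N, hN⟩ := eventually_atTop.1 (key k)
  refine ⟨N, fun n hn => ?_⟩
  rw [Real.dist_eq, sub_zero, abs_of_nonneg (h0 n)]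
  exact (hN n hn.le).trans_lt hk

end Pool.Agent.H12.Zud
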